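import Pool.Agent.Lib.MP_daa227_pr_HG.BDef

/-!
# MP_daa227_pr, Bessel-like chains: translation
-/

namespace Pool.Agent.HG

open MeasureTheory ProbabilityTheory Finset Filter Topology
open MP_daa227_pr (Chain Zk Zf Gk Gf KU K0 Ren shift seqLaw ExpMom DepOn Good GoodW mom)
open Pool.Agent.HZ (Mod Kv lmg)
open Pool.Agent.IOrd (Sys aS cv)

noncomputable section

/-- the conditions do not depend on the origin: `(x + r)^2 = x^2 (1 + r/x)^2`,
`x = (x + r) - r` and `p₊ - p₋ → 0` -/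
theorem bes_ctr {C : Chain} {φ : ℤ → ℝ} {m α c : ℝ} (h : Bes C φ m α c) (r : ℤ) :
    Bes (HZ.ctr C r) (fun z => φ (z + r)) m α c := by
  have hT : Tendsto (fun x : ℤ => x + r) atTop atTop := tendsto_atTop_add_const_right _ r tendsto_id
  have hinv : Tendsto (fun x : ℤ => ((x : ℝ))⁻¹) atTop (𝓝 0) :=
    tendsto_inv_atTop_zero.comp tendsto_intCast_atTop_atTop
  have e1 : ∀ x : ℤ, (HZ.ctr C r).p x (x + 1) = C.p (x + r) (x + r + 1) := fun x => by
    show C.p (x + r) (x + 1 + r) = _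
    rw [add_right_comm]
  have e2 : ∀ x : ℤ, (HZ.ctr C r).p x (x - 1) = C.p (x + r) (x + r - 1) := fun x => by
    show C.p (x + r) (x - 1 + r) = _
    rw [sub_add_eq_add_sub]
  -- the drift tends to zero
  have hD : Tendsto (fun x : ℤ => C.p x (x + 1) - C.p x (x - 1)) atTop (𝓝 0) := by
    have h1 := h.dr.mul hinv
    rw [mul_zero] at h1
    refine h1.congr' ?_
    filter_upwards [eventually_gt_atTop 0] with x hx
    have hx0 : (x : ℝ) ≠ 0 := by exact_mod_cast hx.ne'
    field_simp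
  have hP1 : Tendsto (fun x : ℤ => (x : ℝ) * φ x) atTop (𝓝 0) := by
    have h1 := h.ph.mul hinv
    rw [mul_zero] at h1
    refine h1.congr' ?_
    filter_upwards [eventually_gt_atTop 0] with x hx
    have hx0 : (x : ℝ) ≠ 0 := by exact_mod_cast hx.ne'
    field_simp
  have hP0 : Tendsto (fun x : ℤ => φ x) atTop (𝓝 0) := by
    have h1 := hP1.mul hinv
    rw [mul_zero] at h1
    refine h1.congr' ?_
    filter_upwards [eventually_gt_atTop 0] with x hx
    have hx0 : (x : ℝ) ≠ 0 := by exact_mod_cast hx.ne'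
    field_simp
  refine ⟨h.m_pos, ?_, ?_, ?_⟩
  · refine (h.mv.comp hT).congr fun x => ?_
    rw [e1, e2]
    rfl
  · have h1 := (h.dr.comp hT).sub ((hD.comp hT).const_mul (r : ℝ))
    rw [mul_zero, sub_zero] at h1
    refine h1.congr fun x => ?_
    rw [e1, e2]
    simp only [Function.comp_apply]
    push_cast
    ring
  · have h1 := ((h.ph.comp hT).sub ((hP1.comp hT).const_mul (2 * r : ℝ))).add
      ((hP0.comp hT).const_mul ((r : ℝ) ^ 2))
    rw [mul_zero, mul_zero, sub_zero, add_zero] at h1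
    refine h1.congr fun x => ?_
    simp only [Function.comp_apply]
    push_cast
    ring

/-- definition of `HZ.ctr` -/
theorem lw_ctr (C : Chain) (w : ℤ → ℝ) (q : ℝ) (r x : ℤ) :
    Lw (HZ.ctr C r) (fun z => w (z + r)) (pq r q) x = Lw C w (pq 0 q) (x + r) := by
  have e1 : x - 1 + r = x + r - 1 := by ring
  have e2 : x + 1 + r = x + r + 1 := by ring
  unfold Lw pq
  show C.p (x + r) (x - 1 + r) * Real.exp (w (x - 1 + r)) * (((x - 1 : ℤ) : ℝ) + r) ^ q +
      C.p (x + r) (x + r) * Real.exp (w (x + r)) * ((x : ℝ) + r) ^ q +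
      C.p (x + r) (x + 1 + r) * Real.exp (w (x + 1 + r)) * (((x + 1 : ℤ) : ℝ) + r) ^ q = _
  rw [e1, e2]
  have f1 : ((x - 1 : ℤ) : ℝ) + r = ((x + r - 1 : ℤ) : ℝ) + 0 := by push_cast; ring
  have f2 : (x : ℝ) + r = ((x + r : ℤ) : ℝ) + 0 := by push_cast; ring
  have f3 : ((x + 1 : ℤ) : ℝ) + r = ((x + r + 1 : ℤ) : ℝ) + 0 := by push_cast; ring
  rw [f1, f2, f3]

end

end Pool.Agent.HG
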