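import Pool.Agent.Lib.MP_daa227_pr_HG.GTail
import Pool.Agent.Lib.MP_daa227_pr_HG.RecShift

/-!
# MP_daa227_pr, penalised Bessel-like chains: definitions
-/

namespace Pool.Agent.HG

open MeasureTheory ProbabilityTheory Finset Filter Topology
open MP_daa227_pr (Chain Zk Zf Gk Gf KU K0 Ren shift seqLaw ExpMom DepOn Good GoodW mom)
open Pool.Agent.HZ (Mod Kv lmg)
open Pool.Agent.IOrd (Sys aS cv)

noncomputable section

/-- one step of the chain with the weights `e^w` (the expression of `HZ.Ssol`) -/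
def Lw (C : Chain) (w f : ℤ → ℝ) (x : ℤ) : ℝ :=
  C.p x (x - 1) * Real.exp (w (x - 1)) * f (x - 1) + C.p x x * Real.exp (w x) * f x +
    C.p x (x + 1) * Real.exp (w (x + 1)) * f (x + 1)

/-- the power `(x + R)^q` -/
def pq (R q : ℝ) (x : ℤ) : ℝ := ((x : ℝ) + R) ^ q

/-- The chain is Bessel-like to the right: loop exponent `α`, rate `m` of the moves; and the potential
is `~ m c x^(-2)`. -/
structure Bes (C : Chain) (φ : ℤ → ℝ) (m α c : ℝ) : Prop where
  m_pos : 0 < m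
  mv : Tendsto (fun x : ℤ => C.p x (x + 1) + C.p x (x - 1)) atTop (𝓝 m)
  dr : Tendsto (fun x : ℤ => (x : ℝ) * (C.p x (x + 1) - C.p x (x - 1))) atTop
    (𝓝 (m * (1 / 2 - α)))
  ph : Tendsto (fun x : ℤ => (x : ℝ) ^ 2 * φ x) atTop (𝓝 (m * c))

theorem Lw_sum (C : Chain) (w f : ℤ → ℝ) (x : ℤ) :
    ∑ z ∈ Finset.Icc (x - 1) (x + 1), C.p x z * Real.exp (w z) * f z = Lw C w f x := by
  rw [HZ.sum_nb x (fun z => C.p x z * Real.exp (w z) * f z)]
  rfl

theorem Lw_mono (C : Chain) (w : ℤ → ℝ) {f g : ℤ → ℝ} {x : ℤ} (h1 : f (x - 1) ≤ g (x - 1))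
    (h2 : f x ≤ g x) (h3 : f (x + 1) ≤ g (x + 1)) : Lw C w f x ≤ Lw C w g x := by
  have n : ∀ z, 0 ≤ C.p x z * Real.exp (w z) := fun z =>
    mul_nonneg (C.nonneg _ _) (Real.exp_pos _).le
  exact add_le_add (add_le_add (mul_le_mul_of_nonneg_left h1 (n _))
    (mul_le_mul_of_nonneg_left h2 (n _))) (mul_le_mul_of_nonneg_left h3 (n _))

theorem Lw_lin (C : Chain) (w f g : ℤ → ℝ) (a b : ℝ) (x : ℤ) :
    Lw C w (fun z => a * f z + b * g z) x = a * Lw C w f x + b * Lw C w g x := by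
  unfold Lw
  ring

/-- nonpositive exponents: constants are supersolutions -/
theorem Lw_one (C : Chain) {w : ℤ → ℝ} (hw : ∀ z, w z ≤ 0) (x : ℤ) :
    Lw C w (fun _ => 1) x ≤ 1 := by
  have e : ∀ z, C.p x z * Real.exp (w z) * 1 ≤ C.p x z := fun z => by
    rw [mul_one]
    exact mul_le_of_le_one_right (C.nonneg _ _) (Real.exp_le_one_iff.2 (hw z))
  have h1 := C.sum_one x
  rw [HZ.sum_nb x (fun z => C.p x z)] at h1
  have h2 := e (x - 1)
  have h3 := e x
  have h4 := e (x + 1)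
  unfold Lw
  linarith

end

end Pool.Agent.HG
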