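import Pool.Agent.Lib.MP_daa227_pr_HG.BDef

/-!
# MP_daa227_pr, the tail functional: equations
-/

namespace Pool.Agent.HG

open MeasureTheory ProbabilityTheory Finset Filter Topology
open MP_daa227_pr (Chain Zk Zf Gk Gf KU K0 Ren shift seqLaw ExpMom DepOn Good GoodW mom)
open Pool.Agent.HZ (Mod Kv lmg)
open Pool.Agent.IOrd (Sys aS cv)

noncomputable section

/-- `E_x [exp (∑ w); the first visit to 0 is finite]` -/
def Hs (C : Chain) (w : ℤ → ℝ) (x : ℤ) : ℝ := ∑' n : ℕ, Kv C w n x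

/-- the same, `1` at the origin -/
def Hb (C : Chain) (w : ℤ → ℝ) (x : ℤ) : ℝ := if x = 0 then 1 else Hs C w x

/-- `E_x [exp (∑ w) (1 - exp (-s T)); T < ∞]`, `T` the first visit to `0` -/
def Ds (C : Chain) (w : ℤ → ℝ) (s : ℝ) (x : ℤ) : ℝ :=
  ∑' n : ℕ, Kv C w n x * (1 - Real.exp (-(s * n)))

/-- the same, `0` at the origin -/
def Db (C : Chain) (w : ℤ → ℝ) (s : ℝ) (x : ℤ) : ℝ := if x = 0 then 0 else Ds C w s x

namespace BDs

theorem kv_le (C : Chain) {w : ℤ → ℝ} (hw : ∀ z, w z ≤ 0) (n : ℕ) (x : ℤ) :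
    Kv C w n x ≤ K0 C n x := by
  have h := HZ.Kv_mono C (v := w) (w := fun _ => 0) hw n x
  rwa [HZ.Kv_K0] at h

theorem split (C : Chain) (w G : ℤ → ℝ) (x : ℤ) :
    ∑ z ∈ Finset.Icc (x - 1) (x + 1), C.p x z * Real.exp (w z) * G z =
      C.p x 0 * Real.exp (w 0) * G 0 +
        ∑ z ∈ Finset.Icc (x - 1) (x + 1) \ {0}, C.p x z * Real.exp (w z) * G z := by
  by_cases h : (0 : ℤ) ∈ Finset.Icc (x - 1) (x + 1)
  · rw [Finset.sdiff_singleton_eq_erase,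
      Finset.add_sum_erase _ (fun z => C.p x z * Real.exp (w z) * G z) h]
  · rw [C.near x 0 h, zero_mul, zero_mul, zero_add, Finset.sdiff_singleton_eq_erase,
      Finset.erase_eq_of_notMem h]

/-- weighted sums of the kernel: the index shift -/
theorem shift_sum (C : Chain) (w : ℤ → ℝ) (a : ℕ → ℝ)
    (hs : ∀ z, Summable (fun n : ℕ => Kv C w n z * a n)) (x : ℤ) :
    ∑' n : ℕ, Kv C w (n + 1) x * a n = C.p x 0 * Real.exp (w 0) * a 0 +
      ∑ z ∈ Finset.Icc (x - 1) (x + 1) \ {0}, C.p x z * Real.exp (w z) *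
        ∑' n : ℕ, Kv C w n z * a n := by
  have h1 : ∀ n : ℕ, Kv C w (n + 1) x * a n =
      (if n = 0 then C.p x 0 * Real.exp (w 0) * a 0 else 0) +
      ∑ z ∈ Finset.Icc (x - 1) (x + 1) \ {0}, C.p x z * Real.exp (w z) *
        (Kv C w n z * a n) := by
    intro n
    rw [HZ.Kv_succ, add_mul, Finset.sum_mul]
    congr 1
    · by_cases hn : n = 0
      · subst hn
        simp
      · rw [if_neg hn, if_neg hn, zero_mul]
    · refine Finset.sum_congr rfl fun z _ => ?_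
      ring
  have h2 : HasSum (fun n : ℕ => if n = 0 then C.p x 0 * Real.exp (w 0) * a 0 else 0)
      (C.p x 0 * Real.exp (w 0) * a 0) :=
    hasSum_ite_eq 0 _
  have h3 : HasSum (fun n : ℕ => ∑ z ∈ Finset.Icc (x - 1) (x + 1) \ {0},
      C.p x z * Real.exp (w z) * (Kv C w n z * a n))
      (∑ z ∈ Finset.Icc (x - 1) (x + 1) \ {0}, C.p x z * Real.exp (w z) *
        ∑' n : ℕ, Kv C w n z * a n) :=
    hasSum_sum fun z _ => (hs z).hasSum.mul_left _
  rw [tsum_congr h1]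
  exact (h2.add h3).tsum_eq

end BDs

/-- `Kv C w n x ≤ K0 C n x` (`HZ.Kv_mono`, `HZ.Kv_K0`), `TailD.summable_K0` -/
theorem kv_summ (C : Chain) {w : ℤ → ℝ} (hw : ∀ z, w z ≤ 0) (x : ℤ) :
    Summable (fun n : ℕ => Kv C w n x) :=
  (TailD.summable_K0 C x).of_nonneg_of_le (fun n => HZ.Kv_nonneg C w n x)
    fun n => BDs.kv_le C hw n x

theorem hs_nonneg (C : Chain) {w : ℤ → ℝ} (hw : ∀ z, w z ≤ 0) (x : ℤ) :
    0 ≤ Hs C w x ∧ Hs C w x ≤ 1 := by
  refine ⟨tsum_nonneg fun n => HZ.Kv_nonneg C w n x, ?_⟩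
  refine Real.tsum_le_of_sum_range_le (fun n => HZ.Kv_nonneg C w n x) fun N => ?_
  refine (Finset.sum_le_sum fun n _ => BDs.kv_le C hw n x).trans ?_
  have h1 := HZ.HalfLine.Gf_K0 C N x (fun _ => 0)
  have h2 := HZ.HalfLine.Gf_nonneg C {0} N x (fun _ => 0)
  rw [Finset.sum_range_succ] at h1
  have h3 := TailD.nn C N x
  linarith

theorem BDs.ds_term (C : Chain) (w : ℤ → ℝ) {s : ℝ} (hs : 0 ≤ s) (n : ℕ) (x : ℤ) :
    0 ≤ Kv C w n x * (1 - Real.exp (-(s * n))) ∧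
      Kv C w n x * (1 - Real.exp (-(s * n))) ≤ Kv C w n x := by
  have h1 := HZ.Kv_nonneg C w n x
  have h2 := TailD.exp_le hs n
  have h3 := Real.exp_pos (-(s * n))
  refine ⟨mul_nonneg h1 (sub_nonneg.2 h2), mul_le_of_le_one_right h1 (by linarith)⟩

theorem BDs.ds_summ (C : Chain) {w : ℤ → ℝ} (hw : ∀ z, w z ≤ 0) {s : ℝ} (hs : 0 ≤ s) (x : ℤ) :
    Summable (fun n : ℕ => Kv C w n x * (1 - Real.exp (-(s * n)))) :=
  (kv_summ C hw x).of_nonneg_of_le (fun n => (BDs.ds_term C w hs n x).1)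
    fun n => (BDs.ds_term C w hs n x).2

theorem ds_nonneg (C : Chain) {w : ℤ → ℝ} (hw : ∀ z, w z ≤ 0) {s : ℝ} (hs : 0 ≤ s) (x : ℤ) :
    0 ≤ Ds C w s x ∧ Ds C w s x ≤ Hs C w x :=
  ⟨tsum_nonneg fun n => (BDs.ds_term C w hs n x).1,
    (BDs.ds_summ C hw hs x).tsum_le_tsum (fun n => (BDs.ds_term C w hs n x).2)
      (kv_summ C hw x)⟩

theorem BDs.succ_sum (C : Chain) {w : ℤ → ℝ} (hw : ∀ z, w z ≤ 0) (x : ℤ) :
    ∑' n : ℕ, Kv C w (n + 1) x = Hs C w x := by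
  unfold Hs
  rw [(kv_summ C hw x).tsum_eq_zero_add, HZ.Kv_zero, zero_add]

theorem BDs.hs_rec (C : Chain) {w : ℤ → ℝ} (hw : ∀ z, w z ≤ 0) (x : ℤ) :
    Hs C w x = Lw C w (Hb C w) x := by
  have h := BDs.shift_sum C w (fun _ => 1)
    (fun z => by simpa only [mul_one] using kv_summ C hw z) x
  simp only [mul_one] at h
  rw [BDs.succ_sum C hw x] at h
  rw [h, ← Lw_sum, BDs.split C w (Hb C w) x]
  congr 1
  · unfold Hb
    rw [if_pos rfl, mul_one]
  · refine Finset.sum_congr rfl fun z hz => ?_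
    rw [Finset.mem_sdiff, Finset.mem_singleton] at hz
    unfold Hb Hs
    rw [if_neg hz.2]

theorem BDs.hb_nonneg (C : Chain) {w : ℤ → ℝ} (hw : ∀ z, w z ≤ 0) (x : ℤ) : 0 ≤ Hb C w x := by
  unfold Hb
  split_ifs
  · exact zero_le_one
  · exact (hs_nonneg C hw x).1

theorem BDs.hs_dn (C : Chain) {w : ℤ → ℝ} (hw : ∀ z, w z ≤ 0) (x : ℤ)
    (h : 0 < Hb C w (x - 1)) : 0 < Hs C w x := by
  rw [BDs.hs_rec C hw x]
  have n : ∀ z, 0 ≤ C.p x z * Real.exp (w z) * Hb C w z := fun z =>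
    mul_nonneg (mul_nonneg (C.nonneg _ _) (Real.exp_pos _).le) (BDs.hb_nonneg C hw z)
  have h1 : 0 < C.p x (x - 1) * Real.exp (w (x - 1)) * Hb C w (x - 1) :=
    mul_pos (mul_pos (C.down x) (Real.exp_pos _)) h
  have h2 := n x
  have h3 := n (x + 1)
  unfold Lw
  linarith

theorem BDs.hs_up (C : Chain) {w : ℤ → ℝ} (hw : ∀ z, w z ≤ 0) (x : ℤ)
    (h : 0 < Hb C w (x + 1)) : 0 < Hs C w x := by
  rw [BDs.hs_rec C hw x]
  have n : ∀ z, 0 ≤ C.p x z * Real.exp (w z) * Hb C w z := fun z =>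
    mul_nonneg (mul_nonneg (C.nonneg _ _) (Real.exp_pos _).le) (BDs.hb_nonneg C hw z)
  have h1 : 0 < C.p x (x + 1) * Real.exp (w (x + 1)) * Hb C w (x + 1) :=
    mul_pos (mul_pos (C.up x) (Real.exp_pos _)) h
  have h2 := n x
  have h3 := n (x - 1)
  unfold Lw
  linarith

theorem BDs.hb_zero (C : Chain) (w : ℤ → ℝ) : Hb C w 0 = 1 := if_pos rfl

theorem BDs.hb_ne (C : Chain) (w : ℤ → ℝ) {x : ℤ} (h : x ≠ 0) : Hb C w x = Hs C w x := if_neg h

theorem BDs.pos_nat (C : Chain) {w : ℤ → ℝ} (hw : ∀ z, w z ≤ 0) :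
    ∀ n : ℕ, 0 < Hb C w n ∧ 0 < Hb C w (-(n : ℤ)) := by
  intro n
  induction n with
  | zero =>
    have h0 : Hb C w ((0 : ℕ) : ℤ) = 1 := BDs.hb_zero C w
    have h1 : Hb C w (-((0 : ℕ) : ℤ)) = 1 := BDs.hb_zero C w
    rw [h0, h1]
    exact ⟨one_pos, one_pos⟩
  | succ n ih =>
    constructor
    · rw [BDs.hb_ne C w (by omega)]
      refine BDs.hs_dn C hw _ ?_
      have h : ((n + 1 : ℕ) : ℤ) - 1 = n := by push_cast; ring
      rw [h]
      exact ih.1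
    · rw [BDs.hb_ne C w (by omega)]
      refine BDs.hs_up C hw _ ?_
      have h : -((n + 1 : ℕ) : ℤ) + 1 = -(n : ℤ) := by push_cast; ring
      rw [h]
      exact ih.2

/-- a path straight to `0` has positive weight (e.g. `KvD.down_pos` for `x ≥ 1`, the same for the
reflected chain, `HZ.Kv_cneg`; for `x = 0`: `HZ.Kv_even_pos`) -/
theorem hs_pos (C : Chain) {w : ℤ → ℝ} (hw : ∀ z, w z ≤ 0) (x : ℤ) : 0 < Hs C w x := by
  have hb : ∀ y : ℤ, 0 < Hb C w y := by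
    intro y
    have h := BDs.pos_nat C hw y.natAbs
    rcases Int.natAbs_eq y with h1 | h1
    · rw [h1]
      exact h.1
    · rw [h1]
      exact h.2
  exact BDs.hs_dn C hw x (hb (x - 1))

/-- sum the recursion `HZ.Kv_succ` over `n` -/
theorem hs_eq (C : Chain) {w : ℤ → ℝ} (hw : ∀ z, w z ≤ 0) (x : ℤ) :
    Hs C w x = Lw C w (Hb C w) x := BDs.hs_rec C hw x

/-- with `1 - exp (-s (n+1)) = (1 - exp (-s n)) exp (-s) + (1 - exp (-s))`:
`Ds x = exp (-s) Lw Db x + (1 - exp (-s)) Hs x` (compare `pt_succ`) -/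
theorem ds_eq (C : Chain) {w : ℤ → ℝ} (hw : ∀ z, w z ≤ 0) {s : ℝ} (hs : 0 ≤ s) (x : ℤ) :
    Ds C w s x = Real.exp (-s) * Lw C w (Db C w s) x + (1 - Real.exp (-s)) * Hs C w x := by
  have h := BDs.shift_sum C w (fun n => 1 - Real.exp (-(s * n))) (BDs.ds_summ C hw hs) x
  have hz : (1 : ℝ) - Real.exp (-(s * ((0 : ℕ) : ℝ))) = 0 := by
    rw [Nat.cast_zero, mul_zero, neg_zero, Real.exp_zero, sub_self]
  have h4 : ∑' n : ℕ, Kv C w (n + 1) x * (1 - Real.exp (-(s * n))) =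
      Lw C w (Db C w s) x := by
    rw [h, ← Lw_sum, BDs.split C w (Db C w s) x]
    congr 1
    · unfold Db
      rw [if_pos rfl, hz]
    · refine Finset.sum_congr rfl fun z hz => ?_
      rw [Finset.mem_sdiff, Finset.mem_singleton] at hz
      unfold Db Ds
      rw [if_neg hz.2]
  have hsm : Summable (fun n : ℕ => Kv C w (n + 1) x) :=
    (summable_nat_add_iff (f := fun n : ℕ => Kv C w n x) 1).2 (kv_summ C hw x)
  have hsd : Summable (fun n : ℕ => Kv C w (n + 1) x * (1 - Real.exp (-(s * n)))) := by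
    refine hsm.of_nonneg_of_le (fun n => ?_) fun n => ?_
    · exact mul_nonneg (HZ.Kv_nonneg C w _ x) (sub_nonneg.2 (TailD.exp_le hs n))
    · refine mul_le_of_le_one_right (HZ.Kv_nonneg C w _ x) ?_
      have := Real.exp_pos (-(s * n))
      linarith
  have h5 : Ds C w s x = ∑' n : ℕ, (Real.exp (-s) * (Kv C w (n + 1) x *
      (1 - Real.exp (-(s * n)))) + (1 - Real.exp (-s)) * Kv C w (n + 1) x) := by
    unfold Ds
    rw [(BDs.ds_summ C hw hs x).tsum_eq_zero_add, HZ.Kv_zero, zero_mul, zero_add]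
    refine tsum_congr fun n => ?_
    rw [TailD.exp_succ]
    ring
  rw [h5, (hsd.mul_left _).tsum_add (hsm.mul_left _), tsum_mul_left, tsum_mul_left, h4,
    BDs.succ_sum C hw x]

/-- `Lw Db ≤ Lw Hb = Hs`, so `Ds x ≥ Lw Db x` by `ds_eq` -/
theorem ds_ge (C : Chain) {w : ℤ → ℝ} (hw : ∀ z, w z ≤ 0) {s : ℝ} (hs : 0 ≤ s) (x : ℤ) :
    Lw C w (Db C w s) x ≤ Ds C w s x := by
  have hle : ∀ z, Db C w s z ≤ Hb C w z := by
    intro z
    unfold Db Hb
    split_ifs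
    · exact zero_le_one
    · exact (ds_nonneg C hw hs z).2
  have h1 : Lw C w (Db C w s) x ≤ Hs C w x := by
    rw [hs_eq C hw x]
    exact Lw_mono C w (hle _) (hle _) (hle _)
  have h2 : 0 ≤ 1 - Real.exp (-s) := by
    rw [sub_nonneg, Real.exp_le_one_iff]
    linarith
  have h3 := mul_le_mul_of_nonneg_left h1 h2
  rw [ds_eq C hw hs x]
  linarith

end

end Pool.Agent.HG
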