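import Pool.Agent.Lib.MP_daa227_pr_HG.BPow

/-!
# MP_daa227_pr, Bessel-like chains, positive loop exponent: exponential moments
-/

namespace Pool.Agent.HG

open MeasureTheory ProbabilityTheory Finset Filter Topology
open MP_daa227_pr (Chain Zk Zf Gk Gf KU K0 Ren shift seqLaw ExpMom DepOn Good GoodW mom)
open Pool.Agent.HZ (Mod Kv lmg)
open Pool.Agent.IOrd (Sys aS cv)

noncomputable section

/-- `bes_pow` with `-η = κ > 0` and `0 < q < 2 α` such that `q^2 - 2 α q + 2 κ c < 0` (e.g. `q = α`,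
`κ c < α^2/2`): `Lw C (κ φ) (pq 0 q) x ≤ pq 0 q x` for `x > b`, some `b ≥ 1`. `HZ.pert` with `v = 0`,
`ζ = φ`, `f₀ = 1`, `g = pq 0 q`, `ε₁ = κ` gives `ε > 0` and a positive `f` with
`HZ.Ssol C (ε φ) 0 f`; `HZ.sum_le_sup` at `x = 1`. -/
theorem bes_exp {C : Chain} {φ : ℤ → ℝ} {m α c : ℝ} (h : Bes C φ m α c) (hα : 0 < α) :
    ∃ κ B : ℝ, 0 < κ ∧ ∀ N : ℕ, ∑ n ∈ range N, Kv C (fun z => κ * φ z) n 1 ≤ B := by
  set κ₀ : ℝ := α ^ 2 / (4 * (|c| + 1)) with hκ₀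
  have hc0 : 0 < |c| + 1 := by positivity
  have hκ0 : 0 < κ₀ := by positivity
  have hκc : κ₀ * c ≤ α ^ 2 / 4 := by
    have h1 : κ₀ * c ≤ κ₀ * (|c| + 1) :=
      mul_le_mul_of_nonneg_left (by linarith [le_abs_self c]) hκ0.le
    have h2 : κ₀ * (|c| + 1) = α ^ 2 / 4 := by
      rw [hκ₀]
      field_simp
    linarith
  have hlim := bes_pow h (-κ₀) α
  have hneg : m / 2 * (α ^ 2 - 2 * α * α - 2 * -κ₀ * c) < 0 := by
    have h1 : α ^ 2 - 2 * α * α - 2 * -κ₀ * c < 0 := by nlinarith [sq_nonneg α, pow_pos hα 2]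
    exact mul_neg_of_pos_of_neg (by linarith [h.m_pos]) h1
  have hev := hlim.eventually_lt_const hneg
  rcases (hev.and (eventually_ge_atTop (1 : ℤ))).exists_forall_of_atTop with ⟨b, hb⟩
  have hb1 : 1 ≤ b := (hb b le_rfl).2
  have hsg : HZ.Ssol C (fun z => (0 : ℝ) + κ₀ * φ z) b (pq 0 α) := by
    intro x hx
    have h1 := hb x hx.le
    have hx0 : (0 : ℝ) < (x : ℝ) + 0 := by
      have : (1 : ℝ) ≤ (x : ℝ) := by exact_mod_cast h1.2
      linarith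
    have h2 : 0 < pq 0 (α - 2) x := Real.rpow_pos_of_pos hx0 _
    have h3 : Lw C (fun z => - -κ₀ * φ z) (pq 0 α) x - pq 0 α x < 0 := by
      by_contra hcon
      push Not at hcon
      exact absurd (div_nonneg hcon h2.le) (not_le.2 h1.1)
    have h4 : (fun z => (0 : ℝ) + κ₀ * φ z) = fun z => - -κ₀ * φ z := by
      funext z
      ring
    rw [h4]
    have h5 : Lw C (fun z => - -κ₀ * φ z) (pq 0 α) x ≤ pq 0 α x := by linarith
    exact h5
  have hs₀ : HZ.Ssol C (fun _ => 0) 0 (fun _ => 1) := fun x _ =>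
    Lw_one C (w := fun _ => 0) (fun _ => le_rfl) x
  have hg : ∀ x, b ≤ x → 0 < pq 0 α x := by
    intro x hx
    have hx0 : (0 : ℝ) < (x : ℝ) + 0 := by
      have : (1 : ℝ) ≤ (x : ℝ) := by exact_mod_cast hb1.trans hx
      linarith
    exact Real.rpow_pos_of_pos hx0 _
  rcases HZ.pert C (fun _ => 0) φ (fun _ => 1) (pq 0 α) b (by omega) (fun _ _ => one_pos) hs₀
    hκ0 hg hsg with ⟨ε, hε, -, f, hf, hfs⟩
  have h4 : (fun z => (0 : ℝ) + ε * φ z) = fun z => ε * φ z := by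
    funext z
    ring
  rw [h4] at hfs
  refine ⟨ε, f 1 / f 0, hε, fun N => ?_⟩
  rw [le_div_iff₀ (hf 0 le_rfl)]
  exact HZ.sum_le_sup C (fun z => ε * φ z) f hf hfs N one_pos

end

end Pool.Agent.HG
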