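import Pool.Agent.Lib.MP_daa227_pr_HG.BDef

/-!
# MP_daa227_pr, comparison with bounded subsolutions
-/

namespace Pool.Agent.HG

open MeasureTheory ProbabilityTheory Finset Filter Topology
open MP_daa227_pr (Chain Zk Zf Gk Gf KU K0 Ren shift seqLaw ExpMom DepOn Good GoodW mom)
open Pool.Agent.HZ (Mod Kv lmg)
open Pool.Agent.IOrd (Sys aS cv)

noncomputable section

namespace BSub

theorem split0 (C : Chain) (g : ℤ → ℝ) (x : ℤ) :
    ∑ z ∈ Finset.Icc (x - 1) (x + 1), C.p x z * g z = C.p x 0 * g 0 +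
      ∑ z ∈ Finset.Icc (x - 1) (x + 1) \ {0}, C.p x z * g z := by
  by_cases h : (0 : ℤ) ∈ Finset.Icc (x - 1) (x + 1)
  · rw [← Finset.sum_sdiff (Finset.singleton_subset_iff.2 h), Finset.sum_singleton, add_comm]
  · rw [C.near x 0 h, zero_mul, zero_add]
    refine Finset.sum_congr ?_ fun _ _ => rfl
    rw [Finset.sdiff_singleton_eq_erase, Finset.erase_eq_of_notMem h]

theorem step (C : Chain) (v u : ℤ → ℝ) (hv : ∀ z, v z ≤ 0)
    (hrec : ∀ x : ℤ, 1 ≤ x → HasSum (fun n : ℕ => K0 C n x) 1) {K : ℝ} (hK : 0 ≤ K)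
    (hu : ∀ x : ℤ, 1 ≤ x → u x ≤ K) (hs : ∀ x : ℤ, 1 ≤ x → u x ≤ Lw C v u x) (N : ℕ) :
    ∀ x : ℤ, 1 ≤ x → u x ≤ u 0 * ∑ n ∈ Finset.range (N + 1), Kv C v n x +
      K * (1 - ∑ n ∈ Finset.range (N + 1), Kv C (fun _ => 0) n x) := by
  induction N with
  | zero =>
    intro x hx
    simpa [HZ.Kv_zero] using hu x hx
  | succ N ih =>
    intro x hx
    have h1 := hs x hx
    rw [← Lw_sum] at h1
    have h2 : ∑ z ∈ Finset.Icc (x - 1) (x + 1), C.p x z * Real.exp (v z) * u z =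
        C.p x 0 * (Real.exp (v 0) * u 0) +
          ∑ z ∈ Finset.Icc (x - 1) (x + 1) \ {0}, C.p x z * (Real.exp (v z) * u z) := by
      rw [← split0 C (fun z => Real.exp (v z) * u z)]
      exact Finset.sum_congr rfl fun z _ => by ring
    have h3 : ∑ z ∈ Finset.Icc (x - 1) (x + 1) \ {0}, C.p x z = 1 - C.p x 0 := by
      have h := split0 C (fun _ => 1) x
      simp only [mul_one] at h
      rw [C.sum_one] at h
      linarith
    have h4 : ∑ z ∈ Finset.Icc (x - 1) (x + 1) \ {0}, C.p x z * (Real.exp (v z) * u z) ≤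
        ∑ z ∈ Finset.Icc (x - 1) (x + 1) \ {0},
          (u 0 * (C.p x z * Real.exp (v z) * ∑ n ∈ Finset.range (N + 1), Kv C v n z) +
            (K * C.p x z - K * (C.p x z * Real.exp ((fun _ : ℤ => (0 : ℝ)) z) *
              ∑ n ∈ Finset.range (N + 1), Kv C (fun _ => 0) n z))) := by
      refine Finset.sum_le_sum fun z hz => ?_
      rw [Finset.mem_sdiff, Finset.mem_Icc, Finset.mem_singleton] at hz
      have hz1 : 1 ≤ z := by omega
      have hp := C.nonneg x z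
      have he0 := (Real.exp_pos (v z)).le
      have he1 : Real.exp (v z) ≤ 1 := Real.exp_le_one_iff.2 (hv z)
      have hB : ∑ n ∈ Finset.range (N + 1), Kv C (fun _ => 0) n z ≤ 1 := by
        have h5 := hrec z hz1
        have h6 : ∑ n ∈ Finset.range (N + 1), K0 C n z ≤ 1 :=
          sum_le_hasSum _ (fun n _ => by rw [← HZ.Kv_K0]; exact HZ.Kv_nonneg C _ n z) h5
        refine (le_of_eq ?_).trans h6
        exact Finset.sum_congr rfl fun n _ => HZ.Kv_K0 C n z
      set A := ∑ n ∈ Finset.range (N + 1), Kv C v n z with hA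
      set B := ∑ n ∈ Finset.range (N + 1), Kv C (fun _ => 0) n z with hBd
      have h7 := ih z hz1
      have h8 : C.p x z * (Real.exp (v z) * u z) ≤
          C.p x z * (Real.exp (v z) * (u 0 * A + K * (1 - B))) :=
        mul_le_mul_of_nonneg_left (mul_le_mul_of_nonneg_left h7 he0) hp
      have h9 : 0 ≤ C.p x z * (K * (1 - B)) :=
        mul_nonneg hp (mul_nonneg hK (by linarith))
      have h10 : Real.exp (v z) * (C.p x z * (K * (1 - B))) ≤ 1 * (C.p x z * (K * (1 - B))) :=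
        mul_le_mul_of_nonneg_right he1 h9
      simp only [Real.exp_zero, mul_one]
      linarith
    rw [HZ.psum_succ C v (N + 1) x, HZ.psum_succ C (fun _ => 0) (N + 1) x,
      if_neg (Nat.succ_ne_zero N), if_neg (Nat.succ_ne_zero N)]
    rw [Finset.sum_add_distrib, Finset.sum_sub_distrib, ← Finset.mul_sum, ← Finset.mul_sum,
      ← Finset.mul_sum, h3] at h4
    simp only [Real.exp_zero, mul_one] at h4 ⊢
    rw [h2] at h1
    linarith

end BSub

/-- Induction on `N` (all `x ≥ 1` at the same time): `u x ≤ u 0 * ∑_{n < N+1} Kv C v n x +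
K * (1 - ∑_{n < N+1} K0 C n x)`. For `N = 0` both sums are `0`. Step: `u x ≤ Lw C v u x =
∑_{z ∈ Icc (x-1) (x+1)} p(x,z) e^(v z) u z` (`Lw_sum`); the term `z = 0` (present for `x = 1`) is
`p(x,0) e^(v 0) u 0` (for `x ≥ 2`, `p(x,0) = 0`, `TailM.p_zero`); insert the induction hypothesis
for `z ≠ 0`, and use `e^(v z) ≤ 1`, `1 - ∑ K0 ≥ 0`, `K ≥ 0`, the recursions `HZ.psum_succ` of the
partial sums of `Kv` (and of `K0 = Kv 0`, `HZ.Kv_K0`) and `C.sum_one`. Let `N → ∞`: the sums of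
`K0` tend to `1`, the sums of `Kv C v n x ≤ K0 C n x` (`HZ.Kv_mono`) converge. -/
theorem sub_cmp (C : Chain) (v u : ℤ → ℝ) (hv : ∀ z, v z ≤ 0)
    (hrec : ∀ x : ℤ, 1 ≤ x → HasSum (fun n : ℕ => K0 C n x) 1) {K : ℝ} (hK : 0 ≤ K)
    (hu : ∀ x : ℤ, 1 ≤ x → u x ≤ K) (hs : ∀ x : ℤ, 1 ≤ x → u x ≤ Lw C v u x) (x : ℤ)
    (hx : 1 ≤ x) : u x ≤ u 0 * ∑' n : ℕ, Kv C v n x := by
  have h0 : HasSum (fun n : ℕ => Kv C (fun _ => 0) n x) 1 := by
    have h := hrec x hx
    have e : (fun n : ℕ => Kv C (fun _ => 0) n x) = fun n : ℕ => K0 C n x :=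
      funext fun n => HZ.Kv_K0 C n x
    rw [e]
    exact h
  have hsv : Summable (fun n : ℕ => Kv C v n x) :=
    Summable.of_nonneg_of_le (fun n => HZ.Kv_nonneg C v n x)
      (fun n => HZ.Kv_mono C (w := fun _ => 0) hv n x) h0.summable
  have h1 : Tendsto (fun N : ℕ => u 0 * ∑ n ∈ Finset.range (N + 1), Kv C v n x +
      K * (1 - ∑ n ∈ Finset.range (N + 1), Kv C (fun _ => 0) n x)) atTop
      (𝓝 (u 0 * (∑' n : ℕ, Kv C v n x) + K * (1 - 1))) := by
    have a1 := (tendsto_add_atTop_iff_nat 1).2 hsv.hasSum.tendsto_sum_nat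
    have a2 := (tendsto_add_atTop_iff_nat 1).2 h0.tendsto_sum_nat
    exact (a1.const_mul _).add ((a2.const_sub 1).const_mul K)
  rw [sub_self, mul_zero, add_zero] at h1
  exact ge_of_tendsto' h1 fun N => BSub.step C v u hv hrec hK hu hs N x hx

end

end Pool.Agent.HG
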