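import Pool.Agent.Lib.MP_daa227_pr_HG.BDs
import Pool.Agent.Lib.MP_daa227_pr_HG.BSub

/-!
# MP_daa227_pr, penalised Bessel-like chains: lower bound for the tail, far away
-/

namespace Pool.Agent.HG

open MeasureTheory ProbabilityTheory Finset Filter Topology
open MP_daa227_pr (Chain Zk Zf Gk Gf KU K0 Ren shift seqLaw ExpMom DepOn Good GoodW mom)
open Pool.Agent.HZ (Mod Kv lmg)
open Pool.Agent.IOrd (Sys aS cv)

noncomputable section

/-- `κ = R^(-σ)`: (1) `u = κ (x+R)^σ` is bounded by `1` on `x ≥ 0` (`σ ≤ 0`), `u 0 = 1`, and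
`h1` gives `κ (x+R)^σ ≤ Hs D w x` for `x ≥ 1` (`sub_cmp` with `v = w`); also at `0` for `Hb`.
(2) Let `C₁ = max C₀ (R^2)`, `L = √(C₁/s) ≥ R`, `u x = κ/2 ((x+R)^σ - L (x+R)^(σ-1))`,
`U x = Hb D w x - max (u x) 0`. For `x ≥ 0`: `U x ≥ Hb x / 2 > 0` by (1); `U 0 = 1` as
`R ≤ L` gives `u 0 ≤ 0`. Claim `Lw D (fun z => w z - s) U x ≤ U x` for `x ≥ 1` (that is
`HZ.Ssol D (w - s) 0 U`): `Lw D (w - s) U x = e^(-s) Lw D w U x` and
`Lw D w U x = Hs x - Lw D w (max u 0) x` (`hs_eq`, linearity). If `u x ≤ 0`: `≤ e^(-s) Hs x ≤ Hs x`.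
If `u x > 0`, i.e. `x + R > L`: `Lw D w (max u 0) x ≥ Lw D w u x ≥ κ/2 ((x+R)^σ - L (1 +
C₀ (x+R)^(-2)) (x+R)^(σ-1))` by `h1`, `h3`, and `C₀ (x+R)^(-2) ≤ C₀/L² ≤ s`, `1 + s ≤ e^s`; so
`Lw D (w - s) U x ≤ e^(-s) (Hs x - κ/2 (x+R)^σ) + κ/2 L (x+R)^(σ-1) ≤ Hs x - κ/2 (x+R)^σ +
κ/2 L (x+R)^(σ-1) = U x`, because `Hs x ≥ κ/2 (x+R)^σ`.
(3) `HZ.sum_le_sup` gives `∑_{n<N} Kv D (w - s) n x * U 0 ≤ U x`, and `Kv D (w - s) n x =
e^(-s n) Kv D w n x` (`TailM.kv_add`). So `Hs x - Ds x ≤ U x = Hs x - max (u x) 0`, i.e.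
`Ds x ≥ u x`. For `x + R ≥ 2 L`: `u x ≥ κ/4 (x+R)^σ`. So the constants are `κ/4` and
`2 √C₁`. -/
theorem low_far (D : Chain) {w : ℤ → ℝ} (hw : ∀ z, w z ≤ 0)
    (hrec : ∀ x : ℤ, 1 ≤ x → HasSum (fun n : ℕ => K0 D n x) 1) {R σ C₀ : ℝ} (hR : 1 ≤ R)
    (hσ : σ ≤ 0) (hC : 0 ≤ C₀)
    (h1 : ∀ x : ℤ, 1 ≤ x → pq R σ x ≤ Lw D w (pq R σ) x)
    (h3 : ∀ x : ℤ, 1 ≤ x →
      Lw D w (pq R (σ - 1)) x ≤ (1 + C₀ * pq R (-2) x) * pq R (σ - 1) x) :
    ∃ κ C₂ : ℝ, 0 < κ ∧ 0 < C₂ ∧ ∀ s : ℝ, 0 < s → s ≤ 1 → ∀ x : ℤ, 1 ≤ x →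
      C₂ / Real.sqrt s ≤ (x : ℝ) + R → κ * pq R σ x ≤ Ds D w s x := by
  have hR0 : (0 : ℝ) < R := by linarith
  obtain ⟨κ', hκ'⟩ : ∃ κ' : ℝ, κ' = R ^ (-σ) := ⟨_, rfl⟩
  have hκ0 : 0 < κ' := by
    rw [hκ']
    exact Real.rpow_pos_of_pos hR0 _
  have hxR : ∀ x : ℤ, 0 ≤ x → R ≤ (x : ℝ) + R := fun x hx => by
    have : (0 : ℝ) ≤ x := by exact_mod_cast hx
    linarith
  have hxp : ∀ x : ℤ, 0 ≤ x → 0 < (x : ℝ) + R := fun x hx => lt_of_lt_of_le hR0 (hxR x hx)
  have hpp : ∀ (q : ℝ) (x : ℤ), 0 ≤ x → 0 < pq R q x := fun q x hx =>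
    Real.rpow_pos_of_pos (hxp x hx) q
  have hz : κ' * pq R σ 0 = 1 := by
    unfold pq
    rw [Int.cast_zero, zero_add, hκ', ← Real.rpow_add hR0, neg_add_cancel, Real.rpow_zero]
  have hb : ∀ x : ℤ, 0 ≤ x → κ' * pq R σ x ≤ 1 := by
    intro x hx
    have h : pq R σ x ≤ R ^ σ :=
      Real.rpow_le_rpow_of_nonpos hR0 (hxR x hx) hσ
    calc κ' * pq R σ x ≤ κ' * R ^ σ := mul_le_mul_of_nonneg_left h hκ0.le
      _ = 1 := by rw [hκ', ← Real.rpow_add hR0, neg_add_cancel, Real.rpow_zero]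
  -- step (1)
  have hH : ∀ x : ℤ, 1 ≤ x → κ' * pq R σ x ≤ Hs D w x := by
    intro x hx
    have h := sub_cmp D w (fun z => κ' * pq R σ z) hw hrec (K := 1) zero_le_one
      (fun z hz1 => hb z (by omega)) (fun z hz1 => by
        have e : Lw D w (fun z => κ' * pq R σ z) z = κ' * Lw D w (pq R σ) z := by
          unfold Lw
          ring
        rw [e]
        exact mul_le_mul_of_nonneg_left (h1 z hz1) hκ0.le) x hx
    have h' : κ' * pq R σ x ≤ κ' * pq R σ 0 * ∑' n : ℕ, Kv D w n x := h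
    rw [hz, one_mul] at h'
    exact h'
  have hHb : ∀ x : ℤ, 0 ≤ x → κ' * pq R σ x ≤ Hb D w x := by
    intro x hx
    unfold Hb
    by_cases h0 : x = 0
    · rw [if_pos h0, h0]
      exact hz.le
    · rw [if_neg h0]
      exact hH x (by omega)
  -- the constants
  obtain ⟨C₁, hC₁⟩ : ∃ C₁ : ℝ, C₁ = max C₀ (R ^ 2) := ⟨_, rfl⟩
  have hC₁R : R ^ 2 ≤ C₁ := by
    rw [hC₁]
    exact le_max_right _ _
  have hC₁0 : C₀ ≤ C₁ := by
    rw [hC₁]
    exact le_max_left _ _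
  have hC₁p : 0 < C₁ := lt_of_lt_of_le (by positivity) hC₁R
  refine ⟨κ' / 4, 2 * Real.sqrt C₁, by positivity, by positivity, ?_⟩
  intro s hs hs1 x hx hfar
  obtain ⟨L, hL⟩ : ∃ L : ℝ, L = Real.sqrt (C₁ / s) := ⟨_, rfl⟩
  have hL2 : L ^ 2 = C₁ / s := by
    rw [hL]
    exact Real.sq_sqrt (by positivity)
  have hLR : R ≤ L := by
    rw [hL]
    refine Real.le_sqrt_of_sq_le (hC₁R.trans ?_)
    rw [le_div_iff₀ hs]
    nlinarith
  have hLp : 0 < L := lt_of_lt_of_le hR0 hLR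
  have hpow1 : ∀ z : ℤ, 0 ≤ z → pq R (σ - 1) z = pq R σ z / ((z : ℝ) + R) := fun z hz1 =>
    Real.rpow_sub_one (hxp z hz1).ne' σ
  obtain ⟨u, hu⟩ : ∃ u : ℤ → ℝ, u = fun z =>
      κ' / 2 * pq R σ z + (-(κ' / 2 * L)) * pq R (σ - 1) z := ⟨_, rfl⟩
  have hux : ∀ z : ℤ, 0 ≤ z → u z = κ' / 2 * pq R σ z * (1 - L / ((z : ℝ) + R)) := by
    intro z hz1
    rw [hu]
    simp only
    rw [hpow1 z hz1]
    ring
  have hule : ∀ z : ℤ, 0 ≤ z → u z ≤ κ' / 2 * pq R σ z := by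
    intro z hz1
    rw [hux z hz1]
    have h2 : 0 ≤ L / ((z : ℝ) + R) := div_nonneg hLp.le (hxp z hz1).le
    have h4 : 0 ≤ κ' / 2 * pq R σ z := mul_nonneg (by positivity) (hpp σ z hz1).le
    nlinarith
  have hHb0 : ∀ z : ℤ, 0 < Hb D w z := by
    intro z
    unfold Hb
    by_cases h0 : z = 0
    · rw [if_pos h0]
      exact one_pos
    · rw [if_neg h0]
      exact hs_pos D hw z
  obtain ⟨U, hU⟩ : ∃ U : ℤ → ℝ, U = fun z => 1 * Hb D w z + (-1) * max (u z) 0 := ⟨_, rfl⟩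
  have hUx : ∀ z, U z = Hb D w z - max (u z) 0 := fun z => by
    rw [hU]
    simp only
    ring
  have hUpos : ∀ z : ℤ, 0 ≤ z → 0 < U z := by
    intro z hz1
    rw [hUx]
    have h2 := hHb0 z
    have h4 := hHb z hz1
    have h5 := hule z hz1
    rcases le_total (u z) 0 with h6 | h6
    · rw [max_eq_right h6]
      linarith
    · rw [max_eq_left h6]
      linarith
  have hU0 : U 0 = 1 := by
    rw [hUx]
    have h2 : u 0 ≤ 0 := by
      rw [hux 0 le_rfl]
      have h4 : 1 ≤ L / (((0 : ℤ) : ℝ) + R) := by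
        rw [Int.cast_zero, zero_add, one_le_div hR0]
        exact hLR
      have h5 : 0 ≤ κ' / 2 * pq R σ 0 := mul_nonneg (by positivity) (hpp σ 0 le_rfl).le
      exact mul_nonpos_of_nonneg_of_nonpos h5 (by linarith)
    rw [max_eq_right h2, sub_zero]
    unfold Hb
    rw [if_pos rfl]
  have hes : Real.exp (-s) ≤ 1 := Real.exp_le_one_iff.2 (by linarith)
  have hes1 : Real.exp (-s) * (1 + s) ≤ 1 := by
    have h2 := Real.add_one_le_exp s
    calc Real.exp (-s) * (1 + s) ≤ Real.exp (-s) * Real.exp s :=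
          mul_le_mul_of_nonneg_left (by linarith) (Real.exp_pos _).le
      _ = 1 := by rw [← Real.exp_add, neg_add_cancel, Real.exp_zero]
  have hHs : ∀ z : ℤ, 1 ≤ z → Hb D w z = Hs D w z := fun z hz1 => by
    unfold Hb
    rw [if_neg (by omega)]
  have hLU : ∀ z : ℤ, Lw D w U z = Hs D w z - Lw D w (fun y => max (u y) 0) z := by
    intro z
    rw [hU, Lw_lin D w (Hb D w) (fun y => max (u y) 0) 1 (-1) z, ← hs_eq D hw z]
    ring
  have hsol : HZ.Ssol D (fun z => w z + -s) 0 U := by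
    intro z hz0
    have hz1 : 1 ≤ z := by omega
    have e : D.p z (z - 1) * Real.exp (w (z - 1) + -s) * U (z - 1) +
        D.p z z * Real.exp (w z + -s) * U z +
        D.p z (z + 1) * Real.exp (w (z + 1) + -s) * U (z + 1) =
        Real.exp (-s) * Lw D w U z := by
      unfold Lw
      rw [Real.exp_add, Real.exp_add, Real.exp_add]
      ring
    change D.p z (z - 1) * Real.exp (w (z - 1) + -s) * U (z - 1) +
        D.p z z * Real.exp (w z + -s) * U z +
        D.p z (z + 1) * Real.exp (w (z + 1) + -s) * U (z + 1) ≤ U z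
    rw [e, hLU z, hUx z, hHs z hz1]
    have hHs0 := (hs_nonneg D hw z).1
    rcases le_or_gt (u z) 0 with h6 | h6
    · rw [max_eq_right h6, sub_zero]
      have h7 : 0 ≤ Lw D w (fun y => max (u y) 0) z := by
        have h8 := Lw_mono D w (f := fun _ => (0 : ℝ)) (g := fun y => max (u y) 0) (x := z)
          (le_max_right _ _) (le_max_right _ _) (le_max_right _ _)
        have h9 : Lw D w (fun _ => (0 : ℝ)) z = 0 := by
          unfold Lw
          ring
        linarith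
      have h8 := Real.exp_pos (-s)
      nlinarith
    · rw [max_eq_left h6.le]
      have hzR := hxp z (by omega)
      have hpz := hpp σ z (by omega)
      have hpz1 := hpp (σ - 1) z (by omega)
      have h7 : Lw D w u z ≤ Lw D w (fun y => max (u y) 0) z :=
        Lw_mono D w (le_max_left _ _) (le_max_left _ _) (le_max_left _ _)
      have h8 : Lw D w u z = κ' / 2 * Lw D w (pq R σ) z +
          (-(κ' / 2 * L)) * Lw D w (pq R (σ - 1)) z := by
        rw [hu]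
        exact Lw_lin D w (pq R σ) (pq R (σ - 1)) _ _ z
      have h9 : L < (z : ℝ) + R := by
        by_contra hcon
        push Not at hcon
        rw [hux z (by omega)] at h6
        have h10 : 1 ≤ L / ((z : ℝ) + R) := (one_le_div hzR).2 hcon
        have h11 : κ' / 2 * pq R σ z * (1 - L / ((z : ℝ) + R)) ≤ 0 :=
          mul_nonpos_of_nonneg_of_nonpos (by positivity) (by linarith)
        linarith
      have h10 : C₀ * pq R (-2) z ≤ s := by
        have h11 : pq R (-2) z = 1 / ((z : ℝ) + R) ^ 2 := by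
          unfold pq
          rw [Real.rpow_neg hzR.le, Real.rpow_two, one_div]
        rw [h11, mul_one_div, div_le_iff₀ (by positivity)]
        have h12 : C₁ / s ≤ ((z : ℝ) + R) ^ 2 := by
          rw [← hL2]
          exact pow_le_pow_left₀ hLp.le h9.le 2
        rw [div_le_iff₀ hs] at h12
        linarith
      have h11 := h1 z hz1
      have h12 := h3 z hz1
      have h13 : (1 + C₀ * pq R (-2) z) * pq R (σ - 1) z ≤ (1 + s) * pq R (σ - 1) z :=
        mul_le_mul_of_nonneg_right (by linarith) hpz1.le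
      have h14 : κ' / 2 * pq R σ z - κ' / 2 * L * ((1 + s) * pq R (σ - 1) z) ≤
          Lw D w (fun y => max (u y) 0) z := by
        have h15 : κ' / 2 * pq R σ z ≤ κ' / 2 * Lw D w (pq R σ) z :=
          mul_le_mul_of_nonneg_left h11 (by positivity)
        have h16 : κ' / 2 * L * Lw D w (pq R (σ - 1)) z ≤
            κ' / 2 * L * ((1 + s) * pq R (σ - 1) z) :=
          mul_le_mul_of_nonneg_left (h12.trans h13) (by positivity)
        linarith
      have h15 := Real.exp_pos (-s)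
      have h16 : Real.exp (-s) * (Hs D w z - Lw D w (fun y => max (u y) 0) z) ≤
          Real.exp (-s) * (Hs D w z -
            (κ' / 2 * pq R σ z - κ' / 2 * L * ((1 + s) * pq R (σ - 1) z))) :=
        mul_le_mul_of_nonneg_left (by linarith) h15.le
      have h17 : Real.exp (-s) * (Hs D w z - κ' / 2 * pq R σ z) ≤
          1 * (Hs D w z - κ' / 2 * pq R σ z) := by
        refine mul_le_mul_of_nonneg_right hes ?_
        have h18 := hH z hz1
        have h19 : 0 < κ' * pq R σ z := by positivity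
        linarith
      have h18 : Real.exp (-s) * (1 + s) * (κ' / 2 * L * pq R (σ - 1) z) ≤
          1 * (κ' / 2 * L * pq R (σ - 1) z) :=
        mul_le_mul_of_nonneg_right hes1 (by positivity)
      have h19 : u z = κ' / 2 * pq R σ z + (-(κ' / 2 * L)) * pq R (σ - 1) z := by
        rw [hu]
      rw [h19]
      nlinarith
  -- step (3)
  have hsm := kv_summ D hw x
  have hkv : ∀ n : ℕ, Kv D (fun z => w z + -s) n x = Kv D w n x * Real.exp (-(s * n)) := by
    intro n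
    rw [TailM.kv_add D w (-s) n x, mul_comm]
    congr 2
    ring
  have hle1 : ∀ n : ℕ, Real.exp (-(s * n)) ≤ 1 := fun n =>
    Real.exp_le_one_iff.2 (by
      have : 0 ≤ s * (n : ℝ) := by positivity
      linarith)
  have hsm2 : Summable (fun n : ℕ => Kv D w n x * Real.exp (-(s * n))) :=
    Summable.of_nonneg_of_le
      (fun n => mul_nonneg (HZ.Kv_nonneg D w n x) (Real.exp_pos _).le)
      (fun n => mul_le_of_le_one_right (HZ.Kv_nonneg D w n x) (hle1 n)) hsm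
  have hsum : ∑' n : ℕ, Kv D w n x * Real.exp (-(s * n)) ≤ U x := by
    refine hsm2.tsum_le_of_sum_range_le fun N => ?_
    have h2 := HZ.sum_le_sup D (fun z => w z + -s) U hUpos hsol N (x := x) (by omega)
    rw [hU0, mul_one] at h2
    calc ∑ n ∈ Finset.range N, Kv D w n x * Real.exp (-(s * n)) =
          ∑ n ∈ Finset.range N, Kv D (fun z => w z + -s) n x :=
          Finset.sum_congr rfl fun n _ => (hkv n).symm
      _ ≤ U x := h2
  have hDs : Ds D w s x = Hs D w x - ∑' n : ℕ, Kv D w n x * Real.exp (-(s * n)) := by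
    unfold Ds Hs
    rw [← hsm.tsum_sub hsm2]
    refine tsum_congr fun n => ?_
    ring
  have h2 : u x ≤ Ds D w s x := by
    rw [hDs]
    have h4 := hUx x
    rw [hHs x hx] at h4
    have h5 := le_max_left (u x) 0
    linarith
  refine le_trans ?_ h2
  rw [hux x (by omega)]
  have hxRp := hxp x (by omega)
  have h4 : 2 * L ≤ (x : ℝ) + R := by
    refine le_trans (le_of_eq ?_) hfar
    rw [hL, Real.sqrt_div hC₁p.le]
    ring
  have h5 : L / ((x : ℝ) + R) ≤ 1 / 2 := by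
    rw [div_le_iff₀ hxRp]
    linarith
  have h6 : 0 ≤ κ' / 2 * pq R σ x := mul_nonneg (by positivity) (hpp σ x (by omega)).le
  nlinarith

end

end Pool.Agent.HG
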