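import Pool.Agent.Lib.MP_daa227_pr_HG.BDs

/-!
# MP_daa227_pr, penalised Bessel-like chains: lower bound for the tail, near the origin
-/

namespace Pool.Agent.HG

open MeasureTheory ProbabilityTheory Finset Filter Topology
open MP_daa227_pr (Chain Zk Zf Gk Gf KU K0 Ren shift seqLaw ExpMom DepOn Good GoodW mom)
open Pool.Agent.HZ (Mod Kv lmg)
open Pool.Agent.IOrd (Sys aS cv)

noncomputable section

/-- `g x = (x+R)^q - R^q`: `g 0 = 0`, `g > 0` on `x ≥ 1` (`q > 0`), and `g x ≤ Lw D w g x` for `x ≥ 1` by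
`h2` and `Lw_one` (`Lw_lin` with the constant function). On the interval `0 ≤ x ≤ L` compare
`u = Ds L / g L * g` with `Db`: `u 0 = 0 = Db 0`, `u L = Db L`, `u ≤ Lw u` and `Db ≥ Lw Db`
(`ds_ge`) at `1 ≤ x < L`. Minimum principle: let `e = Db - u` and suppose that its minimum over
`{0, ..., L}` is `-t < 0`; take the smallest `x` with `e x = -t`; `1 ≤ x < L`, and
`-t = e x ≥ Lw e x ≥ -t ∑_{z ≠ x-1} p(x,z) e^(w z) + p(x,x-1) e^(w (x-1)) e (x-1) > -t` because
`e (x-1) > -t`, `p(x,x-1) > 0` and `∑ p e^w ≤ 1`. Contradiction. At `x = 1` this is the claim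
(`L = 1` is trivial). -/
theorem low_near (D : Chain) {w : ℤ → ℝ} (hw : ∀ z, w z ≤ 0) {R q : ℝ} (hR : 1 ≤ R)
    (hq : 0 < q) (h2 : ∀ x : ℤ, 1 ≤ x → pq R q x ≤ Lw D w (pq R q) x) {s : ℝ} (hs : 0 ≤ s)
    {L : ℤ} (hL : 1 ≤ L) :
    Ds D w s L * ((pq R q 1 - pq R q 0) / (pq R q L - pq R q 0)) ≤ Ds D w s 1 := by
  classical
  have hgpos : ∀ x : ℤ, 1 ≤ x → 0 < pq R q x - pq R q 0 := by
    intro x hx
    have h1 : (0 : ℝ) < x := by
      have : (0 : ℤ) < x := by omega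
      exact_mod_cast this
    have h3 : pq R q 0 < pq R q x := by
      unfold pq
      refine Real.rpow_lt_rpow ?_ ?_ hq
      · push_cast
        linarith
      · push_cast
        linarith
    linarith
  obtain ⟨g, hg⟩ : ∃ g : ℤ → ℝ, g = fun x => pq R q x - pq R q 0 := ⟨_, rfl⟩
  have hg0 : g 0 = 0 := by rw [hg]; simp
  have hgp : ∀ x : ℤ, 1 ≤ x → 0 < g x := fun x hx => by
    rw [hg]
    exact hgpos x hx
  have hLwg : ∀ x : ℤ, 1 ≤ x → g x ≤ Lw D w g x := by
    intro x hx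
    have h1 := Lw_lin D w (pq R q) (fun _ => 1) 1 (-(pq R q 0)) x
    have h3 : Lw D w g x = Lw D w (fun z => 1 * pq R q z + -(pq R q 0) * 1) x := by
      congr 1
      funext z
      rw [hg]
      ring
    rw [h3, h1]
    have h4 := Lw_one D hw x
    have h5 : 0 ≤ pq R q 0 := by
      unfold pq
      refine Real.rpow_nonneg ?_ _
      push_cast
      linarith
    have h6 := h2 x hx
    have h7 : pq R q 0 * Lw D w (fun _ => 1) x ≤ pq R q 0 * 1 := mul_le_mul_of_nonneg_left h4 h5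
    have h8 : g x = pq R q x - pq R q 0 := by rw [hg]
    rw [h8]
    linarith
  obtain ⟨lam, hlam⟩ : ∃ lam : ℝ, lam = Ds D w s L / g L := ⟨_, rfl⟩
  have hgL := hgp L hL
  have hlam0 : 0 ≤ lam := by
    rw [hlam]
    exact div_nonneg (ds_nonneg D hw hs L).1 hgL.le
  obtain ⟨e, he⟩ : ∃ e : ℤ → ℝ, e = fun x => 1 * Db D w s x + -lam * g x := ⟨_, rfl⟩
  have he' : ∀ x, e x = Db D w s x - lam * g x := fun x => by
    rw [he]
    ring
  have hDb0 : Db D w s 0 = 0 := by simp [Db]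
  have hDb : ∀ x : ℤ, 1 ≤ x → Db D w s x = Ds D w s x := fun x hx => by
    unfold Db
    rw [if_neg (by omega)]
  have e0 : e 0 = 0 := by rw [he', hDb0, hg0]; ring
  have eL : e L = 0 := by
    rw [he', hDb L hL, hlam]
    field_simp
    ring
  have hLwe : ∀ x : ℤ, 1 ≤ x → Lw D w e x ≤ e x := by
    intro x hx
    rw [he, Lw_lin]
    have h1 := ds_ge D hw hs x
    rw [← hDb x hx] at h1
    have h3 := mul_le_mul_of_nonneg_left (hLwg x hx) hlam0
    linarith
  -- minimum principle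
  have key : ∀ x ∈ Finset.Icc (0 : ℤ) L, 0 ≤ e x := by
    by_contra hcon
    push Not at hcon
    obtain ⟨x1, hx1, hx1n⟩ := hcon
    obtain ⟨x0, hx0, hmin⟩ := Finset.exists_min_image (Finset.Icc (0 : ℤ) L) e ⟨x1, hx1⟩
    have hneg : e x0 < 0 := lt_of_le_of_lt (hmin x1 hx1) hx1n
    obtain ⟨S, hS⟩ : ∃ S : Finset ℤ, S = (Finset.Icc (0 : ℤ) L).filter fun x => e x = e x0 :=
      ⟨_, rfl⟩
    have hSne : S.Nonempty := ⟨x0, by rw [hS, Finset.mem_filter]; exact ⟨hx0, rfl⟩⟩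
    have hxm := S.min'_mem hSne
    obtain ⟨x, hx⟩ : ∃ x, x = S.min' hSne := ⟨_, rfl⟩
    have hlow : ∀ y ∈ S, x ≤ y := fun y hy => by
      rw [hx]
      exact S.min'_le y hy
    rw [← hx, hS, Finset.mem_filter, Finset.mem_Icc] at hxm
    obtain ⟨⟨hxa, hxb⟩, hxe⟩ := hxm
    have hx0' : x ≠ 0 := by
      rintro h0
      rw [h0, e0] at hxe
      linarith
    have hxL : x ≠ L := by
      rintro h0
      rw [h0, eL] at hxe
      linarith
    have h1x : 1 ≤ x := by omega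
    have h3 := hLwe x h1x
    have hp1 : 0 < D.p x (x - 1) * Real.exp (w (x - 1)) := mul_pos (D.down x) (Real.exp_pos _)
    have hp2 : 0 ≤ D.p x x * Real.exp (w x) := mul_nonneg (D.nonneg _ _) (Real.exp_pos _).le
    have hp3 : 0 ≤ D.p x (x + 1) * Real.exp (w (x + 1)) :=
      mul_nonneg (D.nonneg _ _) (Real.exp_pos _).le
    have h4 := Lw_one D hw x
    have hm1 : e x0 < e (x - 1) := by
      have hmem : x - 1 ∈ Finset.Icc (0 : ℤ) L := Finset.mem_Icc.2 ⟨by omega, by omega⟩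
      refine lt_of_le_of_ne (hmin _ hmem) fun h5 => ?_
      have := hlow (x - 1) (by rw [hS, Finset.mem_filter]; exact ⟨hmem, h5.symm⟩)
      omega
    have hm2 : e x0 ≤ e (x + 1) := hmin _ (Finset.mem_Icc.2 ⟨by omega, by omega⟩)
    unfold Lw at h3 h4
    rw [hxe] at h3
    have h5 := mul_lt_mul_of_pos_left hm1 hp1
    have h6 := mul_le_mul_of_nonneg_left hm2 hp3
    have h7 : e x0 ≤ e x0 * (D.p x (x - 1) * Real.exp (w (x - 1)) * 1 +
        D.p x x * Real.exp (w x) * 1 + D.p x (x + 1) * Real.exp (w (x + 1)) * 1) := by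
      nlinarith
    nlinarith
  have h1 := key 1 (Finset.mem_Icc.2 ⟨by norm_num, hL⟩)
  rw [he', hDb 1 le_rfl, hlam] at h1
  have h3 : Ds D w s L * ((pq R q 1 - pq R q 0) / (pq R q L - pq R q 0)) =
      Ds D w s L / g L * g 1 := by
    rw [hg]
    ring
  rw [h3]
  linarith

end

end Pool.Agent.HG
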