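import Pool.Agent.Lib.MP_daa227_pr_HG.BPt

/-!
# MP_daa227_pr, from Laplace transforms to pointwise lower bounds
-/

namespace Pool.Agent.HG

open MeasureTheory ProbabilityTheory Finset Filter Topology
open MP_daa227_pr (Chain Zk Zf Gk Gf KU K0 Ren shift seqLaw ExpMom DepOn Good GoodW mom)
open Pool.Agent.HZ (Mod Kv lmg)
open Pool.Agent.IOrd (Sys aS cv)

noncomputable section

namespace BPl

theorem params {a ε : ℝ} (ha : 0 < a) (ha1 : a < 1) (hε : 0 < ε) :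
    ∃ κ κ₂ a' a'' : ℝ, 0 < κ ∧ κ < 1 ∧ 0 < κ₂ ∧ 0 < a' ∧ a' < a ∧ a < a'' ∧
      a'' < a' + κ * (1 - a') ∧ a'' < (1 + κ₂) * a' ∧ (a'' + 1 + κ₂) / (1 - κ) < 1 + a + ε := by
  have hE : 0 < 1 + a + ε := by linarith
  obtain ⟨κ, hκ⟩ : ∃ κ : ℝ, κ = ε / (4 * (1 + a + ε)) := ⟨_, rfl⟩
  have hκ0 : 0 < κ := by rw [hκ]; positivity
  have hκE : κ * (1 + a + ε) = ε / 4 := by
    rw [hκ]
    field_simp
  have hκ1 : κ < 1 := by
    by_contra h
    have h1 : 1 * (1 + a + ε) ≤ κ * (1 + a + ε) :=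
      mul_le_mul_of_nonneg_right (not_lt.1 h) hE.le
    linarith
  obtain ⟨η, hη⟩ : ∃ η : ℝ, η = min (min (a / 2) (ε / 8)) (min (κ * (1 - a) / 4) (ε * a / 32)) :=
    ⟨_, rfl⟩
  have hk1 : 0 < κ * (1 - a) := mul_pos hκ0 (by linarith)
  have hea : 0 < ε * a := mul_pos hε ha
  have h1 : η ≤ a / 2 := by rw [hη]; exact (min_le_left _ _).trans (min_le_left _ _)
  have h2 : η ≤ ε / 8 := by rw [hη]; exact (min_le_left _ _).trans (min_le_right _ _)
  have h3 : η ≤ κ * (1 - a) / 4 := by rw [hη]; exact (min_le_right _ _).trans (min_le_left _ _)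
  have h4 : η ≤ ε * a / 32 := by rw [hη]; exact (min_le_right _ _).trans (min_le_right _ _)
  have h0 : 0 < η := by
    rw [hη]
    exact lt_min (lt_min (by linarith) (by linarith)) (lt_min (by linarith) (by linarith))
  refine ⟨κ, ε / 4, a - η, a + η, hκ0, hκ1, by linarith, by linarith, by linarith, by linarith,
    ?_, ?_, ?_⟩
  · nlinarith
  · nlinarith
  · rw [div_lt_iff₀ (by linarith)]
    nlinarith

theorem one_sub_exp_ge {x : ℝ} (h0 : 0 ≤ x) (h1 : x ≤ 1) : x ≤ 2 * (1 - Real.exp (-x)) := by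
  have h2 : Real.exp (-x) ≤ 1 / (1 + x) := by
    rw [Real.exp_neg, ← one_div]
    exact one_div_le_one_div_of_le (by linarith) (by linarith [Real.add_one_le_exp x])
  have h3 : 1 / (1 + x) ≤ 1 - x / 2 := by
    rw [div_le_iff₀ (by linarith)]
    nlinarith
  linarith

theorem half_le {x : ℝ} (h : 1 ≤ x) : 1 ≤ 2 * (1 - Real.exp (-x)) := by
  have h1 := one_sub_exp_ge (x := 1) zero_le_one le_rfl
  have h2 : Real.exp (-x) ≤ Real.exp (-1) := Real.exp_le_exp.2 (by linarith)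
  linarith

theorem count_le {M2 F : ℝ} (hF : 0 ≤ F) (hM2 : 1 ≤ M2) (N : ℕ) :
    ∑ n ∈ range N, (if (n : ℝ) < M2 then F else 0) ≤ 2 * M2 * F := by
  have h1 : ∑ n ∈ range N, (if (n : ℝ) < M2 then F else 0) ≤
      ∑ n ∈ range ⌈M2⌉₊, F := by
    rw [← Finset.sum_filter]
    refine Finset.sum_le_sum_of_subset_of_nonneg ?_ fun _ _ _ => hF
    intro n hn
    rw [Finset.mem_filter] at hn
    rw [Finset.mem_range]
    exact Nat.lt_ceil.2 hn.2
  refine h1.trans ?_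
  rw [Finset.sum_const, Finset.card_range, nsmul_eq_mul]
  refine mul_le_mul_of_nonneg_right ?_ hF
  have h2 := (Nat.ceil_lt_add_one (by linarith : (0:ℝ) ≤ M2)).le
  linarith

/-- the three ranges -/
theorem three {K : ℕ → ℝ} (hK : ∀ n, 0 ≤ K n) {s M1 M2 F U1 U2 : ℝ} (hs : 0 < s)
    (hM1 : 1 ≤ M1) (hM2 : 1 ≤ M2) (hF : 0 ≤ F) (hKF : ∀ n : ℕ, M1 < n → K n ≤ F) (N : ℕ)
    (h1 : ∑ n ∈ range N, K n * (1 - Real.exp (-(1 / M1 * n))) ≤ U1)
    (h2 : ∑ n ∈ range N, K n * (1 - Real.exp (-(1 / M2 * n))) ≤ U2) :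
    ∑ n ∈ range N, K n * (1 - Real.exp (-(s * n))) ≤
      2 * (s * M1) * U1 + 2 * M2 * F + 2 * U2 := by
  have hM1' : 0 < M1 := by linarith
  have hM2' : 0 < M2 := by linarith
  have hpos : ∀ t : ℝ, 0 ≤ t → ∀ n : ℕ, 0 ≤ 1 - Real.exp (-(t * n)) := by
    intro t ht n
    have h3 : Real.exp (-(t * n)) ≤ 1 := Real.exp_le_one_iff.2 (by
      have := mul_nonneg ht (Nat.cast_nonneg (α := ℝ) n)
      linarith)
    linarith
  have hterm : ∀ n : ℕ, K n * (1 - Real.exp (-(s * n))) ≤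
      2 * (s * M1) * (K n * (1 - Real.exp (-(1 / M1 * n)))) +
        (if (n : ℝ) < M2 then F else 0) + 2 * (K n * (1 - Real.exp (-(1 / M2 * n)))) := by
    intro n
    have t1 : 0 ≤ 2 * (s * M1) * (K n * (1 - Real.exp (-(1 / M1 * n)))) :=
      mul_nonneg (by positivity) (mul_nonneg (hK n) (hpos _ (by positivity) n))
    have t2 : 0 ≤ (if (n : ℝ) < M2 then F else 0) := by
      split_ifs
      · exact hF
      · exact le_rfl
    have t3 : 0 ≤ 2 * (K n * (1 - Real.exp (-(1 / M2 * n)))) :=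
      mul_nonneg (by norm_num) (mul_nonneg (hK n) (hpos _ (by positivity) n))
    have t4 : K n * (1 - Real.exp (-(s * n))) ≤ K n := by
      have h3 := mul_nonneg (hK n) (Real.exp_pos (-(s * n))).le
      linarith
    by_cases c1 : (n : ℝ) ≤ M1
    · have h3 : (1 / M1 * n : ℝ) ≤ 1 := by
        rw [one_div_mul_eq_div, div_le_one hM1']
        exact c1
      have h4 : (0:ℝ) ≤ 1 / M1 * n := by positivity
      have h5 := one_sub_exp_ge h4 h3
      have h6 : 1 - Real.exp (-(s * n)) ≤ s * n := by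
        have := Real.add_one_le_exp (-(s * n))
        linarith
      have h7 : s * n = (s * M1) * (1 / M1 * n) := by
        field_simp
      have h8 : 1 - Real.exp (-(s * n)) ≤ (s * M1) * (2 * (1 - Real.exp (-(1 / M1 * n)))) := by
        refine h6.trans ?_
        rw [h7]
        exact mul_le_mul_of_nonneg_left h5 (by positivity)
      have h9 := mul_le_mul_of_nonneg_left h8 (hK n)
      linarith
    · rw [not_le] at c1
      by_cases c2 : (n : ℝ) < M2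
      · have h3 := hKF n c1
        rw [if_pos c2]
        linarith
      · rw [not_lt] at c2
        have h3 : 1 ≤ (1 / M2 * n : ℝ) := by
          rw [one_div_mul_eq_div, one_le_div hM2']
          exact c2
        have h4 := mul_le_mul_of_nonneg_left (half_le h3) (hK n)
        linarith
  refine (Finset.sum_le_sum fun n _ => hterm n).trans ?_
  rw [Finset.sum_add_distrib, Finset.sum_add_distrib, ← Finset.mul_sum, ← Finset.mul_sum]
  have h3 := count_le hF hM2 N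
  have h4 := mul_le_mul_of_nonneg_left h1 (by positivity : 0 ≤ 2 * (s * M1))
  linarith

theorem small_pow {A c e e' : ℝ} (hc : 0 < c) (he : e' < e) :
    ∀ᶠ s : ℝ in 𝓝[>] 0, A * s ^ e ≤ c * s ^ e' := by
  have h1 : Tendsto (fun s : ℝ => A * s ^ (e - e')) (𝓝[>] 0) (𝓝 (A * 0)) := by
    refine Tendsto.const_mul A ?_
    have h2 : ContinuousAt (fun s : ℝ => s ^ (e - e')) 0 :=
      Real.continuousAt_rpow_const 0 (e - e') (Or.inr (by linarith))
    have h3 := h2.tendsto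
    rw [Real.zero_rpow (by linarith)] at h3
    exact h3.mono_left nhdsWithin_le_nhds
  rw [mul_zero] at h1
  filter_upwards [h1.eventually (gt_mem_nhds hc), self_mem_nhdsWithin] with s hs hs0
  have hs0' : 0 < s := hs0
  have h4 : s ^ e = s ^ (e - e') * s ^ e' := by
    rw [← Real.rpow_add hs0', sub_add_cancel]
  rw [h4, ← mul_assoc]
  exact mul_le_mul_of_nonneg_right hs.le (Real.rpow_nonneg hs0'.le _)

end BPl

/-- Given `ε > 0`, choose `κ ∈ (0, 1/2)`, `κ₂ > 0`, `a' < a < a''` with `a' + κ (1 - a') > a''`,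
`(1 + κ₂) a' > a''` and `(1 + a'' + κ₂)/(1 - κ) < 1 + a + ε` (first `κ`, `κ₂` small, then `a'`, `a''`
close to `a`). By `pt_up`, `K n ≤ B' n^(-(1+a'))` for `n ≥ 1` (`K (2k+1) = f k`, `K (2k+2) ≤ f k`).
For small `s` let `M₁ = s^(-(1-κ))`, `M₂ = s^(-(1+κ₂))`. The sum in `hlow` is at most
`∑_{n ≤ M₁} K n s n + ∑_{M₁ < n ≤ M₂} K n + ∑_{n > M₂} K n (1 - e^(-s n))`.
First: `≤ s B' ∑_{n ≤ M₁} n^(-a') ≤ C s M₁^(1-a') = C s^(a' + κ(1-a')) ≤ c/4 s^(a'')` for small `s`.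
Third: with `s₂ = 1/M₂ ≤ s`, `∑_{n > M₂} K n ≤ 2 ∑ K n (1 - e^(-s₂ n)) ≤ 2 A M₂^(-a') =
2 A s^((1+κ₂) a') ≤ c/4 s^(a'')`. Second: `≤ M₂ f k₁` with `k₁ = ⌊(M₁ - 1)/2⌋` or similar (`f`
nonincreasing: `K n ≤ f ((n-1)/2)`). So `f k₁ ≥ c/2 s^(a'' + 1 + κ₂)`. Given a large `k`, choose `s`
with `k₁ ≥ k`, e.g. `M₁ = 2 k + 4`, i.e. `s = (2k+4)^(-1/(1-κ))`: `f k ≥ f k₁`... (take `k₁ ≥ k`, so
`f k ≥ f k₁ ≥ c/2 (2k+4)^(-(a''+1+κ₂)/(1-κ)) ≥ k^(-(1+a+ε))` for large `k`). -/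
theorem pt_low {f K : ℕ → ℝ} (hf : ∀ k, 0 ≤ f k) (hanti : ∀ k, f (k + 1) ≤ f k)
    (hK : ∀ n, 0 ≤ K n) (hK0 : K 0 = 0) (hodd : ∀ k, K (2 * k + 1) = f k)
    (heven : ∀ k, K (2 * k + 2) ≤ f k) {a : ℝ} (ha : 0 < a) (ha1 : a < 1)
    (hup : ∀ a' : ℝ, 0 < a' → a' < a → ∃ A : ℝ, ∀ s : ℝ, 0 < s → s ≤ 1 → ∀ N : ℕ,
      ∑ n ∈ range N, K n * (1 - Real.exp (-(s * n))) ≤ A * s ^ a')
    (hlow : ∀ a'' : ℝ, a < a'' → ∃ c : ℝ, 0 < c ∧ ∀ s : ℝ, 0 < s → s ≤ 1 → ∃ N : ℕ,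
      c * s ^ a'' ≤ ∑ n ∈ range N, K n * (1 - Real.exp (-(s * n)))) :
    LBa a f := by
  intro ε hε
  obtain ⟨κ, κ₂, a', a'', hκ0, hκ1, hκ20, ha'0, ha'a, haa'', hA1, hB1, hC1⟩ :=
    BPl.params ha ha1 hε
  obtain ⟨A, hA⟩ := hup a' ha'0 ha'a
  obtain ⟨c, hc, hlow'⟩ := hlow a'' haa''
  have hκ' : 0 < 1 - κ := by linarith
  obtain ⟨ρ, hρ⟩ : ∃ ρ : ℝ, ρ = 1 / (1 - κ) := ⟨_, rfl⟩
  have hρ0 : 0 < ρ := by rw [hρ]; positivity
  have hρκ : ρ * (1 - κ) = 1 := by rw [hρ]; field_simp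
  obtain ⟨E, hE⟩ : ∃ E : ℝ, E = (a'' + 1 + κ₂) / (1 - κ) := ⟨_, rfl⟩
  rw [← hE] at hC1
  have hEρ : E = ρ * (a'' + 1 + κ₂) := by
    rw [hE, hρ]
    ring
  have hanti' : ∀ i j : ℕ, i ≤ j → f j ≤ f i := fun i j h => antitone_nat_of_succ_le hanti h
  have hKf : ∀ k n : ℕ, 2 * k < n → K n ≤ f k := by
    intro k n h
    rcases Nat.even_or_odd' n with ⟨j, hj | hj⟩
    · obtain ⟨i, rfl⟩ : ∃ i, j = i + 1 := ⟨j - 1, by omega⟩
      rw [hj]
      exact (heven i).trans (hanti' _ _ (by omega))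
    · rw [hj, hodd j]
      exact hanti' _ _ (by omega)
  have hu : Tendsto (fun k : ℕ => (2 * (k : ℝ)) ^ (-ρ)) atTop (𝓝[>] 0) := by
    have h1 : Tendsto (fun k : ℕ => 2 * (k : ℝ)) atTop atTop :=
      tendsto_natCast_atTop_atTop.const_mul_atTop (by norm_num)
    refine tendsto_nhdsWithin_iff.2 ⟨(tendsto_rpow_neg_atTop hρ0).comp h1, ?_⟩
    filter_upwards [eventually_ge_atTop 1] with k hk
    have hk' : (0 : ℝ) < k := by exact_mod_cast hk
    exact Real.rpow_pos_of_pos (by linarith) _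
  have hfin : ∀ᶠ k : ℕ in atTop, 8 / c * (2:ℝ) ^ E ≤ (k : ℝ) ^ (1 + a + ε - E) :=
    ((tendsto_rpow_atTop (by linarith : 0 < 1 + a + ε - E)).comp
      tendsto_natCast_atTop_atTop).eventually_ge_atTop _
  filter_upwards [hu.eventually (BPl.small_pow (A := 2 * A) (c := c / 4) (by positivity) hA1),
    hu.eventually (BPl.small_pow (A := 2 * A) (c := c / 4) (by positivity) hB1), hfin,
    eventually_ge_atTop 1] with k e1 e2 e3 hk
  have hk' : (0 : ℝ) < k := by exact_mod_cast hk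
  have hk1 : (1 : ℝ) ≤ k := by exact_mod_cast hk
  obtain ⟨t, ht⟩ : ∃ t : ℝ, t = 2 * (k : ℝ) := ⟨_, rfl⟩
  rw [← ht] at e1 e2
  have ht1 : 1 ≤ t := by linarith
  have ht0 : 0 < t := by linarith
  obtain ⟨s, hs⟩ : ∃ s : ℝ, s = t ^ (-ρ) := ⟨_, rfl⟩
  rw [← hs] at e1 e2
  have hs0 : 0 < s := by rw [hs]; exact Real.rpow_pos_of_pos ht0 _
  have hs1 : s ≤ 1 := by
    rw [hs]
    exact Real.rpow_le_one_of_one_le_of_nonpos ht1 (by linarith)
  obtain ⟨M2, hM2⟩ : ∃ M2 : ℝ, M2 = s ^ (-(1 + κ₂)) := ⟨_, rfl⟩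
  have hM21 : 1 ≤ M2 := by
    rw [hM2]
    exact Real.one_le_rpow_of_pos_of_le_one_of_nonpos hs0 hs1 (by linarith)
  have hM20 : 0 < M2 := by linarith
  obtain ⟨N, hN⟩ := hlow' s hs0 hs1
  have h1 := hA (1 / t) (by positivity) (by rw [div_le_one ht0]; exact ht1) N
  have h2 := hA (1 / M2) (by positivity) (by rw [div_le_one hM20]; exact hM21) N
  have h3 := BPl.three hK hs0 ht1 hM21 (hf k) (fun n hn => hKf k n (by
    rw [ht] at hn
    exact_mod_cast hn)) N h1 h2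
  have hts : t = s ^ (-(1 - κ)) := by
    rw [hs, ← Real.rpow_mul ht0.le]
    have : -ρ * -(1 - κ) = 1 := by linarith
    rw [this, Real.rpow_one]
  have h4 : 2 * (s * t) * (A * (1 / t) ^ a') = 2 * A * s ^ (a' + κ * (1 - a')) := by
    have h5 : s * t * (1 / t) ^ a' = s ^ (a' + κ * (1 - a')) := by
      rw [one_div, Real.inv_rpow ht0.le, ← Real.rpow_neg ht0.le, hts, ← Real.rpow_mul hs0.le]
      nth_rewrite 1 [← Real.rpow_one s]
      rw [← Real.rpow_add hs0, ← Real.rpow_add hs0]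
      congr 1
      ring
    rw [← h5]
    ring
  have h5 : 2 * (A * (1 / M2) ^ a') = 2 * A * s ^ ((1 + κ₂) * a') := by
    have h6 : (1 / M2) ^ a' = s ^ ((1 + κ₂) * a') := by
      rw [one_div, hM2, ← Real.rpow_neg hs0.le, neg_neg, ← Real.rpow_mul hs0.le]
    rw [h6]
    ring
  rw [h4, h5] at h3
  have h6 : c / 2 * s ^ a'' ≤ 2 * M2 * f k := by
    have h7 := hN.trans h3
    linarith
  have h7 : c / 4 * s ^ (a'' + 1 + κ₂) ≤ f k := by
    have h8 : s ^ (a'' + 1 + κ₂) * M2 = s ^ a'' := by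
      rw [hM2, ← Real.rpow_add hs0]
      congr 1
      ring
    have h9 : c / 4 * s ^ (a'' + 1 + κ₂) * M2 ≤ f k * M2 := by
      rw [mul_assoc, h8]
      linarith
    exact le_of_mul_le_mul_right h9 hM20
  refine le_trans ?_ h7
  have h8 : s ^ (a'' + 1 + κ₂) = (2:ℝ) ^ (-E) * (k : ℝ) ^ (-E) := by
    rw [hs, ← Real.rpow_mul ht0.le, ht, Real.mul_rpow (by norm_num) hk'.le, hEρ]
    congr 2 <;> ring
  rw [h8]
  have h9 : (k : ℝ) ^ (-E) = (k : ℝ) ^ (-(1 + a + ε)) * (k : ℝ) ^ (1 + a + ε - E) := by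
    rw [← Real.rpow_add hk']
    congr 1
    ring
  rw [h9]
  have h10 : 0 < (k : ℝ) ^ (-(1 + a + ε)) := Real.rpow_pos_of_pos hk' _
  have h11 : 1 ≤ c / 4 * ((2:ℝ) ^ (-E) * (k : ℝ) ^ (1 + a + ε - E)) := by
    have h12 : (2:ℝ) ^ (-E) * (2:ℝ) ^ E = 1 := by
      rw [← Real.rpow_add (by norm_num), neg_add_cancel, Real.rpow_zero]
    have h13 := mul_le_mul_of_nonneg_left e3 (by positivity : (0:ℝ) ≤ (2:ℝ) ^ (-E))
    have h14 : (2:ℝ) ^ (-E) * (8 / c * (2:ℝ) ^ E) = 8 / c := by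
      rw [mul_left_comm, h12, mul_one]
    rw [h14] at h13
    have h15 := mul_le_mul_of_nonneg_left h13 (by positivity : 0 ≤ c / 4)
    have h16 : c / 4 * (8 / c) = 2 := by
      field_simp
      norm_num
    linarith
  calc (k : ℝ) ^ (-(1 + a + ε)) = 1 * (k : ℝ) ^ (-(1 + a + ε)) := (one_mul _).symm
    _ ≤ c / 4 * ((2:ℝ) ^ (-E) * (k : ℝ) ^ (1 + a + ε - E)) * (k : ℝ) ^ (-(1 + a + ε)) :=
        mul_le_mul_of_nonneg_right h11 h10.le
    _ = c / 4 * ((2:ℝ) ^ (-E) * ((k : ℝ) ^ (-(1 + a + ε)) * (k : ℝ) ^ (1 + a + ε - E))) := by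
        ring

end

end Pool.Agent.HG
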