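import Pool.Agent.Lib.MP_daa227_pr_HG.BesA

/-!
# MP_daa227_pr, penalised Bessel-like chains: the excursions have polynomial cost
-/

namespace Pool.Agent.HG

open MeasureTheory ProbabilityTheory Finset Filter Topology
open MP_daa227_pr (Chain Zk Zf Gk Gf KU K0 Ren shift seqLaw ExpMom DepOn Good GoodW mom)
open Pool.Agent.HZ (Mod Kv lmg)
open Pool.Agent.IOrd (Sys aS cv)

noncomputable section

namespace BPoly

/-- the minimum principle on `{0, ..., L}` -/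
theorem minp (D : Chain) {w : ℤ → ℝ} (hw : ∀ z, w z ≤ 0) (e : ℤ → ℝ) {L : ℤ}
    (e0 : 0 ≤ e 0) (eL : 0 ≤ e L) (hLwe : ∀ x : ℤ, 1 ≤ x → Lw D w e x ≤ e x) :
    ∀ x ∈ Finset.Icc (0 : ℤ) L, 0 ≤ e x := by
  classical
  by_contra hcon
  push Not at hcon
  obtain ⟨x1, hx1, hx1n⟩ := hcon
  obtain ⟨x0, hx0, hmin⟩ := Finset.exists_min_image (Finset.Icc (0 : ℤ) L) e ⟨x1, hx1⟩
  have hneg : e x0 < 0 := lt_of_le_of_lt (hmin x1 hx1) hx1n
  obtain ⟨S, hS⟩ : ∃ S : Finset ℤ, S = (Finset.Icc (0 : ℤ) L).filter fun x => e x = e x0 :=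
    ⟨_, rfl⟩
  have hSne : S.Nonempty := ⟨x0, by rw [hS, Finset.mem_filter]; exact ⟨hx0, rfl⟩⟩
  have hxm := S.min'_mem hSne
  obtain ⟨x, hx⟩ : ∃ x, x = S.min' hSne := ⟨_, rfl⟩
  have hlow : ∀ y ∈ S, x ≤ y := fun y hy => by
    rw [hx]
    exact S.min'_le y hy
  rw [← hx, hS, Finset.mem_filter, Finset.mem_Icc] at hxm
  obtain ⟨⟨hxa, hxb⟩, hxe⟩ := hxm
  have hx0' : x ≠ 0 := by
    rintro h0
    rw [h0] at hxe
    linarith
  have hxL : x ≠ L := by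
    rintro h0
    rw [h0] at hxe
    linarith
  have h1x : 1 ≤ x := by omega
  have h3 := hLwe x h1x
  have hp1 : 0 < D.p x (x - 1) * Real.exp (w (x - 1)) := mul_pos (D.down x) (Real.exp_pos _)
  have hp2 : 0 ≤ D.p x x * Real.exp (w x) := mul_nonneg (D.nonneg _ _) (Real.exp_pos _).le
  have hp3 : 0 ≤ D.p x (x + 1) * Real.exp (w (x + 1)) :=
    mul_nonneg (D.nonneg _ _) (Real.exp_pos _).le
  have h4 := Lw_one D hw x
  have hm1 : e x0 < e (x - 1) := by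
    have hmem : x - 1 ∈ Finset.Icc (0 : ℤ) L := Finset.mem_Icc.2 ⟨by omega, by omega⟩
    refine lt_of_le_of_ne (hmin _ hmem) fun h5 => ?_
    have := hlow (x - 1) (by rw [hS, Finset.mem_filter]; exact ⟨hmem, h5.symm⟩)
    omega
  have hm2 : e x0 ≤ e (x + 1) := hmin _ (Finset.mem_Icc.2 ⟨by omega, by omega⟩)
  unfold Lw at h3 h4
  rw [hxe] at h3
  have h5 := mul_lt_mul_of_pos_left hm1 hp1
  have h6 := mul_le_mul_of_nonneg_left hm2 hp3
  have h7 : e x0 ≤ e x0 * (D.p x (x - 1) * Real.exp (w (x - 1)) * 1 +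
      D.p x x * Real.exp (w x) * 1 + D.p x (x + 1) * Real.exp (w (x + 1)) * 1) := by
    nlinarith
  nlinarith

/-- the indicator of `n ≥ L` -/
def ind (L n : ℕ) : ℝ := if L ≤ n then 1 else 0

theorem ind_nonneg (L n : ℕ) : 0 ≤ ind L n := by
  unfold ind
  split_ifs
  · exact zero_le_one
  · exact le_rfl

theorem ind_le (L n : ℕ) : ind L n ≤ 1 := by
  unfold ind
  split_ifs
  · exact le_rfl
  · exact zero_le_one

theorem ind_succ (L n : ℕ) : ind L n ≤ ind L (n + 1) := by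
  unfold ind
  by_cases h : L ≤ n
  · rw [if_pos h, if_pos (by omega)]
  · rw [if_neg h]
    split_ifs
    · exact zero_le_one
    · exact le_rfl

/-- the tail of the kernel -/
def Tl (D : Chain) (w : ℤ → ℝ) (L : ℕ) (x : ℤ) : ℝ := ∑' n : ℕ, Kv D w n x * ind L n

theorem tl_summ (D : Chain) {w : ℤ → ℝ} (hw : ∀ z, w z ≤ 0) (L : ℕ) (x : ℤ) :
    Summable (fun n : ℕ => Kv D w n x * ind L n) :=
  (kv_summ D hw x).of_nonneg_of_le
    (fun n => mul_nonneg (HZ.Kv_nonneg D w n x) (ind_nonneg L n))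
    fun n => mul_le_of_le_one_right (HZ.Kv_nonneg D w n x) (ind_le L n)

theorem tl_nonneg (D : Chain) (w : ℤ → ℝ) (L : ℕ) (x : ℤ) : 0 ≤ Tl D w L x :=
  tsum_nonneg fun n => mul_nonneg (HZ.Kv_nonneg D w n x) (ind_nonneg L n)

/-- the tail is a supersolution -/
theorem tl_super (D : Chain) {w : ℤ → ℝ} (hw : ∀ z, w z ≤ 0) {L : ℕ} (hL : 1 ≤ L) (x : ℤ) :
    Lw D w (fun z => if z = 0 then 0 else Tl D w L z) x ≤ Tl D w L x := by
  have h := BDs.shift_sum D w (ind L) (tl_summ D hw L) x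
  have h0 : ind L 0 = 0 := if_neg (by omega)
  rw [h0, mul_zero, zero_add] at h
  have h1 : Lw D w (fun z => if z = 0 then 0 else Tl D w L z) x =
      ∑' n : ℕ, Kv D w (n + 1) x * ind L n := by
    rw [h, ← Lw_sum, BDs.split D w]
    rw [if_pos rfl, mul_zero, zero_add]
    refine Finset.sum_congr rfl fun z hz => ?_
    rw [Finset.mem_sdiff, Finset.mem_singleton] at hz
    rw [if_neg hz.2]
    rfl
  have hsm : Summable (fun n : ℕ => Kv D w (n + 1) x) :=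
    (summable_nat_add_iff (f := fun n : ℕ => Kv D w n x) 1).2 (kv_summ D hw x)
  have h2 : Tl D w L x = ∑' n : ℕ, Kv D w (n + 1) x * ind L (n + 1) := by
    unfold Tl
    rw [(tl_summ D hw L x).tsum_eq_zero_add, HZ.Kv_zero, zero_mul, zero_add]
  rw [h1, h2]
  refine Summable.tsum_le_tsum (fun n => mul_le_mul_of_nonneg_left (ind_succ L n)
    (HZ.Kv_nonneg D w (n + 1) x)) ?_ ?_
  · exact hsm.of_nonneg_of_le
      (fun n => mul_nonneg (HZ.Kv_nonneg D w (n + 1) x) (ind_nonneg L n))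
      fun n => mul_le_of_le_one_right (HZ.Kv_nonneg D w (n + 1) x) (ind_le L n)
  · exact hsm.of_nonneg_of_le
      (fun n => mul_nonneg (HZ.Kv_nonneg D w (n + 1) x) (ind_nonneg L (n + 1)))
      fun n => mul_le_of_le_one_right (HZ.Kv_nonneg D w (n + 1) x) (ind_le L (n + 1))

/-- at distance `L` the tail is everything -/
theorem tl_far (D : Chain) (w : ℤ → ℝ) {L : ℕ} (hL : 1 ≤ L) :
    Tl D w L (L : ℤ) = Hs D w L := by
  unfold Tl Hs
  refine tsum_congr fun n => ?_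
  unfold ind
  by_cases h : L ≤ n
  · rw [if_pos h, mul_one]
  · rw [if_neg h, mul_zero, NAnti.Kv_far D w n (L : ℤ) (by omega) (by omega)]

/-- `Hs` is at least a power -/
theorem hs_low (D : Chain) {w : ℤ → ℝ} (hw : ∀ z, w z ≤ 0)
    (hrec : ∀ x : ℤ, 1 ≤ x → HasSum (fun n : ℕ => K0 D n x) 1) {R σ : ℝ} (hR : 1 ≤ R)
    (hσ : σ ≤ 0) (h1 : ∀ x : ℤ, 1 ≤ x → pq R σ x ≤ Lw D w (pq R σ) x) (x : ℤ) (hx : 1 ≤ x) :
    R ^ (-σ) * pq R σ x ≤ Hs D w x := by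
  have hR0 : (0 : ℝ) < R := by linarith
  obtain ⟨κ', hκ'⟩ : ∃ κ' : ℝ, κ' = R ^ (-σ) := ⟨_, rfl⟩
  have hκ0 : 0 < κ' := by
    rw [hκ']
    exact Real.rpow_pos_of_pos hR0 _
  have hxR : ∀ x : ℤ, 0 ≤ x → R ≤ (x : ℝ) + R := fun x hx => by
    have : (0 : ℝ) ≤ x := by exact_mod_cast hx
    linarith
  have hz : κ' * pq R σ 0 = 1 := by
    unfold pq
    rw [Int.cast_zero, zero_add, hκ', ← Real.rpow_add hR0, neg_add_cancel, Real.rpow_zero]
  have hb : ∀ x : ℤ, 0 ≤ x → κ' * pq R σ x ≤ 1 := by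
    intro x hx
    have h : pq R σ x ≤ R ^ σ :=
      Real.rpow_le_rpow_of_nonpos hR0 (hxR x hx) hσ
    calc κ' * pq R σ x ≤ κ' * R ^ σ := mul_le_mul_of_nonneg_left h hκ0.le
      _ = 1 := by rw [hκ', ← Real.rpow_add hR0, neg_add_cancel, Real.rpow_zero]
  have h := sub_cmp D w (fun z => κ' * pq R σ z) hw hrec (K := 1) zero_le_one
    (fun z hz1 => hb z (by omega)) (fun z hz1 => by
      have e : Lw D w (fun z => κ' * pq R σ z) z = κ' * Lw D w (pq R σ) z := by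
        unfold Lw
        ring
      rw [e]
      exact mul_le_mul_of_nonneg_left (h1 z hz1) hκ0.le) x hx
  have h' : κ' * pq R σ x ≤ κ' * pq R σ 0 * ∑' n : ℕ, Kv D w n x := h
  rw [hz, one_mul] at h'
  rw [← hκ']
  exact h'

/-- the tail from `1` -/
theorem tl_near (D : Chain) {w : ℤ → ℝ} (hw : ∀ z, w z ≤ 0) {R q : ℝ} (hR : 1 ≤ R)
    (hq : 0 < q) (h2 : ∀ x : ℤ, 1 ≤ x → pq R q x ≤ Lw D w (pq R q) x) {L : ℕ} (hL : 1 ≤ L) :
    Hs D w L * ((pq R q 1 - pq R q 0) / (pq R q L - pq R q 0)) ≤ Tl D w L 1 := by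
  have hgpos : ∀ x : ℤ, 1 ≤ x → 0 < pq R q x - pq R q 0 := by
    intro x hx
    have h1 : (0 : ℝ) < x := by
      have : (0 : ℤ) < x := by omega
      exact_mod_cast this
    have h3 : pq R q 0 < pq R q x := by
      unfold pq
      refine Real.rpow_lt_rpow ?_ ?_ hq
      · push_cast
        linarith
      · push_cast
        linarith
    linarith
  obtain ⟨g, hg⟩ : ∃ g : ℤ → ℝ, g = fun x => pq R q x - pq R q 0 := ⟨_, rfl⟩
  have hg0 : g 0 = 0 := by rw [hg]; simp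
  have hgp : ∀ x : ℤ, 1 ≤ x → 0 < g x := fun x hx => by
    rw [hg]
    exact hgpos x hx
  have hLwg : ∀ x : ℤ, 1 ≤ x → g x ≤ Lw D w g x := by
    intro x hx
    have h1 := Lw_lin D w (pq R q) (fun _ => 1) 1 (-(pq R q 0)) x
    have h3 : Lw D w g x = Lw D w (fun z => 1 * pq R q z + -(pq R q 0) * 1) x := by
      congr 1
      funext z
      rw [hg]
      ring
    rw [h3, h1]
    have h4 := Lw_one D hw x
    have h5 : 0 ≤ pq R q 0 := by
      unfold pq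
      refine Real.rpow_nonneg ?_ _
      push_cast
      linarith
    have h6 := h2 x hx
    have h7 : pq R q 0 * Lw D w (fun _ => 1) x ≤ pq R q 0 * 1 := mul_le_mul_of_nonneg_left h4 h5
    have h8 : g x = pq R q x - pq R q 0 := by rw [hg]
    rw [h8]
    linarith
  have hL' : (1 : ℤ) ≤ (L : ℤ) := by exact_mod_cast hL
  obtain ⟨lam, hlam⟩ : ∃ lam : ℝ, lam = Tl D w L L / g L := ⟨_, rfl⟩
  have hgL := hgp L hL'
  have hlam0 : 0 ≤ lam := by
    rw [hlam]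
    exact div_nonneg (tl_nonneg D w L L) hgL.le
  obtain ⟨T', hT'⟩ : ∃ T' : ℤ → ℝ, T' = fun z => if z = 0 then 0 else Tl D w L z := ⟨_, rfl⟩
  have hT0 : T' 0 = 0 := by rw [hT']; exact if_pos rfl
  have hT1 : ∀ x : ℤ, 1 ≤ x → T' x = Tl D w L x := fun x hx => by
    rw [hT']
    exact if_neg (by omega)
  obtain ⟨e, he⟩ : ∃ e : ℤ → ℝ, e = fun x => 1 * T' x + -lam * g x := ⟨_, rfl⟩
  have he' : ∀ x, e x = T' x - lam * g x := fun x => by
    rw [he]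
    ring
  have e0 : e 0 = 0 := by rw [he', hT0, hg0]; ring
  have eL : e L = 0 := by
    rw [he', hT1 L hL', hlam, div_mul_cancel₀ _ hgL.ne', sub_self]
  have hLwe : ∀ x : ℤ, 1 ≤ x → Lw D w e x ≤ e x := by
    intro x hx
    rw [he, Lw_lin]
    have h1 := tl_super D hw hL x
    rw [← hT', ← hT1 x hx] at h1
    have h3 := mul_le_mul_of_nonneg_left (hLwg x hx) hlam0
    linarith
  have h1 := minp D hw e e0.ge eL.ge hLwe 1 (Finset.mem_Icc.2 ⟨by norm_num, hL'⟩)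
  rw [he', hT1 1 le_rfl, hlam] at h1
  rw [← tl_far D w hL]
  have h3 : Tl D w L L * ((pq R q 1 - pq R q 0) / (pq R q L - pq R q 0)) =
      Tl D w L L / g L * g 1 := by
    rw [hg]
    ring
  rw [h3]
  linarith

/-- step (4) -/
theorem tail_up {K : ℕ → ℝ} (hK : ∀ n, 0 ≤ K n) {a A : ℝ}
    (hA : ∀ s : ℝ, 0 < s → s ≤ 1 → ∀ N : ℕ,
      ∑ n ∈ range N, K n * (1 - Real.exp (-(s * n))) ≤ A * s ^ a) {M : ℕ} (hM : 1 ≤ M) (N : ℕ) :
    ∑ n ∈ range N, K n * ind M n ≤ 2 * A * (M : ℝ) ^ (-a) := by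
  have hM0 : (0 : ℝ) < M := by exact_mod_cast hM
  have hs : (0 : ℝ) < (M : ℝ)⁻¹ := inv_pos.2 hM0
  have hs1 : (M : ℝ)⁻¹ ≤ 1 := inv_le_one_of_one_le₀ (by exact_mod_cast hM)
  have h := hA _ hs hs1 N
  rw [Real.inv_rpow hM0.le, ← Real.rpow_neg hM0.le] at h
  have h1 : ∑ n ∈ range N, K n * ind M n ≤
      2 * ∑ n ∈ range N, K n * (1 - Real.exp (-((M : ℝ)⁻¹ * n))) := by
    rw [Finset.mul_sum]
    refine Finset.sum_le_sum fun n _ => ?_
    have h0 : 0 ≤ 1 - Real.exp (-((M : ℝ)⁻¹ * n)) := GTailW.lam_nonneg hs.le n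
    unfold ind
    split_ifs with hn
    · have h2 : (1 : ℝ) ≤ (M : ℝ)⁻¹ * n := by
        rw [inv_mul_eq_div, one_le_div hM0]
        exact_mod_cast hn
      have h3 : Real.exp (-((M : ℝ)⁻¹ * n)) ≤ Real.exp (-1) :=
        Real.exp_le_exp.2 (by linarith)
      have h4 : Real.exp (-1) ≤ 1 / 2 := by
        rw [Real.exp_neg, ← one_div]
        have h5 := Real.add_one_le_exp (1 : ℝ)
        exact one_div_le_one_div_of_le (by norm_num) (by linarith)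
      have h6 := hK n
      nlinarith
    · rw [mul_zero]
      exact mul_nonneg (by norm_num) (mul_nonneg (hK n) h0)
  linarith

/-- step (5): the tail is at most `M f k` plus the far tail -/
theorem tail_split {K f : ℕ → ℝ} (hf : ∀ k, 0 ≤ f k) (hanti : ∀ k, f (k + 1) ≤ f k)
    (hodd : ∀ k, K (2 * k + 1) = f k) (heven : ∀ k, K (2 * k + 2) ≤ f k)
    (k M N : ℕ) :
    ∑ n ∈ range N, K n * ind (2 * k + 1) n ≤ M * f k + ∑ n ∈ range N, |K n| * ind M n := by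
  have hmono : ∀ i k, i ≤ k → f k ≤ f i := fun i k hik => antitone_nat_of_succ_le hanti hik
  have hle : ∀ n, 2 * k + 1 ≤ n → K n ≤ f k := by
    intro n hn
    rcases Nat.even_or_odd' n with ⟨c, hc | hc⟩
    · obtain ⟨d, rfl⟩ : ∃ d, c = d + 1 := ⟨c - 1, by omega⟩
      have h1 : n = 2 * d + 2 := by omega
      rw [h1]
      exact (heven d).trans (hmono k d (by omega))
    · rw [hc, hodd]
      exact hmono k c (by omega)
  have h1 : ∀ n ∈ range N, K n * ind (2 * k + 1) n ≤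
      f k * (if n < M then 1 else 0) + |K n| * ind M n := by
    intro n _
    unfold ind
    by_cases hn : 2 * k + 1 ≤ n
    · rw [if_pos hn, mul_one]
      by_cases hM : n < M
      · rw [if_pos hM, if_neg (by omega), mul_one, mul_zero, add_zero]
        exact hle n hn
      · rw [if_neg hM, if_pos (by omega), mul_one, mul_zero, zero_add]
        exact le_abs_self _
    · rw [if_neg hn, mul_zero]
      have h2 : 0 ≤ f k * (if n < M then 1 else 0) := by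
        refine mul_nonneg (hf k) ?_
        split_ifs
        · exact zero_le_one
        · exact le_rfl
      have h3 : 0 ≤ |K n| * (if M ≤ n then 1 else 0) := by
        refine mul_nonneg (abs_nonneg _) ?_
        split_ifs
        · exact zero_le_one
        · exact le_rfl
      exact add_nonneg h2 h3
  refine (Finset.sum_le_sum h1).trans ?_
  rw [Finset.sum_add_distrib]
  refine add_le_add ?_ le_rfl
  rw [← Finset.mul_sum, mul_comm, ← Finset.sum_filter, Finset.sum_const, nsmul_eq_mul, mul_one]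
  refine mul_le_mul_of_nonneg_right ?_ (hf k)
  have h4 : (range N).filter (fun n => n < M) ⊆ range M := by
    intro n hn
    rw [Finset.mem_filter] at hn
    exact Finset.mem_range.2 hn.2
  have h5 := Finset.card_le_card h4
  rw [Finset.card_range] at h5
  exact_mod_cast h5

/-- the choice of the cut -/
theorem fin {f : ℕ → ℝ} {c A a A₁ : ℝ} (hc : 0 < c) (ha : 0 < a) {r : ℕ}
    (h : ∀ k : ℕ, r < k → ∀ M : ℕ, 1 ≤ M →
      c * (k : ℝ) ^ (-A₁) ≤ M * f k + 2 * A * (M : ℝ) ^ (-a)) :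
    ∃ B : ℝ, ∀ᶠ k : ℕ in atTop, (k : ℝ) ^ (-B) ≤ f k := by
  obtain ⟨p, hp⟩ := exists_nat_ge ((A₁ + 1) / a)
  have hp' : A₁ + 1 ≤ p * a := by
    rwa [div_le_iff₀ ha] at hp
  refine ⟨A₁ + p + 1, ?_⟩
  have h1 : ∀ᶠ k : ℕ in atTop, 4 * |A| / c ≤ k :=
    tendsto_natCast_atTop_atTop.eventually (eventually_ge_atTop _)
  have h2 : ∀ᶠ k : ℕ in atTop, 2 / c ≤ k :=
    tendsto_natCast_atTop_atTop.eventually (eventually_ge_atTop _)
  filter_upwards [h1, h2, eventually_gt_atTop r] with k k1 k2 k3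
  have hk1 : 1 ≤ k := by omega
  have hk0 : (0 : ℝ) < k := by exact_mod_cast hk1
  have hk1' : (1 : ℝ) ≤ k := by exact_mod_cast hk1
  have h3 := h k k3 (k ^ p) (Nat.one_le_pow _ _ hk1)
  have hkA : 0 < (k : ℝ) ^ (-A₁) := Real.rpow_pos_of_pos hk0 _
  have e1 : (((k ^ p : ℕ) : ℝ)) = (k : ℝ) ^ (p : ℝ) := by
    rw [Nat.cast_pow, Real.rpow_natCast]
  rw [e1] at h3
  have h4 : ((k : ℝ) ^ (p : ℝ)) ^ (-a) ≤ (k : ℝ) ^ (-A₁) * (k : ℝ)⁻¹ := by
    rw [← Real.rpow_mul hk0.le, ← Real.rpow_neg_one (k : ℝ), ← Real.rpow_add hk0]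
    refine Real.rpow_le_rpow_of_exponent_le hk1' ?_
    linarith
  have h5 : 2 * A * ((k : ℝ) ^ (p : ℝ)) ^ (-a) ≤ c / 2 * (k : ℝ) ^ (-A₁) := by
    have h6 : 2 * A * ((k : ℝ) ^ (p : ℝ)) ^ (-a) ≤
        2 * |A| * ((k : ℝ) ^ (-A₁) * (k : ℝ)⁻¹) := by
      refine (mul_le_mul_of_nonneg_right ?_ (Real.rpow_nonneg
        (Real.rpow_nonneg hk0.le _) _)).trans (mul_le_mul_of_nonneg_left h4 (by positivity))
      have := le_abs_self A
      linarith
    refine h6.trans ?_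
    have h7 : 2 * |A| * (k : ℝ)⁻¹ ≤ c / 2 := by
      rw [← div_eq_mul_inv, div_le_iff₀ hk0]
      rw [div_le_iff₀ hc] at k1
      linarith
    calc 2 * |A| * ((k : ℝ) ^ (-A₁) * (k : ℝ)⁻¹) = 2 * |A| * (k : ℝ)⁻¹ * (k : ℝ) ^ (-A₁) := by
          ring
      _ ≤ c / 2 * (k : ℝ) ^ (-A₁) := mul_le_mul_of_nonneg_right h7 hkA.le
  have h8 : c / 2 * (k : ℝ) ^ (-A₁) ≤ (k : ℝ) ^ (p : ℝ) * f k := by linarith
  have hkp : 0 < (k : ℝ) ^ (p : ℝ) := Real.rpow_pos_of_pos hk0 _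
  have h9 : (k : ℝ) ^ (p : ℝ) * (k : ℝ) ^ (-(A₁ + p + 1)) ≤ (k : ℝ) ^ (p : ℝ) * f k := by
    refine le_trans ?_ h8
    rw [← Real.rpow_add hk0]
    have e2 : (p : ℝ) + -(A₁ + p + 1) = -A₁ + -1 := by ring
    rw [e2, Real.rpow_add hk0, Real.rpow_neg_one, mul_comm]
    refine mul_le_mul_of_nonneg_right ?_ hkA.le
    rw [inv_le_comm₀ hk0 (by positivity)]
    have e3 : (c / 2)⁻¹ = 2 / c := by rw [inv_div]
    rw [e3]
    exact k2
  exact le_of_mul_le_mul_left h9 hkp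

end BPoly

/-- `w = -η φ`, `s₀ = √(α² + 2 η c) > 0`; fix `a = s₀ + 1`, `q = α + a > 0`, `σ = α - a ≤ 0` and `r ≥ 1` such
that for `D = HZ.ctr C r`, `w' = w (· + r)`, `R = r` the powers `pq R q` and `pq R σ` are subsolutions
on `x ≥ 1` (exactly as in the proof of `bes_low` in BesA.lean: `BesA.sub`, `lw_ctr`).
(1) `Hs D w' x ≥ R^(-σ) (x+R)^σ` for `x ≥ 1`: `sub_cmp` with `u = R^(-σ) pq R σ` (`u ≤ 1`, `u 0 = 1`),
`rec_all D (rec_shift C hrec r)`.
(2) For `L : ℕ`, `L ≥ 1`, let `T x = ∑' n, Kv D w' (n + L) x` (`kv_summ`), `T' 0 = 0`, `T' x = T x` for `x ≠ 0`. Then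
`Lw D w' T' x ≤ T x` for `x ≥ 1` (drop the term `n = 0` and use `HZ.Kv_succ`), and `T L = Hs D w' L`
because `Kv D w' n L = 0` for `n < L` (`NAnti.Kv_far`). The minimum principle of `low_near`
(BLowB.lean; copy its proof with `Db` replaced by `T'`) gives
`T L * ((pq R q 1 - pq R q 0)/(pq R q L - pq R q 0)) ≤ T 1`, so `T 1 ≥ c₂ (L+R)^(-A₁)` with
`A₁ = q - σ`, `c₂ > 0` independent of `L`.
(3) `BesA.lift`: `∑' n, Kv C w (n + L + 2 r) 1 ≥ c₃ (L+R)^(-A₁)`, `c₃ > 0`.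
(4) `bes_up` with `a' = min (s₀/2) 1`: `∑_{n<N} Kv C w n 1 (1 - e^(-s n)) ≤ A s^(a')`; with `s = 1/M`
(`1 - e^(-n/M) ≥ 1/2` for `n ≥ M`): `∑_{M ≤ n < N} Kv C w n 1 ≤ 2 A M^(-a')` for all `N`, so
`∑' n, Kv C w (n + M) 1 ≤ 2 A M^(-a')`.
(5) `f k = Kv C w (2k+1) 1` is nonincreasing (`kv_anti`) and `Kv C w (2k+2) 1 ≤ f k`
(`kv_even_le`), so `Kv C w n 1 ≤ f k` for all `n ≥ 2k+1`. For `k > r` take `L = 2k+1-2r`; for every
`M > 2k+1`: `M f k ≥ ∑_{2k+1 ≤ n < M} Kv C w n 1 ≥ c₃ (L+R)^(-A₁) - 2 A M^(-a')`,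
`L + R ≤ 3 k`. With `M = ⌈K k^(A₁/a')⌉`, `K` large (and at least `4`, `A₁/a' ≥ 1`):
`M f k ≥ (c₃/2) (3k)^(-A₁)`, so `f k ≥ k^(-(A₁ + A₁/a' + 1))` for large `k`. -/
theorem bes_poly {C : Chain} (hrec : HasSum (fun n : ℕ => K0 C (n + 1) 0) 1) {φ : ℤ → ℝ}
    (h0 : ∀ x, 0 ≤ φ x) {m α c η : ℝ} (h : Bes C φ m α c)
    (hα : 0 ≤ α) (hc : 0 ≤ c) (hη : 0 ≤ η) (ha : 0 < Real.sqrt (α ^ 2 + 2 * η * c)) :
    ∃ A : ℝ, ∀ᶠ k : ℕ in atTop,
      (k : ℝ) ^ (-A) ≤ Kv C (fun z => -η * φ z) (2 * k + 1) 1 := by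
  have hw' : ∀ z, -η * φ z ≤ 0 := fun z => by
    have := mul_nonneg hη (h0 z)
    linarith
  have hηc : 0 ≤ 2 * η * c := by positivity
  obtain ⟨s₀, hs₀⟩ : ∃ s₀ : ℝ, s₀ = Real.sqrt (α ^ 2 + 2 * η * c) := ⟨_, rfl⟩
  have hs0 : 0 < s₀ := by rw [hs₀]; exact ha
  have hs0sq : s₀ ^ 2 = α ^ 2 + 2 * η * c := by
    rw [hs₀]
    exact Real.sq_sqrt (by positivity)
  have hαs : α ≤ s₀ := by
    have : α ^ 2 ≤ s₀ ^ 2 := by linarith
    exact le_of_sq_le_sq this hs0.le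
  obtain ⟨a, haa⟩ : ∃ a : ℝ, a = s₀ + 1 := ⟨_, rfl⟩
  have ha2 : α ^ 2 + 2 * η * c < a ^ 2 := by
    rw [← hs0sq, haa]
    nlinarith
  -- far away all conditions hold
  obtain ⟨r₀, hr₀⟩ := eventually_atTop.1 ((BesA.sub h (η := η) (q := α - a) (by nlinarith)).and
    (BesA.sub h (η := η) (q := α + a) (by nlinarith)))
  obtain ⟨r, hr1, hrr⟩ : ∃ r : ℕ, 1 ≤ r ∧ r₀ ≤ (r : ℤ) := ⟨r₀.toNat + 1, by omega, by omega⟩
  obtain ⟨D, hD⟩ : ∃ D : Chain, D = HZ.ctr C r := ⟨_, rfl⟩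
  obtain ⟨w, hwdef⟩ : ∃ w : ℤ → ℝ, w = fun z => -η * φ (z + r) := ⟨_, rfl⟩
  have hw : ∀ z, w z ≤ 0 := fun z => by
    rw [hwdef]
    exact hw' (z + r)
  have hR' : (1 : ℝ) ≤ ((r : ℤ) : ℝ) := by exact_mod_cast hr1
  have hlw : ∀ (q : ℝ) (x : ℤ), Lw D w (pq ((r : ℤ) : ℝ) q) x =
      Lw C (fun z => -η * φ z) (pq 0 q) (x + r) := fun q x => by
    rw [hD, hwdef]
    exact lw_ctr C (fun z => -η * φ z) q r x
  have hpq : ∀ (q : ℝ) (x : ℤ), pq ((r : ℤ) : ℝ) q x = pq 0 q (x + r) := fun q x => by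
    unfold pq
    push_cast
    rw [add_zero]
  have hrecD : ∀ x : ℤ, 1 ≤ x → HasSum (fun n : ℕ => K0 D n x) 1 := fun x hx => by
    rw [hD]
    exact rec_all _ (rec_shift C hrec r) x hx
  have hc1 : ∀ x : ℤ, 1 ≤ x → pq ((r : ℤ) : ℝ) (α - a) x ≤ Lw D w (pq ((r : ℤ) : ℝ) (α - a)) x :=
    fun x hx => by
      rw [hlw, hpq]
      exact (hr₀ (x + r) (by omega)).1
  have hc2 : ∀ x : ℤ, 1 ≤ x → pq ((r : ℤ) : ℝ) (α + a) x ≤ Lw D w (pq ((r : ℤ) : ℝ) (α + a)) x :=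
    fun x hx => by
      rw [hlw, hpq]
      exact (hr₀ (x + r) (by omega)).2
  obtain ⟨R, hR⟩ : ∃ R : ℝ, R = ((r : ℤ) : ℝ) := ⟨_, rfl⟩
  rw [← hR] at hR' hc1 hc2
  have hR0 : 0 < R := by linarith
  have hσ : α - a ≤ 0 := by linarith
  have hq0 : 0 < α + a := by linarith
  have hg1 : 0 < pq R (α + a) 1 - pq R (α + a) 0 := by
    unfold pq
    have := Real.rpow_lt_rpow (by push_cast; linarith : (0 : ℝ) ≤ ((0 : ℤ) : ℝ) + R)
      (by push_cast; linarith : ((0 : ℤ) : ℝ) + R < ((1 : ℤ) : ℝ) + R) hq0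
    linarith
  -- the bound for the translated chain
  have key : ∀ L : ℕ, 1 ≤ L → R ^ (-(α - a)) * (pq R (α + a) 1 - pq R (α + a) 0) *
      ((L : ℝ) + R) ^ (-(2 * a)) ≤ BPoly.Tl D w L 1 := by
    intro L hL
    have hL' : (1 : ℤ) ≤ (L : ℤ) := by exact_mod_cast hL
    have hLR : 0 < (L : ℝ) + R := by positivity
    have h1 := BPoly.hs_low D hw hrecD hR' hσ hc1 L hL'
    have h2 := BPoly.tl_near D hw hR' hq0 hc2 hL
    have hpL : ∀ q : ℝ, pq R q (L : ℤ) = ((L : ℝ) + R) ^ q := fun q => by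
      unfold pq
      rw [Int.cast_natCast]
    have hgL : pq R (α + a) L - pq R (α + a) 0 ≤ ((L : ℝ) + R) ^ (α + a) := by
      have h8 : 0 ≤ pq R (α + a) 0 := by
        unfold pq
        exact Real.rpow_nonneg (by push_cast; linarith) _
      rw [hpL]
      linarith
    have hgL0 : 0 < pq R (α + a) L - pq R (α + a) 0 := by
      have h8 : pq R (α + a) 1 ≤ pq R (α + a) L := by
        unfold pq
        refine Real.rpow_le_rpow (by push_cast; linarith) ?_ hq0.le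
        have : ((1 : ℤ) : ℝ) ≤ ((L : ℤ) : ℝ) := by exact_mod_cast hL'
        linarith
      linarith
    refine le_trans ?_ h2
    have h3 : R ^ (-(α - a)) * ((L : ℝ) + R) ^ (α - a) *
        ((pq R (α + a) 1 - pq R (α + a) 0) / ((L : ℝ) + R) ^ (α + a)) ≤
        Hs D w L * ((pq R (α + a) 1 - pq R (α + a) 0) /
          (pq R (α + a) L - pq R (α + a) 0)) := by
      rw [hpL] at h1
      refine mul_le_mul h1 ?_ (by positivity) (le_trans (by positivity) h1)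
      exact div_le_div_of_nonneg_left hg1.le hgL0 hgL
    refine le_trans (le_of_eq ?_) h3
    have h4 : ((L : ℝ) + R) ^ (-(2 * a)) = ((L : ℝ) + R) ^ (α - a) / ((L : ℝ) + R) ^ (α + a) := by
      rw [← Real.rpow_sub hLR]
      congr 1
      ring
    rw [h4]
    ring
  obtain ⟨e, he, hlift⟩ := BesA.lift C (fun z => -η * φ z) hr1
  rw [← hD, ← hwdef] at hlift
  have ha'0 : 0 < min (s₀ / 2) 1 := lt_min (by linarith) one_pos
  obtain ⟨A, hA0, hA⟩ := bes_up h0 h hα hc hη ha'0 (min_le_right _ _) (by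
    rw [← hs₀]
    exact lt_of_le_of_lt (min_le_left _ _) (by linarith))
  obtain ⟨c₂, hc₂⟩ : ∃ c₂ : ℝ, c₂ = R ^ (-(α - a)) * (pq R (α + a) 1 - pq R (α + a) 0) :=
    ⟨_, rfl⟩
  have hc₂0 : 0 < c₂ := by rw [hc₂]; positivity
  rw [← hc₂] at key
  refine BPoly.fin (c := e * c₂ * 2 ^ (-(2 * a))) (A := A) (a := min (s₀ / 2) 1)
    (A₁ := 2 * a) (by positivity) ha'0 (r := r) fun k hk M hM => ?_
  obtain ⟨L, hL⟩ : ∃ L : ℕ, L + 2 * r = 2 * k + 1 := ⟨2 * k + 1 - 2 * r, by omega⟩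
  have hL1 : 1 ≤ L := by omega
  have hk0 : (0 : ℝ) < k := by
    have : 0 < k := by omega
    exact_mod_cast this
  have h1 : e * c₂ * 2 ^ (-(2 * a)) * (k : ℝ) ^ (-(2 * a)) ≤ e * BPoly.Tl D w L 1 := by
    have h2 : (2 * (k : ℝ)) ^ (-(2 * a)) ≤ ((L : ℝ) + R) ^ (-(2 * a)) := by
      refine Real.rpow_le_rpow_of_nonpos (by positivity) ?_ (by linarith)
      have h3 : (L : ℝ) + 2 * r = 2 * k + 1 := by exact_mod_cast hL
      rw [hR] at hR' ⊢
      push_cast at hR' ⊢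
      linarith
    rw [Real.mul_rpow (by norm_num) hk0.le] at h2
    calc e * c₂ * 2 ^ (-(2 * a)) * (k : ℝ) ^ (-(2 * a)) =
          e * (c₂ * (2 ^ (-(2 * a)) * (k : ℝ) ^ (-(2 * a)))) := by ring
      _ ≤ e * (c₂ * ((L : ℝ) + R) ^ (-(2 * a))) :=
          mul_le_mul_of_nonneg_left (mul_le_mul_of_nonneg_left h2 hc₂0.le) he.le
      _ ≤ e * BPoly.Tl D w L 1 := mul_le_mul_of_nonneg_left (key L hL1) he.le
  refine h1.trans ?_
  have h2 : ∀ N : ℕ, e * ∑ n ∈ range N, Kv D w n 1 * BPoly.ind L n ≤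
      M * Kv C (fun z => -η * φ z) (2 * k + 1) 1 + 2 * A * (M : ℝ) ^ (-(min (s₀ / 2) 1)) := by
    intro N
    have h3 : e * ∑ n ∈ range N, Kv D w n 1 * BPoly.ind L n ≤
        ∑ n ∈ range (N + 2 * r), Kv C (fun z => -η * φ z) n 1 * BPoly.ind (2 * k + 1) n := by
      rw [add_comm N, Finset.sum_range_add, Finset.mul_sum]
      refine le_add_of_nonneg_of_le ?_ ?_
      · exact Finset.sum_nonneg fun n _ => mul_nonneg (HZ.Kv_nonneg _ _ _ _)
          (BPoly.ind_nonneg _ _)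
      · refine Finset.sum_le_sum fun n _ => ?_
        have h4 : BPoly.ind (2 * k + 1) (2 * r + n) = BPoly.ind L n := by
          unfold BPoly.ind
          by_cases hn : L ≤ n
          · rw [if_pos hn, if_pos (by omega)]
          · rw [if_neg hn, if_neg (by omega)]
        rw [h4, ← mul_assoc, add_comm (2 * r) n]
        exact mul_le_mul_of_nonneg_right (hlift n) (BPoly.ind_nonneg _ _)
    refine h3.trans ((BPoly.tail_split (K := fun n => Kv C (fun z => -η * φ z) n 1)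
      (f := fun k => Kv C (fun z => -η * φ z) (2 * k + 1) 1) (fun k => HZ.Kv_nonneg _ _ _ _)
      (fun k => kv_anti C hw' k) (fun k => rfl) (fun k => kv_even_le C hw' k) k M _).trans ?_)
    refine add_le_add le_rfl ?_
    have h5 := BPoly.tail_up (K := fun n => Kv C (fun z => -η * φ z) n 1)
      (fun n => HZ.Kv_nonneg _ _ _ _) hA hM (N + 2 * r)
    refine le_trans (le_of_eq ?_) h5
    refine Finset.sum_congr rfl fun n _ => ?_
    rw [abs_of_nonneg (HZ.Kv_nonneg _ _ _ _)]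
  have h3 : Tendsto (fun N : ℕ => e * ∑ n ∈ range N, Kv D w n 1 * BPoly.ind L n) atTop
      (𝓝 (e * BPoly.Tl D w L 1)) :=
    ((BPoly.tl_summ D hw L 1).hasSum.tendsto_sum_nat).const_mul e
  exact le_of_tendsto' h3 h2

end

end Pool.Agent.HG
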