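import Pool.Agent.Lib.MP_daa227_pr_HG.BDef

/-!
# MP_daa227_pr, penalised Bessel-like chains: one step applied to a power
-/

namespace Pool.Agent.HG

open MeasureTheory ProbabilityTheory Finset Filter Topology
open MP_daa227_pr (Chain Zk Zf Gk Gf KU K0 Ren shift seqLaw ExpMom DepOn Good GoodW mom)
open Pool.Agent.HZ (Mod Kv lmg)
open Pool.Agent.IOrd (Sys aS cv)

noncomputable section

namespace BPow

theorem der (q : ℝ) {t : ℝ} (ht : |t| < 1) :
    HasDerivAt (fun t : ℝ => (1 + t) ^ q) (q * (1 + t) ^ (q - 1)) t := by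
  have h1 : (1 + t) ≠ 0 := by
    have := (abs_lt.1 ht).1
    intro h
    linarith
  have h2 : HasDerivAt (fun t : ℝ => 1 + t) 1 t := by
    simpa using (hasDerivAt_id t).const_add 1
  have h3 := h2.rpow_const (p := q) (Or.inl h1)
  convert! h3 using 1
  ring

theorem der' (q : ℝ) {t : ℝ} (ht : |t| < 1) :
    HasDerivAt (fun t : ℝ => (1 - t) ^ q) (-(q * (1 - t) ^ (q - 1))) t := by
  have h1 : (1 - t) ≠ 0 := by
    have := (abs_lt.1 ht).2
    intro h
    linarith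
  have h2 : HasDerivAt (fun t : ℝ => 1 - t) (-1) t := by
    simpa using (hasDerivAt_id t).const_sub 1
  have h3 := h2.rpow_const (p := q) (Or.inl h1)
  convert! h3 using 1
  ring

theorem lim1 (q : ℝ) :
    Tendsto (fun t : ℝ => ((1 + t) ^ q - (1 - t) ^ q) / t) (𝓝[>] 0) (𝓝 (2 * q)) := by
  have h1 := (der q (t := 0) (by simp)).sub (der' q (t := 0) (by simp))
  have h2 := h1.hasDerivWithinAt (s := Set.Ioi 0)
  have h3 := (hasDerivWithinAt_iff_tendsto_slope' (by simp)).1 h2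
  have h4 : q * (1 + (0:ℝ)) ^ (q - 1) - -(q * (1 - 0) ^ (q - 1)) = 2 * q := by
    simp
    ring
  rw [h4] at h3
  refine h3.congr fun t => ?_
  rw [slope_def_field]
  simp

theorem lim2 (q : ℝ) :
    Tendsto (fun t : ℝ => ((1 + t) ^ q + (1 - t) ^ q - 2) / t ^ 2) (𝓝[>] 0)
      (𝓝 (q * (q - 1))) := by
  have hsmall : ∀ᶠ t : ℝ in 𝓝[>] 0, |t| < 1 := by
    have h1 : ∀ᶠ t : ℝ in 𝓝 0, |t| < 1 := by
      have : Tendsto (fun t : ℝ => |t|) (𝓝 0) (𝓝 |0|) := continuous_abs.continuousAt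
      exact this.eventually (gt_mem_nhds (by simp))
    exact h1.filter_mono nhdsWithin_le_nhds
  refine HasDerivAt.lhopital_zero_nhdsGT
    (f' := fun t => q * (1 + t) ^ (q - 1) + -(q * (1 - t) ^ (q - 1)) - 0)
    (g' := fun t => 2 * t) ?_ ?_ ?_ ?_ ?_ ?_
  · filter_upwards [hsmall] with t ht
    exact ((der q ht).add (der' q ht)).sub (hasDerivAt_const t (2 : ℝ))
  · filter_upwards with t
    simpa using hasDerivAt_pow 2 t
  · filter_upwards [self_mem_nhdsWithin] with t ht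
    have : (0 : ℝ) < t := ht
    positivity
  · have h1 : ContinuousAt (fun t : ℝ => (1 + t) ^ q + (1 - t) ^ q - 2) 0 :=
      (((der q (t := 0) (by simp)).continuousAt.add
        (der' q (t := 0) (by simp)).continuousAt).sub continuousAt_const)
    have h2 : (1 + (0:ℝ)) ^ q + (1 - 0) ^ q - 2 = 0 := by
      simp
      norm_num
    have h3 := h1.tendsto
    simp only [h2] at h3
    exact h3.mono_left nhdsWithin_le_nhds
  · have h1 : Tendsto (fun t : ℝ => t ^ 2) (𝓝 0) (𝓝 (0 ^ 2)) :=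
      (continuous_pow 2).continuousAt
    have h2 : (0:ℝ) ^ 2 = 0 := by norm_num
    rw [h2] at h1
    exact h1.mono_left nhdsWithin_le_nhds
  · have h1 := (lim1 (q - 1)).const_mul (q / 2)
    have h2 : q / 2 * (2 * (q - 1)) = q * (q - 1) := by ring
    rw [h2] at h1
    refine h1.congr' ?_
    filter_upwards [self_mem_nhdsWithin] with t ht
    have h0 : (0 : ℝ) < t := ht
    field_simp
    ring

theorem inv_tend : Tendsto (fun x : ℤ => ((x : ℝ))⁻¹) atTop (𝓝[>] 0) := by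
  have h1 : Tendsto (fun x : ℤ => (x : ℝ)) atTop atTop := tendsto_intCast_atTop_atTop
  exact tendsto_inv_atTop_nhdsGT_zero.comp h1

theorem D1 (q : ℝ) : Tendsto (fun x : ℤ => (((x : ℝ) + 1) ^ q - ((x : ℝ) - 1) ^ q) /
    (x : ℝ) ^ (q - 1)) atTop (𝓝 (2 * q)) := by
  refine ((lim1 q).comp inv_tend).congr' ?_
  filter_upwards [eventually_ge_atTop 2] with x hx
  have hx' : (2 : ℝ) ≤ x := by exact_mod_cast hx
  have hX : (0 : ℝ) < x := by linarith
  have e1 : (x : ℝ) + 1 = x * (1 + (x : ℝ)⁻¹) := by field_simp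
  have e2 : (x : ℝ) - 1 = x * (1 - (x : ℝ)⁻¹) := by field_simp
  have hi : (x : ℝ)⁻¹ ≤ 1 := by
    rw [inv_le_one₀ hX]; linarith
  have hi0 : 0 ≤ (x : ℝ)⁻¹ := by positivity
  have e3 : (x : ℝ) ^ q = x ^ (q - 1) * x := by
    rw [← Real.rpow_add_one hX.ne']
    congr 1
    ring
  have hp : (x : ℝ) ^ (q - 1) ≠ 0 := (Real.rpow_pos_of_pos hX _).ne'
  simp only [Function.comp_apply]
  rw [e1, e2, Real.mul_rpow hX.le (by linarith), Real.mul_rpow hX.le (by linarith), e3]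
  field_simp

theorem D2 (q : ℝ) : Tendsto (fun x : ℤ => (((x : ℝ) + 1) ^ q + ((x : ℝ) - 1) ^ q -
    2 * (x : ℝ) ^ q) / (x : ℝ) ^ (q - 2)) atTop (𝓝 (q * (q - 1))) := by
  refine ((lim2 q).comp inv_tend).congr' ?_
  filter_upwards [eventually_ge_atTop 2] with x hx
  have hx' : (2 : ℝ) ≤ x := by exact_mod_cast hx
  have hX : (0 : ℝ) < x := by linarith
  have e1 : (x : ℝ) + 1 = x * (1 + (x : ℝ)⁻¹) := by field_simp
  have e2 : (x : ℝ) - 1 = x * (1 - (x : ℝ)⁻¹) := by field_simp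
  have hi : (x : ℝ)⁻¹ ≤ 1 := by
    rw [inv_le_one₀ hX]; linarith
  have hi0 : 0 ≤ (x : ℝ)⁻¹ := by positivity
  have e3 : (x : ℝ) ^ q = x ^ (q - 2) * x ^ 2 := by
    rw [← Real.rpow_natCast (x : ℝ) 2, ← Real.rpow_add hX]
    congr 1
    push_cast
    ring
  have hp : (x : ℝ) ^ (q - 2) ≠ 0 := (Real.rpow_pos_of_pos hX _).ne'
  simp only [Function.comp_apply]
  rw [e1, e2, Real.mul_rpow hX.le (by linarith), Real.mul_rpow hX.le (by linarith), e3]
  field_simp

/-- the weights -/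
theorem wlim {w : ℤ → ℝ} {L : ℝ} (h : Tendsto (fun x : ℤ => (x : ℝ) ^ 2 * w x) atTop (𝓝 L)) :
    Tendsto (fun x : ℤ => (Real.exp (w x) - 1) * (x : ℝ) ^ 2) atTop (𝓝 L) := by
  have hx2 : Tendsto (fun x : ℤ => ((x : ℝ) ^ 2)⁻¹) atTop (𝓝 0) := by
    have h1 : Tendsto (fun x : ℤ => (x : ℝ)) atTop atTop := tendsto_intCast_atTop_atTop
    exact tendsto_inv_atTop_zero.comp ((tendsto_pow_atTop two_ne_zero).comp h1)
  have hw0 : Tendsto w atTop (𝓝 0) := by
    have h2 := h.mul hx2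
    rw [mul_zero] at h2
    refine h2.congr' ?_
    filter_upwards [eventually_ge_atTop 1] with x hx
    have hx' : (1 : ℝ) ≤ x := by exact_mod_cast hx
    have hX : (0 : ℝ) < x := by linarith
    field_simp
  have herr : Tendsto (fun x : ℤ => (Real.exp (w x) - 1 - w x) * (x : ℝ) ^ 2) atTop (𝓝 0) := by
    have h3 : Tendsto (fun x : ℤ => |(x : ℝ) ^ 2 * w x| * |w x|) atTop (𝓝 0) := by
      have := h.abs.mul hw0.abs
      simpa using this
    refine squeeze_zero_norm' ?_ h3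
    have h4 : ∀ᶠ x : ℤ in atTop, |w x| < 1 := by
      have := hw0.abs
      rw [abs_zero] at this
      exact this.eventually (gt_mem_nhds one_pos)
    filter_upwards [h4] with x hx
    have h5 := Real.abs_exp_sub_one_sub_id_le hx.le
    rw [Real.norm_eq_abs, abs_mul, abs_of_nonneg (sq_nonneg (x : ℝ)), abs_mul,
      abs_of_nonneg (sq_nonneg (x : ℝ))]
    have h6 : |w x| ^ 2 = w x ^ 2 := sq_abs _
    nlinarith [sq_nonneg (x : ℝ)]
  have h7 := herr.add h
  rw [zero_add] at h7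
  refine h7.congr fun x => ?_
  ring

theorem ratio (r : ℝ) (j : ℤ) :
    Tendsto (fun x : ℤ => ((((x + j : ℤ) : ℝ)) / (x : ℝ)) ^ r) atTop (𝓝 1) := by
  have h1 : Tendsto (fun x : ℤ => (((x + j : ℤ) : ℝ)) / (x : ℝ)) atTop (𝓝 1) := by
    have h2 : Tendsto (fun x : ℤ => 1 + (j : ℝ) * ((x : ℝ))⁻¹) atTop (𝓝 (1 + (j : ℝ) * 0)) :=
      ((inv_tend.mono_right nhdsWithin_le_nhds).const_mul _).const_add 1
    rw [mul_zero, add_zero] at h2
    refine h2.congr' ?_
    filter_upwards [eventually_ge_atTop 1] with x hx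
    have hx' : (1 : ℝ) ≤ x := by exact_mod_cast hx
    have hX : (0 : ℝ) < x := by linarith
    push_cast
    field_simp
  have h3 := h1.rpow_const (p := r) (Or.inl one_ne_zero)
  rwa [Real.one_rpow] at h3

/-- one neighbour -/
theorem nb {w : ℤ → ℝ} {L : ℝ} (h : Tendsto (fun x : ℤ => (x : ℝ) ^ 2 * w x) atTop (𝓝 L))
    (q : ℝ) (j : ℤ) :
    Tendsto (fun x : ℤ => (Real.exp (w (x + j)) - 1) * (((x + j : ℤ) : ℝ)) ^ q /
      (x : ℝ) ^ (q - 2)) atTop (𝓝 L) := by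
  have hs : Tendsto (fun x : ℤ => x + j) atTop atTop := tendsto_atTop_add_const_right _ j
    tendsto_id
  have h1 := ((wlim h).comp hs).mul (ratio (q - 2) j)
  rw [mul_one] at h1
  refine h1.congr' ?_
  filter_upwards [eventually_ge_atTop 1, eventually_ge_atTop (1 - j)] with x hx hx2
  have hx' : (1 : ℝ) ≤ x := by exact_mod_cast hx
  have hX : (0 : ℝ) < x := by linarith
  have hz' : (1 : ℝ) ≤ ((x + j : ℤ) : ℝ) := by exact_mod_cast (by omega : 1 ≤ x + j)
  have hz : (0 : ℝ) < ((x + j : ℤ) : ℝ) := by linarith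
  have e3 : ((x + j : ℤ) : ℝ) ^ q = ((x + j : ℤ) : ℝ) ^ 2 * ((x + j : ℤ) : ℝ) ^ (q - 2) := by
    rw [← Real.rpow_natCast (((x + j : ℤ) : ℝ)) 2, ← Real.rpow_add hz]
    congr 1
    push_cast
    ring
  simp only [Function.comp_apply]
  rw [Real.div_rpow hz.le hX.le, e3]
  ring

end BPow

/-- Write `p₊ = p(x, x+1)`, `p₋ = p(x, x-1)`, `p₊ + p(x,x) + p₋ = 1` (`C.sum_one`, `HZ.sum_nb`). Then
`Lw x^q - x^q = ∑_z p(x,z) (z^q - x^q) + ∑_z p(x,z) (e^(w z) - 1) z^q`, `w = -η φ`.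
First sum divided by `x^(q-2)`: `(p₊ + p₋)/2 * ((x+1)^q + (x-1)^q - 2 x^q) / x^(q-2)
+ x (p₊ - p₋)/2 * ((x+1)^q - (x-1)^q) / x^(q-1)`, and the two quotients of powers tend to
`q (q-1)` and `2 q` (with `t = 1/x → 0`: `((1+t)^q + (1-t)^q - 2)/t^2 → q (q-1)`,
`((1+t)^q - (1-t)^q)/t → 2 q`; derivatives at `0`, e.g. l'Hospital or Taylor). Second sum:
`(e^(w z) - 1) z^2 → -η m c` as `z → ∞` (`(e^y - 1)/y → 1`, `w z → 0`; or
`|e^y - 1 - y| ≤ y^2` for `|y| ≤ 1`) and `(z/x)^q → 1` for `z = x-1, x, x+1`. -/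
theorem bes_pow {C : Chain} {φ : ℤ → ℝ} {m α c : ℝ} (h : Bes C φ m α c) (η q : ℝ) :
    Tendsto (fun x : ℤ => (Lw C (fun z => -η * φ z) (pq 0 q) x - pq 0 q x) / pq 0 (q - 2) x)
      atTop (𝓝 (m / 2 * (q ^ 2 - 2 * α * q - 2 * η * c))) := by
  have hL : Tendsto (fun x : ℤ => (x : ℝ) ^ 2 * (-η * φ x)) atTop (𝓝 (-η * (m * c))) := by
    refine (h.ph.const_mul (-η)).congr fun x => ?_
    ring
  set L : ℝ := -η * (m * c) with hLdef
  set w : ℤ → ℝ := fun z => -η * φ z with hw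
  -- probabilities
  have hsum : ∀ x : ℤ, C.p x (x - 1) + C.p x x + C.p x (x + 1) = 1 := fun x => by
    have h1 := C.sum_one x
    rw [HZ.sum_nb x (fun z => C.p x z)] at h1
    exact h1
  have hp1 : ∀ x z : ℤ, z = x - 1 ∨ z = x ∨ z = x + 1 → |C.p x z| ≤ 1 := by
    intro x z hz
    have h1 := hsum x
    have a1 := C.nonneg x (x - 1)
    have a2 := C.nonneg x x
    have a3 := C.nonneg x (x + 1)
    rw [abs_of_nonneg (C.nonneg _ _)]
    rcases hz with rfl | rfl | rfl <;> linarith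
  have hT : ∀ j : ℤ, (j = -1 ∨ j = 0 ∨ j = 1) → Tendsto (fun x : ℤ => C.p x (x + j) *
      ((Real.exp (w (x + j)) - 1) * (((x + j : ℤ) : ℝ)) ^ q / (x : ℝ) ^ (q - 2) - L))
      atTop (𝓝 0) := by
    intro j hj
    have h1 : Tendsto (fun x : ℤ => (Real.exp (w (x + j)) - 1) * (((x + j : ℤ) : ℝ)) ^ q /
      (x : ℝ) ^ (q - 2) - L) atTop (𝓝 0) := by
      have := (BPow.nb hL q j).sub_const L
      rwa [sub_self] at this
    have h2 := h1.abs
    rw [abs_zero] at h2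
    refine squeeze_zero_norm (fun x => ?_) h2
    rw [Real.norm_eq_abs, abs_mul]
    have h3 : |C.p x (x + j)| ≤ 1 := hp1 x (x + j) (by
      rcases hj with rfl | rfl | rfl
      · left; ring
      · right; left; ring
      · right; right; ring)
    exact mul_le_of_le_one_left (abs_nonneg _) h3
  have hS2 := ((hT (-1) (by simp)).add (hT 0 (by simp))).add (hT 1 (by simp))
  have hS1 := ((h.mv.div_const 2).mul (BPow.D2 q)).add ((h.dr.div_const 2).mul (BPow.D1 q))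
  have hall := (hS1.add hS2).add_const L
  have hlim : m / 2 * (q * (q - 1)) + m * (1 / 2 - α) / 2 * (2 * q) + (0 + 0 + 0) + L =
      m / 2 * (q ^ 2 - 2 * α * q - 2 * η * c) := by
    rw [hLdef]
    ring
  rw [hlim] at hall
  refine hall.congr' ?_
  filter_upwards [eventually_ge_atTop 2] with x hx
  have hx' : (2 : ℝ) ≤ x := by exact_mod_cast hx
  have hX : (0 : ℝ) < x := by linarith
  have hp2 : (x : ℝ) ^ (q - 2) ≠ 0 := (Real.rpow_pos_of_pos hX _).ne'
  have e3 : (x : ℝ) ^ (q - 1) = x ^ (q - 2) * x := by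
    rw [← Real.rpow_add_one hX.ne']
    congr 1
    ring
  have hs := hsum x
  have j1 : x + -1 = x - 1 := by ring
  have j0 : x + 0 = x := by ring
  have c1 : ((x - 1 : ℤ) : ℝ) = (x : ℝ) - 1 := by push_cast; ring
  have c2 : ((x + 1 : ℤ) : ℝ) = (x : ℝ) + 1 := by push_cast; ring
  unfold Lw pq
  simp only [j1, j0, c1, c2, add_zero]
  rw [e3]
  field_simp
  linear_combination (-2 * L * (x : ℝ) ^ (q - 2) - 2 * (x : ℝ) ^ q) * hs

end

end Pool.Agent.HG
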