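import Pool.Agent.Lib.MP_daa227_pr_HG.FinA

/-!
# MP_daa227_pr, from Laplace transforms to pointwise bounds
-/

namespace Pool.Agent.HG

open MeasureTheory ProbabilityTheory Finset Filter Topology
open MP_daa227_pr (Chain Zk Zf Gk Gf KU K0 Ren shift seqLaw ExpMom DepOn Good GoodW mom)
open Pool.Agent.HZ (Mod Kv lmg)
open Pool.Agent.IOrd (Sys aS cv)

noncomputable section

/-- `N = 2 k + 2`, `s = 1/(k+1)`: for `j ≤ k` with `2 j + 1 ≥ k + 1`... precisely: the terms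
`n = 2 j + 1` with `k/2 ≤ j ≤ k` satisfy `K n = f j ≥ f k` and `s n ≥ (k+1)/(k+1) = 1`, so
`1 - e^(-s n) ≥ 1 - e^(-1) ≥ 1/2`, and there are at least `(k+1)/2` of them. Hence
`f k (k+1)/4 ≤ A (k+1)^(-a)`. -/
theorem pt_up {f K : ℕ → ℝ} (hf : ∀ k, 0 ≤ f k) (hanti : ∀ k, f (k + 1) ≤ f k)
    (hK : ∀ n, 0 ≤ K n) (hodd : ∀ k, K (2 * k + 1) = f k) {a A : ℝ}
    (hA : ∀ s : ℝ, 0 < s → s ≤ 1 → ∀ N : ℕ,
      ∑ n ∈ range N, K n * (1 - Real.exp (-(s * n))) ≤ A * s ^ a) :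
    ∃ B : ℝ, ∀ k : ℕ, f k ≤ B * ((k : ℝ) + 1) ^ (-(1 + a)) := by
  have hmono : ∀ i k, i ≤ k → f k ≤ f i := fun i k hik => antitone_nat_of_succ_le hanti hik
  refine ⟨4 * A, fun k => ?_⟩
  have hk : (0 : ℝ) < (k : ℝ) + 1 := by positivity
  have hk1 : (1 : ℝ) ≤ (k : ℝ) + 1 := by
    have : (0 : ℝ) ≤ k := Nat.cast_nonneg k
    linarith
  have hs : (0 : ℝ) < ((k : ℝ) + 1)⁻¹ := inv_pos.2 hk
  have hs1 : ((k : ℝ) + 1)⁻¹ ≤ 1 := inv_le_one_of_one_le₀ hk1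
  have h := hA _ hs hs1 (2 * k + 2)
  have hnn : ∀ n : ℕ, 0 ≤ K n * (1 - Real.exp (-(((k : ℝ) + 1)⁻¹ * n))) := by
    intro n
    refine mul_nonneg (hK n) ?_
    have h1 : Real.exp (-(((k : ℝ) + 1)⁻¹ * n)) ≤ 1 := Real.exp_le_one_iff.2 (by
      have : (0 : ℝ) ≤ ((k : ℝ) + 1)⁻¹ * n := by positivity
      linarith)
    linarith
  have hsub : ∑ j ∈ Ico ((k + 1) / 2) (k + 1),
      K (2 * j + 1) * (1 - Real.exp (-(((k : ℝ) + 1)⁻¹ * ((2 * j + 1 : ℕ) : ℝ)))) ≤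
      ∑ n ∈ range (2 * k + 2), K n * (1 - Real.exp (-(((k : ℝ) + 1)⁻¹ * n))) := by
    rw [← Finset.sum_image (f := fun n : ℕ => K n * (1 - Real.exp (-(((k : ℝ) + 1)⁻¹ * n))))
      (g := fun j => 2 * j + 1) (fun i _ j _ hij => by simp only at hij; omega)]
    refine Finset.sum_le_sum_of_subset_of_nonneg ?_ fun n _ _ => hnn n
    intro n hn
    rw [Finset.mem_image] at hn
    obtain ⟨j, hj, rfl⟩ := hn
    rw [Finset.mem_Ico] at hj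
    rw [Finset.mem_range]
    omega
  have hterm : ∀ j ∈ Ico ((k + 1) / 2) (k + 1), f k * (1 / 2) ≤
      K (2 * j + 1) * (1 - Real.exp (-(((k : ℝ) + 1)⁻¹ * ((2 * j + 1 : ℕ) : ℝ)))) := by
    intro j hj
    rw [Finset.mem_Ico] at hj
    rw [hodd]
    refine mul_le_mul (hmono j k (by omega)) ?_ (by norm_num) (hf j)
    have h1 : (1 : ℝ) ≤ ((k : ℝ) + 1)⁻¹ * ((2 * j + 1 : ℕ) : ℝ) := by
      rw [inv_mul_eq_div, one_le_div hk]
      have h2 : k + 1 ≤ 2 * j + 1 := by omega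
      exact_mod_cast h2
    have h2 : Real.exp (-(((k : ℝ) + 1)⁻¹ * ((2 * j + 1 : ℕ) : ℝ))) ≤ Real.exp (-1) :=
      Real.exp_le_exp.2 (by linarith)
    have h3 : Real.exp (-1) ≤ 1 / 2 := by
      rw [Real.exp_neg, ← one_div]
      have h4 := Real.add_one_le_exp (1 : ℝ)
      exact one_div_le_one_div_of_le (by norm_num) (by linarith)
    linarith
  have hcard := Finset.card_nsmul_le_sum _ _ _ hterm
  rw [Nat.card_Ico, nsmul_eq_mul] at hcard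
  have hc : ((k : ℝ) + 1) / 2 ≤ ((k + 1 - (k + 1) / 2 : ℕ) : ℝ) := by
    have h1 : k + 1 ≤ 2 * (k + 1 - (k + 1) / 2) := by omega
    have h2 : ((k + 1 : ℕ) : ℝ) ≤ ((2 * (k + 1 - (k + 1) / 2) : ℕ) : ℝ) := by exact_mod_cast h1
    rw [Nat.cast_mul] at h2
    push_cast at h2 ⊢
    linarith
  have hmain : ((k : ℝ) + 1) / 2 * (f k * (1 / 2)) ≤ A * (((k : ℝ) + 1)⁻¹) ^ a := by
    refine le_trans ?_ ((hcard.trans hsub).trans h)
    exact mul_le_mul_of_nonneg_right hc (mul_nonneg (hf k) (by norm_num))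
  rw [Real.inv_rpow hk.le, ← Real.rpow_neg hk.le] at hmain
  have hpow : ((k : ℝ) + 1) ^ (-(1 + a)) = ((k : ℝ) + 1) ^ (-a) * ((k : ℝ) + 1)⁻¹ := by
    rw [show -(1 + a) = -a + (-1) by ring, Real.rpow_add hk, Real.rpow_neg_one]
  rw [hpow]
  have h5 : f k = (((k : ℝ) + 1) / 2 * (f k * (1 / 2))) * (4 * ((k : ℝ) + 1)⁻¹) := by
    field_simp
    ring
  rw [h5]
  calc (((k : ℝ) + 1) / 2 * (f k * (1 / 2))) * (4 * ((k : ℝ) + 1)⁻¹)
      ≤ (A * ((k : ℝ) + 1) ^ (-a)) * (4 * ((k : ℝ) + 1)⁻¹) :=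
        mul_le_mul_of_nonneg_right hmain (by positivity)
    _ = 4 * A * (((k : ℝ) + 1) ^ (-a) * ((k : ℝ) + 1)⁻¹) := by ring

end

end Pool.Agent.HG
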