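import Pool.Agent.Lib.MP_daa227_pr_HG.BDef

/-!
# MP_daa227_pr, recurrence from all starting points
-/

namespace Pool.Agent.HG

open MeasureTheory ProbabilityTheory Finset Filter Topology
open MP_daa227_pr (Chain Zk Zf Gk Gf KU K0 Ren shift seqLaw ExpMom DepOn Good GoodW mom)
open Pool.Agent.HZ (Mod Kv lmg)
open Pool.Agent.IOrd (Sys aS cv)

noncomputable section

namespace BRec

theorem lq0 (C : Chain) (x : ℤ) : Lq C 0 x = ∑' n : ℕ, K0 C n x := by
  unfold Lq
  refine tsum_congr fun n => ?_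
  rw [zero_mul, neg_zero, Real.exp_zero, mul_one]

theorem lq0_le (C : Chain) (x : ℤ) : Lq C 0 x ≤ 1 := by
  rw [lq0]
  refine Real.tsum_le_of_sum_range_le (fun n => TailD.nn C n x) fun N => ?_
  have h1 := HZ.HalfLine.Gf_K0 C N x (fun _ => 0)
  have h2 := HZ.HalfLine.Gf_nonneg C {0} N x (fun _ => 0)
  rw [Finset.sum_range_succ] at h1
  have h3 := TailD.nn C N x
  linarith

theorem step (C : Chain) {x : ℤ} (hx : 0 ≤ x) (h : Lq C 0 x = 1) : Lq C 0 (x + 1) = 1 := by
  have h1 := lq_eq C x (le_refl (0 : ℝ))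
  rw [neg_zero, Real.exp_zero, one_mul, h] at h1
  have h2 := HZ.HalfLine.sum_rest C x
  have h3 : ∑ z ∈ Finset.Icc (x - 1) (x + 1) \ {0}, C.p x z * (1 - Lq C 0 z) = 0 := by
    simp only [mul_sub, mul_one, Finset.sum_sub_distrib]
    linarith
  have h4 := (Finset.sum_eq_zero_iff_of_nonneg fun z _ =>
    mul_nonneg (C.nonneg x z) (sub_nonneg.2 (lq0_le C z))).1 h3 (x + 1) (by
      rw [Finset.mem_sdiff, Finset.mem_Icc, Finset.mem_singleton]
      omega)
  rcases mul_eq_zero.1 h4 with h5 | h5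
  · exact absurd h5 (C.up x).ne'
  · linarith

theorem all (C : Chain) (h : Lq C 0 0 = 1) (m : ℕ) : Lq C 0 (m : ℤ) = 1 := by
  induction m with
  | zero => exact h
  | succ m ih =>
    have h1 := step C (by positivity) ih
    push_cast
    exact h1

end BRec

/-- From `hrec` and `K0 C (n+1) 0 = [n=0] p(0,0) + ∑_{z ≠ 0} p(0,z) K0 C n z` (definition of `K0`):
`1 = p(0,0) + p(0,1) S_1 + p(0,-1) S_(-1)` with `S_z = ∑_n K0 C n z ≤ 1` (bounded sums of first
passage
probabilities: `TailD.summable_K0`, `HZ.HalfLine.Gf_K0`), hence `S_1 = 1` (`C.up`). Then by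
induction on `x ≥ 1`: `S_x = [x=1] p(1,0) + ∑_{z ≠ 0} p(x,z) S_z` (the recursion of `K0` summed over
`n`), `S_z ≤ 1`, the probabilities sum to one (`C.sum_one`), `p(x,x+1) > 0`; so `S_x = 1` implies
`S_(x+1) = 1`. -/
theorem rec_all (C : Chain) (hrec : HasSum (fun n : ℕ => K0 C (n + 1) 0) 1) (x : ℤ)
    (hx : 1 ≤ x) : HasSum (fun n : ℕ => K0 C n x) 1 := by
  have h0 : Lq C 0 0 = 1 := by
    rw [BRec.lq0, (TailD.summable_K0 C 0).tsum_eq_zero_add, hrec.tsum_eq]
    have h1 : K0 C 0 0 = 0 := rfl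
    rw [h1, zero_add]
  have h1 := BRec.all C h0 x.toNat
  rw [Int.toNat_of_nonneg (by omega), BRec.lq0] at h1
  rw [← h1]
  exact (TailD.summable_K0 C x).hasSum

end

end Pool.Agent.HG
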