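import Pool.Agent.Lib.MP_daa227_pr_HG.BDef
import Pool.Agent.Lib.MP_daa227_pr_HG.TailM

/-!
# MP_daa227_pr, penalised Bessel-like chains: upper bound for the tail
-/

namespace Pool.Agent.HG

open MeasureTheory ProbabilityTheory Finset Filter Topology
open MP_daa227_pr (Chain Zk Zf Gk Gf KU K0 Ren shift seqLaw ExpMom DepOn Good GoodW mom)
open Pool.Agent.HZ (Mod Kv lmg)
open Pool.Agent.IOrd (Sys aS cv)

noncomputable section

namespace BUpT

/-- the bound for the sums -/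
def T (r : ℕ) (σ : ℝ) (z : ℤ) : ℝ :=
  if z ≤ (r : ℤ) then 1 else (r : ℝ) ^ (-σ) * (z : ℝ) ^ σ

theorem T_ge {r : ℕ} (hr : 1 ≤ r) (σ : ℝ) {z : ℤ} (hz : (r : ℤ) ≤ z) :
    T r σ z = (r : ℝ) ^ (-σ) * (z : ℝ) ^ σ := by
  unfold T
  by_cases h : z ≤ (r : ℤ)
  · rw [if_pos h]
    have h1 : z = (r : ℤ) := le_antisymm h hz
    have h2 : (0 : ℝ) < (r : ℝ) := by exact_mod_cast hr
    rw [h1, Int.cast_natCast, ← Real.rpow_add h2, neg_add_cancel, Real.rpow_zero]
  · rw [if_neg h]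

theorem T_pos {r : ℕ} (hr : 1 ≤ r) (σ : ℝ) (z : ℤ) : 0 < T r σ z := by
  unfold T
  split_ifs with h
  · exact one_pos
  · have h2 : (0 : ℝ) < (r : ℝ) := by exact_mod_cast hr
    have h3 : (0 : ℝ) < (z : ℝ) := by
      have : (0 : ℤ) < z := by omega
      exact_mod_cast this
    exact mul_pos (Real.rpow_pos_of_pos h2 _) (Real.rpow_pos_of_pos h3 _)

theorem T_le {r : ℕ} (hr : 1 ≤ r) {σ : ℝ} (hσ : σ ≤ 0) (z : ℤ) : T r σ z ≤ 1 := by
  unfold T
  split_ifs with h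
  · exact le_rfl
  · have h2 : (0 : ℝ) < (r : ℝ) := by exact_mod_cast hr
    have h3 : (r : ℝ) ≤ (z : ℝ) := by
      have : (r : ℤ) ≤ z := by omega
      exact_mod_cast this
    have h4 : (z : ℝ) ^ σ ≤ (r : ℝ) ^ σ := Real.rpow_le_rpow_of_nonpos h2 h3 hσ
    calc (r : ℝ) ^ (-σ) * (z : ℝ) ^ σ ≤ (r : ℝ) ^ (-σ) * (r : ℝ) ^ σ :=
          mul_le_mul_of_nonneg_left h4 (Real.rpow_pos_of_pos h2 _).le
      _ = 1 := by rw [← Real.rpow_add h2, neg_add_cancel, Real.rpow_zero]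

theorem Lw_T (C : Chain) {w : ℤ → ℝ} (hw : ∀ z, w z ≤ 0) {r : ℕ} (hr : 1 ≤ r) {σ : ℝ}
    (hσ : σ ≤ 0) (h2 : ∀ x : ℤ, (r : ℤ) < x → Lw C w (pq 0 σ) x ≤ pq 0 σ x) (x : ℤ) :
    Lw C w (T r σ) x ≤ T r σ x := by
  by_cases hx : x ≤ (r : ℤ)
  · have e1 : T r σ x = 1 := if_pos hx
    rw [e1]
    exact (Lw_mono C w (g := fun _ => 1) (T_le hr hσ _) (T_le hr hσ _) (T_le hr hσ _)).trans
      (Lw_one C hw x)
  · have hx' : (r : ℤ) < x := by omega
    have h3 := h2 x hx'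
    have e : ∀ z : ℤ, (r : ℤ) ≤ z → T r σ z = (r : ℝ) ^ (-σ) * pq 0 σ z := by
      intro z hz
      rw [T_ge hr σ hz]
      unfold pq
      rw [add_zero]
    have hκ : 0 ≤ (r : ℝ) ^ (-σ) := Real.rpow_nonneg (Nat.cast_nonneg _) _
    have h4 := mul_le_mul_of_nonneg_left h3 hκ
    rw [← e x hx'.le] at h4
    refine le_trans (le_of_eq ?_) h4
    unfold Lw
    rw [e (x - 1) (by omega), e x hx'.le, e (x + 1) (by omega)]
    ring

/-- one step for sums over the neighbours -/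
theorem step (C : Chain) (w V L : ℤ → ℝ) (a0 : ℝ) {x : ℤ} (hx : 1 ≤ x)
    (h0 : a0 ≤ C.p x 0 * Real.exp (w 0) * V 0) (h : ∀ z : ℤ, 1 ≤ z → L z ≤ V z) :
    a0 + ∑ z ∈ Finset.Icc (x - 1) (x + 1) \ {0}, C.p x z * Real.exp (w z) * L z ≤
      Lw C w V x := by
  rw [← Lw_sum, ← HZ.nb_split]
  refine add_le_add h0 (Finset.sum_le_sum fun z hz => ?_)
  rw [Finset.mem_sdiff, Finset.mem_Icc, Finset.mem_singleton] at hz
  exact mul_le_mul_of_nonneg_left (h z (by omega)) (mul_nonneg (C.nonneg _ _) (Real.exp_pos _).le)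

theorem sum_le_T (C : Chain) {w : ℤ → ℝ} (hw : ∀ z, w z ≤ 0) {r : ℕ} (hr : 1 ≤ r) {σ : ℝ}
    (hσ : σ ≤ 0) (h2 : ∀ x : ℤ, (r : ℤ) < x → Lw C w (pq 0 σ) x ≤ pq 0 σ x) (N : ℕ) :
    ∀ x : ℤ, 1 ≤ x → ∑ n ∈ range N, Kv C w n x ≤ T r σ x := by
  induction N with
  | zero =>
    intro x _
    rw [Finset.range_zero, Finset.sum_empty]
    exact (T_pos hr σ x).le
  | succ N ih =>
    intro x hx
    rw [HZ.psum_succ]
    refine (step C w (T r σ) _ _ hx ?_ ih).trans (Lw_T C hw hr hσ h2 x)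
    have e1 : T r σ 0 = 1 := if_pos (by omega)
    have e2 : 0 ≤ C.p x 0 * Real.exp (w 0) := mul_nonneg (C.nonneg _ _) (Real.exp_pos _).le
    rw [e1, mul_one]
    split_ifs
    · exact e2
    · exact le_rfl

/-- a bounded strict supersolution near zero -/
theorem strict (C : Chain) {w : ℤ → ℝ} (hw : ∀ z, w z ≤ 0) (r : ℕ) :
    ∃ f : ℤ → ℝ, (∀ x, 0 ≤ x → 0 < f x) ∧ (∀ x : ℤ, 1 ≤ x → Lw C w f x ≤ f x) ∧
      ∃ d : ℝ, 0 < d ∧ ∀ x : ℤ, 1 ≤ x → x ≤ r → Lw C w f x ≤ f x - d := by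
  set ζ : ℤ → ℝ := fun z => if z ≤ (r : ℤ) then 1 else 0 with hζ
  have hζ0 : ∀ z, 0 ≤ ζ z := by
    intro z
    rw [hζ]
    change (0 : ℝ) ≤ if z ≤ (r : ℤ) then 1 else 0
    split_ifs <;> norm_num
  have hs₀ : HZ.Ssol C w 0 (fun _ => 1) := fun x _ => Lw_one C hw x
  have hg : HZ.Ssol C (fun z => w z + 1 * ζ z) ((r : ℤ) + 1) (fun _ => 1) := by
    intro x hx
    have e : ∀ z : ℤ, (r : ℤ) < z → Real.exp (w z + 1 * ζ z) ≤ 1 := by
      intro z hz
      rw [Real.exp_le_one_iff]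
      have h1 : ζ z = 0 := if_neg (by omega)
      rw [h1, mul_zero, add_zero]
      exact hw z
    have h1 := C.sum_one x
    rw [HZ.sum_nb x (fun z => C.p x z)] at h1
    have h2 := mul_le_of_le_one_right (C.nonneg x (x - 1)) (e (x - 1) (by omega))
    have h3 := mul_le_of_le_one_right (C.nonneg x x) (e x (by omega))
    have h4 := mul_le_of_le_one_right (C.nonneg x (x + 1)) (e (x + 1) (by omega))
    simp only [mul_one]
    linarith
  obtain ⟨ε, hε, -, f, hf, hfs⟩ := HZ.pert C w ζ (fun _ => 1) (fun _ => 1) ((r : ℤ) + 1)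
    (by omega) (fun _ _ => one_pos) hs₀ one_pos (fun _ _ => one_pos) hg
  have hexp : ∀ z, Real.exp (w z) ≤ Real.exp (w z + ε * ζ z) := by
    intro z
    apply Real.exp_le_exp.2
    have := mul_nonneg hε.le (hζ0 z)
    linarith
  have t : ∀ x z : ℤ, 0 ≤ z → C.p x z * Real.exp (w z) * f z ≤
      C.p x z * Real.exp (w z + ε * ζ z) * f z := by
    intro x z hz
    exact mul_le_mul_of_nonneg_right (mul_le_mul_of_nonneg_left (hexp z) (C.nonneg _ _))
      (hf z hz).le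
  have hfv : ∀ x : ℤ, 1 ≤ x → Lw C w f x ≤ f x := by
    intro x hx
    refine le_trans ?_ (hfs x (by omega))
    exact add_le_add (add_le_add (t x _ (by omega)) (t x _ (by omega))) (t x _ (by omega))
  set c : ℤ → ℝ := fun x => C.p x (x - 1) * Real.exp (w (x - 1)) * (Real.exp ε - 1) * f (x - 1)
    with hc
  have hc0 : ∀ x : ℤ, 1 ≤ x → 0 < c x := by
    intro x hx
    have h1 : 0 < Real.exp ε - 1 := by
      have := Real.add_one_lt_exp hε.ne'
      linarith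
    exact mul_pos (mul_pos (mul_pos (C.down x) (Real.exp_pos _)) h1) (hf _ (by omega))
  have hgap : ∀ x : ℤ, 1 ≤ x → x ≤ r → Lw C w f x ≤ f x - c x := by
    intro x hx hxr
    have h1 := hfs x (by omega)
    simp only at h1
    have h2 : ζ (x - 1) = 1 := if_pos (by omega)
    have t1 := t x x (by omega)
    have t2 := t x (x + 1) (by omega)
    rw [h2, mul_one, Real.exp_add] at h1
    have h3 : c x = C.p x (x - 1) * (Real.exp (w (x - 1)) * Real.exp ε) * f (x - 1) -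
        C.p x (x - 1) * Real.exp (w (x - 1)) * f (x - 1) := by
      rw [hc]
      ring
    rw [h3]
    unfold Lw
    linarith
  refine ⟨f, hf, hfv, ?_⟩
  -- the minimum of `c`
  have hmin : ∃ d : ℝ, 0 < d ∧ ∀ x ∈ Finset.Icc (1 : ℤ) r, d ≤ c x := by
    have hfin : ∀ S : Finset ℤ, (∀ x ∈ S, 0 < c x) → ∃ d : ℝ, 0 < d ∧ ∀ x ∈ S, d ≤ c x := by
      intro S
      induction S using Finset.induction_on with
      | empty => exact fun _ => ⟨1, one_pos, fun x hx => absurd hx (Finset.notMem_empty x)⟩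
      | insert y S _ ih =>
        intro h
        obtain ⟨d, hd, h1⟩ := ih fun x hx => h x (Finset.mem_insert_of_mem hx)
        refine ⟨min d (c y), lt_min hd (h y (Finset.mem_insert_self _ _)), fun x hx => ?_⟩
        rcases Finset.mem_insert.1 hx with rfl | hx
        · exact min_le_right _ _
        · exact (min_le_left _ _).trans (h1 x hx)
    exact hfin _ fun x hx => hc0 x (Finset.mem_Icc.1 hx).1
  obtain ⟨d, hd, h1⟩ := hmin
  exact ⟨d, hd, fun x hx hxr => (hgap x hx hxr).trans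
    (sub_le_sub_left (h1 x (Finset.mem_Icc.2 ⟨hx, hxr⟩)) _)⟩

/-- the power, cut off below `r` -/
def F (r : ℕ) (q : ℝ) (z : ℤ) : ℝ := if z < (r : ℤ) then 0 else pq 0 q z

theorem F_ge {r : ℕ} (q : ℝ) {z : ℤ} (hz : (r : ℤ) ≤ z) : F r q z = pq 0 q z :=
  if_neg (by omega)

theorem F_nonneg (r : ℕ) (q : ℝ) (z : ℤ) : 0 ≤ F r q z := by
  unfold F
  split_ifs with h
  · exact le_rfl
  · have h1 : (0 : ℤ) ≤ z := by omega
    have h2 : (0 : ℝ) ≤ (z : ℝ) := by exact_mod_cast h1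
    unfold pq
    rw [add_zero]
    exact Real.rpow_nonneg h2 q

theorem Lw_F_near (C : Chain) {w : ℤ → ℝ} (hw : ∀ z, w z ≤ 0) (r : ℕ) (q : ℝ) :
    ∃ D : ℝ, 0 ≤ D ∧ ∀ x : ℤ, x ≤ r → Lw C w (F r q) x ≤ F r q x + D := by
  set D : ℝ := F r q r + F r q (r + 1) with hD
  have hD0 : 0 ≤ D := add_nonneg (F_nonneg _ _ _) (F_nonneg _ _ _)
  have h1 : ∀ z : ℤ, z ≤ (r : ℤ) + 1 → F r q z ≤ D := by
    intro z hz
    have h2 := F_nonneg r q r
    have h3 := F_nonneg r q (r + 1)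
    rcases lt_or_ge z (r : ℤ) with h | h
    · have : F r q z = 0 := if_pos h
      rw [this]
      exact hD0
    · have h4 : z = (r : ℤ) ∨ z = (r : ℤ) + 1 := by omega
      rcases h4 with h4 | h4
      · rw [h4, hD]
        linarith
      · rw [h4, hD]
        linarith
  refine ⟨D, hD0, fun x hx => ?_⟩
  have h2 : Lw C w (F r q) x ≤ Lw C w (fun _ => D) x :=
    Lw_mono C w (h1 _ (by omega)) (h1 _ (by omega)) (h1 _ (by omega))
  have h3 : Lw C w (fun _ => D) x = D * Lw C w (fun _ => 1) x := by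
    unfold Lw
    ring
  have h4 := mul_le_mul_of_nonneg_left (Lw_one C hw x) hD0
  have h5 := F_nonneg r q x
  rw [h3] at h2
  linarith

theorem Lw_F_far (C : Chain) {w : ℤ → ℝ} {r : ℕ} {q c : ℝ}
    (h1 : ∀ x : ℤ, (r : ℤ) < x → Lw C w (pq 0 q) x ≤ pq 0 q x - c * pq 0 (q - 2) x) {x : ℤ}
    (hx : (r : ℤ) < x) : Lw C w (F r q) x ≤ F r q x - c * pq 0 (q - 2) x := by
  have h2 := h1 x hx
  rw [F_ge q hx.le]
  refine le_trans (le_of_eq ?_) h2
  unfold Lw
  rw [F_ge q (show (r : ℤ) ≤ x - 1 by omega), F_ge q hx.le, F_ge q (show (r : ℤ) ≤ x + 1 by omega)]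

/-- the numerical inequality of case 3 -/
theorem num {X s σ q κ A c : ℝ} (hX : 0 < X) (hs : 0 < s) (hq : σ < q) (hq2 : q - σ ≤ 2)
    (hκ : 0 < κ) (hA : 1 ≤ A) (hAc : κ * κ ^ ((2 - (q - σ)) / (q - σ)) ≤ A * c)
    (h : A * s ^ ((q - σ) / 2) * X ^ q < κ * X ^ σ) :
    s * (κ * X ^ σ) ≤ A * s ^ ((q - σ) / 2) * (c * X ^ (q - 2)) := by
  have hE : 0 < q - σ := by linarith
  have hA0 : 0 < A := by linarith
  set E := q - σ with hEd
  have hsa : 0 < s ^ (E / 2) := Real.rpow_pos_of_pos hs _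
  -- `X ^ E < κ / s ^ a`
  have h1 : X ^ E * s ^ (E / 2) ≤ κ := by
    have e1 : X ^ q = X ^ E * X ^ σ := by
      rw [← Real.rpow_add hX]
      congr 1
      rw [hEd]
      ring
    rw [e1] at h
    have hXσ : 0 < X ^ σ := Real.rpow_pos_of_pos hX _
    have h2 : A * s ^ (E / 2) * X ^ E < κ := by
      have : (A * s ^ (E / 2) * X ^ E) * X ^ σ < κ * X ^ σ := by
        calc (A * s ^ (E / 2) * X ^ E) * X ^ σ = A * s ^ (E / 2) * (X ^ E * X ^ σ) := by ring
          _ < κ * X ^ σ := h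
      exact lt_of_mul_lt_mul_right this hXσ.le
    have h3 : 0 ≤ s ^ (E / 2) * X ^ E := mul_nonneg hsa.le (Real.rpow_nonneg hX.le _)
    have h4 : s ^ (E / 2) * X ^ E ≤ A * (s ^ (E / 2) * X ^ E) := le_mul_of_one_le_left h3 hA
    calc X ^ E * s ^ (E / 2) = s ^ (E / 2) * X ^ E := mul_comm _ _
      _ ≤ A * (s ^ (E / 2) * X ^ E) := h4
      _ = A * s ^ (E / 2) * X ^ E := by ring
      _ ≤ κ := h2.le
  have ht : 0 ≤ (2 - E) / E := div_nonneg (by linarith) hE.le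
  -- power `t`
  have h2 : X ^ (2 - E) * s ^ (1 - E / 2) ≤ κ ^ ((2 - E) / E) := by
    have h3 : (X ^ E * s ^ (E / 2)) ^ ((2 - E) / E) ≤ κ ^ ((2 - E) / E) :=
      Real.rpow_le_rpow (mul_nonneg (Real.rpow_nonneg hX.le _) hsa.le) h1 ht
    rw [Real.mul_rpow (Real.rpow_nonneg hX.le _) hsa.le, ← Real.rpow_mul hX.le,
      ← Real.rpow_mul hs.le] at h3
    have e1 : E * ((2 - E) / E) = 2 - E := by field_simp
    have e2 : E / 2 * ((2 - E) / E) = 1 - E / 2 := by
      field_simp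
    rwa [e1, e2] at h3
  have e3 : X ^ σ = X ^ (2 - E) * X ^ (q - 2) := by
    rw [← Real.rpow_add hX]
    congr 1
    rw [hEd]
    ring
  have e4 : s = s ^ (1 - E / 2) * s ^ (E / 2) := by
    rw [← Real.rpow_add hs, sub_add_cancel, Real.rpow_one]
  have hXq : 0 ≤ X ^ (q - 2) := Real.rpow_nonneg hX.le _
  calc s * (κ * X ^ σ) = (s ^ (1 - E / 2) * s ^ (E / 2)) * (κ * (X ^ (2 - E) * X ^ (q - 2))) := by
        rw [← e4, ← e3]
    _ = (κ * (X ^ (2 - E) * s ^ (1 - E / 2))) * (s ^ (E / 2) * X ^ (q - 2)) := by ring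
    _ ≤ (κ * κ ^ ((2 - E) / E)) * (s ^ (E / 2) * X ^ (q - 2)) :=
        mul_le_mul_of_nonneg_right (mul_le_mul_of_nonneg_left h2 hκ.le) (mul_nonneg hsa.le hXq)
    _ ≤ (A * c) * (s ^ (E / 2) * X ^ (q - 2)) :=
        mul_le_mul_of_nonneg_right hAc (mul_nonneg hsa.le hXq)
    _ = A * s ^ (E / 2) * (c * X ^ (q - 2)) := by ring

end BUpT

/-- Follow the proof of `one_tail` (Lib/MP_daa227_pr_HG/TailM.lean). Put `T z = 1` for `z ≤ r` and
`T z = (z/r)^σ` for `z > r` (so `0 < T ≤ 1` as `σ ≤ 0`), `E = q - σ ∈ (0, 2]`, `a = E/2 ∈ (0, 1]`.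
(1) `∑_{n<N} Kv C w n x ≤ T x` for all `x ≥ 1` (induction on `N` with `HZ.psum_succ`: `Lw C w T x ≤ T x`
for `x ≥ 1`: if `x ≤ r` because `T ≤ 1 = T x`, `Lw_one`; if `x > r` by `h2`, `T z ≤ (z/r)^σ` for
`1 ≤ z ≤ r` does not occur except `z = r`, where both are `1`; the term `z = 0` occurs for `x = 1` only).
(2) A bounded strict supersolution near `0`: as in `one_tail`, `HZ.pert C w ζ (fun _ => 1)
(fun _ => 1) (r+1)` with `ζ = 1` on `z ≤ r`, `0` beyond gives `f > 0` on `x ≥ 0` and `ε > 0` with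
`HZ.Ssol C (w + ε ζ) 0 f`, so `Lw C w f x ≤ f x` for `x ≥ 1` and `Lw C w f x ≤ f x - d` for
`1 ≤ x ≤ r`, some `d > 0`.
(3) `F z = z^q` for `z ≥ r`, `0` for `z < r`. For `x > r`: `Lw C w F x ≤ F x - c x^(q-2)` by `h1`
(`x - 1 ≥ r`). For `1 ≤ x ≤ r`: `Lw C w F x ≤ F x + D` with a constant `D ≥ 0`.
(4) `V = A s^a (B f + F)` with `B d ≥ D + 1` and `A ≥ 1` large. Claim: for all `N` and `x ≥ 1`,
`S_N x = ∑_{n<N} Kv C w n x (1 - e^(-s n)) ≤ V x`. Induction with `pt_succ` (the discounted sums are at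
most the sums, so `≤ T z`; `1 - e^(-s) ≤ s`; put the term of `z = 0` into the sum, where
`T 0 = 1`): `S_(N+1) x ≤ Lw C w V x + s Lw C w T x ≤ Lw C w V x + s T x` (for the term `z = 0` use
`V 0 ≥ 0`). If `x ≤ r`: `Lw V ≤ V - A s^a (B d - D) ≤ V - A s^a`, and `s T x ≤ s ≤ s^a` as `a ≤ 1`,
`s ≤ 1`. If `x > r` and `T x ≤ A s^a x^q`: `S_(N+1) x ≤ T x ≤ V x` by (1). If `x > r` and
`T x > A s^a x^q`, i.e. `x^E < r^(-σ) / (A s^a)`: `Lw V ≤ V - A s^a c x^(q-2)` and
`s T x = s r^(-σ) x^σ ≤ A s^a c x^(q-2)`, because `x^(2-E) = (x^E)^((2-E)/E) ≤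
(r^(-σ)/A)^((2-E)/E) s^(-(2-E)/2)`, `-(2-E)/2 = a - 1`, so it suffices that
`r^(-σ) (r^(-σ)/A)^((2-E)/E) ≤ A c`, true for large `A` (the left side is bounded for `A ≥ 1`).
(5) At `x = 1`: `V 1 ≤ A (B f 1 + 1) s^a`. -/
theorem bes_tail_up (C : Chain) {w : ℤ → ℝ} (hw : ∀ z, w z ≤ 0) {r : ℕ} (hr : 1 ≤ r)
    {σ q c : ℝ} (hσ : σ ≤ 0) (hq : σ < q) (hq2 : q - σ ≤ 2) (hc : 0 < c)
    (h1 : ∀ x : ℤ, (r : ℤ) < x → Lw C w (pq 0 q) x ≤ pq 0 q x - c * pq 0 (q - 2) x)
    (h2 : ∀ x : ℤ, (r : ℤ) < x → Lw C w (pq 0 σ) x ≤ pq 0 σ x) :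
    ∃ A : ℝ, 0 ≤ A ∧ ∀ s : ℝ, 0 < s → s ≤ 1 → ∀ N : ℕ,
      ∑ n ∈ range N, Kv C w n 1 * (1 - Real.exp (-(s * n))) ≤ A * s ^ ((q - σ) / 2) := by
  obtain ⟨f, hf, hfv, d, hd, hfd⟩ := BUpT.strict C hw r
  obtain ⟨D, hD, hFn⟩ := BUpT.Lw_F_near C hw r q
  have hr0 : (0 : ℝ) < (r : ℝ) := by exact_mod_cast hr
  set κ : ℝ := (r : ℝ) ^ (-σ) with hκd
  have hκ : 0 < κ := Real.rpow_pos_of_pos hr0 _
  set B : ℝ := (D + 1) / d with hB
  have hB0 : 0 ≤ B := div_nonneg (by linarith) hd.le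
  have hBd : B * d = D + 1 := div_mul_cancel₀ _ hd.ne'
  set A : ℝ := max 1 (κ * κ ^ ((2 - (q - σ)) / (q - σ)) / c) with hAd
  have hA1 : 1 ≤ A := le_max_left _ _
  have hAc : κ * κ ^ ((2 - (q - σ)) / (q - σ)) ≤ A * c := by
    rw [← div_le_iff₀ hc]
    exact le_max_right _ _
  have hA0 : 0 ≤ A := by linarith
  set U : ℤ → ℝ := fun z => B * f z + BUpT.F r q z with hU
  have hU0 : ∀ z : ℤ, 0 ≤ z → 0 ≤ U z := fun z hz =>
    add_nonneg (mul_nonneg hB0 (hf z hz).le) (BUpT.F_nonneg _ _ _)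
  have hLU : ∀ x, Lw C w U x = B * Lw C w f x + Lw C w (BUpT.F r q) x := by
    intro x
    have h := Lw_lin C w f (BUpT.F r q) B 1 x
    simp only [one_mul] at h
    exact h
  have main : ∀ s : ℝ, 0 < s → s ≤ 1 → ∀ (N : ℕ) (x : ℤ), 1 ≤ x →
      ∑ n ∈ range N, Kv C w n x * (1 - Real.exp (-(s * n))) ≤
        A * s ^ ((q - σ) / 2) * U x := by
    intro s hs hs1 N
    have hsa : 0 ≤ s ^ ((q - σ) / 2) := Real.rpow_nonneg hs.le _
    have hssa : s ≤ s ^ ((q - σ) / 2) := by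
      have := Real.rpow_le_rpow_of_exponent_ge hs hs1 (show (q - σ) / 2 ≤ 1 by linarith)
      rwa [Real.rpow_one] at this
    have hE0 : 0 ≤ 1 - Real.exp (-s) := by
      have : Real.exp (-s) ≤ 1 := Real.exp_le_one_iff.2 (by linarith)
      linarith
    have hE1 : 1 - Real.exp (-s) ≤ s := by
      have := Real.add_one_le_exp (-s)
      linarith
    have hAs : 0 ≤ A * s ^ ((q - σ) / 2) := mul_nonneg hA0 hsa
    induction N with
    | zero =>
      intro x hx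
      rw [Finset.range_zero, Finset.sum_empty]
      exact mul_nonneg hAs (hU0 x (by omega))
    | succ N ih =>
      intro x hx
      have hstep : ∑ n ∈ range (N + 1), Kv C w n x * (1 - Real.exp (-(s * n))) ≤
          A * s ^ ((q - σ) / 2) * Lw C w U x + s * BUpT.T r σ x := by
        rw [pt_succ]
        have h3 := BUpT.step C w (fun z => A * s ^ ((q - σ) / 2) * U z + s * BUpT.T r σ z)
          (fun z => ∑ n ∈ range N, Kv C w n z * (1 - Real.exp (-(s * n))) +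
            (1 - Real.exp (-s)) * ∑ n ∈ range N, Kv C w n z * Real.exp (-(s * n)))
          (if N = 0 then 0 else C.p x 0 * Real.exp (w 0) * (1 - Real.exp (-s))) hx ?_ ?_
        · refine h3.trans ?_
          rw [Lw_lin]
          exact add_le_add le_rfl (mul_le_mul_of_nonneg_left (BUpT.Lw_T C hw hr hσ h2 x) hs.le)
        · have e1 : BUpT.T r σ 0 = 1 := if_pos (by omega)
          have e2 : 0 ≤ C.p x 0 * Real.exp (w 0) := mul_nonneg (C.nonneg _ _) (Real.exp_pos _).le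
          have e3 : 0 ≤ A * s ^ ((q - σ) / 2) * U 0 := mul_nonneg hAs (hU0 0 le_rfl)
          rw [e1, mul_one]
          split_ifs
          · exact mul_nonneg e2 (by linarith)
          · exact mul_le_mul_of_nonneg_left (by linarith) e2
        · intro z hz
          refine add_le_add (ih z hz) ?_
          exact mul_le_mul hE1 ((TailM.disc_le C w hs.le N z).trans
            (BUpT.sum_le_T C hw hr hσ h2 N z hz)) (TailM.disc_nonneg C w s N z) hs.le
      by_cases hxr : x ≤ (r : ℤ)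
      · refine hstep.trans ?_
        have e1 : BUpT.T r σ x = 1 := if_pos hxr
        rw [e1, mul_one, hLU]
        have h3 := hfd x hx hxr
        have h4 := hFn x hxr
        have h5 : B * Lw C w f x + Lw C w (BUpT.F r q) x ≤ U x - 1 := by
          have h6 := mul_le_mul_of_nonneg_left h3 hB0
          rw [mul_sub, hBd] at h6
          rw [hU]
          simp only
          linarith
        have h6 := mul_le_mul_of_nonneg_left h5 hAs
        have h7 : s ^ ((q - σ) / 2) ≤ A * s ^ ((q - σ) / 2) := le_mul_of_one_le_left hsa hA1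
        rw [mul_sub, mul_one] at h6
        linarith
      · have hxr' : (r : ℤ) < x := by omega
        have hX : (0 : ℝ) < (x : ℝ) := by
          have : (0 : ℤ) < x := by omega
          exact_mod_cast this
        have eT : BUpT.T r σ x = κ * (x : ℝ) ^ σ := BUpT.T_ge hr σ hxr'.le
        have eF : BUpT.F r q x = (x : ℝ) ^ q := by
          rw [BUpT.F_ge q hxr'.le]
          unfold pq
          rw [add_zero]
        by_cases hcase : BUpT.T r σ x ≤ A * s ^ ((q - σ) / 2) * (x : ℝ) ^ q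
        · have h3 : ∑ n ∈ range (N + 1), Kv C w n x * (1 - Real.exp (-(s * n))) ≤
              ∑ n ∈ range (N + 1), Kv C w n x := by
            refine Finset.sum_le_sum fun n _ => ?_
            refine mul_le_of_le_one_right (HZ.Kv_nonneg C w n x) ?_
            have := Real.exp_pos (-(s * (n : ℝ)))
            linarith
          refine h3.trans ((BUpT.sum_le_T C hw hr hσ h2 (N + 1) x hx).trans (hcase.trans ?_))
          refine mul_le_mul_of_nonneg_left ?_ hAs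
          rw [hU]
          simp only
          rw [eF]
          have := mul_nonneg hB0 (hf x (by omega)).le
          linarith
        · rw [not_le, eT] at hcase
          refine hstep.trans ?_
          rw [hLU, eT]
          have h3 := mul_le_mul_of_nonneg_left (hfv x hx) hB0
          have h4 := BUpT.Lw_F_far C h1 hxr'
          have h5 : B * Lw C w f x + Lw C w (BUpT.F r q) x ≤ U x - c * (x : ℝ) ^ (q - 2) := by
            have e5 : pq 0 (q - 2) x = (x : ℝ) ^ (q - 2) := by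
              unfold pq
              rw [add_zero]
            rw [e5] at h4
            rw [hU]
            simp only
            linarith
          have h6 := mul_le_mul_of_nonneg_left h5 hAs
          rw [mul_sub] at h6
          have h7 := BUpT.num hX hs hq hq2 hκ hA1 hAc hcase
          linarith
  refine ⟨A * U 1, mul_nonneg hA0 (hU0 1 (by omega)), fun s hs hs1 N => ?_⟩
  refine (main s hs hs1 N 1 le_rfl).trans (le_of_eq ?_)
  ring

end

end Pool.Agent.HG
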