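import Pool.Agent.Lib.MP_daa227_pr_HG.Defs
import Pool.Agent.Lib.MP_daa227_pr.Kernel

/-!
# MP_daa227_pr, general potentials: comparison of renewal partition functions
-/

namespace Pool.Agent.HG

open MeasureTheory ProbabilityTheory Finset Filter Topology
open MP_daa227_pr (Chain Zk Zf Gk Gf KU K0 Ren shift seqLaw ExpMom DepOn Good GoodW mom)
open Pool.Agent.HZ (Mod Kv lmg)
open Pool.Agent.IOrd (Sys aS cv)

noncomputable section

/-- Monotonicity in the gap kernels. Strong induction on `n`, `Ren_pos_eq`. -/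
theorem ren_mono (B : Finset ℤ) {G₀ G₁ : ℕ → (ℕ → ℝ) → ℤ → ℤ → ℝ}
    (h0 : ∀ n ω x y, 0 ≤ G₀ n ω x y) (h01 : ∀ n ω x y, G₀ n ω x y ≤ G₁ n ω x y)
    (n : ℕ) (ω : ℕ → ℝ) (x y : ℤ) : 0 ≤ Ren G₀ B n ω x y ∧ Ren G₀ B n ω x y ≤ Ren G₁ B n ω x y := by
  induction n using Nat.strong_induction_on generalizing ω x y with
  | _ n ih =>
    rcases Nat.eq_zero_or_pos n with hn | hn
    · subst hn
      rw [MP_daa227_pr.Ren_zero, MP_daa227_pr.Ren_zero]
      refine ⟨?_, le_refl _⟩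
      split_ifs
      · exact zero_le_one
      · exact le_refl _
    · rw [MP_daa227_pr.Ren_pos_eq B G₀ (by omega), MP_daa227_pr.Ren_pos_eq B G₁ (by omega)]
      constructor
      · refine Finset.sum_nonneg fun L hL => Finset.sum_nonneg fun z _ => ?_
        rw [Finset.mem_Ioc] at hL
        exact mul_nonneg (h0 _ _ _ _) (ih (n - L) (by omega) _ _ _).1
      · refine Finset.sum_le_sum fun L hL => Finset.sum_le_sum fun z _ => ?_
        rw [Finset.mem_Ioc] at hL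
        have h := ih (n - L) (by omega) (shift L ω) z y
        exact mul_le_mul (h01 _ _ _ _) h.2 h.1 ((h0 _ _ _ _).trans (h01 _ _ _ _))

namespace RenCmp

/-- the sum over the gap that starts at time `0` -/
def tl (B : Finset ℤ) (K : ℕ → (ℕ → ℝ) → ℤ → ℤ → ℝ) (H : ℕ → (ℕ → ℝ) → ℤ → ℝ) (m : ℕ)
    (ω : ℕ → ℝ) (u : ℤ) : ℝ :=
  ∑ t ∈ Finset.Ioc 0 m, ∑ v ∈ B, K t ω u v * H (m - t) (shift t ω) v

theorem conv (B : Finset ℤ) (K : ℕ → (ℕ → ℝ) → ℤ → ℤ → ℝ) (H : ℕ → (ℕ → ℝ) → ℤ → ℝ)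
    (A : ℕ → ℤ → ℝ) (n : ℕ) (ω : ℕ → ℝ) :
    ∑ s ∈ range n, ∑ t ∈ Finset.Ioc s n, ∑ u ∈ B, ∑ v ∈ B,
        A s u * K (t - s) (shift s ω) u v * H (n - t) (shift t ω) v =
      ∑ s ∈ range n, ∑ u ∈ B, A s u * tl B K H (n - s) (shift s ω) u := by
  refine Finset.sum_congr rfl fun s hs => ?_
  rw [Finset.mem_range] at hs
  rw [Finset.sum_comm]
  refine Finset.sum_congr rfl fun u _ => ?_
  unfold tl
  have h2 : Finset.Ioc s n = (Finset.Ioc 0 (n - s)).map (addRightEmbedding s) := by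
    rw [Finset.map_add_right_Ioc]
    congr 1 <;> omega
  rw [h2, Finset.sum_map, Finset.mul_sum]
  refine Finset.sum_congr rfl fun t _ => ?_
  simp only [addRightEmbedding_apply]
  rw [Finset.mul_sum]
  refine Finset.sum_congr rfl fun v _ => ?_
  rw [MP_daa227_pr.shift_shift, show t + s - s = t by omega,
    show n - (t + s) = n - s - t by omega, mul_assoc]

/-- the sum over the renewal time `s` -/
def U (B : Finset ℤ) (G : ℕ → (ℕ → ℝ) → ℤ → ℤ → ℝ) (R : ℕ → (ℕ → ℝ) → ℤ → ℝ) (n : ℕ)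
    (ω : ℕ → ℝ) (x : ℤ) : ℝ :=
  ∑ s ∈ range n, ∑ u ∈ B, Ren G B s ω x u * R (n - s) (shift s ω) u

theorem U_ge (B : Finset ℤ) {G₀ G₁ : ℕ → (ℕ → ℝ) → ℤ → ℤ → ℝ} {R : ℕ → (ℕ → ℝ) → ℤ → ℝ}
    (h0 : ∀ n ω x y, 0 ≤ G₀ n ω x y) (h01 : ∀ n ω x y, G₀ n ω x y ≤ G₁ n ω x y)
    (hR : ∀ n ω x, 0 ≤ R n ω x) {n : ℕ} (hn : n ≠ 0) (ω : ℕ → ℝ) {x : ℤ} (hx : x ∈ B) :
    R n ω x + ∑ L ∈ Finset.Ioc 0 n, ∑ z ∈ B, G₀ L ω x z * U B G₁ R (n - L) (shift L ω) z ≤
      U B G₁ R n ω x := by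
  obtain ⟨m, rfl⟩ := Nat.exists_eq_succ_of_ne_zero hn
  have hpos : ∀ (k : ℕ) (ω' : ℕ → ℝ) (a b : ℤ), 0 ≤ Ren G₁ B k ω' a b := fun k ω' a b =>
    (ren_mono B h0 h01 k ω' a b).1.trans (ren_mono B h0 h01 k ω' a b).2
  have hU : U B G₁ R (m + 1) ω x = (∑ s ∈ range m, ∑ u ∈ B,
      Ren G₁ B (s + 1) ω x u * R (m + 1 - (s + 1)) (shift (s + 1) ω) u) + R (m + 1) ω x := by
    unfold U
    rw [Finset.sum_range_succ']
    congr 1
    rw [Finset.sum_eq_single x]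
    · rw [MP_daa227_pr.Ren_zero, if_pos rfl, one_mul]
      rfl
    · intro z _ hz
      rw [MP_daa227_pr.Ren_zero, if_neg (fun h => hz h.symm), zero_mul]
    · intro h
      exact absurd hx h
  show R (m + 1) ω x + _ ≤ U B G₁ R (m + 1) ω x
  rw [hU, add_comm (R (m + 1) ω x)]
  refine add_le_add_left ?_ _
  -- the terms with a positive time
  have h1 : ∀ s ∈ range m, ∑ L ∈ Finset.Ioc 0 (s + 1), ∑ z ∈ B, G₀ L ω x z *
      (∑ u ∈ B, Ren G₁ B (s + 1 - L) (shift L ω) z u *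
        R (m + 1 - (s + 1)) (shift (s + 1) ω) u) ≤
      ∑ u ∈ B, Ren G₁ B (s + 1) ω x u * R (m + 1 - (s + 1)) (shift (s + 1) ω) u := by
    intro s _
    have h2 : ∀ u ∈ B, ∑ L ∈ Finset.Ioc 0 (s + 1), ∑ z ∈ B, G₀ L ω x z *
        (Ren G₁ B (s + 1 - L) (shift L ω) z u * R (m + 1 - (s + 1)) (shift (s + 1) ω) u) ≤
        Ren G₁ B (s + 1) ω x u * R (m + 1 - (s + 1)) (shift (s + 1) ω) u := by
      intro u _
      rw [MP_daa227_pr.Ren_pos_eq B G₁ (Nat.succ_ne_zero s), Finset.sum_mul]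
      refine Finset.sum_le_sum fun L _ => ?_
      rw [Finset.sum_mul]
      refine Finset.sum_le_sum fun z _ => ?_
      rw [mul_assoc]
      exact mul_le_mul_of_nonneg_right (h01 _ _ _ _) (mul_nonneg (hpos _ _ _ _) (hR _ _ _))
    have h7 : ∑ u ∈ B, ∑ L ∈ Finset.Ioc 0 (s + 1), ∑ z ∈ B, G₀ L ω x z *
        (Ren G₁ B (s + 1 - L) (shift L ω) z u * R (m + 1 - (s + 1)) (shift (s + 1) ω) u) =
        ∑ L ∈ Finset.Ioc 0 (s + 1), ∑ z ∈ B, G₀ L ω x z *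
        (∑ u ∈ B, Ren G₁ B (s + 1 - L) (shift L ω) z u *
          R (m + 1 - (s + 1)) (shift (s + 1) ω) u) := by
      rw [Finset.sum_comm]
      refine Finset.sum_congr rfl fun L _ => ?_
      rw [Finset.sum_comm]
      refine Finset.sum_congr rfl fun z _ => ?_
      rw [Finset.mul_sum]
    exact le_trans (le_of_eq h7.symm) (Finset.sum_le_sum h2)
  refine le_trans (le_of_eq ?_) (Finset.sum_le_sum h1)
  -- exchange of the sums
  have h3 : ∀ L ∈ Finset.Ioc 0 (m + 1), ∑ z ∈ B, G₀ L ω x z * U B G₁ R (m + 1 - L) (shift L ω) z =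
      ∑ s ∈ Finset.Ico L (m + 1), ∑ z ∈ B, G₀ L ω x z *
        (∑ u ∈ B, Ren G₁ B (s - L) (shift L ω) z u * R (m + 1 - s) (shift s ω) u) := by
    intro L hL
    rw [Finset.mem_Ioc] at hL
    rw [Finset.sum_comm]
    refine Finset.sum_congr rfl fun z _ => ?_
    rw [← Finset.mul_sum]
    congr 1
    unfold U
    have h5 : Finset.Ico L (m + 1) = (Finset.range (m + 1 - L)).map (addRightEmbedding L) := by
      rw [Finset.range_eq_Ico, Finset.map_add_right_Ico]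
      congr 1 <;> omega
    rw [h5, Finset.sum_map]
    refine Finset.sum_congr rfl fun s hs => ?_
    simp only [addRightEmbedding_apply]
    refine Finset.sum_congr rfl fun u _ => ?_
    rw [MP_daa227_pr.shift_shift, show s + L - L = s by omega,
      show m + 1 - (s + L) = m + 1 - L - s by omega]
  rw [Finset.sum_congr rfl h3]
  have h6 : ∑ s ∈ range m, ∑ L ∈ Finset.Ioc 0 (s + 1), ∑ z ∈ B, G₀ L ω x z *
      (∑ u ∈ B, Ren G₁ B (s + 1 - L) (shift L ω) z u *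
        R (m + 1 - (s + 1)) (shift (s + 1) ω) u) =
      ∑ s ∈ Finset.Ico 1 (m + 1), ∑ L ∈ Finset.Ioc 0 s, ∑ z ∈ B, G₀ L ω x z *
      (∑ u ∈ B, Ren G₁ B (s - L) (shift L ω) z u * R (m + 1 - s) (shift s ω) u) := by
    rw [Finset.range_eq_Ico, Finset.sum_Ico_add' (fun s => ∑ L ∈ Finset.Ioc 0 s, ∑ z ∈ B,
      G₀ L ω x z * (∑ u ∈ B, Ren G₁ B (s - L) (shift L ω) z u * R (m + 1 - s) (shift s ω) u))]
  rw [h6]
  apply Finset.sum_comm'
  intro L s
  simp only [Finset.mem_Ioc, Finset.mem_Ico]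
  omega

end RenCmp

/-- Telescoping. Strong induction on `n`; `n = 0` is trivial (`Ren_zero`). For `n > 0` expand
both sides by `Ren_pos_eq` (first gap `L`, `z ∈ B`):
`Ren G₁ n = ∑ (G₁ - G₀) L x z Ren G₁ (n - L) z y + ∑ G₀ L x z Ren G₁ (n - L) z y`. The first sum is
the term `s = 0` of the right side (`Ren G₁ 0 x u = if x = u`, `x ∈ B`). In the second sum use the
induction hypothesis for `Ren G₁ (n - L) (shift L ω) z y`, `∑ G₀ L x z Ren G₀ (n - L) = Ren G₀ n`, and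
for the triple sums (with `s = L + s'`, `t = L + t'`) `G₀ ≤ G₁` and
`∑_{L ≤ s} ∑_z G₁ L x z Ren G₁ (s - L) z u = Ren G₁ s x u` for `s ≥ 1`. The reorganisation is the one
of `MP_daa227_pr.Ren_straddle` (Lib/MP_daa227_pr/Kernel.lean). -/
theorem ren_diff (B : Finset ℤ) {G₀ G₁ : ℕ → (ℕ → ℝ) → ℤ → ℤ → ℝ}
    (h0 : ∀ n ω x y, 0 ≤ G₀ n ω x y) (h01 : ∀ n ω x y, G₀ n ω x y ≤ G₁ n ω x y)
    (n : ℕ) (ω : ℕ → ℝ) {x : ℤ} (hx : x ∈ B) (y : ℤ) :
    Ren G₁ B n ω x y ≤ Ren G₀ B n ω x y +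
      ∑ s ∈ range n, ∑ t ∈ Finset.Ioc s n, ∑ u ∈ B, ∑ v ∈ B,
        Ren G₁ B s ω x u * (G₁ (t - s) (shift s ω) u v - G₀ (t - s) (shift s ω) u v) *
          Ren G₁ B (n - t) (shift t ω) v y := by
  have hpos : ∀ (k : ℕ) (ω' : ℕ → ℝ) (a b : ℤ), 0 ≤ Ren G₁ B k ω' a b := fun k ω' a b =>
    (ren_mono B h0 h01 k ω' a b).1.trans (ren_mono B h0 h01 k ω' a b).2
  have hR : ∀ (k : ℕ) (ω' : ℕ → ℝ) (a : ℤ), 0 ≤ RenCmp.tl B
      (fun L ω'' u v => G₁ L ω'' u v - G₀ L ω'' u v)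
      (fun k' ω'' v => Ren G₁ B k' ω'' v y) k ω' a := by
    intro k ω' a
    unfold RenCmp.tl
    exact Finset.sum_nonneg fun t _ => Finset.sum_nonneg fun v _ =>
      mul_nonneg (sub_nonneg.2 (h01 _ _ _ _)) (hpos _ _ _ _)
  have key : ∀ (n : ℕ) (ω : ℕ → ℝ) (x : ℤ), x ∈ B → Ren G₁ B n ω x y ≤ Ren G₀ B n ω x y +
      RenCmp.U B G₁ (RenCmp.tl B (fun L ω'' u v => G₁ L ω'' u v - G₀ L ω'' u v)
        (fun k' ω'' v => Ren G₁ B k' ω'' v y)) n ω x := by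
    intro n
    induction n using Nat.strong_induction_on with
    | _ n ih =>
      intro ω x hx
      rcases Nat.eq_zero_or_pos n with hn | hn
      · subst hn
        rw [MP_daa227_pr.Ren_zero, MP_daa227_pr.Ren_zero]
        unfold RenCmp.U
        rw [Finset.range_zero, Finset.sum_empty, add_zero]
      · have hge := RenCmp.U_ge B h0 h01 hR (Nat.pos_iff_ne_zero.1 hn) ω hx
        refine le_trans ?_ (add_le_add_right hge _)
        rw [MP_daa227_pr.Ren_pos_eq B G₁ (by omega), MP_daa227_pr.Ren_pos_eq B G₀ (by omega)]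
        have h1 : ∑ L ∈ Finset.Ioc 0 n, ∑ z ∈ B, G₁ L ω x z * Ren G₁ B (n - L) (shift L ω) z y =
            RenCmp.tl B (fun L ω'' u v => G₁ L ω'' u v - G₀ L ω'' u v)
              (fun k' ω'' v => Ren G₁ B k' ω'' v y) n ω x +
            ∑ L ∈ Finset.Ioc 0 n, ∑ z ∈ B, G₀ L ω x z * Ren G₁ B (n - L) (shift L ω) z y := by
          unfold RenCmp.tl
          rw [← Finset.sum_add_distrib]
          refine Finset.sum_congr rfl fun L _ => ?_
          rw [← Finset.sum_add_distrib]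
          refine Finset.sum_congr rfl fun z _ => ?_
          ring
        rw [h1]
        have h2 : ∑ L ∈ Finset.Ioc 0 n, ∑ z ∈ B, G₀ L ω x z * Ren G₁ B (n - L) (shift L ω) z y ≤
            ∑ L ∈ Finset.Ioc 0 n, ∑ z ∈ B, G₀ L ω x z * Ren G₀ B (n - L) (shift L ω) z y +
            ∑ L ∈ Finset.Ioc 0 n, ∑ z ∈ B, G₀ L ω x z *
              RenCmp.U B G₁ (RenCmp.tl B (fun L ω'' u v => G₁ L ω'' u v - G₀ L ω'' u v)
                (fun k' ω'' v => Ren G₁ B k' ω'' v y)) (n - L) (shift L ω) z := by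
          rw [← Finset.sum_add_distrib]
          refine Finset.sum_le_sum fun L hL => ?_
          rw [Finset.mem_Ioc] at hL
          rw [← Finset.sum_add_distrib]
          refine Finset.sum_le_sum fun z hz => ?_
          rw [← mul_add]
          exact mul_le_mul_of_nonneg_left (ih (n - L) (by omega) (shift L ω) z hz) (h0 _ _ _ _)
        linarith
  have hc := RenCmp.conv B (fun L ω'' u v => G₁ L ω'' u v - G₀ L ω'' u v)
    (fun k' ω'' v => Ren G₁ B k' ω'' v y) (fun s u => Ren G₁ B s ω x u) n ω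
  rw [hc]
  exact key n ω x hx

/-- Summing out the gap: `Ren_pos_eq` for `Ren G B (n - s) (shift s ω) u y`, `t = s + L`,
`shift_shift`. -/
theorem ren_collapse (B : Finset ℤ) (G : ℕ → (ℕ → ℝ) → ℤ → ℤ → ℝ) (n : ℕ) (ω : ℕ → ℝ) (x y : ℤ) :
    ∑ s ∈ range n, ∑ t ∈ Finset.Ioc s n, ∑ u ∈ B, ∑ v ∈ B,
        Ren G B s ω x u * G (t - s) (shift s ω) u v * Ren G B (n - t) (shift t ω) v y =
      ∑ s ∈ range n, ∑ u ∈ B, Ren G B s ω x u * Ren G B (n - s) (shift s ω) u y := by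
  have hc := RenCmp.conv B G (fun k' ω'' v => Ren G B k' ω'' v y)
    (fun s u => Ren G B s ω x u) n ω
  rw [hc]
  refine Finset.sum_congr rfl fun s hs => ?_
  rw [Finset.mem_range] at hs
  refine Finset.sum_congr rfl fun u _ => ?_
  rw [MP_daa227_pr.Ren_pos_eq B G (show n - s ≠ 0 by omega)]
  rfl

end

end Pool.Agent.HG
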