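import Pool.Agent.Lib.MP_daa227_pr_HG.ESk
import Pool.Agent.Lib.MP_daa227_pr_HG.RenCmp
import Pool.Agent.Lib.MP_daa227_pr.Deco

/-!
# MP_daa227_pr, general potentials: the derivative in the field
-/

namespace Pool.Agent.HG

open MeasureTheory ProbabilityTheory Finset Filter Topology
open MP_daa227_pr (Chain Zk Zf Gk Gf KU K0 Ren shift seqLaw ExpMom DepOn Good GoodW mom)
open Pool.Agent.HZ (Mod Kv lmg)
open Pool.Agent.IOrd (Sys aS cv)

noncomputable section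

/-- `MP_daa227_pr.Zk_eq_Ren` (for the box), `ren_diff` with `G₀ = Gk (W h)`, `G₁ = Gk (W (h - δ))`;
by `es_Gk` and `ES.deriv` (at `t = 0`)
`G₁ - G₀ ≤ δ (a G₁ + c⁻¹ exp (-(c a)) Gk (W (h - δ - c)))`; `ren_collapse` for the first part. All
kernels are nonnegative (`ES.nonneg`). -/
theorem der (M : Mod) (R : ℕ) {h δ a c : ℝ} (hδ : 0 ≤ δ) (ha : 0 ≤ a) (hc : 0 < c) (n : ℕ)
    (ω : ℕ → ℝ) {x y : ℤ} (hx : x ∈ box R) (hy : y ∈ box R) :
    Zk M.C (M.W (h - δ)) n ω x y ≤ Zk M.C (M.W h) n ω x y +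
      ∑ s ∈ range n, ∑ v ∈ box R, (δ * a) *
        (Zk M.C (M.W (h - δ)) s ω x v * Zk M.C (M.W (h - δ)) (n - s) (shift s ω) v y) +
      (δ * (c⁻¹ * Real.exp (-(c * a)))) *
        ∑ s ∈ range n, ∑ t ∈ Finset.Ioc s n, ∑ u ∈ box R, ∑ v ∈ box R,
          Zk M.C (M.W (h - δ)) s ω x u * Gk M.C (M.W (h - δ - c)) (box R) (t - s) (shift s ω) u v *
            Zk M.C (M.W (h - δ)) (n - t) (shift t ω) v y := by
  obtain ⟨B, hB⟩ : ∃ B, B = box R := ⟨_, rfl⟩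
  rw [← hB] at hx hy ⊢
  obtain ⟨G₀, hG₀⟩ : ∃ G, G = Gk M.C (M.W h) B := ⟨_, rfl⟩
  obtain ⟨G₁, hG₁⟩ : ∃ G, G = Gk M.C (M.W (h - δ)) B := ⟨_, rfl⟩
  obtain ⟨G₂, hG₂⟩ : ∃ G, G = Gk M.C (M.W (h - δ - c)) B := ⟨_, rfl⟩
  have h00 : ∀ n ω x y, 0 ≤ G₀ n ω x y := by
    intro n ω x y
    have := (es_Gk M h B n ω x y).nonneg 0
    simp only [sub_zero] at this
    rw [hG₀]
    exact this
  have h11 : ∀ n ω x y, 0 ≤ G₁ n ω x y := by
    intro n ω x y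
    rw [hG₁]
    exact (es_Gk M h B n ω x y).nonneg δ
  have h01 : ∀ n ω x y, G₀ n ω x y ≤ G₁ n ω x y := by
    intro n ω x y
    have := (es_Gk M h B n ω x y).mono hδ
    simp only [sub_zero] at this
    rw [hG₀, hG₁]
    exact this
  have hder : ∀ n ω x y, G₁ n ω x y - G₀ n ω x y ≤
      δ * (a * G₁ n ω x y + c⁻¹ * Real.exp (-(c * a)) * G₂ n ω x y) := by
    intro n ω x y
    have := (es_Gk M h B n ω x y).deriv hδ ha hc 0
    simp only [sub_zero, zero_add, ← sub_sub] at this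
    rw [hG₀, hG₁, hG₂]
    linarith
  have hZ0 : ∀ n ω x, ∀ y ∈ B, Zk M.C (M.W h) n ω x y = Ren G₀ B n ω x y := by
    intro n ω x y hy
    rw [hG₀]
    exact MP_daa227_pr.Zk_eq_Ren _ _ B hy n ω x
  have hZ1 : ∀ n ω x, ∀ y ∈ B, Zk M.C (M.W (h - δ)) n ω x y = Ren G₁ B n ω x y := by
    intro n ω x y hy
    rw [hG₁]
    exact MP_daa227_pr.Zk_eq_Ren _ _ B hy n ω x
  have hR1 : ∀ n ω x y, 0 ≤ Ren G₁ B n ω x y := fun n ω x y =>
    (ren_mono B h11 (fun _ _ _ _ => le_rfl) n ω x y).1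
  rw [← hG₂, hZ1 n ω x y hy, hZ0 n ω x y hy]
  have e1 : ∑ s ∈ range n, ∑ v ∈ B, (δ * a) *
        (Zk M.C (M.W (h - δ)) s ω x v * Zk M.C (M.W (h - δ)) (n - s) (shift s ω) v y) =
      (δ * a) * ∑ s ∈ range n, ∑ u ∈ B, Ren G₁ B s ω x u * Ren G₁ B (n - s) (shift s ω) u y := by
    rw [mul_sum]
    refine sum_congr rfl fun s _ => ?_
    rw [mul_sum]
    refine sum_congr rfl fun v hv => ?_
    rw [hZ1 s ω x v hv, hZ1 (n - s) (shift s ω) v y hy]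
  have e2 : ∑ s ∈ range n, ∑ t ∈ Finset.Ioc s n, ∑ u ∈ B, ∑ v ∈ B,
          Zk M.C (M.W (h - δ)) s ω x u * G₂ (t - s) (shift s ω) u v *
            Zk M.C (M.W (h - δ)) (n - t) (shift t ω) v y =
      ∑ s ∈ range n, ∑ t ∈ Finset.Ioc s n, ∑ u ∈ B, ∑ v ∈ B,
          Ren G₁ B s ω x u * G₂ (t - s) (shift s ω) u v *
            Ren G₁ B (n - t) (shift t ω) v y := by
    refine sum_congr rfl fun s _ => sum_congr rfl fun t _ => sum_congr rfl fun u hu =>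
      sum_congr rfl fun v _ => ?_
    rw [hZ1 s ω x u hu, hZ1 (n - t) (shift t ω) v y hy]
  rw [e1, e2, ← ren_collapse B G₁ n ω x y]
  refine (ren_diff B h00 h01 n ω hx y).trans ?_
  rw [add_assoc]
  refine add_le_add le_rfl ?_
  simp only [mul_sum, ← sum_add_distrib]
  refine sum_le_sum fun s _ => sum_le_sum fun t _ => sum_le_sum fun u _ =>
    sum_le_sum fun v _ => ?_
  have h1 := mul_le_mul_of_nonneg_left (hder (t - s) (shift s ω) u v) (hR1 s ω x u)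
  have h2 := mul_le_mul_of_nonneg_right h1 (hR1 (n - t) (shift t ω) v y)
  refine h2.trans (le_of_eq ?_)
  ring

end

end Pool.Agent.HG
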