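import Mathlib
import Pool.Agent.Lib.MP_daa227_pr_HZ.Basic
import Pool.Agent.Lib.MP_daa227_pr_IO.Defs

/-!
# MP_daa227_pr: the dichotomy for general potentials. Definitions.
-/

namespace Pool.Agent.HG

open MeasureTheory ProbabilityTheory Finset Filter Topology
open MP_daa227_pr (Chain Zk Zf Gk Gf KU K0 Ren shift seqLaw ExpMom DepOn Good GoodW mom)
open Pool.Agent.HZ (Mod Kv lmg)
open Pool.Agent.IOrd (Sys aS cv)

noncomputable section

/-- the box `[-R, R]` -/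
def box (R : ℕ) : Finset ℤ := Finset.Icc (-(R : ℤ)) R

/-- the partition function of length `2 n` pinned at both ends, at distance `d / Φ` below `hc` -/
def Zg (M : Mod) (hc : ℝ) : ℝ → ℕ → (ℕ → ℝ) → ℝ := fun d n ω => M.Z (hc - d / M.Φ) (2 * n) ω

/-- fractional moment of order `s` of the point to point partition function -/
def mZ (M : Mod) (s h : ℝ) (n : ℕ) (x y : ℤ) : ℝ :=
  (mom M.μ s (fun ω => Zk M.C (M.W h) n ω x y)).toReal

/-- fractional moment of order `s` of the kernel avoiding the box `[-R, R]` strictly in between -/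
def mG (M : Mod) (R : ℕ) (s h : ℝ) (n : ℕ) (x y : ℤ) : ℝ :=
  (mom M.μ s (fun ω => Gk M.C (M.W h) (box R) n ω x y)).toReal

/-- finite sums of exponentials `∑ w_i exp (t σ_i)` with `w_i ≥ 0`, `0 ≤ σ_i ≤ K` -/
def ES (K : ℝ) (g : ℝ → ℝ) : Prop :=
  ∃ (ι : Type) (_ : Fintype ι) (w σ : ι → ℝ), (∀ i, 0 ≤ w i) ∧ (∀ i, 0 ≤ σ i ∧ σ i ≤ K) ∧
    ∀ t, g t = ∑ i, w i * Real.exp (t * σ i)

/-- an excursion of length `2 n` has polynomial cost, also when penalised -/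
def PolyCost (M : Mod) : Prop :=
  ∀ η : ℝ, 0 < η → ∃ c A : ℝ, 0 < c ∧ 0 ≤ A ∧ ∀ n : ℕ, 1 ≤ n →
    c * (n : ℝ) ^ (-A) ≤ Kv M.C (fun z => -η * M.φ z) (2 * n) 0

/-- the moments of order `s` of the gap kernels are bounded up to the distance `c` below `hc` -/
def Exc (M : Mod) (s hc : ℝ) (R : ℕ) (c K : ℝ) : Prop :=
  ∀ h, hc - c ≤ h → ∀ k : ℕ, ∀ u ∈ box R, ∀ v ∈ box R, mG M R s h k u v ≤ K

/-- polynomial lower bound for the fractional moments, uniformly in the distance -/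
def Low (μ : Measure ℝ) (Z : ℝ → ℕ → (ℕ → ℝ) → ℝ) (s c A : ℝ) : Prop :=
  ∀ d, 0 ≤ d → ∀ n : ℕ, c * ((n : ℝ) + 1) ^ (-A) ≤ aS μ Z s d n

/-- derivative bound with a logarithm and an error term, and decomposition at an intermediate time,
exponent `s` -/
def Bdp (μ : Measure ℝ) (Z : ℝ → ℕ → (ℕ → ℝ) → ℝ) (s : ℝ) : Prop :=
  ∃ (d₀ C : ℝ) (R : ℕ), 0 < d₀ ∧ 1 ≤ C ∧ ∀ d, 0 ≤ d → d ≤ d₀ →
      (∀ n N : ℕ, n ≤ N → 2 ≤ N → ∀ A : ℝ, (∀ i ≤ n + R, aS μ Z s d i ≤ A) →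
        ∃ n' ≤ n + R, aS μ Z s d n ≤
          aS μ Z s 0 n + d * (C * Real.log N) * cv (aS μ Z s d) n' + C * A / N) ∧
      (∀ m N, m < N → aS μ Z s d N ≤
        C * (∑ f ∈ range (m + R + 1), aS μ Z s d f) * ∑ j ∈ range (N - m + R), aS μ Z s d j)

end

end Pool.Agent.HG
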