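import Pool.Agent.Lib.MP_daa227_pr_HG.MomB
import Pool.Agent.Lib.MP_daa227_pr_HG.Der
import Pool.Agent.Lib.MP_daa227_pr_HG.PowStep2

/-!
# MP_daa227_pr, general potentials: the derivative in the field, in moments
-/

namespace Pool.Agent.HG

open MeasureTheory ProbabilityTheory Finset Filter Topology
open MP_daa227_pr (Chain Zk Zf Gk Gf KU K0 Ren shift seqLaw ExpMom DepOn Good GoodW mom)
open Pool.Agent.HZ (Mod Kv lmg)
open Pool.Agent.IOrd (Sys aS cv)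

noncomputable section

namespace MomDer

theorem good_Gk (M : Mod) (R : ℕ) (h : ℝ) (n : ℕ) (x y : ℤ) :
    Good n M.κ (fun ω => Gk M.C (M.W h) (box R) n ω x y) :=
  MP_daa227_pr.good_Gk M.C M.κ_pos.le (M.goodW h) (box R) n x y

/-- the product of two kernels -/
theorem mom2 (M : Mod) {s : ℝ} (hs0 : 0 < s) (h : ℝ) {N r : ℕ} (_hr : r ≤ N) (x v y : ℤ) :
    mom M.μ s (fun ω => Zk M.C (M.W h) r ω x v * Zk M.C (M.W h) (N - r) (shift r ω) v y) =
      mom M.μ s (fun ω => Zk M.C (M.W h) r ω x v) *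
        mom M.μ s (fun ω => Zk M.C (M.W h) (N - r) ω v y) :=
  MP_daa227_pr.mom_mul_shift (k := r) (F := fun ω => Zk M.C (M.W h) r ω x v)
    (G := fun ω => Zk M.C (M.W h) (N - r) ω v y) hs0.le (M.good_Zk h r x v).meas
    (M.good_Zk h (N - r) v y).meas (M.good_Zk h r x v).depOn (M.good_Zk h r x v).nonneg

theorem good3 (M : Mod) (R : ℕ) (h h' : ℝ) {N r t : ℕ} (hrt : r < t) (htN : t ≤ N)
    (x u v y : ℤ) :
    Good N M.κ (fun ω => Zk M.C (M.W h) r ω x u *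
      Gk M.C (M.W h') (box R) (t - r) (shift r ω) u v *
        Zk M.C (M.W h) (N - t) (shift t ω) v y) := by
  have h2 := (M.good_Zk h r x u).mul_shift (good_Gk M R h' (t - r) u v)
  rw [show r + (t - r) = t by omega] at h2
  have h3 := h2.mul_shift (M.good_Zk h (N - t) v y)
  rw [show t + (N - t) = N by omega] at h3
  exact h3

theorem mom3 (M : Mod) (R : ℕ) {s : ℝ} (hs0 : 0 < s) (h h' : ℝ) {N r t : ℕ} (hrt : r < t)
    (x u v y : ℤ) :
    mom M.μ s (fun ω => Zk M.C (M.W h) r ω x u *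
      Gk M.C (M.W h') (box R) (t - r) (shift r ω) u v *
        Zk M.C (M.W h) (N - t) (shift t ω) v y) =
      mom M.μ s (fun ω => Zk M.C (M.W h) r ω x u) *
        mom M.μ s (fun ω => Gk M.C (M.W h') (box R) (t - r) ω u v) *
        mom M.μ s (fun ω => Zk M.C (M.W h) (N - t) ω v y) := by
  have h2 := (M.good_Zk h r x u).mul_shift (good_Gk M R h' (t - r) u v)
  rw [show r + (t - r) = t by omega] at h2
  rw [MP_daa227_pr.mom_mul_shift (k := t)
    (F := fun ω => Zk M.C (M.W h) r ω x u * Gk M.C (M.W h') (box R) (t - r) (shift r ω) u v)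
    (G := fun ω => Zk M.C (M.W h) (N - t) ω v y) hs0.le h2.meas (M.good_Zk h (N - t) v y).meas
    h2.depOn h2.nonneg]
  rw [MP_daa227_pr.mom_mul_shift (k := r) (F := fun ω => Zk M.C (M.W h) r ω x u)
    (G := fun ω => Gk M.C (M.W h') (box R) (t - r) ω u v) hs0.le (M.good_Zk h r x u).meas
    (good_Gk M R h' (t - r) u v).meas (M.good_Zk h r x u).depOn (M.good_Zk h r x u).nonneg]

end MomDer

/-- `der` at `x = y = 0`, length `2 n` (so that `z = Zk (2 n) 0 0 > 0`: `MP_daa227_pr.Zk_even_pos`),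
`pow_step2` with the index set `range (2 n) ×ˢ box R`, `m = δ a`, `T = Zk s 0 v * Zk (2 n - s) v 0 ≤ z`
(`Zk_mul_le`), `e` the last term of `der`; take expectations: `mom_mul_shift`, `mom_sum_le` (the error
term is a sum of products: `e ^ s ≤ (δ c⁻¹ exp (-(c a))) ^ s * ∑ (..) ^ s`). -/
theorem mom_der (M : Mod) {s : ℝ} (hs0 : 0 < s) (hs1 : s ≤ 1) (R : ℕ) {h δ a c : ℝ} (hδ : 0 ≤ δ)
    (ha : 0 ≤ a) (hc : 0 < c) (n : ℕ) :
    mZ M s (h - δ) (2 * n) 0 0 ≤ mZ M s h (2 * n) 0 0 +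
      (δ * a) * ∑ r ∈ range (2 * n), ∑ v ∈ box R,
        mZ M s (h - δ) r 0 v * mZ M s (h - δ) (2 * n - r) v 0 +
      (δ * (c⁻¹ * Real.exp (-(c * a)))) ^ s *
        ∑ r ∈ range (2 * n), ∑ t ∈ Finset.Ioc r (2 * n), ∑ u ∈ box R, ∑ v ∈ box R,
          mZ M s (h - δ) r 0 u * mG M R s (h - δ - c) (t - r) u v * mZ M s (h - δ) (2 * n - t) v 0 := by
  obtain ⟨N, hN⟩ : ∃ N, N = 2 * n := ⟨_, rfl⟩
  obtain ⟨k, hk⟩ : ∃ k, k = δ * (c⁻¹ * Real.exp (-(c * a))) := ⟨_, rfl⟩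
  have hk0 : 0 ≤ k := by
    rw [hk]
    exact mul_nonneg hδ (mul_nonneg (inv_nonneg.2 hc.le) (Real.exp_pos _).le)
  have hpos : ∀ ω, 0 < Zk M.C (M.W (h - δ)) N ω 0 0 := fun ω =>
    M.Z_pos (h - δ) (n := N) (by rw [hN]; exact even_two_mul n) ω
  rw [← hN, ← hk]
  have hbox : (0 : ℤ) ∈ box R := by
    unfold box
    rw [Finset.mem_Icc]
    omega
  -- the error term
  obtain ⟨E, hE⟩ : ∃ E : (ℕ → ℝ) → ℝ, E = fun ω => ∑ r ∈ range N, ∑ t ∈ Finset.Ioc r N,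
      ∑ u ∈ box R, ∑ v ∈ box R, Zk M.C (M.W (h - δ)) r ω 0 u *
        Gk M.C (M.W (h - δ - c)) (box R) (t - r) (shift r ω) u v *
          Zk M.C (M.W (h - δ)) (N - t) (shift t ω) v 0 := ⟨_, rfl⟩
  have hg3 : ∀ r ∈ range N, ∀ t ∈ Finset.Ioc r N, ∀ u v : ℤ,
      Good N M.κ (fun ω => Zk M.C (M.W (h - δ)) r ω 0 u *
        Gk M.C (M.W (h - δ - c)) (box R) (t - r) (shift r ω) u v *
          Zk M.C (M.W (h - δ)) (N - t) (shift t ω) v 0) := by
    intro r _ t ht u v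
    rw [Finset.mem_Ioc] at ht
    exact MomDer.good3 M R (h - δ) (h - δ - c) ht.1 ht.2 0 u v 0
  have hEg : Good N M.κ E := by
    rw [hE]
    exact Good.sum M.κ_pos.le _ fun r hr => Good.sum M.κ_pos.le _ fun t ht =>
      Good.sum M.κ_pos.le _ fun u _ => Good.sum M.κ_pos.le _ fun v _ => hg3 r hr t ht u v
  have hmomE : mom M.μ s E ≤ ∑ r ∈ range N, ∑ t ∈ Finset.Ioc r N, ∑ u ∈ box R, ∑ v ∈ box R,
      mom M.μ s (fun ω => Zk M.C (M.W (h - δ)) r ω 0 u) *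
        mom M.μ s (fun ω => Gk M.C (M.W (h - δ - c)) (box R) (t - r) ω u v) *
        mom M.μ s (fun ω => Zk M.C (M.W (h - δ)) (N - t) ω v 0) := by
    rw [hE]
    refine (MP_daa227_pr.mom_sum_le hs0 hs1 _ (fun r hr => ?_) (fun r hr ω => ?_)).trans ?_
    · exact (Good.sum M.κ_pos.le _ fun t ht => Good.sum M.κ_pos.le _ fun u _ =>
        Good.sum M.κ_pos.le _ fun v _ => hg3 r hr t ht u v).meas
    · exact (Good.sum M.κ_pos.le _ fun t ht => Good.sum M.κ_pos.le _ fun u _ =>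
        Good.sum M.κ_pos.le _ fun v _ => hg3 r hr t ht u v).nonneg ω
    refine sum_le_sum fun r hr => ?_
    refine (MP_daa227_pr.mom_sum_le hs0 hs1 _ (fun t ht => ?_) (fun t ht ω => ?_)).trans ?_
    · exact (Good.sum M.κ_pos.le _ fun u _ =>
        Good.sum M.κ_pos.le _ fun v _ => hg3 r hr t ht u v).meas
    · exact (Good.sum M.κ_pos.le _ fun u _ =>
        Good.sum M.κ_pos.le _ fun v _ => hg3 r hr t ht u v).nonneg ω
    refine sum_le_sum fun t ht => ?_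
    refine (MP_daa227_pr.mom_sum_le hs0 hs1 _ (fun u _ => ?_) (fun u _ ω => ?_)).trans ?_
    · exact (Good.sum M.κ_pos.le _ fun v _ => hg3 r hr t ht u v).meas
    · exact (Good.sum M.κ_pos.le _ fun v _ => hg3 r hr t ht u v).nonneg ω
    refine sum_le_sum fun u _ => ?_
    refine (MP_daa227_pr.mom_sum_le hs0 hs1 _ (fun v _ => ?_) (fun v _ ω => ?_)).trans ?_
    · exact (hg3 r hr t ht u v).meas
    · exact (hg3 r hr t ht u v).nonneg ω
    refine sum_le_sum fun v _ => le_of_eq ?_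
    rw [Finset.mem_Ioc] at ht
    exact MomDer.mom3 M R hs0 (h - δ) (h - δ - c) ht.1 0 u v 0
  -- the pointwise estimate
  have hpt : ∀ ω, Zk M.C (M.W (h - δ)) N ω 0 0 ^ s ≤ Zk M.C (M.W h) N ω 0 0 ^ s +
      ∑ i ∈ range N ×ˢ box R, (δ * a) * (Zk M.C (M.W (h - δ)) i.1 ω 0 i.2 *
        Zk M.C (M.W (h - δ)) (N - i.1) (shift i.1 ω) i.2 0) ^ s + (k * E ω) ^ s := by
    intro ω
    refine pow_step2 (range N ×ˢ box R) hs0 hs1 (hpos ω) ((M.good_Zk h N 0 0).nonneg ω)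
      (mul_nonneg hk0 (hEg.nonneg ω)) (fun i _ => mul_nonneg hδ ha) (fun i hi => ?_) ?_
    · rw [Finset.mem_product, Finset.mem_range] at hi
      refine ⟨mul_nonneg ((M.good_Zk (h - δ) i.1 0 i.2).nonneg ω)
        ((M.good_Zk (h - δ) (N - i.1) i.2 0).nonneg _), ?_⟩
      have h1 := MP_daa227_pr.Zk_mul_le M.C (M.W (h - δ)) (fun a z => (M.W_pos (h - δ) a z).le)
        i.1 (N - i.1) ω 0 i.2 0
      rw [show i.1 + (N - i.1) = N by omega] at h1
      exact h1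
    · have h1 := der M R hδ ha hc N ω hbox hbox (h := h)
      rw [Finset.sum_product, hE, hk]
      exact h1
  -- take the expectation
  have hofr : ∀ {x : ℝ}, 0 ≤ x → ENNReal.ofReal x ^ s = ENNReal.ofReal (x ^ s) := fun hx =>
    ENNReal.ofReal_rpow_of_nonneg hx hs0.le
  have hmomz : mom M.μ s (fun ω => Zk M.C (M.W (h - δ)) N ω 0 0) ≤
      mom M.μ s (fun ω => Zk M.C (M.W h) N ω 0 0) +
      ∑ i ∈ range N ×ˢ box R, ENNReal.ofReal (δ * a) * mom M.μ s (fun ω =>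
        Zk M.C (M.W (h - δ)) i.1 ω 0 i.2 *
          Zk M.C (M.W (h - δ)) (N - i.1) (shift i.1 ω) i.2 0) +
      mom M.μ s (fun ω => k * E ω) := by
    have hm0 : Measurable (fun ω => ENNReal.ofReal (Zk M.C (M.W h) N ω 0 0) ^ s) :=
      MP_daa227_pr.measurable_momf (M.good_Zk h N 0 0).meas
    have hmT : ∀ i : ℕ × ℤ, Measurable (fun ω => Zk M.C (M.W (h - δ)) i.1 ω 0 i.2 *
          Zk M.C (M.W (h - δ)) (N - i.1) (shift i.1 ω) i.2 0) := fun i =>
      ((M.good_Zk (h - δ) i.1 0 i.2).mul_shift (M.good_Zk (h - δ) (N - i.1) i.2 0)).meas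
    have hmTi : ∀ i : ℕ × ℤ, Measurable (fun ω => ENNReal.ofReal
        (Zk M.C (M.W (h - δ)) i.1 ω 0 i.2 *
          Zk M.C (M.W (h - δ)) (N - i.1) (shift i.1 ω) i.2 0) ^ s) := fun i =>
      MP_daa227_pr.measurable_momf (hmT i)
    have e1 : (mom M.μ s (fun ω => Zk M.C (M.W h) N ω 0 0) +
      ∑ i ∈ range N ×ˢ box R, ENNReal.ofReal (δ * a) * mom M.μ s (fun ω =>
        Zk M.C (M.W (h - δ)) i.1 ω 0 i.2 *
          Zk M.C (M.W (h - δ)) (N - i.1) (shift i.1 ω) i.2 0)) +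
      mom M.μ s (fun ω => k * E ω) = ∫⁻ ω, ((ENNReal.ofReal (Zk M.C (M.W h) N ω 0 0) ^ s +
        ∑ i ∈ range N ×ˢ box R, ENNReal.ofReal (δ * a) * ENNReal.ofReal
          (Zk M.C (M.W (h - δ)) i.1 ω 0 i.2 *
            Zk M.C (M.W (h - δ)) (N - i.1) (shift i.1 ω) i.2 0) ^ s) +
        ENNReal.ofReal (k * E ω) ^ s) ∂seqLaw M.μ := by
      rw [lintegral_add_left, lintegral_add_left hm0, lintegral_finsetSum]
      · unfold mom
        congr 2
        refine sum_congr rfl fun i _ => ?_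
        rw [lintegral_const_mul _ (hmTi i)]
      · intro i _
        exact (hmTi i).const_mul _
      · exact hm0.add (Finset.measurable_sum _ fun i _ => (hmTi i).const_mul _)
    rw [e1]
    unfold mom
    refine lintegral_mono fun ω => ?_
    have hT0 : ∀ i : ℕ × ℤ, 0 ≤ Zk M.C (M.W (h - δ)) i.1 ω 0 i.2 *
        Zk M.C (M.W (h - δ)) (N - i.1) (shift i.1 ω) i.2 0 := fun i =>
      mul_nonneg ((M.good_Zk (h - δ) i.1 0 i.2).nonneg ω)
        ((M.good_Zk (h - δ) (N - i.1) i.2 0).nonneg _)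
    have hz0 := (M.good_Zk h N 0 0).nonneg ω
    have hE0 := mul_nonneg hk0 (hEg.nonneg ω)
    dsimp only
    rw [hofr (hpos ω).le, hofr hz0, hofr hE0]
    have e2 : ∑ i ∈ range N ×ˢ box R, ENNReal.ofReal (δ * a) * ENNReal.ofReal
          (Zk M.C (M.W (h - δ)) i.1 ω 0 i.2 *
            Zk M.C (M.W (h - δ)) (N - i.1) (shift i.1 ω) i.2 0) ^ s =
        ENNReal.ofReal (∑ i ∈ range N ×ˢ box R, (δ * a) * (Zk M.C (M.W (h - δ)) i.1 ω 0 i.2 *
        Zk M.C (M.W (h - δ)) (N - i.1) (shift i.1 ω) i.2 0) ^ s) := by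
      rw [ENNReal.ofReal_sum_of_nonneg
        (fun i _ => mul_nonneg (mul_nonneg hδ ha) (Real.rpow_nonneg (hT0 i) s))]
      refine sum_congr rfl fun i _ => ?_
      rw [hofr (hT0 i), ENNReal.ofReal_mul (mul_nonneg hδ ha)]
    rw [e2, ← ENNReal.ofReal_add (Real.rpow_nonneg hz0 s), ← ENNReal.ofReal_add]
    · exact ENNReal.ofReal_le_ofReal (hpt ω)
    · exact add_nonneg (Real.rpow_nonneg hz0 s) (sum_nonneg fun i _ =>
        mul_nonneg (mul_nonneg hδ ha) (Real.rpow_nonneg (hT0 i) s))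
    · exact Real.rpow_nonneg hE0 s
    · exact sum_nonneg fun i _ => mul_nonneg (mul_nonneg hδ ha) (Real.rpow_nonneg (hT0 i) s)
  have hmomz2 : mom M.μ s (fun ω => Zk M.C (M.W (h - δ)) N ω 0 0) ≤
      mom M.μ s (fun ω => Zk M.C (M.W h) N ω 0 0) +
      ENNReal.ofReal (δ * a) * (∑ r ∈ range N, ∑ v ∈ box R,
        mom M.μ s (fun ω => Zk M.C (M.W (h - δ)) r ω 0 v) *
          mom M.μ s (fun ω => Zk M.C (M.W (h - δ)) (N - r) ω v 0)) +
      ENNReal.ofReal k ^ s * (∑ r ∈ range N, ∑ t ∈ Finset.Ioc r N, ∑ u ∈ box R, ∑ v ∈ box R,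
        mom M.μ s (fun ω => Zk M.C (M.W (h - δ)) r ω 0 u) *
          mom M.μ s (fun ω => Gk M.C (M.W (h - δ - c)) (box R) (t - r) ω u v) *
          mom M.μ s (fun ω => Zk M.C (M.W (h - δ)) (N - t) ω v 0)) := by
    refine hmomz.trans ?_
    refine add_le_add (add_le_add le_rfl (le_of_eq ?_)) ?_
    · rw [mul_sum, Finset.sum_product]
      refine sum_congr rfl fun r hr => ?_
      rw [mul_sum]
      refine sum_congr rfl fun v _ => ?_
      rw [Finset.mem_range] at hr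
      dsimp only
      rw [MomDer.mom2 M hs0 (h - δ) hr.le 0 v 0]
    · rw [MP_daa227_pr.mom_const_mul hs0.le hk0 hEg.meas]
      exact mul_le_mul' le_rfl hmomE
  have hZt : ∀ (h : ℝ) (n : ℕ) (x y : ℤ), mom M.μ s (fun ω => Zk M.C (M.W h) n ω x y) =
      ENNReal.ofReal (mZ M s h n x y) := fun h n x y =>
    (ENNReal.ofReal_toReal (zk_ne_top M hs0 hs1 h n x y)).symm
  have hGt : ∀ (h : ℝ) (n : ℕ) (x y : ℤ), mom M.μ s (fun ω => Gk M.C (M.W h) (box R) n ω x y) =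
      ENNReal.ofReal (mG M R s h n x y) := fun h n x y =>
    (ENNReal.ofReal_toReal (gk_ne_top M hs0 hs1 h (box R) n x y)).symm
  have hZ0 : ∀ (h : ℝ) (n : ℕ) (x y : ℤ), 0 ≤ mZ M s h n x y := fun h n x y =>
    mZ_nonneg M s h n x y
  have hG0 : ∀ (h : ℝ) (n : ℕ) (x y : ℤ), 0 ≤ mG M R s h n x y := fun h n x y =>
    mG_nonneg M R s h n x y
  have s1 : 0 ≤ ∑ r ∈ range N, ∑ v ∈ box R,
        mZ M s (h - δ) r 0 v * mZ M s (h - δ) (N - r) v 0 :=
    sum_nonneg fun r _ => sum_nonneg fun v _ => mul_nonneg (hZ0 _ _ _ _) (hZ0 _ _ _ _)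
  have s2 : 0 ≤ ∑ r ∈ range N, ∑ t ∈ Finset.Ioc r N, ∑ u ∈ box R, ∑ v ∈ box R,
          mZ M s (h - δ) r 0 u * mG M R s (h - δ - c) (t - r) u v * mZ M s (h - δ) (N - t) v 0 :=
    sum_nonneg fun r _ => sum_nonneg fun t _ => sum_nonneg fun u _ => sum_nonneg fun v _ =>
      mul_nonneg (mul_nonneg (hZ0 _ _ _ _) (hG0 _ _ _ _)) (hZ0 _ _ _ _)
  have hfin : ENNReal.ofReal (mZ M s (h - δ) N 0 0) ≤ ENNReal.ofReal (mZ M s h N 0 0 +
      (δ * a) * ∑ r ∈ range N, ∑ v ∈ box R,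
        mZ M s (h - δ) r 0 v * mZ M s (h - δ) (N - r) v 0 +
      k ^ s * ∑ r ∈ range N, ∑ t ∈ Finset.Ioc r N, ∑ u ∈ box R, ∑ v ∈ box R,
          mZ M s (h - δ) r 0 u * mG M R s (h - δ - c) (t - r) u v *
            mZ M s (h - δ) (N - t) v 0) := by
    rw [ENNReal.ofReal_add, ENNReal.ofReal_add (hZ0 _ _ _ _), ENNReal.ofReal_mul (mul_nonneg hδ ha),
      ENNReal.ofReal_mul (Real.rpow_nonneg hk0 s), ← hofr hk0]
    · have t1 : ENNReal.ofReal (∑ r ∈ range N, ∑ v ∈ box R,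
          mZ M s (h - δ) r 0 v * mZ M s (h - δ) (N - r) v 0) =
          ∑ r ∈ range N, ∑ v ∈ box R,
            mom M.μ s (fun ω => Zk M.C (M.W (h - δ)) r ω 0 v) *
              mom M.μ s (fun ω => Zk M.C (M.W (h - δ)) (N - r) ω v 0) := by
        rw [ENNReal.ofReal_sum_of_nonneg
          (fun r _ => sum_nonneg fun v _ => mul_nonneg (hZ0 _ _ _ _) (hZ0 _ _ _ _))]
        refine sum_congr rfl fun r _ => ?_
        rw [ENNReal.ofReal_sum_of_nonneg (fun v _ => mul_nonneg (hZ0 _ _ _ _) (hZ0 _ _ _ _))]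
        refine sum_congr rfl fun v _ => ?_
        rw [ENNReal.ofReal_mul (hZ0 _ _ _ _), hZt, hZt]
      have t2 : ENNReal.ofReal (∑ r ∈ range N, ∑ t ∈ Finset.Ioc r N, ∑ u ∈ box R, ∑ v ∈ box R,
          mZ M s (h - δ) r 0 u * mG M R s (h - δ - c) (t - r) u v *
            mZ M s (h - δ) (N - t) v 0) =
          ∑ r ∈ range N, ∑ t ∈ Finset.Ioc r N, ∑ u ∈ box R, ∑ v ∈ box R,
            mom M.μ s (fun ω => Zk M.C (M.W (h - δ)) r ω 0 u) *
              mom M.μ s (fun ω => Gk M.C (M.W (h - δ - c)) (box R) (t - r) ω u v) *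
              mom M.μ s (fun ω => Zk M.C (M.W (h - δ)) (N - t) ω v 0) := by
        have h3 : ∀ (r t : ℕ) (u v : ℤ), 0 ≤ mZ M s (h - δ) r 0 u *
            mG M R s (h - δ - c) (t - r) u v * mZ M s (h - δ) (N - t) v 0 := fun r t u v =>
          mul_nonneg (mul_nonneg (hZ0 _ _ _ _) (hG0 _ _ _ _)) (hZ0 _ _ _ _)
        rw [ENNReal.ofReal_sum_of_nonneg
          (fun r _ => sum_nonneg fun t _ => sum_nonneg fun u _ => sum_nonneg fun v _ => h3 r t u v)]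
        refine sum_congr rfl fun r _ => ?_
        rw [ENNReal.ofReal_sum_of_nonneg
          (fun t _ => sum_nonneg fun u _ => sum_nonneg fun v _ => h3 r t u v)]
        refine sum_congr rfl fun t _ => ?_
        rw [ENNReal.ofReal_sum_of_nonneg (fun u _ => sum_nonneg fun v _ => h3 r t u v)]
        refine sum_congr rfl fun u _ => ?_
        rw [ENNReal.ofReal_sum_of_nonneg (fun v _ => h3 r t u v)]
        refine sum_congr rfl fun v _ => ?_
        rw [ENNReal.ofReal_mul (mul_nonneg (hZ0 _ _ _ _) (hG0 _ _ _ _)),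
          ENNReal.ofReal_mul (hZ0 _ _ _ _), hZt, hZt, hGt]
      rw [t1, t2, ← hZt, ← hZt]
      exact hmomz2
    · exact mul_nonneg (mul_nonneg hδ ha) s1
    · exact add_nonneg (hZ0 _ _ _ _) (mul_nonneg (mul_nonneg hδ ha) s1)
    · exact mul_nonneg (Real.rpow_nonneg hk0 s) s2
  exact (ENNReal.ofReal_le_ofReal_iff (add_nonneg (add_nonneg (hZ0 _ _ _ _)
    (mul_nonneg (mul_nonneg hδ ha) s1)) (mul_nonneg (Real.rpow_nonneg hk0 s) s2))).1 hfin

end

end Pool.Agent.HG
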