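import Pool.Agent.Lib.MP_daa227_pr_HG.Bridge

/-!
# MP_daa227_pr, general potentials: sums of extended sequences
-/

namespace Pool.Agent.HG

open MeasureTheory ProbabilityTheory Finset Filter Topology
open MP_daa227_pr (Chain Zk Zf Gk Gf KU K0 Ren shift seqLaw ExpMom DepOn Good GoodW mom)
open Pool.Agent.HZ (Mod Kv lmg)
open Pool.Agent.IOrd (Sys aS cv)

noncomputable section

theorem ext_nonneg {u : ℕ → ℝ} (hu : ∀ n, 0 ≤ u n) (L m : ℕ) : 0 ≤ ext L u m := hu _

namespace Sums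

theorem card_box (R : ℕ) : ((box R).card : ℝ) = 2 * R + 1 := by
  have h : (box R).card = 2 * R + 1 := by
    rw [box, Int.card_Icc]
    omega
  rw [h]
  push_cast
  ring

/-- pairs of terms -/
theorem pairs (f : ℕ → ℝ) : ∀ n : ℕ,
    ∑ r ∈ range (2 * n), f r = ∑ x ∈ range n, (f (2 * x) + f (2 * x + 1))
  | 0 => by simp
  | n + 1 => by
    rw [show 2 * (n + 1) = 2 * n + 1 + 1 by ring, Finset.sum_range_succ, Finset.sum_range_succ,
      pairs f n, Finset.sum_range_succ _ n]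
    ring

theorem shift_le {F : ℕ → ℝ} (hF : ∀ x, 0 ≤ F x) (n L B : ℕ) (h : n + L ≤ B) :
    ∑ x ∈ range n, F (x + L) ≤ ∑ x ∈ range B, F x := by
  have h1 : ∑ x ∈ range n, F (x + L) = ∑ x ∈ Finset.Ico L (n + L), F x := by
    rw [Finset.range_eq_Ico, Finset.sum_Ico_add' F 0 n L, zero_add]
  rw [h1]
  refine Finset.sum_le_sum_of_subset_of_nonneg (fun x hx => ?_) fun x _ _ => hF x
  rw [Finset.mem_Ico] at hx
  rw [Finset.mem_range]
  omega

end Sums

/-- The terms `r = 2 x` and `r = 2 x + 1` are `u (x + L) u (n - x + L)` and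
`u (x + L) u (n - x - 1 + L)`. -/
theorem conv_sum {u : ℕ → ℝ} (hu : ∀ n, 0 ≤ u n) (n R L : ℕ) (hL : 1 ≤ L) :
    ∃ n' ≤ n + 2 * L, ∑ r ∈ range (2 * n), ∑ _v ∈ box R, ext L u r * ext L u (2 * n - r) ≤
      2 * (2 * R + 1) * cv u n' := by
  have hcv : ∀ N, cv u N = ∑ x ∈ range (N + 1), u x * u (N - x) := fun N => rfl
  have h1 : ∑ r ∈ range (2 * n), ext L u r * ext L u (2 * n - r) ≤
      cv u (n + 2 * L) + cv u (n + 2 * L - 1) := by
    rw [Sums.pairs, Finset.sum_add_distrib]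
    apply add_le_add
    · rw [hcv]
      refine le_trans (le_of_eq ?_) (Sums.shift_le (F := fun x => u x * u (n + 2 * L - x))
        (fun x => mul_nonneg (hu _) (hu _)) n L (n + 2 * L + 1) (by omega))
      refine Finset.sum_congr rfl fun x hx => ?_
      rw [Finset.mem_range] at hx
      unfold ext
      have e1 : 2 * x / 2 + L = x + L := by omega
      have e2 : (2 * n - 2 * x) / 2 + L = n + 2 * L - (x + L) := by omega
      rw [e1, e2]
    · rw [hcv]
      refine le_trans (le_of_eq ?_) (Sums.shift_le (F := fun x => u x * u (n + 2 * L - 1 - x))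
        (fun x => mul_nonneg (hu _) (hu _)) n L (n + 2 * L - 1 + 1) (by omega))
      refine Finset.sum_congr rfl fun x hx => ?_
      rw [Finset.mem_range] at hx
      unfold ext
      have e1 : (2 * x + 1) / 2 + L = x + L := by omega
      have e2 : (2 * n - (2 * x + 1)) / 2 + L = n + 2 * L - 1 - (x + L) := by omega
      rw [e1, e2]
  obtain ⟨n', hn', hmax⟩ : ∃ n' ≤ n + 2 * L,
      cv u (n + 2 * L) + cv u (n + 2 * L - 1) ≤ 2 * cv u n' := by
    rcases le_total (cv u (n + 2 * L)) (cv u (n + 2 * L - 1)) with h | h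
    · exact ⟨n + 2 * L - 1, by omega, by linarith⟩
    · exact ⟨n + 2 * L, le_rfl, by linarith⟩
  refine ⟨n', hn', ?_⟩
  have h2 : ∑ r ∈ range (2 * n), ∑ _v ∈ box R, ext L u r * ext L u (2 * n - r) =
      (2 * R + 1) * ∑ r ∈ range (2 * n), ext L u r * ext L u (2 * n - r) := by
    rw [Finset.mul_sum]
    refine Finset.sum_congr rfl fun r _ => ?_
    rw [Finset.sum_const, nsmul_eq_mul, Sums.card_box]
  rw [h2]
  have h3 : (0 : ℝ) ≤ 2 * R + 1 := by positivity
  calc (2 * (R : ℝ) + 1) * ∑ r ∈ range (2 * n), ext L u r * ext L u (2 * n - r)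
      ≤ (2 * R + 1) * (2 * cv u n') := mul_le_mul_of_nonneg_left (h1.trans hmax) h3
    _ = _ := by ring

/-- For `r < t ≤ 2 n`: `r / 2 + L + (2 n - t) / 2 + L ≤ n + 2 L`. -/
theorem tail_sum {u : ℕ → ℝ} (n R L : ℕ) {D : ℝ}
    (hD : ∀ x y, x + y ≤ n + 2 * L → u x * u y ≤ D) (hD0 : 0 ≤ D) :
    ∑ r ∈ range (2 * n), ∑ t ∈ Finset.Ioc r (2 * n), ∑ _a ∈ box R, ∑ _b ∈ box R,
      ext L u r * ext L u (2 * n - t) ≤ (2 * n) ^ 2 * (2 * R + 1) ^ 2 * D := by
  have h1 : ∀ r ∈ range (2 * n), ∀ t ∈ Finset.Ioc r (2 * n), ∀ _a ∈ box R, ∀ _b ∈ box R,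
      ext L u r * ext L u (2 * n - t) ≤ D := by
    intro r hr t ht a _ b _
    rw [Finset.mem_range] at hr
    rw [Finset.mem_Ioc] at ht
    unfold ext
    apply hD
    omega
  have h2 : ∀ r ∈ range (2 * n), ∀ t ∈ Finset.Ioc r (2 * n), ∑ _a ∈ box R, ∑ _b ∈ box R,
      ext L u r * ext L u (2 * n - t) ≤ (2 * R + 1) ^ 2 * D := by
    intro r hr t ht
    refine le_trans (Finset.sum_le_sum (g := fun _ => (2 * R + 1) * D) ?_) ?_
    · intro a ha
      refine le_trans (Finset.sum_le_sum (g := fun _ => D) (fun b hb => h1 r hr t ht a ha b hb)) ?_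
      rw [Finset.sum_const, nsmul_eq_mul, Sums.card_box]
    · rw [Finset.sum_const, nsmul_eq_mul, Sums.card_box]
      apply le_of_eq
      ring
  have hc : (0 : ℝ) ≤ (2 * R + 1) ^ 2 * D := by positivity
  have h3 : ∀ r ∈ range (2 * n), ∑ t ∈ Finset.Ioc r (2 * n), ∑ _a ∈ box R, ∑ _b ∈ box R,
      ext L u r * ext L u (2 * n - t) ≤ (2 * n) * ((2 * R + 1) ^ 2 * D) := by
    intro r hr
    refine le_trans (Finset.sum_le_sum (g := fun _ => (2 * R + 1) ^ 2 * D)
      (fun t ht => h2 r hr t ht)) ?_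
    rw [Finset.sum_const, nsmul_eq_mul]
    apply mul_le_mul_of_nonneg_right _ hc
    rw [Nat.card_Ioc]
    have : ((2 * n - r : ℕ) : ℝ) ≤ ((2 * n : ℕ) : ℝ) := by
      exact_mod_cast Nat.sub_le _ _
    push_cast at this
    exact this
  refine le_trans (Finset.sum_le_sum (g := fun _ => (2 * n) * ((2 * R + 1) ^ 2 * D)) h3) ?_
  rw [Finset.sum_const, nsmul_eq_mul, Finset.card_range]
  push_cast
  apply le_of_eq
  ring

/-- every value `t / 2 + L ≤ m + L` is taken at most twice -/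
theorem left_sum {u : ℕ → ℝ} (hu : ∀ n, 0 ≤ u n) (m R L : ℕ) (hL : 1 ≤ L) :
    ∑ t ∈ range (2 * m + 1), ∑ _v ∈ box R, ext L u t ≤
      2 * (2 * R + 1) * ∑ f ∈ range (m + 2 * L + 1), u f := by
  have h2 : ∑ t ∈ range (2 * m + 1), ∑ _v ∈ box R, ext L u t =
      (2 * R + 1) * ∑ t ∈ range (2 * m + 1), ext L u t := by
    rw [Finset.mul_sum]
    refine Finset.sum_congr rfl fun r _ => ?_
    rw [Finset.sum_const, nsmul_eq_mul, Sums.card_box]
  have h3 : ∑ t ∈ range (2 * m + 1), ext L u t ≤ ∑ t ∈ range (2 * (m + 1)), ext L u t := by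
    refine Finset.sum_le_sum_of_subset_of_nonneg (fun x hx => ?_) fun x _ _ => hu _
    rw [Finset.mem_range] at hx ⊢
    omega
  have h4 : ∑ t ∈ range (2 * (m + 1)), ext L u t = 2 * ∑ x ∈ range (m + 1), u (x + L) := by
    rw [Sums.pairs, Finset.mul_sum]
    refine Finset.sum_congr rfl fun x _ => ?_
    unfold ext
    have e1 : 2 * x / 2 + L = x + L := by omega
    have e2 : (2 * x + 1) / 2 + L = x + L := by omega
    rw [e1, e2]
    ring
  have h5 := Sums.shift_le hu (m + 1) L (m + 2 * L + 1) (by omega)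
  rw [h2]
  have h6 : (0 : ℝ) ≤ 2 * R + 1 := by positivity
  calc (2 * (R : ℝ) + 1) * ∑ t ∈ range (2 * m + 1), ext L u t
      ≤ (2 * R + 1) * (2 * ∑ f ∈ range (m + 2 * L + 1), u f) :=
        mul_le_mul_of_nonneg_left (by linarith) h6
    _ = _ := by ring

/-- `2 N - r ≤ 2 (N - m) - 1` -/
theorem right_sum {u : ℕ → ℝ} (hu : ∀ n, 0 ≤ u n) {m N : ℕ} (R : ℕ) {L : ℕ} (hm : m < N)
    (hL : 1 ≤ L) :
    ∑ r ∈ Finset.Ioc (2 * m) (2 * N), ∑ _v ∈ box R, ext L u (2 * N - r) ≤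
      2 * (2 * R + 1) * ∑ j ∈ range (N - m + 2 * L), u j := by
  have h2 : ∑ r ∈ Finset.Ioc (2 * m) (2 * N), ∑ _v ∈ box R, ext L u (2 * N - r) =
      (2 * R + 1) * ∑ r ∈ Finset.Ioc (2 * m) (2 * N), ext L u (2 * N - r) := by
    rw [Finset.mul_sum]
    refine Finset.sum_congr rfl fun r _ => ?_
    rw [Finset.sum_const, nsmul_eq_mul, Sums.card_box]
  have h3 : ∑ r ∈ Finset.Ioc (2 * m) (2 * N), ext L u (2 * N - r) =
      ∑ t ∈ range (2 * (N - m)), ext L u t := by
    refine Finset.sum_bij' (fun r _ => 2 * N - r) (fun t _ => 2 * N - t) ?_ ?_ ?_ ?_ ?_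
    · intro r hr
      rw [Finset.mem_Ioc] at hr
      rw [Finset.mem_range]
      omega
    · intro t ht
      rw [Finset.mem_range] at ht
      rw [Finset.mem_Ioc]
      omega
    · intro r hr
      rw [Finset.mem_Ioc] at hr
      omega
    · intro t ht
      rw [Finset.mem_range] at ht
      omega
    · intro r _
      rfl
  have h4 : ∑ t ∈ range (2 * (N - m)), ext L u t = 2 * ∑ x ∈ range (N - m), u (x + L) := by
    rw [Sums.pairs, Finset.mul_sum]
    refine Finset.sum_congr rfl fun x _ => ?_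
    unfold ext
    have e1 : 2 * x / 2 + L = x + L := by omega
    have e2 : (2 * x + 1) / 2 + L = x + L := by omega
    rw [e1, e2]
    ring
  have h5 := Sums.shift_le hu (N - m) L (N - m + 2 * L) (by omega)
  rw [h2, h3, h4]
  have h6 : (0 : ℝ) ≤ 2 * R + 1 := by positivity
  calc (2 * (R : ℝ) + 1) * (2 * ∑ x ∈ range (N - m), u (x + L))
      ≤ (2 * R + 1) * (2 * ∑ j ∈ range (N - m + 2 * L), u j) :=
        mul_le_mul_of_nonneg_left (by linarith) h6
    _ = _ := by ring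

end

end Pool.Agent.HG
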