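import Pool.Agent.Lib.MP_daa227_pr_HG.WOcc

/-!
# MP_daa227_pr, exact order: the mean of the potential along a penalised excursion
-/

namespace Pool.Agent.HG

open MeasureTheory ProbabilityTheory Finset Filter Topology
open MP_daa227_pr (Chain Zk Zf Gk Gf KU K0 Ren shift seqLaw ExpMom DepOn Good GoodW mom ushift)
open Pool.Agent.HZ (Mod Kv lmg)
open Pool.Agent.IOrd (Sys aS cv)

noncomputable section

/-- one where the potential is larger than `t` -/
def big (φ : ℤ → ℝ) (t : ℝ) : ℤ → ℝ := fun z => if t < φ z then 1 else 0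

theorem big_nonneg (φ : ℤ → ℝ) (t : ℝ) (z : ℤ) : 0 ≤ big φ t z := by
  unfold big
  split_ifs <;> norm_num

theorem big_le_one (φ : ℤ → ℝ) (t : ℝ) (z : ℤ) : big φ t z ≤ 1 := by
  unfold big
  split_ifs <;> norm_num

/-- the reference weights: `-h φ`, and `-1` more where `φ > t` -/
def wt (M : Mod) (h t : ℝ) : ℤ → ℝ := fun z => -h * M.φ z - big M.φ t z

/-- the penalised excursions at `h` have loop exponent (at most) `α`, also with an additional
penalty where the potential is not small -/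
def PolyW (M : Mod) (α h : ℝ) : Prop := ∀ t : ℝ, 0 < t → ∀ ε : ℝ, 0 < ε → ∀ᶠ n : ℕ in atTop,
  ((2 * n : ℕ) : ℝ) ^ (-(1 + α + ε)) ≤ Kv M.C (wt M h t) (2 * n) 0

/-- the penalised excursions at `h` have loop exponent (at least) `α` -/
def KUW (M : Mod) (α h : ℝ) : Prop := ∀ ε : ℝ, 0 < ε → ∀ᶠ n : ℕ in atTop,
  Kv M.C (fun z => -h * M.φ z) (2 * n) 0 ≤ ((2 * n : ℕ) : ℝ) ^ (-(1 + α - ε))

theorem PolyW.low {M : Mod} {α h : ℝ} (hW : PolyW M α h) {ε : ℝ} (hε : 0 < ε) :
    ∀ᶠ n : ℕ in atTop,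
      ((2 * n : ℕ) : ℝ) ^ (-(1 + α + ε)) ≤ Kv M.C (fun z => -h * M.φ z) (2 * n) 0 := by
  filter_upwards [hW 1 one_pos ε hε] with n hn
  refine hn.trans (HZ.Kv_mono M.C (fun z => ?_) _ _)
  have := big_nonneg M.φ 1 z
  unfold wt
  linarith

theorem polyW_of_polyA {M : Mod} {α h : ℝ} (hh : 0 < h) (hA : PolyA M α) : PolyW M α h := by
  intro t ht ε hε
  filter_upwards [hA (h + 1 / t) (by positivity) ε hε] with n hn
  refine hn.trans (HZ.Kv_mono M.C (fun z => ?_) _ _)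
  unfold wt big
  have h1 := M.φ_nonneg z
  split_ifs with h2
  · have h3 : 1 ≤ 1 / t * M.φ z := by
      rw [one_div, inv_mul_eq_div, le_div_iff₀ ht]
      linarith
    linarith
  · have h3 : 0 ≤ 1 / t * M.φ z := by positivity
    linarith

theorem kuw_of_kUp {M : Mod} {α h : ℝ} (hh : 0 ≤ h) (hU : KUp M.C α) : KUW M α h := by
  intro ε hε
  filter_upwards [hU ε hε] with n hn
  refine le_trans ?_ hn
  rw [← HZ.Kv_K0]
  refine HZ.Kv_mono M.C (fun z => ?_) _ _
  have := mul_nonneg hh (M.φ_nonneg z)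
  linarith

/-- mean of `φ` at time `i + 1` under the law of an excursion of length `n` with the weights `wt` -/
def cw (M : Mod) (h t : ℝ) (n i : ℕ) : ℝ :=
  om M.C (wt M h t) M.φ n i 0 / Kv M.C (wt M h t) n 0

theorem cw_nonneg (M : Mod) (h t : ℝ) (n i : ℕ) : 0 ≤ cw M h t n i :=
  div_nonneg (om_nonneg M.C _ M.φ_nonneg n i 0) (HZ.Kv_nonneg M.C _ n 0)

theorem cw_le (M : Mod) (h t : ℝ) (n i : ℕ) : cw M h t n i ≤ M.Φ :=
  div_le_of_le_mul₀ (HZ.Kv_nonneg M.C _ n 0) M.Φ_pos.le (om_le M.C _ M.Φ_pos.le M.φ_le n i 0)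

namespace WMean

/-- the mean of `big` -/
def bw (M : Mod) (h t : ℝ) (n i : ℕ) : ℝ :=
  om M.C (wt M h t) (big M.φ t) n i 0 / Kv M.C (wt M h t) n 0

theorem bw_nonneg (M : Mod) (h t : ℝ) (n i : ℕ) : 0 ≤ bw M h t n i :=
  div_nonneg (om_nonneg M.C _ (big_nonneg M.φ t) n i 0) (HZ.Kv_nonneg M.C _ n 0)

theorem cw_le_bw (M : Mod) {h t : ℝ} (ht : 0 ≤ t) {n : ℕ} (i : ℕ)
    (hK : 0 < Kv M.C (wt M h t) n 0) : cw M h t n i ≤ t + M.Φ * bw M h t n i := by
  have h1 := om_mono M.C (wt M h t) (ψ := M.φ)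
    (χ := fun z => t * (fun _ => (1 : ℝ)) z + M.Φ * big M.φ t z) (fun z => by
      unfold big
      have h2 := M.φ_le z
      have h3 := M.Φ_pos
      split_ifs with h4
      · simp only [mul_one]
        linarith
      · simp only [mul_one, mul_zero]
        linarith) n i 0
  rw [om_lin] at h1
  have h2 := mul_le_mul_of_nonneg_left (om_one M.C (wt M h t) n i 0) ht
  unfold cw bw
  rw [div_le_iff₀ hK, add_mul, mul_assoc, div_mul_cancel₀ _ hK.ne']
  linarith

theorem cw_sum (M : Mod) {h t : ℝ} (hh : 0 < h) {n : ℕ} (hn : 1 ≤ n) :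
    h / 2 * ∑ i ∈ range (2 * n), cw M h t (2 * n) i ≤ -Real.log (Kv M.C (wt M h t) (2 * n) 0) := by
  have hK : 0 < Kv M.C (wt M h t) (2 * n) 0 := HZ.Kv_even_pos M.C _ hn
  have h1 := jensenW M.C (wt M h t) M.φ (2 * n) (fun _ => h / 2) 0 hK
  have h2 : KU M.C (2 * n) (fun i z => (fun _ => h / 2) i * M.φ z + wt M h t z) 0 ≤ 1 := by
    refine HZ.Kv_le_one M.C (v := fun z => h / 2 * M.φ z + wt M h t z) (fun z => ?_) (2 * n) 0
    have h3 := mul_nonneg hh.le (M.φ_nonneg z)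
    have h4 := big_nonneg M.φ t z
    unfold wt
    linarith
  have h3 := Real.log_le_log (mul_pos hK (Real.exp_pos _)) (h1.trans h2)
  rw [Real.log_mul hK.ne' (Real.exp_ne_zero _), Real.log_exp, Real.log_one] at h3
  have h4 : ∑ i ∈ range (2 * n), (fun _ => h / 2) i *
      (om M.C (wt M h t) M.φ (2 * n) i 0 / Kv M.C (wt M h t) (2 * n) 0) =
      h / 2 * ∑ i ∈ range (2 * n), cw M h t (2 * n) i := by
    rw [Finset.mul_sum]
    rfl
  rw [h4] at h3
  linarith

theorem bw_sum (M : Mod) {h t : ℝ} {n : ℕ} (hn : 1 ≤ n) :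
    ∑ i ∈ range (2 * n), bw M h t (2 * n) i ≤ Real.log (Kv M.C (fun z => -h * M.φ z) (2 * n) 0) -
      Real.log (Kv M.C (wt M h t) (2 * n) 0) := by
  have hK : 0 < Kv M.C (wt M h t) (2 * n) 0 := HZ.Kv_even_pos M.C _ hn
  have h1 := jensenW M.C (wt M h t) (big M.φ t) (2 * n) (fun _ => 1) 0 hK
  have h2 : KU M.C (2 * n) (fun i z => (fun _ => (1 : ℝ)) i * big M.φ t z + wt M h t z) 0 =
      Kv M.C (fun z => -h * M.φ z) (2 * n) 0 := by
    have h3 : (fun (i : ℕ) (z : ℤ) => (fun _ => (1 : ℝ)) i * big M.φ t z + wt M h t z) =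
        fun _ => fun z => -h * M.φ z := by
      funext i z
      unfold wt
      ring
    rw [h3]
    rfl
  rw [h2] at h1
  have h3 := Real.log_le_log (mul_pos hK (Real.exp_pos _)) h1
  rw [Real.log_mul hK.ne' (Real.exp_ne_zero _), Real.log_exp] at h3
  have h4 : ∑ i ∈ range (2 * n), (fun _ => (1 : ℝ)) i *
      (om M.C (wt M h t) (big M.φ t) (2 * n) i 0 / Kv M.C (wt M h t) (2 * n) 0) =
      ∑ i ∈ range (2 * n), bw M h t (2 * n) i := by
    refine Finset.sum_congr rfl fun i _ => ?_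
    rw [one_mul]
    rfl
  rw [h4] at h3
  linarith

end WMean

/-- The square sums of the means are small: `cw ^ 2 ≤ cw (t + Φ bw) ≤ t cw + Φ ^ 2 bw`, where `cw` sums to
`O(log n)` and `bw` to `o(log n)` (`WMean.cw_sum`, `WMean.bw_sum`). -/
theorem cw_sq (M : Mod) {α h : ℝ} (hα : 0 ≤ α) (hh : 0 < h) (hW : PolyW M α h) (hU : KUW M α h)
    {ε : ℝ} (hε : 0 < ε) : ∃ t : ℝ, 0 < t ∧ ∀ᶠ n : ℕ in atTop,
      ∑ i ∈ range (2 * n), cw M h t (2 * n) i ^ 2 ≤ ε * Real.log n := by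
  have hΦ := M.Φ_pos
  obtain ⟨t, ht⟩ : ∃ t, t = ε * h / (8 * (2 + α)) := ⟨_, rfl⟩
  have ht0 : 0 < t := by rw [ht]; positivity
  obtain ⟨e, he⟩ : ∃ e, e = min 1 (ε / (8 * M.Φ ^ 2)) := ⟨_, rfl⟩
  have he0 : 0 < e := by
    rw [he]
    exact lt_min one_pos (by positivity)
  have he1 : e ≤ 1 := by
    rw [he]
    exact min_le_left _ _
  have he2 : M.Φ ^ 2 * e ≤ ε / 8 := by
    have h1 : e ≤ ε / (8 * M.Φ ^ 2) := by
      rw [he]
      exact min_le_right _ _
    calc M.Φ ^ 2 * e ≤ M.Φ ^ 2 * (ε / (8 * M.Φ ^ 2)) := mul_le_mul_of_nonneg_left h1 (by positivity)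
      _ = ε / 8 := by field_simp
  refine ⟨t, ht0, ?_⟩
  filter_upwards [hW t ht0 e he0, hU e he0, eventually_ge_atTop 2] with n h1 h2 hn
  have hK : 0 < Kv M.C (wt M h t) (2 * n) 0 := HZ.Kv_even_pos M.C _ (by omega)
  have hN : (0 : ℝ) < ((2 * n : ℕ) : ℝ) := by
    have : 0 < 2 * n := by omega
    exact_mod_cast this
  have h9 : Real.log ((2 * n : ℕ) : ℝ) ≤ 2 * Real.log n := by
    have hn1 : (2 : ℝ) ≤ n := by exact_mod_cast hn
    push_cast
    rw [Real.log_mul (by norm_num) (by linarith)]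
    have := Real.log_le_log (by norm_num) hn1
    linarith
  have hlog : 0 ≤ Real.log ((2 * n : ℕ) : ℝ) := by
    apply Real.log_nonneg
    exact_mod_cast (by omega : 1 ≤ 2 * n)
  have h3 : -(1 + α + e) * Real.log ((2 * n : ℕ) : ℝ) ≤
      Real.log (Kv M.C (wt M h t) (2 * n) 0) := by
    have := Real.log_le_log (Real.rpow_pos_of_pos hN _) h1
    rwa [Real.log_rpow hN] at this
  have h4 : Real.log (Kv M.C (fun z => -h * M.φ z) (2 * n) 0) ≤
      -(1 + α - e) * Real.log ((2 * n : ℕ) : ℝ) := by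
    have := Real.log_le_log (HZ.Kv_even_pos M.C _ (by omega)) h2
    rwa [Real.log_rpow hN] at this
  have h5 := WMean.cw_sum M hh (t := t) (n := n) (by omega)
  have h6 := WMean.bw_sum M (h := h) (t := t) (n := n) (by omega)
  have h7 : ∑ i ∈ range (2 * n), cw M h t (2 * n) i ^ 2 ≤
      t * ∑ i ∈ range (2 * n), cw M h t (2 * n) i +
        M.Φ ^ 2 * ∑ i ∈ range (2 * n), WMean.bw M h t (2 * n) i := by
    rw [Finset.mul_sum, Finset.mul_sum, ← Finset.sum_add_distrib]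
    refine Finset.sum_le_sum fun i _ => ?_
    have g1 := cw_nonneg M h t (2 * n) i
    have g2 := cw_le M h t (2 * n) i
    have g3 := WMean.cw_le_bw M (h := h) ht0.le i hK
    have g4 := WMean.bw_nonneg M h t (2 * n) i
    calc cw M h t (2 * n) i ^ 2 = cw M h t (2 * n) i * cw M h t (2 * n) i := by ring
      _ ≤ cw M h t (2 * n) i * (t + M.Φ * WMean.bw M h t (2 * n) i) :=
          mul_le_mul_of_nonneg_left g3 g1
      _ = t * cw M h t (2 * n) i + cw M h t (2 * n) i * (M.Φ * WMean.bw M h t (2 * n) i) := by ring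
      _ ≤ t * cw M h t (2 * n) i + M.Φ * (M.Φ * WMean.bw M h t (2 * n) i) := by
          have := mul_le_mul_of_nonneg_right g2 (mul_nonneg hΦ.le g4)
          linarith
      _ = _ := by ring
  have h8 : t * ∑ i ∈ range (2 * n), cw M h t (2 * n) i ≤
      ε / 4 * Real.log ((2 * n : ℕ) : ℝ) := by
    have g1 : h / 2 * ∑ i ∈ range (2 * n), cw M h t (2 * n) i ≤
        (2 + α) * Real.log ((2 * n : ℕ) : ℝ) := by
      have : (1 + α + e) * Real.log ((2 * n : ℕ) : ℝ) ≤ (2 + α) * Real.log ((2 * n : ℕ) : ℝ) :=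
        mul_le_mul_of_nonneg_right (by linarith) hlog
      linarith
    have g2 := mul_le_mul_of_nonneg_left g1 (show 0 ≤ ε / (4 * (2 + α)) by positivity)
    calc t * ∑ i ∈ range (2 * n), cw M h t (2 * n) i =
        ε / (4 * (2 + α)) * (h / 2 * ∑ i ∈ range (2 * n), cw M h t (2 * n) i) := by
          rw [ht]
          field_simp
          ring
      _ ≤ _ := g2
      _ = _ := by
          field_simp
  have h10 : M.Φ ^ 2 * ∑ i ∈ range (2 * n), WMean.bw M h t (2 * n) i ≤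
      ε / 4 * Real.log ((2 * n : ℕ) : ℝ) := by
    have g1 : ∑ i ∈ range (2 * n), WMean.bw M h t (2 * n) i ≤
        2 * e * Real.log ((2 * n : ℕ) : ℝ) := by linarith
    have g2 := mul_le_mul_of_nonneg_left g1 (show 0 ≤ M.Φ ^ 2 by positivity)
    have g3 := mul_le_mul_of_nonneg_right he2 hlog
    calc _ ≤ _ := g2
      _ = 2 * (M.Φ ^ 2 * e * Real.log ((2 * n : ℕ) : ℝ)) := by ring
      _ ≤ 2 * (ε / 8 * Real.log ((2 * n : ℕ) : ℝ)) := by linarith
      _ = _ := by ring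
  have h11 : ε / 2 * Real.log ((2 * n : ℕ) : ℝ) ≤ ε / 2 * (2 * Real.log n) :=
    mul_le_mul_of_nonneg_left h9 (by positivity)
  linarith

/-- Jensen -/
theorem g_gew (M : Mod) (h t : ℝ) {n : ℕ} (hn : 1 ≤ n) (ω : ℕ → ℝ) :
    Kv M.C (wt M h t) (2 * n) 0 *
      Real.exp (M.β * ∑ i ∈ range (2 * n), ω i * cw M h t (2 * n) i) ≤ M.G h (2 * n) ω := by
  have hK : 0 < Kv M.C (wt M h t) (2 * n) 0 := HZ.Kv_even_pos M.C _ (by omega)
  have h1 := jensenW M.C (wt M h t) M.φ (2 * n) (fun i => M.β * ω i) 0 hK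
  have h2 : ∑ i ∈ range (2 * n), (fun i => M.β * ω i) i *
      (om M.C (wt M h t) M.φ (2 * n) i 0 / Kv M.C (wt M h t) (2 * n) 0) =
      M.β * ∑ i ∈ range (2 * n), ω i * cw M h t (2 * n) i := by
    rw [Finset.mul_sum]
    refine Finset.sum_congr rfl fun i _ => ?_
    unfold cw
    ring
  rw [h2] at h1
  have h3 : M.G h (2 * n) ω = KU M.C (2 * n) (fun i z => (M.β * ω i - h) * M.φ z) 0 :=
    MP_daa227_pr.KU_eq_Gk M.C M.φ M.β h (2 * n) ω 0
  rw [h3]
  refine h1.trans ?_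
  have key : ∀ (n : ℕ) (u v : ℕ → ℤ → ℝ) (x : ℤ), (∀ i z, u i z ≤ v i z) →
      KU M.C n u x ≤ KU M.C n v x := by
    intro n
    induction n with
    | zero => intro u v x _; exact le_rfl
    | succ n ih =>
      intro u v x huv
      have hn : ∀ (n : ℕ) (u : ℕ → ℤ → ℝ) (x : ℤ), 0 ≤ KU M.C n u x := by
        intro n
        induction n with
        | zero => intro u x; exact le_rfl
        | succ n ih =>
          intro u x
          rw [KU]
          refine add_nonneg ?_ (Finset.sum_nonneg fun z _ => mul_nonneg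
            (mul_nonneg (M.C.nonneg _ _) (Real.exp_pos _).le) (ih _ _))
          split_ifs
          · exact mul_nonneg (M.C.nonneg _ _) (Real.exp_pos _).le
          · exact le_rfl
      rw [KU, KU]
      apply add_le_add
      · split_ifs
        · exact mul_le_mul_of_nonneg_left (Real.exp_le_exp.2 (huv 0 0)) (M.C.nonneg _ _)
        · exact le_rfl
      · refine Finset.sum_le_sum fun z _ => ?_
        exact mul_le_mul (mul_le_mul_of_nonneg_left (Real.exp_le_exp.2 (huv 0 z))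
          (M.C.nonneg _ _)) (ih _ _ z fun i z => huv (i + 1) z) (hn _ _ _)
          (mul_nonneg (M.C.nonneg _ _) (Real.exp_pos _).le)
  refine key _ _ _ _ fun i z => ?_
  have := big_nonneg M.φ t z
  unfold wt
  linarith

end

end Pool.Agent.HG
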