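import Pool.Agent.Lib.MP_daa227_pr_HG.HTr
import Pool.Agent.Lib.MP_daa227_pr_HG.STail
import Pool.Agent.Lib.MP_daa227_pr_HZ.Interp
import Pool.Agent.Lib.MP_daa227_pr_HG.WMean

/-!
# MP_daa227_pr: the tail of the annealed excursions at the critical point, from the tail of the
excursions penalised at the critical point
-/

namespace Pool.Agent.HG

open MeasureTheory ProbabilityTheory Finset Filter Topology
open MP_daa227_pr (Chain Zk Zf Gk Gf KU K0 Ren shift seqLaw ExpMom DepOn Good GoodW mom)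
open Pool.Agent.HZ (Mod Kv lmg)
open Pool.Agent.IOrd (Sys aS cv)

noncomputable section

/-- polynomial tail (Laplace transform) of the excursions from `x` -/
def LTail (C : Chain) (u : ℤ → ℝ) (x : ℤ) (a : ℝ) : Prop :=
  ∃ A : ℝ, 0 ≤ A ∧ ∀ s : ℝ, 0 < s → s ≤ 1 → ∀ N : ℕ,
    ∑ n ∈ range N, Kv C u n x * (1 - Real.exp (-(s * n))) ≤ A * s ^ a

namespace GTailW

theorem lam_nonneg {s : ℝ} (hs : 0 ≤ s) (n : ℕ) : 0 ≤ 1 - Real.exp (-(s * (n : ℝ))) := by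
  have : Real.exp (-(s * (n : ℝ))) ≤ 1 := by
    rw [Real.exp_le_one_iff]
    have : 0 ≤ s * (n : ℝ) := mul_nonneg hs (Nat.cast_nonneg n)
    linarith
  linarith

/-- bounded sums at `0` give bounded sums at `±1` -/
theorem one_bdd (C : Chain) (u : ℤ → ℝ) {B : ℝ}
    (hB : ∀ N : ℕ, ∑ n ∈ range N, Kv C u n 0 ≤ B) :
    ∃ B' : ℝ, ∀ N : ℕ, ∑ n ∈ range N, Kv C u n 1 ≤ B' := by
  have hp : 0 < C.p 0 1 := by
    have := C.up 0
    rwa [zero_add] at this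
  refine ⟨(C.p 0 1 * Real.exp (u 1))⁻¹ * B, fun N => ?_⟩
  have h0 : 0 < C.p 0 1 * Real.exp (u 1) := mul_pos hp (Real.exp_pos _)
  rw [le_inv_mul_iff₀ h0]
  refine le_trans ?_ (hB (N + 1))
  rw [Finset.sum_range_succ', Finset.mul_sum]
  refine le_add_of_le_of_nonneg (Finset.sum_le_sum fun n _ => ?_) (HZ.Kv_nonneg C _ 0 0)
  rw [HZ.Kv_succ]
  have h2 := Finset.single_le_sum (f := fun z => C.p 0 z * Real.exp (u z) *
      Kv C u n z) (s := Finset.Icc ((0 : ℤ) - 1) (0 + 1) \ {0}) (a := 1)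
      (fun z _ => mul_nonneg (mul_nonneg (C.nonneg _ _) (Real.exp_pos _).le)
        (HZ.Kv_nonneg C _ n z)) (by simp)
  refine h2.trans (le_add_of_nonneg_left ?_)
  split_ifs
  · exact mul_nonneg (C.nonneg _ _) (Real.exp_pos _).le
  · exact le_rfl

theorem kv_cneg0 (C : Chain) (u : ℤ → ℝ) (n : ℕ) :
    Kv (HZ.cneg C) (fun z => u (-z)) n 0 = Kv C u n 0 := by
  have h2 := HZ.Kv_cneg C u n 0
  rwa [neg_zero] at h2

theorem neg_bdd (C : Chain) (u : ℤ → ℝ) {B : ℝ}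
    (hB : ∀ N : ℕ, ∑ n ∈ range N, Kv C u n 0 ≤ B) :
    ∃ B' : ℝ, ∀ N : ℕ, ∑ n ∈ range N, Kv (HZ.cneg C) (fun z => u (-z)) n 1 ≤ B' := by
  refine one_bdd (HZ.cneg C) (fun z => u (-z)) (B := B) fun N => ?_
  simp only [kv_cneg0]
  exact hB N

end GTailW

/-- the two sides together -/
theorem tail_join (C : Chain) (u : ℤ → ℝ) {B : ℝ}
    (hB : ∀ N : ℕ, ∑ n ∈ range N, Kv C u n 0 ≤ B) {a : ℝ} (ha1 : a ≤ 1)
    (hR : LTail C u 1 a) (hL : LTail C u (-1) a) : LTail C u 0 a := by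
  obtain ⟨A₁, hA₁, hR⟩ := hR
  obtain ⟨A₂, hA₂, hL⟩ := hL
  have hB0 : 0 ≤ B := by
    have h := hB 0
    rwa [Finset.range_zero, Finset.sum_empty] at h
  set c₁ := C.p 0 1 * Real.exp (u 1) with hc₁
  set c₂ := C.p 0 (-1) * Real.exp (u (-1)) with hc₂
  have hc₁0 : 0 ≤ c₁ := mul_nonneg (C.nonneg _ _) (Real.exp_pos _).le
  have hc₂0 : 0 ≤ c₂ := mul_nonneg (C.nonneg _ _) (Real.exp_pos _).le
  refine ⟨c₁ * A₁ + c₂ * A₂ + B, by positivity, fun s hs hs1' N => ?_⟩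
  have hsa : s ≤ s ^ a := by
    have := Real.rpow_le_rpow_of_exponent_ge hs hs1' ha1
    rwa [Real.rpow_one] at this
  have hsa0 : 0 ≤ s ^ a := Real.rpow_nonneg hs.le _
  have hsum : ∀ N : ℕ, ∑ n ∈ range N, (HZ.Es C u 1 n + HZ.Es C u (-1) n) ≤ B := fun N => by
    have h1 := hB (N + 1)
    rw [Finset.sum_range_succ', HZ.Kv_zero, add_zero] at h1
    refine le_trans (le_of_eq (Finset.sum_congr rfl fun n _ => ?_)) h1
    exact (HZ.Kv_split C u n).symm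
  have h1 : ∑ n ∈ range N, Kv C u n 0 * (1 - Real.exp (-(s * n))) ≤
      ∑ n ∈ range (N + 1), Kv C u n 0 * (1 - Real.exp (-(s * n))) := by
    rw [Finset.sum_range_succ]
    exact le_add_of_nonneg_right (mul_nonneg (HZ.Kv_nonneg _ _ _ _)
      (GTailW.lam_nonneg hs.le N))
  have h2 : ∑ n ∈ range (N + 1), Kv C u n 0 * (1 - Real.exp (-(s * n))) =
      ∑ n ∈ range N, (HZ.Es C u 1 n + HZ.Es C u (-1) n) *
        (1 - Real.exp (-(s * ((n + 1 : ℕ) : ℝ)))) := by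
    rw [Finset.sum_range_succ', HZ.Kv_zero, zero_mul, add_zero]
    refine Finset.sum_congr rfl fun n _ => ?_
    rw [HZ.Kv_split C u n]
  have h3 : ∑ n ∈ range N, (HZ.Es C u 1 n + HZ.Es C u (-1) n) *
        (1 - Real.exp (-(s * ((n + 1 : ℕ) : ℝ)))) ≤
      ∑ n ∈ range N, (HZ.Es C u 1 n + HZ.Es C u (-1) n) *
        ((1 - Real.exp (-(s * n))) + s) := by
    refine Finset.sum_le_sum fun n _ => ?_
    exact mul_le_mul_of_nonneg_left (GTail.step_exp hs.le n)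
      (add_nonneg (HZ.Es_nonneg _ _ _ _) (HZ.Es_nonneg _ _ _ _))
  have h4 : ∑ n ∈ range N, (HZ.Es C u 1 n + HZ.Es C u (-1) n) *
        ((1 - Real.exp (-(s * n))) + s) =
      c₁ * (∑ n ∈ range N, Kv C u n 1 * (1 - Real.exp (-(s * n)))) +
      c₂ * (∑ n ∈ range N, Kv C u n (-1) * (1 - Real.exp (-(s * n)))) +
      s * ∑ n ∈ range N, (HZ.Es C u 1 n + HZ.Es C u (-1) n) := by
    rw [Finset.mul_sum, Finset.mul_sum, Finset.mul_sum, ← Finset.sum_add_distrib,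
      ← Finset.sum_add_distrib]
    refine Finset.sum_congr rfl fun n _ => ?_
    have e1 : HZ.Es C u 1 n * (1 - Real.exp (-(s * n))) =
        c₁ * (Kv C u n 1 * (1 - Real.exp (-(s * n)))) := by
      rcases Nat.eq_zero_or_pos n with h0 | h0
      · rw [h0]
        simp
      · rw [HZ.Es_pos_n C _ _ h0]
        ring
    have e2 : HZ.Es C u (-1) n = c₂ * Kv C u n (-1) := HZ.Es_neg _ _ _
    rw [e2] at *
    linear_combination e1
  have h5 := mul_le_mul_of_nonneg_left (hR s hs hs1' N) hc₁0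
  have h6 := mul_le_mul_of_nonneg_left (hL s hs hs1' N) hc₂0
  have h7 := mul_le_mul_of_nonneg_left (hsum N) hs.le
  have h8 := mul_le_mul_of_nonneg_right hsa hB0
  calc ∑ n ∈ range N, Kv C u n 0 * (1 - Real.exp (-(s * n))) ≤ _ := h1
    _ = _ := h2
    _ ≤ _ := h3
    _ = _ := h4
    _ ≤ c₁ * (A₁ * s ^ a) + c₂ * (A₂ * s ^ a) + s ^ a * B := by linarith
    _ = (c₁ * A₁ + c₂ * A₂ + B) * s ^ a := by ring

/-- transfer from the transformed chain -/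
theorem ltail_htr (C : Chain) {w : ℤ → ℝ} (hw : ∀ z, w z ≤ 0) (u : ℤ → ℝ) (x : ℤ) {a : ℝ}
    (h : LTail (htr C hw) u x a) : LTail C (fun z => w z + u z) x a := by
  obtain ⟨A, hA, h⟩ := h
  have h0 := hs_pos C hw x
  refine ⟨Hs C w x * A, mul_nonneg h0.le hA, fun s hs hs1 N => ?_⟩
  have h1 := mul_le_mul_of_nonneg_left (h s hs hs1 N) h0.le
  rw [← mul_assoc] at h1
  refine le_trans (le_of_eq ?_) h1
  rw [Finset.mul_sum]
  refine Finset.sum_congr rfl fun n _ => ?_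
  rw [htr_Kv]
  field_simp

/-- the weights `-(θ hc) φ` -/
theorem pen_nonpos (M : Mod) {h : ℝ} (hh : 0 ≤ h) (z : ℤ) : -h * M.φ z ≤ 0 := by
  have := mul_nonneg hh (M.φ_nonneg z)
  linarith

/-- The tail of the annealed excursions at `hc` from the tail of the chain transformed with the
weights `-θ hc φ`, `θ < 1`. -/
theorem g_tail_pen (M : Mod) {hc : ℝ} (hc0 : 0 < hc)
    (hg : ∀ N : ℕ, ∑ n ∈ range N, M.g hc n ≤ 1) (hdec : 0 < M.ℓ → LDec M hc) {θ : ℝ}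
    (hθ0 : 0 ≤ θ) (hθ1 : θ < 1) {a : ℝ} (ha : 0 < a) (ha1 : a ≤ 1)
    (hF : FTail (htr M.C (pen_nonpos M (mul_nonneg hθ0 hc0.le))) a)
    (hF' : M.ℓ ≤ 0 → FTail (HZ.cneg (htr M.C (pen_nonpos M (mul_nonneg hθ0 hc0.le)))) a) :
    LTail M.C (M.v hc) 0 a := by
  set hw := pen_nonpos M (mul_nonneg hθ0 hc0.le) with hhw
  set D := htr M.C hw with hD
  set h' : ℝ := (1 - θ) * hc with hh'
  have h'0 : 0 < h' := mul_pos (by linarith) hc0
  have hv : M.v hc = fun z => -(θ * hc) * M.φ z + M.v h' z := by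
    funext z
    unfold HZ.Mod.v
    rw [hh']
    ring
  have hs0 := hs_pos M.C hw 0
  have hB : ∀ N : ℕ, ∑ n ∈ range N, Kv D (M.v h') n 0 ≤ 1 / Hs M.C _ 0 := fun N => by
    have h1 : ∑ n ∈ range N, Kv D (M.v h') n 0 =
        (∑ n ∈ range N, M.g hc n) / Hs M.C (fun z => -(θ * hc) * M.φ z) 0 := by
      rw [Finset.sum_div]
      refine Finset.sum_congr rfl fun n _ => ?_
      rw [hD, htr_Kv, ← hv]
      rfl
    rw [h1]
    exact div_le_div_of_nonneg_right (hg N) hs0.le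
  obtain ⟨B₁, hB₁⟩ := GTailW.one_bdd D (M.v h') hB
  obtain ⟨B₂, hB₂⟩ := GTailW.neg_bdd D (M.v h') hB
  rw [hv]
  refine ltail_htr M.C hw (M.v h') 0 (tail_join D (M.v h') hB ha1 ?_ ?_)
  · obtain ⟨ε₁, hε₁, R, hR⟩ := M.far_pos h'0
    refine one_tail D (M.v h') (b := R) (fun z hz => ?_) hB₁ ha ha1 hF
    have h1 := hR z hz
    have h2 := mul_nonneg hε₁.le (M.φ_nonneg z)
    linarith
  · have hℓ0 : 0 ≤ M.ℓ := ge_of_tendsto' M.φ_bot M.φ_nonneg
    rcases hℓ0.eq_or_lt with hℓ | hℓ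
    · obtain ⟨ε₁, hε, t, ht, hz⟩ := M.far_aux h'0
      have h1 := M.φ_bot
      rw [← hℓ] at h1
      obtain ⟨R, hR⟩ := eventually_atBot.1 (h1.eventually_lt_const ht)
      have hkv : ∀ n : ℕ, Kv (HZ.cneg D) (fun z => M.v h' (-z)) n 1 =
          Kv D (M.v h') n (-1) := fun n => HZ.Kv_cneg D (M.v h') n 1
      have h2 := one_tail (HZ.cneg D) (fun z => M.v h' (-z)) (b := -R)
        (fun z hzR => by
          have h3 := hz (-z) (hR (-z) (by omega)).le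
          have h4 := mul_nonneg hε.le (M.φ_nonneg (-z))
          show M.v h' (-z) ≤ 0
          linarith) hB₂ ha ha1 (hF' hℓ.symm.le)
      unfold LTail
      simpa only [hkv] using h2
    · obtain ⟨ε, hε, B, hBd⟩ := hdec hℓ
      refine exp_tail D (M.v h') (-1) hε (B := B / Hs M.C (fun z => -(θ * hc) * M.φ z) (-1))
        (fun N => ?_) ha1
      have h1 : ∑ n ∈ range N, Kv D (fun z => M.v h' z + ε) n (-1) =
          (∑ n ∈ range N, Kv M.C (fun z => M.v hc z + ε) n (-1)) /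
            Hs M.C (fun z => -(θ * hc) * M.φ z) (-1) := by
        rw [Finset.sum_div]
        refine Finset.sum_congr rfl fun n _ => ?_
        rw [hD, htr_Kv]
        congr 2
        funext z
        rw [hv]
        ring
      rw [h1]
      exact div_le_div_of_nonneg_right (hBd N) (hs_pos M.C hw (-1)).le

/-- interpolation: `Kv (-θ hc φ) ≤ Kv (-hc φ) ^ θ * K0 ^ (1 - θ)` -/
theorem pen_interp (M : Mod) {hc θ : ℝ} (hθ0 : 0 ≤ θ) (hθ1 : θ ≤ 1) (n : ℕ) (x : ℤ) :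
    Kv M.C (fun z => -(θ * hc) * M.φ z) n x ≤
      K0 M.C n x ^ (1 - θ) * Kv M.C (fun z => -hc * M.φ z) n x ^ θ := by
  have h1 := HZ.interp_K M.C (fun _ => 0) (fun z => -hc * M.φ z) hθ0 hθ1 n x
  rw [HZ.Kv_K0] at h1
  refine le_trans (le_of_eq ?_) h1
  congr 1
  funext z
  ring

/-- from the pointwise bound at `hc` -/
theorem g_tail_kuw (M : Mod) {hc : ℝ} (hc0 : 0 < hc)
    (hg : ∀ N : ℕ, ∑ n ∈ range N, M.g hc n ≤ 1) (hdec : 0 < M.ℓ → LDec M hc) {α : ℝ}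
    (hU : KUW M α hc) {a : ℝ} (ha : 0 < a) (ha1 : a ≤ 1) (haα : a < α) :
    LTail M.C (M.v hc) 0 a := by
  -- the choice of `θ`
  obtain ⟨θ, hθ0, hθ1, hθa⟩ : ∃ θ : ℝ, 0 ≤ θ ∧ θ < 1 ∧ a < θ * (1 + α) - 1 := by
    have hα0 : 0 < α := ha.trans haα
    refine ⟨(1 + (a + α) / 2) / (1 + α), by positivity, ?_, ?_⟩
    · rw [div_lt_one (by linarith)]
      linarith
    · rw [div_mul_cancel₀ _ (by linarith : (1 + α) ≠ 0)]
      linarith
  set hw := pen_nonpos M (mul_nonneg hθ0 hc0.le) with hhw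
  have hs0 := hs_pos M.C hw 0
  have hUp : KUp (htr M.C hw) (θ * (1 + α) - 1) := by
    intro ε hε
    have h1 : ∀ᶠ n : ℕ in atTop, 1 / Hs M.C (fun z => -(θ * hc) * M.φ z) 0 ≤
        ((2 * n : ℕ) : ℝ) ^ (ε / 2) := by
      have h2 : Tendsto (fun n : ℕ => ((2 * n : ℕ) : ℝ)) atTop atTop := by
        refine tendsto_natCast_atTop_atTop.comp ?_
        exact tendsto_id.const_mul_atTop' two_pos
      exact ((tendsto_rpow_atTop (half_pos hε)).comp h2).eventually_ge_atTop _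
    filter_upwards [hU (ε / 2) (half_pos hε), h1, eventually_ge_atTop 1] with n h2 h3 hn
    have hN : (1 : ℝ) ≤ ((2 * n : ℕ) : ℝ) := by
      exact_mod_cast (by omega : 1 ≤ 2 * n)
    have hN0 : (0 : ℝ) < ((2 * n : ℕ) : ℝ) := by linarith
    rw [htr_K0]
    have h4 := pen_interp M (hc := hc) hθ0 hθ1.le (2 * n) 0
    have h5 : K0 M.C (2 * n) 0 ^ (1 - θ) ≤ 1 :=
      Real.rpow_le_one (MP_daa227_pr.K0_nonneg _ _ _) (by
        rw [← HZ.Kv_K0]
        exact HZ.Kv_le_one M.C (fun _ => le_rfl) _ _) (by linarith)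
    have h6 : Kv M.C (fun z => -hc * M.φ z) (2 * n) 0 ^ θ ≤
        ((2 * n : ℕ) : ℝ) ^ (-(1 + α - ε / 2) * θ) := by
      rw [Real.rpow_mul hN0.le]
      exact Real.rpow_le_rpow (HZ.Kv_nonneg _ _ _ _) h2 hθ0
    have h7 : Kv M.C (fun z => -(θ * hc) * M.φ z) (2 * n) 0 ≤
        ((2 * n : ℕ) : ℝ) ^ (-(1 + α - ε / 2) * θ) := by
      refine h4.trans ?_
      calc _ ≤ 1 * Kv M.C (fun z => -hc * M.φ z) (2 * n) 0 ^ θ :=
            mul_le_mul_of_nonneg_right h5 (Real.rpow_nonneg (HZ.Kv_nonneg _ _ _ _) _)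
        _ ≤ _ := by rw [one_mul]; exact h6
    have h8 : ((2 * n : ℕ) : ℝ) ^ (-(1 + α - ε / 2) * θ) * ((2 * n : ℕ) : ℝ) ^ (ε / 2) ≤
        ((2 * n : ℕ) : ℝ) ^ (-(1 + (θ * (1 + α) - 1) - ε)) := by
      rw [← Real.rpow_add hN0]
      apply Real.rpow_le_rpow_of_exponent_le hN
      have : ε / 2 * θ ≤ ε / 2 := mul_le_of_le_one_right (half_pos hε).le hθ1.le
      nlinarith
    calc Kv M.C (fun z => -(θ * hc) * M.φ z) (2 * n) 0 / Hs M.C (fun z => -(θ * hc) * M.φ z) 0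
        = Kv M.C (fun z => -(θ * hc) * M.φ z) (2 * n) 0 *
          (1 / Hs M.C (fun z => -(θ * hc) * M.φ z) 0) := by ring
      _ ≤ ((2 * n : ℕ) : ℝ) ^ (-(1 + α - ε / 2) * θ) * ((2 * n : ℕ) : ℝ) ^ (ε / 2) :=
          mul_le_mul h7 h3 (by positivity) (Real.rpow_nonneg hN0.le _)
      _ ≤ _ := h8
  exact g_tail_pen M hc0 hg hdec hθ0 hθ1 ha ha1 (ftail_of_up _ hUp ha ha1 hθa)
    (fun _ => ftail_of_up_neg _ hUp ha ha1 hθa)

/-- from a moment of the penalised excursions at `hc` -/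
theorem g_tail_mom (M : Mod) {hc : ℝ} (hc0 : 0 < hc)
    (hg : ∀ N : ℕ, ∑ n ∈ range N, M.g hc n ≤ 1) (hdec : 0 < M.ℓ → LDec M hc) {a' : ℝ}
    (hS : Summable (fun n : ℕ => (n : ℝ) ^ a' * Kv M.C (fun z => -hc * M.φ z) n 0)) {a : ℝ}
    (ha : 0 < a) (ha1 : a ≤ 1) (haa : a < a') : LTail M.C (M.v hc) 0 a := by
  set θ : ℝ := a / a' with hθ
  have ha' : 0 < a' := ha.trans haa
  have hθ0 : 0 < θ := div_pos ha ha'
  have hθ1 : θ < 1 := by rwa [hθ, div_lt_one ha']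
  set hw := pen_nonpos M (mul_nonneg hθ0.le hc0.le) with hhw
  have hs0 := hs_pos M.C hw 0
  have hsum : Summable (fun n : ℕ => (n : ℝ) ^ a * K0 (htr M.C hw) n 0) := by
    have h1 := (hS.mul_left θ).add ((TailD.summable_K0 M.C 0).mul_left (1 - θ))
    refine Summable.of_nonneg_of_le (fun n => mul_nonneg (Real.rpow_nonneg (Nat.cast_nonneg n) _)
      (MP_daa227_pr.K0_nonneg _ n 0)) (fun n => ?_)
      (h1.mul_right (1 / Hs M.C (fun z => -(θ * hc) * M.φ z) 0))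
    rw [htr_K0, ← mul_div_assoc, div_eq_mul_one_div]
    refine mul_le_mul_of_nonneg_right ?_ (by positivity)
    have h2 := pen_interp M (hc := hc) hθ0.le hθ1.le n 0
    have h3 : (0 : ℝ) ≤ n := Nat.cast_nonneg n
    have h4 := HZ.Kv_nonneg M.C (fun z => -hc * M.φ z) n 0
    have h5 := MP_daa227_pr.K0_nonneg M.C n 0
    have h6 : (n : ℝ) ^ a = ((n : ℝ) ^ a') ^ θ := by
      rw [← Real.rpow_mul h3, hθ]
      congr 1
      field_simp
    have h7 := Real.geom_mean_le_arith_mean2_weighted hθ0.le (by linarith : 0 ≤ 1 - θ)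
      (mul_nonneg (Real.rpow_nonneg h3 a') h4) h5 (by ring)
    rw [Real.mul_rpow (Real.rpow_nonneg h3 _) h4, ← h6] at h7
    calc (n : ℝ) ^ a * Kv M.C (fun z => -(θ * hc) * M.φ z) n 0 ≤
        (n : ℝ) ^ a * (K0 M.C n 0 ^ (1 - θ) * Kv M.C (fun z => -hc * M.φ z) n 0 ^ θ) :=
          mul_le_mul_of_nonneg_left h2 (Real.rpow_nonneg h3 _)
      _ = (n : ℝ) ^ a * Kv M.C (fun z => -hc * M.φ z) n 0 ^ θ * K0 M.C n 0 ^ (1 - θ) := by ring
      _ ≤ _ := h7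
  obtain ⟨hF, hF'⟩ := ftail_of_sum _ ha ha1 hsum
  exact g_tail_pen M hc0 hg hdec hθ0.le hθ1 ha ha1 hF (fun _ => hF')

end

end Pool.Agent.HG
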