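import Pool.Agent.Lib.MP_daa227_pr_HG.PolyV
import Pool.Agent.Lib.MP_daa227_pr_HZ.Fin
import Pool.Agent.Lib.MP_daa227_pr_HZ.HalfLine

/-!
# MP_daa227_pr, exact order: a light potential is negligible above a high level
-/

namespace Pool.Agent.HG

open MeasureTheory ProbabilityTheory Finset Filter Topology
open MP_daa227_pr (Chain Zk Zf Gk Gf KU K0 Ren shift seqLaw ExpMom DepOn Good GoodW mom)
open Pool.Agent.HZ (Mod Kv lmg)
open Pool.Agent.IOrd (Sys aS cv)

noncomputable section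

/-- supersolution of `V = φ + p V` to the right of `0`, bounded by `κ` -/
def VRk (C : Chain) (φ : ℤ → ℝ) (κ : ℝ) : Prop :=
  ∃ V : ℤ → ℝ, (∀ x : ℤ, 0 ≤ x → 0 ≤ V x ∧ V x ≤ κ) ∧ ∀ x : ℤ, 1 ≤ x →
    φ x + (C.p x (x - 1) * V (x - 1) + C.p x x * V x + C.p x (x + 1) * V (x + 1)) ≤ V x

namespace VSmall

theorem step (C : Chain) {φ V : ℤ → ℝ} (hφ : ∀ x, 0 ≤ φ x) (hV0 : ∀ x : ℤ, 0 ≤ x → 0 ≤ V x)
    (hV : ∀ x : ℤ, 1 ≤ x →
      φ x + (C.p x (x - 1) * V (x - 1) + C.p x x * V x + C.p x (x + 1) * V (x + 1)) ≤ V x)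
    (R : ℕ) : ∀ (m : ℕ) (y : ℤ), (R : ℤ) + 1 ≤ y →
      V R * (1 - Gf C (fun _ _ => 1) (Finset.Icc (-(R : ℤ)) R) m (fun _ => 0) y) ≤ V y := by
  intro m
  induction m with
  | zero =>
    intro y hy
    rw [Gf, sub_self, mul_zero]
    exact hV0 y (by omega)
  | succ m ih =>
    intro y hy
    have h1 := hV y (by omega)
    have h2 : ∑ z ∈ Finset.Icc (y - 1) (y + 1), C.p y z * V z ≤ V y := by
      rw [HZ.sum_nb y (fun z => C.p y z * V z)]
      have := hφ y
      linarith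
    refine le_trans ?_ h2
    have h3 : (fun _ : ℕ => (0 : ℝ)) = shift 1 (fun _ : ℕ => (0 : ℝ)) := rfl
    have h4 : Gf C (fun _ _ => 1) (Finset.Icc (-(R : ℤ)) R) (m + 1) (fun _ => 0) y =
        ∑ z ∈ Finset.Icc (y - 1) (y + 1) \ Finset.Icc (-(R : ℤ)) R, C.p y z *
          Gf C (fun _ _ => 1) (Finset.Icc (-(R : ℤ)) R) m (fun _ => 0) z := by
      rw [Gf]
      refine Finset.sum_congr rfl fun z _ => ?_
      rw [mul_one, ← h3]
    have h5 : V R * (1 - Gf C (fun _ _ => 1) (Finset.Icc (-(R : ℤ)) R) (m + 1) (fun _ => 0) y) =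
        ∑ z ∈ Finset.Icc (y - 1) (y + 1), C.p y z * (V R * (1 -
          if z ∈ Finset.Icc (-(R : ℤ)) R then 0 else
            Gf C (fun _ _ => 1) (Finset.Icc (-(R : ℤ)) R) m (fun _ => 0) z)) := by
      rw [h4]
      have h6 : ∑ z ∈ Finset.Icc (y - 1) (y + 1) \ Finset.Icc (-(R : ℤ)) R, C.p y z *
          Gf C (fun _ _ => 1) (Finset.Icc (-(R : ℤ)) R) m (fun _ => 0) z =
          ∑ z ∈ Finset.Icc (y - 1) (y + 1), C.p y z * (if z ∈ Finset.Icc (-(R : ℤ)) R then 0 else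
            Gf C (fun _ _ => 1) (Finset.Icc (-(R : ℤ)) R) m (fun _ => 0) z) := by
        rw [← Finset.filter_notMem_eq_sdiff, Finset.sum_filter]
        refine Finset.sum_congr rfl fun z _ => ?_
        by_cases hz : z ∈ Finset.Icc (-(R : ℤ)) R
        · rw [if_neg (not_not.2 hz), if_pos hz, mul_zero]
        · rw [if_pos hz, if_neg hz]
      rw [h6]
      have h7 : ∀ z ∈ Finset.Icc (y - 1) (y + 1), C.p y z * (V R * (1 -
          if z ∈ Finset.Icc (-(R : ℤ)) R then 0 else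
            Gf C (fun _ _ => 1) (Finset.Icc (-(R : ℤ)) R) m (fun _ => 0) z)) =
          V R * (C.p y z - C.p y z * (if z ∈ Finset.Icc (-(R : ℤ)) R then 0 else
            Gf C (fun _ _ => 1) (Finset.Icc (-(R : ℤ)) R) m (fun _ => 0) z)) := by
        intro z _
        ring
      rw [Finset.sum_congr rfl h7, ← Finset.mul_sum, Finset.sum_sub_distrib, C.sum_one]
    rw [h5]
    refine Finset.sum_le_sum fun z hz => ?_
    rw [Finset.mem_Icc] at hz
    refine mul_le_mul_of_nonneg_left ?_ (C.nonneg _ _)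
    by_cases hzR : z ∈ Finset.Icc (-(R : ℤ)) R
    · rw [if_pos hzR, sub_zero, mul_one]
      rw [Finset.mem_Icc] at hzR
      have : z = R := by omega
      rw [this]
    · rw [if_neg hzR]
      rw [Finset.mem_Icc] at hzR
      exact ih z (by omega)

theorem mono (C : Chain) (hrec : HasSum (fun n : ℕ => K0 C (n + 1) 0) 1) {φ V : ℤ → ℝ}
    (hφ : ∀ x, 0 ≤ φ x) (hV0 : ∀ x : ℤ, 0 ≤ x → 0 ≤ V x)
    (hV : ∀ x : ℤ, 1 ≤ x →
      φ x + (C.p x (x - 1) * V (x - 1) + C.p x x * V x + C.p x (x + 1) * V (x + 1)) ≤ V x) :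
    Monotone fun n : ℕ => V n := by
  refine monotone_nat_of_le_succ fun R => ?_
  have h1 := HZ.HalfLine.tend C hrec R
  have h2 : Tendsto (fun m : ℕ => V R *
      (1 - Gf C (fun _ _ => 1) (Finset.Icc (-(R : ℤ)) R) m (fun _ => 0) (R + 1))) atTop
      (𝓝 (V R * (1 - 0))) := (tendsto_const_nhds.sub h1).const_mul _
  rw [sub_zero, mul_one] at h2
  have h3 : V R ≤ V ((R : ℤ) + 1) :=
    le_of_tendsto h2 (Eventually.of_forall fun m => step C hφ hV0 hV R m _ le_rfl)
  push_cast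
  exact h3

end VSmall

/-- The bounded supersolution `V` itself is nondecreasing on `x ≥ 0` (`VSmall.mono`): it is
nonnegative, so `V y ≥ V x (1 - P_y(no visit of [-x, x] up to time m))` for `y > x`, and the last
probability goes to `0` by recurrence (`HZ.HalfLine.tend`). So `V x` increases to a limit; for large
`R` the function `V' x = V (x + R) - V R` is at most `κ` and is a supersolution for the chain
translated by `R` and the potential `φ (· + R)` (constants are harmonic). -/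
theorem v_small (C : Chain) (hrec : HasSum (fun n : ℕ => K0 C (n + 1) 0) 1) {φ : ℤ → ℝ}
    (hφ : ∀ x, 0 ≤ φ x) (hV : VR C φ) {κ : ℝ} (hκ : 0 < κ) :
    ∃ R₀ : ℕ, 1 ≤ R₀ ∧ ∀ R : ℕ, R₀ ≤ R → VRk (HZ.ctr C R) (fun x => φ (x + R)) κ := by
  obtain ⟨V, K, hV1, hV2⟩ := hV
  have hmono := VSmall.mono C hrec hφ (fun x hx => (hV1 x hx).1) hV2
  have hbdd : BddAbove (Set.range fun n : ℕ => V n) := by
    refine ⟨K, ?_⟩
    rintro _ ⟨n, rfl⟩
    exact (hV1 n (Int.natCast_nonneg n)).2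
  have hlim := tendsto_atTop_ciSup hmono hbdd
  have h1 : ∀ᶠ n : ℕ in atTop, (⨆ n : ℕ, V n) - κ < V n :=
    hlim.eventually_const_lt (by linarith)
  obtain ⟨R₀, hR₀⟩ := eventually_atTop.1 h1
  refine ⟨R₀ + 1, by omega, fun R hR => ?_⟩
  refine ⟨fun x => V (x + R) - V R, fun x hx => ?_, fun x hx => ?_⟩
  · obtain ⟨n, rfl⟩ := Int.eq_ofNat_of_zero_le hx
    have h2 : V R ≤ V ((n : ℤ) + R) := by
      have h3 := hmono (Nat.le_add_left R n)
      simp only at h3
      push_cast at h3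
      exact h3
    have h4 : V ((n : ℤ) + R) ≤ ⨆ n : ℕ, V n := by
      have h5 := le_ciSup hbdd (n + R)
      push_cast at h5
      exact h5
    have h6 := hR₀ R (by omega)
    constructor
    · linarith
    · linarith
  · have h2 := hV2 (x + R) (by omega)
    have h3 := C.sum_one (x + R)
    rw [HZ.sum_nb (x + R) (fun y => C.p (x + R) y)] at h3
    change φ (x + R) + (C.p (x + R) (x - 1 + R) * (V (x - 1 + R) - V R) +
      C.p (x + R) (x + R) * (V (x + R) - V R) +
      C.p (x + R) (x + 1 + R) * (V (x + 1 + R) - V R)) ≤ V (x + R) - V R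
    have e1 : x - 1 + R = x + R - 1 := by ring
    have e2 : x + 1 + R = x + R + 1 := by ring
    rw [e1, e2]
    have h4 : V R = (C.p (x + R) (x + R - 1) + C.p (x + R) (x + R) +
        C.p (x + R) (x + R + 1)) * V R := by
      rw [h3, one_mul]
    linarith

/-- as `exp_right`, with `a = 1 / (2 κ)`: `f x = exp (-a φ x) (1 + 2 a V x)` is a supersolution
because `1 + 2 a V ≤ 2` -/
theorem exp_k (C : Chain) {φ : ℤ → ℝ} (h0 : ∀ x, 0 ≤ φ x) {κ : ℝ} (hκ : 0 < κ)
    (hV : VRk C φ κ) :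
    ∃ K : ℝ, 0 < K ∧ ∀ n : ℕ, HZ.Ep C (fun z => 1 / (2 * κ) * φ z) 1 n ≤ K := by
  obtain ⟨V, hV1, hV2⟩ := hV
  set a : ℝ := 1 / (2 * κ) with ha
  have ha0 : 0 < a := by positivity
  have haK : 2 * a * κ = 1 := by
    rw [ha]
    field_simp
  set f : ℤ → ℝ := fun x => Real.exp (-(a * φ x)) * (1 + 2 * a * V x) with hf
  have hfpos : ∀ x, 0 ≤ x → 0 < f x := by
    intro x hx
    have h1 := mul_nonneg (mul_nonneg two_pos.le ha0.le) (hV1 x hx).1
    exact mul_pos (Real.exp_pos _) (by linarith)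
  have hcan : ∀ x z : ℤ, C.p x z * Real.exp (a * φ z) * f z = C.p x z * (1 + 2 * a * V z) := by
    intro x z
    have h1 : Real.exp (a * φ z) * Real.exp (-(a * φ z)) = 1 := by
      rw [← Real.exp_add, add_neg_cancel, Real.exp_zero]
    calc C.p x z * Real.exp (a * φ z) * f z
        = C.p x z * (Real.exp (a * φ z) * Real.exp (-(a * φ z))) * (1 + 2 * a * V z) := by
          rw [hf]
          ring
      _ = _ := by rw [h1, mul_one]
  have hs : HZ.Ssol C (fun z => a * φ z) 0 f := by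
    intro x hx
    rw [hcan, hcan, hcan]
    have h1 := C.sum_one x
    rw [HZ.sum_nb x (fun y => C.p x y)] at h1
    have h2 := hV2 x (by omega)
    have h3 := (hV1 x hx.le).2
    have h4 := (hV1 x hx.le).1
    have h5 := Real.add_one_le_exp (-(a * φ x))
    have h6 : 0 ≤ 1 + 2 * a * V x := by
      have := mul_nonneg (mul_nonneg two_pos.le ha0.le) h4
      linarith
    have h7 : (1 - a * φ x) * (1 + 2 * a * V x) ≤ f x :=
      mul_le_mul_of_nonneg_right (by linarith) h6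
    refine le_trans ?_ h7
    have h8 : 2 * a * V x ≤ 1 := by
      have h9 := mul_le_mul_of_nonneg_left h3 (mul_nonneg two_pos.le ha0.le)
      linarith
    have h10 : 0 ≤ (a * φ x) * (1 - 2 * a * V x) :=
      mul_nonneg (mul_nonneg ha0.le (h0 x)) (by linarith)
    have h11 := mul_le_mul_of_nonneg_left h2 (mul_nonneg two_pos.le ha0.le)
    nlinarith
  have hb : ∀ n : ℕ, Kv C (fun z => a * φ z) n 1 ≤ f 1 / f 0 := by
    intro n
    rw [le_div_iff₀ (hfpos 0 le_rfl)]
    refine le_trans ?_ (HZ.sum_le_sup C _ f hfpos hs (n + 1) one_pos)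
    refine mul_le_mul_of_nonneg_right ?_ (hfpos 0 le_rfl).le
    exact Finset.single_le_sum (f := fun n => Kv C (fun z => a * φ z) n 1)
      (fun i _ => HZ.Kv_nonneg C _ i 1) (Finset.mem_range.2 (Nat.lt_succ_self n))
  have hp : 0 < C.p 0 1 := by
    have h := C.up 0
    rwa [zero_add] at h
  refine ⟨C.p 0 1 * Real.exp (a * φ 1) * (f 1 / f 0), ?_, fun n => ?_⟩
  · exact mul_pos (mul_pos hp (Real.exp_pos _))
      (div_pos (hfpos 1 zero_le_one) (hfpos 0 le_rfl))
  · exact mul_le_mul_of_nonneg_left (hb n) (mul_nonneg (C.nonneg _ _) (Real.exp_pos _).le)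

end

end Pool.Agent.HG
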