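import Pool.Agent.Lib.MP_daa227_pr_HG.FinA
import Pool.Agent.Lib.MP_daa227_pr_HG.VSmall

/-!
# MP_daa227_pr, exact order: light potentials do not change the loop exponent
-/

namespace Pool.Agent.HG

open MeasureTheory ProbabilityTheory Finset Filter Topology
open MP_daa227_pr (Chain Zk Zf Gk Gf KU K0 Ren shift seqLaw ExpMom DepOn Good GoodW mom)
open Pool.Agent.HZ (Mod Kv lmg)
open Pool.Agent.IOrd (Sys aS cv)

noncomputable section

/-- strong Markov property at the first visit of `r` (lower bound), as `HZ.A24.passage` -/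
theorem passage_v (C : Chain) (v : ℤ → ℝ) {r : ℤ} (hr : 1 ≤ r) (j L : ℕ) {x : ℤ} (hx : 1 ≤ x) :
    Kv (HZ.ctr C r) (fun z => v (z + r)) L x * Kv C v j r ≤ Kv C v (L + j) (x + r) := by
  induction L generalizing x with
  | zero =>
    have h0 : Kv (HZ.ctr C r) (fun z => v (z + r)) 0 x = 0 := rfl
    rw [h0, zero_mul]
    exact HZ.Kv_nonneg _ _ _ _
  | succ L ih =>
    set E : ℝ := Kv C v j r with hE
    have hE0 : 0 ≤ E := HZ.Kv_nonneg _ _ _ _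
    have h1 : Kv (HZ.ctr C r) (fun z => v (z + r)) (L + 1) x =
        (if L = 0 then C.p (x + r) (0 + r) * Real.exp (v (0 + r)) else 0) +
        ∑ z ∈ Finset.Icc (x - 1) (x + 1) \ {0}, C.p (x + r) (z + r) * Real.exp (v (z + r)) *
          Kv (HZ.ctr C r) (fun z => v (z + r)) L z := rfl
    have h2 : L + 1 + j = L + j + 1 := by ring
    rw [h1, h2, HZ.Kv_succ]
    have h3 : 0 ≤ (if L + j = 0 then C.p (x + r) 0 * Real.exp (v 0) else 0) := by
      split_ifs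
      · exact mul_nonneg (C.nonneg _ _) (Real.exp_pos _).le
      · exact le_rfl
    refine le_trans ?_ (le_add_of_nonneg_left h3)
    -- reindex the right side
    have h4 : ∑ z ∈ Finset.Icc (x + r - 1) (x + r + 1) \ {0},
          C.p (x + r) z * Real.exp (v z) * Kv C v (L + j) z =
        ∑ z ∈ Finset.Icc (x - 1) (x + 1),
          C.p (x + r) (z + r) * Real.exp (v (z + r)) * Kv C v (L + j) (z + r) := by
      refine Finset.sum_bij' (fun y _ => y - r) (fun y _ => y + r) ?_ ?_ ?_ ?_ ?_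
      · intro y hy
        rw [Finset.mem_sdiff, Finset.mem_Icc, Finset.mem_singleton] at hy
        rw [Finset.mem_Icc]
        omega
      · intro y hy
        rw [Finset.mem_Icc] at hy
        rw [Finset.mem_sdiff, Finset.mem_Icc, Finset.mem_singleton]
        omega
      · intro y _
        ring
      · intro y _
        ring
      · intro y _
        rw [sub_add_cancel]
    rw [h4, add_mul, Finset.sum_mul]
    have hterm : ∀ z ∈ Finset.Icc (x - 1) (x + 1) \ {0},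
        C.p (x + r) (z + r) * Real.exp (v (z + r)) *
          Kv (HZ.ctr C r) (fun z => v (z + r)) L z * E ≤
        C.p (x + r) (z + r) * Real.exp (v (z + r)) * Kv C v (L + j) (z + r) := by
      intro z hz
      rw [Finset.mem_sdiff, Finset.mem_Icc, Finset.mem_singleton] at hz
      rw [mul_assoc]
      exact mul_le_mul_of_nonneg_left (ih (by omega))
        (mul_nonneg (C.nonneg _ _) (Real.exp_pos _).le)
    by_cases h0 : (0 : ℤ) ∈ Finset.Icc (x - 1) (x + 1)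
    · rw [← Finset.add_sum_erase _ _ h0, Finset.sdiff_singleton_eq_erase]
      apply add_le_add
      · split_ifs with hL
        · subst hL
          have h5 : (0 : ℤ) + r = r := zero_add r
          rw [h5, zero_add]
        · rw [zero_mul]
          exact mul_nonneg (mul_nonneg (C.nonneg _ _) (Real.exp_pos _).le) (HZ.Kv_nonneg _ _ _ _)
      · refine Finset.sum_le_sum fun z hz => ?_
        rw [← Finset.sdiff_singleton_eq_erase] at hz
        exact hterm z hz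
    · have h5 : C.p (x + r) (0 + r) = 0 := by
        apply C.near
        rw [Finset.mem_Icc] at h0 ⊢
        omega
      rw [h5, zero_mul, ite_self, zero_mul, zero_add]
      rw [Finset.sdiff_singleton_eq_erase, Finset.erase_eq_of_notMem h0] at *
      exact Finset.sum_le_sum hterm

/-- `HZ.A24.Kv_up` to `r + 1`, `passage_v` with `x = 1`, `j = r` (`Kv C v r r > 0`) -/
theorem lower_v (C : Chain) (v : ℤ → ℝ) {r : ℕ} (hr : 1 ≤ r) : ∃ c : ℝ, 0 < c ∧ ∀ k : ℕ,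
    c * Kv (HZ.ctr C r) (fun z => v (z + r)) (2 * k + 1) 1 ≤ Kv C v (2 * (k + (r + 1))) 0 := by
  obtain ⟨c, hc, hup⟩ := HZ.A24.Kv_up C v (r + 1)
  have hd : 0 < Kv C v r r := by
    obtain ⟨m, rfl⟩ : ∃ m, r = m + 1 := ⟨r - 1, by omega⟩
    apply HZ.Kv_pos_of_K0
    have := MP_daa227_pr.K0_down C m
    push_cast
    exact this
  refine ⟨c * Kv C v r r, mul_pos hc hd, fun k => ?_⟩
  have h1 := passage_v C v (r := (r : ℤ)) (by omega) r (2 * k + 1) (x := 1) le_rfl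
  have h2 := hup (2 * k + 1 + r)
  have h3 : 2 * k + 1 + r + (r + 1) = 2 * (k + (r + 1)) := by ring
  rw [h3] at h2
  have h4 : ((r + 1 : ℕ) : ℤ) = 1 + (r : ℤ) := by
    push_cast
    ring
  rw [h4] at h2
  have h5 := mul_le_mul_of_nonneg_left h1 hc.le
  calc c * Kv C v r r * Kv (HZ.ctr C r) (fun z => v (z + r)) (2 * k + 1) 1
      = c * (Kv (HZ.ctr C r) (fun z => v (z + r)) (2 * k + 1) 1 * Kv C v r r) := by ring
    _ ≤ _ := h5.trans h2

/-- Given `η, θ`: let `κ > 0` be such that `a = 1 / (2 κ)` satisfies `θ = η / (η + a)`,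
`r ≥ R₀` with `R₀` from `v_small`, `D = ctr C r`, `ψ = φ (· + r)`; `c` from `lower_v` (and
`D.p 0 1 > 0`, `K`). `es_low` (Lib/MP_daa227_pr_HG/PolyV.lean) for
`g t = Ep D (t ψ) 1 (2 k + 1)` with the bound `K` of `exp_k`:
`Ep D (-η ψ) 1 (2k+1) ≥ (x / K^θ)^(1/(1-θ))` for `0 ≤ x ≤ Ep D 0 1 (2k+1) = D.p 0 1 * fp D k`. -/
theorem pen_low (C : Chain) (hrec : HasSum (fun n : ℕ => K0 C (n + 1) 0) 1) {φ : ℤ → ℝ} {Φ : ℝ}
    (h0 : ∀ x, 0 ≤ φ x) (h1 : ∀ x, φ x ≤ Φ) (hV : VR C φ) {η θ : ℝ} (hη : 0 < η) (hθ : 0 < θ)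
    (hθ1 : θ < 1) : ∃ r₀ : ℕ, 1 ≤ r₀ ∧ ∀ r : ℕ, r₀ ≤ r → ∃ c : ℝ, 0 < c ∧ ∀ k : ℕ,
      c * HZ.A24.fp (HZ.ctr C r) k ^ (1 / (1 - θ)) ≤
        Kv C (fun z => -η * φ z) (2 * (k + (r + 1))) 0 := by
  have hθ' : 0 < 1 - θ := by linarith
  obtain ⟨κ, hκ⟩ : ∃ κ, κ = θ / (2 * η * (1 - θ)) := ⟨_, rfl⟩
  have hκ0 : 0 < κ := by rw [hκ]; positivity
  obtain ⟨a, ha⟩ : ∃ a, a = 1 / (2 * κ) := ⟨_, rfl⟩
  have ha0 : 0 < a := by rw [ha]; positivity
  have ha1 : a = η * (1 - θ) / θ := by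
    rw [ha, hκ]
    field_simp
  have ht1 : η / (η + a) = θ := by
    rw [ha1]
    field_simp
    ring
  have ht2 : (η + a) / a = 1 / (1 - θ) := by
    rw [ha1]
    field_simp
    ring
  obtain ⟨R₀, hR0, hR⟩ := v_small C hrec h0 hV hκ0
  refine ⟨R₀, hR0, fun r hr => ?_⟩
  have hr1 : 1 ≤ r := hR0.trans hr
  obtain ⟨K, hK, hKb⟩ := exp_k (HZ.ctr C r) (φ := fun x => φ (x + r)) (fun x => h0 _) hκ0
    (hR r hr)
  obtain ⟨c, hc, hl⟩ := lower_v C (fun z => -η * φ z) hr1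
  have hp := HZ.A24.p01 (HZ.ctr C r)
  have hp1 := HZ.A24.p01_le (HZ.ctr C r)
  obtain ⟨q, hq⟩ : ∃ q, q = (HZ.ctr C r).p 0 1 / K ^ θ := ⟨_, rfl⟩
  have hKθ : 0 < K ^ θ := Real.rpow_pos_of_pos hK _
  have hq0 : 0 < q := by rw [hq]; exact div_pos hp hKθ
  refine ⟨c * q ^ (1 / (1 - θ)), mul_pos hc (Real.rpow_pos_of_pos hq0 _), fun k => ?_⟩
  have hf := HZ.A24.fp_nonneg (HZ.ctr C r) k
  have h2 : ((HZ.ctr C r).p 0 1 * HZ.A24.fp (HZ.ctr C r) k) ≤
      HZ.Ep (HZ.ctr C r) (fun z => (0 : ℝ) * φ (z + r)) 1 (2 * k + 1) := by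
    apply le_of_eq
    unfold HZ.Ep HZ.A24.fp
    simp only [zero_mul, Real.exp_zero, mul_one]
    rw [HZ.Kv_K0]
  have h3 := es_low (PolyV.es_Es (HZ.ctr C r) (φ := fun x => φ (x + r)) (Φ := Φ)
    (fun x => h0 _) (fun x => h1 _) (2 * k + 1)) ha0 hη hK
    (by
      have h4 := hKb (2 * k + 1)
      rw [← ha] at h4
      exact h4) (mul_nonneg hp.le hf) h2
  rw [ht1, ht2] at h3
  have h5 : (HZ.ctr C r).p 0 1 * HZ.A24.fp (HZ.ctr C r) k / K ^ θ =
      q * HZ.A24.fp (HZ.ctr C r) k := by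
    rw [hq]
    ring
  rw [h5, Real.mul_rpow hq0.le hf] at h3
  have h6 : HZ.Ep (HZ.ctr C r) (fun z => -η * φ (z + r)) 1 (2 * k + 1) ≤
      Kv (HZ.ctr C r) (fun z => -η * φ (z + r)) (2 * k + 1) 1 := by
    unfold HZ.Ep
    refine mul_le_of_le_one_left (HZ.Kv_nonneg _ _ _ _) ?_
    have h7 : Real.exp (-η * φ (1 + r)) ≤ 1 := by
      rw [Real.exp_le_one_iff]
      have := mul_nonneg hη.le (h0 (1 + r))
      linarith
    exact mul_le_one₀ hp1 (Real.exp_pos _).le h7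
  have h8 := hl k
  have h9 := mul_le_mul_of_nonneg_left (h3.trans h6) hc.le
  calc c * q ^ (1 / (1 - θ)) * HZ.A24.fp (HZ.ctr C r) k ^ (1 / (1 - θ))
      = c * (q ^ (1 / (1 - θ)) * HZ.A24.fp (HZ.ctr C r) k ^ (1 / (1 - θ))) := by ring
    _ ≤ _ := h9.trans h8

namespace LightA

/-- the exponents -/
theorem theta_eq {α ε : ℝ} (hα : 0 ≤ α) (hε : 0 < ε) :
    0 < ε / 4 / (1 + α + ε / 2) ∧ ε / 4 / (1 + α + ε / 2) < 1 ∧
      1 / (1 - ε / 4 / (1 + α + ε / 2)) = (1 + α + ε / 2) / (1 + α + ε / 4) := by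
  have h1 : 0 < 1 + α + ε / 2 := by linarith
  have h2 : 0 < 1 + α + ε / 4 := by linarith
  refine ⟨by positivity, ?_, ?_⟩
  · rw [div_lt_one h1]
    linarith
  · have h3 : 1 - ε / 4 / (1 + α + ε / 2) = (1 + α + ε / 4) / (1 + α + ε / 2) := by
      field_simp
      ring
    rw [h3, one_div_div]

theorem concl (C : Chain) (v : ℤ → ℝ) (r : ℕ) {α ε c : ℝ} (hα : 0 ≤ α) (hε : 0 < ε)
    (hc : 0 < c) {b : ℕ → ℝ} (hb : LBa α b)
    (h : ∀ k, c * b k ^ ((1 + α + ε / 2) / (1 + α + ε / 4)) ≤ Kv C v (2 * (k + (r + 1))) 0) :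
    ∀ᶠ n : ℕ in atTop, ((2 * n : ℕ) : ℝ) ^ (-(1 + α + ε)) ≤ Kv C v (2 * n) 0 := by
  have h1 : 0 < 1 + α + ε / 2 := by linarith
  have h2 : 0 < 1 + α + ε / 4 := by linarith
  have h3 := (tendsto_sub_atTop_nat (r + 1)).eventually (hb (ε / 4) (by linarith))
  have h4 : ∀ᶠ n : ℕ in atTop, 1 / c ≤ (n : ℝ) ^ (ε / 2) := HZ.A24.rpow_large (half_pos hε) _
  filter_upwards [h3, h4, eventually_ge_atTop (r + 2)] with n h3 h4 h5
  obtain ⟨k, rfl⟩ : ∃ k, n = k + (r + 1) := ⟨n - (r + 1), by omega⟩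
  have hk : 1 ≤ k := by omega
  rw [Nat.add_sub_cancel] at h3
  have hk0 : (0 : ℝ) < k := by exact_mod_cast hk
  obtain ⟨N, hN⟩ : ∃ N : ℝ, N = ((k + (r + 1) : ℕ) : ℝ) := ⟨_, rfl⟩
  have hNk : (k : ℝ) ≤ N := by
    rw [hN]
    exact_mod_cast Nat.le_add_right k (r + 1)
  have hN0 : 0 < N := hk0.trans_le hNk
  have hN1 : 1 ≤ N := by
    refine le_trans ?_ hNk
    exact_mod_cast hk
  rw [← hN] at h4
  have h6 : ((2 * (k + (r + 1)) : ℕ) : ℝ) = 2 * N := by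
    rw [hN]
    push_cast
    ring
  rw [h6]
  refine le_trans ?_ (h k)
  have h7 : (k : ℝ) ^ (-(1 + α + ε / 2)) ≤ b k ^ ((1 + α + ε / 2) / (1 + α + ε / 4)) := by
    have h8 := Real.rpow_le_rpow (Real.rpow_nonneg hk0.le _) h3
      (div_pos h1 h2).le (z := (1 + α + ε / 2) / (1 + α + ε / 4))
    rw [← Real.rpow_mul hk0.le] at h8
    have h9 : -(1 + α + ε / 4) * ((1 + α + ε / 2) / (1 + α + ε / 4)) = -(1 + α + ε / 2) := by
      field_simp
    rwa [h9] at h8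
  have h10 : N ^ (-(1 + α + ε / 2)) ≤ (k : ℝ) ^ (-(1 + α + ε / 2)) :=
    Real.rpow_le_rpow_of_nonpos hk0 hNk (by linarith)
  have h11 : (2 * N) ^ (-(1 + α + ε)) ≤ N ^ (-(1 + α + ε)) :=
    Real.rpow_le_rpow_of_nonpos hN0 (by linarith) (by linarith)
  have h12 : N ^ (-(1 + α + ε)) * N ^ (ε / 2) = N ^ (-(1 + α + ε / 2)) := by
    rw [← Real.rpow_add hN0]
    congr 1
    ring
  have h13 : 0 ≤ N ^ (-(1 + α + ε)) := Real.rpow_nonneg hN0.le _
  have h14 : N ^ (-(1 + α + ε)) ≤ c * N ^ (-(1 + α + ε / 2)) := by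
    rw [← h12]
    rw [div_le_iff₀ hc] at h4
    calc N ^ (-(1 + α + ε)) = N ^ (-(1 + α + ε)) * 1 := (mul_one _).symm
      _ ≤ N ^ (-(1 + α + ε)) * (N ^ (ε / 2) * c) := mul_le_mul_of_nonneg_left h4 h13
      _ = _ := by ring
  refine h11.trans (h14.trans ?_)
  exact mul_le_mul_of_nonneg_left (h10.trans h7) hc.le

/-- powers of sums -/
theorem pow_sum {a b p c₁ c₂ y : ℝ} (ha : 0 ≤ a) (hb : 0 ≤ b) (hp : 0 ≤ p) (hc₁ : 0 < c₁)
    (hc₂ : 0 < c₂) (h1 : c₁ * a ^ p ≤ y) (h2 : c₂ * b ^ p ≤ y) :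
    min c₁ c₂ / 2 ^ p * (a + b) ^ p ≤ y := by
  have h2p : (0 : ℝ) < 2 ^ p := Real.rpow_pos_of_pos two_pos _
  have key : ∀ m : ℝ, 0 ≤ m → a ≤ m → b ≤ m → min c₁ c₂ * m ^ p ≤ y →
      min c₁ c₂ / 2 ^ p * (a + b) ^ p ≤ y := by
    intro m hm ham hbm hy
    have h3 : (a + b) ^ p ≤ (2 * m) ^ p :=
      Real.rpow_le_rpow (add_nonneg ha hb) (by linarith) hp
    rw [Real.mul_rpow two_pos.le hm] at h3
    have h4 : 0 ≤ min c₁ c₂ / 2 ^ p := (div_pos (lt_min hc₁ hc₂) h2p).le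
    refine le_trans (mul_le_mul_of_nonneg_left h3 h4) (le_trans (le_of_eq ?_) hy)
    field_simp
  rcases le_total a b with hab | hab
  · refine key b hb hab le_rfl (le_trans ?_ h2)
    exact mul_le_mul_of_nonneg_right (min_le_right _ _) (Real.rpow_nonneg hb _)
  · refine key a ha le_rfl hab (le_trans ?_ h1)
    exact mul_le_mul_of_nonneg_right (min_le_left _ _) (Real.rpow_nonneg ha _)

end LightA

/-- one side: `pen_low` with small `θ`, `lba_ctr` (with `D = E = C`), `lba_scale`, `two_of_lba`,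
as in `HZ.fin_one` -/
theorem light_one (C : Chain)
    (hrec : HasSum (fun n : ℕ => K0 C (n + 1) 0) 1) {φ : ℤ → ℝ} {Φ α : ℝ} (hα : 0 ≤ α)
    (h0 : ∀ x, 0 ≤ φ x) (h1 : ∀ x, φ x ≤ Φ) (hV : VR C φ)
    (hK : ∀ ε : ℝ, 0 < ε → ∀ᶠ n : ℕ in atTop,
      ((2 * n : ℕ) : ℝ) ^ (-(1 + α + ε)) ≤ C.p 0 1 * K0 C (2 * n - 1) 1) :
    ∀ η : ℝ, 0 < η → ∀ ε : ℝ, 0 < ε → ∀ᶠ n : ℕ in atTop,
      ((2 * n : ℕ) : ℝ) ^ (-(1 + α + ε)) ≤ Kv C (fun z => -η * φ z) (2 * n) 0 := by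
  intro η hη ε hε
  obtain ⟨ht0, ht1, ht⟩ := LightA.theta_eq hα hε
  have h2 := lba_of_two hα hK
  have h3 : LBa α (fun k => HZ.A24.fp C k + HZ.A24.fp C k) := by
    refine lba_scale hα h2 one_pos two_pos (fun n => n + 1) (tendsto_add_atTop_nat 1) ?_ ?_
    · filter_upwards [eventually_ge_atTop 1] with n hn
      have : (1 : ℝ) ≤ n := by exact_mod_cast hn
      push_cast
      linarith
    · filter_upwards with n
      have h3 : 2 * (n + 1) - 1 = 2 * n + 1 := by omega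
      rw [one_mul, h3]
      have h4 : C.p 0 1 * K0 C (2 * n + 1) 1 ≤ HZ.A24.fp C n :=
        mul_le_of_le_one_left (HZ.A24.fp_nonneg C n) (HZ.A24.p01_le C)
      have h5 := HZ.A24.fp_nonneg C n
      linarith
  obtain ⟨r, -, hr⟩ := pen_low C hrec h0 h1 hV hη ht0 ht1
  obtain ⟨c, hc, h4⟩ := hr r le_rfl
  rw [ht] at h4
  have h5 := lba_ctr hα C C h3 r
  have hp : 0 ≤ (1 + α + ε / 2) / (1 + α + ε / 4) := by positivity
  refine LightA.concl C _ r hα hε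
    (div_pos (lt_min hc hc) (Real.rpow_pos_of_pos two_pos
      ((1 + α + ε / 2) / (1 + α + ε / 4)))) h5 fun k => ?_
  exact LightA.pow_sum (HZ.A24.fp_nonneg _ k) (HZ.A24.fp_nonneg _ k) hp hc hc (h4 k) (h4 k)

/-- Two sides, as in `HZ.fin_two`: `lba_ctr` for `C` and `cneg C` at a common large level `r`
(`pen_low` for both, with `θ` small depending on `ε`); for each `k` one of the two first passage
probabilities is at least half of the sum; `Kv (cneg C)` with the reflected potential is `Kv C`. -/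
theorem light_two (C : Chain)
    (hrec : HasSum (fun n : ℕ => K0 C (n + 1) 0) 1) {φ : ℤ → ℝ} {Φ α : ℝ} (hα : 0 ≤ α)
    (h0 : ∀ x, 0 ≤ φ x) (h1 : ∀ x, φ x ≤ Φ) (hR : VR C φ) (hL : VL C φ)
    (hK : ∀ ε : ℝ, 0 < ε → ∀ᶠ n : ℕ in atTop,
      ((2 * n : ℕ) : ℝ) ^ (-(1 + α + ε)) ≤ K0 C (2 * n) 0) :
    ∀ η : ℝ, 0 < η → ∀ ε : ℝ, 0 < ε → ∀ᶠ n : ℕ in atTop,
      ((2 * n : ℕ) : ℝ) ^ (-(1 + α + ε)) ≤ Kv C (fun z => -η * φ z) (2 * n) 0 := by
  intro η hη ε hε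
  obtain ⟨ht0, ht1, ht⟩ := LightA.theta_eq hα hε
  have h2 := lba_of_two hα hK
  have h3 : LBa α (fun k => HZ.A24.fp C k + HZ.A24.fp (HZ.cneg C) k) := by
    refine lba_scale hα h2 one_pos two_pos (fun n => n + 1) (tendsto_add_atTop_nat 1) ?_ ?_
    · filter_upwards [eventually_ge_atTop 1] with n hn
      have : (1 : ℝ) ≤ n := by exact_mod_cast hn
      push_cast
      linarith
    · filter_upwards with n
      have h3 : 2 * (n + 1) = 2 * n + 1 + 1 := by omega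
      rw [one_mul, h3, ← HZ.Kv_K0, HZ.Kv_split C]
      have h4 : HZ.Es C (fun _ => 0) 1 (2 * n + 1) ≤ HZ.A24.fp C n := by
        rw [HZ.Es_pos_n C _ _ (by omega)]
        unfold HZ.A24.fp
        rw [Real.exp_zero, mul_one, HZ.Kv_K0]
        exact mul_le_of_le_one_left (MP_daa227_pr.K0_nonneg _ _ _) (HZ.A24.p01_le C)
      have h5 : HZ.Es C (fun _ => 0) (-1) (2 * n + 1) ≤ HZ.A24.fp (HZ.cneg C) n := by
        have h6 := HZ.Kv_cneg C (fun _ => 0) (2 * n + 1) 1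
        rw [HZ.Kv_K0] at h6
        rw [HZ.Es_neg]
        unfold HZ.A24.fp
        rw [Real.exp_zero, mul_one, h6]
        exact mul_le_of_le_one_left (HZ.Kv_nonneg _ _ _ _) (HZ.A24.p01_le (HZ.cneg C))
      linarith
  have hrec' : HasSum (fun n : ℕ => K0 (HZ.cneg C) (n + 1) 0) 1 := by
    have h4 : ∀ n : ℕ, K0 (HZ.cneg C) (n + 1) 0 = K0 C (n + 1) 0 := by
      intro n
      have h5 := HZ.Kv_cneg C (fun _ => 0) (n + 1) 0
      rw [neg_zero, HZ.Kv_K0, HZ.Kv_K0] at h5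
      exact h5
    simpa only [h4] using hrec
  obtain ⟨r₁, -, hr₁⟩ := pen_low C hrec h0 h1 hR hη ht0 ht1
  obtain ⟨r₂, -, hr₂⟩ := pen_low (HZ.cneg C) hrec' (φ := fun x => φ (-x)) (fun x => h0 _)
    (fun x => h1 _) hL hη ht0 ht1
  obtain ⟨c₁, hc₁, h4⟩ := hr₁ (max r₁ r₂) (le_max_left _ _)
  obtain ⟨c₂, hc₂, h5⟩ := hr₂ (max r₁ r₂) (le_max_right _ _)
  rw [ht] at h4 h5
  have h6 := lba_ctr hα C (HZ.cneg C) h3 (max r₁ r₂)
  have hp : 0 ≤ (1 + α + ε / 2) / (1 + α + ε / 4) := by positivity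
  refine LightA.concl C _ (max r₁ r₂) hα hε
    (div_pos (lt_min hc₁ hc₂) (Real.rpow_pos_of_pos two_pos
      ((1 + α + ε / 2) / (1 + α + ε / 4)))) h6 fun k => ?_
  refine LightA.pow_sum (HZ.A24.fp_nonneg _ k) (HZ.A24.fp_nonneg _ k) hp hc₁ hc₂ (h4 k) ?_
  have h7 := h5 k
  have h8 := HZ.Kv_cneg C (fun z => -η * φ z) (2 * (k + (max r₁ r₂ + 1))) 0
  rw [neg_zero] at h8
  rwa [h8] at h7

end

end Pool.Agent.HG
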