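import Pool.Agent.Lib.MP_daa227_pr_HG.BPow
import Pool.Agent.Lib.MP_daa227_pr_HG.BCtr
import Pool.Agent.Lib.MP_daa227_pr_HG.BUpT
import Pool.Agent.Lib.MP_daa227_pr_HG.BRec
import Pool.Agent.Lib.MP_daa227_pr_HG.BLowA
import Pool.Agent.Lib.MP_daa227_pr_HG.BLowB
import Pool.Agent.Lib.MP_daa227_pr_HG.BPl
import Pool.Agent.Lib.MP_daa227_pr_HG.NAnti
import Pool.Agent.Lib.MP_daa227_pr_HG.LightA
import Pool.Agent.Lib.MP_daa227_pr_HG.GTailW

/-!
# MP_daa227_pr, penalised Bessel-like chains: the loop exponent is `√(α² + 2 η c)`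
-/

namespace Pool.Agent.HG

open MeasureTheory ProbabilityTheory Finset Filter Topology
open MP_daa227_pr (Chain Zk Zf Gk Gf KU K0 Ren shift seqLaw ExpMom DepOn Good GoodW mom)
open Pool.Agent.HZ (Mod Kv lmg)
open Pool.Agent.IOrd (Sys aS cv)

noncomputable section

namespace BesA

/-- from `1` to `k + 1` -/
theorem up_one (C : Chain) (v : ℤ → ℝ) (k : ℕ) : ∃ c : ℝ, 0 < c ∧ ∀ n : ℕ,
    c * Kv C v n ((k : ℤ) + 1) ≤ Kv C v (n + k) 1 := by
  induction k with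
  | zero => exact ⟨1, one_pos, fun n => by simp⟩
  | succ k ih =>
    obtain ⟨c, hc, h⟩ := ih
    have hp : 0 < C.p ((k : ℤ) + 1) ((k : ℤ) + 1 + 1) := C.up _
    refine ⟨c * (C.p ((k : ℤ) + 1) ((k : ℤ) + 1 + 1) * Real.exp (v ((k : ℤ) + 1 + 1))),
      mul_pos hc (mul_pos hp (Real.exp_pos _)), fun n => ?_⟩
    have h1 := h (n + 1)
    have h2 : C.p ((k : ℤ) + 1) ((k : ℤ) + 1 + 1) * Real.exp (v ((k : ℤ) + 1 + 1)) *
        Kv C v n ((k : ℤ) + 1 + 1) ≤ Kv C v (n + 1) ((k : ℤ) + 1) := by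
      rw [HZ.Kv_succ]
      have h3 := Finset.single_le_sum (f := fun z => C.p ((k : ℤ) + 1) z * Real.exp (v z) *
          Kv C v n z) (s := Finset.Icc ((k : ℤ) + 1 - 1) ((k : ℤ) + 1 + 1) \ {0})
          (a := (k : ℤ) + 1 + 1)
          (fun z _ => mul_nonneg (mul_nonneg (C.nonneg _ _) (Real.exp_pos _).le)
            (HZ.Kv_nonneg C _ n z)) (by
              rw [Finset.mem_sdiff, Finset.mem_Icc, Finset.mem_singleton]
              omega)
      refine h3.trans (le_add_of_nonneg_left ?_)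
      split_ifs
      · exact mul_nonneg (C.nonneg _ _) (Real.exp_pos _).le
      · exact le_rfl
    have h4 : ((k + 1 : ℕ) : ℤ) + 1 = (k : ℤ) + 1 + 1 := by push_cast; ring
    have h5 : n + (k + 1) = n + 1 + k := by ring
    rw [h4, h5, mul_assoc]
    exact (mul_le_mul_of_nonneg_left h2 hc.le).trans h1

/-- excursions above `r` are excursions above `0`, up to a shift of the length -/
theorem lift (C : Chain) (v : ℤ → ℝ) {r : ℕ} (hr : 1 ≤ r) : ∃ c : ℝ, 0 < c ∧ ∀ n : ℕ,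
    c * Kv (HZ.ctr C r) (fun z => v (z + r)) n 1 ≤ Kv C v (n + 2 * r) 1 := by
  obtain ⟨c, hc, hup⟩ := up_one C v r
  have hd : 0 < Kv C v r r := by
    obtain ⟨m, rfl⟩ : ∃ m, r = m + 1 := ⟨r - 1, by omega⟩
    apply HZ.Kv_pos_of_K0
    have := MP_daa227_pr.K0_down C m
    push_cast
    exact this
  refine ⟨c * Kv C v r r, mul_pos hc hd, fun n => ?_⟩
  have h1 := passage_v C v (r := (r : ℤ)) (by omega) r n (x := 1) le_rfl
  have h2 := hup (n + r)
  have h3 : n + r + r = n + 2 * r := by ring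
  have h4 : (r : ℤ) + 1 = 1 + (r : ℤ) := add_comm _ _
  rw [h3, h4] at h2
  have h5 := mul_le_mul_of_nonneg_left h1 hc.le
  calc c * Kv C v r r * Kv (HZ.ctr C r) (fun z => v (z + r)) n 1
      = c * (Kv (HZ.ctr C r) (fun z => v (z + r)) n 1 * Kv C v r r) := by ring
    _ ≤ _ := h5.trans h2

theorem pq_pos {q : ℝ} {x : ℤ} (hx : 1 ≤ x) : 0 < pq 0 q x := by
  unfold pq
  apply Real.rpow_pos_of_pos
  have : (1 : ℝ) ≤ x := by exact_mod_cast hx
  linarith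

variable {C : Chain} {φ : ℤ → ℝ} {m α c : ℝ}

/-- powers with `q² - 2 α q - 2 η c < 0` are strict supersolutions -/
theorem sup (h : Bes C φ m α c) {η q : ℝ} (hq : q ^ 2 - 2 * α * q - 2 * η * c < 0) :
    ∃ d : ℝ, 0 < d ∧ ∀ᶠ x : ℤ in atTop,
      Lw C (fun z => -η * φ z) (pq 0 q) x ≤ pq 0 q x - d * pq 0 (q - 2) x := by
  have h1 := bes_pow h η q
  set l : ℝ := m / 2 * (q ^ 2 - 2 * α * q - 2 * η * c) with hl
  have hl0 : l < 0 := mul_neg_of_pos_of_neg (half_pos h.m_pos) hq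
  refine ⟨-l / 2, by linarith, ?_⟩
  filter_upwards [h1.eventually (gt_mem_nhds (show l < l / 2 by linarith)),
    eventually_ge_atTop 1] with x hx hx1
  have h2 := pq_pos (q := q - 2) hx1
  rw [div_lt_iff₀ h2] at hx
  linarith

/-- powers with `q² - 2 α q - 2 η c > 0` are subsolutions -/
theorem sub (h : Bes C φ m α c) {η q : ℝ} (hq : 0 < q ^ 2 - 2 * α * q - 2 * η * c) :
    ∀ᶠ x : ℤ in atTop, pq 0 q x ≤ Lw C (fun z => -η * φ z) (pq 0 q) x := by
  have h1 := bes_pow h η q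
  have hl0 : 0 < m / 2 * (q ^ 2 - 2 * α * q - 2 * η * c) := mul_pos (half_pos h.m_pos) hq
  filter_upwards [h1.eventually (lt_mem_nhds hl0), eventually_ge_atTop 1] with x hx hx1
  have h2 := pq_pos (q := q - 2) hx1
  rw [lt_div_iff₀ h2] at hx
  linarith

theorem any (h : Bes C φ m α c) (η q : ℝ) : ∃ C₀ : ℝ, 0 ≤ C₀ ∧ ∀ᶠ x : ℤ in atTop,
    Lw C (fun z => -η * φ z) (pq 0 q) x ≤ (1 + C₀ * pq 0 (-2) x) * pq 0 q x := by
  have h1 := bes_pow h η q
  set l : ℝ := m / 2 * (q ^ 2 - 2 * α * q - 2 * η * c) with hl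
  refine ⟨|l| + 1, by positivity, ?_⟩
  filter_upwards [h1.eventually (gt_mem_nhds (show l < |l| + 1 by
    have := le_abs_self l
    linarith)), eventually_ge_atTop 1] with x hx hx1
  have h2 := pq_pos (q := q - 2) hx1
  rw [div_lt_iff₀ h2] at hx
  have h3 : pq 0 (q - 2) x = pq 0 (-2) x * pq 0 q x := by
    unfold pq
    have h4 : (0 : ℝ) < (x : ℝ) + 0 := by
      have : (1 : ℝ) ≤ x := by exact_mod_cast hx1
      linarith
    rw [← Real.rpow_add h4]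
    congr 1
    ring
  rw [h3] at hx
  nlinarith

end BesA

/-- upper bound for the tail -/
theorem bes_up {C : Chain} {φ : ℤ → ℝ} (h0 : ∀ x, 0 ≤ φ x) {m α c η : ℝ} (h : Bes C φ m α c)
    (hα : 0 ≤ α) (hc : 0 ≤ c) (hη : 0 ≤ η) {a : ℝ} (ha : 0 < a) (ha1 : a ≤ 1)
    (haa : a < Real.sqrt (α ^ 2 + 2 * η * c)) : LTail C (fun z => -η * φ z) 1 a := by
  have hw : ∀ z, -η * φ z ≤ 0 := fun z => by
    have := mul_nonneg hη (h0 z)
    linarith
  have hsq : a ^ 2 < α ^ 2 + 2 * η * c := by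
    rwa [← Real.lt_sqrt ha.le]
  have hηc : 0 ≤ 2 * η * c := by positivity
  -- the choice of the exponents
  obtain ⟨σ, q, hσ, hσq, hqP, hσP⟩ : ∃ σ q : ℝ, σ ≤ 0 ∧ q - σ = 2 * a ∧
      q ^ 2 - 2 * α * q - 2 * η * c < 0 ∧
      (σ = 0 ∨ σ ^ 2 - 2 * α * σ - 2 * η * c < 0) := by
    rcases le_or_gt α a with hle | hgt
    · refine ⟨α - a, α + a, by linarith, by ring, ?_, Or.inr ?_⟩
      · nlinarith
      · nlinarith
    · refine ⟨0, 2 * a, le_rfl, by ring, ?_, Or.inl rfl⟩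
      nlinarith
  obtain ⟨d, hd, hsup⟩ := BesA.sup h hqP
  have hsσ : ∀ᶠ x : ℤ in atTop, Lw C (fun z => -η * φ z) (pq 0 σ) x ≤ pq 0 σ x := by
    rcases hσP with h1 | h1
    · have h2 : pq 0 σ = fun _ => 1 := by
        funext z
        unfold pq
        rw [h1, Real.rpow_zero]
      rw [h2]
      exact Filter.Eventually.of_forall fun x => Lw_one C hw x
    · obtain ⟨e, he, h2⟩ := BesA.sup h h1
      filter_upwards [h2, eventually_ge_atTop 1] with x hx hx1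
      have h3 := mul_pos he (BesA.pq_pos (q := σ - 2) hx1)
      linarith
  obtain ⟨r, hr⟩ := eventually_atTop.1 (hsup.and hsσ)
  obtain ⟨A, hA, hT⟩ := bes_tail_up C hw (r := r.toNat + 1) (by omega) hσ
    (by linarith : σ < q) (by linarith) hd (fun x hx => (hr x (by omega)).1)
    (fun x hx => (hr x (by omega)).2)
  have h1 : (q - σ) / 2 = a := by linarith
  rw [h1] at hT
  exact ⟨A, hA, hT⟩

/-- lower bound for the tail -/
theorem bes_low {C : Chain} (hrec : HasSum (fun n : ℕ => K0 C (n + 1) 0) 1) {φ : ℤ → ℝ}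
    (h0 : ∀ x, 0 ≤ φ x) {m α c η : ℝ} (h : Bes C φ m α c)
    (hα : 0 ≤ α) (hc : 0 ≤ c) (hη : 0 ≤ η) {a : ℝ} (haa : Real.sqrt (α ^ 2 + 2 * η * c) < a) :
    ∃ d : ℝ, 0 < d ∧ ∀ s : ℝ, 0 < s → s ≤ 1 → ∃ N : ℕ,
      d * s ^ a ≤ ∑ n ∈ range N, Kv C (fun z => -η * φ z) n 1 * (1 - Real.exp (-(s * n))) := by
  have hηc : 0 ≤ 2 * η * c := by positivity
  have ha : 0 < a := (Real.sqrt_nonneg _).trans_lt haa
  have hsq : α ^ 2 + 2 * η * c < a ^ 2 := (Real.sqrt_lt' ha).1 haa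
  have haα : α < a := by nlinarith
  -- far away all conditions hold
  obtain ⟨C₀, hC₀, hany⟩ := BesA.any h η (α - a - 1)
  obtain ⟨r₀, hr₀⟩ := eventually_atTop.1 (((BesA.sub h (η := η) (q := α - a) (by nlinarith)).and
    (BesA.sub h (η := η) (q := α + a) (by nlinarith))).and hany)
  obtain ⟨r, hr1, hrr⟩ : ∃ r : ℕ, 1 ≤ r ∧ r₀ ≤ (r : ℤ) := ⟨r₀.toNat + 1, by omega, by omega⟩
  set D := HZ.ctr C r with hD
  set w : ℤ → ℝ := fun z => -η * φ (z + r) with hwdef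
  have hw : ∀ z, w z ≤ 0 := fun z => by
    have := mul_nonneg hη (h0 (z + r))
    rw [hwdef]
    dsimp only
    linarith
  have hR : (1 : ℝ) ≤ r := by exact_mod_cast hr1
  have hR' : (1 : ℝ) ≤ ((r : ℤ) : ℝ) := by exact_mod_cast hr1
  have hlw : ∀ (q : ℝ) (x : ℤ), Lw D w (pq ((r : ℤ) : ℝ) q) x =
      Lw C (fun z => -η * φ z) (pq 0 q) (x + r) := fun q x =>
    lw_ctr C (fun z => -η * φ z) q r x
  have hpq : ∀ (q : ℝ) (x : ℤ), pq ((r : ℤ) : ℝ) q x = pq 0 q (x + r) := fun q x => by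
    unfold pq
    push_cast
    rw [add_zero]
  have hrecD : ∀ x : ℤ, 1 ≤ x → HasSum (fun n : ℕ => K0 D n x) 1 := fun x hx =>
    rec_all D (rec_shift C hrec r) x hx
  have hc1 : ∀ x : ℤ, 1 ≤ x → pq ((r : ℤ) : ℝ) (α - a) x ≤ Lw D w (pq ((r : ℤ) : ℝ) (α - a)) x :=
    fun x hx => by
      rw [hlw, hpq]
      exact (hr₀ (x + r) (by omega)).1.1
  have hc2 : ∀ x : ℤ, 1 ≤ x → pq ((r : ℤ) : ℝ) (α + a) x ≤ Lw D w (pq ((r : ℤ) : ℝ) (α + a)) x :=
    fun x hx => by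
      rw [hlw, hpq]
      exact (hr₀ (x + r) (by omega)).1.2
  have hc3 : ∀ x : ℤ, 1 ≤ x → Lw D w (pq ((r : ℤ) : ℝ) (α - a - 1)) x ≤
      (1 + C₀ * pq ((r : ℤ) : ℝ) (-2) x) * pq ((r : ℤ) : ℝ) (α - a - 1) x := fun x hx => by
    rw [hlw, hpq, hpq]
    exact (hr₀ (x + r) (by omega)).2
  obtain ⟨κ, C₂, hκ, hC₂, hfar⟩ := low_far D hw hrecD hR' (by linarith : α - a ≤ 0) hC₀ hc1 hc3
  have hq0 : 0 < α + a := by linarith
  set R : ℝ := ((r : ℤ) : ℝ) with hRdef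
  -- the bound for the translated chain
  have key : ∃ d : ℝ, 0 < d ∧ ∀ s : ℝ, 0 < s → s ≤ 1 → d * s ^ a ≤ Ds D w s 1 := by
    set C₃ : ℝ := C₂ + 2 + R with hC₃
    have hC₃0 : 0 < C₃ := by linarith
    have hg1 : 0 < pq R (α + a) 1 - pq R (α + a) 0 := by
      unfold pq
      have := Real.rpow_lt_rpow (by push_cast; linarith : (0 : ℝ) ≤ ((0 : ℤ) : ℝ) + R)
        (by push_cast; linarith : ((0 : ℤ) : ℝ) + R < ((1 : ℤ) : ℝ) + R) hq0
      linarith
    refine ⟨κ * C₃ ^ (α - a) * ((pq R (α + a) 1 - pq R (α + a) 0) / C₃ ^ (α + a)),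
      by positivity, fun s hs hs1 => ?_⟩
    have hss : 0 < Real.sqrt s := Real.sqrt_pos.2 hs
    have hss1 : Real.sqrt s ≤ 1 := by
      have := Real.sqrt_le_sqrt hs1
      rwa [Real.sqrt_one] at this
    obtain ⟨L, hL⟩ : ∃ L : ℤ, L = ⌈C₂ / Real.sqrt s⌉ + 1 := ⟨_, rfl⟩
    have hdiv : 0 < C₂ / Real.sqrt s := div_pos hC₂ hss
    have hL1 : 1 ≤ L := by
      have : 0 < ⌈C₂ / Real.sqrt s⌉ := Int.ceil_pos.2 hdiv
      omega
    have hL2 : C₂ / Real.sqrt s ≤ (L : ℝ) := by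
      rw [hL]
      push_cast
      have := Int.le_ceil (C₂ / Real.sqrt s)
      linarith
    have hL3 : (L : ℝ) ≤ C₂ / Real.sqrt s + 2 := by
      rw [hL]
      push_cast
      have := Int.ceil_lt_add_one (C₂ / Real.sqrt s)
      linarith
    have hL4 : (L : ℝ) + R ≤ C₃ / Real.sqrt s := by
      rw [le_div_iff₀ hss]
      have h5 : C₂ / Real.sqrt s * Real.sqrt s = C₂ := div_mul_cancel₀ _ hss.ne'
      calc ((L : ℝ) + R) * Real.sqrt s ≤ (C₂ / Real.sqrt s + 2 + R) * Real.sqrt s :=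
            mul_le_mul_of_nonneg_right (by linarith) hss.le
        _ = C₂ + (2 + R) * Real.sqrt s := by rw [add_assoc, add_mul, h5]
        _ ≤ C₂ + (2 + R) * 1 := by
            have := mul_le_mul_of_nonneg_left hss1 (by linarith : 0 ≤ 2 + R)
            linarith
        _ = C₃ := by rw [hC₃]; ring
    have hLR : 0 < (L : ℝ) + R := by
      have : (1 : ℝ) ≤ L := by exact_mod_cast hL1
      linarith
    have h6 := hfar s hs hs1 L hL1 (by linarith)
    have h7 := low_near D hw hR' hq0 hc2 hs.le hL1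
    have hgL : pq R (α + a) L - pq R (α + a) 0 ≤ (C₃ / Real.sqrt s) ^ (α + a) := by
      have h8 : 0 ≤ pq R (α + a) 0 := by
        unfold pq
        exact Real.rpow_nonneg (by push_cast; linarith) _
      have h9 : pq R (α + a) L ≤ (C₃ / Real.sqrt s) ^ (α + a) :=
        Real.rpow_le_rpow hLR.le hL4 hq0.le
      linarith
    have hgL0 : 0 < pq R (α + a) L - pq R (α + a) 0 := by
      have h8 : pq R (α + a) 1 ≤ pq R (α + a) L := by
        unfold pq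
        refine Real.rpow_le_rpow (by push_cast; linarith) ?_ hq0.le
        have : ((1 : ℤ) : ℝ) ≤ L := by exact_mod_cast hL1
        linarith
      linarith
    have hDL : κ * (C₃ / Real.sqrt s) ^ (α - a) ≤ Ds D w s L := by
      refine le_trans (mul_le_mul_of_nonneg_left ?_ hκ.le) h6
      unfold pq
      exact Real.rpow_le_rpow_of_nonpos hLR hL4 (by linarith)
    have hC3s : 0 < C₃ / Real.sqrt s := div_pos hC₃0 hss
    have h8 : κ * (C₃ / Real.sqrt s) ^ (α - a) *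
        ((pq R (α + a) 1 - pq R (α + a) 0) / (C₃ / Real.sqrt s) ^ (α + a)) ≤ Ds D w s 1 := by
      refine le_trans (mul_le_mul hDL ?_ (by positivity) (le_trans (by positivity) hDL)) h7
      exact div_le_div_of_nonneg_left hg1.le hgL0 hgL
    refine le_trans (le_of_eq ?_) h8
    rw [Real.div_rpow hC₃0.le hss.le, Real.div_rpow hC₃0.le hss.le]
    have h9 : Real.sqrt s = s ^ (1 / 2 : ℝ) := Real.sqrt_eq_rpow s
    rw [h9, ← Real.rpow_mul hs.le, ← Real.rpow_mul hs.le]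
    have h10 : s ^ a = s ^ (1 / 2 * (α + a)) / s ^ (1 / 2 * (α - a)) := by
      rw [← Real.rpow_sub hs]
      congr 1
      ring
    rw [h10]
    have h11 : 0 < s ^ (1 / 2 * (α + a)) := Real.rpow_pos_of_pos hs _
    have h12 : 0 < s ^ (1 / 2 * (α - a)) := Real.rpow_pos_of_pos hs _
    have h13 : 0 < C₃ ^ (α + a) := Real.rpow_pos_of_pos hC₃0 _
    field_simp
  obtain ⟨d, hd, hkey⟩ := key
  obtain ⟨e, he, hlift⟩ := BesA.lift C (fun z => -η * φ z) hr1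
  have hw' : ∀ z, -η * φ z ≤ 0 := fun z => by
    have := mul_nonneg hη (h0 z)
    linarith
  refine ⟨e * (d / 2), by positivity, fun s hs hs1 => ?_⟩
  have hsa : 0 < s ^ a := Real.rpow_pos_of_pos hs _
  have h1 : d / 2 * s ^ a < Ds D w s 1 := by
    have h2 := hkey s hs hs1
    have h3 := mul_pos hd hsa
    have h4 : d / 2 * s ^ a = d * s ^ a / 2 := by ring
    linarith
  have hsumm : Summable (fun n : ℕ => Kv D w n 1 * (1 - Real.exp (-(s * n)))) := by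
    refine Summable.of_nonneg_of_le (fun n => mul_nonneg (HZ.Kv_nonneg _ _ _ _)
      (GTailW.lam_nonneg hs.le n)) (fun n => ?_) (kv_summ D hw 1)
    refine mul_le_of_le_one_right (HZ.Kv_nonneg _ _ _ _) ?_
    have := (Real.exp_pos (-(s * (n : ℝ)))).le
    linarith
  obtain ⟨N, hN⟩ := (hsumm.hasSum.tendsto_sum_nat.eventually (lt_mem_nhds h1)).exists
  refine ⟨N + 2 * r, ?_⟩
  have h5 : e * ∑ n ∈ range N, Kv D w n 1 * (1 - Real.exp (-(s * n))) ≤
      ∑ n ∈ range N, Kv C (fun z => -η * φ z) (n + 2 * r) 1 *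
        (1 - Real.exp (-(s * ((n + 2 * r : ℕ) : ℝ)))) := by
    rw [Finset.mul_sum]
    refine Finset.sum_le_sum fun n _ => ?_
    rw [← mul_assoc]
    refine mul_le_mul (hlift n) ?_ (GTailW.lam_nonneg hs.le n) (HZ.Kv_nonneg _ _ _ _)
    have : Real.exp (-(s * ((n + 2 * r : ℕ) : ℝ))) ≤ Real.exp (-(s * n)) := by
      refine Real.exp_le_exp.2 ?_
      push_cast
      have : 0 ≤ s * (2 * (r : ℝ)) := by positivity
      nlinarith
    linarith
  have h6 : ∑ n ∈ range N, Kv C (fun z => -η * φ z) (n + 2 * r) 1 *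
      (1 - Real.exp (-(s * ((n + 2 * r : ℕ) : ℝ)))) ≤
      ∑ n ∈ range (N + 2 * r), Kv C (fun z => -η * φ z) n 1 * (1 - Real.exp (-(s * n))) := by
    rw [add_comm N, Finset.sum_range_add]
    have h7 : 0 ≤ ∑ n ∈ range (2 * r), Kv C (fun z => -η * φ z) n 1 *
        (1 - Real.exp (-(s * n))) :=
      Finset.sum_nonneg fun n _ => mul_nonneg (HZ.Kv_nonneg _ _ _ _)
        (GTailW.lam_nonneg hs.le n)
    have h8 : ∑ n ∈ range N, Kv C (fun z => -η * φ z) (n + 2 * r) 1 *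
        (1 - Real.exp (-(s * ((n + 2 * r : ℕ) : ℝ)))) =
        ∑ n ∈ range N, Kv C (fun z => -η * φ z) (2 * r + n) 1 *
        (1 - Real.exp (-(s * ((2 * r + n : ℕ) : ℝ)))) :=
      Finset.sum_congr rfl fun n _ => by rw [add_comm n (2 * r)]
    linarith
  calc e * (d / 2) * s ^ a = e * (d / 2 * s ^ a) := by ring
    _ ≤ e * ∑ n ∈ range N, Kv D w n 1 * (1 - Real.exp (-(s * n))) :=
        mul_le_mul_of_nonneg_left hN.le he.le
    _ ≤ _ := h5.trans h6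

/-- the pointwise bounds: upper -/
theorem bes_pt_up {C : Chain} {φ : ℤ → ℝ} (h0 : ∀ x, 0 ≤ φ x) {m α c η : ℝ} (h : Bes C φ m α c)
    (hα : 0 ≤ α) (hc : 0 ≤ c) (hη : 0 ≤ η) {a : ℝ} (ha : 0 < a) (ha1 : a ≤ 1)
    (haa : a < Real.sqrt (α ^ 2 + 2 * η * c)) :
    ∃ B : ℝ, ∀ k : ℕ, Kv C (fun z => -η * φ z) (2 * k + 1) 1 ≤ B * ((k : ℝ) + 1) ^ (-(1 + a)) := by
  have hw : ∀ z, -η * φ z ≤ 0 := fun z => by
    have := mul_nonneg hη (h0 z)
    linarith
  obtain ⟨A, _, hA⟩ := bes_up h0 h hα hc hη ha ha1 haa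
  exact pt_up (f := fun k => Kv C (fun z => -η * φ z) (2 * k + 1) 1)
    (K := fun n => Kv C (fun z => -η * φ z) n 1) (fun k => HZ.Kv_nonneg _ _ _ _)
    (fun k => kv_anti C hw k) (fun n => HZ.Kv_nonneg _ _ _ _) (fun k => rfl) hA

/-- the pointwise bounds: lower, exponent less than one -/
theorem bes_pt_low {C : Chain} (hrec : HasSum (fun n : ℕ => K0 C (n + 1) 0) 1) {φ : ℤ → ℝ}
    (h0 : ∀ x, 0 ≤ φ x) {m α c η : ℝ} (h : Bes C φ m α c)
    (hα : 0 ≤ α) (hc : 0 ≤ c) (hη : 0 ≤ η) (ha : 0 < Real.sqrt (α ^ 2 + 2 * η * c))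
    (ha1 : Real.sqrt (α ^ 2 + 2 * η * c) < 1) :
    LBa (Real.sqrt (α ^ 2 + 2 * η * c)) (fun k => Kv C (fun z => -η * φ z) (2 * k + 1) 1) := by
  have hw : ∀ z, -η * φ z ≤ 0 := fun z => by
    have := mul_nonneg hη (h0 z)
    linarith
  refine pt_low (f := fun k => Kv C (fun z => -η * φ z) (2 * k + 1) 1)
    (K := fun n => Kv C (fun z => -η * φ z) n 1) (fun k => HZ.Kv_nonneg _ _ _ _)
    (fun k => kv_anti C hw k) (fun n => HZ.Kv_nonneg _ _ _ _) (HZ.Kv_zero _ _ _) (fun k => rfl)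
    (fun k => kv_even_le C hw k) ha ha1 (fun a' h1 h2 => ?_) (fun a'' h2 => ?_)
  · obtain ⟨A, _, hA⟩ := bes_up h0 h hα hc hη h1 (by linarith) h2
    exact ⟨A, hA⟩
  · exact bes_low hrec h0 h hα hc hη h2

end

end Pool.Agent.HG
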