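import Pool.Agent.Lib.MP_daa227_pr_HG.WPoly
import Pool.Agent.Lib.MP_daa227_pr_HG.NAnti

/-!
# MP_daa227_pr: exponent zero of the penalised excursions for one penalty gives it for all
-/

namespace Pool.Agent.HG

open MeasureTheory ProbabilityTheory Finset Filter Topology
open MP_daa227_pr (Chain Zk Zf Gk Gf KU K0 Ren shift seqLaw ExpMom DepOn Good GoodW mom)
open Pool.Agent.HZ (Mod Kv lmg)
open Pool.Agent.IOrd (Sys aS cv)

noncomputable section

namespace LowP

/-- first passage probabilities of odd length are at most `1 / (k + 1)` -/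
theorem fp_le (C : Chain) (k : ℕ) : K0 C (2 * k + 1) 1 ≤ 1 / ((k : ℝ) + 1) := by
  have hanti : Antitone (fun k : ℕ => Kv C (fun _ => 0) (2 * k + 1) 1) :=
    antitone_nat_of_succ_le fun k => kv_anti C (fun _ => le_rfl) k
  have h1 : ((k : ℝ) + 1) * K0 C (2 * k + 1) 1 ≤ 1 := by
    have h2 : ∑ j ∈ range (k + 1), K0 C (2 * j + 1) 1 ≤ 1 := by
      have h3 : ∑ j ∈ range (k + 1), K0 C (2 * j + 1) 1 =
          ∑ n ∈ (range (k + 1)).image (fun j => 2 * j + 1), K0 C n 1 := by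
        rw [Finset.sum_image (fun a _ b _ hab => by simpa using hab)]
      rw [h3]
      refine le_trans (Finset.sum_le_sum_of_subset_of_nonneg (t := range (2 * k + 2)) ?_
        fun n _ _ => MP_daa227_pr.K0_nonneg C n 1) ?_
      · intro n hn
        rw [Finset.mem_image] at hn
        obtain ⟨j, hj, rfl⟩ := hn
        rw [Finset.mem_range] at hj ⊢
        omega
      · have h4 := HZ.sum_le_sup C (fun _ => 0) (fun _ => 1) (fun _ _ => one_pos) (fun x _ => by
          have h5 := C.sum_one x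
          rw [HZ.sum_nb x (fun z => C.p x z)] at h5
          simp only [Real.exp_zero, mul_one]
          exact h5.le) (2 * k + 2) (x := 1) one_pos
        simp only [mul_one, HZ.Kv_K0] at h4
        exact h4
    have h5 : ((k + 1 : ℕ) : ℝ) * K0 C (2 * k + 1) 1 ≤ ∑ j ∈ range (k + 1), K0 C (2 * j + 1) 1 := by
      have h6 : ∑ _j ∈ range (k + 1), K0 C (2 * k + 1) 1 ≤
          ∑ j ∈ range (k + 1), K0 C (2 * j + 1) 1 := by
        refine Finset.sum_le_sum fun j hj => ?_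
        have h7 := hanti (show j ≤ k by rw [Finset.mem_range] at hj; omega)
        simp only [HZ.Kv_K0] at h7
        exact h7
      rw [Finset.sum_const, Finset.card_range, nsmul_eq_mul] at h6
      exact h6
    push_cast at h5
    linarith
  rw [le_div_iff₀ (by positivity), mul_comm]
  exact h1

/-- return probabilities of even length are at most `4 / (2 n)` -/
theorem k0_le (C : Chain) {n : ℕ} (hn : 1 ≤ n) : K0 C (2 * n) 0 ≤ 4 / ((2 * n : ℕ) : ℝ) := by
  obtain ⟨k, rfl⟩ : ∃ k, n = k + 1 := ⟨n - 1, by omega⟩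
  have h1 : 2 * (k + 1) = (2 * k + 1) + 1 := by ring
  have h2 := fp_le C k
  have h3 := fp_le (HZ.cneg C) k
  have h4 : K0 (HZ.cneg C) (2 * k + 1) 1 = K0 C (2 * k + 1) (-1) := by
    have h5 := HZ.Kv_cneg C (fun _ => 0) (2 * k + 1) 1
    rw [HZ.Kv_K0, HZ.Kv_K0] at h5
    exact h5
  rw [h4] at h3
  have h5 : K0 C (2 * (k + 1)) 0 = C.p 0 1 * K0 C (2 * k + 1) 1 +
      C.p 0 (-1) * K0 C (2 * k + 1) (-1) := by
    rw [h1, ← HZ.Kv_K0, HZ.Kv_split C, HZ.Es_pos_n C _ _ (by omega), HZ.Es_neg,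
      Real.exp_zero, mul_one, mul_one, HZ.Kv_K0, HZ.Kv_K0]
  have h6 : C.p 0 1 * K0 C (2 * k + 1) 1 ≤ 1 / ((k : ℝ) + 1) :=
    (mul_le_of_le_one_left (MP_daa227_pr.K0_nonneg _ _ _) (MP_daa227_pr.Chain.p_le_one C 0 1)).trans
      h2
  have h7 : C.p 0 (-1) * K0 C (2 * k + 1) (-1) ≤ 1 / ((k : ℝ) + 1) :=
    (mul_le_of_le_one_left (MP_daa227_pr.K0_nonneg _ _ _)
      (MP_daa227_pr.Chain.p_le_one C 0 (-1))).trans h3
  rw [h5]
  have h8 : 4 / ((2 * (k + 1) : ℕ) : ℝ) = 1 / ((k : ℝ) + 1) + 1 / ((k : ℝ) + 1) := by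
    have h9 : (k : ℝ) + 1 ≠ 0 := by positivity
    push_cast
    field_simp
    norm_num
  rw [h8]
  linarith

end LowP

/-- exponent zero at `hc` gives it for all penalties (`K0 (2n) ≤ 2/n` and log-convexity) -/
theorem lowOne_of_pen (M : Mod) {hc : ℝ} (hc0 : 0 < hc)
    (hlow : ∀ ε : ℝ, 0 < ε → ∀ᶠ n : ℕ in atTop,
      ((2 * n : ℕ) : ℝ) ^ (-(1 + ε)) ≤ Kv M.C (fun z => -hc * M.φ z) (2 * n) 0) :
    M.LowOne := by
  intro η hη ε hε
  rcases le_or_gt η hc with hle | hgt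
  · filter_upwards [hlow ε hε] with n hn
    refine hn.trans (HZ.Kv_mono M.C (fun z => ?_) _ _)
    nlinarith [M.φ_nonneg z]
  · set t : ℝ := hc / η with ht
    have ht0 : 0 < t := div_pos hc0 hη
    have ht1 : t < 1 := by rwa [ht, div_lt_one hη]
    have hte : 0 < t * ε / 2 := by positivity
    have h1 := ((tendsto_rpow_atTop (show 0 < t * ε / 2 by positivity)).comp
      WPoly.cast_top).eventually_ge_atTop ((4 : ℝ) ^ (1 - t))
    filter_upwards [hlow (t * ε / 2) hte, h1, eventually_ge_atTop 1] with n hn hn1 hn2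
    have hN0 : (0 : ℝ) < ((2 * n : ℕ) : ℝ) := by
      exact_mod_cast (by omega : 0 < 2 * n)
    have hK := HZ.Kv_nonneg M.C (fun z => -η * M.φ z) (2 * n) 0
    have h2 := HZ.interp_K M.C (fun _ => 0) (fun z => -η * M.φ z) ht0.le ht1.le (2 * n) 0
    rw [HZ.Kv_K0] at h2
    have h3 : (fun z => (1 - t) * (0 : ℝ) + t * (-η * M.φ z)) = fun z => -hc * M.φ z := by
      funext z
      have : t * η = hc := by rw [ht]; field_simp
      linear_combination (-M.φ z) * this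
    rw [h3] at h2
    have h4 : K0 M.C (2 * n) 0 ^ (1 - t) ≤ (4 / ((2 * n : ℕ) : ℝ)) ^ (1 - t) :=
      Real.rpow_le_rpow (MP_daa227_pr.K0_nonneg _ _ _) (LowP.k0_le M.C hn2) (by linarith)
    have h5 := hn.trans (h2.trans (mul_le_mul_of_nonneg_right h4 (Real.rpow_nonneg hK t)))
    rw [Real.div_rpow (by norm_num) hN0.le] at h5
    have hn1' : (4 : ℝ) ^ (1 - t) ≤ ((2 * n : ℕ) : ℝ) ^ (t * ε / 2) := hn1
    have h6 : (4 : ℝ) ^ (1 - t) / ((2 * n : ℕ) : ℝ) ^ (1 - t) ≤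
        ((2 * n : ℕ) : ℝ) ^ (t * ε / 2 - (1 - t)) := by
      rw [Real.rpow_sub hN0 (t * ε / 2) (1 - t)]
      exact div_le_div_of_nonneg_right hn1' (Real.rpow_nonneg hN0.le _)
    have h7 := h5.trans (mul_le_mul_of_nonneg_right h6 (Real.rpow_nonneg hK t))
    have h8 : ((2 * n : ℕ) : ℝ) ^ (-(1 + ε) * t) ≤ Kv M.C (fun z => -η * M.φ z) (2 * n) 0 ^ t := by
      have h9 : 0 < ((2 * n : ℕ) : ℝ) ^ (t * ε / 2 - (1 - t)) := Real.rpow_pos_of_pos hN0 _
      rw [← div_le_iff₀' h9, ← Real.rpow_sub hN0] at h7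
      refine le_trans (le_of_eq ?_) h7
      congr 1
      ring
    rw [Real.rpow_mul hN0.le] at h8
    exact (Real.rpow_le_rpow_iff (Real.rpow_nonneg hN0.le _) hK ht0).1 h8

end

end Pool.Agent.HG
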