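import Pool.Agent.Lib.MP_daa227_pr_HG.PolyV

/-!
# MP_daa227_pr, general potentials: supersolutions
-/

namespace Pool.Agent.HG

open MeasureTheory ProbabilityTheory Finset Filter Topology
open MP_daa227_pr (Chain Zk Zf Gk Gf KU K0 Ren shift seqLaw ExpMom DepOn Good GoodW mom)
open Pool.Agent.HZ (Mod Kv lmg)
open Pool.Agent.IOrd (Sys aS cv)

noncomputable section

namespace VExt

theorem two_mul_le_log_sub {t : ℝ} (h0 : 0 ≤ t) (h1 : t < 1) :
    2 * t ≤ Real.log (1 + t) - Real.log (1 - t) := by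
  have h2 : |t| < 1 := by rwa [abs_of_nonneg h0]
  have h3 := Real.hasSum_log_sub_log_of_abs_lt_one h2
  have h4 := le_hasSum h3 0 (fun k _ => by positivity)
  norm_num at h4
  exact h4

theorem exp_add_exp (m u : ℝ) (_hm : 0 ≤ 1 + m) :
    2 * (1 + m) * (1 + u ^ 2 / 2) ≤ Real.exp (m - u) + Real.exp (m + u) := by
  have h1 : Real.exp (m - u) + Real.exp (m + u) = 2 * (Real.exp m * Real.cosh u) := by
    rw [Real.cosh_eq, sub_eq_add_neg, Real.exp_add, Real.exp_add]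
    ring
  have h2 : 1 + u ^ 2 / 2 ≤ Real.cosh u := by
    have h3 : Real.cosh u = 1 + 2 * Real.sinh (u / 2) ^ 2 := by
      have h4 := Real.cosh_two_mul (u / 2)
      have h5 := Real.cosh_sq (u / 2)
      have h6 : 2 * (u / 2) = u := by ring
      rw [h6] at h4
      linarith
    have h7 : (u / 2) ^ 2 ≤ Real.sinh (u / 2) ^ 2 := by
      rw [← sq_abs (u / 2), ← sq_abs (Real.sinh (u / 2)), Real.abs_sinh]
      exact pow_le_pow_left₀ (abs_nonneg _) (Real.self_le_sinh_iff.2 (abs_nonneg _)) 2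
    rw [h3]
    nlinarith
  have h8 : 1 + m ≤ Real.exp m := by
    have := Real.add_one_le_exp m
    linarith
  rw [h1, mul_assoc]
  have h9 : (1 + m) * (1 + u ^ 2 / 2) ≤ Real.exp m * Real.cosh u :=
    mul_le_mul h8 h2 (by positivity) (Real.exp_pos _).le
  linarith

theorem second_diff {t γ : ℝ} (h0 : 0 ≤ t) (h1 : t < 1) (hγ : 0 ≤ γ) :
    2 + γ * (γ + 1) * t ^ 2 ≤ (1 + t) ^ (-γ) + (1 - t) ^ (-γ) := by
  have hp : 0 < 1 + t := by linarith
  have hq : 0 < 1 - t := by linarith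
  have hu := two_mul_le_log_sub h0 h1
  set a := Real.log (1 + t) with ha
  set b := Real.log (1 - t) with hb
  have hm : a + b ≤ -t ^ 2 := by
    rw [ha, hb, ← Real.log_mul hp.ne' hq.ne']
    have := Real.log_le_sub_one_of_pos (mul_pos hp hq)
    nlinarith
  have h2 : (1 + t) ^ (-γ) = Real.exp (-(γ / 2) * (a + b) - (γ / 2) * (a - b)) := by
    rw [Real.rpow_def_of_pos hp, ← ha]
    congr 1
    ring
  have h3 : (1 - t) ^ (-γ) = Real.exp (-(γ / 2) * (a + b) + (γ / 2) * (a - b)) := by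
    rw [Real.rpow_def_of_pos hq, ← hb]
    congr 1
    ring
  have h4 : 0 ≤ γ / 2 := by linarith
  have h5 : γ / 2 * t ^ 2 ≤ -(γ / 2) * (a + b) := by
    have := mul_le_mul_of_nonneg_left hm h4
    linarith
  have h6 : γ * t ≤ γ / 2 * (a - b) := by
    have := mul_le_mul_of_nonneg_left hu h4
    linarith
  have h9 : 0 ≤ γ / 2 * t ^ 2 := by positivity
  have h7 := exp_add_exp (-(γ / 2) * (a + b)) (γ / 2 * (a - b)) (by linarith)
  rw [h2, h3]
  refine le_trans ?_ h7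
  have h8 : (γ * t) ^ 2 ≤ (γ / 2 * (a - b)) ^ 2 := pow_le_pow_left₀ (by positivity) h6 2
  have h10 : (1 + γ / 2 * t ^ 2) * (1 + (γ * t) ^ 2 / 2) ≤
      (1 + -(γ / 2) * (a + b)) * (1 + (γ / 2 * (a - b)) ^ 2 / 2) := by
    refine mul_le_mul (by linarith) (by linarith) (by positivity) (by linarith)
  have h11 : 0 ≤ γ / 2 * t ^ 2 * ((γ * t) ^ 2 / 2) := by positivity
  nlinarith

theorem first_diff {t γ : ℝ} (h0 : 0 ≤ t) (h1 : t ≤ 1 / 2) (hγ : 0 ≤ γ) (hγ1 : γ ≤ 1) :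
    (1 - t) ^ (-γ) - (1 + t) ^ (-γ) ≤ 2 * γ * t + 2 * γ * t ^ 2 := by
  have hp : 0 < 1 + t := by linarith
  have hq : 0 < 1 - t := by linarith
  have h2 : (1 - t) ^ (-γ) ≤ 1 + γ * (t + 2 * t ^ 2) := by
    have h3 : (1 - t) ^ (-γ) = ((1 - t)⁻¹) ^ γ := by
      rw [Real.rpow_neg hq.le, Real.inv_rpow hq.le]
    have h4 : (1 - t)⁻¹ ≤ 1 + (t + 2 * t ^ 2) := by
      rw [inv_le_iff_one_le_mul₀ hq]
      nlinarith [mul_nonneg (sq_nonneg t) (by linarith : (0 : ℝ) ≤ 1 - 2 * t)]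
    rw [h3]
    refine (Real.rpow_le_rpow (inv_nonneg.2 hq.le) h4 hγ).trans ?_
    exact rpow_one_add_le_one_add_mul_self (by nlinarith) hγ hγ1
  have h5 : 1 - γ * t ≤ (1 + t) ^ (-γ) := by
    have h6 : (1 + t) ^ γ ≤ 1 + γ * t := rpow_one_add_le_one_add_mul_self (by linarith) hγ hγ1
    have h7 : 0 < (1 + t) ^ γ := Real.rpow_pos_of_pos hp _
    rw [Real.rpow_neg hp.le, ← one_div, le_div_iff₀ h7]
    have h8 : 0 ≤ γ * t := mul_nonneg hγ h0
    rcases le_total (1 - γ * t) 0 with h9 | h9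
    · nlinarith
    · nlinarith [mul_le_mul_of_nonneg_left h6 h9]
  nlinarith

theorem key {t γ : ℝ} (h0 : 0 ≤ t) (h1 : t ≤ 1 / 2) (hγ : 0 ≤ γ) (hγ1 : γ ≤ 1)
    (ht : 2 * t ≤ γ) :
    γ ^ 2 / 4 * t ^ 2 ≤ ((1 + t) ^ (-γ) + (1 - t) ^ (-γ) - 2) / 2 -
      t / 4 * ((1 - t) ^ (-γ) - (1 + t) ^ (-γ)) := by
  have h2 := second_diff h0 (by linarith) hγ
  have h3 := mul_le_mul_of_nonneg_left (first_diff h0 h1 hγ hγ1) (by linarith : 0 ≤ t / 4)
  have h4 : 0 ≤ γ * t ^ 2 * (γ / 4 - t / 2) :=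
    mul_nonneg (by positivity) (by linarith)
  nlinarith

theorem first_nonneg {t γ : ℝ} (h0 : 0 ≤ t) (h1 : t ≤ 1 / 2) (hγ : 0 ≤ γ) :
    0 ≤ (1 - t) ^ (-γ) - (1 + t) ^ (-γ) := by
  have := Real.rpow_le_rpow_of_nonpos (by linarith : 0 < 1 - t) (by linarith : 1 - t ≤ 1 + t)
    (by linarith : -γ ≤ 0)
  linarith

/-- downward recursion -/
def g (C : Chain) (φ : ℤ → ℝ) (r : ℤ) (V : ℤ → ℝ) : ℕ → ℝ × ℝ
  | 0 => (V (r - 1), V r)
  | k + 1 => (((g C φ r V k).1 - φ (r - 1 - k) - C.p (r - 1 - k) (r - 1 - k) * (g C φ r V k).1 -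
      C.p (r - 1 - k) (r - 1 - k + 1) * (g C φ r V k).2) / C.p (r - 1 - k) (r - 1 - k - 1),
      (g C φ r V k).1)

/-- the extension -/
def W (C : Chain) (φ : ℤ → ℝ) (r : ℤ) (V : ℤ → ℝ) (x : ℤ) : ℝ :=
  if r - 1 ≤ x then V x else (g C φ r V (r - 1 - x).toNat).1

theorem W_high (C : Chain) (φ : ℤ → ℝ) (r : ℤ) (V : ℤ → ℝ) {x : ℤ} (h : r - 1 ≤ x) :
    W C φ r V x = V x := if_pos h

theorem W_low (C : Chain) (φ : ℤ → ℝ) (r : ℤ) (V : ℤ → ℝ) (k : ℕ) :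
    W C φ r V (r - 1 - k) = (g C φ r V k).1 := by
  unfold W
  split_ifs with h
  · have hk : k = 0 := by omega
    subst hk
    simp [g]
  · congr 2
    omega

theorem W_low2 (C : Chain) (φ : ℤ → ℝ) (r : ℤ) (V : ℤ → ℝ) (k : ℕ) :
    W C φ r V (r - 1 - k + 1) = (g C φ r V k).2 := by
  rcases k with _ | k
  · rw [W_high _ _ _ _ (by push_cast; omega)]
    simp [g]
  · have h : r - 1 - ((k + 1 : ℕ) : ℤ) + 1 = r - 1 - k := by
      push_cast
      ring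
    rw [h, W_low]
    simp [g]

theorem W_eq (C : Chain) (φ : ℤ → ℝ) (r : ℤ) (V : ℤ → ℝ) {x : ℤ} (h : x < r) :
    φ x + (C.p x (x - 1) * W C φ r V (x - 1) + C.p x x * W C φ r V x +
      C.p x (x + 1) * W C φ r V (x + 1)) = W C φ r V x := by
  obtain ⟨k, hk⟩ : ∃ k : ℕ, x = r - 1 - k := ⟨(r - 1 - x).toNat, by omega⟩
  subst hk
  have h1 : r - 1 - (k : ℤ) - 1 = r - 1 - ((k + 1 : ℕ) : ℤ) := by
    push_cast
    ring
  rw [W_low2, W_low]
  have h2 : W C φ r V (r - 1 - k - 1) = (g C φ r V (k + 1)).1 := by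
    rw [h1, W_low]
  rw [h2]
  have h3 := (C.down (r - 1 - k)).ne'
  simp only [g]
  rw [mul_div_cancel₀ _ h3]
  ring

theorem sum_three (C : Chain) (x : ℤ) :
    C.p x (x - 1) + C.p x x + C.p x (x + 1) = 1 := by
  have h1 := C.sum_one x
  rw [HZ.sum_nb x (fun y => C.p x y)] at h1
  linarith

end VExt

/-- A supersolution far away extends. Extend `W = V` below `r - 1` by the downward recursion
`W (x - 1) = (W x - φ x - p(x, x) W x - p(x, x+1) W (x + 1)) / p(x, x-1)` for `x ≤ r - 1` (equality in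
the inequality) and add a constant `D` with `W + D ≥ 0` on `[0, r]` (constants are harmonic). -/
theorem v_extend (C : Chain) {φ : ℤ → ℝ} (r : ℤ) (V : ℤ → ℝ) (K : ℝ)
    (h1 : ∀ x : ℤ, r - 1 ≤ x → 0 ≤ V x ∧ V x ≤ K)
    (h2 : ∀ x : ℤ, r ≤ x → φ x + (C.p x (x - 1) * V (x - 1) + C.p x x * V x +
      C.p x (x + 1) * V (x + 1)) ≤ V x) :
    VR C φ := by
  set D : ℝ := ∑ x ∈ Finset.Icc (0 : ℤ) r, |VExt.W C φ r V x| with hD
  have hD0 : 0 ≤ D := Finset.sum_nonneg (fun _ _ => abs_nonneg _)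
  have hK : 0 ≤ K := (h1 r (by omega)).1.trans (h1 r (by omega)).2
  refine ⟨fun x => VExt.W C φ r V x + D, K + 2 * D, fun x hx => ?_, fun x hx => ?_⟩
  · rcases le_or_gt (r - 1) x with h | h
    · have h3 := h1 x h
      show 0 ≤ VExt.W C φ r V x + D ∧ VExt.W C φ r V x + D ≤ K + 2 * D
      rw [VExt.W_high _ _ _ _ h]
      exact ⟨by linarith [h3.1], by linarith [h3.2]⟩
    · have h3 : |VExt.W C φ r V x| ≤ D :=
        Finset.single_le_sum (f := fun x => |VExt.W C φ r V x|) (fun _ _ => abs_nonneg _)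
          (Finset.mem_Icc.2 ⟨hx, by omega⟩)
      have h4 := abs_le.1 h3
      exact ⟨by linarith [h4.1], by linarith [h4.2]⟩
  · have h3 := VExt.sum_three C x
    have h4 : φ x + (C.p x (x - 1) * VExt.W C φ r V (x - 1) + C.p x x * VExt.W C φ r V x +
        C.p x (x + 1) * VExt.W C φ r V (x + 1)) ≤ VExt.W C φ r V x := by
      rcases lt_or_ge x r with h | h
      · exact (VExt.W_eq C φ r V h).le
      · rw [VExt.W_high _ _ _ _ (by omega : r - 1 ≤ x - 1),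
          VExt.W_high _ _ _ _ (by omega : r - 1 ≤ x + 1),
          VExt.W_high _ _ _ _ (by omega : r - 1 ≤ x)]
        exact h2 x h
    have h5 : C.p x (x - 1) * D + C.p x x * D + C.p x (x + 1) * D = D := by
      rw [← add_mul, ← add_mul, h3, one_mul]
    dsimp only
    linarith [mul_add (C.p x (x - 1)) (VExt.W C φ r V (x - 1)) D,
      mul_add (C.p x x) (VExt.W C φ r V x) D,
      mul_add (C.p x (x + 1)) (VExt.W C φ r V (x + 1)) D]

/-- `V = 0` far away -/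
theorem v_finite (C : Chain) {φ : ℤ → ℝ} {R : ℤ}
    (h : ∀ x : ℤ, R ≤ x → φ x = 0) : VR C φ := by
  refine v_extend C R (fun _ => 0) 0 (fun _ _ => ⟨le_rfl, le_rfl⟩) (fun x hx => ?_)
  simp [h x hx]

namespace VExt

theorem bessel_step {γ b p q x φx c : ℝ} (hγ : 0 < γ) (hγ1 : γ ≤ 1) (hc : 0 ≤ c) (hx : 2 ≤ x)
    (hx2 : 2 ≤ γ * x) (hpq : p + q = 1) (hb : q - p = b) (hb1 : b ≤ 1 / (2 * x))
    (hφ : φx ≤ c * x ^ (-γ - 2)) :
    φx + (p * (4 * c / γ ^ 2 * (2 - (x - 1) ^ (-γ))) + q * (4 * c / γ ^ 2 * (2 - (x + 1) ^ (-γ)))) ≤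
      4 * c / γ ^ 2 * (2 - x ^ (-γ)) := by
  have hx0 : 0 < x := by linarith
  set t : ℝ := 1 / x with ht
  have htx : t * x = 1 := by
    rw [ht]
    field_simp
  have ht0 : 0 ≤ t := by positivity
  have ht1 : t ≤ 1 / 2 := by
    rw [ht]
    exact one_div_le_one_div_of_le two_pos hx
  have ht2 : 2 * t ≤ γ := by
    have h1 := mul_le_mul_of_nonneg_right hx2 ht0
    have h2 : γ * x * t = γ := by
      rw [mul_assoc, mul_comm x t, htx, mul_one]
    linarith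
  have hk := key ht0 ht1 hγ.le hγ1 ht2
  have hf := first_nonneg ht0 ht1 hγ.le
  have hX : 0 < x ^ (-γ) := Real.rpow_pos_of_pos hx0 _
  have e1 : (x - 1) ^ (-γ) = x ^ (-γ) * (1 - t) ^ (-γ) := by
    rw [← Real.mul_rpow hx0.le (by linarith)]
    congr 1
    rw [mul_sub, mul_one, mul_comm x t, htx]
  have e2 : (x + 1) ^ (-γ) = x ^ (-γ) * (1 + t) ^ (-γ) := by
    rw [← Real.mul_rpow hx0.le (by linarith)]
    congr 1
    rw [mul_add, mul_one, mul_comm x t, htx]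
  have e3 : x ^ (-γ - 2) = x ^ (-γ) * t ^ 2 := by
    rw [Real.rpow_sub hx0, ht, Real.rpow_two]
    field_simp
  have hb2 : b ≤ t / 2 := by
    refine hb1.trans (le_of_eq ?_)
    rw [ht]
    field_simp
  set A : ℝ := (1 - t) ^ (-γ) with hA
  set B : ℝ := (1 + t) ^ (-γ) with hB
  set X : ℝ := x ^ (-γ) with hXd
  have hp : p = (1 - b) / 2 := by linarith
  have hq : q = (1 + b) / 2 := by linarith
  have h3 : γ ^ 2 / 4 * t ^ 2 ≤ p * A + q * B - 1 := by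
    have h4 := mul_le_mul_of_nonneg_right hb2 hf
    rw [hp, hq]
    nlinarith
  have hγ2 : 0 < γ ^ 2 := by positivity
  have h5 : c * (X * t ^ 2) ≤ 4 * c / γ ^ 2 * (X * (p * A + q * B - 1)) := by
    have h6 := mul_le_mul_of_nonneg_left (mul_le_mul_of_nonneg_left h3 hX.le)
      (by positivity : 0 ≤ 4 * c / γ ^ 2)
    refine le_trans (le_of_eq ?_) h6
    field_simp
  rw [e3] at hφ
  rw [e1, e2]
  have h7 : 4 * c / γ ^ 2 * (2 - X) - (p * (4 * c / γ ^ 2 * (2 - X * A)) +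
      q * (4 * c / γ ^ 2 * (2 - X * B))) =
      4 * c / γ ^ 2 * (X * (p * A + q * B - 1)) + 4 * c / γ ^ 2 * 2 * (1 - (p + q)) := by
    ring
  rw [hpq] at h7
  linarith

/-- with holding -/
theorem bessel_hold {γ p q r x φx c : ℝ} (hγ : 0 < γ) (hγ1 : γ ≤ 1) (hc : 0 ≤ c) (hx : 2 ≤ x)
    (hx2 : 2 ≤ γ * x) (hq0 : 0 < q + p) (hpq : p + r + q = 1)
    (hb1 : q - p ≤ (q + p) / (2 * x)) (hφ : φx ≤ (q + p) * (c * x ^ (-γ - 2))) :
    φx + (p * (4 * c / γ ^ 2 * (2 - (x - 1) ^ (-γ))) + r * (4 * c / γ ^ 2 * (2 - x ^ (-γ))) +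
      q * (4 * c / γ ^ 2 * (2 - (x + 1) ^ (-γ)))) ≤ 4 * c / γ ^ 2 * (2 - x ^ (-γ)) := by
  have hx0 : 0 < x := by linarith
  have h1 := bessel_step (b := (q - p) / (q + p)) (p := p / (q + p)) (q := q / (q + p))
    (φx := φx / (q + p)) hγ hγ1 hc hx hx2 (by field_simp; ring) (by ring)
    (by
      rw [div_le_iff₀ hq0]
      refine hb1.trans (le_of_eq ?_)
      ring)
    (by
      rw [div_le_iff₀ hq0, mul_comm]
      exact hφ)
  have h2 := mul_le_mul_of_nonneg_left h1 hq0.le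
  have h3 : (q + p) * (φx / (q + p) + (p / (q + p) * (4 * c / γ ^ 2 * (2 - (x - 1) ^ (-γ))) +
      q / (q + p) * (4 * c / γ ^ 2 * (2 - (x + 1) ^ (-γ))))) =
      φx + (p * (4 * c / γ ^ 2 * (2 - (x - 1) ^ (-γ))) +
        q * (4 * c / γ ^ 2 * (2 - (x + 1) ^ (-γ)))) := by
    field_simp
  rw [h3] at h2
  have h4 : (q + p) = 1 - r := by linarith
  rw [h4] at h2
  linarith

end VExt

/-- `f x = x ^ (-γ)`, `γ = min (θ - 2) 1`: with `b = p(x, x+1) - p(x, x-1)`,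
`p f (x) - f x = (f (x+1) + f (x-1) - 2 f x) / 2 - (b / 2) (f (x-1) - f (x+1))`,
`f (x+1) + f (x-1) - 2 f x ≥ γ (γ + 1) x ^ (-γ-2)`,
`0 ≤ f (x-1) - f (x+1) ≤ 2 γ x ^ (-γ-1) (1 + 20 / x ^ 2)` for `x ≥ 2`, so for `b ≤ 1 / (2 x)` and large
`x` it is at least `(γ ^ 2 / 4) x ^ (-γ-2)`. `V x = (4 c / γ ^ 2) (2 - f x)` and `v_extend`. -/
theorem v_bessel (C : Chain) {φ : ℤ → ℝ} {R : ℤ} {c θ : ℝ} (hc : 0 ≤ c)
    (hθ : 2 < θ) (h : ∀ x : ℤ, R ≤ x → 0 < x →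
      φ x ≤ (C.p x (x + 1) + C.p x (x - 1)) * (c * (x : ℝ) ^ (-θ)) ∧
      C.p x (x + 1) - C.p x (x - 1) ≤ (C.p x (x + 1) + C.p x (x - 1)) / (2 * x)) : VR C φ := by
  set γ : ℝ := min (θ - 2) 1 with hγd
  have hγ : 0 < γ := lt_min (by linarith) one_pos
  have hγ1 : γ ≤ 1 := min_le_right _ _
  have hγθ : γ + 2 ≤ θ := by
    have := min_le_left (θ - 2) (1 : ℝ)
    linarith
  obtain ⟨n, hn⟩ := exists_nat_gt (2 / γ)
  set r : ℤ := max R (max 2 (n : ℤ)) with hr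
  have hrR : R ≤ r := le_max_left _ _
  have hr2 : (2 : ℤ) ≤ r := (le_max_left _ _).trans (le_max_right _ _)
  have hrn : (n : ℤ) ≤ r := (le_max_right _ _).trans (le_max_right _ _)
  refine v_extend C r (fun x => 4 * c / γ ^ 2 * (2 - (x : ℝ) ^ (-γ))) (8 * c / γ ^ 2)
    (fun x hx => ?_) (fun x hx => ?_)
  · have hx1 : (1 : ℝ) ≤ (x : ℝ) := by
      have : (1 : ℤ) ≤ x := by omega
      exact_mod_cast this
    have h3 : (x : ℝ) ^ (-γ) ≤ 1 := Real.rpow_le_one_of_one_le_of_nonpos hx1 (by linarith)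
    have h4 : 0 < (x : ℝ) ^ (-γ) := Real.rpow_pos_of_pos (by linarith) _
    have h5 : 0 ≤ 4 * c / γ ^ 2 := by positivity
    constructor
    · exact mul_nonneg h5 (by linarith)
    · have h6 := mul_le_mul_of_nonneg_left (by linarith : 2 - (x : ℝ) ^ (-γ) ≤ 2) h5
      refine h6.trans (le_of_eq ?_)
      ring
  · have hx2 : (2 : ℝ) ≤ (x : ℝ) := by
      have : (2 : ℤ) ≤ x := by omega
      exact_mod_cast this
    have hxn : (n : ℝ) ≤ (x : ℝ) := by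
      have : (n : ℤ) ≤ x := by omega
      exact_mod_cast this
    have hx3 : 2 ≤ γ * (x : ℝ) := by
      have h3 : 2 / γ < (x : ℝ) := lt_of_lt_of_le hn hxn
      rw [div_lt_iff₀ hγ] at h3
      linarith
    obtain ⟨h4, h5⟩ := h x (by omega) (by omega)
    have hs : 0 < C.p x (x + 1) + C.p x (x - 1) := add_pos (C.up x) (C.down x)
    have h6 : φ x ≤ (C.p x (x + 1) + C.p x (x - 1)) * (c * (x : ℝ) ^ (-γ - 2)) := by
      refine h4.trans (mul_le_mul_of_nonneg_left (mul_le_mul_of_nonneg_left ?_ hc) hs.le)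
      exact Real.rpow_le_rpow_of_exponent_le (by linarith) (by linarith)
    have h7 := VExt.bessel_hold (p := C.p x (x - 1)) (q := C.p x (x + 1)) (r := C.p x x) hγ hγ1
      hc hx2 hx3 hs (VExt.sum_three C x) h5 h6
    have c1 : (((x - 1 : ℤ)) : ℝ) = (x : ℝ) - 1 := by push_cast; ring
    have c2 : (((x + 1 : ℤ)) : ℝ) = (x : ℝ) + 1 := by push_cast; ring
    show φ x + (C.p x (x - 1) * (4 * c / γ ^ 2 * (2 - (((x - 1 : ℤ)) : ℝ) ^ (-γ))) +
      C.p x x * (4 * c / γ ^ 2 * (2 - (x : ℝ) ^ (-γ))) +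
      C.p x (x + 1) * (4 * c / γ ^ 2 * (2 - (((x + 1 : ℤ)) : ℝ) ^ (-γ)))) ≤ _
    rw [c1, c2]
    exact h7

end

end Pool.Agent.HG
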