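import Pool.Agent.Lib.MP_daa227_pr_HG.Defs
import Pool.Agent.Lib.MP_daa227_pr_HZ.MinSol
import Pool.Agent.Lib.MP_daa227_pr_HZ.Pert
import Pool.Agent.Lib.MP_daa227_pr_HZ.MomId

/-!
# MP_daa227_pr, general potentials: bounded kernels with exponents positive far away
-/

namespace Pool.Agent.HG

open MeasureTheory ProbabilityTheory Finset Filter Topology
open MP_daa227_pr (Chain Zk Zf Gk Gf KU K0 Ren shift seqLaw ExpMom DepOn Good GoodW mom)
open Pool.Agent.HZ (Mod Kv lmg)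
open Pool.Agent.IOrd (Sys aS cv)

noncomputable section

/-- `w₁ = w - c / 2`: `Kv w₁ n = exp (-c n / 2) Kv w n` (`Kv_add_const` of AZ/MomId), so
`C.p 0 1 * exp (w₁ 1) * Kv w₁ n 1 ≤ Kv w₁ (n + 1) 0 ≤ K exp (-c (n + 1) / 2)` (`HZ.Kv_succ`)
is summable. `HZ.min_sol`: a positive supersolution `g` for `w₁`; for `x > R` it is one for the
constant exponent `c / 2`. `HZ.pert` with `v = 0`, `ζ = 1`, `f₀ = 1`, `b = R`, `ε₁ = c / 2` gives
`ε > 0` and a positive supersolution for the constant exponent `ε` on `x > 0`; `HZ.sum_le_sup` at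
`x = 1` and `Kv (ε) n 1 = exp (ε n) K0 n 1`. -/
theorem kv_right (C : Chain) {w : ℤ → ℝ} {c K : ℝ} (hc : 0 < c) {R : ℤ} (hR : 0 ≤ R)
    (hw : ∀ z : ℤ, R ≤ z → c ≤ w z) (hb : ∀ n : ℕ, Kv C w n 0 ≤ K) :
    ∃ ε : ℝ, 0 < ε ∧ ∃ K' : ℝ, ∀ n : ℕ, K0 C n 1 ≤ K' * Real.exp (-(ε * n)) := by
  have hp : 0 < C.p 0 1 := by
    have h := C.up 0
    rwa [zero_add] at h
  have hK : 0 ≤ K := (HZ.Kv_nonneg C w 0 0).trans (hb 0)
  set w₁ : ℤ → ℝ := fun z => w z + (-(c / 2)) with hw₁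
  have hw1 : ∀ (n : ℕ) (x : ℤ), Kv C w₁ n x = Real.exp (n * (-(c / 2))) * Kv C w n x :=
    fun n x => HZ.A3.Kv_add_const C w (-(c / 2)) n x
  set D : ℝ := C.p 0 1 * Real.exp (w₁ 1) with hD
  have hDpos : 0 < D := mul_pos hp (Real.exp_pos _)
  set r : ℝ := Real.exp (-(c / 2)) with hr
  have hr0 : 0 ≤ r := (Real.exp_pos _).le
  have hr1 : r < 1 := by
    rw [hr, Real.exp_lt_one_iff]
    linarith
  have hstep : ∀ n : ℕ, Kv C w₁ n 1 ≤ K / D * r ^ n := by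
    intro n
    have h1 : D * Kv C w₁ n 1 ≤ Kv C w₁ (n + 1) 0 := by
      rw [HZ.Kv_succ, HZ.nb_zero, Finset.sum_pair (by norm_num)]
      have ha : 0 ≤ (if n = 0 then C.p 0 0 * Real.exp (w₁ 0) else 0) := by
        split_ifs
        · exact mul_nonneg (C.nonneg _ _) (Real.exp_pos _).le
        · exact le_rfl
      have hb' : 0 ≤ C.p 0 (-1) * Real.exp (w₁ (-1)) * Kv C w₁ n (-1) :=
        mul_nonneg (mul_nonneg (C.nonneg _ _) (Real.exp_pos _).le) (HZ.Kv_nonneg C w₁ n _)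
      linarith
    have h2 : Kv C w₁ (n + 1) 0 ≤ K * r ^ n := by
      rw [hw1]
      have h3 : Real.exp (((n + 1 : ℕ) : ℝ) * (-(c / 2))) ≤ r ^ n := by
        rw [hr, ← Real.exp_nat_mul]
        apply Real.exp_le_exp.2
        push_cast
        nlinarith
      calc Real.exp (((n + 1 : ℕ) : ℝ) * (-(c / 2))) * Kv C w (n + 1) 0
          ≤ r ^ n * K := mul_le_mul h3 (hb _) (HZ.Kv_nonneg C w _ _) (pow_nonneg hr0 _)
        _ = K * r ^ n := mul_comm _ _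
    rw [div_mul_eq_mul_div, le_div_iff₀ hDpos, mul_comm]
    exact h1.trans h2
  have hB : ∀ N : ℕ, ∑ n ∈ Finset.range N, Kv C w₁ n 1 ≤ K / D * ∑' n : ℕ, r ^ n := by
    intro N
    calc ∑ n ∈ Finset.range N, Kv C w₁ n 1 ≤ ∑ n ∈ Finset.range N, K / D * r ^ n :=
          Finset.sum_le_sum fun n _ => hstep n
      _ = K / D * ∑ n ∈ Finset.range N, r ^ n := by rw [Finset.mul_sum]
      _ ≤ K / D * ∑' n : ℕ, r ^ n := by
          apply mul_le_mul_of_nonneg_left _ (div_nonneg hK hDpos.le)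
          exact (summable_geometric_of_lt_one hr0 hr1).sum_le_tsum _
            fun n _ => pow_nonneg hr0 n
  obtain ⟨g, hg, hsg⟩ := HZ.min_sol C w₁ hB
  have hs0 : HZ.Ssol C (fun _ => (0 : ℝ)) 0 (fun _ => (1 : ℝ)) := by
    intro x _
    simp only [Real.exp_zero, mul_one]
    rw [← HZ.sum_nb x (fun y => C.p x y), C.sum_one]
  have hsg' : HZ.Ssol C (fun _ => (0 : ℝ) + c / 2 * 1) R g := by
    intro x hx
    refine le_trans ?_ (hsg x (by omega))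
    have hm : ∀ z : ℤ, R ≤ z → C.p x z * Real.exp (0 + c / 2 * 1) * g z ≤
        C.p x z * Real.exp (w₁ z) * g z := by
      intro z hz
      apply mul_le_mul_of_nonneg_right _ (hg z (by omega)).le
      apply mul_le_mul_of_nonneg_left _ (C.nonneg _ _)
      apply Real.exp_le_exp.2
      have := hw z hz
      rw [hw₁]
      dsimp only
      linarith
    have e1 := hm (x - 1) (by omega)
    have e2 := hm x (by omega)
    have e3 := hm (x + 1) (by omega)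
    linarith
  obtain ⟨ε, hε, -, f, hf, hsf⟩ := HZ.pert C (fun _ => 0) (fun _ => 1) (fun _ => 1) g R hR
    (fun _ _ => one_pos) hs0 (half_pos hc) (fun x hx => hg x (by omega)) hsg'
  refine ⟨ε, hε, f 1 / f 0, fun n => ?_⟩
  have h1 := HZ.sum_le_sup C _ f hf hsf (n + 1) (x := 1) one_pos
  have h2 : Kv C (fun z => (fun _ : ℤ => (0 : ℝ)) z + ε * (fun _ : ℤ => (1 : ℝ)) z) n 1 ≤
      ∑ k ∈ Finset.range (n + 1),
        Kv C (fun z => (fun _ : ℤ => (0 : ℝ)) z + ε * (fun _ : ℤ => (1 : ℝ)) z) k 1 :=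
    Finset.single_le_sum (f := fun k =>
        Kv C (fun z => (fun _ : ℤ => (0 : ℝ)) z + ε * (fun _ : ℤ => (1 : ℝ)) z) k 1)
      (fun k _ => HZ.Kv_nonneg C _ k 1) (Finset.mem_range.2 (Nat.lt_succ_self n))
  have h3 : Kv C (fun z => (fun _ : ℤ => (0 : ℝ)) z + ε * (fun _ : ℤ => (1 : ℝ)) z) n 1 =
      Real.exp (n * (ε * 1)) * K0 C n 1 := by
    rw [← HZ.Kv_K0]
    exact HZ.A3.Kv_add_const C (fun _ => 0) (ε * 1) n 1
  have hf0 := hf 0 le_rfl
  have h4 : Real.exp (n * (ε * 1)) * K0 C n 1 * f 0 ≤ f 1 := by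
    rw [← h3]
    exact (mul_le_mul_of_nonneg_right h2 hf0.le).trans h1
  rw [Real.exp_neg, ← div_eq_mul_inv, le_div_iff₀ (Real.exp_pos _), le_div_iff₀ hf0]
  have h5 : (n : ℝ) * (ε * 1) = ε * n := by ring
  rw [h5] at h4
  linarith

/-- reflection (`HZ.cneg`, `HZ.Kv_cneg`, `HZ.Kv_K0`) -/
theorem kv_left (C : Chain) {w : ℤ → ℝ} {c K : ℝ} (hc : 0 < c) {R : ℤ} (hR : 0 ≤ R)
    (hw : ∀ z : ℤ, z ≤ -R → c ≤ w z) (hb : ∀ n : ℕ, Kv C w n 0 ≤ K) :
    ∃ ε : ℝ, 0 < ε ∧ ∃ K' : ℝ, ∀ n : ℕ, K0 C n (-1) ≤ K' * Real.exp (-(ε * n)) := by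
  obtain ⟨ε, hε, K', h⟩ := kv_right (HZ.cneg C) (w := fun z => w (-z)) hc hR
    (fun z hz => hw (-z) (by omega)) (K := K) (fun n => by
      rw [HZ.Kv_cneg, neg_zero]
      exact hb n)
  refine ⟨ε, hε, K', fun n => ?_⟩
  have h1 := h n
  rw [← HZ.Kv_K0] at h1 ⊢
  have h2 := HZ.Kv_cneg C (fun _ => (0 : ℝ)) n 1
  rw [h2] at h1
  exact h1

end

end Pool.Agent.HG
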