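import Pool.Agent.Lib.MP_daa227_pr_HG.KvB
import Pool.Agent.Lib.MP_daa227_pr_HG.Unb
import Pool.Agent.Lib.MP_daa227_pr_HZ.MinSol
import Pool.Agent.Lib.MP_daa227_pr_HZ.Pert
import Pool.Agent.Lib.MP_daa227_pr_HZ.Upper

/-!
# MP_daa227_pr, order: exponential decay of the annealed excursions to the left
-/

namespace Pool.Agent.HG

open MeasureTheory ProbabilityTheory Finset Filter Topology
open MP_daa227_pr (Chain Zk Zf Gk Gf KU K0 Ren shift seqLaw ExpMom DepOn Good GoodW mom)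
open Pool.Agent.HZ (Mod Kv lmg)
open Pool.Agent.IOrd (Sys aS cv)

noncomputable section

/-- Half line version (to the right; apply it to the reflected chain). The two kernels have bounded
sums at `1`, `w' ≥ v + ε₁` beyond `b`: `HZ.min_sol` for `v` and for `w'`; the second function is a
supersolution for `v + ε₁` on `x > b + 1` (the sites `x - 1, x, x + 1` are `≥ b`); `HZ.pert` with
`ζ = 1`; `HZ.sum_le_sup`. -/
theorem half_dec (C : Chain) (v w' : ℤ → ℝ) {B B' ε₁ : ℝ} {b : ℤ} (hb : 0 ≤ b) (hε : 0 < ε₁)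
    (h1 : ∀ N : ℕ, ∑ n ∈ range N, Kv C v n 1 ≤ B)
    (h2 : ∀ N : ℕ, ∑ n ∈ range N, Kv C w' n 1 ≤ B') (h3 : ∀ z : ℤ, b ≤ z → v z + ε₁ ≤ w' z) :
    ∃ ε : ℝ, 0 < ε ∧ ∃ B'' : ℝ, ∀ N : ℕ, ∑ n ∈ range N, Kv C (fun z => v z + ε) n 1 ≤ B'' := by
  obtain ⟨f₀, hf₀, hs₀⟩ := HZ.min_sol C v h1
  obtain ⟨g, hg, hsg⟩ := HZ.min_sol C w' h2
  have hsg' : HZ.Ssol C (fun z => v z + ε₁ * (fun _ : ℤ => (1 : ℝ)) z) b g := by
    intro x hx
    refine le_trans ?_ (hsg x (by omega))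
    have hterm : ∀ z : ℤ, b ≤ z → C.p x z * Real.exp (v z + ε₁ * (fun _ : ℤ => (1 : ℝ)) z) * g z ≤
        C.p x z * Real.exp (w' z) * g z := by
      intro z hz
      refine mul_le_mul_of_nonneg_right (mul_le_mul_of_nonneg_left ?_ (C.nonneg _ _))
        (hg z (by omega)).le
      refine Real.exp_le_exp.2 ?_
      have h4 := h3 z hz
      linarith
    exact add_le_add (add_le_add (hterm _ (by omega)) (hterm _ (by omega))) (hterm _ (by omega))
  obtain ⟨ε, hε0, -, f, hf, hs⟩ := HZ.pert C v (fun _ => 1) f₀ g b hb hf₀ hs₀ hε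
    (fun x hx => hg x (by omega)) hsg'
  refine ⟨ε, hε0, f 1 / f 0, fun N => ?_⟩
  rw [le_div_iff₀ (hf 0 le_rfl)]
  have h5 := HZ.sum_le_sup C _ f hf hs N (x := 1) (by norm_num)
  simpa only [mul_one] using h5

/-- `w z = lmg (β φ z + lam) - hc φ z - lmg (q lam) / q - κ` with `q = p / (p - 1)`,
`lam = β ℓ (p - 1)`, so `q lam = p β ℓ`, and `κ` a third of `lmg (p β ℓ) / p - lmg (β ℓ) > 0`
(`lmg_strict`). `kv_bdd`: `Kv w n 0 ≤ exp (-κ n) K'` (`HZ.A3.Kv_add_const` or the like) is summable.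
For `z → -∞`: `w z → lmg (p β ℓ) / p - hc ℓ - κ` and `M.v hc z → lmg (β ℓ) - hc ℓ` (`HZ.lmg_cont`), so
`w z ≥ M.v hc z + κ` for `z ≤ -b`. `half_dec` for the reflected chain `HZ.cneg M.C` (`HZ.Kv_cneg`;
`HZ.Upper.sum_split`, `HZ.Upper.kv_bound`; compare `HZ.far_sum_neg`). -/
theorem left_dec (M : Mod) (hℓ : 0 < M.ℓ) {hc p q K : ℝ} (hpq : p.HolderConjugate q) (hK : 0 ≤ K)
    (hb : ∀ n : ℕ, mom M.μ p (fun ω => M.Z hc (2 * n) ω) ≤ ENNReal.ofReal K)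
    (hg : ∀ N : ℕ, ∑ n ∈ range N, M.g hc n ≤ 1) :
    ∃ ε : ℝ, 0 < ε ∧ ∃ B : ℝ, ∀ N : ℕ, ∑ n ∈ range N, Kv M.C (fun z => M.v hc z + ε) n (-1) ≤ B := by
  have hp1 : 1 < p := hpq.lt
  have hp0 : 0 < p := by linarith
  obtain ⟨K', hK', hb'⟩ := mom_all M hp0 hb
  have hq0 : 0 < q := hpq.symm.pos
  have hpq1 : p⁻¹ + q⁻¹ = 1 := hpq.inv_add_inv_eq_one
  have hqp : q * (p - 1) = p := by
    have h1 : p * q * (p⁻¹ + q⁻¹) = q + p := by
      field_simp
    rw [hpq1] at h1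
    linarith
  obtain ⟨t, ht⟩ : ∃ t : ℝ, t = M.β * M.ℓ := ⟨_, rfl⟩
  have ht0 : 0 < t := by
    rw [ht]
    exact mul_pos M.β_pos hℓ
  have hstr := lmg_strict M ht0 hp1
  obtain ⟨κ, hκ⟩ : ∃ κ : ℝ, κ = (lmg M.μ (p * t) / p - lmg M.μ t) / 3 := ⟨_, rfl⟩
  have hκ0 : 0 < κ := by
    rw [hκ]
    linarith
  obtain ⟨lam, hlam⟩ : ∃ lam : ℝ, lam = t * (p - 1) := ⟨_, rfl⟩
  have hql : q * lam = p * t := by
    rw [hlam]
    calc q * (t * (p - 1)) = (q * (p - 1)) * t := by ring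
      _ = p * t := by rw [hqp]
  have htl : t + lam = p * t := by
    rw [hlam]
    ring
  obtain ⟨w0, hw0⟩ : ∃ w0 : ℤ → ℝ, w0 = fun z => lmg M.μ (M.β * M.φ z + lam) - hc * M.φ z -
    lmg M.μ (q * lam) / q := ⟨_, rfl⟩
  have hk0 : ∀ n : ℕ, Kv M.C w0 n 0 ≤ K' ^ (1 / p) := by
    rw [hw0]
    exact kv_bdd M hpq hK' hb' lam
  obtain ⟨w, hw⟩ : ∃ w : ℤ → ℝ, w = fun z => w0 z + -κ := ⟨_, rfl⟩
  have hr0 : 0 ≤ Real.exp (-κ) := (Real.exp_pos _).le
  have hr1 : Real.exp (-κ) < 1 := by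
    rw [Real.exp_lt_one_iff]
    linarith
  have hk1 : ∀ n : ℕ, Kv M.C w n 0 ≤ Real.exp (-κ) ^ n * K' ^ (1 / p) := by
    intro n
    rw [hw, HZ.A3.Kv_add_const M.C w0 (-κ) n 0, ← Real.exp_nat_mul]
    exact mul_le_mul_of_nonneg_left (hk0 n) (Real.exp_pos _).le
  have hdn : 0 < M.C.p 0 (-1) := by
    have := M.C.down 0
    rwa [zero_sub] at this
  -- the second kernel at the site -1
  have hKp : 0 ≤ K' ^ (1 / p) := Real.rpow_nonneg hK' _
  have h2 : ∀ N : ℕ, ∑ n ∈ range N, Kv M.C w n (-1) ≤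
      (1 - Real.exp (-κ))⁻¹ * K' ^ (1 / p) / (M.C.p 0 (-1) * Real.exp (w (-1))) := by
    intro N
    have hpos : 0 < M.C.p 0 (-1) * Real.exp (w (-1)) := mul_pos hdn (Real.exp_pos _)
    rw [le_div_iff₀ hpos, Finset.sum_mul]
    have h3 : ∀ n ∈ range N, Kv M.C w n (-1) * (M.C.p 0 (-1) * Real.exp (w (-1))) ≤
        Real.exp (-κ) ^ n * K' ^ (1 / p) := by
      intro n _
      have h4 := HZ.Kv_split M.C w n
      have h5 := hk1 (n + 1)
      have h6 := HZ.Es_nonneg M.C w 1 n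
      have h7 : HZ.Es M.C w (-1) n = Kv M.C w n (-1) * (M.C.p 0 (-1) * Real.exp (w (-1))) := by
        rw [HZ.Es_neg]
        ring
      have h8 : Real.exp (-κ) ^ (n + 1) * K' ^ (1 / p) ≤ Real.exp (-κ) ^ n * K' ^ (1 / p) :=
        mul_le_mul_of_nonneg_right (pow_le_pow_of_le_one hr0 hr1.le (Nat.le_succ n)) hKp
      linarith
    refine (Finset.sum_le_sum h3).trans ?_
    rw [← Finset.sum_mul]
    refine mul_le_mul_of_nonneg_right ?_ hKp
    have h9 := (summable_geometric_of_lt_one hr0 hr1).sum_le_tsum (range N)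
      (fun i _ => pow_nonneg hr0 i)
    rwa [tsum_geometric_of_lt_one hr0 hr1] at h9
  -- the first kernel at the site -1
  have hsum : ∀ N : ℕ, ∑ n ∈ range N, HZ.Es M.C (M.v hc) (-1) n ≤ 1 := fun N => by
    have h3 := HZ.Upper.sum_split M hc N
    have h4 := hg (N + 1)
    rw [← h3] at h4
    refine le_trans (Finset.sum_le_sum fun n _ => ?_) h4
    exact le_add_of_nonneg_left (HZ.Es_nonneg _ _ _ _)
  have h1 := HZ.Upper.kv_bound M.C (M.v hc) (-1) hdn hsum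
  -- comparison far to the left
  have hlim : Tendsto (fun z : ℤ => w z - M.v hc z) atBot (𝓝 (2 * κ)) := by
    have hφ : Tendsto (fun z : ℤ => M.β * M.φ z) atBot (𝓝 t) := by
      rw [ht]
      exact M.φ_bot.const_mul M.β
    have hA : Tendsto (fun z : ℤ => lmg M.μ (M.β * M.φ z + lam)) atBot (𝓝 (lmg M.μ (p * t))) := by
      rw [← htl]
      exact ((HZ.lmg_cont M.exp_mom).tendsto _).comp (hφ.add_const lam)
    have hB : Tendsto (fun z : ℤ => lmg M.μ (M.β * M.φ z)) atBot (𝓝 (lmg M.μ t)) :=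
      ((HZ.lmg_cont M.exp_mom).tendsto _).comp hφ
    have hC := ((hA.sub_const (lmg M.μ (q * lam) / q)).sub_const κ).sub hB
    have e1 : lmg M.μ (p * t) - lmg M.μ (q * lam) / q - κ - lmg M.μ t = 2 * κ := by
      rw [hql]
      have e2 : lmg M.μ (p * t) - lmg M.μ (p * t) / q = lmg M.μ (p * t) / p := by
        have e3 : q⁻¹ = 1 - p⁻¹ := by linarith
        rw [div_eq_mul_inv, div_eq_mul_inv, e3]
        ring
      rw [e2, hκ]
      ring
    rw [e1] at hC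
    refine hC.congr fun z => ?_
    rw [hw, hw0]
    simp only [Mod.v]
    ring
  obtain ⟨R, hR⟩ := Filter.eventually_atBot.1 (hlim.eventually (lt_mem_nhds
    (show κ < 2 * κ by linarith)))
  have h1' : ∀ N : ℕ, ∑ n ∈ range N, Kv (HZ.cneg M.C) (fun z => M.v hc (-z)) n 1 ≤
      (M.C.p 0 (-1) * Real.exp (M.v hc (-1)))⁻¹ := by
    intro N
    refine le_trans (le_of_eq ?_) (h1 N)
    exact Finset.sum_congr rfl fun n _ => HZ.Kv_cneg M.C (M.v hc) n 1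
  have h2' : ∀ N : ℕ, ∑ n ∈ range N, Kv (HZ.cneg M.C) (fun z => w (-z)) n 1 ≤
      (1 - Real.exp (-κ))⁻¹ * K' ^ (1 / p) / (M.C.p 0 (-1) * Real.exp (w (-1))) := by
    intro N
    refine le_trans (le_of_eq ?_) (h2 N)
    exact Finset.sum_congr rfl fun n _ => HZ.Kv_cneg M.C w n 1
  obtain ⟨ε, hε, B, hB⟩ := half_dec (HZ.cneg M.C) (fun z => M.v hc (-z)) (fun z => w (-z))
    (b := max (-R) 0) (le_max_right _ _) hκ0 h1' h2' (by
      intro z hz
      have h3 := hR (-z) (by omega)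
      linarith)
  refine ⟨ε, hε, B, fun N => ?_⟩
  refine le_trans (le_of_eq ?_) (hB N)
  refine Finset.sum_congr rfl fun n _ => ?_
  exact (HZ.Kv_cneg M.C (fun z => M.v hc z + ε) n 1).symm

end

end Pool.Agent.HG
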