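import Pool.Agent.Lib.MP_daa227_pr_HG.XDef
import Pool.Agent.Lib.MP_daa227_pr_HG.LeftDec

/-!
# MP_daa227_pr, exponential moments of the potential: decay to the left
-/

namespace Pool.Agent.HG

open MeasureTheory ProbabilityTheory Finset Filter Topology
open MP_daa227_pr (Chain Zk Zf Gk Gf KU K0 Ren shift seqLaw ExpMom DepOn Good GoodW mom)
open Pool.Agent.HZ (Mod Kv lmg)
open Pool.Agent.IOrd (Sys aS cv)

noncomputable section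

theorem XDec.sum_zero (C : Chain) (N : ℕ) : ∑ n ∈ range N, Kv C (fun _ => 0) n 1 ≤ 1 := by
  have h := HZ.sum_le_sup C (fun _ => 0) (fun _ => 1) (fun _ _ => one_pos) (fun x _ => by
    have h1 := HZ.sum_nb x (C.p x)
    rw [C.sum_one x] at h1
    simp only [Real.exp_zero, mul_one]
    exact h1.symm.le) N (x := 1) one_pos
  rwa [mul_one] at h

theorem XDec.left {φ : ℤ → ℝ} {ℓ : ℝ} (hφ : Tendsto φ atBot (𝓝 ℓ)) (hℓ : 0 < ℓ) :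
    ∃ b : ℤ, 0 ≤ b ∧ ∀ z : ℤ, b ≤ z → ℓ / 2 ≤ φ (-z) := by
  obtain ⟨R, hR⟩ := Filter.eventually_atBot.1 (hφ.eventually (lt_mem_nhds
    (show ℓ / 2 < ℓ by linarith)))
  refine ⟨max (-R) 0, le_max_right _ _, fun z hz => (hR (-z) ?_).le⟩
  have := le_max_left (-R) 0
  omega

/-- `κ₀ = κ/2`. `half_dec` (Lib/MP_daa227_pr_HG/LeftDec.lean) for `HZ.cneg C` with `v(-·)` and
`w' = κ φ(-·)`: the sums of `Kv w'` at `1` are bounded (`hX.cneg.right`), those of `Kv v` too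
(`HZ.Kv_mono`, `v ≤ κ φ`), and beyond some `b`, `φ(-z) ≥ ℓ/2`, so
`v(-z) + κ ℓ/4 ≤ κ/2 φ(-z) + κ ℓ/4 ≤ κ φ(-z)`. Reflect back (`HZ.Kv_cneg`). -/
theorem ldecX (C : Chain) {φ : ℤ → ℝ} {ℓ : ℝ} (h0 : ∀ x, 0 ≤ φ x)
    (hφ : Tendsto φ atBot (𝓝 ℓ)) (hℓ : 0 < ℓ) (hX : ExpPot C φ) :
    ∃ κ₀ : ℝ, 0 < κ₀ ∧ ∀ v : ℤ → ℝ, (∀ z, v z ≤ κ₀ * φ z) →
      ∃ ε : ℝ, 0 < ε ∧ ∃ B : ℝ, ∀ N : ℕ, ∑ n ∈ range N, Kv C (fun z => v z + ε) n (-1) ≤ B := by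
  obtain ⟨κ, B, hκ, hB⟩ := hX.cneg.right
  obtain ⟨b, hb, hbz⟩ := XDec.left hφ hℓ
  refine ⟨κ / 2, by linarith, fun v hv => ?_⟩
  have h1 : ∀ N : ℕ, ∑ n ∈ range N, Kv (HZ.cneg C) (fun z => v (-z)) n 1 ≤ B := fun N =>
    (Finset.sum_le_sum fun n _ => HZ.Kv_mono (HZ.cneg C) (fun z => by
      have h2 := hv (-z)
      have h3 := mul_nonneg hκ.le (h0 (-z))
      linarith) n 1).trans (hB N)
  obtain ⟨ε, hε, B', hB'⟩ := half_dec (HZ.cneg C) (fun z => v (-z)) (fun z => κ * φ (-z))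
    (ε₁ := κ * ℓ / 4) hb (by positivity) h1 hB (fun z hz => by
      have h2 := hv (-z)
      have h3 := mul_le_mul_of_nonneg_left (hbz z hz) hκ.le
      linarith)
  refine ⟨ε, hε, B', fun N => ?_⟩
  refine le_trans (le_of_eq ?_) (hB' N)
  refine Finset.sum_congr rfl fun n _ => ?_
  exact (HZ.Kv_cneg C (fun z => v z + ε) n 1).symm

/-- a penalty makes the excursions to the left exponentially rare: `half_dec` for `HZ.cneg C` with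
`v = -η φ(-·)` and `w' = 0` (the sums of `Kv 0 = K0` at `1` are at most `1`) -/
theorem pen_ldec (C : Chain) {φ : ℤ → ℝ} {ℓ : ℝ} (h0 : ∀ x, 0 ≤ φ x)
    (hφ : Tendsto φ atBot (𝓝 ℓ)) (hℓ : 0 < ℓ) {η : ℝ} (hη : 0 < η) :
    ∃ ε : ℝ, 0 < ε ∧ ∃ B : ℝ, ∀ N : ℕ,
      ∑ n ∈ range N, Kv C (fun z => -η * φ z + ε) n (-1) ≤ B := by
  obtain ⟨b, hb, hbz⟩ := XDec.left hφ hℓ
  have h1 : ∀ N : ℕ, ∑ n ∈ range N, Kv (HZ.cneg C) (fun z => -η * φ (-z)) n 1 ≤ 1 := fun N =>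
    (Finset.sum_le_sum fun n _ => HZ.Kv_mono (HZ.cneg C) (fun z => by
      have h3 := mul_nonneg hη.le (h0 (-z))
      linarith) n 1).trans (XDec.sum_zero (HZ.cneg C) N)
  obtain ⟨ε, hε, B', hB'⟩ := half_dec (HZ.cneg C) (fun z => -η * φ (-z)) (fun _ => 0)
    (ε₁ := η * ℓ / 2) hb (by positivity) h1 (XDec.sum_zero (HZ.cneg C)) (fun z hz => by
      have h3 := mul_le_mul_of_nonneg_left (hbz z hz) hη.le
      linarith)
  refine ⟨ε, hε, B', fun N => ?_⟩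
  refine le_trans (le_of_eq ?_) (hB' N)
  refine Finset.sum_congr rfl fun n _ => ?_
  exact (HZ.Kv_cneg C (fun z => -η * φ z + ε) n 1).symm

end

end Pool.Agent.HG
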