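import Pool.Agent.Lib.MP_daa227_pr_HG.GTailW
import Pool.Agent.Lib.MP_daa227_pr_HG.LightA
import Pool.Agent.Lib.MP_daa227_pr_HG.VExt
import Pool.Agent.Lib.MP_daa227_pr_HG.XDec

/-!
# MP_daa227_pr: an additional penalty where the potential is not small does not change the exponent
-/

namespace Pool.Agent.HG

open MeasureTheory ProbabilityTheory Finset Filter Topology
open MP_daa227_pr (Chain Zk Zf Gk Gf KU K0 Ren shift seqLaw ExpMom DepOn Good GoodW mom)
open Pool.Agent.HZ (Mod Kv lmg)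
open Pool.Agent.IOrd (Sys aS cv)

noncomputable section

namespace WPoly

theorem cast_top : Tendsto (fun n : ℕ => ((2 * n : ℕ) : ℝ)) atTop atTop := by
  refine tendsto_natCast_atTop_atTop.comp ?_
  exact tendsto_id.const_mul_atTop' two_pos

/-- constants are absorbed by a change of the exponent -/
theorem absorb {b : ℕ → ℝ} {A A' c : ℝ} (hA : A < A') (hc : 0 < c)
    (h : ∀ᶠ n : ℕ in atTop, c * ((2 * n : ℕ) : ℝ) ^ (-A) ≤ b n) :
    ∀ᶠ n : ℕ in atTop, ((2 * n : ℕ) : ℝ) ^ (-A') ≤ b n := by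
  have h1 := ((tendsto_rpow_atTop (show 0 < A' - A by linarith)).comp
    cast_top).eventually_ge_atTop (1 / c)
  filter_upwards [h, h1, eventually_ge_atTop 1] with n hn hn1 hn2
  have hN0 : (0 : ℝ) < ((2 * n : ℕ) : ℝ) := by
    exact_mod_cast (by omega : 0 < 2 * n)
  refine le_trans ?_ hn
  have h2 : ((2 * n : ℕ) : ℝ) ^ (-A) = ((2 * n : ℕ) : ℝ) ^ (-A') * ((2 * n : ℕ) : ℝ) ^ (A' - A) := by
    rw [← Real.rpow_add hN0]
    congr 1
    ring
  have h3 : 0 ≤ ((2 * n : ℕ) : ℝ) ^ (-A') := Real.rpow_nonneg hN0.le _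
  have h4 : 1 / c ≤ ((2 * n : ℕ) : ℝ) ^ (A' - A) := hn1
  rw [h2]
  rw [div_le_iff₀ hc] at h4
  calc ((2 * n : ℕ) : ℝ) ^ (-A') = ((2 * n : ℕ) : ℝ) ^ (-A') * 1 := (mul_one _).symm
    _ ≤ ((2 * n : ℕ) : ℝ) ^ (-A') * (((2 * n : ℕ) : ℝ) ^ (A' - A) * c) :=
        mul_le_mul_of_nonneg_left h4 h3
    _ = _ := by ring

/-- an exponentially small term is absorbed -/
theorem absorb_exp {b : ℕ → ℝ} {A A' ε B : ℝ} (hA : A < A') (hε : 0 < ε)
    (h : ∀ᶠ n : ℕ in atTop, ((2 * n : ℕ) : ℝ) ^ (-A) ≤ b n + B * Real.exp (-(ε * n))) :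
    ∀ᶠ n : ℕ in atTop, ((2 * n : ℕ) : ℝ) ^ (-A') ≤ b n := by
  refine absorb hA (c := 1 / 2) (by norm_num) ?_
  have h1 : Tendsto (fun n : ℕ => B * 2 ^ A * ((n : ℝ) ^ A * Real.exp (-(ε * n)))) atTop
      (𝓝 0) := by
    have h2 := (tendsto_rpow_mul_exp_neg_mul_atTop_nhds_zero A ε hε).comp
      tendsto_natCast_atTop_atTop
    have h3 := h2.const_mul (B * 2 ^ A)
    rw [mul_zero] at h3
    refine h3.congr fun n => ?_
    simp only [Function.comp_apply, neg_mul]
  have h4 := h1.eventually (ge_mem_nhds (show (0 : ℝ) < 1 / 2 by norm_num))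
  filter_upwards [h, h4, eventually_ge_atTop 1] with n hn hn1 hn2
  have hn0 : (0 : ℝ) < n := by exact_mod_cast hn2
  have hN0 : (0 : ℝ) < ((2 * n : ℕ) : ℝ) := by
    exact_mod_cast (by omega : 0 < 2 * n)
  have h5 : B * Real.exp (-(ε * n)) ≤ 1 / 2 * ((2 * n : ℕ) : ℝ) ^ (-A) := by
    have h6 : ((2 * n : ℕ) : ℝ) ^ A * ((2 * n : ℕ) : ℝ) ^ (-A) = 1 := by
      rw [← Real.rpow_add hN0, add_neg_cancel, Real.rpow_zero]
    have h7 : ((2 * n : ℕ) : ℝ) ^ A = 2 ^ A * (n : ℝ) ^ A := by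
      push_cast
      rw [Real.mul_rpow two_pos.le hn0.le]
    have h8 := mul_le_mul_of_nonneg_right hn1 (Real.rpow_nonneg hN0.le (-A))
    refine le_trans (le_of_eq ?_) h8
    calc B * Real.exp (-(ε * n)) = B * Real.exp (-(ε * n)) *
          (((2 * n : ℕ) : ℝ) ^ A * ((2 * n : ℕ) : ℝ) ^ (-A)) := by rw [h6, mul_one]
      _ = _ := by rw [h7]; ring
  linarith

end WPoly

/-- an additional penalty where the potential is larger than `t` -/
theorem polyW_of_low (M : Mod) {hc α : ℝ} (hc0 : 0 < hc) (hα : 0 ≤ α)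
    (hlow : ∀ ε : ℝ, 0 < ε → ∀ᶠ n : ℕ in atTop,
      ((2 * n : ℕ) : ℝ) ^ (-(1 + α + ε)) ≤ Kv M.C (fun z => -hc * M.φ z) (2 * n) 0) :
    PolyW M α hc := by
  intro t ht ε hε
  set w : ℤ → ℝ := fun z => -hc * M.φ z with hwdef
  have hw : ∀ z, w z ≤ 0 := pen_nonpos M hc0.le
  have hs0 := hs_pos M.C hw 0
  have hs1 := (hs_nonneg M.C hw 0).2
  have hR : VR (htr M.C hw) (big M.φ t) := by
    obtain ⟨R, hR⟩ := eventually_atTop.1 (M.φ_top.eventually_lt_const ht)
    refine v_finite _ (R := R) fun x hx => ?_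
    unfold big
    rw [if_neg (not_lt.2 (hR x hx).le)]
  have key : ∀ᶠ n : ℕ in atTop, ((2 * n : ℕ) : ℝ) ^ (-(1 + α + ε / 2)) ≤
      Kv (htr M.C hw) (fun z => -1 * big M.φ t z) (2 * n) 0 := by
    have hℓ0 : 0 ≤ M.ℓ := ge_of_tendsto' M.φ_bot M.φ_nonneg
    rcases hℓ0.eq_or_lt with hℓ | hℓ
    · have hL : VL (htr M.C hw) (big M.φ t) := by
        have h1 := M.φ_bot
        rw [← hℓ] at h1
        obtain ⟨R, hR⟩ := eventually_atBot.1 (h1.eventually_lt_const ht)
        refine v_finite _ (R := -R) fun x hx => ?_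
        unfold big
        rw [if_neg (not_lt.2 (hR (-x) (by omega)).le)]
      refine light_two (htr M.C hw) (htr_rec M.C hw) hα (big_nonneg M.φ t) (big_le_one M.φ t)
        hR hL (fun ε hε => ?_) 1 one_pos (ε / 2) (half_pos hε)
      filter_upwards [hlow ε hε] with n hn
      rw [htr_K0]
      refine hn.trans ?_
      rw [le_div_iff₀ hs0]
      exact mul_le_of_le_one_right (HZ.Kv_nonneg _ _ _ _) hs1
    · refine light_one (htr M.C hw) (htr_rec M.C hw) hα (big_nonneg M.φ t) (big_le_one M.φ t)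
        hR (fun ε hε => ?_) 1 one_pos (ε / 2) (half_pos hε)
      obtain ⟨e, he, B, hB⟩ := pen_ldec M.C M.φ_nonneg M.φ_bot hℓ hc0
      have hB0 : 0 ≤ B := by
        have h := hB 0
        rwa [Finset.range_zero, Finset.sum_empty] at h
      have hleft : ∀ n : ℕ, HZ.Es M.C w (-1) n ≤ B * Real.exp (-(e * n)) := by
        intro n
        have h1 : Kv M.C (fun z => w z + e) n (-1) = Real.exp (e * n) * Kv M.C w n (-1) := by
          rw [TailM.kv_add, mul_comm (n : ℝ) e]
        have h2 : Kv M.C (fun z => w z + e) n (-1) ≤ B := by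
          refine le_trans ?_ (hB (n + 1))
          exact Finset.single_le_sum (f := fun n => Kv M.C (fun z => w z + e) n (-1))
            (fun i _ => HZ.Kv_nonneg _ _ _ _) (Finset.mem_range.2 (Nat.lt_succ_self n))
        rw [HZ.Es_neg]
        have h3 : Kv M.C w n (-1) ≤ B * Real.exp (-(e * n)) := by
          rw [h1] at h2
          have h4 := mul_le_mul_of_nonneg_right h2 (Real.exp_pos (-(e * n))).le
          refine le_trans (le_of_eq ?_) h4
          have h5 : Real.exp (e * n) * Real.exp (-(e * n)) = 1 := by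
            rw [← Real.exp_add, add_neg_cancel, Real.exp_zero]
          calc Kv M.C w n (-1) = Kv M.C w n (-1) * (Real.exp (e * n) * Real.exp (-(e * n))) := by
                rw [h5, mul_one]
            _ = _ := by ring
        refine le_trans ?_ h3
        refine mul_le_of_le_one_left (HZ.Kv_nonneg _ _ _ _) ?_
        exact mul_le_one₀ (MP_daa227_pr.Chain.p_le_one M.C 0 (-1)) (Real.exp_pos _).le
          (Real.exp_le_one_iff.2 (hw _))
      have h6 : ∀ᶠ n : ℕ in atTop, ((2 * n : ℕ) : ℝ) ^ (-(1 + α + ε / 2)) ≤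
          HZ.Ep M.C w 1 (2 * n - 1) + B * Real.exp e * Real.exp (-(e * n)) := by
        filter_upwards [hlow (ε / 2) (half_pos hε), eventually_ge_atTop 1] with n hn hn1
        obtain ⟨m, hm⟩ : ∃ m, 2 * n = m + 1 := ⟨2 * n - 1, by omega⟩
        have hm1 : 1 ≤ m := by omega
        have h7 : 2 * n - 1 = m := by omega
        rw [h7]
        have h8 : Kv M.C w (2 * n) 0 = HZ.Es M.C w 1 m + HZ.Es M.C w (-1) m := by
          rw [hm]
          exact HZ.Kv_split M.C w m
        rw [HZ.Es_pos_n M.C w 1 hm1] at h8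
        have h9 := hleft m
        have h10 : Real.exp (-(e * m)) ≤ Real.exp e * Real.exp (-(e * n)) := by
          rw [← Real.exp_add]
          apply Real.exp_le_exp.2
          have h11 : (m : ℝ) = 2 * n - 1 := by
            have : ((2 * n : ℕ) : ℝ) = ((m + 1 : ℕ) : ℝ) := by rw [hm]
            push_cast at this
            linarith
          have h12 : (0 : ℝ) ≤ n := Nat.cast_nonneg n
          rw [h11]
          nlinarith
        have h11 := mul_le_mul_of_nonneg_left h10 hB0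
        unfold HZ.Ep
        rw [h8] at hn
        linarith
      have h7 := WPoly.absorb_exp (A' := 1 + α + ε) (by linarith) he h6
      filter_upwards [h7] with n hn
      rw [htr_p01]
      refine hn.trans ?_
      rw [le_div_iff₀ hs0]
      exact mul_le_of_le_one_right (HZ.Ep_nonneg _ _ _ _) hs1
  refine WPoly.absorb (A := 1 + α + ε / 2) (by linarith) hs0 ?_
  filter_upwards [key] with n hn
  rw [htr_Kv] at hn
  rw [le_div_iff₀ hs0] at hn
  rw [mul_comm]
  refine hn.trans (le_of_eq ?_)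
  congr 1
  funext z
  unfold wt
  rw [hwdef]
  ring

end

end Pool.Agent.HG
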