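import Pool.Agent.Lib.MP_daa227_pr_HG.Exact
import Pool.Agent.Lib.MP_daa227_pr_HG.WPoly
import Pool.Agent.Lib.MP_daa227_pr_HG.LowP

/-!
# MP_daa227_pr: the order of the transition from the excursions penalised at the critical point
-/

namespace Pool.Agent.HG

open MeasureTheory ProbabilityTheory Finset Filter Topology
open MP_daa227_pr (Chain Zk Zf Gk Gf KU K0 Ren shift seqLaw ExpMom DepOn Good GoodW mom)
open Pool.Agent.HZ (Mod Kv lmg)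
open Pool.Agent.IOrd (Sys aS cv)

noncomputable section

variable {M : Mod} {hc p K : ℝ}

/-- `bdd_fin` for any polynomial tail of the annealed excursions -/
theorem bdd_finT (hP : PolyCost M) (hc0 : 0 < hc) (hcrit : ∀ h, 0 < M.Fr h ↔ h < hc) (hp : 1 < p)
    (hb : ∀ n : ℕ, mom M.μ p (fun ω => M.Z hc (2 * n) ω) ≤ ENNReal.ofReal K) {a : ℝ} (ha : 0 < a)
    (hT : LTail M.C (M.v hc) 0 a) :
    a ≤ 1 / 2 ∧ ∃ c B : ℝ, 0 < c ∧ 0 < B ∧ ∀ δ : ℝ, 0 < δ → δ ≤ 1 → c * δ ^ B ≤ M.Fr (hc - δ) := by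
  have hg := bdd_sum hp hb
  have hg1 : ∀ η : ℝ, 0 < η → ∃ N : ℕ, 1 - η ≤ ∑ n ∈ range N, M.g hc n := fun η hη =>
    bdd_one hc0 hcrit hp hb hη
  obtain ⟨A, _, hT⟩ := hT
  refine ⟨?_, ?_⟩
  · by_contra hcon
    push Not at hcon
    exact no_bdd M hp hb hg1 hcon hT
  · obtain ⟨b, E, hb0, hE, hseq⟩ := fin_seq M hP hc0 (Real.HolderConjugate.conjExponent hp) hb hg
      hg1 ha hT
    exact fin_all (F := M.Fr) (fun h h' hh => M.Fr_anti hh) hcrit ha hb0 hE hseq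

/-- a moment of the excursions penalised at `hc` -/
theorem bdd_pen (hP : PolyCost M) (hc0 : 0 < hc) (hcrit : ∀ h, 0 < M.Fr h ↔ h < hc) (hp : 1 < p)
    (hb : ∀ n : ℕ, mom M.μ p (fun ω => M.Z hc (2 * n) ω) ≤ ENNReal.ofReal K) {a : ℝ} (ha : 0 < a)
    (hS : Summable (fun n : ℕ => (n : ℝ) ^ a * Kv M.C (fun z => -hc * M.φ z) n 0)) :
    a ≤ 1 / 2 ∧ ∃ c B : ℝ, 0 < c ∧ 0 < B ∧ ∀ δ : ℝ, 0 < δ → δ ≤ 1 → c * δ ^ B ≤ M.Fr (hc - δ) := by
  have hg := bdd_sum hp hb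
  have hdec := bdd_ldec hp hb
  refine ⟨?_, ?_⟩
  · by_contra hcon
    push Not at hcon
    set b : ℝ := min ((a + 1 / 2) / 2) 1 with hbdef
    have h1 : 1 / 2 < b := lt_min (by linarith) (by norm_num)
    have h2 : b < a := (min_le_left _ _).trans_lt (by linarith)
    have h3 := (bdd_finT hP hc0 hcrit hp hb (by linarith)
      (g_tail_mom M hc0 hg hdec hS (by linarith) (min_le_right _ _) h2)).1
    linarith
  · have h1 : 0 < min (a / 2) 1 := lt_min (by linarith) one_pos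
    have h2 : min (a / 2) 1 < a := (min_le_left _ _).trans_lt (by linarith)
    exact (bdd_finT hP hc0 hcrit hp hb h1
      (g_tail_mom M hc0 hg hdec hS h1 (min_le_right _ _) h2)).2

/-- loop exponent `α` of the excursions penalised at `hc`: `α ≤ 1/2` -/
theorem alpha_le_pen (hP : PolyCost M) (hc0 : 0 < hc) (hcrit : ∀ h, 0 < M.Fr h ↔ h < hc)
    (hp : 1 < p) (hb : ∀ n : ℕ, mom M.μ p (fun ω => M.Z hc (2 * n) ω) ≤ ENNReal.ofReal K) {α : ℝ}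
    (hU : KUW M α hc) : α ≤ 1 / 2 := by
  by_contra hcon
  push Not at hcon
  set b : ℝ := min ((α + 1 / 2) / 2) 1 with hbdef
  have h1 : 1 / 2 < b := lt_min (by linarith) (by norm_num)
  have h2 : b < α := (min_le_left _ _).trans_lt (by linarith)
  have h3 := (bdd_finT hP hc0 hcrit hp hb (by linarith)
    (g_tail_kuw M hc0 (bdd_sum hp hb) (bdd_ldec hp hb) hU (by linarith) (min_le_right _ _) h2)).1
  linarith

/-- loop exponent `α > 0` of the excursions penalised at `hc`: the order is `1/α` -/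
theorem exact_pen (hP : PolyCost M) (hc0 : 0 < hc) (hcrit : ∀ h, 0 < M.Fr h ↔ h < hc)
    (hp : 1 < p) (hb : ∀ n : ℕ, mom M.μ p (fun ω => M.Z hc (2 * n) ω) ≤ ENNReal.ofReal K) {α : ℝ}
    (hα : 0 < α) (hlow : ∀ ε : ℝ, 0 < ε → ∀ᶠ n : ℕ in atTop,
      ((2 * n : ℕ) : ℝ) ^ (-(1 + α + ε)) ≤ Kv M.C (fun z => -hc * M.φ z) (2 * n) 0)
    (hU : KUW M α hc) {ε : ℝ} (hε : 0 < ε) :
    (∀ᶠ δ in 𝓝[>] (0 : ℝ), δ ^ (1 / α + ε) ≤ M.Fr (hc - δ)) ∧
      ∀ᶠ δ in 𝓝[>] (0 : ℝ), M.Fr (hc - δ) ≤ δ ^ (1 / α - ε) := by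
  have hα2 := alpha_le_pen hP hc0 hcrit hp hb hU
  refine exact_gen hα hP (polyW_of_low M hc0 hα.le hlow) hU ?_ hc0 hcrit hp hb hε
  intro a ha haα
  obtain ⟨A, _, hT⟩ := g_tail_kuw M hc0 (bdd_sum hp hb) (bdd_ldec hp hb) hU ha (by linarith) haα
  exact ⟨A, hT⟩

end

end Pool.Agent.HG
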