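import Pool.Agent.Lib.MP_daa227_pr_HG.BesA
import Pool.Agent.Lib.MP_daa227_pr_HG.BExp
import Pool.Agent.Lib.MP_daa227_pr_HG.ExactW

/-!
# MP_daa227_pr, Bessel-like chains and potentials `c / x²`: the excursions penalised at the critical
point
-/

namespace Pool.Agent.HG

open MeasureTheory ProbabilityTheory Finset Filter Topology
open MP_daa227_pr (Chain Zk Zf Gk Gf KU K0 Ren shift seqLaw ExpMom DepOn Good GoodW mom)
open Pool.Agent.HZ (Mod Kv lmg)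
open Pool.Agent.IOrd (Sys aS cv)

noncomputable section

/-- the excursions to the right with the weights `w` have exponent at least `a` (up to `1`) -/
def SideUp (C : Chain) (w : ℤ → ℝ) (a : ℝ) : Prop :=
  ∀ a' : ℝ, 0 < a' → a' ≤ 1 → a' < a →
    ∃ B : ℝ, ∀ k : ℕ, Kv C w (2 * k + 1) 1 ≤ B * ((k : ℝ) + 1) ^ (-(1 + a'))

theorem SideUp.mono {C : Chain} {w : ℤ → ℝ} {a b : ℝ} (h : SideUp C w a) (hb : b ≤ a) :
    SideUp C w b := fun a' h0 h1 h2 => h a' h0 h1 (h2.trans_le hb)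

/-- exponentially small weights -/
theorem sideUp_exp {C : Chain} {w : ℤ → ℝ} {ε B : ℝ} (hε : 0 < ε)
    (hB : ∀ N : ℕ, ∑ n ∈ range N, Kv C (fun z => w z + ε) n 1 ≤ B) (a : ℝ) :
    SideUp C w a := by
  intro a' ha' _ _
  have hB0 : 0 ≤ B := by
    have h := hB 0
    rwa [Finset.range_zero, Finset.sum_empty] at h
  have h1 : ∀ n : ℕ, Kv C w n 1 ≤ B * Real.exp (-(ε * n)) := by
    intro n
    have h2 : Kv C (fun z => w z + ε) n 1 = Real.exp (ε * n) * Kv C w n 1 := by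
      rw [TailM.kv_add, mul_comm (n : ℝ) ε]
    have h3 : Kv C (fun z => w z + ε) n 1 ≤ B := by
      refine le_trans ?_ (hB (n + 1))
      exact Finset.single_le_sum (f := fun n => Kv C (fun z => w z + ε) n 1)
        (fun i _ => HZ.Kv_nonneg _ _ _ _) (Finset.mem_range.2 (Nat.lt_succ_self n))
    rw [h2] at h3
    have h4 := mul_le_mul_of_nonneg_right h3 (Real.exp_pos (-(ε * n))).le
    refine le_trans (le_of_eq ?_) h4
    have h5 : Real.exp (ε * n) * Real.exp (-(ε * n)) = 1 := by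
      rw [← Real.exp_add, add_neg_cancel, Real.exp_zero]
    calc Kv C w n 1 = Kv C w n 1 * (Real.exp (ε * n) * Real.exp (-(ε * n))) := by
          rw [h5, mul_one]
      _ = _ := by ring
  -- the function `x^(1+a') e^(-ε x)` is bounded
  obtain ⟨Q, hQ⟩ : ∃ Q : ℝ, ∀ k : ℕ, ((k : ℝ) + 1) ^ (1 + a') * Real.exp (-(ε * ((k : ℝ) + 1))) ≤
      Q := by
    have h2 := (tendsto_rpow_mul_exp_neg_mul_atTop_nhds_zero (1 + a') ε hε).comp
      (tendsto_atTop_add_const_right _ (1 : ℝ) tendsto_natCast_atTop_atTop)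
    obtain ⟨Q, hQ⟩ := h2.bddAbove_range
    refine ⟨Q, fun k => ?_⟩
    have h3 := hQ ⟨k, rfl⟩
    simpa only [Function.comp_apply, neg_mul] using h3
  refine ⟨B * Q, fun k => ?_⟩
  have hk : (0 : ℝ) < (k : ℝ) + 1 := by positivity
  have h2 := h1 (2 * k + 1)
  have h3 : Real.exp (-(ε * ((2 * k + 1 : ℕ) : ℝ))) ≤ Real.exp (-(ε * ((k : ℝ) + 1))) := by
    apply Real.exp_le_exp.2
    push_cast
    have : 0 ≤ ε * (k : ℝ) := mul_nonneg hε.le (Nat.cast_nonneg k)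
    nlinarith
  have h4 : Real.exp (-(ε * ((k : ℝ) + 1))) ≤ Q * ((k : ℝ) + 1) ^ (-(1 + a')) := by
    have h5 := mul_le_mul_of_nonneg_right (hQ k) (Real.rpow_nonneg hk.le (-(1 + a')))
    refine le_trans (le_of_eq ?_) h5
    have h6 : ((k : ℝ) + 1) ^ (1 + a') * ((k : ℝ) + 1) ^ (-(1 + a')) = 1 := by
      rw [← Real.rpow_add hk, add_neg_cancel, Real.rpow_zero]
    calc Real.exp (-(ε * ((k : ℝ) + 1))) = Real.exp (-(ε * ((k : ℝ) + 1))) *
          (((k : ℝ) + 1) ^ (1 + a') * ((k : ℝ) + 1) ^ (-(1 + a'))) := by rw [h6, mul_one]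
      _ = _ := by ring
  calc Kv C w (2 * k + 1) 1 ≤ B * Real.exp (-(ε * ((2 * k + 1 : ℕ) : ℝ))) := h2
    _ ≤ B * (Q * ((k : ℝ) + 1) ^ (-(1 + a'))) := mul_le_mul_of_nonneg_left (h3.trans h4) hB0
    _ = _ := by ring

theorem sideUp_bes {C : Chain} {φ : ℤ → ℝ} (h0 : ∀ x, 0 ≤ φ x) {m α c η : ℝ} (h : Bes C φ m α c)
    (hα : 0 ≤ α) (hc : 0 ≤ c) (hη : 0 ≤ η) :
    SideUp C (fun z => -η * φ z) (Real.sqrt (α ^ 2 + 2 * η * c)) :=
  fun _ h1 h2 h3 => bes_pt_up h0 h hα hc hη h1 h2 h3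

/-- the two sides together: upper bound for the excursions -/
theorem kuw_sides (M : Mod) {hc a : ℝ} (hc0 : 0 ≤ hc) (ha : 0 < a)
    (hR : SideUp M.C (fun z => -hc * M.φ z) a)
    (hL : SideUp (HZ.cneg M.C) (fun z => -hc * M.φ (-z)) a) : KUW M (min a 1) hc := by
  intro ε hε
  set w : ℤ → ℝ := fun z => -hc * M.φ z with hwdef
  have hw : ∀ z, w z ≤ 0 := pen_nonpos M hc0
  set b : ℝ := min a 1 with hb
  have hb0 : 0 < b := lt_min ha one_pos
  obtain ⟨a', h1, h2, h3, h4⟩ : ∃ a' : ℝ, 0 < a' ∧ a' ≤ 1 ∧ a' < a ∧ b - ε < a' := by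
    refine ⟨max (b - ε / 2) (b / 2), lt_max_of_lt_right (by linarith), ?_, ?_,
      lt_max_of_lt_left (by linarith)⟩
    · refine max_le ?_ ?_
      · have := min_le_right a 1
        linarith
      · have := min_le_right a 1
        linarith
    · refine max_lt ?_ ?_
      · have := min_le_left a 1
        linarith
      · have := min_le_left a 1
        linarith
  obtain ⟨B₁, hB₁⟩ := hR a' h1 h2 h3
  obtain ⟨B₂, hB₂⟩ := hL a' h1 h2 h3
  have h5 : ∀ᶠ n : ℕ in atTop, (|B₁| + |B₂|) * 2 ^ (1 + a') ≤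
      ((2 * n : ℕ) : ℝ) ^ (a' - (b - ε)) :=
    ((tendsto_rpow_atTop (show 0 < a' - (b - ε) by linarith)).comp
      WPoly.cast_top).eventually_ge_atTop _
  filter_upwards [h5, eventually_ge_atTop 1] with n hn hn1
  obtain ⟨k, rfl⟩ : ∃ k, n = k + 1 := ⟨n - 1, by omega⟩
  have hk0 : (0 : ℝ) < (k : ℝ) + 1 := by positivity
  have hN0 : (0 : ℝ) < ((2 * (k + 1) : ℕ) : ℝ) := by
    exact_mod_cast (by omega : 0 < 2 * (k + 1))
  have h6 : 2 * (k + 1) = (2 * k + 1) + 1 := by ring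
  have h7 : Kv M.C w (2 * (k + 1)) 0 ≤ Kv M.C w (2 * k + 1) 1 + Kv M.C w (2 * k + 1) (-1) := by
    rw [h6, HZ.Kv_split, HZ.Es_pos_n M.C w 1 (by omega), HZ.Es_neg]
    have e : ∀ y, M.C.p 0 y * Real.exp (w y) ≤ 1 := fun y =>
      mul_le_one₀ (MP_daa227_pr.Chain.p_le_one M.C 0 y) (Real.exp_pos _).le
        (Real.exp_le_one_iff.2 (hw _))
    exact add_le_add (mul_le_of_le_one_left (HZ.Kv_nonneg _ _ _ _) (e 1))
      (mul_le_of_le_one_left (HZ.Kv_nonneg _ _ _ _) (e (-1)))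
  have h8 := hB₁ k
  have h9 := hB₂ k
  have h10 : Kv (HZ.cneg M.C) (fun z => -hc * M.φ (-z)) (2 * k + 1) 1 =
      Kv M.C w (2 * k + 1) (-1) := HZ.Kv_cneg M.C w (2 * k + 1) 1
  rw [h10] at h9
  have hP : 0 ≤ ((k : ℝ) + 1) ^ (-(1 + a')) := Real.rpow_nonneg hk0.le _
  have h11 : Kv M.C w (2 * (k + 1)) 0 ≤ (|B₁| + |B₂|) * ((k : ℝ) + 1) ^ (-(1 + a')) := by
    have h12 := mul_le_mul_of_nonneg_right (le_abs_self B₁) hP
    have h13 := mul_le_mul_of_nonneg_right (le_abs_self B₂) hP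
    linarith
  refine h11.trans ?_
  have h12 : ((k : ℝ) + 1) ^ (-(1 + a')) = 2 ^ (1 + a') * ((2 * (k + 1) : ℕ) : ℝ) ^ (-(1 + a')) := by
    have h13 : ((2 * (k + 1) : ℕ) : ℝ) = 2 * ((k : ℝ) + 1) := by push_cast; ring
    rw [h13, Real.mul_rpow two_pos.le hk0.le, ← mul_assoc, ← Real.rpow_add two_pos,
      add_neg_cancel, Real.rpow_zero, one_mul]
  rw [h12, ← mul_assoc]
  calc (|B₁| + |B₂|) * 2 ^ (1 + a') * ((2 * (k + 1) : ℕ) : ℝ) ^ (-(1 + a')) ≤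
      ((2 * (k + 1) : ℕ) : ℝ) ^ (a' - (b - ε)) * ((2 * (k + 1) : ℕ) : ℝ) ^ (-(1 + a')) :=
        mul_le_mul_of_nonneg_right hn (Real.rpow_nonneg hN0.le _)
    _ = ((2 * (k + 1) : ℕ) : ℝ) ^ (-(1 + b - ε)) := by
        rw [← Real.rpow_add hN0]
        congr 1
        ring

/-- lower bound from the right side -/
theorem low_side (C : Chain) {w : ℤ → ℝ} {a : ℝ} (ha : 0 ≤ a)
    (h : LBa a (fun k => Kv C w (2 * k + 1) 1)) {ε : ℝ} (hε : 0 < ε) :
    ∀ᶠ n : ℕ in atTop, ((2 * n : ℕ) : ℝ) ^ (-(1 + a + ε)) ≤ Kv C w (2 * n) 0 := by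
  have hp : 0 < C.p 0 1 := by
    have := C.up 0
    rwa [zero_add] at this
  have hq : 0 < C.p 0 1 * Real.exp (w 1) := mul_pos hp (Real.exp_pos _)
  refine WPoly.absorb (A := 1 + a + ε / 2) (by linarith) hq ?_
  have h1 : ∀ᶠ n : ℕ in atTop, ((2 * n : ℕ) : ℝ) ^ (-(1 + a + ε / 2)) ≤
      Kv C w (2 * (n - 1) + 1) 1 := by
    have h2 := (tendsto_sub_atTop_nat 1).eventually (h (ε / 2) (half_pos hε))
    filter_upwards [h2, eventually_ge_atTop 2] with n hn hn1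
    refine le_trans ?_ hn
    have h3 : (0 : ℝ) < ((n - 1 : ℕ) : ℝ) := by exact_mod_cast (by omega : 0 < n - 1)
    refine Real.rpow_le_rpow_of_nonpos h3 ?_ (by linarith)
    exact_mod_cast (by omega : n - 1 ≤ 2 * n)
  filter_upwards [h1, eventually_ge_atTop 1] with n hn hn1
  have h3 : 2 * n = (2 * (n - 1) + 1) + 1 := by omega
  have h4 : C.p 0 1 * Real.exp (w 1) * Kv C w (2 * (n - 1) + 1) 1 ≤ Kv C w (2 * n) 0 := by
    rw [h3, HZ.Kv_split, HZ.Es_pos_n C w 1 (by omega)]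
    have h5 : 2 * (n - 1) + 1 + 1 - 1 = 2 * (n - 1) + 1 := by omega
    exact le_add_of_nonneg_right (HZ.Es_nonneg _ _ _ _)
  exact (mul_le_mul_of_nonneg_left hn hq.le).trans h4

/-- lower bound from the left side -/
theorem low_side_neg (M : Mod) {hc a : ℝ} (ha : 0 ≤ a)
    (h : LBa a (fun k => Kv (HZ.cneg M.C) (fun z => -hc * M.φ (-z)) (2 * k + 1) 1)) {ε : ℝ}
    (hε : 0 < ε) : ∀ᶠ n : ℕ in atTop,
      ((2 * n : ℕ) : ℝ) ^ (-(1 + a + ε)) ≤ Kv M.C (fun z => -hc * M.φ z) (2 * n) 0 := by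
  have h1 := low_side (HZ.cneg M.C) ha h hε
  filter_upwards [h1] with n hn
  rw [← GTailW.kv_cneg0 M.C (fun z => -hc * M.φ z)]
  exact hn

/-- Bessel-like on the right with the exponent `a` of the penalised excursions; on the left
`ℓ > 0` or Bessel-like with a larger exponent, or vice versa: `a` is the exponent of the penalised
excursions -/
def BesExp (M : Mod) (hc a : ℝ) : Prop :=
  ∃ m α c : ℝ, 0 ≤ α ∧ 0 ≤ c ∧ Bes M.C M.φ m α c ∧
    ((0 < M.ℓ ∧ a = Real.sqrt (α ^ 2 + 2 * hc * c)) ∨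
      ∃ m' α' c' : ℝ, 0 ≤ α' ∧ 0 ≤ c' ∧ Bes (HZ.cneg M.C) (fun z => M.φ (-z)) m' α' c' ∧
        a = min (Real.sqrt (α ^ 2 + 2 * hc * c)) (Real.sqrt (α' ^ 2 + 2 * hc * c')))

theorem besExp_kuw (M : Mod) {hc a : ℝ} (hc0 : 0 < hc) (ha : 0 < a) (h : BesExp M hc a) :
    KUW M (min a 1) hc := by
  obtain ⟨m, α, c, hα, hc', hB, h⟩ := h
  rcases h with ⟨hℓ, haeq⟩ | ⟨m', α', c', hα', hc'', hB', haeq⟩
  · refine kuw_sides M hc0.le ha ?_ ?_
    · rw [haeq]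
      exact sideUp_bes M.φ_nonneg hB hα hc' hc0.le
    · obtain ⟨ε, hε, B, hBd⟩ := pen_ldec M.C M.φ_nonneg M.φ_bot hℓ hc0
      refine sideUp_exp (ε := ε) (B := B) hε (fun N => ?_) a
      refine le_trans (le_of_eq ?_) (hBd N)
      refine Finset.sum_congr rfl fun n _ => ?_
      exact HZ.Kv_cneg M.C (fun z => -hc * M.φ z + ε) n 1
  · refine kuw_sides M hc0.le ha ?_ ?_
    · refine (sideUp_bes M.φ_nonneg hB hα hc' hc0.le).mono ?_
      rw [haeq]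
      exact min_le_left _ _
    · refine (sideUp_bes (C := HZ.cneg M.C) (φ := fun z => M.φ (-z)) (fun x => M.φ_nonneg _) hB'
        hα' hc'' hc0.le).mono ?_
      rw [haeq]
      exact min_le_right _ _

theorem besExp_low (M : Mod) {hc a : ℝ} (hc0 : 0 ≤ hc) (ha : 0 < a) (ha1 : a < 1)
    (h : BesExp M hc a) {ε : ℝ} (hε : 0 < ε) : ∀ᶠ n : ℕ in atTop,
      ((2 * n : ℕ) : ℝ) ^ (-(1 + a + ε)) ≤ Kv M.C (fun z => -hc * M.φ z) (2 * n) 0 := by
  obtain ⟨m, α, c, hα, hc', hB, h⟩ := h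
  have right : a = Real.sqrt (α ^ 2 + 2 * hc * c) → ∀ᶠ n : ℕ in atTop,
      ((2 * n : ℕ) : ℝ) ^ (-(1 + a + ε)) ≤ Kv M.C (fun z => -hc * M.φ z) (2 * n) 0 := by
    intro haeq
    have h1 := bes_pt_low M.hrec M.φ_nonneg hB hα hc' hc0 (by rwa [← haeq])
      (by rwa [← haeq])
    rw [← haeq] at h1
    exact low_side M.C ha.le h1 hε
  rcases h with ⟨hℓ, haeq⟩ | ⟨m', α', c', hα', hc'', hB', haeq⟩
  · exact right haeq
  · rcases le_total (Real.sqrt (α ^ 2 + 2 * hc * c)) (Real.sqrt (α' ^ 2 + 2 * hc * c')) with h1 | h1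
    · rw [min_eq_left h1] at haeq
      exact right haeq
    · rw [min_eq_right h1] at haeq
      have hrec' : HasSum (fun n : ℕ => K0 (HZ.cneg M.C) (n + 1) 0) 1 := by
        have h4 : ∀ n : ℕ, K0 (HZ.cneg M.C) (n + 1) 0 = K0 M.C (n + 1) 0 := by
          intro n
          have h5 := HZ.Kv_cneg M.C (fun _ => 0) (n + 1) 0
          rw [neg_zero, HZ.Kv_K0, HZ.Kv_K0] at h5
          exact h5
        simpa only [h4] using M.hrec
      have h2 := bes_pt_low (C := HZ.cneg M.C) hrec' (φ := fun z => M.φ (-z))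
        (fun x => M.φ_nonneg _) hB' hα' hc'' hc0 (by rwa [← haeq]) (by rwa [← haeq])
      rw [← haeq] at h2
      exact low_side_neg M ha.le h2 hε

end

end Pool.Agent.HG
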