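import Pool.Agent.Lib.MP_daa227_pr_HG.MomB
import Pool.Agent.Lib.MP_daa227_pr_HZ.FreePin

/-!
# MP_daa227_pr, general potentials: bridges from the box to the origin
-/

namespace Pool.Agent.HG

open MeasureTheory ProbabilityTheory Finset Filter Topology
open MP_daa227_pr (Chain Zk Zf Gk Gf KU K0 Ren shift seqLaw ExpMom DepOn Good GoodW mom)
open Pool.Agent.HZ (Mod Kv lmg)
open Pool.Agent.IOrd (Sys aS cv)

noncomputable section

/-- the length `m` extended by `2 L` or `2 L - 1` to an even length, in units of two -/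
def ext (L : ℕ) (u : ℕ → ℝ) (m : ℕ) : ℝ := u (m / 2 + L)

namespace Bridge

/-- a path of the right parity -/
theorem wp (C : Chain) {W : ℝ → ℤ → ℝ} (hW : ∀ a z, 0 < W a z) (y : ℤ) :
    ∀ (n : ℕ) (ω : ℕ → ℝ) (x : ℤ), (x - y).natAbs ≤ n →
    Even (n + (x - y).natAbs) → 0 < Zk C W n ω x y := by
  intro n
  induction n with
  | zero =>
    intro ω x h _
    have : x = y := by omega
    rw [this]
    simp [Zk]
  | succ n ih =>
    intro ω x h hd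
    have key : ∀ z : ℤ, z ∈ Finset.Icc (x - 1) (x + 1) → 0 < C.p x z → (z - y).natAbs ≤ n →
        Even (n + (z - y).natAbs) → 0 < Zk C W (n + 1) ω x y := by
      intro z hz hp h1 h2
      rw [Zk]
      refine Finset.sum_pos' (fun w _ => mul_nonneg (mul_nonneg (C.nonneg _ _) (hW _ _).le)
        (HZ.FreePin.Zk_nn C (fun a z => (hW a z).le) _ _ _ _)) ⟨z, hz, ?_⟩
      exact mul_pos (mul_pos hp (hW _ _)) (ih _ z h1 h2)
    rw [Nat.even_iff] at hd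
    rcases lt_or_ge y x with hx | hx
    · refine key (x - 1) (Finset.mem_Icc.2 ⟨le_rfl, by omega⟩) (C.down x) (by omega) ?_
      rw [Nat.even_iff]
      omega
    · rcases lt_or_eq_of_le hx with hx | hx
      · refine key (x + 1) (Finset.mem_Icc.2 ⟨by omega, le_rfl⟩) (C.up x) (by omega) ?_
        rw [Nat.even_iff]
        omega
      · refine key (x + 1) (Finset.mem_Icc.2 ⟨by omega, le_rfl⟩) (C.up x) (by omega) ?_
        rw [Nat.even_iff]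
        omega

/-- a path that holds once -/
theorem wph (C : Chain) {W : ℝ → ℤ → ℝ} (hW : ∀ a z, 0 < W a z) {xh : ℤ} (hxh : 0 < C.p xh xh)
    (n : ℕ) (ω : ℕ → ℝ) (x y : ℤ)
    (hn : (x - xh).natAbs + 1 + (xh - y).natAbs ≤ n) (hp : ¬ Even (n + (x - y).natAbs)) :
    0 < Zk C W n ω x y := by
  obtain ⟨r, hr⟩ : ∃ r : ℕ, n = (x - xh).natAbs + (1 + r) :=
    ⟨n - (x - xh).natAbs - 1, by omega⟩
  rw [Nat.even_iff] at hp
  have h1 : 0 < Zk C W (x - xh).natAbs ω x xh :=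
    wp C hW xh _ ω x le_rfl (by rw [Nat.even_iff]; omega)
  have h2 : ∀ ω, 0 < Zk C W 1 ω xh xh := by
    intro ω
    rw [Zk]
    refine Finset.sum_pos' (fun w _ => mul_nonneg (mul_nonneg (C.nonneg _ _) (hW _ _).le)
      (HZ.FreePin.Zk_nn C (fun a z => (hW a z).le) _ _ _ _))
      ⟨xh, Finset.mem_Icc.2 ⟨by omega, by omega⟩, ?_⟩
    refine mul_pos (mul_pos hxh (hW _ _)) ?_
    simp [Zk]
  have h3 : ∀ ω, 0 < Zk C W r ω xh y := fun ω =>
    wp C hW y r ω xh (by omega) (by rw [Nat.even_iff]; omega)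
  rw [hr]
  have hW0 : ∀ a z, 0 ≤ W a z := fun a z => (hW a z).le
  have h4 := MP_daa227_pr.Zk_mul_le C W hW0 (x - xh).natAbs (1 + r) ω x xh y
  have h5 := MP_daa227_pr.Zk_mul_le C W hW0 1 r (shift (x - xh).natAbs ω) xh xh y
  exact lt_of_lt_of_le (mul_pos h1 (lt_of_lt_of_le (mul_pos (h2 _) (h3 _)) h5)) h4

/-- connection of the box to the origin in every large number of steps, up to parity -/
theorem len (C : Chain) (R : ℕ) : ∃ L : ℕ, 1 ≤ L ∧ ∀ k : ℕ, 2 * L ≤ k + 1 → ∀ v ∈ box R,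
    (∀ W : ℝ → ℤ → ℝ, (∀ a z, 0 < W a z) → ∀ ω, 0 < Zk C W k ω v 0 ∧ 0 < Zk C W k ω 0 v) ∨
      ((∀ x, C.p x x = 0) ∧ ¬ Even (k + v.natAbs)) := by
  by_cases hnl : ∀ x, C.p x x = 0
  · refine ⟨R + 1, by omega, fun k hk v hv => ?_⟩
    rw [box, Finset.mem_Icc] at hv
    by_cases hE : Even (k + v.natAbs)
    · left
      intro W hW ω
      rw [Nat.even_iff] at hE
      refine ⟨wp C hW 0 k ω v (by omega) (by rw [Nat.even_iff]; omega),
        wp C hW v k ω 0 (by omega) (by rw [Nat.even_iff]; omega)⟩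
    · exact Or.inr ⟨hnl, hE⟩
  · push Not at hnl
    obtain ⟨xh, hxh⟩ := hnl
    have hxh' : 0 < C.p xh xh := lt_of_le_of_ne (C.nonneg _ _) (Ne.symm hxh)
    refine ⟨R + 2 * xh.natAbs + 2, by omega, fun k hk v hv => Or.inl ?_⟩
    rw [box, Finset.mem_Icc] at hv
    intro W hW ω
    by_cases hE : Even (k + v.natAbs)
    · rw [Nat.even_iff] at hE
      refine ⟨wp C hW 0 k ω v (by omega) (by rw [Nat.even_iff]; omega),
        wp C hW v k ω 0 (by omega) (by rw [Nat.even_iff]; omega)⟩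
    · rw [Nat.even_iff] at hE
      refine ⟨wph C hW hxh' k ω v 0 (by omega) (by rw [Nat.even_iff]; omega),
        wph C hW hxh' k ω 0 v (by omega) (by rw [Nat.even_iff]; omega)⟩

/-- positive moments -/
theorem mZ_pos_of (M : Mod) {s : ℝ} (hs0 : 0 < s) (hs1 : s ≤ 1) (h : ℝ) {n : ℕ} {x y : ℤ}
    (hpos : ∀ ω, 0 < Zk M.C (M.W h) n ω x y) : 0 < mZ M s h n x y := by
  unfold mZ
  refine ENNReal.toReal_pos ?_ (zk_ne_top M hs0 hs1 h _ x y)
  intro h0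
  have hm : Measurable fun ω => ENNReal.ofReal (Zk M.C (M.W h) n ω x y) ^ s :=
    MP_daa227_pr.measurable_momf (M.good_Zk h _ x y).meas
  have h1 := (lintegral_eq_zero_iff hm).1 h0
  obtain ⟨ω, hω⟩ := h1.exists
  have h2 : ENNReal.ofReal (Zk M.C (M.W h) n ω x y) ^ s = 0 := hω
  rw [ENNReal.rpow_eq_zero_iff_of_pos hs0, ENNReal.ofReal_eq_zero] at h2
  exact absurd (hpos ω) (not_lt.2 h2)

/-- the arithmetic -/
theorem arith {x b b' a c C : ℝ} (hb : 0 < b) (hbb : b ≤ b') (hx : 0 ≤ x) (ha : 0 ≤ a)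
    (h : x * b' ≤ a) (hc : b⁻¹ ≤ c) (hC : c ≤ C) : x ≤ C * a := by
  have h1 : x * b ≤ a := (mul_le_mul_of_nonneg_left hbb hx).trans h
  have h2 : x ≤ b⁻¹ * a := by
    rw [inv_mul_eq_div, le_div_iff₀ hb]
    exact h1
  exact h2.trans (mul_le_mul_of_nonneg_right (hc.trans hC) ha)

end Bridge

/-- the bridges with constants `L` and `C` -/
def Brg (M : Mod) (s hc : ℝ) (R L : ℕ) (C : ℝ) : Prop :=
  1 ≤ L ∧ 1 ≤ C ∧ ∀ d, 0 ≤ d → ∀ m : ℕ, ∀ v ∈ box R,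
      mZ M s (hc - d / M.Φ) m 0 v ≤ C * ext L (aS M.μ (Zg M hc) s d) m ∧
      mZ M s (hc - d / M.Φ) m v 0 ≤ C * ext L (aS M.μ (Zg M hc) s d) m

/-- `mZ m 0 v * mZ k v 0 ≤ mZ (m + k) 0 0` (`mZ_mul`), `k = 2 L - m % 2`, and `mZ k v 0 ≥` its value
at `hc` (`mZ_anti`, `d ≥ 0`), positive; `C` = sum over `v` in the box and the two values of `k` of the
inverses, plus one. Wrong parity: `mZ_parity`. -/
theorem bridge (M : Mod) {s : ℝ} (hs0 : 0 < s) (hs1 : s ≤ 1) (hc : ℝ) (R : ℕ) :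
    ∃ L : ℕ, ∃ C : ℝ, Brg M s hc R L C := by
  obtain ⟨L, hL, hlen⟩ := Bridge.len M.C R
  set f : ℕ → ℤ → ℝ := fun k v => (mZ M s hc k v 0)⁻¹ + (mZ M s hc k 0 v)⁻¹ with hf
  have hp1 : ∀ (k : ℕ) (v : ℤ), 0 ≤ (mZ M s hc k v 0)⁻¹ := fun k v =>
    inv_nonneg.2 (mZ_nonneg _ _ _ _ _ _)
  have hp2 : ∀ (k : ℕ) (v : ℤ), 0 ≤ (mZ M s hc k 0 v)⁻¹ := fun k v =>
    inv_nonneg.2 (mZ_nonneg _ _ _ _ _ _)
  have hf0 : ∀ k v, 0 ≤ f k v := fun k v => add_nonneg (hp1 k v) (hp2 k v)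
  have hS0 : 0 ≤ ∑ v ∈ box R, (f (2 * L) v + f (2 * L - 1) v) :=
    Finset.sum_nonneg fun v _ => add_nonneg (hf0 _ _) (hf0 _ _)
  refine ⟨L, 1 + ∑ v ∈ box R, (f (2 * L) v + f (2 * L - 1) v), hL,
    by linarith, fun d hd m v hv => ?_⟩
  have hle : hc - d / M.Φ ≤ hc := by
    have h1 : 0 ≤ d / M.Φ := div_nonneg hd M.Φ_pos.le
    linarith
  obtain ⟨k, hk1, hk2, hk3⟩ : ∃ k : ℕ, 2 * L ≤ k + 1 ∧ m + k = 2 * (m / 2 + L) ∧
      (k = 2 * L ∨ k = 2 * L - 1) := ⟨2 * L - m % 2, by omega, by omega, by omega⟩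
  have hsum : f k v ≤ 1 + ∑ v ∈ box R, (f (2 * L) v + f (2 * L - 1) v) := by
    have h1 := Finset.single_le_sum
      (f := fun v : ℤ => f (2 * L) v + f (2 * L - 1) v)
      (fun w _ => add_nonneg (hf0 _ w) (hf0 _ w)) hv
    have h2 : f (2 * L) v + f (2 * L - 1) v ≤ ∑ v ∈ box R, (f (2 * L) v + f (2 * L - 1) v) := h1
    have h3 := hf0 (2 * L) v
    have h4 := hf0 (2 * L - 1) v
    rcases hk3 with h | h
    · rw [h]
      linarith
    · rw [h]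
      linarith
  have hx : ext L (aS M.μ (Zg M hc) s d) m = mZ M s (hc - d / M.Φ) (m + k) 0 0 := by
    rw [ext, ← mZ_aS, hk2]
  rw [hx]
  rcases hlen k hk1 v hv with h12 | ⟨h1, h2⟩
  · have h1 : ∀ ω, 0 < Zk M.C (M.W hc) k ω v 0 := fun ω =>
      (h12 _ (fun a z => M.W_pos hc a z) ω).1
    have h2 : ∀ ω, 0 < Zk M.C (M.W hc) k ω 0 v := fun ω =>
      (h12 _ (fun a z => M.W_pos hc a z) ω).2
    refine ⟨?_, ?_⟩
    · exact Bridge.arith (Bridge.mZ_pos_of M hs0 hs1 hc h1) (mZ_anti M hs0 hs1 hle _ _ _)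
        (mZ_nonneg _ _ _ _ _ _) (mZ_nonneg _ _ _ _ _ _)
        (mZ_mul M hs0 hs1 _ m k 0 v 0) (le_add_of_nonneg_right (hp2 k v)) hsum
    · have h3 := mZ_mul M hs0 hs1 (hc - d / M.Φ) k m 0 v 0
      rw [mul_comm, add_comm k m] at h3
      exact Bridge.arith (Bridge.mZ_pos_of M hs0 hs1 hc h2) (mZ_anti M hs0 hs1 hle _ _ _)
        (mZ_nonneg _ _ _ _ _ _) (mZ_nonneg _ _ _ _ _ _) h3
        (le_add_of_nonneg_left (hp1 k v)) hsum
  · have h3 : 0 ≤ (1 + ∑ v ∈ box R, (f (2 * L) v + f (2 * L - 1) v)) *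
        mZ M s (hc - d / M.Φ) (m + k) 0 0 :=
      mul_nonneg (by linarith) (mZ_nonneg _ _ _ _ _ _)
    rw [Nat.even_iff] at h2
    refine ⟨?_, ?_⟩
    · refine (mZ_parity M h1 hs0 _ m 0 v ?_).le.trans h3
      intro h
      rw [Int.even_iff] at h
      omega
    · refine (mZ_parity M h1 hs0 _ m v 0 ?_).le.trans h3
      intro h
      rw [Int.even_iff] at h
      omega

end

end Pool.Agent.HG
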