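import Pool.Agent.Lib.MP_daa227_pr_HG.ESk
import Pool.Agent.Lib.MP_daa227_pr_HZ.Free

/-!
# MP_daa227_pr, general potentials: the abstract system
-/

namespace Pool.Agent.HG

open MeasureTheory ProbabilityTheory Finset Filter Topology
open MP_daa227_pr (Chain Zk Zf Gk Gf KU K0 Ren shift seqLaw ExpMom DepOn Good GoodW mom)
open Pool.Agent.HZ (Mod Kv lmg)
open Pool.Agent.IOrd (Sys aS cv)

noncomputable section

/-- All fields from `HZ.Basic` (`Z_pos`, `Z_mul_le`, `good_Z`, `integrable_logZ`) and `es_Zk`: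
`mono` = `ES.mono`, `conv` = `ES.conv` with `t = 0`, `t' = d / Φ` (note
`hc - (t * d) / Φ`, `hc - 0 / Φ`), `lip` = `ES.lip` with `K (t' - t) = 2 n Φ (d / Φ)`;
`fin`: `MP_daa227_pr.mom_le_exp` (`Good`, positive) or `HZ.mom_one_Zk` and `mom_le_rpow`. Compare
`Lib/MP_daa227_pr_IO/PinSys.lean`. -/
theorem sys (M : Mod) (hc : ℝ) : Sys 2 M.μ (Zg M hc) where
  meas := fun d n => (M.good_Z (hc - d / M.Φ) (2 * n)).meas
  pos := fun d n ω => M.Z_pos (hc - d / M.Φ) (even_two_mul n) ω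
  zero := fun d ω => by
    unfold Zg Mod.Z
    rw [mul_zero, Zk, if_pos rfl]
  dep := fun d n => (M.good_Z (hc - d / M.Φ) (2 * n)).depOn
  mul_le := fun d m n ω => by
    have h := M.Z_mul_le (hc - d / M.Φ) (2 * m) (2 * n) ω
    rw [← mul_add] at h
    exact h
  mono := fun d d' n ω hd =>
    (es_Zk M hc (2 * n) ω 0 0).mono (div_le_div_of_nonneg_right hd M.Φ_pos.le)
  conv := fun d t n ω hd ht0 ht1 => by
    have h := (es_Zk M hc (2 * n) ω 0 0).conv ht0 ht1 (0 / M.Φ) (d / M.Φ)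
    have e : (1 - t) * (0 / M.Φ) + t * (d / M.Φ) = t * d / M.Φ := by
      rw [zero_div, mul_zero, zero_add, mul_div_assoc]
    rw [e] at h
    exact h
  lip := fun d n ω hd => by
    have h := (es_Zk M hc (2 * n) ω 0 0).lip (t := 0 / M.Φ) (t' := d / M.Φ)
      (div_le_div_of_nonneg_right hd M.Φ_pos.le)
    have e : ((2 * n : ℕ) : ℝ) * M.Φ * (d / M.Φ - 0 / M.Φ) = 2 * n * d := by
      have := M.Φ_pos.ne'
      push_cast
      field_simp
      ring
    rw [e] at h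
    exact h
  logint := fun d n => M.integrable_logZ (hc - d / M.Φ) (even_two_mul n)
  fin := fun s hs0 hs1 d n => ((MP_daa227_pr.mom_le_exp M.exp_mom hs0 hs1
    (M.good_Z (hc - d / M.Φ) (2 * n))
    (fun ω => M.Z_pos (hc - d / M.Φ) (even_two_mul n) ω)).trans_lt ENNReal.ofReal_lt_top).ne

/-- limit of the mean logarithm: `HZ.tendsto_Fr`, `Zg M hc d n = M.Z (hc - d / Φ) (2 n)` -/
theorem tendsto_F (M : Mod) (hc d : ℝ) :
    Tendsto (fun n : ℕ => (∫ ω, Real.log (Zg M hc d n ω) ∂seqLaw M.μ) / n) atTop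
      (𝓝 (2 * M.Fr (hc - d / M.Φ))) := by
  have h := (M.tendsto_Fr (hc - d / M.Φ)).const_mul 2
  refine h.congr fun n => ?_
  rcases Nat.eq_zero_or_pos n with h0 | h0
  · subst h0
    simp
  · have h1 : (n : ℝ) ≠ 0 := by positivity
    unfold Mod.Ψ Zg
    push_cast
    field_simp

end

end Pool.Agent.HG
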