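import Pool.Agent.Lib.MP_daa227_pr_HG.RecShift
import Pool.Agent.Lib.MP_daa227_pr_HG.SysG
import Pool.Agent.Lib.MP_daa227_pr.Crit

/-!
# MP_daa227_pr, general potentials: another root
-/

namespace Pool.Agent.HG

open MeasureTheory ProbabilityTheory Finset Filter Topology
open MP_daa227_pr (Chain Zk Zf Gk Gf KU K0 Ren shift seqLaw ExpMom DepOn Good GoodW mom)
open Pool.Agent.HZ (Mod Kv lmg)
open Pool.Agent.IOrd (Sys aS cv)

noncomputable section

/-- the model seen from the site `r` -/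
def shM (M : Mod) (r : ℤ) : Mod where
  C := HZ.ctr M.C r
  μ := M.μ
  prob := M.prob
  exp_mom := M.exp_mom
  mean := M.mean
  var := M.var
  φ x := M.φ (x + r)
  Φ := M.Φ
  ℓ := M.ℓ
  φ_nonneg x := M.φ_nonneg _
  φ_le x := M.φ_le _
  Φ_pos := M.Φ_pos
  φ_ne := by
    obtain ⟨x, hx⟩ := M.φ_ne
    exact ⟨x - r, by simpa using hx⟩
  φ_top := M.φ_top.comp (tendsto_atTop_add_const_right _ r tendsto_id)
  φ_bot := M.φ_bot.comp (tendsto_atBot_add_const_right _ r tendsto_id)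
  β := M.β
  β_pos := M.β_pos
  hrec := rec_shift M.C M.hrec r

namespace ShiftM

theorem to_zero_pos {C : Chain} {W : ℝ → ℤ → ℝ} (hW : ∀ a z, 0 < W a z) (ω : ℕ → ℝ) (x : ℤ) :
    0 < Zk C W x.natAbs ω x 0 := by
  rcases le_or_gt 0 x with h | h
  · have h1 := MP_daa227_pr.Zk_down_pos (C := C) hW ω x x.natAbs
    rwa [show x - (x.natAbs : ℤ) = 0 by omega] at h1
  · have h1 := MP_daa227_pr.Zk_up_pos (C := C) hW ω x x.natAbs
    rwa [show x + (x.natAbs : ℤ) = 0 by omega] at h1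

theorem shM_Z (M : Mod) (r : ℤ) (h : ℝ) (n : ℕ) (ω : ℕ → ℝ) :
    (shM M r).Z h n ω = Zk M.C (M.W h) n ω r r := by
  have e := zk_ctr M.C (M.W h) r n ω 0 0
  rw [zero_add] at e
  exact e

theorem path_le (M : Mod) (r : ℤ) (h : ℝ) (n : ℕ) (ω : ℕ → ℝ) :
    Zk M.C (M.W h) r.natAbs ω 0 r * (Zk M.C (M.W h) n (shift r.natAbs ω) r r *
      Zk M.C (M.W h) r.natAbs (shift (n + r.natAbs) ω) r 0) ≤
      M.Z h (r.natAbs + (n + r.natAbs)) ω := by
  have hW : ∀ a z, 0 ≤ M.W h a z := fun a z => (M.W_pos h a z).le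
  have h1 := MP_daa227_pr.Zk_mul_le M.C (M.W h) hW n r.natAbs (shift r.natAbs ω) r r 0
  have h2 := MP_daa227_pr.Zk_mul_le M.C (M.W h) hW r.natAbs (n + r.natAbs) ω 0 r 0
  rw [MP_daa227_pr.shift_shift] at h1
  have h3 := (M.good_Zk h r.natAbs 0 r).nonneg ω
  exact (mul_le_mul_of_nonneg_left h1 h3).trans h2

theorem psi_le (M : Mod) (r : ℤ) (h : ℝ) : ∃ D : ℝ, ∀ n : ℕ,
    (shM M r).Ψ h (2 * n) ≤ M.Ψ h (2 * n + 2 * r.natAbs) + D := by
  set q := r.natAbs with hq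
  have pA : ∀ ω, 0 < Zk M.C (M.W h) q ω 0 r := fun ω =>
    MP_daa227_pr.Zk_from_zero_pos (M.W_pos h) ω r
  have pB : ∀ ω, 0 < Zk M.C (M.W h) q ω r 0 := fun ω => to_zero_pos (M.W_pos h) ω r
  have iA := (M.good_Zk h q 0 r).integrable_log M.exp_mom pA
  have iB := (M.good_Zk h q r 0).integrable_log M.exp_mom pB
  refine ⟨-(∫ ω, Real.log (Zk M.C (M.W h) q ω 0 r) ∂seqLaw M.μ) -
    ∫ ω, Real.log (Zk M.C (M.W h) q ω r 0) ∂seqLaw M.μ, fun n => ?_⟩
  have pZ : ∀ ω, 0 < Zk M.C (M.W h) (2 * n) ω r r := fun ω =>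
    MP_daa227_pr.Zk_even_pos M.C (M.W_pos h) r n ω
  have gZ := M.good_Zk h (2 * n) r r
  have iZ := gZ.integrable_log M.exp_mom pZ
  have mB := (M.good_Zk h q r 0).meas.log
  have mZ' := gZ.meas.log
  have iZ1 := MP_daa227_pr.integrable_shift M.μ q mZ' iZ
  have iB1 := MP_daa227_pr.integrable_shift M.μ (2 * n + q) mB iB
  have key : ∀ ω, Real.log (Zk M.C (M.W h) q ω 0 r) +
      (Real.log (Zk M.C (M.W h) (2 * n) (shift q ω) r r) +
      Real.log (Zk M.C (M.W h) q (shift (2 * n + q) ω) r 0)) ≤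
      Real.log (M.Z h (2 * n + 2 * q) ω) := fun ω => by
    have h1 := path_le M r h (2 * n) ω
    rw [show r.natAbs + (2 * n + r.natAbs) = 2 * n + 2 * q by omega] at h1
    rw [← Real.log_mul (pZ _).ne' (pB _).ne', ← Real.log_mul (pA _).ne'
      (mul_pos (pZ _) (pB _)).ne']
    exact Real.log_le_log (mul_pos (pA _) (mul_pos (pZ _) (pB _))) h1
  have hev : Even (2 * n + 2 * q) := ⟨n + q, by ring⟩
  have hI := integral_mono (iA.add (iZ1.add iB1)) (M.integrable_logZ h hev) key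
  have e1 : ∫ ω, (Real.log (Zk M.C (M.W h) q ω 0 r) +
      (Real.log (Zk M.C (M.W h) (2 * n) (shift q ω) r r) +
      Real.log (Zk M.C (M.W h) q (shift (2 * n + q) ω) r 0))) ∂seqLaw M.μ =
      (∫ ω, Real.log (Zk M.C (M.W h) q ω 0 r) ∂seqLaw M.μ) +
      ((∫ ω, Real.log (Zk M.C (M.W h) (2 * n) ω r r) ∂seqLaw M.μ) +
      ∫ ω, Real.log (Zk M.C (M.W h) q ω r 0) ∂seqLaw M.μ) := by
    have a1 := integral_add iA (iZ1.add iB1)
    have a2 := integral_add iZ1 iB1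
    refine a1.trans ?_
    congr 1
    refine a2.trans ?_
    rw [MP_daa227_pr.integral_shift M.μ q mZ', MP_daa227_pr.integral_shift M.μ (2 * n + q) mB]
  have e2 : (shM M r).Ψ h (2 * n) = ∫ ω, Real.log (Zk M.C (M.W h) (2 * n) ω r r) ∂seqLaw M.μ := by
    unfold Mod.Ψ
    refine integral_congr_ae (Eventually.of_forall fun ω => ?_)
    show Real.log _ = Real.log _
    rw [shM_Z]
  have hI' : (∫ ω, Real.log (Zk M.C (M.W h) q ω 0 r) ∂seqLaw M.μ) +
      ((∫ ω, Real.log (Zk M.C (M.W h) (2 * n) ω r r) ∂seqLaw M.μ) +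
      ∫ ω, Real.log (Zk M.C (M.W h) q ω r 0) ∂seqLaw M.μ) ≤ M.Ψ h (2 * n + 2 * q) := by
    rw [← e1]
    exact hI
  rw [e2]
  linarith

end ShiftM

/-- `Z_M (2 n + 2 |r|; 0 → 0) ≥ Z (|r|; 0 → r) Z (2 n; r → r) Z (|r|; r → 0)` (`Zk_mul_le`) and
`Z (2 n; r → r) = (shM M r).Z h (2 n)` (`zk_ctr`). Take logarithms and means (the outer factors are
positive, `Good.integrable_log`, shift invariance `MP_daa227_pr.integral_shift`):
`Ψ_M (2 n + 2 |r|) ≥ Ψ_{shM} (2 n) - D`; divide by `2 n` (`HZ.tendsto_Fr`). -/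
theorem fr_shM_le (M : Mod) (r : ℤ) (h : ℝ) : (shM M r).Fr h ≤ M.Fr h := by
  obtain ⟨D, hD⟩ := ShiftM.psi_le M r h
  set E : ℝ := (2 * r.natAbs : ℕ) * M.Fr h + D with hE
  have h1 : Tendsto (fun n : ℕ => M.Fr h + E / ((2 * n : ℕ) : ℝ)) atTop (𝓝 (M.Fr h + 0)) := by
    refine tendsto_const_nhds.add ?_
    refine (tendsto_const_div_atTop_nhds_zero_nat E).comp ?_
    exact tendsto_id.const_mul_atTop' (by norm_num : 0 < 2)
  rw [add_zero] at h1
  refine le_of_tendsto_of_tendsto ((shM M r).tendsto_Fr h) h1 ?_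
  filter_upwards [eventually_gt_atTop 0] with n hn
  have h2 := hD n
  have h3 := M.Ψ_le h (n := 2 * n + 2 * r.natAbs) ⟨n + r.natAbs, by ring⟩
  have h4 : (0 : ℝ) < ((2 * n : ℕ) : ℝ) := by positivity
  rw [div_le_iff₀ h4, add_mul, div_mul_cancel₀ _ h4.ne', hE]
  push_cast at h3 ⊢
  linarith

end

end Pool.Agent.HG
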