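import Pool.Agent.Lib.MP_daa227_pr_HG.FrZero
import Pool.Agent.Lib.MP_daa227_pr_HG.ShiftM
import Pool.Agent.Lib.MP_daa227_pr_HZ.Upper
import Pool.Agent.Lib.MP_daa227_pr_HZ.HZero

/-!
# MP_daa227_pr, general potentials: the critical point
-/

namespace Pool.Agent.HG

open MeasureTheory ProbabilityTheory Finset Filter Topology
open MP_daa227_pr (Chain Zk Zf Gk Gf KU K0 Ren shift seqLaw ExpMom DepOn Good GoodW mom)
open Pool.Agent.HZ (Mod Kv lmg)
open Pool.Agent.IOrd (Sys aS cv)

noncomputable section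

/-- There is `y` with `φ (y + 1) ≠ φ (y - 1)` (otherwise `φ` is two-periodic, and `φ → 0` at plus
infinity gives `φ = 0`). Root `r = y - 2`: `fr_zero_pos'` for `shM M r` and `fr_shM_le`. -/
theorem fr_zero_pos (M : Mod) : 0 < M.Fr 0 := by
  obtain ⟨y, hy⟩ : ∃ y : ℤ, M.φ (y + 1) ≠ M.φ (y - 1) := by
    by_contra hcon
    push Not at hcon
    have hper : ∀ (k : ℕ) (x : ℤ), M.φ (x + 2 * (k : ℤ)) = M.φ x := by
      intro k
      induction k with
      | zero =>
        intro x
        simp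
      | succ k ih =>
        intro x
        have h1 := hcon (x + 2 * (k : ℤ) + 1)
        have e1 : x + 2 * ((k + 1 : ℕ) : ℤ) = x + 2 * (k : ℤ) + 1 + 1 := by
          push_cast
          ring
        have e2 : x + 2 * (k : ℤ) = x + 2 * (k : ℤ) + 1 - 1 := by ring
        rw [e1, h1, ← e2]
        exact ih x
    obtain ⟨x, hx⟩ := M.φ_ne
    have ht : Tendsto (fun k : ℕ => x + 2 * (k : ℤ)) atTop atTop := by
      rw [tendsto_atTop]
      intro b
      filter_upwards [eventually_ge_atTop (b - x).toNat] with k hk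
      omega
    have h1 : Tendsto (fun k : ℕ => M.φ (x + 2 * (k : ℤ))) atTop (𝓝 0) := M.φ_top.comp ht
    have h2 : (fun k : ℕ => M.φ (x + 2 * (k : ℤ))) = fun _ => M.φ x := by
      funext k
      exact hper k x
    rw [h2] at h1
    have h3 := tendsto_nhds_unique tendsto_const_nhds h1
    exact hx.ne' h3
  have h := fr_zero_pos' (shM M (y - 2)) (by
    show M.φ (3 + (y - 2)) ≠ M.φ (1 + (y - 2))
    have e1 : 3 + (y - 2) = y + 1 := by ring
    have e2 : 1 + (y - 2) = y - 1 := by ring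
    rw [e1, e2]
    exact hy)
  exact h.trans_le (fr_shM_le M (y - 2) 0)

/-- `hc = sSup {h | 0 < Fr h}`: the set contains `0` (`fr_zero_pos`), it is bounded by the
`h₀` of `HZ.Mod.exists_h0` (`HZ.Mod.Fr_nonpos`, `Fr_anti`); `Fr` is nonincreasing (`HZ.Fr_anti`),
continuous (`HZ.Fr_lip`), so the set is an open half line, and it contains a right
neighbourhood of `0`. -/
theorem crit (M : Mod) : ∃ hc : ℝ, 0 < hc ∧ ∀ h, 0 < M.Fr h ↔ h < hc := by
  obtain ⟨S, hS⟩ : ∃ S : Set ℝ, S = {h | 0 < M.Fr h} := ⟨_, rfl⟩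
  have hmem : ∀ h, h ∈ S ↔ 0 < M.Fr h := by
    intro h
    rw [hS]
    rfl
  have h0 : (0 : ℝ) ∈ S := (hmem 0).2 (fr_zero_pos M)
  obtain ⟨h₀, -, hs, -⟩ := M.exists_h0
  have hF0 : M.Fr h₀ ≤ 0 := M.Fr_nonpos hs
  have hbdd : BddAbove S := by
    refine ⟨h₀, fun h hh => ?_⟩
    by_contra hcon
    push Not at hcon
    have h1 := M.Fr_anti hcon.le
    have h2 := (hmem h).1 hh
    linarith
  have key : ∀ h, 0 < M.Fr h ↔ h < sSup S := by
    intro h
    constructor
    · intro hF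
      have hle : h ≤ sSup S := le_csSup hbdd ((hmem h).2 hF)
      refine lt_of_le_of_ne hle fun heq => ?_
      have hd : 0 < M.Fr h / (2 * M.Φ) := div_pos hF (mul_pos two_pos M.Φ_pos)
      have h1 := M.Fr_lip (h := h) (h' := h + M.Fr h / (2 * M.Φ)) (by linarith)
      have h2 : (h + M.Fr h / (2 * M.Φ) - h) * M.Φ = M.Fr h / 2 := by
        have := M.Φ_pos.ne'
        field_simp
        ring
      rw [h2] at h1
      have h3 : 0 < M.Fr (h + M.Fr h / (2 * M.Φ)) := by linarith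
      have h4 := le_csSup hbdd ((hmem _).2 h3)
      linarith
    · intro hlt
      obtain ⟨h', hh', hlt'⟩ := exists_lt_of_lt_csSup ⟨0, h0⟩ hlt
      exact ((hmem h').1 hh').trans_le (M.Fr_anti hlt'.le)
  exact ⟨sSup S, (key 0).1 (fr_zero_pos M), key⟩

end

end Pool.Agent.HG
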