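import Pool.Agent.Lib.MP_daa227_pr_HG.Defs
import Pool.Agent.Lib.MP_daa227_pr_HZ.LevelA

/-!
# MP_daa227_pr, general potentials: excursions below the box, pathwise bounds
-/

namespace Pool.Agent.HG

open MeasureTheory ProbabilityTheory Finset Filter Topology
open MP_daa227_pr (Chain Zk Zf Gk Gf KU K0 Ren shift seqLaw ExpMom DepOn Good GoodW mom)
open Pool.Agent.HZ (Mod Kv lmg)
open Pool.Agent.IOrd (Sys aS cv)

noncomputable section

namespace ExcSand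

theorem gk_nonneg (C : Chain) {W : ℝ → ℤ → ℝ} (hW : ∀ a z, 0 ≤ W a z) (B : Finset ℤ) :
    ∀ (k : ℕ) (ω : ℕ → ℝ) (x y : ℤ), 0 ≤ Gk C W B k ω x y
  | 0, _, _, _ => le_refl _
  | k + 1, ω, x, y => by
    rw [Gk]
    refine add_nonneg ?_ (Finset.sum_nonneg fun z _ => mul_nonneg (mul_nonneg (C.nonneg _ _)
      (hW _ _)) (gk_nonneg C hW B k _ _ _))
    split_ifs
    · exact mul_nonneg (C.nonneg _ _) (hW _ _)
    · exact le_refl _

theorem low_step {R : ℕ} {x z : ℤ} (hx : x < -(R : ℤ))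
    (hz : z ∈ Finset.Icc (x - 1) (x + 1) \ box R) : z < -(R : ℤ) := by
  rw [Finset.mem_sdiff, Finset.mem_Icc, box, Finset.mem_Icc] at hz
  omega

theorem pr_dep (w : ℝ → ℝ) : ∀ k : ℕ, DepOn k (HZ.Level.Pr w k)
  | 0 => fun _ _ _ => rfl
  | k + 1 => by
    intro ω ω' h
    show w (ω 0) * HZ.Level.Pr w k (shift 1 ω) = w (ω' 0) * HZ.Level.Pr w k (shift 1 ω')
    rw [h 0 (Nat.succ_pos k), pr_dep w k (shift 1 ω) (shift 1 ω') fun i hi => h (i + 1) (by omega)]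

end ExcSand

/-- the probability of an excursion below the box -/
def bex (C : Chain) (R n : ℕ) (x : ℤ) : ℝ := Gk C (fun _ _ => 1) (box R) n (fun _ => 0) x (-(R : ℤ))

/-- kernels with weights `1` do not depend on the charges and are nonnegative -/
theorem bex_nonneg (C : Chain) (R n : ℕ) (x : ℤ) : 0 ≤ bex C R n x :=
  ExcSand.gk_nonneg C (fun _ _ => zero_le_one) _ _ _ _ _

/-- Induction on `k`. `Pr (k + 1) ω = w (ω 0) * Pr k (shift 1 ω)`, `(shift 1 ω) k = ω (k + 1)`. The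
neighbours of `x < -R` outside the box are `< -R`. -/
theorem sand_le (C : Chain) {W : ℝ → ℤ → ℝ} (hW : ∀ a z, 0 ≤ W a z) {R : ℕ} (hR : 1 ≤ R)
    {w l : ℝ → ℝ} (hw0 : ∀ a, 0 ≤ w a) (hw : ∀ a, ∀ z : ℤ, z < -(R : ℤ) → W a z ≤ w a)
    (hl : ∀ a, W a (-(R : ℤ)) ≤ l a) : ∀ (k : ℕ) (ω : ℕ → ℝ) (x : ℤ), x < -(R : ℤ) →
      Gk C W (box R) (k + 1) ω x (-(R : ℤ)) ≤
        HZ.Level.Pr w k ω * l (ω k) * bex C R (k + 1) x := by
  intro k
  induction k with
  | zero =>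
    intro ω x hx
    rw [bex, Gk, Gk]
    simp only [if_true, Gk, mul_zero, Finset.sum_const_zero, add_zero, mul_one]
    show _ ≤ 1 * l (ω 0) * _
    rw [one_mul, mul_comm (l (ω 0))]
    exact mul_le_mul_of_nonneg_left (hl _) (C.nonneg _ _)
  | succ k ih =>
    intro ω x hx
    rw [bex, Gk, Gk, if_neg (Nat.succ_ne_zero k), if_neg (Nat.succ_ne_zero k), zero_add, zero_add,
      Finset.mul_sum]
    refine Finset.sum_le_sum fun z hz => ?_
    have hz' := ExcSand.low_step hx hz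
    have h1 := ih (shift 1 ω) z hz'
    have h2 : 0 ≤ Gk C W (box R) (k + 1) (shift 1 ω) z (-(R : ℤ)) :=
      ExcSand.gk_nonneg C hW _ _ _ _ _
    have h3 : W (ω 0) z * Gk C W (box R) (k + 1) (shift 1 ω) z (-(R : ℤ)) ≤
        w (ω 0) * (HZ.Level.Pr w k (shift 1 ω) * l (shift 1 ω k) * bex C R (k + 1) z) :=
      mul_le_mul (hw _ z hz') h1 h2 (hw0 _)
    have h4 := mul_le_mul_of_nonneg_left h3 (C.nonneg x z)
    calc C.p x z * W (ω 0) z * Gk C W (box R) (k + 1) (shift 1 ω) z (-(R : ℤ))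
        = C.p x z * (W (ω 0) z * Gk C W (box R) (k + 1) (shift 1 ω) z (-(R : ℤ))) := by ring
      _ ≤ C.p x z * (w (ω 0) * (HZ.Level.Pr w k (shift 1 ω) * l (shift 1 ω k) *
            bex C R (k + 1) z)) := h4
      _ = w (ω 0) * HZ.Level.Pr w k (shift 1 ω) * l (ω (k + 1)) *
            (C.p x z * 1 * bex C R (k + 1) z) := by
          rw [MP_daa227_pr.shift_apply]
          ring

theorem sand_ge (C : Chain) {W : ℝ → ℤ → ℝ} (hW : ∀ a z, 0 ≤ W a z) {R : ℕ} (hR : 1 ≤ R)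
    {w l : ℝ → ℝ} (hw0 : ∀ a, 0 ≤ w a) (hl0 : ∀ a, 0 ≤ l a)
    (hw : ∀ a, ∀ z : ℤ, z < -(R : ℤ) → w a ≤ W a z)
    (hl : ∀ a, l a ≤ W a (-(R : ℤ))) : ∀ (k : ℕ) (ω : ℕ → ℝ) (x : ℤ), x < -(R : ℤ) →
      HZ.Level.Pr w k ω * l (ω k) * bex C R (k + 1) x ≤
        Gk C W (box R) (k + 1) ω x (-(R : ℤ)) := by
  intro k
  induction k with
  | zero =>
    intro ω x hx
    rw [bex, Gk, Gk]
    simp only [if_true, Gk, mul_zero, Finset.sum_const_zero, add_zero, mul_one]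
    show 1 * l (ω 0) * _ ≤ _
    rw [one_mul, mul_comm (l (ω 0))]
    exact mul_le_mul_of_nonneg_left (hl _) (C.nonneg _ _)
  | succ k ih =>
    intro ω x hx
    rw [bex, Gk, Gk, if_neg (Nat.succ_ne_zero k), if_neg (Nat.succ_ne_zero k), zero_add, zero_add,
      Finset.mul_sum]
    refine Finset.sum_le_sum fun z hz => ?_
    have hz' := ExcSand.low_step hx hz
    have h1 := ih (shift 1 ω) z hz'
    have h2 : 0 ≤ HZ.Level.Pr w k (shift 1 ω) * l (shift 1 ω k) * bex C R (k + 1) z :=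
      mul_nonneg (mul_nonneg (HZ.Level.Pr_nonneg hw0 _ _) (hl0 _)) (bex_nonneg C R _ _)
    have h3 : w (ω 0) * (HZ.Level.Pr w k (shift 1 ω) * l (shift 1 ω k) * bex C R (k + 1) z) ≤
        W (ω 0) z * Gk C W (box R) (k + 1) (shift 1 ω) z (-(R : ℤ)) :=
      mul_le_mul (hw _ z hz') h1 h2 (hW _ _)
    have h4 := mul_le_mul_of_nonneg_left h3 (C.nonneg x z)
    calc w (ω 0) * HZ.Level.Pr w k (shift 1 ω) * l (ω (k + 1)) *
            (C.p x z * 1 * bex C R (k + 1) z)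
        = C.p x z * (w (ω 0) * (HZ.Level.Pr w k (shift 1 ω) * l (shift 1 ω k) *
            bex C R (k + 1) z)) := by
          rw [MP_daa227_pr.shift_apply]
          ring
      _ ≤ C.p x z * (W (ω 0) z * Gk C W (box R) (k + 1) (shift 1 ω) z (-(R : ℤ))) := h4
      _ = C.p x z * W (ω 0) z * Gk C W (box R) (k + 1) (shift 1 ω) z (-(R : ℤ)) := by ring

/-- from below the box the other points of the box are not reached first -/
theorem gk_low_zero (C : Chain) (W : ℝ → ℤ → ℝ) {R : ℕ} (hR : 1 ≤ R) : ∀ (k : ℕ) (ω : ℕ → ℝ) (x : ℤ),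
    x < -(R : ℤ) → ∀ v ∈ box R, v ≠ -(R : ℤ) → Gk C W (box R) k ω x v = 0 := by
  intro k
  induction k with
  | zero =>
    intro ω x _ v _ _
    rfl
  | succ k ih =>
    intro ω x hx v hv hvR
    rw [Gk]
    have h1 : C.p x v = 0 := by
      apply C.near
      rw [box, Finset.mem_Icc] at hv
      rw [Finset.mem_Icc]
      omega
    have h2 : ∑ z ∈ Finset.Icc (x - 1) (x + 1) \ box R,
        C.p x z * W (ω 0) z * Gk C W (box R) k (shift 1 ω) z v = 0 := by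
      refine Finset.sum_eq_zero fun z hz => ?_
      rw [ih _ z (ExcSand.low_step hx hz) v hv hvR, mul_zero]
    rw [h2, h1, zero_mul, ite_self, add_zero]

/-- moment of the product: `MP_daa227_pr.mom_mul_shift` (`Pr w k` depends on the first `k` charges),
`HZ.Level.mom_Pr`, `MP_daa227_pr.lintegral_apply` -/
theorem mom_sand {μ : Measure ℝ} [IsProbabilityMeasure μ] {w l : ℝ → ℝ} (hwm : Measurable w)
    (hlm : Measurable l) (hw0 : ∀ a, 0 ≤ w a) (hl0 : ∀ a, 0 ≤ l a) {b : ℝ} (hb : 0 ≤ b) {s : ℝ}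
    (hs : 0 < s) (k : ℕ) :
    mom μ s (fun ω => HZ.Level.Pr w k ω * l (ω k) * b) =
      (∫⁻ x, ENNReal.ofReal (w x) ^ s ∂μ) ^ k * (∫⁻ x, ENNReal.ofReal (l x) ^ s ∂μ) *
        ENNReal.ofReal b ^ s := by
  have hl1 : Measurable (fun ω : ℕ → ℝ => l (ω 0)) := hlm.comp (measurable_pi_apply 0)
  have h1 : mom μ s (fun ω => HZ.Level.Pr w k ω * l (ω k) * b) =
      mom μ s (fun ω => HZ.Level.Pr w k ω * (fun ω' : ℕ → ℝ => b * l (ω' 0)) (shift k ω)) := by
    refine MP_daa227_pr.mom_congr fun ω => ?_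
    show _ = HZ.Level.Pr w k ω * (b * l (shift k ω 0))
    rw [MP_daa227_pr.shift_apply, zero_add]
    ring
  rw [h1, MP_daa227_pr.mom_mul_shift hs.le (HZ.Level.Pr_meas hwm k) (hl1.const_mul b)
    (ExcSand.pr_dep w k) (HZ.Level.Pr_nonneg hw0 k), HZ.Level.mom_Pr hwm hw0 hs.le k,
    MP_daa227_pr.mom_const_mul hs.le hb hl1]
  have h2 : mom μ s (fun ω : ℕ → ℝ => l (ω 0)) = ∫⁻ x, ENNReal.ofReal (l x) ^ s ∂μ :=
    MP_daa227_pr.lintegral_apply μ 0 (Y := fun x => ENNReal.ofReal (l x) ^ s)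
      (hlm.ennreal_ofReal.pow_const s)
  rw [h2]
  ring

end

end Pool.Agent.HG
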