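import Pool.Agent.Lib.MP_daa227_pr_HG.SysG
import Pool.Agent.Lib.MP_daa227_pr_HZ.Grow
import Pool.Agent.Lib.MP_daa227_pr_HZ.MomId

/-!
# MP_daa227_pr, general potentials: a large first moment when the annealed model is localised
-/

namespace Pool.Agent.HG

open MeasureTheory ProbabilityTheory Finset Filter Topology
open MP_daa227_pr (Chain Zk Zf Gk Gf KU K0 Ren shift seqLaw ExpMom DepOn Good GoodW mom)
open Pool.Agent.HZ (Mod Kv lmg)
open Pool.Agent.IOrd (Sys aS cv)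

noncomputable section

/-- `HZ.grow` with `v = M.v hc` (`M.g hc n = Kv M.C (M.v hc) n 0`) gives an even `L` with
`1 < Zd L 0 0`, which is the first moment (`HZ.mom_one_Zk`). -/
theorem h_one (M : Mod) {hc : ℝ} {N : ℕ} (hN : 1 < ∑ n ∈ range N, M.g hc n) :
    ∃ n, 1 < aS M.μ (Zg M hc) 1 0 n := by
  obtain ⟨L, -, hLe, h1⟩ := HZ.grow M.C (M.v hc) hN
  obtain ⟨n, hn⟩ := hLe
  refine ⟨n, ?_⟩
  have h2 : 2 * n = L := by omega
  have h3 : mom M.μ 1 (Zg M hc 0 n) = ENNReal.ofReal (HZ.Zd M.C (M.v hc) L 0 0) := by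
    have h4 := M.mom_one_Zk hc L 0 0
    rw [← h4]
    unfold Zg
    rw [zero_div, sub_zero, h2]
    rfl
  unfold aS
  rw [h3, ENNReal.toReal_ofReal (by linarith)]
  exact h1

end

end Pool.Agent.HG
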