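import Pool.Agent.Lib.MP_daa227_pr_HG.ESum

/-!
# MP_daa227_pr, general potentials: the kernels as sums of exponentials in the field
-/

namespace Pool.Agent.HG

open MeasureTheory ProbabilityTheory Finset Filter Topology
open MP_daa227_pr (Chain Zk Zf Gk Gf KU K0 Ren shift seqLaw ExpMom DepOn Good GoodW mom)
open Pool.Agent.HZ (Mod Kv lmg)
open Pool.Agent.IOrd (Sys aS cv)

noncomputable section

namespace ESk

theorem W_eq (M : Mod) (h t a : ℝ) (z : ℤ) :
    M.W (h - t) a z = Real.exp ((M.β * a - h) * M.φ z) * Real.exp (t * M.φ z) := by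
  unfold Mod.W
  rw [← Real.exp_add]
  congr 1
  ring

theorem es_W (M : Mod) (h : ℝ) (a : ℝ) (x z : ℤ) :
    ES M.Φ (fun t => M.C.p x z * M.W (h - t) a z) := by
  have h1 : (fun t => M.C.p x z * M.W (h - t) a z) =
      fun t => (M.C.p x z * Real.exp ((M.β * a - h) * M.φ z)) * Real.exp (t * M.φ z) := by
    funext t
    rw [W_eq, mul_assoc]
  rw [h1]
  exact ES.expo (mul_nonneg (M.C.nonneg _ _) (Real.exp_pos _).le) (M.φ_nonneg z) (M.φ_le z)

theorem cast_succ_mul (n : ℕ) (Φ : ℝ) : ((n + 1 : ℕ) : ℝ) * Φ = Φ + n * Φ := by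
  push_cast
  ring

theorem nn (n : ℕ) {Φ : ℝ} (h : 0 ≤ Φ) : 0 ≤ Φ + n * Φ := by positivity

theorem es_if {K : ℝ} {p : Prop} [Decidable p] {g : ℝ → ℝ} (hK : 0 ≤ K) (h : ES K g) :
    ES K (fun t => if p then g t else 0) := by
  by_cases hp : p
  · simp only [hp, if_true]
    exact h
  · simp only [hp, if_false]
    exact ES.const le_rfl hK

end ESk

open ESk

/-- Induction on `n` (`Zk`): `W (h - t) a z = exp ((β a - h) φ z) exp (t φ z)`, use `ES.sum`,
`ES.mul`, `ES.expo`. The constant `((n + 1 : ℕ) : ℝ) * Φ = Φ + n * Φ`. -/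
theorem es_Zk (M : Mod) (h : ℝ) : ∀ (n : ℕ) (ω : ℕ → ℝ) (x y : ℤ),
    ES (n * M.Φ) (fun t => Zk M.C (M.W (h - t)) n ω x y) := by
  intro n
  induction n with
  | zero =>
    intro ω x y
    simp only [Zk]
    exact ES.const (by split_ifs <;> norm_num) (by simp)
  | succ n ih =>
    intro ω x y
    rw [cast_succ_mul]
    simp only [Zk]
    exact ES.sum _ (nn n M.Φ_pos.le) fun z _ => ES.mul (es_W M h _ x z) (ih _ _ _)

/-- Same induction for `Gk`. -/
theorem es_Gk (M : Mod) (h : ℝ) (B : Finset ℤ) : ∀ (n : ℕ) (ω : ℕ → ℝ) (x y : ℤ),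
    ES (n * M.Φ) (fun t => Gk M.C (M.W (h - t)) B n ω x y) := by
  intro n
  induction n with
  | zero =>
    intro ω x y
    simp only [Gk]
    exact ES.const le_rfl (by simp)
  | succ n ih =>
    intro ω x y
    rw [cast_succ_mul]
    simp only [Gk]
    refine ES.add ?_ (ES.sum _ (nn n M.Φ_pos.le) fun z _ => ES.mul (es_W M h _ x z) (ih _ _ _))
    refine es_if (nn n M.Φ_pos.le) (ES.weaken (es_W M h _ x y) ?_)
    have := mul_nonneg (Nat.cast_nonneg (α := ℝ) n) M.Φ_pos.le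
    linarith

/-- Same induction for `Kv` (`HZ.Kv_succ`). -/
theorem es_Kv (C : Chain) {φ : ℤ → ℝ} {Φ : ℝ} (h0 : ∀ x, 0 ≤ φ x) (h1 : ∀ x, φ x ≤ Φ) (η : ℝ) :
    ∀ (n : ℕ) (x : ℤ), ES (n * Φ) (fun t => Kv C (fun z => (t - η) * φ z) n x) := by
  have hΦ : 0 ≤ Φ := (h0 0).trans (h1 0)
  have key : ∀ x z : ℤ, ES Φ (fun t => C.p x z * Real.exp ((t - η) * φ z)) := by
    intro x z
    have e : (fun t => C.p x z * Real.exp ((t - η) * φ z)) =
        fun t => (C.p x z * Real.exp (-η * φ z)) * Real.exp (t * φ z) := by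
      funext t
      rw [mul_assoc, ← Real.exp_add]
      congr 2
      ring
    rw [e]
    exact ES.expo (mul_nonneg (C.nonneg _ _) (Real.exp_pos _).le) (h0 z) (h1 z)
  intro n
  induction n with
  | zero =>
    intro x
    simp only [Kv, KU]
    exact ES.const le_rfl (by simp)
  | succ n ih =>
    intro x
    rw [cast_succ_mul]
    have hs : (fun t => Kv C (fun z => (t - η) * φ z) (n + 1) x) = fun t =>
        (if n = 0 then C.p x 0 * Real.exp ((t - η) * φ 0) else 0) +
        ∑ z ∈ Finset.Icc (x - 1) (x + 1) \ {0},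
          C.p x z * Real.exp ((t - η) * φ z) * Kv C (fun z => (t - η) * φ z) n z := by
      funext t
      exact Pool.Agent.HZ.Kv_succ _ _ _ _
    rw [hs]
    refine ES.add ?_ (ES.sum _ (nn n hΦ) fun z _ => ES.mul (key x z) (ih _))
    refine es_if (nn n hΦ) (ES.weaken (key x 0) ?_)
    have := mul_nonneg (Nat.cast_nonneg (α := ℝ) n) hΦ
    linarith

end

end Pool.Agent.HG
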