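import Pool.Agent.Lib.MP_daa227_pr_HG.ESk

/-!
# MP_daa227_pr, order: the good event
-/

namespace Pool.Agent.HG

open MeasureTheory ProbabilityTheory Finset Filter Topology
open MP_daa227_pr (Chain Zk Zf Gk Gf KU K0 Ren shift seqLaw ExpMom DepOn Good GoodW mom)
open Pool.Agent.HZ (Mod Kv lmg)
open Pool.Agent.IOrd (Sys aS cv)

noncomputable section

/-- `E [X; X < x / 2] ≤ x / 2`, and `E [X; Y > (4 y / x) X] ≤ (x / (4 y)) E Y ≤ x / 4`, so
`E [X; A] ≥ x / 4` for the event `A`; Hoelder: `E [X; A] ≤ (E X ^ p) ^ (1/p) P(A) ^ (1/q)`. -/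
theorem ev_prob {μ : Measure ℝ} [IsProbabilityMeasure μ] {X Y : (ℕ → ℝ) → ℝ} (hX : Measurable X)
    (hY : Measurable Y) (hX0 : ∀ ω, 0 ≤ X ω) (hY0 : ∀ ω, 0 ≤ Y ω) {x y : ℝ} (hx : 0 < x)
    (hy : 0 < y) (h1 : mom μ 1 X = ENNReal.ofReal x) (h2 : mom μ 1 Y ≤ ENNReal.ofReal y)
    {p q K : ℝ} (hpq : p.HolderConjugate q) (hK : 0 < K) (h3 : mom μ p X ≤ ENNReal.ofReal K) :
    (x / 4) ^ q / K ^ (q / p) ≤
      (seqLaw μ {ω | x / 2 ≤ X ω ∧ Y ω ≤ 4 * y / x * X ω}).toReal := by
  set A : Set (ℕ → ℝ) := {ω | x / 2 ≤ X ω ∧ Y ω ≤ 4 * y / x * X ω} with hA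
  have hAm : MeasurableSet A :=
    (measurableSet_le measurable_const hX).inter (measurableSet_le hY (hX.const_mul _))
  have hf : Measurable fun ω => ENNReal.ofReal (X ω) := hX.ennreal_ofReal
  have hg : Measurable fun ω => ENNReal.ofReal (Y ω) := hY.ennreal_ofReal
  have hm1 : ∀ Z : (ℕ → ℝ) → ℝ, mom μ 1 Z = ∫⁻ ω, ENNReal.ofReal (Z ω) ∂seqLaw μ := fun Z => by
    unfold mom
    simp only [ENNReal.rpow_one]
  rw [hm1] at h1 h2
  -- the expectation on the event
  have hpt : ∀ ω, ENNReal.ofReal (X ω) ≤ A.indicator (fun ω => ENNReal.ofReal (X ω)) ω +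
      (ENNReal.ofReal (x / 2) + ENNReal.ofReal (x / (4 * y)) * ENNReal.ofReal (Y ω)) := by
    intro ω
    by_cases h : ω ∈ A
    · rw [Set.indicator_of_mem h]
      exact le_self_add
    · rw [Set.indicator_of_notMem h, zero_add, ← ENNReal.ofReal_mul (by positivity),
        ← ENNReal.ofReal_add (by positivity) (mul_nonneg (by positivity) (hY0 ω))]
      apply ENNReal.ofReal_le_ofReal
      have hYp : 0 ≤ x / (4 * y) * Y ω := mul_nonneg (by positivity) (hY0 ω)
      rw [hA, Set.mem_setOf_eq, not_and_or, not_le, not_le] at h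
      rcases h with h | h
      · linarith
      · have h4 : x / (4 * y) * (4 * y / x * X ω) = X ω := by
          field_simp
        have h5 := mul_le_mul_of_nonneg_left h.le (by positivity : 0 ≤ x / (4 * y))
        rw [h4] at h5
        have : 0 < x / 2 := by positivity
        linarith
  have hlow : ENNReal.ofReal (x / 4) ≤ ∫⁻ ω in A, ENNReal.ofReal (X ω) ∂seqLaw μ := by
    have h4 := lintegral_mono (μ := seqLaw μ) hpt
    rw [lintegral_add_left (hf.indicator hAm), lintegral_indicator hAm,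
      lintegral_add_left measurable_const, lintegral_const, measure_univ, mul_one,
      lintegral_const_mul _ hg, h1] at h4
    have h5 : ENNReal.ofReal (x / (4 * y)) * ∫⁻ ω, ENNReal.ofReal (Y ω) ∂seqLaw μ ≤
        ENNReal.ofReal (x / 4) := by
      refine (mul_le_mul_right h2 _).trans (le_of_eq ?_)
      rw [← ENNReal.ofReal_mul (by positivity)]
      congr 1
      field_simp
    have h6 : ENNReal.ofReal x ≤ (∫⁻ ω in A, ENNReal.ofReal (X ω) ∂seqLaw μ) +
        (ENNReal.ofReal (x / 2) + ENNReal.ofReal (x / 4)) :=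
      h4.trans (by gcongr)
    have h7 : ENNReal.ofReal x = ENNReal.ofReal (x / 4) +
        (ENNReal.ofReal (x / 2) + ENNReal.ofReal (x / 4)) := by
      rw [← ENNReal.ofReal_add (by positivity) (by positivity),
        ← ENNReal.ofReal_add (by positivity) (by positivity)]
      congr 1
      ring
    rw [h7] at h6
    exact (ENNReal.add_le_add_iff_right (by finiteness)).1 h6
  -- Hoelder
  have hhol : ∫⁻ ω in A, ENNReal.ofReal (X ω) ∂seqLaw μ ≤
      mom μ p X ^ (1 / p) * (seqLaw μ A) ^ (1 / q) := by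
    have h4 := ENNReal.lintegral_mul_le_Lp_mul_Lq (seqLaw μ) hpq hf.aemeasurable
      ((measurable_const.indicator hAm : Measurable (A.indicator fun _ => (1 : ENNReal)))
        |>.aemeasurable)
    have h5 : ∫⁻ ω in A, ENNReal.ofReal (X ω) ∂seqLaw μ =
        ∫⁻ ω, ((fun ω => ENNReal.ofReal (X ω)) * A.indicator fun _ => (1 : ENNReal)) ω
          ∂seqLaw μ := by
      rw [← lintegral_indicator hAm]
      refine lintegral_congr fun ω => ?_
      by_cases h : ω ∈ A
      · simp [h]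
      · simp [h]
    have h6 : ∫⁻ ω, (A.indicator (fun _ => (1 : ENNReal)) ω) ^ q ∂seqLaw μ = seqLaw μ A := by
      have h7 : ∀ ω, (A.indicator (fun _ => (1 : ENNReal)) ω) ^ q =
          A.indicator (fun _ => (1 : ENNReal)) ω := by
        intro ω
        by_cases h : ω ∈ A
        · simp [h]
        · simp [h, hpq.symm.pos]
      simp only [h7]
      rw [lintegral_indicator hAm]
      simp
    rw [h5]
    refine h4.trans (le_of_eq ?_)
    rw [h6]
    rfl
  have hfinal : ENNReal.ofReal (x / 4) ≤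
      ENNReal.ofReal K ^ (1 / p) * (seqLaw μ A) ^ (1 / q) := by
    refine (hlow.trans hhol).trans ?_
    gcongr
    exact one_div_nonneg.2 hpq.pos.le
  -- back to real numbers
  have hp := hpq.pos
  have hq := hpq.symm.pos
  have hAf : seqLaw μ A ≠ ⊤ := measure_ne_top _ _
  have hreal : x / 4 ≤ K ^ (1 / p) * ((seqLaw μ A).toReal) ^ (1 / q) := by
    have h4 := ENNReal.toReal_mono (by
      refine ENNReal.mul_ne_top ?_ ?_
      · exact ENNReal.rpow_ne_top_of_nonneg (by positivity) ENNReal.ofReal_ne_top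
      · exact ENNReal.rpow_ne_top_of_nonneg (by positivity) hAf) hfinal
    rw [ENNReal.toReal_ofReal (by positivity), ENNReal.toReal_mul, ← ENNReal.toReal_rpow,
      ← ENNReal.toReal_rpow, ENNReal.toReal_ofReal hK.le] at h4
    exact h4
  have hP0 : 0 ≤ (seqLaw μ A).toReal := ENNReal.toReal_nonneg
  rw [div_le_iff₀ (Real.rpow_pos_of_pos hK _)]
  calc (x / 4) ^ q ≤ (K ^ (1 / p) * ((seqLaw μ A).toReal) ^ (1 / q)) ^ q :=
        Real.rpow_le_rpow (by positivity) hreal hq.le
    _ = (seqLaw μ A).toReal * K ^ (q / p) := by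
        rw [Real.mul_rpow (Real.rpow_nonneg hK.le _) (Real.rpow_nonneg hP0 _),
          ← Real.rpow_mul hK.le, ← Real.rpow_mul hP0, one_div_mul_cancel hq.ne',
          Real.rpow_one, mul_comm]
        congr 2
        ring

/-- `h ↦ log Z h (2 n)` is convex (`es_Zk`, `ES.conv` with `θ = t / (t + lam)`:
`hc = (1 - θ) (hc - t) + θ (hc + lam)`) -/
theorem z_conv (M : Mod) {hc lam t : ℝ} (hl : 0 < lam) (ht : 0 ≤ t) (n : ℕ) (ω : ℕ → ℝ) :
    Real.log (M.Z hc (2 * n) ω) + t / lam * (Real.log (M.Z hc (2 * n) ω) -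
      Real.log (M.Z (hc + lam) (2 * n) ω)) ≤ Real.log (M.Z (hc - t) (2 * n) ω) := by
  have htl : 0 < t + lam := by linarith
  have h1 := (es_Zk M hc (2 * n) ω 0 0).conv (θ := t / (t + lam)) (by positivity)
    ((div_le_one htl).2 (by linarith)) t (-lam)
  have e0 : (1 - t / (t + lam)) * t + t / (t + lam) * -lam = 0 := by
    field_simp
    ring
  rw [e0, sub_zero, sub_neg_eq_add] at h1
  have hz0 : 0 < M.Z hc (2 * n) ω := M.Z_pos hc (even_two_mul n) ω
  have hz1 : 0 < M.Z (hc - t) (2 * n) ω := M.Z_pos _ (even_two_mul n) ω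
  have hz2 : 0 < M.Z (hc + lam) (2 * n) ω := M.Z_pos _ (even_two_mul n) ω
  have h2 : M.Z hc (2 * n) ω ≤ M.Z (hc - t) (2 * n) ω ^ (1 - t / (t + lam)) *
      M.Z (hc + lam) (2 * n) ω ^ (t / (t + lam)) := h1
  have h3 := Real.log_le_log hz0 h2
  rw [Real.log_mul (Real.rpow_pos_of_pos hz1 _).ne' (Real.rpow_pos_of_pos hz2 _).ne',
    Real.log_rpow hz1, Real.log_rpow hz2] at h3
  have h4 := mul_le_mul_of_nonneg_left h3 (by positivity : 0 ≤ (t + lam) / lam)
  have e1 : (t + lam) / lam * ((1 - t / (t + lam)) * Real.log (M.Z (hc - t) (2 * n) ω) +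
      t / (t + lam) * Real.log (M.Z (hc + lam) (2 * n) ω)) =
      Real.log (M.Z (hc - t) (2 * n) ω) + t / lam * Real.log (M.Z (hc + lam) (2 * n) ω) := by
    field_simp
    ring
  have e2 : (t + lam) / lam * Real.log (M.Z hc (2 * n) ω) =
      Real.log (M.Z hc (2 * n) ω) + t / lam * Real.log (M.Z hc (2 * n) ω) := by
    field_simp
    ring
  rw [e1, e2] at h4
  linarith

end

end Pool.Agent.HG
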