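import Pool.Agent.Lib.MP_daa227_pr_HG.Defs

/-!
# MP_daa227_pr, order: two estimates for renewal sequences
-/

namespace Pool.Agent.HG

open MeasureTheory ProbabilityTheory Finset Filter Topology
open MP_daa227_pr (Chain Zk Zf Gk Gf KU K0 Ren shift seqLaw ExpMom DepOn Good GoodW mom)
open Pool.Agent.HZ (Mod Kv lmg)
open Pool.Agent.IOrd (Sys aS cv)

noncomputable section

/-- `U = ∑ u e^{-sn}`, `G = ∑ g e^{-sn}` (both converge: `u ≤ 1`, `∑ g ≤ 1`, e.g.
`HZ.Grow.renewal_gen_bound`), `U = 1 + G U`, and `1 - G ≤ A s ^ a` (`h1`, `hT`). -/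
theorem ren_low {g u : ℕ → ℝ} (hg : ∀ n, 0 ≤ g n) (hg0 : g 0 = 0) (hu : ∀ n, 0 ≤ u n)
    (hu0 : u 0 = 1) (hren : ∀ n, n ≠ 0 → u n = ∑ m ∈ Finset.Ioc 0 n, g m * u (n - m))
    (hu1 : ∀ n, u n ≤ 1) (hs1 : ∀ N : ℕ, ∑ n ∈ range N, g n ≤ 1)
    (h1 : ∀ η : ℝ, 0 < η → ∃ N : ℕ, 1 - η ≤ ∑ n ∈ range N, g n) {a A : ℝ}
    (hT : ∀ s : ℝ, 0 < s → s ≤ 1 → ∀ N : ℕ,
      ∑ n ∈ range N, g n * (1 - Real.exp (-(s * n))) ≤ A * s ^ a) {s : ℝ} (h0 : 0 < s)
    (hs : s ≤ 1) : 1 ≤ A * s ^ a * ∑' n : ℕ, u n * Real.exp (-(s * n)) := by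
  have hE : ∀ n : ℕ, Real.exp (-(s * n)) = Real.exp (-s) ^ n := by
    intro n
    rw [← Real.exp_nat_mul]
    congr 1
    ring
  have hr0 : 0 ≤ Real.exp (-s) := (Real.exp_pos _).le
  have hr1 : Real.exp (-s) < 1 := by
    rw [Real.exp_lt_one_iff]
    linarith
  have hgeo : Summable fun n : ℕ => Real.exp (-s) ^ n := summable_geometric_of_lt_one hr0 hr1
  have hg1 : ∀ n, g n ≤ 1 := fun n => by
    refine le_trans ?_ (hs1 (n + 1))
    exact Finset.single_le_sum (f := g) (fun i _ => hg i) (Finset.mem_range.2 (Nat.lt_succ_self n))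
  have hpos : ∀ n : ℕ, 0 ≤ Real.exp (-(s * n)) := fun n => (Real.exp_pos _).le
  have hU : Summable fun n : ℕ => u n * Real.exp (-(s * n)) := by
    refine Summable.of_nonneg_of_le (fun n => mul_nonneg (hu n) (hpos n)) (fun n => ?_) hgeo
    rw [← hE]
    exact mul_le_of_le_one_left (hpos n) (hu1 n)
  have hG : Summable fun n : ℕ => g n * Real.exp (-(s * n)) := by
    refine Summable.of_nonneg_of_le (fun n => mul_nonneg (hg n) (hpos n)) (fun n => ?_) hgeo
    rw [← hE]
    exact mul_le_of_le_one_left (hpos n) (hg1 n)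
  have hUn : Summable fun n : ℕ => ‖u n * Real.exp (-(s * n))‖ := by
    simpa only [Real.norm_of_nonneg (mul_nonneg (hu _) (hpos _))] using hU
  have hGn : Summable fun n : ℕ => ‖g n * Real.exp (-(s * n))‖ := by
    simpa only [Real.norm_of_nonneg (mul_nonneg (hg _) (hpos _))] using hG
  have hmul := tsum_mul_tsum_eq_tsum_sum_range_of_summable_norm hGn hUn
  have hterm : ∀ n : ℕ, ∑ k ∈ range (n + 1), g k * Real.exp (-(s * k)) *
      (u (n - k) * Real.exp (-(s * (n - k : ℕ)))) =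
      u n * Real.exp (-(s * n)) - (if n = 0 then (1 : ℝ) else 0) := by
    intro n
    rcases Nat.eq_zero_or_pos n with h | h
    · subst h
      simp [hu0, hg0]
    · rw [if_neg h.ne', sub_zero, hren n h.ne', Finset.sum_mul]
      symm
      refine Finset.sum_subset_zero_on_sdiff ?_ ?_ ?_
      · intro m hm
        rw [Finset.mem_Ioc] at hm
        rw [Finset.mem_range]
        omega
      · intro m hm
        rw [Finset.mem_sdiff, Finset.mem_range, Finset.mem_Ioc] at hm
        have hm0 : m = 0 := by omega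
        subst hm0
        simp [hg0]
      · intro m hm
        rw [Finset.mem_Ioc] at hm
        have hx : Real.exp (-(s * (n : ℝ))) =
            Real.exp (-(s * (m : ℝ))) * Real.exp (-(s * ((n - m : ℕ) : ℝ))) := by
          rw [← Real.exp_add, Nat.cast_sub hm.2]
          congr 1
          ring
        rw [hx]
        ring
  have hGU : (∑' n : ℕ, g n * Real.exp (-(s * n))) * (∑' n : ℕ, u n * Real.exp (-(s * n))) =
      (∑' n : ℕ, u n * Real.exp (-(s * n))) - 1 := by
    rw [hmul, tsum_congr hterm, Summable.tsum_sub hU]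
    · rw [tsum_ite_eq 0 (fun _ => (1 : ℝ))]
    · exact (hasSum_ite_eq 0 (1 : ℝ)).summable
  set U : ℝ := ∑' n : ℕ, u n * Real.exp (-(s * n)) with hUd
  set G : ℝ := ∑' n : ℕ, g n * Real.exp (-(s * n)) with hGd
  have hU0 : 0 ≤ U := tsum_nonneg fun n => mul_nonneg (hu n) (hpos n)
  have hGl : 1 - G ≤ A * s ^ a := by
    refine le_of_forall_pos_le_add fun η hη => ?_
    obtain ⟨N, hN⟩ := h1 η hη
    have hb := hT s h0 hs N
    have hc : ∑ n ∈ range N, g n * Real.exp (-(s * n)) ≤ G :=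
      hG.sum_le_tsum _ fun n _ => mul_nonneg (hg n) (hpos n)
    have hd : ∑ n ∈ range N, g n * (1 - Real.exp (-(s * n))) =
        ∑ n ∈ range N, g n - ∑ n ∈ range N, g n * Real.exp (-(s * n)) := by
      rw [← Finset.sum_sub_distrib]
      exact Finset.sum_congr rfl fun n _ => by ring
    rw [hd] at hb
    linarith
  have h2 : (1 - G) * U = 1 := by linarith
  calc (1 : ℝ) = (1 - G) * U := h2.symm
    _ ≤ A * s ^ a * U := mul_le_mul_of_nonneg_right hGl hU0

/-- `S_N = ∑_{n<N} z n ≤ 1 + (∑_{m<N} g m) S_N ≤ 1 + (1 - c) S_N` -/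
theorem ren_up {g z : ℕ → ℝ} (hg : ∀ n, 0 ≤ g n) (hz : ∀ n, 0 ≤ z n)
    (hz0 : z 0 = 1) (hren : ∀ n, n ≠ 0 → z n = ∑ m ∈ Finset.Ioc 0 n, g m * z (n - m))
    {c : ℝ} (hc : 0 < c) (hs : ∀ N : ℕ, ∑ n ∈ range N, g n ≤ 1 - c) (N : ℕ) :
    ∑ n ∈ range N, z n ≤ 1 / c := by
  have hterm : ∀ n : ℕ, z n ≤ (if n = 0 then (1 : ℝ) else 0) +
      ∑ k ∈ range (n + 1), g k * z (n - k) := by
    intro n
    rcases Nat.eq_zero_or_pos n with h | h
    · subst h
      simp only [if_true, hz0]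
      have : 0 ≤ ∑ k ∈ range (0 + 1), g k * z (0 - k) :=
        Finset.sum_nonneg fun k _ => mul_nonneg (hg k) (hz _)
      linarith
    · rw [if_neg h.ne', zero_add, hren n h.ne']
      refine Finset.sum_le_sum_of_subset_of_nonneg ?_ fun k _ _ => mul_nonneg (hg k) (hz _)
      intro m hm
      rw [Finset.mem_Ioc] at hm
      rw [Finset.mem_range]
      omega
  have hS0 : 0 ≤ ∑ n ∈ range N, z n := Finset.sum_nonneg fun n _ => hz n
  have h1 : ∑ n ∈ range N, z n ≤ 1 + (1 - c) * ∑ n ∈ range N, z n := by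
    calc ∑ n ∈ range N, z n ≤ ∑ n ∈ range N, ((if n = 0 then (1 : ℝ) else 0) +
          ∑ k ∈ range (n + 1), g k * z (n - k)) := Finset.sum_le_sum fun n _ => hterm n
      _ = (∑ n ∈ range N, (if n = 0 then (1 : ℝ) else 0)) +
          ∑ m ∈ range N, ∑ k ∈ range (N - m), g m * z k := by
          rw [Finset.sum_add_distrib,
            Finset.sum_range_diag_flip N (fun k l => g k * z l)]
      _ ≤ 1 + ∑ m ∈ range N, g m * ∑ n ∈ range N, z n := by
          refine add_le_add ?_ (Finset.sum_le_sum fun m _ => ?_)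
          · rw [Finset.sum_ite_eq']
            split_ifs <;> norm_num
          · rw [← Finset.mul_sum]
            refine mul_le_mul_of_nonneg_left ?_ (hg m)
            refine Finset.sum_le_sum_of_subset_of_nonneg ?_ fun k _ _ => hz k
            intro k hk
            rw [Finset.mem_range] at hk ⊢
            omega
      _ ≤ 1 + (1 - c) * ∑ n ∈ range N, z n := by
          rw [← Finset.sum_mul]
          have := mul_le_mul_of_nonneg_right (hs N) hS0
          linarith
  rw [le_div_iff₀ hc]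
  linarith

end

end Pool.Agent.HG
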