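import Pool.Agent.Lib.MP_daa227_pr_HG.ESk
import Pool.Agent.Lib.MP_daa227_pr_HZ.Lmg
import Pool.Agent.Lib.MP_daa227_pr_HZ.Interp

/-!
# MP_daa227_pr, order: strict monotonicity and slopes
-/

namespace Pool.Agent.HG

open MeasureTheory ProbabilityTheory Finset Filter Topology
open MP_daa227_pr (Chain Zk Zf Gk Gf KU K0 Ren shift seqLaw ExpMom DepOn Good GoodW mom)
open Pool.Agent.HZ (Mod Kv lmg)
open Pool.Agent.IOrd (Sys aS cv)

noncomputable section

namespace KvD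

/-- the bumped exponents -/
def bp (v : ℤ → ℝ) (x₀ : ℤ) (t : ℝ) : ℤ → ℝ := fun z => v z + if z = x₀ then t else 0

theorem le_bp (v : ℤ → ℝ) (x₀ : ℤ) {t : ℝ} (ht : 0 ≤ t) (z : ℤ) : v z ≤ bp v x₀ t z := by
  unfold bp
  split_ifs <;> linarith

/-- one step of the path -/
theorem step (C : Chain) (v : ℤ → ℝ) (x₀ : ℤ) (n : ℕ) (x z : ℤ) (hz : z ≠ 0)
    (hm : z ∈ Finset.Icc (x - 1) (x + 1)) {d t : ℝ} (ht : 0 ≤ t)
    (h : Real.exp (v z) * Kv C v n z + t * d ≤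
      Real.exp (bp v x₀ t z) * Kv C (bp v x₀ t) n z) :
    Kv C v (n + 1) x + t * (C.p x z * d) ≤ Kv C (bp v x₀ t) (n + 1) x := by
  rw [HZ.Kv_succ, HZ.Kv_succ]
  have hmem : z ∈ Finset.Icc (x - 1) (x + 1) \ {0} := by
    rw [Finset.mem_sdiff, Finset.mem_singleton]
    exact ⟨hm, hz⟩
  rw [← Finset.add_sum_erase _ _ hmem, ← Finset.add_sum_erase _ _ hmem]
  have h1 : (if n = 0 then C.p x 0 * Real.exp (v 0) else 0) ≤
      (if n = 0 then C.p x 0 * Real.exp (bp v x₀ t 0) else 0) := by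
    split_ifs
    · exact mul_le_mul_of_nonneg_left (Real.exp_le_exp.2 (le_bp v x₀ ht 0)) (C.nonneg _ _)
    · exact le_rfl
  have h2 : ∑ y ∈ (Finset.Icc (x - 1) (x + 1) \ {0}).erase z,
      C.p x y * Real.exp (v y) * Kv C v n y ≤
      ∑ y ∈ (Finset.Icc (x - 1) (x + 1) \ {0}).erase z,
        C.p x y * Real.exp (bp v x₀ t y) * Kv C (bp v x₀ t) n y := by
    refine Finset.sum_le_sum fun y _ => ?_
    exact mul_le_mul (mul_le_mul_of_nonneg_left (Real.exp_le_exp.2 (le_bp v x₀ ht y))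
      (C.nonneg _ _)) (HZ.Kv_mono C (le_bp v x₀ ht) n y) (HZ.Kv_nonneg C v n y)
      (mul_nonneg (C.nonneg _ _) (Real.exp_pos _).le)
  have h3 := mul_le_mul_of_nonneg_left h (C.nonneg x z)
  have h4 : C.p x z * Real.exp (v z) * Kv C v n z + t * (C.p x z * d) ≤
      C.p x z * Real.exp (bp v x₀ t z) * Kv C (bp v x₀ t) n z := by
    calc _ = C.p x z * (Real.exp (v z) * Kv C v n z + t * d) := by ring
      _ ≤ _ := h3
      _ = _ := by ring
  linarith

/-- the straight path downwards -/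
theorem down_pos (C : Chain) (v : ℤ → ℝ) : ∀ n : ℕ, 0 < Kv C v (n + 1) ((n : ℤ) + 1) := by
  intro n
  induction n with
  | zero =>
    rw [HZ.Kv_succ, if_pos rfl]
    have h := C.down 1
    have h1 : (1 : ℤ) - 1 = 0 := by norm_num
    rw [h1] at h
    refine add_pos_of_pos_of_nonneg ?_ ?_
    · have h2 : ((0 : ℕ) : ℤ) + 1 = 1 := by norm_num
      rw [h2]
      exact mul_pos h (Real.exp_pos _)
    · exact Finset.sum_nonneg fun z _ =>
        mul_nonneg (mul_nonneg (C.nonneg _ _) (Real.exp_pos _).le) (HZ.Kv_nonneg C v 0 z)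
  | succ n ih =>
    rw [HZ.Kv_succ, if_neg (Nat.succ_ne_zero n), zero_add]
    have hmem : ((n : ℤ) + 1) ∈ Finset.Icc (((n + 1 : ℕ) : ℤ) + 1 - 1)
        (((n + 1 : ℕ) : ℤ) + 1 + 1) \ {0} := by
      rw [Finset.mem_sdiff, Finset.mem_singleton, Finset.mem_Icc]
      push_cast
      omega
    refine lt_of_lt_of_le ?_ (Finset.single_le_sum (f := fun z =>
      C.p (((n + 1 : ℕ) : ℤ) + 1) z * Real.exp (v z) * Kv C v (n + 1) z)
      (fun z _ => mul_nonneg (mul_nonneg (C.nonneg _ _) (Real.exp_pos _).le)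
        (HZ.Kv_nonneg C v (n + 1) z)) hmem)
    refine mul_pos (mul_pos ?_ (Real.exp_pos _)) ih
    have h := C.down (((n + 1 : ℕ) : ℤ) + 1)
    have h1 : ((n + 1 : ℕ) : ℤ) + 1 - 1 = (n : ℤ) + 1 := by
      push_cast
      ring
    rw [h1] at h
    exact h

/-- the path upwards: `j` steps below the level `m + 1` -/
theorem up_path (C : Chain) (v : ℤ → ℝ) (m : ℕ) : ∀ j : ℕ, j ≤ m → ∃ (n : ℕ) (d : ℝ), 0 < d ∧
    ∀ t : ℝ, 0 ≤ t → Kv C v (n + 1) ((m : ℤ) - j) + t * d ≤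
      Kv C (bp v ((m : ℤ) + 1) t) (n + 1) ((m : ℤ) - j) := by
  intro j
  induction j with
  | zero =>
    intro _
    refine ⟨m + 1, C.p m (m + 1) * (Real.exp (v ((m : ℤ) + 1)) * Kv C v (m + 1) ((m : ℤ) + 1)),
      mul_pos (C.up m) (mul_pos (Real.exp_pos _) (down_pos C v m)), ?_⟩
    intro t ht
    have h0 : (m : ℤ) - ((0 : ℕ) : ℤ) = m := by simp
    rw [h0]
    refine step C v ((m : ℤ) + 1) (m + 1) m ((m : ℤ) + 1) (by omega) ?_ ht ?_
    · rw [Finset.mem_Icc]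
      omega
    · have h1 : bp v ((m : ℤ) + 1) t ((m : ℤ) + 1) = v ((m : ℤ) + 1) + t := by
        unfold bp
        rw [if_pos rfl]
      rw [h1, Real.exp_add]
      have h2 := HZ.Kv_mono C (le_bp v ((m : ℤ) + 1) ht) (m + 1) ((m : ℤ) + 1)
      have h3 := Real.add_one_le_exp t
      have h4 := HZ.Kv_nonneg C v (m + 1) ((m : ℤ) + 1)
      have h5 := (Real.exp_pos (v ((m : ℤ) + 1))).le
      have h6 : Real.exp (v ((m : ℤ) + 1)) * (t + 1) * Kv C v (m + 1) ((m : ℤ) + 1) ≤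
          Real.exp (v ((m : ℤ) + 1)) * Real.exp t *
            Kv C (bp v ((m : ℤ) + 1) t) (m + 1) ((m : ℤ) + 1) :=
        mul_le_mul (mul_le_mul_of_nonneg_left h3 h5) h2 h4 (mul_nonneg h5 (Real.exp_pos _).le)
      linarith
  | succ j ih =>
    intro hj
    obtain ⟨n, d, hd, h⟩ := ih (by omega)
    refine ⟨n + 1, C.p ((m : ℤ) - ((j + 1 : ℕ) : ℤ)) ((m : ℤ) - j) *
      (Real.exp (v ((m : ℤ) - j)) * d), mul_pos ?_ (mul_pos (Real.exp_pos _) hd), ?_⟩
    · have h1 := C.up ((m : ℤ) - ((j + 1 : ℕ) : ℤ))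
      have h2 : (m : ℤ) - ((j + 1 : ℕ) : ℤ) + 1 = (m : ℤ) - j := by
        push_cast
        ring
      rw [h2] at h1
      exact h1
    · intro t ht
      refine step C v ((m : ℤ) + 1) (n + 1) _ ((m : ℤ) - j) (by omega) ?_ ht ?_
      · rw [Finset.mem_Icc]
        push_cast
        omega
      · have h1 := h t ht
        have h2 := Real.exp_le_exp.2 (le_bp v ((m : ℤ) + 1) ht ((m : ℤ) - j))
        have h3 := HZ.Kv_nonneg C (bp v ((m : ℤ) + 1) t) (n + 1) ((m : ℤ) - j)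
        have h4 := (Real.exp_pos (v ((m : ℤ) - j))).le
        calc Real.exp (v ((m : ℤ) - j)) * Kv C v (n + 1) ((m : ℤ) - j) +
              t * (Real.exp (v ((m : ℤ) - j)) * d)
            = Real.exp (v ((m : ℤ) - j)) * (Kv C v (n + 1) ((m : ℤ) - j) + t * d) := by ring
          _ ≤ Real.exp (v ((m : ℤ) - j)) *
              Kv C (bp v ((m : ℤ) + 1) t) (n + 1) ((m : ℤ) - j) :=
              mul_le_mul_of_nonneg_left h1 h4
          _ ≤ _ := mul_le_mul_of_nonneg_right h2 h3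

theorem bump_pos (C : Chain) (v : ℤ → ℝ) (m : ℕ) : ∃ (n₀ : ℕ) (d : ℝ), 0 < d ∧ ∀ t : ℝ, 0 ≤ t →
    Kv C v n₀ 0 + t * d ≤ Kv C (bp v ((m : ℤ) + 1) t) n₀ 0 := by
  obtain ⟨n, d, hd, h⟩ := up_path C v m m le_rfl
  refine ⟨n + 1, d, hd, fun t ht => ?_⟩
  have h1 := h t ht
  rw [sub_self] at h1
  exact h1

theorem bump_zero (C : Chain) (v : ℤ → ℝ) : ∃ (n₀ : ℕ) (d : ℝ), 0 < d ∧ ∀ t : ℝ, 0 ≤ t →
    Kv C v n₀ 0 + t * d ≤ Kv C (bp v 0 t) n₀ 0 := by
  have hk : ∀ w : ℤ → ℝ, Kv C w 1 1 = C.p 1 0 * Real.exp (w 0) := by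
    intro w
    rw [HZ.Kv_succ, if_pos rfl]
    have : ∑ z ∈ Finset.Icc ((1 : ℤ) - 1) (1 + 1) \ {0},
        C.p 1 z * Real.exp (w z) * Kv C w 0 z = 0 := by
      refine Finset.sum_eq_zero fun z _ => ?_
      rw [HZ.Kv_zero, mul_zero]
    rw [this, add_zero]
  have hd := C.down 1
  have h1 : (1 : ℤ) - 1 = 0 := by norm_num
  rw [h1] at hd
  have hu := C.up 0
  rw [zero_add] at hu
  refine ⟨2, C.p 0 1 * (Real.exp (v 1) * (C.p 1 0 * Real.exp (v 0))),
    mul_pos hu (mul_pos (Real.exp_pos _) (mul_pos hd (Real.exp_pos _))), fun t ht => ?_⟩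
  refine step C v 0 1 0 1 one_ne_zero ?_ ht ?_
  · rw [Finset.mem_Icc]
    omega
  · rw [hk, hk]
    have h2 : bp v 0 t 0 = v 0 + t := by
      unfold bp
      rw [if_pos rfl]
    have h3 : bp v 0 t 1 = v 1 := by
      unfold bp
      rw [if_neg one_ne_zero, add_zero]
    rw [h2, h3, Real.exp_add]
    have h4 := Real.add_one_le_exp t
    have h5 : 0 ≤ Real.exp (v 1) * (C.p 1 0 * Real.exp (v 0)) :=
      (mul_pos (Real.exp_pos _) (mul_pos hd (Real.exp_pos _))).le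
    have h6 := mul_le_mul_of_nonneg_left h4 h5
    linarith

end KvD

open KvD

/-- `t ↦ Kv (v + t 1_{x₀}) n 0` is a finite sum `∑ w_i exp (t σ_i)` with `w_i, σ_i ≥ 0` (induction as
`es_Kv`), not constant for some `n` (`kv_strict`), and `exp (t σ) ≥ 1 + t σ`. -/
theorem kv_bump (C : Chain) (v : ℤ → ℝ) (x₀ : ℤ) : ∃ (n₀ : ℕ) (d : ℝ), 0 < d ∧ ∀ t : ℝ, 0 ≤ t →
    Kv C v n₀ 0 + t * d ≤ Kv C (fun z => v z + if z = x₀ then t else 0) n₀ 0 := by
  rcases lt_trichotomy x₀ 0 with h | h | h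
  · obtain ⟨m, hm⟩ : ∃ m : ℕ, -x₀ = (m : ℤ) + 1 := ⟨(-x₀ - 1).toNat, by omega⟩
    obtain ⟨n, d, hd, hn⟩ := bump_pos (HZ.cneg C) (fun z => v (-z)) m
    refine ⟨n, d, hd, fun t ht => ?_⟩
    have h1 := hn t ht
    have h2 : bp (fun z => v (-z)) ((m : ℤ) + 1) t =
        fun z => (fun z => v z + if z = x₀ then t else 0) (-z) := by
      funext z
      unfold bp
      dsimp only
      congr 1
      by_cases hz : z = (m : ℤ) + 1
      · rw [if_pos hz, if_pos (by omega)]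
      · rw [if_neg hz, if_neg (by omega)]
    have h3 := HZ.Kv_cneg C (fun z => v z + if z = x₀ then t else 0) n 0
    have h4 := HZ.Kv_cneg C v n 0
    rw [neg_zero] at h3 h4
    rw [h2, h3, h4] at h1
    exact h1
  · subst h
    exact bump_zero C v
  · obtain ⟨m, rfl⟩ : ∃ m : ℕ, x₀ = (m : ℤ) + 1 := ⟨(x₀ - 1).toNat, by omega⟩
    exact bump_pos C v m

/-- The path that goes straight from `0` to `x₀` and back (length `2 |x₀|`; for `x₀ = 0` any path of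
length `2` from `0` to `1` and back) has a larger weight for `w`; for the others `HZ.Kv_mono`. Show
for `x > 0` by the recursion: `Kv v x x < Kv w x x` if `v y < w y` for some `0 ≤ y < x`, and lift it
from `0` to `x₀`. For `x₀ < 0` reflect (`HZ.Kv_cneg`). -/
theorem kv_strict (C : Chain) {v w : ℤ → ℝ} (hle : ∀ z, v z ≤ w z) {x₀ : ℤ} (hlt : v x₀ < w x₀) :
    ∃ n : ℕ, Kv C v n 0 < Kv C w n 0 := by
  obtain ⟨n, d, hd, h⟩ := kv_bump C v x₀
  refine ⟨n, ?_⟩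
  have h1 := h (w x₀ - v x₀) (by linarith)
  have h2 : Kv C (fun z => v z + if z = x₀ then w x₀ - v x₀ else 0) n 0 ≤ Kv C w n 0 := by
    apply HZ.Kv_mono
    intro z
    split_ifs with hz
    · subst hz
      linarith
    · rw [add_zero]
      exact hle z
  have h3 : 0 < (w x₀ - v x₀) * d := mul_pos (by linarith) hd
  linarith

/-- `kv_strict` at `n₀` for `v (h + 1) ≤ v h` (`M.φ_ne`), and `t ↦ M.g (h + 1 - t) n` is convex
(`HZ.Interp.interp_K` and the arithmetic mean, or a sum of exponentials): `d = g h - g (h + 1)`. -/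
theorem g_drop (M : Mod) (h : ℝ) : ∃ (n₀ : ℕ) (d : ℝ), 0 < d ∧ ∀ t : ℝ, 0 ≤ t → t ≤ 1 →
    M.g (h + t) n₀ ≤ M.g h n₀ - t * d := by
  obtain ⟨x, hx⟩ := M.φ_ne
  have h1 : ∀ z, M.v (h + 1) z ≤ M.v h z := by
    intro z
    unfold Mod.v
    have := M.φ_nonneg z
    linarith
  have h2 : M.v (h + 1) x < M.v h x := by
    unfold Mod.v
    linarith
  obtain ⟨n, hn⟩ := kv_strict M.C h1 h2
  refine ⟨n, M.g h n - M.g (h + 1) n, ?_, fun t h0 ht => ?_⟩
  · unfold Mod.g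
    linarith
  · have h3 := HZ.interp_K M.C (M.v h) (M.v (h + 1)) h0 ht n 0
    have h4 : (fun z => (1 - t) * M.v h z + t * M.v (h + 1) z) = M.v (h + t) := by
      funext z
      unfold Mod.v
      ring
    rw [h4] at h3
    have h5 := Real.geom_mean_le_arith_mean2_weighted (w₁ := 1 - t) (w₂ := t)
      (p₁ := Kv M.C (M.v h) n 0) (p₂ := Kv M.C (M.v (h + 1)) n 0) (by linarith) h0
      (HZ.Kv_nonneg _ _ _ _) (HZ.Kv_nonneg _ _ _ _) (by ring)
    unfold Mod.g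
    linarith

/-- convexity and `lmg 0 = 0 < lmg t` (`HZ.lmg_pos`): slope at least `lmg t / t` to the right of `t` -/
theorem lmg_slope (M : Mod) {t : ℝ} (ht : 0 < t) : ∃ c : ℝ, 0 < c ∧ ∀ lam : ℝ, 0 ≤ lam →
    lmg M.μ t + c * lam ≤ lmg M.μ (t + lam) := by
  have hpos := HZ.lmg_pos M.exp_mom M.mean M.var ht.ne'
  refine ⟨lmg M.μ t / t, div_pos hpos ht, fun lam hl => ?_⟩
  have ha : 0 ≤ lam / (t + lam) := by positivity
  have hb : 0 ≤ t / (t + lam) := by positivity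
  have hab : lam / (t + lam) + t / (t + lam) = 1 := by
    rw [← add_div, add_comm lam t]
    exact div_self (by linarith)
  have hc := (HZ.lmg_convex (μ := M.μ) M.exp_mom).2 (Set.mem_univ (0 : ℝ))
    (Set.mem_univ (t + lam)) ha hb hab
  have h1 : (lam / (t + lam)) • (0 : ℝ) + (t / (t + lam)) • (t + lam) = t := by
    rw [smul_eq_mul, smul_eq_mul, mul_zero, zero_add]
    field_simp
  rw [h1, HZ.lmg_zero, smul_zero, zero_add, smul_eq_mul, div_mul_eq_mul_div,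
    le_div_iff₀ (by linarith)] at hc
  have h2 : lmg M.μ t + lmg M.μ t / t * lam = lmg M.μ t * (t + lam) / t := by
    field_simp
  rw [h2, div_le_iff₀ ht]
  linarith

/-- convexity and `lmg 0 = 0 ≤ lmg` -/
theorem lmg_mono (M : Mod) {t lam : ℝ} (ht : 0 ≤ t) (hl : 0 ≤ lam) :
    lmg M.μ t ≤ lmg M.μ (t + lam) := by
  rcases ht.eq_or_lt with h | h
  · rw [← h, HZ.lmg_zero]
    exact HZ.lmg_nonneg M.exp_mom M.mean _
  · obtain ⟨c, hc, h1⟩ := lmg_slope M h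
    have h2 := h1 lam hl
    have h3 : 0 ≤ c * lam := mul_nonneg hc.le hl
    linarith

/-- `HZ.lmg_quad` -/
theorem lmg_small (M : Mod) {q : ℝ} (hq : 1 < q) : ∃ c : ℝ, 0 < c ∧ ∀ lam : ℝ, 0 ≤ lam → lam ≤ 1 →
    lmg M.μ (q * lam) / q ≤ c * lam ^ 2 := by
  obtain ⟨A, hA, h⟩ := HZ.lmg_quad (μ := M.μ) M.exp_mom M.mean q
  have hq0 : 0 < q := by linarith
  refine ⟨A * q, mul_pos hA hq0, fun lam h0 h1 => ?_⟩
  have h2 := h (q * lam) (by
    rw [abs_of_nonneg (by positivity)]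
    nlinarith)
  rw [div_le_iff₀ hq0]
  calc lmg M.μ (q * lam) ≤ A * (q * lam) ^ 2 := h2
    _ = A * q * lam ^ 2 * q := by ring

end

end Pool.Agent.HG
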