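import Pool.Agent.Lib.MP_daa227_pr_HG.Bridge

/-!
# MP_daa227_pr: odd and even times
-/

namespace Pool.Agent.HG

open MeasureTheory ProbabilityTheory Finset Filter Topology
open MP_daa227_pr (Chain Zk Zf Gk Gf KU K0 Ren shift seqLaw ExpMom DepOn Good GoodW mom)
open Pool.Agent.HZ (Mod Kv lmg)
open Pool.Agent.IOrd (Sys aS cv)

noncomputable section

namespace Odd

theorem parity (C : Chain) (hnl : ∀ x, C.p x x = 0) (v : ℤ → ℝ) (n : ℕ) (x y : ℤ)
    (h : ¬ Even ((n : ℤ) + x + y)) : HZ.Zd C v n x y = 0 := by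
  induction n generalizing x with
  | zero =>
    unfold HZ.Zd
    rw [Zk]
    split_ifs with hxy
    · exfalso
      apply h
      subst hxy
      exact ⟨x, by push_cast; ring⟩
    · rfl
  | succ n ih =>
    have h1 : HZ.Zd C v (n + 1) x y = ∑ z ∈ Finset.Icc (x - 1) (x + 1),
        C.p x z * Real.exp (v z) * HZ.Zd C v n z y := rfl
    rw [h1]
    refine Finset.sum_eq_zero fun z hz => ?_
    rw [Finset.mem_Icc] at hz
    by_cases hzx : z = x
    · rw [hzx, hnl, zero_mul, zero_mul]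
    · rw [ih z ?_, mul_zero]
      intro h2
      apply h
      push_cast
      have : z = x + 1 ∨ z = x - 1 := by omega
      rcases this with rfl | rfl
      · have e : (n : ℤ) + 1 + x + y = n + (x + 1) + y := by ring
        rwa [e]
      · have e : (n : ℤ) + 1 + x + y = n + (x - 1) + y + 2 := by ring
        rw [e]
        exact h2.add even_two

/-- an odd time is dominated by a later even time -/
theorem zd_odd (C : Chain) (v : ℤ → ℝ) : ∃ L : ℕ, 1 ≤ L ∧ ∃ B : ℝ, 0 < B ∧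
    ∀ n : ℕ, HZ.Zd C v (2 * n + 1) 0 0 ≤ B * HZ.Zd C v (2 * (n + L)) 0 0 := by
  obtain ⟨L, hL, hlen⟩ := Bridge.len C 0
  rcases hlen (2 * L - 1) (by omega) 0 (by rw [box, Finset.mem_Icc]; omega) with h12 | ⟨h1, h2⟩
  · have h1 : 0 < HZ.Zd C v (2 * L - 1) 0 0 :=
      (h12 (fun _ z => Real.exp (v z)) (fun _ z => Real.exp_pos _) (fun _ => 0)).1
    refine ⟨L, hL, (HZ.Zd C v (2 * L - 1) 0 0)⁻¹, inv_pos.2 h1, fun n => ?_⟩
    have h2 := HZ.Zd_mul_le C v (2 * n + 1) (2 * L - 1) 0 0 0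
    have h3 : 2 * n + 1 + (2 * L - 1) = 2 * (n + L) := by omega
    rw [h3] at h2
    rw [inv_mul_eq_div, le_div_iff₀ h1]
    exact h2
  · refine ⟨L, hL, 1, one_pos, fun n => ?_⟩
    rw [parity C h1 v (2 * n + 1) 0 0 ?_]
    · exact mul_nonneg zero_le_one (HZ.Zd_nonneg _ _ _ _ _)
    · push_cast
      rw [add_zero, add_zero, Int.not_even_iff_odd]
      exact ⟨n, rfl⟩

/-- the sum over all times is dominated by the sum over the even times -/
theorem even_sum (C : Chain) (v : ℤ → ℝ) {B₁ : ℝ} (hB₁ : ∀ n, HZ.Zd C v n 0 0 ≤ B₁) :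
    ∃ B : ℝ, 1 ≤ B ∧ ∀ K : ℕ, ∑ n ∈ range (2 * K), HZ.Zd C v n 0 0 ≤
      B * (∑ n ∈ range K, HZ.Zd C v (2 * n) 0 0 + 1) := by
  obtain ⟨L, hL, B, hB, h⟩ := zd_odd C v
  have hu : ∀ n, 0 ≤ HZ.Zd C v n 0 0 := fun n => HZ.Zd_nonneg _ _ _ _ _
  have hB₁0 : 0 ≤ B₁ := (hu 0).trans (hB₁ 0)
  have hLB : 0 ≤ (L : ℝ) * B₁ := mul_nonneg (Nat.cast_nonneg _) hB₁0
  refine ⟨1 + B * (1 + L * B₁), by nlinarith [mul_nonneg hB.le hLB], fun K => ?_⟩
  have h1 : ∀ K, ∑ n ∈ range (2 * K), HZ.Zd C v n 0 0 =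
      ∑ n ∈ range K, HZ.Zd C v (2 * n) 0 0 + ∑ n ∈ range K, HZ.Zd C v (2 * n + 1) 0 0 := by
    intro K
    induction K with
    | zero => simp
    | succ K ih =>
      rw [show 2 * (K + 1) = 2 * K + 1 + 1 by ring, Finset.sum_range_succ, Finset.sum_range_succ,
        ih, Finset.sum_range_succ _ K, Finset.sum_range_succ _ K]
      ring
  have h2 : ∑ n ∈ range K, HZ.Zd C v (2 * n + 1) 0 0 ≤
      B * ∑ n ∈ range K, HZ.Zd C v (2 * (n + L)) 0 0 := by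
    rw [Finset.mul_sum]
    exact Finset.sum_le_sum fun n _ => h n
  have h3 : ∑ n ∈ range K, HZ.Zd C v (2 * (n + L)) 0 0 ≤
      ∑ n ∈ range K, HZ.Zd C v (2 * n) 0 0 + L * B₁ := by
    have e1 : ∑ n ∈ range K, HZ.Zd C v (2 * (n + L)) 0 0 ≤
        ∑ n ∈ range (L + K), HZ.Zd C v (2 * n) 0 0 := by
      rw [Finset.sum_range_add]
      have e2 : 0 ≤ ∑ n ∈ range L, HZ.Zd C v (2 * n) 0 0 := Finset.sum_nonneg fun n _ => hu _
      have e3 : ∑ n ∈ range K, HZ.Zd C v (2 * (n + L)) 0 0 =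
          ∑ n ∈ range K, HZ.Zd C v (2 * (L + n)) 0 0 :=
        Finset.sum_congr rfl fun n _ => by rw [add_comm n L]
      rw [e3]
      linarith
    have e2 : ∑ n ∈ range (L + K), HZ.Zd C v (2 * n) 0 0 =
        ∑ n ∈ range K, HZ.Zd C v (2 * n) 0 0 + ∑ n ∈ range L, HZ.Zd C v (2 * (K + n)) 0 0 := by
      rw [add_comm L K, Finset.sum_range_add]
    have e3 : ∑ n ∈ range L, HZ.Zd C v (2 * (K + n)) 0 0 ≤ L * B₁ := by
      calc ∑ n ∈ range L, HZ.Zd C v (2 * (K + n)) 0 0 ≤ ∑ _n ∈ range L, B₁ :=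
            Finset.sum_le_sum fun n _ => hB₁ _
        _ = L * B₁ := by rw [Finset.sum_const, Finset.card_range, nsmul_eq_mul]
    linarith
  have h4 : 0 ≤ ∑ n ∈ range K, HZ.Zd C v (2 * n) 0 0 := Finset.sum_nonneg fun n _ => hu _
  rw [h1]
  have h5 := mul_le_mul_of_nonneg_left h3 hB.le
  have h6 : 0 ≤ B * (L * B₁) := mul_nonneg hB.le hLB
  have h7 : 0 ≤ B * (L * B₁) * ∑ n ∈ range K, HZ.Zd C v (2 * n) 0 0 := mul_nonneg h6 h4
  nlinarith

end Odd

end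

end Pool.Agent.HG
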