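import Pool.Agent.Lib.MP_daa227_pr_HG.Gen
import Pool.Agent.Lib.MP_daa227_pr_HG.KvD
import Pool.Agent.Lib.MP_daa227_pr_HG.Odd
import Pool.Agent.Lib.MP_daa227_pr_HZ.Upper

/-!
# MP_daa227_pr, order: a good length
-/

namespace Pool.Agent.HG

open MeasureTheory ProbabilityTheory Finset Filter Topology
open MP_daa227_pr (Chain Zk Zf Gk Gf KU K0 Ren shift seqLaw ExpMom DepOn Good GoodW mom)
open Pool.Agent.HZ (Mod Kv lmg)
open Pool.Agent.IOrd (Sys aS cv)

noncomputable section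

namespace Pick

/-- the tail of the sum -/
theorem tail {u : ℕ → ℝ} (hu : ∀ n, 0 ≤ u n) (hu1 : ∀ n, u n ≤ 1) {N : ℕ} (hN : 1 ≤ N) :
    ∑' n : ℕ, u n * Real.exp (-(1 / (N : ℝ) * n)) ≤
      ∑ n ∈ range (2 * N ^ 2 + 1), u n + 1 := by
  have hN0 : (0 : ℝ) < N := by exact_mod_cast hN
  set s : ℝ := 1 / (N : ℝ) with hs
  have hs0 : 0 < s := by positivity
  have hpow : ∀ n : ℕ, Real.exp (-(s * n)) = Real.exp (-s) ^ n := by
    intro n
    rw [← Real.exp_nat_mul]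
    congr 1
    ring
  have hq0 : 0 ≤ Real.exp (-s) := (Real.exp_pos _).le
  have hq1 : Real.exp (-s) < 1 := by
    rw [Real.exp_lt_one_iff]
    linarith
  have hsum : Summable fun n : ℕ => u n * Real.exp (-(s * n)) := by
    refine Summable.of_nonneg_of_le (fun n => mul_nonneg (hu n) (Real.exp_pos _).le)
      (fun n => ?_) (summable_geometric_of_lt_one hq0 hq1)
    rw [hpow]
    exact mul_le_of_le_one_left (pow_nonneg hq0 n) (hu1 n)
  rw [← hsum.sum_add_tsum_nat_add (2 * N ^ 2 + 1)]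
  refine add_le_add ?_ ?_
  · refine Finset.sum_le_sum fun n _ => ?_
    refine mul_le_of_le_one_right (hu n) ?_
    rw [Real.exp_le_one_iff]
    have : (0 : ℝ) ≤ n := Nat.cast_nonneg n
    nlinarith [mul_nonneg hs0.le this]
  · have h1 : ∑' n : ℕ, u (n + (2 * N ^ 2 + 1)) * Real.exp (-(s * ((n + (2 * N ^ 2 + 1) : ℕ) : ℝ)))
        ≤ ∑' n : ℕ, Real.exp (-s) ^ (2 * N ^ 2 + 1) * Real.exp (-s) ^ n := by
      refine Summable.tsum_le_tsum (fun n => ?_) ((summable_nat_add_iff _).2 hsum)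
        ((summable_geometric_of_lt_one hq0 hq1).mul_left _)
      rw [hpow, add_comm n, pow_add]
      exact mul_le_of_le_one_left (by positivity) (hu1 _)
    refine h1.trans ?_
    rw [tsum_mul_left, tsum_geometric_of_lt_one hq0 hq1]
    have h2 : Real.exp (-s) ≤ 1 / (1 + s) := by
      rw [Real.exp_neg, ← one_div]
      exact one_div_le_one_div_of_le (by positivity) (by linarith [Real.add_one_le_exp s])
    have h3 : (1 - Real.exp (-s))⁻¹ ≤ 1 + N := by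
      have h4 : s / (1 + s) ≤ 1 - Real.exp (-s) := by
        have : 1 - 1 / (1 + s) = s / (1 + s) := by
          field_simp
          ring
        linarith
      have h5 : (1 - Real.exp (-s))⁻¹ ≤ (s / (1 + s))⁻¹ :=
        inv_anti₀ (by positivity) h4
      refine h5.trans (le_of_eq ?_)
      rw [hs]
      field_simp
      ring
    have h4 : Real.exp (-s) ^ (2 * N ^ 2 + 1) ≤ (1 + (N : ℝ))⁻¹ := by
      rw [← Real.exp_nat_mul, show ((2 * N ^ 2 + 1 : ℕ) : ℝ) * -s = -(2 * N + s) by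
        push_cast
        rw [hs]
        field_simp, Real.exp_neg]
      refine inv_anti₀ (by positivity) ?_
      have := Real.add_one_le_exp (2 * N + s)
      linarith
    calc Real.exp (-s) ^ (2 * N ^ 2 + 1) * (1 - Real.exp (-s))⁻¹
        ≤ (1 + (N : ℝ))⁻¹ * (1 + N) := by
          refine mul_le_mul h4 h3 ?_ (by positivity)
          exact inv_nonneg.2 (by linarith)
      _ = 1 := inv_mul_cancel₀ (by positivity)

end Pick

/-- `u k = Zd (v hc) k 0 0`, `z k = Zd (v (hc + N ^ (-a/2))) k 0 0` (renewal equations: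
`HZ.Zd_renewal`; `u ≤ 1`: `HZ.Upper.Zd_le_one`; both vanish for odd `k`). If the claim fails for
`N` then `u k ≤ N ^ (a/4) z k` for `k ≤ 2 N ^ 2` (`k = 0`: both are `1`), so with `s = 1 / N`
`N ^ a / A ≤ ∑ u k e^{-k/N} ≤ N ^ (a/4) ∑_{k ≤ 2N^2} z k + ∑_{k > 2 N ^ 2} e^{-k/N}` (`ren_low`),
and `∑ z k ≤ N ^ (a/2) / d` (`ren_up`, `g_drop` at `hc` with `t = N ^ (-a/2)`:
`∑ g (hc + t) ≤ 1 - t d`, `HZ.Kv_mono` for the other terms). The last sum is at most `1` for large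
`N`. Contradiction for large `N` (`3 a / 4 < a`). One may assume `A > 0` (enlarge it). -/
theorem pick (M : Mod) {hc : ℝ} (hg : ∀ N : ℕ, ∑ n ∈ range N, M.g hc n ≤ 1)
    (hg1 : ∀ η : ℝ, 0 < η → ∃ N : ℕ, 1 - η ≤ ∑ n ∈ range N, M.g hc n) {a A : ℝ} (ha : 0 < a)
    (hT : ∀ s : ℝ, 0 < s → s ≤ 1 → ∀ N : ℕ,
      ∑ n ∈ range N, M.g hc n * (1 - Real.exp (-(s * n))) ≤ A * s ^ a) :
    ∀ᶠ N : ℕ in atTop, ∃ n : ℕ, 1 ≤ n ∧ n ≤ N ^ 2 ∧
      (N : ℝ) ^ (a / 4) * HZ.Zd M.C (M.v (hc + (N : ℝ) ^ (-(a / 2)))) (2 * n) 0 0 <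
        HZ.Zd M.C (M.v hc) (2 * n) 0 0 := by
  obtain ⟨n₀, d, hd, hdrop⟩ := g_drop M hc
  obtain ⟨A', hA', hAA'⟩ : ∃ A' : ℝ, 0 < A' ∧ A ≤ A' :=
    ⟨max A 1, lt_of_lt_of_le one_pos (le_max_right _ _), le_max_left _ _⟩
  have hT' : ∀ s : ℝ, 0 < s → s ≤ 1 → ∀ N : ℕ,
      ∑ n ∈ range N, M.g hc n * (1 - Real.exp (-(s * n))) ≤ A' * s ^ a := fun s hs hs1 N =>
    (hT s hs hs1 N).trans (mul_le_mul_of_nonneg_right hAA' (Real.rpow_nonneg hs.le _))
  have hlim : Tendsto (fun N : ℕ => (N : ℝ) ^ (a / 4)) atTop atTop :=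
    (tendsto_rpow_atTop (by positivity)).comp tendsto_natCast_atTop_atTop
  have hu1 : ∀ n, HZ.Zd M.C (M.v hc) n 0 0 ≤ 1 := HZ.Upper.Zd_le_one M.C (M.v hc) hg
  obtain ⟨B, hB, hev⟩ := Odd.even_sum M.C (M.v hc) hu1
  filter_upwards [hlim.eventually_gt_atTop (A' * (B * (1 / d + 2))), eventually_ge_atTop 1]
    with N hNbig hN1
  by_contra hcon
  push Not at hcon
  have hN0 : (0 : ℝ) < N := by exact_mod_cast hN1
  have hN1' : (1 : ℝ) ≤ N := by exact_mod_cast hN1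
  set t : ℝ := (N : ℝ) ^ (-(a / 2)) with ht
  have ht0 : 0 < t := Real.rpow_pos_of_pos hN0 _
  have ht1 : t ≤ 1 := Real.rpow_le_one_of_one_le_of_nonpos hN1' (by linarith)
  set P : ℝ := (N : ℝ) ^ (a / 4) with hP
  have hP1 : 1 ≤ P := Real.one_le_rpow hN1' (by positivity)
  have hu : ∀ n, 0 ≤ HZ.Zd M.C (M.v hc) n 0 0 := fun n => HZ.Zd_nonneg _ _ _ _ _
  have hz : ∀ n, 0 ≤ HZ.Zd M.C (M.v (hc + t)) n 0 0 := fun n => HZ.Zd_nonneg _ _ _ _ _
  -- comparison
  have hcmp : ∀ n, n < N ^ 2 + 1 →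
      HZ.Zd M.C (M.v hc) (2 * n) 0 0 ≤ P * HZ.Zd M.C (M.v (hc + t)) (2 * n) 0 0 := by
    intro n hk
    rcases Nat.eq_zero_or_pos n with h0 | h0
    · rw [h0, mul_zero, HZ.Zd_zero, HZ.Zd_zero, mul_one]
      exact hP1
    · exact hcon n h0 (by omega)
  -- the sum of `z`
  have hgt : ∀ n, M.g (hc + t) n ≤ M.g hc n := by
    intro n
    refine HZ.Kv_mono M.C (fun z => ?_) n 0
    unfold HZ.Mod.v
    have := mul_nonneg ht0.le (M.φ_nonneg z)
    linarith
  have hgt0 : ∀ n, 0 ≤ M.g (hc + t) n := fun n => HZ.Kv_nonneg _ _ _ _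
  have hsg : ∀ K : ℕ, ∑ n ∈ range K, M.g (hc + t) n ≤ 1 - t * d := by
    intro K
    have h1 : ∑ n ∈ range K, M.g (hc + t) n ≤
        ∑ n ∈ range (K + (n₀ + 1)), M.g (hc + t) n :=
      Finset.sum_le_sum_of_subset_of_nonneg
        (Finset.range_mono (Nat.le_add_right _ _)) fun n _ _ => hgt0 n
    refine h1.trans ?_
    have hmem : n₀ ∈ range (K + (n₀ + 1)) := Finset.mem_range.2 (by omega)
    have h2 := hg (K + (n₀ + 1))
    rw [← Finset.add_sum_erase _ _ hmem] at h2 ⊢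
    have h3 : ∑ n ∈ (range (K + (n₀ + 1))).erase n₀, M.g (hc + t) n ≤
        ∑ n ∈ (range (K + (n₀ + 1))).erase n₀, M.g hc n := Finset.sum_le_sum fun n _ => hgt n
    have h4 := hdrop t ht0.le ht1
    linarith
  have hzsum := ren_up (g := M.g (hc + t)) (z := fun n => HZ.Zd M.C (M.v (hc + t)) n 0 0) hgt0 hz
    (HZ.Zd_zero _ _ _) (fun n hn => HZ.Zd_renewal M.C _ hn) (mul_pos ht0 hd) hsg (2 * (N ^ 2 + 1))
  -- the lower bound
  have hlow := ren_low (g := M.g hc) (u := fun n => HZ.Zd M.C (M.v hc) n 0 0)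
    (fun n => HZ.Kv_nonneg _ _ _ _) rfl hu (HZ.Zd_zero _ _ _)
    (fun n hn => HZ.Zd_renewal M.C _ hn) hu1 hg hg1 hT' (s := 1 / (N : ℝ)) (by positivity)
    (by rw [div_le_one hN0]; exact hN1')
  have htail := Pick.tail hu hu1 hN1
  have hzeven : ∀ K : ℕ, ∑ n ∈ range K, HZ.Zd M.C (M.v (hc + t)) (2 * n) 0 0 ≤
      ∑ n ∈ range (2 * K), HZ.Zd M.C (M.v (hc + t)) n 0 0 := by
    intro K
    induction K with
    | zero => simp
    | succ K ih =>
      rw [show 2 * (K + 1) = 2 * K + 1 + 1 by ring, Finset.sum_range_succ, Finset.sum_range_succ,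
        Finset.sum_range_succ]
      have := hz (2 * K + 1)
      linarith
  have h5 : ∑ n ∈ range (2 * N ^ 2 + 1), HZ.Zd M.C (M.v hc) n 0 0 ≤
      B * (P * (1 / (t * d)) + 1) := by
    have e0 : ∑ n ∈ range (2 * N ^ 2 + 1), HZ.Zd M.C (M.v hc) n 0 0 ≤
        ∑ n ∈ range (2 * (N ^ 2 + 1)), HZ.Zd M.C (M.v hc) n 0 0 :=
      Finset.sum_le_sum_of_subset_of_nonneg (Finset.range_mono (by omega)) fun n _ _ => hu n
    refine e0.trans ((hev (N ^ 2 + 1)).trans ?_)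
    refine mul_le_mul_of_nonneg_left ?_ (by linarith)
    have e1 : ∑ n ∈ range (N ^ 2 + 1), HZ.Zd M.C (M.v hc) (2 * n) 0 0 ≤
        P * ∑ n ∈ range (N ^ 2 + 1), HZ.Zd M.C (M.v (hc + t)) (2 * n) 0 0 := by
      rw [Finset.mul_sum]
      exact Finset.sum_le_sum fun n hn => hcmp n (Finset.mem_range.1 hn)
    have e2 := mul_le_mul_of_nonneg_left ((hzeven (N ^ 2 + 1)).trans hzsum)
      (show (0 : ℝ) ≤ P by linarith)
    linarith
  have hQ : (0 : ℝ) ≤ A' * (1 / (N : ℝ)) ^ a := by positivity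
  have h6 : 1 ≤ A' * (1 / (N : ℝ)) ^ a * (B * (P * (1 / (t * d)) + 1) + 1) :=
    hlow.trans (mul_le_mul_of_nonneg_left (htail.trans (by linarith)) hQ)
  have e1 : (1 / (N : ℝ)) ^ a = ((N : ℝ) ^ a)⁻¹ := by
    rw [one_div, Real.inv_rpow hN0.le]
  have e2 : (N : ℝ) ^ a = P * P * P * P := by
    rw [hP, ← Real.rpow_add hN0, ← Real.rpow_add hN0, ← Real.rpow_add hN0]
    congr 1
    ring
  have e3 : t⁻¹ = P * P := by
    rw [ht, hP, ← Real.rpow_neg hN0.le, ← Real.rpow_add hN0]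
    congr 1
    ring
  have hP0 : 0 < P := by linarith
  have e4 : P * (1 / (t * d)) = P * P * P * (1 / d) := by
    rw [one_div, mul_inv, e3]
    ring
  rw [e1, e2, e4] at h6
  have h7 : P * P * P * P ≤ A' * (B * (P * P * P * (1 / d) + 1) + 1) := by
    have h8 : A' * (P * P * P * P)⁻¹ * (B * (P * P * P * (1 / d) + 1) + 1) =
        (A' * (B * (P * P * P * (1 / d) + 1) + 1)) / (P * P * P * P) := by
      rw [div_eq_mul_inv]
      ring
    rw [h8, le_div_iff₀ (by positivity), one_mul] at h6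
    exact h6
  have hPPP : 1 ≤ P * P * P := by nlinarith [mul_le_mul hP1 hP1 zero_le_one (by linarith)]
  have h9 : A' * (B * (P * P * P * (1 / d) + 1) + 1) ≤
      P * P * P * (A' * (B * (1 / d + 2))) := by
    have e5 : B * (P * P * P * (1 / d) + 1) + 1 ≤ P * P * P * (B * (1 / d + 2)) := by
      have e6 : 1 ≤ B * (P * P * P) := by nlinarith
      have e7 : B ≤ B * (P * P * P) := by nlinarith
      nlinarith
    calc A' * (B * (P * P * P * (1 / d) + 1) + 1) ≤ A' * (P * P * P * (B * (1 / d + 2))) :=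
          mul_le_mul_of_nonneg_left e5 hA'.le
      _ = _ := by ring
  have h10 : P * P * P * (A' * (B * (1 / d + 2))) < P * P * P * P :=
    mul_lt_mul_of_pos_left hNbig (by positivity)
  linarith

end

end Pool.Agent.HG
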