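import Pool.Agent.Lib.MP_daa227_pr_HG.SUse
import Pool.Agent.Lib.MP_daa227_pr_HG.SLow
import Pool.Agent.Lib.MP_daa227_pr_HG.EvA
import Pool.Agent.Lib.MP_daa227_pr_HG.StrF

/-!
# MP_daa227_pr, exact order: lower bound along a sequence
-/

namespace Pool.Agent.HG

open MeasureTheory ProbabilityTheory Finset Filter Topology
open MP_daa227_pr (Chain Zk Zf Gk Gf KU K0 Ren shift seqLaw ExpMom DepOn Good GoodW mom)
open Pool.Agent.HZ (Mod Kv lmg)
open Pool.Agent.IOrd (Sys aS cv)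

noncomputable section

namespace SSeq

theorem es_conv {K : ℝ} {g : ℝ → ℝ} (hg : ES K g) {lam t : ℝ} (hl : 0 < lam) (ht : 0 ≤ t)
    (hz0 : 0 < g 0) (hz1 : 0 < g t) (hz2 : 0 < g (-lam)) :
    Real.log (g 0) + t / lam * (Real.log (g 0) - Real.log (g (-lam))) ≤ Real.log (g t) := by
  have htl : 0 < t + lam := by linarith
  have h2 := hg.conv (θ := t / (t + lam)) (by positivity)
    ((div_le_one htl).2 (by linarith)) t (-lam)
  have e0 : (1 - t / (t + lam)) * t + t / (t + lam) * -lam = 0 := by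
    field_simp
    ring
  rw [e0] at h2
  have h3 := Real.log_le_log hz0 h2
  rw [Real.log_mul (Real.rpow_pos_of_pos hz1 _).ne' (Real.rpow_pos_of_pos hz2 _).ne',
    Real.log_rpow hz1, Real.log_rpow hz2] at h3
  have h4 := mul_le_mul_of_nonneg_left h3 (by positivity : 0 ≤ (t + lam) / lam)
  have e1 : (t + lam) / lam * ((1 - t / (t + lam)) * Real.log (g t) +
      t / (t + lam) * Real.log (g (-lam))) =
      Real.log (g t) + t / lam * Real.log (g (-lam)) := by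
    field_simp
    ring
  have e2 : (t + lam) / lam * Real.log (g 0) =
      Real.log (g 0) + t / lam * Real.log (g 0) := by
    field_simp
    ring
  rw [e1, e2] at h4
  linarith

/-- Hölder on the complement of the good event -/
theorem half {μ : Measure ℝ} [IsProbabilityMeasure μ] {X : (ℕ → ℝ) → ℝ} (hX : Measurable X)
    {p q K x L : ℝ} (hpq : p.HolderConjugate q) (hK : 0 ≤ K)
    {E : Set (ℕ → ℝ)} (hE : MeasurableSet E) (hL : 1 ≤ L) (h1 : mom μ 1 X = ENNReal.ofReal x)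
    (hp : mom μ p X ≤ ENNReal.ofReal (L ^ (2 * p) * K))
    (hP : 1 - L ^ (-(10 * q)) ≤ (seqLaw μ E).toReal) (hs : 2 * K ^ (1 / p) ≤ L) (hx : 1 ≤ x) :
    ∃ x' : ℝ, x / 2 ≤ x' ∧ mom μ 1 (fun ω => E.indicator X ω) = ENNReal.ofReal x' := by
  have hL0 : 0 < L := by linarith
  have hp1 : 1 < p := hpq.lt
  have hp0 : 0 < p := by linarith
  have hq0 : 0 < q := hpq.symm.pos
  set f : (ℕ → ℝ) → ENNReal := fun ω => ENNReal.ofReal (X ω) with hf
  set g : (ℕ → ℝ) → ENNReal := Eᶜ.indicator (fun _ => 1) with hg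
  have hfm : Measurable f := hX.ennreal_ofReal
  have hgm : Measurable g := measurable_const.indicator hE.compl
  have e1 : mom μ 1 X = mom μ 1 (fun ω => E.indicator X ω) + ∫⁻ ω, (f * g) ω ∂seqLaw μ := by
    rw [MP_daa227_pr.mom_one, MP_daa227_pr.mom_one, ← lintegral_add_right _ (hfm.mul hgm)]
    refine lintegral_congr fun ω => ?_
    by_cases h : ω ∈ E
    · have h' : ω ∉ Eᶜ := fun hh => hh h
      simp [hg, Set.indicator_of_mem h, Set.indicator_of_notMem h']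
    · have h' : ω ∈ Eᶜ := h
      simp [hf, hg, Set.indicator_of_notMem h, Set.indicator_of_mem h']
  have e2 := ENNReal.lintegral_mul_le_Lp_mul_Lq (seqLaw μ) hpq hfm.aemeasurable hgm.aemeasurable
  have e3 : ∫⁻ ω, g ω ^ q ∂seqLaw μ = seqLaw μ Eᶜ := by
    rw [← lintegral_indicator_one hE.compl]
    refine lintegral_congr fun ω => ?_
    by_cases h : ω ∈ E
    · have h' : ω ∉ Eᶜ := fun hh => hh h
      simp [hg, Set.indicator_of_notMem h', ENNReal.zero_rpow_of_pos hq0]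
    · have h' : ω ∈ Eᶜ := h
      simp [hg, Set.indicator_of_mem h']
  have e4 : ∫⁻ ω, f ω ^ p ∂seqLaw μ = mom μ p X := rfl
  rw [e3, e4] at e2
  have e5 : seqLaw μ Eᶜ ≤ ENNReal.ofReal (L ^ (-(10 * q))) := by
    rw [prob_compl_eq_one_sub hE]
    have h2 : seqLaw μ E ≠ ⊤ := measure_ne_top _ _
    rw [← ENNReal.ofReal_toReal h2, ← ENNReal.ofReal_one,
      ← ENNReal.ofReal_sub _ ENNReal.toReal_nonneg]
    exact ENNReal.ofReal_le_ofReal (by linarith)
  have e6 : mom μ p X ^ (1 / p) ≤ ENNReal.ofReal (L ^ (2 : ℝ) * K ^ (1 / p)) := by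
    refine (ENNReal.rpow_le_rpow hp (by positivity)).trans (le_of_eq ?_)
    rw [ENNReal.ofReal_rpow_of_nonneg (by positivity) (by positivity),
      Real.mul_rpow (by positivity) hK, ← Real.rpow_mul hL0.le]
    congr 3
    field_simp
  have e7 : seqLaw μ Eᶜ ^ (1 / q) ≤ ENNReal.ofReal (L ^ (-10 : ℝ)) := by
    refine (ENNReal.rpow_le_rpow e5 (by positivity)).trans (le_of_eq ?_)
    rw [ENNReal.ofReal_rpow_of_nonneg (by positivity) (by positivity), ← Real.rpow_mul hL0.le]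
    congr 2
    field_simp
  have e8 : ∫⁻ ω, (f * g) ω ∂seqLaw μ ≤ ENNReal.ofReal (1 / 2) := by
    refine e2.trans ((mul_le_mul' e6 e7).trans ?_)
    rw [← ENNReal.ofReal_mul (by positivity)]
    apply ENNReal.ofReal_le_ofReal
    have h2 : L ^ (2 : ℝ) * K ^ (1 / p) * L ^ (-10 : ℝ) = K ^ (1 / p) * L ^ (-8 : ℝ) := by
      have h3 : L ^ (2 : ℝ) * L ^ (-10 : ℝ) = L ^ (-8 : ℝ) := by
        rw [← Real.rpow_add hL0]
        norm_num
      rw [← h3]
      ring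
    rw [h2]
    have h4 : L ^ (-8 : ℝ) ≤ L⁻¹ := by
      rw [← Real.rpow_neg_one]
      exact Real.rpow_le_rpow_of_exponent_le hL (by norm_num)
    have h5 : 0 ≤ K ^ (1 / p) := by positivity
    calc K ^ (1 / p) * L ^ (-8 : ℝ) ≤ L / 2 * L⁻¹ :=
          mul_le_mul (by linarith) h4 (by positivity) (by positivity)
      _ = 1 / 2 := by field_simp
  have e9 : mom μ 1 (fun ω => E.indicator X ω) ≠ ⊤ := by
    intro h
    rw [h, top_add, h1] at e1
    exact ENNReal.ofReal_ne_top e1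
  refine ⟨(mom μ 1 (fun ω => E.indicator X ω)).toReal, ?_, (ENNReal.ofReal_toReal e9).symm⟩
  have e10 : ENNReal.ofReal x ≤ mom μ 1 (fun ω => E.indicator X ω) + ENNReal.ofReal (1 / 2) := by
    rw [← h1, e1]
    gcongr
  rw [← ENNReal.ofReal_toReal e9, ← ENNReal.ofReal_add ENNReal.toReal_nonneg (by norm_num)] at e10
  have e11 := (ENNReal.ofReal_le_ofReal_iff (add_nonneg ENNReal.toReal_nonneg (by norm_num))).1 e10
  linarith

/-- from the block sum to the partition function pinned at the two ends of the block -/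
theorem pin (M : Mod) {hc h c L : ℝ} (hh : h ≤ hc) (hL : 0 < L) {l : ℕ} (hLl : L = l)
    {ω : ℕ → ℝ} (hE : ∀ a ≤ l, L ^ (-c) ≤ M.Z hc (2 * a) ω ∧
      L ^ (-c) ≤ M.Z hc (2 * (l - a)) (shift (2 * a) ω)) {s : ℝ} (hX : L ^ s ≤ XB M h l ω) :
    L ^ (s - 2 - 2 * c) ≤ M.Z h (2 * l) ω := by
  have hc0 : 0 < L ^ (-c) := Real.rpow_pos_of_pos hL _
  have hT : ∀ a c' : ℕ, a + c' ≤ l →
      M.Z h (2 * c') (shift (2 * a) ω) ≤ M.Z h (2 * l) ω * L ^ (2 * c) := by
    intro a c' hac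
    have h1 := M.Z_mul_le h (2 * a) (2 * c') ω
    have h2 := M.Z_mul_le h (2 * (a + c')) (2 * (l - (a + c'))) ω
    rw [← mul_add, Nat.add_sub_cancel' hac] at h2
    rw [← mul_add] at h1
    have h3 : L ^ (-c) ≤ M.Z h (2 * a) ω :=
      ((hE a (by omega)).1).trans (M.A2_Z_anti hh _ _)
    have h4 : L ^ (-c) ≤ M.Z h (2 * (l - (a + c'))) (shift (2 * (a + c')) ω) :=
      ((hE (a + c') hac).2).trans (M.A2_Z_anti hh _ _)
    have h5 := M.Z_nonneg h (2 * c') (shift (2 * a) ω)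
    have h6 : L ^ (-c) * M.Z h (2 * c') (shift (2 * a) ω) * L ^ (-c) ≤ M.Z h (2 * l) ω := by
      refine le_trans ?_ h2
      refine mul_le_mul ?_ h4 hc0.le (M.Z_nonneg _ _ _)
      exact (mul_le_mul_of_nonneg_right h3 h5).trans h1
    have h7 : L ^ (-c) * L ^ (-c) * L ^ (2 * c) = 1 := by
      rw [← Real.rpow_add hL, ← Real.rpow_add hL]
      have : -c + -c + 2 * c = 0 := by ring
      rw [this, Real.rpow_zero]
    have h8 : 0 < L ^ (2 * c) := Real.rpow_pos_of_pos hL _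
    calc M.Z h (2 * c') (shift (2 * a) ω)
        = M.Z h (2 * c') (shift (2 * a) ω) * (L ^ (-c) * L ^ (-c) * L ^ (2 * c)) := by
          rw [h7, mul_one]
      _ = L ^ (-c) * M.Z h (2 * c') (shift (2 * a) ω) * L ^ (-c) * L ^ (2 * c) := by ring
      _ ≤ M.Z h (2 * l) ω * L ^ (2 * c) := mul_le_mul_of_nonneg_right h6 h8.le
  set T : ℝ := M.Z h (2 * l) ω * L ^ (2 * c) with hTd
  have hT0 : 0 ≤ T := mul_nonneg (M.Z_nonneg _ _ _) (Real.rpow_nonneg hL.le _)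
  have h9 : XB M h l ω ≤ L * (L * T) := by
    unfold XB
    calc ∑ a ∈ range l, ∑ c' ∈ range (l - a), M.Z h (2 * c') (shift (2 * a) ω)
        ≤ ∑ a ∈ range l, L * T := by
          refine Finset.sum_le_sum fun a ha => ?_
          rw [Finset.mem_range] at ha
          calc ∑ c' ∈ range (l - a), M.Z h (2 * c') (shift (2 * a) ω)
              ≤ ∑ c' ∈ range (l - a), T := by
                refine Finset.sum_le_sum fun c' hc' => hT a c' ?_
                rw [Finset.mem_range] at hc'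
                omega
            _ = ((l - a : ℕ) : ℝ) * T := by rw [Finset.sum_const, card_range, nsmul_eq_mul]
            _ ≤ L * T := by
                refine mul_le_mul_of_nonneg_right ?_ hT0
                rw [hLl]
                exact_mod_cast Nat.sub_le l a
      _ = L * (L * T) := by rw [Finset.sum_const, card_range, nsmul_eq_mul, hLl]
  have h10 : L ^ s ≤ L ^ (2 : ℝ) * M.Z h (2 * l) ω * L ^ (2 * c) := by
    refine (hX.trans h9).trans (le_of_eq ?_)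
    rw [hTd, Real.rpow_two]
    ring
  have h11 : L ^ s = L ^ (s - 2 - 2 * c) * (L ^ (2 : ℝ) * L ^ (2 * c)) := by
    rw [← Real.rpow_add hL, ← Real.rpow_add hL]
    congr 1
    ring
  have h12 : 0 < L ^ (2 : ℝ) * L ^ (2 * c) :=
    mul_pos (Real.rpow_pos_of_pos hL _) (Real.rpow_pos_of_pos hL _)
  refine le_of_mul_le_mul_right ?_ h12
  rw [← h11]
  refine h10.trans (le_of_eq ?_)
  ring

/-- convexity of the logarithm of the block sum -/
theorem cvx (M : Mod) {hc lam b L e : ℝ} (hlam : 0 < lam) (hb : 0 < b) (hL : 1 ≤ L) {l : ℕ}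
    (hLl : L = l) {ω : ℕ → ℝ} (hY : XB M (hc + lam) l ω ≤ L ^ (-e) * XB M hc l ω) :
    L ^ (b * e) ≤ XB M (hc - b * lam) l ω := by
  have hpos : ∀ h, 0 < XB M h l ω := fun h => by
    have := xb_ge M h l ω
    rw [← hLl] at this
    linarith
  have hL0 : 0 < L := by linarith
  have h1 := es_conv (xb_es M hc l ω) hlam (mul_pos hb hlam).le (by simpa using hpos _)
    (hpos _) (hpos _)
  have h2 : b * lam / lam = b := by field_simp
  simp only [sub_zero, sub_neg_eq_add] at h1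
  rw [h2] at h1
  have h3 := Real.log_le_log (hpos _) hY
  rw [Real.log_mul (Real.rpow_pos_of_pos hL0 _).ne' (hpos _).ne', Real.log_rpow hL0] at h3
  have h4 : 0 ≤ Real.log (XB M hc l ω) := by
    apply Real.log_nonneg
    have := xb_ge M hc l ω
    rw [← hLl] at this
    linarith
  have h5 : b * (e * Real.log L) ≤ b * (Real.log (XB M hc l ω) -
      Real.log (XB M (hc + lam) l ω)) := by
    apply mul_le_mul_of_nonneg_left _ hb.le
    linarith
  rw [Real.rpow_def_of_pos hL0, ← Real.le_log_iff_exp_le (hpos _)]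
  linarith

/-- the probability of the event -/
theorem prob {L α e p q x : ℝ} (hL : 1 ≤ L) (hp : 0 < p) (hq : 0 < q)
    (hx : L ^ (1 + α - 2 * e) / 2 ≤ x) (h8 : (8 : ℝ) ^ q ≤ L ^ (e * q)) :
    L ^ (-(4 * e * q)) ≤ (x / 4) ^ q / (L ^ ((1 + α + e) * p)) ^ (q / p) := by
  have hL0 : 0 < L := by linarith
  have h1 : (L ^ ((1 + α + e) * p)) ^ (q / p) = L ^ ((1 + α + e) * q) := by
    rw [← Real.rpow_mul hL0.le]
    congr 1
    field_simp
  rw [h1, le_div_iff₀ (Real.rpow_pos_of_pos hL0 _)]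
  have h2 : (L ^ (1 + α - 2 * e) / 8) ^ q ≤ (x / 4) ^ q := by
    apply Real.rpow_le_rpow (by positivity) _ hq.le
    linarith
  refine le_trans ?_ h2
  rw [Real.div_rpow (by positivity) (by norm_num), le_div_iff₀ (by positivity),
    ← Real.rpow_mul hL0.le]
  calc L ^ (-(4 * e * q)) * L ^ ((1 + α + e) * q) * 8 ^ q
      ≤ L ^ (-(4 * e * q)) * L ^ ((1 + α + e) * q) * L ^ (e * q) :=
        mul_le_mul_of_nonneg_left h8 (by positivity)
    _ = L ^ ((1 + α - 2 * e) * q) := by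
        rw [← Real.rpow_add hL0, ← Real.rpow_add hL0]
        congr 1
        ring

/-- the ratio -/
theorem ratio {L α e ε B x lam : ℝ} (hL : 1 ≤ L) (he : 2 * e ≤ ε / 4)
    (hlam : lam = L ^ (-(α - ε))) (hx : L ^ (1 + α - 2 * e) / 2 ≤ x)
    (h8 : 8 * B ≤ L ^ (ε / 4)) : 4 * (B * L / lam) / x ≤ L ^ (-(ε / 2)) := by
  have hL0 : 0 < L := by linarith
  have hx0 : 0 < x := lt_of_lt_of_le (by positivity) hx
  rw [div_le_iff₀ hx0]
  have h1 : B * L / lam = B * L ^ (1 + α - ε) := by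
    rw [hlam, Real.rpow_neg hL0.le, div_inv_eq_mul, mul_assoc]
    congr 1
    nth_rewrite 1 [← Real.rpow_one L]
    rw [← Real.rpow_add hL0]
    congr 1
    ring
  have h2 : L ^ (1 + α - ε) * L ^ (ε / 4) ≤ L ^ (-(ε / 2)) * L ^ (1 + α - 2 * e) := by
    rw [← Real.rpow_add hL0, ← Real.rpow_add hL0]
    apply Real.rpow_le_rpow_of_exponent_le hL
    linarith
  have h3 : L ^ (-(ε / 2)) * (L ^ (1 + α - 2 * e) / 2) ≤ L ^ (-(ε / 2)) * x :=
    mul_le_mul_of_nonneg_left hx (by positivity)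
  have h4 : L ^ (1 + α - ε) * (8 * B) ≤ L ^ (1 + α - ε) * L ^ (ε / 4) :=
    mul_le_mul_of_nonneg_left h8 (by positivity)
  rw [h1]
  linarith

theorem cast_atTop : Tendsto (fun m : ℕ => (m : ℝ)) atTop atTop := tendsto_natCast_atTop_atTop

theorem ev_pow {e : ℝ} (he : 0 < e) (C : ℝ) : ∀ᶠ l : ℕ in atTop, C ≤ (l : ℝ) ^ e :=
  ((tendsto_rpow_atTop he).comp cast_atTop).eventually_ge_atTop C

end SSeq

/-- Let `ε₁ = ε / (100 (1 + q))` (at most `α / 2`), `a = α - ε₁`. For large `l`: `ev_mom` at `h = hc` with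
`ε₁` and `D = 10 q`; `lam = l^(-(α-ε))`, `X = XB hc l`, `X' = 1_E X`, `Y = XB (hc + lam) l`.
Means (`xb_mean`, `x_low`, `y_up`): `x = E X ≥ l^(1+α-2ε₁)`, `y = E Y ≤ B l^(1+α-ε)`.
`E [X; Eᶜ] ≤ (E X^p)^(1/p) P(Eᶜ)^(1/q) ≤ l^2 K^(1/p) l^(-10) ≤ x / 2` (`xb_mom`), so `x' = E X' ≥ x / 2`.
`ev_prob` for `X', Y`: probability at least
`(x'/4)^q / l^((1+α+ε₁) q) ≥ l^(-4 ε₁ q) =: p₀`. On the event `X' > 0`, so `ω ∈ E`, `X = X'`, and
`Y ≤ (4 y / x') X ≤ l^(-ε/2) X`. Convexity of `log XB` (`xb_es`, `ES.conv` as in `z_conv`):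
`log XB (hc - b lam) ≥ log X + b (log X - log Y) ≥ b (ε / 2) log l`. So some `a' < l`, `c < l - a'` have
`Z_h (2 c) (shift (2 a') ω) ≥ l^(b ε / 2 - 2)`, `h = hc - b lam`, and with the bounds on `E` (`Z` is
nonincreasing in `h`; `M.Z_mul_le`) `Z_h (2 l) ω ≥ l^(b ε / 2 - 2 - 2 (2 + α))`. `str_low` at
`n = l`: for `b` large the bracket is at least `1`, so `Fr h ≥ p₀ / (C₁ l) ≥ l^(-(1+ε))`. -/
theorem s_seq (M : Mod) (hP : PolyCost M) {α hc : ℝ} (hα : 0 < α) (hc0 : 0 < hc)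
    (hW : PolyW M α hc) (hU : KUW M α hc) {p q K : ℝ} (hpq : p.HolderConjugate q)
    (hb : ∀ n : ℕ, mom M.μ p (fun ω => M.Z hc (2 * n) ω) ≤ ENNReal.ofReal K)
    (hg : ∀ N : ℕ, ∑ n ∈ range N, M.g hc n ≤ 1)
    (hg1 : ∀ η : ℝ, 0 < η → ∃ N : ℕ, 1 - η ≤ ∑ n ∈ range N, M.g hc n)
    (hT : ∀ a : ℝ, 0 < a → a < α → ∃ A : ℝ, ∀ s : ℝ, 0 < s → s ≤ 1 → ∀ N : ℕ,
      ∑ n ∈ range N, M.g hc n * (1 - Real.exp (-(s * n))) ≤ A * s ^ a) {ε : ℝ} (hε : 0 < ε)
    (hεα : ε < α) : ∃ b : ℝ, 0 < b ∧ ∀ᶠ l : ℕ in atTop,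
      (l : ℝ) ^ (-(1 + ε)) ≤ M.Fr (hc - b * (l : ℝ) ^ (-(α - ε))) := by
  obtain ⟨C₁, A₁, hC₁, hA₁, hstr⟩ := str_low M hP hc0
  obtain ⟨B, hB, hY⟩ := y_up M hg
  have hp1 : 1 < p := hpq.lt
  have hp0 : 0 < p := by linarith
  have hq0 : 0 < q := hpq.symm.pos
  have hq1 : 1 < q := hpq.symm.lt
  set e : ℝ := ε / (100 * (1 + q)) with he
  have he0 : 0 < e := by positivity
  have heq : e * q ≤ ε / 100 := by
    rw [he, div_mul_eq_mul_div, div_le_div_iff₀ (by positivity) (by norm_num)]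
    nlinarith
  have hee : e ≤ ε / 100 := by
    have : e * 1 ≤ e * q := mul_le_mul_of_nonneg_left hq1.le he0.le
    linarith
  set K₀ : ℝ := max K 0 with hK₀
  have hK₀0 : 0 ≤ K₀ := le_max_right _ _
  have hb' : ∀ n : ℕ, mom M.μ p (fun ω => M.Z hc (2 * n) ω) ≤ ENNReal.ofReal K₀ := fun n =>
    (hb n).trans (ENNReal.ofReal_le_ofReal (le_max_left _ _))
  set c₂ : ℝ := 1 + α + e with hc₂
  set b : ℝ := 2 * (1 + 2 + 2 * c₂ + A₁ + A₁ * (4 * e * q)) / ε with hbd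
  have hb0 : 0 < b := by positivity
  obtain ⟨A, hTA⟩ := hT (α - e) (by linarith) (by linarith)
  have hx := x_low M hg hg1 (a := α - e) (by linarith) hTA he0
  have hev := ev_mom M hα.le hc0 hW hU hp1.le hK₀0 hb' he0 (D := 10 * q) (by linarith)
  refine ⟨b, hb0, ?_⟩
  filter_upwards [hx, hev, SSeq.ev_pow (show 0 < α - ε by linarith) (2 * b / hc),
    SSeq.ev_pow (show 0 < e * q by positivity) ((8 : ℝ) ^ q),
    SSeq.ev_pow (show 0 < ε / 4 by linarith) (8 * B),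
    SSeq.ev_pow (show 0 < ε / 2 by linarith) C₁,
    (SSeq.cast_atTop).eventually_ge_atTop (2 * K₀ ^ (1 / p)),
    (Real.tendsto_log_atTop.comp SSeq.cast_atTop).eventually_ge_atTop (C₁ + 1),
    eventually_ge_atTop 1] with l hx hev h1 h2 h3 h4 h5 h6 h7
  obtain ⟨E, hE, hEp, hEz, hEm⟩ := hev
  set L : ℝ := (l : ℝ) with hLd
  have hL : 1 ≤ L := Nat.one_le_cast.2 h7
  have hL0 : 0 < L := by linarith
  set lam : ℝ := L ^ (-(α - ε)) with hlam
  have hlam0 : 0 < lam := Real.rpow_pos_of_pos hL0 _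
  have hlam1 : lam ≤ 1 := Real.rpow_le_one_of_one_le_of_nonpos hL (by linarith)
  have hblam : b * lam ≤ hc / 2 := by
    rw [hlam, Real.rpow_neg hL0.le, ← div_eq_mul_inv,
      div_le_div_iff₀ (Real.rpow_pos_of_pos hL0 _) (by norm_num)]
    rw [div_le_iff₀ hc0] at h1
    linarith
  set x : ℝ := ∑ a' ∈ range l, ∑ c ∈ range (l - a'), HZ.Zd M.C (M.v hc) (2 * c) 0 0 with hxd
  have hx1 : L ^ (1 + α - 2 * e) ≤ x := by
    refine le_trans (le_of_eq ?_) hx
    congr 1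
    ring
  have hx2 : 1 ≤ x := (Real.one_le_rpow hL (by linarith)).trans hx1
  obtain ⟨x', hx', hmx⟩ := SSeq.half (xb_meas M hc l) hpq hK₀0 hE hL (xb_mean M hc l)
    (xb_mom M hp1.le hK₀0 hb' l) hEp h5 hx2
  have hx3 : L ^ (1 + α - 2 * e) / 2 ≤ x' := by linarith
  have hx0 : 0 < x' := lt_of_lt_of_le (by positivity) hx3
  have hy0 : 0 < B * L / lam := by positivity
  have hpr := ev_prob (μ := M.μ) (X := fun ω => E.indicator (XB M hc l) ω)
    (Y := XB M (hc + lam) l) ((xb_meas M hc l).indicator hE) (xb_meas M (hc + lam) l)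
    (fun ω => Set.indicator_nonneg (fun ω _ =>
      (Nat.cast_nonneg l).trans (xb_ge M hc l ω)) ω)
    (fun ω => (Nat.cast_nonneg l).trans (xb_ge M (hc + lam) l ω)) hx0 hy0 hmx
    (by
      rw [xb_mean]
      exact ENNReal.ofReal_le_ofReal (hY lam hlam0 hlam1 l)) hpq
    (Real.rpow_pos_of_pos hL0 ((1 + α + e) * p)) hEm
  have hpr2 := (SSeq.prob hL hp0 hq0 hx3 h2).trans hpr
  have hrat := SSeq.ratio hL (by linarith : 2 * e ≤ ε / 4) hlam hx3 h3
  set h : ℝ := hc - b * lam with hh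
  set u : ℝ := (b * (ε / 2) - 2 - 2 * c₂) * Real.log L with hu
  have hsub : {ω | x' / 2 ≤ E.indicator (XB M hc l) ω ∧ XB M (hc + lam) l ω ≤
      4 * (B * L / lam) / x' * E.indicator (XB M hc l) ω} ⊆
      {ω | Real.exp u ≤ M.Z h (2 * l) ω} := by
    rintro ω ⟨w1, w2⟩
    by_cases hω : ω ∈ E
    · rw [Set.indicator_of_mem hω] at w1 w2
      have w3 : XB M (hc + lam) l ω ≤ L ^ (-(ε / 2)) * XB M hc l ω :=
        w2.trans (mul_le_mul_of_nonneg_right hrat ((Nat.cast_nonneg l).trans (xb_ge M hc l ω)))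
      have w4 := SSeq.cvx M hlam0 hb0 hL hLd w3
      have w5 := SSeq.pin M (h := h) (hc := hc) (c := c₂) (by
        rw [hh]
        have := mul_pos hb0 hlam0
        linarith) hL0 hLd (fun a ha => hEz ω hω a ha) w4
      show Real.exp u ≤ M.Z h (2 * l) ω
      rw [Real.rpow_def_of_pos hL0] at w5
      rw [hu, mul_comm]
      exact w5
    · rw [Set.indicator_of_notMem hω] at w1
      exfalso
      linarith
  have hpr3 : L ^ (-(4 * e * q)) ≤ (seqLaw M.μ {ω | Real.exp u ≤ M.Z h (2 * l) ω}).toReal :=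
    hpr2.trans (ENNReal.toReal_mono (measure_ne_top _ _) (measure_mono hsub))
  have hp00 : 0 < L ^ (-(4 * e * q)) := Real.rpow_pos_of_pos hL0 _
  have hmain := hstr h (by rw [hh]; linarith) (by
    rw [hh]
    have := mul_pos hb0 hlam0
    linarith) l h7 u _ hp00 hpr3
  have hlog : Real.log (1 / L ^ (-(4 * e * q))) = 4 * e * q * Real.log L := by
    rw [one_div, ← Real.rpow_neg hL0.le, neg_neg, Real.log_rpow hL0]
  have hbe : b * (ε / 2) = 1 + 2 + 2 * c₂ + A₁ + A₁ * (4 * e * q) := by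
    rw [hbd]
    field_simp
  have h6' : C₁ + 1 ≤ Real.log L := h6
  have hbr : 1 ≤ u - C₁ - A₁ * Real.log l - A₁ * Real.log (1 / L ^ (-(4 * e * q))) := by
    rw [hlog, hu, hbe]
    have : (1 + 2 + 2 * c₂ + A₁ + A₁ * (4 * e * q) - 2 - 2 * c₂) * Real.log L - C₁ -
        A₁ * Real.log l - A₁ * (4 * e * q * Real.log L) = Real.log L - C₁ := by
      rw [← hLd]
      ring
    rw [this]
    linarith
  have hF : L ^ (-(4 * e * q)) ≤ C₁ * L * M.Fr h := by
    refine le_trans ?_ hmain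
    exact le_mul_of_one_le_right hp00.le hbr
  have hF0 : 0 ≤ M.Fr h := by
    by_contra hcon
    push Not at hcon
    have : C₁ * L * M.Fr h < 0 := mul_neg_of_pos_of_neg (by positivity) hcon
    linarith
  have hF1 : L ^ (-(4 * e * q)) ≤ L ^ (ε / 2) * L * M.Fr h :=
    hF.trans (mul_le_mul_of_nonneg_right (mul_le_mul_of_nonneg_right h4 hL0.le) hF0)
  have hF2 : L ^ (-(1 + ε)) * (L ^ (ε / 2) * L) ≤ L ^ (-(4 * e * q)) := by
    have w : L ^ (ε / 2) * L = L ^ (ε / 2 + 1) := by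
      rw [Real.rpow_add hL0, Real.rpow_one]
    rw [w, ← Real.rpow_add hL0]
    apply Real.rpow_le_rpow_of_exponent_le hL
    linarith
  have hF3 : 0 < L ^ (ε / 2) * L := by positivity
  refine le_of_mul_le_mul_right ?_ hF3
  refine (hF2.trans hF1).trans (le_of_eq ?_)
  ring

/-- From the sequences to all small `δ`: `l = ⌈(b / δ)^(1/(α-ε'))⌉`, so `b l^(-(α-ε')) ≤ δ` and
`l ≤ 2 (b / δ)^(1/(α-ε'))`: `F (hc - δ) ≥ l^(-(1+ε')) ≥ c δ^((1+ε')/(α-ε')) ≥ δ^(1/α+ε)` if `ε'` is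
small enough. -/
theorem s_all {F : ℝ → ℝ} {hc α : ℝ} (hanti : Antitone F) (hα : 0 < α)
    (h : ∀ ε : ℝ, 0 < ε → ε < α → ∃ b : ℝ, 0 < b ∧ ∀ᶠ l : ℕ in atTop,
      (l : ℝ) ^ (-(1 + ε)) ≤ F (hc - b * (l : ℝ) ^ (-(α - ε)))) {ε : ℝ} (hε : 0 < ε) :
    ∀ᶠ δ in 𝓝[>] (0 : ℝ), δ ^ (1 / α + ε) ≤ F (hc - δ) := by
  set e : ℝ := min (α / 2) (ε * α ^ 2 / (4 * (1 + α))) with he
  have he0 : 0 < e := lt_min (by linarith) (by positivity)
  have he1 : e ≤ α / 2 := min_le_left _ _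
  have he2 : e ≤ ε * α ^ 2 / (4 * (1 + α)) := min_le_right _ _
  obtain ⟨b, hb, hl⟩ := h e he0 (by linarith)
  set γ : ℝ := α - e with hγ
  have hγ0 : 0 < γ := by linarith
  have hexp : (1 + e) / γ ≤ 1 / α + ε / 2 := by
    rw [le_div_iff₀ (by positivity)] at he2
    rw [div_le_iff₀ hγ0]
    have h1 : (1 / α + ε / 2) * γ = (2 + ε * α) * (α - e) / (2 * α) := by
      rw [hγ]
      field_simp
    rw [h1, le_div_iff₀ (by positivity)]
    nlinarith [mul_pos he0 hα, mul_pos hε hα, mul_nonneg (mul_pos hε hα).le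
      (by linarith : 0 ≤ α / 2 - e)]
  have ht1 : Tendsto (fun δ : ℝ => (b / δ) ^ (1 / γ)) (𝓝[>] 0) atTop := by
    have h0 : Tendsto (fun δ : ℝ => b * δ⁻¹) (𝓝[>] 0) atTop :=
      Tendsto.const_mul_atTop hb tendsto_inv_nhdsGT_zero
    exact (tendsto_rpow_atTop (show 0 < 1 / γ by positivity)).comp h0
  have ht2 : Tendsto (fun δ : ℝ => ⌈(b / δ) ^ (1 / γ)⌉₊) (𝓝[>] 0) atTop :=
    tendsto_nat_ceil_atTop.comp ht1
  set c : ℝ := (2 : ℝ) ^ (-(1 + e)) * b ^ (-((1 + e) / γ)) with hc'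
  have hc0 : 0 < c := by positivity
  have ht3 : Tendsto (fun δ : ℝ => δ ^ (ε / 2)) (𝓝[>] 0) (𝓝 0) := by
    have h1 := (Real.continuousAt_rpow_const 0 (ε / 2) (Or.inr (by linarith))).tendsto
    rw [Real.zero_rpow (by linarith : ε / 2 ≠ 0)] at h1
    exact h1.mono_left nhdsWithin_le_nhds
  filter_upwards [ht2.eventually hl, ht1.eventually_ge_atTop 1,
    ht3.eventually (ge_mem_nhds hc0), self_mem_nhdsWithin,
    (Ioc_mem_nhdsGT (zero_lt_one' ℝ))] with δ h1 h2 h3 h4 h5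
  have hδ : 0 < δ := h4
  have hδ1 : δ ≤ 1 := h5.2
  set t : ℝ := (b / δ) ^ (1 / γ) with ht
  set l : ℕ := ⌈t⌉₊ with hld
  have ht0 : 0 < t := by linarith
  have hlt : t ≤ (l : ℝ) := Nat.le_ceil t
  have hlt2 : (l : ℝ) ≤ 2 * t := by
    have := Nat.ceil_lt_add_one ht0.le
    rw [← hld] at this
    linarith
  have hl0 : (0 : ℝ) < l := by linarith
  have htγ : t ^ γ = b / δ := by
    rw [ht, ← Real.rpow_mul (by positivity), one_div, inv_mul_cancel₀ hγ0.ne', Real.rpow_one]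
  have hb1 : b * (l : ℝ) ^ (-γ) ≤ δ := by
    have h6 : b / δ ≤ (l : ℝ) ^ γ := by
      rw [← htγ]
      exact Real.rpow_le_rpow ht0.le hlt hγ0.le
    rw [Real.rpow_neg hl0.le, ← div_eq_mul_inv, div_le_iff₀ (Real.rpow_pos_of_pos hl0 _)]
    rw [div_le_iff₀ hδ] at h6
    linarith
  have h6 : F (hc - b * (l : ℝ) ^ (-γ)) ≤ F (hc - δ) := hanti (by linarith)
  refine le_trans ?_ (h1.trans h6)
  have h7 : (2 * t) ^ (-(1 + e)) ≤ (l : ℝ) ^ (-(1 + e)) :=
    Real.rpow_le_rpow_of_nonpos hl0 hlt2 (by linarith)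
  refine le_trans ?_ h7
  have h8 : (2 * t) ^ (-(1 + e)) = c * δ ^ ((1 + e) / γ) := by
    rw [Real.mul_rpow (by norm_num) ht0.le, hc', ht, ← Real.rpow_mul (by positivity),
      Real.div_rpow hb.le hδ.le, mul_assoc]
    congr 1
    have h9 : 1 / γ * -(1 + e) = -((1 + e) / γ) := by ring
    rw [h9, Real.rpow_neg hδ.le, div_inv_eq_mul]
  rw [h8]
  have h9 : δ ^ (1 / α + ε / 2) ≤ δ ^ ((1 + e) / γ) :=
    Real.rpow_le_rpow_of_exponent_ge hδ hδ1 hexp
  have h10 : δ ^ (1 / α + ε) = δ ^ (ε / 2) * δ ^ (1 / α + ε / 2) := by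
    rw [← Real.rpow_add hδ]
    congr 1
    ring
  rw [h10]
  exact mul_le_mul h3 h9 (by positivity) hc0.le

end

end Pool.Agent.HG
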