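import Pool.Agent.Lib.MP_daa227_pr_HG.SDef
import Pool.Agent.Lib.MP_daa227_pr_HZ.Upper

/-!
# MP_daa227_pr, exact order: the annealed upper bound
-/

namespace Pool.Agent.HG

open MeasureTheory ProbabilityTheory Finset Filter Topology
open MP_daa227_pr (Chain Zk Zf Gk Gf KU K0 Ren shift seqLaw ExpMom DepOn Good GoodW mom)
open Pool.Agent.HZ (Mod Kv lmg)
open Pool.Agent.IOrd (Sys aS cv)

noncomputable section

/-- `Zd (v h - s) n ≤ 1` (`HZ.Upper.Zd_le_one`), so `E Z_h n ≤ exp (s n)`; `M.Fr_le_of_mom` with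
`γ = 1` (compare `M.Fr_nonpos`) -/
theorem fr_le_of_sum (M : Mod) {h s : ℝ} (hs : 0 ≤ s)
    (h1 : ∀ N : ℕ, ∑ n ∈ range N, M.g h n * Real.exp (-(s * n)) ≤ 1) : M.Fr h ≤ s := by
  have key : ∀ n : ℕ, HZ.Zd M.C (M.v h) n 0 0 ≤ Real.exp (s * n) := by
    intro n
    induction n using Nat.strong_induction_on with
    | _ n ih =>
      by_cases hn : n = 0
      · subst hn
        rw [HZ.Zd_zero]
        simp
      · rw [HZ.Zd_renewal _ _ hn]
        have h2 : ∀ m ∈ Ioc 0 n, Kv M.C (M.v h) m 0 * HZ.Zd M.C (M.v h) (n - m) 0 0 ≤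
            Real.exp (s * n) * (M.g h m * Real.exp (-(s * m))) := by
          intro m hm
          rw [mem_Ioc] at hm
          have h3 := mul_le_mul_of_nonneg_left (ih (n - m) (by omega))
            (HZ.Kv_nonneg M.C (M.v h) m 0)
          refine h3.trans (le_of_eq ?_)
          have e : s * ((n - m : ℕ) : ℝ) = s * n + -(s * m) := by
            rw [Nat.cast_sub hm.2]
            ring
          rw [e, Real.exp_add]
          unfold Mod.g
          ring
        refine (sum_le_sum h2).trans ?_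
        rw [← mul_sum]
        have h3 : ∑ m ∈ Ioc 0 n, M.g h m * Real.exp (-(s * m)) ≤ 1 := by
          refine le_trans ?_ (h1 (n + 1))
          refine sum_le_sum_of_subset_of_nonneg ?_ fun m _ _ =>
            mul_nonneg (HZ.Kv_nonneg _ _ _ _) (Real.exp_pos _).le
          intro m hm
          rw [mem_Ioc] at hm
          rw [mem_range]
          omega
        exact mul_le_of_le_one_right (Real.exp_pos _).le h3
  have h2 := M.Fr_le_of_mom (h := h) (γ := 1) (G := s) one_pos le_rfl fun n _ => by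
    have h3 : mom M.μ 1 (fun ω => M.Z h n ω) = ENNReal.ofReal (HZ.Zd M.C (M.v h) n 0 0) :=
      M.mom_one_Zk h n 0 0
    rw [h3]
    exact ENNReal.ofReal_le_ofReal (key n)
  rwa [div_one] at h2

/-- `g hc n ≥ Kv (-hc φ) n ≥ n^(-(1+α+ε/2))` for large even `n`, and `1 - exp (-s n) ≥ 1/2` for
`n ≥ 1/s` -/
theorem tail_low (M : Mod) {α hc : ℝ} (hα : 0 ≤ α) (hA : ∀ ε : ℝ, 0 < ε → ∀ᶠ n : ℕ in atTop,
      ((2 * n : ℕ) : ℝ) ^ (-(1 + α + ε)) ≤ Kv M.C (fun z => -hc * M.φ z) (2 * n) 0) {ε : ℝ}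
    (hε : 0 < ε) : ∃ c : ℝ, 0 < c ∧ ∀ s : ℝ, 0 < s → s ≤ 1 → ∃ N₀ : ℕ, ∀ N : ℕ, N₀ ≤ N →
      c * s ^ (α + ε) ≤ ∑ n ∈ range N, M.g hc n * (1 - Real.exp (-(s * n))) := by
  have h1 := hA ε hε
  rw [eventually_atTop] at h1
  obtain ⟨n₁, h1⟩ := h1
  have hg : ∀ n : ℕ, n₁ ≤ n → ((2 * n : ℕ) : ℝ) ^ (-(1 + α + ε)) ≤ M.g hc (2 * n) := by
    intro n hn
    refine (h1 n hn).trans (HZ.Kv_mono M.C (fun z => ?_) _ _)
    unfold Mod.v
    have := HZ.lmg_nonneg M.exp_mom M.mean (M.β * M.φ z)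
    linarith
  have hae : 0 < α + ε := by linarith
  refine ⟨1 / 2 * (4 : ℝ) ^ (-(1 + α + ε)) * ((n₁ : ℝ) + 2) ^ (-(α + ε)), by positivity, ?_⟩
  intro s hs hs1
  obtain ⟨L, hL⟩ : ∃ L : ℕ, L = n₁ + ⌈1 / s⌉₊ := ⟨_, rfl⟩
  have hLs : 1 / s ≤ (L : ℝ) := by
    rw [hL]
    push_cast
    have := Nat.le_ceil (1 / s)
    have h3 : (0 : ℝ) ≤ n₁ := Nat.cast_nonneg _
    linarith
  have hs1' : 1 ≤ 1 / s := by
    rw [le_div_iff₀ hs]
    linarith
  have hL1 : (1 : ℝ) ≤ L := hs1'.trans hLs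
  have hL0 : (0 : ℝ) < L := by linarith
  have hLup : (L : ℝ) ≤ ((n₁ : ℝ) + 2) / s := by
    rw [hL]
    push_cast
    have h3 := (Nat.ceil_lt_add_one (by positivity : 0 ≤ 1 / s)).le
    have h4 : (n₁ : ℝ) ≤ n₁ / s := by
      rw [le_div_iff₀ hs]
      have : (0 : ℝ) ≤ n₁ := Nat.cast_nonneg _
      nlinarith
    calc _ ≤ (n₁ : ℝ) / s + (1 / s + 1 / s) := by linarith
      _ = _ := by ring
  refine ⟨4 * L, fun N hN => ?_⟩
  have hterm0 : ∀ n : ℕ, 0 ≤ M.g hc n * (1 - Real.exp (-(s * n))) := by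
    intro n
    refine mul_nonneg (HZ.Kv_nonneg _ _ _ _) ?_
    have : Real.exp (-(s * n)) ≤ 1 := Real.exp_le_one_iff.2 (by
      have : 0 ≤ s * n := by positivity
      linarith)
    linarith
  calc _ ≤ 1 / 2 * (L : ℝ) * (4 * L : ℝ) ^ (-(1 + α + ε)) := by
        have e1 : (L : ℝ) * (L : ℝ) ^ (-(1 + α + ε)) = (L : ℝ) ^ (-(α + ε)) := by
          nth_rewrite 1 [← Real.rpow_one (L : ℝ)]
          rw [← Real.rpow_add hL0]
          congr 1
          ring
        have e2 : ((n₁ : ℝ) + 2) ^ (-(α + ε)) * s ^ (α + ε) =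
            (((n₁ : ℝ) + 2) / s) ^ (-(α + ε)) := by
          rw [Real.div_rpow (by positivity) hs.le, Real.rpow_neg hs.le, div_inv_eq_mul]
        have e3 : (((n₁ : ℝ) + 2) / s) ^ (-(α + ε)) ≤ (L : ℝ) ^ (-(α + ε)) :=
          Real.rpow_le_rpow_of_nonpos hL0 hLup (by linarith)
        rw [Real.mul_rpow (by norm_num) hL0.le]
        have h4 : (0 : ℝ) < 4 ^ (-(1 + α + ε)) := by positivity
        calc _ = 1 / 2 * (4 : ℝ) ^ (-(1 + α + ε)) *
              (((n₁ : ℝ) + 2) ^ (-(α + ε)) * s ^ (α + ε)) := by ring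
          _ ≤ 1 / 2 * (4 : ℝ) ^ (-(1 + α + ε)) * (L : ℝ) ^ (-(α + ε)) := by
              rw [e2]
              exact mul_le_mul_of_nonneg_left e3 (by positivity)
          _ = _ := by rw [← e1]; ring
    _ = ∑ _k ∈ Ico L (2 * L), (4 * L : ℝ) ^ (-(1 + α + ε)) * (1 / 2) := by
        rw [sum_const, Nat.card_Ico, nsmul_eq_mul]
        have : ((2 * L - L : ℕ) : ℝ) = L := by
          congr 1
          omega
        rw [this]
        ring
    _ ≤ ∑ k ∈ Ico L (2 * L), M.g hc (2 * k) * (1 - Real.exp (-(s * ((2 * k : ℕ) : ℝ)))) := by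
        refine sum_le_sum fun k hk => ?_
        rw [mem_Ico] at hk
        have hk0 : (L : ℝ) ≤ k := by exact_mod_cast hk.1
        refine mul_le_mul (le_trans ?_ (hg k (by omega))) ?_ (by norm_num)
          (HZ.Kv_nonneg _ _ _ _)
        · apply Real.rpow_le_rpow_of_nonpos
          · push_cast
            linarith
          · have : 2 * k ≤ 4 * L := by omega
            exact_mod_cast this
          · linarith
        · have h5 : 1 ≤ s * ((2 * k : ℕ) : ℝ) := by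
            push_cast
            have h6 : 1 / s ≤ (k : ℝ) := hLs.trans hk0
            rw [div_le_iff₀ hs] at h6
            nlinarith
          have h6 : Real.exp (-(s * ((2 * k : ℕ) : ℝ))) ≤ Real.exp (-1) :=
            Real.exp_le_exp.2 (by linarith)
          have h7 : Real.exp (-1) ≤ 1 / 2 := by
            rw [Real.exp_neg, inv_eq_one_div]
            apply one_div_le_one_div_of_le (by norm_num)
            have := Real.add_one_le_exp (1 : ℝ)
            linarith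
          linarith
    _ = ∑ n ∈ (Ico L (2 * L)).image (fun k => 2 * k),
          M.g hc n * (1 - Real.exp (-(s * n))) := by
        rw [sum_image]
        intro a _ b _ hab
        simp only at hab
        omega
    _ ≤ _ := by
        refine sum_le_sum_of_subset_of_nonneg ?_ fun n _ _ => hterm0 n
        intro n hn
        rw [mem_image] at hn
        obtain ⟨k, hk, rfl⟩ := hn
        rw [mem_Ico] at hk
        rw [mem_range]
        omega

/-- With `δ ≤ u / 2`, `δ ≤ δ₀`, `s = (C₁ δ / c)^(1/(α+ε)) ≤ 1`: by convexity in `h` (e.g.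
`HZ.Interp.interp_K` and the arithmetic mean) `∑ g (hc - δ) ≤ ∑ g hc + C₁ δ`, `C₁ = B / u`, and
`∑_{n<N} g (hc-δ) n e^{-sn} ≤ ∑_{n<N} g (hc-δ) n - ∑_{n<N} g hc n (1 - e^{-sn}) ≤
1 + C₁ δ - c s^(α+ε) ≤ 1` for large `N`, hence for all `N`; `fr_le_of_sum`. Finally
`(C₁/c)^(1/(α+ε')) δ^(1/(α+ε')) ≤ δ^(1/α-ε)` for small `ε'` and small `δ`. -/
theorem s_upper (M : Mod) {α hc u B : ℝ} (hα : 0 < α) (hA : ∀ ε : ℝ, 0 < ε → ∀ᶠ n : ℕ in atTop,
      ((2 * n : ℕ) : ℝ) ^ (-(1 + α + ε)) ≤ Kv M.C (fun z => -hc * M.φ z) (2 * n) 0)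
    (hu : 0 < u) (hB : ∀ N : ℕ, ∑ n ∈ range N, M.g (hc - u) n ≤ B)
    (hg : ∀ N : ℕ, ∑ n ∈ range N, M.g hc n ≤ 1) {ε : ℝ} (hε : 0 < ε) :
    ∀ᶠ δ in 𝓝[>] (0 : ℝ), M.Fr (hc - δ) ≤ δ ^ (1 / α - ε) := by
  obtain ⟨ε', hε'⟩ : ∃ ε', ε' = ε * α ^ 2 / 2 := ⟨_, rfl⟩
  have hε'0 : 0 < ε' := by rw [hε']; positivity
  obtain ⟨c, hc', htail⟩ := tail_low M hα.le hA hε'0
  have hB0 : 0 ≤ B := by
    have := hB 0
    simpa using this
  obtain ⟨C₁, hC₁⟩ : ∃ C₁, C₁ = (B + 1) / u := ⟨_, rfl⟩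
  have hC₁0 : 0 < C₁ := by rw [hC₁]; positivity
  obtain ⟨A, hA'⟩ : ∃ A, A = (C₁ / c) ^ (1 / (α + ε')) := ⟨_, rfl⟩
  have hA0 : 0 < A := by rw [hA']; positivity
  have hae : 0 < α + ε' := by linarith
  have hlim : Tendsto (fun δ : ℝ => A * δ ^ (ε / 2)) (𝓝[>] 0) (𝓝 0) := by
    have h1 : ContinuousAt (fun δ : ℝ => A * δ ^ (ε / 2)) 0 :=
      (Real.continuousAt_rpow_const 0 (ε / 2) (Or.inr (by linarith))).const_mul A
    have h2 : A * (0 : ℝ) ^ (ε / 2) = 0 := by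
      rw [Real.zero_rpow (by linarith : ε / 2 ≠ 0), mul_zero]
    have h3 := h1.tendsto
    simp only [h2] at h3
    exact h3.mono_left nhdsWithin_le_nhds
  have hev : ∀ᶠ δ in 𝓝[>] (0 : ℝ), δ ∈ Set.Ioo 0 (min 1 (min u (c / C₁))) :=
    Ioo_mem_nhdsGT (lt_min one_pos (lt_min hu (by positivity)))
  filter_upwards [hlim.eventually (gt_mem_nhds one_pos), hev] with δ hδA hδ
  obtain ⟨hδ0, hδm⟩ := hδ
  have hδ1 : δ < 1 := hδm.trans_le (min_le_left _ _)
  have hδu : δ < u := hδm.trans_le ((min_le_right _ _).trans (min_le_left _ _))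
  have hδc : δ < c / C₁ := hδm.trans_le ((min_le_right _ _).trans (min_le_right _ _))
  -- convexity
  have hθ0 : 0 ≤ δ / u := by positivity
  have hθ1 : δ / u ≤ 1 := (div_le_one hu).2 hδu.le
  have hv : M.v (hc - δ) = fun z => (1 - δ / u) * M.v hc z + δ / u * M.v (hc - u) z := by
    funext z
    unfold Mod.v
    field_simp
    ring
  have hconv : ∀ n : ℕ, M.g (hc - δ) n ≤ (1 - δ / u) * M.g hc n + δ / u * M.g (hc - u) n := by
    intro n
    have h1 := HZ.interp_K M.C (M.v hc) (M.v (hc - u)) hθ0 hθ1 n 0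
    rw [← hv] at h1
    refine h1.trans ?_
    exact Real.geom_mean_le_arith_mean2_weighted (by linarith) hθ0 (HZ.Kv_nonneg _ _ _ _)
      (HZ.Kv_nonneg _ _ _ _) (by ring)
  have hsum : ∀ N : ℕ, ∑ n ∈ range N, M.g (hc - δ) n ≤ 1 + C₁ * δ := by
    intro N
    refine (sum_le_sum fun n _ => hconv n).trans ?_
    rw [sum_add_distrib, ← mul_sum, ← mul_sum]
    have h1 := mul_le_mul_of_nonneg_left (hg N) (by linarith : 0 ≤ 1 - δ / u)
    have h2 := mul_le_mul_of_nonneg_left (hB N) hθ0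
    have h3 : C₁ * δ = δ / u * B + δ / u := by
      rw [hC₁]
      field_simp
    rw [h3]
    linarith
  have hmono : ∀ n : ℕ, M.g hc n ≤ M.g (hc - δ) n := fun n =>
    HZ.Kv_mono M.C (fun z => by
      unfold Mod.v
      have := mul_nonneg hδ0.le (M.φ_nonneg z)
      linarith) n 0
  obtain ⟨s, hs⟩ : ∃ s, s = (C₁ * δ / c) ^ (1 / (α + ε')) := ⟨_, rfl⟩
  have hx0 : 0 < C₁ * δ / c := by positivity
  have hs0 : 0 < s := by rw [hs]; positivity
  have hx1 : C₁ * δ / c ≤ 1 := by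
    rw [div_le_one hc']
    rw [lt_div_iff₀ hC₁0] at hδc
    linarith
  have hs1 : s ≤ 1 := by
    rw [hs]
    exact Real.rpow_le_one hx0.le hx1 (by positivity)
  have hspow : c * s ^ (α + ε') = C₁ * δ := by
    rw [hs, ← Real.rpow_mul hx0.le, one_div_mul_cancel hae.ne', Real.rpow_one]
    field_simp
  obtain ⟨N₀, hN₀⟩ := htail s hs0 hs1
  have hFr : M.Fr (hc - δ) ≤ s := by
    refine fr_le_of_sum M hs0.le fun N => ?_
    have h1 : ∑ n ∈ range N, M.g (hc - δ) n * Real.exp (-(s * n)) ≤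
        ∑ n ∈ range (max N N₀), M.g (hc - δ) n * Real.exp (-(s * n)) := by
      refine sum_le_sum_of_subset_of_nonneg ?_ fun m _ _ =>
        mul_nonneg (HZ.Kv_nonneg _ _ _ _) (Real.exp_pos _).le
      exact range_subset_range.2 (le_max_left _ _)
    refine h1.trans ?_
    have h2 := hN₀ (max N N₀) (le_max_right _ _)
    have h3 : ∑ n ∈ range (max N N₀), M.g hc n * (1 - Real.exp (-(s * n))) ≤
        ∑ n ∈ range (max N N₀), M.g (hc - δ) n * (1 - Real.exp (-(s * n))) := by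
      refine sum_le_sum fun n _ => mul_le_mul_of_nonneg_right (hmono n) ?_
      have : Real.exp (-(s * n)) ≤ 1 := Real.exp_le_one_iff.2 (by
        have : 0 ≤ s * n := by positivity
        linarith)
      linarith
    have h4 : ∑ n ∈ range (max N N₀), M.g (hc - δ) n * Real.exp (-(s * n)) =
        ∑ n ∈ range (max N N₀), M.g (hc - δ) n -
          ∑ n ∈ range (max N N₀), M.g (hc - δ) n * (1 - Real.exp (-(s * n))) := by
      rw [← sum_sub_distrib]
      exact sum_congr rfl fun n _ => by ring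
    rw [h4]
    have h5 := hsum (max N N₀)
    rw [hspow] at h2
    linarith
  refine hFr.trans ?_
  have h6 : s = A * δ ^ (1 / (α + ε')) := by
    rw [hs, hA', ← Real.mul_rpow (by positivity) hδ0.le]
    congr 1
    ring
  have h7 : 1 / α - ε / 2 ≤ 1 / (α + ε') := by
    rw [le_div_iff₀ hae]
    have e1 : (1 / α - ε / 2) * (α + ε') = 1 + (ε' / α - ε * α / 2) - ε / 2 * ε' := by
      field_simp
      ring
    have e2 : ε' / α = ε * α / 2 := by
      rw [hε']
      field_simp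
    rw [e1, e2]
    nlinarith
  rw [h6]
  calc A * δ ^ (1 / (α + ε')) ≤ A * δ ^ (1 / α - ε / 2) :=
        mul_le_mul_of_nonneg_left (Real.rpow_le_rpow_of_exponent_ge hδ0 hδ1.le h7) hA0.le
    _ = A * δ ^ (ε / 2) * δ ^ (1 / α - ε) := by
        rw [mul_assoc, ← Real.rpow_add hδ0]
        congr 2
        ring
    _ ≤ 1 * δ ^ (1 / α - ε) :=
        mul_le_mul_of_nonneg_right hδA.le (Real.rpow_nonneg hδ0.le _)
    _ = _ := one_mul _

end

end Pool.Agent.HG
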