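import Pool.Agent.Lib.MP_daa227_pr_HG.Ord
import Pool.Agent.Lib.MP_daa227_pr_HG.SSeq
import Pool.Agent.Lib.MP_daa227_pr_HG.SUp
import Pool.Agent.Lib.MP_daa227_pr_HG.STail
import Pool.Agent.Lib.MP_daa227_pr_HG.SMean

/-!
# MP_daa227_pr: the exact order of the transition
-/

namespace Pool.Agent.HG

open MeasureTheory ProbabilityTheory Finset Filter Topology
open MP_daa227_pr (Chain Zk Zf Gk Gf KU K0 Ren shift seqLaw ExpMom DepOn Good GoodW mom)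
open Pool.Agent.HZ (Mod Kv lmg)
open Pool.Agent.IOrd (Sys aS cv)

noncomputable section

/-- a bounded moment of order larger than one: the loop exponent is at most one half -/
theorem alpha_le {M : Mod} {α hc p K : ℝ} (hP : PolyCost M) (hU : KUp M.C α)
    (hc0 : 0 < hc) (hcrit : ∀ h, 0 < M.Fr h ↔ h < hc) (hp : 1 < p)
    (hb : ∀ n : ℕ, mom M.μ p (fun ω => M.Z hc (2 * n) ω) ≤ ENNReal.ofReal K) : α ≤ 1 / 2 := by
  by_contra hcon
  push Not at hcon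
  set a : ℝ := min ((α + 1 / 2) / 2) 1 with ha
  have h1 : 1 / 2 < a := lt_min (by linarith) (by norm_num)
  have h2 : a < α := (min_le_left _ _).trans_lt (by linarith)
  have h3 : a ≤ 1 := min_le_right _ _
  have h0 : 0 < a := by linarith
  have h4 := (bdd_fin hP hc0 hcrit hp hb h0 h3 (ftail_of_up M.C hU h0 h3 h2)
    (fun _ => ftail_of_up_neg M.C hU h0 h3 h2)).1
  linarith

/-- a bounded moment of order larger than one: the order of the transition is exactly `1 / α`, where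
`α` is the loop exponent of the excursions penalised at the critical point -/
theorem exact_gen {M : Mod} {α hc p K : ℝ} (hα : 0 < α) (hP : PolyCost M) (hW : PolyW M α hc)
    (hU : KUW M α hc) (hT : ∀ a : ℝ, 0 < a → a < α → ∃ A : ℝ, ∀ s : ℝ, 0 < s → s ≤ 1 → ∀ N : ℕ,
      ∑ n ∈ range N, M.g hc n * (1 - Real.exp (-(s * n))) ≤ A * s ^ a)
    (hc0 : 0 < hc) (hcrit : ∀ h, 0 < M.Fr h ↔ h < hc) (hp : 1 < p)
    (hb : ∀ n : ℕ, mom M.μ p (fun ω => M.Z hc (2 * n) ω) ≤ ENNReal.ofReal K) {ε : ℝ}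
    (hε : 0 < ε) : (∀ᶠ δ in 𝓝[>] (0 : ℝ), δ ^ (1 / α + ε) ≤ M.Fr (hc - δ)) ∧
      ∀ᶠ δ in 𝓝[>] (0 : ℝ), M.Fr (hc - δ) ≤ δ ^ (1 / α - ε) := by
  have hg := bdd_sum hp hb
  have hdec := bdd_ldec hp hb
  have hg1 : ∀ η : ℝ, 0 < η → ∃ N : ℕ, 1 - η ≤ ∑ n ∈ range N, M.g hc n := fun η hη =>
    bdd_one hc0 hcrit hp hb hη
  refine ⟨?_, ?_⟩
  · exact s_all (F := M.Fr) (fun h h' hh => M.Fr_anti hh) hα
      (fun ε hε hεα => s_seq M hP hα hc0 hW hU (Real.HolderConjugate.conjExponent hp) hb hg hg1 hT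
        hε hεα) hε
  · obtain ⟨u, hu, B, hB⟩ := g_fin M hc0 hg hdec
    exact s_upper M hα (fun ε hε => hW.low hε) hu hB hg hε

/-- a bounded moment of order larger than one: the order of the transition is exactly `1 / α` -/
theorem exact_order {M : Mod} {α hc p K : ℝ} (hα : 0 < α) (hA : PolyA M α) (hU : KUp M.C α)
    (hc0 : 0 < hc) (hcrit : ∀ h, 0 < M.Fr h ↔ h < hc) (hp : 1 < p)
    (hb : ∀ n : ℕ, mom M.μ p (fun ω => M.Z hc (2 * n) ω) ≤ ENNReal.ofReal K) {ε : ℝ}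
    (hε : 0 < ε) : (∀ᶠ δ in 𝓝[>] (0 : ℝ), δ ^ (1 / α + ε) ≤ M.Fr (hc - δ)) ∧
      ∀ᶠ δ in 𝓝[>] (0 : ℝ), M.Fr (hc - δ) ≤ δ ^ (1 / α - ε) := by
  have hP := polyCost_of_polyA M hA
  have hα2 := alpha_le hP hU hc0 hcrit hp hb
  refine exact_gen hα hP (polyW_of_polyA hc0 hA) (kuw_of_kUp hc0.le hU) ?_ hc0 hcrit hp hb hε
  intro a ha haα
  have h3 : a ≤ 1 := by linarith
  obtain ⟨A, _, hT⟩ := g_tail M hc0 (bdd_sum hp hb) (bdd_ldec hp hb) ha h3
    (ftail_of_up M.C hU ha h3 haα) (fun _ => ftail_of_up_neg M.C hU ha h3 haα)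
  exact ⟨A, hT⟩

end

end Pool.Agent.HG
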