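import Pool.Agent.Lib.MP_daa227_pr_HG.SDef
import Pool.Agent.Lib.MP_daa227_pr_HZ.Fin

/-!
# MP_daa227_pr, exact order: lower bounds for the excursions above higher levels
-/

namespace Pool.Agent.HG

open MeasureTheory ProbabilityTheory Finset Filter Topology
open MP_daa227_pr (Chain Zk Zf Gk Gf KU K0 Ren shift seqLaw ExpMom DepOn Good GoodW mom)
open Pool.Agent.HZ (Mod Kv lmg)
open Pool.Agent.IOrd (Sys aS cv)

noncomputable section

/-- the sequence is at least `n ^ (-1-α-ε)` for all `ε` -/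
def LBa (α : ℝ) (a : ℕ → ℝ) : Prop :=
  ∀ ε : ℝ, 0 < ε → ∀ᶠ n : ℕ in atTop, (n : ℝ) ^ (-(1 + α + ε)) ≤ a n

/-- copy of `HZ.A24.LB_scale` (Lib/MP_daa227_pr_HZ/Fin.lean) -/
theorem lba_scale {α : ℝ} (hα : 0 ≤ α) {a b : ℕ → ℝ} (ha : LBa α a) {c M : ℝ} (hc : 0 < c)
    (hM0 : 0 < M) (u : ℕ → ℕ) (hu : Tendsto u atTop atTop)
    (hM : ∀ᶠ n : ℕ in atTop, (u n : ℝ) ≤ M * n)
    (h : ∀ᶠ n : ℕ in atTop, c * a (u n) ≤ b n) : LBa α b := by
  intro ε hε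
  have h1 := hu.eventually (ha (ε / 2) (by linarith))
  have h2 : ∀ᶠ n : ℕ in atTop, M ^ (1 + α + ε / 2) / c ≤ (n : ℝ) ^ (ε / 2) :=
    HZ.A24.rpow_large (by linarith) _
  have h3 := hu.eventually_ge_atTop 1
  filter_upwards [h1, h2, h3, hM, h, eventually_ge_atTop 1] with n h1 h2 h3 h4 h5 h6
  have hn : (0 : ℝ) < n := by exact_mod_cast h6
  have hun : (0 : ℝ) < u n := by exact_mod_cast h3
  have h7 : (M * n) ^ (-(1 + α + ε / 2)) ≤ (u n : ℝ) ^ (-(1 + α + ε / 2)) :=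
    Real.rpow_le_rpow_of_nonpos hun h4 (by linarith)
  have h8 : (M * n) ^ (-(1 + α + ε / 2)) =
      (M ^ (1 + α + ε / 2))⁻¹ * (n : ℝ) ^ (-(1 + α + ε / 2)) := by
    rw [Real.mul_rpow hM0.le hn.le, Real.rpow_neg hM0.le]
  have hMp : 0 < M ^ (1 + α + ε / 2) := Real.rpow_pos_of_pos hM0 _
  have h9 : (n : ℝ) ^ (-(1 + α + ε)) * (n : ℝ) ^ (ε / 2) = (n : ℝ) ^ (-(1 + α + ε / 2)) := by
    rw [← Real.rpow_add hn]
    congr 1
    ring
  have h10 : (n : ℝ) ^ (-(1 + α + ε)) ≤ c * (M * n) ^ (-(1 + α + ε / 2)) := by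
    rw [h8, ← h9]
    have h11 : 1 ≤ c * (M ^ (1 + α + ε / 2))⁻¹ * (n : ℝ) ^ (ε / 2) := by
      rw [div_le_iff₀ hc] at h2
      calc (1 : ℝ) = (M ^ (1 + α + ε / 2))⁻¹ * M ^ (1 + α + ε / 2) := (inv_mul_cancel₀ hMp.ne').symm
        _ ≤ (M ^ (1 + α + ε / 2))⁻¹ * ((n : ℝ) ^ (ε / 2) * c) :=
            mul_le_mul_of_nonneg_left h2 (inv_pos.2 hMp).le
        _ = _ := by ring
    have h12 : 0 ≤ (n : ℝ) ^ (-(1 + α + ε)) := (Real.rpow_pos_of_pos hn _).le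
    calc (n : ℝ) ^ (-(1 + α + ε)) = (n : ℝ) ^ (-(1 + α + ε)) * 1 := (mul_one _).symm
      _ ≤ (n : ℝ) ^ (-(1 + α + ε)) * (c * (M ^ (1 + α + ε / 2))⁻¹ * (n : ℝ) ^ (ε / 2)) :=
          mul_le_mul_of_nonneg_left h11 h12
      _ = _ := by ring
  calc (n : ℝ) ^ (-(1 + α + ε)) ≤ c * (M * n) ^ (-(1 + α + ε / 2)) := h10
    _ ≤ c * (u n : ℝ) ^ (-(1 + α + ε / 2)) := mul_le_mul_of_nonneg_left h7 hc.le
    _ ≤ c * a (u n) := mul_le_mul_of_nonneg_left h1 hc.le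
    _ ≤ b n := h5

/-- copy of `HZ.A24.LB_transfer`, with `ρ ^ j ≤ s ^ (-(3 + α))` -/
theorem lba_transfer {α : ℝ} (hα : 0 ≤ α) {X Y : ℕ → ℝ} (hX : LBa α X) {K ρ c : ℝ} (hK : 0 < K)
    (hρ0 : 0 < ρ) (hρ : ρ < 1) (hc : 0 ≤ c)
    (h : ∀ s j : ℕ, X (j * (s + 1)) ≤ K * Y s + c * ρ ^ j) : LBa α Y := by
  intro ε hε
  set e : ℝ := min ε 1 with he
  have he0 : 0 < e := lt_min hε one_pos
  have he1 : e ≤ 1 := min_le_right _ _
  have heε : e ≤ ε := min_le_left _ _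
  set δ : ℝ := e / (2 * (3 + α)) with hδ
  have hδ0 : 0 < δ := by positivity
  set b : ℝ := -Real.log ρ with hb
  have hb0 : 0 < b := by
    have := Real.log_neg hρ0 hρ
    linarith
  set A : ℝ := (3 + α) / b with hA
  have hA0 : 0 < A := by positivity
  set j : ℕ → ℕ := fun s => ⌈A * Real.log s⌉₊ + 1 with hj
  have hu : Tendsto (fun s => j s * (s + 1)) atTop atTop := by
    refine tendsto_atTop_mono (fun s => ?_) tendsto_id
    have : 1 ≤ j s := Nat.le_add_left 1 _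
    calc id s ≤ 1 * (s + 1) := by simp
      _ ≤ j s * (s + 1) := Nat.mul_le_mul_right _ this
  have e1 := hu.eventually (hX δ hδ0)
  have e2 := HZ.A24.log_small hδ0 hA0
  have e3 : ∀ᶠ n : ℕ in atTop, 2 * c ≤ (n : ℝ) ^ (1 : ℝ) := HZ.A24.rpow_large one_pos _
  have e4 : ∀ᶠ n : ℕ in atTop, 2 * K ≤ (n : ℝ) ^ (e / 2) := HZ.A24.rpow_large (by linarith) _
  filter_upwards [e1, e2, e3, e4, eventually_ge_atTop 1] with s e1 e2 e3 e4 e5
  have hs1 : (1 : ℝ) ≤ s := by exact_mod_cast e5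
  have hs : (0 : ℝ) < s := by linarith
  have hlog : 0 ≤ Real.log s := Real.log_nonneg hs1
  -- size of `j`
  have hj1 : (j s : ℝ) ≤ A * Real.log s + 2 := by
    have h1 := Nat.ceil_lt_add_one (mul_nonneg hA0.le hlog)
    simp only [hj]
    push_cast
    linarith
  have hj2 : A * Real.log s ≤ j s := by
    have h1 := Nat.le_ceil (A * Real.log s)
    simp only [hj]
    push_cast
    linarith
  have hj0 : (1 : ℝ) ≤ j s := by
    simp only [hj]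
    push_cast
    have : (0 : ℝ) ≤ (⌈A * Real.log s⌉₊ : ℝ) := Nat.cast_nonneg _
    linarith
  -- the power of `ρ`
  have hρj : ρ ^ (j s) ≤ (s : ℝ) ^ (-(3 + α)) := by
    have h1 : ρ ^ (j s) = Real.exp (-(b * j s)) := by
      rw [← Real.exp_log (pow_pos hρ0 (j s)), Real.log_pow]
      congr 1
      rw [hb]
      ring
    have h2 : (s : ℝ) ^ (-(3 + α)) = Real.exp (-((3 + α) * Real.log s)) := by
      rw [Real.rpow_def_of_pos hs]
      congr 1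
      ring
    rw [h1, h2]
    apply Real.exp_le_exp.2
    have h3 : b * (A * Real.log s) = (3 + α) * Real.log s := by
      rw [hA]
      field_simp
    have h4 : b * (A * Real.log s) ≤ b * j s := mul_le_mul_of_nonneg_left hj2 hb0.le
    linarith
  -- size of `j (s + 1)`
  have hus : ((j s * (s + 1) : ℕ) : ℝ) ≤ (s : ℝ) ^ (1 + δ) := by
    push_cast
    have h1 : (j s : ℝ) * ((s : ℝ) + 1) ≤ (A * Real.log s + 2) * (2 * s) := by
      apply mul_le_mul hj1 (by linarith) (by linarith)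
      have := mul_nonneg hA0.le hlog
      linarith
    have h2 : (A * Real.log s + 2) * (2 * s) ≤ (s : ℝ) ^ δ * s := by
      have := mul_le_mul_of_nonneg_right e2 hs.le
      linarith
    calc (j s : ℝ) * ((s : ℝ) + 1) ≤ (s : ℝ) ^ δ * s := h1.trans h2
      _ = (s : ℝ) ^ (1 + δ) := by
        rw [add_comm, Real.rpow_add hs, Real.rpow_one]
  have hupos : (0 : ℝ) < ((j s * (s + 1) : ℕ) : ℝ) := by
    push_cast
    positivity
  have h6 : (s : ℝ) ^ (-(1 + α + e / 2)) ≤ ((j s * (s + 1) : ℕ) : ℝ) ^ (-(1 + α + δ)) := by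
    calc (s : ℝ) ^ (-(1 + α + e / 2)) ≤ (s : ℝ) ^ ((1 + δ) * (-(1 + α + δ))) := by
          apply Real.rpow_le_rpow_of_exponent_le hs1
          have hδ1 : δ * (3 + α) = e / 2 := by
            rw [hδ]
            field_simp
          have hδ2 : δ ≤ 1 := by nlinarith
          nlinarith
      _ = ((s : ℝ) ^ (1 + δ)) ^ (-(1 + α + δ)) := Real.rpow_mul hs.le _ _
      _ ≤ _ := Real.rpow_le_rpow_of_nonpos hupos hus (by linarith)
  have h7 := h s (j s)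
  have h8 : c * ρ ^ (j s) ≤ c * (s : ℝ) ^ (-(3 + α)) := mul_le_mul_of_nonneg_left hρj hc
  have h9 : c * (s : ℝ) ^ (-(3 + α)) ≤ 1 / 2 * (s : ℝ) ^ (-(1 + α + e / 2)) := by
    have h10 : (s : ℝ) ^ (-(3 + α)) * (s : ℝ) ^ (1 : ℝ) ≤ (s : ℝ) ^ (-(1 + α + e / 2)) := by
      rw [← Real.rpow_add hs]
      apply Real.rpow_le_rpow_of_exponent_le hs1
      linarith
    have h11 : 0 < (s : ℝ) ^ (-(3 + α)) := Real.rpow_pos_of_pos hs _
    have h12 := mul_le_mul_of_nonneg_left e3 h11.le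
    linarith
  have h13 : K * (s : ℝ) ^ (-(1 + α + e)) ≤ 1 / 2 * (s : ℝ) ^ (-(1 + α + e / 2)) := by
    have h14 : (s : ℝ) ^ (-(1 + α + e)) * (s : ℝ) ^ (e / 2) = (s : ℝ) ^ (-(1 + α + e / 2)) := by
      rw [← Real.rpow_add hs]
      congr 1
      ring
    have h15 : 0 < (s : ℝ) ^ (-(1 + α + e)) := Real.rpow_pos_of_pos hs _
    have h16 := mul_le_mul_of_nonneg_left e4 h15.le
    linarith
  have h17 : K * (s : ℝ) ^ (-(1 + α + e)) ≤ K * Y s := by linarith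
  have h18 : (s : ℝ) ^ (-(1 + α + e)) ≤ Y s := le_of_mul_le_mul_left h17 hK
  refine le_trans ?_ h18
  apply Real.rpow_le_rpow_of_exponent_le hs1
  linarith

theorem FinA.lba_pair {α : ℝ} (hα : 0 ≤ α) (D E : Chain) (h : LBa α (fun k => HZ.A24.fp D k + HZ.A24.fp E k)) :
    LBa α (fun k => HZ.A24.fp (HZ.ctr D 1) k + HZ.A24.fp (HZ.ctr E 1) k) := by
  set ρ : ℝ := max (HZ.A24.q1 D) (HZ.A24.q1 E) with hρ
  have hρ0 : 0 < ρ := lt_max_of_lt_left (HZ.A24.q1_pos D)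
  have hρ1 : ρ < 1 := max_lt (HZ.A24.q1_lt D) (HZ.A24.q1_lt E)
  have key : ∀ F : Chain, HZ.A24.q1 F ≤ ρ → ∀ s j : ℕ,
      HZ.A24.fp F (j * (s + 1)) ≤ 1 / (1 - ρ) * HZ.A24.fp (HZ.ctr F 1) s + ρ ^ j := by
    intro F hFρ s j
    refine (HZ.A24.fp_iter F s j).trans ?_
    apply add_le_add
    · apply mul_le_mul_of_nonneg_right _ (HZ.A24.fp_nonneg _ _)
      exact one_div_le_one_div_of_le (by linarith) (by linarith)
    · exact pow_le_pow_left₀ (HZ.A24.q1_pos F).le hFρ j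
  have hK : 0 < 1 / (1 - ρ) := by
    have : 0 < 1 - ρ := by linarith
    positivity
  refine lba_transfer hα h hK hρ0 hρ1 (c := 2) (by norm_num) fun s j => ?_
  have h1 := key D (le_max_left _ _) s j
  have h2 := key E (le_max_right _ _) s j
  linarith

/-- copy of `HZ.A24.LB_pair` and `HZ.A24.LB_ctr` -/
theorem lba_ctr {α : ℝ} (hα : 0 ≤ α) (D E : Chain) (h : LBa α (fun k => HZ.A24.fp D k + HZ.A24.fp E k)) (r : ℕ) :
    LBa α (fun k => HZ.A24.fp (HZ.ctr D r) k + HZ.A24.fp (HZ.ctr E r) k) := by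
  induction r with
  | zero =>
    rw [Nat.cast_zero, HZ.A24.ctr_zero, HZ.A24.ctr_zero]
    exact h
  | succ r ih =>
    have h1 := FinA.lba_pair hα _ _ ih
    rw [HZ.A24.ctr_ctr, HZ.A24.ctr_ctr] at h1
    rw [Nat.cast_succ]
    exact h1

/-- copy of `HZ.A24.LB_of_two` -/
theorem lba_of_two {α : ℝ} (hα : 0 ≤ α) {a : ℕ → ℝ} (h : ∀ ε : ℝ, 0 < ε → ∀ᶠ n : ℕ in atTop,
    ((2 * n : ℕ) : ℝ) ^ (-(1 + α + ε)) ≤ a n) : LBa α a := by
  intro ε hε
  filter_upwards [h (ε / 2) (by linarith),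
    HZ.A24.rpow_large (half_pos hε) ((2 : ℝ) ^ (1 + α + ε / 2)),
    eventually_ge_atTop 1] with n h1 h2 h3
  refine le_trans ?_ h1
  have hn : (0 : ℝ) < n := by exact_mod_cast h3
  push_cast
  rw [Real.mul_rpow (by norm_num) hn.le, Real.rpow_neg (by norm_num : (0 : ℝ) ≤ 2)]
  have h9 : (n : ℝ) ^ (-(1 + α + ε)) * (n : ℝ) ^ (ε / 2) = (n : ℝ) ^ (-(1 + α + ε / 2)) := by
    rw [← Real.rpow_add hn]
    congr 1
    ring
  rw [← h9]
  have h10 : 0 < (2 : ℝ) ^ (1 + α + ε / 2) := Real.rpow_pos_of_pos (by norm_num) _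
  have h11 : 0 < (n : ℝ) ^ (-(1 + α + ε)) := Real.rpow_pos_of_pos hn _
  rw [← div_eq_inv_mul, le_div_iff₀ h10]
  exact mul_le_mul_of_nonneg_left h2 h11.le

/-- copy of `HZ.A24.two_of_LB` -/
theorem two_of_lba {α : ℝ} (hα : 0 ≤ α) {a : ℕ → ℝ} (h : LBa α a) {ε : ℝ} (hε : 0 < ε) :
    ∀ᶠ n : ℕ in atTop, ((2 * n : ℕ) : ℝ) ^ (-(1 + α + ε)) ≤ a n := by
  filter_upwards [h ε hε, eventually_ge_atTop 1] with n h1 h3
  refine le_trans ?_ h1
  have hn : (0 : ℝ) < n := by exact_mod_cast h3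
  apply Real.rpow_le_rpow_of_nonpos hn _ (by linarith)
  push_cast
  linarith

end

end Pool.Agent.HG
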