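import Pool.Agent.Lib.MP_daa227_pr_HG.Defs
import Pool.Agent.Lib.MP_daa227_pr.HcB

/-!
# MP_daa227_pr, general potentials: strict gain of the disorder for one excursion length
-/

namespace Pool.Agent.HG

open MeasureTheory ProbabilityTheory Finset Filter Topology
open MP_daa227_pr (Chain Zk Zf Gk Gf KU K0 Ren shift seqLaw ExpMom DepOn Good GoodW mom)
open Pool.Agent.HZ (Mod Kv lmg)
open Pool.Agent.IOrd (Sys aS cv)

noncomputable section

namespace Gain

open MP_daa227_pr (Wu)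

theorem Gk_W (M : Mod) (B : Finset ℤ) (n : ℕ) (ω : ℕ → ℝ) (x y : ℤ) :
    Gk M.C (M.W 0) B n ω x y = Gk M.C (Wu M.φ) B n (fun k => M.β * ω k) x y := by
  have h1 := MP_daa227_pr.HcB.Gk_Wu M.C M.φ M.β 0 B n ω x y
  simp only [sub_zero] at h1
  rw [← h1]
  congr 1
  funext a z
  simp [Mod.W]

end Gain

open MP_daa227_pr (KU_jensen AU_eq_occ KU_eq_Gk occ good_Gk expSum_Gk K0_even_pos Wu
  linForm_moments)

/-- Copy of `MP_daa227_pr.exc_mean` (Lib/MP_daa227_pr/HcB.lean) for `Mod`. -/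
theorem exc_mean (M : Mod) {L : ℕ} (hL : 1 ≤ L) (hK : 0 < K0 M.C L 0) :
    (∀ ω, 0 < Gk M.C (M.W 0) {0} L ω 0 0) ∧
      Real.log (K0 M.C L 0) ≤ ∫ ω, Real.log (Gk M.C (M.W 0) {0} L ω 0 0) ∂seqLaw M.μ := by
  have h1 : ∀ ω : ℕ → ℝ, K0 M.C L 0 * Real.exp (∑ i ∈ Finset.range L,
      (M.β / K0 M.C L 0 * occ M.C M.φ L i 0) * ω i) ≤ Gk M.C (M.W 0) {0} L ω 0 0 := by
    intro ω
    have h2 := KU_jensen M.C L (fun i z => (M.β * ω i) * M.φ z) 0 hK
    rw [AU_eq_occ M.C M.φ L (fun i => M.β * ω i) 0] at h2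
    have h3 := KU_eq_Gk M.C M.φ M.β 0 L ω 0
    simp only [sub_zero] at h3
    rw [← h3] at h2
    have h4 : (fun a z => Real.exp (M.β * a * M.φ z)) = M.W 0 := by
      funext a z
      simp [Mod.W]
    rw [h4] at h2
    refine le_trans (le_of_eq ?_) h2
    congr 2
    rw [Finset.sum_div]
    refine Finset.sum_congr rfl fun i _ => ?_
    ring
  have hpos : ∀ ω, 0 < Gk M.C (M.W 0) {0} L ω 0 0 := fun ω =>
    lt_of_lt_of_le (by positivity) (h1 ω)
  refine ⟨hpos, ?_⟩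
  obtain ⟨hi, h0⟩ := MP_daa227_pr.HcB.integral_linForm M.exp_mom M.mean M.var L
    (fun i => M.β / K0 M.C L 0 * occ M.C M.φ L i 0)
  have h5 : Real.log (K0 M.C L 0) = ∫ ω, (Real.log (K0 M.C L 0) + ∑ i ∈ Finset.range L,
      (M.β / K0 M.C L 0 * occ M.C M.φ L i 0) * ω i) ∂seqLaw M.μ := by
    rw [integral_add (integrable_const _) hi, h0]
    simp
  rw [h5]
  have hint := (good_Gk M.C M.κ_pos.le (M.goodW 0) {0} L 0 0).integrable_log M.exp_mom hpos
  refine integral_mono ((integrable_const _).add hi) hint fun ω => ?_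
  have h6 := Real.log_le_log (by positivity) (h1 ω)
  rw [Real.log_mul hK.ne' (Real.exp_pos _).ne', Real.log_exp] at h6
  exact h6

/-- Copy of `MP_daa227_pr.exc_gain` with `x₀ = 2` (paths `0 1 2 3 2 1 0` and `0 1 2 1 2 1 0`);
there the positivity of the potential is only used to find `x₀`. -/
theorem exc_gain (M : Mod) (hφ : M.φ 3 ≠ M.φ 1) : 0 < K0 M.C 6 0 ∧
    Real.log (K0 M.C 6 0) < ∫ ω, Real.log (Gk M.C (M.W 0) {0} 6 ω 0 0) ∂seqLaw M.μ := by
  obtain ⟨x₀, hx₂, hφne⟩ : ∃ x₀ : ℕ, x₀ = 2 ∧ M.φ ((x₀ : ℤ) + 1) ≠ M.φ ((x₀ : ℤ) - 1) := by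
    refine ⟨2, rfl, ?_⟩
    norm_num
    exact hφ
  have hx₀ : 2 ≤ x₀ := hx₂.ge
  have h6 : 6 = 2 * (x₀ + 1) := by omega
  rw [h6]
  refine ⟨K0_even_pos M.C (x₀ + 1) (by omega), ?_⟩
  have hKpos := K0_even_pos M.C (x₀ + 1) (by omega)
  obtain ⟨hpos, hle⟩ := exc_mean M (L := 2 * (x₀ + 1)) (by omega) hKpos
  rcases lt_or_eq_of_le hle with hlt | heq
  · exact hlt
  exfalso
  -- the representation as a sum of exponentials
  obtain ⟨m, a, ψ, ha, hψ, hF⟩ := expSum_Gk M.C (φ := M.φ) (Φ := M.Φ)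
    (fun x => ⟨M.φ_nonneg x, M.φ_le x⟩) {0} (2 * (x₀ + 1)) 0 0
  replace hF : ∀ u, Gk M.C (Wu M.φ) {0} (2 * (x₀ + 1)) u 0 0 =
    ∑ i, a i * Real.exp (∑ k ∈ Finset.range (2 * (x₀ + 1)), u k * ψ i k) := hF
  have hK : K0 M.C (2 * (x₀ + 1)) 0 = ∑ i, a i := by
    have h1 := hF (fun _ => 0)
    rw [MP_daa227_pr.HcB.Gk_zero_field] at h1
    rw [h1]
    simp
  set L := 2 * (x₀ + 1) with hL
  set K := K0 M.C L 0 with hKdef
  have hKs : 0 < ∑ i, a i := hK ▸ hKpos
  -- the defect in Jensen's inequality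
  set l : Fin m → (ℕ → ℝ) → ℝ := fun i ω => ∑ k ∈ Finset.range L, (M.β * ψ i k) * ω k with hl
  have hG : ∀ ω, Gk M.C (M.W 0) {0} L ω 0 0 = ∑ i, a i * Real.exp (l i ω) := by
    intro ω
    rw [Gain.Gk_W, hF]
    refine Finset.sum_congr rfl fun i _ => ?_
    congr 2
    refine Finset.sum_congr rfl fun k _ => ?_
    ring
  set D : (ℕ → ℝ) → ℝ := fun ω => Real.log (∑ i, a i * Real.exp (l i ω)) - Real.log (∑ i, a i) -
      (∑ i, a i * l i ω) / ∑ i, a i with hD
  have hD0 : ∀ ω, 0 ≤ D ω := fun ω =>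
    (MP_daa227_pr.HcB.jensen_eq Finset.univ a (fun i => l i ω) (fun i _ => ha i) hKs).1
  have hli : ∀ i, Integrable (fun ω => l i ω) (seqLaw M.μ) ∧ ∫ ω, l i ω ∂seqLaw M.μ = 0 := fun i =>
    MP_daa227_pr.HcB.integral_linForm M.exp_mom M.mean M.var L (fun k => M.β * ψ i k)
  have hint : Integrable (fun ω => Real.log (Gk M.C (M.W 0) {0} L ω 0 0)) (seqLaw M.μ) :=
    (good_Gk M.C M.κ_pos.le (M.goodW 0) {0} L 0 0).integrable_log M.exp_mom hpos
  have hint2 : Integrable (fun ω => Real.log (∑ i, a i * Real.exp (l i ω))) (seqLaw M.μ) := by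
    refine hint.congr (ae_of_all _ fun ω => ?_)
    simp only [hG ω]
  have hsum : Integrable (fun ω => (∑ i, a i * l i ω) / ∑ i, a i) (seqLaw M.μ) ∧
      ∫ ω, (∑ i, a i * l i ω) / ∑ i, a i ∂seqLaw M.μ = 0 := by
    have h1 : Integrable (fun ω => ∑ i, a i * l i ω) (seqLaw M.μ) :=
      integrable_finsetSum _ fun i _ => (hli i).1.const_mul _
    refine ⟨h1.div_const _, ?_⟩
    rw [integral_div, integral_finsetSum _ fun i _ => (hli i).1.const_mul _]
    simp [integral_const_mul, (hli _).2]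
  have hDint : Integrable D (seqLaw M.μ) := (hint2.sub (integrable_const _)).sub hsum.1
  have hDz : ∫ ω, D ω ∂seqLaw M.μ = 0 := by
    have h1 : ∫ ω, D ω ∂seqLaw M.μ = ∫ ω, (Real.log (∑ i, a i * Real.exp (l i ω)) -
        Real.log (∑ i, a i)) ∂seqLaw M.μ - ∫ ω, (∑ i, a i * l i ω) / ∑ i, a i ∂seqLaw M.μ :=
      integral_sub (hint2.sub (integrable_const _)) hsum.1
    rw [h1, hsum.2, integral_sub hint2 (integrable_const _)]
    have h2 : ∫ ω, Real.log (∑ i, a i * Real.exp (l i ω)) ∂seqLaw M.μ = Real.log K := by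
      rw [heq]
      refine integral_congr_ae (ae_of_all _ fun ω => ?_)
      simp only [hG ω]
    rw [h2, ← hK]
    simp
  have hae : D =ᵐ[seqLaw M.μ] 0 := (integral_eq_zero_iff_of_nonneg hD0 hDint).1 hDz
  have hψeq : ∀ i j, 0 < a i → 0 < a j → ∀ k < L, ψ i k = ψ j k := by
    intro i j hi hj k hk
    have h1 : ∀ᵐ ω ∂seqLaw M.μ, (∑ k ∈ Finset.range L, (M.β * (ψ i k - ψ j k)) * ω k) ^ 2 = 0 := by
      filter_upwards [hae] with ω hω
      have h2 := (MP_daa227_pr.HcB.jensen_eq Finset.univ a (fun i => l i ω)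
        (fun i _ => ha i) hKs).2 hω i
        (Finset.mem_univ i) j (Finset.mem_univ j) hi hj
      have h3 : ∑ k ∈ Finset.range L, (M.β * (ψ i k - ψ j k)) * ω k = l i ω - l j ω := by
        rw [hl, ← Finset.sum_sub_distrib]
        refine Finset.sum_congr rfl fun k _ => ?_
        ring
      rw [h3, h2]
      simp
    have h4 := (linForm_moments M.exp_mom M.mean M.var L (fun k => M.β * (ψ i k - ψ j k))).2.1
    rw [integral_congr_ae h1] at h4
    simp only [integral_zero] at h4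
    have h5 := (Finset.sum_eq_zero_iff_of_nonneg (fun k _ => sq_nonneg _)).1 h4.symm k
      (Finset.mem_range.2 hk)
    have h6 := pow_eq_zero_iff (two_ne_zero) |>.1 h5
    rcases mul_eq_zero.1 h6 with h7 | h7
    · exact absurd h7 M.β_pos.ne'
    · linarith
  -- hence the kernel is log-linear
  obtain ⟨i₀, _, hi₀⟩ : ∃ i ∈ Finset.univ, 0 < a i := by
    by_contra hcon
    push Not at hcon
    exact absurd (Finset.sum_nonpos hcon) (not_le.2 hKs)
  have hlin : ∀ u : ℕ → ℝ, Gk M.C (Wu M.φ) {0} L u 0 0 =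
      K * Real.exp (∑ k ∈ Finset.range L, u k * ψ i₀ k) := by
    intro u
    rw [hF u, hK, Finset.sum_mul]
    refine Finset.sum_congr rfl fun i _ => ?_
    rcases eq_or_lt_of_le (ha i) with h1 | h1
    · rw [← h1, zero_mul, zero_mul]
    · congr 2
      refine Finset.sum_congr rfl fun k hk => ?_
      rw [hψeq i i₀ h1 hi₀ k (Finset.mem_range.1 hk)]
  have hLx : x₀ < L := by omega
  have hsingle : ∀ (f : ℕ → ℝ) (s : ℝ), ∑ k ∈ Finset.range L, (if k = x₀ then s else 0) * f k =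
      s * f x₀ := by
    intro f s
    rw [Finset.sum_eq_single x₀]
    · rw [if_pos rfl]
    · intro k _ hk
      rw [if_neg hk, zero_mul]
    · intro h
      exact absurd (Finset.mem_range.2 hLx) h
  -- the two paths
  have hA := MP_daa227_pr.HcB.Gk_path M.C M.φ (2 * x₀ + 1)
    (fun k => if k ≤ x₀ + 1 then (k : ℤ) else 2 * x₀ + 2 - k)
    (fun k hk => by
      split_ifs <;> push_cast <;> omega) (fun k hk0 hk => by
      split_ifs <;> omega) (by
      rw [if_neg (by omega)]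
      push_cast
      ring)
  have hB := MP_daa227_pr.HcB.Gk_path M.C M.φ (2 * x₀ + 1)
    (fun k => if k = x₀ + 1 then (x₀ : ℤ) - 1 else
      if k ≤ x₀ + 1 then (k : ℤ) else 2 * x₀ + 2 - k)
    (fun k hk => by
      split_ifs <;> push_cast <;> omega) (fun k hk0 hk => by
      split_ifs <;> omega) (by
      rw [if_neg (by omega), if_neg (by omega)]
      push_cast
      ring)
  obtain ⟨qA, hqA, hA⟩ := hA
  obtain ⟨qB, hqB, hB⟩ := hB
  have eA : M.φ ((x₀ : ℤ) + 1) = ψ i₀ x₀ := by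
    refine MP_daa227_pr.HcB.rate_eq (K := K) hqA fun s => ?_
    have h1 := hA (fun k => if k = x₀ then s else 0)
    have h2 := hlin (fun k => if k = x₀ then s else 0)
    have h3 : 2 * x₀ + 1 + 1 = L := by omega
    rw [h3] at h1
    simp only [Nat.zero_le, if_true, Nat.cast_zero] at h1
    rw [hsingle] at h1 h2
    rw [h2] at h1
    simpa using h1
  have eB : M.φ ((x₀ : ℤ) - 1) = ψ i₀ x₀ := by
    refine MP_daa227_pr.HcB.rate_eq (K := K) hqB fun s => ?_
    have h1 := hB (fun k => if k = x₀ then s else 0)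
    have h2 := hlin (fun k => if k = x₀ then s else 0)
    have h3 : 2 * x₀ + 1 + 1 = L := by omega
    rw [h3] at h1
    have h4 : ¬ (0 = x₀ + 1) := by omega
    simp only [h4, if_false, Nat.zero_le, if_true, Nat.cast_zero] at h1
    rw [hsingle] at h1 h2
    rw [h2] at h1
    simpa using h1
  exact hφne (eA.trans eB.symm)

end

end Pool.Agent.HG
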