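import Pool.Agent.Lib.MP_daa227_pr_HG.XScale

/-!
# MP_daa227_pr: the critical point is a convex function of the inverse temperature
-/

namespace Pool.Agent.HG

open MeasureTheory ProbabilityTheory Finset Filter Topology
open MP_daa227_pr (Chain Zk Zf Gk Gf KU K0 Ren shift seqLaw ExpMom DepOn Good GoodW mom)
open Pool.Agent.HZ (Mod Kv lmg)
open Pool.Agent.IOrd (Sys aS cv)

noncomputable section

namespace HCvx

/-- Hölder's inequality for a weighted sum -/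
theorem holder {s : Finset ℤ} {w a b : ℤ → ℝ} (hw : ∀ z, 0 ≤ w z) (ha : ∀ z, 0 ≤ a z)
    (hb : ∀ z, 0 ≤ b z) {t : ℝ} (ht : 0 < t) (ht1 : t < 1) :
    ∑ z ∈ s, w z * (a z ^ (1 - t) * b z ^ t) ≤
      (∑ z ∈ s, w z * a z) ^ (1 - t) * (∑ z ∈ s, w z * b z) ^ t := by
  have h1t : 0 < 1 - t := by linarith
  have hpq : (1 / (1 - t)).HolderConjugate (1 / t) := by
    rw [Real.holderConjugate_iff]
    refine ⟨by rw [lt_div_iff₀ h1t]; linarith, ?_⟩
    rw [one_div, one_div, inv_inv, inv_inv]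
    ring
  have h := Real.inner_le_Lp_mul_Lq_of_nonneg s hpq (f := fun z => (w z * a z) ^ (1 - t))
    (g := fun z => (w z * b z) ^ t)
    (fun z _ => Real.rpow_nonneg (mul_nonneg (hw z) (ha z)) _)
    (fun z _ => Real.rpow_nonneg (mul_nonneg (hw z) (hb z)) _)
  have e1 : ∀ z, (w z * a z) ^ (1 - t) * (w z * b z) ^ t = w z * (a z ^ (1 - t) * b z ^ t) := by
    intro z
    rw [Real.mul_rpow (hw z) (ha z), Real.mul_rpow (hw z) (hb z)]
    rcases (hw z).eq_or_lt with h0 | h0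
    · rw [← h0, Real.zero_rpow h1t.ne']
      ring
    · have h2 : w z ^ (1 - t) * w z ^ t = w z := by
        rw [← Real.rpow_add h0, sub_add_cancel, Real.rpow_one]
      calc w z ^ (1 - t) * a z ^ (1 - t) * (w z ^ t * b z ^ t) =
          (w z ^ (1 - t) * w z ^ t) * (a z ^ (1 - t) * b z ^ t) := by ring
        _ = _ := by rw [h2]
  have e2 : ∀ z, ((w z * a z) ^ (1 - t)) ^ (1 / (1 - t)) = w z * a z := fun z => by
    rw [← Real.rpow_mul (mul_nonneg (hw z) (ha z)), mul_one_div_cancel h1t.ne', Real.rpow_one]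
  have e3 : ∀ z, ((w z * b z) ^ t) ^ (1 / t) = w z * b z := fun z => by
    rw [← Real.rpow_mul (mul_nonneg (hw z) (hb z)), mul_one_div_cancel ht.ne', Real.rpow_one]
  simp only [e1, e2, e3] at h
  rw [one_div_one_div, one_div_one_div] at h
  exact h

/-- `Z_{(1-t) θ₁ + t θ₂} ≤ Z_{θ₁}^(1-t) Z_{θ₂}^t` -/
theorem zf_holder (C : Chain) {W W₁ W₂ : ℝ → ℤ → ℝ} (hW₁ : ∀ a z, 0 < W₁ a z)
    (hW₂ : ∀ a z, 0 < W₂ a z) {t : ℝ} (ht : 0 < t) (ht1 : t < 1)
    (hW : ∀ a z, W a z = W₁ a z ^ (1 - t) * W₂ a z ^ t) : ∀ (n : ℕ) (ω : ℕ → ℝ) (x : ℤ),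
    Zf C W n ω x ≤ Zf C W₁ n ω x ^ (1 - t) * Zf C W₂ n ω x ^ t
  | 0, ω, x => by simp only [Zf, Real.one_rpow, mul_one]; exact le_rfl
  | n + 1, ω, x => by
    have hp1 := fun ω z => MP_daa227_pr.Zf_pos C hW₁ n ω z
    have hp2 := fun ω z => MP_daa227_pr.Zf_pos C hW₂ n ω z
    have hW0 : ∀ a z, 0 ≤ W a z := fun a z => by
      rw [hW]
      exact mul_nonneg (Real.rpow_nonneg (hW₁ a z).le _) (Real.rpow_nonneg (hW₂ a z).le _)
    simp only [Zf, mul_assoc]
    refine le_trans (Finset.sum_le_sum fun z _ => mul_le_mul_of_nonneg_left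
      (mul_le_mul_of_nonneg_left (zf_holder C hW₁ hW₂ ht ht1 hW n _ z) (hW0 _ z))
      (C.nonneg x z)) ?_
    refine le_trans (le_of_eq (Finset.sum_congr rfl fun z _ => ?_))
      (holder (s := Finset.Icc (x - 1) (x + 1)) (w := fun z => C.p x z)
        (a := fun z => W₁ (ω 0) z * Zf C W₁ n (shift 1 ω) z)
        (b := fun z => W₂ (ω 0) z * Zf C W₂ n (shift 1 ω) z) (fun z => C.nonneg x z)
        (fun z => (mul_pos (hW₁ _ _) (hp1 _ _)).le) (fun z => (mul_pos (hW₂ _ _) (hp2 _ _)).le)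
        ht ht1)
    rw [hW, Real.mul_rpow (hW₁ _ _).le (hp1 _ _).le, Real.mul_rpow (hW₂ _ _).le (hp2 _ _).le]
    ring

end HCvx

/-- the free energy is jointly convex in the inverse temperature and `h` -/
theorem fr_convex (M : Mod) {b₁ b₂ t : ℝ} (hb₁ : 0 < b₁) (hb₂ : 0 < b₂) (ht : 0 < t) (ht1 : t < 1)
    (hb : 0 < (1 - t) * b₁ + t * b₂) (h₁ h₂ : ℝ) :
    (withB M ((1 - t) * b₁ + t * b₂) hb).Fr ((1 - t) * h₁ + t * h₂) ≤
      (1 - t) * (withB M b₁ hb₁).Fr h₁ + t * (withB M b₂ hb₂).Fr h₂ := by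
  set N := withB M ((1 - t) * b₁ + t * b₂) hb with hN
  have hpos : ∀ (M' : Mod) h n ω, 0 < M'.Zl h n ω := fun M' h n ω =>
    MP_daa227_pr.Zf_pos M'.C (M'.W_pos h) n ω 0
  have hint : ∀ (M' : Mod) h n, Integrable (fun ω => Real.log (M'.Zl h n ω)) (seqLaw M'.μ) :=
    fun M' h n => ((M'.good_Zl h n).log_lip (hpos M' h n)).integrable
      ((M'.good_Zl h n).meas.log) M'.exp_mom
  have h1 : ∀ n : ℕ, N.ΨF ((1 - t) * h₁ + t * h₂) n ≤
      (1 - t) * (withB M b₁ hb₁).ΨF h₁ n + t * (withB M b₂ hb₂).ΨF h₂ n := by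
    intro n
    have h2 : ∀ ω, Real.log (N.Zl ((1 - t) * h₁ + t * h₂) n ω) ≤
        (1 - t) * Real.log ((withB M b₁ hb₁).Zl h₁ n ω) +
          t * Real.log ((withB M b₂ hb₂).Zl h₂ n ω) := by
      intro ω
      rw [← Real.log_rpow (hpos _ h₁ n ω), ← Real.log_rpow (hpos _ h₂ n ω),
        ← Real.log_mul (Real.rpow_pos_of_pos (hpos _ h₁ n ω) _).ne'
          (Real.rpow_pos_of_pos (hpos _ h₂ n ω) _).ne']
      refine Real.log_le_log (hpos _ _ n ω) ?_
      refine HCvx.zf_holder M.C ((withB M b₁ hb₁).W_pos h₁) ((withB M b₂ hb₂).W_pos h₂) ht ht1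
        (fun a z => ?_) n ω 0
      change Real.exp ((((1 - t) * b₁ + t * b₂) * a - ((1 - t) * h₁ + t * h₂)) * M.φ z) =
        Real.exp ((b₁ * a - h₁) * M.φ z) ^ (1 - t) * Real.exp ((b₂ * a - h₂) * M.φ z) ^ t
      rw [← Real.exp_mul, ← Real.exp_mul, ← Real.exp_add]
      congr 1
      ring
    have i1 : Integrable (fun ω => (1 - t) * Real.log ((withB M b₁ hb₁).Zl h₁ n ω)) (seqLaw M.μ) :=
      (hint (withB M b₁ hb₁) h₁ n).const_mul (1 - t)
    have i2 : Integrable (fun ω => t * Real.log ((withB M b₂ hb₂).Zl h₂ n ω)) (seqLaw M.μ) :=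
      (hint (withB M b₂ hb₂) h₂ n).const_mul t
    have h3 := integral_mono (μ := seqLaw M.μ) (hint N _ n) (i1.add i2) h2
    simp only [Pi.add_apply] at h3
    rw [integral_add i1 i2, integral_const_mul, integral_const_mul] at h3
    exact h3
  refine le_of_tendsto_of_tendsto' (N.mean_limit _)
    ((((withB M b₁ hb₁).mean_limit h₁).const_mul (1 - t)).add
      (((withB M b₂ hb₂).mean_limit h₂).const_mul t)) fun n => ?_
  rw [← mul_div_assoc, ← mul_div_assoc, ← add_div]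
  exact div_le_div_of_nonneg_right (h1 n) (Nat.cast_nonneg n)

/-- the critical point is convex -/
theorem hc_convex (M : Mod) {b₁ b₂ t h₁ h₂ h₃ : ℝ} (hb₁ : 0 < b₁) (hb₂ : 0 < b₂) (ht : 0 < t)
    (ht1 : t < 1) (hb : 0 < (1 - t) * b₁ + t * b₂)
    (h0 : ∀ x, 0 < (withB M b₁ hb₁).Fr x ↔ x < h₁) (h1 : ∀ x, 0 < (withB M b₂ hb₂).Fr x ↔ x < h₂)
    (h2 : ∀ x, 0 < (withB M ((1 - t) * b₁ + t * b₂) hb).Fr x ↔ x < h₃) :
    h₃ ≤ (1 - t) * h₁ + t * h₂ := by
  by_contra hcon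
  push Not at hcon
  have h3 := (h2 _).2 hcon
  have h4 := fr_convex M hb₁ hb₂ ht ht1 hb h₁ h₂
  have h5 : (withB M b₁ hb₁).Fr h₁ ≤ 0 := not_lt.1 fun h => lt_irrefl _ ((h0 _).1 h)
  have h6 : (withB M b₂ hb₂).Fr h₂ ≤ 0 := not_lt.1 fun h => lt_irrefl _ ((h1 _).1 h)
  nlinarith

/-- the critical point, as a function of the inverse temperature, is convex, continuous and strictly
increasing on `(0, ∞)` -/
theorem hc_regular (M : Mod) {hc : ℝ → ℝ} (hpos : ∀ b, 0 < b → 0 < hc b)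
    (hcrit : ∀ b (hb : 0 < b) x, 0 < (withB M b hb).Fr x ↔ x < hc b) :
    ConvexOn ℝ (Set.Ioi 0) hc ∧ ContinuousOn hc (Set.Ioi 0) ∧ StrictMonoOn hc (Set.Ioi 0) := by
  have hconv : ConvexOn ℝ (Set.Ioi (0 : ℝ)) hc := by
    refine ⟨convex_Ioi 0, fun x hx y hy a b ha hb hab => ?_⟩
    rcases ha.eq_or_lt with h0 | h0
    · subst h0
      have : b = 1 := by linarith
      subst this
      simp
    rcases hb.eq_or_lt with h1 | h1
    · subst h1
      have : a = 1 := by linarith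
      subst this
      simp
    have ha' : a = 1 - b := by linarith
    subst ha'
    simp only [smul_eq_mul]
    have hx' : 0 < x := hx
    have hy' : 0 < y := hy
    have hxy : 0 < (1 - b) * x + b * y := by positivity
    exact hc_convex M hx' hy' h1 (by linarith) hxy (hcrit x hx') (hcrit y hy') (hcrit _ hxy)
  refine ⟨hconv, hconv.continuousOn isOpen_Ioi, fun x hx y hy hxy => ?_⟩
  have hx' : 0 < x := hx
  have hy' : 0 < y := hy
  have h := hc_scale M hx' hy' hxy.le (hcrit x hx') (hcrit y hy')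
  have h1 : 1 < y / x := by rwa [one_lt_div hx']
  have h2 := hpos x hx'
  nlinarith

end

end Pool.Agent.HG
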