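import Pool.Agent.Lib.MP_daa227_pr_HG.BDs

/-!
# MP_daa227_pr, the transformed chain: excursions with nonpositive weights as excursions of a chain
-/

namespace Pool.Agent.HG

open MeasureTheory ProbabilityTheory Finset Filter Topology
open MP_daa227_pr (Chain Zk Zf Gk Gf KU K0 Ren shift seqLaw ExpMom DepOn Good GoodW mom)
open Pool.Agent.HZ (Mod Kv lmg)
open Pool.Agent.IOrd (Sys aS cv)

noncomputable section

theorem hb_pos (C : Chain) {w : ℤ → ℝ} (hw : ∀ z, w z ≤ 0) (x : ℤ) : 0 < Hb C w x := by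
  unfold Hb
  split_ifs
  · exact one_pos
  · exact hs_pos C hw x

/-- the transformed chain -/
def htr (C : Chain) {w : ℤ → ℝ} (hw : ∀ z, w z ≤ 0) : Chain where
  p x z := C.p x z * Real.exp (w z) * Hb C w z / Hs C w x
  nonneg x z := div_nonneg (mul_nonneg (mul_nonneg (C.nonneg _ _) (Real.exp_pos _).le)
    (hb_pos C hw z).le) (hs_pos C hw x).le
  near x z hz := by rw [C.near x z hz, zero_mul, zero_mul, zero_div]
  sum_one x := by
    have h1 := Lw_sum C w (Hb C w) x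
    rw [← hs_eq C hw x] at h1
    rw [← Finset.sum_div, h1]
    exact div_self (hs_pos C hw x).ne'
  up x := div_pos (mul_pos (mul_pos (C.up x) (Real.exp_pos _)) (hb_pos C hw _)) (hs_pos C hw x)
  down x := div_pos (mul_pos (mul_pos (C.down x) (Real.exp_pos _)) (hb_pos C hw _))
    (hs_pos C hw x)

theorem htr_Kv (C : Chain) {w : ℤ → ℝ} (hw : ∀ z, w z ≤ 0) (u : ℤ → ℝ) : ∀ (n : ℕ) (x : ℤ),
    Kv (htr C hw) u n x = Kv C (fun z => w z + u z) n x / Hs C w x
  | 0, x => by rw [HZ.Kv_zero, HZ.Kv_zero, zero_div]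
  | n + 1, x => by
    rw [HZ.Kv_succ, HZ.Kv_succ, add_div]
    congr 1
    · split_ifs
      · have h1 : Hb C w 0 = 1 := if_pos rfl
        change C.p x 0 * Real.exp (w 0) * Hb C w 0 / Hs C w x * Real.exp (u 0) = _
        rw [h1, Real.exp_add]
        ring
      · rw [zero_div]
    · rw [Finset.sum_div]
      refine Finset.sum_congr rfl fun z hz => ?_
      rw [Finset.mem_sdiff, Finset.mem_singleton] at hz
      have h1 : Hb C w z = Hs C w z := if_neg hz.2
      have h2 := (hs_pos C hw z).ne'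
      rw [htr_Kv C hw u n z]
      change C.p x z * Real.exp (w z) * Hb C w z / Hs C w x * Real.exp (u z) * _ = _
      rw [h1, Real.exp_add]
      field_simp

theorem htr_K0 (C : Chain) {w : ℤ → ℝ} (hw : ∀ z, w z ≤ 0) (n : ℕ) (x : ℤ) :
    K0 (htr C hw) n x = Kv C w n x / Hs C w x := by
  rw [← HZ.Kv_K0, htr_Kv]
  simp only [add_zero]

theorem htr_rec (C : Chain) {w : ℤ → ℝ} (hw : ∀ z, w z ≤ 0) :
    HasSum (fun n : ℕ => K0 (htr C hw) (n + 1) 0) 1 := by
  simp only [htr_K0]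
  have h1 := (kv_summ C hw 0).hasSum
  have h2 := (hasSum_nat_add_iff' 1).2 h1
  rw [Finset.sum_range_one, HZ.Kv_zero, sub_zero] at h2
  have h3 := h2.div_const (Hs C w 0)
  have h4 : (∑' n : ℕ, Kv C w n 0) / Hs C w 0 = 1 := div_self (hs_pos C hw 0).ne'
  rwa [h4] at h3

theorem htr_p01 (C : Chain) {w : ℤ → ℝ} (hw : ∀ z, w z ≤ 0) (n : ℕ) :
    (htr C hw).p 0 1 * K0 (htr C hw) n 1 = HZ.Ep C w 1 n / Hs C w 0 := by
  rw [htr_K0]
  have h1 : Hb C w 1 = Hs C w 1 := if_neg one_ne_zero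
  have h2 := (hs_pos C hw 1).ne'
  change C.p 0 1 * Real.exp (w 1) * Hb C w 1 / Hs C w 0 * _ = _
  unfold HZ.Ep
  rw [h1]
  field_simp

end

end Pool.Agent.HG
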