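import Pool.Agent.Lib.MP_daa227_pr_HG.Defs
import Pool.Agent.Lib.MP_daa227_pr_HZ.LowAll
import Pool.Agent.Lib.MP_daa227_pr_HZ.JenQ

/-!
# MP_daa227_pr, general potentials: polynomial cost for one penalisation implies it for all
-/

namespace Pool.Agent.HG

open MeasureTheory ProbabilityTheory Finset Filter Topology
open MP_daa227_pr (Chain Zk Zf Gk Gf KU K0 Ren shift seqLaw ExpMom DepOn Good GoodW mom)
open Pool.Agent.HZ (Mod Kv lmg)
open Pool.Agent.IOrd (Sys aS cv)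

noncomputable section

/-- a lower bound for large `n` and positivity give a lower bound for all `n ≥ 1` (smaller `c`) -/
theorem all_of_eventually {K : ℕ → ℝ} (h0 : ∀ n, 1 ≤ n → 0 < K n) {A : ℝ}
    (h : ∀ᶠ n : ℕ in atTop, ((2 * n : ℕ) : ℝ) ^ (-A) ≤ K n) :
    ∃ c A' : ℝ, 0 < c ∧ 0 ≤ A' ∧ ∀ n : ℕ, 1 ≤ n → c * (n : ℝ) ^ (-A') ≤ K n := by
  obtain ⟨N, hN⟩ := eventually_atTop.1 h
  obtain ⟨k, hk, hmin⟩ := (Finset.Icc 1 (N + 1)).exists_min_image K ⟨1, by simp⟩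
  have hk1 : 0 < K k := h0 k (Finset.mem_Icc.1 hk).1
  have h2 : (0 : ℝ) < 2 ^ (-(max A 0)) := Real.rpow_pos_of_pos two_pos _
  refine ⟨min (2 ^ (-(max A 0))) (K k), max A 0, lt_min h2 hk1, le_max_right _ _, ?_⟩
  intro n hn
  have hn0 : (0 : ℝ) < n := by exact_mod_cast hn
  have hn1 : (1 : ℝ) ≤ n := by exact_mod_cast hn
  have hp : 0 < (n : ℝ) ^ (-(max A 0)) := Real.rpow_pos_of_pos hn0 _
  rcases le_or_gt N n with hle | hlt
  · calc min (2 ^ (-(max A 0))) (K k) * (n : ℝ) ^ (-(max A 0))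
        ≤ 2 ^ (-(max A 0)) * (n : ℝ) ^ (-(max A 0)) :=
          mul_le_mul_of_nonneg_right (min_le_left _ _) hp.le
      _ = ((2 * n : ℕ) : ℝ) ^ (-(max A 0)) := by
          push_cast
          rw [Real.mul_rpow two_pos.le hn0.le]
      _ ≤ ((2 * n : ℕ) : ℝ) ^ (-A) := by
          apply Real.rpow_le_rpow_of_exponent_le
          · push_cast
            linarith
          · exact neg_le_neg (le_max_left _ _)
      _ ≤ K n := hN n hle
  · calc min (2 ^ (-(max A 0))) (K k) * (n : ℝ) ^ (-(max A 0)) ≤ K k * 1 := by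
          refine mul_le_mul (min_le_right _ _) ?_ hp.le hk1.le
          exact Real.rpow_le_one_of_one_le_of_nonpos hn1 (neg_nonpos.2 (le_max_right _ _))
      _ ≤ K n := by
          rw [mul_one]
          exact hmin n (Finset.mem_Icc.2 ⟨hn, by omega⟩)

/-- `η ≤ η₁`: `HZ.Kv_mono`. `η > η₁`: `t = η₁ / η`, `HZ.interp_K` with `v = 0` (as in
`HZ.low_of_one`, Lib/MP_daa227_pr_HZ/LowAll.lean) and `Kv 0 ≤ 1` (`HZ.Kv_le_one`):
`Kv (-η₁ φ) ≤ Kv (-η φ) ^ t`. Positivity: `HZ.Kv_even_pos`. -/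
theorem poly_one (C : Chain) {φ : ℤ → ℝ} (hφ : ∀ x, 0 ≤ φ x) {η₁ : ℝ} (hη₁ : 0 < η₁) {A : ℝ}
    (h : ∀ᶠ n : ℕ in atTop, ((2 * n : ℕ) : ℝ) ^ (-A) ≤ Kv C (fun z => -η₁ * φ z) (2 * n) 0) :
    ∀ η : ℝ, 0 < η → ∃ c A' : ℝ, 0 < c ∧ 0 ≤ A' ∧ ∀ n : ℕ, 1 ≤ n →
      c * (n : ℝ) ^ (-A') ≤ Kv C (fun z => -η * φ z) (2 * n) 0 := by
  intro η hη
  rcases le_or_gt η η₁ with hle | hgt
  · refine all_of_eventually (fun n hn => HZ.Kv_even_pos C _ hn) (A := A) ?_
    filter_upwards [h] with n hn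
    refine hn.trans (HZ.Kv_mono C (fun z => ?_) _ _)
    nlinarith [hφ z]
  · have ht : 0 < η₁ / η := div_pos hη₁ hη
    have ht1 : η₁ / η ≤ 1 := (div_le_one hη).2 hgt.le
    set t := η₁ / η with htdef
    refine all_of_eventually (fun n hn => HZ.Kv_even_pos C _ hn) (A := A / t) ?_
    filter_upwards [h, eventually_ge_atTop 1] with n hn1 hn3
    have hX : (0 : ℝ) < ((2 * n : ℕ) : ℝ) := by
      have : 0 < 2 * n := by omega
      exact_mod_cast this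
    have h3 := HZ.interp_K C (fun _ => 0) (fun z => -η * φ z) ht.le ht1 (2 * n) 0
    have h4 : (fun z => (1 - t) * (fun _ : ℤ => (0 : ℝ)) z + t * (fun z => -η * φ z) z) =
        fun z => -η₁ * φ z := by
      funext z
      simp only [mul_zero, zero_add]
      rw [htdef]
      field_simp
    rw [h4] at h3
    have h5 : Kv C (fun _ => 0) (2 * n) 0 ^ (1 - t) ≤ 1 :=
      Real.rpow_le_one (HZ.Kv_nonneg C _ _ _) (HZ.Kv_le_one C (fun _ => le_rfl) _ _)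
        (by linarith)
    have hKn : 0 ≤ Kv C (fun z => -η * φ z) (2 * n) 0 := HZ.Kv_nonneg C _ _ _
    have h6 : ((2 * n : ℕ) : ℝ) ^ (-A) ≤ Kv C (fun z => -η * φ z) (2 * n) 0 ^ t := by
      refine (hn1.trans h3).trans ?_
      calc _ ≤ 1 * Kv C (fun z => -η * φ z) (2 * n) 0 ^ t :=
            mul_le_mul_of_nonneg_right h5 (Real.rpow_nonneg hKn _)
        _ = _ := one_mul _
    have h7 : (((2 * n : ℕ) : ℝ) ^ (-(A / t))) ^ t = ((2 * n : ℕ) : ℝ) ^ (-A) := by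
      rw [← Real.rpow_mul hX.le]
      congr 1
      field_simp
    rw [← h7] at h6
    exact (Real.rpow_le_rpow_iff (Real.rpow_nonneg hX.le _) hKn ht).1 h6

end

end Pool.Agent.HG
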