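import Pool.Agent.Lib.MP_daa227_pr_HG.STail
import Pool.Agent.Lib.MP_daa227_pr_HZ.Lmg

/-!
# MP_daa227_pr, entropy of the return time
-/

namespace Pool.Agent.HG

open MeasureTheory ProbabilityTheory Finset Filter Topology
open MP_daa227_pr (Chain Zk Zf Gk Gf KU K0 Ren shift seqLaw ExpMom DepOn Good GoodW mom)
open Pool.Agent.HZ (Mod Kv lmg)
open Pool.Agent.IOrd (Sys aS cv)

noncomputable section

namespace TEnt

theorem term_nonneg (C : Chain) (m : ℕ) : 0 ≤ K0 C m 0 * Real.log (1 / K0 C m 0) := by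
  have h0 := MP_daa227_pr.K0_nonneg C m 0
  have h1 := STail.le_one C m 0
  rcases eq_or_lt_of_le h0 with h | h
  · rw [← h, zero_mul]
  · exact mul_nonneg h0 (Real.log_nonneg ((one_le_div h).2 h1))

theorem log_bd {x δ : ℝ} (hx : 0 < x) (hδ : 0 < δ) :
    x * Real.log (1 / x) ≤ x ^ (1 - δ) / δ := by
  have h1 : Real.log (1 / x) ≤ (1 / x) ^ δ / δ :=
    Real.log_le_rpow_div (by positivity) hδ
  calc x * Real.log (1 / x) ≤ x * ((1 / x) ^ δ / δ) := mul_le_mul_of_nonneg_left h1 hx.le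
    _ = x ^ (1 - δ) / δ := by
        rw [one_div, Real.inv_rpow hx.le, Real.rpow_sub hx, Real.rpow_one]
        ring

end TEnt

/-- `x log (1/x)` is nondecreasing on `[0, 1/e]`; `K0 (2n) ≤ (2n)^(-(1+α/2))` eventually, odd terms are
bounded by even ones (`STail.odd_le`); `∑ (2n)^(-(1+α/2)) log (2n) < ∞`. All terms are `≥ 0`
(`K0 ≤ 1`). -/
theorem ent_fin (C : Chain) {α : ℝ} (hα : 0 < α) (hU : KUp C α) :
    ∃ H : ℝ, 0 ≤ H ∧ ∀ N : ℕ, ∑ m ∈ range N, K0 C m 0 * Real.log (1 / K0 C m 0) ≤ H := by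
  obtain ⟨δ, hδ⟩ : ∃ δ : ℝ, δ = (α / 4) / (1 + α / 2) := ⟨_, rfl⟩
  have hp : 0 < 1 + α / 2 := by linarith
  have hδ0 : 0 < δ := by rw [hδ]; positivity
  have hδ1 : (1 + α / 2) * (1 - δ) = 1 + α / 4 := by
    rw [hδ]
    field_simp
    ring
  have hδ2 : 0 ≤ 1 - δ := by
    by_contra hcon
    push Not at hcon
    have := mul_neg_of_pos_of_neg hp hcon
    linarith
  have hs : Summable (fun m : ℕ => 2 ^ (1 + α / 4) * (m : ℝ) ^ (-(1 + α / 4)) / δ) :=
    ((Real.summable_nat_rpow.2 (by linarith)).mul_left _).div_const δ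
  obtain ⟨N₀, hN₀⟩ := eventually_atTop.1 (hU (α / 2) (by linarith))
  have hsum : Summable (fun m : ℕ => K0 C m 0 * Real.log (1 / K0 C m 0)) := by
    refine Summable.of_norm_bounded_eventually_nat hs ?_
    filter_upwards [eventually_ge_atTop (2 * N₀ + 3)] with m hm
    rw [Real.norm_of_nonneg (TEnt.term_nonneg C m)]
    have hm0 : (0 : ℝ) < m := by
      have : 0 < m := by omega
      exact_mod_cast this
    have hnn : 0 ≤ 2 ^ (1 + α / 4) * (m : ℝ) ^ (-(1 + α / 4)) / δ :=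
      div_nonneg (mul_nonneg (Real.rpow_nonneg two_pos.le _) (Real.rpow_nonneg hm0.le _)) hδ0.le
    rcases eq_or_lt_of_le (MP_daa227_pr.K0_nonneg C m 0) with h | h
    · rw [← h, zero_mul]
      exact hnn
    · have h1 : K0 C m 0 ≤ ((m : ℝ) / 2) ^ (-(1 + α / 2)) := by
        obtain ⟨k, hk1, hk2, hk3⟩ : ∃ k : ℕ, N₀ ≤ k ∧ m ≤ 4 * k ∧ K0 C m 0 ≤ K0 C (2 * k) 0 := by
          rcases Nat.even_or_odd' m with ⟨k, rfl | rfl⟩
          · exact ⟨k, by omega, by omega, le_rfl⟩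
          · obtain ⟨j, rfl⟩ : ∃ j, k = j + 1 := ⟨k - 1, by omega⟩
            exact ⟨j + 1, by omega, by omega, STail.odd_le C j⟩
        refine hk3.trans ((hN₀ k hk1).trans ?_)
        rw [show 1 + α - α / 2 = 1 + α / 2 by ring]
        refine Real.rpow_le_rpow_of_nonpos (by positivity) ?_ (by linarith)
        have : (m : ℝ) ≤ 4 * k := by exact_mod_cast hk2
        push_cast
        linarith
      refine (TEnt.log_bd h hδ0).trans ?_
      refine div_le_div_of_nonneg_right ?_ hδ0.le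
      refine (Real.rpow_le_rpow h.le h1 hδ2).trans (le_of_eq ?_)
      rw [← Real.rpow_mul (by positivity), neg_mul, hδ1, Real.div_rpow hm0.le two_pos.le,
        Real.rpow_neg two_pos.le, div_inv_eq_mul, mul_comm]
  exact ⟨_, tsum_nonneg (TEnt.term_nonneg C), fun N =>
    hsum.sum_le_tsum _ fun m _ => TEnt.term_nonneg C m⟩

/-- `y = (p-1) H`, `L_m = log (1 / K0 m)`: `K0(m)^p = K0(m) e^(-(p-1) L_m) ≥ K0(m) e^(-y) (1 + y - (p-1) L_m)`;
sum over `m < N`: at least `e^(-y) ((1 + y) S_N - y) → e^(-y)`, `S_N = ∑_{m<N} K0(m) → 1`. -/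
theorem pow_sum (C : Chain) (hrec : HasSum (fun n : ℕ => K0 C (n + 1) 0) 1) {H : ℝ}
    (hH : ∀ N : ℕ, ∑ m ∈ range N, K0 C m 0 * Real.log (1 / K0 C m 0) ≤ H) {p c : ℝ} (hp : 1 ≤ p)
    (hc : (p - 1) * H < c) : ∃ N : ℕ, 1 < ∑ m ∈ range N, K0 C m 0 ^ p * Real.exp c := by
  obtain ⟨y, hy⟩ : ∃ y : ℝ, y = (p - 1) * H := ⟨_, rfl⟩
  rw [← hy] at hc
  have hS : HasSum (fun n : ℕ => K0 C n 0) 1 := by
    have h1 := (hasSum_nat_add_iff (f := fun n : ℕ => K0 C n 0) 1).1 hrec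
    rw [Finset.sum_range_one] at h1
    simpa [K0] using h1
  have hterm : ∀ m : ℕ, Real.exp (-y) * ((1 + y) * K0 C m 0 -
      (p - 1) * (K0 C m 0 * Real.log (1 / K0 C m 0))) ≤ K0 C m 0 ^ p := by
    intro m
    rcases eq_or_lt_of_le (MP_daa227_pr.K0_nonneg C m 0) with h | h
    · rw [← h, Real.zero_rpow (by linarith)]
      simp
    · have h1 : K0 C m 0 ^ p = K0 C m 0 * (Real.exp (-y) *
          Real.exp (y - (p - 1) * Real.log (1 / K0 C m 0))) := by
        rw [← Real.exp_add]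
        conv_lhs => rw [show p = 1 + (p - 1) by ring, Real.rpow_add h, Real.rpow_one,
          Real.rpow_def_of_pos h]
        congr 2
        rw [one_div, Real.log_inv]
        ring
      rw [h1]
      have h2 := Real.add_one_le_exp (y - (p - 1) * Real.log (1 / K0 C m 0))
      have h3 := mul_le_mul_of_nonneg_left h2 (mul_pos h (Real.exp_pos (-y))).le
      calc _ = K0 C m 0 * Real.exp (-y) * (y - (p - 1) * Real.log (1 / K0 C m 0) + 1) := by ring
        _ ≤ _ := h3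
        _ = _ := by ring
  have hsum : ∀ N : ℕ, Real.exp (-y) * ((1 + y) * ∑ m ∈ range N, K0 C m 0 - y) * Real.exp c ≤
      ∑ m ∈ range N, K0 C m 0 ^ p * Real.exp c := by
    intro N
    rw [← Finset.sum_mul]
    refine mul_le_mul_of_nonneg_right ?_ (Real.exp_pos c).le
    refine le_trans ?_ (Finset.sum_le_sum fun m _ => hterm m)
    rw [← Finset.mul_sum, Finset.sum_sub_distrib, ← Finset.mul_sum, ← Finset.mul_sum]
    refine mul_le_mul_of_nonneg_left ?_ (Real.exp_pos (-y)).le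
    have h1 := mul_le_mul_of_nonneg_left (hH N) (by linarith : 0 ≤ p - 1)
    rw [← hy] at h1
    linarith
  have hlim : Tendsto (fun N : ℕ => Real.exp (-y) *
      ((1 + y) * ∑ m ∈ range N, K0 C m 0 - y) * Real.exp c) atTop
      (𝓝 (Real.exp (-y) * ((1 + y) * 1 - y) * Real.exp c)) :=
    (((hS.tendsto_sum_nat.const_mul (1 + y)).sub_const y).const_mul (Real.exp (-y))).mul_const _
  have hgt : 1 < Real.exp (-y) * ((1 + y) * 1 - y) * Real.exp c := by
    rw [show (1 + y) * 1 - y = 1 by ring, mul_one, ← Real.exp_add]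
    exact Real.one_lt_exp_iff.2 (by linarith)
  obtain ⟨N, hN⟩ := (hlim.eventually (lt_mem_nhds hgt)).exists
  exact ⟨N, lt_of_lt_of_le hN (hsum N)⟩

end

end Pool.Agent.HG
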