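import Pool.Agent.Lib.MP_daa227_pr_HG.Defs
import Pool.Agent.Lib.MP_daa227_pr_HZ.Lmg

/-!
# MP_daa227_pr, relative entropy of the tilted charges at large inverse temperature
-/

namespace Pool.Agent.HG

open MeasureTheory ProbabilityTheory Finset Filter Topology
open MP_daa227_pr (Chain Zk Zf Gk Gf KU K0 Ren shift seqLaw ExpMom DepOn Good GoodW mom)
open Pool.Agent.HZ (Mod Kv lmg)
open Pool.Agent.IOrd (Sys aS cv)

noncomputable section


/-- convexity of `lmg` (`HZ.Lmg`): the slope on `[b, p b]` is at least the slope on `[b/2, b]` -/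
theorem lmg_slope_half {μ : Measure ℝ} [IsProbabilityMeasure μ] (hμ : ExpMom μ) {b p : ℝ} (hb : 0 < b)
    (hp : 1 ≤ p) : (p - 1) * (lmg μ b - 2 * lmg μ (b / 2)) ≤ lmg μ (p * b) - p * lmg μ b := by
  have h2 : 0 < 2 * p - 1 := by linarith
  have hc := (HZ.lmg_convex hμ).2
  have h1 := @hc (b / 2) (Set.mem_univ _) (p * b) (Set.mem_univ _)
    (2 * (p - 1) / (2 * p - 1)) (1 / (2 * p - 1))
    (div_nonneg (by linarith) h2.le) (by positivity) (by field_simp; ring)
  have e1 : (2 * (p - 1) / (2 * p - 1)) • (b / 2) + (1 / (2 * p - 1)) • (p * b) = b := by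
    simp only [smul_eq_mul]
    field_simp
    ring
  rw [e1] at h1
  simp only [smul_eq_mul] at h1
  have h3 := mul_le_mul_of_nonneg_left h1 h2.le
  have e2 : (2 * p - 1) * (2 * (p - 1) / (2 * p - 1) * lmg μ (b / 2) +
      1 / (2 * p - 1) * lmg μ (p * b)) = 2 * (p - 1) * lmg μ (b / 2) + lmg μ (p * b) := by
    field_simp
  rw [e2] at h3
  nlinarith

/-- Choose `A < A'` with `μ (Ioi A) ≤ ε` and `0 < μ (Ioi A')`. Cauchy-Schwarz:
`E e^(b x/2) ≤ e^(b A/2) + (E e^(b x) μ (Ioi A))^(1/2)` and `E e^(b x) ≥ e^(b A') μ (Ioi A')`, so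
`(E e^(b x/2))² / E e^(b x) ≤ (e^(b (A - A')/2) μ(Ioi A')^(-1/2) + √ε)² → ε`. -/
theorem lmg_big {μ : Measure ℝ} [IsProbabilityMeasure μ] (hμ : ExpMom μ)
    (hat : ∀ ε : ℝ, 0 < ε → ∃ A : ℝ, 0 < μ (Set.Ioi A) ∧ μ (Set.Ioi A) ≤ ENNReal.ofReal ε) (H : ℝ) :
    ∀ᶠ b in atTop, H < lmg μ b - 2 * lmg μ (b / 2) := by
  set q := Real.exp (-H) with hq
  have hq0 : 0 < q := Real.exp_pos _
  obtain ⟨A, hA0, hAe⟩ := hat (q / 8) (by positivity)
  have hm0 : 0 < μ.real (Set.Ioi A) := ENNReal.toReal_pos hA0.ne' (measure_ne_top _ _)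
  have hme : μ.real (Set.Ioi A) ≤ q / 8 := ENNReal.toReal_le_of_le_ofReal (by positivity) hAe
  obtain ⟨A', hA'0, hA'e⟩ := hat (μ.real (Set.Ioi A) / 2) (by positivity)
  have hm'0 : 0 < μ.real (Set.Ioi A') := ENNReal.toReal_pos hA'0.ne' (measure_ne_top _ _)
  have hm'e : μ.real (Set.Ioi A') ≤ μ.real (Set.Ioi A) / 2 :=
    ENNReal.toReal_le_of_le_ofReal (by positivity) hA'e
  have hδ : 0 < A' - A := by
    by_contra hcon
    have h1 : Set.Ioi A ⊆ Set.Ioi A' := Set.Ioi_subset_Ioi (by linarith)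
    have h2 : μ.real (Set.Ioi A) ≤ μ.real (Set.Ioi A') := measureReal_mono h1
    linarith
  have ht : Tendsto (fun b : ℝ => Real.exp (-(b * (A' - A)))) atTop (𝓝 0) :=
    Real.tendsto_exp_neg_atTop_nhds_zero.comp (tendsto_id.atTop_mul_const hδ)
  have hev : ∀ᶠ b : ℝ in atTop,
      Real.exp (-(b * (A' - A))) < q / 8 * μ.real (Set.Ioi A') :=
    ht.eventually (gt_mem_nhds (by positivity))
  filter_upwards [hev, eventually_gt_atTop 0] with b hb1 hb0
  have hSi : Integrable (fun x => Real.exp (b * x)) μ := hμ b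
  have hTi : Integrable (fun x => Real.exp (b / 2 * x)) μ := hμ (b / 2)
  set S := ∫ x, Real.exp (b * x) ∂μ with hS
  set T := ∫ x, Real.exp (b / 2 * x) ∂μ with hT
  have hSexp : Real.exp (lmg μ b) = S := HZ.exp_lmg hμ b
  have hTexp : Real.exp (lmg μ (b / 2)) = T := HZ.exp_lmg hμ (b / 2)
  have hS0 : 0 < S := by
    rw [← hSexp]
    exact Real.exp_pos _
  have hT0 : 0 < T := by
    rw [← hTexp]
    exact Real.exp_pos _
  have hlow : Real.exp (b * A') * μ.real (Set.Ioi A') ≤ S := by
    have h1 : ∫ x, (Set.Ioi A').indicator (fun _ => Real.exp (b * A')) x ∂μ =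
        μ.real (Set.Ioi A') • Real.exp (b * A') := integral_indicator_const _ measurableSet_Ioi
    have h2 : ∫ x, (Set.Ioi A').indicator (fun _ => Real.exp (b * A')) x ∂μ ≤ S := by
      refine integral_mono ((integrable_const _).indicator measurableSet_Ioi) hSi ?_
      intro x
      by_cases hx : x ∈ Set.Ioi A'
      · rw [Set.indicator_of_mem hx]
        exact Real.exp_le_exp.2 (mul_le_mul_of_nonneg_left (le_of_lt hx) hb0.le)
      · rw [Set.indicator_of_notMem hx]
        exact (Real.exp_pos _).le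
    rw [h1, smul_eq_mul] at h2
    linarith
  have hup : T ≤ Real.exp (b * A / 2) + Real.sqrt (S * μ.real (Set.Ioi A)) := by
    set m := μ.real (Set.Ioi A) with hm
    set r := Real.sqrt (S / m) with hr
    have hr0 : 0 < r := Real.sqrt_pos.2 (div_pos hS0 hm0)
    have hr2 : r ^ 2 = S / m := Real.sq_sqrt (div_pos hS0 hm0).le
    have hpt : ∀ x, Real.exp (b / 2 * x) ≤ Real.exp (b * A / 2) +
        ((Set.Ioi A).indicator (fun _ => r / 2) x + 1 / (2 * r) * Real.exp (b * x)) := by
      intro x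
      have hsq : Real.exp (b / 2 * x) ^ 2 = Real.exp (b * x) := by
        rw [← Real.exp_nat_mul]
        congr 1
        push_cast
        ring
      by_cases hx : x ∈ Set.Ioi A
      · rw [Set.indicator_of_mem hx, ← hsq]
        have h1 : 0 ≤ (Real.exp (b / 2 * x) - r) ^ 2 / (2 * r) := by positivity
        have h2 : (Real.exp (b / 2 * x) - r) ^ 2 / (2 * r) =
            r / 2 + 1 / (2 * r) * Real.exp (b / 2 * x) ^ 2 - Real.exp (b / 2 * x) := by
          field_simp
          ring
        have h3 := Real.exp_pos (b * A / 2)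
        linarith
      · rw [Set.indicator_of_notMem hx]
        have h1 : Real.exp (b / 2 * x) ≤ Real.exp (b * A / 2) := by
          refine Real.exp_le_exp.2 ?_
          have hx' : x ≤ A := not_lt.1 hx
          nlinarith
        have h2 : 0 ≤ 1 / (2 * r) * Real.exp (b * x) := by positivity
        linarith
    have hi1 : Integrable (fun x => (Set.Ioi A).indicator (fun _ => r / 2) x) μ :=
      (integrable_const _).indicator measurableSet_Ioi
    have hi2 : Integrable (fun x => 1 / (2 * r) * Real.exp (b * x)) μ := hSi.const_mul _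
    have hi12 : Integrable (fun x => (Set.Ioi A).indicator (fun _ => r / 2) x +
        1 / (2 * r) * Real.exp (b * x)) μ := hi1.add hi2
    have h4 : T ≤ ∫ x, (Real.exp (b * A / 2) +
        ((Set.Ioi A).indicator (fun _ => r / 2) x + 1 / (2 * r) * Real.exp (b * x))) ∂μ :=
      integral_mono hTi ((integrable_const _).add hi12) hpt
    rw [integral_add (integrable_const _) hi12, integral_add hi1 hi2,
      integral_const_mul, integral_indicator_const _ measurableSet_Ioi] at h4
    simp only [integral_const, probReal_univ, smul_eq_mul, one_mul] at h4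
    have h5 : m * (r / 2) + 1 / (2 * r) * S = Real.sqrt (S * m) := by
      have h6 : S = r ^ 2 * m := by
        rw [hr2]
        field_simp
      have h7 : S * m = (r * m) ^ 2 := by
        rw [h6]
        ring
      rw [h7, Real.sqrt_sq (by positivity), h6]
      field_simp
      ring
    rw [← hS, ← hm] at h4
    linarith
  have hsq2 : T ^ 2 ≤ 2 * Real.exp (b * A) + 2 * (S * μ.real (Set.Ioi A)) := by
    have h1 : Real.exp (b * A / 2) ^ 2 = Real.exp (b * A) := by
      rw [← Real.exp_nat_mul]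
      congr 1
      push_cast
      ring
    have h2 : Real.sqrt (S * μ.real (Set.Ioi A)) ^ 2 = S * μ.real (Set.Ioi A) :=
      Real.sq_sqrt (by positivity)
    have h3 : T ^ 2 ≤ (Real.exp (b * A / 2) + Real.sqrt (S * μ.real (Set.Ioi A))) ^ 2 :=
      pow_le_pow_left₀ hT0.le hup 2
    have h4 := sq_nonneg (Real.exp (b * A / 2) - Real.sqrt (S * μ.real (Set.Ioi A)))
    nlinarith
  have hexpA : Real.exp (b * A) < q / 8 * S := by
    have h1 : Real.exp (b * A) = Real.exp (-(b * (A' - A))) * Real.exp (b * A') := by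
      rw [← Real.exp_add]
      congr 1
      ring
    rw [h1]
    calc Real.exp (-(b * (A' - A))) * Real.exp (b * A')
        < q / 8 * μ.real (Set.Ioi A') * Real.exp (b * A') :=
          mul_lt_mul_of_pos_right hb1 (Real.exp_pos _)
      _ = q / 8 * (Real.exp (b * A') * μ.real (Set.Ioi A')) := by ring
      _ ≤ q / 8 * S := mul_le_mul_of_nonneg_left hlow (by positivity)
  have hSm : S * μ.real (Set.Ioi A) ≤ S * (q / 8) := mul_le_mul_of_nonneg_left hme hS0.le
  have hfin : T ^ 2 < q * S := by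
    have h1 : 0 < q * S := by positivity
    nlinarith
  have hlog : Real.exp (2 * lmg μ (b / 2)) < Real.exp (-H + lmg μ b) := by
    rw [Real.exp_add, hSexp, ← hq]
    have h1 : Real.exp (2 * lmg μ (b / 2)) = T ^ 2 := by
      rw [← hTexp, ← Real.exp_nat_mul]
      push_cast
      rfl
    rw [h1]
    exact hfin
  have := Real.exp_lt_exp.1 hlog
  linarith

end

end Pool.Agent.HG
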