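import Pool.Agent.Lib.MP_daa227_pr_HG.TCvx
import Pool.Agent.Lib.MP_daa227_pr_HG.Bridge
import Pool.Agent.Lib.MP_daa227_pr_HZ.Strat
import Pool.Agent.Lib.MP_daa227_pr_HZ.Basic

/-!
# MP_daa227_pr, pinning at one site: unbounded moments
-/

namespace Pool.Agent.HG

open MeasureTheory ProbabilityTheory Finset Filter Topology
open MP_daa227_pr (Chain Zk Zf Gk Gf KU K0 Ren shift seqLaw ExpMom DepOn Good GoodW mom)
open Pool.Agent.HZ (Mod Kv lmg)
open Pool.Agent.IOrd (Sys aS cv)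

noncomputable section


/-- the potential of the pinning model -/
def pin0 : ℤ → ℝ := fun z => if z = 0 then 1 else 0

namespace TPow

theorem pin_01 (z : ℤ) : pin0 z = 0 ∨ pin0 z = 1 := by
  unfold pin0
  split_ifs
  · exact Or.inr rfl
  · exact Or.inl rfl

/-- parity -/
theorem par (C : Chain) (hnl : ∀ x, C.p x x = 0) (W : ℝ → ℤ → ℝ) : ∀ (n : ℕ) (ω : ℕ → ℝ) (x y : ℤ),
    ¬ Even ((n : ℤ) + x - y) → Zk C W n ω x y = 0
  | 0, ω, x, y, h => by
    show (if x = y then (1 : ℝ) else 0) = 0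
    rw [if_neg]
    rintro rfl
    apply h
    simp
  | n + 1, ω, x, y, h => by
    show ∑ z ∈ Finset.Icc (x - 1) (x + 1), C.p x z * W (ω 0) z * Zk C W n (shift 1 ω) z y = 0
    refine Finset.sum_eq_zero fun z hz => ?_
    rw [Finset.mem_Icc] at hz
    by_cases hzx : z = x
    · rw [hzx, hnl, zero_mul, zero_mul]
    · rw [par C hnl W n (shift 1 ω) z y ?_, mul_zero]
      intro h1
      apply h
      rcases (by omega : z = x - 1 ∨ z = x + 1) with h2 | h2
      · subst h2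
        obtain ⟨r, hr⟩ := h1
        exact ⟨r + 1, by push_cast; omega⟩
      · subst h2
        obtain ⟨r, hr⟩ := h1
        exact ⟨r, by push_cast; omega⟩

/-- the weights -/
def W0 (μ : Measure ℝ) (b : ℝ) : ℝ → ℤ → ℝ := fun a z => Real.exp ((b * a - lmg μ b) * pin0 z)

theorem W0_zero (μ : Measure ℝ) (b a : ℝ) : W0 μ b a 0 = Real.exp (b * a - lmg μ b) := by
  unfold W0 pin0
  rw [if_pos rfl, mul_one]

theorem W0_ne (μ : Measure ℝ) (b a : ℝ) {z : ℤ} (hz : z ≠ 0) : W0 μ b a z = 1 := by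
  unfold W0 pin0
  rw [if_neg hz, mul_zero, Real.exp_zero]

theorem K0_nonneg (C : Chain) (n : ℕ) (x : ℤ) : 0 ≤ K0 C n x := by
  rw [← Pool.Agent.HZ.Kv_K0]
  exact Pool.Agent.HZ.Kv_nonneg C _ n x

theorem Gk_eq (C : Chain) (μ : Measure ℝ) (b : ℝ) : ∀ (n : ℕ) (ω : ℕ → ℝ) (x : ℤ),
    Gk C (W0 μ b) {0} (n + 1) ω x 0 = K0 C (n + 1) x * Real.exp (b * ω n - lmg μ b)
  | 0, ω, x => by
    have h1 : Gk C (W0 μ b) {0} (0 + 1) ω x 0 = C.p x 0 * W0 μ b (ω 0) 0 := by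
      show (if (0 : ℕ) = 0 then C.p x 0 * W0 μ b (ω 0) 0 else 0) +
        ∑ z ∈ Finset.Icc (x - 1) (x + 1) \ {0}, C.p x z * W0 μ b (ω 0) z *
          Gk C (W0 μ b) {0} 0 (shift 1 ω) z 0 = _
      rw [if_pos rfl, Finset.sum_eq_zero, add_zero]
      intro z _
      show C.p x z * W0 μ b (ω 0) z * 0 = 0
      rw [mul_zero]
    have h2 : K0 C (0 + 1) x = C.p x 0 := by
      show (if (0 : ℕ) = 0 then C.p x 0 else 0) +
        ∑ z ∈ Finset.Icc (x - 1) (x + 1) \ {0}, C.p x z * K0 C 0 z = _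
      rw [if_pos rfl, Finset.sum_eq_zero, add_zero]
      intro z _
      show C.p x z * 0 = 0
      rw [mul_zero]
    rw [h1, h2, W0_zero]
  | n + 1, ω, x => by
    have h1 : Gk C (W0 μ b) {0} (n + 1 + 1) ω x 0 =
        ∑ z ∈ Finset.Icc (x - 1) (x + 1) \ {0}, C.p x z * W0 μ b (ω 0) z *
          Gk C (W0 μ b) {0} (n + 1) (shift 1 ω) z 0 := by
      show (if n + 1 = 0 then C.p x 0 * W0 μ b (ω 0) 0 else 0) +
        ∑ z ∈ Finset.Icc (x - 1) (x + 1) \ {0}, C.p x z * W0 μ b (ω 0) z *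
          Gk C (W0 μ b) {0} (n + 1) (shift 1 ω) z 0 = _
      rw [if_neg (Nat.succ_ne_zero n), zero_add]
    have h2 : K0 C (n + 1 + 1) x =
        ∑ z ∈ Finset.Icc (x - 1) (x + 1) \ {0}, C.p x z * K0 C (n + 1) z := by
      show (if n + 1 = 0 then C.p x 0 else 0) +
        ∑ z ∈ Finset.Icc (x - 1) (x + 1) \ {0}, C.p x z * K0 C (n + 1) z = _
      rw [if_neg (Nat.succ_ne_zero n), zero_add]
    rw [h1, h2, Finset.sum_mul]
    refine Finset.sum_congr rfl fun z hz => ?_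
    have hz0 : z ≠ 0 := by
      rw [Finset.mem_sdiff, Finset.mem_singleton] at hz
      exact hz.2
    rw [W0_ne μ b _ hz0, Gk_eq C μ b n (shift 1 ω) z, mul_one, mul_assoc]
    rfl

theorem sum_rpow {ι : Type*} (s : Finset ι) (f : ι → ENNReal) {p : ℝ} (hp : 1 ≤ p) :
    ∑ i ∈ s, f i ^ p ≤ (∑ i ∈ s, f i) ^ p := by
  classical
  induction s using Finset.induction_on with
  | empty => simp
  | insert a s ha ih =>
    rw [Finset.sum_insert ha, Finset.sum_insert ha]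
    exact le_trans (add_le_add le_rfl ih) (ENNReal.add_rpow_le_rpow_add _ _ hp)

theorem mom_exp {μ : Measure ℝ} [IsProbabilityMeasure μ] (hμ : ExpMom μ) (b : ℝ) {p : ℝ}
    (hp : 0 ≤ p) (i : ℕ) {c : ℝ} (hc : 0 ≤ c) :
    mom μ p (fun ω => c * Real.exp (b * ω i - lmg μ b)) =
      ENNReal.ofReal (c ^ p * Real.exp (lmg μ (p * b) - p * lmg μ b)) := by
  unfold mom
  have hm : Measurable fun a : ℝ => ENNReal.ofReal (c * Real.exp (b * a - lmg μ b)) ^ p :=
    (Measurable.ennreal_ofReal (by fun_prop)).pow_const p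
  have h1 := MP_daa227_pr.lintegral_apply μ i
    (Y := fun a : ℝ => ENNReal.ofReal (c * Real.exp (b * a - lmg μ b)) ^ p) hm
  rw [h1]
  have h2 : ∀ a : ℝ, ENNReal.ofReal (c * Real.exp (b * a - lmg μ b)) ^ p =
      ENNReal.ofReal (c ^ p * Real.exp (lmg μ (p * b) - p * lmg μ b)) *
        ENNReal.ofReal (Real.exp ((p * b) * a - lmg μ (p * b))) := by
    intro a
    rw [ENNReal.ofReal_rpow_of_nonneg (by positivity) hp, ← ENNReal.ofReal_mul (by positivity)]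
    congr 1
    rw [Real.mul_rpow hc (Real.exp_pos _).le, ← Real.exp_mul, mul_assoc, ← Real.exp_add]
    congr 2
    ring
  simp_rw [h2]
  rw [lintegral_const_mul _ (by fun_prop), TCvx.lint_exp hμ, mul_one]

theorem Zk_ren (C : Chain) (W : ℝ → ℤ → ℝ) {n : ℕ} (hn : n ≠ 0) (ω : ℕ → ℝ) :
    Zk C W n ω 0 0 = ∑ L ∈ Finset.Icc 1 n, Gk C W {0} L ω 0 0 *
      Zk C W (n - L) (shift L ω) 0 0 := by
  have h0 : (0 : ℤ) ∈ ({0} : Finset ℤ) := Finset.mem_singleton_self 0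
  rw [MP_daa227_pr.Zk_eq_Ren C W {0} h0, MP_daa227_pr.Ren_pos_eq {0} (Gk C W {0}) hn]
  have h1 : Finset.Ioc 0 n = Finset.Icc 1 n := by
    ext i
    simp only [Finset.mem_Ioc, Finset.mem_Icc]
    omega
  rw [h1]
  refine Finset.sum_congr rfl fun L _ => ?_
  rw [Finset.sum_singleton, MP_daa227_pr.Zk_eq_Ren C W {0} h0]

end TPow

/-- `Z_n = ∑_m G_m Z_{n-m} ∘ shift m` with `G_m = K0 m exp (b ω (m-1) - lmg b)` (decomposition at the
first return, `Zk_decomp` or similar in Lib/MP_daa227_pr/Deco.lean; inside an excursion the weights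
are `1`), and `(∑ x_i)^p ≥ ∑ x_i^p`; independence: `a_n = E Z_n^p` satisfies
`a_n ≥ ∑_{1≤m≤n} k_m a_{n-m}`, `k_m = K0(m)^p exp (lmg (p b) - p lmg b)` -/
theorem pow_rec (C : Chain) {μ : Measure ℝ} [IsProbabilityMeasure μ] (hμ : ExpMom μ) {b p : ℝ}
    (hp : 1 ≤ p) {n : ℕ} (hn : 1 ≤ n) :
    ∑ m ∈ Finset.Icc 1 n, ENNReal.ofReal (K0 C m 0 ^ p * Real.exp (lmg μ (p * b) - p * lmg μ b)) *
      mom μ p (fun ω => Zk C (fun a z => Real.exp ((b * a - lmg μ b) * pin0 z)) (n - m) ω 0 0) ≤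
    mom μ p (fun ω => Zk C (fun a z => Real.exp ((b * a - lmg μ b) * pin0 z)) n ω 0 0) := by
  have hp0 : 0 ≤ p := by linarith
  change ∑ m ∈ Finset.Icc 1 n, ENNReal.ofReal (K0 C m 0 ^ p *
      Real.exp (lmg μ (p * b) - p * lmg μ b)) *
      mom μ p (fun ω => Zk C (TPow.W0 μ b) (n - m) ω 0 0) ≤
    mom μ p (fun ω => Zk C (TPow.W0 μ b) n ω 0 0)
  have hW : GoodW |b| (TPow.W0 μ b) := TCvx.goodW μ TPow.pin_01 b
  have hZ : ∀ n, Good n |b| (fun ω => Zk C (TPow.W0 μ b) n ω 0 0) :=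
    fun n => MP_daa227_pr.good_Zk C (abs_nonneg b) hW n 0 0
  have hG : ∀ n, Good n |b| (fun ω => Gk C (TPow.W0 μ b) {0} n ω 0 0) :=
    fun n => MP_daa227_pr.good_Gk C (abs_nonneg b) hW {0} n 0 0
  have h1 : ∀ m ∈ Finset.Icc 1 n, ENNReal.ofReal (K0 C m 0 ^ p *
      Real.exp (lmg μ (p * b) - p * lmg μ b)) *
      mom μ p (fun ω => Zk C (TPow.W0 μ b) (n - m) ω 0 0) =
      mom μ p (fun ω => Gk C (TPow.W0 μ b) {0} m ω 0 0 *
        Zk C (TPow.W0 μ b) (n - m) (shift m ω) 0 0) := by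
    intro m hm
    rw [Finset.mem_Icc] at hm
    have h2 := MP_daa227_pr.mom_mul_shift (μ := μ) (γ := p) hp0 (k := m)
      (F := fun ω => Gk C (TPow.W0 μ b) {0} m ω 0 0)
      (G := fun ω => Zk C (TPow.W0 μ b) (n - m) ω 0 0) (hG m).meas (hZ (n - m)).meas
      (hG m).depOn (hG m).nonneg
    rw [h2]
    congr 1
    obtain ⟨k, rfl⟩ : ∃ k, m = k + 1 := ⟨m - 1, by omega⟩
    have h3 : (fun ω : ℕ → ℝ => Gk C (TPow.W0 μ b) {0} (k + 1) ω 0 0) =
        fun ω => K0 C (k + 1) 0 * Real.exp (b * ω k - lmg μ b) := by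
      funext ω
      exact TPow.Gk_eq C μ b k ω 0
    rw [h3, TPow.mom_exp hμ b hp0 k (TPow.K0_nonneg C _ _)]
  rw [Finset.sum_congr rfl h1]
  unfold mom
  rw [← lintegral_finsetSum]
  · refine lintegral_mono fun ω => ?_
    dsimp only
    refine le_trans (TPow.sum_rpow _ _ hp) (ENNReal.rpow_le_rpow (le_of_eq ?_) hp0)
    rw [TPow.Zk_ren C _ (by omega) ω, ENNReal.ofReal_sum_of_nonneg]
    intro m _
    exact mul_nonneg ((hG m).nonneg ω) ((hZ (n - m)).nonneg (shift m ω))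
  · intro m _
    refine (Measurable.ennreal_ofReal ?_).pow_const p
    exact (hG m).meas.mul ((hZ (n - m)).meas.comp (MP_daa227_pr.measurable_shift m))

namespace TPow

/-- the growth -/
theorem growth {k A : ℕ → ℝ} (hk : ∀ m, 0 ≤ k m) (hA : ∀ n, 0 ≤ A n) (hA0 : 1 ≤ A 0)
    (hk0 : k 0 = 0) (hrec : ∀ n, 1 ≤ n → ∑ m ∈ Finset.Icc 1 n, k m * A (n - m) ≤ A n) {N : ℕ}
    (hN : 1 < ∑ m ∈ range N, k m) {B : ℝ} (hB : ∀ n, A n ≤ B) : False := by
  obtain ⟨ρ, hρ⟩ : ∃ ρ, ρ = ∑ m ∈ range N, k m := ⟨_, rfl⟩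
  rw [← hρ] at hN
  have hrec' : ∀ n, ∑ x ∈ HasAntidiagonal.antidiagonal n, k x.1 * A x.2 ≤ A n := by
    intro n
    rw [Finset.Nat.sum_antidiagonal_eq_sum_range_succ_mk]
    show ∑ m ∈ range (n + 1), k m * A (n - m) ≤ A n
    rw [Finset.sum_range_succ', hk0, zero_mul, add_zero]
    rcases Nat.eq_zero_or_pos n with h0 | h0
    · rw [h0]
      simpa using hA 0
    · refine le_trans (le_of_eq ?_) (hrec n h0)
      rw [Finset.range_eq_Ico, Finset.sum_Ico_add' (fun m => k m * A (n - m)) 0 n 1]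
      congr 1
  have hstep : ∀ L, ρ * ∑ n ∈ range (L + 1), A n ≤ ∑ n ∈ range (L + N + 1), A n := by
    intro L
    have h1 : ρ * ∑ n ∈ range (L + 1), A n =
        ∑ x ∈ range N ×ˢ range (L + 1), k x.1 * A x.2 := by
      rw [hρ, Finset.sum_mul_sum, Finset.sum_product]
    rw [h1, ← Finset.sum_fiberwise_of_maps_to (s := range N ×ˢ range (L + 1))
      (t := range (L + N + 1)) (g := fun x : ℕ × ℕ => x.1 + x.2) (by
        intro x hx
        rw [Finset.mem_product, Finset.mem_range, Finset.mem_range] at hx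
        rw [Finset.mem_range]
        omega)]
    refine Finset.sum_le_sum fun n _ => le_trans ?_ (hrec' n)
    refine Finset.sum_le_sum_of_subset_of_nonneg ?_ fun x _ _ => mul_nonneg (hk _) (hA _)
    intro x hx
    rw [Finset.mem_filter] at hx
    rw [HasAntidiagonal.mem_antidiagonal]
    exact hx.2
  have hpow : ∀ j : ℕ, ρ ^ j ≤ ∑ n ∈ range (j * N + 1), A n := by
    intro j
    induction j with
    | zero => simpa using hA0
    | succ j ih =>
      have h1 := hstep (j * N)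
      have h2 : ρ * ρ ^ j ≤ ρ * ∑ n ∈ range (j * N + 1), A n :=
        mul_le_mul_of_nonneg_left ih (by linarith)
      rw [pow_succ', show (j + 1) * N + 1 = j * N + N + 1 by ring]
      exact h2.trans h1
  have hbd : ∀ j : ℕ, ρ ^ j ≤ B * (j * N + 1) := by
    intro j
    refine (hpow j).trans (le_trans (Finset.sum_le_sum fun n _ => hB n) (le_of_eq ?_))
    rw [Finset.sum_const, Finset.card_range, nsmul_eq_mul]
    push_cast
    ring
  have hlim : Tendsto (fun j : ℕ => B * N * ((j : ℝ) ^ 1 / ρ ^ j) + B * ((j : ℝ) ^ 0 / ρ ^ j))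
      atTop (𝓝 (B * N * 0 + B * 0)) :=
    ((tendsto_pow_const_div_const_pow_of_one_lt 1 hN).const_mul _).add
      ((tendsto_pow_const_div_const_pow_of_one_lt 0 hN).const_mul _)
  rw [mul_zero, mul_zero, add_zero] at hlim
  obtain ⟨j, hj⟩ := (hlim.eventually (gt_mem_nhds (show (0 : ℝ) < 1 by norm_num))).exists
  have hρj : 0 < ρ ^ j := pow_pos (by linarith) j
  have h1 : B * N * ((j : ℝ) ^ 1 / ρ ^ j) + B * ((j : ℝ) ^ 0 / ρ ^ j) =
      B * (j * N + 1) / ρ ^ j := by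
    rw [pow_one, pow_zero]
    field_simp
  rw [h1, div_lt_one hρj] at hj
  exact absurd (hbd j) (not_le.2 hj)

end TPow

/-- a bound along the even times is a bound for all times -/
theorem TPow.mom_all (C : Chain) {μ : Measure ℝ} [IsProbabilityMeasure μ] {W : ℝ → ℤ → ℝ} {D : ℝ}
    (hD : 0 ≤ D) (hG : GoodW D W) (hW : ∀ a z, 0 < W a z) {p K : ℝ} (hp0 : 0 < p)
    (hb : ∀ n : ℕ, mom μ p (fun ω => Zk C W (2 * n) ω 0 0) ≤ ENNReal.ofReal K) :
    ∃ K' : ℝ, 0 ≤ K' ∧ ∀ n : ℕ, mom μ p (fun ω => Zk C W n ω 0 0) ≤ ENNReal.ofReal K' := by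
  obtain ⟨L, hL, hlen⟩ := Bridge.len C 0
  have hZ : ∀ n, Good n D (fun ω => Zk C W n ω 0 0) :=
    fun n => MP_daa227_pr.good_Zk C hD hG n 0 0
  rcases hlen (2 * L - 1) (by omega) 0 (by rw [box, Finset.mem_Icc]; omega) with h12 | ⟨h1, h2⟩
  · -- a closed path of odd length
    set k := 2 * L - 1 with hk
    have hpos : ∀ ω, 0 < Zk C W k ω 0 0 := fun ω => (h12 W hW ω).1
    have hk0 : mom μ p (fun ω => Zk C W k ω 0 0) ≠ 0 := by
      intro h0
      have hm : Measurable fun ω => ENNReal.ofReal (Zk C W k ω 0 0) ^ p :=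
        MP_daa227_pr.measurable_momf (hZ k).meas
      have h1 := (lintegral_eq_zero_iff hm).1 h0
      obtain ⟨ω, hω⟩ := h1.exists
      have h2 : ENNReal.ofReal (Zk C W k ω 0 0) ^ p = 0 := hω
      rw [ENNReal.rpow_eq_zero_iff_of_pos hp0, ENNReal.ofReal_eq_zero] at h2
      exact absurd (hpos ω) (not_lt.2 h2)
    set B := ENNReal.ofReal K / mom μ p (fun ω => Zk C W k ω 0 0) with hB
    have hBt : B ≠ ⊤ := ENNReal.div_ne_top ENNReal.ofReal_ne_top hk0
    refine ⟨B.toReal + max K 0, add_nonneg ENNReal.toReal_nonneg (le_max_right _ _), fun n => ?_⟩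
    rw [ENNReal.ofReal_add ENNReal.toReal_nonneg (le_max_right _ _), ENNReal.ofReal_toReal hBt]
    rcases Nat.even_or_odd n with he | ho
    · obtain ⟨m, hm⟩ := he
      have h2 : n = 2 * m := by omega
      rw [h2]
      exact (hb m).trans ((ENNReal.ofReal_le_ofReal (le_max_left _ _)).trans le_add_self)
    · refine le_trans ?_ le_self_add
      obtain ⟨m, hm⟩ : ∃ m, n + k = 2 * m := by
        obtain ⟨j, hj⟩ := ho
        exact ⟨j + L, by omega⟩
      rw [hB, ENNReal.le_div_iff_mul_le (Or.inl hk0) (Or.inr ENNReal.ofReal_ne_top)]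
      rw [← MP_daa227_pr.mom_mul_shift (μ := μ) hp0.le (hZ n).meas (hZ k).meas (hZ n).depOn
        (hZ n).nonneg]
      refine le_trans (MP_daa227_pr.mom_mono hp0.le fun ω => ?_) (hb m)
      rw [← hm]
      exact MP_daa227_pr.Zk_mul_le C W (fun a z => (hW a z).le) n k ω 0 0 0
  · refine ⟨max K 0, le_max_right _ _, fun n => ?_⟩
    rcases Nat.even_or_odd n with he | ho
    · obtain ⟨m, hm⟩ := he
      have h2 : n = 2 * m := by omega
      rw [h2]
      exact (hb m).trans (ENNReal.ofReal_le_ofReal (le_max_left _ _))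
    · have h3 : (fun ω : ℕ → ℝ => Zk C W n ω 0 0) = fun _ => 0 := by
        funext ω
        apply TPow.par C h1
        intro h3
        rw [add_zero, sub_zero, Int.even_coe_nat] at h3
        exact (Nat.not_even_iff_odd.2 ho) h3
      rw [h3]
      rw [MP_daa227_pr.mom_zero hp0]
      exact zero_le

/-- If `a_n ≤ B` for all `n`, `S_L = ∑_{n ≤ L} a_n` satisfies `S_L ≥ ρ S_{L-N}`, `ρ > 1` (the mass of `k`
on `m < N`), and `S_0 = 1`: so `ρ^j ≤ S_{jN} ≤ B (j N + 1)`, false for large `j`. For odd `n` see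
`TPow.mom_all`. -/
theorem pow_unbd (C : Chain) {μ : Measure ℝ} [IsProbabilityMeasure μ]
    (hμ : ExpMom μ) {b p : ℝ} (hp : 1 ≤ p) {N : ℕ}
    (hN : 1 < ∑ m ∈ range N, K0 C m 0 ^ p * Real.exp (lmg μ (p * b) - p * lmg μ b)) (K : ℝ) :
    ∃ n : ℕ, ENNReal.ofReal K <
      mom μ p (fun ω => Zk C (fun a z => Real.exp ((b * a - lmg μ b) * pin0 z)) (2 * n) ω 0 0) := by
  by_contra hcon
  push Not at hcon
  have hp0 : 0 < p := by linarith
  obtain ⟨K, _, hcon⟩ := TPow.mom_all C (abs_nonneg b) (TCvx.goodW μ TPow.pin_01 b)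
    (fun a z => Real.exp_pos _) hp0 hcon
  obtain ⟨a, ha⟩ : ∃ a : ℕ → ENNReal, a = fun n => mom μ p (fun ω =>
    Zk C (fun a z => Real.exp ((b * a - lmg μ b) * pin0 z)) n ω 0 0) := ⟨_, rfl⟩
  have hle : ∀ n, a n ≤ ENNReal.ofReal K := by
    intro n
    rw [ha]
    exact hcon n
  have hfin : ∀ n, a n ≠ ⊤ := fun n => ne_top_of_le_ne_top ENNReal.ofReal_ne_top (hle n)
  have h0 : a 0 = 1 := by
    rw [ha]
    show mom μ p (fun ω : ℕ → ℝ => (if (0 : ℤ) = 0 then (1 : ℝ) else 0)) = 1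
    rw [if_pos rfl, MP_daa227_pr.mom_const, ENNReal.ofReal_one, ENNReal.one_rpow]
  have hk : ∀ m, 0 ≤ K0 C m 0 ^ p * Real.exp (lmg μ (p * b) - p * lmg μ b) := fun m =>
    mul_nonneg (Real.rpow_nonneg (TPow.K0_nonneg C m 0) p) (Real.exp_pos _).le
  refine TPow.growth (k := fun m => K0 C m 0 ^ p * Real.exp (lmg μ (p * b) - p * lmg μ b))
    (A := fun n => (a n).toReal) hk (fun n => ENNReal.toReal_nonneg) ?_ ?_ ?_ hN
    (B := (ENNReal.ofReal K).toReal) ?_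
  · rw [h0]
    simp
  · show K0 C 0 0 ^ p * _ = 0
    have h1 : K0 C 0 0 = 0 := rfl
    rw [h1, Real.zero_rpow hp0.ne', zero_mul]
  · intro n hn
    have h1 := pow_rec C hμ (b := b) hp hn
    have h2 : ∑ m ∈ Finset.Icc 1 n, ENNReal.ofReal (K0 C m 0 ^ p *
        Real.exp (lmg μ (p * b) - p * lmg μ b)) * a (n - m) ≤ a n := by
      rw [ha]
      exact h1
    have h3 := ENNReal.toReal_mono (hfin n) h2
    rw [ENNReal.toReal_sum (fun m _ => ENNReal.mul_ne_top ENNReal.ofReal_ne_top (hfin _))] at h3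
    refine le_trans (le_of_eq (Finset.sum_congr rfl fun m _ => ?_)) h3
    rw [ENNReal.toReal_mul, ENNReal.toReal_ofReal (hk m)]
  · intro n
    exact ENNReal.toReal_mono ENNReal.ofReal_ne_top (hle n)

end

end Pool.Agent.HG
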