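import Pool.Agent.Lib.MP_daa227_pr_HG.ESk
import Pool.Agent.Lib.MP_daa227_pr_HG.PolyOne
import Pool.Agent.Lib.MP_daa227_pr_HZ.MinSol

/-!
# MP_daa227_pr, general potentials: polynomial cost when the potential is small in the mean
-/

namespace Pool.Agent.HG

open MeasureTheory ProbabilityTheory Finset Filter Topology
open MP_daa227_pr (Chain Zk Zf Gk Gf KU K0 Ren shift seqLaw ExpMom DepOn Good GoodW mom)
open Pool.Agent.HZ (Mod Kv lmg)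
open Pool.Agent.IOrd (Sys aS cv)

noncomputable section

/-- there is a bounded nonnegative supersolution of `V = φ + p V` to the right of `0`: the mean of the
sum of the potential up to the first visit of `0` is bounded -/
def VR (C : Chain) (φ : ℤ → ℝ) : Prop :=
  ∃ (V : ℤ → ℝ) (K : ℝ), (∀ x : ℤ, 0 ≤ x → 0 ≤ V x ∧ V x ≤ K) ∧ ∀ x : ℤ, 1 ≤ x →
    φ x + (C.p x (x - 1) * V (x - 1) + C.p x x * V x + C.p x (x + 1) * V (x + 1)) ≤ V x

/-- the same to the left of `0` -/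
def VL (C : Chain) (φ : ℤ → ℝ) : Prop := VR (HZ.cneg C) (fun x => φ (-x))

namespace PolyV

theorem pack {f : ℕ → ℝ} (hf : ∀ n, 1 ≤ n → 0 < f n) {A B p : ℝ} (hB : 0 < B)
    (h : ∀ᶠ n : ℕ in atTop, (((2 * n : ℕ) : ℝ) ^ (-A) / B) ^ p ≤ f n) :
    ∃ c A' : ℝ, 0 < c ∧ 0 ≤ A' ∧ ∀ n : ℕ, 1 ≤ n → c * (n : ℝ) ^ (-A') ≤ f n := by
  refine all_of_eventually hf (A := A * p + 1) ?_
  have h1 : ∀ᶠ n : ℕ in atTop, B ^ p ≤ (n : ℝ) :=
    tendsto_natCast_atTop_atTop.eventually_ge_atTop _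
  filter_upwards [h, h1, eventually_ge_atTop 1] with n hn hn1 hn2
  have hX : (0 : ℝ) < ((2 * n : ℕ) : ℝ) := by
    have : 0 < 2 * n := by omega
    exact_mod_cast this
  have hBp : 0 < B ^ p := Real.rpow_pos_of_pos hB _
  have hX1 : B ^ p ≤ ((2 * n : ℕ) : ℝ) := by
    have : (0 : ℝ) ≤ n := Nat.cast_nonneg n
    push_cast
    linarith
  refine le_trans ?_ hn
  rw [Real.div_rpow (Real.rpow_nonneg hX.le _) hB.le, ← Real.rpow_mul hX.le, neg_add,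
    Real.rpow_add hX, Real.rpow_neg_one, div_eq_mul_inv, neg_mul]
  exact mul_le_mul_of_nonneg_left (inv_anti₀ hBp hX1) (Real.rpow_nonneg hX.le _)

theorem es_Es (C : Chain) {φ : ℤ → ℝ} {Φ : ℝ} (h0 : ∀ x, 0 ≤ φ x) (h1 : ∀ x, φ x ≤ Φ)
    (n : ℕ) : ES (Φ + n * Φ) (fun t => HZ.Ep C (fun z => t * φ z) 1 n) := by
  have h2 := ES.mul (ES.expo (C.nonneg 0 1) (h0 1) (h1 1)) (es_Kv C h0 h1 0 n 1)
  simp only [sub_zero] at h2
  exact h2

end PolyV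

/-- `a = 1 / (2 (K + 1))`, `f x = exp (-a φ x) (1 + 2 a V x)` is a supersolution
(`HZ.Ssol C (a φ) 0 f`): `∑ p exp (a φ) f = 1 + 2 a p V ≤ 1 + 2 a V - 2 a φ ≤ (1 + 2 a V) (1 - a φ)
≤ f` because `1 + 2 a V ≤ 2`. `HZ.sum_le_sup` at `x = 1`. -/
theorem exp_right (C : Chain) {φ : ℤ → ℝ} (h0 : ∀ x, 0 ≤ φ x) (hV : VR C φ) :
    ∃ a : ℝ, 0 < a ∧ ∃ K : ℝ, 0 ≤ K ∧ ∀ n : ℕ, HZ.Ep C (fun z => a * φ z) 1 n ≤ K := by
  obtain ⟨V, K, hV1, hV2⟩ := hV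
  have hK : 0 ≤ K := (hV1 0 le_rfl).1.trans (hV1 0 le_rfl).2
  set a : ℝ := 1 / (2 * (K + 1)) with ha
  have ha0 : 0 < a := by positivity
  have haK : 2 * a * (K + 1) = 1 := by
    rw [ha]
    field_simp
  set f : ℤ → ℝ := fun x => Real.exp (-(a * φ x)) * (1 + 2 * a * V x) with hf
  have hfpos : ∀ x, 0 ≤ x → 0 < f x := by
    intro x hx
    have h1 := mul_nonneg (mul_nonneg two_pos.le ha0.le) (hV1 x hx).1
    exact mul_pos (Real.exp_pos _) (by linarith)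
  have hcan : ∀ x z : ℤ, C.p x z * Real.exp (a * φ z) * f z = C.p x z * (1 + 2 * a * V z) := by
    intro x z
    have h1 : Real.exp (a * φ z) * Real.exp (-(a * φ z)) = 1 := by
      rw [← Real.exp_add, add_neg_cancel, Real.exp_zero]
    calc C.p x z * Real.exp (a * φ z) * f z
        = C.p x z * (Real.exp (a * φ z) * Real.exp (-(a * φ z))) * (1 + 2 * a * V z) := by
          rw [hf]
          ring
      _ = _ := by rw [h1, mul_one]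
  have hs : HZ.Ssol C (fun z => a * φ z) 0 f := by
    intro x hx
    rw [hcan, hcan, hcan]
    have h1 := C.sum_one x
    rw [HZ.sum_nb x (fun y => C.p x y)] at h1
    have h2 := hV2 x (by omega)
    have h3 := (hV1 x hx.le).2
    have h4 := (hV1 x hx.le).1
    have h5 := Real.add_one_le_exp (-(a * φ x))
    have h6 : 0 ≤ 1 + 2 * a * V x := by
      have := mul_nonneg (mul_nonneg two_pos.le ha0.le) h4
      linarith
    have h7 : (1 - a * φ x) * (1 + 2 * a * V x) ≤ f x :=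
      mul_le_mul_of_nonneg_right (by linarith) h6
    refine le_trans ?_ h7
    have h8 : 2 * a * V x ≤ 1 := by
      have h9 := mul_le_mul_of_nonneg_left (h3.trans (by linarith : K ≤ K + 1))
        (mul_nonneg two_pos.le ha0.le)
      linarith
    have h10 : 0 ≤ (a * φ x) * (1 - 2 * a * V x) :=
      mul_nonneg (mul_nonneg ha0.le (h0 x)) (by linarith)
    have h11 := mul_le_mul_of_nonneg_left h2 (mul_nonneg two_pos.le ha0.le)
    nlinarith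
  have hb : ∀ n : ℕ, Kv C (fun z => a * φ z) n 1 ≤ f 1 / f 0 := by
    intro n
    rw [le_div_iff₀ (hfpos 0 le_rfl)]
    refine le_trans ?_ (HZ.sum_le_sup C _ f hfpos hs (n + 1) one_pos)
    refine mul_le_mul_of_nonneg_right ?_ (hfpos 0 le_rfl).le
    exact Finset.single_le_sum (f := fun n => Kv C (fun z => a * φ z) n 1)
      (fun i _ => HZ.Kv_nonneg C _ i 1) (Finset.mem_range.2 (Nat.lt_succ_self n))
  refine ⟨a, ha0, C.p 0 1 * Real.exp (a * φ 1) * (f 1 / f 0), ?_, fun n => ?_⟩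
  · exact mul_nonneg (mul_nonneg (C.nonneg _ _) (Real.exp_pos _).le)
      (div_nonneg (hfpos 1 zero_le_one).le (hfpos 0 le_rfl).le)
  · exact mul_le_mul_of_nonneg_left (hb n) (mul_nonneg (C.nonneg _ _) (Real.exp_pos _).le)

/-- reflection: `HZ.Kv_cneg` -/
theorem exp_left (C : Chain) {φ : ℤ → ℝ} (h0 : ∀ x, 0 ≤ φ x) (hV : VL C φ) :
    ∃ a : ℝ, 0 < a ∧ ∃ K : ℝ, 0 ≤ K ∧ ∀ n : ℕ, HZ.Ep C (fun z => a * φ z) (-1) n ≤ K := by
  obtain ⟨a, ha, K, hK, h⟩ := exp_right (HZ.cneg C) (fun x => h0 (-x)) hV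
  refine ⟨a, ha, K, hK, fun n => ?_⟩
  refine le_trans (le_of_eq ?_) (h n)
  unfold HZ.Ep
  have h1 := HZ.Kv_cneg C (fun z => a * φ z) n 1
  rw [← h1]
  rfl

/-- log-convexity: `0 = (1 - θ) (-η) + θ a` with `θ = η / (η + a)`, so
`x ≤ g 0 ≤ g (-η) ^ (1 - θ) K ^ θ` (`ES.conv`). -/
theorem es_low {N K a η x : ℝ} {g : ℝ → ℝ} (hg : ES N g) (ha : 0 < a) (hη : 0 < η) (hK : 0 < K)
    (hgK : g a ≤ K) (hx0 : 0 ≤ x) (hx : x ≤ g 0) :
    (x / K ^ (η / (η + a))) ^ ((η + a) / a) ≤ g (-η) := by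
  have hs : 0 < η + a := add_pos hη ha
  set θ : ℝ := η / (η + a) with hθ
  have hθ0 : 0 ≤ θ := (div_pos hη hs).le
  have hθ1 : 1 - θ = a / (η + a) := by
    rw [hθ]
    field_simp
    ring
  have hθ2 : θ ≤ 1 := by
    have : 0 ≤ a / (η + a) := (div_pos ha hs).le
    linarith
  have h1 := hg.conv hθ0 hθ2 (-η) a
  have h2 : (1 - θ) * (-η) + θ * a = 0 := by
    rw [hθ1, hθ]
    field_simp
    ring
  rw [h2] at h1
  have h3 : 0 ≤ g (-η) := hg.nonneg _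
  have h4 : x ≤ g (-η) ^ (1 - θ) * K ^ θ := by
    refine hx.trans (h1.trans ?_)
    exact mul_le_mul_of_nonneg_left (Real.rpow_le_rpow (hg.nonneg _) hgK hθ0)
      (Real.rpow_nonneg h3 _)
  have hKθ : 0 < K ^ θ := Real.rpow_pos_of_pos hK _
  have h5 : x / K ^ θ ≤ g (-η) ^ (1 - θ) := (div_le_iff₀ hKθ).2 h4
  have h6 : 0 ≤ (η + a) / a := (div_pos hs ha).le
  have h7 := Real.rpow_le_rpow (div_nonneg hx0 hKθ.le) h5 h6
  refine h7.trans (le_of_eq ?_)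
  rw [← Real.rpow_mul h3, hθ1]
  have h8 : a / (η + a) * ((η + a) / a) = 1 := by
    field_simp
  rw [h8, Real.rpow_one]

/-- One side: `es_low` for `g t = HZ.Es C (t φ) 1 (2 n - 1)` (a sum of exponentials by `es_Kv`,
`ES.mul`), and `Es .. 1 (2 n - 1) ≤ Kv .. (2 n) 0` (`HZ.Kv_split`). -/
theorem poly_right (C : Chain) {φ : ℤ → ℝ} {Φ : ℝ} (h0 : ∀ x, 0 ≤ φ x)
    (h1 : ∀ x, φ x ≤ Φ) (hV : VR C φ) {A : ℝ}
    (h : ∀ᶠ n : ℕ in atTop, ((2 * n : ℕ) : ℝ) ^ (-A) ≤ C.p 0 1 * K0 C (2 * n - 1) 1) :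
    ∀ η : ℝ, 0 < η → ∃ c A' : ℝ, 0 < c ∧ 0 ≤ A' ∧ ∀ n : ℕ, 1 ≤ n →
      c * (n : ℝ) ^ (-A') ≤ Kv C (fun z => -η * φ z) (2 * n) 0 := by
  intro η hη
  obtain ⟨a, ha, K, hK, hb⟩ := exp_right C h0 hV
  have hK1 : 0 < K + 1 := by linarith
  refine PolyV.pack (fun n hn => HZ.Kv_even_pos C _ hn) (A := A)
    (B := (K + 1) ^ (η / (η + a))) (p := (η + a) / a) (Real.rpow_pos_of_pos hK1 _) ?_
  filter_upwards [h, eventually_ge_atTop 1] with n hn hn1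
  have hX : (0 : ℝ) ≤ ((2 * n : ℕ) : ℝ) := Nat.cast_nonneg _
  have hx : ((2 * n : ℕ) : ℝ) ^ (-A) ≤ HZ.Ep C (fun z => (0 : ℝ) * φ z) 1 (2 * n - 1) := by
    refine hn.trans (le_of_eq ?_)
    unfold HZ.Ep
    simp only [zero_mul, Real.exp_zero, mul_one]
    rw [HZ.Kv_K0]
  have h2 := es_low (PolyV.es_Es C h0 h1 (2 * n - 1)) ha hη hK1
    ((hb (2 * n - 1)).trans (by linarith)) (Real.rpow_nonneg hX _) hx
  refine h2.trans ?_
  have h3 : 2 * n = (2 * n - 1) + 1 := by omega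
  have h4 := HZ.Kv_split C (fun z => -η * φ z) (2 * n - 1)
  rw [← h3] at h4
  rw [h4]
  have h5 := HZ.Es_nonneg C (fun z => -η * φ z) (-1) (2 * n - 1)
  have h6 : HZ.Ep C (fun z => -η * φ z) 1 (2 * n - 1) ≤ HZ.Es C (fun z => -η * φ z) 1 (2 * n - 1) :=
    HZ.Es_ge C (fun z => -η * φ z) 1 (2 * n - 1)
  exact h6.trans (le_add_of_nonneg_right h5)

/-- Two sides: `es_low` for `g t = Kv C (t φ) (2 n) 0`, `g a = Es .. 1 + Es .. (-1)` bounded (take the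
smaller `a`; `HZ.Kv_split`, `HZ.Es_mono`), `g 0 = K0` (`HZ.Kv_K0`). -/
theorem poly_two (C : Chain) {φ : ℤ → ℝ} {Φ : ℝ} (h0 : ∀ x, 0 ≤ φ x)
    (h1 : ∀ x, φ x ≤ Φ) (hR : VR C φ) (hL : VL C φ) {A : ℝ}
    (h : ∀ᶠ n : ℕ in atTop, ((2 * n : ℕ) : ℝ) ^ (-A) ≤ K0 C (2 * n) 0) :
    ∀ η : ℝ, 0 < η → ∃ c A' : ℝ, 0 < c ∧ 0 ≤ A' ∧ ∀ n : ℕ, 1 ≤ n →
      c * (n : ℝ) ^ (-A') ≤ Kv C (fun z => -η * φ z) (2 * n) 0 := by
  intro η hη
  obtain ⟨a₁, ha₁, K₁, hK₁, hb₁⟩ := exp_right C h0 hR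
  obtain ⟨a₂, ha₂, K₂, hK₂, hb₂⟩ := exp_left C h0 hL
  have ha : 0 < min a₁ a₂ := lt_min ha₁ ha₂
  have hK1 : 0 < K₁ + K₂ + 1 := by linarith
  refine PolyV.pack (fun n hn => HZ.Kv_even_pos C _ hn) (A := A)
    (B := (K₁ + K₂ + 1) ^ (η / (η + min a₁ a₂))) (p := (η + min a₁ a₂) / min a₁ a₂)
    (Real.rpow_pos_of_pos hK1 _) ?_
  filter_upwards [h, eventually_ge_atTop 1] with n hn hn1
  have hX : (0 : ℝ) ≤ ((2 * n : ℕ) : ℝ) := Nat.cast_nonneg _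
  have hES : ES ((2 * n : ℕ) * Φ) (fun t => Kv C (fun z => t * φ z) (2 * n) 0) := by
    have h2 := es_Kv C h0 h1 0 (2 * n) 0
    simp only [sub_zero] at h2
    exact h2
  have hx : ((2 * n : ℕ) : ℝ) ^ (-A) ≤ Kv C (fun z => (0 : ℝ) * φ z) (2 * n) 0 := by
    refine hn.trans (le_of_eq ?_)
    simp only [zero_mul]
    rw [HZ.Kv_K0]
  refine es_low hES ha hη hK1 ?_ (Real.rpow_nonneg hX _) hx
  have h3 : 2 * n = (2 * n - 1) + 1 := by omega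
  have h4 := HZ.Kv_split C (fun z => min a₁ a₂ * φ z) (2 * n - 1)
  rw [← h3] at h4
  rw [h4]
  have hEp : ∀ (v : ℤ → ℝ) (σ : ℤ), HZ.Es C v σ (2 * n - 1) = HZ.Ep C v σ (2 * n - 1) :=
    fun v σ => HZ.Es_pos_n C v σ (by omega)
  have h5 : HZ.Es C (fun z => min a₁ a₂ * φ z) 1 (2 * n - 1) ≤ K₁ := by
    refine (HZ.Es_mono C (fun z => mul_le_mul_of_nonneg_right (min_le_left a₁ a₂) (h0 z)) _ _).trans
      ?_
    rw [hEp]
    exact hb₁ _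
  have h6 : HZ.Es C (fun z => min a₁ a₂ * φ z) (-1) (2 * n - 1) ≤ K₂ := by
    refine (HZ.Es_mono C (fun z => mul_le_mul_of_nonneg_right (min_le_right a₁ a₂) (h0 z)) _ _).trans
      ?_
    rw [hEp]
    exact hb₂ _
  linarith

end

end Pool.Agent.HG
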