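import Pool.Agent.Lib.MP_daa227_pr_HG.XDef
import Pool.Agent.Lib.MP_daa227_pr_HG.PolyV

/-!
# MP_daa227_pr, exponential moments of the potential: lower bounds for the penalised excursions
-/

namespace Pool.Agent.HG

open MeasureTheory ProbabilityTheory Finset Filter Topology
open MP_daa227_pr (Chain Zk Zf Gk Gf KU K0 Ren shift seqLaw ExpMom DepOn Good GoodW mom)
open Pool.Agent.HZ (Mod Kv lmg)
open Pool.Agent.IOrd (Sys aS cv)

noncomputable section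

namespace XLow

/-- interpolation between `-η φ` and `κ φ`: the penalised kernel from below -/
theorem low (C : Chain) {φ : ℤ → ℝ} {η κ B y : ℝ} (hη : 0 < η) (hκ : 0 < κ) (hB : 0 < B)
    (m : ℕ) (x : ℤ) (hb : Kv C (fun z => κ * φ z) m x ≤ B) (hy0 : 0 ≤ y)
    (hy : y ≤ K0 C m x) :
    (y / B ^ (η / (η + κ))) ^ ((η + κ) / κ) ≤ Kv C (fun z => -η * φ z) m x := by
  have hs : 0 < η + κ := add_pos hη hκ
  set θ : ℝ := η / (η + κ) with hθ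
  have hθ0 : 0 ≤ θ := (div_pos hη hs).le
  have hθ1 : 1 - θ = κ / (η + κ) := by
    rw [hθ]
    field_simp
    ring
  have hθ2 : θ ≤ 1 := by
    have : 0 ≤ κ / (η + κ) := (div_pos hκ hs).le
    linarith
  have h1 := HZ.interp_K C (fun z => -η * φ z) (fun z => κ * φ z) hθ0 hθ2 m x
  have h2 : (fun z => (1 - θ) * (-η * φ z) + θ * (κ * φ z)) = fun _ : ℤ => (0 : ℝ) := by
    funext z
    rw [hθ1, hθ]
    field_simp
    ring
  rw [h2, HZ.Kv_K0] at h1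
  have h3 : 0 ≤ Kv C (fun z => -η * φ z) m x := HZ.Kv_nonneg C _ m x
  have h4 : y ≤ Kv C (fun z => -η * φ z) m x ^ (1 - θ) * B ^ θ := by
    refine hy.trans (h1.trans ?_)
    exact mul_le_mul_of_nonneg_left (Real.rpow_le_rpow (HZ.Kv_nonneg C _ m x) hb hθ0)
      (Real.rpow_nonneg h3 _)
  have hKθ : 0 < B ^ θ := Real.rpow_pos_of_pos hB _
  have h5 : y / B ^ θ ≤ Kv C (fun z => -η * φ z) m x ^ (1 - θ) := (div_le_iff₀ hKθ).2 h4
  have h6 : 0 ≤ (η + κ) / κ := (div_pos hs hκ).le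
  have h7 := Real.rpow_le_rpow (div_nonneg hy0 hKθ.le) h5 h6
  refine h7.trans (le_of_eq ?_)
  rw [← Real.rpow_mul h3, hθ1]
  have h8 : κ / (η + κ) * ((η + κ) / κ) = 1 := by
    field_simp
  rw [h8, Real.rpow_one]

/-- a term of the bounded sums -/
theorem term {C : Chain} {v : ℤ → ℝ} {B : ℝ} {x : ℤ}
    (h : ∀ N : ℕ, ∑ n ∈ range N, Kv C v n x ≤ B) (m : ℕ) : Kv C v m x ≤ max B 1 := by
  refine le_trans ?_ ((h (m + 1)).trans (le_max_left _ _))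
  exact Finset.single_le_sum (f := fun n => Kv C v n x) (fun n _ => HZ.Kv_nonneg C v n x)
    (Finset.mem_range.2 (Nat.lt_succ_self m))

end XLow

/-- `HZ.interp_K` with `v₁ = -η φ`, `v₂ = κ φ`, `t = η/(η+κ)` (so `(1-t) v₁ + t v₂ = 0`,
`HZ.Kv_K0`):
`K0 C (2n) 0 ≤ Kv (-η φ) (2n) 0 ^ (1-t) * B^t` (a term of the bounded sums is at most `B`; wlog
`B ≥ 1`), so `Kv (-η φ) (2n) 0 ≥ (K0 / B^t)^(1/(1-t))`, `1/(1-t) = (η+κ)/κ → 1` as `η → 0`: choose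
`η₀` with `(1 + α + ε/2) (η₀+κ)/κ ≤ 1 + α + 3ε/4`. -/
theorem expPot_low (C : Chain) {φ : ℤ → ℝ} (h0 : ∀ x, 0 ≤ φ x) (hX : ExpPot C φ) {α : ℝ}
    (hα : 0 ≤ α) (hK : ∀ ε : ℝ, 0 < ε → ∀ᶠ n : ℕ in atTop,
      ((2 * n : ℕ) : ℝ) ^ (-(1 + α + ε)) ≤ K0 C (2 * n) 0) {ε : ℝ} (hε : 0 < ε) :
    ∃ η₀ : ℝ, 0 < η₀ ∧ ∀ η : ℝ, 0 < η → η ≤ η₀ → ∀ᶠ n : ℕ in atTop,
      ((2 * n : ℕ) : ℝ) ^ (-(1 + α + ε)) ≤ Kv C (fun z => -η * φ z) (2 * n) 0 := by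
  obtain ⟨κ, B, hκ, hB⟩ := hX
  have hd : 0 < 1 + α + ε / 2 := by linarith
  refine ⟨κ * (ε / 4) / (1 + α + ε / 2), by positivity, fun η hη hη0 => ?_⟩
  have hB1 : 0 < max B 1 := lt_of_lt_of_le one_pos (le_max_right _ _)
  have hBt : 0 < max B 1 ^ (η / (η + κ)) := Real.rpow_pos_of_pos hB1 _
  have hp : 0 < (η + κ) / κ := div_pos (add_pos hη hκ) hκ
  have hBp : 0 < (max B 1 ^ (η / (η + κ))) ^ ((η + κ) / κ) := Real.rpow_pos_of_pos hBt _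
  have hexp : (1 + α + ε / 2) * ((η + κ) / κ) ≤ 1 + α + 3 * ε / 4 := by
    have h1 : η * (1 + α + ε / 2) ≤ κ * (ε / 4) := (le_div_iff₀ hd).1 hη0
    have h2 : (1 + α + ε / 2) * ((η + κ) / κ)
        = (1 + α + ε / 2) + η * (1 + α + ε / 2) / κ := by
      field_simp
      ring
    rw [h2]
    have h3 : η * (1 + α + ε / 2) / κ ≤ ε / 4 := by
      rw [div_le_iff₀ hκ]
      linarith
    linarith
  have hlim : Tendsto (fun n : ℕ => ((2 * n : ℕ) : ℝ) ^ (ε / 4)) atTop atTop := by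
    refine (tendsto_rpow_atTop (by positivity)).comp ?_
    refine tendsto_natCast_atTop_atTop.comp ?_
    exact tendsto_id.const_mul_atTop' two_pos
  filter_upwards [hK (ε / 2) (by linarith), eventually_ge_atTop 1,
    hlim.eventually_ge_atTop ((max B 1 ^ (η / (η + κ))) ^ ((η + κ) / κ))] with n hn hn1 hn2
  have hX1 : (1 : ℝ) ≤ ((2 * n : ℕ) : ℝ) := by
    have : 1 ≤ 2 * n := by omega
    exact_mod_cast this
  have hX0 : (0 : ℝ) < ((2 * n : ℕ) : ℝ) := lt_of_lt_of_le one_pos hX1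
  have h1 := XLow.low C hη hκ hB1 (2 * n) 0 (XLow.term hB (2 * n))
    (Real.rpow_nonneg hX0.le _) hn
  refine le_trans ?_ h1
  rw [Real.div_rpow (Real.rpow_nonneg hX0.le _) hBt.le, ← Real.rpow_mul hX0.le,
    le_div_iff₀ hBp]
  have h2 : -(1 + α + ε) = -(1 + α + 3 * ε / 4) + -(ε / 4) := by ring
  rw [h2, Real.rpow_add hX0, mul_assoc]
  have h3 : ((2 * n : ℕ) : ℝ) ^ (-(ε / 4)) * (max B 1 ^ (η / (η + κ))) ^ ((η + κ) / κ) ≤ 1 := by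
    rw [Real.rpow_neg hX0.le, inv_mul_le_iff₀ (Real.rpow_pos_of_pos hX0 _), mul_one]
    exact hn2
  have h4 : ((2 * n : ℕ) : ℝ) ^ (-(1 + α + 3 * ε / 4)) ≤
      ((2 * n : ℕ) : ℝ) ^ (-(1 + α + ε / 2) * ((η + κ) / κ)) := by
    refine Real.rpow_le_rpow_of_exponent_le hX1 ?_
    rw [neg_mul]
    linarith
  calc _ ≤ ((2 * n : ℕ) : ℝ) ^ (-(1 + α + 3 * ε / 4)) * 1 :=
        mul_le_mul_of_nonneg_left h3 (Real.rpow_nonneg hX0.le _)
    _ ≤ _ := by rw [mul_one]; exact h4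

/-- the same inequality, `PolyV.pack` (compare `poly_right`) -/
theorem expPot_poly (C : Chain) {φ : ℤ → ℝ} (h0 : ∀ x, 0 ≤ φ x) (hX : ExpPot C φ) {A : ℝ}
    (hK : ∀ᶠ n : ℕ in atTop, ((2 * n : ℕ) : ℝ) ^ (-A) ≤ K0 C (2 * n) 0) :
    ∀ η : ℝ, 0 < η → ∃ c A' : ℝ, 0 < c ∧ 0 ≤ A' ∧ ∀ n : ℕ, 1 ≤ n →
      c * (n : ℝ) ^ (-A') ≤ Kv C (fun z => -η * φ z) (2 * n) 0 := by
  intro η hη
  obtain ⟨κ, B, hκ, hB⟩ := hX
  have hB1 : 0 < max B 1 := lt_of_lt_of_le one_pos (le_max_right _ _)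
  refine PolyV.pack (fun n hn => HZ.Kv_even_pos C _ hn) (A := A)
    (B := max B 1 ^ (η / (η + κ))) (p := (η + κ) / κ) (Real.rpow_pos_of_pos hB1 _) ?_
  filter_upwards [hK] with n hn
  exact XLow.low C hη hκ hB1 (2 * n) 0 (XLow.term hB (2 * n))
    (Real.rpow_nonneg (Nat.cast_nonneg _) _) hn

/-- the same for the excursions to the right: `HZ.interp_K` at `x = 1`, length `2n - 1`, and
`p(0,1) e^(-η φ 1) Kv (-η φ) (2n-1) 1 ≤ Kv (-η φ) (2n) 0` (`HZ.Kv_succ`) -/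
theorem expPotR_poly (C : Chain) {φ : ℤ → ℝ} (h0 : ∀ x, 0 ≤ φ x) (hX : ExpPotR C φ) {A : ℝ}
    (hK : ∀ᶠ n : ℕ in atTop, ((2 * n : ℕ) : ℝ) ^ (-A) ≤ C.p 0 1 * K0 C (2 * n - 1) 1) :
    ∀ η : ℝ, 0 < η → ∃ c A' : ℝ, 0 < c ∧ 0 ≤ A' ∧ ∀ n : ℕ, 1 ≤ n →
      c * (n : ℝ) ^ (-A') ≤ Kv C (fun z => -η * φ z) (2 * n) 0 := by
  intro η hη
  obtain ⟨κ, B, hκ, hB⟩ := hX
  have hB1 : 0 < max B 1 := lt_of_lt_of_le one_pos (le_max_right _ _)
  have hBt : 0 < max B 1 ^ (η / (η + κ)) := Real.rpow_pos_of_pos hB1 _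
  have hp : 0 < C.p 0 1 := by
    have := C.up 0
    rwa [zero_add] at this
  have hq : 0 < C.p 0 1 * Real.exp (-η * φ 1) := mul_pos hp (Real.exp_pos _)
  obtain ⟨c, A', hc, hA', h⟩ := PolyV.pack
    (f := fun n => (C.p 0 1 * Real.exp (-η * φ 1))⁻¹ * Kv C (fun z => -η * φ z) (2 * n) 0)
    (fun n hn => mul_pos (inv_pos.2 hq) (HZ.Kv_even_pos C _ hn)) (A := A)
    (B := C.p 0 1 * max B 1 ^ (η / (η + κ))) (p := (η + κ) / κ) (mul_pos hp hBt) (by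
      filter_upwards [hK, eventually_ge_atTop 1] with n hn hn1
      have h1 : ((2 * n : ℕ) : ℝ) ^ (-A) / C.p 0 1 ≤ K0 C (2 * n - 1) 1 := by
        rw [div_le_iff₀ hp, mul_comm (K0 C (2 * n - 1) 1)]
        exact hn
      have h2 := XLow.low C hη hκ hB1 (2 * n - 1) 1 (XLow.term hB (2 * n - 1))
        (div_nonneg (Real.rpow_nonneg (Nat.cast_nonneg _) _) hp.le) h1
      rw [div_div] at h2
      refine h2.trans ?_
      rw [le_inv_mul_iff₀ hq]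
      have h3 : 2 * n = (2 * n - 1) + 1 := by omega
      have h4 := HZ.Kv_split C (fun z => -η * φ z) (2 * n - 1)
      rw [← h3] at h4
      rw [h4]
      exact (HZ.Es_ge C (fun z => -η * φ z) 1 (2 * n - 1)).trans
        (le_add_of_nonneg_right (HZ.Es_nonneg C (fun z => -η * φ z) (-1) (2 * n - 1))))
  refine ⟨c * (C.p 0 1 * Real.exp (-η * φ 1)), A', mul_pos hc hq, hA', fun n hn => ?_⟩
  have h5 := h n hn
  rw [le_inv_mul_iff₀ hq] at h5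
  linarith

end

end Pool.Agent.HG
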