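import Pool.Agent.Lib.MP_daa227_pr_HG.XDef

/-!
# MP_daa227_pr, exponential moments of the potential: one excursion, uniformly in the exponents
-/

namespace Pool.Agent.HG

open MeasureTheory ProbabilityTheory Finset Filter Topology
open MP_daa227_pr (Chain Zk Zf Gk Gf KU K0 Ren shift seqLaw ExpMom DepOn Good GoodW mom)
open Pool.Agent.HZ (Mod Kv lmg)
open Pool.Agent.IOrd (Sys aS cv)

noncomputable section

namespace XSide

/-- the right side: the normalised minimal solution for the exponents `κ φ` -/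
theorem right_side (C : Chain) {φ : ℤ → ℝ} {Φ : ℝ} (h0 : ∀ x, 0 ≤ φ x) (h1 : ∀ x, φ x ≤ Φ)
    (hX : ExpPotR C φ) :
    ∃ (g : ℤ → ℝ) (κ₀ B : ℝ), 0 < κ₀ ∧ 0 < B ∧ g 0 = 1 ∧ (∀ x, 0 ≤ g x) ∧
      ∀ v : ℤ → ℝ, (∀ z, v z ≤ κ₀ * φ z) → ∀ (N : ℕ) (x : ℤ), 1 ≤ x →
        ∑ i ∈ range N, AS.Nn C v (fun z => φ z * g z) i x ≤ B * g x ∧
          ∑ n ∈ range N, Kv C v n x ≤ B * g x := by
  obtain ⟨κ, B, hκ, hB⟩ := hX
  obtain ⟨f, hf, hS⟩ := HZ.min_sol C (fun z => κ * φ z) hB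
  have hΦ : 0 ≤ Φ := (h0 0).trans (h1 0)
  have hf0 : 0 < f 0 := hf 0 le_rfl
  set g : ℤ → ℝ := fun x => if 0 ≤ x then f x / f 0 else 1 with hg
  have hgp : ∀ x, 0 ≤ x → g x = f x / f 0 := fun x hx => if_pos hx
  have hg0 : g 0 = 1 := by rw [hgp 0 le_rfl, div_self hf0.ne']
  have hgn : ∀ x, 0 ≤ g x := by
    intro x
    by_cases hx : 0 ≤ x
    · rw [hgp x hx]
      exact div_nonneg (hf x hx).le hf0.le
    · rw [hg]
      simp only [if_neg hx]
      exact zero_le_one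
  -- the supersolution property
  have hgs : ∀ x : ℤ, 1 ≤ x → C.p x 0 * Real.exp (κ * φ 0) +
      ∑ z ∈ Finset.Icc (x - 1) (x + 1) \ {0}, C.p x z * Real.exp (κ * φ z) * g z ≤ g x := by
    intro x hx
    have h2 := HZ.nb_split C x (fun z => κ * φ z) g
    rw [HZ.sum_nb x (fun z => C.p x z * Real.exp (κ * φ z) * g z), hg0, mul_one] at h2
    rw [h2, hgp (x - 1) (by omega), hgp x (by omega), hgp (x + 1) (by omega)]
    have h3 := hS x (by omega)
    have h4 := div_le_div_of_nonneg_right h3 hf0.le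
    refine le_trans (le_of_eq ?_) h4
    ring
  have hp0 : ∀ x : ℤ, 0 ≤ C.p x 0 * Real.exp (κ * φ 0) := fun x =>
    mul_nonneg (C.nonneg _ _) (Real.exp_pos _).le
  have hκφ : ∀ z, 0 ≤ κ * φ z := fun z => mul_nonneg hκ.le (h0 z)
  refine ⟨g, κ / 2, 2 / κ + Φ + 1, by positivity, by positivity, hg0, hgn,
    fun v hv N x hx => ⟨?_, ?_⟩⟩
  · have hmain := LSid.nn_sup C v (fun z => φ z * g z) (fun z => (2 / κ + φ z) * g z)
      LSid.cl_pos (fun x _ => mul_nonneg (add_nonneg (by positivity) (h0 x)) (hgn x))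
      (fun x hx => ?_) N x hx
    · refine hmain.trans ?_
      exact mul_le_mul_of_nonneg_right (by linarith [h1 x]) (hgn x)
    · have h2 : ∑ z ∈ Finset.Icc (x - 1) (x + 1) \ {0},
          C.p x z * Real.exp (v z) * ((2 / κ + φ z) * g z) ≤
          ∑ z ∈ Finset.Icc (x - 1) (x + 1) \ {0},
            (2 / κ) * (C.p x z * Real.exp (κ * φ z) * g z) := by
        refine Finset.sum_le_sum fun z _ => ?_
        have h3 : Real.exp (v z) ≤ Real.exp (κ / 2 * φ z) := Real.exp_le_exp.2 (hv z)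
        have h4 : 2 / κ + φ z ≤ 2 / κ * Real.exp (κ / 2 * φ z) := by
          have h5 := Real.add_one_le_exp (κ / 2 * φ z)
          have h6 : 2 / κ * (κ / 2 * φ z + 1) ≤ 2 / κ * Real.exp (κ / 2 * φ z) :=
            mul_le_mul_of_nonneg_left h5 (by positivity)
          have h7 : 2 / κ * (κ / 2 * φ z + 1) = 2 / κ + φ z := by
            field_simp
            ring
          linarith
        have h8 : Real.exp (κ / 2 * φ z) * Real.exp (κ / 2 * φ z) = Real.exp (κ * φ z) := by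
          rw [← Real.exp_add]
          congr 1
          ring
        have h9 : Real.exp (v z) * (2 / κ + φ z) ≤ 2 / κ * Real.exp (κ * φ z) := by
          calc Real.exp (v z) * (2 / κ + φ z)
              ≤ Real.exp (κ / 2 * φ z) * (2 / κ * Real.exp (κ / 2 * φ z)) :=
                mul_le_mul h3 h4 (add_nonneg (by positivity) (h0 z)) (Real.exp_pos _).le
            _ = 2 / κ * Real.exp (κ * φ z) := by rw [← h8]; ring
        have h10 := mul_le_mul_of_nonneg_left h9 (mul_nonneg (C.nonneg x z) (hgn z))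
        calc C.p x z * Real.exp (v z) * ((2 / κ + φ z) * g z)
            = C.p x z * g z * (Real.exp (v z) * (2 / κ + φ z)) := by ring
          _ ≤ C.p x z * g z * (2 / κ * Real.exp (κ * φ z)) := h10
          _ = _ := by ring
      rw [← Finset.mul_sum] at h2
      have h3 := hgs x hx
      have h4 : (2 / κ) * ∑ z ∈ Finset.Icc (x - 1) (x + 1) \ {0},
          C.p x z * Real.exp (κ * φ z) * g z ≤ (2 / κ) * g x :=
        mul_le_mul_of_nonneg_left (by linarith [hp0 x]) (by positivity)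
      calc φ x * g x + ∑ z ∈ Finset.Icc (x - 1) (x + 1) \ {0},
            C.p x z * Real.exp (v z) * ((2 / κ + φ z) * g z)
          ≤ φ x * g x + (2 / κ) * g x := by linarith
        _ = (2 / κ + φ x) * g x := by ring
  · have hev : ∀ z, Real.exp (v z) ≤ Real.exp (κ * φ z) := fun z =>
      Real.exp_le_exp.2 ((hv z).trans (by linarith [hκφ z]))
    have hmain := LSid.kv_sup C v g LSid.cl_pos (fun x _ => hgn x) (fun x hx => ?_) N x hx
    · refine hmain.trans ?_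
      have h2 : 1 * g x ≤ (2 / κ + Φ + 1) * g x :=
        mul_le_mul_of_nonneg_right (by
          have : 0 ≤ 2 / κ := by positivity
          linarith) (hgn x)
      linarith
    · refine le_trans (add_le_add ?_ (Finset.sum_le_sum fun z _ => ?_)) (hgs x hx)
      · exact mul_le_mul_of_nonneg_left (hev 0) (C.nonneg _ _)
      · exact mul_le_mul_of_nonneg_right
          (mul_le_mul_of_nonneg_left (hev z) (C.nonneg _ _)) (hgn z)

end XSide

/-- The analogue of `side` (Lib/MP_daa227_pr_HG/LSid.lean), simpler. `hX.right` and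
`hX.cneg.right` bound the sums of `Kv (κ φ)` at `1` and (reflected, `HZ.Kv_cneg`) at `-1`.
`HZ.min_sol` for `C`, `κ φ` and for `HZ.cneg C`, `κ φ(-·)`: positive functions `f`, `f'` on
`x ≥ 0`, supersolutions for these exponents. Put `w x = f x / f 0` for `x ≥ 0`,
`w x = f' (-x) / f' 0` for `x < 0`; `w 0 = 1`. Take `κ₀ = κ/2` and `D = 2/κ`. On `x ≥ 1`
(`LSid.cl_pos`), for `v ≤ κ₀ φ`: `LSid.kv_sup` with `T = w` (`e^v ≤ e^(κ φ)`; the term of `z = 0` is
`p(x,0) e^(v 0) ≤ p(x,0) e^(κ φ 0) w 0`), and `LSid.nn_sup` for the weight `φ w` with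
`T = (D + φ) w`: `e^(κ φ/2) (D + φ) ≤ D e^(κ φ)` because `1 + φ/D = 1 + κ φ/2 ≤ e^(κ φ/2)`. The same to
the left by reflection (`LSid.nn_cneg`, `HZ.Kv_cneg`, `LSid.nn_congr`), and at `x = 0` by the first
step exactly as at the end of the proof of `side` (`LSid.nsum_succ`, `HZ.psum_succ`,
`HZ.nb_zero`). -/
theorem sideX (C : Chain) {φ : ℤ → ℝ} {Φ : ℝ} (h0 : ∀ x, 0 ≤ φ x) (h1 : ∀ x, φ x ≤ Φ)
    (hX : ExpPot C φ) :
    ∃ (w : ℤ → ℝ) (κ₀ B : ℝ), 0 < κ₀ ∧ 1 ≤ B ∧ w 0 = 1 ∧ (∀ x, 0 ≤ w x) ∧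
      ∀ v : ℤ → ℝ, (∀ z, v z ≤ κ₀ * φ z) → ∀ (N : ℕ) (x : ℤ),
        ∑ i ∈ range N, AS.Nn C v (fun z => φ z * w z) i x ≤ B * w x ∧
          ∑ n ∈ range N, Kv C v n x ≤ B * w x := by
  have hΦ : 0 ≤ Φ := (h0 0).trans (h1 0)
  obtain ⟨g₁, κ₁, B₁, hκ₁, hB₁, hg₁0, hg₁, hR1⟩ := XSide.right_side C h0 h1 hX.right
  obtain ⟨g₂, κ₂, B₂, hκ₂, hB₂, hg₂0, hg₂, hL1⟩ := XSide.right_side (HZ.cneg C)
    (fun x => h0 (-x)) (fun x => h1 (-x)) hX.cneg.right
  set w : ℤ → ℝ := fun x => if 0 ≤ x then g₁ x else g₂ (-x) with hw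
  have hwpos : ∀ x, 0 ≤ x → w x = g₁ x := fun x hx => if_pos hx
  have hwneg : ∀ x, x ≤ -1 → w x = g₂ (-x) := fun x hx => if_neg (by omega)
  have hw0 : ∀ x, 0 ≤ w x := by
    intro x
    rcases le_or_gt 0 x with hx | hx
    · rw [hwpos x hx]
      exact hg₁ x
    · rw [hwneg x (by omega)]
      exact hg₂ (-x)
  set κ : ℝ := min κ₁ κ₂ with hκ
  have hκ0 : 0 < κ := lt_min hκ₁ hκ₂
  have hE := Real.exp_pos (κ * Φ)
  set B : ℝ := 1 + B₁ + B₂ + Φ + Real.exp (κ * Φ) * (1 + B₁ * g₁ 1 + B₂ * g₂ 1) with hBdef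
  have hBw1 : 0 ≤ B₁ * g₁ 1 := mul_nonneg hB₁.le (hg₁ _)
  have hBw : 0 ≤ B₂ * g₂ 1 := mul_nonneg hB₂.le (hg₂ _)
  have hEB : 0 ≤ Real.exp (κ * Φ) * (1 + B₁ * g₁ 1 + B₂ * g₂ 1) :=
    mul_nonneg hE.le (by linarith)
  refine ⟨w, κ, B, hκ0, by linarith, by rw [hwpos 0 le_rfl, hg₁0], hw0, fun v hv => ?_⟩
  have hv1 : ∀ z, v z ≤ κ₁ * φ z := fun z =>
    (hv z).trans (mul_le_mul_of_nonneg_right (min_le_left _ _) (h0 z))
  have hv2 : ∀ z, v z ≤ κ₂ * φ z := fun z =>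
    (hv z).trans (mul_le_mul_of_nonneg_right (min_le_right _ _) (h0 z))
  have hev : ∀ z, Real.exp (v z) ≤ Real.exp (κ * Φ) := fun z =>
    Real.exp_le_exp.2 ((hv z).trans (mul_le_mul_of_nonneg_left (h1 z) hκ0.le))
  -- to the right of `0`
  have hr : ∀ (N : ℕ) (x : ℤ), 1 ≤ x →
      ∑ i ∈ range N, AS.Nn C v (fun z => φ z * w z) i x ≤ B₁ * g₁ x ∧
        ∑ n ∈ range N, Kv C v n x ≤ B₁ * g₁ x := by
    intro N x hx
    obtain ⟨h2, h3⟩ := hR1 v hv1 N x hx
    refine ⟨?_, h3⟩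
    refine le_trans (le_of_eq ?_) h2
    refine Finset.sum_congr rfl fun i _ => ?_
    refine LSid.nn_congr C v _ _ LSid.cl_pos (fun z hz => ?_) i x hx
    have hz1 : (1 : ℤ) ≤ z := hz
    rw [hwpos z (by omega)]
  -- to the left of `0`
  have hl : ∀ (N : ℕ) (x : ℤ), x ≤ -1 →
      ∑ i ∈ range N, AS.Nn C v (fun z => φ z * w z) i x ≤ B₂ * g₂ (-x) ∧
        ∑ n ∈ range N, Kv C v n x ≤ B₂ * g₂ (-x) := by
    intro N x hx
    obtain ⟨h2, h3⟩ := hL1 (fun z => v (-z)) (fun z => hv2 (-z)) N (-x) (by omega)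
    have h4 : ∀ i, AS.Nn (HZ.cneg C) (fun z => v (-z)) (fun z => φ (-z) * g₂ z) i (-x) =
        AS.Nn C v (fun z => φ z * w z) i x := fun i => by
      have h6 := LSid.nn_cneg C v (fun z => φ z * w z) i (-x)
      rw [neg_neg] at h6
      rw [← h6]
      refine LSid.nn_congr (HZ.cneg C) _ _ _ LSid.cl_pos (fun z hz => ?_) i (-x)
        (show (1 : ℤ) ≤ -x by omega)
      have hz1 : (1 : ℤ) ≤ z := hz
      rw [hwneg (-z) (by omega), neg_neg]
    have h5 : ∀ n, Kv (HZ.cneg C) (fun z => v (-z)) n (-x) = Kv C v n x := fun n => by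
      rw [HZ.Kv_cneg, neg_neg]
    simp only [h4] at h2
    simp only [h5] at h3
    exact ⟨h2, h3⟩
  have hp1 : ∀ y, C.p 0 y ≤ 1 := by
    intro y
    by_cases hy : y ∈ Finset.Icc ((0 : ℤ) - 1) (0 + 1)
    · rw [← C.sum_one 0]
      exact Finset.single_le_sum (f := fun y => C.p 0 y) (fun z _ => C.nonneg 0 z) hy
    · rw [C.near 0 y hy]
      exact zero_le_one
  intro N x
  rcases lt_trichotomy x 0 with hx | hx | hx
  · obtain ⟨h2, h3⟩ := hl N x (by omega)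
    rw [hwneg x (by omega)]
    have h4 : B₂ * g₂ (-x) ≤ B * g₂ (-x) := mul_le_mul_of_nonneg_right (by linarith) (hg₂ _)
    exact ⟨h2.trans h4, h3.trans h4⟩
  · subst hx
    rw [hwpos 0 le_rfl, hg₁0, mul_one]
    cases N with
    | zero =>
      simp only [Finset.range_zero, Finset.sum_empty]
      have : 0 ≤ B := by linarith
      exact ⟨this, this⟩
    | succ N =>
      obtain ⟨h2, h3⟩ := hr N 1 le_rfl
      obtain ⟨h4, h5⟩ := hl N (-1) le_rfl
      rw [neg_neg] at h4 h5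
      have key : ∀ a b : ℝ, 0 ≤ a → 0 ≤ b → a ≤ B₁ * g₁ 1 → b ≤ B₂ * g₂ 1 →
          C.p 0 1 * Real.exp (v 1) * a + C.p 0 (-1) * Real.exp (v (-1)) * b ≤
          Real.exp (κ * Φ) * (B₁ * g₁ 1 + B₂ * g₂ 1) := by
        intro a b ha hb ha1 hb1
        have h6 : C.p 0 1 * Real.exp (v 1) * a ≤ 1 * Real.exp (κ * Φ) * (B₁ * g₁ 1) :=
          mul_le_mul (mul_le_mul (hp1 1) (hev 1) (Real.exp_pos _).le zero_le_one) ha1 ha
            (mul_nonneg zero_le_one hE.le)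
        have h7 : C.p 0 (-1) * Real.exp (v (-1)) * b ≤ 1 * Real.exp (κ * Φ) * (B₂ * g₂ 1) :=
          mul_le_mul (mul_le_mul (hp1 (-1)) (hev (-1)) (Real.exp_pos _).le zero_le_one) hb1 hb
            (mul_nonneg zero_le_one hE.le)
        linarith
      have h10 : Real.exp (κ * Φ) * (1 + B₁ * g₁ 1 + B₂ * g₂ 1) =
          Real.exp (κ * Φ) + Real.exp (κ * Φ) * (B₁ * g₁ 1 + B₂ * g₂ 1) := by ring
      constructor
      · rw [LSid.nsum_succ, HZ.nb_zero, Finset.sum_pair (by norm_num)]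
        have hη : ∀ z, 0 ≤ φ z * w z := fun z => mul_nonneg (h0 z) (hw0 z)
        have hn : ∀ y, 0 ≤ ∑ i ∈ range N, AS.Nn C v (fun z => φ z * w z) i y := fun y =>
          Finset.sum_nonneg fun i _ => LSid.nn_nonneg C v hη i y
        have h8 := key _ _ (hn 1) (hn (-1)) h2 h4
        have h9 := h1 0
        rw [hwpos 0 le_rfl, hg₁0, mul_one]
        linarith
      · rw [HZ.psum_succ, HZ.nb_zero, Finset.sum_pair (by norm_num)]
        have hn : ∀ y, 0 ≤ ∑ n ∈ range N, Kv C v n y := fun y => HZ.psum_nonneg C v N y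
        have h8 := key _ _ (hn 1) (hn (-1)) h3 h5
        have h9 : (if N = 0 then 0 else C.p 0 0 * Real.exp (v 0)) ≤ Real.exp (κ * Φ) := by
          split_ifs
          · exact hE.le
          · have h11 : C.p 0 0 * Real.exp (v 0) ≤ 1 * Real.exp (κ * Φ) :=
              mul_le_mul (hp1 0) (hev 0) (Real.exp_pos _).le zero_le_one
            linarith
        linarith
  · obtain ⟨h2, h3⟩ := hr N x (by omega)
    rw [hwpos x (by omega)]
    have h4 : B₁ * g₁ x ≤ B * g₁ x := mul_le_mul_of_nonneg_right (by linarith) (hg₁ _)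
    exact ⟨h2.trans h4, h3.trans h4⟩

end

end Pool.Agent.HG
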