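import Pool.Agent.Lib.MP_daa227_pr_HG.XScale
import Pool.Agent.Lib.MP_daa227_pr_HG.XBd
import Pool.Agent.Lib.MP_daa227_pr_HG.BPoly
import Pool.Agent.Lib.MP_daa227_pr_HG.PolyOne
import Pool.Agent.Lib.MP_daa227_pr_HZ.AnnFree
import Pool.Agent.Lib.MP_daa227_pr_HG.TMain

/-!
# MP_daa227_pr, Bessel-like chains and potentials `c / x²`: the statements for the model
-/

namespace Pool.Agent.HG

open MeasureTheory ProbabilityTheory Finset Filter Topology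
open MP_daa227_pr (Chain Zk Zf Gk Gf KU K0 Ren shift seqLaw ExpMom DepOn Good GoodW mom)
open Pool.Agent.HZ (Mod Kv lmg)
open Pool.Agent.IOrd (Sys aS cv)

noncomputable section

/-- `a h` is the exponent of the excursions penalised by `exp (-h φ)` -/
def RootExp (C : Chain) (φ : ℤ → ℝ) (ℓ : ℝ) (a : ℝ → ℝ) : Prop :=
  ∃ m α c : ℝ, 0 ≤ α ∧ 0 ≤ c ∧ 0 < α + c ∧ Bes C φ m α c ∧
    ((0 < ℓ ∧ ∀ h, a h = Real.sqrt (α ^ 2 + 2 * h * c)) ∨
      ∃ m' α' c' : ℝ, 0 ≤ α' ∧ 0 ≤ c' ∧ 0 < α' + c' ∧ Bes (HZ.cneg C) (fun z => φ (-z)) m' α' c' ∧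
        ∀ h, a h = min (Real.sqrt (α ^ 2 + 2 * h * c)) (Real.sqrt (α' ^ 2 + 2 * h * c')))

namespace InvSq

theorem root_pos {α c h : ℝ} (hα : 0 ≤ α) (hc : 0 ≤ c) (hs : 0 < α + c) (hh : 0 < h) :
    0 < Real.sqrt (α ^ 2 + 2 * h * c) := by
  apply Real.sqrt_pos.2
  rcases hα.eq_or_lt with h0 | h0
  · have hc0 : 0 < c := by linarith
    positivity
  · positivity

theorem root_mono {α c h h' : ℝ} (hc : 0 ≤ c) (hh : h ≤ h') :
    Real.sqrt (α ^ 2 + 2 * h * c) ≤ Real.sqrt (α ^ 2 + 2 * h' * c) := by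
  apply Real.sqrt_le_sqrt
  nlinarith

end InvSq

variable {C : Chain} {φ : ℤ → ℝ} {ℓ : ℝ} {a : ℝ → ℝ}

theorem RootExp.pos (H : RootExp C φ ℓ a) {h : ℝ} (hh : 0 < h) : 0 < a h := by
  obtain ⟨m, α, c, hα, hc, hs, hB, H⟩ := H
  rcases H with ⟨_, ha⟩ | ⟨m', α', c', hα', hc', hs', hB', ha⟩
  · rw [ha]
    exact InvSq.root_pos hα hc hs hh
  · rw [ha]
    exact lt_min (InvSq.root_pos hα hc hs hh) (InvSq.root_pos hα' hc' hs' hh)

theorem RootExp.mono (H : RootExp C φ ℓ a) {h h' : ℝ} (hh : h ≤ h') : a h ≤ a h' := by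
  obtain ⟨m, α, c, hα, hc, hs, hB, H⟩ := H
  rcases H with ⟨_, ha⟩ | ⟨m', α', c', hα', hc', hs', hB', ha⟩
  · rw [ha, ha]
    exact InvSq.root_mono hc hh
  · rw [ha, ha]
    exact min_le_min (InvSq.root_mono hc hh) (InvSq.root_mono hc' hh)

theorem RootExp.besExp {M : Mod} (H : RootExp M.C M.φ M.ℓ a) (h : ℝ) : BesExp M h (a h) := by
  obtain ⟨m, α, c, hα, hc, hs, hB, H⟩ := H
  refine ⟨m, α, c, hα, hc, hB, ?_⟩
  rcases H with ⟨hℓ, ha⟩ | ⟨m', α', c', hα', hc', hs', hB', ha⟩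
  · exact Or.inl ⟨hℓ, ha h⟩
  · exact Or.inr ⟨m', α', c', hα', hc', hB', ha h⟩

/-- polynomial cost, with one penalty -/
theorem bes_cost {C : Chain} (hrec : HasSum (fun n : ℕ => K0 C (n + 1) 0) 1) {φ : ℤ → ℝ}
    (h0 : ∀ x, 0 ≤ φ x) {m α c : ℝ} (h : Bes C φ m α c) (hα : 0 ≤ α) (hc : 0 ≤ c)
    (hs : 0 < α + c) : ∃ A : ℝ, ∀ᶠ n : ℕ in atTop,
      ((2 * n : ℕ) : ℝ) ^ (-A) ≤ Kv C (fun z => -1 * φ z) (2 * n) 0 := by
  obtain ⟨A, hA⟩ := bes_poly hrec h0 h hα hc zero_le_one (InvSq.root_pos hα hc hs one_pos)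
  have hp : 0 < C.p 0 1 := by
    have := C.up 0
    rwa [zero_add] at this
  set q : ℝ := C.p 0 1 * Real.exp (-1 * φ 1) with hq
  have hq0 : 0 < q := mul_pos hp (Real.exp_pos _)
  refine ⟨max A 0 + 1, WPoly.absorb (A := max A 0) (by linarith) hq0 ?_⟩
  filter_upwards [(tendsto_sub_atTop_nat 1).eventually hA, eventually_ge_atTop 2] with n hn hn1
  have h1 : 2 * n = (2 * (n - 1) + 1) + 1 := by omega
  have h2 : q * Kv C (fun z => -1 * φ z) (2 * (n - 1) + 1) 1 ≤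
      Kv C (fun z => -1 * φ z) (2 * n) 0 := by
    rw [h1, HZ.Kv_split, HZ.Es_pos_n C (fun z => -1 * φ z) 1 (by omega)]
    have h5 : 2 * (n - 1) + 1 + 1 - 1 = 2 * (n - 1) + 1 := by omega
    exact le_add_of_nonneg_right (HZ.Es_nonneg _ _ _ _)
  refine le_trans (mul_le_mul_of_nonneg_left (le_trans ?_ hn) hq0.le) h2
  have h3 : (1 : ℝ) ≤ ((n - 1 : ℕ) : ℝ) := by exact_mod_cast (by omega : 1 ≤ n - 1)
  calc ((2 * n : ℕ) : ℝ) ^ (-max A 0) ≤ ((n - 1 : ℕ) : ℝ) ^ (-max A 0) := by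
        refine Real.rpow_le_rpow_of_nonpos (by linarith) ?_ (by
          have := le_max_right A 0
          linarith)
        exact_mod_cast (by omega : n - 1 ≤ 2 * n)
    _ ≤ ((n - 1 : ℕ) : ℝ) ^ (-A) := Real.rpow_le_rpow_of_exponent_le h3 (by
        have := le_max_left A 0
        linarith)

theorem RootExp.poly {M : Mod} (H : RootExp M.C M.φ M.ℓ a) : PolyCost M := by
  obtain ⟨m, α, c, hα, hc, hs, hB, _⟩ := H
  obtain ⟨A, hA⟩ := bes_cost M.hrec M.φ_nonneg hB hα hc hs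
  exact poly_one M.C M.φ_nonneg one_pos hA

/-- a bounded moment at the critical point: the exponent is at most one half, and its inverse is the
order -/
theorem RootExp.exact {M : Mod} (H : RootExp M.C M.φ M.ℓ a) {hc p K : ℝ} (hc0 : 0 < hc)
    (hcrit : ∀ h, 0 < M.Fr h ↔ h < hc) (hp : 1 < p)
    (hb : ∀ n : ℕ, mom M.μ p (fun ω => M.Z hc (2 * n) ω) ≤ ENNReal.ofReal K) :
    a hc ≤ 1 / 2 ∧ ∀ ε : ℝ, 0 < ε →
      (∀ᶠ δ in 𝓝[>] (0 : ℝ), δ ^ (1 / a hc + ε) ≤ M.Fr (hc - δ)) ∧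
      ∀ᶠ δ in 𝓝[>] (0 : ℝ), M.Fr (hc - δ) ≤ δ ^ (1 / a hc - ε) := by
  have ha := H.pos hc0
  have hU := besExp_kuw M hc0 ha (H.besExp hc)
  have h1 := alpha_le_pen H.poly hc0 hcrit hp hb hU
  have h2 : a hc ≤ 1 / 2 := by
    rcases min_le_iff.1 h1 with h | h
    · exact h
    · norm_num at h
  refine ⟨h2, fun ε hε => ?_⟩
  rw [min_eq_left (by linarith)] at hU
  exact exact_pen H.poly hc0 hcrit hp hb ha
    (fun ε hε => besExp_low M hc0.le ha (by linarith) (H.besExp hc) hε) hU hε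

/-- exponent larger than one half: no moment of order larger than one is bounded -/
theorem RootExp.unbd {M : Mod} (H : RootExp M.C M.φ M.ℓ a) {hc : ℝ} (hc0 : 0 < hc)
    (hcrit : ∀ h, 0 < M.Fr h ↔ h < hc) (ha : 1 / 2 < a hc) : Unbd M hc := by
  intro p hp K
  by_contra hcon
  push Not at hcon
  have := (H.exact hc0 hcrit hp hcon).1
  linarith

/-- `FTail` from the penalised tail with zero penalty -/
theorem bes_ftail {C : Chain} {φ : ℤ → ℝ} (h0 : ∀ x, 0 ≤ φ x) {m α c : ℝ} (h : Bes C φ m α c)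
    (hα : 0 < α) (hc : 0 ≤ c) {b : ℝ} (hb : 0 < b) (hb1 : b ≤ 1) (hbα : b < α) : FTail C b := by
  obtain ⟨A, hA0, hA⟩ := bes_up h0 h hα.le hc le_rfl hb hb1 (by
    rw [mul_zero, zero_mul, add_zero, Real.sqrt_sq hα.le]
    exact hbα)
  refine ⟨A, hA0, fun s hs hs1 N => le_trans (le_of_eq ?_) (hA s hs hs1 N)⟩
  refine Finset.sum_congr rfl fun n _ => ?_
  have h1 : (fun z => -0 * φ z) = fun _ : ℤ => (0 : ℝ) := by
    funext z
    rw [neg_zero, zero_mul]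
  rw [h1, HZ.Kv_K0]

/-- exponentially short excursions have all tails -/
theorem ftail_expLeft {C : Chain} (hL : ExpLeft C) {b : ℝ} (hb : 0 < b) (hb1 : b ≤ 1) :
    FTail (HZ.cneg C) b := by
  obtain ⟨c, B, hc, hB⟩ := hL
  have hsum : Summable fun n : ℕ => (n : ℝ) ^ (1 : ℝ) * (B * Real.exp (-(c * n))) := by
    have h1 := Real.summable_pow_mul_exp_neg_nat_mul 1 hc
    have h2 := h1.mul_left B
    refine h2.congr fun n => ?_
    rw [Real.rpow_one, pow_one]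
    have : -c * (n : ℝ) = -(c * n) := by ring
    rw [this]
    ring
  have hB0 : 0 ≤ B := by
    have h1 := hB 0
    have h2 : K0 C 0 (-1) = 0 := rfl
    rw [h2, Nat.cast_zero, mul_zero, neg_zero, Real.exp_zero, mul_one] at h1
    exact h1
  set T : ℝ := ∑' n : ℕ, (n : ℝ) ^ (1 : ℝ) * (B * Real.exp (-(c * n))) with hT
  have hnn : ∀ n : ℕ, 0 ≤ (n : ℝ) ^ (1 : ℝ) * (B * Real.exp (-(c * n))) := fun n => by positivity
  refine ⟨T, tsum_nonneg hnn, fun s hs hs1 N => ?_⟩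
  have h1 : ∀ n : ℕ, K0 (HZ.cneg C) n 1 * (1 - Real.exp (-(s * n))) ≤
      s * ((n : ℝ) ^ (1 : ℝ) * (B * Real.exp (-(c * n)))) := by
    intro n
    have h2 : K0 (HZ.cneg C) n 1 = K0 C n (-1) := by
      have h5 := HZ.Kv_cneg C (fun _ => 0) n 1
      rw [HZ.Kv_K0, HZ.Kv_K0] at h5
      exact h5
    have h3 : 1 - Real.exp (-(s * n)) ≤ s * n := by
      have := Real.add_one_le_exp (-(s * n))
      linarith
    have h4 : 0 ≤ s * (n : ℝ) := by positivity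
    rw [h2, Real.rpow_one]
    calc K0 C n (-1) * (1 - Real.exp (-(s * n))) ≤ K0 C n (-1) * (s * n) :=
          mul_le_mul_of_nonneg_left h3 (MP_daa227_pr.K0_nonneg _ _ _)
      _ ≤ (B * Real.exp (-(c * n))) * (s * n) := mul_le_mul_of_nonneg_right (hB n) h4
      _ = _ := by ring
  refine (Finset.sum_le_sum fun n _ => h1 n).trans ?_
  rw [← Finset.mul_sum]
  have h2 := hsum.sum_le_tsum (Finset.range N) fun n _ => hnn n
  have h3 : s ≤ s ^ b := by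
    have := Real.rpow_le_rpow_of_exponent_ge hs hs1 hb1
    rwa [Real.rpow_one] at this
  calc s * ∑ n ∈ range N, (n : ℝ) ^ (1 : ℝ) * (B * Real.exp (-(c * n))) ≤ s * T :=
        mul_le_mul_of_nonneg_left h2 hs.le
    _ ≤ s ^ b * T := mul_le_mul_of_nonneg_right h3 (tsum_nonneg hnn)
    _ = _ := mul_comm _ _

/-- exponential moments on both sides -/
theorem expPot_join {C : Chain} {φ : ℤ → ℝ} (h0 : ∀ x, 0 ≤ φ x) (hR : ExpPotR C φ)
    (hL : ExpPotR (HZ.cneg C) (fun z => φ (-z))) : ExpPot C φ := by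
  obtain ⟨κ₁, B₁, hκ₁, hB₁⟩ := hR
  obtain ⟨κ₂, B₂, hκ₂, hB₂⟩ := hL
  set κ : ℝ := min κ₁ κ₂ with hκ
  have hκ0 : 0 < κ := lt_min hκ₁ hκ₂
  have e1 : ∀ N : ℕ, ∑ n ∈ range N, Kv C (fun z => κ * φ z) n 1 ≤ B₁ := fun N =>
    (Finset.sum_le_sum fun n _ => HZ.Kv_mono C (fun z =>
      mul_le_mul_of_nonneg_right (min_le_left _ _) (h0 z)) n 1).trans (hB₁ N)
  have e2 : ∀ N : ℕ, ∑ n ∈ range N, Kv C (fun z => κ * φ z) n (-1) ≤ B₂ := fun N => by
    refine le_trans (Finset.sum_le_sum fun n _ => ?_) (hB₂ N)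
    have h1 := HZ.Kv_cneg C (fun z => κ * φ z) n 1
    rw [← h1]
    exact HZ.Kv_mono _ (fun z => mul_le_mul_of_nonneg_right (min_le_right _ _) (h0 (-z))) n 1
  have hB10 : 0 ≤ B₁ := by simpa using e1 0
  have hB20 : 0 ≤ B₂ := by simpa using e2 0
  set E : ℝ := Real.exp (κ * φ 0) + Real.exp (κ * φ 1) * B₁ + Real.exp (κ * φ (-1)) * B₂ with hE
  have hE0 : 0 ≤ E := by positivity
  have hp1 := MP_daa227_pr.Chain.p_le_one C
  refine ⟨κ, E, hκ0, fun N => ?_⟩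
  rcases N with _ | N
  · simpa using hE0
  · rw [HZ.psum_succ, HZ.nb_zero, Finset.sum_pair (by norm_num)]
    have h3 : (if N = 0 then 0 else C.p 0 0 * Real.exp (κ * φ 0)) ≤ Real.exp (κ * φ 0) := by
      split_ifs
      · exact (Real.exp_pos _).le
      · exact mul_le_of_le_one_left (Real.exp_pos _).le (hp1 0 0)
    have h4 : C.p 0 1 * Real.exp (κ * φ 1) * ∑ n ∈ range N, Kv C (fun z => κ * φ z) n 1 ≤
        Real.exp (κ * φ 1) * B₁ :=
      mul_le_mul (mul_le_of_le_one_left (Real.exp_pos _).le (hp1 0 1)) (e1 N)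
        (HZ.psum_nonneg C _ N 1) (Real.exp_pos _).le
    have h5 : C.p 0 (-1) * Real.exp (κ * φ (-1)) *
        ∑ n ∈ range N, Kv C (fun z => κ * φ z) n (-1) ≤ Real.exp (κ * φ (-1)) * B₂ :=
      mul_le_mul (mul_le_of_le_one_left (Real.exp_pos _).le (hp1 0 (-1))) (e2 N)
        (HZ.psum_nonneg C _ N (-1)) (Real.exp_pos _).le
    linarith

/-- small inverse temperature -/
theorem RootExp.small {M : Mod} (H : RootExp M.C M.φ M.ℓ a) (ha0 : 0 < a 0) (ha1 : a 0 < 1 / 2)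
    (hL : 0 < M.ℓ → ExpLeft M.C) : ∃ β₀ : ℝ, 0 < β₀ ∧
      ∀ (b : ℝ) (hb : 0 < b), b ≤ β₀ → ∃ h₀ K : ℝ, 0 < h₀ ∧
        (∀ h, 0 < (withB M b hb).Fr h ↔ h < h₀) ∧
        ∀ n : ℕ, mom M.μ 2 (fun ω => (withB M b hb).Z h₀ (2 * n) ω) ≤ ENNReal.ofReal K := by
  have hlow : ∀ ε : ℝ, 0 < ε → ∀ᶠ n : ℕ in atTop,
      ((2 * n : ℕ) : ℝ) ^ (-(1 + a 0 + ε)) ≤ K0 M.C (2 * n) 0 := by
    intro ε hε
    filter_upwards [besExp_low M le_rfl ha0 (by linarith) (H.besExp 0) hε] with n hn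
    have h1 : (fun z => -0 * M.φ z) = fun _ : ℤ => (0 : ℝ) := by
      funext z
      rw [neg_zero, zero_mul]
    rw [h1, HZ.Kv_K0] at hn
    exact hn
  have hsq : ∀ {α c : ℝ}, 0 ≤ α → Real.sqrt (α ^ 2 + 2 * 0 * c) = α := fun h => by
    rw [mul_zero, zero_mul, add_zero, Real.sqrt_sq h]
  obtain ⟨m, α, c, hα, hc, hs, hB, H⟩ := H
  rcases H with ⟨hℓ, ha⟩ | ⟨m', α', c', hα', hc', hs', hB', ha⟩
  · rw [ha, hsq hα] at ha0
    have hX : ExpPot M.C M.φ := by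
      refine expPot_join M.φ_nonneg (bes_exp hB ha0) ?_
      obtain ⟨κ₀, hκ₀, h1⟩ := ldec_exp M.C M.φ_le M.Φ_pos (hL hℓ)
      obtain ⟨ε, hε, B, h2⟩ := h1 (fun z => κ₀ * M.φ z) (fun _ => le_rfl) M.φ_nonneg
      refine ⟨κ₀, B, hκ₀, fun N => le_trans (Finset.sum_le_sum fun n _ => ?_) (h2 N)⟩
      have h3 := HZ.Kv_cneg M.C (fun z => κ₀ * M.φ z) n 1
      rw [show (fun z => κ₀ * (fun z => M.φ (-z)) z) = fun z => κ₀ * M.φ (-z) from rfl]
      rw [h3]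
      exact HZ.Kv_mono M.C (fun z => by linarith) n (-1)
    have hb : 0 < min (α / 2) 1 := lt_min (by linarith) one_pos
    exact small_betaX M (α := a 0) (by rw [ha, hsq hα]; exact hα) ha1 hlow hX hb (min_le_right _ _)
      (bes_ftail M.φ_nonneg hB ha0 hc hb (min_le_right _ _)
        ((min_le_left _ _).trans_lt (by linarith)))
      (ftail_expLeft (hL hℓ) hb (min_le_right _ _))
  · rw [ha, hsq hα, hsq hα'] at ha0
    obtain ⟨h0, h0'⟩ := lt_min_iff.1 ha0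
    have hX : ExpPot M.C M.φ := expPot_join M.φ_nonneg (bes_exp hB h0) (bes_exp hB' h0')
    have hb : 0 < min (min α α' / 2) 1 := lt_min (by linarith) one_pos
    have hbα : min (min α α' / 2) 1 < min α α' := (min_le_left _ _).trans_lt (by linarith)
    exact small_betaX M (α := a 0) (by rw [ha, hsq hα, hsq hα']; exact ha0.le) ha1 hlow hX hb
      (min_le_right _ _)
      (bes_ftail M.φ_nonneg hB h0 hc hb (min_le_right _ _) (hbα.trans_le (min_le_left _ _)))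
      (bes_ftail (C := HZ.cneg M.C) (φ := fun z => M.φ (-z)) (fun x => M.φ_nonneg _) hB' h0' hc' hb
        (min_le_right _ _) (hbα.trans_le (min_le_right _ _)))

/-- large inverse temperature: the exponent at the critical point is larger than one half -/
theorem RootExp.large {M : Mod} (H : RootExp M.C M.φ M.ℓ a) {h₁ : ℝ} (ha : 1 / 2 < a h₁) :
    ∃ β₁ : ℝ, ∀ (b : ℝ) (hb : 0 < b), β₁ ≤ b → ∀ hc : ℝ,
      (∀ h, 0 < (withB M b hb).Fr h ↔ h < hc) → 1 / 2 < a hc := by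
  obtain ⟨h', h0', hcr'⟩ := crit (withB M 1 one_pos)
  refine ⟨max 1 (h₁ / h'), fun b hb hbb hc hcr => ?_⟩
  have h1 := hc_scale M one_pos hb ((le_max_left _ _).trans hbb) hcr' hcr
  rw [div_one] at h1
  have h2 : h₁ ≤ b * h' := by
    have h3 := (le_max_right 1 (h₁ / h')).trans hbb
    rwa [div_le_iff₀ h0'] at h3
  exact ha.trans_le (H.mono (h2.trans h1))

/-- the critical point is at most of order `b²` -/
theorem hc_small (M : Mod) : ∃ A : ℝ, 0 < A ∧ ∀ (b : ℝ) (hb : 0 < b), b ≤ 1 → ∀ hc : ℝ,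
    (∀ h, 0 < (withB M b hb).Fr h ↔ h < hc) → hc ≤ A * b ^ 2 := by
  obtain ⟨A, hA, hq⟩ := HZ.lmg_quad M.exp_mom M.mean M.Φ
  refine ⟨A * M.Φ, mul_pos hA M.Φ_pos, fun b hb hb1 hc hcr => ?_⟩
  by_contra hcon
  push Not at hcon
  have h1 : 0 < (withB M b hb).Fr (A * M.Φ * b ^ 2) := (hcr _).2 hcon
  have hv : ∀ z, (withB M b hb).v (A * M.Φ * b ^ 2) z ≤ 0 := by
    intro z
    have h2 := M.φ_nonneg z
    have h3 := M.φ_le z
    have h4 : lmg M.μ (b * M.φ z) ≤ A * (b * M.φ z) ^ 2 := hq _ (by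
      rw [abs_of_nonneg (mul_nonneg hb.le h2)]
      calc b * M.φ z ≤ 1 * M.Φ := mul_le_mul hb1 h3 h2 zero_le_one
        _ = M.Φ := one_mul _)
    change lmg M.μ (b * M.φ z) - A * M.Φ * b ^ 2 * M.φ z ≤ 0
    have h5 : (b * M.φ z) ^ 2 ≤ M.Φ * b ^ 2 * M.φ z := by
      have h6 : M.φ z ^ 2 ≤ M.Φ * M.φ z := by nlinarith
      calc (b * M.φ z) ^ 2 = b ^ 2 * M.φ z ^ 2 := by ring
        _ ≤ b ^ 2 * (M.Φ * M.φ z) := mul_le_mul_of_nonneg_left h6 (sq_nonneg b)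
        _ = _ := by ring
    have h7 := mul_le_mul_of_nonneg_left h5 hA.le
    linarith
  have hg : ∀ N : ℕ, ∑ n ∈ range N, (withB M b hb).g (A * M.Φ * b ^ 2) n ≤ 1 := by
    intro N
    refine le_trans (Finset.sum_le_sum fun n _ => ?_) (k0_sum M.C M.hrec N)
    rw [← HZ.Kv_K0]
    exact HZ.Kv_mono M.C hv n 0
  have h2 : ∀ ε : ℝ, 0 < ε → (withB M b hb).Fr (A * M.Φ * b ^ 2) ≤ ε := by
    intro ε hε
    have h3 := (withB M b hb).mean_limit (A * M.Φ * b ^ 2)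
    refine le_of_tendsto h3 ?_
    filter_upwards [(withB M b hb).ann_zero hg (half_pos hε), eventually_ge_atTop 1] with N hN hN1
    have hN0 : (0 : ℝ) < N := by exact_mod_cast hN1
    have h4 := (MP_daa227_pr.exp_le_mom' (μ := M.μ) M.exp_mom zero_le_one
      ((withB M b hb).good_Zl (A * M.Φ * b ^ 2) N) (fun ω =>
        MP_daa227_pr.Zf_pos M.C ((withB M b hb).W_pos _) N ω 0)).trans hN
    rw [one_mul, ENNReal.ofReal_le_ofReal_iff (Real.exp_pos _).le, Real.exp_le_exp] at h4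
    rw [div_le_iff₀ hN0]
    have h5 : (withB M b hb).ΨF (A * M.Φ * b ^ 2) N ≤ ε / 2 * N := h4
    nlinarith
  have h3 := h2 ((withB M b hb).Fr (A * M.Φ * b ^ 2) / 2) (half_pos h1)
  linarith

end

end Pool.Agent.HG
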