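import Pool.Agent.Lib.MP_daa227_pr_HG.Ord
import Pool.Agent.Lib.MP_daa227_pr_HZ.HZero

/-!
# MP_daa227_pr, small inverse temperature: the annealed critical point
-/

namespace Pool.Agent.HG

open MeasureTheory ProbabilityTheory Finset Filter Topology
open MP_daa227_pr (Chain Zk Zf Gk Gf KU K0 Ren shift seqLaw ExpMom DepOn Good GoodW mom)
open Pool.Agent.HZ (Mod Kv lmg)
open Pool.Agent.IOrd (Sys aS cv)

noncomputable section

/-- the model at another inverse temperature -/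
def withB (M : Mod) (b : ℝ) (hb : 0 < b) : Mod := { M with β := b, β_pos := hb }

/-- `lmg t ≤ C₁ t²` for `|t| ≤ Φ` (`HZ.lmg_quad`); at `h = C₁ Φ b²` the exponents
`lmg (b φ) - h φ ≤ C₁ b² φ (φ - Φ)` are `≤ 0`, so `g ≤ K0` (`HZ.Kv_mono`, `HZ.Kv_K0`) has mass
at most one (`M.hrec`) and `h < h₀` is impossible. -/
theorem h0_small (M : Mod) : ∃ C : ℝ, 0 < C ∧ ∀ (b : ℝ) (hb : 0 < b), b ≤ 1 → ∀ h₀ : ℝ,
    (∀ h : ℝ, 0 ≤ h → h < h₀ → ∃ N : ℕ, 1 < ∑ n ∈ range N, (withB M b hb).g h n) →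
    h₀ ≤ C * b ^ 2 := by
  obtain ⟨A, hA, hq⟩ := HZ.lmg_quad M.exp_mom M.mean M.Φ
  refine ⟨A * M.Φ, mul_pos hA M.Φ_pos, fun b hb hb1 h₀ hlt => ?_⟩
  by_contra hcon
  push Not at hcon
  have h0 : 0 ≤ A * M.Φ * b ^ 2 := by
    have := M.Φ_pos
    positivity
  obtain ⟨N, hN⟩ := hlt _ h0 hcon
  have h1 : ∀ z, (withB M b hb).v (A * M.Φ * b ^ 2) z ≤ 0 := by
    intro z
    have e : (withB M b hb).v (A * M.Φ * b ^ 2) z =
        lmg M.μ (b * M.φ z) - A * M.Φ * b ^ 2 * M.φ z := rfl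
    rw [e]
    have h2 := M.φ_nonneg z
    have h3 := M.φ_le z
    have h4 : |b * M.φ z| ≤ M.Φ := by
      rw [abs_of_nonneg (mul_nonneg hb.le h2)]
      calc b * M.φ z ≤ 1 * M.φ z := mul_le_mul_of_nonneg_right hb1 h2
        _ ≤ M.Φ := by rw [one_mul]; exact h3
    have h5 := hq _ h4
    have h6 : 0 ≤ A * b ^ 2 * M.φ z * (M.Φ - M.φ z) :=
      mul_nonneg (by positivity) (sub_nonneg.2 h3)
    nlinarith
  have h2 : ∑ n ∈ range N, (withB M b hb).g (A * M.Φ * b ^ 2) n ≤ ∑ n ∈ range N, K0 M.C n 0 := by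
    refine Finset.sum_le_sum fun n _ => ?_
    have h3 := HZ.Kv_mono M.C h1 n 0
    rw [HZ.Kv_K0] at h3
    exact h3
  have h3 : ∑ n ∈ range N, K0 M.C n 0 ≤ 1 := by
    calc ∑ n ∈ range N, K0 M.C n 0 ≤ ∑ n ∈ range (N + 1), K0 M.C n 0 := by
          rw [Finset.sum_range_succ]
          exact le_add_of_nonneg_right (MP_daa227_pr.K0_nonneg _ _ _)
      _ = ∑ n ∈ range N, K0 M.C (n + 1) 0 := by
          rw [Finset.sum_range_succ']
          have : K0 M.C 0 0 = 0 := rfl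
          rw [this, add_zero]
      _ ≤ 1 := sum_le_hasSum _ (fun n _ => MP_daa227_pr.K0_nonneg _ _ _) M.hrec
  linarith

/-- as `g_one` (Lib/MP_daa227_pr_HG/GFin.lean), with `hlt` instead of the free energy: for
`0 < t < min u h₀`, `1 < ∑_{n<N} g (h₀ - t) n ≤ (1 - t/u) ∑_{n<N} g h₀ n + (t/u) B` -/
theorem g_one_ann (M : Mod) {h₀ u B : ℝ} (h0 : 0 < h₀) (hu : 0 < u)
    (hB : ∀ N : ℕ, ∑ n ∈ range N, M.g (h₀ - u) n ≤ B)
    (hg : ∀ N : ℕ, ∑ n ∈ range N, M.g h₀ n ≤ 1)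
    (hlt : ∀ h : ℝ, 0 ≤ h → h < h₀ → ∃ N : ℕ, 1 < ∑ n ∈ range N, M.g h n) {η : ℝ} (hη : 0 < η) :
    ∃ N : ℕ, 1 - η ≤ ∑ n ∈ range N, M.g h₀ n := by
  by_contra hcon
  push Not at hcon
  have hη1 : 0 < 1 - η := by
    have := hcon 0
    simpa using this
  set B' : ℝ := max B 1 with hB'def
  have hB'0 : 0 < B' := lt_of_lt_of_le one_pos (le_max_right _ _)
  have hcont : Continuous fun t : ℝ => (1 - η) ^ (1 - t) * B' ^ t :=
    ((Real.continuous_const_rpow hη1.ne').comp (continuous_const.sub continuous_id)).mul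
      (Real.continuous_const_rpow hB'0.ne')
  have ht0 : Tendsto (fun t : ℝ => (1 - η) ^ (1 - t) * B' ^ t) (𝓝[>] 0) (𝓝 (1 - η)) := by
    have h1 := (hcont.tendsto 0).mono_left (nhdsWithin_le_nhds (s := Set.Ioi (0 : ℝ)))
    simpa using h1
  have hev := ht0.eventually_lt_const (show 1 - η < 1 by linarith)
  have hm : 0 < min 1 (h₀ / u) := lt_min one_pos (div_pos h0 hu)
  have hio : ∀ᶠ t : ℝ in 𝓝[>] 0, t ∈ Set.Ioo (0 : ℝ) (min 1 (h₀ / u)) := Ioo_mem_nhdsGT hm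
  obtain ⟨t, ht1, ht0, htm⟩ := (hev.and hio).exists
  have htlt : t < 1 := htm.trans_le (min_le_left _ _)
  have htu : t * u ≤ h₀ := by
    have := (htm.trans_le (min_le_right _ _)).le
    rwa [le_div_iff₀ hu] at this
  obtain ⟨N, hN⟩ := hlt (h₀ - t * u) (by linarith) (by
    have := mul_pos ht0 hu
    linarith)
  have hle : ∑ n ∈ range N, M.g (h₀ - t * u) n ≤ 1 := by
    have hv : M.v (h₀ - t * u) = fun z => (1 - t) * M.v h₀ z + t * M.v (h₀ - u) z := by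
      funext z
      unfold HZ.Mod.v
      ring
    have h1 : ∀ n, M.g (h₀ - t * u) n ≤ M.g h₀ n ^ (1 - t) * M.g (h₀ - u) n ^ t := by
      intro n
      unfold HZ.Mod.g
      rw [hv]
      exact HZ.interp_K M.C _ _ ht0.le htlt.le n 0
    refine (Finset.sum_le_sum fun n _ => h1 n).trans ?_
    have hn1 : ∀ h n, 0 ≤ M.g h n := fun h n => HZ.Kv_nonneg _ _ _ _
    refine (HZ.Interp.holder (range N) (fun n => M.g h₀ n) (fun n => M.g (h₀ - u) n)
      (fun n _ => hn1 _ _) (fun n _ => hn1 _ _) ht0.le htlt.le).trans ?_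
    refine le_trans ?_ ht1.le
    have hs1 : 0 ≤ ∑ n ∈ range N, M.g h₀ n := Finset.sum_nonneg fun n _ => hn1 _ _
    have hs2 : 0 ≤ ∑ n ∈ range N, M.g (h₀ - u) n := Finset.sum_nonneg fun n _ => hn1 _ _
    refine mul_le_mul ?_ ?_ (Real.rpow_nonneg hs2 _) (Real.rpow_nonneg hη1.le _)
    · exact Real.rpow_le_rpow hs1 (hcon N).le (by linarith)
    · exact Real.rpow_le_rpow hs2 ((hB N).trans (le_max_left _ _)) ht0.le
  linarith

/-- a bounded moment of order larger than one at the annealed critical point `h₀`: it is also the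
quenched critical point -/
theorem crit_of_bdd (M : Mod) (hP : PolyCost M) {h₀ p K : ℝ} (h0 : 0 < h₀) (hp : 1 < p)
    (hb : ∀ n : ℕ, mom M.μ p (fun ω => M.Z h₀ (2 * n) ω) ≤ ENNReal.ofReal K)
    (hg : ∀ N : ℕ, ∑ n ∈ range N, M.g h₀ n ≤ 1)
    (hlt : ∀ h : ℝ, 0 ≤ h → h < h₀ → ∃ N : ℕ, 1 < ∑ n ∈ range N, M.g h n)
    (hdec : 0 < M.ℓ → LDec M h₀) {a : ℝ} (ha : 0 < a) (ha1 : a ≤ 1) (hF : FTail M.C a)
    (hF' : M.ℓ ≤ 0 → FTail (HZ.cneg M.C) a) : ∀ h, 0 < M.Fr h ↔ h < h₀ := by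
  obtain ⟨u, hu, B, hB⟩ := g_fin M h0 hg hdec
  have hg1 : ∀ η : ℝ, 0 < η → ∃ N : ℕ, 1 - η ≤ ∑ n ∈ range N, M.g h₀ n := fun η hη =>
    g_one_ann M h0 hu hB hg hlt hη
  obtain ⟨A, _, hT⟩ := g_tail M h0 hg hdec ha ha1 hF hF'
  obtain ⟨b, E, hb0, hE, hseq⟩ := fin_seq M hP h0 (Real.HolderConjugate.conjExponent hp) hb hg hg1
    ha hT
  intro h
  constructor
  · intro hF0
    by_contra hcon
    push Not at hcon
    have h1 := M.Fr_anti hcon
    have h2 := M.Fr_nonpos hg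
    linarith
  · intro hh
    have h1 : Tendsto (fun N : ℕ => b * (N : ℝ) ^ (-(a / 2))) atTop (𝓝 (b * 0)) :=
      ((tendsto_rpow_neg_atTop (half_pos ha)).comp tendsto_natCast_atTop_atTop).const_mul b
    rw [mul_zero] at h1
    obtain ⟨N, h2, h3, h4⟩ := (hseq.and ((h1.eventually (gt_mem_nhds (sub_pos.2 hh))).and
      (eventually_ge_atTop 1))).exists
    have h5 : (0 : ℝ) < N := by exact_mod_cast h4
    have h6 : M.Fr (h₀ - b * (N : ℝ) ^ (-(a / 2))) ≤ M.Fr h := M.Fr_anti (by linarith)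
    have h7 := Real.rpow_pos_of_pos h5 (-E)
    linarith

end

end Pool.Agent.HG
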