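import Mathlib

/-!
# MP_daa227_pr, small inverse temperature: a renewal sequence with loop exponent less than one half is
square summable, uniformly
-/

namespace Pool.Agent.HG

open MeasureTheory Finset Filter Topology

noncomputable section

theorem sq_sum_low (N : ℕ) : (N : ℝ) ^ 3 / 3 ≤ ∑ n ∈ Finset.Icc 1 N, (n : ℝ) ^ 2 := by
  induction N with
  | zero => simp
  | succ N ih =>
    rw [Finset.sum_Icc_succ_top (by omega)]
    push_cast
    have hN : (0 : ℝ) ≤ N := Nat.cast_nonneg N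
    nlinarith

/-- `1 - cos (2 n t) ≥ c (n t)²` for `n |t| ≤ 1`, and sum over `1 ≤ n ≤ 1/|t|`; the sequence `t ↦ 1 - cos (2nt)`
has period `π`. -/
theorem trig_low {a : ℝ} (ha0 : 0 < a) (ha : a < 1 / 2) : ∃ c : ℝ, 0 < c ∧ ∀ t : ℝ,
    0 < |t| → |t| ≤ 1 → ∃ N : ℕ, c * |t| ^ a ≤
      ∑ n ∈ Finset.Icc 1 N, ((2 * n : ℕ) : ℝ) ^ (-(1 + a)) * (1 - Real.cos (2 * n * t)) := by
  refine ⟨2 ^ (-(1 + a)) / 48, by positivity, fun t ht ht1 => ⟨⌊1 / |t|⌋₊, ?_⟩⟩
  have hN1 : 1 ≤ ⌊1 / |t|⌋₊ := by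
    rw [Nat.one_le_floor_iff, le_div_iff₀ ht]
    linarith
  have hNle : ((⌊1 / |t|⌋₊ : ℕ) : ℝ) ≤ 1 / |t| := Nat.floor_le (by positivity)
  have hNgt := Nat.lt_floor_add_one (1 / |t|)
  generalize ⌊1 / |t|⌋₊ = N at *
  have hN1' : (1 : ℝ) ≤ N := by exact_mod_cast hN1
  have hNge : 1 / (2 * |t|) ≤ N := by
    have : 1 / (2 * |t|) = (1 / |t|) / 2 := by
      field_simp
    rw [this]
    linarith
  have hterm : ∀ n ∈ Finset.Icc 1 N, (2 / |t|) ^ (-(1 + a)) * (t ^ 2 / 2) * (n : ℝ) ^ 2 ≤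
      ((2 * n : ℕ) : ℝ) ^ (-(1 + a)) * (1 - Real.cos (2 * n * t)) := by
    intro n hn
    obtain ⟨h1, h2⟩ := Finset.mem_Icc.mp hn
    have h1' : (1 : ℝ) ≤ n := by exact_mod_cast h1
    have h2' : (n : ℝ) ≤ 1 / |t| := (by exact_mod_cast h2 : (n : ℝ) ≤ N).trans hNle
    have h3 : (2 / |t|) ^ (-(1 + a)) ≤ ((2 * n : ℕ) : ℝ) ^ (-(1 + a)) := by
      refine Real.rpow_le_rpow_of_nonpos (by positivity) ?_ (by linarith)
      push_cast
      have : 2 / |t| = 2 * (1 / |t|) := by ring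
      rw [this]
      linarith
    have h4 : |2 * n * t| ≤ Real.pi := by
      rw [abs_mul, abs_of_nonneg (by positivity : (0 : ℝ) ≤ 2 * n)]
      have : (n : ℝ) * |t| ≤ 1 := by
        rwa [le_div_iff₀ ht] at h2'
      have := Real.pi_gt_three
      nlinarith
    have h5 := Real.cos_le_one_sub_mul_cos_sq h4
    have h6 : 1 / 8 ≤ 2 / Real.pi ^ 2 := by
      rw [div_le_div_iff₀ (by norm_num) (by positivity)]
      have := Real.pi_le_four
      have := Real.pi_pos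
      nlinarith
    have h7 : t ^ 2 / 2 * (n : ℝ) ^ 2 ≤ 1 - Real.cos (2 * n * t) := by
      have h8 : 1 / 8 * (2 * n * t) ^ 2 ≤ 2 / Real.pi ^ 2 * (2 * n * t) ^ 2 :=
        mul_le_mul_of_nonneg_right h6 (by positivity)
      nlinarith
    calc (2 / |t|) ^ (-(1 + a)) * (t ^ 2 / 2) * (n : ℝ) ^ 2
        = (2 / |t|) ^ (-(1 + a)) * (t ^ 2 / 2 * (n : ℝ) ^ 2) := by ring
      _ ≤ _ := by gcongr
  refine le_trans ?_ (Finset.sum_le_sum hterm)
  rw [← Finset.mul_sum]
  have h9 := sq_sum_low N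
  have h10 : (1 / (2 * |t|)) ^ 3 / 3 ≤ (N : ℝ) ^ 3 / 3 := by gcongr
  have h11 : (2 / |t|) ^ (-(1 + a)) = 2 ^ (-(1 + a)) * (|t| * |t| ^ a) := by
    rw [Real.div_rpow (by norm_num) (abs_nonneg t), Real.rpow_neg (abs_nonneg t), div_inv_eq_mul,
      Real.rpow_add ht, Real.rpow_one]
  calc 2 ^ (-(1 + a)) / 48 * |t| ^ a
      = (2 / |t|) ^ (-(1 + a)) * (t ^ 2 / 2) * ((1 / (2 * |t|)) ^ 3 / 3) := by
        rw [h11, ← sq_abs t]
        field_simp
        ring
    _ ≤ _ := by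
        refine mul_le_mul_of_nonneg_left (h10.trans h9) (by positivity)

theorem par_exp (n m : ℕ) : ∫ t in (0 : ℝ)..(2 * Real.pi),
    Complex.exp (Complex.I * n * t) * Complex.exp (-(Complex.I * m * t)) =
      if n = m then ((2 * Real.pi : ℝ) : ℂ) else 0 := by
  split_ifs with h
  · subst h
    have : ∀ t : ℝ, Complex.exp (Complex.I * n * t) * Complex.exp (-(Complex.I * n * t)) = 1 := by
      intro t
      rw [← Complex.exp_add, add_neg_cancel, Complex.exp_zero]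
    simp only [this]
    rw [intervalIntegral.integral_const]
    simp
  · have h1 : ∀ t : ℝ, Complex.exp (Complex.I * n * t) * Complex.exp (-(Complex.I * m * t)) =
        Complex.exp ((Complex.I * ((n : ℂ) - m)) * t) := by
      intro t
      rw [← Complex.exp_add]
      congr 1
      ring
    simp only [h1]
    have hnm : (n : ℂ) - m ≠ 0 := sub_ne_zero.mpr (by exact_mod_cast h)
    rw [integral_exp_mul_complex (mul_ne_zero Complex.I_ne_zero hnm)]
    have h2 : Complex.exp ((Complex.I * ((n : ℂ) - m)) * ((2 * Real.pi : ℝ) : ℂ)) = 1 := by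
      have : (Complex.I * ((n : ℂ) - m)) * ((2 * Real.pi : ℝ) : ℂ) =
          (((n : ℤ) - (m : ℤ) : ℤ) : ℂ) * (2 * Real.pi * Complex.I) := by
        push_cast
        ring
      rw [this, Complex.exp_int_mul_two_pi_mul_I]
    rw [h2]
    simp

theorem par_fin (b : ℕ → ℝ) (M : ℕ) : ∫ t in (0 : ℝ)..(2 * Real.pi),
    ‖∑ n ∈ range M, (b n : ℂ) * Complex.exp (Complex.I * n * t)‖ ^ 2 =
      2 * Real.pi * ∑ n ∈ range M, b n ^ 2 := by
  have h1 : ∀ t : ℝ, ((‖∑ n ∈ range M, (b n : ℂ) * Complex.exp (Complex.I * n * t)‖ ^ 2 : ℝ) : ℂ)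
      = ∑ n ∈ range M, ∑ m ∈ range M, (b n : ℂ) * b m *
        (Complex.exp (Complex.I * n * t) * Complex.exp (-(Complex.I * m * t))) := by
    intro t
    rw [← Complex.normSq_eq_norm_sq, ← Complex.mul_conj, map_sum, Finset.sum_mul_sum]
    refine Finset.sum_congr rfl fun n _ => Finset.sum_congr rfl fun m _ => ?_
    rw [map_mul, Complex.conj_ofReal, ← Complex.exp_conj]
    have : (starRingEnd ℂ) (Complex.I * m * t) = -(Complex.I * m * t) := by
      simp
    rw [this]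
    ring
  have h2 : ((∫ t in (0 : ℝ)..(2 * Real.pi),
      ‖∑ n ∈ range M, (b n : ℂ) * Complex.exp (Complex.I * n * t)‖ ^ 2 : ℝ) : ℂ) =
      ((2 * Real.pi * ∑ n ∈ range M, b n ^ 2 : ℝ) : ℂ) := by
    rw [← intervalIntegral.integral_ofReal]
    simp only [h1]
    rw [intervalIntegral.integral_finsetSum]
    · have h3 : ∀ n ∈ range M, ∫ t in (0 : ℝ)..(2 * Real.pi), ∑ m ∈ range M, (b n : ℂ) * b m *
          (Complex.exp (Complex.I * n * t) * Complex.exp (-(Complex.I * m * t))) =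
          (b n : ℂ) ^ 2 * (2 * Real.pi : ℝ) := by
        intro n hn
        rw [intervalIntegral.integral_finsetSum]
        · simp only [intervalIntegral.integral_const_mul, par_exp]
          rw [Finset.sum_eq_single n]
          · rw [if_pos rfl]
            ring
          · intro m _ hm
            rw [if_neg (Ne.symm hm), mul_zero]
          · intro h
            exact absurd hn h
        · intro m _
          refine Continuous.intervalIntegrable ?_ _ _
          fun_prop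
      rw [Finset.sum_congr rfl h3, ← Finset.sum_mul]
      push_cast
      ring
    · intro n _
      refine Continuous.intervalIntegrable ?_ _ _
      fun_prop
  exact_mod_cast h2

theorem par_norm (b : ℕ → ℝ) (n : ℕ) (t : ℝ) :
    ‖(b n : ℂ) * Complex.exp (Complex.I * n * t)‖ = |b n| := by
  rw [norm_mul, Complex.norm_real, Real.norm_eq_abs]
  have : Complex.I * n * t = ((n * t : ℝ) : ℂ) * Complex.I := by
    push_cast
    ring
  rw [this, Complex.norm_exp_ofReal_mul_I, mul_one]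

/-- Parseval for an absolutely summable sequence (`tsum_sq_fourierCoeff`, or finite sums and
monotone limits) -/
theorem parseval_le {b : ℕ → ℝ} (hb : Summable fun n => |b n|) (N : ℕ) :
    ∑ n ∈ range N, b n ^ 2 ≤ (2 * Real.pi)⁻¹ * ∫ t in (0 : ℝ)..(2 * Real.pi),
      ‖∑' n : ℕ, (b n : ℂ) * Complex.exp (Complex.I * n * t)‖ ^ 2 := by
  have hlim : Tendsto (fun M : ℕ => ∫ t in (0 : ℝ)..(2 * Real.pi),
      ‖∑ n ∈ range M, (b n : ℂ) * Complex.exp (Complex.I * n * t)‖ ^ 2) atTop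
      (𝓝 (∫ t in (0 : ℝ)..(2 * Real.pi),
        ‖∑' n : ℕ, (b n : ℂ) * Complex.exp (Complex.I * n * t)‖ ^ 2)) := by
    refine intervalIntegral.tendsto_integral_filter_of_dominated_convergence
      (fun _ => (∑' n, |b n|) ^ 2) ?_ ?_ ?_ ?_
    · refine Eventually.of_forall fun M => ?_
      refine (Continuous.aestronglyMeasurable ?_)
      fun_prop
    · refine Eventually.of_forall fun M => Eventually.of_forall fun t _ => ?_
      rw [Real.norm_eq_abs, abs_of_nonneg (by positivity)]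
      refine pow_le_pow_left₀ (norm_nonneg _) ?_ 2
      refine (norm_sum_le _ _).trans ?_
      simp only [par_norm]
      exact hb.sum_le_tsum _ fun _ _ => abs_nonneg _
    · exact intervalIntegrable_const
    · refine Eventually.of_forall fun t _ => ?_
      have hs : Summable fun n : ℕ => (b n : ℂ) * Complex.exp (Complex.I * n * t) := by
        refine Summable.of_norm ?_
        simp only [par_norm]
        exact hb
      exact (hs.hasSum.tendsto_sum_nat.norm).pow 2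
  have hlim2 := hlim.const_mul (2 * Real.pi)⁻¹
  refine ge_of_tendsto hlim2 (eventually_atTop.mpr ⟨N, fun M hM => ?_⟩)
  rw [par_fin, ← mul_assoc, inv_mul_cancel₀ (by positivity), one_mul]
  exact Finset.sum_le_sum_of_subset_of_nonneg (Finset.range_subset_range.mpr hM)
    fun _ _ _ => sq_nonneg _

theorem rs_le_one {g u : ℕ → ℝ} (hg : ∀ n, 0 ≤ g n) (hu0 : u 0 = 1)
    (hrec : ∀ n, n ≠ 0 → u n = ∑ m ∈ Finset.Ioc 0 n, g m * u (n - m))
    (hs : ∀ N : ℕ, ∑ n ∈ range N, g n ≤ 1) (n : ℕ) : u n ≤ 1 := by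
  induction n using Nat.strong_induction_on with
  | _ n ih =>
    by_cases h0 : n = 0
    · rw [h0, hu0]
    · rw [hrec n h0]
      calc ∑ m ∈ Finset.Ioc 0 n, g m * u (n - m) ≤ ∑ m ∈ Finset.Ioc 0 n, g m := by
            refine Finset.sum_le_sum fun m hm => ?_
            have := (Finset.mem_Ioc.mp hm).1
            exact mul_le_of_le_one_right (hg m) (ih (n - m) (by omega))
        _ ≤ ∑ m ∈ range (n + 1), g m := by
            refine Finset.sum_le_sum_of_subset_of_nonneg (fun m hm => ?_) fun _ _ _ => hg _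
            have := (Finset.mem_Ioc.mp hm).2
            exact Finset.mem_range.mpr (by omega)
        _ ≤ 1 := hs _

theorem rs_summ {g : ℕ → ℝ} (hg : ∀ n, 0 ≤ g n) (hg1 : ∀ n, g n ≤ 1) {z : ℂ} (hz : ‖z‖ < 1) :
    Summable fun n => ‖(g n : ℂ) * z ^ n‖ := by
  refine Summable.of_nonneg_of_le (fun _ => norm_nonneg _) (fun n => ?_)
    (summable_geometric_of_lt_one (norm_nonneg z) hz)
  rw [norm_mul, norm_pow, Complex.norm_real, Real.norm_eq_abs, abs_of_nonneg (hg n)]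
  exact mul_le_of_le_one_left (by positivity) (hg1 n)

/-- the renewal equation for the generating functions -/
theorem rs_eq {g u : ℕ → ℝ} (hg : ∀ n, 0 ≤ g n) (hg0 : g 0 = 0) (hu : ∀ n, 0 ≤ u n)
    (hu0 : u 0 = 1) (hrec : ∀ n, n ≠ 0 → u n = ∑ m ∈ Finset.Ioc 0 n, g m * u (n - m))
    (hg1 : ∀ n, g n ≤ 1) (hu1 : ∀ n, u n ≤ 1) {z : ℂ} (hz : ‖z‖ < 1) :
    (∑' n : ℕ, (u n : ℂ) * z ^ n) * (1 - ∑' n : ℕ, (g n : ℂ) * z ^ n) = 1 := by
  have hsg := rs_summ hg hg1 hz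
  have hsu := rs_summ hu hu1 hz
  have hprod := tsum_mul_tsum_eq_tsum_sum_antidiagonal_of_summable_norm hsg hsu
  have hconv : ∀ n, ∑ kl ∈ antidiagonal n, (g kl.1 : ℂ) * z ^ kl.1 * ((u kl.2 : ℂ) * z ^ kl.2) =
      (if n = 0 then 0 else (u n : ℂ) * z ^ n) := by
    intro n
    have h1 : ∑ kl ∈ antidiagonal n, (g kl.1 : ℂ) * z ^ kl.1 * ((u kl.2 : ℂ) * z ^ kl.2) =
        ((∑ kl ∈ antidiagonal n, g kl.1 * u kl.2 : ℝ) : ℂ) * z ^ n := by
      push_cast
      rw [Finset.sum_mul]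
      refine Finset.sum_congr rfl fun kl hkl => ?_
      rw [← Finset.HasAntidiagonal.mem_antidiagonal.mp hkl, pow_add]
      ring
    rw [h1]
    split_ifs with h0
    · subst h0
      simp [hg0]
    · congr 2
      rw [hrec n h0, Finset.Nat.sum_antidiagonal_eq_sum_range_succ (fun k l => g k * u l),
        Finset.sum_range_succ', hg0, zero_mul, add_zero]
      refine Finset.sum_nbij' (fun k => k + 1) (fun m => m - 1) ?_ ?_ ?_ ?_ ?_
      · intro k hk
        have := Finset.mem_range.mp hk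
        exact Finset.mem_Ioc.mpr ⟨by omega, by omega⟩
      · intro m hm
        have := Finset.mem_Ioc.mp hm
        exact Finset.mem_range.mpr (by omega)
      · intro k _
        simp
      · intro m hm
        have := Finset.mem_Ioc.mp hm
        omega
      · intro k _
        rfl
  have hsU : Summable fun n => (u n : ℂ) * z ^ n := hsu.of_norm
  have h2 : (∑' n : ℕ, (u n : ℂ) * z ^ n) = 1 + ∑' n : ℕ, (u (n + 1) : ℂ) * z ^ (n + 1) := by
    rw [hsU.tsum_eq_zero_add, hu0]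
    simp
  have h3 : (∑' n : ℕ, if n = 0 then 0 else (u n : ℂ) * z ^ n) =
      ∑' n : ℕ, (u (n + 1) : ℂ) * z ^ (n + 1) := by
    have hs3 : Summable fun n : ℕ => if n = 0 then 0 else (u n : ℂ) * z ^ n := by
      refine Summable.of_norm_bounded hsu fun n => ?_
      split_ifs
      · rw [norm_zero]
        exact norm_nonneg _
      · exact le_rfl
    rw [hs3.tsum_eq_zero_add]
    simp
  have h4 : (∑' n : ℕ, (g n : ℂ) * z ^ n) * (∑' n : ℕ, (u n : ℂ) * z ^ n) =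
      (∑' n : ℕ, (u n : ℂ) * z ^ n) - 1 := by
    rw [hprod]
    simp only [hconv]
    rw [h3, h2]
    ring
  linear_combination -h4

/-- the real part of `1 - G` -/
theorem rs_re {g : ℕ → ℝ} (hg : ∀ n, 0 ≤ g n)
    (hs : ∀ N : ℕ, ∑ n ∈ range N, g n ≤ 1) (hg1 : ∀ n, g n ≤ 1) {r : ℝ} (hr0 : 0 ≤ r)
    (hr1 : r < 1) (t : ℝ) (N : ℕ) :
    1 / 2 * ∑ n ∈ Finset.Icc 1 N, g (2 * n) * (1 - Real.cos (2 * n * t)) ≤
      (1 - ∑' n : ℕ, (g n : ℂ) * ((r : ℂ) * Complex.exp (Complex.I * t)) ^ n).re := by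
  have hz : ‖(r : ℂ) * Complex.exp (Complex.I * t)‖ < 1 := by
    rw [mul_comm Complex.I, norm_mul, Complex.norm_exp_ofReal_mul_I, mul_one, Complex.norm_real,
      Real.norm_eq_abs, abs_of_nonneg hr0]
    exact hr1
  have hsg := (rs_summ hg hg1 hz).of_norm
  have hre : ∀ n : ℕ, ((g n : ℂ) * ((r : ℂ) * Complex.exp (Complex.I * t)) ^ n).re =
      g n * (r ^ n * Real.cos (n * t)) := by
    intro n
    have h1 : ((r : ℂ) * Complex.exp (Complex.I * t)) ^ n =
        ((r ^ n : ℝ) : ℂ) * Complex.exp (((n * t : ℝ) : ℂ) * Complex.I) := by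
      rw [mul_pow, ← Complex.exp_nat_mul]
      push_cast
      congr 2
      ring
    rw [h1, Complex.re_ofReal_mul, Complex.re_ofReal_mul, Complex.exp_ofReal_mul_I_re]
  rw [Complex.sub_re, Complex.one_re, Complex.re_tsum hsg]
  simp only [hre]
  have hsr : Summable fun n : ℕ => g n * (r ^ n * Real.cos (n * t)) := by
    have := (Complex.hasSum_re hsg.hasSum).summable
    simpa only [hre] using this
  have hlim := hsr.hasSum.tendsto_sum_nat
  have hle : ∀ᶠ M in atTop, ∑ n ∈ range M, g n * (r ^ n * Real.cos (n * t)) ≤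
      1 - 1 / 2 * ∑ n ∈ Finset.Icc 1 N, g (2 * n) * (1 - Real.cos (2 * n * t)) := by
    refine eventually_atTop.mpr ⟨2 * N + 1, fun M hM => ?_⟩
    have h1 : ∀ n ∈ range M, g n * (r ^ n * Real.cos (n * t)) ≤
        g n - 1 / 2 * (g n * (1 - Real.cos (n * t))) := by
      intro n _
      have h2 : r ^ n * Real.cos (n * t) ≤ 1 - 1 / 2 * (1 - Real.cos (n * t)) := by
        have hrn : r ^ n ≤ 1 := pow_le_one₀ hr0 hr1.le
        have hrn0 : 0 ≤ r ^ n := pow_nonneg hr0 n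
        rcases le_total 0 (Real.cos (n * t)) with hc | hc
        · have := Real.cos_le_one (n * t)
          nlinarith
        · have := Real.neg_one_le_cos (n * t)
          nlinarith
      have := mul_le_mul_of_nonneg_left h2 (hg n)
      linarith
    refine (Finset.sum_le_sum h1).trans ?_
    rw [Finset.sum_sub_distrib, ← Finset.mul_sum]
    have h3 : ∑ n ∈ Finset.Icc 1 N, g (2 * n) * (1 - Real.cos (2 * n * t)) ≤
        ∑ n ∈ range M, g n * (1 - Real.cos (n * t)) := by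
      have h4 : ∑ n ∈ Finset.Icc 1 N, g (2 * n) * (1 - Real.cos (2 * n * t)) =
          ∑ n ∈ (Finset.Icc 1 N).image (fun n => 2 * n), g n * (1 - Real.cos (n * t)) := by
        rw [Finset.sum_image fun a _ b _ hab => by
          have : 2 * a = 2 * b := hab
          omega]
        refine Finset.sum_congr rfl fun n _ => ?_
        push_cast
        ring
      rw [h4]
      refine Finset.sum_le_sum_of_subset_of_nonneg (fun m hm => ?_) fun m _ _ => ?_
      · obtain ⟨n, hn, rfl⟩ := Finset.mem_image.mp hm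
        have := (Finset.mem_Icc.mp hn).2
        exact Finset.mem_range.mpr (by omega)
      · exact mul_nonneg (hg m) (by linarith [Real.cos_le_one (m * t)])
    have := hs M
    linarith
  have := le_of_tendsto hlim hle
  linarith

/-- the upper bound for the generating function -/
theorem rs_up {c a : ℝ} (hc : 0 < c) {g u : ℕ → ℝ} (hg : ∀ n, 0 ≤ g n) (hg0 : g 0 = 0)
    (hu : ∀ n, 0 ≤ u n) (hu0 : u 0 = 1)
    (hrec : ∀ n, n ≠ 0 → u n = ∑ m ∈ Finset.Ioc 0 n, g m * u (n - m))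
    (hs : ∀ N : ℕ, ∑ n ∈ range N, g n ≤ 1)
    (hlow : ∀ n : ℕ, 1 ≤ n → c * ((2 * n : ℕ) : ℝ) ^ (-(1 + a)) ≤ g (2 * n)) {r : ℝ}
    (hr0 : 0 ≤ r) (hr1 : r < 1) (t L : ℝ) (hL : 0 < L) (N : ℕ)
    (h : L ≤ ∑ n ∈ Finset.Icc 1 N, ((2 * n : ℕ) : ℝ) ^ (-(1 + a)) * (1 - Real.cos (2 * n * t))) :
    ‖∑' n : ℕ, ((u n * r ^ n : ℝ) : ℂ) * Complex.exp (Complex.I * n * t)‖ ≤ 2 / (c * L) := by
  have hz : ‖(r : ℂ) * Complex.exp (Complex.I * t)‖ < 1 := by
    rw [mul_comm Complex.I, norm_mul, Complex.norm_exp_ofReal_mul_I, mul_one, Complex.norm_real,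
      Real.norm_eq_abs, abs_of_nonneg hr0]
    exact hr1
  have hg1 : ∀ n, g n ≤ 1 := fun n =>
    (Finset.single_le_sum (fun i _ => hg i) (Finset.mem_range.mpr (Nat.lt_succ_self n))).trans
      (hs (n + 1))
  have hu1 := rs_le_one hg hu0 hrec hs
  have h1 : ∑' n : ℕ, ((u n * r ^ n : ℝ) : ℂ) * Complex.exp (Complex.I * n * t) =
      ∑' n : ℕ, (u n : ℂ) * ((r : ℂ) * Complex.exp (Complex.I * t)) ^ n := by
    refine tsum_congr fun n => ?_
    rw [mul_pow, ← Complex.exp_nat_mul]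
    push_cast
    rw [mul_assoc]
    congr 3
    ring
  have h2 := rs_eq hg hg0 hu hu0 hrec hg1 hu1 hz
  have h3 := rs_re hg hs hg1 hr0 hr1 t N
  have h4 : c * L / 2 ≤
      (1 - ∑' n : ℕ, (g n : ℂ) * ((r : ℂ) * Complex.exp (Complex.I * t)) ^ n).re := by
    refine le_trans ?_ h3
    have h5 : c * L ≤ ∑ n ∈ Finset.Icc 1 N, g (2 * n) * (1 - Real.cos (2 * n * t)) := by
      refine (mul_le_mul_of_nonneg_left h hc.le).trans ?_
      rw [Finset.mul_sum]
      refine Finset.sum_le_sum fun n hn => ?_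
      rw [← mul_assoc]
      exact mul_le_mul_of_nonneg_right (hlow n (Finset.mem_Icc.mp hn).1)
        (by linarith [Real.cos_le_one (2 * n * t)])
    linarith
  have h6 := h4.trans (Complex.re_le_norm _)
  rw [h1]
  have h7 := congrArg norm h2
  rw [norm_mul, norm_one] at h7
  rw [le_div_iff₀ (by positivity)]
  have h8 : 0 ≤ ‖∑' n : ℕ, (u n : ℂ) * ((r : ℂ) * Complex.exp (Complex.I * t)) ^ n‖ :=
    norm_nonneg _
  nlinarith [mul_le_mul_of_nonneg_left h6 h8]

/-- the lower bound for the trigonometric sums on `(0, π / 2]` -/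
theorem trig_low2 {a : ℝ} (ha0 : 0 < a) (ha : a < 1 / 2) : ∃ c : ℝ, 0 < c ∧ ∀ s : ℝ,
    0 < s → s ≤ Real.pi / 2 → ∃ N : ℕ, c * s ^ a ≤
      ∑ n ∈ Finset.Icc 1 N, ((2 * n : ℕ) : ℝ) ^ (-(1 + a)) * (1 - Real.cos (2 * n * s)) := by
  obtain ⟨c, hc, h⟩ := trig_low ha0 ha
  refine ⟨min c (2 ^ (-(1 + a)) * 2 ^ (-a)), by positivity, fun s hs hs2 => ?_⟩
  rcases le_or_gt s 1 with h1 | h1
  · obtain ⟨N, hN⟩ := h s (by rwa [abs_of_pos hs]) (by rwa [abs_of_pos hs])
    refine ⟨N, le_trans ?_ hN⟩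
    rw [abs_of_pos hs]
    exact mul_le_mul_of_nonneg_right (min_le_left _ _) (by positivity)
  · refine ⟨1, ?_⟩
    have hcos : Real.cos (2 * s) ≤ 0 := by
      refine Real.cos_nonpos_of_pi_div_two_le_of_le ?_ ?_
      · have := Real.pi_le_four
        linarith
      · have := Real.pi_pos
        linarith
    have h2 : s ^ a ≤ 2 ^ a := by
      refine Real.rpow_le_rpow hs.le ?_ ha0.le
      have := Real.pi_le_four
      linarith
    have h3 : (2 : ℝ) ^ (-a) * 2 ^ a = 1 := by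
      rw [← Real.rpow_add (by norm_num), neg_add_cancel, Real.rpow_zero]
    simp only [Finset.Icc_self, Finset.sum_singleton]
    push_cast
    rw [mul_one]
    calc min c (2 ^ (-(1 + a)) * 2 ^ (-a)) * s ^ a
        ≤ (2 ^ (-(1 + a)) * 2 ^ (-a)) * 2 ^ a := by
          gcongr
          exact min_le_right _ _
      _ = 2 ^ (-(1 + a)) := by rw [mul_assoc, h3, mul_one]
      _ ≤ 2 ^ (-(1 + a)) * (1 - Real.cos (2 * s)) := by
          refine le_mul_of_one_le_right (by positivity) (by linarith)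

/-- the pointwise bound -/
theorem rs_pt {c a c₁ : ℝ} (hc : 0 < c) (hc₁ : 0 < c₁)
    (h₁ : ∀ s : ℝ, 0 < s → s ≤ Real.pi / 2 → ∃ N : ℕ, c₁ * s ^ a ≤
      ∑ n ∈ Finset.Icc 1 N, ((2 * n : ℕ) : ℝ) ^ (-(1 + a)) * (1 - Real.cos (2 * n * s)))
    {g u : ℕ → ℝ} (hg : ∀ n, 0 ≤ g n) (hg0 : g 0 = 0)
    (hu : ∀ n, 0 ≤ u n) (hu0 : u 0 = 1)
    (hrec : ∀ n, n ≠ 0 → u n = ∑ m ∈ Finset.Ioc 0 n, g m * u (n - m))
    (hs : ∀ N : ℕ, ∑ n ∈ range N, g n ≤ 1)
    (hlow : ∀ n : ℕ, 1 ≤ n → c * ((2 * n : ℕ) : ℝ) ^ (-(1 + a)) ≤ g (2 * n)) {r : ℝ}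
    (hr0 : 0 ≤ r) (hr1 : r < 1) (k : ℕ) (t : ℝ) (ht : t ∈ Set.Ioo (k * Real.pi)
      ((k + 1) * Real.pi)) :
    ‖∑' n : ℕ, ((u n * r ^ n : ℝ) : ℂ) * Complex.exp (Complex.I * n * t)‖ ^ 2 ≤
      (2 / (c * c₁)) ^ 2 * ((t - k * Real.pi) ^ (-(2 * a)) +
        ((k + 1) * Real.pi - t) ^ (-(2 * a))) := by
  have hpos1 : 0 < t - k * Real.pi := sub_pos.mpr ht.1
  have hpos2 : 0 < (k + 1) * Real.pi - t := sub_pos.mpr ht.2
  have key : ∀ s : ℝ, 0 < s → s ≤ Real.pi / 2 → (∀ n : ℕ, Real.cos (2 * n * s) =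
      Real.cos (2 * n * t)) →
      ‖∑' n : ℕ, ((u n * r ^ n : ℝ) : ℂ) * Complex.exp (Complex.I * n * t)‖ ^ 2 ≤
      (2 / (c * c₁)) ^ 2 * s ^ (-(2 * a)) := by
    intro s hs0 hs1 hcos
    obtain ⟨N, hN⟩ := h₁ s hs0 hs1
    simp only [hcos] at hN
    have h2 := rs_up hc hg hg0 hu hu0 hrec hs hlow hr0 hr1 t (c₁ * s ^ a) (by positivity) N hN
    have h3 := pow_le_pow_left₀ (norm_nonneg _) h2 2
    refine h3.trans (le_of_eq ?_)
    have h4 : s ^ (-(2 * a)) = ((s ^ a) ^ 2)⁻¹ := by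
      rw [Real.rpow_neg hs0.le, ← Real.rpow_natCast, ← Real.rpow_mul hs0.le]
      congr 2
      push_cast
      ring
    rw [h4]
    have : s ^ a ≠ 0 := (Real.rpow_pos_of_pos hs0 a).ne'
    field_simp
  have hK : 0 ≤ (2 / (c * c₁)) ^ 2 := by positivity
  rcases le_total (t - k * Real.pi) (Real.pi / 2) with h5 | h5
  · refine (key _ hpos1 h5 fun n => ?_).trans ?_
    · have : 2 * n * (t - k * Real.pi) = 2 * n * t - (n * k : ℕ) * (2 * Real.pi) := by
        push_cast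
        ring
      rw [this, Real.cos_sub_nat_mul_two_pi]
    · refine mul_le_mul_of_nonneg_left ?_ hK
      have : 0 ≤ ((k + 1) * Real.pi - t) ^ (-(2 * a)) := by positivity
      linarith
  · refine (key ((k + 1) * Real.pi - t) hpos2 (by linarith) fun n => ?_).trans ?_
    · have : 2 * n * ((k + 1) * Real.pi - t) = (n * (k + 1) : ℕ) * (2 * Real.pi) - 2 * n * t := by
        push_cast
        ring
      rw [this, Real.cos_nat_mul_two_pi_sub]
    · refine mul_le_mul_of_nonneg_left ?_ hK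
      have : 0 ≤ (t - k * Real.pi) ^ (-(2 * a)) := by positivity
      linarith

theorem rs_int {a : ℝ} (ha : a < 1 / 2) (k : ℕ) (K : ℝ) :
    IntervalIntegrable (fun t : ℝ => K * ((t - k * Real.pi) ^ (-(2 * a)) +
      ((k + 1) * Real.pi - t) ^ (-(2 * a)))) volume (k * Real.pi) ((k + 1) * Real.pi) := by
  have h0 : ∀ b c : ℝ, IntervalIntegrable (fun x : ℝ => x ^ (-(2 * a))) volume b c := fun b c =>
    intervalIntegral.intervalIntegrable_rpow' (by linarith)
  refine IntervalIntegrable.const_mul (IntervalIntegrable.add ?_ ?_) _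
  · have h1 := (h0 0 Real.pi).comp_sub_right (k * Real.pi)
    have e1 : 0 + (k : ℝ) * Real.pi = k * Real.pi := by ring
    have e2 : Real.pi + (k : ℝ) * Real.pi = (k + 1) * Real.pi := by ring
    rwa [e1, e2] at h1
  · have h1 := (h0 Real.pi 0).comp_sub_left ((k + 1) * Real.pi)
    have e1 : ((k : ℝ) + 1) * Real.pi - Real.pi = k * Real.pi := by ring
    have e2 : ((k : ℝ) + 1) * Real.pi - 0 = (k + 1) * Real.pi := by ring
    rwa [e1, e2] at h1

/-- For `0 < r < 1` let `U t = ∑ u n r^n e^(int)`, `G t = ∑ g n r^n e^(int)`: `|G| ≤ r < 1` (`g 0 = 0`),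
`U = 1 + G U`, `|1 - G| ≥ Re (1 - G) ≥ ∑ g n (1 - r^n cos (nt)) ≥ (1/2) ∑ g n (1 - cos (nt))
≥ (c/2) ∑ (2n)^(-(1+a)) (1 - cos (2nt)) ≥ c' dist (t, π ℤ)^a` (`trig_low`; if `dist > 1` it is at least
a positive constant, e.g. by `n = 1` or `n = 2`). So `∑ (u n r^n)² ≤ (2π)⁻¹ ∫ |U|² ≤ C ∫ dist^(-2a) < ∞`
(`parseval_le`); let `r → 1`. -/
theorem ren_sq {c a : ℝ} (hc : 0 < c) (ha0 : 0 < a) (ha : a < 1 / 2) : ∃ U : ℝ, 0 < U ∧
    ∀ g u : ℕ → ℝ, (∀ n, 0 ≤ g n) → g 0 = 0 → (∀ n, 0 ≤ u n) → u 0 = 1 →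
      (∀ n, n ≠ 0 → u n = ∑ m ∈ Finset.Ioc 0 n, g m * u (n - m)) →
      (∀ N : ℕ, ∑ n ∈ range N, g n ≤ 1) →
      (∀ n : ℕ, 1 ≤ n → c * ((2 * n : ℕ) : ℝ) ^ (-(1 + a)) ≤ g (2 * n)) →
      ∀ N : ℕ, ∑ n ∈ range N, u n ^ 2 ≤ U ^ 2 := by
  obtain ⟨c₁, hc₁, h₁⟩ := trig_low2 ha0 ha
  set H : ℕ → ℝ → ℝ := fun k t => (2 / (c * c₁)) ^ 2 * ((t - k * Real.pi) ^ (-(2 * a)) +
      ((k + 1) * Real.pi - t) ^ (-(2 * a))) with hH
  set K : ℝ := (2 * Real.pi)⁻¹ * ((∫ t in ((0 : ℕ) * Real.pi)..(((0 : ℕ) + 1) * Real.pi), H 0 t) +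
    ∫ t in ((1 : ℕ) * Real.pi)..(((1 : ℕ) + 1) * Real.pi), H 1 t) with hK
  refine ⟨Real.sqrt (max K 0 + 1), by positivity, ?_⟩
  intro g u hg hg0 hu hu0 hrec hs hlow N
  rw [Real.sq_sqrt (by positivity)]
  have hu1 := rs_le_one hg hu0 hrec hs
  have hr : ∀ r : ℝ, 0 ≤ r → r < 1 → ∑ n ∈ range N, (u n * r ^ n) ^ 2 ≤ K := by
    intro r hr0 hr1
    have hsum : Summable fun n => |u n * r ^ n| := by
      refine Summable.of_nonneg_of_le (fun _ => abs_nonneg _) (fun n => ?_)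
        (summable_geometric_of_lt_one hr0 hr1)
      rw [abs_of_nonneg (mul_nonneg (hu n) (by positivity))]
      exact mul_le_of_le_one_left (by positivity) (hu1 n)
    refine (parseval_le hsum N).trans ?_
    have hcont : Continuous fun t : ℝ =>
        ‖∑' n : ℕ, ((u n * r ^ n : ℝ) : ℂ) * Complex.exp (Complex.I * n * t)‖ ^ 2 := by
      refine (Continuous.norm ?_).pow 2
      refine continuous_tsum (fun n => by fun_prop) hsum fun n t => ?_
      rw [par_norm (fun n => u n * r ^ n)]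
    have hint : ∀ b d : ℝ, IntervalIntegrable (fun t : ℝ =>
        ‖∑' n : ℕ, ((u n * r ^ n : ℝ) : ℂ) * Complex.exp (Complex.I * n * t)‖ ^ 2) volume b d :=
      fun b d => hcont.intervalIntegrable b d
    have hk : ∀ k : ℕ, ∫ t in (k * Real.pi)..((k + 1) * Real.pi),
        ‖∑' n : ℕ, ((u n * r ^ n : ℝ) : ℂ) * Complex.exp (Complex.I * n * t)‖ ^ 2 ≤
        ∫ t in (k * Real.pi)..((k + 1) * Real.pi), H k t := by
      intro k
      refine intervalIntegral.integral_mono_on_of_le_Ioo ?_ (hint _ _) (rs_int ha k _) ?_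
      · have := Real.pi_pos
        nlinarith
      · intro t ht
        exact rs_pt hc hc₁ h₁ hg hg0 hu hu0 hrec hs hlow hr0 hr1 k t ht
    have e0 : ((0 : ℕ) : ℝ) * Real.pi = 0 := by simp
    have e1 : (((0 : ℕ) : ℝ) + 1) * Real.pi = ((1 : ℕ) : ℝ) * Real.pi := by simp
    have e2 : (((1 : ℕ) : ℝ) + 1) * Real.pi = 2 * Real.pi := by
      push_cast
      ring
    have hsplit : ∫ t in (0 : ℝ)..(2 * Real.pi),
        ‖∑' n : ℕ, ((u n * r ^ n : ℝ) : ℂ) * Complex.exp (Complex.I * n * t)‖ ^ 2 =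
        (∫ t in ((0 : ℕ) * Real.pi)..(((0 : ℕ) + 1) * Real.pi),
          ‖∑' n : ℕ, ((u n * r ^ n : ℝ) : ℂ) * Complex.exp (Complex.I * n * t)‖ ^ 2) +
        ∫ t in ((1 : ℕ) * Real.pi)..(((1 : ℕ) + 1) * Real.pi),
          ‖∑' n : ℕ, ((u n * r ^ n : ℝ) : ℂ) * Complex.exp (Complex.I * n * t)‖ ^ 2 := by
      rw [e0, e1, e2, intervalIntegral.integral_add_adjacent_intervals (hint _ _) (hint _ _)]
    rw [hsplit, hK]
    refine mul_le_mul_of_nonneg_left (add_le_add (hk 0) (hk 1)) (by positivity)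
  have hlim : Tendsto (fun r : ℝ => ∑ n ∈ range N, (u n * r ^ n) ^ 2) (𝓝[<] 1)
      (𝓝 (∑ n ∈ range N, (u n * 1 ^ n) ^ 2)) := by
    have hcont : Continuous fun r : ℝ => ∑ n ∈ range N, (u n * r ^ n) ^ 2 := by fun_prop
    exact (hcont.tendsto 1).mono_left nhdsWithin_le_nhds
  have hle : ∑ n ∈ range N, (u n * 1 ^ n) ^ 2 ≤ K := by
    refine le_of_tendsto hlim ?_
    have h7 : ∀ᶠ r : ℝ in 𝓝[<] 1, 0 ≤ r := by
      refine nhdsWithin_le_nhds ?_
      filter_upwards [lt_mem_nhds (show (0 : ℝ) < 1 by norm_num)] with r hr using hr.le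
    filter_upwards [h7, self_mem_nhdsWithin] with r h8 h9
    exact hr r h8 h9
  simp only [one_pow, mul_one] at hle
  refine hle.trans ?_
  have := le_max_left K 0
  linarith

end

end Pool.Agent.HG
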