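import Pool.Agent.Lib.MP_daa227_pr_HG.Defs
import Pool.Agent.Lib.MP_daa227_pr_HZ.Strat
import Pool.Agent.Lib.MP_daa227_pr_HZ.MomId

/-!
# MP_daa227_pr, small inverse temperature: the second moment
-/

namespace Pool.Agent.HG

open MeasureTheory ProbabilityTheory Finset Filter Topology
open MP_daa227_pr (Chain Zk Zf Gk Gf KU K0 Ren shift seqLaw ExpMom DepOn Good GoodW mom)
open Pool.Agent.HZ (Mod Kv lmg)
open Pool.Agent.IOrd (Sys aS cv)

noncomputable section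

/-- `T2 n H x y = E_{x,y}[exp (∑ v(S_i) + v(S'_i)) H(S_n, S'_n)]` -/
def T2 (C : Chain) (v : ℤ → ℝ) : ℕ → (ℤ → ℤ → ℝ) → ℤ → ℤ → ℝ
  | 0, H, x, y => H x y
  | n + 1, H, x, y => ∑ z ∈ Finset.Icc (x - 1) (x + 1), ∑ z' ∈ Finset.Icc (y - 1) (y + 1),
      C.p x z * C.p y z' * (Real.exp (v z + v z') * T2 C v n H z z')

/-- `Fn n x = E_x[exp (∑ v(S_i)) η(S_n)]` -/
def Fn (C : Chain) (v η : ℤ → ℝ) : ℕ → ℤ → ℝ
  | 0, x => η x
  | n + 1, x => ∑ z ∈ Finset.Icc (x - 1) (x + 1), C.p x z * Real.exp (v z) * Fn C v η n z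

theorem fn_nonneg (C : Chain) (v : ℤ → ℝ) {η : ℤ → ℝ} (hη : ∀ x, 0 ≤ η x) (n : ℕ) (x : ℤ) :
    0 ≤ Fn C v η n x := by
  induction n generalizing x with
  | zero => exact hη x
  | succ n ih =>
    exact Finset.sum_nonneg fun z _ =>
      mul_nonneg (mul_nonneg (C.nonneg _ _) (Real.exp_pos _).le) (ih z)

theorem fn_zd (C : Chain) (v : ℤ → ℝ) (n : ℕ) (x y : ℤ) :
    Fn C v (fun z => if z = y then 1 else 0) n x = HZ.Zd C v n x y := by
  induction n generalizing x with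
  | zero =>
    unfold HZ.Zd
    rw [Zk]
    rfl
  | succ n ih =>
    have h : HZ.Zd C v (n + 1) x y = ∑ z ∈ Finset.Icc (x - 1) (x + 1),
      C.p x z * Real.exp (v z) * HZ.Zd C v n z y := rfl
    rw [h, Fn]
    exact Finset.sum_congr rfl fun z _ => by rw [ih z]

theorem t2_mul (C : Chain) (v f g : ℤ → ℝ) (n : ℕ) (x y : ℤ) :
    T2 C v n (fun z z' => f z * g z') x y = Fn C v f n x * Fn C v g n y := by
  induction n generalizing x y with
  | zero => rfl
  | succ n ih =>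
    rw [T2, Fn, Fn, Finset.sum_mul_sum]
    refine Finset.sum_congr rfl fun z _ => Finset.sum_congr rfl fun z' _ => ?_
    rw [ih z z', Real.exp_add]
    ring

theorem t2_mono (C : Chain) (v : ℤ → ℝ) {H H' : ℤ → ℤ → ℝ} (hH : ∀ z z', H z z' ≤ H' z z')
    (n : ℕ) (x y : ℤ) : T2 C v n H x y ≤ T2 C v n H' x y := by
  induction n generalizing x y with
  | zero => exact hH x y
  | succ n ih =>
    rw [T2, T2]
    refine Finset.sum_le_sum fun z _ => Finset.sum_le_sum fun z' _ => ?_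
    exact mul_le_mul_of_nonneg_left (mul_le_mul_of_nonneg_left (ih z z') (Real.exp_pos _).le)
      (mul_nonneg (C.nonneg _ _) (C.nonneg _ _))

theorem t2_smul (C : Chain) (v : ℤ → ℝ) (c : ℝ) (H : ℤ → ℤ → ℝ) (n : ℕ) (x y : ℤ) :
    T2 C v n (fun z z' => c * H z z') x y = c * T2 C v n H x y := by
  induction n generalizing x y with
  | zero => rfl
  | succ n ih =>
    rw [T2, T2, Finset.mul_sum]
    refine Finset.sum_congr rfl fun z _ => ?_
    rw [Finset.mul_sum]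
    refine Finset.sum_congr rfl fun z' _ => ?_
    rw [ih z z']
    ring

/-- two replicas: `D n x y = E[Z_n(x → 0) Z_n(y → 0)]` -/
def D2 (M : Mod) (h : ℝ) (n : ℕ) (x y : ℤ) : ℝ :=
  ∫ ω, Zk M.C (M.W h) n ω x 0 * Zk M.C (M.W h) n ω y 0 ∂seqLaw M.μ

theorem int_WW (M : Mod) (h : ℝ) (z z' : ℤ) :
    Integrable (fun a => M.W h a z * M.W h a z') M.μ := by
  have h1 : ∀ a : ℝ, M.W h a z * M.W h a z' =
      Real.exp ((M.β * M.φ z + M.β * M.φ z') * a) * Real.exp (-h * (M.φ z + M.φ z')) := fun a => by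
    unfold HZ.Mod.W
    rw [← Real.exp_add, ← Real.exp_add]
    congr 1
    ring
  simp_rw [h1]
  exact (M.exp_mom (M.β * M.φ z + M.β * M.φ z')).mul_const _

theorem meas_W (M : Mod) (h : ℝ) (z : ℤ) : Measurable (fun a => M.W h a z) := by
  unfold HZ.Mod.W
  fun_prop

/-- the product of the weights of the first charge -/
theorem int_X (M : Mod) (h : ℝ) (z z' : ℤ) :
    Integrable (fun ω : ℕ → ℝ => M.W h (ω 0) z * M.W h (ω 0) z') (seqLaw M.μ) :=
  MP_daa227_pr.integrable_apply M.μ 0 (Y := fun a => M.W h a z * M.W h a z')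
    ((meas_W M h z).mul (meas_W M h z')) (int_WW M h z z')

theorem meas_X (M : Mod) (h : ℝ) (z z' : ℤ) :
    Measurable (fun ω : ℕ → ℝ => M.W h (ω 0) z * M.W h (ω 0) z') :=
  ((meas_W M h z).mul (meas_W M h z')).comp (measurable_pi_apply 0)

theorem dep_X (M : Mod) (h : ℝ) (z z' : ℤ) :
    DepOn 1 (fun ω : ℕ → ℝ => M.W h (ω 0) z * M.W h (ω 0) z') := by
  intro ω ω' hω
  dsimp only
  rw [hω 0 one_pos]

theorem meas_ZZ (M : Mod) (h : ℝ) (n : ℕ) (x y : ℤ) :
    Measurable (fun ω : ℕ → ℝ => Zk M.C (M.W h) n ω x 0 * Zk M.C (M.W h) n ω y 0) :=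
  (M.good_Zk h n x 0).meas.mul (M.good_Zk h n y 0).meas

theorem zz_succ (M : Mod) (h : ℝ) (n : ℕ) (x y : ℤ) (ω : ℕ → ℝ) :
    Zk M.C (M.W h) (n + 1) ω x 0 * Zk M.C (M.W h) (n + 1) ω y 0 =
      ∑ z ∈ Finset.Icc (x - 1) (x + 1), ∑ z' ∈ Finset.Icc (y - 1) (y + 1),
        M.C.p x z * M.C.p y z' * ((M.W h (ω 0) z * M.W h (ω 0) z') *
          (Zk M.C (M.W h) n (shift 1 ω) z 0 * Zk M.C (M.W h) n (shift 1 ω) z' 0)) := by
  rw [Zk, Zk, Finset.sum_mul_sum]
  refine Finset.sum_congr rfl fun z _ => Finset.sum_congr rfl fun z' _ => ?_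
  ring

theorem int_ZZ (M : Mod) (h : ℝ) (n : ℕ) (x y : ℤ) :
    Integrable (fun ω : ℕ → ℝ => Zk M.C (M.W h) n ω x 0 * Zk M.C (M.W h) n ω y 0)
      (seqLaw M.μ) := by
  induction n generalizing x y with
  | zero =>
    simp only [Zk]
    exact integrable_const _
  | succ n ih =>
    simp only [zz_succ]
    refine integrable_finsetSum _ fun z _ => integrable_finsetSum _ fun z' _ => ?_
    refine Integrable.const_mul ?_ _
    exact HZ.Strat.integrable_mul_shift M.μ (meas_X M h z z') (dep_X M h z z')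
      (meas_ZZ M h n z z') (int_X M h z z') (ih z z')

/-- first step, independence of `ω 0` and `shift 1 ω` (`HZ.integral_mul_shift`), integrability by
`M.good_Zk` -/
theorem d2_succ (M : Mod) (h : ℝ) (n : ℕ) (x y : ℤ) : D2 M h (n + 1) x y =
    ∑ z ∈ Finset.Icc (x - 1) (x + 1), ∑ z' ∈ Finset.Icc (y - 1) (y + 1),
      M.C.p x z * M.C.p y z' * ((∫ a, M.W h a z * M.W h a z' ∂M.μ) * D2 M h n z z') := by
  unfold D2
  simp only [zz_succ]
  have hint : ∀ z z' : ℤ, Integrable (fun ω : ℕ → ℝ => (M.W h (ω 0) z * M.W h (ω 0) z') *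
      (Zk M.C (M.W h) n (shift 1 ω) z 0 * Zk M.C (M.W h) n (shift 1 ω) z' 0)) (seqLaw M.μ) :=
    fun z z' => HZ.Strat.integrable_mul_shift M.μ (meas_X M h z z') (dep_X M h z z')
      (meas_ZZ M h n z z') (int_X M h z z') (int_ZZ M h n z z')
  rw [integral_finsetSum _ fun z _ => integrable_finsetSum _ fun z' _ =>
    (hint z z').const_mul _]
  refine Finset.sum_congr rfl fun z _ => ?_
  rw [integral_finsetSum _ fun z' _ => (hint z z').const_mul _]
  refine Finset.sum_congr rfl fun z' _ => ?_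
  rw [integral_const_mul, HZ.Strat.integral_mul_shift M.μ (meas_X M h z z') (dep_X M h z z')
    (meas_ZZ M h n z z')]
  congr 2
  exact MP_daa227_pr.integral_apply M.μ 0 (Y := fun a => M.W h a z * M.W h a z')
    ((meas_W M h z).mul (meas_W M h z'))

theorem d2_nonneg (M : Mod) (h : ℝ) (n : ℕ) (x y : ℤ) : 0 ≤ D2 M h n x y :=
  integral_nonneg fun ω => mul_nonneg ((M.good_Zk h n x 0).nonneg ω) ((M.good_Zk h n y 0).nonneg ω)

/-- `mom 2 (Z (2n)) = D2 (2n) 0 0` -/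
theorem mom_two (M : Mod) (h : ℝ) (n : ℕ) :
    mom M.μ 2 (fun ω => M.Z h n ω) = ENNReal.ofReal (D2 M h n 0 0) := by
  have h0 := int_ZZ M h n 0 0
  unfold D2
  rw [ofReal_integral_eq_lintegral_ofReal h0 (ae_of_all _ fun ω =>
    mul_nonneg ((M.good_Zk h n 0 0).nonneg ω) ((M.good_Zk h n 0 0).nonneg ω))]
  unfold mom
  refine lintegral_congr fun ω => ?_
  change ENNReal.ofReal (Zk M.C (M.W h) n ω 0 0) ^ (2 : ℝ) = _
  rw [ENNReal.ofReal_mul ((M.good_Zk h n 0 0).nonneg ω), ← sq]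
  exact_mod_cast ENNReal.rpow_natCast _ 2

/-- the second moment is bounded by a sum over the last interaction -/
theorem d2_le (M : Mod) {h κ : ℝ}
    (hw2 : ∀ z z' : ℤ, ∫ a, M.W h a z * M.W h a z' ∂M.μ ≤
      Real.exp (M.v h z + M.v h z') * (1 + κ * (M.φ z * M.φ z'))) (n : ℕ) (x y : ℤ) :
    D2 M h n x y ≤ HZ.Zd M.C (M.v h) n x 0 * HZ.Zd M.C (M.v h) n y 0 +
      ∑ i ∈ range n, T2 M.C (M.v h) (i + 1)
        (fun z z' => κ * (M.φ z * M.φ z') * D2 M h (n - 1 - i) z z') x y := by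
  induction n generalizing x y with
  | zero =>
    have h1 : D2 M h 0 x y = HZ.Zd M.C (M.v h) 0 x 0 * HZ.Zd M.C (M.v h) 0 y 0 := by
      unfold D2 HZ.Zd
      simp only [Zk]
      rw [integral_const]
      simp
    rw [h1]
    simp
  | succ n ih =>
    have hstep : D2 M h (n + 1) x y ≤
        ∑ z ∈ Finset.Icc (x - 1) (x + 1), ∑ z' ∈ Finset.Icc (y - 1) (y + 1),
          (M.C.p x z * M.C.p y z' * (Real.exp (M.v h z + M.v h z') *
            (κ * (M.φ z * M.φ z') * D2 M h n z z')) +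
          M.C.p x z * M.C.p y z' * (Real.exp (M.v h z + M.v h z') * D2 M h n z z')) := by
      rw [d2_succ]
      refine Finset.sum_le_sum fun z _ => Finset.sum_le_sum fun z' _ => ?_
      rw [← mul_add]
      refine mul_le_mul_of_nonneg_left ?_ (mul_nonneg (M.C.nonneg _ _) (M.C.nonneg _ _))
      refine (mul_le_mul_of_nonneg_right (hw2 z z') (d2_nonneg M h n z z')).trans (le_of_eq ?_)
      ring
    refine hstep.trans ?_
    have hz : ∀ (m : ℕ) (w : ℤ), HZ.Zd M.C (M.v h) (m + 1) w 0 =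
        ∑ z ∈ Finset.Icc (w - 1) (w + 1), M.C.p w z * Real.exp (M.v h z) *
          HZ.Zd M.C (M.v h) m z 0 := fun _ _ => rfl
    rw [Finset.sum_range_succ']
    have hsec : ∑ z ∈ Finset.Icc (x - 1) (x + 1), ∑ z' ∈ Finset.Icc (y - 1) (y + 1),
        M.C.p x z * M.C.p y z' * (Real.exp (M.v h z + M.v h z') * D2 M h n z z') ≤
        HZ.Zd M.C (M.v h) (n + 1) x 0 * HZ.Zd M.C (M.v h) (n + 1) y 0 +
        ∑ i ∈ range n, T2 M.C (M.v h) (i + 1 + 1)
          (fun z z' => κ * (M.φ z * M.φ z') * D2 M h (n + 1 - 1 - (i + 1)) z z') x y := by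
      have h2 : HZ.Zd M.C (M.v h) (n + 1) x 0 * HZ.Zd M.C (M.v h) (n + 1) y 0 +
        ∑ i ∈ range n, T2 M.C (M.v h) (i + 1 + 1)
          (fun z z' => κ * (M.φ z * M.φ z') * D2 M h (n + 1 - 1 - (i + 1)) z z') x y =
        ∑ z ∈ Finset.Icc (x - 1) (x + 1), ∑ z' ∈ Finset.Icc (y - 1) (y + 1),
          M.C.p x z * M.C.p y z' * (Real.exp (M.v h z + M.v h z') *
            (HZ.Zd M.C (M.v h) n z 0 * HZ.Zd M.C (M.v h) n z' 0 +
              ∑ i ∈ range n, T2 M.C (M.v h) (i + 1)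
                (fun z z' => κ * (M.φ z * M.φ z') * D2 M h (n - 1 - i) z z') z z')) := by
        rw [hz, hz, Finset.sum_mul_sum]
        have h3 : ∀ i ∈ range n, T2 M.C (M.v h) (i + 1 + 1)
            (fun z z' => κ * (M.φ z * M.φ z') * D2 M h (n + 1 - 1 - (i + 1)) z z') x y =
            ∑ z ∈ Finset.Icc (x - 1) (x + 1), ∑ z' ∈ Finset.Icc (y - 1) (y + 1),
              M.C.p x z * M.C.p y z' * (Real.exp (M.v h z + M.v h z') *
                T2 M.C (M.v h) (i + 1)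
                  (fun z z' => κ * (M.φ z * M.φ z') * D2 M h (n - 1 - i) z z') z z') := by
          intro i _
          have h4 : n + 1 - 1 - (i + 1) = n - 1 - i := by omega
          rw [T2, h4]
        rw [Finset.sum_congr rfl h3, Finset.sum_comm (s := range n), ← Finset.sum_add_distrib]
        refine Finset.sum_congr rfl fun z _ => ?_
        rw [Finset.sum_comm (s := range n), ← Finset.sum_add_distrib]
        refine Finset.sum_congr rfl fun z' _ => ?_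
        rw [← Finset.mul_sum, ← Finset.mul_sum, Real.exp_add]
        ring
      rw [h2]
      refine Finset.sum_le_sum fun z _ => Finset.sum_le_sum fun z' _ => ?_
      exact mul_le_mul_of_nonneg_left (mul_le_mul_of_nonneg_left (ih z z') (Real.exp_pos _).le)
        (mul_nonneg (M.C.nonneg _ _) (M.C.nonneg _ _))
    have hfirst : ∑ z ∈ Finset.Icc (x - 1) (x + 1), ∑ z' ∈ Finset.Icc (y - 1) (y + 1),
        M.C.p x z * M.C.p y z' * (Real.exp (M.v h z + M.v h z') *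
          (κ * (M.φ z * M.φ z') * D2 M h n z z')) =
        T2 M.C (M.v h) (0 + 1)
          (fun z z' => κ * (M.φ z * M.φ z') * D2 M h (n + 1 - 1 - 0) z z') x y := rfl
    simp only [Finset.sum_add_distrib]
    rw [hfirst]
    linarith

/-- Let `V = M.v h`, `a n = Zd V n · 0`, `f i = Fn V (φ w) i`. By induction on `n` (unrolling
`d2_succ` with `E[W W'] ≤ e^(V+V') (1 + κ φ φ')` and the linearity and the semigroup property of `T2`):
`D2 n x y ≤ a n x a n y + ∑_{i<n} T2 (i+1) (κ φ φ' D2 (n-1-i)) x y`. Strong induction: if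
`D2 m ≤ 2 B₁² w w'` for `m < n`, then by `t2_mul` and Cauchy-Schwarz
`D2 n x y ≤ B₁² w x w y + 2 κ B₁² ∑_i f (i+1) x f (i+1) y ≤ (B₁² + 2 κ B₁² B₂²) w x w y ≤
2 B₁² w x w y`. -/
theorem two_bound (M : Mod) {h κ : ℝ} (hκ : 0 ≤ κ)
    (hw2 : ∀ z z' : ℤ, ∫ a, M.W h a z * M.W h a z' ∂M.μ ≤
      Real.exp (M.v h z + M.v h z') * (1 + κ * (M.φ z * M.φ z'))) {w : ℤ → ℝ}
    (hw : ∀ x, 0 ≤ w x) {B₁ B₂ : ℝ} (hB₁ : 0 ≤ B₁) (hB₂ : 0 ≤ B₂)
    (ha : ∀ (n : ℕ) (x : ℤ), HZ.Zd M.C (M.v h) n x 0 ≤ B₁ * w x)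
    (hf : ∀ (n : ℕ) (x : ℤ),
      ∑ i ∈ range n, Fn M.C (M.v h) (fun z => M.φ z * w z) (i + 1) x ^ 2 ≤ (B₂ * w x) ^ 2)
    (hκB : κ * B₂ ^ 2 ≤ 1 / 2) (n : ℕ) (x y : ℤ) :
    D2 M h n x y ≤ 2 * B₁ ^ 2 * (w x * w y) := by
  induction n using Nat.strong_induction_on generalizing x y with
  | _ n ih =>
    refine (d2_le M hw2 n x y).trans ?_
    have h1 : HZ.Zd M.C (M.v h) n x 0 * HZ.Zd M.C (M.v h) n y 0 ≤
        (B₁ * w x) * (B₁ * w y) :=
      mul_le_mul (ha n x) (ha n y) (HZ.Zd_nonneg _ _ _ _ _) (mul_nonneg hB₁ (hw x))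
    have h2 : ∀ i ∈ range n, T2 M.C (M.v h) (i + 1)
        (fun z z' => κ * (M.φ z * M.φ z') * D2 M h (n - 1 - i) z z') x y ≤
        2 * κ * B₁ ^ 2 * (Fn M.C (M.v h) (fun z => M.φ z * w z) (i + 1) x *
          Fn M.C (M.v h) (fun z => M.φ z * w z) (i + 1) y) := by
      intro i hi
      have hi' := Finset.mem_range.mp hi
      rw [← t2_mul, ← t2_smul]
      refine t2_mono M.C (M.v h) (fun z z' => ?_) _ x y
      have h3 := ih (n - 1 - i) (by omega) z z'
      have h4 : 0 ≤ κ * (M.φ z * M.φ z') :=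
        mul_nonneg hκ (mul_nonneg (M.φ_nonneg z) (M.φ_nonneg z'))
      refine (mul_le_mul_of_nonneg_left h3 h4).trans (le_of_eq ?_)
      ring
    have h5 := Finset.sum_le_sum h2
    rw [← Finset.mul_sum] at h5
    have h6 : ∑ i ∈ range n, Fn M.C (M.v h) (fun z => M.φ z * w z) (i + 1) x *
        Fn M.C (M.v h) (fun z => M.φ z * w z) (i + 1) y ≤ B₂ ^ 2 * (w x * w y) := by
      refine abs_le_of_sq_le_sq' ?_ (mul_nonneg (sq_nonneg _) (mul_nonneg (hw x) (hw y))) |>.2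
      refine (Finset.sum_mul_sq_le_sq_mul_sq _ _ _).trans ?_
      refine (mul_le_mul (hf n x) (hf n y) (Finset.sum_nonneg fun _ _ => sq_nonneg _)
        (sq_nonneg _)).trans (le_of_eq ?_)
      ring
    have h7 : 0 ≤ 2 * κ * B₁ ^ 2 := by positivity
    have h8 := mul_le_mul_of_nonneg_left h6 h7
    have h9 : 0 ≤ w x * w y := mul_nonneg (hw x) (hw y)
    have h10 : 0 ≤ B₁ ^ 2 * (w x * w y) := mul_nonneg (sq_nonneg _) h9
    have h11 := mul_le_mul_of_nonneg_left hκB h10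
    nlinarith [h5, h8, h11, h1]

end

end Pool.Agent.HG
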