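import Pool.Agent.Lib.MP_daa227_pr_HG.MLow

/-!
# MP_daa227_pr, marginal case: moments and the inequality of Hölder
-/

namespace Pool.Agent.HG

open MeasureTheory ProbabilityTheory Finset Filter Topology
open MP_daa227_pr (Chain Zk Zf Gk Gf KU K0 Ren shift seqLaw ExpMom DepOn Good GoodW mom)
open Pool.Agent.HZ (Mod Kv lmg)
open Pool.Agent.IOrd (Sys aS cv)

noncomputable section

/-- Lyapunov: a bounded moment of order `p' > 1` gives a bounded moment of order `p ∈ (1, p']`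
(`x^p ≤ 1 + x^p'`); so we may take `p = 2k/(2k-1)` with `k` large. -/
theorem mom_lower {μ : Measure ℝ} [IsProbabilityMeasure μ] {F : (ℕ → ℝ) → ℝ} {p p' K : ℝ}
    (hp : 0 < p) (hpp : p ≤ p') (hK : 0 ≤ K) (hb : mom μ p' F ≤ ENNReal.ofReal K) :
    mom μ p F ≤ ENNReal.ofReal (1 + K) := by
  rw [ENNReal.ofReal_add zero_le_one hK, ENNReal.ofReal_one]
  calc mom μ p F ≤ ∫⁻ ω, (1 + ENNReal.ofReal (F ω) ^ p') ∂seqLaw μ := by
        unfold mom
        refine lintegral_mono fun ω => ?_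
        rcases le_total (ENNReal.ofReal (F ω)) 1 with h | h
        · exact (ENNReal.rpow_le_one h hp.le).trans le_self_add
        · exact (ENNReal.rpow_le_rpow_of_exponent_le h hpp).trans le_add_self
    _ = 1 + mom μ p' F := by
        rw [lintegral_add_left measurable_const, lintegral_const, measure_univ, mul_one]
        rfl
    _ ≤ 1 + ENNReal.ofReal K := by gcongr

/-- Hölder: with `p = 2k/(2k-1)`, `∫ X Q ≤ (mom p X)^(1/p) (∫ Q^(2k))^(1/(2k))` for `X ≥ 0` -/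
theorem holder_q {μ : Measure ℝ} [IsProbabilityMeasure μ] {X Q : (ℕ → ℝ) → ℝ} (hX : Measurable X)
    (hX0 : ∀ ω, 0 ≤ X ω) (hQ : Measurable Q) {B : ℝ} (hQB : ∀ ω, |Q ω| ≤ B) {k : ℕ} (hk : 1 ≤ k)
    {a b : ℝ} (ha : 0 ≤ a) (hb : 0 ≤ b)
    (h1 : mom μ (2 * k / (2 * k - 1) : ℝ) X ≤ ENNReal.ofReal (a ^ (2 * k / (2 * k - 1) : ℝ)))
    (h2 : ∫ ω, Q ω ^ (2 * k) ∂seqLaw μ ≤ (b ^ 2) ^ k) :
    ∫ ω, X ω * Q ω ∂seqLaw μ ≤ a * b := by
  have hab : 0 ≤ a * b := mul_nonneg ha hb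
  by_cases hi : Integrable (fun ω => X ω * Q ω) (seqLaw μ)
  swap
  · rw [integral_undef hi]
    exact hab
  have hk0 : (1 : ℝ) ≤ k := by exact_mod_cast hk
  have hk2 : (0 : ℝ) < 2 * k := by linarith
  have hk3 : (0 : ℝ) < 2 * k - 1 := by linarith
  set p : ℝ := 2 * k / (2 * k - 1) with hp
  have hp0 : 0 < p := div_pos hk2 hk3
  have hpq : p.HolderConjugate (2 * k : ℝ) := by
    rw [Real.holderConjugate_iff]
    refine ⟨?_, ?_⟩
    · rw [hp, lt_div_iff₀ hk3]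
      linarith
    · rw [hp, inv_div]
      field_simp
      ring
  have hB0 : 0 ≤ B := (abs_nonneg _).trans (hQB fun _ => 0)
  have hQi : Integrable (fun ω => Q ω ^ (2 * k)) (seqLaw μ) := by
    refine Integrable.of_bound (C := B ^ (2 * k)) (hQ.pow_const _).aestronglyMeasurable
      (ae_of_all _ fun ω => ?_)
    rw [Real.norm_eq_abs, abs_pow]
    exact pow_le_pow_left₀ (abs_nonneg _) (hQB ω) _
  have hQp : ∀ ω, 0 ≤ Q ω ^ (2 * k) := fun ω => by
    rw [pow_mul]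
    positivity
  have h3 : ∫⁻ ω, ENNReal.ofReal |Q ω| ^ (2 * k : ℝ) ∂seqLaw μ ≤
      ENNReal.ofReal (b ^ (2 * k : ℝ)) := by
    have h4 : ∀ ω, ENNReal.ofReal |Q ω| ^ (2 * k : ℝ) = ENNReal.ofReal (Q ω ^ (2 * k)) := by
      intro ω
      rw [ENNReal.ofReal_rpow_of_nonneg (abs_nonneg _) hk2.le]
      congr 1
      rw [show (2 * k : ℝ) = ((2 * k : ℕ) : ℝ) by push_cast; ring, Real.rpow_natCast, pow_mul,
        sq_abs, ← pow_mul]
    simp_rw [h4]
    rw [← ofReal_integral_eq_lintegral_ofReal hQi (ae_of_all _ hQp)]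
    refine ENNReal.ofReal_le_ofReal (h2.trans (le_of_eq ?_))
    rw [show (2 * k : ℝ) = ((2 * k : ℕ) : ℝ) by push_cast; ring, Real.rpow_natCast, ← pow_mul]
  have h5 := ENNReal.lintegral_mul_le_Lp_mul_Lq (seqLaw μ) hpq
    (f := fun ω => ENNReal.ofReal (X ω)) (g := fun ω => ENNReal.ofReal |Q ω|)
    hX.ennreal_ofReal.aemeasurable (hQ.abs).ennreal_ofReal.aemeasurable
  have h6 : (∫⁻ ω, ENNReal.ofReal (X ω) ^ p ∂seqLaw μ) ^ (1 / p) ≤ ENNReal.ofReal a := by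
    calc (∫⁻ ω, ENNReal.ofReal (X ω) ^ p ∂seqLaw μ) ^ (1 / p)
        ≤ (ENNReal.ofReal (a ^ p)) ^ (1 / p) := ENNReal.rpow_le_rpow h1 (by positivity)
      _ = ENNReal.ofReal a := by
        rw [ENNReal.ofReal_rpow_of_nonneg (by positivity) (by positivity), ← Real.rpow_mul ha,
          mul_one_div_cancel hp0.ne', Real.rpow_one]
  have h7 : (∫⁻ ω, ENNReal.ofReal |Q ω| ^ (2 * k : ℝ) ∂seqLaw μ) ^ (1 / (2 * k : ℝ)) ≤
      ENNReal.ofReal b := by
    calc (∫⁻ ω, ENNReal.ofReal |Q ω| ^ (2 * k : ℝ) ∂seqLaw μ) ^ (1 / (2 * k : ℝ))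
        ≤ (ENNReal.ofReal (b ^ (2 * k : ℝ))) ^ (1 / (2 * k : ℝ)) :=
          ENNReal.rpow_le_rpow h3 (by positivity)
      _ = ENNReal.ofReal b := by
        rw [ENNReal.ofReal_rpow_of_nonneg (by positivity) (by positivity), ← Real.rpow_mul hb,
          mul_one_div_cancel hk2.ne', Real.rpow_one]
  have h8 : ∫⁻ ω, ENNReal.ofReal (X ω * Q ω) ∂seqLaw μ ≤ ENNReal.ofReal (a * b) := by
    rw [ENNReal.ofReal_mul ha]
    refine le_trans (lintegral_mono fun ω => ?_) (h5.trans (mul_le_mul' h6 h7))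
    rw [Pi.mul_apply, ← ENNReal.ofReal_mul (hX0 ω)]
    exact ENNReal.ofReal_le_ofReal (mul_le_mul_of_nonneg_left (le_abs_self _) (hX0 ω))
  rw [integral_eq_lintegral_pos_part_sub_lintegral_neg_part hi]
  have h9 : (∫⁻ ω, ENNReal.ofReal (X ω * Q ω) ∂seqLaw μ).toReal ≤ a * b :=
    ENNReal.toReal_le_of_le_ofReal hab h8
  have h10 : 0 ≤ (∫⁻ ω, ENNReal.ofReal (-(X ω * Q ω)) ∂seqLaw μ).toReal := ENNReal.toReal_nonneg
  linarith

end

end Pool.Agent.HG
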