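import Pool.Agent.Lib.MP_daa227_pr_HG.SDef
import Pool.Agent.Lib.MP_daa227_pr_HG.ESk
import Pool.Agent.Lib.MP_daa227_pr_HZ.MomId

/-!
# MP_daa227_pr, exact order: basic properties of the block sums
-/

namespace Pool.Agent.HG

open MeasureTheory ProbabilityTheory Finset Filter Topology
open MP_daa227_pr (Chain Zk Zf Gk Gf KU K0 Ren shift seqLaw ExpMom DepOn Good GoodW mom)
open Pool.Agent.HZ (Mod Kv lmg)
open Pool.Agent.IOrd (Sys aS cv)

noncomputable section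

namespace SX

open scoped ENNReal

variable {μ : Measure ℝ} [IsProbabilityMeasure μ]

theorem mom_sum_le {ι : Type*} {p : ℝ} (hp : 1 ≤ p) (s : Finset ι) {F : ι → (ℕ → ℝ) → ℝ}
    (hF : ∀ i ∈ s, Measurable (F i)) (hF0 : ∀ i ∈ s, ∀ ω, 0 ≤ F i ω) {K : ℝ} (hK : 0 ≤ K)
    (hb : ∀ i ∈ s, mom μ p (F i) ≤ ENNReal.ofReal K) :
    mom μ p (fun ω => ∑ i ∈ s, F i ω) ≤ ENNReal.ofReal ((s.card : ℝ) ^ p * K) := by
  have hp0 : 0 ≤ p := zero_le_one.trans hp
  rcases s.eq_empty_or_nonempty with he | hne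
  · subst he
    have h0 : mom μ p (fun _ : ℕ → ℝ => (0 : ℝ)) = 0 :=
      MP_daa227_pr.mom_zero (by linarith)
    simp only [Finset.sum_empty]
    rw [h0]
    exact zero_le
  have hcard : (0 : ℝ) < s.card := by exact_mod_cast hne.card_pos
  have h1 : ∀ ω, ENNReal.ofReal (∑ i ∈ s, F i ω) ^ p ≤
      (s.card : ℝ≥0∞) ^ (p - 1) * ∑ i ∈ s, ENNReal.ofReal (F i ω) ^ p := by
    intro ω
    rw [ENNReal.ofReal_sum_of_nonneg fun i hi => hF0 i hi ω]
    exact ENNReal.rpow_sum_le_const_mul_sum_rpow _ _ hp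
  have hm : ∀ i ∈ s, Measurable fun ω => ENNReal.ofReal (F i ω) ^ p := fun i hi =>
    (hF i hi).ennreal_ofReal.pow_const p
  calc mom μ p (fun ω => ∑ i ∈ s, F i ω)
      ≤ ∫⁻ ω, (s.card : ℝ≥0∞) ^ (p - 1) * ∑ i ∈ s, ENNReal.ofReal (F i ω) ^ p ∂seqLaw μ :=
        lintegral_mono h1
    _ = (s.card : ℝ≥0∞) ^ (p - 1) * ∑ i ∈ s, mom μ p (F i) := by
        rw [lintegral_const_mul _ (Finset.measurable_fun_sum s hm), lintegral_finsetSum _ hm]
        rfl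
    _ ≤ (s.card : ℝ≥0∞) ^ (p - 1) * ∑ i ∈ s, ENNReal.ofReal K :=
        mul_le_mul_right (Finset.sum_le_sum hb) _
    _ = ENNReal.ofReal ((s.card : ℝ) ^ p * K) := by
        rw [Finset.sum_const, nsmul_eq_mul, ← mul_assoc, ENNReal.ofReal_mul (by positivity),
          ← ENNReal.ofReal_rpow_of_pos hcard, ENNReal.ofReal_natCast]
        congr 1
        have h2 : (s.card : ℝ≥0∞) ≠ 0 := by
          have := hne.card_pos
          exact_mod_cast this.ne'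
        have h3 : (s.card : ℝ≥0∞) ≠ ∞ := ENNReal.natCast_ne_top _
        have h4 := ENNReal.rpow_add (p - 1) 1 h2 h3
        rw [ENNReal.rpow_one] at h4
        rw [← h4]
        congr 1
        ring

theorem mom_one_sum {ι : Type*} (s : Finset ι) {F : ι → (ℕ → ℝ) → ℝ}
    (hF : ∀ i ∈ s, Measurable (F i)) (hF0 : ∀ i ∈ s, ∀ ω, 0 ≤ F i ω) {f : ι → ℝ}
    (hf : ∀ i ∈ s, 0 ≤ f i) (hb : ∀ i ∈ s, mom μ 1 (F i) = ENNReal.ofReal (f i)) :
    mom μ 1 (fun ω => ∑ i ∈ s, F i ω) = ENNReal.ofReal (∑ i ∈ s, f i) := by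
  rw [MP_daa227_pr.mom_one]
  have h1 : ∀ ω, ENNReal.ofReal (∑ i ∈ s, F i ω) = ∑ i ∈ s, ENNReal.ofReal (F i ω) := fun ω =>
    ENNReal.ofReal_sum_of_nonneg fun i hi => hF0 i hi ω
  simp_rw [h1]
  rw [lintegral_finsetSum _ fun i hi => (hF i hi).ennreal_ofReal,
    ENNReal.ofReal_sum_of_nonneg hf]
  refine Finset.sum_congr rfl fun i hi => ?_
  rw [← hb i hi, MP_daa227_pr.mom_one]

theorem Z_zero (M : Mod) (h : ℝ) (ω : ℕ → ℝ) : M.Z h 0 ω = 1 := by
  unfold Mod.Z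
  simp [Zk]

theorem meas_sh (M : Mod) (h : ℝ) (n k : ℕ) : Measurable fun ω => M.Z h n (shift k ω) :=
  (M.good_Z h n).meas.comp (MP_daa227_pr.measurable_shift k)

theorem dep_sh (M : Mod) (h : ℝ) {n k N : ℕ} (hN : n + k ≤ N) :
    DepOn N fun ω => M.Z h n (shift k ω) := by
  intro ω ω' hω
  refine (M.good_Z h n).depOn _ _ fun i hi => ?_
  exact hω (i + k) (by omega)

/-- the pairs of the double sum -/
def prs (l : ℕ) : Finset (Σ _ : ℕ, ℕ) := (range l).sigma fun a => range (l - a)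

theorem prs_card (l : ℕ) : (prs l).card ≤ l * l := by
  unfold prs
  rw [Finset.card_sigma]
  calc ∑ a ∈ range l, (range (l - a)).card ≤ ∑ _a ∈ range l, l :=
        Finset.sum_le_sum fun a _ => by rw [Finset.card_range]; omega
    _ = l * l := by rw [Finset.sum_const, Finset.card_range, smul_eq_mul]

theorem mem_prs {l : ℕ} {x : Σ _ : ℕ, ℕ} (h : x ∈ prs l) : x.1 + x.2 < l := by
  unfold prs at h
  rw [Finset.mem_sigma, Finset.mem_range, Finset.mem_range] at h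
  omega

theorem xb_eq (M : Mod) (h : ℝ) (l : ℕ) (ω : ℕ → ℝ) :
    XB M h l ω = ∑ x ∈ prs l, M.Z h (2 * x.2) (shift (2 * x.1) ω) := by
  unfold XB prs
  rw [Finset.sum_sigma]

end SX

/-- `M.good_Z`, shifts (the stretch uses the charges `2 a, .., 2 (a + c) - 1 < 2 l`) -/
theorem xb_meas (M : Mod) (h : ℝ) (l : ℕ) : Measurable (XB M h l) := by
  unfold XB
  exact Finset.measurable_fun_sum _ fun a _ => Finset.measurable_fun_sum _ fun c _ =>
    SX.meas_sh M h _ _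

theorem xb_dep (M : Mod) (h : ℝ) (l : ℕ) : DepOn (2 * l) (XB M h l) := by
  intro ω ω' hω
  unfold XB
  refine Finset.sum_congr rfl fun a ha => Finset.sum_congr rfl fun c hc => ?_
  rw [Finset.mem_range] at ha hc
  exact SX.dep_sh M h (n := 2 * c) (k := 2 * a) (N := 2 * l) (by omega) ω ω' hω

/-- the terms `c = 0` are `1` -/
theorem xb_ge (M : Mod) (h : ℝ) (l : ℕ) (ω : ℕ → ℝ) : (l : ℝ) ≤ XB M h l ω := by
  unfold XB
  calc (l : ℝ) = ∑ _a ∈ range l, (1 : ℝ) := by simp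
    _ ≤ _ := by
      refine Finset.sum_le_sum fun a ha => ?_
      rw [Finset.mem_range] at ha
      have h1 := Finset.single_le_sum
        (f := fun c => M.Z h (2 * c) (shift (2 * a) ω)) (s := range (l - a))
        (fun c _ => M.Z_nonneg h _ _) (Finset.mem_range.2 (by omega : 0 < l - a))
      simp only [mul_zero, SX.Z_zero] at h1
      exact h1

theorem tb_meas (M : Mod) (h : ℝ) (l k : ℕ) : Measurable (TB M h l k) := by
  unfold TB
  exact Finset.measurable_fun_sum _ fun b _ => (M.good_Z h _).meas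

theorem tb_dep (M : Mod) (h : ℝ) (l k : ℕ) : DepOn (2 * ((k + 1) * l)) (TB M h l k) := by
  intro ω ω' hω
  unfold TB
  refine Finset.sum_congr rfl fun b hb => ?_
  rw [Finset.mem_range] at hb
  refine (M.good_Z h _).depOn _ _ fun i hi => hω i ?_
  have h1 : (k + 1) * l = k * l + l := by ring
  omega

theorem tb_nonneg (M : Mod) (h : ℝ) (l k : ℕ) (ω : ℕ → ℝ) : 0 ≤ TB M h l k ω :=
  Finset.sum_nonneg fun _ _ => M.Z_nonneg h _ _

theorem tb_zero (M : Mod) (h : ℝ) {l : ℕ} (hl : 1 ≤ l) (ω : ℕ → ℝ) : 1 ≤ TB M h l 0 ω := by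
  have h1 := Finset.single_le_sum
    (f := fun b => M.Z h (2 * (0 * l + b)) ω) (s := range l)
    (fun c _ => M.Z_nonneg h _ _) (Finset.mem_range.2 (by omega : 0 < l))
  simp only [mul_zero, zero_mul, add_zero, SX.Z_zero] at h1
  unfold TB
  simp only [zero_mul]
  exact h1

/-- `M.mom_one_Zk` -/
theorem xb_mean (M : Mod) (h : ℝ) (l : ℕ) : mom M.μ 1 (XB M h l) =
    ENNReal.ofReal (∑ a ∈ range l, ∑ c ∈ range (l - a), HZ.Zd M.C (M.v h) (2 * c) 0 0) := by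
  have h0 : ∀ n : ℕ, 0 ≤ HZ.Zd M.C (M.v h) n 0 0 := fun n => HZ.Zd_nonneg M.C _ n 0 0
  unfold XB
  refine SX.mom_one_sum _ (fun a _ => Finset.measurable_fun_sum _ fun c _ =>
    SX.meas_sh M h _ _) (fun a _ ω => Finset.sum_nonneg fun c _ => M.Z_nonneg h _ _)
    (fun a _ => Finset.sum_nonneg fun c _ => h0 _) fun a _ => ?_
  refine SX.mom_one_sum _ (fun c _ => SX.meas_sh M h _ _) (fun c _ ω => M.Z_nonneg h _ _)
    (fun c _ => h0 _) fun c _ => ?_
  rw [MP_daa227_pr.mom_shift (G := fun ω => M.Z h (2 * c) ω) (M.good_Z h _).meas]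
  exact HZ.Mod.mom_one_Zk M h (2 * c) 0 0

/-- sum of exponentials (`es_Zk`, `ES.sum`, `ES.weaken`) -/
theorem xb_es (M : Mod) (h : ℝ) (l : ℕ) (ω : ℕ → ℝ) :
    ES (2 * l * M.Φ) (fun t => XB M (h - t) l ω) := by
  have hΦ := M.Φ_pos.le
  have hl : (0 : ℝ) ≤ 2 * l * M.Φ := by positivity
  unfold XB
  refine ES.sum _ hl fun a ha => ES.sum _ hl fun c hc => ?_
  rw [Finset.mem_range] at ha hc
  refine ES.weaken (es_Zk M h (2 * c) (shift (2 * a) ω) 0 0) ?_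
  have h1 : ((2 * c : ℕ) : ℝ) ≤ 2 * l := by
    have : 2 * c ≤ 2 * l := by omega
    exact_mod_cast this
  exact mul_le_mul_of_nonneg_right h1 hΦ

/-- `(∑_{i ≤ m} a_i)^p ≤ m^(p-1) ∑ a_i^p`, at most `l ^ 2` terms -/
theorem xb_mom (M : Mod) {h p K : ℝ} (hp : 1 ≤ p) (hK : 0 ≤ K)
    (hb : ∀ n : ℕ, mom M.μ p (fun ω => M.Z h (2 * n) ω) ≤ ENNReal.ofReal K) (l : ℕ) :
    mom M.μ p (XB M h l) ≤ ENNReal.ofReal ((l : ℝ) ^ (2 * p) * K) := by
  have h1 : mom M.μ p (XB M h l) =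
      mom M.μ p (fun ω => ∑ x ∈ SX.prs l, M.Z h (2 * x.2) (shift (2 * x.1) ω)) :=
    MP_daa227_pr.mom_congr fun ω => SX.xb_eq M h l ω
  rw [h1]
  refine (SX.mom_sum_le hp _ (fun x _ => SX.meas_sh M h _ _) (fun x _ ω => M.Z_nonneg h _ _) hK
    fun x _ => ?_).trans (ENNReal.ofReal_le_ofReal (mul_le_mul_of_nonneg_right ?_ hK))
  · rw [MP_daa227_pr.mom_shift (G := fun ω => M.Z h (2 * x.2) ω) (M.good_Z h _).meas]
    exact hb _
  · have h2 : ((SX.prs l).card : ℝ) ≤ (l : ℝ) ^ (2 : ℝ) := by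
      rw [Real.rpow_two, sq]
      exact_mod_cast SX.prs_card l
    rw [Real.rpow_mul (Nat.cast_nonneg l)]
    exact Real.rpow_le_rpow (Nat.cast_nonneg _) h2 (by linarith)

theorem tb_mom (M : Mod) {h p K : ℝ} (hp : 1 ≤ p) (hK : 0 ≤ K)
    (hb : ∀ n : ℕ, mom M.μ p (fun ω => M.Z h (2 * n) ω) ≤ ENNReal.ofReal K) (l k : ℕ) :
    mom M.μ p (TB M h l k) ≤ ENNReal.ofReal ((l : ℝ) ^ p * K) := by
  unfold TB
  have h1 := SX.mom_sum_le (μ := M.μ) hp (range l)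
    (F := fun b ω => M.Z h (2 * (k * l + b)) ω) (fun b _ => (M.good_Z h _).meas)
    (fun b _ ω => M.Z_nonneg h _ _) hK fun b _ => hb _
  rw [Finset.card_range] at h1
  exact h1

end

end Pool.Agent.HG
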