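import Pool.Agent.Lib.MP_daa227_pr_HG.MomB
import Pool.Agent.Lib.MP_daa227_pr.Deco

/-!
# MP_daa227_pr, general potentials: the decomposition at an intermediate time, in moments
-/

namespace Pool.Agent.HG

open MeasureTheory ProbabilityTheory Finset Filter Topology
open MP_daa227_pr (Chain Zk Zf Gk Gf KU K0 Ren shift seqLaw ExpMom DepOn Good GoodW mom)
open Pool.Agent.HZ (Mod Kv lmg)
open Pool.Agent.IOrd (Sys aS cv)

noncomputable section

namespace MomStr

/-- the decomposition of the partition function at an intermediate time -/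
theorem straddle (M : Mod) (h : ℝ) (R : ℕ) {T N : ℕ} (hTN : T < N) {x y : ℤ} (hx : x ∈ box R)
    (hy : y ∈ box R) (ω : ℕ → ℝ) :
    Zk M.C (M.W h) N ω x y = ∑ t ∈ range (T + 1), ∑ r ∈ Finset.Ioc T N, ∑ u ∈ box R,
      ∑ v ∈ box R, Zk M.C (M.W h) t ω x u *
        Gk M.C (M.W h) (box R) (r - t) (shift t ω) u v *
          Zk M.C (M.W h) (N - r) (shift r ω) v y := by
  rw [MP_daa227_pr.Zk_eq_Ren M.C (M.W h) (box R) hy,
    MP_daa227_pr.Ren_straddle (box R) (Gk M.C (M.W h) (box R)) T N hTN ω x y hx]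
  refine Finset.sum_congr rfl fun t _ => Finset.sum_congr rfl fun r _ =>
    Finset.sum_congr rfl fun u hu => Finset.sum_congr rfl fun v _ => ?_
  rw [MP_daa227_pr.Zk_eq_Ren M.C (M.W h) (box R) hu,
    MP_daa227_pr.Zk_eq_Ren M.C (M.W h) (box R) hy]

/-- the moment inequality with values in `[0, ∞]` -/
theorem mom_le (M : Mod) {s : ℝ} (hs0 : 0 < s) (hs1 : s ≤ 1) (h : ℝ) (R : ℕ) {T N : ℕ}
    (hTN : T < N) {x y : ℤ} (hx : x ∈ box R) (hy : y ∈ box R) :
    mom M.μ s (fun ω => Zk M.C (M.W h) N ω x y) ≤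
      ∑ t ∈ range (T + 1), ∑ r ∈ Finset.Ioc T N, ∑ u ∈ box R, ∑ v ∈ box R,
        mom M.μ s (fun ω => Zk M.C (M.W h) t ω x u) *
          mom M.μ s (fun ω => Gk M.C (M.W h) (box R) (r - t) ω u v) *
            mom M.μ s (fun ω => Zk M.C (M.W h) (N - r) ω v y) := by
  have hκ0 : 0 ≤ M.κ := M.κ_pos.le
  have hG : ∀ n u v, Good n M.κ (fun ω => Gk M.C (M.W h) (box R) n ω u v) := fun n u v =>
    MP_daa227_pr.good_Gk M.C hκ0 (M.goodW h) (box R) n u v
  have hZ : ∀ n u v, Good n M.κ (fun ω => Zk M.C (M.W h) n ω u v) := fun n u v =>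
    M.good_Zk h n u v
  have hterm : ∀ t ∈ range (T + 1), ∀ r ∈ Finset.Ioc T N, ∀ u v : ℤ,
      Good N M.κ (fun ω => Zk M.C (M.W h) t ω x u *
        Gk M.C (M.W h) (box R) (r - t) (shift t ω) u v *
          Zk M.C (M.W h) (N - r) (shift r ω) v y) := by
    intro t ht r hr u v
    rw [Finset.mem_range] at ht
    rw [Finset.mem_Ioc] at hr
    have h2 := (hZ t x u).mul_shift (hG (r - t) u v)
    rw [show t + (r - t) = r by omega] at h2
    have h3 := h2.mul_shift (hZ (N - r) v y)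
    rw [show r + (N - r) = N by omega] at h3
    exact h3
  have hstr : mom M.μ s (fun ω => Zk M.C (M.W h) N ω x y) ≤
      ∑ t ∈ range (T + 1), ∑ r ∈ Finset.Ioc T N, ∑ u ∈ box R, ∑ v ∈ box R,
        mom M.μ s (fun ω => Zk M.C (M.W h) t ω x u *
          Gk M.C (M.W h) (box R) (r - t) (shift t ω) u v *
            Zk M.C (M.W h) (N - r) (shift r ω) v y) := by
    rw [MP_daa227_pr.mom_congr (fun ω => straddle M h R hTN hx hy ω)]
    refine (MP_daa227_pr.mom_sum_le hs0 hs1 _ (fun t ht => ?_) (fun t ht ω => ?_)).trans ?_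
    · exact (Good.sum hκ0 _ fun r hr => Good.sum hκ0 _ fun z _ => Good.sum hκ0 _ fun z' _ =>
        hterm t ht r hr z z').meas
    · exact (Good.sum hκ0 _ fun r hr => Good.sum hκ0 _ fun z _ => Good.sum hκ0 _ fun z' _ =>
        hterm t ht r hr z z').nonneg ω
    apply Finset.sum_le_sum
    intro t ht
    refine (MP_daa227_pr.mom_sum_le hs0 hs1 _ (fun r hr => ?_) (fun r hr ω => ?_)).trans ?_
    · exact (Good.sum hκ0 _ fun z _ => Good.sum hκ0 _ fun z' _ => hterm t ht r hr z z').meas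
    · exact (Good.sum hκ0 _ fun z _ => Good.sum hκ0 _ fun z' _ => hterm t ht r hr z z').nonneg ω
    apply Finset.sum_le_sum
    intro r hr
    refine (MP_daa227_pr.mom_sum_le hs0 hs1 _ (fun z _ => ?_) (fun z _ ω => ?_)).trans ?_
    · exact (Good.sum hκ0 _ fun z' _ => hterm t ht r hr z z').meas
    · exact (Good.sum hκ0 _ fun z' _ => hterm t ht r hr z z').nonneg ω
    apply Finset.sum_le_sum
    intro z _
    refine (MP_daa227_pr.mom_sum_le hs0 hs1 _ (fun z' _ => ?_) (fun z' _ ω => ?_)).trans le_rfl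
    · exact (hterm t ht r hr z z').meas
    · exact (hterm t ht r hr z z').nonneg ω
  refine hstr.trans (Finset.sum_le_sum fun t ht => Finset.sum_le_sum fun r hr =>
    Finset.sum_le_sum fun u _ => Finset.sum_le_sum fun v _ => le_of_eq ?_)
  rw [Finset.mem_range] at ht
  rw [Finset.mem_Ioc] at hr
  have h2 := (hZ t x u).mul_shift (hG (r - t) u v)
  rw [show t + (r - t) = r by omega] at h2
  rw [MP_daa227_pr.mom_mul_shift (k := r)
    (F := fun ω => Zk M.C (M.W h) t ω x u * Gk M.C (M.W h) (box R) (r - t) (shift t ω) u v)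
    (G := fun ω => Zk M.C (M.W h) (N - r) ω v y) hs0.le h2.meas (hZ (N - r) v y).meas h2.depOn
    h2.nonneg]
  rw [MP_daa227_pr.mom_mul_shift (k := t) (F := fun ω => Zk M.C (M.W h) t ω x u)
    (G := fun ω => Gk M.C (M.W h) (box R) (r - t) ω u v) hs0.le (hZ t x u).meas
    (hG _ _ _).meas (hZ t x u).depOn (hZ t x u).nonneg]

end MomStr

/-- `MP_daa227_pr.Zk_eq_Ren` for the box, `Ren_straddle` and the moment bounds exactly as in the
first part of `MP_daa227_pr.mom_Ren_le` (Lib/MP_daa227_pr/Mom.lean): `mom_sum_le`,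
`mom_mul_shift` twice; then `toReal` (everything is finite by `zk_ne_top`, `gk_ne_top`). -/
theorem mom_str (M : Mod) {s : ℝ} (hs0 : 0 < s) (hs1 : s ≤ 1) (h : ℝ) (R : ℕ) {T N : ℕ}
    (hTN : T < N) {x y : ℤ} (hx : x ∈ box R) (hy : y ∈ box R) :
    mZ M s h N x y ≤ ∑ t ∈ range (T + 1), ∑ r ∈ Finset.Ioc T N, ∑ u ∈ box R, ∑ v ∈ box R,
      mZ M s h t x u * mG M R s h (r - t) u v * mZ M s h (N - r) v y := by
  have hfin : ∀ t r : ℕ, ∀ u v : ℤ, mom M.μ s (fun ω => Zk M.C (M.W h) t ω x u) *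
      mom M.μ s (fun ω => Gk M.C (M.W h) (box R) (r - t) ω u v) *
        mom M.μ s (fun ω => Zk M.C (M.W h) (N - r) ω v y) ≠ ⊤ := fun t r u v =>
    ENNReal.mul_ne_top (ENNReal.mul_ne_top (zk_ne_top M hs0 hs1 h t x u)
      (gk_ne_top M hs0 hs1 h (box R) (r - t) u v)) (zk_ne_top M hs0 hs1 h (N - r) v y)
  have hreal : (∑ t ∈ range (T + 1), ∑ r ∈ Finset.Ioc T N, ∑ u ∈ box R, ∑ v ∈ box R,
        mom M.μ s (fun ω => Zk M.C (M.W h) t ω x u) *
          mom M.μ s (fun ω => Gk M.C (M.W h) (box R) (r - t) ω u v) *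
            mom M.μ s (fun ω => Zk M.C (M.W h) (N - r) ω v y)).toReal =
      ∑ t ∈ range (T + 1), ∑ r ∈ Finset.Ioc T N, ∑ u ∈ box R, ∑ v ∈ box R,
        mZ M s h t x u * mG M R s h (r - t) u v * mZ M s h (N - r) v y := by
    rw [ENNReal.toReal_sum fun t _ => ENNReal.sum_ne_top.2 fun r _ => ENNReal.sum_ne_top.2
      fun u _ => ENNReal.sum_ne_top.2 fun v _ => hfin t r u v]
    refine Finset.sum_congr rfl fun t _ => ?_
    rw [ENNReal.toReal_sum fun r _ => ENNReal.sum_ne_top.2 fun u _ => ENNReal.sum_ne_top.2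
      fun v _ => hfin t r u v]
    refine Finset.sum_congr rfl fun r _ => ?_
    rw [ENNReal.toReal_sum fun u _ => ENNReal.sum_ne_top.2 fun v _ => hfin t r u v]
    refine Finset.sum_congr rfl fun u _ => ?_
    rw [ENNReal.toReal_sum fun v _ => hfin t r u v]
    refine Finset.sum_congr rfl fun v _ => ?_
    rw [ENNReal.toReal_mul, ENNReal.toReal_mul]
    rfl
  rw [← hreal]
  exact ENNReal.toReal_mono (ENNReal.sum_ne_top.2 fun t _ => ENNReal.sum_ne_top.2 fun r _ =>
    ENNReal.sum_ne_top.2 fun u _ => ENNReal.sum_ne_top.2 fun v _ => hfin t r u v)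
    (MomStr.mom_le M hs0 hs1 h R hTN hx hy)

end

end Pool.Agent.HG
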