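import Pool.Agent.Lib.MP_daa227_pr_HG.SDef
import Pool.Agent.Lib.MP_daa227_pr_HG.MomStr

/-!
# MP_daa227_pr, exact order: from one block to the next
-/

namespace Pool.Agent.HG

open MeasureTheory ProbabilityTheory Finset Filter Topology
open MP_daa227_pr (Chain Zk Zf Gk Gf KU K0 Ren shift seqLaw ExpMom DepOn Good GoodW mom)
open Pool.Agent.HZ (Mod Kv lmg)
open Pool.Agent.IOrd (Sys aS cv)

noncomputable section

namespace ST

theorem keep {s t : Finset ℕ} (i : ℕ → ℕ) (hi : Set.InjOn i s) (hm : ∀ a ∈ s, i a ∈ t)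
    (f : ℕ → ℝ) (hf : ∀ r ∈ t, 0 ≤ f r) : ∑ a ∈ s, f (i a) ≤ ∑ r ∈ t, f r := by
  rw [← Finset.sum_image hi]
  exact Finset.sum_le_sum_of_subset_of_nonneg (Finset.image_subset_iff.2 hm)
    (fun r hr _ => hf r hr)

theorem Z_nn (M : Mod) (h : ℝ) (n : ℕ) (ω : ℕ → ℝ) : 0 ≤ M.Z h n ω :=
  (M.good_Zk h n 0 0).nonneg ω

theorem G_nn (M : Mod) (h : ℝ) (n : ℕ) (ω : ℕ → ℝ) : 0 ≤ M.G h n ω :=
  (MP_daa227_pr.good_Gk M.C M.κ_pos.le (M.goodW h) {0} n 0 0).nonneg ω

theorem box_zero : box 0 = {0} := by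
  unfold box
  simp

/-- the decomposition with one site -/
theorem str0 (M : Mod) (h : ℝ) {T N : ℕ} (hTN : T < N) (ω : ℕ → ℝ) :
    M.Z h N ω = ∑ t ∈ range (T + 1), ∑ r ∈ Finset.Ioc T N,
      M.Z h t ω * M.G h (r - t) (shift t ω) * M.Z h (N - r) (shift r ω) := by
  have h0 : (0 : ℤ) ∈ box 0 := by
    rw [box_zero]
    exact Finset.mem_singleton_self 0
  have h1 := MomStr.straddle M h 0 hTN h0 h0 ω
  rw [box_zero] at h1
  simp only [Finset.sum_singleton] at h1
  exact h1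

theorem one (M : Mod) (h : ℝ) {l k : ℕ} {κ : ℝ} (hκ : 0 ≤ κ) (ω : ℕ → ℝ)
    (hG : ∀ y d : ℕ, k * l ≤ y → y < (k + 1) * l → (k + 1) * l ≤ y + d → y + d < (k + 2) * l →
      κ ≤ M.G h (2 * d) (shift (2 * y) ω)) {b : ℕ} (hb : b < l) :
    ∑ y ∈ range l, ∑ a ∈ range (b + 1), M.Z h (2 * (k * l + y)) ω * κ *
      M.Z h (2 * (b - a)) (shift (2 * ((k + 1) * l + a)) ω) ≤
      M.Z h (2 * ((k + 1) * l + b)) ω := by
  have hl : 0 < l := by omega
  have hkl : (k + 1) * l = k * l + l := by ring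
  have hkl2 : (k + 2) * l = k * l + l + l := by ring
  have hTN : 2 * ((k + 1) * l) - 1 < 2 * ((k + 1) * l + b) := by omega
  rw [str0 M h hTN ω]
  refine le_trans ?_ (keep (s := range l) (fun y => 2 * (k * l + y)) ?_ ?_ _ ?_)
  · refine Finset.sum_le_sum fun y hy => ?_
    rw [Finset.mem_range] at hy
    refine le_trans ?_ (keep (s := range (b + 1)) (fun a => 2 * ((k + 1) * l + a)) ?_ ?_ _ ?_)
    · refine Finset.sum_le_sum fun a ha => ?_
      rw [Finset.mem_range] at ha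
      have e1 : 2 * ((k + 1) * l + b) - 2 * ((k + 1) * l + a) = 2 * (b - a) := by omega
      have e2 : 2 * ((k + 1) * l + a) - 2 * (k * l + y) = 2 * (l + a - y) := by omega
      simp only [e1, e2]
      refine mul_le_mul_of_nonneg_right ?_ (Z_nn M h _ _)
      refine mul_le_mul_of_nonneg_left ?_ (Z_nn M h _ _)
      exact hG (k * l + y) (l + a - y) (by omega) (by omega) (by omega) (by omega)
    · intro a _ a' _ haa
      simp only at haa
      omega
    · intro a ha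
      rw [Finset.mem_range] at ha
      rw [Finset.mem_Ioc]
      omega
    · intro r _
      exact mul_nonneg (mul_nonneg (Z_nn M h _ _) (G_nn M h _ _)) (Z_nn M h _ _)
  · intro a _ a' _ haa
    simp only at haa
    omega
  · intro a ha
    rw [Finset.mem_range] at ha ⊢
    omega
  · intro t _
    refine Finset.sum_nonneg fun r _ => ?_
    exact mul_nonneg (mul_nonneg (Z_nn M h _ _) (G_nn M h _ _)) (Z_nn M h _ _)

theorem tri (l : ℕ) (f : ℕ → ℕ → ℝ) :
    ∑ b ∈ range l, ∑ a ∈ range (b + 1), f a (b - a) =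
      ∑ a ∈ range l, ∑ c ∈ range (l - a), f a c := by
  rw [Finset.sum_sigma', Finset.sum_sigma']
  refine Finset.sum_bij' (fun p _ => ⟨p.2, p.1 - p.2⟩) (fun p _ => ⟨p.1 + p.2, p.1⟩) ?_ ?_ ?_ ?_ ?_
  · rintro ⟨b, a⟩ hp
    simp only [Finset.mem_sigma, Finset.mem_range] at hp ⊢
    omega
  · rintro ⟨a, c⟩ hp
    simp only [Finset.mem_sigma, Finset.mem_range] at hp ⊢
    omega
  · rintro ⟨b, a⟩ hp
    simp only [Finset.mem_sigma, Finset.mem_range] at hp
    have e : a + (b - a) = b := by omega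
    simp only [e]
  · rintro ⟨a, c⟩ hp
    have e : a + c - a = c := by omega
    simp only [e]
  · rintro ⟨b, a⟩ _
    rfl

end ST

/-- For each endpoint `2 N = 2 ((k+1) l + b)` the renewal decomposition at the time
`T = 2 (k+1) l - 1` (`HG.MomStr.straddle` with `R = 0`: `box 0 = {0}`): the last visit `t ≤ T` and the
first visit `r > T`. Keep only `t = 2 y` with `y` in block `k` and `r = 2 x`, `x` in block `k + 1`
(all terms are nonnegative); the kernel is at least `κ` (`hG`); sum over `b`: the stretches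
`x ≤ (k+1) l + b` give `XB` of the shifted charges. -/
theorem tb_rec (M : Mod) (h : ℝ) {l k : ℕ} {κ : ℝ} (hκ : 0 ≤ κ) (ω : ℕ → ℝ)
    (hG : ∀ y d : ℕ, k * l ≤ y → y < (k + 1) * l → (k + 1) * l ≤ y + d → y + d < (k + 2) * l →
      κ ≤ M.G h (2 * d) (shift (2 * y) ω)) :
    κ * TB M h l k ω * XB M h l (shift (2 * ((k + 1) * l)) ω) ≤ TB M h l (k + 1) ω := by
  have h1 : ∑ b ∈ range l, ∑ y ∈ range l, ∑ a ∈ range (b + 1), M.Z h (2 * (k * l + y)) ω * κ *
      M.Z h (2 * (b - a)) (shift (2 * ((k + 1) * l + a)) ω) ≤ TB M h l (k + 1) ω := by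
    unfold TB
    exact Finset.sum_le_sum fun b hb => ST.one M h hκ ω hG (Finset.mem_range.1 hb)
  refine le_trans (le_of_eq ?_) h1
  rw [Finset.sum_comm]
  have h2 : ∀ y ∈ range l, ∑ b ∈ range l, ∑ a ∈ range (b + 1), M.Z h (2 * (k * l + y)) ω * κ *
      M.Z h (2 * (b - a)) (shift (2 * ((k + 1) * l + a)) ω) =
      M.Z h (2 * (k * l + y)) ω * (κ * XB M h l (shift (2 * ((k + 1) * l)) ω)) := by
    intro y _
    rw [ST.tri l (fun a c => M.Z h (2 * (k * l + y)) ω * κ *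
      M.Z h (2 * c) (shift (2 * ((k + 1) * l + a)) ω))]
    unfold XB
    rw [← mul_assoc, Finset.mul_sum]
    refine Finset.sum_congr rfl fun a _ => ?_
    rw [Finset.mul_sum]
    refine Finset.sum_congr rfl fun c _ => ?_
    rw [MP_daa227_pr.shift_shift, show 2 * a + 2 * ((k + 1) * l) = 2 * ((k + 1) * l + a) by ring]
  rw [Finset.sum_congr rfl h2, ← Finset.sum_mul]
  unfold TB
  ring

end

end Pool.Agent.HG
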