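import Pool.Agent.Lib.MP_daa227_pr_HG.SX
import Pool.Agent.Lib.MP_daa227_pr_HG.ST
import Pool.Agent.Lib.MP_daa227_pr_HG.SAbs
import Pool.Agent.Lib.MP_daa227_pr_HG.SEv

/-!
# MP_daa227_pr, exact order: the moment of the block sum
-/

namespace Pool.Agent.HG

open MeasureTheory ProbabilityTheory Finset Filter Topology
open MP_daa227_pr (Chain Zk Zf Gk Gf KU K0 Ren shift seqLaw ExpMom DepOn Good GoodW mom)
open Pool.Agent.HZ (Mod Kv lmg)
open Pool.Agent.IOrd (Sys aS cv)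

noncomputable section

/-- `ev_block` with additionally the moment bound: `s_abs` with `X = XB`, `T = TB`,
`κ = l^(-(1+α+ε))`; `hrec` is `tb_rec` (apply the property of `E` to `shift (2 k l) ω`: for
`y = k l + y'`, `shift (2 y) ω = shift (2 y') (shift (2 k l) ω)`); `hB` is `tb_mom`. For
`l ≥ 2`, `P(E) ≥ 1 - l^(-D) > 0`. -/
theorem ev_mom (M : Mod) {α h : ℝ} (hα : 0 ≤ α) (hh : 0 < h) (hW : PolyW M α h)
    (hU : KUW M α h) {p K : ℝ} (hp : 1 ≤ p) (hK : 0 ≤ K)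
    (hb : ∀ n : ℕ, mom M.μ p (fun ω => M.Z h (2 * n) ω) ≤ ENNReal.ofReal K) {ε D : ℝ}
    (hε : 0 < ε) (hD : 0 < D) : ∀ᶠ l : ℕ in atTop,
    ∃ E : Set (ℕ → ℝ), MeasurableSet E ∧ 1 - (l : ℝ) ^ (-D) ≤ (seqLaw M.μ E).toReal ∧
      (∀ ω ∈ E, ∀ a ≤ l, (l : ℝ) ^ (-(1 + α + ε)) ≤ M.Z h (2 * a) ω ∧
        (l : ℝ) ^ (-(1 + α + ε)) ≤ M.Z h (2 * (l - a)) (shift (2 * a) ω)) ∧
      mom M.μ p (fun ω => E.indicator (XB M h l) ω) ≤
        ENNReal.ofReal ((l : ℝ) ^ ((1 + α + ε) * p)) := by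
  filter_upwards [ev_block M hα hh hW hU hε hD, eventually_ge_atTop 2] with l hl hl2
  obtain ⟨E, hE, hEd, hEp, hexc, hZ⟩ := hl
  refine ⟨E, hE, hEp, hZ, ?_⟩
  have hl1 : (1 : ℝ) < (l : ℝ) := by
    have : (2 : ℝ) ≤ (l : ℝ) := by exact_mod_cast hl2
    linarith
  have hl0 : (0 : ℝ) < (l : ℝ) := by linarith
  have hpos : 0 < seqLaw M.μ E := by
    have h1 : (l : ℝ) ^ (-D) < 1 := Real.rpow_lt_one_of_one_lt_of_neg hl1 (by linarith)
    have h2 : 0 < (seqLaw M.μ E).toReal := by linarith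
    exact (ENNReal.toReal_pos_iff.1 h2).1
  set κ : ℝ := (l : ℝ) ^ (-(1 + α + ε)) with hκ
  have hκ0 : 0 < κ := Real.rpow_pos_of_pos hl0 _
  have key := s_abs (μ := M.μ) (X := XB M h l) (T := TB M h l) (xb_meas M h l) (xb_dep M h l)
    (fun ω => (Nat.cast_nonneg l).trans (xb_ge M h l ω)) (tb_meas M h l) (tb_dep M h l)
    (tb_nonneg M h l) (tb_zero M h (by omega)) hE hEd hpos hκ0 hp (tb_mom M hp hK hb l)
    (by
      intro k ω h1 h2
      refine tb_rec M h hκ0.le ω ?_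
      intro y d hy1 hy2 hy3 hy4
      have e1 : shift (2 * l) (shift (2 * (k * l)) ω) = shift (2 * ((k + 1) * l)) ω := by
        rw [MP_daa227_pr.shift_shift]
        congr 1
        ring
      have e2 : shift (2 * (y - k * l)) (shift (2 * (k * l)) ω) = shift (2 * y) ω := by
        rw [MP_daa227_pr.shift_shift]
        congr 1
        omega
      have a1 : (k + 1) * l = k * l + l := by ring
      have a2 : (k + 2) * l = k * l + 2 * l := by ring
      have h3 := hexc _ h1 (by rw [e1]; exact h2) (y - k * l) d (by omega) (by omega)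
        (by omega)
      rw [e2] at h3
      exact h3)
  have hp0 : 0 < p := lt_of_lt_of_le one_pos hp
  have h1 : mom M.μ p (fun ω => E.indicator (XB M h l) ω)
      = ∫⁻ ω in E, ENNReal.ofReal (XB M h l ω) ^ p ∂seqLaw M.μ := by
    rw [← lintegral_indicator hE, mom]
    refine lintegral_congr fun ω => ?_
    by_cases hω : ω ∈ E
    · rw [Set.indicator_of_mem hω, Set.indicator_of_mem hω]
    · rw [Set.indicator_of_notMem hω, Set.indicator_of_notMem hω, ENNReal.ofReal_zero,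
        ENNReal.zero_rpow_of_pos hp0]
  rw [h1]
  have h2 : κ ^ p * (l : ℝ) ^ ((1 + α + ε) * p) = 1 := by
    rw [hκ, ← Real.rpow_mul hl0.le, ← Real.rpow_add hl0]
    have : -(1 + α + ε) * p + (1 + α + ε) * p = 0 := by ring
    rw [this, Real.rpow_zero]
  have h3 : 0 < (l : ℝ) ^ ((1 + α + ε) * p) := Real.rpow_pos_of_pos hl0 _
  calc ∫⁻ ω in E, ENNReal.ofReal (XB M h l ω) ^ p ∂seqLaw M.μ
      = ENNReal.ofReal ((l : ℝ) ^ ((1 + α + ε) * p)) * (ENNReal.ofReal (κ ^ p) *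
        ∫⁻ ω in E, ENNReal.ofReal (XB M h l ω) ^ p ∂seqLaw M.μ) := by
        rw [← mul_assoc, ← ENNReal.ofReal_mul h3.le, mul_comm _ (κ ^ p), h2, ENNReal.ofReal_one,
          one_mul]
    _ ≤ ENNReal.ofReal ((l : ℝ) ^ ((1 + α + ε) * p)) * 1 := by gcongr
    _ = _ := mul_one _

end

end Pool.Agent.HG
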