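import Pool.Agent.Lib.MP_daa227_pr_HG.MLow
import Pool.Agent.Lib.MP_daa227_pr_HG.MCore
import Pool.Agent.Lib.MP_daa227_pr_HG.NBlk

/-!
# MP_daa227_pr, marginal case: no moment of order larger than one is bounded, light potentials
-/

namespace Pool.Agent.HG

open MeasureTheory ProbabilityTheory Finset Filter Topology
open MP_daa227_pr (Chain Zk Zf Gk Gf KU K0 Ren shift seqLaw ExpMom DepOn Good GoodW mom)
open Pool.Agent.HZ (Mod Kv lmg)
open Pool.Agent.IOrd (Sys aS cv)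

noncomputable section

/-- as `zd_x0`, also for `x₀ = 0` -/
theorem zd_m (C : Chain) (v : ℤ → ℝ) (x₀ : ℤ) : ∃ (m : ℕ) (ρ : ℝ), 1 ≤ m ∧ 0 < ρ ∧ ∀ n : ℕ,
    ρ * HZ.Zd C v n 0 0 ≤ HZ.Zd C v (n + m) 0 x₀ ∧
    ρ * HZ.Zd C v n 0 0 ≤ HZ.Zd C v (n + m) x₀ 0 ∧
    ρ * HZ.Zd C v n 0 0 ≤ HZ.Zd C v (n + 2 * m) x₀ x₀ := by
  by_cases h0 : x₀ = 0
  · subst h0
    have ha : 0 < HZ.Zd C v 2 0 0 := HZ.Zd_even_pos C v 1 0
    set a := HZ.Zd C v 2 0 0 with had
    refine ⟨2, min a (a * a), by norm_num, lt_min ha (mul_pos ha ha), fun n => ?_⟩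
    have hu := HZ.Zd_nonneg C v n 0 0
    have h1 := HZ.Zd_mul_le C v n 2 0 0 0
    have h2 := HZ.Zd_mul_le C v (n + 2) 2 0 0 0
    rw [← had] at h1 h2
    have h3 : n + 2 + 2 = n + 2 * 2 := by ring
    rw [h3] at h2
    have h4 : min a (a * a) * HZ.Zd C v n 0 0 ≤ HZ.Zd C v (n + 2) 0 0 :=
      (mul_le_mul_of_nonneg_right (min_le_left _ _) hu).trans (by linarith)
    have h5 : HZ.Zd C v n 0 0 * a * a ≤ HZ.Zd C v (n + 2) 0 0 * a :=
      mul_le_mul_of_nonneg_right h1 ha.le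
    have h6 : min a (a * a) * HZ.Zd C v n 0 0 ≤ HZ.Zd C v (n + 2 * 2) 0 0 :=
      (mul_le_mul_of_nonneg_right (min_le_right _ _) hu).trans (by linarith)
    exact ⟨h4, h4, h6⟩
  · obtain ⟨ρ, hρ, h⟩ := zd_x0 C v x₀
    exact ⟨x₀.natAbs, ρ, by omega, hρ, h⟩

/-- as `xb_q_low` (Lib/MP_daa227_pr_HG/MLow.lean) -/
theorem xb_q_low2 (M : Mod) {h : ℝ} {x₀ : ℤ} (hx : 0 < M.φ x₀) {m : ℕ} (hm1 : 1 ≤ m) {ρ : ℝ}
    (hρ : 0 < ρ) (hzd : ∀ n : ℕ,
      ρ * HZ.Zd M.C (M.v h) n 0 0 ≤ HZ.Zd M.C (M.v h) (n + m) 0 x₀ ∧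
      ρ * HZ.Zd M.C (M.v h) n 0 0 ≤ HZ.Zd M.C (M.v h) (n + m) x₀ 0 ∧
      ρ * HZ.Zd M.C (M.v h) n 0 0 ≤ HZ.Zd M.C (M.v h) (n + 2 * m) x₀ x₀) {c : ℝ} (hc : 0 < c)
    (hU : ∀ N : ℕ, 1 ≤ N → c * Real.sqrt N ≤ ∑ n ∈ range N, HZ.Zd M.C (M.v h) (2 * n) 0 0) :
    ∃ c' : ℝ, 0 < c' ∧ ∀ L : ℕ, 1 ≤ L → c' * (L : ℝ) ^ 2 * Real.log L ≤
      ∫ ω, XB M h (4 * L + 2 * m) ω *
        Qf (qc m L) (xi M.μ) (2 * (4 * L + 2 * m)) ω ∂seqLaw M.μ := by
  obtain ⟨cw, hcw, hcwp, hcz⟩ := xi_w M h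
  set u : ℕ → ℝ := fun n => HZ.Zd M.C (M.v h) (2 * n) 0 0 with hu
  have hu0 : ∀ n, 0 ≤ u n := fun n => HZ.Zd_nonneg _ _ _ _ _
  obtain ⟨c', hc', hlog⟩ := log_sum hu0 hc hU
  set c₁ := cw x₀ ^ 2 * ρ ^ 3 with hc₁
  have hc₁p : 0 < c₁ := mul_pos (pow_pos (hcwp x₀ hx) 2) (pow_pos hρ 3)
  refine ⟨c₁ * c ^ 2 * c', by positivity, fun L hL => ?_⟩
  -- the integral is a sum
  have hE : ∫ ω, XB M h (4 * L + 2 * m) ω * Qf (qc m L) (xi M.μ) (2 * (4 * L + 2 * m)) ω ∂seqLaw M.μ =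
      ∑ y ∈ MLow.S L, 1 / Real.sqrt (y.2 + 1) * ∑ x ∈ SX.prs (4 * L + 2 * m),
        ∫ ω, M.Z h (2 * x.2) (shift (2 * x.1) ω) *
          (xi M.μ (ω (MLow.pa m y)) * xi M.μ (ω (MLow.pb m y))) ∂seqLaw M.μ := by
    have h1 : ∀ ω, XB M h (4 * L + 2 * m) ω * Qf (qc m L) (xi M.μ) (2 * (4 * L + 2 * m)) ω =
        ∑ y ∈ MLow.S L, 1 / Real.sqrt (y.2 + 1) * ∑ x ∈ SX.prs (4 * L + 2 * m),
          M.Z h (2 * x.2) (shift (2 * x.1) ω) *
            (xi M.μ (ω (MLow.pa m y)) * xi M.μ (ω (MLow.pb m y))) := by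
      intro ω
      rw [qf_eq hm1 hL (xi M.μ) ω (by omega), SX.xb_eq, ← Finset.sum_product', Finset.mul_sum]
      refine Finset.sum_congr rfl fun y _ => ?_
      rw [← Finset.sum_mul]
      unfold MLow.pa MLow.pb
      ring
    simp_rw [h1]
    rw [integral_finsetSum]
    · refine Finset.sum_congr rfl fun y _ => ?_
      rw [integral_const_mul, integral_finsetSum]
      intro x _
      exact MLow.int_Zxx M h _ _ _ _
    · intro y _
      refine Integrable.const_mul ?_ _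
      exact integrable_finsetSum _ fun x _ => MLow.int_Zxx M h _ _ _ _
  rw [hE]
  -- lower bound for each pair
  have hk : ∀ y ∈ MLow.S L, c₁ * c ^ 2 * L * u y.2 ≤ ∑ x ∈ SX.prs (4 * L + 2 * m),
      ∫ ω, M.Z h (2 * x.2) (shift (2 * x.1) ω) *
        (xi M.μ (ω (MLow.pa m y)) * xi M.μ (ω (MLow.pb m y))) ∂seqLaw M.μ := by
    intro y hy
    unfold MLow.S at hy
    rw [Finset.mem_product, Finset.mem_Ico, Finset.mem_range] at hy
    obtain ⟨i', k⟩ := y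
    dsimp only at hy ⊢
    have hlt : MLow.pa m (i', k) < MLow.pb m (i', k) := by
      unfold MLow.pa MLow.pb
      dsimp only
      omega
    set F : (Σ _ : ℕ, ℕ) → ℝ := fun x => ∫ ω, M.Z h (2 * x.2) (shift (2 * x.1) ω) *
      (xi M.μ (ω (MLow.pa m (i', k))) * xi M.μ (ω (MLow.pb m (i', k)))) ∂seqLaw M.μ with hF
    have hF0 : ∀ x, 0 ≤ F x := fun x => win_nonneg M h _ _ hlt
    set e : ℕ × ℕ → (Σ _ : ℕ, ℕ) := fun q => ⟨i' - q.1, 2 * m + k + q.2 + q.1⟩ with he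
    have hinj : Set.InjOn e ↑(range L ×ˢ range L) := by
      intro q hq r hr hqr
      rw [Finset.mem_coe, Finset.mem_product, Finset.mem_range, Finset.mem_range] at hq hr
      simp only [he, Sigma.mk.injEq, heq_eq_eq] at hqr
      exact Prod.ext (by omega) (by omega)
    have hsub : (range L ×ˢ range L).image e ⊆ SX.prs (4 * L + 2 * m) := by
      intro x hx'
      rw [Finset.mem_image] at hx'
      obtain ⟨q, hq, rfl⟩ := hx'
      rw [Finset.mem_product, Finset.mem_range, Finset.mem_range] at hq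
      unfold SX.prs
      rw [Finset.mem_sigma, Finset.mem_range, Finset.mem_range]
      simp only [he]
      omega
    have hpt : ∀ q ∈ range L ×ˢ range L, c₁ * u k * (u q.1 * u q.2) ≤ F (e q) := by
      intro q hq
      rw [Finset.mem_product, Finset.mem_range, Finset.mem_range] at hq
      have h1 := win_low M h hcw hcz x₀ (s := 2 * (e q).1) (n := 2 * (e q).2)
        (i := MLow.pa m (i', k)) (j := MLow.pb m (i', k))
        (by simp only [he, MLow.pa]; omega) hlt (by simp only [he, MLow.pb]; omega)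
      have e1 : MLow.pa m (i', k) - 2 * (e q).1 + 1 = 2 * q.1 + m := by
        simp only [he, MLow.pa]
        omega
      have e2 : MLow.pb m (i', k) - MLow.pa m (i', k) = 2 * k + 2 * m := by
        simp only [MLow.pa, MLow.pb]
        omega
      have e3 : 2 * (e q).1 + 2 * (e q).2 - MLow.pb m (i', k) - 1 = 2 * q.2 + m := by
        simp only [he, MLow.pb]
        omega
      rw [e1, e2, e3] at h1
      refine le_trans ?_ h1
      have g1 := (hzd (2 * q.1)).1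
      have g2 := (hzd (2 * k)).2.2
      have g3 := (hzd (2 * q.2)).2.1
      have hz : ∀ n a b, 0 ≤ HZ.Zd M.C (M.v h) n a b := fun n a b => HZ.Zd_nonneg _ _ _ _ _
      calc c₁ * u k * (u q.1 * u q.2)
          = cw x₀ ^ 2 * (ρ * u q.1 * (ρ * u k) * (ρ * u q.2)) := by
            rw [hc₁]
            ring
        _ ≤ _ := by
            refine mul_le_mul_of_nonneg_left ?_ (sq_nonneg _)
            refine mul_le_mul (mul_le_mul g1 g2 (mul_nonneg hρ.le (hu0 _)) (hz _ _ _)) g3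
              (mul_nonneg hρ.le (hu0 _)) (mul_nonneg (hz _ _ _) (hz _ _ _))
    have hsq : c ^ 2 * L ≤ (∑ p ∈ range L, u p) * ∑ p ∈ range L, u p := by
      have h1 := hU L hL
      have h2 : c ^ 2 * L = (c * Real.sqrt L) * (c * Real.sqrt L) := by
        have h3 : Real.sqrt L * Real.sqrt L = L := Real.mul_self_sqrt (Nat.cast_nonneg L)
        calc c ^ 2 * L = c ^ 2 * (Real.sqrt L * Real.sqrt L) := by rw [h3]
          _ = _ := by ring
      rw [h2]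
      exact mul_le_mul h1 h1 (by positivity) (Finset.sum_nonneg fun p _ => hu0 p)
    calc c₁ * c ^ 2 * L * u k = c₁ * u k * (c ^ 2 * L) := by ring
      _ ≤ c₁ * u k * ((∑ p ∈ range L, u p) * ∑ p ∈ range L, u p) :=
          mul_le_mul_of_nonneg_left hsq (mul_nonneg hc₁p.le (hu0 _))
      _ = ∑ q ∈ range L ×ˢ range L, c₁ * u k * (u q.1 * u q.2) := by
          rw [Finset.sum_mul_sum, ← Finset.sum_product', Finset.mul_sum]
      _ ≤ ∑ q ∈ range L ×ˢ range L, F (e q) := Finset.sum_le_sum hpt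
      _ = ∑ x ∈ (range L ×ˢ range L).image e, F x := (Finset.sum_image hinj).symm
      _ ≤ ∑ x ∈ SX.prs (4 * L + 2 * m), F x :=
          Finset.sum_le_sum_of_subset_of_nonneg hsub fun x _ _ => hF0 x
  have hl := hlog L hL
  calc c₁ * c ^ 2 * c' * (L : ℝ) ^ 2 * Real.log L
      = c₁ * c ^ 2 * L * (L * (c' * Real.log L)) := by ring
    _ ≤ c₁ * c ^ 2 * L * (L * ∑ k ∈ range L, u k / Real.sqrt (k + 1)) :=
        mul_le_mul_of_nonneg_left (mul_le_mul_of_nonneg_left hl (Nat.cast_nonneg L)) (by positivity)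
    _ = ∑ y ∈ MLow.S L, 1 / Real.sqrt (y.2 + 1) * (c₁ * c ^ 2 * L * u y.2) := by
        unfold MLow.S
        rw [Finset.sum_product]
        dsimp only
        rw [Finset.sum_const, Nat.card_Ico, nsmul_eq_mul, show 2 * L - L = L by omega]
        rw [Finset.mul_sum, Finset.mul_sum, Finset.mul_sum]
        refine Finset.sum_congr rfl fun k _ => ?_
        ring
    _ ≤ _ := Finset.sum_le_sum fun y hy =>
        mul_le_mul_of_nonneg_left (hk y hy) (by positivity)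

/-- as `marg_core` (Lib/MP_daa227_pr_HG/MCore.lean) -/
theorem marg_core2 (M : Mod) {h p K c B c₂ : ℝ} (hh : 0 < h) (hp : 1 < p)
    (hb : ∀ n : ℕ, mom M.μ p (fun ω => M.Z h (2 * n) ω) ≤ ENNReal.ofReal K) (hc : 0 < c)
    (hlow : ∀ d : ℕ, 1 ≤ d →
      c * (d : ℝ) ^ (-(3 / 2 : ℝ)) ≤ Kv M.C (fun z => -h * M.φ z) (2 * d) 0)
    (hup : ∀ d : ℕ, 1 ≤ d → K0 M.C (2 * d) 0 ≤ B * (d : ℝ) ^ (-(3 / 2 : ℝ))) (hc₂ : 0 < c₂)
    (hU : ∀ N : ℕ, 1 ≤ N → c₂ * Real.sqrt N ≤ ∑ n ∈ range N, HZ.Zd M.C (M.v h) (2 * n) 0 0) :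
    False := by
  obtain ⟨x₀, hx⟩ := M.φ_ne
  obtain ⟨m, ρ, hm1, hρ, hzd⟩ := zd_m M.C (M.v h) x₀
  obtain ⟨c', hc', hlowq⟩ := xb_q_low2 M hx hm1 hρ hzd hc₂ hU
  have hμ := M.prob
  obtain ⟨k, hk, hkp⟩ : ∃ k : ℕ, 1 ≤ k ∧ (2 * k / (2 * k - 1) : ℝ) ≤ p := by
    obtain ⟨k, hk⟩ := exists_nat_ge (p / (2 * (p - 1)))
    refine ⟨k + 1, by omega, ?_⟩
    have h1 : p ≤ k * (2 * (p - 1)) := by
      rwa [div_le_iff₀ (by linarith)] at hk
    have h2 : (0 : ℝ) ≤ k := Nat.cast_nonneg k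
    push_cast
    rw [div_le_iff₀ (by linarith)]
    nlinarith
  have hk0 : (1 : ℝ) ≤ k := by exact_mod_cast hk
  have hk3 : (0 : ℝ) < 2 * k - 1 := by linarith
  have hp1 : (1 : ℝ) ≤ 2 * k / (2 * k - 1) := by
    rw [le_div_iff₀ hk3]
    linarith
  have hK0 : 0 ≤ max K 0 := le_max_right _ _
  have hb' : ∀ n : ℕ, mom M.μ (2 * k / (2 * k - 1) : ℝ) (fun ω => M.Z h (2 * n) ω) ≤
      ENNReal.ofReal (1 + max K 0) := fun n =>
    mom_lower (by linarith) hkp hK0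
      ((hb n).trans (ENNReal.ofReal_le_ofReal (le_max_left _ _)))
  obtain ⟨A, hA, hblk⟩ := blk_mom2 M hh hp1 (by linarith) hb' hc hlow hup
  have key : ∀ L : ℕ, 3 ≤ L → m ≤ L →
      c' ^ 2 * Real.log L ≤ A ^ 2 * 6 ^ 3 * 16 ^ k * 2 := by
    intro L hL3 hLm
    have hL1 : 1 ≤ L := by omega
    have hLr : (3 : ℝ) ≤ L := by exact_mod_cast hL3
    have hL0 : (0 : ℝ) < L := by linarith
    have hlog : 1 ≤ Real.log L := by
      rw [Real.le_log_iff_exp_le hL0]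
      exact Real.exp_one_lt_three.le.trans hLr
    have h1 := hblk (4 * L + 2 * m) (by omega)
    have h2 := hyp_quad (μ := M.μ) (xi_meas M.μ) (xi_bdd M.μ) (xi_mean M.μ) hk (qc m L)
      (2 * (4 * L + 2 * m))
    have h3 := qc_sq hm1 hL1 (2 * (4 * L + 2 * m))
    have hS0 : (0 : ℝ) ≤ L * (1 + Real.log L) := by positivity
    set b : ℝ := 4 ^ k * Real.sqrt (L * (1 + Real.log L)) with hbd
    have hb0 : 0 ≤ b := by positivity
    have hb2 : b ^ 2 = 16 ^ k * (L * (1 + Real.log L)) := by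
      rw [hbd, mul_pow, Real.sq_sqrt hS0, ← pow_mul, mul_comm k 2, pow_mul]
      norm_num
    set a : ℝ := A * ((4 * L + 2 * m : ℕ) : ℝ) ^ (3 / 2 : ℝ) with had
    have ha0 : 0 ≤ a := by positivity
    have ha2 : a ^ 2 ≤ A ^ 2 * (6 * L) ^ 3 := by
      rw [had, mul_pow]
      have h4 : (((4 * L + 2 * m : ℕ) : ℝ) ^ (3 / 2 : ℝ)) ^ 2 =
          ((4 * L + 2 * m : ℕ) : ℝ) ^ 3 := by
        rw [← Real.rpow_natCast, ← Real.rpow_mul (by positivity), ← Real.rpow_natCast]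
        norm_num
      rw [h4]
      have h5 : (m : ℝ) ≤ L := by exact_mod_cast hLm
      have h6 : ((4 * L + 2 * m : ℕ) : ℝ) ≤ 6 * L := by
        push_cast
        linarith
      gcongr
    have h4 : ∫ ω, Qf (qc m L) (xi M.μ) (2 * (4 * L + 2 * m)) ω ^ (2 * k) ∂seqLaw M.μ ≤
        (b ^ 2) ^ k := by
      refine h2.trans (pow_le_pow_left₀ (by positivity) ?_ _)
      rw [hb2]
      exact mul_le_mul_of_nonneg_left h3 (by positivity)
    have h5 := holder_q (μ := M.μ) (xb_meas M h (4 * L + 2 * m))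
      (fun ω => (Nat.cast_nonneg _).trans (xb_ge M h (4 * L + 2 * m) ω))
      (MHyp.qf_meas (xi_meas M.μ) (qc m L) (2 * (4 * L + 2 * m)))
      (MHyp.qf_bound (xi_bdd M.μ) (qc m L) (2 * (4 * L + 2 * m))) hk ha0 hb0 h1 h4
    have h6 := (hlowq L hL1).trans h5
    have h7 : 0 ≤ c' * (L : ℝ) ^ 2 * Real.log L := by positivity
    have h8 := pow_le_pow_left₀ h7 h6 2
    have h9 : (a * b) ^ 2 ≤ A ^ 2 * (6 * L) ^ 3 * (16 ^ k * (L * (2 * Real.log L))) := by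
      rw [mul_pow, hb2]
      refine mul_le_mul ha2 ?_ (by positivity) (by positivity)
      gcongr
      linarith
    have h10 : (c' * (L : ℝ) ^ 2 * Real.log L) ^ 2 =
        c' ^ 2 * Real.log L * ((L : ℝ) ^ 4 * Real.log L) := by ring
    have h11 : A ^ 2 * (6 * (L : ℝ)) ^ 3 * (16 ^ k * (L * (2 * Real.log L))) =
        A ^ 2 * 6 ^ 3 * 16 ^ k * 2 * ((L : ℝ) ^ 4 * Real.log L) := by ring
    rw [h10] at h8
    rw [h11] at h9
    have h12 : 0 < (L : ℝ) ^ 4 * Real.log L := by positivity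
    exact le_of_mul_le_mul_right (h8.trans h9) h12
  have hT : Tendsto (fun L : ℕ => Real.log L) atTop atTop :=
    Real.tendsto_log_atTop.comp tendsto_natCast_atTop_atTop
  have hc2 : 0 < c' ^ 2 := by positivity
  obtain ⟨L, h1, h2, h3⟩ := ((hT.eventually_gt_atTop
    (A ^ 2 * 6 ^ 3 * 16 ^ k * 2 / c' ^ 2)).and
      ((eventually_ge_atTop 3).and (eventually_ge_atTop m))).exists
  have h4 := key L h2 h3
  rw [div_lt_iff₀ hc2] at h1
  linarith

end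

end Pool.Agent.HG
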