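import Pool.Agent.Lib.MP_daa227_pr_HG.Defs
import Pool.Agent.Lib.MP_daa227_pr_HZ.Strat

/-!
# MP_daa227_pr, marginal case: the correlation inequality of Harris
-/

namespace Pool.Agent.HG

open MeasureTheory ProbabilityTheory Finset Filter Topology
open MP_daa227_pr (Chain Zk Zf Gk Gf KU K0 Ren shift seqLaw ExpMom DepOn Good GoodW mom)
open Pool.Agent.HZ (Mod Kv lmg)
open Pool.Agent.IOrd (Sys aS cv)

noncomputable section

namespace NFkg

theorem pt {f g : ℝ → ENNReal} (hf : Monotone f) (hg : Monotone g) (a b : ℝ) :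
    f a * g b + f b * g a ≤ f a * g a + f b * g b := by
  have key : ∀ x x' y y' : ENNReal, x ≤ x' → y ≤ y' → x * y' + x' * y ≤ x * y + x' * y' := by
    intro x x' y y' hx hy
    obtain ⟨u, rfl⟩ := exists_add_of_le hx
    obtain ⟨w, rfl⟩ := exists_add_of_le hy
    have : x * y + (x + u) * (y + w) = x * (y + w) + (x + u) * y + u * w := by ring
    rw [this]
    exact le_self_add
  rcases le_total a b with h | h
  · exact key _ _ _ _ (hf h) (hg h)
  · have h1 := key _ _ _ _ (hf h) (hg h)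
    rw [add_comm (f a * g b), add_comm (f a * g a)]
    exact h1

theorem young {a b p : ℝ} (ha : 0 ≤ a) (hb : 0 ≤ b) (hp : 1 ≤ p) :
    p * (b ^ (p - 1) * a) ≤ a ^ p + (p - 1) * b ^ p := by
  rcases hb.eq_or_lt with rfl | hb
  · rcases hp.eq_or_lt with rfl | hp
    · simp
    · rw [Real.zero_rpow (by linarith : p - 1 ≠ 0), Real.zero_rpow (by linarith : p ≠ 0)]
      have := Real.rpow_nonneg ha p
      linarith
  · have h1 := one_add_mul_self_le_rpow_one_add (s := a / b - 1)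
      (by have := div_nonneg ha hb.le; linarith) hp
    have h2 : 1 + (a / b - 1) = a / b := by ring
    rw [h2, Real.div_rpow ha hb.le] at h1
    have h3 : 0 < b ^ p := Real.rpow_pos_of_pos hb p
    have h4 : b ^ p = b ^ (p - 1) * b := by
      rw [← Real.rpow_add_one hb.ne']
      congr 1
      ring
    have h5 : (1 + p * (a / b - 1)) * b ^ p ≤ a ^ p / b ^ p * b ^ p :=
      mul_le_mul_of_nonneg_right h1 h3.le
    rw [div_mul_cancel₀ _ h3.ne'] at h5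
    have h6 : (1 + p * (a / b - 1)) * b ^ p = p * (b ^ (p - 1) * a) - (p - 1) * b ^ p := by
      have h7 : a / b * b ^ p = b ^ (p - 1) * a := by
        rw [h4]
        field_simp
      linear_combination p * h7
    linarith

theorem cons_mono {x x' : ℝ} {ω ω' : ℕ → ℝ} (hx : x ≤ x') (hω : ω ≤ ω') :
    MP_daa227_pr.cons x ω ≤ MP_daa227_pr.cons x' ω' := by
  intro i
  cases i with
  | zero => exact hx
  | succ n => exact hω n

end NFkg

/-- `(f a - f b) (g a - g b) ≥ 0`, in the form `f a g b + f b g a ≤ f a g a + f b g b`, integrated over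
`μ × μ` -/
theorem harris_one {μ : Measure ℝ} [IsProbabilityMeasure μ] {f g : ℝ → ENNReal} (hf : Monotone f)
    (hg : Monotone g) : (∫⁻ a, f a ∂μ) * ∫⁻ a, g a ∂μ ≤ ∫⁻ a, f a * g a ∂μ := by
  have hfm : Measurable f := hf.measurable
  have hgm : Measurable g := hg.measurable
  have h1 : ∫⁻ a, ∫⁻ b, (f a * g b + f b * g a) ∂μ ∂μ ≤
      ∫⁻ a, ∫⁻ b, (f a * g a + f b * g b) ∂μ ∂μ :=
    lintegral_mono fun a => lintegral_mono fun b => NFkg.pt hf hg a b
  have h2 : ∫⁻ a, ∫⁻ b, (f a * g b + f b * g a) ∂μ ∂μ =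
      2 * ((∫⁻ a, f a ∂μ) * ∫⁻ a, g a ∂μ) := by
    have h3 : ∀ a, ∫⁻ b, (f a * g b + f b * g a) ∂μ =
        f a * (∫⁻ b, g b ∂μ) + (∫⁻ b, f b ∂μ) * g a := by
      intro a
      rw [lintegral_add_left (hgm.const_mul _), lintegral_const_mul _ hgm,
        lintegral_mul_const _ hfm]
    simp_rw [h3]
    rw [lintegral_add_left (hfm.mul_const _), lintegral_mul_const _ hfm,
      lintegral_const_mul _ hgm, two_mul]
  have h4 : ∫⁻ a, ∫⁻ b, (f a * g a + f b * g b) ∂μ ∂μ = 2 * ∫⁻ a, f a * g a ∂μ := by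
    have h3 : ∀ a, ∫⁻ b, (f a * g a + f b * g b) ∂μ = f a * g a + ∫⁻ b, f b * g b ∂μ := by
      intro a
      rw [lintegral_add_left measurable_const, lintegral_const, measure_univ, mul_one]
    simp_rw [h3]
    rw [lintegral_add_right _ measurable_const, lintegral_const, measure_univ, mul_one, two_mul]
  rw [h2, h4] at h1
  exact (ENNReal.mul_le_mul_iff_right two_ne_zero ENNReal.ofNat_ne_top).1 h1

/-- Monotone functions of finitely many charges are positively correlated. Induction on `N`: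
`seqLaw μ` is the law of `cons a ω` with independent `a` (law `μ`) and `ω` (law `seqLaw μ`), see
Lib/MP_daa227_pr/Seq.lean and Mom.lean; for fixed `a` use the induction hypothesis for
`ω ↦ f (cons a ω)` (`DepOn.cons`), and `a ↦ ∫⁻ f (cons a ω)` is monotone: `harris_one`. -/
theorem harris {μ : Measure ℝ} [IsProbabilityMeasure μ] {f g : (ℕ → ℝ) → ENNReal}
    (hf : Measurable f) (hg : Measurable g) (hfm : Monotone f) (hgm : Monotone g) {N : ℕ}
    (hfd : DepOn N f) (hgd : DepOn N g) :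
    (∫⁻ ω, f ω ∂seqLaw μ) * ∫⁻ ω, g ω ∂seqLaw μ ≤ ∫⁻ ω, f ω * g ω ∂seqLaw μ := by
  induction N generalizing f g with
  | zero =>
    have hf0 : ∀ ω, f ω = f 0 := fun ω => hfd ω 0 (by intro i hi; omega)
    have hg0 : ∀ ω, g ω = g 0 := fun ω => hgd ω 0 (by intro i hi; omega)
    have h1 : ∫⁻ ω, f ω ∂seqLaw μ = f 0 := by
      rw [lintegral_congr hf0, lintegral_const, measure_univ, mul_one]
    have h2 : ∫⁻ ω, g ω ∂seqLaw μ = g 0 := by
      rw [lintegral_congr hg0, lintegral_const, measure_univ, mul_one]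
    have h3 : ∫⁻ ω, f ω * g ω ∂seqLaw μ = f 0 * g 0 := by
      rw [lintegral_congr (fun ω => by rw [hf0 ω, hg0 ω]), lintegral_const, measure_univ, mul_one]
    rw [h1, h2, h3]
  | succ N ih =>
    rw [MP_daa227_pr.lintegral_cons μ hf, MP_daa227_pr.lintegral_cons μ hg,
      MP_daa227_pr.lintegral_cons μ (F := fun ω => f ω * g ω) (hf.mul hg)]
    have h1 : ∀ x, (∫⁻ ω, f (MP_daa227_pr.cons x ω) ∂seqLaw μ) *
        (∫⁻ ω, g (MP_daa227_pr.cons x ω) ∂seqLaw μ) ≤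
        ∫⁻ ω, f (MP_daa227_pr.cons x ω) * g (MP_daa227_pr.cons x ω) ∂seqLaw μ := by
      intro x
      exact ih (hf.comp (MP_daa227_pr.measurable_cons' x))
        (hg.comp (MP_daa227_pr.measurable_cons' x))
        (fun ω ω' h => hfm (NFkg.cons_mono le_rfl h)) (fun ω ω' h => hgm (NFkg.cons_mono le_rfl h))
        (MP_daa227_pr.DepOn.cons hfd x) (MP_daa227_pr.DepOn.cons hgd x)
    have hF : Monotone fun x => ∫⁻ ω, f (MP_daa227_pr.cons x ω) ∂seqLaw μ := fun x x' h =>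
      lintegral_mono fun ω => hfm (NFkg.cons_mono h le_rfl)
    have hG : Monotone fun x => ∫⁻ ω, g (MP_daa227_pr.cons x ω) ∂seqLaw μ := fun x x' h =>
      lintegral_mono fun ω => hgm (NFkg.cons_mono h le_rfl)
    exact (harris_one hF hG).trans (lintegral_mono h1)

/-- Let `S = ∑ F i`, `Y = ∑ F i J i ≤ S`. Young: `p j₀^(p-1) S^(p-1) Y ≤ Y^p + (p-1) j₀^p S^p`. By
`harris`, `E[S^(p-1) F i J i] ≥ E[S^(p-1) F i] E[J i] ≥ j₀ E[S^(p-1) F i]`; sum over `i`: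
`p j₀^p E S^p ≤ E Y^p + (p-1) j₀^p E S^p`, and `E S^p < ∞`. -/
theorem fkg_mom {μ : Measure ℝ} [IsProbabilityMeasure μ] {ι : Type*} (s : Finset ι)
    {F J : ι → (ℕ → ℝ) → ℝ} (hF : ∀ i ∈ s, Measurable (F i)) (hF0 : ∀ i ∈ s, ∀ ω, 0 ≤ F i ω)
    (hFm : ∀ i ∈ s, Monotone (F i)) (hJ : ∀ i ∈ s, Measurable (J i))
    (hJ0 : ∀ i ∈ s, ∀ ω, 0 ≤ J i ω) (hJ1 : ∀ i ∈ s, ∀ ω, J i ω ≤ 1)
    (hJm : ∀ i ∈ s, Monotone (J i)) {N : ℕ} (hFd : ∀ i ∈ s, DepOn N (F i))
    (hJd : ∀ i ∈ s, DepOn N (J i)) {p j₀ : ℝ} (hp : 1 ≤ p) (hj : 0 < j₀)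
    (hjJ : ∀ i ∈ s, ENNReal.ofReal j₀ ≤ ∫⁻ ω, ENNReal.ofReal (J i ω) ∂seqLaw μ)
    (hfin : mom μ p (fun ω => ∑ i ∈ s, F i ω) ≠ ⊤) :
    ENNReal.ofReal (j₀ ^ p) * mom μ p (fun ω => ∑ i ∈ s, F i ω) ≤
      mom μ p (fun ω => ∑ i ∈ s, F i ω * J i ω) := by
  have hp0 : 0 ≤ p := zero_le_one.trans hp
  have hp1 : 0 ≤ p - 1 := by linarith
  set S : (ℕ → ℝ) → ℝ := fun ω => ∑ i ∈ s, F i ω with hS
  set Y : (ℕ → ℝ) → ℝ := fun ω => ∑ i ∈ s, F i ω * J i ω with hY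
  have hS0 : ∀ ω, 0 ≤ S ω := fun ω => Finset.sum_nonneg fun i hi => hF0 i hi ω
  have hY0 : ∀ ω, 0 ≤ Y ω := fun ω =>
    Finset.sum_nonneg fun i hi => mul_nonneg (hF0 i hi ω) (hJ0 i hi ω)
  have hSm : Measurable S := Finset.measurable_fun_sum _ hF
  have hYm : Measurable Y := Finset.measurable_fun_sum _ fun i hi => (hF i hi).mul (hJ i hi)
  have hSmono : Monotone S := fun ω ω' h => Finset.sum_le_sum fun i hi => hFm i hi h
  have hSd : DepOn N S := fun ω ω' h => Finset.sum_congr rfl fun i hi => hFd i hi ω ω' h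
  have hmomS : mom μ p S = ∫⁻ ω, ENNReal.ofReal (S ω ^ p) ∂seqLaw μ :=
    lintegral_congr fun ω => ENNReal.ofReal_rpow_of_nonneg (hS0 ω) hp0
  have hmomY : mom μ p Y = ∫⁻ ω, ENNReal.ofReal (Y ω ^ p) ∂seqLaw μ :=
    lintegral_congr fun ω => ENNReal.ofReal_rpow_of_nonneg (hY0 ω) hp0
  have hSp : ∀ ω, S ω ^ p = ∑ i ∈ s, S ω ^ (p - 1) * F i ω := by
    intro ω
    rw [← Finset.mul_sum]
    show S ω ^ p = S ω ^ (p - 1) * S ω
    rcases (hS0 ω).eq_or_lt with h | h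
    · rw [← h, mul_zero, Real.zero_rpow (by linarith : p ≠ 0)]
    · rw [← Real.rpow_add_one h.ne']
      congr 1
      ring
  have hmi : ∀ i ∈ s, Measurable fun ω => ENNReal.ofReal (S ω ^ (p - 1) * F i ω) :=
    fun i hi => ((hSm.pow_const _).mul (hF i hi)).ennreal_ofReal
  have hmi' : ∀ i ∈ s, Measurable fun ω => ENNReal.ofReal (S ω ^ (p - 1) * (F i ω * J i ω)) :=
    fun i hi => ((hSm.pow_const _).mul ((hF i hi).mul (hJ i hi))).ennreal_ofReal
  -- step 1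
  have h1 : ENNReal.ofReal j₀ * mom μ p S ≤
      ∫⁻ ω, ENNReal.ofReal (S ω ^ (p - 1) * Y ω) ∂seqLaw μ := by
    have e1 : mom μ p S = ∑ i ∈ s, ∫⁻ ω, ENNReal.ofReal (S ω ^ (p - 1) * F i ω) ∂seqLaw μ := by
      rw [hmomS, ← lintegral_finsetSum _ hmi]
      refine lintegral_congr fun ω => ?_
      rw [hSp ω, ENNReal.ofReal_sum_of_nonneg]
      exact fun i hi => mul_nonneg (Real.rpow_nonneg (hS0 ω) _) (hF0 i hi ω)
    have e2 : ∫⁻ ω, ENNReal.ofReal (S ω ^ (p - 1) * Y ω) ∂seqLaw μ =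
        ∑ i ∈ s, ∫⁻ ω, ENNReal.ofReal (S ω ^ (p - 1) * (F i ω * J i ω)) ∂seqLaw μ := by
      rw [← lintegral_finsetSum _ hmi']
      refine lintegral_congr fun ω => ?_
      rw [hY, Finset.mul_sum, ENNReal.ofReal_sum_of_nonneg]
      exact fun i hi => mul_nonneg (Real.rpow_nonneg (hS0 ω) _)
        (mul_nonneg (hF0 i hi ω) (hJ0 i hi ω))
    rw [e1, e2, Finset.mul_sum]
    refine Finset.sum_le_sum fun i hi => ?_
    have h2 := harris (μ := μ) (N := N) (f := fun ω => ENNReal.ofReal (S ω ^ (p - 1) * F i ω))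
      (g := fun ω => ENNReal.ofReal (J i ω)) (hmi i hi) (hJ i hi).ennreal_ofReal
      (fun ω ω' h => ENNReal.ofReal_le_ofReal (mul_le_mul
        (Real.rpow_le_rpow (hS0 ω) (hSmono h) hp1) (hFm i hi h) (hF0 i hi ω)
        (Real.rpow_nonneg (hS0 ω') _)))
      (fun ω ω' h => ENNReal.ofReal_le_ofReal (hJm i hi h))
      (fun ω ω' h => by simp only [hSd ω ω' h, hFd i hi ω ω' h])
      (fun ω ω' h => by simp only [hJd i hi ω ω' h])
    calc ENNReal.ofReal j₀ * ∫⁻ ω, ENNReal.ofReal (S ω ^ (p - 1) * F i ω) ∂seqLaw μ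
        ≤ (∫⁻ ω, ENNReal.ofReal (J i ω) ∂seqLaw μ) *
          ∫⁻ ω, ENNReal.ofReal (S ω ^ (p - 1) * F i ω) ∂seqLaw μ :=
          mul_le_mul_left (hjJ i hi) _
      _ = (∫⁻ ω, ENNReal.ofReal (S ω ^ (p - 1) * F i ω) ∂seqLaw μ) *
          ∫⁻ ω, ENNReal.ofReal (J i ω) ∂seqLaw μ := mul_comm _ _
      _ ≤ _ := h2
      _ = ∫⁻ ω, ENNReal.ofReal (S ω ^ (p - 1) * (F i ω * J i ω)) ∂seqLaw μ := by
          refine lintegral_congr fun ω => ?_
          rw [← ENNReal.ofReal_mul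
            (mul_nonneg (Real.rpow_nonneg (hS0 ω) _) (hF0 i hi ω)), mul_assoc]
  -- step 2
  have hjp : 0 ≤ j₀ ^ p := Real.rpow_nonneg hj.le p
  have hjp1 : 0 ≤ j₀ ^ (p - 1) := Real.rpow_nonneg hj.le _
  have h2 : ENNReal.ofReal (p * j₀ ^ (p - 1)) *
      ∫⁻ ω, ENNReal.ofReal (S ω ^ (p - 1) * Y ω) ∂seqLaw μ ≤
      mom μ p Y + ENNReal.ofReal ((p - 1) * j₀ ^ p) * mom μ p S := by
    have m1 : Measurable fun ω => ENNReal.ofReal (S ω ^ (p - 1) * Y ω) :=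
      ((hSm.pow_const _).mul hYm).ennreal_ofReal
    have m2 : Measurable fun ω => ENNReal.ofReal (S ω ^ p) := (hSm.pow_const _).ennreal_ofReal
    have m3 : Measurable fun ω => ENNReal.ofReal (Y ω ^ p) := (hYm.pow_const _).ennreal_ofReal
    rw [hmomS, hmomY, ← lintegral_const_mul _ m1, ← lintegral_const_mul _ m2,
      ← lintegral_add_left m3]
    refine lintegral_mono fun ω => ?_
    show ENNReal.ofReal (p * j₀ ^ (p - 1)) * ENNReal.ofReal (S ω ^ (p - 1) * Y ω) ≤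
      ENNReal.ofReal (Y ω ^ p) + ENNReal.ofReal ((p - 1) * j₀ ^ p) * ENNReal.ofReal (S ω ^ p)
    rw [← ENNReal.ofReal_mul (mul_nonneg hp0 hjp1),
      ← ENNReal.ofReal_mul (mul_nonneg hp1 hjp),
      ← ENNReal.ofReal_add (Real.rpow_nonneg (hY0 ω) _)
        (mul_nonneg (mul_nonneg hp1 hjp) (Real.rpow_nonneg (hS0 ω) _))]
    refine ENNReal.ofReal_le_ofReal ?_
    have h3 := NFkg.young (hY0 ω) (mul_nonneg hj.le (hS0 ω)) hp
    rw [Real.mul_rpow hj.le (hS0 ω), Real.mul_rpow hj.le (hS0 ω)] at h3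
    calc p * j₀ ^ (p - 1) * (S ω ^ (p - 1) * Y ω)
        = p * (j₀ ^ (p - 1) * S ω ^ (p - 1) * Y ω) := by ring
      _ ≤ _ := h3
      _ = _ := by ring
  -- step 3
  have hX : ENNReal.ofReal ((p - 1) * j₀ ^ p) * mom μ p S ≠ ⊤ :=
    ENNReal.mul_ne_top ENNReal.ofReal_ne_top hfin
  refine ENNReal.le_of_add_le_add_right hX ?_
  calc ENNReal.ofReal (j₀ ^ p) * mom μ p S + ENNReal.ofReal ((p - 1) * j₀ ^ p) * mom μ p S
      = ENNReal.ofReal (p * j₀ ^ (p - 1)) * (ENNReal.ofReal j₀ * mom μ p S) := by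
        rw [← add_mul, ← ENNReal.ofReal_add hjp (mul_nonneg hp1 hjp), ← mul_assoc,
          ← ENNReal.ofReal_mul (mul_nonneg hp0 hjp1)]
        congr 2
        have h4 : j₀ ^ p = j₀ ^ (p - 1) * j₀ := by
          rw [← Real.rpow_add_one hj.ne']
          congr 1
          ring
        rw [h4]
        ring
    _ ≤ ENNReal.ofReal (p * j₀ ^ (p - 1)) *
        ∫⁻ ω, ENNReal.ofReal (S ω ^ (p - 1) * Y ω) ∂seqLaw μ := mul_le_mul_right h1 _
    _ ≤ _ := h2

end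

end Pool.Agent.HG
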