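import Pool.Agent.Lib.MP_daa227_pr_HG.NSv

/-!
# MP_daa227_pr, marginal case: the potential seen by a surviving path
-/

namespace Pool.Agent.HG

open MeasureTheory ProbabilityTheory Finset Filter Topology
open MP_daa227_pr (Chain Zk Zf Gk Gf KU K0 Ren shift seqLaw ExpMom DepOn Good GoodW mom)
open Pool.Agent.HZ (Mod Kv lmg)
open Pool.Agent.IOrd (Sys aS cv)

noncomputable section

/-- `P_x(S_i ≠ 0 for 1 ≤ i ≤ n, S_n = y)` -/
def qk (C : Chain) (n : ℕ) (x y : ℤ) : ℝ := AS.Nn C (fun _ => 0) (fun z => if z = y then 1 else 0) n x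

namespace NGr

theorem a_succ (C : Chain) (η : ℤ → ℝ) (n : ℕ) (x : ℤ) :
    AS.Nn C (fun _ => 0) η (n + 1) x =
      ∑ z ∈ Finset.Icc (x - 1) (x + 1) \ {0}, C.p x z * AS.Nn C (fun _ => 0) η n z := by
  rw [AS.Nn]
  simp only [Real.exp_zero, mul_one]

theorem a_zero (C : Chain) (η : ℤ → ℝ) (x : ℤ) : AS.Nn C (fun _ => 0) η 0 x = η x := rfl

theorem a_mono (C : Chain) {η η' : ℤ → ℝ} (h : ∀ z : ℤ, 1 ≤ z → η z ≤ η' z) (n : ℕ) (x : ℤ)
    (hx : 1 ≤ x) : AS.Nn C (fun _ => 0) η n x ≤ AS.Nn C (fun _ => 0) η' n x := by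
  induction n generalizing x with
  | zero => exact h x hx
  | succ n ih =>
    rw [a_succ, a_succ]
    exact Finset.sum_le_sum fun z hz =>
      mul_le_mul_of_nonneg_left (ih z (NSv.pos_of_mem hx hz)) (C.nonneg _ _)

theorem a_add (C : Chain) (η : ℤ → ℝ) (m n : ℕ) (x : ℤ) :
    AS.Nn C (fun _ => 0) η (m + n) x =
      AS.Nn C (fun _ => 0) (fun z => AS.Nn C (fun _ => 0) η n z) m x := by
  induction m generalizing x with
  | zero => rw [Nat.zero_add, a_zero]
  | succ m ih =>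
    rw [Nat.succ_add, a_succ, a_succ]
    exact Finset.sum_congr rfl fun z _ => by rw [ih]

theorem a_sum (C : Chain) {ι : Type*} (s : Finset ι) (η : ι → ℤ → ℝ) (n : ℕ) (x : ℤ) :
    AS.Nn C (fun _ => 0) (fun z => ∑ i ∈ s, η i z) n x =
      ∑ i ∈ s, AS.Nn C (fun _ => 0) (η i) n x := by
  induction n generalizing x with
  | zero => rfl
  | succ n ih =>
    simp only [a_succ]
    rw [Finset.sum_comm]
    refine Finset.sum_congr rfl fun z _ => ?_
    rw [ih, Finset.mul_sum]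

theorem a_smul (C : Chain) (c : ℝ) (η : ℤ → ℝ) (n : ℕ) (x : ℤ) :
    AS.Nn C (fun _ => 0) (fun z => c * η z) n x = c * AS.Nn C (fun _ => 0) η n x := by
  induction n generalizing x with
  | zero => rfl
  | succ n ih =>
    rw [a_succ, a_succ, Finset.mul_sum]
    refine Finset.sum_congr rfl fun z _ => ?_
    rw [ih]
    ring

theorem qk_zero (C : Chain) (x y : ℤ) : qk C 0 x y = if x = y then 1 else 0 := rfl

theorem qk_succ (C : Chain) (n : ℕ) (x y : ℤ) : qk C (n + 1) x y =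
    ∑ z ∈ Finset.Icc (x - 1) (x + 1) \ {0}, C.p x z * qk C n z y := a_succ C _ n x

theorem qk_nonneg (C : Chain) (n : ℕ) (x y : ℤ) : 0 ≤ qk C n x y := by
  induction n generalizing x with
  | zero =>
    rw [qk_zero]
    split_ifs
    · exact zero_le_one
    · exact le_rfl
  | succ n ih =>
    rw [qk_succ]
    exact Finset.sum_nonneg fun z _ => mul_nonneg (C.nonneg _ _) (ih z)

/-- expansion over the end point -/
theorem a_exp (C : Chain) (η : ℤ → ℝ) (n : ℕ) (M x : ℤ) (hx : 1 ≤ x) (hM : x + n ≤ M) :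
    AS.Nn C (fun _ => 0) η n x = ∑ y ∈ Finset.Icc (1 : ℤ) M, qk C n x y * η y := by
  induction n generalizing x with
  | zero =>
    rw [a_zero, Finset.sum_eq_single x]
    · rw [qk_zero, if_pos rfl, one_mul]
    · intro y _ hy
      rw [qk_zero, if_neg (Ne.symm hy), zero_mul]
    · intro h
      exfalso
      apply h
      rw [Finset.mem_Icc]
      push_cast at hM
      omega
  | succ n ih =>
    rw [a_succ]
    have h1 : ∀ z ∈ Finset.Icc (x - 1) (x + 1) \ {0}, C.p x z * AS.Nn C (fun _ => 0) η n z =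
        ∑ y ∈ Finset.Icc (1 : ℤ) M, C.p x z * (qk C n z y * η y) := by
      intro z hz
      have hz1 := NSv.pos_of_mem hx hz
      rw [Finset.mem_sdiff, Finset.mem_Icc] at hz
      rw [ih z hz1 (by push_cast at hM; omega), Finset.mul_sum]
    rw [Finset.sum_congr rfl h1, Finset.sum_comm]
    refine Finset.sum_congr rfl fun y _ => ?_
    rw [qk_succ, Finset.sum_mul]
    exact Finset.sum_congr rfl fun z _ => (mul_assoc _ _ _).symm

theorem hs_nn (C : Chain) (φ : ℤ → ℝ) (n : ℕ) (x : ℤ) : Hsv C φ n x =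
    ∑ j ∈ range n, AS.Nn C (fun _ => 0) (fun y => φ y * sv C (n - (j + 1)) y) (j + 1) x := by
  induction n generalizing x with
  | zero => rw [Finset.range_zero, Finset.sum_empty]; rfl
  | succ n ih =>
    rw [NSv.hs_succ, Finset.sum_range_succ']
    simp only [Nat.add_sub_add_right, Nat.zero_add, Nat.add_sub_cancel]
    have h1 : ∀ j ∈ range n, AS.Nn C (fun _ => 0) (fun y => φ y * sv C (n - (j + 1)) y)
        (j + 1 + 1) x = ∑ z ∈ Finset.Icc (x - 1) (x + 1) \ {0}, C.p x z *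
          AS.Nn C (fun _ => 0) (fun y => φ y * sv C (n - (j + 1)) y) (j + 1) z := by
      intro j _
      exact a_succ C _ (j + 1) x
    rw [Finset.sum_congr rfl h1, Finset.sum_comm, a_succ, ← Finset.sum_add_distrib]
    refine Finset.sum_congr rfl fun z _ => ?_
    rw [ih, ← Finset.mul_sum, a_zero, mul_add, add_comm]

theorem icc_range (f : ℕ → ℝ) (n : ℕ) : ∑ i ∈ Finset.Icc 1 n, f i = ∑ j ∈ range n, f (j + 1) := by
  induction n with
  | zero => rfl
  | succ n ih => rw [Finset.sum_Icc_succ_top (by omega), ih, Finset.sum_range_succ]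

/-- the probability to visit `y` within `N` steps before `0` -/
def hh (C : Chain) (y : ℤ) : ℕ → ℤ → ℝ
  | 0, x => if x = y then 1 else 0
  | N + 1, x => if x = y then 1 else
      ∑ z ∈ Finset.Icc (x - 1) (x + 1) \ {0}, C.p x z * hh C y N z

theorem hh_self (C : Chain) (y : ℤ) (N : ℕ) : hh C y N y = 1 := by
  cases N with
  | zero => rw [hh, if_pos rfl]
  | succ N => rw [hh, if_pos rfl]

theorem hh_zero (C : Chain) {x y : ℤ} (h : x ≠ y) : hh C y 0 x = 0 := by
  rw [hh, if_neg h]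

theorem hh_succ (C : Chain) {x y : ℤ} (h : x ≠ y) (N : ℕ) : hh C y (N + 1) x =
    ∑ z ∈ Finset.Icc (x - 1) (x + 1) \ {0}, C.p x z * hh C y N z := by
  rw [hh, if_neg h]

theorem hh_nonneg (C : Chain) (y : ℤ) (N : ℕ) (x : ℤ) : 0 ≤ hh C y N x := by
  induction N generalizing x with
  | zero =>
    by_cases h : x = y
    · rw [h, hh_self]
      exact zero_le_one
    · rw [hh_zero C h]
  | succ N ih =>
    by_cases h : x = y
    · rw [h, hh_self]
      exact zero_le_one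
    · rw [hh_succ C h]
      exact Finset.sum_nonneg fun z _ => mul_nonneg (C.nonneg _ _) (ih z)

theorem qs_succ (C : Chain) (N : ℕ) (x y : ℤ) : ∑ i ∈ range (N + 1 + 1), qk C i x y =
    (if x = y then 1 else 0) + ∑ z ∈ Finset.Icc (x - 1) (x + 1) \ {0}, C.p x z *
      ∑ i ∈ range (N + 1), qk C i z y := by
  rw [Finset.sum_range_succ', qk_zero, add_comm]
  congr 1
  have h1 : ∀ i ∈ range (N + 1), qk C (i + 1) x y =
      ∑ z ∈ Finset.Icc (x - 1) (x + 1) \ {0}, C.p x z * qk C i z y :=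
    fun i _ => qk_succ C i x y
  rw [Finset.sum_congr rfl h1, Finset.sum_comm]
  exact Finset.sum_congr rfl fun z _ => (Finset.mul_sum _ _ _).symm

theorem qs_mono (C : Chain) {N N' : ℕ} (h : N ≤ N') (x y : ℤ) :
    ∑ i ∈ range (N + 1), qk C i x y ≤ ∑ i ∈ range (N' + 1), qk C i x y :=
  Finset.sum_le_sum_of_subset_of_nonneg (Finset.range_mono (by omega))
    fun i _ _ => qk_nonneg C i x y

theorem qs_nonneg (C : Chain) (N : ℕ) (x y : ℤ) : 0 ≤ ∑ i ∈ range (N + 1), qk C i x y :=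
  Finset.sum_nonneg fun i _ => qk_nonneg C i x y

theorem qs_le (C : Chain) (y : ℤ) (N : ℕ) (x : ℤ) : ∑ i ∈ range (N + 1), qk C i x y ≤
    hh C y N x * ∑ i ∈ range (N + 1), qk C i y y := by
  induction N generalizing x with
  | zero =>
    rw [Finset.sum_range_one, Finset.sum_range_one, qk_zero, qk_zero, if_pos rfl, mul_one, hh]
  | succ N ih =>
    by_cases h : x = y
    · rw [h, hh_self, one_mul]
    · rw [qs_succ, if_neg h, zero_add, hh_succ C h, Finset.sum_mul]
      refine Finset.sum_le_sum fun z _ => ?_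
      rw [mul_assoc]
      refine mul_le_mul_of_nonneg_left ((ih z).trans ?_) (C.nonneg _ _)
      exact mul_le_mul_of_nonneg_left (qs_mono C (Nat.le_succ N) y y) (hh_nonneg C y N z)

theorem hh_sv (C : Chain) (y : ℤ) (m N : ℕ) (x : ℤ) : hh C y N x * sv C m y ≤ sv C m x := by
  induction N generalizing x with
  | zero =>
    by_cases h : x = y
    · rw [h, hh_self, one_mul]
    · rw [hh_zero C h, zero_mul]
      exact sv_nonneg C m x
  | succ N ih =>
    by_cases h : x = y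
    · rw [h, hh_self, one_mul]
    · rw [hh_succ C h, Finset.sum_mul]
      refine le_trans ?_ (sv_anti C m x)
      rw [NSv.sv_succ]
      refine Finset.sum_le_sum fun z _ => ?_
      rw [mul_assoc]
      exact mul_le_mul_of_nonneg_left (ih z) (C.nonneg _ _)

theorem hh_qs (C : Chain) (y : ℤ) (N M : ℕ) (x : ℤ) : hh C y M x *
    ∑ i ∈ range (N + 1), qk C i y y ≤ ∑ i ∈ range (N + M + 1), qk C i x y := by
  induction M generalizing x with
  | zero =>
    by_cases h : x = y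
    · rw [h, hh_self, one_mul, Nat.add_zero]
    · rw [hh_zero C h, zero_mul]
      exact qs_nonneg C _ x y
  | succ M ih =>
    by_cases h : x = y
    · rw [h, hh_self, one_mul]
      exact qs_mono C (Nat.le_add_right N (M + 1)) y y
    · have e : N + (M + 1) + 1 = (N + M) + 1 + 1 := by ring
      rw [hh_succ C h, Finset.sum_mul, e, qs_succ, if_neg h, zero_add]
      refine Finset.sum_le_sum fun z _ => ?_
      rw [mul_assoc]
      exact mul_le_mul_of_nonneg_left (ih z) (C.nonneg _ _)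

theorem hh_low (C : Chain) {y : ℤ} (hy : 1 ≤ y) (M : ℕ) (x : ℤ) (hx : y ≤ x) :
    1 - sv C M x ≤ hh C y M x := by
  induction M generalizing x with
  | zero =>
    rw [NSv.sv_zero, sub_self]
    exact hh_nonneg C y 0 x
  | succ M ih =>
    by_cases h : x = y
    · rw [h, hh_self]
      have := sv_nonneg C (M + 1) y
      linarith
    · have hxy : y + 1 ≤ x := by omega
      have h0 : (0 : ℤ) ∉ Finset.Icc (x - 1) (x + 1) := by
        rw [Finset.mem_Icc]
        omega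
      have h1 : ∑ z ∈ Finset.Icc (x - 1) (x + 1) \ {0}, C.p x z = 1 := by
        have h2 := NSv.sum_rest C x
        rw [C.near x 0 h0, zero_add] at h2
        exact h2
      rw [hh_succ C h, NSv.sv_succ]
      have h3 : 1 - ∑ z ∈ Finset.Icc (x - 1) (x + 1) \ {0}, C.p x z * sv C M z =
          ∑ z ∈ Finset.Icc (x - 1) (x + 1) \ {0}, C.p x z * (1 - sv C M z) := by
        simp only [mul_sub, mul_one, Finset.sum_sub_distrib, h1]
      rw [h3]
      refine Finset.sum_le_sum fun z hz => ?_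
      rw [Finset.mem_sdiff, Finset.mem_Icc] at hz
      exact mul_le_mul_of_nonneg_left (ih z (by omega)) (C.nonneg _ _)

/-- the supersolution dominates the sum of the potential -/
theorem sum_le_V (C : Chain) {φ V : ℤ → ℝ} (hV0 : ∀ x : ℤ, 0 ≤ x → 0 ≤ V x)
    (hV : ∀ x : ℤ, 1 ≤ x →
      φ x + (C.p x (x - 1) * V (x - 1) + C.p x x * V x + C.p x (x + 1) * V (x + 1)) ≤ V x)
    (N : ℕ) (x : ℤ) (hx : 1 ≤ x) :
    ∑ i ∈ range (N + 1), AS.Nn C (fun _ => 0) φ i x ≤ V x := by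
  have hVs : ∀ x : ℤ, 1 ≤ x → φ x + ∑ z ∈ Finset.Icc (x - 1) (x + 1) \ {0}, C.p x z * V z ≤
      V x := by
    intro x hx
    have h1 : ∑ z ∈ Finset.Icc (x - 1) (x + 1) \ {0}, C.p x z * V z ≤
        ∑ z ∈ Finset.Icc (x - 1) (x + 1), C.p x z * V z := by
      refine Finset.sum_le_sum_of_subset_of_nonneg Finset.sdiff_subset fun z hz _ => ?_
      rw [Finset.mem_Icc] at hz
      exact mul_nonneg (C.nonneg _ _) (hV0 z (by omega))
    rw [HZ.sum_nb x (fun z => C.p x z * V z)] at h1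
    have h2 := hV x hx
    linarith
  induction N generalizing x with
  | zero =>
    rw [zero_add, Finset.sum_range_one, a_zero]
    have h1 := hVs x hx
    have h2 : 0 ≤ ∑ z ∈ Finset.Icc (x - 1) (x + 1) \ {0}, C.p x z * V z :=
      Finset.sum_nonneg fun z hz => mul_nonneg (C.nonneg _ _)
        (hV0 z (by have := NSv.pos_of_mem hx hz; omega))
    linarith
  | succ N ih =>
    rw [Finset.sum_range_succ', a_zero]
    have h1 : ∀ i ∈ range (N + 1), AS.Nn C (fun _ => 0) φ (i + 1) x =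
        ∑ z ∈ Finset.Icc (x - 1) (x + 1) \ {0}, C.p x z * AS.Nn C (fun _ => 0) φ i z :=
      fun i _ => a_succ C φ i x
    rw [Finset.sum_congr rfl h1, Finset.sum_comm]
    have h2 : ∑ z ∈ Finset.Icc (x - 1) (x + 1) \ {0}, ∑ i ∈ range (N + 1),
        C.p x z * AS.Nn C (fun _ => 0) φ i z ≤
        ∑ z ∈ Finset.Icc (x - 1) (x + 1) \ {0}, C.p x z * V z := by
      refine Finset.sum_le_sum fun z hz => ?_
      rw [← Finset.mul_sum]
      exact mul_le_mul_of_nonneg_left (ih z (NSv.pos_of_mem hx hz)) (C.nonneg _ _)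
    have h3 := hVs x hx
    linarith

end NGr

/-- Markov property at time `i` (finite sum: `|S_i - 1| ≤ i`) -/
theorem hsv_eq (C : Chain) {φ : ℤ → ℝ} (n : ℕ) : Hsv C φ n 1 =
    ∑ i ∈ Finset.Icc 1 n, ∑ y ∈ Finset.Icc (1 : ℤ) (n + 1), qk C i 1 y * (φ y * sv C (n - i) y) := by
  rw [NGr.hs_nn, NGr.icc_range (fun i => ∑ y ∈ Finset.Icc (1 : ℤ) (n + 1),
    qk C i 1 y * (φ y * sv C (n - i) y))]
  refine Finset.sum_congr rfl fun j hj => ?_
  rw [Finset.mem_range] at hj
  refine NGr.a_exp C _ (j + 1) ((n : ℤ) + 1) 1 le_rfl ?_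
  push_cast
  omega

/-- Let `a j = P_1(first visit to y at time j, before 0)`, `y ≥ 2` (for `y = 1` trivial):
`qk i 1 y = ∑_{j≤i} a j qk (i-j) y y`, so `∑_{i≤N} qk i 1 y ≤ (∑_{j≤N} a j) ∑_{i≤N} qk i y y`, and
`(∑_{j≤N} a j) sv m y ≤ sv m 1` (a path which visits `y` before `0` and then survives `m` more steps
survives `m` steps). -/
theorem gr_sv (C : Chain) {y : ℤ} (hy : 1 ≤ y) (N m : ℕ) :
    (∑ i ∈ range (N + 1), qk C i 1 y) * sv C m y ≤
      (∑ i ∈ range (N + 1), qk C i y y) * sv C m 1 := by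
  have h1 := mul_le_mul_of_nonneg_right (NGr.qs_le C y N 1) (sv_nonneg C m y)
  refine h1.trans ?_
  have h2 := mul_le_mul_of_nonneg_left (NGr.hh_sv C y m N 1) (NGr.qs_nonneg C N y y)
  refine le_trans (le_of_eq ?_) h2
  ring

/-- `V x ≥ ∑_{i<N'} E_x[φ(S_i); T_0 > i] ≥ ∑_{1≤y≤Y} φ y ∑_{i<N'} qk i x y` for `x ≥ 1` (supersolution). With
`x = Y`: a path from `Y` visits `y ≤ Y` within `M` steps with probability `→ 1` as `M → ∞` (recurrence,
before it visits `0` since `y ≥ 1`), so `∑_{i<N+M} qk i Y y ≥ P_Y(T_y ≤ M) ∑_{i<N} qk i y y`. -/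
theorem gr_le (C : Chain) (hrec : HasSum (fun n : ℕ => K0 C (n + 1) 0) 1) {φ : ℤ → ℝ}
    (h0 : ∀ x, 0 ≤ φ x) (hV : VR C φ) : ∃ K : ℝ, 0 ≤ K ∧ ∀ (N : ℕ) (Y : ℤ),
      ∑ y ∈ Finset.Icc (1 : ℤ) Y, φ y * ∑ i ∈ range (N + 1), qk C i y y ≤ K := by
  obtain ⟨V, K, hV1, hV2⟩ := hV
  have hK : 0 ≤ K := (hV1 0 le_rfl).1.trans (hV1 0 le_rfl).2
  refine ⟨K, hK, fun N Y => ?_⟩
  rcases lt_or_ge Y 1 with hY | hY
  · rw [Finset.Icc_eq_empty (by omega), Finset.sum_empty]
    exact hK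
  have h1 : ∀ M : ℕ, ∑ y ∈ Finset.Icc (1 : ℤ) Y, φ y * (NGr.hh C y M Y *
      ∑ i ∈ range (N + 1), qk C i y y) ≤ K := by
    intro M
    have h2 := (NGr.sum_le_V C (fun x hx => (hV1 x hx).1) hV2 (N + M) Y hY).trans
      (hV1 Y (by omega)).2
    refine le_trans ?_ h2
    have h3 : ∀ i ∈ range (N + M + 1), ∑ y ∈ Finset.Icc (1 : ℤ) Y, qk C i Y y * φ y ≤
        AS.Nn C (fun _ => 0) φ i Y := by
      intro i _
      rw [NGr.a_exp C φ i (Y + i) Y hY le_rfl]
      refine Finset.sum_le_sum_of_subset_of_nonneg ?_ fun y _ _ =>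
        mul_nonneg (NGr.qk_nonneg C i Y y) (h0 y)
      exact Finset.Icc_subset_Icc le_rfl (by omega)
    refine le_trans ?_ (Finset.sum_le_sum h3)
    rw [Finset.sum_comm]
    refine Finset.sum_le_sum fun y _ => ?_
    rw [← Finset.sum_mul, mul_comm (φ y)]
    exact mul_le_mul_of_nonneg_right (NGr.hh_qs C y N M Y) (h0 y)
  have h4 : Tendsto (fun M : ℕ => sv C M Y) atTop (𝓝 0) := by
    have h5 := NSv.sv_tend C hrec Y.toNat
    rwa [Int.toNat_of_nonneg (by omega)] at h5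
  have h6 : Tendsto (fun M : ℕ => ∑ y ∈ Finset.Icc (1 : ℤ) Y, φ y * ((1 - sv C M Y) *
      ∑ i ∈ range (N + 1), qk C i y y)) atTop
      (𝓝 (∑ y ∈ Finset.Icc (1 : ℤ) Y, φ y * ((1 - 0) *
      ∑ i ∈ range (N + 1), qk C i y y))) := by
    refine tendsto_finsetSum _ fun y _ => ?_
    exact ((tendsto_const_nhds.sub h4).mul_const _).const_mul _
  have h7 : ∑ y ∈ Finset.Icc (1 : ℤ) Y, φ y * ((1 - 0) *
      ∑ i ∈ range (N + 1), qk C i y y) ≤ K := by
    refine le_of_tendsto' h6 fun M => le_trans ?_ (h1 M)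
    refine Finset.sum_le_sum fun y hy => ?_
    rw [Finset.mem_Icc] at hy
    exact mul_le_mul_of_nonneg_left (mul_le_mul_of_nonneg_right (NGr.hh_low C hy.1 M Y hy.2)
      (NGr.qs_nonneg C N y y)) (h0 y)
  simpa only [sub_zero, one_mul] using h7

/-- In `hsv_eq` the terms `i ≤ n/2` have `sv (n-i) y ≤ sv (n/2) y` (`sv_anti`): by `gr_sv`, `gr_le` their
sum is at most `K sv (n/2) 1`. The terms `i > n/2` are at most `∑_{i>n/2} E_1[φ(S_i); T_0 > i] ≤
E_1[V(S_{n/2}); T_0 > n/2] ≤ K' sv (n/2) 1` (supersolution; `sv ≤ 1`-type monotonicity). -/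
theorem hs_le (C : Chain) (hrec : HasSum (fun n : ℕ => K0 C (n + 1) 0) 1) {φ : ℤ → ℝ}
    (h0 : ∀ x, 0 ≤ φ x) (hV : VR C φ) : ∃ K : ℝ, 0 ≤ K ∧ ∀ n : ℕ,
      Hsv C φ n 1 ≤ K * sv C (n / 2) 1 := by
  obtain ⟨K, hK, hG⟩ := gr_le C hrec h0 hV
  obtain ⟨V, K', hV1, hV2⟩ := hV
  have hK' : 0 ≤ K' := (hV1 0 le_rfl).1.trans (hV1 0 le_rfl).2
  have hanti : ∀ (a b : ℕ) (x : ℤ), a ≤ b → sv C b x ≤ sv C a x := by
    intro a b x hab
    exact antitone_nat_of_succ_le (f := fun n => sv C n x) (fun n => sv_anti C n x) hab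
  have hsv1 : ∀ (m : ℕ) (x : ℤ), sv C m x ≤ 1 := by
    intro m x
    have := hanti 0 m x (Nat.zero_le m)
    rwa [NSv.sv_zero] at this
  refine ⟨K + K', add_nonneg hK hK', fun n => ?_⟩
  obtain ⟨m, hm⟩ : ∃ m, m = n - n / 2 := ⟨_, rfl⟩
  have hmn : m ≤ n := by omega
  have hm2 : n / 2 ≤ m := by omega
  rw [NGr.hs_nn]
  have hsplit : ∑ j ∈ range n, AS.Nn C (fun _ => 0) (fun y => φ y * sv C (n - (j + 1)) y)
      (j + 1) 1 = ∑ j ∈ range m, AS.Nn C (fun _ => 0) (fun y => φ y * sv C (n - (j + 1)) y)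
      (j + 1) 1 + ∑ j ∈ Finset.Ico m n, AS.Nn C (fun _ => 0)
        (fun y => φ y * sv C (n - (j + 1)) y) (j + 1) 1 :=
    (Finset.sum_range_add_sum_Ico _ hmn).symm
  rw [hsplit, add_mul]
  refine add_le_add ?_ ?_
  · -- the first half
    have h1 : ∀ j ∈ range m, AS.Nn C (fun _ => 0) (fun y => φ y * sv C (n - (j + 1)) y)
        (j + 1) 1 ≤ ∑ y ∈ Finset.Icc (1 : ℤ) (n + 1), qk C (j + 1) 1 y *
          (φ y * sv C (n / 2) y) := by
      intro j hj
      rw [Finset.mem_range] at hj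
      refine (NGr.a_mono C (η' := fun y => φ y * sv C (n / 2) y) (fun z _ => ?_) (j + 1) 1
        le_rfl).trans (le_of_eq ?_)
      · exact mul_le_mul_of_nonneg_left (hanti _ _ z (by omega)) (h0 z)
      · refine NGr.a_exp C _ (j + 1) ((n : ℤ) + 1) 1 le_rfl ?_
        push_cast
        omega
    refine (Finset.sum_le_sum h1).trans ?_
    rw [Finset.sum_comm]
    have h2 : ∀ y ∈ Finset.Icc (1 : ℤ) (n + 1), ∑ j ∈ range m, qk C (j + 1) 1 y *
        (φ y * sv C (n / 2) y) ≤ φ y * (∑ i ∈ range (m + 1), qk C i y y) * sv C (n / 2) 1 := by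
      intro y hy
      rw [Finset.mem_Icc] at hy
      have h3 := gr_sv C hy.1 m (n / 2)
      have h4 : ∑ j ∈ range m, qk C (j + 1) 1 y ≤ ∑ i ∈ range (m + 1), qk C i 1 y := by
        rw [Finset.sum_range_succ' (fun i => qk C i 1 y)]
        exact le_add_of_nonneg_right (NGr.qk_nonneg C 0 1 y)
      rw [← Finset.sum_mul]
      have h5 := mul_le_mul_of_nonneg_right h4 (sv_nonneg C (n / 2) y)
      have h6 := mul_le_mul_of_nonneg_left (h5.trans h3) (h0 y)
      refine le_trans (le_of_eq ?_) (h6.trans (le_of_eq ?_))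
      · ring
      · ring
    refine (Finset.sum_le_sum h2).trans ?_
    rw [← Finset.sum_mul]
    exact mul_le_mul_of_nonneg_right (hG m _) (sv_nonneg C _ 1)
  · -- the second half
    have h1 : ∀ j ∈ Finset.Ico m n, AS.Nn C (fun _ => 0)
        (fun y => φ y * sv C (n - (j + 1)) y) (j + 1) 1 ≤
        AS.Nn C (fun _ => 0) (fun z => AS.Nn C (fun _ => 0) φ (j + 1 - m) z) m 1 := by
      intro j hj
      rw [Finset.mem_Ico] at hj
      rw [← NGr.a_add, show m + (j + 1 - m) = j + 1 by omega]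
      refine NGr.a_mono C (fun z _ => ?_) (j + 1) 1 le_rfl
      have h2 := mul_le_mul_of_nonneg_left (hsv1 (n - (j + 1)) z) (h0 z)
      rwa [mul_one] at h2
    refine (Finset.sum_le_sum h1).trans ?_
    rw [← NGr.a_sum]
    have h2 : ∀ z : ℤ, 1 ≤ z → ∑ j ∈ Finset.Ico m n, AS.Nn C (fun _ => 0) φ (j + 1 - m) z ≤
        K' * 1 := by
      intro z hz
      rw [mul_one]
      refine le_trans ?_ ((NGr.sum_le_V C (fun x hx => (hV1 x hx).1) hV2 (n - m) z hz).trans
        (hV1 z (by omega)).2)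
      rw [Finset.sum_Ico_eq_sum_range, Finset.sum_range_succ']
      have h3 : ∀ k ∈ range (n - m), AS.Nn C (fun _ => 0) φ (m + k + 1 - m) z =
          AS.Nn C (fun _ => 0) φ (k + 1) z := by
        intro k _
        rw [show m + k + 1 - m = k + 1 by omega]
      rw [Finset.sum_congr rfl h3]
      exact le_add_of_nonneg_right (h0 z)
    refine (NGr.a_mono C (η' := fun _ => K' * 1) h2 m 1 le_rfl).trans ?_
    rw [NGr.a_smul C K' (fun _ => 1) m 1]
    exact mul_le_mul_of_nonneg_left (hanti _ _ 1 hm2) hK'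

end

end Pool.Agent.HG
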