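import Pool.Agent.Lib.MP_daa227_pr_HG.PolyV
import Pool.Agent.Lib.MP_daa227_pr_AS.Defs
import Pool.Agent.Lib.MP_daa227_pr_HZ.HalfLine

/-!
# MP_daa227_pr, marginal case: survival with a penalty
-/

namespace Pool.Agent.HG

open MeasureTheory ProbabilityTheory Finset Filter Topology
open MP_daa227_pr (Chain Zk Zf Gk Gf KU K0 Ren shift seqLaw ExpMom DepOn Good GoodW mom)
open Pool.Agent.HZ (Mod Kv lmg)
open Pool.Agent.IOrd (Sys aS cv)

noncomputable section

/-- `P_x(S_i ≠ 0 for 1 ≤ i ≤ n)` -/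
def sv (C : Chain) (n : ℕ) (x : ℤ) : ℝ := AS.Nn C (fun _ => 0) (fun _ => 1) n x

/-- `E_x[∑_{i=1}^n φ(S_i); S_i ≠ 0 for 1 ≤ i ≤ n]` -/
def Hsv (C : Chain) (φ : ℤ → ℝ) : ℕ → ℤ → ℝ
  | 0, _ => 0
  | n + 1, x => ∑ z ∈ Finset.Icc (x - 1) (x + 1) \ {0}, C.p x z * (φ z * sv C n z + Hsv C φ n z)

namespace NSv

theorem sv_zero (C : Chain) (x : ℤ) : sv C 0 x = 1 := rfl

theorem sv_succ (C : Chain) (n : ℕ) (x : ℤ) :
    sv C (n + 1) x = ∑ z ∈ Finset.Icc (x - 1) (x + 1) \ {0}, C.p x z * sv C n z := by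
  unfold sv
  rw [AS.Nn]
  simp only [Real.exp_zero, mul_one]

theorem nn_succ (C : Chain) (v η : ℤ → ℝ) (n : ℕ) (x : ℤ) :
    AS.Nn C v η (n + 1) x = ∑ z ∈ Finset.Icc (x - 1) (x + 1) \ {0},
      C.p x z * Real.exp (v z) * AS.Nn C v η n z := rfl

theorem hs_succ (C : Chain) (φ : ℤ → ℝ) (n : ℕ) (x : ℤ) :
    Hsv C φ (n + 1) x = ∑ z ∈ Finset.Icc (x - 1) (x + 1) \ {0},
      C.p x z * (φ z * sv C n z + Hsv C φ n z) := rfl

theorem sum_rest (C : Chain) (x : ℤ) :
    C.p x 0 + ∑ z ∈ Finset.Icc (x - 1) (x + 1) \ {0}, C.p x z = 1 := HZ.HalfLine.sum_rest C x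

theorem pos_of_mem {x z : ℤ} (hx : 1 ≤ x) (hz : z ∈ Finset.Icc (x - 1) (x + 1) \ {0}) :
    1 ≤ z := by
  rw [Finset.mem_sdiff, Finset.mem_Icc, Finset.mem_singleton] at hz
  omega

end NSv

theorem sv_nonneg (C : Chain) (n : ℕ) (x : ℤ) : 0 ≤ sv C n x := by
  induction n generalizing x with
  | zero => rw [NSv.sv_zero]; exact zero_le_one
  | succ n ih =>
    rw [NSv.sv_succ]
    exact Finset.sum_nonneg fun z _ => mul_nonneg (C.nonneg _ _) (ih z)

theorem sv_anti (C : Chain) (n : ℕ) (x : ℤ) : sv C (n + 1) x ≤ sv C n x := by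
  induction n generalizing x with
  | zero =>
    rw [NSv.sv_succ, NSv.sv_zero]
    simp only [NSv.sv_zero, mul_one]
    have h1 := NSv.sum_rest C x
    have h2 := C.nonneg x 0
    linarith
  | succ n ih =>
    rw [NSv.sv_succ, NSv.sv_succ C n]
    exact Finset.sum_le_sum fun z _ => mul_le_mul_of_nonneg_left (ih z) (C.nonneg _ _)

/-- `sv n x + ∑_{m≤n} K0 m x = 1` -/
theorem sv_eq (C : Chain) (n : ℕ) (x : ℤ) : sv C n x + ∑ m ∈ range (n + 1), K0 C m x = 1 := by
  induction n generalizing x with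
  | zero =>
    rw [NSv.sv_zero, zero_add, Finset.sum_range_one, K0, add_zero]
  | succ n ih =>
    have h0 := HZ.psum_succ C (fun _ => 0) (n + 1) x
    simp only [HZ.Kv_K0, Real.exp_zero, mul_one] at h0
    rw [if_neg (Nat.succ_ne_zero n)] at h0
    rw [h0, NSv.sv_succ, add_left_comm, ← Finset.sum_add_distrib]
    refine Eq.trans ?_ (NSv.sum_rest C x)
    congr 1
    refine Finset.sum_congr rfl fun z _ => ?_
    rw [← mul_add, ih, mul_one]

/-- The tangent inequality `e^(-u) ≥ e^(-L) (1 + L - u)` for `u = t ∑ φ(S_i)`, by induction on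
`n` for all `L`: use the hypothesis at `z` with `L - t φ z`:
`e^(-tφ z) e^(-(L - tφ z)) ((1 + L - tφ z) sv n z - t Hsv n z)`. -/
theorem nn_tan (C : Chain) {φ : ℤ → ℝ} {t : ℝ} (ht : 0 ≤ t) (L : ℝ) (n : ℕ) (x : ℤ) :
    Real.exp (-L) * ((1 + L) * sv C n x - t * Hsv C φ n x) ≤
      AS.Nn C (fun z => -t * φ z) (fun _ => 1) n x := by
  induction n generalizing x L with
  | zero =>
    have h0 : Hsv C φ 0 x = 0 := rfl
    have h1 : AS.Nn C (fun z => -t * φ z) (fun _ => 1) 0 x = 1 := rfl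
    rw [h0, h1, NSv.sv_zero, mul_one, mul_zero, sub_zero]
    have h2 := Real.add_one_le_exp L
    have h3 := Real.exp_pos (-L)
    calc Real.exp (-L) * (1 + L) ≤ Real.exp (-L) * Real.exp L :=
          mul_le_mul_of_nonneg_left (by linarith) h3.le
      _ = 1 := by rw [← Real.exp_add, neg_add_cancel, Real.exp_zero]
  | succ n ih =>
    rw [NSv.nn_succ, NSv.hs_succ, NSv.sv_succ, Finset.mul_sum, Finset.mul_sum,
      ← Finset.sum_sub_distrib, Finset.mul_sum]
    refine Finset.sum_le_sum fun z _ => ?_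
    have h1 := mul_le_mul_of_nonneg_left (ih (L - t * φ z) z)
      (mul_nonneg (C.nonneg x z) (Real.exp_pos (-t * φ z)).le)
    refine le_trans (le_of_eq ?_) h1
    have h2 : Real.exp (-L) = Real.exp (-t * φ z) * Real.exp (-(L - t * φ z)) := by
      rw [← Real.exp_add]
      congr 1
      ring
    rw [h2]
    ring

namespace NSv

/-- recurrence at the points to the right -/
theorem sv_tend (C : Chain) (hrec : HasSum (fun n : ℕ => K0 C (n + 1) 0) 1) (k : ℕ) :
    Tendsto (fun n : ℕ => sv C n k) atTop (𝓝 0) := by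
  induction k with
  | zero =>
    have h2 : Tendsto (fun m : ℕ => 1 - ∑ n ∈ Finset.range m, K0 C (n + 1) 0) atTop
        (𝓝 (1 - 1)) := tendsto_const_nhds.sub hrec.tendsto_sum_nat
    rw [sub_self] at h2
    refine h2.congr fun m => ?_
    have h3 := sv_eq C m 0
    rw [Finset.sum_range_succ'] at h3
    have h4 : K0 C 0 0 = 0 := rfl
    rw [h4, add_zero] at h3
    rw [Nat.cast_zero]
    linarith
  | succ k ih =>
    have hp : 0 < C.p (k : ℤ) ((k : ℤ) + 1) := C.up _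
    have h1 : Tendsto (fun n : ℕ => (C.p (k : ℤ) ((k : ℤ) + 1))⁻¹ * sv C (n + 1) k) atTop
        (𝓝 ((C.p (k : ℤ) ((k : ℤ) + 1))⁻¹ * 0)) :=
      (ih.comp (tendsto_add_atTop_nat 1)).const_mul _
    rw [mul_zero] at h1
    refine squeeze_zero (fun n => sv_nonneg C n _) (fun n => ?_) h1
    rw [← div_eq_inv_mul, le_div_iff₀ hp, sv_succ, mul_comm]
    have h2 : ((k : ℤ) + 1) ∈ Finset.Icc ((k : ℤ) - 1) ((k : ℤ) + 1) \ {0} := by
      rw [Finset.mem_sdiff, Finset.mem_Icc, Finset.mem_singleton]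
      omega
    have h3 := Finset.single_le_sum
      (f := fun z : ℤ => C.p (k : ℤ) z * sv C n z)
      (fun z _ => mul_nonneg (C.nonneg _ _) (sv_nonneg C n z)) h2
    push_cast
    exact h3

theorem mass_part (C : Chain) {φ : ℤ → ℝ} (h0 : ∀ x, 0 ≤ φ x) {V : ℤ → ℝ}
    (hV0 : ∀ x : ℤ, 0 ≤ x → 0 ≤ V x)
    (hV : ∀ x : ℤ, 1 ≤ x →
      φ x + (C.p x (x - 1) * V (x - 1) + C.p x x * V x + C.p x (x + 1) * V (x + 1)) ≤ V x)
    {t : ℝ} (ht : 0 ≤ t) (N : ℕ) : ∀ (L : ℝ) (x : ℤ), 1 ≤ x →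
      Real.exp (-L) * ((1 + L) * ∑ n ∈ range N, K0 C n x - t * (V x - φ x) - t * φ 0) ≤
        ∑ n ∈ range N, Kv C (fun z => -t * φ z) n x := by
  have hVs : ∀ x : ℤ, 1 ≤ x → ∑ z ∈ Finset.Icc (x - 1) (x + 1) \ {0}, C.p x z * V z ≤
      V x - φ x := by
    intro x hx
    have h1 : ∑ z ∈ Finset.Icc (x - 1) (x + 1) \ {0}, C.p x z * V z ≤
        ∑ z ∈ Finset.Icc (x - 1) (x + 1), C.p x z * V z := by
      refine Finset.sum_le_sum_of_subset_of_nonneg Finset.sdiff_subset fun z hz _ => ?_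
      rw [Finset.mem_Icc] at hz
      exact mul_nonneg (C.nonneg _ _) (hV0 z (by omega))
    rw [HZ.sum_nb x (fun z => C.p x z * V z)] at h1
    have h2 := hV x hx
    linarith
  have hVn : ∀ x : ℤ, 1 ≤ x → 0 ≤ V x - φ x := by
    intro x hx
    refine le_trans ?_ (hVs x hx)
    exact Finset.sum_nonneg fun z hz => mul_nonneg (C.nonneg _ _)
      (hV0 z (by have := pos_of_mem hx hz; omega))
  induction N with
  | zero =>
    intro L x hx
    rw [Finset.range_zero, Finset.sum_empty, Finset.sum_empty, mul_zero, zero_sub]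
    have h1 := mul_nonneg ht (hVn x hx)
    have h2 := mul_nonneg ht (h0 0)
    exact mul_nonpos_of_nonneg_of_nonpos (Real.exp_pos _).le (by linarith)
  | succ N ih =>
    intro L x hx
    rcases Nat.eq_zero_or_pos N with hN | hN
    · subst hN
      have e1 : K0 C 0 x = 0 := rfl
      rw [zero_add, Finset.sum_range_one, Finset.sum_range_one, HZ.Kv_zero, e1, mul_zero,
        zero_sub]
      have h1 := mul_nonneg ht (hVn x hx)
      have h2 := mul_nonneg ht (h0 0)
      exact mul_nonpos_of_nonneg_of_nonpos (Real.exp_pos _).le (by linarith)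
    have h0s := HZ.psum_succ C (fun _ => 0) N x
    simp only [HZ.Kv_K0, Real.exp_zero, mul_one] at h0s
    rw [if_neg hN.ne'] at h0s
    rw [HZ.psum_succ, if_neg hN.ne', h0s]
    have hS1 : ∀ z : ℤ, ∑ n ∈ range N, K0 C n z ≤ 1 := by
      intro z
      have h1 := sv_eq C (N - 1) z
      rw [Nat.sub_add_cancel hN] at h1
      have h2 := sv_nonneg C (N - 1) z
      linarith
    have hz : ∀ z ∈ Finset.Icc (x - 1) (x + 1) \ {0},
        C.p x z * (Real.exp (-L) * ((1 + L) * ∑ n ∈ range N, K0 C n z - t * V z - t * φ 0)) ≤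
        C.p x z * Real.exp (-t * φ z) * ∑ n ∈ range N, Kv C (fun z => -t * φ z) n z := by
      intro z hz
      have hz1 := pos_of_mem hx hz
      have h1 := mul_le_mul_of_nonneg_left (ih (L - t * φ z) z hz1) (Real.exp_pos (-t * φ z)).le
      rw [mul_assoc]
      refine mul_le_mul_of_nonneg_left (le_trans ?_ h1) (C.nonneg _ _)
      have h2 : Real.exp (-L) = Real.exp (-t * φ z) * Real.exp (-(L - t * φ z)) := by
        rw [← Real.exp_add]
        congr 1
        ring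
      rw [h2, mul_assoc]
      refine mul_le_mul_of_nonneg_left ?_ (Real.exp_pos _).le
      refine mul_le_mul_of_nonneg_left ?_ (Real.exp_pos _).le
      have h3 := mul_nonneg (mul_nonneg ht (h0 z)) (sub_nonneg.2 (hS1 z))
      nlinarith
    have h1 : Real.exp (-L) * (1 + L - t * φ 0) ≤ Real.exp (-t * φ 0) := by
      have h2 := Real.add_one_le_exp (L - t * φ 0)
      have h3 : Real.exp (-t * φ 0) = Real.exp (-L) * Real.exp (L - t * φ 0) := by
        rw [← Real.exp_add]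
        congr 1
        ring
      rw [h3]
      exact mul_le_mul_of_nonneg_left (by linarith) (Real.exp_pos _).le
    have h2 := mul_le_mul_of_nonneg_left h1 (C.nonneg x 0)
    have h3 := Finset.sum_le_sum hz
    refine le_trans ?_ (add_le_add h2 h3)
    have h4 : ∑ z ∈ Finset.Icc (x - 1) (x + 1) \ {0},
        C.p x z * (Real.exp (-L) * ((1 + L) * ∑ n ∈ range N, K0 C n z - t * V z - t * φ 0)) =
        Real.exp (-L) * ((1 + L) * ∑ z ∈ Finset.Icc (x - 1) (x + 1) \ {0},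
          C.p x z * ∑ n ∈ range N, K0 C n z -
          t * ∑ z ∈ Finset.Icc (x - 1) (x + 1) \ {0}, C.p x z * V z -
          t * φ 0 * ∑ z ∈ Finset.Icc (x - 1) (x + 1) \ {0}, C.p x z) := by
      rw [Finset.mul_sum, Finset.mul_sum, Finset.mul_sum, ← Finset.sum_sub_distrib,
        ← Finset.sum_sub_distrib, Finset.mul_sum]
      refine Finset.sum_congr rfl fun z _ => ?_
      ring
    rw [h4]
    have h5 := sum_rest C x
    have h6 := hVs x hx
    have h7 : ∑ z ∈ Finset.Icc (x - 1) (x + 1) \ {0}, C.p x z = 1 - C.p x 0 := by linarith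
    rw [h7]
    have h8 : C.p x 0 * (Real.exp (-L) * (1 + L - t * φ 0)) =
        Real.exp (-L) * (C.p x 0 * (1 + L - t * φ 0)) := by ring
    rw [h8, ← mul_add]
    refine mul_le_mul_of_nonneg_left ?_ (Real.exp_pos _).le
    have h9 := mul_le_mul_of_nonneg_left h6 ht
    linarith

theorem kv_le (C : Chain) {φ : ℤ → ℝ} (h0 : ∀ x, 0 ≤ φ x) {t : ℝ} (ht : 0 ≤ t) (n : ℕ) (x : ℤ) :
    Kv C (fun z => -t * φ z) n x ≤ K0 C n x := by
  rw [← HZ.Kv_K0]
  refine HZ.Kv_mono C (fun z => ?_) n x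
  have := mul_nonneg ht (h0 z)
  linarith

theorem k0_psum (C : Chain) (N : ℕ) (x : ℤ) : ∑ n ∈ range N, K0 C n x ≤ 1 := by
  cases N with
  | zero => rw [Finset.range_zero, Finset.sum_empty]; exact zero_le_one
  | succ N =>
    have h1 := sv_eq C N x
    have h2 := sv_nonneg C N x
    linarith

theorem k0_summ (C : Chain) (x : ℤ) : Summable fun n : ℕ => K0 C n x :=
  summable_of_sum_range_le (fun n => MP_daa227_pr.K0_nonneg C n x) (fun N => k0_psum C N x)

theorem kv_summN (C : Chain) {φ : ℤ → ℝ} (h0 : ∀ x, 0 ≤ φ x) {t : ℝ} (ht : 0 ≤ t) (x : ℤ) :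
    Summable fun n : ℕ => Kv C (fun z => -t * φ z) n x :=
  Summable.of_nonneg_of_le (fun n => HZ.Kv_nonneg C _ n x) (fun n => kv_le C h0 ht n x)
    (k0_summ C x)

end NSv

/-- In the same way, with the supersolution `V ≤ K` of `VR`, for `x ≥ 1` and all `L`:
`∑_{m≤N} Kv (-tφ) m x ≥ e^(-L) ((1 + L) ∑_{m≤N} K0 m x - t (V x - φ x) - t φ 0)` by induction
on `N`; let `N → ∞` (`∑ K0 m x → 1` for `x ≥ 1`: recurrence, `HZ.HalfLine.Gf_K0`, `HZ.HalfLine.tend`,
`HZ.HalfLine.Gf_tr`) and `L = t (K + φ 0)`. -/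
theorem mass_pen (C : Chain) (hrec : HasSum (fun n : ℕ => K0 C (n + 1) 0) 1) {φ : ℤ → ℝ}
    (h0 : ∀ x, 0 ≤ φ x) (hV : VR C φ) {t : ℝ} (ht : 0 ≤ t) : ∃ c : ℝ, 0 < c ∧ ∀ x : ℤ, 1 ≤ x →
      c ≤ ∑' m : ℕ, Kv C (fun z => -t * φ z) m x := by
  obtain ⟨V, K, hV1, hV2⟩ := hV
  refine ⟨Real.exp (-(t * (K + φ 0))), Real.exp_pos _, fun x hx => ?_⟩
  have h1 : ∀ N : ℕ, Real.exp (-(t * (K + φ 0))) * ((1 + t * (K + φ 0)) *
      (1 - sv C N x) - t * (V x - φ x) - t * φ 0) ≤
      ∑' m : ℕ, Kv C (fun z => -t * φ z) m x := by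
    intro N
    have h2 := NSv.mass_part C h0 (fun x hx => (hV1 x hx).1) hV2 ht (N + 1) (t * (K + φ 0)) x hx
    have h3 : ∑ n ∈ range (N + 1), K0 C n x = 1 - sv C N x := by
      have := sv_eq C N x
      linarith
    rw [h3] at h2
    refine h2.trans ?_
    exact (NSv.kv_summN C h0 ht x).sum_le_tsum _ fun n _ => HZ.Kv_nonneg C _ n x
  have h4 : Tendsto (fun N : ℕ => sv C N x) atTop (𝓝 0) := by
    have h5 := NSv.sv_tend C hrec x.toNat
    rwa [Int.toNat_of_nonneg (by omega)] at h5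
  have h6 : Tendsto (fun N : ℕ => Real.exp (-(t * (K + φ 0))) * ((1 + t * (K + φ 0)) *
      (1 - sv C N x) - t * (V x - φ x) - t * φ 0)) atTop
      (𝓝 (Real.exp (-(t * (K + φ 0))) * ((1 + t * (K + φ 0)) *
      (1 - 0) - t * (V x - φ x) - t * φ 0))) :=
    ((((tendsto_const_nhds.sub h4).const_mul _).sub_const _).sub_const _).const_mul _
  refine le_trans ?_ (le_of_tendsto' h6 h1)
  have h7 : V x ≤ K := (hV1 x (by omega)).2
  have h8 := h0 x
  have h9 : 1 ≤ (1 + t * (K + φ 0)) * (1 - 0) - t * (V x - φ x) - t * φ 0 := by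
    have h10 := mul_le_mul_of_nonneg_left (show V x - φ x ≤ K by linarith) ht
    linarith
  calc Real.exp (-(t * (K + φ 0))) = Real.exp (-(t * (K + φ 0))) * 1 := (mul_one _).symm
    _ ≤ _ := mul_le_mul_of_nonneg_left h9 (Real.exp_pos _).le

/-- Markov property at time `n`: `∑_m Kv v (n + m) 1 = Nn v (fun z => ∑_m Kv v m z) n 1` for the
paths in `z ≥ 1` (induction on `n`, for all `x ≥ 1`), and `mass_pen` -/
theorem tail_pen (C : Chain) (hrec : HasSum (fun n : ℕ => K0 C (n + 1) 0) 1) {φ : ℤ → ℝ}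
    (h0 : ∀ x, 0 ≤ φ x) (hV : VR C φ) {t : ℝ} (ht : 0 ≤ t) : ∃ c : ℝ, 0 < c ∧ ∀ n : ℕ,
      c * AS.Nn C (fun z => -t * φ z) (fun _ => 1) n 1 ≤
        ∑' m : ℕ, Kv C (fun z => -t * φ z) (n + m) 1 := by
  obtain ⟨c, hc, h⟩ := mass_pen C hrec h0 hV ht
  refine ⟨c, hc, ?_⟩
  have hs : ∀ (n : ℕ) (x : ℤ), Summable fun m : ℕ => Kv C (fun z => -t * φ z) (n + m) x := by
    intro n x
    have h1 := (summable_nat_add_iff n).2 (NSv.kv_summN C h0 ht x)
    refine h1.congr fun m => ?_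
    rw [add_comm]
  have key : ∀ (n : ℕ) (x : ℤ), 1 ≤ x → c * AS.Nn C (fun z => -t * φ z) (fun _ => 1) n x ≤
      ∑' m : ℕ, Kv C (fun z => -t * φ z) (n + m) x := by
    intro n
    induction n with
    | zero =>
      intro x hx
      have h1 : AS.Nn C (fun z => -t * φ z) (fun _ => 1) 0 x = 1 := rfl
      rw [h1, mul_one]
      refine (h x hx).trans (le_of_eq ?_)
      exact tsum_congr fun m => by rw [zero_add]
    | succ n ih =>
      intro x hx
      have h1 : ∀ m : ℕ, ∑ z ∈ Finset.Icc (x - 1) (x + 1) \ {0}, C.p x z *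
          Real.exp (-t * φ z) * Kv C (fun z => -t * φ z) (n + m) z ≤
          Kv C (fun z => -t * φ z) (n + 1 + m) x := by
        intro m
        have e : n + 1 + m = n + m + 1 := by ring
        rw [e, HZ.Kv_succ]
        refine le_add_of_nonneg_left ?_
        split_ifs
        · exact mul_nonneg (C.nonneg _ _) (Real.exp_pos _).le
        · exact le_rfl
      have h2 : Summable fun m : ℕ => ∑ z ∈ Finset.Icc (x - 1) (x + 1) \ {0}, C.p x z *
          Real.exp (-t * φ z) * Kv C (fun z => -t * φ z) (n + m) z :=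
        summable_sum fun z _ => (hs n z).mul_left _
      refine le_trans ?_ (h2.tsum_le_tsum h1 (hs (n + 1) x))
      rw [Summable.tsum_finsetSum fun z _ => (hs n z).mul_left _, NSv.nn_succ, Finset.mul_sum]
      refine Finset.sum_le_sum fun z hz => ?_
      rw [tsum_mul_left]
      have h3 := mul_le_mul_of_nonneg_left (ih z (NSv.pos_of_mem hx hz))
        (mul_nonneg (C.nonneg x z) (Real.exp_pos (-t * φ z)).le)
      refine le_trans (le_of_eq ?_) h3
      ring
  exact fun n => key n 1 le_rfl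

end

end Pool.Agent.HG
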