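import Pool.Agent.Lib.MP_daa227_pr_HG.NPen
import Pool.Agent.Lib.MP_daa227_pr_HG.STail

/-!
# MP_daa227_pr, marginal case: potentials light on both sides
-/

namespace Pool.Agent.HG

open MeasureTheory ProbabilityTheory Finset Filter Topology
open MP_daa227_pr (Chain Zk Zf Gk Gf KU K0 Ren shift seqLaw ExpMom DepOn Good GoodW mom)
open Pool.Agent.HZ (Mod Kv lmg)
open Pool.Agent.IOrd (Sys aS cv)

noncomputable section


/-- the lower bound at one scale -/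
theorem sv_low_at (C : Chain) {c : ℝ} {k : ℕ}
    (h : c * ((k + 1 : ℕ) : ℝ) ^ (-(3 / 2 : ℝ)) ≤ HZ.A24.fp C (2 * (k + 1))) (hc : 0 < c) :
    c * ((2 * k + 1 : ℕ) : ℝ) ^ (-(1 / 2 : ℝ)) ≤ sv C (2 * k + 1) 1 := by
  have hn0 : (0 : ℝ) < ((k + 1 : ℕ) : ℝ) := by exact_mod_cast Nat.succ_pos k
  have h4 := NPen.sv_ge C (n := 2 * k + 1) (j := k + 1) (by omega) (k + 1)
  have h3 : ∀ i ∈ range (k + 1), c * ((k + 1 : ℕ) : ℝ) ^ (-(3 / 2 : ℝ)) ≤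
      HZ.A24.fp C (k + 1 + i) := fun i hi => by
    rw [Finset.mem_range] at hi
    exact h.trans (HZ.A24.fp_anti C (by omega))
  have h5 := Finset.sum_le_sum h3
  rw [Finset.sum_const, Finset.card_range, nsmul_eq_mul] at h5
  have h6 : ((k + 1 : ℕ) : ℝ) ^ (-(1 / 2 : ℝ)) =
      ((k + 1 : ℕ) : ℝ) * ((k + 1 : ℕ) : ℝ) ^ (-(3 / 2 : ℝ)) := by
    nth_rewrite 2 [← Real.rpow_one ((k + 1 : ℕ) : ℝ)]
    rw [← Real.rpow_add hn0]
    norm_num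
  have h7 : ((2 * k + 1 : ℕ) : ℝ) ^ (-(1 / 2 : ℝ)) ≤ ((k + 1 : ℕ) : ℝ) ^ (-(1 / 2 : ℝ)) := by
    refine Real.rpow_le_rpow_of_nonpos hn0 ?_ (by norm_num)
    have : k + 1 ≤ 2 * k + 1 := by omega
    exact_mod_cast this
  have h8 := mul_le_mul_of_nonneg_left h7 hc.le
  rw [h6] at h8
  have h9 : c * (((k + 1 : ℕ) : ℝ) * ((k + 1 : ℕ) : ℝ) ^ (-(3 / 2 : ℝ))) =
      ((k + 1 : ℕ) : ℝ) * (c * ((k + 1 : ℕ) : ℝ) ^ (-(3 / 2 : ℝ))) := by ring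
  linarith

/-- `pen_half` at one scale -/
theorem pen_half_at (C : Chain)
    (hrec : HasSum (fun n : ℕ => K0 C (n + 1) 0) 1) {φ : ℤ → ℝ} (h0 : ∀ x, 0 ≤ φ x)
    (hV : VR C φ) {c B : ℝ} (hc : 0 < c) (hB : 0 ≤ B)
    (hf2 : ∀ n : ℕ, 1 ≤ n → HZ.A24.fp C n ≤ B * (n : ℝ) ^ (-(3 / 2 : ℝ))) {t : ℝ} (ht : 0 ≤ t) :
    ∃ c' : ℝ, 0 < c' ∧ ∀ n : ℕ, 1 ≤ n → c * (n : ℝ) ^ (-(3 / 2 : ℝ)) ≤ HZ.A24.fp C (2 * n) →
      c' * (n : ℝ) ^ (-(3 / 2 : ℝ)) ≤ Kv C (fun z => -t * φ z) (2 * n) 0 := by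
  obtain ⟨Bs, hBsd⟩ : ∃ Bs, Bs = 4 * (8 * B + 3) := ⟨_, rfl⟩
  have hBs : 0 ≤ Bs := by rw [hBsd]; positivity
  have hup : ∀ n : ℕ, 1 ≤ n → sv C n 1 ≤ Bs * (n : ℝ) ^ (-(1 / 2 : ℝ)) := fun n hn => by
    rw [hBsd]
    exact sv_up_half C hrec hB hf2 hn
  obtain ⟨K, hK, hHs⟩ := hs_le C hrec h0 hV
  obtain ⟨c₁, hc₁, htail⟩ := tail_pen C hrec h0 hV ht
  set v : ℤ → ℝ := fun z => -t * φ z with hv
  have hv0 : ∀ z, v z ≤ 0 := fun z => by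
    have := mul_nonneg ht (h0 z)
    rw [hv]
    dsimp only
    linarith
  -- the potential seen by a surviving path
  set L0 : ℝ := K * (Bs * 3 ^ (1 / 2 : ℝ) / c) with hL0
  have hL00 : 0 ≤ L0 := by positivity
  have hH : ∀ n : ℕ, 2 ≤ n → c * (n : ℝ) ^ (-(1 / 2 : ℝ)) ≤ sv C n 1 →
      Hsv C φ n 1 ≤ L0 * sv C n 1 := by
    intro n hn hlo
    have hn0 : (0 : ℝ) < n := by
      have : 0 < n := by omega
      exact_mod_cast this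
    refine (hHs n).trans ?_
    rw [hL0, mul_assoc]
    refine mul_le_mul_of_nonneg_left ?_ hK
    refine (hup (n / 2) (by omega)).trans ?_
    have e1 : ((n / 2 : ℕ) : ℝ) ^ (-(1 / 2 : ℝ)) ≤ 3 ^ (1 / 2 : ℝ) * (n : ℝ) ^ (-(1 / 2 : ℝ)) := by
      have e2 : ((n / 2 : ℕ) : ℝ) ^ (-(1 / 2 : ℝ)) ≤ ((n : ℝ) / 3) ^ (-(1 / 2 : ℝ)) := by
        refine Real.rpow_le_rpow_of_nonpos (by positivity) ?_ (by norm_num)
        rw [div_le_iff₀ (by norm_num)]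
        have : n ≤ n / 2 * 3 := by omega
        exact_mod_cast this
      refine e2.trans (le_of_eq ?_)
      rw [Real.div_rpow hn0.le (by norm_num), Real.rpow_neg (by norm_num : (0 : ℝ) ≤ 3),
        div_inv_eq_mul, mul_comm]
    have e3 : (n : ℝ) ^ (-(1 / 2 : ℝ)) ≤ sv C n 1 / c := by
      rw [le_div_iff₀ hc, mul_comm]
      exact hlo
    calc Bs * ((n / 2 : ℕ) : ℝ) ^ (-(1 / 2 : ℝ))
        ≤ Bs * (3 ^ (1 / 2 : ℝ) * (sv C n 1 / c)) := by gcongr; exact e1.trans (by gcongr)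
      _ = Bs * 3 ^ (1 / 2 : ℝ) / c * sv C n 1 := by ring
  have hN : ∀ n : ℕ, 2 ≤ n → c * (n : ℝ) ^ (-(1 / 2 : ℝ)) ≤ sv C n 1 →
      Real.exp (-(t * L0)) * sv C n 1 ≤ AS.Nn C v (fun _ => 1) n 1 := by
    intro n hn hlo
    refine le_trans ?_ (nn_tan C ht (t * L0) n 1)
    refine mul_le_mul_of_nonneg_left ?_ (Real.exp_pos _).le
    have := mul_le_mul_of_nonneg_left (hH n hn hlo) ht
    linarith
  set c₂ : ℝ := c₁ * (Real.exp (-(t * L0)) * c) with hc₂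
  have hc₂0 : 0 < c₂ := by positivity
  have htl : ∀ n : ℕ, 2 ≤ n → c * (n : ℝ) ^ (-(1 / 2 : ℝ)) ≤ sv C n 1 →
      c₂ * (n : ℝ) ^ (-(1 / 2 : ℝ)) ≤ ∑' m : ℕ, Kv C v (n + m) 1 := by
    intro n hn hlo
    refine le_trans ?_ (htail n)
    rw [hc₂, mul_assoc, mul_assoc]
    refine mul_le_mul_of_nonneg_left ?_ hc₁.le
    exact (mul_le_mul_of_nonneg_left hlo (Real.exp_pos _).le).trans (hN n hn hlo)
  -- comparison with the unpenalised kernel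
  have hle : ∀ n, Kv C v n 1 ≤ K0 C n 1 := fun n => by
    rw [← HZ.Kv_K0]
    exact HZ.Kv_mono C hv0 n 1
  have hnn : ∀ n, 0 ≤ Kv C v n 1 := fun n => HZ.Kv_nonneg C v n 1
  have hK0 : ∀ n, 0 ≤ K0 C n 1 := fun n => MP_daa227_pr.K0_nonneg C n 1
  have hsplit : ∀ n M J : ℕ, 1 ≤ n + M → ∑ m ∈ range J, Kv C v (n + m) 1 ≤
      ∑ m ∈ range M, Kv C v (n + m) 1 + sv C (n + M - 1) 1 := by
    intro n M J hnM
    have e1 : ∑ m ∈ range J, Kv C v (n + m) 1 ≤ ∑ m ∈ range (M + J), Kv C v (n + m) 1 :=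
      Finset.sum_le_sum_of_subset_of_nonneg (Finset.range_mono (by omega)) fun _ _ _ => hnn _
    refine e1.trans ?_
    rw [Finset.sum_range_add]
    refine add_le_add le_rfl ?_
    have e2 : ∑ m ∈ range J, Kv C v (n + (M + m)) 1 ≤ ∑ m ∈ range J, K0 C (n + M + m) 1 :=
      Finset.sum_le_sum fun m _ => by rw [← add_assoc]; exact hle _
    refine e2.trans ?_
    have e3 := sv_eq C (n + M - 1) 1
    rw [show n + M - 1 + 1 = n + M by omega] at e3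
    have e4 := HZ.A24.sum_K0 C (n + M + J) 1
    rw [Finset.sum_range_add] at e4
    linarith
  obtain ⟨A, hA⟩ := exists_nat_ge ((2 * Bs / c₂) ^ 2 + 1)
  have hA1 : (1 : ℝ) ≤ A := by
    have : 0 ≤ (2 * Bs / c₂) ^ 2 := sq_nonneg _
    linarith
  have hA0 : (0 : ℝ) < A := by linarith
  have hAn : 1 ≤ A := by exact_mod_cast hA1
  have hAB : Bs * (A : ℝ) ^ (-(1 / 2 : ℝ)) ≤ c₂ / 2 := by
    have e1 : 2 * Bs / c₂ ≤ Real.sqrt A := Real.le_sqrt_of_sq_le (by linarith)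
    rw [Real.rpow_neg hA0.le, ← Real.sqrt_eq_rpow]
    have e2 : 0 < Real.sqrt A := Real.sqrt_pos.2 hA0
    rw [div_le_iff₀ hc₂0] at e1
    rw [← div_eq_mul_inv, div_le_iff₀ e2]
    linarith
  have hkey : ∀ k : ℕ, 1 ≤ k → c * ((k + 1 : ℕ) : ℝ) ^ (-(3 / 2 : ℝ)) ≤ HZ.A24.fp C (2 * (k + 1)) →
      c₂ / (2 * A) * ((2 * k + 1 : ℕ) : ℝ) ^ (-(3 / 2 : ℝ)) ≤ Kv C v (2 * k + 1) 1 := by
    intro k hk hfp
    set n : ℕ := 2 * k + 1 with hn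
    have hn2 : 2 ≤ n := by omega
    have hn0 : (0 : ℝ) < n := by
      have : 0 < n := by omega
      exact_mod_cast this
    have e1 : ∑' m : ℕ, Kv C v (n + m) 1 ≤
        ∑ m ∈ range (A * n), Kv C v (n + m) 1 + sv C (n + A * n - 1) 1 := by
      refine Real.tsum_le_of_sum_range_le (fun m => hnn _) fun J => hsplit n (A * n) J (by omega)
    have e2 : sv C (n + A * n - 1) 1 ≤ c₂ / 2 * (n : ℝ) ^ (-(1 / 2 : ℝ)) := by
      refine (hup _ (by omega)).trans ?_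
      have e3 : ((n + A * n - 1 : ℕ) : ℝ) ^ (-(1 / 2 : ℝ)) ≤ ((A : ℝ) * n) ^ (-(1 / 2 : ℝ)) := by
        refine Real.rpow_le_rpow_of_nonpos (by positivity) ?_ (by norm_num)
        have : A * n ≤ n + A * n - 1 := by omega
        exact_mod_cast this
      rw [Real.mul_rpow hA0.le hn0.le] at e3
      calc Bs * ((n + A * n - 1 : ℕ) : ℝ) ^ (-(1 / 2 : ℝ))
          ≤ Bs * ((A : ℝ) ^ (-(1 / 2 : ℝ)) * (n : ℝ) ^ (-(1 / 2 : ℝ))) :=
            mul_le_mul_of_nonneg_left e3 hBs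
        _ = Bs * (A : ℝ) ^ (-(1 / 2 : ℝ)) * (n : ℝ) ^ (-(1 / 2 : ℝ)) := by ring
        _ ≤ _ := by gcongr
    have e4 := htl n hn2 (sv_low_at C hfp hc)
    have e5 : ∀ i : ℕ, Kv C v (2 * (k + i) + 1) 1 ≤ Kv C v n 1 := by
      intro i
      induction i with
      | zero => exact le_rfl
      | succ i ih => exact (kv_anti C hv0 (k + i)).trans ih
    have e6 : ∀ m ∈ range (A * n), Kv C v (n + m) 1 ≤ Kv C v n 1 := by
      intro m _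
      rcases Nat.even_or_odd' m with ⟨i, rfl | rfl⟩
      · rw [show n + 2 * i = 2 * (k + i) + 1 by omega]
        exact e5 i
      · rw [show n + (2 * i + 1) = 2 * (k + i) + 2 by omega]
        exact (kv_even_le C hv0 (k + i)).trans (e5 i)
    have e8 := Finset.sum_le_sum e6
    rw [Finset.sum_const, Finset.card_range, nsmul_eq_mul] at e8
    push_cast at e8
    have e9 : c₂ / 2 * (n : ℝ) ^ (-(1 / 2 : ℝ)) ≤ A * n * Kv C v n 1 := by linarith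
    have e10 : (n : ℝ) ^ (-(1 / 2 : ℝ)) = n * (n : ℝ) ^ (-(3 / 2 : ℝ)) := by
      nth_rewrite 2 [← Real.rpow_one (n : ℝ)]
      rw [← Real.rpow_add hn0]
      norm_num
    rw [e10] at e9
    have e11 : c₂ / (2 * A) * (n : ℝ) ^ (-(3 / 2 : ℝ)) * (A * n) ≤ Kv C v n 1 * (A * n) := by
      calc c₂ / (2 * A) * (n : ℝ) ^ (-(3 / 2 : ℝ)) * (A * n)
          = c₂ / 2 * (n * (n : ℝ) ^ (-(3 / 2 : ℝ))) := by field_simp
        _ ≤ A * n * Kv C v n 1 := e9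
        _ = _ := by ring
    exact le_of_mul_le_mul_right e11 (by positivity)
  -- the excursions
  have hp01 : 0 < C.p 0 1 := HZ.A24.p01 C
  have hp10 : 0 < C.p 1 0 := by
    have := C.down 1
    rwa [sub_self] at this
  have hfirst : ∀ n : ℕ, C.p 0 1 * Real.exp (v 1) * Kv C v (n + 1) 1 ≤ Kv C v (n + 2) 0 := by
    intro n
    rw [HZ.Kv_succ C v (n + 1) 0]
    have e1 : (1 : ℤ) ∈ Finset.Icc ((0 : ℤ) - 1) (0 + 1) \ {0} := by
      rw [Finset.mem_sdiff, Finset.mem_Icc, Finset.mem_singleton]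
      omega
    have e2 := Finset.single_le_sum (f := fun z => C.p 0 z * Real.exp (v z) * Kv C v (n + 1) z)
      (fun z _ => mul_nonneg (mul_nonneg (C.nonneg _ _) (Real.exp_pos _).le)
        (HZ.Kv_nonneg C v _ _)) e1
    have e3 : 0 ≤ (if n + 1 = 0 then C.p 0 0 * Real.exp (v 0) else 0) := by
      rw [if_neg (by omega)]
    linarith
  have hKv1 : C.p 1 0 * Real.exp (v 0) ≤ Kv C v 1 1 := by
    rw [HZ.Kv_succ C v 0 1, if_pos rfl]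
    have e1 : 0 ≤ ∑ z ∈ Finset.Icc ((1 : ℤ) - 1) (1 + 1) \ {0},
        C.p 1 z * Real.exp (v z) * Kv C v 0 z :=
      Finset.sum_nonneg fun z _ => mul_nonneg (mul_nonneg (C.nonneg _ _) (Real.exp_pos _).le)
        (HZ.Kv_nonneg C v _ _)
    linarith
  set q : ℝ := C.p 0 1 * Real.exp (v 1) with hq
  have hq0 : 0 < q := by positivity
  refine ⟨min (q * (C.p 1 0 * Real.exp (v 0))) (q * (c₂ / (2 * A) * 2 ^ (-(3 / 2 : ℝ)))),
    lt_min (by positivity) (by positivity), fun n hn hfp => ?_⟩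
  rcases eq_or_lt_of_le hn with h | h
  · rw [← h, Nat.cast_one, Real.one_rpow, mul_one]
    refine (min_le_left _ _).trans ?_
    exact (mul_le_mul_of_nonneg_left hKv1 hq0.le).trans (hfirst 0)
  · obtain ⟨k, rfl⟩ : ∃ k, n = k + 1 := ⟨n - 1, by omega⟩
    have e1 := hkey k (by omega) hfp
    have e2 := hfirst (2 * k)
    rw [show 2 * (k + 1) = 2 * k + 2 by ring]
    refine le_trans ?_ e2
    refine le_trans ?_ (mul_le_mul_of_nonneg_left e1 hq0.le)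
    have e3 : ((2 : ℝ) * ((k + 1 : ℕ) : ℝ)) ^ (-(3 / 2 : ℝ)) ≤
        ((2 * k + 1 : ℕ) : ℝ) ^ (-(3 / 2 : ℝ)) := by
      refine Real.rpow_le_rpow_of_nonpos (by positivity) ?_ (by norm_num)
      push_cast
      linarith
    rw [Real.mul_rpow (by norm_num) (Nat.cast_nonneg _)] at e3
    calc min (q * (C.p 1 0 * Real.exp (v 0))) (q * (c₂ / (2 * A) * 2 ^ (-(3 / 2 : ℝ)))) *
          ((k + 1 : ℕ) : ℝ) ^ (-(3 / 2 : ℝ))
        ≤ q * (c₂ / (2 * A) * 2 ^ (-(3 / 2 : ℝ))) * ((k + 1 : ℕ) : ℝ) ^ (-(3 / 2 : ℝ)) :=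
          mul_le_mul_of_nonneg_right (min_le_right _ _) (by positivity)
      _ = q * (c₂ / (2 * A) * (2 ^ (-(3 / 2 : ℝ)) * ((k + 1 : ℕ) : ℝ) ^ (-(3 / 2 : ℝ)))) := by ring
      _ ≤ _ := by gcongr

/-- potentials light on both sides: the excursions penalised by `φ` keep the order `n^(-3/2)` -/
theorem pen_two (C : Chain)
    (hrec : HasSum (fun n : ℕ => K0 C (n + 1) 0) 1) {φ : ℤ → ℝ} (h0 : ∀ x, 0 ≤ φ x)
    (hR : VR C φ) (hL : VL C φ) {c B : ℝ} (hc : 0 < c) (hB : 0 ≤ B)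
    (h1 : ∀ n : ℕ, 1 ≤ n → c * (n : ℝ) ^ (-(3 / 2 : ℝ)) ≤ K0 C (2 * n) 0)
    (hf : ∀ n : ℕ, 1 ≤ n → HZ.A24.fp C n ≤ B * (n : ℝ) ^ (-(3 / 2 : ℝ)))
    (hf' : ∀ n : ℕ, 1 ≤ n → HZ.A24.fp (HZ.cneg C) n ≤ B * (n : ℝ) ^ (-(3 / 2 : ℝ))) {t : ℝ}
    (ht : 0 ≤ t) : ∃ c' : ℝ, 0 < c' ∧ ∀ n : ℕ, 1 ≤ n →
      c' * (n : ℝ) ^ (-(3 / 2 : ℝ)) ≤ Kv C (fun z => -t * φ z) (2 * n) 0 := by
  set c₀ : ℝ := c / 2 * 3 ^ (-(3 / 2 : ℝ)) with hc₀
  have hc₀0 : 0 < c₀ := by positivity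
  obtain ⟨c₁, hc₁, hr⟩ := pen_half_at C hrec h0 hR hc₀0 hB hf ht
  obtain ⟨c₂, hc₂, hl⟩ := pen_half_at (HZ.cneg C)
    (by simpa only [STail.cneg_K0] using hrec) (φ := fun x => φ (-x)) (fun x => h0 (-x)) hL hc₀0 hB
    hf' ht
  have hneg : ∀ n : ℕ, Kv (HZ.cneg C) (fun z => -t * φ (-z)) n 0 =
      Kv C (fun z => -t * φ z) n 0 := fun n => by
    have h := HZ.Kv_cneg C (fun z => -t * φ z) n 0
    rw [neg_zero] at h
    exact h
  refine ⟨min c₁ c₂, lt_min hc₁ hc₂, fun n hn => ?_⟩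
  have hn0 : (0 : ℝ) < n := by exact_mod_cast hn
  have hpw : 0 ≤ (n : ℝ) ^ (-(3 / 2 : ℝ)) := Real.rpow_nonneg hn0.le _
  -- one of the two sides is large
  have h2 := h1 (2 * n + 1) (by omega)
  have h3 : K0 C (2 * (2 * n + 1)) 0 ≤ HZ.A24.fp C (2 * n) + HZ.A24.fp (HZ.cneg C) (2 * n) := by
    have e1 : K0 C (2 * (2 * n + 1)) 0 = C.p 0 1 * K0 C (2 * (2 * n) + 1) 1 +
        C.p 0 (-1) * K0 C (2 * (2 * n) + 1) (-1) := by
      rw [show 2 * (2 * n + 1) = 2 * (2 * n) + 1 + 1 by ring, K0]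
      have e2 : Finset.Icc ((0 : ℤ) - 1) (0 + 1) \ {0} = {-1, 1} := by decide
      rw [e2, if_neg (by omega), zero_add, Finset.sum_pair (by decide)]
      ring
    have e3 : K0 C (2 * (2 * n) + 1) (-1) = HZ.A24.fp (HZ.cneg C) (2 * n) := by
      unfold HZ.A24.fp
      rw [← HZ.Kv_K0, ← HZ.Kv_K0]
      exact (HZ.Kv_cneg C (fun _ => 0) _ 1).symm
    rw [e1, e3]
    have e4 : C.p 0 1 ≤ 1 := HZ.A24.p01_le C
    have e5 : C.p 0 (-1) ≤ 1 := by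
      have := HZ.A24.p01_le (HZ.cneg C)
      simpa [HZ.cneg] using this
    exact add_le_add (mul_le_of_le_one_left (HZ.A24.fp_nonneg C _) e4)
      (mul_le_of_le_one_left (HZ.A24.fp_nonneg _ _) e5)
  have h4 : c * (3 ^ (-(3 / 2 : ℝ)) * (n : ℝ) ^ (-(3 / 2 : ℝ))) ≤
      c * ((2 * n + 1 : ℕ) : ℝ) ^ (-(3 / 2 : ℝ)) := by
    refine mul_le_mul_of_nonneg_left ?_ hc.le
    rw [← Real.mul_rpow (by norm_num) hn0.le]
    refine Real.rpow_le_rpow_of_nonpos (by positivity) ?_ (by norm_num)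
    have : (1 : ℝ) ≤ n := by exact_mod_cast hn
    push_cast
    linarith
  have h5 : c₀ * (n : ℝ) ^ (-(3 / 2 : ℝ)) + c₀ * (n : ℝ) ^ (-(3 / 2 : ℝ)) =
      c * (3 ^ (-(3 / 2 : ℝ)) * (n : ℝ) ^ (-(3 / 2 : ℝ))) := by rw [hc₀]; ring
  rcases le_or_gt (c₀ * (n : ℝ) ^ (-(3 / 2 : ℝ))) (HZ.A24.fp C (2 * n)) with h6 | h6
  · exact (mul_le_mul_of_nonneg_right (min_le_left _ _) hpw).trans (hr n hn h6)
  · have h7 := hl n hn (by linarith)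
    rw [hneg] at h7
    exact (mul_le_mul_of_nonneg_right (min_le_right _ _) hpw).trans h7

end

end Pool.Agent.HG
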