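import Pool.Agent.Lib.MP_daa227_pr_HG.KvD
import Pool.Agent.Lib.MP_daa227_pr_HG.SumLe

/-!
# MP_daa227_pr, order: no moment of order larger than one is bounded if the loop exponent is larger
than one half
-/

namespace Pool.Agent.HG

open MeasureTheory ProbabilityTheory Finset Filter Topology
open MP_daa227_pr (Chain Zk Zf Gk Gf KU K0 Ren shift seqLaw ExpMom DepOn Good GoodW mom)
open Pool.Agent.HZ (Mod Kv lmg)
open Pool.Agent.IOrd (Sys aS cv)

noncomputable section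

namespace RelH

/-- the inequality for one tilt -/
theorem one_tilt (M : Mod) {hc p K : ℝ} (hp : 1 < p)
    (hb : ∀ n : ℕ, mom M.μ p (fun ω => M.Z hc (2 * n) ω) ≤ ENNReal.ofReal K)
    {x₀ : ℤ} {c₁ c₂ : ℝ}
    (hc1 : ∀ lam : ℝ, 0 ≤ lam →
      lmg M.μ (M.β * M.φ x₀) + c₁ * lam ≤ lmg M.μ (M.β * M.φ x₀ + lam))
    (hc2 : ∀ lam : ℝ, 0 ≤ lam → lam ≤ 1 →
      lmg M.μ (p.conjExponent * lam) / p.conjExponent ≤ c₂ * lam ^ 2)
    {lam : ℝ} (h0 : 0 < lam) (h1 : lam ≤ 1) (N : ℕ) :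
    ∑ n ∈ range N, Real.exp (-(c₂ * lam ^ 2 * n)) *
      Kv M.C (fun z => M.v hc z + if z = x₀ then c₁ * lam else 0) n 0 ≤ 1 := by
  have hpq := Real.HolderConjugate.conjExponent hp
  have hb' : ∀ n : ℕ, mom M.μ p (fun ω => M.Z hc (2 * n) ω) ≤ ENNReal.ofReal (max K 0) :=
    fun n => (hb n).trans (ENNReal.ofReal_le_ofReal (le_max_left _ _))
  have h := zd_tilt M hpq (le_max_right K 0) hb' lam N
  refine le_trans (Finset.sum_le_sum fun n _ => ?_) h
  have e1 : Real.exp (-(c₂ * lam ^ 2 * n)) *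
      Kv M.C (fun z => M.v hc z + if z = x₀ then c₁ * lam else 0) n 0 =
      Kv M.C (fun z => (M.v hc z + if z = x₀ then c₁ * lam else 0) + (-(c₂ * lam ^ 2))) n 0 := by
    rw [HZ.A3.Kv_add_const]
    congr 2
    ring
  rw [e1]
  refine HZ.Kv_mono M.C (fun z => ?_) n 0
  have e2 := hc2 lam h0.le h1
  have e3 : lmg M.μ (M.β * M.φ z) + (if z = x₀ then c₁ * lam else 0) ≤
      lmg M.μ (M.β * M.φ z + lam) := by
    by_cases hz : z = x₀
    · rw [if_pos hz, hz]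
      exact hc1 lam h0.le
    · rw [if_neg hz, add_zero]
      exact lmg_mono M (mul_nonneg M.β_pos.le (M.φ_nonneg z)) h0.le
  have e4 : M.v hc z = lmg M.μ (M.β * M.φ z) - hc * M.φ z := rfl
  rw [e4]
  linarith

theorem key (M : Mod) {hc p K : ℝ} (hp : 1 < p)
    (hb : ∀ n : ℕ, mom M.μ p (fun ω => M.Z hc (2 * n) ω) ≤ ENNReal.ofReal K)
    (hg1 : ∀ η : ℝ, 0 < η → ∃ N : ℕ, 1 - η ≤ ∑ n ∈ range N, M.g hc n) {a A : ℝ}
    (hT : ∀ s : ℝ, 0 < s → s ≤ 1 → ∀ N : ℕ,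
      ∑ n ∈ range N, M.g hc n * (1 - Real.exp (-(s * n))) ≤ A * s ^ a) :
    ∃ B c : ℝ, 0 < B ∧ 0 < c ∧ ∀ lam : ℝ, 0 < lam → lam ≤ 1 → c * lam ^ 2 ≤ 1 →
      B * lam ≤ A * (c * lam ^ 2) ^ a := by
  obtain ⟨x₀, hx₀⟩ := M.φ_ne
  have ht : 0 < M.β * M.φ x₀ := mul_pos M.β_pos hx₀
  obtain ⟨c₁, hc1, hs⟩ := lmg_slope M ht
  have hpq := Real.HolderConjugate.conjExponent hp
  obtain ⟨c₂, hc2, hsm⟩ := lmg_small M (q := p.conjExponent) hpq.symm.lt
  obtain ⟨n₀, d, hd, hbump⟩ := kv_bump M.C (M.v hc) x₀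
  refine ⟨Real.exp (-n₀) * (c₁ * d), c₂, by positivity, hc2, ?_⟩
  intro lam h0 h1 h2
  have hs0 : 0 < c₂ * lam ^ 2 := by positivity
  have hle : ∀ η : ℝ, 0 < η → Real.exp (-n₀) * (c₁ * d) * lam ≤ A * (c₂ * lam ^ 2) ^ a + η := by
    intro η hη
    obtain ⟨N₁, hN₁⟩ := hg1 η hη
    have hg0 : ∀ n, 0 ≤ M.g hc n := fun n => HZ.Kv_nonneg _ _ n 0
    have hN : 1 - η ≤ ∑ n ∈ range (max N₁ (n₀ + 1)), M.g hc n :=
      hN₁.trans (Finset.sum_le_sum_of_subset_of_nonneg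
        (Finset.range_subset_range.mpr (le_max_left _ _)) fun n _ _ => hg0 n)
    have hm : n₀ ∈ range (max N₁ (n₀ + 1)) :=
      Finset.mem_range.mpr (lt_of_lt_of_le (Nat.lt_succ_self _) (le_max_right _ _))
    have ho := one_tilt M hp hb hs hsm h0 h1 (max N₁ (n₀ + 1))
    have hTT := hT (c₂ * lam ^ 2) hs0 h2 (max N₁ (n₀ + 1))
    have hE : ∑ n ∈ range (max N₁ (n₀ + 1)), (M.g hc n -
        M.g hc n * (1 - Real.exp (-(c₂ * lam ^ 2 * n))) +
        if n = n₀ then Real.exp (-n₀) * (c₁ * d) * lam else 0) ≤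
        ∑ n ∈ range (max N₁ (n₀ + 1)), Real.exp (-(c₂ * lam ^ 2 * n)) *
          Kv M.C (fun z => M.v hc z + if z = x₀ then c₁ * lam else 0) n 0 := by
      refine Finset.sum_le_sum fun n _ => ?_
      have hmono : M.g hc n ≤
          Kv M.C (fun z => M.v hc z + if z = x₀ then c₁ * lam else 0) n 0 := by
        refine HZ.Kv_mono M.C (fun z => ?_) n 0
        have : 0 ≤ if z = x₀ then c₁ * lam else 0 := by
          split_ifs
          · positivity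
          · exact le_rfl
        linarith
      have hex := Real.exp_pos (-(c₂ * lam ^ 2 * n))
      by_cases hn : n = n₀
      · subst hn
        rw [if_pos rfl]
        have hb2 := hbump (c₁ * lam) (by positivity)
        have hb3 : M.g hc n + c₁ * lam * d ≤
          Kv M.C (fun z => M.v hc z + if z = x₀ then c₁ * lam else 0) n 0 := hb2
        have hb4 := mul_le_mul_of_nonneg_left hb3 hex.le
        have hb5 : Real.exp (-(n : ℝ)) ≤ Real.exp (-(c₂ * lam ^ 2 * n)) := by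
          apply Real.exp_le_exp.mpr
          have : c₂ * lam ^ 2 * n ≤ 1 * n := mul_le_mul_of_nonneg_right h2 (Nat.cast_nonneg _)
          linarith
        have hb6 := mul_le_mul_of_nonneg_right hb5 (show 0 ≤ c₁ * lam * d by positivity)
        nlinarith
      · rw [if_neg hn, add_zero]
        have := mul_le_mul_of_nonneg_left hmono hex.le
        linarith
    rw [Finset.sum_add_distrib, Finset.sum_sub_distrib, Finset.sum_ite_eq' _ n₀,
      if_pos hm] at hE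
    linarith
  exact le_of_forall_pos_le_add hle

end RelH

/-- `zd_tilt` with `q = p / (p - 1)` (`Real.HolderConjugate.conjExponent`), `lam ∈ (0, 1]`; replace
`K` by `max K 0`. Let `φ x₀ > 0` (`M.φ_ne`), `c₁` from `lmg_slope` at `β φ x₀`, `c₂` from `lmg_small`,
`s = c₂ lam ^ 2` (take `lam` so small that `s ≤ 1`). With `lmg_mono` the exponents of `zd_tilt` are at
least `v hc z + c₁ lam 1_{z = x₀} - s`, so (`HZ.Kv_mono`, `Kv_add_const`) for all `N`
`∑_{n < N} exp (-s n) Kv (v hc + c₁ lam 1_{x₀}) n 0 ≤ 1`. With `kv_bump` (`n₀, d`), `N > n₀`: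
`∑_{n<N} g n - ∑_{n<N} g n (1 - exp (-s n)) + c₁ lam d exp (-s n₀) ≤ 1`. With `hg1` (`η → 0`) and
`hT`: `c₁ lam d exp (-s n₀) ≤ A s ^ a = A c₂ ^ a lam ^ (2 a)` for all small `lam > 0`; `2 a > 1`. -/
theorem no_bdd (M : Mod) {hc p K : ℝ} (hp : 1 < p)
    (hb : ∀ n : ℕ, mom M.μ p (fun ω => M.Z hc (2 * n) ω) ≤ ENNReal.ofReal K)
    (hg1 : ∀ η : ℝ, 0 < η → ∃ N : ℕ, 1 - η ≤ ∑ n ∈ range N, M.g hc n) {a A : ℝ} (ha : 1 / 2 < a)
    (hT : ∀ s : ℝ, 0 < s → s ≤ 1 → ∀ N : ℕ,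
      ∑ n ∈ range N, M.g hc n * (1 - Real.exp (-(s * n))) ≤ A * s ^ a) : False := by
  obtain ⟨B, c, hB, hcp, hkey⟩ := RelH.key M hp hb hg1 hT
  have h1 : Tendsto (fun lam : ℝ => A * c ^ a * lam ^ (2 * a - 1)) (𝓝 0) (𝓝 0) := by
    have h2 : 0 < 2 * a - 1 := by linarith
    have h3 := (Real.continuousAt_rpow_const 0 (2 * a - 1) (Or.inr h2.le)).tendsto
    rw [Real.zero_rpow h2.ne'] at h3
    have h4 := h3.const_mul (A * c ^ a)
    rwa [mul_zero] at h4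
  have h2 : Tendsto (fun lam : ℝ => c * lam ^ 2) (𝓝 0) (𝓝 0) := by
    have h3 : Continuous (fun lam : ℝ => c * lam ^ 2) := by fun_prop
    have h4 := h3.tendsto 0
    simpa using h4
  have e1 := h1.eventually (gt_mem_nhds hB)
  have e2 := h2.eventually (gt_mem_nhds one_pos)
  have e3 : ∀ᶠ lam : ℝ in 𝓝 0, lam < 1 := gt_mem_nhds one_pos
  have e4 := (e1.and (e2.and e3)).filter_mono (nhdsWithin_le_nhds (s := Set.Ioi (0 : ℝ)))
  obtain ⟨lam, ⟨f1, f2, f3⟩, f4⟩ := (e4.and self_mem_nhdsWithin).exists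
  have f4' : 0 < lam := f4
  have h5 := hkey lam f4' f3.le f2.le
  rw [Real.mul_rpow hcp.le (by positivity), ← Real.rpow_natCast lam 2, ← Real.rpow_mul f4'.le] at h5
  have h6 : lam ^ (((2 : ℕ) : ℝ) * a) = lam ^ (2 * a - 1) * lam := by
    rw [← Real.rpow_add_one f4'.ne']
    congr 1
    push_cast
    ring
  rw [h6] at h5
  have h7 : B * lam ≤ (A * c ^ a * lam ^ (2 * a - 1)) * lam := by
    calc B * lam ≤ _ := h5
      _ = _ := by ring
  have h8 := le_of_mul_le_mul_right h7 f4'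
  linarith

end

end Pool.Agent.HG
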