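import Pool.Agent.Lib.MP_daa227_pr_HG.Defs
import Pool.Agent.Lib.MP_daa227_pr.Mark

/-!
# MP_daa227_pr, general potentials: the pinned partition function is an expectation
-/

namespace Pool.Agent.HG

open MeasureTheory ProbabilityTheory Finset Filter Topology
open MP_daa227_pr (Chain Zk Zf Gk Gf KU K0 Ren shift seqLaw ExpMom DepOn Good GoodW mom)

noncomputable section

namespace PinI

open scoped ENNReal
open MP_daa227_pr.Mark (Tw lintegral_prod_eq)

/-- The weights, with the indicator of `z = 0` in the last step. -/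
def pw (W : ℝ → ℤ → ℝ) (N : ℕ) (ω : ℕ → ℝ) : ℕ → ℤ → ℝ≥0∞ := fun i z =>
  ENNReal.ofReal (W (ω i) z) * (if i + 1 = N then (if z = 0 then 1 else 0) else 1)

theorem pw_succ (W : ℝ → ℤ → ℝ) (N : ℕ) (ω : ℕ → ℝ) :
    (fun i => pw W (N + 1) ω (i + 1)) = pw W N (shift 1 ω) := by
  funext i z
  simp only [pw]
  have h1 : i + 1 + 1 = N + 1 ↔ i + 1 = N := by omega
  simp only [h1]
  rfl

theorem Zk_nn {C : Chain} {W : ℝ → ℤ → ℝ} (hW : ∀ a z, 0 ≤ W a z) : ∀ (N : ℕ) (ω : ℕ → ℝ)
    (x y : ℤ), 0 ≤ Zk C W N ω x y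
  | 0, _, x, y => by
      rw [Zk]
      split_ifs
      · exact zero_le_one
      · exact le_rfl
  | N + 1, ω, x, y => by
      rw [Zk]
      exact Finset.sum_nonneg fun z _ =>
        mul_nonneg (mul_nonneg (C.nonneg _ _) (hW _ _)) (Zk_nn hW N _ _ _)

theorem Tw_pw {C : Chain} {W : ℝ → ℤ → ℝ} (hW : ∀ a z, 0 ≤ W a z) : ∀ (N : ℕ), 1 ≤ N →
    ∀ (ω : ℕ → ℝ) (x : ℤ), Tw C N (pw W N ω) x = ENNReal.ofReal (Zk C W N ω x 0)
  | 0, h, _, _ => absurd h (by norm_num)
  | 1, _, ω, x => by
      rw [Tw, Zk, ENNReal.ofReal_sum_of_nonneg]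
      · refine Finset.sum_congr rfl fun z _ => ?_
        rw [ENNReal.ofReal_mul (mul_nonneg (C.nonneg _ _) (hW _ _)),
          ENNReal.ofReal_mul (C.nonneg _ _), Zk]
        by_cases hz : z = 0
        · simp [pw, Tw, hz]
        · simp [pw, Tw, hz]
      · intro z _
        exact mul_nonneg (mul_nonneg (C.nonneg _ _) (hW _ _)) (Zk_nn hW _ _ _ _)
  | N + 2, _, ω, x => by
      rw [Tw, Zk, ENNReal.ofReal_sum_of_nonneg]
      · refine Finset.sum_congr rfl fun z _ => ?_
        rw [ENNReal.ofReal_mul (mul_nonneg (C.nonneg _ _) (hW _ _)),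
          ENNReal.ofReal_mul (C.nonneg _ _), pw_succ,
          Tw_pw hW (N + 1) (by omega) (shift 1 ω) z]
        have h1 : pw W (N + 2) ω 0 z = ENNReal.ofReal (W (ω 0) z) := by
          simp only [pw]
          rw [if_neg (by omega), mul_one]
        rw [h1]
      · intro z _
        exact mul_nonneg (mul_nonneg (C.nonneg _ _) (hW _ _)) (Zk_nn hW _ _ _ _)

theorem prod_pw {Ω : Type*} (S : ℕ → Ω → ℤ) (W : ℝ → ℤ → ℝ) {N : ℕ} (hN : 1 ≤ N) (ω : ℕ → ℝ)
    (w : Ω) : ∏ i ∈ Finset.range N, pw W N ω i (S (i + 1) w) =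
      ({w | S N w = 0} : Set Ω).indicator
        (fun w => ∏ i ∈ Finset.range N, ENNReal.ofReal (W (ω i) (S (i + 1) w))) w := by
  simp only [pw]
  rw [Finset.prod_mul_distrib]
  by_cases hw : S N w = 0
  · rw [Set.indicator_of_mem (show w ∈ {w | S N w = 0} from hw)]
    have h1 : ∏ i ∈ Finset.range N, (if i + 1 = N then (if S (i + 1) w = 0 then (1 : ℝ≥0∞) else 0)
        else 1) = 1 := by
      refine Finset.prod_eq_one fun i _ => ?_
      by_cases hi : i + 1 = N
      · rw [if_pos hi, hi, if_pos hw]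
      · rw [if_neg hi]
    rw [h1, mul_one]
  · rw [Set.indicator_of_notMem (show w ∉ {w | S N w = 0} from hw)]
    have h1 : ∏ i ∈ Finset.range N, (if i + 1 = N then (if S (i + 1) w = 0 then (1 : ℝ≥0∞) else 0)
        else 1) = 0 := by
      refine Finset.prod_eq_zero (i := N - 1) (Finset.mem_range.2 (by omega)) ?_
      have h2 : N - 1 + 1 = N := by omega
      rw [if_pos h2, h2, if_neg hw]
    rw [h1, mul_zero]

end PinI

open PinI in
/-- The weights `w i z = ofReal (exp ((β ω i - h) φ z))`, times the indicator of `z = 0` for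
`i + 1 = N`; `Mark.Tw C N w x = ofReal (Zk C W N ω x 0)` by induction on `N` (the weights are shifted
together with the charges, see `Zf_eq_integral` in Mark.lean and `MarkQ_Tw` in AZ/MarkQ.lean), then
`Mark.lintegral_prod_eq`. For `N = 0` both sides are `1` (`S 0 = 0` almost surely: `hS.2 0`). -/
theorem pin_eq_integral {Ω : Type*} [MeasurableSpace Ω] (P : Measure Ω) [IsProbabilityMeasure P]
    (C : Chain) (S : ℕ → Ω → ℤ) (hS : MP_daa227_pr.IsChain P C.p S) (φ : ℤ → ℝ) (β h : ℝ) (N : ℕ)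
    (ω : ℕ → ℝ) :
    ∫ w in {w | S N w = 0},
      Real.exp (∑ i ∈ Finset.range N, (β * ω i - h) * φ (S (i + 1) w)) ∂P =
      Zk C (fun a z => Real.exp ((β * a - h) * φ z)) N ω 0 0 := by
  have hmA : MeasurableSet {w | S N w = 0} := hS.1 N (measurableSet_singleton 0)
  rcases Nat.eq_zero_or_pos N with hN | hN
  · subst hN
    have h0 : P {w | S 0 w = 0} = 1 := by
      have h1 := hS.2 0 (fun _ => 0) rfl
      simpa using h1
    simp only [Finset.range_zero, Finset.sum_empty, Real.exp_zero]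
    rw [setIntegral_const, Zk, if_pos rfl, measureReal_def, h0]
    simp
  · set W : ℝ → ℤ → ℝ := fun a z => Real.exp ((β * a - h) * φ z) with hWdef
    have hW : ∀ (a : ℝ) (z : ℤ), 0 ≤ W a z := fun a z => (Real.exp_pos _).le
    rw [integral_eq_lintegral_of_nonneg_ae (ae_of_all _ fun w => (Real.exp_pos _).le)]
    · have h1 : ∀ w, ENNReal.ofReal
          (Real.exp (∑ i ∈ Finset.range N, (β * ω i - h) * φ (S (i + 1) w))) =
          ∏ i ∈ Finset.range N, ENNReal.ofReal (W (ω i) (S (i + 1) w)) := by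
        intro w
        rw [Real.exp_sum, ENNReal.ofReal_prod_of_nonneg fun i _ => (Real.exp_pos _).le]
      rw [lintegral_congr h1, ← lintegral_indicator hmA]
      rw [lintegral_congr fun w => (prod_pw S W hN ω w).symm,
        MP_daa227_pr.Mark.lintegral_prod_eq hS N (pw W N ω), Tw_pw hW N hN,
        ENNReal.toReal_ofReal (Zk_nn hW N ω 0 0)]
    · apply Measurable.aestronglyMeasurable
      apply Real.measurable_exp.comp
      apply Finset.measurable_sum
      intro i _
      exact ((measurable_of_countable φ).comp (hS.1 (i + 1))).const_mul _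

end

end Pool.Agent.HG
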