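import Pool.Agent.Lib.MP_daa227_pr_HG.StI
import Pool.Agent.Lib.MP_daa227_pr_HG.InvSq
import Pool.Agent.Lib.MP_daa227_pr_HG.HCvx
import Pool.Agent.Lib.MP_daa227_pr_HG.PinI
import Pool.Agent.Lib.MP_daa227_pr_HG.Ord
import Pool.Agent.Lib.MP_daa227_pr_HZ.Fin
import Pool.Agent.Lib.MP_daa227_pr_HZ.MarkQ
import Pool.Agent.Lib.MP_daa227_pr_HZ.JenQ
import Pool.Agent.Lib.MP_daa227_pr_HZ.MeanLim
import Pool.Agent.Lib.MP_daa227_pr_HZ.AnnFree
import Pool.Agent.Lib.MP_daa227_pr_OT.KProb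
import Pool.Agent.Lib.MP_daa227_pr.Mark
import Pool.Agent.Lib.MP_daa227_pr.Occ
import Pool.Agent.Lib.MP_daa227_pr.HcPos
import Pool.Agent.Lib.MP_daa227_pr.ConcLim

/-!
# MP_daa227_pr: potentials of order `x⁻²` on Bessel-like chains: the order varies with the critical
point: proof
-/

universe u

open MeasureTheory ProbabilityTheory Set Filter
open scoped ENNReal Topology

namespace Pool.Agent.HGI

open _root_.MP_daa227_pr
open Pool.Agent.HZ

noncomputable section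

lemma cross_up {p : ℤ → ℤ → ℝ} (hp : IsKernel p) {x y a : ℤ}
    (h : Relation.ReflTransGen (fun a b => 0 < p a b) x y) (hx : x ≤ a) : a < y → 0 < p a (a + 1) := by
  induction h with
  | refl => intro hy; omega
  | @tail b c _ hbc ih =>
    intro hc
    by_cases hb : a < b
    · exact ih hb
    · push Not at hb
      have h1 : ¬ 1 < |c - b| := fun h1 => by rw [hp.nearest b c h1] at hbc; exact lt_irrefl _ hbc
      push Not at h1
      rw [abs_le] at h1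
      have h2 : b = a := by omega
      have h3 : c = a + 1 := by omega
      rw [h2, h3] at hbc
      exact hbc

lemma cross_down {p : ℤ → ℤ → ℝ} (hp : IsKernel p) {x y a : ℤ}
    (h : Relation.ReflTransGen (fun a b => 0 < p a b) x y) (hx : a ≤ x) : y < a → 0 < p a (a - 1) := by
  induction h with
  | refl => intro hy; omega
  | @tail b c _ hbc ih =>
    intro hc
    by_cases hb : b < a
    · exact ih hb
    · push Not at hb
      have h1 : ¬ 1 < |c - b| := fun h1 => by rw [hp.nearest b c h1] at hbc; exact lt_irrefl _ hbc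
      push Not at h1
      rw [abs_le] at h1
      have h2 : b = a := by omega
      have h3 : c = a - 1 := by omega
      rw [h2, h3] at hbc
      exact hbc

/-- The bundled chain. -/
def IsKernel.chain {p : ℤ → ℤ → ℝ} (hp : IsKernel p) : Chain where
  p := p
  nonneg := hp.nonneg
  near := by
    intro x y hy
    apply hp.nearest
    rw [Finset.mem_Icc] at hy
    rw [lt_abs]
    omega
  sum_one := by
    intro x
    rw [Occ.sum_Icc]
    exact hp.total x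
  up := fun x => cross_up hp (hp.irreducible x (x + 1)) le_rfl (by omega)
  down := fun x => cross_down hp (hp.irreducible x (x - 1)) le_rfl (by omega)

/-- a potential with limits is bounded -/
lemma bounded_of_lims {φ : ℤ → ℝ} {ℓ : ℝ} (h1 : Tendsto φ atTop (𝓝 0)) (h2 : Tendsto φ atBot (𝓝 ℓ)) :
    ∃ Φ : ℝ, 0 < Φ ∧ ∀ x, φ x ≤ Φ := by
  have h1' : ∀ᶠ x in atTop, φ x < 1 := h1.eventually (gt_mem_nhds one_pos)
  have h2' : ∀ᶠ x in atBot, φ x < ℓ + 1 := h2.eventually (gt_mem_nhds (by linarith))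
  obtain ⟨A, hA⟩ := eventually_atTop.1 h1'
  obtain ⟨B, hB⟩ := eventually_atBot.1 h2'
  obtain ⟨Φ, hΦ⟩ := ((Finset.Icc B A).image φ).exists_le
  refine ⟨max 1 (max Φ (ℓ + 1)), lt_max_of_lt_left one_pos, fun x => ?_⟩
  by_cases hx : A ≤ x
  · exact (hA x hx).le.trans (le_max_left _ _)
  · by_cases hx' : x ≤ B
    · exact (hB x hx').le.trans ((le_max_right _ _).trans (le_max_right _ _))
    · push Not at hx hx'
      exact (hΦ _ (Finset.mem_image_of_mem _ (Finset.mem_Icc.2 ⟨hx'.le, hx.le⟩))).trans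
        ((le_max_left _ _).trans (le_max_right _ _))

lemma negReturn_eq {Ω : Type u} [MeasurableSpace Ω] (P : Measure Ω) [IsProbabilityMeasure P]
    (C : Chain) (S : ℕ → Ω → ℤ) (hS : IsMarkovChain P C.p S) {n : ℕ} (hn : 1 ≤ n) :
    negReturn P S (n + 1) = C.p 0 (-1) * K0 C n (-1) := by
  have h1 := OT.K3.prob_eq P C S hS (s := -1) (Or.inr rfl) n hn
  simp only [neg_mul, one_mul, Left.neg_pos_iff] at h1
  exact h1

/-- the two bounds give the exponent -/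
lemma exponent_of_bounds {G : ℝ → ℝ} {κ : ℝ}
    (h1 : ∀ ε : ℝ, 0 < ε → ∀ᶠ δ in 𝓝[>] (0 : ℝ), δ ^ (κ + ε) ≤ G δ)
    (h2 : ∀ ε : ℝ, 0 < ε → ∀ᶠ δ in 𝓝[>] (0 : ℝ), G δ ≤ δ ^ (κ - ε)) :
    Tendsto (fun δ : ℝ => Real.log (G δ) / Real.log δ) (𝓝[>] 0) (𝓝 κ) := by
  have hlt : ∀ᶠ δ in 𝓝[>] (0 : ℝ), 0 < δ ∧ δ < 1 := by
    filter_upwards [Ioo_mem_nhdsGT (show (0 : ℝ) < 1 by norm_num)] with δ hδ
    exact hδ
  have key : ∀ ε : ℝ, 0 < ε → ∀ᶠ δ in 𝓝[>] (0 : ℝ),
      κ - ε ≤ Real.log (G δ) / Real.log δ ∧ Real.log (G δ) / Real.log δ ≤ κ + ε := by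
    intro ε hε
    filter_upwards [h1 ε hε, h2 ε hε, hlt] with δ ha hb h01
    have hlog : Real.log δ < 0 := Real.log_neg h01.1 h01.2
    have hG : 0 < G δ := (Real.rpow_pos_of_pos h01.1 _).trans_le ha
    have ha' : (κ + ε) * Real.log δ ≤ Real.log (G δ) := by
      have := Real.log_le_log (Real.rpow_pos_of_pos h01.1 _) ha
      rwa [Real.log_rpow h01.1] at this
    have hb' : Real.log (G δ) ≤ (κ - ε) * Real.log δ := by
      have := Real.log_le_log hG hb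
      rwa [Real.log_rpow h01.1] at this
    exact ⟨(le_div_iff_of_neg hlog).2 hb', (div_le_iff_of_neg hlog).2 ha'⟩
  refine tendsto_order.2 ⟨fun a ha => ?_, fun a ha => ?_⟩
  · filter_upwards [key ((κ - a) / 2) (by linarith)] with δ hδ
    linarith [hδ.1]
  · filter_upwards [key ((a - κ) / 2) (by linarith)] with δ hδ
    linarith [hδ.2]

/-- the free energy of a model -/
lemma free_energy {Ω : Type u} [MeasurableSpace Ω] (P : Measure Ω) [IsProbabilityMeasure P]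
    (S : ℕ → Ω → ℤ) (M : Mod) (hS : IsMarkovChain P M.C.p S) (hlo : HG.PolyCost M) {hc : ℝ}
    (hc0 : 0 < hc) (hcrit : ∀ h, 0 < M.Fr h ↔ h < hc) :
    IsFreeEnergy P S M.μ M.φ M.β M.Fr hc := by
  have hZ : ∀ h N ω, Zpin P S M.φ M.β h N ω = M.Zl h N ω := fun h N ω =>
    Zf_eq_integral P M.C S hS M.φ M.β h N ω
  have hZpos : ∀ h N ω, 0 < M.Zl h N ω := fun h N ω => Zf_pos M.C (M.W_pos h) N ω 0
  have hFr0 : ∀ h, 0 ≤ M.Fr h := HG.fr_nonneg M hlo
  -- law of large numbers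
  have hmeas : ∀ h N, Measurable (fun ω => Real.log (M.Zl h N ω)) := fun h N =>
    (M.good_Zl h N).meas.log
  have hlip : ∀ h N, LipOn N M.κ (fun ω => Real.log (M.Zl h N ω)) := fun h N =>
    (M.good_Zl h N).log_lip (hZpos h N)
  have hintl : ∀ h N, Integrable (fun ω => Real.log (M.Zl h N ω)) (seqLaw M.μ) := fun h N =>
    (hlip h N).integrable (hmeas h N) M.exp_mom
  have hmeanlim : ∀ h, Tendsto (fun N : ℕ => M.ΨF h N / N) atTop (𝓝 (M.Fr h)) := fun h =>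
    M.mean_limit h
  refine ⟨fun h => ?_, fun h => ?_, hFr0, hc0, hcrit⟩
  · have h1 := conc_ae (μ := M.μ) M.exp_mom (κ := M.κ) (fun N ω => Real.log (M.Zl h N ω)) (hmeas h) (hlip h)
    have h1' : ∀ᵐ ω ∂(Measure.infinitePi (fun _ : ℕ => M.μ)), Tendsto (fun N : ℕ =>
      (Real.log (M.Zl h N ω) - ∫ ω', Real.log (M.Zl h N ω') ∂seqLaw M.μ) / N) atTop (𝓝 0) := h1
    filter_upwards [h1'] with ω hω
    have h2 := hω.add (hmeanlim h)
    rw [zero_add] at h2
    refine h2.congr (fun N => ?_)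
    rw [hZ, ← add_div]
    congr 1
    unfold Mod.ΨF
    ring
  · have h1 := conc_L1 (μ := M.μ) M.exp_mom (κ := M.κ) (fun N ω => Real.log (M.Zl h N ω)) (hmeas h) (hlip h)
    have h2 : Tendsto (fun N : ℕ => |M.ΨF h N / N - M.Fr h|) atTop (𝓝 0) := by
      have := ((hmeanlim h).sub_const (M.Fr h)).abs
      simpa using this
    have h3 := h1.add h2
    rw [add_zero] at h3
    refine squeeze_zero (fun N => integral_nonneg fun _ => abs_nonneg _) (fun N => ?_) h3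
    have hint : Integrable (fun ω => |Real.log (M.Zl h N ω) - M.ΨF h N|) (seqLaw M.μ) :=
      ((hintl h N).sub (integrable_const _)).abs
    have h4 : ∫ ω, |Real.log (Zpin P S M.φ M.β h N ω) / N - M.Fr h| ∂(Measure.infinitePi (fun _ : ℕ => M.μ)) ≤
        ∫ ω, (|Real.log (M.Zl h N ω) - M.ΨF h N| / N + |M.ΨF h N / N - M.Fr h|) ∂seqLaw M.μ := by
      have hi1 : Integrable (fun ω => |Real.log (M.Zl h N ω) / N - M.Fr h|) (seqLaw M.μ) :=
        (((hintl h N).div_const _).sub (integrable_const _)).abs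
      have e : (fun ω => |Real.log (Zpin P S M.φ M.β h N ω) / N - M.Fr h|) =
          fun ω => |Real.log (M.Zl h N ω) / N - M.Fr h| := by
        funext ω; rw [hZ]
      rw [e]
      refine integral_mono hi1 ((hint.div_const _).add (integrable_const _)) (fun ω => ?_)
      have h5 : Real.log (M.Zl h N ω) / N - M.Fr h =
          (Real.log (M.Zl h N ω) - M.ΨF h N) / N + (M.ΨF h N / N - M.Fr h) := by ring
      dsimp only
      rw [h5]
      refine (abs_add_le _ _).trans ?_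
      rw [abs_div, Nat.abs_cast]
    refine h4.trans (le_of_eq ?_)
    rw [integral_add (hint.div_const _) (integrable_const _), integral_div]
    simp only [integral_const, probReal_univ, smul_eq_mul, one_mul]
    rfl

/-- the annealed free energy at the critical point -/
lemma annealed_zero {Ω : Type u} [MeasurableSpace Ω] (P : Measure Ω) [IsProbabilityMeasure P]
    (S : ℕ → Ω → ℤ) (M : Mod) (hS : IsMarkovChain P M.C.p S) (hlo : HG.PolyCost M) {hc : ℝ}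
    (hcrit : ∀ h, 0 < M.Fr h ↔ h < hc)
    (hmm : ∀ a : ℝ, 0 < a → ∀ᶠ N : ℕ in atTop, mom M.μ 1 (fun ω => M.Zl hc N ω) ≤
      ENNReal.ofReal (Real.exp (a * N))) : AnnealedZero P S M.μ M.φ M.β hc := by
  have hZ : ∀ h N ω, Zpin P S M.φ M.β h N ω = M.Zl h N ω := fun h N ω =>
    Zf_eq_integral P M.C S hS M.φ M.β h N ω
  have hZpos : ∀ h N ω, 0 < M.Zl h N ω := fun h N ω => Zf_pos M.C (M.W_pos h) N ω 0
  have hFr0 : ∀ h, 0 ≤ M.Fr h := HG.fr_nonneg M hlo
  have hmeanlim : ∀ h, Tendsto (fun N : ℕ => M.ΨF h N / N) atTop (𝓝 (M.Fr h)) := fun h =>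
    M.mean_limit h
  -- the annealed partition function
  set I : ℝ → ℕ → ℝ := fun h N => ∫ ω, Zpin P S M.φ M.β h N ω ∂(Measure.infinitePi (fun _ : ℕ => M.μ))
    with hI
  have hImom : ∀ h N, I h N = (mom M.μ 1 (fun ω => M.Zl h N ω)).toReal := fun h N => by
    have h1 : I h N = ∫ ω, M.Zl h N ω ∂seqLaw M.μ := by
      change ∫ ω, Zpin P S M.φ M.β h N ω ∂seqLaw M.μ = _
      exact integral_congr_ae (ae_of_all _ fun ω => hZ h N ω)
    rw [h1, mom_one, integral_eq_lintegral_of_nonneg_ae (ae_of_all _ fun ω => (hZpos h N ω).le)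
      (M.good_Zl h N).meas.aestronglyMeasurable]
  have hIlow : ∀ h N, Real.exp (M.ΨF h N) ≤ I h N := fun h N => by
    have h1 := exp_le_mom' (μ := M.μ) M.exp_mom (zero_le_one) (M.good_Zl h N) (hZpos h N)
    rw [one_mul] at h1
    have h2 := mom_le_exp (μ := M.μ) M.exp_mom zero_le_one le_rfl (M.good_Zl h N) (hZpos h N)
    have h3 : mom M.μ 1 (fun ω => M.Zl h N ω) ≠ ⊤ := ne_top_of_le_ne_top ENNReal.ofReal_ne_top h2
    rw [hImom]
    exact (ENNReal.ofReal_le_iff_le_toReal h3).1 h1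
  have hIpos : ∀ h N, 0 < I h N := fun h N => (Real.exp_pos _).trans_le (hIlow h N)
  have hIlow' : ∀ h N, M.ΨF h N / N ≤ Real.log (I h N) / N := fun h N =>
    div_le_div_of_nonneg_right ((Real.le_log_iff_exp_le (hIpos h N)).2 (hIlow h N)) (Nat.cast_nonneg N)
  have hFz : M.Fr hc = 0 :=
    le_antisymm (not_lt.1 fun h1 => lt_irrefl _ ((hcrit hc).1 h1)) (hFr0 hc)
  refine tendsto_order.2 ⟨fun a ha => ?_, fun a ha => ?_⟩
  · have h1 := hmeanlim hc
    rw [hFz] at h1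
    filter_upwards [h1.eventually (lt_mem_nhds ha)] with N hN
    exact hN.trans_le (hIlow' hc N)
  · filter_upwards [hmm (a / 2) (half_pos ha), eventually_ge_atTop 1] with N hN hN1
    have hN0 : (0 : ℝ) < N := by exact_mod_cast hN1
    have h1 : I hc N ≤ Real.exp (a / 2 * N) := by
      rw [hImom]
      exact ENNReal.toReal_le_of_le_ofReal (Real.exp_pos _).le hN
    have h2 : Real.log (I hc N) ≤ a / 2 * N := (Real.log_le_iff_le_exp (hIpos hc N)).2 h1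
    change Real.log (I hc N) / N < a
    rw [div_lt_iff₀ hN0]
    nlinarith

/-- the moments of the pinned partition function -/
lemma mom_pin {Ω : Type u} [MeasurableSpace Ω] (P : Measure Ω) [IsProbabilityMeasure P]
    (S : ℕ → Ω → ℤ) (M : Mod) (hS : IsMarkovChain P M.C.p S) (h r : ℝ) (n : ℕ) :
    ∫⁻ ω, ENNReal.ofReal (Zc P S M.φ M.β h n ω) ^ r
      ∂(Measure.infinitePi (fun _ : ℕ => M.μ)) = mom M.μ r (fun ω => M.Z h n ω) := by
  refine lintegral_congr fun ω => ?_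
  unfold Zc
  rw [HG.pin_eq_integral P M.C S hS M.φ M.β h n ω]
  rfl

lemma crit_unique {f : ℝ → ℝ} {a b : ℝ} (h1 : ∀ h, 0 < f h ↔ h < a) (h2 : ∀ h, 0 < f h ↔ h < b) :
    a = b := by
  rcases lt_trichotomy a b with h | h | h
  · exact absurd ((h1 a).1 ((h2 a).2 h)) (lt_irrefl _)
  · exact h
  · exact absurd ((h2 b).1 ((h1 b).2 h)) (lt_irrefl _)

lemma expLeft_of {Ω : Type u} [MeasurableSpace Ω] (P : Measure Ω) [IsProbabilityMeasure P]
    (S : ℕ → Ω → ℤ) (C : Chain) (hS : IsMarkovChain P C.p S)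
    (h : ∃ c M : ℝ, 0 < c ∧ ∀ n : ℕ, negReturn P S n ≤ M * Real.exp (-(c * n))) :
    HG.ExpLeft C := by
  obtain ⟨c, M, hc, hM⟩ := h
  have hp : 0 < C.p 0 (-1) := by
    have := C.down 0
    rwa [zero_sub] at this
  refine ⟨c, max M 0 / C.p 0 (-1), hc, fun n => ?_⟩
  rcases Nat.eq_zero_or_pos n with h0 | h0
  · subst h0
    have h1 : K0 C 0 (-1) = 0 := rfl
    rw [h1]
    have : 0 ≤ max M 0 := le_max_right _ _
    positivity
  · have h2 := hM (n + 1)
    rw [negReturn_eq P C S hS h0] at h2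
    have h3 : Real.exp (-(c * ((n + 1 : ℕ) : ℝ))) ≤ Real.exp (-(c * (n : ℝ))) := by
      apply Real.exp_le_exp.2
      push_cast
      nlinarith
    have h4 : C.p 0 (-1) * K0 C n (-1) ≤ max M 0 * Real.exp (-(c * (n : ℝ))) :=
      h2.trans (mul_le_mul (le_max_left _ _) h3 (Real.exp_pos _).le (le_max_right _ _))
    rw [div_mul_eq_mul_div, le_div_iff₀ hp, mul_comm]
    exact h4

lemma loopTail_of_bounds {x : ℕ → ℝ} {a : ℝ}
    (h1 : ∀ ε : ℝ, 0 < ε → ∀ᶠ n : ℕ in atTop, ((2 * n : ℕ) : ℝ) ^ (-(1 + a + ε)) ≤ x (2 * n))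
    (h2 : ∀ ε : ℝ, 0 < ε → ∀ᶠ n : ℕ in atTop, x (2 * n) ≤ ((2 * n : ℕ) : ℝ) ^ (-(1 + a - ε))) :
    LoopTail x a := by
  have key : ∀ ε : ℝ, 0 < ε → ∀ᶠ n : ℕ in atTop,
      -(1 + a) - ε ≤ Real.log (x (2 * n)) / Real.log (2 * n) ∧
        Real.log (x (2 * n)) / Real.log (2 * n) ≤ -(1 + a) + ε := by
    intro ε hε
    filter_upwards [h1 ε hε, h2 ε hε, eventually_ge_atTop 1] with n ha hb hn
    have hn1 : (1 : ℝ) ≤ n := by exact_mod_cast hn
    have h0 : (0 : ℝ) < 2 * (n : ℝ) := by linarith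
    have hlog : 0 < Real.log (2 * (n : ℝ)) := Real.log_pos (by linarith)
    have hc : ((2 * n : ℕ) : ℝ) = 2 * (n : ℝ) := by push_cast; ring
    rw [hc] at ha hb
    have hp := Real.rpow_pos_of_pos h0 (-(1 + a + ε))
    constructor
    · rw [le_div_iff₀ hlog]
      have h3 := Real.log_le_log hp ha
      rw [Real.log_rpow h0] at h3
      linarith
    · rw [div_le_iff₀ hlog]
      have h3 := Real.log_le_log (hp.trans_le ha) hb
      rw [Real.log_rpow h0] at h3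
      linarith
  refine tendsto_order.2 ⟨fun b hb => ?_, fun b hb => ?_⟩
  · filter_upwards [key ((-(1 + a) - b) / 2) (by linarith)] with n hn
    linarith [hn.1]
  · filter_upwards [key ((b + (1 + a)) / 2) (by linarith)] with n hn
    linarith [hn.2]

lemma bes_of {C : Chain} {φ : ℤ → ℝ} {m α c : ℝ} (h : BesselRight C.p φ m α c) :
    HG.Bes C φ m α c ∧ 0 < α + c := by
  refine ⟨⟨h.pos, h.moves, h.drift, h.potential⟩, ?_⟩
  rcases h.not_both with h1 | h1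
  · have := lt_of_le_of_ne h.alpha_nonneg (Ne.symm h1)
    linarith [h.c_nonneg]
  · have := lt_of_le_of_ne h.c_nonneg (Ne.symm h1)
    linarith [h.alpha_nonneg]

lemma rootExp_of {C : Chain} {φ : ℤ → ℝ} {ℓ : ℝ} {a : ℝ → ℝ} (h : Roots C.p φ ℓ a) :
    HG.RootExp C φ ℓ a := by
  obtain ⟨m, α, c, hB, h⟩ := h
  refine ⟨m, α, c, hB.alpha_nonneg, hB.c_nonneg, (bes_of hB).2, (bes_of hB).1, ?_⟩
  rcases h with h | ⟨m', α', c', hB', h⟩
  · exact Or.inl h
  · have hB'' : BesselRight (cneg C).p (fun x => φ (-x)) m' α' c' := hB'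
    exact Or.inr ⟨m', α', c', hB'.alpha_nonneg, hB'.c_nonneg, (bes_of hB'').2, (bes_of hB'').1, h⟩

/-- **Potentials of order `x⁻²` on Bessel-like chains.** -/
theorem key {Ω : Type u} [MeasurableSpace Ω] (P : Measure Ω) [IsProbabilityMeasure P]
    (p : ℤ → ℤ → ℝ) (hp : IsKernel p) (S : ℕ → Ω → ℤ) (hS : IsMarkovChain P p S)
    (hrec : ∀ᵐ w ∂P, ∃ n, 0 < n ∧ S n w = 0)
    (μ : Measure ℝ) [IsProbabilityMeasure μ]
    (hexp : ∀ t : ℝ, Integrable (fun x => Real.exp (t * x)) μ)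
    (hmean : ∫ x, x ∂μ = 0) (hvar : ∫ x, x ^ 2 ∂μ = 1)
    (φ : ℤ → ℝ) (hφ0 : ∀ x, 0 ≤ φ x) (hφne : ∃ x, φ x ≠ 0) (hφ1 : Tendsto φ atTop (𝓝 0))
    (ℓ : ℝ) (hφ2 : Tendsto φ atBot (𝓝 ℓ)) (a : ℝ → ℝ) (ha : Roots p φ ℓ a) :
    -- the penalised excursions
    (∀ η : ℝ, 0 < η →
      (∃ A : ℝ, ∀ᶠ n : ℕ in atTop, ((2 * n : ℕ) : ℝ) ^ (-A) ≤ penReturn P S φ η (2 * n)) ∧
      (a η < 1 → LoopTail (penReturn P S φ η) (a η))) ∧
    ∃ (F : ℝ → ℝ → ℝ) (hc : ℝ → ℝ),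
      (∀ β : ℝ, 0 < β → IsFreeEnergy P S μ φ β (F β) (hc β)) ∧
      Tendsto hc (𝓝[>] 0) (𝓝 0) ∧ ConvexOn ℝ (Ioi 0) hc ∧ ContinuousOn hc (Ioi 0) ∧
      StrictMonoOn hc (Ioi 0) ∧
      -- the order at `β`
      (∀ β : ℝ, 0 < β →
        (1 / 2 < a (hc β) → InfiniteOrder (F β) (hc β)) ∧
        (¬ MomBdd P S μ φ β (hc β) → InfiniteOrder (F β) (hc β)) ∧
        (MomBdd P S μ φ β (hc β) → AnnealedZero P S μ φ β (hc β) ∧ a (hc β) ≤ 1 / 2 ∧
          HasOrder (F β) (hc β) (1 / a (hc β)))) ∧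
      -- small inverse temperatures
      (0 < a 0 → a 0 < 1 / 2 →
        (0 < ℓ → ∃ c M : ℝ, 0 < c ∧ ∀ n : ℕ, negReturn P S n ≤ M * Real.exp (-(c * n))) →
        ∃ β₀ : ℝ, 0 < β₀ ∧ ∀ β : ℝ, 0 < β → β ≤ β₀ → MomBdd P S μ φ β (hc β)) ∧
      -- large inverse temperatures
      ((∃ h : ℝ, 1 / 2 < a h) → ∃ β₁ : ℝ, ∀ β : ℝ, 0 < β → β₁ ≤ β →
        InfiniteOrder (F β) (hc β)) := by
  set C := hp.chain with hC
  have hSC : IsMarkovChain P C.p S := hS
  have hrecC : HasSum (fun n : ℕ => K0 C (n + 1) 0) 1 := hasSum_K0 hSC hrec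
  obtain ⟨Φ, hΦ0, hΦ⟩ := bounded_of_lims hφ1 hφ2
  let M₀ : Mod :=
    { C := C, μ := μ, prob := inferInstance, exp_mom := hexp, mean := hmean,
      var := hvar, φ := φ, Φ := Φ, ℓ := ℓ, φ_nonneg := hφ0, φ_le := hΦ, Φ_pos := hΦ0,
      φ_ne := by
        obtain ⟨x, hx⟩ := hφne
        exact ⟨x, lt_of_le_of_ne (hφ0 x) (Ne.symm hx)⟩,
      φ_top := hφ1, φ_bot := hφ2, β := 1, β_pos := one_pos, hrec := hrecC }
  have H : HG.RootExp C φ ℓ a := rootExp_of (C := C) ha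
  have HM : ∀ (β : ℝ) (hβ : 0 < β), HG.RootExp (HG.withB M₀ β hβ).C (HG.withB M₀ β hβ).φ
      (HG.withB M₀ β hβ).ℓ a := fun β hβ => H
  have H₀ : HG.RootExp M₀.C M₀.φ M₀.ℓ a := H
  refine ⟨fun η hη => ?_, ?_⟩
  · have hpen : ∀ n : ℕ, 1 ≤ n → penReturn P S φ η (2 * n) =
        Kv C (fun z => -η * φ z) (2 * n) 0 := fun n hn => by
      unfold penReturn
      exact Kv_eq_integral P C S hSC φ η (by omega)
    refine ⟨?_, fun h1 => ?_⟩
    · obtain ⟨c, A, hc, hA, h⟩ := H₀.poly η hη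
      refine ⟨A + 1, HG.WPoly.absorb (A := A) (by linarith) hc ?_⟩
      filter_upwards [eventually_ge_atTop 1] with n hn
      rw [hpen n hn]
      refine le_trans (mul_le_mul_of_nonneg_left ?_ hc.le) (h n hn)
      have h3 : (1 : ℝ) ≤ n := by exact_mod_cast hn
      refine Real.rpow_le_rpow_of_nonpos (by linarith) ?_ (by linarith)
      exact_mod_cast (by omega : n ≤ 2 * n)
    · have hU := HG.besExp_kuw M₀ hη (H₀.pos hη) (H₀.besExp η)
      rw [min_eq_left h1.le] at hU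
      refine loopTail_of_bounds (fun ε hε => ?_) (fun ε hε => ?_)
      · filter_upwards [HG.besExp_low M₀ hη.le (H₀.pos hη) h1 (H₀.besExp η) hε,
          eventually_ge_atTop 1] with n hn hn1
        rw [hpen n hn1]
        exact hn
      · filter_upwards [hU ε hε, eventually_ge_atTop 1] with n hn hn1
        rw [hpen n hn1]
        exact hn
  obtain ⟨F, hc, hF⟩ : ∃ (F : ℝ → ℝ → ℝ) (hc : ℝ → ℝ), ∀ (β : ℝ) (hβ : 0 < β),
      F β = (HG.withB M₀ β hβ).Fr ∧ 0 < hc β ∧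
        ∀ h, 0 < (HG.withB M₀ β hβ).Fr h ↔ h < hc β := by
    refine ⟨fun β => if h : 0 < β then (HG.withB M₀ β h).Fr else fun _ => 0,
      fun β => if h : 0 < β then Classical.choose (HG.crit (HG.withB M₀ β h)) else 0,
      fun β hβ => ?_⟩
    simp only [dif_pos hβ]
    exact ⟨trivial, Classical.choose_spec (HG.crit (HG.withB M₀ β hβ))⟩
  -- moments of the pinned partition functions
  have hmom : ∀ (β : ℝ) (hβ : 0 < β), MomBdd P S μ φ β (hc β) ↔ ∃ r K : ℝ, 1 < r ∧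
      ∀ n : ℕ, mom μ r (fun ω => (HG.withB M₀ β hβ).Z (hc β) (2 * n) ω) ≤ ENNReal.ofReal K := by
    intro β hβ
    have hm := fun r n => mom_pin P S (HG.withB M₀ β hβ) hSC (hc β) r n
    constructor
    · rintro ⟨r, K, hr, hK⟩
      exact ⟨r, K, hr, fun n => (hm r (2 * n)).symm.le.trans (hK (2 * n))⟩
    · rintro ⟨r, K, hr, hK⟩
      obtain ⟨K', _, hK'⟩ := HG.mom_all (HG.withB M₀ β hβ) (h := hc β) (by linarith : 0 < r) hK
      exact ⟨r, K', hr, fun n => (hm r n).le.trans (hK' n)⟩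
  -- infinite order
  have hinf : ∀ (β : ℝ) (hβ : 0 < β), HG.Unbd (HG.withB M₀ β hβ) (hc β) →
      InfiniteOrder (F β) (hc β) := by
    intro β hβ hU
    obtain ⟨hF1, hc0, hcrit⟩ := hF β hβ
    rw [hF1]
    have hlo := (HM β hβ).poly
    intro q
    have hFz : (HG.withB M₀ β hβ).Fr (hc β) = 0 :=
      le_antisymm (not_lt.1 fun h1 => lt_irrefl _ ((hcrit (hc β)).1 h1))
        (HG.fr_nonneg _ hlo _)
    have hFΦ : ∀ δ : ℝ, 0 < δ → δ ≤ 1 → (HG.withB M₀ β hβ).Fr (hc β - δ) ≤ Φ :=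
      fun δ h0 h1 => by
        have h3 := (HG.withB M₀ β hβ).Fr_lip (h := hc β - δ) (h' := hc β) (by linarith)
        have h6 : hc β - (hc β - δ) = δ := by ring
        rw [h6, hFz] at h3
        have h7 : (HG.withB M₀ β hβ).Φ = Φ := rfl
        rw [h7] at h3
        nlinarith
    rcases lt_or_ge 0 q with hq | hq
    · obtain ⟨K, hK⟩ := HG.infOrd_of_unbd (HG.withB M₀ β hβ) hlo hc0 hcrit hU q hq
      exact ⟨K, fun δ h0 h1 => hK δ h0.le h1⟩
    · refine ⟨Φ, fun δ h0 h1 => (hFΦ δ h0 h1).trans ?_⟩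
      have h4 : (1 : ℝ) ≤ δ ^ q := Real.one_le_rpow_of_pos_of_le_one_of_nonpos h0 h1 hq
      exact le_mul_of_one_le_right hΦ0.le h4
  obtain ⟨hreg1, hreg2, hreg3⟩ := HG.hc_regular M₀ (hc := hc) (fun β hβ => (hF β hβ).2.1)
    (fun β hβ => (hF β hβ).2.2)
  refine ⟨F, hc, fun β hβ => ?_, ?_, hreg1, hreg2, hreg3,
    fun β hβ => ⟨fun h1 => ?_, fun h1 => ?_, fun h1 => ?_⟩, ?_, ?_⟩
  · obtain ⟨hF1, hc0, hcrit⟩ := hF β hβ
    rw [hF1]
    exact free_energy P S (HG.withB M₀ β hβ) hSC (HM β hβ).poly hc0 hcrit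
  · obtain ⟨A, hA, h1⟩ := HG.hc_small M₀
    have h2 : Tendsto (fun β : ℝ => A * β ^ 2) (𝓝[>] 0) (𝓝 0) := by
      have h3 : Tendsto (fun β : ℝ => A * β ^ 2) (𝓝 0) (𝓝 (A * 0 ^ 2)) :=
        (continuous_const.mul (continuous_pow 2)).tendsto 0
      rw [zero_pow two_ne_zero, mul_zero] at h3
      exact h3.mono_left nhdsWithin_le_nhds
    refine tendsto_of_tendsto_of_tendsto_of_le_of_le' tendsto_const_nhds h2 ?_ ?_
    · filter_upwards [self_mem_nhdsWithin] with β hβ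
      exact (hF β hβ).2.1.le
    · filter_upwards [Ioc_mem_nhdsGT (show (0 : ℝ) < 1 from one_pos)] with β hβ
      exact h1 β hβ.1 hβ.2 (hc β) (hF β hβ.1).2.2
  · obtain ⟨hF1, hc0, hcrit⟩ := hF β hβ
    exact hinf β hβ ((HM β hβ).unbd hc0 hcrit h1)
  · refine hinf β hβ fun r hr K => ?_
    by_contra hcon
    push Not at hcon
    exact h1 ((hmom β hβ).2 ⟨r, K, hr, hcon⟩)
  · obtain ⟨hF1, hc0, hcrit⟩ := hF β hβ
    obtain ⟨r, K, hr, hb⟩ := (hmom β hβ).1 h1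
    obtain ⟨h2, h3⟩ := (HM β hβ).exact hc0 hcrit hr hb
    refine ⟨annealed_zero P S (HG.withB M₀ β hβ) hSC (HM β hβ).poly hcrit
      (fun b hb' => (HG.withB M₀ β hβ).ann_zero (HG.bdd_sum hr hb) hb'), h2, ?_⟩
    rw [hF1]
    exact exponent_of_bounds (G := fun δ => (HG.withB M₀ β hβ).Fr (hc β - δ))
      (fun ε hε => (h3 ε hε).1) (fun ε hε => (h3 ε hε).2)
  · intro h0 h1 hL
    obtain ⟨β₀, hβ₀, h2⟩ := H₀.small h0 h1 (fun hℓ => expLeft_of P S C hSC (hL hℓ))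
    refine ⟨β₀, hβ₀, fun β hβ hββ => ?_⟩
    obtain ⟨h₀, K, _, hcr, hm⟩ := h2 β hβ hββ
    have he : h₀ = hc β := crit_unique hcr (hF β hβ).2.2
    rw [he] at hm
    exact (hmom β hβ).2 ⟨2, K, one_lt_two, hm⟩
  · rintro ⟨h₁, h₂⟩
    obtain ⟨β₁, h3⟩ := H₀.large h₂
    exact ⟨β₁, fun β hβ hββ => hinf β hβ ((HM β hβ).unbd (hF β hβ).2.1 (hF β hβ).2.2
      (h3 β hβ hββ (hc β) (hF β hβ).2.2))⟩

end

end Pool.Agent.HGI
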