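import Pool.Agent.Lib.MP_daa227_pr_HG.StO
import Pool.Agent.Lib.MP_daa227_pr_HG.ExactW
import Pool.Agent.Lib.MP_daa227_pr_HG.Marg2
import Pool.Agent.Lib.MP_daa227_pr_HG.NTwo
import Pool.Agent.Lib.MP_daa227_pr_HG.LightA
import Pool.Agent.Lib.MP_daa227_pr_HG.Dich
import Pool.Agent.Lib.MP_daa227_pr_HG.VExt
import Pool.Agent.Lib.MP_daa227_pr_HG.PinI
import Pool.Agent.Lib.MP_daa227_pr_HZ.Main
import Pool.Agent.Lib.MP_daa227_pr_HZ.Fin
import Pool.Agent.Lib.MP_daa227_pr_HZ.MarkQ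
import Pool.Agent.Lib.MP_daa227_pr_HZ.JenQ
import Pool.Agent.Lib.MP_daa227_pr_HZ.MeanLim
import Pool.Agent.Lib.MP_daa227_pr_HZ.AnnFree
import Pool.Agent.Lib.MP_daa227_pr_OT.KProb
import Pool.Agent.Lib.MP_daa227_pr.Mark
import Pool.Agent.Lib.MP_daa227_pr.Occ
import Pool.Agent.Lib.MP_daa227_pr.HcPos
import Pool.Agent.Lib.MP_daa227_pr.ConcLim

/-!
# MP_daa227_pr: the order of the quenched transition is `1 / α` or infinite: proof
-/

open MeasureTheory ProbabilityTheory Set Filter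
open scoped ENNReal Topology

namespace Pool.Agent.HGO

open _root_.MP_daa227_pr
open Pool.Agent.HZ

noncomputable section

lemma cross_up {p : ℤ → ℤ → ℝ} (hp : IsKernel p) {x y a : ℤ}
    (h : Relation.ReflTransGen (fun a b => 0 < p a b) x y) (hx : x ≤ a) : a < y → 0 < p a (a + 1) := by
  induction h with
  | refl => intro hy; omega
  | @tail b c _ hbc ih =>
    intro hc
    by_cases hb : a < b
    · exact ih hb
    · push Not at hb
      have h1 : ¬ 1 < |c - b| := fun h1 => by rw [hp.nearest b c h1] at hbc; exact lt_irrefl _ hbc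
      push Not at h1
      rw [abs_le] at h1
      have h2 : b = a := by omega
      have h3 : c = a + 1 := by omega
      rw [h2, h3] at hbc
      exact hbc

lemma cross_down {p : ℤ → ℤ → ℝ} (hp : IsKernel p) {x y a : ℤ}
    (h : Relation.ReflTransGen (fun a b => 0 < p a b) x y) (hx : a ≤ x) : y < a → 0 < p a (a - 1) := by
  induction h with
  | refl => intro hy; omega
  | @tail b c _ hbc ih =>
    intro hc
    by_cases hb : b < a
    · exact ih hb
    · push Not at hb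
      have h1 : ¬ 1 < |c - b| := fun h1 => by rw [hp.nearest b c h1] at hbc; exact lt_irrefl _ hbc
      push Not at h1
      rw [abs_le] at h1
      have h2 : b = a := by omega
      have h3 : c = a - 1 := by omega
      rw [h2, h3] at hbc
      exact hbc

/-- The bundled chain. -/
def IsKernel.chain {p : ℤ → ℤ → ℝ} (hp : IsKernel p) : Chain where
  p := p
  nonneg := hp.nonneg
  near := by
    intro x y hy
    apply hp.nearest
    rw [Finset.mem_Icc] at hy
    rw [lt_abs]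
    omega
  sum_one := by
    intro x
    rw [Occ.sum_Icc]
    exact hp.total x
  up := fun x => cross_up hp (hp.irreducible x (x + 1)) le_rfl (by omega)
  down := fun x => cross_down hp (hp.irreducible x (x - 1)) le_rfl (by omega)

/-- a potential with limits is bounded -/
lemma bounded_of_lims {φ : ℤ → ℝ} {ℓ : ℝ} (h1 : Tendsto φ atTop (𝓝 0)) (h2 : Tendsto φ atBot (𝓝 ℓ)) :
    ∃ Φ : ℝ, 0 < Φ ∧ ∀ x, φ x ≤ Φ := by
  have h1' : ∀ᶠ x in atTop, φ x < 1 := h1.eventually (gt_mem_nhds one_pos)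
  have h2' : ∀ᶠ x in atBot, φ x < ℓ + 1 := h2.eventually (gt_mem_nhds (by linarith))
  obtain ⟨A, hA⟩ := eventually_atTop.1 h1'
  obtain ⟨B, hB⟩ := eventually_atBot.1 h2'
  obtain ⟨Φ, hΦ⟩ := ((Finset.Icc B A).image φ).exists_le
  refine ⟨max 1 (max Φ (ℓ + 1)), lt_max_of_lt_left one_pos, fun x => ?_⟩
  by_cases hx : A ≤ x
  · exact (hA x hx).le.trans (le_max_left _ _)
  · by_cases hx' : x ≤ B
    · exact (hB x hx').le.trans ((le_max_right _ _).trans (le_max_right _ _))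
    · push Not at hx hx'
      exact (hΦ _ (Finset.mem_image_of_mem _ (Finset.mem_Icc.2 ⟨hx'.le, hx.le⟩))).trans
        ((le_max_left _ _).trans (le_max_right _ _))

lemma vr_of_light (C : Chain) {φ : ℤ → ℝ} (h : LightRight C.p φ) : HG.VR C φ := by
  rcases h with ⟨R, h⟩ | ⟨R, c, θ, hc, hθ, h⟩ | h
  · exact HG.v_finite C h
  · exact HG.v_bessel C hc hθ h
  · exact h

lemma posReturn_eq {Ω : Type*} [MeasurableSpace Ω] (P : Measure Ω) [IsProbabilityMeasure P]
    (C : Chain) (S : ℕ → Ω → ℤ) (hS : IsChain P C.p S) {n : ℕ} (hn : 1 ≤ n) :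
    posReturn P S (n + 1) = C.p 0 1 * K0 C n 1 := by
  have h1 := OT.K3.prob_eq P C S hS (s := 1) (Or.inl rfl) n hn
  simp only [one_mul] at h1
  exact h1

lemma negReturn_eq {Ω : Type*} [MeasurableSpace Ω] (P : Measure Ω) [IsProbabilityMeasure P]
    (C : Chain) (S : ℕ → Ω → ℤ) (hS : IsChain P C.p S) {n : ℕ} (hn : 1 ≤ n) :
    negReturn P S (n + 1) = C.p 0 (-1) * K0 C n (-1) := by
  have h1 := OT.K3.prob_eq P C S hS (s := -1) (Or.inr rfl) n hn
  simp only [neg_mul, one_mul, Left.neg_pos_iff] at h1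
  exact h1

/-- the bounds contained in `LoopTail` -/
lemma bounds_of_loopTail {a : ℕ → ℝ} {α : ℝ} (hpos : ∀ᶠ n : ℕ in atTop, 0 < a (2 * n))
    (h : LoopTail a α) {ε : ℝ} (hε : 0 < ε) :
    ∀ᶠ n : ℕ in atTop, ((2 * n : ℕ) : ℝ) ^ (-(1 + α + ε)) ≤ a (2 * n) ∧
      a (2 * n) ≤ ((2 * n : ℕ) : ℝ) ^ (-(1 + α - ε)) := by
  have h1 := h.eventually (Ioo_mem_nhds (show -(1 + α) - ε < -(1 + α) by linarith)
    (show -(1 + α) < -(1 + α) + ε by linarith))
  filter_upwards [h1, hpos, eventually_ge_atTop 1] with n hn hp hn1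
  have hn2 : (1 : ℝ) < 2 * (n : ℝ) := by
    have : (1 : ℝ) ≤ n := by exact_mod_cast hn1
    linarith
  have hlog : 0 < Real.log (2 * (n : ℝ)) := Real.log_pos hn2
  obtain ⟨ha, hb⟩ := hn
  rw [lt_div_iff₀ hlog] at ha
  rw [div_lt_iff₀ hlog] at hb
  have h0 : (0 : ℝ) < 2 * (n : ℝ) := by linarith
  have hc : ((2 * n : ℕ) : ℝ) = 2 * (n : ℝ) := by push_cast; ring
  rw [hc, Real.rpow_def_of_pos h0, Real.rpow_def_of_pos h0]
  refine ⟨?_, ?_⟩
  · rw [← Real.le_log_iff_exp_le hp]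
    nlinarith
  · rw [← Real.log_le_iff_le_exp hp]
    nlinarith

/-- a bound near `0` extends to `(0, 1]` -/
lemma extend {F : ℝ → ℝ} {hc q L : ℝ} (hq : 0 < q) (hL : 0 ≤ L)
    (hF : ∀ δ : ℝ, 0 < δ → δ ≤ 1 → F (hc - δ) ≤ L)
    (h : ∀ᶠ δ in 𝓝[>] (0 : ℝ), F (hc - δ) ≤ δ ^ q) :
    ∃ K : ℝ, ∀ δ : ℝ, 0 < δ → δ ≤ 1 → F (hc - δ) ≤ K * δ ^ q := by
  obtain ⟨d, hd, hd'⟩ := mem_nhdsGT_iff_exists_Ioo_subset.1 h
  have hd0 : (0 : ℝ) < d := hd
  refine ⟨max 1 (L * d ^ (-q)), fun δ h0 h1 => ?_⟩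
  have hp : 0 ≤ δ ^ q := Real.rpow_nonneg h0.le q
  by_cases hδ : δ < d
  · have h2 : F (hc - δ) ≤ δ ^ q := hd' ⟨h0, hδ⟩
    calc F (hc - δ) ≤ 1 * δ ^ q := by rw [one_mul]; exact h2
      _ ≤ _ := mul_le_mul_of_nonneg_right (le_max_left _ _) hp
  · push Not at hδ
    have h2 : 1 ≤ d ^ (-q) * δ ^ q := by
      rw [Real.rpow_neg hd0.le, ← div_eq_inv_mul, one_le_div (Real.rpow_pos_of_pos hd0 q)]
      exact Real.rpow_le_rpow hd0.le hδ hq.le
    calc F (hc - δ) ≤ L * 1 := by rw [mul_one]; exact hF δ h0 h1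
      _ ≤ L * (d ^ (-q) * δ ^ q) := mul_le_mul_of_nonneg_left h2 hL
      _ = L * d ^ (-q) * δ ^ q := by ring
      _ ≤ _ := mul_le_mul_of_nonneg_right (le_max_right _ _) hp

/-- the two bounds give the exponent -/
lemma exponent_of_bounds {G : ℝ → ℝ} {κ : ℝ}
    (h1 : ∀ ε : ℝ, 0 < ε → ∀ᶠ δ in 𝓝[>] (0 : ℝ), δ ^ (κ + ε) ≤ G δ)
    (h2 : ∀ ε : ℝ, 0 < ε → ∀ᶠ δ in 𝓝[>] (0 : ℝ), G δ ≤ δ ^ (κ - ε)) :
    Tendsto (fun δ : ℝ => Real.log (G δ) / Real.log δ) (𝓝[>] 0) (𝓝 κ) := by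
  have hlt : ∀ᶠ δ in 𝓝[>] (0 : ℝ), 0 < δ ∧ δ < 1 := by
    filter_upwards [Ioo_mem_nhdsGT (show (0 : ℝ) < 1 by norm_num)] with δ hδ
    exact hδ
  have key : ∀ ε : ℝ, 0 < ε → ∀ᶠ δ in 𝓝[>] (0 : ℝ),
      κ - ε ≤ Real.log (G δ) / Real.log δ ∧ Real.log (G δ) / Real.log δ ≤ κ + ε := by
    intro ε hε
    filter_upwards [h1 ε hε, h2 ε hε, hlt] with δ ha hb h01
    have hlog : Real.log δ < 0 := Real.log_neg h01.1 h01.2
    have hG : 0 < G δ := (Real.rpow_pos_of_pos h01.1 _).trans_le ha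
    have ha' : (κ + ε) * Real.log δ ≤ Real.log (G δ) := by
      have := Real.log_le_log (Real.rpow_pos_of_pos h01.1 _) ha
      rwa [Real.log_rpow h01.1] at this
    have hb' : Real.log (G δ) ≤ (κ - ε) * Real.log δ := by
      have := Real.log_le_log hG hb
      rwa [Real.log_rpow h01.1] at this
    exact ⟨(le_div_iff_of_neg hlog).2 hb', (div_le_iff_of_neg hlog).2 ha'⟩
  refine tendsto_order.2 ⟨fun a ha => ?_, fun a ha => ?_⟩
  · filter_upwards [key ((κ - a) / 2) (by linarith)] with δ hδ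
    linarith [hδ.1]
  · filter_upwards [key ((a - κ) / 2) (by linarith)] with δ hδ
    linarith [hδ.2]

lemma loopTail_of_bounds {x : ℕ → ℝ} {a : ℝ}
    (h1 : ∀ ε : ℝ, 0 < ε → ∀ᶠ n : ℕ in atTop, ((2 * n : ℕ) : ℝ) ^ (-(1 + a + ε)) ≤ x (2 * n))
    (h2 : ∀ ε : ℝ, 0 < ε → ∀ᶠ n : ℕ in atTop, x (2 * n) ≤ ((2 * n : ℕ) : ℝ) ^ (-(1 + a - ε))) :
    LoopTail x a := by
  have key : ∀ ε : ℝ, 0 < ε → ∀ᶠ n : ℕ in atTop,
      -(1 + a) - ε ≤ Real.log (x (2 * n)) / Real.log (2 * n) ∧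
        Real.log (x (2 * n)) / Real.log (2 * n) ≤ -(1 + a) + ε := by
    intro ε hε
    filter_upwards [h1 ε hε, h2 ε hε, eventually_ge_atTop 1] with n ha hb hn
    have hn1 : (1 : ℝ) ≤ n := by exact_mod_cast hn
    have h0 : (0 : ℝ) < 2 * (n : ℝ) := by linarith
    have hlog : 0 < Real.log (2 * (n : ℝ)) := Real.log_pos (by linarith)
    have hc : ((2 * n : ℕ) : ℝ) = 2 * (n : ℝ) := by push_cast; ring
    rw [hc] at ha hb
    have hp := Real.rpow_pos_of_pos h0 (-(1 + a + ε))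
    constructor
    · rw [le_div_iff₀ hlog]
      have h3 := Real.log_le_log hp ha
      rw [Real.log_rpow h0] at h3
      linarith
    · rw [div_le_iff₀ hlog]
      have h3 := Real.log_le_log (hp.trans_le ha) hb
      rw [Real.log_rpow h0] at h3
      linarith
  refine tendsto_order.2 ⟨fun b hb => ?_, fun b hb => ?_⟩
  · filter_upwards [key ((-(1 + a) - b) / 2) (by linarith)] with n hn
    linarith [hn.1]
  · filter_upwards [key ((b + (1 + a)) / 2) (by linarith)] with n hn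
    linarith [hn.2]

/-- finitely many terms are absorbed in the constant -/
lemma all_low {f : ℕ → ℝ} (hf : ∀ n : ℕ, 1 ≤ n → 0 < f n) {c : ℝ} (hc : 0 < c)
    (h : ∀ᶠ n : ℕ in atTop, c * ((2 * n : ℕ) : ℝ) ^ (-(3 / 2) : ℝ) ≤ f n) :
    ∃ c' : ℝ, 0 < c' ∧ ∀ n : ℕ, 1 ≤ n → c' * (n : ℝ) ^ (-(3 / 2 : ℝ)) ≤ f n := by
  obtain ⟨N, hN⟩ := eventually_atTop.1 h
  have key : ∀ m : ℕ, ∃ a : ℝ, 0 < a ∧ a ≤ c * (2 : ℝ) ^ (-(3 / 2) : ℝ) ∧ ∀ n : ℕ, 1 ≤ n → n < m →
      a * (n : ℝ) ^ (-(3 / 2 : ℝ)) ≤ f n := by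
    intro m
    induction m with
    | zero => exact ⟨c * (2 : ℝ) ^ (-(3 / 2) : ℝ), by positivity, le_rfl,
        fun n _ h2 => absurd h2 (Nat.not_lt_zero n)⟩
    | succ m ih =>
      obtain ⟨a, ha, ha1, ham⟩ := ih
      rcases Nat.eq_zero_or_pos m with h0 | h0
      · exact ⟨a, ha, ha1, fun n h1 h2 => by omega⟩
      · have hp : (0 : ℝ) < (m : ℝ) ^ (-(3 / 2 : ℝ)) :=
          Real.rpow_pos_of_pos (by exact_mod_cast h0) _
        refine ⟨min a (f m / (m : ℝ) ^ (-(3 / 2 : ℝ))), lt_min ha (div_pos (hf m h0) hp),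
          (min_le_left _ _).trans ha1, fun n h1 h2 => ?_⟩
        have hq : (0 : ℝ) < (n : ℝ) ^ (-(3 / 2 : ℝ)) :=
          Real.rpow_pos_of_pos (by exact_mod_cast h1) _
        rcases Nat.lt_or_ge n m with h3 | h3
        · exact (mul_le_mul_of_nonneg_right (min_le_left _ _) hq.le).trans (ham n h1 h3)
        · have h4 : n = m := by omega
          subst h4
          calc min a (f n / (n : ℝ) ^ (-(3 / 2 : ℝ))) * (n : ℝ) ^ (-(3 / 2 : ℝ)) ≤
                f n / (n : ℝ) ^ (-(3 / 2 : ℝ)) * (n : ℝ) ^ (-(3 / 2 : ℝ)) :=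
                mul_le_mul_of_nonneg_right (min_le_right _ _) hq.le
            _ = f n := div_mul_cancel₀ _ hq.ne'
  obtain ⟨a, ha, ha1, ham⟩ := key N
  refine ⟨a, ha, fun n h1 => ?_⟩
  rcases Nat.lt_or_ge n N with h2 | h2
  · exact ham n h1 h2
  · have hq : (0 : ℝ) ≤ (n : ℝ) ^ (-(3 / 2 : ℝ)) := Real.rpow_nonneg (Nat.cast_nonneg _) _
    refine (mul_le_mul_of_nonneg_right ha1 hq).trans (le_trans (le_of_eq ?_) (hN n h2))
    push_cast
    rw [Real.mul_rpow (by norm_num) (Nat.cast_nonneg n), mul_assoc]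

/-- **The order of the quenched transition is `1 / α` or infinite.** -/
theorem key {Ω : Type*} [MeasurableSpace Ω] (P : Measure Ω) [IsProbabilityMeasure P]
    (p : ℤ → ℤ → ℝ) (hp : IsKernel p) (S : ℕ → Ω → ℤ) (hS : IsMarkovChain P p S) (hrec : ∀ᵐ w ∂P, ∃ n, 0 < n ∧ S n w = 0)
    (μ : Measure ℝ) [IsProbabilityMeasure μ]
    (hexp : ∀ t : ℝ, Integrable (fun x => Real.exp (t * x)) μ)
    (hmean : ∫ x, x ∂μ = 0) (hvar : ∫ x, x ^ 2 ∂μ = 1)
    (φ : ℤ → ℝ) (hφ0 : ∀ x, 0 ≤ φ x) (hφne : ∃ x, φ x ≠ 0) (hφ1 : Tendsto φ atTop (𝓝 0))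
    (ℓ : ℝ) (hφ2 : Tendsto φ atBot (𝓝 ℓ))
    (hcase : (∃ η : ℝ, 0 < η ∧ PolyBelow (penReturn P S φ η)) ∨
      (LightRight p φ ∧ PolyBelow (posReturn P S)) ∨
      (LightRight p φ ∧ LightLeft p φ ∧ PolyBelow (retProb P S)))
    (β : ℝ) (hβ : 0 < β) :
    ∃ F : ℝ → ℝ,
      (∀ h, ∀ᵐ ω ∂(Measure.infinitePi (fun _ : ℕ => μ)),
        Tendsto (fun N : ℕ => Real.log (Zpin P S φ β h N ω) / N) atTop (𝓝 (F h))) ∧
      (∀ h, Tendsto (fun N : ℕ => ∫ ω, |Real.log (Zpin P S φ β h N ω) / N - F h|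
        ∂(Measure.infinitePi (fun _ : ℕ => μ))) atTop (𝓝 0)) ∧
      (∀ h, 0 ≤ F h) ∧
      ∃ hc : ℝ, 0 < hc ∧ (∀ h, 0 < F h ↔ h < hc) ∧
        -- (1) no moment of order larger than one is bounded: infinite order
        (¬ MomBdd P S μ φ β hc → InfiniteOrder F hc) ∧
        -- (2) otherwise the annealed free energy vanishes at `hc`, and the order is finite if the
        -- excursions penalised at `hc` have some moment
        (MomBdd P S μ φ β hc → AnnealedZero P S μ φ β hc ∧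
          ((∃ a : ℝ, 0 < a ∧ Summable (fun n : ℕ => (n : ℝ) ^ a * penReturn P S φ hc n)) →
            ∃ c B : ℝ, 0 < c ∧ ∀ δ : ℝ, 0 < δ → δ ≤ 1 → c * δ ^ B ≤ F (hc - δ))) ∧
        -- (3) a moment of order larger than one half of these excursions: infinite order
        ((∃ a : ℝ, 1 / 2 < a ∧ Summable (fun n : ℕ => (n : ℝ) ^ a * penReturn P S φ hc n)) →
          InfiniteOrder F hc) ∧
        -- (4) potentials of copolymer type: infinite order
        (0 < ℓ → ((∀ x, φ x ≤ ℓ) ∨ hc * ℓ ≤ Real.log (∫ x, Real.exp (β * ℓ * x) ∂μ)) →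
          (∀ ε : ℝ, 0 < ε → ∀ K : ℝ, ∃ n : ℕ, K * Real.exp (-(ε * n)) < negReturn P S n) →
          InfiniteOrder F hc) ∧
        -- (5) exponent `a` of the excursions penalised at `hc`: the order is infinite or `1 / a`
        (∀ a : ℝ, 0 ≤ a → (LoopTail (penReturn P S φ hc) a ∨ (LoopTail (retProb P S) a ∧
            ((∃ η : ℝ, 0 < η ∧ LoopTail (penReturn P S φ η) a) ∨
              (LightRight p φ ∧ LoopTail (posReturn P S) a) ∨
              (LightRight p φ ∧ LightLeft p φ)))) →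
          (a = 0 → InfiniteOrder F hc ∧ AnnealedZero P S μ φ β hc) ∧
          (0 < a → MomBdd P S μ φ β hc → a ≤ 1 / 2 ∧
            Tendsto (fun δ : ℝ => Real.log (F (hc - δ)) / Real.log δ) (𝓝[>] 0)
              (𝓝 (1 / a)))) ∧
        -- (6) return probabilities of the order `n^(-3/2)`: infinite order
        (AtMost (retProb P S) → ((∃ η : ℝ, 0 < η ∧ AtLeast (penReturn P S φ η)) ∨
            (LightRight p φ ∧ AtLeast (posReturn P S)) ∨
            (LightRight p φ ∧ LightLeft p φ ∧ AtLeast (retProb P S))) →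
          InfiniteOrder F hc) := by
  set C := hp.chain with hC
  have hSC : IsChain P C.p S := hS
  have hrecC : HasSum (fun n : ℕ => K0 C (n + 1) 0) 1 := hasSum_K0 hSC hrec
  obtain ⟨Φ, hΦ0, hΦ⟩ := bounded_of_lims hφ1 hφ2
  -- polynomial cost
  have hPC : ∀ η : ℝ, 0 < η → ∃ c A' : ℝ, 0 < c ∧ 0 ≤ A' ∧ ∀ n : ℕ, 1 ≤ n →
      c * (n : ℝ) ^ (-A') ≤ Kv C (fun z => -η * φ z) (2 * n) 0 := by
    rcases hcase with ⟨η₁, hη₁, A, hpen⟩ | ⟨hR, A, hposr⟩ | ⟨hR, hL, A, hret⟩
    · refine HG.poly_one C hφ0 hη₁ (A := A) ?_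
      filter_upwards [hpen, eventually_ge_atTop 1] with n hn hn1
      refine hn.trans (le_of_eq ?_)
      unfold penReturn
      exact Kv_eq_integral P C S hSC φ η₁ (by omega)
    · refine HG.poly_right C hφ0 hΦ (vr_of_light C hR) (A := A) ?_
      filter_upwards [hposr, eventually_ge_atTop 1] with n hn hn1
      refine hn.trans (le_of_eq ?_)
      obtain ⟨m, hm⟩ : ∃ m, 2 * n = m + 1 := ⟨2 * n - 1, by omega⟩
      rw [hm, posReturn_eq P C S hSC (by omega)]
      rfl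
    · refine HG.poly_two C hφ0 hΦ (vr_of_light C hR) (vr_of_light (cneg C) hL) (A := A) ?_
      filter_upwards [hret, eventually_ge_atTop 1] with n hn hn1
      refine hn.trans (le_of_eq ?_)
      unfold retProb
      exact K0_eq_prob P C S hSC (2 * n) (by omega)
  -- the model
  let M : Mod :=
    { C := C, μ := μ, prob := inferInstance, exp_mom := hexp, mean := hmean,
      var := hvar, φ := φ, Φ := Φ, ℓ := ℓ, φ_nonneg := hφ0, φ_le := hΦ, Φ_pos := hΦ0,
      φ_ne := by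
        obtain ⟨x, hx⟩ := hφne
        exact ⟨x, lt_of_le_of_ne (hφ0 x) (Ne.symm hx)⟩,
      φ_top := hφ1, φ_bot := hφ2, β := β, β_pos := hβ, hrec := hrecC }
  have hlo : HG.PolyCost M := hPC
  have hZ : ∀ h N ω, Zpin P S φ β h N ω = M.Zl h N ω := fun h N ω =>
    Zf_eq_integral P C S hSC φ β h N ω
  have hZpos : ∀ h N ω, 0 < M.Zl h N ω := fun h N ω => Zf_pos M.C (M.W_pos h) N ω 0
  obtain ⟨hc, hc0, hcrit⟩ := HG.crit M
  have hFr0 : ∀ h, 0 ≤ M.Fr h := HG.fr_nonneg M hlo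
  -- law of large numbers
  have hmeas : ∀ h N, Measurable (fun ω => Real.log (M.Zl h N ω)) := fun h N =>
    (M.good_Zl h N).meas.log
  have hlip : ∀ h N, LipOn N M.κ (fun ω => Real.log (M.Zl h N ω)) := fun h N =>
    (M.good_Zl h N).log_lip (hZpos h N)
  have hintl : ∀ h N, Integrable (fun ω => Real.log (M.Zl h N ω)) (seqLaw M.μ) := fun h N =>
    (hlip h N).integrable (hmeas h N) M.exp_mom
  have hmeanlim : ∀ h, Tendsto (fun N : ℕ => M.ΨF h N / N) atTop (𝓝 (M.Fr h)) := fun h =>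
    M.mean_limit h
  -- the annealed partition function
  set I : ℝ → ℕ → ℝ := fun h N => ∫ ω, Zpin P S φ β h N ω ∂(Measure.infinitePi (fun _ : ℕ => μ))
    with hI
  have hImom : ∀ h N, I h N = (mom M.μ 1 (fun ω => M.Zl h N ω)).toReal := fun h N => by
    have h1 : I h N = ∫ ω, M.Zl h N ω ∂seqLaw M.μ := by
      change ∫ ω, Zpin P S φ β h N ω ∂seqLaw M.μ = _
      exact integral_congr_ae (ae_of_all _ fun ω => hZ h N ω)
    rw [h1, mom_one, integral_eq_lintegral_of_nonneg_ae (ae_of_all _ fun ω => (hZpos h N ω).le)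
      (M.good_Zl h N).meas.aestronglyMeasurable]
  have hIlow : ∀ h N, Real.exp (M.ΨF h N) ≤ I h N := fun h N => by
    have h1 := exp_le_mom' (μ := M.μ) M.exp_mom (zero_le_one) (M.good_Zl h N) (hZpos h N)
    rw [one_mul] at h1
    have h2 := mom_le_exp (μ := M.μ) M.exp_mom zero_le_one le_rfl (M.good_Zl h N) (hZpos h N)
    have h3 : mom M.μ 1 (fun ω => M.Zl h N ω) ≠ ⊤ := ne_top_of_le_ne_top ENNReal.ofReal_ne_top h2
    rw [hImom]
    exact (ENNReal.ofReal_le_iff_le_toReal h3).1 h1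
  have hIpos : ∀ h N, 0 < I h N := fun h N => (Real.exp_pos _).trans_le (hIlow h N)
  have hIlow' : ∀ h N, M.ΨF h N / N ≤ Real.log (I h N) / N := fun h N =>
    div_le_div_of_nonneg_right ((Real.le_log_iff_exp_le (hIpos h N)).2 (hIlow h N)) (Nat.cast_nonneg N)
  have hFΦ : ∀ δ : ℝ, 0 < δ → δ ≤ 1 → M.Fr (hc - δ) ≤ M.Φ := fun δ h0 h1 => by
    have hFz : M.Fr hc = 0 :=
      le_antisymm (not_lt.1 fun h1 => lt_irrefl _ ((hcrit hc).1 h1)) (hFr0 hc)
    have h3 := M.Fr_lip (h := hc - δ) (h' := hc) (by linarith)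
    have h6 : hc - (hc - δ) = δ := by ring
    rw [h6, hFz] at h3
    have := M.Φ_pos
    nlinarith
  have hinf : (∀ q : ℝ, 0 < q → ∃ K : ℝ, ∀ δ : ℝ, 0 < δ → δ ≤ 1 → M.Fr (hc - δ) ≤ K * δ ^ q) →
      InfiniteOrder M.Fr hc := by
    intro hord q
    rcases lt_or_ge 0 q with hq | hq
    · exact hord q hq
    · refine ⟨M.Φ, fun δ h0 h1 => (hFΦ δ h0 h1).trans ?_⟩
      have h4 : (1 : ℝ) ≤ δ ^ q := Real.one_le_rpow_of_pos_of_le_one_of_nonpos h0 h1 hq
      exact le_mul_of_one_le_right M.Φ_pos.le h4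
  have hannz : (∀ a : ℝ, 0 < a → ∀ᶠ N : ℕ in atTop, mom M.μ 1 (fun ω => M.Zl hc N ω) ≤
      ENNReal.ofReal (Real.exp (a * N))) → AnnealedZero P S μ φ β hc := by
    intro hmm
    have hFz : M.Fr hc = 0 :=
      le_antisymm (not_lt.1 fun h1 => lt_irrefl _ ((hcrit hc).1 h1)) (hFr0 hc)
    refine tendsto_order.2 ⟨fun a ha => ?_, fun a ha => ?_⟩
    · have h1 := hmeanlim hc
      rw [hFz] at h1
      filter_upwards [h1.eventually (lt_mem_nhds ha)] with N hN
      exact hN.trans_le (hIlow' hc N)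
    · filter_upwards [hmm (a / 2) (half_pos ha), eventually_ge_atTop 1] with N hN hN1
      have hN0 : (0 : ℝ) < N := by exact_mod_cast hN1
      have h1 : I hc N ≤ Real.exp (a / 2 * N) := by
        rw [hImom]
        exact ENNReal.toReal_le_of_le_ofReal (Real.exp_pos _).le hN
      have h2 : Real.log (I hc N) ≤ a / 2 * N := (Real.log_le_iff_le_exp (hIpos hc N)).2 h1
      change Real.log (I hc N) / N < a
      rw [div_lt_iff₀ hN0]
      nlinarith
  have hmomZ : ∀ (r : ℝ) (n : ℕ), ∫⁻ ω, ENNReal.ofReal (Zc P S φ β hc n ω) ^ r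
      ∂(Measure.infinitePi (fun _ : ℕ => μ)) = mom M.μ r (fun ω => M.Z hc n ω) := by
    intro r n
    refine lintegral_congr fun ω => ?_
    unfold Zc
    rw [HG.pin_eq_integral P C S hSC φ β hc n ω]
    rfl
  have hMB : MomBdd P S μ φ β hc → ∃ r K : ℝ, 1 < r ∧
      ∀ n : ℕ, mom M.μ r (fun ω => M.Z hc (2 * n) ω) ≤ ENNReal.ofReal K := by
    rintro ⟨r, K, hr, hK⟩
    exact ⟨r, K, hr, fun n => (hmomZ r (2 * n)).symm.le.trans (hK (2 * n))⟩
  have hMB' : ∀ r K : ℝ, 1 < r →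
      (∀ n : ℕ, mom M.μ r (fun ω => M.Z hc (2 * n) ω) ≤ ENNReal.ofReal K) →
        MomBdd P S μ φ β hc := by
    intro r K hr hK
    obtain ⟨K', _, hK'⟩ := HG.mom_all M (by linarith : 0 < r) hK
    exact ⟨r, K', hr, fun n => (hmomZ r n).le.trans (hK' n)⟩
  have hunb : ¬ MomBdd P S μ φ β hc → InfiniteOrder M.Fr hc := by
    intro hM
    have hU : HG.Unbd M hc := by
      intro r hr K
      by_contra hcon
      push Not at hcon
      exact hM (hMB' r K hr hcon)
    refine hinf fun q hq => ?_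
    obtain ⟨K, hK⟩ := HG.infOrd_of_unbd M hlo hc0 hcrit hU q hq
    exact ⟨K, fun δ h0 h1 => hK δ h0.le h1⟩
  have hret : ∀ n : ℕ, 1 ≤ n → retProb P S n = K0 C n 0 := fun n hn => by
    unfold retProb
    exact K0_eq_prob P C S hSC n hn
  have hpen1 : ∀ (η : ℝ) (n : ℕ), 1 ≤ n → penReturn P S φ η n =
      Kv C (fun z => -η * φ z) n 0 := fun η n hn => by
    unfold penReturn
    exact Kv_eq_integral P C S hSC φ η (by omega)
  have hsumK : ∀ a : ℝ, 0 < a → Summable (fun n : ℕ => (n : ℝ) ^ a * penReturn P S φ hc n) →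
      Summable (fun n : ℕ => (n : ℝ) ^ a * Kv M.C (fun z => -hc * M.φ z) n 0) := by
    intro a ha hs
    refine hs.congr fun n => ?_
    rcases Nat.eq_zero_or_pos n with hn | hn
    · rw [hn, Nat.cast_zero, Real.zero_rpow ha.ne', zero_mul, zero_mul]
    · rw [hpen1 hc n hn]
  refine ⟨M.Fr, fun h => ?_, fun h => ?_, hFr0, hc, hc0, hcrit, hunb, ?_, ?_, ?_, ?_, ?_⟩
  · have h1 := conc_ae (μ := M.μ) M.exp_mom (κ := M.κ) (fun N ω => Real.log (M.Zl h N ω)) (hmeas h) (hlip h)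
    have h1' : ∀ᵐ ω ∂(Measure.infinitePi (fun _ : ℕ => μ)), Tendsto (fun N : ℕ =>
      (Real.log (M.Zl h N ω) - ∫ ω', Real.log (M.Zl h N ω') ∂seqLaw M.μ) / N) atTop (𝓝 0) := h1
    filter_upwards [h1'] with ω hω
    have h2 := hω.add (hmeanlim h)
    rw [zero_add] at h2
    refine h2.congr (fun N => ?_)
    rw [hZ, ← add_div]
    congr 1
    unfold Mod.ΨF
    ring
  · have h1 := conc_L1 (μ := M.μ) M.exp_mom (κ := M.κ) (fun N ω => Real.log (M.Zl h N ω)) (hmeas h) (hlip h)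
    have h2 : Tendsto (fun N : ℕ => |M.ΨF h N / N - M.Fr h|) atTop (𝓝 0) := by
      have := ((hmeanlim h).sub_const (M.Fr h)).abs
      simpa using this
    have h3 := h1.add h2
    rw [add_zero] at h3
    refine squeeze_zero (fun N => integral_nonneg fun _ => abs_nonneg _) (fun N => ?_) h3
    have hint : Integrable (fun ω => |Real.log (M.Zl h N ω) - M.ΨF h N|) (seqLaw M.μ) :=
      ((hintl h N).sub (integrable_const _)).abs
    have h4 : ∫ ω, |Real.log (Zpin P S φ β h N ω) / N - M.Fr h| ∂(Measure.infinitePi (fun _ : ℕ => μ)) ≤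
        ∫ ω, (|Real.log (M.Zl h N ω) - M.ΨF h N| / N + |M.ΨF h N / N - M.Fr h|) ∂seqLaw M.μ := by
      have hi1 : Integrable (fun ω => |Real.log (M.Zl h N ω) / N - M.Fr h|) (seqLaw M.μ) :=
        (((hintl h N).div_const _).sub (integrable_const _)).abs
      have e : (fun ω => |Real.log (Zpin P S φ β h N ω) / N - M.Fr h|) =
          fun ω => |Real.log (M.Zl h N ω) / N - M.Fr h| := by
        funext ω; rw [hZ]
      rw [e]
      refine integral_mono hi1 ((hint.div_const _).add (integrable_const _)) (fun ω => ?_)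
      have h5 : Real.log (M.Zl h N ω) / N - M.Fr h =
          (Real.log (M.Zl h N ω) - M.ΨF h N) / N + (M.ΨF h N / N - M.Fr h) := by ring
      dsimp only
      rw [h5]
      refine (abs_add_le _ _).trans ?_
      rw [abs_div, Nat.abs_cast]
    refine h4.trans (le_of_eq ?_)
    rw [integral_add (hint.div_const _) (integrable_const _), integral_div]
    simp only [integral_const, probReal_univ, smul_eq_mul, one_mul]
    rfl
  · intro hM
    obtain ⟨r, K, hr, hb⟩ := hMB hM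
    have hs := HG.bdd_sum hr hb
    refine ⟨hannz fun a ha => M.ann_zero hs ha, ?_⟩
    · rintro ⟨a, ha, hsum⟩
      obtain ⟨c, B, hc', _, hB⟩ := (HG.bdd_pen hlo hc0 hcrit hr hb ha (hsumK a ha hsum)).2
      exact ⟨c, B, hc', hB⟩
  · rintro ⟨a, ha, hsum⟩
    by_cases hM : MomBdd P S μ φ β hc
    · exfalso
      obtain ⟨r, K, hr, hb⟩ := hMB hM
      have ha0 : 0 < a := by linarith
      have := (HG.bdd_pen hlo hc0 hcrit hr hb ha0 (hsumK a ha0 hsum)).1
      linarith
    · exact hunb hM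
  · intro hℓ hφℓ hneg
    apply hunb
    intro hM
    obtain ⟨r, K, hr, hK⟩ := hMB hM
    have hle : hc * M.ℓ ≤ lmg M.μ (M.β * M.ℓ) := by
      rcases hφℓ with h | h
      · exact HG.hc_le M hℓ h hcrit
      · exact h
    obtain ⟨n, hn⟩ := HG.unbdd_left M hℓ hle (by
      intro ε hε K
      obtain ⟨k, hk⟩ := hneg ε hε (max K 1 * Real.exp ε)
      have h0 : (1 : ℝ) ≤ max K 1 := le_max_right _ _
      have h1 : 2 ≤ k := by
        by_contra hcon
        have h2 : negReturn P S k ≤ 1 := by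
          unfold negReturn
          exact ENNReal.toReal_le_of_le_ofReal zero_le_one (by
            rw [ENNReal.ofReal_one]; exact prob_le_one)
        have h3 : (1 : ℝ) ≤ max K 1 * Real.exp ε * Real.exp (-(ε * k)) := by
          have h4 : (k : ℝ) ≤ 1 := by
            have : k ≤ 1 := by omega
            exact_mod_cast this
          rw [mul_assoc, ← Real.exp_add]
          have h5 : 1 ≤ Real.exp (ε + -(ε * k)) := Real.one_le_exp (by nlinarith)
          nlinarith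
        linarith
      obtain ⟨m, rfl⟩ : ∃ m, k = m + 1 := ⟨k - 1, by omega⟩
      refine ⟨m, ?_⟩
      rw [negReturn_eq P C S hSC (by omega)] at hk
      have h3 : C.p 0 (-1) ≤ 1 := C.p_le_one 0 (-1)
      have h4 := K0_nonneg C m (-1)
      have h5 : C.p 0 (-1) * K0 C m (-1) ≤ K0 C m (-1) := mul_le_of_le_one_left h4 h3
      have h7 : Real.exp ε * Real.exp (-(ε * ((m + 1 : ℕ) : ℝ))) = Real.exp (-(ε * m)) := by
        rw [← Real.exp_add]
        congr 1
        push_cast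
        ring
      rw [mul_assoc, h7] at hk
      have h8 : K * Real.exp (-(ε * m)) ≤ max K 1 * Real.exp (-(ε * m)) :=
        mul_le_mul_of_nonneg_right (le_max_left _ _) (Real.exp_pos _).le
      linarith) r hr K
    exact absurd (hK n) (not_le.2 hn)
  · intro a ha hcases
    have hpp : ∀ (η : ℝ), ∀ᶠ n : ℕ in atTop, 0 < penReturn P S φ η (2 * n) := by
      intro η
      filter_upwards [eventually_ge_atTop 1] with n hn
      rw [hpen1 η (2 * n) (by omega)]
      exact Kv_even_pos C _ hn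
    have htail' : LoopTail (penReturn P S φ hc) a := by
      rcases hcases with h | ⟨htail, hlight⟩
      · exact h
      have hKpos : ∀ᶠ n : ℕ in atTop, 0 < retProb P S (2 * n) := by
        filter_upwards [eventually_ge_atTop 1] with n hn
        rw [hret (2 * n) (by omega), ← Kv_K0]
        exact Kv_even_pos C _ hn
      have hU : HG.KUp C a := by
        intro ε hε
        filter_upwards [bounds_of_loopTail hKpos htail hε, eventually_ge_atTop 1] with n hn hn1
        rw [← hret (2 * n) (by omega)]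
        exact hn.2
      have hA : HG.PolyA M a := by
        rcases hlight with ⟨η₁, hη₁, hpen⟩ | ⟨hR, hposr⟩ | ⟨hR, hL⟩
        · have hpen' : ∀ n : ℕ, 1 ≤ n → penReturn P S φ η₁ (2 * n) =
              Kv C (fun z => -η₁ * φ z) (2 * n) 0 := fun n hn => by
            unfold penReturn
            exact Kv_eq_integral P C S hSC φ η₁ (by omega)
          have hpp : ∀ᶠ n : ℕ in atTop, 0 < penReturn P S φ η₁ (2 * n) := by
            filter_upwards [eventually_ge_atTop 1] with n hn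
            rw [hpen' n hn]
            exact Kv_even_pos C _ hn
          refine HG.polyA_of_one M hη₁ hU (fun ε hε => ?_)
          filter_upwards [bounds_of_loopTail hpp hpen hε, eventually_ge_atTop 1] with n hn hn1
          rw [hpen' n hn1] at hn
          exact hn.1
        · have hpos' : ∀ n : ℕ, 1 ≤ n → posReturn P S (2 * n) = C.p 0 1 * K0 C (2 * n - 1) 1 := by
            intro n hn
            obtain ⟨m, hm⟩ : ∃ m, 2 * n = m + 1 := ⟨2 * n - 1, by omega⟩
            rw [hm, posReturn_eq P C S hSC (by omega)]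
            rfl
          have hpp : ∀ᶠ n : ℕ in atTop, 0 < posReturn P S (2 * n) := by
            filter_upwards [eventually_ge_atTop 1] with n hn
            rw [hpos' n hn]
            have hKp : 0 < OT.Kp C n := OT.Kp_pos C hn
            exact hKp
          refine HG.light_one C hrecC ha hφ0 hΦ (vr_of_light C hR) (fun ε hε => ?_)
          filter_upwards [bounds_of_loopTail hpp hposr hε, eventually_ge_atTop 1] with n hn hn1
          rw [hpos' n hn1] at hn
          exact hn.1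
        · refine HG.light_two C hrecC ha hφ0 hΦ (vr_of_light C hR) (vr_of_light (cneg C) hL)
            (fun ε hε => ?_)
          filter_upwards [bounds_of_loopTail hKpos htail hε, eventually_ge_atTop 1] with n hn hn1
          rw [hret (2 * n) (by omega)] at hn
          exact hn.1
      refine loopTail_of_bounds (fun ε hε => ?_) (fun ε hε => ?_)
      · filter_upwards [hA hc hc0 ε hε, eventually_ge_atTop 1] with n hn hn1
        rw [hpen1 hc (2 * n) (by omega)]
        exact hn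
      · filter_upwards [hU ε hε, eventually_ge_atTop 1] with n hn hn1
        rw [hpen1 hc (2 * n) (by omega)]
        refine le_trans ?_ hn
        rw [← Kv_K0]
        exact Kv_mono C (fun z => by
          have := mul_nonneg hc0.le (hφ0 z)
          linarith) (2 * n) 0
    have hlowc : ∀ ε : ℝ, 0 < ε → ∀ᶠ n : ℕ in atTop,
        ((2 * n : ℕ) : ℝ) ^ (-(1 + a + ε)) ≤ Kv M.C (fun z => -hc * M.φ z) (2 * n) 0 := by
      intro ε hε
      filter_upwards [bounds_of_loopTail (hpp hc) htail' hε, eventually_ge_atTop 1] with n hn hn1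
      rw [hpen1 hc (2 * n) (by omega)] at hn
      exact hn.1
    have hUc : HG.KUW M a hc := by
      intro ε hε
      filter_upwards [bounds_of_loopTail (hpp hc) htail' hε, eventually_ge_atTop 1] with n hn hn1
      rw [hpen1 hc (2 * n) (by omega)] at hn
      exact hn.2
    refine ⟨?_, ?_⟩
    · intro ha0
      refine ⟨?_, ?_⟩
      swap
      · have hA0 : M.LowOne := by
          refine HG.lowOne_of_pen M hc0 fun ε hε => ?_
          have h1 := hlowc ε hε
          rw [ha0, add_zero] at h1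
          exact h1
        obtain ⟨hc', _, hcrit', hann, _⟩ := M.main hA0
        have hcc : hc' ≤ hc := by
          by_contra hcon
          push Not at hcon
          exact lt_irrefl _ ((hcrit hc).1 ((hcrit' hc).2 hcon))
        exact hannz fun a ha => hann hc hcc a ha
      by_cases hM : MomBdd P S μ φ β hc
      · obtain ⟨r, K, hr, hb⟩ := hMB hM
        have hs := HG.bdd_sum hr hb
        obtain ⟨u, hu, B, hB⟩ := HG.g_fin M hc0 hs (HG.bdd_ldec hr hb)
        refine hinf fun q hq => ?_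
        have hA' : ∀ ε : ℝ, 0 < ε → ∀ᶠ n : ℕ in atTop, ((2 * n : ℕ) : ℝ) ^
            (-(1 + 1 / (q + 1) + ε)) ≤ Kv M.C (fun z => -hc * M.φ z) (2 * n) 0 := by
          intro ε hε
          filter_upwards [hlowc ε hε, eventually_ge_atTop 1] with n hn hn1
          refine le_trans ?_ hn
          apply Real.rpow_le_rpow_of_exponent_le
          · exact_mod_cast (by omega : 1 ≤ 2 * n)
          · have : 0 < 1 / (q + 1) := by positivity
            linarith
        have h1 := HG.s_upper M (α := 1 / (q + 1)) (by positivity) hA' hu hB hs one_pos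
        have h2 : 1 / (1 / (q + 1)) - 1 = q := by
          rw [one_div_one_div]
          ring
        rw [h2] at h1
        exact extend hq M.Φ_pos.le hFΦ h1
      · exact hunb hM
    · intro ha0 hM
      obtain ⟨r, K, hr, hb⟩ := hMB hM
      refine ⟨HG.alpha_le_pen hlo hc0 hcrit hr hb hUc, ?_⟩
      exact exponent_of_bounds (G := fun δ => M.Fr (hc - δ))
        (fun ε hε => (HG.exact_pen hlo hc0 hcrit hr hb ha0 hlowc hUc hε).1)
        (fun ε hε => (HG.exact_pen hlo hc0 hcrit hr hb ha0 hlowc hUc hε).2)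
  · intro hup hcase
    have hpos' : ∀ n : ℕ, 1 ≤ n → posReturn P S (2 * n) = C.p 0 1 * K0 C (2 * n - 1) 1 := by
      intro n hn
      obtain ⟨m, hm⟩ : ∃ m, 2 * n = m + 1 := ⟨2 * n - 1, by omega⟩
      rw [hm, posReturn_eq P C S hSC (by omega)]
      rfl
    obtain ⟨C₀, hup'⟩ := hup
    have hupK : ∀ᶠ n : ℕ in atTop, K0 C (2 * n) 0 ≤ C₀ * ((2 * n : ℕ) : ℝ) ^ (-(3 / 2 : ℝ)) := by
      filter_upwards [hup', eventually_ge_atTop 1] with n hn hn1
      rw [hret (2 * n) (by omega)] at hn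
      exact hn
    obtain ⟨B₁, hB₁, hu1⟩ := HG.MTail.up_bound C hupK
    obtain ⟨B₂, hB₂, hu2⟩ := HG.MTail.up_bound (cneg C) (B := C₀)
      (by simpa only [HG.STail.cneg_K0] using hupK)
    have hF := HG.ftail_half C hu1
    have hF' := HG.ftail_half (cneg C) hu2
    have hfp : ∀ (D : Chain) (B : ℝ), 0 ≤ B →
        (∀ n : ℕ, 1 ≤ n → K0 D n 1 ≤ B * (n : ℝ) ^ (-(3 / 2 : ℝ))) →
        ∀ n : ℕ, 1 ≤ n → HZ.A24.fp D n ≤ max B₁ B₂ * (n : ℝ) ^ (-(3 / 2 : ℝ)) ∨ ¬ B ≤ max B₁ B₂ := by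
      intro D B hB h n hn
      by_cases hle : B ≤ max B₁ B₂
      · left
        have hn0 : (0 : ℝ) < n := by exact_mod_cast hn
        have h1 := h (2 * n + 1) (by omega)
        refine h1.trans ?_
        have h2 : ((2 * n + 1 : ℕ) : ℝ) ^ (-(3 / 2 : ℝ)) ≤ (n : ℝ) ^ (-(3 / 2 : ℝ)) := by
          refine Real.rpow_le_rpow_of_nonpos hn0 ?_ (by norm_num)
          push_cast
          linarith
        exact mul_le_mul hle h2 (Real.rpow_nonneg (Nat.cast_nonneg _) _) (hB.trans hle)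
      · right
        exact hle
    have hf1 : ∀ n : ℕ, 1 ≤ n → HZ.A24.fp C n ≤ max B₁ B₂ * (n : ℝ) ^ (-(3 / 2 : ℝ)) := fun n hn =>
      (hfp C B₁ hB₁ hu1 n hn).resolve_right (not_not.2 (le_max_left _ _))
    have hf2 : ∀ n : ℕ, 1 ≤ n → HZ.A24.fp (cneg C) n ≤ max B₁ B₂ * (n : ℝ) ^ (-(3 / 2 : ℝ)) :=
      fun n hn => (hfp (cneg C) B₂ hB₂ hu2 n hn).resolve_right (not_not.2 (le_max_right _ _))
    have hBm : 0 ≤ max B₁ B₂ := hB₁.trans (le_max_left _ _)
    -- an upper bound for all `n`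
    obtain ⟨B₃, hup3⟩ : ∃ B₃ : ℝ, ∀ n : ℕ, 1 ≤ n →
        K0 C (2 * n) 0 ≤ B₃ * (n : ℝ) ^ (-(3 / 2 : ℝ)) := by
      obtain ⟨N, hN⟩ := eventually_atTop.1 hupK
      refine ⟨|C₀| + (N : ℝ) ^ (3 / 2 : ℝ), fun n hn => ?_⟩
      have hn0 : (0 : ℝ) < n := by exact_mod_cast hn
      have hq : (0 : ℝ) < (n : ℝ) ^ (-(3 / 2 : ℝ)) := Real.rpow_pos_of_pos hn0 _
      rcases Nat.lt_or_ge n N with h2 | h2
      · have h3 : K0 C (2 * n) 0 ≤ 1 := by
          rw [← hret (2 * n) (by omega)]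
          unfold retProb
          exact ENNReal.toReal_le_of_le_ofReal zero_le_one (by
            rw [ENNReal.ofReal_one]; exact prob_le_one)
        have h4 : (1 : ℝ) ≤ (N : ℝ) ^ (3 / 2 : ℝ) * (n : ℝ) ^ (-(3 / 2 : ℝ)) := by
          rw [Real.rpow_neg hn0.le, ← div_eq_mul_inv, one_le_div (Real.rpow_pos_of_pos hn0 _)]
          exact Real.rpow_le_rpow hn0.le (by exact_mod_cast h2.le) (by norm_num)
        have h5 : 0 ≤ |C₀| * (n : ℝ) ^ (-(3 / 2 : ℝ)) := by positivity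
        rw [add_mul]
        linarith
      · refine (hN n h2).trans ?_
        have h3 : ((2 * n : ℕ) : ℝ) ^ (-(3 / 2 : ℝ)) ≤ (n : ℝ) ^ (-(3 / 2 : ℝ)) := by
          refine Real.rpow_le_rpow_of_nonpos hn0 ?_ (by norm_num)
          push_cast
          linarith
        have h4 : C₀ * ((2 * n : ℕ) : ℝ) ^ (-(3 / 2 : ℝ)) ≤ |C₀| * ((2 * n : ℕ) : ℝ) ^ (-(3 / 2 : ℝ)) :=
          mul_le_mul_of_nonneg_right (le_abs_self C₀) (Real.rpow_nonneg (Nat.cast_nonneg _) _)
        have h5 := mul_le_mul_of_nonneg_left h3 (abs_nonneg C₀)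
        have h6 : 0 ≤ (N : ℝ) ^ (3 / 2 : ℝ) * (n : ℝ) ^ (-(3 / 2 : ℝ)) := by positivity
        rw [add_mul]
        linarith
    -- the penalised excursions
    have hlow : ∀ t : ℝ, 0 < t → ∃ c' : ℝ, 0 < c' ∧ ∀ n : ℕ, 1 ≤ n →
        c' * (n : ℝ) ^ (-(3 / 2 : ℝ)) ≤ Kv C (fun z => -t * φ z) (2 * n) 0 := by
      intro t ht
      rcases hcase with ⟨η, hη, c, hc, hpen⟩ | ⟨hR, c, hc, hposr⟩ | ⟨hR, hL, c, hc, hretl⟩
      · obtain ⟨c₁, hc₁, h1⟩ := all_low (f := fun n => Kv C (fun z => -η * φ z) (2 * n) 0)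
          (fun n hn => Kv_even_pos C _ hn) hc (by
            filter_upwards [hpen, eventually_ge_atTop 1] with n hn hn1
            refine hn.trans (le_of_eq ?_)
            unfold penReturn
            exact Kv_eq_integral P C S hSC φ η (by omega))
        exact HG.pen_all C hφ0 hη hc₁ h1 hup3 ht
      · obtain ⟨c', B', hc', hg1, hg2, _, _⟩ := HG.half_data C (c := c) (B := C₀) hc
          (by
            filter_upwards [hposr, eventually_ge_atTop 1] with n hn hn1
            rw [hpos' n hn1] at hn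
            exact hn) hupK
        exact HG.pen_half C hrecC hφ0 hΦ (vr_of_light C hR) hc' hg1 hg2 ht.le
      · obtain ⟨c₁, hc₁, h1⟩ := all_low (f := fun n => K0 C (2 * n) 0)
          (fun n hn => by rw [← Kv_K0]; exact Kv_even_pos C _ hn) hc (by
            filter_upwards [hretl, eventually_ge_atTop 1] with n hn hn1
            rw [hret (2 * n) (by omega)] at hn
            exact hn)
        exact HG.pen_two C hrecC hφ0 (vr_of_light C hR) (vr_of_light (cneg C) hL) hc₁ hBm h1 hf1 hf2 ht.le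
    have hU : HG.Unbd M hc := HG.marg_unbd2 M hc0 hcrit hF hF' hup3 hlow
    refine hinf fun q hq => ?_
    obtain ⟨K, hK⟩ := HG.infOrd_of_unbd M hlo hc0 hcrit hU q hq
    exact ⟨K, fun δ h0 h1 => hK δ h0.le h1⟩

end

end Pool.Agent.HGO
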