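import Pool.Agent.Lib.MP_daa227_pr_HG.QDef

/-!
# MP_daa227_pr, project Q: the chain exists
-/

namespace Pool.Agent.HG

open MeasureTheory ProbabilityTheory Finset Filter Topology
open MP_daa227_pr (Chain Zk Zf Gk Gf KU K0 Ren shift seqLaw ExpMom DepOn Good GoodW mom)
open Pool.Agent.HZ (Mod Kv lmg)

noncomputable section

/-- `ρ 0 = 1`, `ρ y = ε (y+1)^(2α-1) / (log (y+3))^2` for `y ≥ 1` -/
def rhoQ (α ε : ℝ) (n : ℕ) : ℝ :=
  if n = 0 then 1 else ε * ((n : ℝ) + 1) ^ (2 * α - 1) / Real.log ((n : ℝ) + 3) ^ 2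

/-- transition probabilities: on `x ≥ 1` up with probability `ρ (x-1) / (ρ (x-1) + ρ x)`, on `x ≤
0` up with probability `1 - δ` -/
def pQ (α ε δ : ℝ) (x y : ℤ) : ℝ :=
  if 0 < x then
    (if y = x + 1 then rhoQ α ε (x - 1).toNat / (rhoQ α ε (x - 1).toNat + rhoQ α ε x.toNat)
      else if y = x - 1 then rhoQ α ε x.toNat / (rhoQ α ε (x - 1).toNat + rhoQ α ε x.toNat)
      else 0)
  else (if y = x + 1 then 1 - δ else if y = x - 1 then δ else 0)

namespace QCh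

/-- `x ↦ (1 + 1/x)^(2α-1) (log (x+2) / log (x+3))²` -/
def tt (α x : ℝ) : ℝ := (1 + x⁻¹) ^ (2 * α - 1) * (Real.log (x + 2) / Real.log (x + 3)) ^ 2

variable {α ε δ : ℝ}

theorem log_pos' (n : ℕ) : 0 < Real.log ((n : ℝ) + 3) := by
  have h := Nat.cast_nonneg (α := ℝ) n
  exact Real.log_pos (by linarith)

theorem one_le_log {y : ℝ} (hy : 4 ≤ y) : 1 ≤ Real.log y := by
  rw [Real.le_log_iff_exp_le (by linarith)]
  have := Real.exp_one_lt_d9
  linarith

theorem rpos (hε : 0 < ε) (n : ℕ) : 0 < rhoQ α ε n := by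
  unfold rhoQ
  split_ifs with h
  · exact one_pos
  · have h1 := log_pos' n
    have h2 : (0 : ℝ) < (n : ℝ) + 1 := by positivity
    exact div_pos (mul_pos hε (Real.rpow_pos_of_pos h2 _)) (pow_pos h1 2)

theorem rho_of_pos {n : ℕ} (hn : 1 ≤ n) :
    rhoQ α ε n = ε * ((n : ℝ) + 1) ^ (2 * α - 1) / Real.log ((n : ℝ) + 3) ^ 2 := by
  unfold rhoQ
  rw [if_neg (by omega)]

theorem rho_succ {n : ℕ} (hn : 1 ≤ n) : rhoQ α ε (n + 1) = tt α ((n : ℝ) + 1) * rhoQ α ε n := by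
  rw [rho_of_pos hn, rho_of_pos (by omega)]
  unfold tt
  have h0 := Nat.cast_nonneg (α := ℝ) n
  have h1 : (0 : ℝ) < (n : ℝ) + 1 := by linarith
  have h2 : (0 : ℝ) < (n : ℝ) + 2 := by linarith
  have e1 : (1 : ℝ) + ((n : ℝ) + 1)⁻¹ = ((n : ℝ) + 2) / ((n : ℝ) + 1) := by
    field_simp
    ring
  have e2 : (n : ℝ) + 1 + 2 = (n : ℝ) + 3 := by ring
  have e3 : (n : ℝ) + 1 + 3 = (n : ℝ) + 4 := by ring
  have e4 : ((n + 1 : ℕ) : ℝ) + 1 = (n : ℝ) + 2 := by push_cast; ring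
  have e5 : ((n + 1 : ℕ) : ℝ) + 3 = (n : ℝ) + 4 := by push_cast; ring
  rw [e1, e2, e3, e4, e5, Real.div_rpow h2.le h1.le]
  have h3 : Real.log ((n : ℝ) + 3) ≠ 0 := (log_pos' n).ne'
  have h4 : Real.log ((n : ℝ) + 4) ≠ 0 := (Real.log_pos (by linarith)).ne'
  have h5 : ((n : ℝ) + 1) ^ (2 * α - 1) ≠ 0 := (Real.rpow_pos_of_pos h1 _).ne'
  field_simp

theorem rho_one_le (hα2 : α ≤ 1 / 2) (hε : 0 < ε) {n : ℕ} (hn : 1 ≤ n) :
    rhoQ α ε n ≤ ε / Real.log ((n : ℝ) + 3) ^ 2 := by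
  rw [rho_of_pos hn]
  have h0 := Nat.cast_nonneg (α := ℝ) n
  have h1 : ((n : ℝ) + 1) ^ (2 * α - 1) ≤ 1 :=
    Real.rpow_le_one_of_one_le_of_nonpos (by linarith) (by linarith)
  have h2 := log_pos' n
  refine div_le_div_of_nonneg_right ?_ (by positivity)
  calc ε * ((n : ℝ) + 1) ^ (2 * α - 1) ≤ ε * 1 := mul_le_mul_of_nonneg_left h1 hε.le
    _ = ε := mul_one ε

theorem tt_pos (α : ℝ) {x : ℝ} (hx : 0 < x) : 0 < tt α x := by
  unfold tt
  have h1 : 0 < 1 + x⁻¹ := by positivity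
  have h2 : 0 < Real.log (x + 2) := Real.log_pos (by linarith)
  have h3 : 0 < Real.log (x + 3) := Real.log_pos (by linarith)
  exact mul_pos (Real.rpow_pos_of_pos h1 _) (pow_pos (div_pos h2 h3) 2)

theorem tt_le_one (hα2 : α ≤ 1 / 2) {x : ℝ} (hx : 0 < x) : tt α x ≤ 1 := by
  unfold tt
  have h1 : (1 + x⁻¹) ^ (2 * α - 1) ≤ 1 := by
    refine Real.rpow_le_one_of_one_le_of_nonpos ?_ (by linarith)
    have : 0 < x⁻¹ := by positivity
    linarith
  have h2 : 0 < Real.log (x + 2) := Real.log_pos (by linarith)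
  have h3 : 0 < Real.log (x + 3) := Real.log_pos (by linarith)
  have h4 : Real.log (x + 2) / Real.log (x + 3) ≤ 1 := by
    rw [div_le_one h3]
    exact Real.log_le_log (by linarith) (by linarith)
  have h5 : (Real.log (x + 2) / Real.log (x + 3)) ^ 2 ≤ 1 :=
    pow_le_one₀ (div_pos h2 h3).le h4
  exact mul_le_one₀ h1 (by positivity) h5

theorem rho_anti (hα2 : α ≤ 1 / 2) (hε : 0 < ε) (hε1 : ε ≤ 1) (n : ℕ) :
    rhoQ α ε (n + 1) ≤ rhoQ α ε n := by
  rcases Nat.eq_zero_or_pos n with h | h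
  · subst h
    have h0 : rhoQ α ε 0 = 1 := by
      unfold rhoQ
      rw [if_pos rfl]
    rw [h0]
    refine (rho_one_le hα2 hε (by omega)).trans ?_
    have h1 : 1 ≤ Real.log (((0 + 1 : ℕ) : ℝ) + 3) := one_le_log (by norm_num)
    rw [div_le_one (by positivity)]
    exact hε1.trans (one_le_pow₀ h1)
  · rw [rho_succ h]
    have h1 : (0 : ℝ) < (n : ℝ) + 1 := by positivity
    calc tt α ((n : ℝ) + 1) * rhoQ α ε n ≤ 1 * rhoQ α ε n :=
          mul_le_mul_of_nonneg_right (tt_le_one hα2 h1) (rpos hε n).le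
      _ = rhoQ α ε n := one_mul _

theorem rho_ge (hα : 0 < α) (hα2 : α ≤ 1 / 2) (hε : 0 < ε) (hε1 : ε ≤ 1) (n : ℕ) :
    ε * α ^ 2 / 3 * (1 / ((n : ℝ) + 1)) ≤ rhoQ α ε n := by
  have hx : (0 : ℝ) < (n : ℝ) + 1 := by positivity
  rcases Nat.eq_zero_or_pos n with h | h
  · subst h
    have h0 : rhoQ α ε 0 = 1 := by
      unfold rhoQ
      rw [if_pos rfl]
    rw [h0]
    have h1 : α ^ 2 ≤ 1 := pow_le_one₀ hα.le (by linarith)
    have h2 : ε * α ^ 2 ≤ 1 := mul_le_one₀ hε1 (by positivity) h1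
    push_cast
    linarith
  · rw [rho_of_pos h]
    have h0 := Nat.cast_nonneg (α := ℝ) n
    have hl := log_pos' n
    have h3 : (0 : ℝ) < (n : ℝ) + 3 := by linarith
    have h4 : Real.log ((n : ℝ) + 3) ≤ ((n : ℝ) + 3) ^ α / α :=
      Real.log_le_rpow_div h3.le hα
    have h5 : Real.log ((n : ℝ) + 3) ^ 2 ≤ 3 * ((n : ℝ) + 1) ^ (2 * α) / α ^ 2 := by
      calc Real.log ((n : ℝ) + 3) ^ 2 ≤ (((n : ℝ) + 3) ^ α / α) ^ 2 :=
            pow_le_pow_left₀ hl.le h4 2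
        _ = ((n : ℝ) + 3) ^ (2 * α) / α ^ 2 := by
            rw [div_pow, ← Real.rpow_natCast, ← Real.rpow_mul h3.le]
            congr 2
            push_cast
            ring
        _ ≤ 3 * ((n : ℝ) + 1) ^ (2 * α) / α ^ 2 := by
            refine div_le_div_of_nonneg_right ?_ (by positivity)
            calc ((n : ℝ) + 3) ^ (2 * α) ≤ (3 * ((n : ℝ) + 1)) ^ (2 * α) :=
                  Real.rpow_le_rpow h3.le (by linarith) (by linarith)
              _ = 3 ^ (2 * α) * ((n : ℝ) + 1) ^ (2 * α) := Real.mul_rpow (by norm_num) hx.le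
              _ ≤ 3 * ((n : ℝ) + 1) ^ (2 * α) := by
                  refine mul_le_mul_of_nonneg_right ?_ (Real.rpow_nonneg hx.le _)
                  calc (3 : ℝ) ^ (2 * α) ≤ 3 ^ (1 : ℝ) :=
                        Real.rpow_le_rpow_of_exponent_le (by norm_num) (by linarith)
                    _ = 3 := Real.rpow_one 3
    have h6 : ((n : ℝ) + 1) ^ (2 * α - 1) = ((n : ℝ) + 1) ^ (2 * α) / ((n : ℝ) + 1) := by
      rw [Real.rpow_sub hx, Real.rpow_one]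
    have h7 : 0 < ((n : ℝ) + 1) ^ (2 * α) := Real.rpow_pos_of_pos hx _
    rw [le_div_iff₀ (by positivity), h6]
    calc ε * α ^ 2 / 3 * (1 / ((n : ℝ) + 1)) * Real.log ((n : ℝ) + 3) ^ 2
        ≤ ε * α ^ 2 / 3 * (1 / ((n : ℝ) + 1)) * (3 * ((n : ℝ) + 1) ^ (2 * α) / α ^ 2) :=
          mul_le_mul_of_nonneg_left h5 (by positivity)
      _ = ε * (((n : ℝ) + 1) ^ (2 * α) / ((n : ℝ) + 1)) := by
          field_simp

theorem rho_div (hα : 0 < α) (hα2 : α ≤ 1 / 2) (hε : 0 < ε) (hε1 : ε ≤ 1) :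
    Tendsto (fun N : ℕ => ∑ n ∈ range N, rhoQ α ε n) atTop atTop := by
  have h1 := Real.tendsto_sum_range_one_div_nat_succ_atTop
  have h2 : Tendsto (fun N : ℕ => ε * α ^ 2 / 3 * ∑ n ∈ range N, (1 / ((n : ℝ) + 1)))
      atTop atTop := h1.const_mul_atTop (by positivity)
  refine tendsto_atTop_mono (fun N => ?_) h2
  rw [mul_sum]
  exact sum_le_sum fun n _ => rho_ge hα hα2 hε hε1 n

/-! the transition probabilities -/

theorem pQ_up (n : ℕ) : pQ α ε δ ((n : ℤ) + 1) ((n : ℤ) + 2) =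
    rhoQ α ε n / (rhoQ α ε n + rhoQ α ε (n + 1)) := by
  unfold pQ
  have e1 : ((n : ℤ) + 1 - 1).toNat = n := by omega
  have e2 : ((n : ℤ) + 1).toNat = n + 1 := by omega
  rw [if_pos (by omega), if_pos (by ring), e1, e2]

theorem pQ_dn (n : ℕ) : pQ α ε δ ((n : ℤ) + 1) (n : ℤ) =
    rhoQ α ε (n + 1) / (rhoQ α ε n + rhoQ α ε (n + 1)) := by
  unfold pQ
  have e1 : ((n : ℤ) + 1 - 1).toNat = n := by omega
  have e2 : ((n : ℤ) + 1).toNat = n + 1 := by omega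
  rw [if_pos (by omega), if_neg (by omega), if_pos (by ring), e1, e2]

theorem pQ_lu {x : ℤ} (hx : x ≤ 0) : pQ α ε δ x (x + 1) = 1 - δ := by
  unfold pQ
  rw [if_neg (by omega), if_pos rfl]

theorem pQ_ld {x : ℤ} (hx : x ≤ 0) : pQ α ε δ x (x - 1) = δ := by
  unfold pQ
  rw [if_neg (by omega), if_neg (by omega), if_pos rfl]

theorem pQ_zero {x y : ℤ} (h1 : y ≠ x + 1) (h2 : y ≠ x - 1) : pQ α ε δ x y = 0 := by
  unfold pQ
  split_ifs <;> rfl

theorem pQ_pos (hε : 0 < ε) (hδ : 0 < δ) (hδ1 : δ < 1) (x : ℤ) :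
    0 < pQ α ε δ x (x + 1) ∧ 0 < pQ α ε δ x (x - 1) ∧
      pQ α ε δ x (x - 1) + pQ α ε δ x (x + 1) = 1 := by
  rcases le_or_gt x 0 with hx | hx
  · rw [pQ_lu hx, pQ_ld hx]
    exact ⟨by linarith, hδ, by ring⟩
  · obtain ⟨n, rfl⟩ : ∃ n : ℕ, x = (n : ℤ) + 1 := ⟨(x - 1).toNat, by omega⟩
    have e1 : (n : ℤ) + 1 + 1 = (n : ℤ) + 2 := by ring
    have e2 : (n : ℤ) + 1 - 1 = (n : ℤ) := by ring
    rw [e1, e2, pQ_up, pQ_dn]
    have h1 := rpos (α := α) hε n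
    have h2 := rpos (α := α) hε (n + 1)
    refine ⟨by positivity, by positivity, ?_⟩
    rw [← add_div, add_comm, div_self (by positivity)]

theorem Icc3 (x : ℤ) : Finset.Icc (x - 1) (x + 1) = {x - 1, x, x + 1} := by
  ext y
  simp only [Finset.mem_Icc, Finset.mem_insert, Finset.mem_singleton]
  omega

/-- the chain -/
def ch (α : ℝ) {ε δ : ℝ} (hε : 0 < ε) (hδ : 0 < δ) (hδ1 : δ < 1) : Chain where
  p := pQ α ε δ
  nonneg x y := by
    by_cases h1 : y = x + 1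
    · rw [h1]
      exact (pQ_pos hε hδ hδ1 x).1.le
    · by_cases h2 : y = x - 1
      · rw [h2]
        exact (pQ_pos hε hδ hδ1 x).2.1.le
      · rw [pQ_zero h1 h2]
  near x y h := by
    rw [Finset.mem_Icc] at h
    exact pQ_zero (by omega) (by omega)
  sum_one x := by
    rw [Icc3, Finset.sum_insert, Finset.sum_insert, Finset.sum_singleton,
      pQ_zero (x := x) (y := x) (by omega) (by omega), zero_add]
    · exact (pQ_pos hε hδ hδ1 x).2.2
    · simp only [Finset.mem_singleton]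
      omega
    · simp only [Finset.mem_insert, Finset.mem_singleton]
      omega
  up x := (pQ_pos hε hδ hδ1 x).1
  down x := (pQ_pos hε hδ hδ1 x).2.1

/-! the drift -/

theorem diff_eq (hε : 0 < ε) {n : ℕ} (hn : 1 ≤ n) :
    pQ α ε δ ((n : ℤ) + 1) ((n : ℤ) + 2) - pQ α ε δ ((n : ℤ) + 1) n =
      (1 - tt α ((n : ℝ) + 1)) / (1 + tt α ((n : ℝ) + 1)) := by
  have h1 := rpos (α := α) hε n
  have h2 := tt_pos α (x := (n : ℝ) + 1) (by positivity)
  rw [pQ_up, pQ_dn, rho_succ hn, ← sub_div]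
  rw [div_eq_div_iff (by positivity) (by positivity)]
  ring

theorem tt_ge (hα : 0 < α) (hα2 : α ≤ 1 / 2) {x : ℝ} (hx : 2 ≤ x) :
    1 ≤ tt α x * (1 + x⁻¹) ^ 3 := by
  have hx0 : 0 < x := by linarith
  have h1 : 0 < 1 + x⁻¹ := by positivity
  have h11 : 1 ≤ 1 + x⁻¹ := by
    have : 0 < x⁻¹ := by positivity
    linarith
  have h2 : 0 < Real.log (x + 2) := Real.log_pos (by linarith)
  have h3 : 0 < Real.log (x + 3) := Real.log_pos (by linarith)
  have h4 : 1 ≤ Real.log (x + 2) := one_le_log (by linarith)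
  -- `log (x+3) ≤ (1 + 1/x) log (x+2)`
  have h5 : Real.log (x + 3) ≤ (1 + x⁻¹) * Real.log (x + 2) := by
    have h6 : Real.log (x + 3) - Real.log (x + 2) ≤ x⁻¹ := by
      rw [← Real.log_div (by linarith) (by linarith)]
      refine (Real.log_le_sub_one_of_pos (by positivity)).trans ?_
      have h7 : (x + 3) / (x + 2) - 1 = (x + 2)⁻¹ := by
        field_simp
        ring
      rw [h7]
      exact inv_anti₀ hx0 (by linarith)
    have h8 : 0 < x⁻¹ := by positivity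
    nlinarith
  have h9 : 1 ≤ (Real.log (x + 2) / Real.log (x + 3)) * (1 + x⁻¹) := by
    rw [div_mul_eq_mul_div, le_div_iff₀ h3, one_mul]
    linarith
  have h10 : 1 ≤ (1 + x⁻¹) ^ (2 * α - 1) * (1 + x⁻¹) := by
    have h12 : (1 + x⁻¹) ^ (2 * α - 1) * (1 + x⁻¹) = (1 + x⁻¹) ^ (2 * α) := by
      rw [Real.rpow_sub h1, Real.rpow_one]
      field_simp
    rw [h12]
    exact Real.one_le_rpow h11 (by linarith)
  have h13 : tt α x * (1 + x⁻¹) ^ 3 = ((1 + x⁻¹) ^ (2 * α - 1) * (1 + x⁻¹)) *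
      ((Real.log (x + 2) / Real.log (x + 3)) * (1 + x⁻¹)) ^ 2 := by
    unfold tt
    ring
  rw [h13]
  exact one_le_mul_of_one_le_of_one_le h10 (one_le_pow₀ h9)

theorem dr_bd (hα : 0 < α) (hα2 : α ≤ 1 / 2) {x : ℝ} (hx : 2 ≤ x) :
    x * ((1 - tt α x) / (1 + tt α x)) ≤ 7 := by
  have hx0 : 0 < x := by linarith
  have h1 := tt_ge hα hα2 hx
  have h2 := tt_pos α hx0
  have h3 : (1 + x⁻¹) ^ 3 ≤ 1 + 7 * x⁻¹ := by
    have h4 : 0 < x⁻¹ := by positivity
    have h5 : x⁻¹ ≤ 1 := inv_le_one_of_one_le₀ (by linarith)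
    have h6 : x⁻¹ ^ 2 ≤ x⁻¹ := by nlinarith
    have h7 : x⁻¹ ^ 3 ≤ x⁻¹ := by
      calc x⁻¹ ^ 3 = x⁻¹ ^ 2 * x⁻¹ := by ring
        _ ≤ x⁻¹ * 1 := by nlinarith
        _ = x⁻¹ := mul_one _
    nlinarith
  have h8 : 1 ≤ tt α x * (1 + 7 * x⁻¹) := h1.trans (mul_le_mul_of_nonneg_left h3 h2.le)
  have h9 : x ≤ tt α x * (x + 7) := by
    have h10 := mul_le_mul_of_nonneg_left h8 hx0.le
    have h11 : x * (tt α x * (1 + 7 * x⁻¹)) = tt α x * (x + 7) := by
      field_simp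
    rw [h11, mul_one] at h10
    exact h10
  rw [mul_div_assoc', div_le_iff₀ (by positivity)]
  nlinarith

theorem dr_le (hα : 0 < α) (hα2 : α ≤ 1 / 2) (hε : 0 < ε) (n : ℕ) :
    ((n : ℝ) + 1) * (pQ α ε δ ((n : ℤ) + 1) ((n : ℤ) + 2) - pQ α ε δ ((n : ℤ) + 1) n) ≤ 7 := by
  rcases Nat.eq_zero_or_pos n with h | h
  · subst h
    have h1 := rpos (α := α) hε 0
    have h2 := rpos (α := α) hε (0 + 1)
    have h3 : pQ α ε δ (((0 : ℕ) : ℤ) + 1) (((0 : ℕ) : ℤ) + 2) ≤ 1 := by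
      rw [pQ_up, div_le_one (by positivity)]
      linarith
    have h4 : 0 ≤ pQ α ε δ (((0 : ℕ) : ℤ) + 1) ((0 : ℕ) : ℤ) := by
      rw [pQ_dn]
      positivity
    push_cast at *
    linarith
  · rw [diff_eq hε h]
    refine dr_bd hα hα2 ?_
    have : (1 : ℝ) ≤ n := by exact_mod_cast h
    linarith

theorem lim_a (s : ℝ) : Tendsto (fun x : ℝ => x * ((1 + x⁻¹) ^ s - 1)) atTop (𝓝 s) := by
  have h1 : HasDerivAt (fun y : ℝ => y ^ s) s 1 := by
    have h2 := Real.hasDerivAt_rpow_const (x := 1) (p := s) (Or.inl one_ne_zero)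
    simpa using h2
  have h3 := h1.tendsto_slope_zero
  have h4 : Tendsto (fun x : ℝ => x⁻¹) atTop (𝓝[≠] 0) :=
    tendsto_inv_atTop_nhdsGT_zero.mono_right (nhdsGT_le_nhdsNE _)
  have h5 := h3.comp h4
  refine h5.congr fun x => ?_
  simp only [Function.comp, smul_eq_mul, inv_inv, Real.one_rpow]

theorem lim_b : Tendsto (fun x : ℝ => x * (1 - Real.log (x + 2) / Real.log (x + 3))) atTop
    (𝓝 0) := by
  have h1 : Tendsto (fun x : ℝ => (Real.log (x + 3))⁻¹) atTop (𝓝 0) :=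
    (Real.tendsto_log_atTop.comp (tendsto_atTop_add_const_right _ _ tendsto_id)).inv_tendsto_atTop
  refine squeeze_zero' ?_ ?_ h1
  · filter_upwards [eventually_gt_atTop 0] with x hx
    have h3 : 0 < Real.log (x + 3) := Real.log_pos (by linarith)
    have h4 : Real.log (x + 2) / Real.log (x + 3) ≤ 1 := by
      rw [div_le_one h3]
      exact Real.log_le_log (by linarith) (by linarith)
    exact mul_nonneg hx.le (by linarith)
  · filter_upwards [eventually_gt_atTop 0] with x hx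
    have h3 : 0 < Real.log (x + 3) := Real.log_pos (by linarith)
    have h6 : Real.log (x + 3) - Real.log (x + 2) ≤ x⁻¹ := by
      rw [← Real.log_div (by linarith) (by linarith)]
      refine (Real.log_le_sub_one_of_pos (by positivity)).trans ?_
      have h7 : (x + 3) / (x + 2) - 1 = (x + 2)⁻¹ := by
        field_simp
        ring
      rw [h7]
      exact inv_anti₀ hx (by linarith)
    have h8 : x * (1 - Real.log (x + 2) / Real.log (x + 3)) =
        x * (Real.log (x + 3) - Real.log (x + 2)) * (Real.log (x + 3))⁻¹ := by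
      field_simp
    rw [h8]
    have h9 : x * (Real.log (x + 3) - Real.log (x + 2)) ≤ 1 := by
      calc x * (Real.log (x + 3) - Real.log (x + 2)) ≤ x * x⁻¹ :=
            mul_le_mul_of_nonneg_left h6 hx.le
        _ = 1 := mul_inv_cancel₀ hx.ne'
    calc x * (Real.log (x + 3) - Real.log (x + 2)) * (Real.log (x + 3))⁻¹
        ≤ 1 * (Real.log (x + 3))⁻¹ := mul_le_mul_of_nonneg_right h9 (by positivity)
      _ = (Real.log (x + 3))⁻¹ := one_mul _

/-- `x (f x - c) → l` gives `f x → c` -/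
theorem lim_of_mul {f : ℝ → ℝ} {l c : ℝ} (h : Tendsto (fun x : ℝ => x * (f x - c)) atTop (𝓝 l)) :
    Tendsto f atTop (𝓝 c) := by
  have h1 : Tendsto (fun x : ℝ => x⁻¹ * (x * (f x - c))) atTop (𝓝 (0 * l)) :=
    tendsto_inv_atTop_zero.mul h
  rw [zero_mul] at h1
  have h2 := h1.add_const c
  rw [zero_add] at h2
  refine h2.congr' ?_
  filter_upwards [eventually_gt_atTop 0] with x hx
  field_simp
  ring

theorem lim_tt (α : ℝ) : Tendsto (fun x : ℝ => x * ((1 - tt α x) / (1 + tt α x))) atTop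
    (𝓝 (1 / 2 - α)) := by
  have ha := lim_a (2 * α - 1)
  have hb := lim_b
  have ha1 : Tendsto (fun x : ℝ => (1 + x⁻¹) ^ (2 * α - 1)) atTop (𝓝 1) := lim_of_mul ha
  have hb' : Tendsto (fun x : ℝ => x * (Real.log (x + 2) / Real.log (x + 3) - 1)) atTop
      (𝓝 (-0)) := by
    refine hb.neg.congr fun x => ?_
    ring
  have hb1 : Tendsto (fun x : ℝ => Real.log (x + 2) / Real.log (x + 3)) atTop (𝓝 1) :=
    lim_of_mul hb'
  have ht : Tendsto (fun x : ℝ => tt α x) atTop (𝓝 (1 * 1 ^ 2)) := ha1.mul (hb1.pow 2)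
  have hx : Tendsto (fun x : ℝ => x * (1 - tt α x)) atTop
      (𝓝 (-(2 * α - 1) + 1 * (0 * (1 + 1)))) := by
    refine (ha.neg.add (ha1.mul (hb.mul (hb1.const_add 1)))).congr fun x => ?_
    unfold tt
    ring
  have hF := hx.div (ht.const_add 1) (by norm_num)
  have e1 : (-(2 * α - 1) + 1 * (0 * (1 + 1))) / (1 + 1 * 1 ^ 2) = 1 / 2 - α := by ring
  rw [e1] at hF
  refine hF.congr fun x => ?_
  simp only [Pi.div_apply]
  ring

theorem dr_lim (hε : 0 < ε) : Tendsto (fun x : ℤ => (x : ℝ) * (pQ α ε δ x (x + 1) -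
    pQ α ε δ x (x - 1))) atTop (𝓝 (1 / 2 - α)) := by
  have h1 := (lim_tt α).comp tendsto_intCast_atTop_atTop
  refine h1.congr' ?_
  filter_upwards [eventually_ge_atTop (2 : ℤ)] with x hx
  obtain ⟨n, rfl⟩ : ∃ n : ℕ, x = (n : ℤ) + 1 := ⟨(x - 1).toNat, by omega⟩
  have e1 : (n : ℤ) + 1 + 1 = (n : ℤ) + 2 := by ring
  have e2 : (n : ℤ) + 1 - 1 = (n : ℤ) := by ring
  rw [e1, e2, diff_eq hε (by omega)]
  simp only [Function.comp]
  push_cast
  rfl

end QCh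

/-- The chain with the transition probabilities `pQ` has all the properties (`C.p x y` is `0`
unless `y = x + 1` or `y = x - 1`). `rho_anti`: `2α - 1 ≤ 0`, and `ρ 1 ≤ ε ≤ 1` as `log 4 ≥ 1`.
`rho_div`: for `n ≥ 1` `ρ n ≥ ε c / (n+1)` for some `c > 0`, as `(log (n+3))² ≤ C (n+1)^(2α)`.
`rel`: `p ρ x = q ρ (x-1)` by definition. `dr`: `p - q = (1 - t) / (1 + t)`, `t = ρ x / ρ (x-1) =
(1 + 1/x)^(2α-1) (log (x+2) / log (x+3))²` for `x ≥ 2`, and `x (1 - t) → 1 - 2α` (`x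
((1+1/x)^(2α-1) - 1) → 2α - 1`, `x (1 - log (x+2) / log (x+3)) → 0`), `t → 1`. `dr_le`: for `n =
0` the left side is at most `1`; for `x = n + 1 ≥ 2` let `r = 1/t = (1+1/x)^(1-2α) (log (x+3) /
log (x+2))² ≤ (1 + 1/x) (1 + 1/x)² ≤ 1 + 7/x`, and `p - q = (r - 1) / (r + 1) ≤ 7 / x`. -/
theorem exists_qc {α ε δ : ℝ} (hα : 0 < α) (hα2 : α ≤ 1 / 2) (hε : 0 < ε) (hε1 : ε ≤ 1)
    (hδ : 0 < δ) (hδ1 : δ < 1) : ∃ (C : Chain) (ρ : ℕ → ℝ), QC C ρ α ε δ := by
  refine ⟨QCh.ch α hε hδ hδ1, rhoQ α ε, ?_⟩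
  exact
    { nl := fun x => QCh.pQ_zero (by omega) (by omega)
      left_up := fun x hx => QCh.pQ_lu hx
      left_dn := fun x hx => QCh.pQ_ld hx
      rho_zero := by
        unfold rhoQ
        rw [if_pos rfl]
      rho_pos := QCh.rpos hε
      rho_anti := QCh.rho_anti hα2 hε hε1
      rho_le := fun n hn => QCh.rho_one_le hα2 hε hn
      rho_div := QCh.rho_div hα hα2 hε hε1
      rel := fun n => by
        change pQ α ε δ ((n : ℤ) + 1) ((n : ℤ) + 2) * _ = pQ α ε δ ((n : ℤ) + 1) n * _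
        rw [QCh.pQ_up, QCh.pQ_dn]
        ring
      dr_le := fun n => QCh.dr_le hα hα2 hε n
      dr := QCh.dr_lim hε }

end

end Pool.Agent.HG
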