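import Pool.Agent.Lib.MP_daa227_pr_HG.QDef

/-!
# MP_daa227_pr, project Q: the weighted Green function of the left half line
-/

namespace Pool.Agent.HG

open MeasureTheory ProbabilityTheory Finset Filter Topology
open MP_daa227_pr (Chain Zk Zf Gk Gf KU K0 Ren shift seqLaw ExpMom DepOn Good GoodW mom)
open Pool.Agent.HZ (Mod Kv lmg)

noncomputable section

namespace QLeft

/-- the contribution of the paths which stay strictly to the left of `0` -/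
def L (A δ : ℝ) : ℕ → ℤ → ℝ
  | 0, x => if x < 0 then A ^ x.natAbs else 0
  | n + 1, x => if x < 0 then (1 - δ) * L A δ n (x + 1) + δ * L A δ n (x - 1) else 0

/-- the contribution of the paths from `0` which stay strictly to the left of `0` later -/
def l (A δ : ℝ) : ℕ → ℝ
  | 0 => 1
  | n + 1 => δ * L A δ n (-1)

theorem L_zero_of {A δ : ℝ} (n : ℕ) {x : ℤ} (hx : ¬ x < 0) : L A δ n x = 0 := by
  cases n with
  | zero => rw [L, if_neg hx]
  | succ n => rw [L, if_neg hx]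

theorem icc3 (x : ℤ) (g : ℤ → ℝ) :
    ∑ z ∈ Finset.Icc (x - 1) (x + 1), g z = g (x - 1) + g x + g (x + 1) := by
  have h : Finset.Icc (x - 1) (x + 1) = {x - 1, x, x + 1} := by
    ext z
    simp only [Finset.mem_Icc, Finset.mem_insert, Finset.mem_singleton]
    omega
  rw [h, Finset.sum_insert (by simp only [Finset.mem_insert, Finset.mem_singleton]; omega),
    Finset.sum_insert (by simp only [Finset.mem_singleton]; omega), Finset.sum_singleton]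
  ring

theorem step {C : Chain} {δ : ℝ} (hnl : ∀ x, C.p x x = 0)
    (hup : ∀ x : ℤ, x ≤ 0 → C.p x (x + 1) = 1 - δ) (hdn : ∀ x : ℤ, x ≤ 0 → C.p x (x - 1) = δ)
    {x : ℤ} (hx : x ≤ 0) (g : ℤ → ℝ) :
    ∑ z ∈ Finset.Icc (x - 1) (x + 1), C.p x z * Real.exp 0 * g z =
      (1 - δ) * g (x + 1) + δ * g (x - 1) := by
  rw [icc3, hnl, hup x hx, hdn x hx, Real.exp_zero]
  ring

theorem fn_dec {C : Chain} {δ : ℝ} (A : ℝ) (hnl : ∀ x, C.p x x = 0)
    (hup : ∀ x : ℤ, x ≤ 0 → C.p x (x + 1) = 1 - δ) (hdn : ∀ x : ℤ, x ≤ 0 → C.p x (x - 1) = δ)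
    (n : ℕ) (x : ℤ) : Fn C (fun _ => 0) (fun z => copP z * wA A z) n x =
      ∑ k ∈ range (n + 1), HZ.Zd C (fun _ => 0) (n - k) x 0 * l A δ k + L A δ n x := by
  have hz0 : ∀ x : ℤ, HZ.Zd C (fun _ => 0) 0 x 0 = if x = 0 then 1 else 0 := by
    intro x
    unfold HZ.Zd
    rw [Zk]
  induction n generalizing x with
  | zero =>
    rw [Fn, zero_add, Finset.sum_range_one, Nat.sub_zero, hz0, l, L]
    unfold copP wA
    rcases lt_trichotomy x 0 with h | h | h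
    · rw [if_pos h.le, if_neg h.ne, if_pos h]
      ring
    · rw [h]
      norm_num
    · rw [if_neg (not_le.2 h), if_neg h.ne', if_neg (not_lt.2 h.le)]
      ring
  | succ n ih =>
    have e1 : Fn C (fun _ => 0) (fun z => copP z * wA A z) (n + 1) x =
        ∑ z ∈ Finset.Icc (x - 1) (x + 1), C.p x z * Real.exp 0 *
          (∑ k ∈ range (n + 1), HZ.Zd C (fun _ => 0) (n - k) z 0 * l A δ k + L A δ n z) := by
      rw [Fn]
      exact Finset.sum_congr rfl fun z _ => by rw [ih z]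
    have e2 : ∀ (m : ℕ), HZ.Zd C (fun _ => 0) (m + 1) x 0 =
        ∑ z ∈ Finset.Icc (x - 1) (x + 1), C.p x z * Real.exp 0 * HZ.Zd C (fun _ => 0) m z 0 :=
      fun _ => rfl
    have e3 : ∑ z ∈ Finset.Icc (x - 1) (x + 1), C.p x z * Real.exp 0 *
          (∑ k ∈ range (n + 1), HZ.Zd C (fun _ => 0) (n - k) z 0 * l A δ k + L A δ n z) =
        ∑ k ∈ range (n + 1), HZ.Zd C (fun _ => 0) (n - k + 1) x 0 * l A δ k +
          ∑ z ∈ Finset.Icc (x - 1) (x + 1), C.p x z * Real.exp 0 * L A δ n z := by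
      simp only [mul_add, Finset.sum_add_distrib, Finset.mul_sum]
      rw [Finset.sum_comm]
      congr 1
      refine Finset.sum_congr rfl fun k _ => ?_
      rw [e2, Finset.sum_mul]
      exact Finset.sum_congr rfl fun z _ => by ring
    have e4 : ∀ k ∈ range (n + 1), HZ.Zd C (fun _ => 0) (n + 1 - k) x 0 * l A δ k =
        HZ.Zd C (fun _ => 0) (n - k + 1) x 0 * l A δ k := by
      intro k hk
      have hk' := Finset.mem_range.1 hk
      rw [show n + 1 - k = n - k + 1 by omega]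
    rw [e1, e3, Finset.sum_range_succ _ (n + 1), Finset.sum_congr rfl e4, Nat.sub_self, hz0, l,
      add_assoc]
    congr 1
    rcases lt_trichotomy x 0 with h | h | h
    · rw [step hnl hup hdn h.le, if_neg h.ne, L, if_pos h]
      ring
    · rw [step hnl hup hdn h.le, if_pos h, L_zero_of (n + 1) (not_lt.2 h.ge),
        L_zero_of n (x := x + 1) (by omega), h]
      norm_num
    · rw [if_neg h.ne', L_zero_of (n + 1) (not_lt.2 h.le), zero_mul, zero_add]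
      refine Finset.sum_eq_zero fun z hz => ?_
      have := Finset.mem_Icc.1 hz
      rw [L_zero_of n (by omega), mul_zero]

section

variable {A δ : ℝ}

theorem facts (hA : 4 ≤ A) (hδ : 0 < δ) (hδA : δ ≤ 1 / A ^ 2) :
    0 < A ∧ δ * A ^ 2 ≤ 1 ∧ 0 ≤ 1 - δ := by
  have h0 : 0 < A := by linarith
  have h1 : δ * A ^ 2 ≤ 1 := by
    rwa [le_div_iff₀ (by positivity)] at hδA
  refine ⟨h0, h1, ?_⟩
  nlinarith [mul_le_mul_of_nonneg_left (show (1 : ℝ) ≤ A ^ 2 by nlinarith) hδ.le]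

theorem L_nonneg (hA : 4 ≤ A) (hδ : 0 < δ) (hδA : δ ≤ 1 / A ^ 2) (n : ℕ) (x : ℤ) :
    0 ≤ L A δ n x := by
  obtain ⟨h0, _, h1⟩ := facts hA hδ hδA
  induction n generalizing x with
  | zero =>
    rw [L]
    split_ifs
    · positivity
    · exact le_refl _
  | succ n ih =>
    rw [L]
    split_ifs
    · exact add_nonneg (mul_nonneg h1 (ih _)) (mul_nonneg hδ.le (ih _))
    · exact le_refl _

theorem sumL_le (hA : 4 ≤ A) (hδ : 0 < δ) (hδA : δ ≤ 1 / A ^ 2) (N : ℕ) (x : ℤ) :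
    ∑ m ∈ range N, L A δ m x ≤ 2 * A ^ x.natAbs := by
  obtain ⟨h0, h4, h1⟩ := facts hA hδ hδA
  induction N generalizing x with
  | zero =>
    rw [Finset.sum_range_zero]
    positivity
  | succ N ih =>
    by_cases hx : x < 0
    · rw [Finset.sum_range_succ']
      have e1 : ∀ m ∈ range N, L A δ (m + 1) x =
          (1 - δ) * L A δ m (x + 1) + δ * L A δ m (x - 1) := fun m _ => by rw [L, if_pos hx]
      rw [Finset.sum_congr rfl e1, Finset.sum_add_distrib, ← Finset.mul_sum, ← Finset.mul_sum]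
      have h2 := mul_le_mul_of_nonneg_left (ih (x + 1)) h1
      have h3 := mul_le_mul_of_nonneg_left (ih (x - 1)) hδ.le
      have e2 : L A δ 0 x = A ^ x.natAbs := by rw [L, if_pos hx]
      obtain ⟨m, hm⟩ : ∃ m : ℕ, x.natAbs = m + 1 := ⟨x.natAbs - 1, by omega⟩
      have e3 : (x + 1).natAbs = m := by omega
      have e4 : (x - 1).natAbs = m + 2 := by omega
      rw [e3] at h2
      rw [e4] at h3
      rw [e2, hm]
      have h5 : 0 < A ^ m := by positivity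
      have e5 : A ^ (m + 2) = A ^ m * A ^ 2 := pow_add _ _ _
      have e6 : A ^ (m + 1) = A ^ m * A := pow_succ _ _
      rw [e5] at h3
      rw [e6]
      have h6 : (1 - δ) * (2 * A ^ m) + δ * (2 * (A ^ m * A ^ 2)) + A ^ m * A ≤
          2 * (A ^ m * A) := by
        have h7 : 2 * (1 - δ) + 2 * (δ * A ^ 2) ≤ A := by linarith
        have h8 := mul_le_mul_of_nonneg_left h7 h5.le
        nlinarith
      linarith
    · rw [Finset.sum_eq_zero fun m _ => L_zero_of m hx]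
      positivity

theorem l_nonneg (hA : 4 ≤ A) (hδ : 0 < δ) (hδA : δ ≤ 1 / A ^ 2) (n : ℕ) : 0 ≤ l A δ n := by
  cases n with
  | zero =>
    rw [l]
    exact zero_le_one
  | succ n =>
    rw [l]
    exact mul_nonneg hδ.le (L_nonneg hA hδ hδA _ _)

theorem sum_l_le (hA : 4 ≤ A) (hδ : 0 < δ) (hδA : δ ≤ 1 / A ^ 2) (N : ℕ) :
    ∑ k ∈ range N, l A δ (k + 1) ≤ 2 / A := by
  obtain ⟨h0, h4, h1⟩ := facts hA hδ hδA
  have e1 : ∀ k ∈ range N, l A δ (k + 1) = δ * L A δ k (-1) := fun k _ => by rw [l]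
  rw [Finset.sum_congr rfl e1, ← Finset.mul_sum]
  have h2 := mul_le_mul_of_nonneg_left (sumL_le hA hδ hδA N (-1)) hδ.le
  refine h2.trans ?_
  have e2 : (-1 : ℤ).natAbs = 1 := rfl
  rw [e2, pow_one, le_div_iff₀ h0]
  nlinarith

end

theorem conv_le {a b : ℕ → ℝ} (ha : ∀ n, 0 ≤ a n) (hb : ∀ n, 0 ≤ b n) (N : ℕ) :
    ∑ n ∈ range N, ∑ k ∈ range (n + 1), a k * b (n - k) ≤
      (∑ k ∈ range N, a k) * ∑ j ∈ range N, b j := by
  have h1 : ∑ n ∈ range N, ∑ k ∈ range (n + 1), a k * b (n - k) =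
      ∑ k ∈ range N, ∑ n ∈ Finset.Ico k N, a k * b (n - k) := by
    refine Finset.sum_comm' fun n k => ?_
    simp only [Finset.mem_range, Finset.mem_Ico]
    omega
  rw [h1, Finset.sum_mul]
  refine Finset.sum_le_sum fun k _ => ?_
  rw [← Finset.mul_sum]
  refine mul_le_mul_of_nonneg_left ?_ (ha k)
  rw [Finset.sum_Ico_eq_sum_range]
  have h2 : ∀ i ∈ range (N - k), b (k + i - k) = b i := fun i _ => by
    rw [Nat.add_sub_cancel_left]
  rw [Finset.sum_congr rfl h2]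
  exact Finset.sum_le_sum_of_subset_of_nonneg (Finset.range_subset_range.2 (Nat.sub_le _ _))
    fun i _ _ => hb i

theorem zero_sq {C : Chain} {δ A ε₁ : ℝ} (hnl : ∀ x, C.p x x = 0)
    (hup : ∀ x : ℤ, x ≤ 0 → C.p x (x + 1) = 1 - δ) (hdn : ∀ x : ℤ, x ≤ 0 → C.p x (x - 1) = δ)
    (hA : 4 ≤ A) (hδ : 0 < δ) (hδA : δ ≤ 1 / A ^ 2) (hε : 0 ≤ ε₁) (hε1 : ε₁ ≤ 1)
    (hu : ∀ N : ℕ, ∑ n ∈ range N, HZ.Zd C (fun _ => 0) (n + 1) 0 0 ^ 2 ≤ ε₁ ^ 2) (N : ℕ) :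
    ∑ n ∈ range N, Fn C (fun _ => 0) (fun z => copP z * wA A z) (n + 1) 0 ^ 2 ≤
      2 * ε₁ ^ 2 + 16 / A ^ 2 := by
  obtain ⟨h0, h4, h1⟩ := facts hA hδ hδA
  obtain ⟨u, hudef⟩ : ∃ u : ℕ → ℝ, u = fun n => HZ.Zd C (fun _ => 0) n 0 0 := ⟨_, rfl⟩
  have hu' : ∀ N : ℕ, ∑ n ∈ range N, u (n + 1) ^ 2 ≤ ε₁ ^ 2 := by
    rw [hudef]
    exact hu
  have hu0 : ∀ n, 0 ≤ u n := fun n => by
    rw [hudef]
    exact HZ.Zd_nonneg _ _ _ _ _
  have hu1 : ∀ N : ℕ, ∑ n ∈ range N, u n ^ 2 ≤ 1 + ε₁ ^ 2 := by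
    intro N
    cases N with
    | zero =>
      rw [Finset.sum_range_zero]
      positivity
    | succ N =>
      rw [Finset.sum_range_succ']
      have h2 : u 0 = 1 := by
        rw [hudef]
        exact HZ.Zd_zero C _ 0
      have := hu' N
      rw [h2]
      linarith
  have hF : ∀ n : ℕ, Fn C (fun _ => 0) (fun z => copP z * wA A z) (n + 1) 0 =
      u (n + 1) + ∑ k ∈ range (n + 1), l A δ (k + 1) * u (n - k) := by
    intro n
    rw [fn_dec A hnl hup hdn, L_zero_of (n + 1) (lt_irrefl 0), add_zero,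
      Finset.sum_range_succ', l, mul_one, Nat.sub_zero, add_comm, hudef]
    congr 1
    refine Finset.sum_congr rfl fun k _ => ?_
    rw [Nat.add_sub_add_right, mul_comm]
  have hl := l_nonneg hA hδ hδA
  have hS := sum_l_le hA hδ hδA
  have hSn : ∀ n, 0 ≤ ∑ k ∈ range n, l A δ (k + 1) := fun n =>
    Finset.sum_nonneg fun k _ => hl _
  have hterm : ∀ n ∈ range N, Fn C (fun _ => 0) (fun z => copP z * wA A z) (n + 1) 0 ^ 2 ≤
      2 * u (n + 1) ^ 2 + 2 * (2 / A * ∑ k ∈ range (n + 1), l A δ (k + 1) * u (n - k) ^ 2) := by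
    intro n _
    rw [hF]
    have h2 : (∑ k ∈ range (n + 1), l A δ (k + 1) * u (n - k)) ^ 2 ≤
        (∑ k ∈ range (n + 1), l A δ (k + 1)) *
          ∑ k ∈ range (n + 1), l A δ (k + 1) * u (n - k) ^ 2 :=
      Finset.sum_sq_le_sum_mul_sum_of_sq_le_mul _ (fun k _ => hl _)
        (fun k _ => mul_nonneg (hl _) (sq_nonneg _)) (fun k _ => le_of_eq (by ring))
    have h3 : (∑ k ∈ range (n + 1), l A δ (k + 1)) *
        ∑ k ∈ range (n + 1), l A δ (k + 1) * u (n - k) ^ 2 ≤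
        2 / A * ∑ k ∈ range (n + 1), l A δ (k + 1) * u (n - k) ^ 2 :=
      mul_le_mul_of_nonneg_right (hS _)
        (Finset.sum_nonneg fun k _ => mul_nonneg (hl _) (sq_nonneg _))
    nlinarith [sq_nonneg (u (n + 1) - ∑ k ∈ range (n + 1), l A δ (k + 1) * u (n - k))]
  refine (Finset.sum_le_sum hterm).trans ?_
  rw [Finset.sum_add_distrib, ← Finset.mul_sum, ← Finset.mul_sum, ← Finset.mul_sum]
  have h5 : ∑ n ∈ range N, ∑ k ∈ range (n + 1), l A δ (k + 1) * u (n - k) ^ 2 ≤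
      (∑ k ∈ range N, l A δ (k + 1)) * ∑ j ∈ range N, u j ^ 2 :=
    conv_le (a := fun k => l A δ (k + 1)) (b := fun j => u j ^ 2) (fun k => hl _)
      (fun j => sq_nonneg _) N
  have h6 : (∑ k ∈ range N, l A δ (k + 1)) * ∑ j ∈ range N, u j ^ 2 ≤ 2 / A * 2 := by
    refine mul_le_mul (hS N) ((hu1 N).trans ?_) (Finset.sum_nonneg fun j _ => sq_nonneg _)
      (by positivity)
    nlinarith
  have h7 : 0 ≤ 2 / A := by positivity
  have h8 := mul_le_mul_of_nonneg_left (h5.trans h6) h7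
  have e9 : 2 / A * (2 / A * 2) = 8 / A ^ 2 := by
    field_simp
    norm_num
  rw [e9] at h8
  have h10 := hu' N
  have e11 : 16 / A ^ 2 = 2 * (8 / A ^ 2) := by ring
  rw [e11]
  linarith

theorem minkowski {f g : ℕ → ℝ} {N : ℕ} {p q P Q : ℝ} (hp : 0 ≤ p) (hq : 0 ≤ q) (hP : 0 ≤ P)
    (hQ : 0 ≤ Q) (hf : ∑ n ∈ range N, f n ^ 2 ≤ P ^ 2) (hg : ∑ n ∈ range N, g n ^ 2 ≤ Q ^ 2) :
    ∑ n ∈ range N, (p * f n + q * g n) ^ 2 ≤ (p * P + q * Q) ^ 2 := by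
  have h1 : ∑ n ∈ range N, f n * g n ≤ P * Q := by
    refine (abs_le_of_sq_le_sq' ?_ (mul_nonneg hP hQ)).2
    refine (Finset.sum_mul_sq_le_sq_mul_sq _ _ _).trans ?_
    rw [mul_pow]
    exact mul_le_mul hf hg (Finset.sum_nonneg fun _ _ => sq_nonneg _) (sq_nonneg _)
  have h2 : ∑ n ∈ range N, (p * f n + q * g n) ^ 2 = p ^ 2 * ∑ n ∈ range N, f n ^ 2 +
      2 * (p * q) * ∑ n ∈ range N, f n * g n + q ^ 2 * ∑ n ∈ range N, g n ^ 2 := by
    rw [Finset.mul_sum, Finset.mul_sum, Finset.mul_sum, ← Finset.sum_add_distrib,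
      ← Finset.sum_add_distrib]
    exact Finset.sum_congr rfl fun n _ => by ring
  rw [h2]
  have h3 := mul_le_mul_of_nonneg_left hf (sq_nonneg p)
  have h4 := mul_le_mul_of_nonneg_left hg (sq_nonneg q)
  have h5 := mul_le_mul_of_nonneg_left h1 (mul_nonneg zero_le_two (mul_nonneg hp hq))
  nlinarith

theorem neg_step {C : Chain} {δ A : ℝ} (hnl : ∀ x, C.p x x = 0)
    (hup : ∀ x : ℤ, x ≤ 0 → C.p x (x + 1) = 1 - δ) (hdn : ∀ x : ℤ, x ≤ 0 → C.p x (x - 1) = δ)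
    (hA : 4 ≤ A) (hδ : 0 < δ) (hδA : δ ≤ 1 / A ^ 2) {N : ℕ}
    (ih : ∀ y : ℤ, y ≤ 0 → ∑ n ∈ range N,
      Fn C (fun _ => 0) (fun z => copP z * wA A z) n y ^ 2 ≤ (2 * A ^ y.natAbs) ^ 2)
    {y : ℤ} (hy : y < 0) : ∑ n ∈ range N,
      Fn C (fun _ => 0) (fun z => copP z * wA A z) (n + 1) y ^ 2 ≤ 16 / A ^ 2 * wA A y ^ 2 := by
  obtain ⟨h0, h4, h1⟩ := facts hA hδ hδA
  have e1 : ∀ n ∈ range N, Fn C (fun _ => 0) (fun z => copP z * wA A z) (n + 1) y ^ 2 =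
      ((1 - δ) * Fn C (fun _ => 0) (fun z => copP z * wA A z) n (y + 1) +
        δ * Fn C (fun _ => 0) (fun z => copP z * wA A z) n (y - 1)) ^ 2 := fun n _ => by
    rw [Fn, step hnl hup hdn hy.le]
  rw [Finset.sum_congr rfl e1]
  obtain ⟨m, hm⟩ : ∃ m : ℕ, y.natAbs = m + 1 := ⟨y.natAbs - 1, by omega⟩
  have e3 : (y + 1).natAbs = m := by omega
  have e4 : (y - 1).natAbs = m + 2 := by omega
  have i1 := ih (y + 1) (by omega)
  have i2 := ih (y - 1) (by omega)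
  rw [e3] at i1
  rw [e4] at i2
  refine (minkowski h1 hδ.le (by positivity) (by positivity) i1 i2).trans ?_
  have h5 : 0 < A ^ m := by positivity
  have e5 : A ^ (m + 2) = A ^ m * A ^ 2 := pow_add _ _ _
  have h6 : (1 - δ) * (2 * A ^ m) + δ * (2 * A ^ (m + 2)) ≤ 4 * A ^ m := by
    rw [e5]
    have h7 : 2 * (1 - δ) + 2 * (δ * A ^ 2) ≤ 4 := by linarith
    have h8 := mul_le_mul_of_nonneg_left h7 h5.le
    nlinarith
  have h9 : 0 ≤ (1 - δ) * (2 * A ^ m) + δ * (2 * A ^ (m + 2)) := by positivity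
  refine (pow_le_pow_left₀ h9 h6 2).trans (le_of_eq ?_)
  unfold wA
  rw [hm, pow_succ]
  field_simp
  ring

theorem all_sq {C : Chain} {δ A ε₁ : ℝ} (hnl : ∀ x, C.p x x = 0)
    (hup : ∀ x : ℤ, x ≤ 0 → C.p x (x + 1) = 1 - δ) (hdn : ∀ x : ℤ, x ≤ 0 → C.p x (x - 1) = δ)
    (hA : 4 ≤ A) (hδ : 0 < δ) (hδA : δ ≤ 1 / A ^ 2) (hε : 0 ≤ ε₁) (hε1 : ε₁ ≤ 1)
    (hu : ∀ N : ℕ, ∑ n ∈ range N, HZ.Zd C (fun _ => 0) (n + 1) 0 0 ^ 2 ≤ ε₁ ^ 2) (N : ℕ) :
    ∀ y : ℤ, y ≤ 0 → ∑ n ∈ range N,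
      Fn C (fun _ => 0) (fun z => copP z * wA A z) n y ^ 2 ≤ (2 * A ^ y.natAbs) ^ 2 := by
  obtain ⟨h0, h4, h1⟩ := facts hA hδ hδA
  have hA2 : 16 / A ^ 2 ≤ 1 := by
    rw [div_le_one (by positivity)]
    nlinarith
  induction N with
  | zero =>
    intro y _
    rw [Finset.sum_range_zero]
    positivity
  | succ N ih =>
    intro y hy
    rw [Finset.sum_range_succ']
    have e0 : Fn C (fun _ => 0) (fun z => copP z * wA A z) 0 y = A ^ y.natAbs := by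
      rw [Fn]
      unfold copP wA
      rw [if_pos hy, one_mul]
    rw [e0]
    rcases hy.lt_or_eq with hlt | heq
    · have h2 := neg_step hnl hup hdn hA hδ hδA ih hlt
      have h3 : 16 / A ^ 2 * wA A y ^ 2 ≤ 1 * wA A y ^ 2 :=
        mul_le_mul_of_nonneg_right hA2 (sq_nonneg _)
      have e1 : wA A y = A ^ y.natAbs := rfl
      rw [e1] at h2 h3
      have h5 : 0 ≤ (A ^ y.natAbs) ^ 2 := sq_nonneg _
      rw [mul_pow]
      linarith
    · have h2 := zero_sq hnl hup hdn hA hδ hδA hε hε1 hu N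
      rw [heq]
      norm_num
      nlinarith

end QLeft

/-- Let `η z = copP z * wA A z` (`A^|z|` on `z ≤ 0`, `0` on `z > 0`), `F n y = Fn C 0 η n y
= E_y[η(S_n)]`, `u n = HZ.Zd C 0 n 0 0 = P(S_n = 0)`, `r = (1-δ)/A + δ A ≤ 2/A ≤ 1/2`.
(i) Start at `0`. Let `l 0 = 1` and, for `m ≥ 1`, `l m = E_0[η(S_m); S_1, …, S_m < 0]`. First return
decomposition `F n 0 = l n + ∑_{1≤k≤n} K0 C k 0 F (n-k) 0` (a path which is to the right of `0` at time
`n` contributes nothing), and `u n = ∑_{1≤k≤n} K0 C k 0 u (n-k)` for `n ≥ 1` (`HZ.Zd_renewal`), so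
`F n 0 = ∑_{k≤n} u (n-k) l k` (strong induction). `λ = ∑_{m≥1} l m ≤ 2/A`: for `x < 0` the partial sums
`∑_{m<N} E_x[η(S_m); S_1, …, S_m < 0]` are at most `2 A^|x|` (induction on `N`:
`A^|x| + r 2 A^|x| ≤ 2 A^|x|`), and `l m = δ E_{-1}[η(S_{m-1}); S_1, …, S_{m-1} < 0]` for `m ≥ 1`, so
`λ ≤ 2 δ A ≤ 2/A`. By `(a+b)² ≤ 2a²+2b²` and Cauchy-Schwarz
`(∑_k l k u (n-k))² ≤ λ ∑_k l k u (n-k)²`:
`∑_{1≤n≤N} F n 0 ² ≤ 2 ∑_{n≥1} u n ² + 2 λ² ∑_{n≥0} u n ² ≤ 2 ε₁² + (8/A²) (1+ε₁²) ≤ 2 ε₁² + 16/A²`.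
(ii) Start at `y < 0`. `F (n+1) y = (1-δ) F n (y+1) + δ F n (y-1)`. Claim: for all `N` and `y ≤ 0`,
`a N y := (∑_{n<N} F n y ²)^(1/2) ≤ 2 A^|y|`: for `y = 0` from (i) (`1 + 2 ε₁² + 16/A² ≤ 4`); for `y < 0` by
induction on `N`: by the triangle inequality in `l²` (or `(pa+qb)² ≤ …` in the form
`∑ ((1-δ) f + δ g)² ≤ ((1-δ) ‖f‖ + δ ‖g‖)²`)
`(∑_{n<N} F (n+1) y ²)^(1/2) ≤ (1-δ) a N (y+1) + δ a N (y-1) ≤ 2 r A^|y| ≤ (4/A) A^|y|`, and
`a (N+1) y ² ≤ A^(2|y|) (1 + 16/A²) ≤ 4 A^(2|y|)`. The second last inequality is the statement, as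
`(4/A)² = 16/A²`. -/
theorem left_green {C : Chain} {δ A ε₁ : ℝ} (hnl : ∀ x, C.p x x = 0)
    (hup : ∀ x : ℤ, x ≤ 0 → C.p x (x + 1) = 1 - δ) (hdn : ∀ x : ℤ, x ≤ 0 → C.p x (x - 1) = δ)
    (hA : 4 ≤ A) (hδ : 0 < δ) (hδA : δ ≤ 1 / A ^ 2) (hε : 0 ≤ ε₁) (hε1 : ε₁ ≤ 1)
    (hu : ∀ N : ℕ, ∑ n ∈ range N, HZ.Zd C (fun _ => 0) (n + 1) 0 0 ^ 2 ≤ ε₁ ^ 2)
    {y : ℤ} (hy : y ≤ 0) (N : ℕ) :
    ∑ n ∈ range N, Fn C (fun _ => 0) (fun z => copP z * wA A z) (n + 1) y ^ 2 ≤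
      (2 * ε₁ ^ 2 + 16 / A ^ 2) * wA A y ^ 2 := by
  rcases hy.lt_or_eq with hlt | heq
  · have h1 := QLeft.neg_step hnl hup hdn hA hδ hδA
      (QLeft.all_sq hnl hup hdn hA hδ hδA hε hε1 hu N) hlt
    refine h1.trans (mul_le_mul_of_nonneg_right ?_ (sq_nonneg _))
    nlinarith [sq_nonneg ε₁]
  · rw [heq]
    have h1 := QLeft.zero_sq hnl hup hdn hA hδ hδA hε hε1 hu N
    have h2 : wA A 0 = 1 := by
      unfold wA
      rw [Int.natAbs_zero, pow_zero]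
    rw [h2, one_pow, mul_one]
    exact h1

end

end Pool.Agent.HG
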