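import Pool.Agent.Lib.MP_daa227_pr_HG.QDef
import Pool.Agent.Lib.MP_daa227_pr_HG.BesM
import Pool.Agent.Lib.MP_daa227_pr_HG.SDef

/-!
# MP_daa227_pr, project Q: the loop exponent of the chain
-/

namespace Pool.Agent.HG

open MeasureTheory ProbabilityTheory Finset Filter Topology
open MP_daa227_pr (Chain Zk Zf Gk Gf KU K0 Ren shift seqLaw ExpMom DepOn Good GoodW mom)
open Pool.Agent.HZ (Mod Kv lmg)

noncomputable section

/-- `K0 C n (-1) ≤ B exp (-c n)`: with `A ≥ 1`, `(1-δ)/A + δ A < 1` (`A = 2`, `δ ≤ 1/8`: it is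
at most `3/4`) and `e^c ((1-δ)/A + δ A) ≤ 1`, the function `A^|x|` is a supersolution on `x < 0` of the
recursion of `∑_n e^(c n) K0 C n x`: by induction on `n`, `e^(c n) K0 C n x ≤ A^|x|` for `x < 0`. -/
theorem qc_expLeft {C : Chain} {ρ : ℕ → ℝ} {α ε δ : ℝ} (h : QC C ρ α ε δ) (hδ : 0 < δ)
    (hδ8 : δ ≤ 1 / 8) : ExpLeft C := by
  have ud : C.p (-1) 0 = 1 - δ := by
    have h1 := h.left_up (-1) (by norm_num)
    have e : (-1 : ℤ) + 1 = 0 := by norm_num
    rwa [e] at h1
  obtain ⟨c, hc⟩ : ∃ c : ℝ, c = Real.log (4 / 3) := ⟨_, rfl⟩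
  have hc0 : 0 < c := by
    rw [hc]
    exact Real.log_pos (by norm_num)
  have hec : Real.exp c = 4 / 3 := by
    rw [hc, Real.exp_log (by norm_num)]
  have hstep : ∀ (n : ℕ), Real.exp (-(c * n)) = 4 / 3 * Real.exp (-(c * ((n + 1 : ℕ) : ℝ))) := by
    intro n
    rw [← hec, ← Real.exp_add]
    congr 1
    push_cast
    ring
  have key : ∀ (n m : ℕ), K0 C n (-((m : ℤ) + 1)) ≤ 2 ^ (m + 1) * Real.exp (-(c * n)) := by
    intro n
    induction n with
    | zero =>
      intro m
      rw [K0]
      positivity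
    | succ n ih =>
      intro m
      have hE : 0 < Real.exp (-(c * ((n + 1 : ℕ) : ℝ))) := Real.exp_pos _
      rcases m with _ | m
      · have hx : (-(((0 : ℕ) : ℤ) + 1)) = -1 := by norm_num
        rw [hx]
        have hset : Finset.Icc ((-1 : ℤ) - 1) (-1 + 1) \ {0} = {-2, -1} := by
          ext z
          simp only [Finset.mem_sdiff, Finset.mem_Icc, Finset.mem_singleton, Finset.mem_insert]
          omega
        rw [K0, hset, Finset.sum_pair (by norm_num), h.nl (-1), zero_mul, add_zero, ud]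
        have hd : C.p (-1) (-2) = δ := by
          have h1 := h.left_dn (-1) (by norm_num)
          have e : (-1 : ℤ) - 1 = -2 := by norm_num
          rwa [e] at h1
        rw [hd]
        have h2 := ih 1
        have e2 : (-(((1 : ℕ) : ℤ) + 1)) = -2 := by norm_num
        rw [e2, hstep n] at h2
        have h3 := mul_le_mul_of_nonneg_left h2 hδ.le
        have h4 : (if n = 0 then 1 - δ else 0) ≤
            (1 - δ) * (4 / 3 * Real.exp (-(c * ((n + 1 : ℕ) : ℝ)))) := by
          split_ifs with hn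
          · rw [← hstep n, hn]
            simp
          · exact mul_nonneg (by linarith) (by positivity)
        have h5 : (1 - δ) * (4 / 3 * Real.exp (-(c * ((n + 1 : ℕ) : ℝ)))) +
            δ * (2 ^ (1 + 1) * (4 / 3 * Real.exp (-(c * ((n + 1 : ℕ) : ℝ))))) ≤
            2 ^ (0 + 1) * Real.exp (-(c * ((n + 1 : ℕ) : ℝ))) := by
          have h6 : ((1 - δ) * (4 / 3) + δ * (4 * (4 / 3))) ≤ 2 := by linarith
          have h7 := mul_le_mul_of_nonneg_right h6 hE.le
          norm_num at h7 ⊢
          linarith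
        exact (add_le_add h4 h3).trans h5
      · obtain ⟨x, hx⟩ : ∃ x : ℤ, x = -(((m + 1 : ℕ) : ℤ) + 1) := ⟨_, rfl⟩
        have hx' : x = -((m : ℤ) + 2) := by
          rw [hx]
          push_cast
          ring
        rw [← hx]
        have hset : Finset.Icc (x - 1) (x + 1) \ {0} = Finset.Icc (x - 1) (x + 1) := by
          ext z
          simp only [Finset.mem_sdiff, Finset.mem_Icc, Finset.mem_singleton]
          omega
        have h0 : C.p x 0 = 0 := by
          refine C.near x 0 ?_
          rw [Finset.mem_Icc]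
          omega
        rw [K0, hset, HZ.sum_nb x (fun z => C.p x z * K0 C n z), h.nl x, h0, zero_mul, add_zero,
          h.left_up x (by omega), h.left_dn x (by omega)]
        have h1 : (if n = 0 then (0 : ℝ) else 0) = 0 := by
          split_ifs <;> rfl
        rw [h1, zero_add]
        have e1 : x - 1 = -(((m + 2 : ℕ) : ℤ) + 1) := by
          rw [hx']
          push_cast
          ring
        have e2 : x + 1 = -((m : ℤ) + 1) := by
          rw [hx']
          ring
        rw [e1, e2]
        have h2 := ih (m + 2)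
        have h3 := ih m
        rw [hstep n] at h2 h3
        have h4 := mul_le_mul_of_nonneg_left h2 hδ.le
        have h5 := mul_le_mul_of_nonneg_left h3 (by linarith : 0 ≤ 1 - δ)
        refine (add_le_add h4 h5).trans ?_
        have h6 : δ * (8 * (4 / 3)) + (1 - δ) * (2 * (4 / 3)) ≤ 4 := by linarith
        have h7 := mul_le_mul_of_nonneg_right h6
          (mul_nonneg (pow_nonneg (by norm_num : (0 : ℝ) ≤ 2) m) hE.le)
        refine le_trans (le_of_eq ?_) (h7.trans (le_of_eq ?_))
        · rw [pow_succ, pow_succ, pow_succ]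
          ring
        · rw [pow_succ, pow_succ]
          ring
  refine ⟨c, 2, hc0, fun n => ?_⟩
  have h1 := key n 0
  have hx : (-(((0 : ℕ) : ℤ) + 1)) = -1 := by norm_num
  rw [hx, zero_add, pow_one] at h1
  exact h1

/-- The chain is Bessel-like to the right with `m = 1` (`p + q = 1`), `c = 0`, for the potential
`copP` (zero on `x > 0`): `Bes C copP 1 α 0` (BDef.lean), with `√(α² + 2 η 0) = α`. Lower bound:
`bes_pt_low` (BesA.lean) with `η = 0` as in `besExp_low` (BesM.lean; `Kv C 0 = K0 C`, `HZ.Kv_K0`), or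
`besExp_low` itself for a model `M` with `M.C = C`, `M.φ = copP`, `M.ℓ = 1`, `hc = 0`. Upper bound:
`kuw_sides` (BesM.lean) with `hc = 0`, `sideUp_bes` on the right and `sideUp_exp` on the left. (`M` is only
needed as a container: any model with `M.C = C` and `M.φ = copP`, `M.ℓ = 1`.) -/
theorem qc_loop {C : Chain} {ρ : ℕ → ℝ} {α ε δ : ℝ} (h : QC C ρ α ε δ) (hα : 0 < α)
    (hα1 : α < 1) (hδ : 0 < δ) (hδ8 : δ ≤ 1 / 8) (M : Mod) (hC : M.C = C) (hφ : M.φ = copP) :
    KUp C α ∧ ∀ e : ℝ, 0 < e → ∀ᶠ n : ℕ in atTop,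
      ((2 * n : ℕ) : ℝ) ^ (-(1 + α + e)) ≤ K0 C (2 * n) 0 := by
  subst hC
  have hpen : (fun z => -0 * M.φ z) = fun _ : ℤ => (0 : ℝ) := by
    funext z
    rw [neg_zero, zero_mul]
  have hpen' : (fun z => -0 * M.φ (-z)) = fun _ : ℤ => (0 : ℝ) := by
    funext z
    rw [neg_zero, zero_mul]
  have hsq : Real.sqrt (α ^ 2 + 2 * 0 * 0) = α := by
    rw [mul_zero, add_zero, Real.sqrt_sq hα.le]
  have hB : Bes M.C M.φ 1 α 0 := by
    refine ⟨one_pos, ?_, ?_, ?_⟩
    · have h1 : (fun x : ℤ => M.C.p x (x + 1) + M.C.p x (x - 1)) = fun _ => 1 := by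
        funext x
        have h2 := M.C.sum_one x
        rw [HZ.sum_nb x (fun z => M.C.p x z), h.nl x] at h2
        linarith
      rw [h1]
      exact tendsto_const_nhds
    · rw [one_mul]
      exact h.dr
    · rw [mul_zero]
      refine (tendsto_const_nhds (x := (0 : ℝ))).congr' ?_
      filter_upwards [eventually_gt_atTop (0 : ℤ)] with x hx
      rw [hφ, copP, if_neg (not_le.2 hx), mul_zero]
  have hℓ : 0 < M.ℓ := by
    have h1 : Tendsto M.φ atBot (𝓝 1) := by
      refine (tendsto_const_nhds (x := (1 : ℝ))).congr' ?_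
      filter_upwards [eventually_le_atBot (0 : ℤ)] with x hx
      rw [hφ, copP, if_pos hx]
    rw [tendsto_nhds_unique M.φ_bot h1]
    exact one_pos
  constructor
  · have hR : SideUp M.C (fun z => -0 * M.φ z) α := by
      have h1 := sideUp_bes M.φ_nonneg hB hα.le le_rfl le_rfl (η := 0)
      rwa [hsq] at h1
    have hL : SideUp (HZ.cneg M.C) (fun z => -0 * M.φ (-z)) α := by
      obtain ⟨c, B, hc, hcB⟩ := qc_expLeft h hδ hδ8
      rw [hpen']
      have hr0 : 0 ≤ Real.exp (-(c / 2)) := (Real.exp_pos _).le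
      have hr1 : Real.exp (-(c / 2)) < 1 := Real.exp_lt_one_iff.2 (by linarith)
      have hs := summable_geometric_of_lt_one hr0 hr1
      have hB0 : 0 ≤ B := by
        have h1 := hcB 0
        have h2 : K0 M.C 0 (-1) = 0 := rfl
        rw [h2, Nat.cast_zero, mul_zero, neg_zero, Real.exp_zero, mul_one] at h1
        exact h1
      refine sideUp_exp (ε := c / 2) (B := B * ∑' n : ℕ, Real.exp (-(c / 2)) ^ n) (half_pos hc)
        (fun N => ?_) α
      have h1 : ∀ n : ℕ, Kv (HZ.cneg M.C) (fun _ => 0 + c / 2) n 1 ≤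
          B * Real.exp (-(c / 2)) ^ n := by
        intro n
        have h2 := HZ.Kv_cneg M.C (fun _ => 0 + c / 2) n 1
        rw [h2, TailM.kv_add M.C (fun _ => 0), HZ.Kv_K0]
        have h3 := mul_le_mul_of_nonneg_left (hcB n) (Real.exp_pos ((n : ℝ) * (c / 2))).le
        refine h3.trans (le_of_eq ?_)
        rw [← Real.exp_nat_mul]
        have h4 : Real.exp ((n : ℝ) * (c / 2)) * (B * Real.exp (-(c * n))) =
            B * (Real.exp ((n : ℝ) * (c / 2)) * Real.exp (-(c * n))) := by ring
        rw [h4, ← Real.exp_add]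
        congr 2
        ring
      refine (Finset.sum_le_sum fun n _ => h1 n).trans ?_
      rw [← Finset.mul_sum]
      exact mul_le_mul_of_nonneg_left (hs.sum_le_tsum _ fun n _ => pow_nonneg hr0 n) hB0
    have hK := kuw_sides M (le_refl (0 : ℝ)) hα hR hL
    intro ε hε
    have h1 := hK ε hε
    filter_upwards [h1] with n hn
    rw [min_eq_left hα1.le, hpen, HZ.Kv_K0] at hn
    exact hn
  · intro e he
    have hBE : BesExp M 0 α := ⟨1, α, 0, hα.le, le_rfl, hB, Or.inl ⟨hℓ, hsq.symm⟩⟩
    have h1 := besExp_low M (le_refl (0 : ℝ)) hα hα1 hBE he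
    filter_upwards [h1] with n hn
    rw [hpen, HZ.Kv_K0] at hn
    exact hn

end

end Pool.Agent.HG
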