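import Pool.Agent.Lib.MP_daa227_pr_HG.TailK
import Pool.Agent.Lib.MP_daa227_pr_HZ.MinSol
import Pool.Agent.Lib.MP_daa227_pr_HZ.HalfLine

/-!
# MP_daa227_pr, order: Laplace transforms of the first passage
-/

namespace Pool.Agent.HG

open MeasureTheory ProbabilityTheory Finset Filter Topology
open MP_daa227_pr (Chain Zk Zf Gk Gf KU K0 Ren shift seqLaw ExpMom DepOn Good GoodW mom)
open Pool.Agent.HZ (Mod Kv lmg)
open Pool.Agent.IOrd (Sys aS cv)

noncomputable section

/-- `E_x [exp (-s T_0)]` for `x > 0` -/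
def Lq (C : Chain) (s : ℝ) (x : ℤ) : ℝ := ∑' n : ℕ, K0 C n x * Real.exp (-(s * n))

/-- `E_x [1 - exp (-s T_0); T_0 < ∞]` for `x > 0` -/
def Ld (C : Chain) (s : ℝ) (x : ℤ) : ℝ := ∑' n : ℕ, K0 C n x * (1 - Real.exp (-(s * n)))

namespace TailD

theorem nn (C : Chain) (n : ℕ) (x : ℤ) : 0 ≤ K0 C n x := MP_daa227_pr.K0_nonneg C n x

theorem summable_K0 (C : Chain) (x : ℤ) : Summable (fun n : ℕ => K0 C n x) := by
  refine summable_of_sum_range_le (c := 1) (fun n => nn C n x) fun N => ?_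
  have h1 := HZ.HalfLine.Gf_K0 C N x (fun _ => 0)
  have h2 := HZ.HalfLine.Gf_nonneg C {0} N x (fun _ => 0)
  rw [Finset.sum_range_succ] at h1
  have h3 := nn C N x
  linarith

theorem exp_le {s : ℝ} (hs : 0 ≤ s) (n : ℕ) : Real.exp (-(s * n)) ≤ 1 :=
  Real.exp_le_one_iff.2 (neg_nonpos.2 (mul_nonneg hs n.cast_nonneg))

theorem exp_succ (s : ℝ) (n : ℕ) :
    Real.exp (-(s * ((n + 1 : ℕ) : ℝ))) = Real.exp (-s) * Real.exp (-(s * n)) := by
  rw [← Real.exp_add]
  congr 1
  push_cast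
  ring

theorem kv0 (C : Chain) (n : ℕ) (x : ℤ) : Kv C (fun _ => 0) n x = K0 C n x := HZ.Kv_K0 C n x

end TailD

/-- `∑ K0 n x ≤ 1` (e.g. `HZ.HalfLine.Gf_K0`) makes both series summable -/
theorem lq_summable (C : Chain) (x : ℤ) {s : ℝ} (hs : 0 ≤ s) :
    Summable (fun n : ℕ => K0 C n x * Real.exp (-(s * n))) ∧
      Summable (fun n : ℕ => K0 C n x * (1 - Real.exp (-(s * n)))) := by
  have h := TailD.summable_K0 C x
  refine ⟨h.of_nonneg_of_le (fun n => mul_nonneg (TailD.nn C n x) (Real.exp_pos _).le)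
    fun n => mul_le_of_le_one_right (TailD.nn C n x) (TailD.exp_le hs n),
    h.of_nonneg_of_le (fun n => mul_nonneg (TailD.nn C n x)
      (sub_nonneg.2 (TailD.exp_le hs n))) fun n => ?_⟩
  refine mul_le_of_le_one_right (TailD.nn C n x) ?_
  have := Real.exp_pos (-(s * n))
  linarith

theorem lq_nonneg (C : Chain) (x : ℤ) (s : ℝ) : 0 ≤ Lq C s x :=
  tsum_nonneg fun n => mul_nonneg (TailD.nn C n x) (Real.exp_pos _).le

theorem ld_nonneg (C : Chain) (x : ℤ) {s : ℝ} (hs : 0 ≤ s) : 0 ≤ Ld C s x :=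
  tsum_nonneg fun n => mul_nonneg (TailD.nn C n x) (sub_nonneg.2 (TailD.exp_le hs n))

/-- the partial sums of the weighted kernel: index shift, with
`1 - exp (-s (n+1)) = (1 - exp (-s n)) + exp (-s n) (1 - exp (-s))` (compare
`HZ.MinSol.psum_succ`) -/
theorem pt_succ (C : Chain) (v : ℤ → ℝ) (s : ℝ) (N : ℕ) (x : ℤ) :
    ∑ n ∈ range (N + 1), Kv C v n x * (1 - Real.exp (-(s * n))) =
      (if N = 0 then 0 else C.p x 0 * Real.exp (v 0) * (1 - Real.exp (-s))) +
      ∑ z ∈ Finset.Icc (x - 1) (x + 1) \ {0}, C.p x z * Real.exp (v z) *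
        (∑ n ∈ range N, Kv C v n z * (1 - Real.exp (-(s * n))) +
          (1 - Real.exp (-s)) * ∑ n ∈ range N, Kv C v n z * Real.exp (-(s * n))) := by
  rw [Finset.sum_range_succ', HZ.Kv_zero, zero_mul, add_zero]
  have h1 : ∀ n ∈ range N, Kv C v (n + 1) x * (1 - Real.exp (-(s * ((n + 1 : ℕ) : ℝ)))) =
      (if n = 0 then C.p x 0 * Real.exp (v 0) * (1 - Real.exp (-s)) else 0) +
      ∑ z ∈ Finset.Icc (x - 1) (x + 1) \ {0}, C.p x z * Real.exp (v z) *
        (Kv C v n z * (1 - Real.exp (-(s * n))) +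
          (1 - Real.exp (-s)) * (Kv C v n z * Real.exp (-(s * n)))) := by
    intro n _
    rw [HZ.Kv_succ, TailD.exp_succ, add_mul, Finset.sum_mul]
    congr 1
    · by_cases hn : n = 0
      · subst hn
        simp
      · rw [if_neg hn, if_neg hn, zero_mul]
    · refine Finset.sum_congr rfl fun z _ => ?_
      ring
  rw [Finset.sum_congr rfl h1, Finset.sum_add_distrib]
  congr 1
  · cases N with
    | zero => simp
    | succ N =>
      rw [Finset.sum_ite_eq' (Finset.range (N + 1)) 0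
        (fun _ => C.p x 0 * Real.exp (v 0) * (1 - Real.exp (-s))),
        if_pos (Finset.mem_range.2 (Nat.succ_pos N)), if_neg (Nat.succ_ne_zero N)]
  · rw [Finset.sum_comm]
    refine Finset.sum_congr rfl fun z _ => ?_
    rw [← Finset.mul_sum, Finset.sum_add_distrib, ← Finset.mul_sum]

/-- the same for the discounted sums -/
theorem pq_succ (C : Chain) (v : ℤ → ℝ) (s : ℝ) (N : ℕ) (x : ℤ) :
    ∑ n ∈ range (N + 1), Kv C v n x * Real.exp (-(s * n)) =
      Real.exp (-s) * ((if N = 0 then 0 else C.p x 0 * Real.exp (v 0)) +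
      ∑ z ∈ Finset.Icc (x - 1) (x + 1) \ {0}, C.p x z * Real.exp (v z) *
        ∑ n ∈ range N, Kv C v n z * Real.exp (-(s * n))) := by
  rw [Finset.sum_range_succ', HZ.Kv_zero, zero_mul, add_zero]
  have h1 : ∀ n ∈ range N, Kv C v (n + 1) x * Real.exp (-(s * ((n + 1 : ℕ) : ℝ))) =
      Real.exp (-s) * ((if n = 0 then C.p x 0 * Real.exp (v 0) else 0) +
      ∑ z ∈ Finset.Icc (x - 1) (x + 1) \ {0}, C.p x z * Real.exp (v z) *
        (Kv C v n z * Real.exp (-(s * n)))) := by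
    intro n _
    rw [HZ.Kv_succ, TailD.exp_succ, mul_comm, mul_assoc, mul_add, Finset.mul_sum]
    congr 2
    · by_cases hn : n = 0
      · subst hn
        simp
      · simp [hn]
    · refine Finset.sum_congr rfl fun z _ => ?_
      ring
  rw [Finset.sum_congr rfl h1, ← Finset.mul_sum, Finset.sum_add_distrib]
  congr 2
  · cases N with
    | zero => simp
    | succ N =>
      rw [Finset.sum_ite_eq' (Finset.range (N + 1)) 0
        (fun _ => C.p x 0 * Real.exp (v 0)),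
        if_pos (Finset.mem_range.2 (Nat.succ_pos N)), if_neg (Nat.succ_ne_zero N)]
  · rw [Finset.sum_comm]
    refine Finset.sum_congr rfl fun z _ => ?_
    rw [← Finset.mul_sum]

namespace TailD

theorem lq_tendsto (C : Chain) (x : ℤ) {s : ℝ} (hs : 0 ≤ s) :
    Tendsto (fun N : ℕ => ∑ n ∈ range N, K0 C n x * Real.exp (-(s * n))) atTop
      (𝓝 (Lq C s x)) :=
  (lq_summable C x hs).1.hasSum.tendsto_sum_nat

theorem ld_tendsto (C : Chain) (x : ℤ) {s : ℝ} (hs : 0 ≤ s) :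
    Tendsto (fun N : ℕ => ∑ n ∈ range N, K0 C n x * (1 - Real.exp (-(s * n)))) atTop
      (𝓝 (Ld C s x)) :=
  (lq_summable C x hs).2.hasSum.tendsto_sum_nat

end TailD

/-- the recursion of `K0` -/
theorem lq_eq (C : Chain) (x : ℤ) {s : ℝ} (hs : 0 ≤ s) :
    Lq C s x = Real.exp (-s) *
      (C.p x 0 + ∑ z ∈ Finset.Icc (x - 1) (x + 1) \ {0}, C.p x z * Lq C s z) := by
  have h1 : Tendsto (fun N : ℕ => ∑ n ∈ range (N + 1), K0 C n x * Real.exp (-(s * n))) atTop
      (𝓝 (Lq C s x)) := (TailD.lq_tendsto C x hs).comp (tendsto_add_atTop_nat 1)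
  have h2 : Tendsto (fun N : ℕ => Real.exp (-s) * (C.p x 0 +
      ∑ z ∈ Finset.Icc (x - 1) (x + 1) \ {0}, C.p x z *
        ∑ n ∈ range N, K0 C n z * Real.exp (-(s * n)))) atTop
      (𝓝 (Real.exp (-s) * (C.p x 0 +
        ∑ z ∈ Finset.Icc (x - 1) (x + 1) \ {0}, C.p x z * Lq C s z))) := by
    apply Tendsto.const_mul
    apply tendsto_const_nhds.add
    apply tendsto_finsetSum
    intro z _
    exact (TailD.lq_tendsto C z hs).const_mul _
  refine tendsto_nhds_unique h1 (h2.congr' ?_)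
  filter_upwards [eventually_ne_atTop 0] with N hN
  have h3 := pq_succ C (fun _ => 0) s N x
  simp only [TailD.kv0, Real.exp_zero, mul_one, if_neg hN] at h3
  exact h3.symm

/-- the recursion of `K0`: `1 - exp (-s (n+1)) = (1 - exp (-s n)) + exp (-s n) (1 - exp (-s))` -/
theorem ld_eq (C : Chain) (x : ℤ) {s : ℝ} (hs : 0 ≤ s) :
    Ld C s x = (∑ z ∈ Finset.Icc (x - 1) (x + 1) \ {0}, C.p x z * Ld C s z) +
      (1 - Real.exp (-s)) * (C.p x 0 +
        ∑ z ∈ Finset.Icc (x - 1) (x + 1) \ {0}, C.p x z * Lq C s z) := by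
  have h1 : Tendsto (fun N : ℕ => ∑ n ∈ range (N + 1), K0 C n x * (1 - Real.exp (-(s * n))))
      atTop (𝓝 (Ld C s x)) := (TailD.ld_tendsto C x hs).comp (tendsto_add_atTop_nat 1)
  have h2 : Tendsto (fun N : ℕ => C.p x 0 * (1 - Real.exp (-s)) +
      ∑ z ∈ Finset.Icc (x - 1) (x + 1) \ {0}, C.p x z *
        (∑ n ∈ range N, K0 C n z * (1 - Real.exp (-(s * n))) +
          (1 - Real.exp (-s)) * ∑ n ∈ range N, K0 C n z * Real.exp (-(s * n)))) atTop
      (𝓝 (C.p x 0 * (1 - Real.exp (-s)) +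
        ∑ z ∈ Finset.Icc (x - 1) (x + 1) \ {0}, C.p x z *
          (Ld C s z + (1 - Real.exp (-s)) * Lq C s z))) := by
    apply tendsto_const_nhds.add
    apply tendsto_finsetSum
    intro z _
    apply Tendsto.const_mul
    exact (TailD.ld_tendsto C z hs).add ((TailD.lq_tendsto C z hs).const_mul _)
  have h4 := tendsto_nhds_unique h1 (h2.congr' (by
    filter_upwards [eventually_ne_atTop 0] with N hN
    have h3 := pt_succ C (fun _ => 0) s N x
    simp only [TailD.kv0, Real.exp_zero, mul_one, if_neg hN] at h3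
    exact h3.symm))
  rw [h4, mul_add, Finset.mul_sum]
  rw [add_comm (∑ z ∈ Finset.Icc (x - 1) (x + 1) \ {0}, C.p x z * Ld C s z), add_assoc,
    ← Finset.sum_add_distrib]
  congr 1
  · ring
  · refine Finset.sum_congr rfl fun z _ => ?_
    ring

end

end Pool.Agent.HG
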