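import Pool.Agent.Lib.MP_daa227_pr_HG.QDef
import Pool.Agent.Lib.MP_daa227_pr_HG.TailD

/-!
# MP_daa227_pr, project Q: recurrence from the scale function
-/

namespace Pool.Agent.HG

open MeasureTheory ProbabilityTheory Finset Filter Topology
open MP_daa227_pr (Chain Zk Zf Gk Gf KU K0 Ren shift seqLaw ExpMom DepOn Good GoodW mom)
open Pool.Agent.HZ (Mod Kv lmg)

noncomputable section

namespace QRec

/-- `P_x(T_0 < ∞)` -/
def T (C : Chain) (x : ℤ) : ℝ := ∑' n : ℕ, K0 C n x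

theorem T_eq_Lq (C : Chain) (x : ℤ) : T C x = Lq C 0 x := by
  unfold T Lq
  refine tsum_congr fun n => ?_
  rw [zero_mul, neg_zero, Real.exp_zero, mul_one]

theorem T_nonneg (C : Chain) (x : ℤ) : 0 ≤ T C x := tsum_nonneg fun n => TailD.nn C n x

theorem T_le_one (C : Chain) (x : ℤ) : T C x ≤ 1 := by
  refine (TailD.summable_K0 C x).tsum_le_of_sum_range_le fun N => ?_
  have h1 := HZ.HalfLine.Gf_K0 C N x (fun _ => 0)
  have h2 := HZ.HalfLine.Gf_nonneg C {0} N x (fun _ => 0)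
  rw [Finset.sum_range_succ] at h1
  have h3 := TailD.nn C N x
  linarith

theorem Icc3 (x : ℤ) : Finset.Icc (x - 1) (x + 1) = {x - 1, x, x + 1} := by
  ext z
  simp only [Finset.mem_Icc, Finset.mem_insert, Finset.mem_singleton]
  omega

theorem sum3 (x : ℤ) (f : ℤ → ℝ) :
    ∑ z ∈ Finset.Icc (x - 1) (x + 1), f z = f (x - 1) + f x + f (x + 1) := by
  rw [Icc3, Finset.sum_insert, Finset.sum_insert, Finset.sum_singleton]
  · ring
  · simp
  · simp only [Finset.mem_insert, Finset.mem_singleton]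
    omega

theorem p_add {C : Chain} (hnl : ∀ x, C.p x x = 0) (x : ℤ) :
    C.p x (x - 1) + C.p x (x + 1) = 1 := by
  have h := C.sum_one x
  rw [sum3, hnl] at h
  linarith

/-- the recursion of `T` -/
theorem T_rec (C : Chain) (x : ℤ) :
    T C x = C.p x 0 + ∑ z ∈ Finset.Icc (x - 1) (x + 1) \ {0}, C.p x z * T C z := by
  rw [T_eq_Lq, lq_eq C x le_rfl, neg_zero, Real.exp_zero, one_mul]
  congr 1
  exact Finset.sum_congr rfl fun z _ => by rw [T_eq_Lq]

theorem T_one {C : Chain} (hnl : ∀ x, C.p x x = 0) : T C 1 = C.p 1 0 + C.p 1 2 * T C 2 := by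
  rw [T_rec C 1]
  congr 1
  have h : Finset.Icc ((1 : ℤ) - 1) (1 + 1) \ {0} = {1, 2} := by decide
  rw [h, Finset.sum_pair (by norm_num), hnl, zero_mul, zero_add]

theorem T_ge_two {C : Chain} (hnl : ∀ x, C.p x x = 0) {x : ℤ} (hx : 2 ≤ x) :
    T C x = C.p x (x - 1) * T C (x - 1) + C.p x (x + 1) * T C (x + 1) := by
  rw [T_rec C x]
  have h0 : C.p x 0 = 0 := C.near x 0 (by rw [Finset.mem_Icc]; omega)
  have h1 : Finset.Icc (x - 1) (x + 1) \ {0} = Finset.Icc (x - 1) (x + 1) := by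
    ext z
    simp only [Finset.mem_sdiff, Finset.mem_Icc, Finset.mem_singleton]
    omega
  rw [h0, zero_add, h1, sum3 x (fun z => C.p x z * T C z), hnl]
  ring

/-- `P_n(T_0 = ∞)`, `0` at `0` -/
def pi (C : Chain) (n : ℕ) : ℝ := if n = 0 then 0 else 1 - T C n

theorem pi_zero (C : Chain) : pi C 0 = 0 := if_pos rfl

theorem pi_succ (C : Chain) (n : ℕ) : pi C (n + 1) = 1 - T C ((n : ℤ) + 1) := by
  unfold pi
  rw [if_neg (Nat.succ_ne_zero n)]
  push_cast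
  rfl

theorem pi_le_one (C : Chain) (n : ℕ) : pi C n ≤ 1 := by
  cases n with
  | zero => rw [pi_zero]; norm_num
  | succ n =>
    rw [pi_succ]
    have := T_nonneg C ((n : ℤ) + 1)
    linarith

theorem pi_step {C : Chain} (hnl : ∀ x, C.p x x = 0) (n : ℕ) :
    C.p ((n : ℤ) + 1) ((n : ℤ) + 2) * (pi C (n + 2) - pi C (n + 1)) =
      C.p ((n : ℤ) + 1) n * (pi C (n + 1) - pi C n) := by
  have hs := p_add hnl ((n : ℤ) + 1)
  rw [show (n : ℤ) + 1 - 1 = n by ring, show (n : ℤ) + 1 + 1 = (n : ℤ) + 2 by ring] at hs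
  have e2 : pi C (n + 2) = 1 - T C ((n : ℤ) + 2) := by
    rw [show n + 2 = (n + 1) + 1 from rfl, pi_succ]
    push_cast
    rw [show (n : ℤ) + 1 + 1 = (n : ℤ) + 2 by ring]
  have e1 := pi_succ C n
  cases n with
  | zero =>
    have h1 := T_one hnl
    rw [e1, e2, pi_zero]
    norm_num at h1 hs ⊢
    linear_combination h1 + T C 1 * hs
  | succ n =>
    have h1 := T_ge_two (C := C) hnl (x := ((n + 1 : ℕ) : ℤ) + 1) (by push_cast; omega)
    rw [show ((n + 1 : ℕ) : ℤ) + 1 - 1 = ((n + 1 : ℕ) : ℤ) by ring,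
      show ((n + 1 : ℕ) : ℤ) + 1 + 1 = ((n + 1 : ℕ) : ℤ) + 2 by ring] at h1
    have e0 : pi C (n + 1) = 1 - T C ((n + 1 : ℕ) : ℤ) := by
      rw [pi_succ]
      push_cast
      rfl
    rw [e1, e2, e0]
    linear_combination h1 + T C (((n + 1 : ℕ) : ℤ) + 1) * hs

end QRec

/-- Let `T x = ∑' n, K0 C n x` (`TailD.summable_K0`), `0 ≤ T x ≤ 1` (`P_x(T_0 < ∞)`); for `x ≥ 1`
`T x = C.p x 0 + ∑_{z ≠ 0} C.p x z T z` (recursion of `K0`). So `π x = 1 - T x` for `x ≥ 1`, `π 0 = 0`,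
satisfies `C.p x (x+1) (π (x+1) - π x) = C.p x (x-1) (π x - π (x-1))`, hence by `hrel`
`π (x+1) - π x = (ρ x / ρ 0) π 1` and `π x = π 1 / ρ 0 ∑_{y<x} ρ y`. As `π ≤ 1` and the sums diverge,
`π 1 = 0`. -/
theorem rec_side {C : Chain} {ρ : ℕ → ℝ} (hnl : ∀ x, C.p x x = 0) (hρ : ∀ n, 0 < ρ n)
    (hrel : ∀ n : ℕ, C.p ((n : ℤ) + 1) ((n : ℤ) + 2) * ρ (n + 1) = C.p ((n : ℤ) + 1) n * ρ n)
    (hdiv : Tendsto (fun N : ℕ => ∑ n ∈ range N, ρ n) atTop atTop) :
    HasSum (fun n : ℕ => K0 C n 1) 1 := by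
  have hD : ∀ n : ℕ, (QRec.pi C (n + 1) - QRec.pi C n) * ρ 0 = QRec.pi C 1 * ρ n := by
    intro n
    induction n with
    | zero => rw [QRec.pi_zero, sub_zero]
    | succ n ih =>
      have hp : 0 < C.p ((n : ℤ) + 1) ((n : ℤ) + 2) := by
        have := C.up ((n : ℤ) + 1)
        rwa [show (n : ℤ) + 1 + 1 = (n : ℤ) + 2 by ring] at this
      have h1 := QRec.pi_step hnl n
      have h2 := hrel n
      have h3 : C.p ((n : ℤ) + 1) ((n : ℤ) + 2) *
          ((QRec.pi C (n + 1 + 1) - QRec.pi C (n + 1)) * ρ 0) =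
          C.p ((n : ℤ) + 1) ((n : ℤ) + 2) * (QRec.pi C 1 * ρ (n + 1)) := by
        rw [show n + 1 + 1 = n + 2 from rfl]
        linear_combination ρ 0 * h1 + C.p ((n : ℤ) + 1) n * ih - QRec.pi C 1 * h2
      exact mul_left_cancel₀ hp.ne' h3
  have hS : ∀ N : ℕ, QRec.pi C N * ρ 0 = QRec.pi C 1 * ∑ n ∈ range N, ρ n := by
    intro N
    induction N with
    | zero => rw [QRec.pi_zero]; simp
    | succ N ih =>
      rw [Finset.sum_range_succ]
      linear_combination ih + hD N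
  have h1 : QRec.pi C 1 ≤ 0 := by
    by_contra hc
    rw [not_le] at hc
    have h2 := (hdiv.const_mul_atTop hc).eventually_gt_atTop (ρ 0)
    obtain ⟨N, hN⟩ := h2.exists
    have h3 := hS N
    have h4 := QRec.pi_le_one C N
    have h5 := hρ 0
    nlinarith
  have h2 : QRec.T C 1 = 1 := by
    have h3 := QRec.pi_succ C 0
    have h4 := QRec.T_le_one C 1
    norm_num at h3
    linarith
  have h3 := (TailD.summable_K0 C 1).hasSum
  rwa [show ∑' n : ℕ, K0 C n 1 = 1 from h2] at h3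

/-- `K0 C (n+1) 0 = C.p 0 1 K0 C n 1 + C.p 0 (-1) K0 C n (-1)` for `n ≥ 1` (both sides are `0` for
`n = 0`, no holding at `0`), and `K0 (cneg C) n 1 = K0 C n (-1)` (`HZ.Kv_cneg`, `HZ.Kv_K0`). -/
theorem rec_join {C : Chain} (hnl : ∀ x, C.p x x = 0) (h1 : HasSum (fun n : ℕ => K0 C n 1) 1)
    (h2 : HasSum (fun n : ℕ => K0 (HZ.cneg C) n 1) 1) :
    HasSum (fun n : ℕ => K0 C (n + 1) 0) 1 := by
  have e1 : ∀ n : ℕ, K0 (HZ.cneg C) n 1 = K0 C n (-1) := by
    intro n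
    have h := HZ.Kv_cneg C (fun _ => 0) n 1
    rw [← HZ.Kv_K0, ← HZ.Kv_K0]
    exact h
  have e2 : ∀ n : ℕ, K0 C (n + 1) 0 = C.p 0 (-1) * K0 C n (-1) + C.p 0 1 * K0 C n 1 := by
    intro n
    rw [K0]
    have h : Finset.Icc ((0 : ℤ) - 1) (0 + 1) \ {0} = {-1, 1} := by decide
    rw [h, Finset.sum_pair (by norm_num), hnl]
    simp
  have hs := QRec.p_add hnl 0
  rw [zero_sub, zero_add] at hs
  have h3 : HasSum (fun n : ℕ => C.p 0 (-1) * K0 C n (-1) + C.p 0 1 * K0 C n 1)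
      (C.p 0 (-1) * 1 + C.p 0 1 * 1) := by
    refine HasSum.add (HasSum.mul_left _ ?_) (HasSum.mul_left _ h1)
    simpa only [e1] using h2
  rw [mul_one, mul_one, hs] at h3
  simpa only [e2] using h3

/-- `rec_side` on the right with `ρ`, on the left (for `cneg C`) with `ρ' n = ((1-δ)/δ)^n`, whose sums
diverge because `δ ≤ 1/2`. -/
theorem rec_q {C : Chain} {ρ : ℕ → ℝ} {α ε δ : ℝ} (h : QC C ρ α ε δ) (hδ : 0 < δ)
    (hδ2 : δ ≤ 1 / 2) : HasSum (fun n : ℕ => K0 C (n + 1) 0) 1 := by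
  have hr : 1 ≤ (1 - δ) / δ := by
    rw [le_div_iff₀ hδ]
    linarith
  refine rec_join h.nl (rec_side h.nl h.rho_pos h.rel h.rho_div)
    (rec_side (ρ := fun n => ((1 - δ) / δ) ^ n) (fun x => h.nl (-x))
      (fun n => pow_pos (by linarith) n) ?_ ?_)
  · intro n
    have a1 : (HZ.cneg C).p ((n : ℤ) + 1) ((n : ℤ) + 2) = δ := by
      have := h.left_dn (-((n : ℤ) + 1)) (by omega)
      change C.p (-((n : ℤ) + 1)) (-((n : ℤ) + 2)) = δ
      rwa [show -((n : ℤ) + 1) - 1 = -((n : ℤ) + 2) by ring] at this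
    have a2 : (HZ.cneg C).p ((n : ℤ) + 1) n = 1 - δ := by
      have := h.left_up (-((n : ℤ) + 1)) (by omega)
      change C.p (-((n : ℤ) + 1)) (-(n : ℤ)) = 1 - δ
      rwa [show -((n : ℤ) + 1) + 1 = -(n : ℤ) by ring] at this
    rw [a1, a2]
    simp only [pow_succ]
    field_simp
  · refine tendsto_atTop_mono (fun N => ?_) tendsto_natCast_atTop_atTop
    calc (N : ℝ) = ∑ _n ∈ range N, (1 : ℝ) := by simp
      _ ≤ ∑ n ∈ range N, ((1 - δ) / δ) ^ n :=
        Finset.sum_le_sum fun n _ => one_le_pow₀ hr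

end

end Pool.Agent.HG
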