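import Mathlib

/-!
# MP_daa227_pr, project Q: two numerical facts
-/

namespace Pool.Agent.HG

open Finset Filter Topology

noncomputable section

namespace QNum

theorem log3 : 1 < Real.log 3 := by
  rw [Real.lt_log_iff_exp_lt (by norm_num)]
  linarith [Real.exp_one_lt_d9]

theorem log3' (n : ℕ) : 1 < Real.log ((n : ℝ) + 3) :=
  log3.trans_le (Real.log_le_log (by norm_num) (by linarith [(Nat.cast_nonneg n : (0 : ℝ) ≤ n)]))

theorem log_sq {x : ℝ} (hx : 1 ≤ x) : Real.log x ^ 2 ≤ 16 * √x := by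
  have h0 : 0 ≤ x := by linarith
  have h1 : 0 < √(√x) := Real.sqrt_pos.2 (Real.sqrt_pos.2 (by linarith))
  have h2 : Real.log (√(√x)) = Real.log x / 4 := by
    rw [Real.log_sqrt (Real.sqrt_nonneg x), Real.log_sqrt h0]
    ring
  have h3 := Real.log_le_sub_one_of_pos h1
  have h4 : √(√x) ^ 2 = √x := Real.sq_sqrt (Real.sqrt_nonneg x)
  have h5 : 0 ≤ Real.log x := Real.log_nonneg hx
  have h6 : Real.log x ≤ 4 * √(√x) := by linarith
  calc Real.log x ^ 2 ≤ (4 * √(√x)) ^ 2 := pow_le_pow_left₀ h5 h6 2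
    _ = 16 * √x := by rw [mul_pow, h4]; norm_num

end QNum

/-- `∑_{y<R} (log (y+3))⁻² ≤ C R (log (R+3))⁻²`: the terms with `y ≤ √R` are at most `1 / (log 3)² ≤ 1`
each, and `√R + 1 ≤ C R / (log (R+3))²`; the others are at most `4 / (log (R + 3))²`, because
`log (y+3) ≥ log (√R + 3) ≥ log (R+3) / 2`. -/
theorem q_num_a : ∃ C₁ : ℝ, 1 ≤ C₁ ∧ ∀ R : ℕ, 1 ≤ R →
    ∑ y ∈ range R, 1 / Real.log ((y : ℝ) + 3) ^ 2 ≤ C₁ * R / Real.log ((R : ℝ) + 3) ^ 2 := by
  refine ⟨68, by norm_num, fun R hR => ?_⟩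
  obtain ⟨L, hL⟩ : ∃ L, L = Real.log ((R : ℝ) + 3) := ⟨_, rfl⟩
  have hL1 : 1 < L := by
    rw [hL]
    exact QNum.log3' R
  have hL0 : 0 < L ^ 2 := by positivity
  have hR1 : (1 : ℝ) ≤ R := by exact_mod_cast hR
  rw [← hL]
  have hpt : ∀ y ∈ range R, 1 / Real.log ((y : ℝ) + 3) ^ 2 ≤
      4 / L ^ 2 + if (y + 3) ^ 2 < R + 3 then 1 else 0 := by
    intro y _
    have hy := QNum.log3' y
    split_ifs with h
    · have h1 : 1 / Real.log ((y : ℝ) + 3) ^ 2 ≤ 1 := by
        rw [div_le_one (by positivity)]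
        nlinarith
      have h2 : 0 ≤ 4 / L ^ 2 := by positivity
      linarith
    · rw [add_zero]
      have h1 : ((R : ℝ) + 3) ≤ ((y : ℝ) + 3) ^ 2 := by
        have h3 : R + 3 ≤ (y + 3) ^ 2 := not_lt.1 h
        exact_mod_cast h3
      have h2 : L ≤ 2 * Real.log ((y : ℝ) + 3) := by
        rw [hL]
        refine (Real.log_le_log (by positivity) h1).trans (le_of_eq ?_)
        rw [Real.log_pow]
        norm_num
      rw [div_le_div_iff₀ (by positivity) hL0]
      nlinarith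
  have hcard : (((range R).filter (fun y => (y + 3) ^ 2 < R + 3)).card : ℝ) ≤
      √((R : ℝ) + 3) := by
    have h1 : (range R).filter (fun y => (y + 3) ^ 2 < R + 3) ⊆ range (Nat.sqrt (R + 3)) := by
      intro y hy
      have h2 := (Finset.mem_filter.1 hy).2
      rw [Finset.mem_range]
      exact Nat.le_sqrt.2 (by nlinarith)
    have h2 := Finset.card_le_card h1
    rw [Finset.card_range] at h2
    have h3 : (((range R).filter (fun y => (y + 3) ^ 2 < R + 3)).card : ℝ) ≤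
        (Nat.sqrt (R + 3) : ℝ) := by exact_mod_cast h2
    refine h3.trans (Real.nat_sqrt_le_real_sqrt.trans (le_of_eq ?_))
    push_cast
    rfl
  have h64 : √((R : ℝ) + 3) ≤ 64 * R / L ^ 2 := by
    rw [le_div_iff₀ hL0]
    have h1 : L ^ 2 ≤ 16 * √((R : ℝ) + 3) := by
      rw [hL]
      exact QNum.log_sq (by linarith)
    have h2 : √((R : ℝ) + 3) * √((R : ℝ) + 3) = (R : ℝ) + 3 := Real.mul_self_sqrt (by linarith)
    have h3 := mul_le_mul_of_nonneg_left h1 (Real.sqrt_nonneg ((R : ℝ) + 3))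
    nlinarith
  refine (Finset.sum_le_sum hpt).trans ?_
  rw [Finset.sum_add_distrib, Finset.sum_const, Finset.card_range, nsmul_eq_mul,
    ← Finset.sum_filter, Finset.sum_const, nsmul_eq_mul, mul_one]
  have h5 : (R : ℝ) * (4 / L ^ 2) + 64 * R / L ^ 2 = 68 * R / L ^ 2 := by ring
  linarith

/-- `1 / log (n+2) - 1 / log (n+3) ≥ 1 / ((n+3) (log (n+3))²)` (as `log (1 + t) ≥ t / (1 + t)`), so
the sum telescopes; the fourth power and `1 / (n+1)` instead of `1 / (n+3)` cost constants. -/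
theorem q_num_b : ∃ C₂ : ℝ, 0 < C₂ ∧ ∀ N : ℕ,
    ∑ n ∈ range N, 1 / (((n : ℝ) + 1) * Real.log ((n : ℝ) + 3) ^ 4) ≤ C₂ := by
  have h2 : 0 < Real.log 2 := Real.log_pos (by norm_num)
  refine ⟨3 / Real.log 2, by positivity, fun N => ?_⟩
  have hind : ∀ N : ℕ, ∑ n ∈ range N, 1 / (((n : ℝ) + 1) * Real.log ((n : ℝ) + 3) ^ 4) ≤
      3 / Real.log 2 - 3 / Real.log ((N : ℝ) + 2) := by
    intro N
    induction N with
    | zero => simp
    | succ n ih =>
      rw [Finset.sum_range_succ]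
      have hn : (0 : ℝ) ≤ n := Nat.cast_nonneg n
      have hl3 := QNum.log3' n
      have hl2 : 0 < Real.log ((n : ℝ) + 2) := Real.log_pos (by linarith)
      have hle : Real.log ((n : ℝ) + 2) ≤ Real.log ((n : ℝ) + 3) :=
        Real.log_le_log (by linarith) (by linarith)
      have hd : 1 / ((n : ℝ) + 3) ≤ Real.log ((n : ℝ) + 3) - Real.log ((n : ℝ) + 2) := by
        have h1 := Real.one_sub_inv_le_log_of_pos
          (show 0 < ((n : ℝ) + 3) / ((n : ℝ) + 2) by positivity)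
        rw [Real.log_div (by positivity) (by positivity)] at h1
        refine le_trans (le_of_eq ?_) h1
        field_simp
        ring
      have h3 : 1 / (((n : ℝ) + 1) * Real.log ((n : ℝ) + 3) ^ 4) ≤
          3 * (1 / ((n : ℝ) + 3) / (Real.log ((n : ℝ) + 3)) ^ 2) := by
        have e1 : 3 * (1 / ((n : ℝ) + 3) / (Real.log ((n : ℝ) + 3)) ^ 2) =
            3 / (((n : ℝ) + 3) * (Real.log ((n : ℝ) + 3)) ^ 2) := by
          field_simp
        rw [e1, div_le_div_iff₀ (by positivity) (by positivity)]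
        have h4 : 1 ≤ Real.log ((n : ℝ) + 3) ^ 2 := one_le_pow₀ hl3.le
        have h5 : ((n : ℝ) + 3) ≤ 3 * ((n : ℝ) + 1) := by linarith
        have h6 : Real.log ((n : ℝ) + 3) ^ 2 ≤ Real.log ((n : ℝ) + 3) ^ 4 :=
          pow_le_pow_right₀ hl3.le (by norm_num)
        calc 1 * (((n : ℝ) + 3) * Real.log ((n : ℝ) + 3) ^ 2)
            ≤ (3 * ((n : ℝ) + 1)) * Real.log ((n : ℝ) + 3) ^ 4 := by
              rw [one_mul]
              exact mul_le_mul h5 h6 (by positivity) (by positivity)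
          _ = 3 * (((n : ℝ) + 1) * Real.log ((n : ℝ) + 3) ^ 4) := by ring
      have h7 : 1 / ((n : ℝ) + 3) / (Real.log ((n : ℝ) + 3)) ^ 2 ≤
          1 / Real.log ((n : ℝ) + 2) - 1 / Real.log ((n : ℝ) + 3) := by
        have e2 : 1 / Real.log ((n : ℝ) + 2) - 1 / Real.log ((n : ℝ) + 3) =
            (Real.log ((n : ℝ) + 3) - Real.log ((n : ℝ) + 2)) /
              (Real.log ((n : ℝ) + 2) * Real.log ((n : ℝ) + 3)) := by
          field_simp
        rw [e2]
        refine div_le_div₀ (by linarith [show 0 ≤ 1 / ((n : ℝ) + 3) by positivity]) hd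
          (by positivity) ?_
        rw [sq]
        exact mul_le_mul_of_nonneg_right hle (by linarith)
      have e3 : ((n + 1 : ℕ) : ℝ) + 2 = (n : ℝ) + 3 := by
        push_cast
        ring
      rw [e3]
      have e4 : 3 / Real.log ((n : ℝ) + 2) = 3 * (1 / Real.log ((n : ℝ) + 2)) := by ring
      have e5 : 3 / Real.log ((n : ℝ) + 3) = 3 * (1 / Real.log ((n : ℝ) + 3)) := by ring
      rw [e4] at ih
      rw [e5]
      linarith
  refine (hind N).trans ?_
  have hN : 0 < Real.log ((N : ℝ) + 2) :=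
    Real.log_pos (by linarith [(Nat.cast_nonneg N : (0 : ℝ) ≤ N)])
  have h4 : 0 ≤ 3 / Real.log ((N : ℝ) + 2) := by positivity
  linarith

/-- `∑ 1 / (n+1)² ≤ 2` -/
theorem q_num_c (N : ℕ) : ∑ n ∈ range N, 1 / ((n : ℝ) + 1) ^ 2 ≤ 2 := by
  have hind : ∀ N : ℕ, ∑ n ∈ range (N + 1), 1 / ((n : ℝ) + 1) ^ 2 ≤ 2 - 1 / ((N : ℝ) + 1) := by
    intro N
    induction N with
    | zero => norm_num
    | succ n ih =>
      rw [Finset.sum_range_succ]
      have hn : (0 : ℝ) ≤ n := Nat.cast_nonneg n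
      have h1 : 1 / (((n + 1 : ℕ) : ℝ) + 1) ^ 2 ≤
          1 / ((n : ℝ) + 1) - 1 / (((n + 1 : ℕ) : ℝ) + 1) := by
        push_cast
        have e1 : 1 / ((n : ℝ) + 1) - 1 / ((n : ℝ) + 1 + 1) =
            1 / (((n : ℝ) + 1) * ((n : ℝ) + 1 + 1)) := by
          field_simp
          ring
        rw [e1]
        refine one_div_le_one_div_of_le (by positivity) ?_
        nlinarith
      linarith
  rcases Nat.eq_zero_or_pos N with h0 | h0
  · rw [h0]
    simp
  · obtain ⟨M, rfl⟩ : ∃ M, N = M + 1 := ⟨N - 1, by omega⟩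
    refine (hind M).trans ?_
    have h1 : 0 ≤ 1 / ((M : ℝ) + 1) := by positivity
    linarith

end

end Pool.Agent.HG
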