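import Pool.Agent.Lib.MP_daa227_pr_HG.QDef

/-!
# MP_daa227_pr, project Q: lower bound for the survival probability
-/

namespace Pool.Agent.HG

open MeasureTheory ProbabilityTheory Finset Filter Topology
open MP_daa227_pr (Chain Zk Zf Gk Gf KU K0 Ren shift seqLaw ExpMom DepOn Good GoodW mom)
open Pool.Agent.HZ (Mod Kv lmg)

noncomputable section

theorem QTail.icc3 (x : ℤ) : Finset.Icc (x - 1) (x + 1) = {x - 1, x, x + 1} := by
  ext y
  simp only [Finset.mem_Icc, Finset.mem_insert, Finset.mem_singleton]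
  omega

/-- the survival probability -/
def QTail.B (C : Chain) (m : ℕ) (x : ℤ) : ℝ := 1 - ∑ j ∈ range (m + 1), K0 C j x

theorem QTail.B_zero (C : Chain) (x : ℤ) : QTail.B C 0 x = 1 := by
  simp [QTail.B, K0]

theorem QTail.B_succ (C : Chain) (m : ℕ) (x : ℤ) :
    QTail.B C (m + 1) x = ∑ z ∈ Finset.Icc (x - 1) (x + 1) \ {0}, C.p x z * QTail.B C m z := by
  have h1 : ∑ j ∈ range (m + 1 + 1), K0 C j x =
      C.p x 0 + ∑ z ∈ Finset.Icc (x - 1) (x + 1) \ {0}, C.p x z * ∑ j ∈ range (m + 1), K0 C j z := by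
    rw [Finset.sum_range_succ']
    simp only [K0, add_zero]
    rw [Finset.sum_add_distrib, Finset.sum_comm]
    congr 1
    · rw [Finset.sum_eq_single 0]
      · simp
      · intro b _ hb
        rw [if_neg hb]
      · intro hh
        exact absurd (Finset.mem_range.2 (Nat.succ_pos m)) hh
    · refine Finset.sum_congr rfl (fun z _ => ?_)
      rw [Finset.mul_sum]
  have h2 : C.p x 0 + ∑ z ∈ Finset.Icc (x - 1) (x + 1) \ {0}, C.p x z = 1 := by
    have h3 := C.sum_one x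
    by_cases h0 : (0 : ℤ) ∈ Finset.Icc (x - 1) (x + 1)
    · rw [← h3, ← Finset.sum_sdiff (Finset.singleton_subset_iff.2 h0), Finset.sum_singleton]
      ring
    · rw [C.near x 0 h0, zero_add, Finset.sdiff_singleton_eq_erase, Finset.erase_eq_of_notMem h0]
      exact h3
  unfold QTail.B
  rw [h1]
  simp only [mul_sub, mul_one, Finset.sum_sub_distrib]
  linarith

theorem QTail.nb {C : Chain} {ρ : ℕ → ℝ} {α ε δ : ℝ} (h : QC C ρ α ε δ) (k : ℕ) :
    C.p ((k : ℤ) + 1) ((k : ℤ) + 2) + C.p ((k : ℤ) + 1) k = 1 := by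
  have h3 := C.sum_one ((k : ℤ) + 1)
  rw [QTail.icc3, Finset.sum_insert, Finset.sum_insert, Finset.sum_singleton, h.nl] at h3
  · have e1 : (k : ℤ) + 1 - 1 = k := by ring
    have e2 : (k : ℤ) + 1 + 1 = k + 2 := by ring
    rw [e1, e2] at h3
    linarith
  · simp
  · simp only [Finset.mem_insert, Finset.mem_singleton]
    omega

theorem QTail.B_step {C : Chain} {ρ : ℕ → ℝ} {α ε δ : ℝ} (h : QC C ρ α ε δ) (m k : ℕ) :
    QTail.B C (m + 1) ((k : ℤ) + 1) =
      C.p ((k : ℤ) + 1) ((k : ℤ) + 2) * QTail.B C m ((k : ℤ) + 2) +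
      (if k = 0 then 0 else C.p ((k : ℤ) + 1) k * QTail.B C m k) := by
  rw [QTail.B_succ, QTail.icc3]
  have e1 : (k : ℤ) + 1 - 1 = k := by ring
  have e2 : (k : ℤ) + 1 + 1 = k + 2 := by ring
  rw [e1, e2]
  by_cases hk : k = 0
  · subst hk
    have e3 : ({((0 : ℕ) : ℤ), ((0 : ℕ) : ℤ) + 1, ((0 : ℕ) : ℤ) + 2} : Finset ℤ) \ {0} =
        {((0 : ℕ) : ℤ) + 1, ((0 : ℕ) : ℤ) + 2} := by
      ext y
      simp only [Finset.mem_sdiff, Finset.mem_insert, Finset.mem_singleton]
      push_cast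
      omega
    rw [e3, Finset.sum_insert, Finset.sum_singleton, h.nl]
    · simp
    · simp
  · have e3 : ({(k : ℤ), (k : ℤ) + 1, (k : ℤ) + 2} : Finset ℤ) \ {0} =
        {(k : ℤ), (k : ℤ) + 1, (k : ℤ) + 2} := by
      ext y
      simp only [Finset.mem_sdiff, Finset.mem_insert, Finset.mem_singleton]
      omega
    rw [e3, Finset.sum_insert, Finset.sum_insert, Finset.sum_singleton, h.nl, if_neg hk]
    · ring
    · simp
    · simp only [Finset.mem_insert, Finset.mem_singleton]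
      omega

theorem QTail.s_ge {ρ : ℕ → ℝ} (ha : ∀ n, ρ (n + 1) ≤ ρ n) (n : ℕ) :
    (n : ℝ) * ρ n ≤ ∑ y ∈ range n, ρ y := by
  have hanti : Antitone ρ := antitone_nat_of_succ_le ha
  have h1 : ∑ _y ∈ range n, ρ n ≤ ∑ y ∈ range n, ρ y :=
    Finset.sum_le_sum (fun y hy => hanti (Finset.mem_range.1 hy).le)
  rw [Finset.sum_const, Finset.card_range, nsmul_eq_mul] at h1
  exact h1

/-- Lower bound for `P_1(T_0 > m)`. Let `s x = ∑_{y<x} ρ y` (`x : ℕ`; `s 0 = 0`, `s 1 = 1`),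
`p = C.p x (x+1)`, `q = C.p x (x-1)`, `p + q = 1` for `x ≥ 1`. Then `p s(x+1) + q s(x-1) = s x`
(`p ρ x = q ρ (x-1)`, `h.rel`) and
`p (x+1)² s(x+1) + q (x-1)² s(x-1) = (x²+1) s x + 2x ((p-q) s x + p ρ x + q ρ (x-1))
≤ x² s x + 20 s x`, because `x (p-q) ≤ 7` (`h.dr_le`), `p ρ x + q ρ (x-1) = 2 p ρ x ≤ 2 ρ x` and
`x ρ x ≤ s x` (`ρ` nonincreasing). So `H m x = (s x - (x² s x + 20 m s x) / R²) / s R` satisfies
`H (m+1) x ≤ p H m (x+1) + q H m (x-1)`, `H m 0 = 0`, `H 0 x ≤ 1` (`x ≤ R`: `s x ≤ s R`; `x > R`: it is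
`≤ 0`). The survival probability `B m x = 1 - ∑_{j<m+1} K0 C j x`, `x ≥ 1`, satisfies `B 0 x = 1`,
`B (m+1) x = ∑_{z ≠ 0} C.p x z B m z` (recursion of `K0`, `C.sum_one`), so `H m x ≤ B m x` for `x ≥ 1` by
induction on `m`; take `x = 1`. -/
theorem surv_low {C : Chain} {ρ : ℕ → ℝ} {α ε δ : ℝ} (h : QC C ρ α ε δ) (m : ℕ) {R : ℕ}
    (hR : 1 ≤ R) : (1 - (1 + 20 * (m : ℝ)) / (R : ℝ) ^ 2) / ∑ y ∈ range R, ρ y ≤
      1 - ∑ j ∈ range (m + 1), K0 C j 1 := by
  set s : ℕ → ℝ := fun n => ∑ y ∈ range n, ρ y with hs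
  have hRr : (0 : ℝ) < R := by exact_mod_cast hR
  have hR2 : (0 : ℝ) < (R : ℝ) ^ 2 := by positivity
  have hs0 : ∀ n, 0 ≤ s n := fun n => Finset.sum_nonneg (fun y _ => (h.rho_pos y).le)
  have hsm : Monotone s := fun a b hab => Finset.sum_le_sum_of_subset_of_nonneg
    (Finset.range_mono hab) (fun y _ _ => (h.rho_pos y).le)
  have hs1 : s 1 = 1 := by simp [hs, h.rho_zero]
  have hsR : 0 < s R := lt_of_lt_of_le (by rw [hs1]; exact one_pos) (hsm hR)
  have hss : ∀ n, s (n + 1) = s n + ρ n := fun n => Finset.sum_range_succ _ _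
  set H : ℕ → ℕ → ℝ := fun m n =>
    (s n - ((n : ℝ) ^ 2 * s n + 20 * m * s n) / (R : ℝ) ^ 2) / s R with hH
  have hmain : ∀ m n : ℕ, 1 ≤ n → H m n ≤ QTail.B C m (n : ℤ) := by
    intro m
    induction m with
    | zero =>
      intro n _
      rw [QTail.B_zero]
      simp only [hH]
      rw [div_le_one hsR]
      have e : s n - ((n : ℝ) ^ 2 * s n + 20 * ((0 : ℕ) : ℝ) * s n) / (R : ℝ) ^ 2 =
          s n * (1 - (n : ℝ) ^ 2 / (R : ℝ) ^ 2) := by
        push_cast
        field_simp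
        ring
      rw [e]
      rcases le_or_gt n R with hnR | hnR
      · have h1 : s n * (1 - (n : ℝ) ^ 2 / (R : ℝ) ^ 2) ≤ s n * 1 := by
          apply mul_le_mul_of_nonneg_left _ (hs0 n)
          have : 0 ≤ (n : ℝ) ^ 2 / (R : ℝ) ^ 2 := by positivity
          linarith
        linarith [hsm hnR]
      · have h1 : (1 : ℝ) - (n : ℝ) ^ 2 / (R : ℝ) ^ 2 ≤ 0 := by
          rw [sub_nonpos, one_le_div hR2]
          have : (R : ℝ) ≤ n := by exact_mod_cast hnR.le
          gcongr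
        have := mul_nonpos_of_nonneg_of_nonpos (hs0 n) h1
        linarith
    | succ m ih =>
      intro n hn
      obtain ⟨k, rfl⟩ : ∃ k, n = k + 1 := ⟨n - 1, by omega⟩
      have hBs := QTail.B_step h m k
      have ecast : (((k + 1 : ℕ)) : ℤ) = (k : ℤ) + 1 := by push_cast; ring
      rw [ecast, hBs]
      set p := C.p ((k : ℤ) + 1) ((k : ℤ) + 2) with hp
      set q := C.p ((k : ℤ) + 1) k with hq
      have hp0 : 0 ≤ p := C.nonneg _ _
      have hq0 : 0 ≤ q := C.nonneg _ _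
      have hpq : p + q = 1 := QTail.nb h k
      have hrel : p * ρ (k + 1) = q * ρ k := h.rel k
      have hdr : ((k : ℝ) + 1) * (p - q) ≤ 7 := h.dr_le k
      have h1 : H m (k + 2) ≤ QTail.B C m ((k : ℤ) + 2) := by
        have := ih (k + 2) (by omega)
        push_cast at this
        exact this
      have h2 : q * H m k ≤ (if k = 0 then 0 else q * QTail.B C m k) := by
        by_cases hk : k = 0
        · rw [if_pos hk, hk]
          simp [hH, hs]
        · rw [if_neg hk]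
          exact mul_le_mul_of_nonneg_left (ih k (by omega)) hq0
      have h3 : p * H m (k + 2) ≤ p * QTail.B C m ((k : ℤ) + 2) :=
        mul_le_mul_of_nonneg_left h1 hp0
      refine le_trans ?_ (add_le_add h3 h2)
      have hsk1 := hss k
      have hsk2 : s (k + 2) = s (k + 1) + ρ (k + 1) := hss (k + 1)
      have hge : ((k : ℝ) + 1) * ρ (k + 1) ≤ s (k + 1) := by
        have := QTail.s_ge h.rho_anti (k + 1)
        push_cast at this
        exact this
      have hp1 : p ≤ 1 := by linarith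
      have hrp := (h.rho_pos (k + 1)).le
      have hS := hs0 (k + 1)
      -- the key inequality
      have e1 : p * s (k + 2) + q * s k = s (k + 1) := by
        have : s k = s (k + 1) - ρ k := by linarith
        rw [hsk2, this]
        linear_combination s (k + 1) * hpq + hrel
      have key : p * (((k : ℝ) + 2) ^ 2 * s (k + 2)) + q * ((k : ℝ) ^ 2 * s k) ≤
          (((k : ℝ) + 1) ^ 2 + 20) * s (k + 1) := by
        have e2 : p * (((k : ℝ) + 2) ^ 2 * s (k + 2)) + q * ((k : ℝ) ^ 2 * s k) =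
            (((k : ℝ) + 1) ^ 2 + 1) * s (k + 1) +
            2 * (((k : ℝ) + 1) * (p - q)) * s (k + 1) + 4 * ((k : ℝ) + 1) * (p * ρ (k + 1)) := by
          have hsk : s k = s (k + 1) - ρ k := by linarith
          rw [hsk2, hsk]
          linear_combination (((k : ℝ) + 1) ^ 2 + 1) * s (k + 1) * hpq +
            ((k : ℝ) ^ 2) * hrel
        have i1 : 2 * (((k : ℝ) + 1) * (p - q)) * s (k + 1) ≤ 14 * s (k + 1) := by
          nlinarith
        have i2 : ((k : ℝ) + 1) * (p * ρ (k + 1)) ≤ s (k + 1) := by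
          have i3 : p * (((k : ℝ) + 1) * ρ (k + 1)) ≤ 1 * (((k : ℝ) + 1) * ρ (k + 1)) := by
            apply mul_le_mul_of_nonneg_right hp1
            positivity
          linarith
        rw [e2]
        linarith
      simp only [hH]
      rw [← mul_div_assoc, ← mul_div_assoc, ← add_div]
      apply div_le_div_of_nonneg_right _ hsR.le
      have e4 : p * (s (k + 2) - (((k + 2 : ℕ) : ℝ) ^ 2 * s (k + 2) + 20 * m * s (k + 2)) /
          (R : ℝ) ^ 2) + q * (s k - ((k : ℝ) ^ 2 * s k + 20 * m * s k) / (R : ℝ) ^ 2) =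
          (p * s (k + 2) + q * s k) - ((p * (((k : ℝ) + 2) ^ 2 * s (k + 2)) +
            q * ((k : ℝ) ^ 2 * s k)) + 20 * m * (p * s (k + 2) + q * s k)) / (R : ℝ) ^ 2 := by
        push_cast
        field_simp
        ring
      rw [e4, e1]
      have e5 : (p * (((k : ℝ) + 2) ^ 2 * s (k + 2)) + q * ((k : ℝ) ^ 2 * s k) +
          20 * m * s (k + 1)) / (R : ℝ) ^ 2 ≤
          ((((k + 1 : ℕ) : ℝ)) ^ 2 * s (k + 1) + 20 * ((m + 1 : ℕ) : ℝ) * s (k + 1)) /
            (R : ℝ) ^ 2 := by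
        apply div_le_div_of_nonneg_right _ hR2.le
        push_cast
        linarith
      linarith
  have hfin := hmain m 1 le_rfl
  simp only [hH] at hfin
  rw [hs1] at hfin
  have e6 : (1 - (1 + 20 * (m : ℝ)) / (R : ℝ) ^ 2) / s R =
      (1 - (((1 : ℕ) : ℝ) ^ 2 * 1 + 20 * m * 1) / (R : ℝ) ^ 2) / s R := by
    push_cast
    ring_nf
  change (1 - (1 + 20 * (m : ℝ)) / (R : ℝ) ^ 2) / s R ≤ _
  rw [e6]
  exact hfin

end

end Pool.Agent.HG
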