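import Pool.Agent.Lib.MP_daa227_pr_HG.QAnti
import Pool.Agent.Lib.MP_daa227_pr_HG.QTail
import Pool.Agent.Lib.MP_daa227_pr_HG.QNum
import Pool.Agent.Lib.MP_daa227_pr_HG.NSv

/-!
# MP_daa227_pr, project Q: small squares of the return probabilities
-/

namespace Pool.Agent.HG

open MeasureTheory ProbabilityTheory Finset Filter Topology
open MP_daa227_pr (Chain Zk Zf Gk Gf KU K0 Ren shift seqLaw ExpMom DepOn Good GoodW mom)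
open Pool.Agent.HZ (Mod Kv lmg)

noncomputable section

namespace QSq

/-- the first return from the origin -/
theorem k0_zero {C : Chain} {ρ : ℕ → ℝ} {α ε δ : ℝ} (h : QC C ρ α ε δ) (j : ℕ) :
    K0 C (2 * (j + 1)) 0 = (1 - δ) * K0 C (2 * j + 1) 1 + δ * K0 C (2 * j + 1) (-1) := by
  have e1 : 2 * (j + 1) = (2 * j + 1) + 1 := by ring
  rw [e1, K0, if_neg (by omega), zero_add]
  have e2 : (Finset.Icc ((0 : ℤ) - 1) (0 + 1)) \ {0} = {1, -1} := by decide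
  rw [e2, Finset.sum_pair (by norm_num)]
  have h1 := h.left_up 0 le_rfl
  have h2 := h.left_dn 0 le_rfl
  rw [zero_add] at h1
  rw [zero_sub] at h2
  rw [h1, h2]

theorem sum_odd_le (C : Chain) (x : ℤ) (n : ℕ) :
    ∑ j ∈ range n, K0 C (2 * j + 1) x ≤ ∑ j ∈ range (2 * n), K0 C j x := by
  induction n with
  | zero => simp
  | succ n ih =>
    rw [Finset.sum_range_succ, show 2 * (n + 1) = 2 * n + 1 + 1 by ring, Finset.sum_range_succ,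
      Finset.sum_range_succ]
    have h1 := MP_daa227_pr.K0_nonneg C (2 * n) x
    linarith

/-- lower bound for `Q n` -/
theorem q_low {C : Chain} {ρ : ℕ → ℝ} {α ε δ : ℝ} (h : QC C ρ α ε δ) (hδ : 0 ≤ δ) (hδ1 : δ ≤ 1)
    (n : ℕ) : (1 - δ) * (1 - ∑ j ∈ range (2 * n), K0 C j 1) ≤
      1 - ∑ j ∈ range n, K0 C (2 * (j + 1)) 0 := by
  have e1 : ∑ j ∈ range n, K0 C (2 * (j + 1)) 0 = (1 - δ) * ∑ j ∈ range n, K0 C (2 * j + 1) 1 +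
      δ * ∑ j ∈ range n, K0 C (2 * j + 1) (-1) := by
    rw [Finset.mul_sum, Finset.mul_sum, ← Finset.sum_add_distrib]
    exact Finset.sum_congr rfl fun j _ => k0_zero h j
  have h1 := sum_odd_le C 1 n
  have h2 := (sum_odd_le C (-1) n).trans (NSv.k0_psum C (2 * n) (-1))
  rw [e1]
  have h3 := mul_le_mul_of_nonneg_left h1 (sub_nonneg.2 hδ1)
  have h4 := mul_le_mul_of_nonneg_left h2 hδ
  linarith

/-- bound for the scale function -/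
theorem s_le {C : Chain} {ρ : ℕ → ℝ} {α ε δ C₁ : ℝ} (h : QC C ρ α ε δ) (hε : 0 ≤ ε)
    (hC : ∀ R : ℕ, 1 ≤ R →
      ∑ y ∈ range R, 1 / Real.log ((y : ℝ) + 3) ^ 2 ≤ C₁ * R / Real.log ((R : ℝ) + 3) ^ 2)
    {R : ℕ} (hR : 1 ≤ R) :
    ∑ y ∈ range R, ρ y ≤ 1 + ε * (C₁ * R / Real.log ((R : ℝ) + 3) ^ 2) := by
  obtain ⟨M, rfl⟩ : ∃ M, R = M + 1 := ⟨R - 1, by omega⟩
  have h1 : ∑ y ∈ range (M + 1), ρ y ≤
      1 + ε * ∑ y ∈ range (M + 1), 1 / Real.log ((y : ℝ) + 3) ^ 2 := by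
    rw [Finset.sum_range_succ', Finset.sum_range_succ', h.rho_zero, mul_add, Finset.mul_sum]
    have h2 : ∑ k ∈ range M, ρ (k + 1) ≤
        ∑ k ∈ range M, ε * (1 / Real.log (((k + 1 : ℕ) : ℝ) + 3) ^ 2) := by
      refine Finset.sum_le_sum fun k _ => (h.rho_le (k + 1) (by omega)).trans (le_of_eq ?_)
      ring
    have h3 : 0 ≤ ε * (1 / Real.log (((0 : ℕ) : ℝ) + 3) ^ 2) := by positivity
    linarith
  have h2 := mul_le_mul_of_nonneg_left (hC (M + 1) hR) hε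
  linarith

theorem log_half {R n : ℝ} (hn : 1 ≤ n) (hR : √n ≤ R) :
    Real.log (n + 2) ≤ 2 * Real.log (R + 3) := by
  have h1 : 0 ≤ √n := Real.sqrt_nonneg n
  have h2 : √n * √n = n := Real.mul_self_sqrt (by linarith)
  have h3 : n + 2 ≤ (R + 3) ^ 2 := by nlinarith
  calc Real.log (n + 2) ≤ Real.log ((R + 3) ^ 2) := Real.log_le_log (by linarith) h3
    _ = 2 * Real.log (R + 3) := by rw [Real.log_pow]; norm_num

/-- the main estimate -/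
theorem q_main {C : Chain} {ρ : ℕ → ℝ} {α ε δ C₁ K : ℝ} (h : QC C ρ α ε δ) (hε : 0 ≤ ε)
    (hC1 : 1 ≤ C₁) (hC : ∀ R : ℕ, 1 ≤ R →
      ∑ y ∈ range R, 1 / Real.log ((y : ℝ) + 3) ^ 2 ≤ C₁ * R / Real.log ((R : ℝ) + 3) ^ 2)
    (hδ : 0 ≤ δ) (hδ1 : δ ≤ 1) (hK : 10 ≤ K) {n : ℕ} (hn : 1 ≤ n) :
    (1 - δ) * (1 - 40 / K ^ 2) ≤ (1 + 8 * C₁ * ε * K * √n / Real.log ((n : ℝ) + 2) ^ 2) *
      (1 - ∑ j ∈ range n, K0 C (2 * (j + 1)) 0) := by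
  have hn1 : (1 : ℝ) ≤ n := by exact_mod_cast hn
  have hs1 : 1 ≤ √(n : ℝ) := Real.one_le_sqrt.2 hn1
  have hs2 : √(n : ℝ) * √(n : ℝ) = n := Real.mul_self_sqrt (by linarith)
  have hKs : 10 ≤ K * √(n : ℝ) := by nlinarith
  obtain ⟨R, hRd⟩ : ∃ R : ℕ, R = ⌈K * √(n : ℝ)⌉₊ := ⟨_, rfl⟩
  have hR1 : K * √(n : ℝ) ≤ R := by
    rw [hRd]
    exact Nat.le_ceil _
  have hR2 : (R : ℝ) ≤ 2 * (K * √(n : ℝ)) := by
    have := Nat.ceil_lt_add_one (show 0 ≤ K * √(n : ℝ) by linarith)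
    rw [← hRd] at this
    linarith
  have hRpos : 1 ≤ R := by
    have : (1 : ℝ) ≤ R := by linarith
    exact_mod_cast this
  have hR0 : (0 : ℝ) < R := by exact_mod_cast hRpos
  have hL : Real.log ((n : ℝ) + 2) ≤ 2 * Real.log ((R : ℝ) + 3) :=
    log_half hn1 (by nlinarith)
  have hL1 : 0 < Real.log ((n : ℝ) + 2) := Real.log_pos (by linarith)
  have hL2 : 0 < Real.log ((R : ℝ) + 3) := Real.log_pos (by linarith)
  have hs := s_le h hε hC hRpos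
  have hs' : ∑ y ∈ range R, ρ y ≤
      1 + 8 * C₁ * ε * K * √n / Real.log ((n : ℝ) + 2) ^ 2 := by
    refine hs.trans ?_
    have h1 : C₁ * R / Real.log ((R : ℝ) + 3) ^ 2 ≤
        8 * C₁ * K * √n / Real.log ((n : ℝ) + 2) ^ 2 := by
      rw [div_le_div_iff₀ (by positivity) (by positivity)]
      have h2 : Real.log ((n : ℝ) + 2) ^ 2 ≤ 4 * Real.log ((R : ℝ) + 3) ^ 2 := by nlinarith
      have h3 : C₁ * R ≤ C₁ * (2 * (K * √(n : ℝ))) := by gcongr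
      have h4 : 0 ≤ C₁ * (2 * (K * √(n : ℝ))) := by positivity
      calc C₁ * R * Real.log ((n : ℝ) + 2) ^ 2
          ≤ (C₁ * (2 * (K * √(n : ℝ)))) * (4 * Real.log ((R : ℝ) + 3) ^ 2) :=
            mul_le_mul h3 h2 (by positivity) h4
        _ = 8 * C₁ * K * √n * Real.log ((R : ℝ) + 3) ^ 2 := by ring
    have h2 := mul_le_mul_of_nonneg_left h1 hε
    have h3 : ε * (8 * C₁ * K * √n / Real.log ((n : ℝ) + 2) ^ 2) =
        8 * C₁ * ε * K * √n / Real.log ((n : ℝ) + 2) ^ 2 := by ring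
    linarith
  have hspos : 0 < ∑ y ∈ range R, ρ y :=
    Finset.sum_pos (fun y _ => h.rho_pos y) ⟨0, by simpa using (show 0 < R by omega)⟩
  have hsurv := surv_low h (2 * n - 1) hRpos
  have e1 : 2 * n - 1 + 1 = 2 * n := by omega
  rw [e1] at hsurv
  have e2 : ((2 * n - 1 : ℕ) : ℝ) = 2 * (n : ℝ) - 1 := by
    rw [Nat.cast_sub (by omega)]
    push_cast
    ring
  rw [e2] at hsurv
  have hX0 : 0 ≤ 8 * C₁ * ε * K * √n / Real.log ((n : ℝ) + 2) ^ 2 := by positivity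
  have hR3 : (1 + 20 * (2 * (n : ℝ) - 1)) / (R : ℝ) ^ 2 ≤ 40 / K ^ 2 := by
    rw [div_le_div_iff₀ (by positivity) (by positivity)]
    have h1 : K ^ 2 * n ≤ (R : ℝ) ^ 2 := by
      have h2 : (K * √(n : ℝ)) ^ 2 ≤ (R : ℝ) ^ 2 := pow_le_pow_left₀ (by linarith) hR1 2
      rw [mul_pow, Real.sq_sqrt (by linarith)] at h2
      exact h2
    nlinarith [sq_nonneg K]
  have hB : 1 - 40 / K ^ 2 ≤
      (1 + 8 * C₁ * ε * K * √n / Real.log ((n : ℝ) + 2) ^ 2) *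
        (1 - ∑ j ∈ range (2 * n), K0 C j 1) := by
    have hQ0 : 0 ≤ 1 - ∑ j ∈ range (2 * n), K0 C j 1 := by
      have := NSv.k0_psum C (2 * n) 1
      linarith
    rw [div_le_iff₀ hspos] at hsurv
    have h2 := mul_le_mul_of_nonneg_left hs' hQ0
    linarith
  have hq := q_low h hδ hδ1 n
  have h5 := mul_le_mul_of_nonneg_left hB (sub_nonneg.2 hδ1)
  have h6 := mul_le_mul_of_nonneg_left hq
    (show 0 ≤ 1 + 8 * C₁ * ε * K * √n / Real.log ((n : ℝ) + 2) ^ 2 by linarith)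
  linarith

theorem theta_arith {θ X : ℝ} (h1 : 1 / 2 ≤ θ) (h2 : θ ≤ 1) (hX : 0 ≤ X) :
    1 + X ≤ θ * (1 + (2 * (1 - θ) + 2 * X)) := by
  nlinarith [mul_nonneg (sub_nonneg.2 h1) (sub_nonneg.2 h2), mul_nonneg (sub_nonneg.2 h1) hX]

end QSq

/-- For `n ≥ 1`: `K0 C (2(j+1)) 0 = (1-δ) K0 C (2j+1) 1 + δ K0 C (2j+1) (-1)`, the sums of `K0 C · (-1)`
are at most `1`, so `Q n = 1 - ∑_{j<n} K0 C (2(j+1)) 0 ≥ (1-δ) (1 - ∑_{j<2n} K0 C j 1)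
≥ (1-δ) (1 - 40 n / R²) / s R` for every `R ≥ 1` (`surv_low` with `m = 2n - 1`, and
`1 + 20 (2n-1) ≤ 40 n`). Take a real `K ≥ 10` and `R = ⌈K √n⌉`: `40 n / R² ≤ 40 / K²`,
`R ≤ 2 K √n`, `s R ≤ 1 + ε ∑_{1≤y<R} (log (y+3))⁻² ≤ 1 + ε C₁ R / (log (R+3))² ≤
1 + 8 C₁ ε K √n / (log (n+2))²` (`q_num_a`; `(√n + 3)² ≥ n + 2`). With `θ = (1-δ)(1-40/K²) ≥ 1/2`:
`1 / Q n ≤ (1 + X n) / θ ≤ 1 + 2 (1-θ) + 2 X n`, `X n = 8 C₁ ε K √n / (log (n+2))²`; so `u_sq` applies with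
`e n = 2 (1-θ) + 2 X n` and `∑ (e (n+1) / (n+1))² ≤ 16 (1-θ)² + 8 · 64 C₁² ε² K² C₂ ` (`q_num_b`, `q_num_c`,
`(a+b)² ≤ 2a² + 2b²`). Finally `1 - θ ≤ δ + 40 / K²`: choose `K`, then `ε` and `δ₀`. -/
theorem small_sq {ε₁ : ℝ} (h : 0 < ε₁) : ∃ ε δ₀ : ℝ, 0 < ε ∧ ε ≤ 1 ∧ 0 < δ₀ ∧
    ∀ (δ : ℝ) (C : Chain) (ρ : ℕ → ℝ) (α : ℝ), 0 < δ → δ ≤ δ₀ → QC C ρ α ε δ → ∀ N : ℕ,
      ∑ n ∈ range N, HZ.Zd C (fun _ => 0) (n + 1) 0 0 ^ 2 ≤ ε₁ ^ 2 := by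
  obtain ⟨C₁, hC1, hCa⟩ := q_num_a
  obtain ⟨C₂, hC2, hCb⟩ := q_num_b
  obtain ⟨η, hη⟩ : ∃ η, η = min (ε₁ / 8) (1 / 2) := ⟨_, rfl⟩
  have hη0 : 0 < η := by
    rw [hη]
    exact lt_min (by positivity) (by norm_num)
  have hη1 : η ≤ ε₁ / 8 := by
    rw [hη]
    exact min_le_left _ _
  have hη2 : η ≤ 1 / 2 := by
    rw [hη]
    exact min_le_right _ _
  obtain ⟨K, hKd⟩ : ∃ K, K = √(80 / η) := ⟨_, rfl⟩
  have hK2 : K ^ 2 = 80 / η := by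
    rw [hKd]
    exact Real.sq_sqrt (by positivity)
  have hKη : 40 / K ^ 2 = η / 2 := by
    rw [hK2]
    field_simp
    norm_num
  have hK : 10 ≤ K := by
    rw [hKd]
    refine Real.le_sqrt_of_sq_le ?_
    rw [le_div_iff₀ hη0]
    linarith
  have hK0 : 0 < K := by linarith
  obtain ⟨D, hD⟩ : ∃ D, D = 512 * C₁ ^ 2 * K ^ 2 * C₂ := ⟨_, rfl⟩
  have hD0 : 0 < D := by
    rw [hD]
    positivity
  obtain ⟨ε, hε⟩ : ∃ ε, ε = min 1 (ε₁ / (1 + 2 * D)) := ⟨_, rfl⟩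
  have hε0 : 0 < ε := by
    rw [hε]
    exact lt_min one_pos (by positivity)
  have hε1 : ε ≤ 1 := by
    rw [hε]
    exact min_le_left _ _
  have hε2 : ε ≤ ε₁ / (1 + 2 * D) := by
    rw [hε]
    exact min_le_right _ _
  have hεD : ε ^ 2 * D ≤ ε₁ ^ 2 / 2 := by
    have h1 : ε ^ 2 ≤ (ε₁ / (1 + 2 * D)) ^ 2 := pow_le_pow_left₀ hε0.le hε2 2
    have h2 : (ε₁ / (1 + 2 * D)) ^ 2 * D ≤ ε₁ ^ 2 / 2 := by
      rw [div_pow, div_mul_eq_mul_div, div_le_div_iff₀ (by positivity) (by norm_num)]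
      have h3 : D * 2 ≤ (1 + 2 * D) ^ 2 := by nlinarith
      calc ε₁ ^ 2 * D * 2 = ε₁ ^ 2 * (D * 2) := by ring
        _ ≤ ε₁ ^ 2 * (1 + 2 * D) ^ 2 := by gcongr
    exact (mul_le_mul_of_nonneg_right h1 hD0.le).trans h2
  refine ⟨ε, η / 2, hε0, hε1, by positivity, ?_⟩
  intro δ C ρ α hδ hδ1 hQ N
  obtain ⟨θ, hθ⟩ : ∃ θ, θ = (1 - δ) * (1 - 40 / K ^ 2) := ⟨_, rfl⟩
  have hθ1 : 1 - η ≤ θ := by
    rw [hθ, hKη]
    nlinarith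
  have hθ2 : θ ≤ 1 := by
    rw [hθ, hKη]
    nlinarith
  have hu := u_sq C hQ.nl
    (e := fun n => 2 * (1 - θ) + 2 * (8 * C₁ * ε * K * √n / Real.log ((n : ℝ) + 2) ^ 2))
    (fun n hn => by
      have hX : 0 ≤ 8 * C₁ * ε * K * √n / Real.log ((n : ℝ) + 2) ^ 2 := by positivity
      refine ⟨by linarith, ?_⟩
      have h1 := QSq.q_main hQ hε0.le hC1 hCa hδ.le (by linarith) hK hn
      rw [← hθ] at h1
      have h2 := QSq.theta_arith (show 1 / 2 ≤ θ by linarith) hθ2 hX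
      have hQp : 0 < 1 - ∑ j ∈ range n, K0 C (2 * (j + 1)) 0 := by
        refine (pos_iff_pos_of_mul_pos (lt_of_lt_of_le ?_ h1)).1 ?_
        · linarith
        · linarith
      have h3 : 0 < θ := by linarith
      have h4 : (1 + 8 * C₁ * ε * K * √n / Real.log ((n : ℝ) + 2) ^ 2) *
          (1 - ∑ j ∈ range n, K0 C (2 * (j + 1)) 0) ≤
          θ * (1 + (2 * (1 - θ) + 2 * (8 * C₁ * ε * K * √n / Real.log ((n : ℝ) + 2) ^ 2))) *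
          (1 - ∑ j ∈ range n, K0 C (2 * (j + 1)) 0) := mul_le_mul_of_nonneg_right h2 hQp.le
      have h5 := h1.trans h4
      rw [mul_assoc] at h5
      exact le_of_mul_le_mul_left (by linarith) h3) N
  refine hu.trans ?_
  have hterm : ∀ n ∈ range N, ((2 * (1 - θ) + 2 * (8 * C₁ * ε * K * √((n + 1 : ℕ) : ℝ) /
      Real.log (((n + 1 : ℕ) : ℝ) + 2) ^ 2)) / ((n : ℝ) + 1)) ^ 2 ≤
      8 * (1 - θ) ^ 2 * (1 / ((n : ℝ) + 1) ^ 2) +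
      512 * C₁ ^ 2 * ε ^ 2 * K ^ 2 * (1 / (((n : ℝ) + 1) * Real.log ((n : ℝ) + 3) ^ 4)) := by
    intro n _
    have hn0 : (0 : ℝ) < (n : ℝ) + 1 := by positivity
    have hl : 0 < Real.log ((n : ℝ) + 3) := by
      have := QNum.log3' n
      linarith
    have e1 : ((n + 1 : ℕ) : ℝ) = (n : ℝ) + 1 := by push_cast; ring
    have e2 : (n : ℝ) + 1 + 2 = (n : ℝ) + 3 := by ring
    rw [e1, e2]
    obtain ⟨Y, hY⟩ : ∃ Y, Y = 8 * C₁ * ε * K * √((n : ℝ) + 1) / Real.log ((n : ℝ) + 3) ^ 2 :=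
      ⟨_, rfl⟩
    rw [← hY]
    have hY2 : Y ^ 2 / ((n : ℝ) + 1) ^ 2 =
        64 * C₁ ^ 2 * ε ^ 2 * K ^ 2 * (1 / (((n : ℝ) + 1) * Real.log ((n : ℝ) + 3) ^ 4)) := by
      have h1 : Y ^ 2 = 64 * C₁ ^ 2 * ε ^ 2 * K ^ 2 * ((n : ℝ) + 1) /
          Real.log ((n : ℝ) + 3) ^ 4 := by
        rw [hY, div_pow, mul_pow, Real.sq_sqrt hn0.le]
        ring
      rw [h1]
      field_simp
    have h2 : (2 * (1 - θ) + 2 * Y) ^ 2 ≤ 8 * (1 - θ) ^ 2 + 8 * Y ^ 2 := by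
      nlinarith [sq_nonneg ((1 - θ) - Y)]
    calc ((2 * (1 - θ) + 2 * Y) / ((n : ℝ) + 1)) ^ 2
        = (2 * (1 - θ) + 2 * Y) ^ 2 / ((n : ℝ) + 1) ^ 2 := div_pow _ _ _
      _ ≤ (8 * (1 - θ) ^ 2 + 8 * Y ^ 2) / ((n : ℝ) + 1) ^ 2 := by gcongr
      _ = 8 * (1 - θ) ^ 2 * (1 / ((n : ℝ) + 1) ^ 2) + 8 * (Y ^ 2 / ((n : ℝ) + 1) ^ 2) := by ring
      _ = _ := by rw [hY2]; ring
  refine (Finset.sum_le_sum hterm).trans ?_
  rw [Finset.sum_add_distrib, ← Finset.mul_sum, ← Finset.mul_sum]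
  have h1 : 8 * (1 - θ) ^ 2 * ∑ n ∈ range N, 1 / ((n : ℝ) + 1) ^ 2 ≤ 8 * (1 - θ) ^ 2 * 2 :=
    mul_le_mul_of_nonneg_left (q_num_c N) (by positivity)
  have h2 : 512 * C₁ ^ 2 * ε ^ 2 * K ^ 2 *
      ∑ n ∈ range N, 1 / (((n : ℝ) + 1) * Real.log ((n : ℝ) + 3) ^ 4) ≤
      512 * C₁ ^ 2 * ε ^ 2 * K ^ 2 * C₂ := mul_le_mul_of_nonneg_left (hCb N) (by positivity)
  have h3 : 512 * C₁ ^ 2 * ε ^ 2 * K ^ 2 * C₂ = ε ^ 2 * D := by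
    rw [hD]
    ring
  have h4 : 8 * (1 - θ) ^ 2 * 2 ≤ ε₁ ^ 2 / 4 := by
    have h5 : 0 ≤ 1 - θ := by linarith
    have h6 : 1 - θ ≤ ε₁ / 8 := by linarith
    nlinarith
  nlinarith [sq_nonneg ε₁]

end

end Pool.Agent.HG
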