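import Pool.Agent.Lib.MP_daa227_pr_HG.QPair
import Pool.Agent.Lib.MP_daa227_pr_HG.QSq
import Pool.Agent.Lib.MP_daa227_pr_HG.QLeft
import Pool.Agent.Lib.MP_daa227_pr_HG.QRec
import Pool.Agent.Lib.MP_daa227_pr_HG.QCh
import Pool.Agent.Lib.MP_daa227_pr_HG.QLoop

/-!
# MP_daa227_pr, project Q: chains whose copolymer has order `1 / α` at every inverse temperature
-/

namespace Pool.Agent.HG

open MeasureTheory ProbabilityTheory Finset Filter Topology
open scoped ENNReal
open MP_daa227_pr (Chain Zk Zf Gk Gf KU K0 Ren shift seqLaw ExpMom DepOn Good GoodW mom)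
open Pool.Agent.HZ (Mod Kv lmg)

noncomputable section

namespace QFin

/-- symmetric charges -/
def rad : Measure ℝ := (2⁻¹ : ℝ≥0∞) • Measure.dirac (1 : ℝ) + (2⁻¹ : ℝ≥0∞) • Measure.dirac (-1 : ℝ)

instance : IsProbabilityMeasure rad where
  measure_univ := by
    unfold rad
    rw [Measure.add_apply, Measure.smul_apply, Measure.smul_apply, measure_univ, measure_univ,
      smul_eq_mul, mul_one]
    exact ENNReal.inv_two_add_inv_two

theorem rad_int (f : ℝ → ℝ) : Integrable f rad := by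
  unfold rad
  refine Integrable.add_measure ?_ ?_
  · exact (integrable_dirac (by simp)).smul_measure (by simp)
  · exact (integrable_dirac (by simp)).smul_measure (by simp)

theorem rad_eq (f : ℝ → ℝ) : ∫ x, f x ∂rad = 2⁻¹ * f 1 + 2⁻¹ * f (-1) := by
  unfold rad
  rw [integral_add_measure ((integrable_dirac (by simp)).smul_measure (by simp))
    ((integrable_dirac (by simp)).smul_measure (by simp)), integral_smul_measure,
    integral_smul_measure, integral_dirac, integral_dirac]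
  simp

theorem copP_nonneg (x : ℤ) : 0 ≤ copP x := by unfold copP; split_ifs <;> norm_num

theorem copP_le (x : ℤ) : copP x ≤ 1 := by unfold copP; split_ifs <;> norm_num

theorem copP_ind (x : ℤ) : copP x = 0 ∨ copP x = 1 := by
  unfold copP
  split_ifs
  · exact Or.inr rfl
  · exact Or.inl rfl

theorem copP_top : Tendsto copP atTop (𝓝 0) := by
  refine tendsto_const_nhds.congr' ?_
  filter_upwards [eventually_ge_atTop (1 : ℤ)] with x hx
  unfold copP
  rw [if_neg (by omega)]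

theorem copP_bot : Tendsto copP atBot (𝓝 1) := by
  refine tendsto_const_nhds.congr' ?_
  filter_upwards [eventually_le_atBot (0 : ℤ)] with x hx
  unfold copP
  rw [if_pos hx]

/-- a model with the given chain -/
def box (C : Chain) (hrec : HasSum (fun n : ℕ => K0 C (n + 1) 0) 1) : Mod where
  C := C
  μ := rad
  prob := inferInstance
  exp_mom := fun t => rad_int _
  mean := by rw [rad_eq]; norm_num
  var := by rw [rad_eq]; norm_num
  φ := copP
  Φ := 1
  ℓ := 1
  φ_nonneg := copP_nonneg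
  φ_le := copP_le
  Φ_pos := one_pos
  φ_ne := ⟨0, by unfold copP; norm_num⟩
  φ_top := copP_top
  φ_bot := copP_bot
  β := 1
  β_pos := one_pos
  hrec := hrec

end QFin

/-- the chain of project Q -/
theorem q_chain {α κ : ℝ} (hα : 0 < α) (hα2 : α ≤ 1 / 2) (hκ : 0 < κ) :
    ∃ C : Chain, (∀ x, C.p x x = 0) ∧ HasSum (fun n : ℕ => K0 C (n + 1) 0) 1 ∧ ExpLeft C ∧
      KUp C α ∧ (∀ e : ℝ, 0 < e → ∀ᶠ n : ℕ in atTop,
        ((2 * n : ℕ) : ℝ) ^ (-(1 + α + e)) ≤ K0 C (2 * n) 0) ∧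
      ∀ M : Mod, M.C = C → M.φ = copP →
        Real.exp (lmg M.μ (2 * M.β) - 2 * lmg M.μ M.β) ≤ 1 + κ → WB M.μ M.C M.φ M.β := by
  set A : ℝ := 4 + 64 * κ with hA
  set ε₁ : ℝ := 1 / (1 + 8 * κ) with hε₁
  have hA4 : 4 ≤ A := by rw [hA]; linarith
  have hA0 : 0 < A := by linarith
  have hε0 : 0 < ε₁ := by rw [hε₁]; positivity
  have hε1 : ε₁ ≤ 1 := by rw [hε₁, div_le_one (by positivity)]; linarith
  have h1 : 16 * κ / A ^ 2 ≤ 1 / 4 := by
    rw [div_le_iff₀ (by positivity), hA]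
    nlinarith
  have h2 : 2 * κ * ε₁ ^ 2 ≤ 1 / 4 := by
    rw [hε₁, one_div, inv_pow, ← div_eq_mul_inv, div_le_iff₀ (by positivity)]
    nlinarith
  obtain ⟨ε, δ₀, hε, hεle, hδ₀, hsq⟩ := small_sq hε0
  set δ : ℝ := min δ₀ (min (1 / A ^ 2) (1 / 8)) with hδ
  have hδ0 : 0 < δ := lt_min hδ₀ (lt_min (by positivity) (by norm_num))
  have hδA : δ ≤ 1 / A ^ 2 := (min_le_right _ _).trans (min_le_left _ _)
  have hδ8 : δ ≤ 1 / 8 := (min_le_right _ _).trans (min_le_right _ _)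
  obtain ⟨C, ρ, h⟩ := exists_qc hα hα2 hε hεle hδ0 (by linarith)
  have hrec := rec_q h hδ0 (by linarith)
  have hu := hsq δ C ρ α hδ0 (min_le_left _ _) h
  obtain ⟨hup, hlow⟩ := qc_loop h hα (by linarith) hδ0 hδ8 (QFin.box C hrec) rfl rfl
  refine ⟨C, h.nl, hrec, qc_expLeft h hδ0 hδ8, hup, hlow, fun M hC hφ hb => ?_⟩
  have hγ0 : 0 ≤ 2 * ε₁ ^ 2 + 16 / A ^ 2 := by positivity
  have hγ : κ * (2 * ε₁ ^ 2 + 16 / A ^ 2) < 1 := by
    have e : κ * (2 * ε₁ ^ 2 + 16 / A ^ 2) = 2 * κ * ε₁ ^ 2 + 16 * κ / A ^ 2 := by ring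
    rw [e]
    linarith
  refine wb_of_pair M (by rw [hφ]; exact QFin.copP_ind) (by rw [hφ]; unfold copP; norm_num)
    hκ.le hγ0 hγ hb (w := wA A) (fun z _ => one_le_pow₀ (by linarith)) ?_
  intro y hy N
  have hy0 : y ≤ 0 := by
    by_contra hcon
    apply hy
    rw [hφ]
    unfold copP
    rw [if_neg hcon]
  rw [hC, hφ]
  exact left_green h.nl h.left_up h.left_dn hA4 hδ0 hδA hε0.le hε1 hu hy0 N

/-- the bound of `q_chain` holds for all inverse temperatures if the charges have an atom of mass at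
least `q` at their essential supremum and `κ = 1 / q` -/
theorem atom_lmg {μ : Measure ℝ} [IsProbabilityMeasure μ] (hμ : ExpMom μ) {q A b : ℝ} (hq : 0 < q)
    (h0 : μ (Set.Ioi A) = 0) (h1 : ENNReal.ofReal q ≤ μ {A}) (hb : 0 ≤ b) :
    Real.exp (lmg μ (2 * b) - 2 * lmg μ b) ≤ 1 + 1 / q := by
  have hpos : ∀ t : ℝ, 0 < ∫ x, Real.exp (t * x) ∂μ := fun t => integral_exp_pos (hμ t)
  have hle : ∀ᵐ x ∂μ, x ≤ A := by
    rw [ae_iff]
    refine measure_mono_null (fun x hx => ?_) h0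
    simpa using hx
  have h2 : ∫ x, Real.exp (2 * b * x) ∂μ ≤ Real.exp (b * A) * ∫ x, Real.exp (b * x) ∂μ := by
    rw [← integral_const_mul]
    refine integral_mono_ae (hμ _) ((hμ b).const_mul _) ?_
    filter_upwards [hle] with x hx
    rw [← Real.exp_add]
    apply Real.exp_le_exp.2
    nlinarith
  have h3 : q * Real.exp (b * A) ≤ ∫ x, Real.exp (b * x) ∂μ := by
    have h4 : ∫ x in {A}, Real.exp (b * x) ∂μ ≤ ∫ x, Real.exp (b * x) ∂μ :=
      setIntegral_le_integral (hμ b) (ae_of_all _ fun x => (Real.exp_pos _).le)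
    rw [integral_singleton] at h4
    refine le_trans ?_ h4
    rw [smul_eq_mul]
    refine mul_le_mul_of_nonneg_right ?_ (Real.exp_pos _).le
    exact (ENNReal.ofReal_le_iff_le_toReal (measure_ne_top _ _)).1 h1
  have h5 : Real.exp (lmg μ (2 * b) - 2 * lmg μ b) =
      (∫ x, Real.exp (2 * b * x) ∂μ) / (∫ x, Real.exp (b * x) ∂μ) ^ 2 := by
    unfold HZ.lmg
    rw [Real.exp_sub, Real.exp_log (hpos _)]
    congr 1
    have h6 : 2 * Real.log (∫ x, Real.exp (b * x) ∂μ) =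
        Real.log ((∫ x, Real.exp (b * x) ∂μ) ^ 2) := by
      rw [Real.log_pow]
      norm_num
    rw [h6, Real.exp_log (pow_pos (hpos _) 2)]
  rw [h5]
  have h7 : (∫ x, Real.exp (2 * b * x) ∂μ) / (∫ x, Real.exp (b * x) ∂μ) ^ 2 ≤ 1 / q := by
    rw [div_le_div_iff₀ (pow_pos (hpos _) 2) hq]
    have h8 := mul_le_mul_of_nonneg_right h2 hq.le
    have h9 := mul_le_mul_of_nonneg_right h3 (hpos b).le
    nlinarith
  linarith

/-- the bound of `q_chain` holds for small inverse temperatures -/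
theorem small_lmg {μ : Measure ℝ} [IsProbabilityMeasure μ] (hμ : ExpMom μ)
    (hmean : ∫ x, x ∂μ = 0) {κ : ℝ} (hκ : 0 < κ) :
    ∃ β₀ : ℝ, 0 < β₀ ∧ ∀ b : ℝ, 0 < b → b ≤ β₀ →
      Real.exp (lmg μ (2 * b) - 2 * lmg μ b) ≤ 1 + κ := by
  obtain ⟨A, hA, h⟩ := HZ.lmg_quad hμ hmean 2
  have hl : 0 < Real.log (1 + κ) := Real.log_pos (by linarith)
  refine ⟨min 1 (Real.log (1 + κ) / (4 * A)), lt_min one_pos (by positivity), fun b hb hbb => ?_⟩
  have hb1 : b ≤ 1 := hbb.trans (min_le_left _ _)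
  have hb2 : b * (4 * A) ≤ Real.log (1 + κ) := by
    have := hbb.trans (min_le_right _ _)
    rwa [le_div_iff₀ (by positivity)] at this
  have h1 := h (2 * b) (by rw [abs_of_pos (by linarith)]; linarith)
  have h2 := HZ.lmg_nonneg hμ hmean b
  have h3 : lmg μ (2 * b) - 2 * lmg μ b ≤ Real.log (1 + κ) := by nlinarith
  calc Real.exp (lmg μ (2 * b) - 2 * lmg μ b) ≤ Real.exp (Real.log (1 + κ)) :=
        Real.exp_le_exp.2 h3
    _ = 1 + κ := Real.exp_log (by linarith)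

end

end Pool.Agent.HG
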