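import Pool.Agent.Lib.MP_daa227_pr_AS.ProbE

/-!
# MP_daa227_pr, project Q: recurrence on the probability space
-/

namespace Pool.Agent.HG

open MeasureTheory ProbabilityTheory Set Filter
open scoped ENNReal Topology
open MP_daa227_pr (Chain Zk Zf Gk Gf KU K0 ushift shift seqLaw ExpMom Good GoodW mom DepOn)

noncomputable section

theorem return_of_K0 {Ω : Type*} [MeasurableSpace Ω] (P : Measure Ω) [IsProbabilityMeasure P]
    (C : Chain) (S : ℕ → Ω → ℤ) (hS : MP_daa227_pr.IsChain P C.p S)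
    (h0 : HasSum (fun n : ℕ => K0 C (n + 1) 0) 1) : ∀ᵐ w ∂P, ∃ n, 0 < n ∧ S n w = 0 := by
  set E : ℕ → Set Ω := fun n => {w | S (n + 1) w = 0 ∧ ∀ i, 0 < i → i < n + 1 → S i w ≠ 0} with hE
  have hmE : ∀ n, MeasurableSet (E n) := by
    intro n
    have h : E n = S (n + 1) ⁻¹' {0} ∩ ⋂ i : ℕ, ⋂ _ : 0 < i, ⋂ _ : i < n + 1, S i ⁻¹' {0}ᶜ := by
      ext w
      simp [hE]
    rw [h]
    refine (hS.1 _ (measurableSet_singleton _)).inter ?_
    exact MeasurableSet.iInter fun i => MeasurableSet.iInter fun _ => MeasurableSet.iInter fun _ =>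
      hS.1 i (measurableSet_singleton _).compl
  have hdisj : Pairwise (Function.onFun Disjoint E) := by
    intro n m hnm
    rw [Function.onFun, Set.disjoint_left]
    intro w h1 h2
    rcases lt_or_gt_of_ne hnm with h | h
    · exact h2.2 (n + 1) (Nat.succ_pos n) (by omega) h1.1
    · exact h1.2 (m + 1) (Nat.succ_pos m) (by omega) h2.1
  have hP : ∀ n, P (E n) = ENNReal.ofReal (K0 C (n + 1) 0) := by
    intro n
    rw [← MP_daa227_pr.K0_eq_prob P C S hS (n + 1) (Nat.succ_pos n),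
      ENNReal.ofReal_toReal (measure_ne_top _ _)]
  have hU : P (⋃ n, E n) = 1 := by
    rw [measure_iUnion hdisj hmE]
    simp only [hP]
    rw [← ENNReal.ofReal_tsum_of_nonneg (fun n => MP_daa227_pr.K0_nonneg C (n + 1) 0) h0.summable,
      h0.tsum_eq, ENNReal.ofReal_one]
  rw [← prob_compl_eq_zero_iff (MeasurableSet.iUnion hmE)] at hU
  refine measure_mono_null ?_ hU
  intro w hw hcon
  apply hw
  rw [Set.mem_iUnion] at hcon
  obtain ⟨n, hn⟩ := hcon
  exact ⟨n + 1, Nat.succ_pos n, hn.1⟩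

end

end Pool.Agent.HG
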