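import Pool.Agent.Lib.MP_daa227_pr_HG.XBd
import Pool.Agent.Lib.MP_daa227_pr_HG.TMain

/-!
# MP_daa227_pr, indicator potentials, square summable return probabilities: small inverse temperature
-/

namespace Pool.Agent.HG

open MeasureTheory ProbabilityTheory Finset Filter Topology
open MP_daa227_pr (Chain Zk Zf Gk Gf KU K0 Ren shift seqLaw ExpMom DepOn Good GoodW mom)
open Pool.Agent.HZ (Mod Kv lmg)
open Pool.Agent.IOrd (Sys aS cv)

noncomputable section

/-- indicator potentials with an exponential moment along an excursion, square summable return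
probabilities: at small inverse temperature the second moment of the pinned partition functions is
bounded at `h = lmg b` -/
theorem small_ind (M : Mod) (hφ : ∀ z, M.φ z = 0 ∨ M.φ z = 1) {U : ℝ} (hU : 0 ≤ U)
    (hsq : ∀ N : ℕ, ∑ n ∈ range N, HZ.Zd M.C (fun _ => 0) n 0 0 ^ 2 ≤ U ^ 2)
    (hX : ExpPot M.C M.φ) : ∃ β₀ : ℝ, 0 < β₀ ∧ ∀ (b : ℝ), 0 < b → b ≤ β₀ →
      WB M.μ M.C M.φ b := by
  obtain ⟨w, κ₀, B, hκ₀, hB, hw0, hw, hside⟩ := sideX M.C M.φ_nonneg M.φ_le hX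
  obtain ⟨C₁, hC₁, hψ⟩ := ww_le M
  set B₂ : ℝ := B * (1 + U * B) with hB₂
  have hB0 : 0 < B := zero_lt_one.trans_le hB
  have hB₂0 : 0 < B₂ := by rw [hB₂]; positivity
  set D : ℝ := 1 + 2 * C₁ * B₂ ^ 2 with hD
  have hD1 : 1 ≤ D := by
    have h3 : 0 ≤ 2 * C₁ * B₂ ^ 2 := by positivity
    rw [hD]; linarith
  have hD0 : 0 < D := by linarith
  refine ⟨1 / D, by positivity, fun b hb hbD => ?_⟩
  have hb1 : b ≤ 1 := hbD.trans (by rw [div_le_one hD0]; exact hD1)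
  have hb2 : b ^ 2 * D ≤ 1 := by
    have h1 : b * D ≤ 1 := by rwa [le_div_iff₀ hD0] at hbD
    nlinarith
  have hbb : 0 < b ^ 2 := by positivity
  have hp4 : C₁ * b ^ 2 * B₂ ^ 2 ≤ 1 / 2 := by
    have h4 : b ^ 2 * (2 * C₁ * B₂ ^ 2) ≤ 1 := by
      refine le_trans (mul_le_mul_of_nonneg_left ?_ hbb.le) hb2
      rw [hD]; linarith
    nlinarith
  have hv : (withB M b hb).v (lmg M.μ b) = fun _ => (0 : ℝ) := by
    funext z
    have h1 := ind_v (withB M b hb) hφ (lmg M.μ b) z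
    rw [h1]
    change (lmg M.μ b - lmg M.μ b) * M.φ z = 0
    rw [sub_self, zero_mul]
  have hsd := hside (fun _ => (0 : ℝ)) (fun z => mul_nonneg hκ₀.le (M.φ_nonneg z))
  have hgK : ∀ N : ℕ, ∑ n ∈ range N, Kv M.C (fun _ => (0 : ℝ)) n 0 ≤ 1 := by
    intro N
    simp only [HZ.Kv_K0]
    exact k0_sum M.C M.hrec N
  have hzd := zd_bound M.C (fun _ => (0 : ℝ)) hgK hw0 hw hB (fun N x => (hsd N x).2)
  have hf := sq_bound M.C (fun _ => (0 : ℝ)) (w := w) (η := fun z => M.φ z * w z)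
    (fun x => mul_nonneg (M.φ_nonneg x) (hw x)) hw0 hw hB0.le hU (fun N x => (hsd N x).1)
    (fun N x => (hsd N x).2) hsq
  have htwo := fun n => two_bound (withB M b hb) (h := lmg M.μ b) (κ := C₁ * b ^ 2) (by positivity)
    (hψ b hb hb1 _) hw hB0.le hB₂0.le (by rw [hv]; exact hzd) (by rw [hv]; exact hf) hp4 n 0 0
  refine ⟨2, 2 * B ^ 2 * (w 0 * w 0), one_lt_two, fun n => ?_⟩
  have h1 := mom_two (withB M b hb) (lmg M.μ b) (2 * n)
  have h2 : mom M.μ 2 (fun ω =>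
      Zk M.C (fun a z => Real.exp ((b * a - lmg M.μ b) * M.φ z)) (2 * n) ω 0 0) =
    ENNReal.ofReal (D2 (withB M b hb) (lmg M.μ b) (2 * n) 0 0) := h1
  rw [h2]
  exact ENNReal.ofReal_le_ofReal (htwo (2 * n))

end

end Pool.Agent.HG
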