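import Pool.Agent.Lib.MP_daa227_pr_HG.InvSq
import Pool.Agent.Lib.MP_daa227_pr_HG.PolyV

/-!
# MP_daa227_pr: light potentials have exponential moments
-/

namespace Pool.Agent.HG

open MeasureTheory ProbabilityTheory Finset Filter Topology
open MP_daa227_pr (Chain Zk Zf Gk Gf KU K0 Ren shift seqLaw ExpMom DepOn Good GoodW mom)
open Pool.Agent.HZ (Mod Kv lmg)
open Pool.Agent.IOrd (Sys aS cv)

noncomputable section

/-- bounded mean sum of the potential: an exponential moment (Khas'minskii) -/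
theorem expPotR_of_vr {C : Chain} {φ : ℤ → ℝ} (h0 : ∀ x, 0 ≤ φ x) (h : VR C φ) : ExpPotR C φ := by
  obtain ⟨V, K, hV, hs⟩ := h
  have hK : 0 ≤ K := (hV 0 le_rfl).1.trans (hV 0 le_rfl).2
  set κ : ℝ := 1 / (2 * (K + 1)) with hκ
  have hκ0 : 0 < κ := by positivity
  have hκK : 2 * κ * K ≤ 1 := by
    rw [hκ]
    rw [mul_one_div, div_mul_eq_mul_div, div_le_one (by positivity)]
    linarith
  set g : ℤ → ℝ := fun x => 1 + 2 * κ * V x with hg
  set f : ℤ → ℝ := fun x => Real.exp (-(κ * φ x)) * g x with hf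
  have hgp : ∀ x, 0 ≤ x → 1 ≤ g x := fun x hx => by
    have := mul_nonneg (by positivity : 0 ≤ 2 * κ) (hV x hx).1
    simp only [hg]
    linarith
  have hfp : ∀ x, 0 ≤ x → 0 < f x := fun x hx =>
    mul_pos (Real.exp_pos _) (lt_of_lt_of_le one_pos (hgp x hx))
  have hfg : ∀ z, Real.exp (κ * φ z) * f z = g z := fun z => by
    simp only [hf]
    rw [← mul_assoc, ← Real.exp_add, add_neg_cancel, Real.exp_zero, one_mul]
  have hS : HZ.Ssol C (fun z => κ * φ z) 0 f := by
    intro x hx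
    have h1 := hs x (by omega)
    have h2 := C.sum_one x
    rw [HZ.sum_nb x (fun z => C.p x z)] at h2
    have e : C.p x (x - 1) * Real.exp (κ * φ (x - 1)) * f (x - 1) +
        C.p x x * Real.exp (κ * φ x) * f x +
        C.p x (x + 1) * Real.exp (κ * φ (x + 1)) * f (x + 1) =
        C.p x (x - 1) * g (x - 1) + C.p x x * g x + C.p x (x + 1) * g (x + 1) := by
      rw [mul_assoc, mul_assoc, mul_assoc, hfg, hfg, hfg]
    rw [e]
    have h3 : C.p x (x - 1) * g (x - 1) + C.p x x * g x + C.p x (x + 1) * g (x + 1) =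
        1 + 2 * κ * (C.p x (x - 1) * V (x - 1) + C.p x x * V x + C.p x (x + 1) * V (x + 1)) := by
      simp only [hg]
      linear_combination h2
    have h4 : C.p x (x - 1) * g (x - 1) + C.p x x * g x + C.p x (x + 1) * g (x + 1) ≤
        1 + 2 * κ * (V x - φ x) := by
      rw [h3]
      have := mul_le_mul_of_nonneg_left (show C.p x (x - 1) * V (x - 1) + C.p x x * V x +
        C.p x (x + 1) * V (x + 1) ≤ V x - φ x by linarith) (by positivity : 0 ≤ 2 * κ)
      linarith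
    refine h4.trans ?_
    have h5 : 1 - κ * φ x ≤ Real.exp (-(κ * φ x)) := by
      have := Real.add_one_le_exp (-(κ * φ x))
      linarith
    have h6 : (1 - κ * φ x) * g x ≤ f x :=
      mul_le_mul_of_nonneg_right h5 (zero_le_one.trans (hgp x (by omega)))
    refine le_trans ?_ h6
    have h7 : 2 * κ * V x ≤ 1 := by
      refine le_trans ?_ hκK
      exact mul_le_mul_of_nonneg_left (hV x (by omega)).2 (by positivity)
    have h8 : 0 ≤ κ * φ x := mul_nonneg hκ0.le (h0 x)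
    simp only [hg]
    nlinarith
  have hf0 := hfp 0 le_rfl
  refine ⟨κ, f 1 / f 0, hκ0, fun N => ?_⟩
  rw [le_div_iff₀ hf0]
  exact HZ.sum_le_sup C _ f hfp hS N one_pos

/-- exponentially short excursions have an exponential moment -/
theorem expPotR_of_expLeft {C : Chain} {φ : ℤ → ℝ} {Φ : ℝ} (h0 : ∀ x, 0 ≤ φ x)
    (h1 : ∀ x, φ x ≤ Φ) (hΦ : 0 < Φ) (hL : ExpLeft C) :
    ExpPotR (HZ.cneg C) (fun z => φ (-z)) := by
  obtain ⟨κ₀, hκ₀, h2⟩ := ldec_exp C h1 hΦ hL
  obtain ⟨ε, hε, B, h3⟩ := h2 (fun z => κ₀ * φ z) (fun _ => le_rfl) h0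
  refine ⟨κ₀, B, hκ₀, fun N => le_trans (Finset.sum_le_sum fun n _ => ?_) (h3 N)⟩
  have h4 := HZ.Kv_cneg C (fun z => κ₀ * φ z) n 1
  rw [show (fun z => κ₀ * (fun z => φ (-z)) z) = fun z => κ₀ * φ (-z) from rfl]
  rw [h4]
  exact HZ.Kv_mono C (fun z => by linarith) n (-1)

/-- light potentials with light or exponentially short excursions to the left -/
theorem expPot_of_light {C : Chain} {φ : ℤ → ℝ} {Φ : ℝ} (h0 : ∀ x, 0 ≤ φ x)
    (h1 : ∀ x, φ x ≤ Φ) (hΦ : 0 < Φ) (hR : VR C φ) (hL : VL C φ ∨ ExpLeft C) : ExpPot C φ := by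
  refine expPot_join h0 (expPotR_of_vr h0 hR) ?_
  rcases hL with h | h
  · exact expPotR_of_vr (fun x => h0 (-x)) h
  · exact expPotR_of_expLeft h0 h1 hΦ h

end

end Pool.Agent.HG
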