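import Pool.Agent.Lib.MP_daa227_pr_HG.HOne
import Pool.Agent.Lib.MP_daa227_pr_HZ.AnnFree
import Pool.Agent.Lib.MP_daa227_pr_HZ.LevelA

/-!
# MP_daa227_pr: exponential growth of the annealed partition function
-/

namespace Pool.Agent.HG

open MeasureTheory ProbabilityTheory Finset Filter Topology
open MP_daa227_pr (Chain Zk Zf Gk Gf KU K0 Ren shift seqLaw ExpMom DepOn Good GoodW mom)
open Pool.Agent.HZ (Mod Kv lmg)
open Pool.Agent.IOrd (Sys aS cv)

noncomputable section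

namespace YGrow

open Pool.Agent.HZ (Zd Zfd)

theorem Zfd_pos (C : Chain) (v : ℤ → ℝ) : ∀ (n : ℕ) (x : ℤ), 0 < Zfd C v n x
  | 0, x => by
    unfold Zfd
    rw [Zf]
    exact one_pos
  | n + 1, x => by
    unfold Zfd
    rw [Zf]
    refine Finset.sum_pos' (fun z _ => mul_nonneg (mul_nonneg (C.nonneg _ _)
      (Real.exp_pos _).le) (Zfd_pos C v n z).le) ⟨x + 1, ?_, ?_⟩
    · rw [Finset.mem_Icc]
      omega
    · exact mul_pos (mul_pos (C.up x) (Real.exp_pos _)) (Zfd_pos C v n (x + 1))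

theorem Zfd_ge (C : Chain) (v : ℤ → ℝ) : ∀ (m r : ℕ) (x y : ℤ),
    Zd C v m x y * Zfd C v r y ≤ Zfd C v (m + r) x
  | 0, r, x, y => by
    have h0 : Zd C v 0 x y = if x = y then 1 else 0 := by
      unfold Zd
      rw [Zk]
    rw [h0]
    split_ifs with h
    · subst h
      rw [one_mul, Nat.zero_add]
    · rw [zero_mul]
      exact (Zfd_pos C v _ x).le
  | m + 1, r, x, y => by
    have h1 : Zd C v (m + 1) x y =
        ∑ z ∈ Finset.Icc (x - 1) (x + 1), C.p x z * Real.exp (v z) * Zd C v m z y := by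
      unfold Zd
      rw [Zk]
      rfl
    have h2 : Zfd C v (m + r + 1) x =
        ∑ z ∈ Finset.Icc (x - 1) (x + 1), C.p x z * Real.exp (v z) * Zfd C v (m + r) z := by
      unfold Zfd
      rw [Zf]
      rfl
    have h3 : m + 1 + r = m + r + 1 := by omega
    rw [h3, h1, h2, Finset.sum_mul]
    refine Finset.sum_le_sum fun z _ => ?_
    rw [mul_assoc]
    exact mul_le_mul_of_nonneg_left (Zfd_ge C v m r z y)
      (mul_nonneg (C.nonneg _ _) (Real.exp_pos _).le)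

theorem Zd_pow (C : Chain) (v : ℤ → ℝ) (L : ℕ) : ∀ k : ℕ,
    Zd C v L 0 0 ^ k ≤ Zd C v (k * L) 0 0
  | 0 => by
    rw [pow_zero, Nat.zero_mul, Pool.Agent.HZ.Zd_zero]
  | k + 1 => by
    rw [pow_succ, Nat.succ_mul]
    exact (mul_le_mul_of_nonneg_right (Zd_pow C v L k) (Pool.Agent.HZ.Zd_nonneg C v L 0 0)).trans
      (Pool.Agent.HZ.Zd_mul_le C v (k * L) L 0 0 0)

end YGrow

/-- If the annealed excursions have mass larger than one, the annealed (free) partition function grows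
exponentially. `HZ.grow M.C (M.v h) hN` gives `L > 0` with `ρ = Zd L 0 0 > 1`; `HZ.Zd_mul_le` gives
`Zd (k L) 0 0 ≥ ρ^k`; and `Zfd (k L + r) 0 ≥ Zd (k L) 0 0 * Zfd r 0 ≥ ρ^k c`, `c > 0` the minimum of
`Zfd r 0 > 0` over `r < L` (`Zfd (m + r) x ≥ Zd m x 0 * Zfd r 0`, induction on `m`, all terms are
nonnegative; see Lib/MP_daa227_pr_HZ/AnnFree.lean, where also `mom 1 (Zl h N) = ofReal (Zfd N 0)` is
proved, `hid` in `Mod.ann_zero`, from `HZ.A3.mom_Zf`). With `k = N / L`: at least `c ρ^(N/L - 1)`, which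
is at least `exp (a N)` for `a = log ρ / (2 L)` and large `N`. -/
theorem ann_grow (M : Mod) {h : ℝ} {N₀ : ℕ} (hN : 1 < ∑ n ∈ range N₀, M.g h n) :
    ∃ a : ℝ, 0 < a ∧ ∀ᶠ N : ℕ in atTop,
      ENNReal.ofReal (Real.exp (a * N)) ≤ mom M.μ 1 (fun ω => M.Zl h N ω) := by
  obtain ⟨L, hL, -, hρ⟩ := Pool.Agent.HZ.grow M.C (M.v h) hN
  have hL' : (0 : ℝ) < L := by exact_mod_cast hL
  obtain ⟨r₀, -, hmin⟩ := Finset.exists_min_image (Finset.range L)
    (fun r => Pool.Agent.HZ.Zfd M.C (M.v h) r 0) ⟨0, Finset.mem_range.2 hL⟩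
  have hc : 0 < Pool.Agent.HZ.Zfd M.C (M.v h) r₀ 0 := YGrow.Zfd_pos M.C (M.v h) r₀ 0
  set c := Pool.Agent.HZ.Zfd M.C (M.v h) r₀ 0 with hcdef
  set ρ := Pool.Agent.HZ.Zd M.C (M.v h) L 0 0 with hρdef
  have hlog : 0 < Real.log ρ := Real.log_pos hρ
  have hρ0 : 0 < ρ := by linarith
  have ha : 0 < Real.log ρ / (2 * L) := by positivity
  refine ⟨Real.log ρ / (2 * L), ha, ?_⟩
  have hev := ((tendsto_natCast_atTop_atTop (R := ℝ)).const_mul_atTop ha).eventually_ge_atTop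
    (Real.log ρ - Real.log c)
  filter_upwards [hev] with N hNN
  have hid : mom M.μ 1 (fun ω => M.Zl h N ω) =
      ENNReal.ofReal (Pool.Agent.HZ.Zfd M.C (M.v h) N 0) := M.mom_one_Zf h N 0
  rw [hid]
  apply ENNReal.ofReal_le_ofReal
  have h1 : ρ ^ (N / L) * c ≤ Pool.Agent.HZ.Zfd M.C (M.v h) N 0 := by
    have h2 := YGrow.Zfd_ge M.C (M.v h) (N / L * L) (N % L) 0 0
    have h3 : N / L * L + N % L = N := by
      rw [Nat.mul_comm]
      exact Nat.div_add_mod N L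
    rw [h3] at h2
    refine le_trans ?_ h2
    exact mul_le_mul (YGrow.Zd_pow M.C (M.v h) L (N / L))
      (hmin _ (Finset.mem_range.2 (Nat.mod_lt N hL))) hc.le
      (Pool.Agent.HZ.Zd_nonneg M.C (M.v h) _ 0 0)
  refine le_trans ?_ h1
  have h4 : ρ ^ (N / L) * c = Real.exp (((N / L : ℕ) : ℝ) * Real.log ρ + Real.log c) := by
    rw [Real.exp_add, Real.exp_log hc, Real.exp_nat_mul, Real.exp_log hρ0]
  rw [h4]
  apply Real.exp_le_exp.2
  have h5 : (N : ℝ) < L * (((N / L : ℕ) : ℝ) + 1) := by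
    have := Nat.lt_mul_div_succ N hL
    exact_mod_cast this
  have h6 : (N : ℝ) / L - 1 < ((N / L : ℕ) : ℝ) := by
    rw [sub_lt_iff_lt_add, div_lt_iff₀ hL']
    linarith
  have h7 : Real.log ρ / (2 * L) * N + Real.log ρ / (2 * L) * N = (N : ℝ) / L * Real.log ρ := by
    field_simp
    ring
  nlinarith [mul_le_mul_of_nonneg_right h6.le hlog.le]

end

end Pool.Agent.HG
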