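import Pool.Agent.Lib.MP_daa227_pr_HG.YLarge
import Pool.Agent.Lib.MP_daa227_pr_HG.YGrow
import Pool.Agent.Lib.MP_daa227_pr_HG.STail
import Pool.Agent.Lib.MP_daa227_pr_HG.TMain

/-!
# MP_daa227_pr, large inverse temperature: the final statements
-/

namespace Pool.Agent.HG

open MeasureTheory ProbabilityTheory Finset Filter Topology
open MP_daa227_pr (Chain Zk Zf Gk Gf KU K0 Ren shift seqLaw ExpMom DepOn Good GoodW mom)
open Pool.Agent.HZ (Mod Kv lmg)
open Pool.Agent.IOrd (Sys aS cv)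

noncomputable section

/-- a moment of the excursions from the even return times -/
theorem k0_mom_of_up (C : Chain) {α a : ℝ} (hU : KUp C α) (ha : 0 < a) (haα : a < α) :
    Summable (fun n : ℕ => (n : ℝ) ^ a * K0 C n 0) := by
  obtain ⟨a', ha'⟩ : ∃ a', a' = (a + α) / 2 := ⟨_, rfl⟩
  have h1 := hU (α - a') (by linarith)
  have hex : 1 + α - (α - a') = 1 + a' := by ring
  rw [hex] at h1
  have hev : ∀ᶠ n : ℕ in atTop, (n : ℝ) ^ a * K0 C n 0 ≤
      (2 : ℝ) ^ (1 + a') * (n : ℝ) ^ (-(1 + (a' - a))) := by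
    obtain ⟨N, hN⟩ := eventually_atTop.1 h1
    filter_upwards [eventually_ge_atTop (2 * N + 3)] with n hn
    have hn0 : (0 : ℝ) < n := by exact_mod_cast (by omega : 0 < n)
    have hna : 0 ≤ (n : ℝ) ^ a := Real.rpow_nonneg hn0.le a
    have key : K0 C n 0 ≤ (2 : ℝ) ^ (1 + a') * (n : ℝ) ^ (-(1 + a')) := by
      have h2 : K0 C n 0 ≤ ((2 * (n / 2) : ℕ) : ℝ) ^ (-(1 + a')) := by
        rcases Nat.even_or_odd' n with ⟨m, rfl | rfl⟩
        · have h3 := hN m (by omega)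
          have e : 2 * (2 * m / 2) = 2 * m := by omega
          rwa [e]
        · obtain ⟨k, rfl⟩ : ∃ k, m = k + 1 := ⟨m - 1, by omega⟩
          have h3 := hN (k + 1) (by omega)
          have e : 2 * ((2 * (k + 1) + 1) / 2) = 2 * (k + 1) := by omega
          rw [e]
          exact (STail.odd_le C k).trans h3
      refine h2.trans ?_
      have h4 : (n : ℝ) / 2 ≤ ((2 * (n / 2) : ℕ) : ℝ) := by
        have h5 : n ≤ 2 * (2 * (n / 2)) := by omega
        have h6 : (n : ℝ) ≤ 2 * ((2 * (n / 2) : ℕ) : ℝ) := by exact_mod_cast h5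
        linarith
      have h5 : ((2 * (n / 2) : ℕ) : ℝ) ^ (-(1 + a')) ≤ ((n : ℝ) / 2) ^ (-(1 + a')) :=
        Real.rpow_le_rpow_of_nonpos (by positivity) h4 (by linarith)
      refine h5.trans (le_of_eq ?_)
      rw [Real.div_rpow hn0.le two_pos.le, Real.rpow_neg two_pos.le (1 + a'), div_inv_eq_mul,
        mul_comm]
    calc (n : ℝ) ^ a * K0 C n 0 ≤ (n : ℝ) ^ a * ((2 : ℝ) ^ (1 + a') * (n : ℝ) ^ (-(1 + a'))) :=
          mul_le_mul_of_nonneg_left key hna
      _ = (2 : ℝ) ^ (1 + a') * ((n : ℝ) ^ a * (n : ℝ) ^ (-(1 + a'))) := by ring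
      _ = _ := by
          rw [← Real.rpow_add hn0]
          congr 2
          ring
  have hs : Summable fun n : ℕ => (2 : ℝ) ^ (1 + a') * (n : ℝ) ^ (-(1 + (a' - a))) :=
    (Real.summable_nat_rpow.2 (by linarith)).mul_left _
  refine Summable.of_norm_bounded_eventually_nat hs ?_
  filter_upwards [hev] with n hn
  rw [Real.norm_of_nonneg (mul_nonneg (Real.rpow_nonneg (Nat.cast_nonneg n) _)
    (MP_daa227_pr.K0_nonneg _ _ _))]
  exact hn

/-- large inverse temperature: the annealed excursions have mass larger than one at the quenched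
critical point -/
theorem large_gap (M : Mod)
    (hat : ∀ ε : ℝ, 0 < ε → ∃ A : ℝ, 0 < M.μ (Set.Ioi A) ∧ M.μ (Set.Ioi A) ≤ ENNReal.ofReal ε)
    {a : ℝ} (ha : 0 < a) (hS : Summable (fun n : ℕ => (n : ℝ) ^ a * K0 M.C n 0)) :
    ∃ β₁ : ℝ, ∀ (b : ℝ) (hb : 0 < b), β₁ ≤ b → ∀ hc : ℝ,
      (∀ h, 0 < (withB M b hb).Fr h ↔ h < hc) →
      ∃ N : ℕ, 1 < ∑ n ∈ range N, (withB M b hb).g hc n := by
  obtain ⟨β₁, h1⟩ := large_mass M hat ha hS
  refine ⟨β₁, fun b hb hbb hc hcr => ?_⟩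
  by_contra hcon
  push Not at hcon
  have h2 := h1 b hb hbb hc hcon
  have h3 := (hcr (hc - 1)).2 (by linarith)
  linarith

/-- mass larger than one at the critical point: no moment of order larger than one is bounded -/
theorem unbd_of_mass {M : Mod} {hc : ℝ} {N : ℕ} (hN : 1 < ∑ n ∈ range N, M.g hc n) :
    Unbd M hc := by
  intro p hp K
  by_contra hcon
  push Not at hcon
  have := bdd_sum hp hcon N
  linarith

/-- indicator potentials: large inverse temperatures are outside of the interval -/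
theorem wb_large2 (M : Mod) (hφ : ∀ z, M.φ z = 0 ∨ M.φ z = 1)
    (hat : ∀ ε : ℝ, 0 < ε → ∃ A : ℝ, 0 < M.μ (Set.Ioi A) ∧ M.μ (Set.Ioi A) ≤ ENNReal.ofReal ε)
    (hP : PolyCost M) {α : ℝ} (hα : 0 < α) (hU : KUp M.C α) :
    ∃ β₁ : ℝ, ∀ b : ℝ, 0 < b → β₁ ≤ b → ¬ WB M.μ M.C M.φ b := by
  obtain ⟨β₁, h1⟩ := large_gap M hat (a := α / 2) (by linarith)
    (k0_mom_of_up M.C hU (by linarith) (by linarith))
  refine ⟨β₁, fun b hb hbb hw => ?_⟩
  set a : ℝ := min (α / 2) 1 with ha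
  have ha0 : 0 < a := lt_min (by linarith) one_pos
  have ha1 : a ≤ 1 := min_le_right _ _
  have haα : a < α := (min_le_left _ _).trans_lt (by linarith)
  have hcr := wb_crit (withB M b hb) hφ hP ha0 ha1 (ftail_of_up M.C hU ha0 ha1 haα)
    (ftail_of_up_neg M.C hU ha0 ha1 haα) hw
  obtain ⟨N, hN⟩ := h1 b hb hbb _ hcr
  obtain ⟨p, K, hp, hK⟩ := hw
  have hK' : ∀ n : ℕ, mom (withB M b hb).μ p (fun ω => (withB M b hb).Z
      (lmg (withB M b hb).μ (withB M b hb).β) (2 * n) ω) ≤ ENNReal.ofReal K := hK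
  have := bdd_sum hp hK' N
  linarith

end

end Pool.Agent.HG
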