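import Pool.Agent.Lib.MP_daa227_pr_HG.StW
import Pool.Agent.Lib.MP_daa227_pr_HG.XInd
import Pool.Agent.Lib.MP_daa227_pr_HG.QFin
import Pool.Agent.Lib.MP_daa227_pr_HG.QRet
import Pool.Agent.Lib.MP_daa227_pr_HG.YFin
import Pool.Agent.Lib.MP_daa227_pr_HG.XVr
import Pool.Agent.Lib.MP_daa227_pr_HG.LBd
import Pool.Agent.Lib.MP_daa227_pr_HG.ExactW
import Pool.Agent.Lib.MP_daa227_pr_HG.LightA
import Pool.Agent.Lib.MP_daa227_pr_HG.VExt
import Pool.Agent.Lib.MP_daa227_pr_HG.PinI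
import Pool.Agent.Lib.MP_daa227_pr_HZ.Fin
import Pool.Agent.Lib.MP_daa227_pr_HZ.MarkQ
import Pool.Agent.Lib.MP_daa227_pr_HZ.JenQ
import Pool.Agent.Lib.MP_daa227_pr_HZ.MeanLim
import Pool.Agent.Lib.MP_daa227_pr_HZ.AnnFree
import Pool.Agent.Lib.MP_daa227_pr_OT.KProb
import Pool.Agent.Lib.MP_daa227_pr_OT.KConv
import Pool.Agent.Lib.MP_daa227_pr.Mark
import Pool.Agent.Lib.MP_daa227_pr.Occ
import Pool.Agent.Lib.MP_daa227_pr.HcPos
import Pool.Agent.Lib.MP_daa227_pr.ConcLim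

/-!
# MP_daa227_pr: copolymers with a transition of order exactly `1 / α`; small and large inverse
temperatures in general: proof
-/

universe u

open MeasureTheory ProbabilityTheory Set Filter
open scoped ENNReal Topology

namespace Pool.Agent.HGW

open _root_.MP_daa227_pr
open Pool.Agent.HZ

noncomputable section

lemma cross_up {p : ℤ → ℤ → ℝ} (hp : IsKernel p) {x y a : ℤ}
    (h : Relation.ReflTransGen (fun a b => 0 < p a b) x y) (hx : x ≤ a) : a < y → 0 < p a (a + 1) := by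
  induction h with
  | refl => intro hy; omega
  | @tail b c _ hbc ih =>
    intro hc
    by_cases hb : a < b
    · exact ih hb
    · push Not at hb
      have h1 : ¬ 1 < |c - b| := fun h1 => by rw [hp.nearest b c h1] at hbc; exact lt_irrefl _ hbc
      push Not at h1
      rw [abs_le] at h1
      have h2 : b = a := by omega
      have h3 : c = a + 1 := by omega
      rw [h2, h3] at hbc
      exact hbc

lemma cross_down {p : ℤ → ℤ → ℝ} (hp : IsKernel p) {x y a : ℤ}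
    (h : Relation.ReflTransGen (fun a b => 0 < p a b) x y) (hx : a ≤ x) : y < a → 0 < p a (a - 1) := by
  induction h with
  | refl => intro hy; omega
  | @tail b c _ hbc ih =>
    intro hc
    by_cases hb : b < a
    · exact ih hb
    · push Not at hb
      have h1 : ¬ 1 < |c - b| := fun h1 => by rw [hp.nearest b c h1] at hbc; exact lt_irrefl _ hbc
      push Not at h1
      rw [abs_le] at h1
      have h2 : b = a := by omega
      have h3 : c = a - 1 := by omega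
      rw [h2, h3] at hbc
      exact hbc

/-- The bundled chain. -/
def IsKernel.chain {p : ℤ → ℤ → ℝ} (hp : IsKernel p) : Chain where
  p := p
  nonneg := hp.nonneg
  near := by
    intro x y hy
    apply hp.nearest
    rw [Finset.mem_Icc] at hy
    rw [lt_abs]
    omega
  sum_one := by
    intro x
    rw [Occ.sum_Icc]
    exact hp.total x
  up := fun x => cross_up hp (hp.irreducible x (x + 1)) le_rfl (by omega)
  down := fun x => cross_down hp (hp.irreducible x (x - 1)) le_rfl (by omega)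

/-- a potential with limits is bounded -/
lemma bounded_of_lims {φ : ℤ → ℝ} {ℓ : ℝ} (h1 : Tendsto φ atTop (𝓝 0)) (h2 : Tendsto φ atBot (𝓝 ℓ)) :
    ∃ Φ : ℝ, 0 < Φ ∧ ∀ x, φ x ≤ Φ := by
  have h1' : ∀ᶠ x in atTop, φ x < 1 := h1.eventually (gt_mem_nhds one_pos)
  have h2' : ∀ᶠ x in atBot, φ x < ℓ + 1 := h2.eventually (gt_mem_nhds (by linarith))
  obtain ⟨A, hA⟩ := eventually_atTop.1 h1'
  obtain ⟨B, hB⟩ := eventually_atBot.1 h2'
  obtain ⟨Φ, hΦ⟩ := ((Finset.Icc B A).image φ).exists_le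
  refine ⟨max 1 (max Φ (ℓ + 1)), lt_max_of_lt_left one_pos, fun x => ?_⟩
  by_cases hx : A ≤ x
  · exact (hA x hx).le.trans (le_max_left _ _)
  · by_cases hx' : x ≤ B
    · exact (hB x hx').le.trans ((le_max_right _ _).trans (le_max_right _ _))
    · push Not at hx hx'
      exact (hΦ _ (Finset.mem_image_of_mem _ (Finset.mem_Icc.2 ⟨hx'.le, hx.le⟩))).trans
        ((le_max_left _ _).trans (le_max_right _ _))

lemma vr_of_light (C : Chain) {φ : ℤ → ℝ} (h : LightRight C.p φ) : HG.VR C φ := by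
  rcases h with ⟨R, h⟩ | ⟨R, c, θ, hc, hθ, h⟩ | h
  · exact HG.v_finite C h
  · exact HG.v_bessel C hc hθ h
  · exact h

lemma posReturn_eq {Ω : Type u} [MeasurableSpace Ω] (P : Measure Ω) [IsProbabilityMeasure P]
    (C : Chain) (S : ℕ → Ω → ℤ) (hS : IsMarkovChain P C.p S) {n : ℕ} (hn : 1 ≤ n) :
    posReturn P S (n + 1) = C.p 0 1 * K0 C n 1 := by
  have h1 := OT.K3.prob_eq P C S hS (s := 1) (Or.inl rfl) n hn
  simp only [one_mul] at h1
  exact h1

lemma negReturn_eq {Ω : Type u} [MeasurableSpace Ω] (P : Measure Ω) [IsProbabilityMeasure P]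
    (C : Chain) (S : ℕ → Ω → ℤ) (hS : IsMarkovChain P C.p S) {n : ℕ} (hn : 1 ≤ n) :
    negReturn P S (n + 1) = C.p 0 (-1) * K0 C n (-1) := by
  have h1 := OT.K3.prob_eq P C S hS (s := -1) (Or.inr rfl) n hn
  simp only [neg_mul, one_mul, Left.neg_pos_iff] at h1
  exact h1

/-- the bounds contained in `LoopTail` -/
lemma bounds_of_loopTail {a : ℕ → ℝ} {α : ℝ} (hpos : ∀ᶠ n : ℕ in atTop, 0 < a (2 * n))
    (h : LoopTail a α) {ε : ℝ} (hε : 0 < ε) :
    ∀ᶠ n : ℕ in atTop, ((2 * n : ℕ) : ℝ) ^ (-(1 + α + ε)) ≤ a (2 * n) ∧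
      a (2 * n) ≤ ((2 * n : ℕ) : ℝ) ^ (-(1 + α - ε)) := by
  have h1 := h.eventually (Ioo_mem_nhds (show -(1 + α) - ε < -(1 + α) by linarith)
    (show -(1 + α) < -(1 + α) + ε by linarith))
  filter_upwards [h1, hpos, eventually_ge_atTop 1] with n hn hp hn1
  have hn2 : (1 : ℝ) < 2 * (n : ℝ) := by
    have : (1 : ℝ) ≤ n := by exact_mod_cast hn1
    linarith
  have hlog : 0 < Real.log (2 * (n : ℝ)) := Real.log_pos hn2
  obtain ⟨ha, hb⟩ := hn
  rw [lt_div_iff₀ hlog] at ha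
  rw [div_lt_iff₀ hlog] at hb
  have h0 : (0 : ℝ) < 2 * (n : ℝ) := by linarith
  have hc : ((2 * n : ℕ) : ℝ) = 2 * (n : ℝ) := by push_cast; ring
  rw [hc, Real.rpow_def_of_pos h0, Real.rpow_def_of_pos h0]
  refine ⟨?_, ?_⟩
  · rw [← Real.le_log_iff_exp_le hp]
    nlinarith
  · rw [← Real.log_le_iff_le_exp hp]
    nlinarith

/-- the two bounds give the exponent -/
lemma exponent_of_bounds {G : ℝ → ℝ} {κ : ℝ}
    (h1 : ∀ ε : ℝ, 0 < ε → ∀ᶠ δ in 𝓝[>] (0 : ℝ), δ ^ (κ + ε) ≤ G δ)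
    (h2 : ∀ ε : ℝ, 0 < ε → ∀ᶠ δ in 𝓝[>] (0 : ℝ), G δ ≤ δ ^ (κ - ε)) :
    Tendsto (fun δ : ℝ => Real.log (G δ) / Real.log δ) (𝓝[>] 0) (𝓝 κ) := by
  have hlt : ∀ᶠ δ in 𝓝[>] (0 : ℝ), 0 < δ ∧ δ < 1 := by
    filter_upwards [Ioo_mem_nhdsGT (show (0 : ℝ) < 1 by norm_num)] with δ hδ
    exact hδ
  have key : ∀ ε : ℝ, 0 < ε → ∀ᶠ δ in 𝓝[>] (0 : ℝ),
      κ - ε ≤ Real.log (G δ) / Real.log δ ∧ Real.log (G δ) / Real.log δ ≤ κ + ε := by
    intro ε hε
    filter_upwards [h1 ε hε, h2 ε hε, hlt] with δ ha hb h01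
    have hlog : Real.log δ < 0 := Real.log_neg h01.1 h01.2
    have hG : 0 < G δ := (Real.rpow_pos_of_pos h01.1 _).trans_le ha
    have ha' : (κ + ε) * Real.log δ ≤ Real.log (G δ) := by
      have := Real.log_le_log (Real.rpow_pos_of_pos h01.1 _) ha
      rwa [Real.log_rpow h01.1] at this
    have hb' : Real.log (G δ) ≤ (κ - ε) * Real.log δ := by
      have := Real.log_le_log hG hb
      rwa [Real.log_rpow h01.1] at this
    exact ⟨(le_div_iff_of_neg hlog).2 hb', (div_le_iff_of_neg hlog).2 ha'⟩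
  refine tendsto_order.2 ⟨fun a ha => ?_, fun a ha => ?_⟩
  · filter_upwards [key ((κ - a) / 2) (by linarith)] with δ hδ
    linarith [hδ.1]
  · filter_upwards [key ((a - κ) / 2) (by linarith)] with δ hδ
    linarith [hδ.2]

/-- a chain is irreducible -/
lemma chain_kernel (C : Chain) : IsKernel C.p where
  nonneg := C.nonneg
  nearest := fun x y h => C.near x y (by
    rw [Finset.mem_Icc]
    rw [lt_abs] at h
    omega)
  total := fun x => by
    have h := C.sum_one x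
    rwa [Occ.sum_Icc] at h
  irreducible := fun x y => by
    have hup : ∀ n : ℕ, Relation.ReflTransGen (fun a b => 0 < C.p a b) x (x + n) := fun n => by
      induction n with
      | zero => rw [Nat.cast_zero, add_zero]
      | succ n ih =>
        refine ih.tail ?_
        have h := C.up (x + n)
        rwa [add_assoc, show (n : ℤ) + 1 = ((n + 1 : ℕ) : ℤ) by push_cast; rfl] at h
    have hdown : ∀ n : ℕ, Relation.ReflTransGen (fun a b => 0 < C.p a b) x (x - n) := fun n => by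
      induction n with
      | zero => rw [Nat.cast_zero, sub_zero]
      | succ n ih =>
        refine ih.tail ?_
        have h := C.down (x - n)
        rwa [sub_sub, show (n : ℤ) + 1 = ((n + 1 : ℕ) : ℤ) by push_cast; rfl] at h
    rcases le_total x y with h | h
    · obtain ⟨n, hn⟩ := Int.eq_ofNat_of_zero_le (sub_nonneg.2 h)
      have h1 := hup n
      rwa [← hn, add_sub_cancel] at h1
    · obtain ⟨n, hn⟩ := Int.eq_ofNat_of_zero_le (sub_nonneg.2 h)
      have h1 := hdown n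
      rwa [← hn, sub_sub_cancel] at h1

/-- the free energy of a model -/
lemma free_energy {Ω : Type u} [MeasurableSpace Ω] (P : Measure Ω) [IsProbabilityMeasure P]
    (S : ℕ → Ω → ℤ) (M : Mod) (hS : IsMarkovChain P M.C.p S) (hlo : HG.PolyCost M) {hc : ℝ}
    (hc0 : 0 < hc) (hcrit : ∀ h, 0 < M.Fr h ↔ h < hc) :
    IsFreeEnergy P S M.μ M.φ M.β M.Fr hc := by
  have hZ : ∀ h N ω, Zpin P S M.φ M.β h N ω = M.Zl h N ω := fun h N ω =>
    Zf_eq_integral P M.C S hS M.φ M.β h N ω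
  have hZpos : ∀ h N ω, 0 < M.Zl h N ω := fun h N ω => Zf_pos M.C (M.W_pos h) N ω 0
  have hFr0 : ∀ h, 0 ≤ M.Fr h := HG.fr_nonneg M hlo
  -- law of large numbers
  have hmeas : ∀ h N, Measurable (fun ω => Real.log (M.Zl h N ω)) := fun h N =>
    (M.good_Zl h N).meas.log
  have hlip : ∀ h N, LipOn N M.κ (fun ω => Real.log (M.Zl h N ω)) := fun h N =>
    (M.good_Zl h N).log_lip (hZpos h N)
  have hintl : ∀ h N, Integrable (fun ω => Real.log (M.Zl h N ω)) (seqLaw M.μ) := fun h N =>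
    (hlip h N).integrable (hmeas h N) M.exp_mom
  have hmeanlim : ∀ h, Tendsto (fun N : ℕ => M.ΨF h N / N) atTop (𝓝 (M.Fr h)) := fun h =>
    M.mean_limit h
  refine ⟨fun h => ?_, fun h => ?_, hFr0, hc0, hcrit⟩
  · have h1 := conc_ae (μ := M.μ) M.exp_mom (κ := M.κ) (fun N ω => Real.log (M.Zl h N ω)) (hmeas h) (hlip h)
    have h1' : ∀ᵐ ω ∂(Measure.infinitePi (fun _ : ℕ => M.μ)), Tendsto (fun N : ℕ =>
      (Real.log (M.Zl h N ω) - ∫ ω', Real.log (M.Zl h N ω') ∂seqLaw M.μ) / N) atTop (𝓝 0) := h1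
    filter_upwards [h1'] with ω hω
    have h2 := hω.add (hmeanlim h)
    rw [zero_add] at h2
    refine h2.congr (fun N => ?_)
    rw [hZ, ← add_div]
    congr 1
    unfold Mod.ΨF
    ring
  · have h1 := conc_L1 (μ := M.μ) M.exp_mom (κ := M.κ) (fun N ω => Real.log (M.Zl h N ω)) (hmeas h) (hlip h)
    have h2 : Tendsto (fun N : ℕ => |M.ΨF h N / N - M.Fr h|) atTop (𝓝 0) := by
      have := ((hmeanlim h).sub_const (M.Fr h)).abs
      simpa using this
    have h3 := h1.add h2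
    rw [add_zero] at h3
    refine squeeze_zero (fun N => integral_nonneg fun _ => abs_nonneg _) (fun N => ?_) h3
    have hint : Integrable (fun ω => |Real.log (M.Zl h N ω) - M.ΨF h N|) (seqLaw M.μ) :=
      ((hintl h N).sub (integrable_const _)).abs
    have h4 : ∫ ω, |Real.log (Zpin P S M.φ M.β h N ω) / N - M.Fr h| ∂(Measure.infinitePi (fun _ : ℕ => M.μ)) ≤
        ∫ ω, (|Real.log (M.Zl h N ω) - M.ΨF h N| / N + |M.ΨF h N / N - M.Fr h|) ∂seqLaw M.μ := by
      have hi1 : Integrable (fun ω => |Real.log (M.Zl h N ω) / N - M.Fr h|) (seqLaw M.μ) :=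
        (((hintl h N).div_const _).sub (integrable_const _)).abs
      have e : (fun ω => |Real.log (Zpin P S M.φ M.β h N ω) / N - M.Fr h|) =
          fun ω => |Real.log (M.Zl h N ω) / N - M.Fr h| := by
        funext ω; rw [hZ]
      rw [e]
      refine integral_mono hi1 ((hint.div_const _).add (integrable_const _)) (fun ω => ?_)
      have h5 : Real.log (M.Zl h N ω) / N - M.Fr h =
          (Real.log (M.Zl h N ω) - M.ΨF h N) / N + (M.ΨF h N / N - M.Fr h) := by ring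
      dsimp only
      rw [h5]
      refine (abs_add_le _ _).trans ?_
      rw [abs_div, Nat.abs_cast]
    refine h4.trans (le_of_eq ?_)
    rw [integral_add (hint.div_const _) (integrable_const _), integral_div]
    simp only [integral_const, probReal_univ, smul_eq_mul, one_mul]
    rfl

/-- the annealed free energy at the critical point -/
lemma annealed_zero {Ω : Type u} [MeasurableSpace Ω] (P : Measure Ω) [IsProbabilityMeasure P]
    (S : ℕ → Ω → ℤ) (M : Mod) (hS : IsMarkovChain P M.C.p S) (hlo : HG.PolyCost M) {hc : ℝ}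
    (hcrit : ∀ h, 0 < M.Fr h ↔ h < hc)
    (hmm : ∀ a : ℝ, 0 < a → ∀ᶠ N : ℕ in atTop, mom M.μ 1 (fun ω => M.Zl hc N ω) ≤
      ENNReal.ofReal (Real.exp (a * N))) : AnnealedZero P S M.μ M.φ M.β hc := by
  have hZ : ∀ h N ω, Zpin P S M.φ M.β h N ω = M.Zl h N ω := fun h N ω =>
    Zf_eq_integral P M.C S hS M.φ M.β h N ω
  have hZpos : ∀ h N ω, 0 < M.Zl h N ω := fun h N ω => Zf_pos M.C (M.W_pos h) N ω 0
  have hFr0 : ∀ h, 0 ≤ M.Fr h := HG.fr_nonneg M hlo
  have hmeanlim : ∀ h, Tendsto (fun N : ℕ => M.ΨF h N / N) atTop (𝓝 (M.Fr h)) := fun h =>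
    M.mean_limit h
  -- the annealed partition function
  set I : ℝ → ℕ → ℝ := fun h N => ∫ ω, Zpin P S M.φ M.β h N ω ∂(Measure.infinitePi (fun _ : ℕ => M.μ))
    with hI
  have hImom : ∀ h N, I h N = (mom M.μ 1 (fun ω => M.Zl h N ω)).toReal := fun h N => by
    have h1 : I h N = ∫ ω, M.Zl h N ω ∂seqLaw M.μ := by
      change ∫ ω, Zpin P S M.φ M.β h N ω ∂seqLaw M.μ = _
      exact integral_congr_ae (ae_of_all _ fun ω => hZ h N ω)
    rw [h1, mom_one, integral_eq_lintegral_of_nonneg_ae (ae_of_all _ fun ω => (hZpos h N ω).le)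
      (M.good_Zl h N).meas.aestronglyMeasurable]
  have hIlow : ∀ h N, Real.exp (M.ΨF h N) ≤ I h N := fun h N => by
    have h1 := exp_le_mom' (μ := M.μ) M.exp_mom (zero_le_one) (M.good_Zl h N) (hZpos h N)
    rw [one_mul] at h1
    have h2 := mom_le_exp (μ := M.μ) M.exp_mom zero_le_one le_rfl (M.good_Zl h N) (hZpos h N)
    have h3 : mom M.μ 1 (fun ω => M.Zl h N ω) ≠ ⊤ := ne_top_of_le_ne_top ENNReal.ofReal_ne_top h2
    rw [hImom]
    exact (ENNReal.ofReal_le_iff_le_toReal h3).1 h1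
  have hIpos : ∀ h N, 0 < I h N := fun h N => (Real.exp_pos _).trans_le (hIlow h N)
  have hIlow' : ∀ h N, M.ΨF h N / N ≤ Real.log (I h N) / N := fun h N =>
    div_le_div_of_nonneg_right ((Real.le_log_iff_exp_le (hIpos h N)).2 (hIlow h N)) (Nat.cast_nonneg N)
  have hFz : M.Fr hc = 0 :=
    le_antisymm (not_lt.1 fun h1 => lt_irrefl _ ((hcrit hc).1 h1)) (hFr0 hc)
  refine tendsto_order.2 ⟨fun a ha => ?_, fun a ha => ?_⟩
  · have h1 := hmeanlim hc
    rw [hFz] at h1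
    filter_upwards [h1.eventually (lt_mem_nhds ha)] with N hN
    exact hN.trans_le (hIlow' hc N)
  · filter_upwards [hmm (a / 2) (half_pos ha), eventually_ge_atTop 1] with N hN hN1
    have hN0 : (0 : ℝ) < N := by exact_mod_cast hN1
    have h1 : I hc N ≤ Real.exp (a / 2 * N) := by
      rw [hImom]
      exact ENNReal.toReal_le_of_le_ofReal (Real.exp_pos _).le hN
    have h2 : Real.log (I hc N) ≤ a / 2 * N := (Real.log_le_iff_le_exp (hIpos hc N)).2 h1
    change Real.log (I hc N) / N < a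
    rw [div_lt_iff₀ hN0]
    nlinarith

/-- the moments of the pinned partition function -/
lemma mom_pin {Ω : Type u} [MeasurableSpace Ω] (P : Measure Ω) [IsProbabilityMeasure P]
    (S : ℕ → Ω → ℤ) (M : Mod) (hS : IsMarkovChain P M.C.p S) (h r : ℝ) (n : ℕ) :
    ∫⁻ ω, ENNReal.ofReal (Zc P S M.φ M.β h n ω) ^ r
      ∂(Measure.infinitePi (fun _ : ℕ => M.μ)) = mom M.μ r (fun ω => M.Z h n ω) := by
  refine lintegral_congr fun ω => ?_
  unfold Zc
  rw [HG.pin_eq_integral P M.C S hS M.φ M.β h n ω]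
  rfl

lemma crit_unique {f : ℝ → ℝ} {a b : ℝ} (h1 : ∀ h, 0 < f h ↔ h < a) (h2 : ∀ h, 0 < f h ↔ h < b) :
    a = b := by
  rcases lt_trichotomy a b with h | h | h
  · exact absurd ((h1 a).1 ((h2 a).2 h)) (lt_irrefl _)
  · exact h
  · exact absurd ((h2 b).1 ((h1 b).2 h)) (lt_irrefl _)

lemma expLeft_of {Ω : Type u} [MeasurableSpace Ω] (P : Measure Ω) [IsProbabilityMeasure P]
    (S : ℕ → Ω → ℤ) (C : Chain) (hS : IsMarkovChain P C.p S)
    (h : ∃ c M : ℝ, 0 < c ∧ ∀ n : ℕ, negReturn P S n ≤ M * Real.exp (-(c * n))) :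
    HG.ExpLeft C := by
  obtain ⟨c, M, hc, hM⟩ := h
  have hp : 0 < C.p 0 (-1) := by
    have := C.down 0
    rwa [zero_sub] at this
  refine ⟨c, max M 0 / C.p 0 (-1), hc, fun n => ?_⟩
  rcases Nat.eq_zero_or_pos n with h0 | h0
  · subst h0
    have h1 : K0 C 0 (-1) = 0 := rfl
    rw [h1]
    have : 0 ≤ max M 0 := le_max_right _ _
    positivity
  · have h2 := hM (n + 1)
    rw [negReturn_eq P C S hS h0] at h2
    have h3 : Real.exp (-(c * ((n + 1 : ℕ) : ℝ))) ≤ Real.exp (-(c * (n : ℝ))) := by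
      apply Real.exp_le_exp.2
      push_cast
      nlinarith
    have h4 : C.p 0 (-1) * K0 C n (-1) ≤ max M 0 * Real.exp (-(c * (n : ℝ))) :=
      h2.trans (mul_le_mul (le_max_left _ _) h3 (Real.exp_pos _).le (le_max_right _ _))
    rw [div_mul_eq_mul_div, le_div_iff₀ hp, mul_comm]
    exact h4

/-- the annealed partition function at an enhanced point -/
lemma annealed_growth {Ω : Type u} [MeasurableSpace Ω] (P : Measure Ω) [IsProbabilityMeasure P]
    (S : ℕ → Ω → ℤ) (M : Mod) (hS : IsMarkovChain P M.C.p S) {h : ℝ} {N₀ : ℕ}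
    (hN : 1 < ∑ n ∈ Finset.range N₀, M.g h n) : AnnealedGrowth P S M.μ M.φ M.β h := by
  obtain ⟨a, ha, hev⟩ := HG.ann_grow M hN
  refine ⟨a, ha, ?_⟩
  have hZ : ∀ N ω, Zpin P S M.φ M.β h N ω = M.Zl h N ω := fun N ω =>
    Zf_eq_integral P M.C S hS M.φ M.β h N ω
  have hZpos : ∀ N ω, 0 < M.Zl h N ω := fun N ω => Zf_pos M.C (M.W_pos h) N ω 0
  filter_upwards [hev] with N hN
  have h1 : ∫ ω, Zpin P S M.φ M.β h N ω ∂(Measure.infinitePi (fun _ : ℕ => M.μ)) =
      (mom M.μ 1 (fun ω => M.Zl h N ω)).toReal := by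
    have h2 : ∫ ω, Zpin P S M.φ M.β h N ω ∂(Measure.infinitePi (fun _ : ℕ => M.μ)) =
        ∫ ω, M.Zl h N ω ∂seqLaw M.μ :=
      integral_congr_ae (ae_of_all _ fun ω => hZ N ω)
    rw [h2, mom_one, integral_eq_lintegral_of_nonneg_ae (ae_of_all _ fun ω => (hZpos N ω).le)
      (M.good_Zl h N).meas.aestronglyMeasurable]
  have h2 := mom_le_exp (μ := M.μ) M.exp_mom zero_le_one le_rfl (M.good_Zl h N) (hZpos N)
  have h3 : mom M.μ 1 (fun ω => M.Zl h N ω) ≠ ⊤ := ne_top_of_le_ne_top ENNReal.ofReal_ne_top h2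
  rw [h1]
  exact (ENNReal.ofReal_le_iff_le_toReal h3).1 hN

lemma loopTail_of_bounds {x : ℕ → ℝ} {a : ℝ}
    (h1 : ∀ ε : ℝ, 0 < ε → ∀ᶠ n : ℕ in atTop, ((2 * n : ℕ) : ℝ) ^ (-(1 + a + ε)) ≤ x (2 * n))
    (h2 : ∀ ε : ℝ, 0 < ε → ∀ᶠ n : ℕ in atTop, x (2 * n) ≤ ((2 * n : ℕ) : ℝ) ^ (-(1 + a - ε))) :
    LoopTail x a := by
  have key : ∀ ε : ℝ, 0 < ε → ∀ᶠ n : ℕ in atTop,
      -(1 + a) - ε ≤ Real.log (x (2 * n)) / Real.log (2 * n) ∧
        Real.log (x (2 * n)) / Real.log (2 * n) ≤ -(1 + a) + ε := by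
    intro ε hε
    filter_upwards [h1 ε hε, h2 ε hε, eventually_ge_atTop 1] with n ha hb hn
    have hn1 : (1 : ℝ) ≤ n := by exact_mod_cast hn
    have h0 : (0 : ℝ) < 2 * (n : ℝ) := by linarith
    have hlog : 0 < Real.log (2 * (n : ℝ)) := Real.log_pos (by linarith)
    have hc : ((2 * n : ℕ) : ℝ) = 2 * (n : ℝ) := by push_cast; ring
    rw [hc] at ha hb
    have hp := Real.rpow_pos_of_pos h0 (-(1 + a + ε))
    constructor
    · rw [le_div_iff₀ hlog]
      have h3 := Real.log_le_log hp ha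
      rw [Real.log_rpow h0] at h3
      linarith
    · rw [div_le_iff₀ hlog]
      have h3 := Real.log_le_log (hp.trans_le ha) hb
      rw [Real.log_rpow h0] at h3
      linarith
  refine tendsto_order.2 ⟨fun b hb => ?_, fun b hb => ?_⟩
  · filter_upwards [key ((-(1 + a) - b) / 2) (by linarith)] with n hn
    linarith [hn.1]
  · filter_upwards [key ((b + (1 + a)) / 2) (by linarith)] with n hn
    linarith [hn.2]

lemma ret_eq {Ω : Type u} [MeasurableSpace Ω] (P : Measure Ω) [IsProbabilityMeasure P]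
    (S : ℕ → Ω → ℤ) (C : Chain) (hS : IsMarkovChain P C.p S) (n : ℕ) (hn : 1 ≤ n) :
    retProb P S n = K0 C n 0 := by
  unfold retProb
  exact K0_eq_prob P C S hS n hn

lemma pen_eq {Ω : Type u} [MeasurableSpace Ω] (P : Measure Ω) [IsProbabilityMeasure P]
    (S : ℕ → Ω → ℤ) (C : Chain) (hS : IsMarkovChain P C.p S) (φ : ℤ → ℝ) (η : ℝ) (n : ℕ)
    (hn : 1 ≤ n) : penReturn P S φ η n = Kv C (fun z => -η * φ z) n 0 := by
  unfold penReturn
  exact Kv_eq_integral P C S hS φ η (by omega)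

/-- the moment of the excursions, in a smaller power -/
lemma moment_le {Ω : Type u} [MeasurableSpace Ω] (P : Measure Ω) [IsProbabilityMeasure P]
    (S : ℕ → Ω → ℤ) (C : Chain) (hS : IsMarkovChain P C.p S) (h : SomeMoment (retProb P S)) :
    ∃ a : ℝ, 0 < a ∧ a ≤ 1 ∧ Summable (fun n : ℕ => (n : ℝ) ^ a * K0 C n 0) := by
  obtain ⟨s, hs, h⟩ := h
  refine ⟨min s 1, lt_min hs one_pos, min_le_right _ _, ?_⟩
  refine Summable.of_nonneg_of_le (fun n => mul_nonneg (Real.rpow_nonneg (Nat.cast_nonneg n) _)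
    (K0_nonneg _ _ _)) (fun n => ?_) h
  rcases Nat.eq_zero_or_pos n with hn | hn
  · subst hn
    have h0 : K0 C 0 0 = 0 := rfl
    rw [h0, mul_zero, Nat.cast_zero, Real.zero_rpow hs.ne', zero_mul]
  · rw [ret_eq P S C hS n hn]
    refine mul_le_mul_of_nonneg_right ?_ (K0_nonneg _ _ _)
    exact Real.rpow_le_rpow_of_exponent_le (by exact_mod_cast hn) (min_le_left _ _)

/-- exponentially short excursions to the left: those to the right have the exponent of the
excursions -/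
lemma right_low {C : Chain} {α : ℝ} (hL : HG.ExpLeft C)
    (h : ∀ ε : ℝ, 0 < ε → ∀ᶠ n : ℕ in atTop,
      ((2 * n : ℕ) : ℝ) ^ (-(1 + α + ε)) ≤ K0 C (2 * n) 0) {ε : ℝ} (hε : 0 < ε) :
    ∀ᶠ n : ℕ in atTop, ((2 * n : ℕ) : ℝ) ^ (-(1 + α + ε)) ≤ C.p 0 1 * K0 C (2 * n - 1) 1 := by
  obtain ⟨c, B, hc, hB⟩ := hL
  have hd : ∀ᶠ n : ℕ in atTop, |B| * Real.exp (-(c * ((2 * n - 1 : ℕ) : ℝ))) ≤
      ((2 * n : ℕ) : ℝ) ^ (-(1 + α + ε)) := by
    have h1 := (tendsto_rpow_mul_exp_neg_mul_atTop_nhds_zero (1 + α + ε) c hc).const_mul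
      (|B| * Real.exp c)
    rw [mul_zero] at h1
    have h2 : Tendsto (fun n : ℕ => ((2 * n : ℕ) : ℝ)) atTop atTop := by
      have h3 : Tendsto (fun n : ℕ => 2 * (n : ℝ)) atTop atTop :=
        tendsto_natCast_atTop_atTop.const_mul_atTop two_pos
      refine h3.congr fun n => ?_
      push_cast
      ring
    filter_upwards [(h1.comp h2).eventually (gt_mem_nhds one_pos), eventually_ge_atTop 1]
      with n hn hn1
    have hn0 : (0 : ℝ) < ((2 * n : ℕ) : ℝ) := by exact_mod_cast (by omega : 0 < 2 * n)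
    have hp := Real.rpow_pos_of_pos hn0 (1 + α + ε)
    rw [Real.rpow_neg hn0.le, ← one_div, le_div_iff₀ hp]
    simp only [Function.comp_apply] at hn
    have h4 : ((2 * n - 1 : ℕ) : ℝ) = ((2 * n : ℕ) : ℝ) - 1 := by
      rw [Nat.cast_sub (by omega), Nat.cast_one]
    rw [h4]
    have h5 : Real.exp (-(c * (((2 * n : ℕ) : ℝ) - 1))) =
        Real.exp c * Real.exp (-c * ((2 * n : ℕ) : ℝ)) := by
      rw [← Real.exp_add]
      congr 1
      ring
    rw [h5]
    refine le_trans (le_of_eq ?_) hn.le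
    ring
  have h2 : ∀ᶠ n : ℕ in atTop, 2 * ((2 * n : ℕ) : ℝ) ^ (-(1 + α + ε)) ≤ K0 C (2 * n) 0 := by
    have h3 : Tendsto (fun n : ℕ => ((2 * n : ℕ) : ℝ) ^ (ε / 2)) atTop atTop := by
      have h4 : Tendsto (fun n : ℕ => ((2 * n : ℕ) : ℝ)) atTop atTop := by
        have h3 : Tendsto (fun n : ℕ => 2 * (n : ℝ)) atTop atTop :=
          tendsto_natCast_atTop_atTop.const_mul_atTop two_pos
        refine h3.congr fun n => ?_
        push_cast
        ring
      exact (tendsto_rpow_atTop (half_pos hε)).comp h4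
    filter_upwards [h (ε / 2) (half_pos hε), h3.eventually_ge_atTop 2, eventually_ge_atTop 1]
      with n hn hn2 hn1
    have hn0 : (0 : ℝ) < ((2 * n : ℕ) : ℝ) := by exact_mod_cast (by omega : 0 < 2 * n)
    refine le_trans ?_ hn
    have h4 : ((2 * n : ℕ) : ℝ) ^ (-(1 + α + ε / 2)) =
        ((2 * n : ℕ) : ℝ) ^ (ε / 2) * ((2 * n : ℕ) : ℝ) ^ (-(1 + α + ε)) := by
      rw [← Real.rpow_add hn0]
      congr 1
      ring
    rw [h4]
    exact mul_le_mul_of_nonneg_right hn2 (Real.rpow_nonneg hn0.le _)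
  filter_upwards [hd, h2, eventually_ge_atTop 1] with n h3 h4 hn
  have h5 : K0 C (2 * n) 0 = C.p 0 1 * K0 C (2 * n - 1) 1 + C.p 0 (-1) * K0 C (2 * n - 1) (-1) := by
    obtain ⟨m, hm⟩ : ∃ m, 2 * n = m + 1 := ⟨2 * n - 1, by omega⟩
    have h6 : K0 (cneg C) m 1 = K0 C m (-1) := by
      have h7 := Kv_cneg C (fun _ => 0) m 1
      rw [Kv_K0, Kv_K0] at h7
      exact h7
    rw [hm, HG.STail.split0 C (by omega), h6]
    rfl
  have h6 : C.p 0 (-1) * K0 C (2 * n - 1) (-1) ≤ |B| * Real.exp (-(c * ((2 * n - 1 : ℕ) : ℝ))) := by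
    calc C.p 0 (-1) * K0 C (2 * n - 1) (-1) ≤ 1 * K0 C (2 * n - 1) (-1) :=
          mul_le_mul_of_nonneg_right (C.p_le_one 0 (-1)) (K0_nonneg _ _ _)
      _ ≤ B * Real.exp (-(c * ((2 * n - 1 : ℕ) : ℝ))) := by
          rw [one_mul]
          exact hB _
      _ ≤ _ := mul_le_mul_of_nonneg_right (le_abs_self B) (Real.exp_pos _).le
  rw [h5] at h4
  linarith

/-- a bounded moment at the critical point: the order is finite, and its exponent -/
lemma finite_order {Ω : Type u} [MeasurableSpace Ω] (P : Measure Ω) [IsProbabilityMeasure P]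
    (S : ℕ → Ω → ℤ) (M : Mod) (hS : IsMarkovChain P M.C.p S) (hlo : HG.PolyCost M) {hc : ℝ}
    (hc0 : 0 < hc) (hcrit : ∀ h, 0 < M.Fr h ↔ h < hc) {r K : ℝ} (hr : 1 < r)
    (hb : ∀ n : ℕ, mom M.μ r (fun ω => M.Z hc (2 * n) ω) ≤ ENNReal.ofReal K)
    (hmom : SomeMoment (retProb P S)) : FiniteOrder P S M.C.p M.φ M.Fr hc := by
  have hφ0 := M.φ_nonneg
  have hle : ∀ n : ℕ, Kv M.C (fun z => -hc * M.φ z) n 0 ≤ K0 M.C n 0 := fun n => by
    rw [← Kv_K0]
    exact Kv_mono M.C (fun z => by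
      have := mul_nonneg hc0.le (hφ0 z)
      linarith) n 0
  refine ⟨?_, ?_⟩
  · obtain ⟨a, ha, _, hsum⟩ := moment_le P S M.C hS hmom
    have hs : Summable (fun n : ℕ => (n : ℝ) ^ a * Kv M.C (fun z => -hc * M.φ z) n 0) :=
      Summable.of_nonneg_of_le (fun n => mul_nonneg (Real.rpow_nonneg (Nat.cast_nonneg n) _)
        (Kv_nonneg _ _ _ _)) (fun n => mul_le_mul_of_nonneg_left (hle n)
          (Real.rpow_nonneg (Nat.cast_nonneg n) _)) hsum
    obtain ⟨c, B, hc', _, hB⟩ := (HG.bdd_pen hlo hc0 hcrit hr hb ha hs).2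
    exact ⟨c, B, hc', hB⟩
  · intro a ha hcases
    have hpp : ∀ (η : ℝ), ∀ᶠ n : ℕ in atTop, 0 < penReturn P S M.φ η (2 * n) := by
      intro η
      filter_upwards [eventually_ge_atTop 1] with n hn
      rw [pen_eq P S M.C hS M.φ η (2 * n) (by omega)]
      exact Kv_even_pos M.C _ hn
    have htail' : LoopTail (penReturn P S M.φ hc) a := by
      rcases hcases with h | ⟨htail, hlight⟩
      · exact h
      have hKpos : ∀ᶠ n : ℕ in atTop, 0 < retProb P S (2 * n) := by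
        filter_upwards [eventually_ge_atTop 1] with n hn
        rw [ret_eq P S M.C hS (2 * n) (by omega), ← Kv_K0]
        exact Kv_even_pos M.C _ hn
      have hU : HG.KUp M.C a := by
        intro ε hε
        filter_upwards [bounds_of_loopTail hKpos htail hε, eventually_ge_atTop 1] with n hn hn1
        rw [← ret_eq P S M.C hS (2 * n) (by omega)]
        exact hn.2
      have hKl : ∀ ε : ℝ, 0 < ε → ∀ᶠ n : ℕ in atTop,
          ((2 * n : ℕ) : ℝ) ^ (-(1 + a + ε)) ≤ K0 M.C (2 * n) 0 := by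
        intro ε hε
        filter_upwards [bounds_of_loopTail hKpos htail hε, eventually_ge_atTop 1] with n hn hn1
        rw [ret_eq P S M.C hS (2 * n) (by omega)] at hn
        exact hn.1
      have hA : HG.PolyA M a := by
        rcases hlight with ⟨η₁, hη₁, hpen⟩ | ⟨hR, hposr | hL | hE⟩
        · refine HG.polyA_of_one M hη₁ hU (fun ε hε => ?_)
          filter_upwards [bounds_of_loopTail (hpp η₁) hpen hε, eventually_ge_atTop 1] with n hn hn1
          rw [pen_eq P S M.C hS M.φ η₁ (2 * n) (by omega)] at hn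
          exact hn.1
        · have hpos' : ∀ n : ℕ, 1 ≤ n →
              posReturn P S (2 * n) = M.C.p 0 1 * K0 M.C (2 * n - 1) 1 := by
            intro n hn
            obtain ⟨m, hm⟩ : ∃ m, 2 * n = m + 1 := ⟨2 * n - 1, by omega⟩
            rw [hm, posReturn_eq P M.C S hS (by omega)]
            rfl
          have hpp : ∀ᶠ n : ℕ in atTop, 0 < posReturn P S (2 * n) := by
            filter_upwards [eventually_ge_atTop 1] with n hn
            rw [hpos' n hn]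
            have hKp : 0 < OT.Kp M.C n := OT.Kp_pos M.C hn
            exact hKp
          refine HG.light_one M.C M.hrec ha.le hφ0 M.φ_le (vr_of_light M.C hR) (fun ε hε => ?_)
          filter_upwards [bounds_of_loopTail hpp hposr hε, eventually_ge_atTop 1] with n hn hn1
          rw [hpos' n hn1] at hn
          exact hn.1
        · exact HG.light_two M.C M.hrec ha.le hφ0 M.φ_le (vr_of_light M.C hR)
            (vr_of_light (cneg M.C) hL) hKl
        · exact HG.light_one M.C M.hrec ha.le hφ0 M.φ_le (vr_of_light M.C hR)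
            (fun ε hε => right_low (expLeft_of P S M.C hS hE) hKl hε)
      refine loopTail_of_bounds (fun ε hε => ?_) (fun ε hε => ?_)
      · filter_upwards [hA hc hc0 ε hε, eventually_ge_atTop 1] with n hn hn1
        rw [pen_eq P S M.C hS M.φ hc (2 * n) (by omega)]
        exact hn
      · filter_upwards [hU ε hε, eventually_ge_atTop 1] with n hn hn1
        rw [pen_eq P S M.C hS M.φ hc (2 * n) (by omega)]
        exact (hle (2 * n)).trans hn
    have hlowc : ∀ ε : ℝ, 0 < ε → ∀ᶠ n : ℕ in atTop,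
        ((2 * n : ℕ) : ℝ) ^ (-(1 + a + ε)) ≤ Kv M.C (fun z => -hc * M.φ z) (2 * n) 0 := by
      intro ε hε
      filter_upwards [bounds_of_loopTail (hpp hc) htail' hε, eventually_ge_atTop 1] with n hn hn1
      rw [pen_eq P S M.C hS M.φ hc (2 * n) (by omega)] at hn
      exact hn.1
    have hUc : HG.KUW M a hc := by
      intro ε hε
      filter_upwards [bounds_of_loopTail (hpp hc) htail' hε, eventually_ge_atTop 1] with n hn hn1
      rw [pen_eq P S M.C hS M.φ hc (2 * n) (by omega)] at hn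
      exact hn.2
    exact exponent_of_bounds (G := fun δ => M.Fr (hc - δ))
      (fun ε hε => (HG.exact_pen hlo hc0 hcrit hr hb ha hlowc hUc hε).1)
      (fun ε hε => (HG.exact_pen hlo hc0 hcrit hr hb ha hlowc hUc hε).2)

lemma general {Ω : Type u} [MeasurableSpace Ω] (P : Measure Ω) [IsProbabilityMeasure P]
    (p : ℤ → ℤ → ℝ) (hp : IsKernel p) (S : ℕ → Ω → ℤ) (hS : IsMarkovChain P p S)
    (hrec : ∀ᵐ w ∂P, ∃ n, 0 < n ∧ S n w = 0)
    (μ : Measure ℝ) [IsProbabilityMeasure μ]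
    (hexp : ∀ t : ℝ, Integrable (fun x => Real.exp (t * x)) μ)
    (hmean : ∫ x, x ∂μ = 0) (hvar : ∫ x, x ^ 2 ∂μ = 1)
    (φ : ℤ → ℝ) (hφ0 : ∀ x, 0 ≤ φ x) (hφne : ∃ x, φ x ≠ 0) (hφ1 : Tendsto φ atTop (𝓝 0))
    (ℓ : ℝ) (hφ2 : Tendsto φ atBot (𝓝 ℓ)) (hcase : PolyCase P S p φ) :
    Conclusion P S p μ φ := by
  set C := hp.chain with hC
  have hSC : IsChain P C.p S := hS
  have hrecC : HasSum (fun n : ℕ => K0 C (n + 1) 0) 1 := hasSum_K0 hSC hrec
  obtain ⟨Φ, hΦ0, hΦ⟩ := bounded_of_lims hφ1 hφ2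
  -- polynomial cost
  have hPC : ∀ η : ℝ, 0 < η → ∃ c A' : ℝ, 0 < c ∧ 0 ≤ A' ∧ ∀ n : ℕ, 1 ≤ n →
      c * (n : ℝ) ^ (-A') ≤ Kv C (fun z => -η * φ z) (2 * n) 0 := by
    rcases hcase with ⟨η₁, hη₁, A, hpen⟩ | ⟨hR, A, hposr⟩ | ⟨hR, hL, A, hret⟩
    · refine HG.poly_one C hφ0 hη₁ (A := A) ?_
      filter_upwards [hpen, eventually_ge_atTop 1] with n hn hn1
      refine hn.trans (le_of_eq ?_)
      unfold penReturn
      exact Kv_eq_integral P C S hSC φ η₁ (by omega)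
    · refine HG.poly_right C hφ0 hΦ (vr_of_light C hR) (A := A) ?_
      filter_upwards [hposr, eventually_ge_atTop 1] with n hn hn1
      refine hn.trans (le_of_eq ?_)
      obtain ⟨m, hm⟩ : ∃ m, 2 * n = m + 1 := ⟨2 * n - 1, by omega⟩
      rw [hm, posReturn_eq P C S hSC (by omega)]
      rfl
    · refine HG.poly_two C hφ0 hΦ (vr_of_light C hR) (vr_of_light (cneg C) hL) (A := A) ?_
      filter_upwards [hret, eventually_ge_atTop 1] with n hn hn1
      refine hn.trans (le_of_eq ?_)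
      unfold retProb
      exact K0_eq_prob P C S hSC (2 * n) (by omega)
  let M₀ : Mod :=
    { C := C, μ := μ, prob := inferInstance, exp_mom := hexp, mean := hmean,
      var := hvar, φ := φ, Φ := Φ, ℓ := ℓ, φ_nonneg := hφ0, φ_le := hΦ, Φ_pos := hΦ0,
      φ_ne := by
        obtain ⟨x, hx⟩ := hφne
        exact ⟨x, lt_of_le_of_ne (hφ0 x) (Ne.symm hx)⟩,
      φ_top := hφ1, φ_bot := hφ2, β := 1, β_pos := one_pos, hrec := hrecC }
  have hlo : ∀ (β : ℝ) (hβ : 0 < β), HG.PolyCost (HG.withB M₀ β hβ) := fun β hβ => hPC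
  obtain ⟨F, hc, hF⟩ : ∃ (F : ℝ → ℝ → ℝ) (hc : ℝ → ℝ), ∀ (β : ℝ) (hβ : 0 < β),
      F β = (HG.withB M₀ β hβ).Fr ∧ 0 < hc β ∧
        ∀ h, 0 < (HG.withB M₀ β hβ).Fr h ↔ h < hc β := by
    refine ⟨fun β => if h : 0 < β then (HG.withB M₀ β h).Fr else fun _ => 0,
      fun β => if h : 0 < β then Classical.choose (HG.crit (HG.withB M₀ β h)) else 0,
      fun β hβ => ?_⟩
    simp only [dif_pos hβ]
    exact ⟨trivial, Classical.choose_spec (HG.crit (HG.withB M₀ β hβ))⟩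
  refine ⟨F, hc, fun β hβ => ?_, fun hmom => ?_⟩
  · obtain ⟨hF1, hc0, hcrit⟩ := hF β hβ
    rw [hF1]
    exact free_energy P S (HG.withB M₀ β hβ) hSC (hlo β hβ) hc0 hcrit
  obtain ⟨a, ha0, ha1, hsum⟩ := moment_le P S C hSC hmom
  obtain ⟨hT, hT'⟩ := HG.ftail_of_sum C ha0 ha1 hsum
  -- unbounded moments: infinite order
  have hunb : ∀ (β : ℝ) (hβ : 0 < β), HG.Unbd (HG.withB M₀ β hβ) (hc β) →
      InfiniteOrder (F β) (hc β) := by
    intro β hβ hU'
    obtain ⟨hF1, hc0, hcrit⟩ := hF β hβ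
    rw [hF1]
    intro q
    have hFz : (HG.withB M₀ β hβ).Fr (hc β) = 0 :=
      le_antisymm (not_lt.1 fun h1 => lt_irrefl _ ((hcrit (hc β)).1 h1))
        (HG.fr_nonneg _ (hlo β hβ) _)
    have hFΦ : ∀ δ : ℝ, 0 < δ → δ ≤ 1 → (HG.withB M₀ β hβ).Fr (hc β - δ) ≤ Φ :=
      fun δ h0 h1 => by
        have h3 := (HG.withB M₀ β hβ).Fr_lip (h := hc β - δ) (h' := hc β) (by linarith)
        have h6 : hc β - (hc β - δ) = δ := by ring
        rw [h6, hFz] at h3
        have h7 : (HG.withB M₀ β hβ).Φ = Φ := rfl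
        rw [h7] at h3
        nlinarith
    rcases lt_or_ge 0 q with hq | hq
    · obtain ⟨K, hK⟩ := HG.infOrd_of_unbd (HG.withB M₀ β hβ) (hlo β hβ) hc0 hcrit hU' q hq
      exact ⟨K, fun δ h0 h1 => hK δ h0.le h1⟩
    · refine ⟨Φ, fun δ h0 h1 => (hFΦ δ h0 h1).trans ?_⟩
      have h4 : (1 : ℝ) ≤ δ ^ q := Real.one_le_rpow_of_pos_of_le_one_of_nonpos h0 h1 hq
      exact le_mul_of_one_le_right hΦ0.le h4
  -- bounded moments
  have hMB : ∀ (β : ℝ) (hβ : 0 < β) (h : ℝ), MomBdd P S μ φ β h ↔ ∃ r K : ℝ, 1 < r ∧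
      ∀ n : ℕ, mom μ r (fun ω => (HG.withB M₀ β hβ).Z h (2 * n) ω) ≤ ENNReal.ofReal K := by
    intro β hβ h
    have hm := fun r n => mom_pin P S (HG.withB M₀ β hβ) hSC h r n
    constructor
    · rintro ⟨r, K, hr, hK⟩
      exact ⟨r, K, hr, fun n => (hm r (2 * n)).symm.le.trans (hK (2 * n))⟩
    · rintro ⟨r, K, hr, hK⟩
      obtain ⟨K', _, hK'⟩ := HG.mom_all (HG.withB M₀ β hβ) (h := h) (by linarith : 0 < r) hK
      exact ⟨r, K', hr, fun n => (hm r n).le.trans (hK' n)⟩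
  have hfin : ∀ (β : ℝ) (hβ : 0 < β) (r K : ℝ), 1 < r →
      (∀ n : ℕ, mom μ r (fun ω => (HG.withB M₀ β hβ).Z (hc β) (2 * n) ω) ≤ ENNReal.ofReal K) →
      FiniteOrder P S p φ (F β) (hc β) := by
    intro β hβ r K hr hb
    obtain ⟨hF1, hc0, hcrit⟩ := hF β hβ
    rw [hF1]
    exact finite_order P S (HG.withB M₀ β hβ) hSC (hlo β hβ) hc0 hcrit hr hb hmom
  -- large inverse temperature
  have hlarge : NoTopAtom μ → ∃ β₁ : ℝ, ∀ (β : ℝ) (hβ : 0 < β), β₁ ≤ β →
      ∃ N : ℕ, 1 < ∑ n ∈ Finset.range N, (HG.withB M₀ β hβ).g (hc β) n := by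
    intro hat
    obtain ⟨β₁, h1⟩ := HG.large_gap M₀ hat ha0 hsum
    exact ⟨β₁, fun β hβ hβ1 => h1 β hβ hβ1 (hc β) (hF β hβ).2.2⟩
  -- small inverse temperature
  have hcr : (∀ x, φ x = 0 ∨ φ x = 1) → ∀ (β : ℝ) (hβ : 0 < β), HG.WB μ C φ β →
      ∀ h, 0 < (HG.withB M₀ β hβ).Fr h ↔ h < Real.log (∫ x, Real.exp (β * x) ∂μ) :=
    fun hind β hβ hw => HG.wb_crit (HG.withB M₀ β hβ) hind (hlo β hβ) ha0 ha1 hT hT' hw
  have hsmall : SmallCase P S p φ → ∃ β₀ : ℝ, 0 < β₀ ∧ ∀ (β : ℝ) (hβ : 0 < β), β ≤ β₀ →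
      ∃ r K : ℝ, 1 < r ∧ ∀ n : ℕ, mom μ r (fun ω => (HG.withB M₀ β hβ).Z (hc β) (2 * n) ω) ≤
        ENNReal.ofReal K := by
    rintro ⟨hKr, hX⟩
    have hX' : HG.ExpPot C φ := by
      rcases hX with ⟨κ, hκ, hs⟩ | ⟨hR, hL⟩
      · refine ⟨κ, ∑' n, penReturn P S φ (-κ) n, hκ, fun N => ?_⟩
        have h1 : ∀ n, 0 ≤ penReturn P S φ (-κ) n := fun n =>
          integral_nonneg fun _ => (Real.exp_pos _).le
        refine le_trans (Finset.sum_le_sum fun n _ => ?_) (hs.sum_le_tsum (Finset.range N)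
          fun n _ => h1 n)
        rcases Nat.eq_zero_or_pos n with h0 | h0
        · subst h0
          exact (le_of_eq rfl).trans (h1 0)
        · refine le_of_eq ?_
          rw [pen_eq P S C hSC φ (-κ) n h0, neg_neg]
      · refine HG.expPot_of_light hφ0 hΦ hΦ0 (vr_of_light C hR) ?_
        rcases hL with h | h
        · exact Or.inl (vr_of_light (cneg C) h)
        · exact Or.inr (expLeft_of P S C hSC h)
    rcases hKr with ⟨A, hA, hlow⟩ | ⟨hind, hs2⟩
    swap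
    · have hret0 : ∀ n : ℕ, (P {w | S n w = 0}).toReal = Zd C (fun _ => 0) n 0 0 := by
        intro n
        have h1 := HG.pin_eq_integral P C S hSC (fun _ => 0) 0 0 n (fun _ => 0)
        simp only [mul_zero, Finset.sum_const_zero, Real.exp_zero, integral_const, smul_eq_mul,
          mul_one] at h1
        rw [measureReal_restrict_apply_univ] at h1
        unfold Zd
        simp only [Real.exp_zero]
        exact h1
      obtain ⟨β₀, hβ₀, hsm⟩ := HG.small_ind M₀ hind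
        (U := Real.sqrt (∑' n : ℕ, (P {w | S n w = 0}).toReal ^ 2)) (Real.sqrt_nonneg _)
        (fun N => by
          rw [Real.sq_sqrt (tsum_nonneg fun n => sq_nonneg _)]
          refine le_trans (le_of_eq (Finset.sum_congr rfl fun n _ => ?_))
            (hs2.sum_le_tsum (Finset.range N) fun n _ => sq_nonneg _)
          rw [hret0]) hX'
      refine ⟨β₀, hβ₀, fun β hβ hββ => ?_⟩
      have hw := hsm β hβ hββ
      have he : hc β = Real.log (∫ x, Real.exp (β * x) ∂μ) :=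
        crit_unique (hF β hβ).2.2 (hcr hind β hβ hw)
      obtain ⟨r, K, hr, hK⟩ := hw
      refine ⟨r, K, hr, ?_⟩
      rw [he]
      exact hK
    obtain ⟨β₀, hβ₀, hsm⟩ := HG.small_betaX M₀ (α := max (A - 1) 0) (le_max_right _ _)
      (max_lt (by linarith) (by norm_num)) (fun ε hε => by
        filter_upwards [hlow, eventually_ge_atTop 1] with n hn hn1
        rw [ret_eq P S C hSC (2 * n) (by omega)] at hn
        refine le_trans ?_ hn
        refine Real.rpow_le_rpow_of_exponent_le ?_ ?_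
        · exact_mod_cast (by omega : 1 ≤ 2 * n)
        · have := le_max_left (A - 1) 0
          linarith) hX' ha0 ha1 hT hT'
    refine ⟨β₀, hβ₀, fun β hβ hββ => ?_⟩
    obtain ⟨h₀, K, h0, hcr, hm⟩ := hsm β hβ hββ
    have he : h₀ = hc β := crit_unique hcr (hF β hβ).2.2
    subst he
    exact ⟨2, K, one_lt_two, hm⟩
  refine ⟨?_, ?_, ?_⟩
  · intro hat
    obtain ⟨β₁, h1⟩ := hlarge hat
    refine ⟨β₁, fun β hβ hβ1 => ?_⟩
    obtain ⟨N, hN⟩ := h1 β hβ hβ1
    exact ⟨hunb β hβ (HG.unbd_of_mass hN), annealed_growth P S (HG.withB M₀ β hβ) hSC hN⟩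
  · intro hsc
    obtain ⟨β₀, hβ₀, hsm⟩ := hsmall hsc
    refine ⟨β₀, hβ₀, fun β hβ hββ => ?_⟩
    obtain ⟨r, K, hr, hm⟩ := hsm β hβ hββ
    obtain ⟨hF1, hc0, hcrit⟩ := hF β hβ
    refine ⟨(hMB β hβ (hc β)).2 ⟨r, K, hr, hm⟩, ?_, hfin β hβ r K hr hm⟩
    have hs : ∀ N : ℕ, ∑ n ∈ Finset.range N, (HG.withB M₀ β hβ).g (hc β) n ≤ 1 :=
      HG.bdd_sum (M := HG.withB M₀ β hβ) hr hm
    exact annealed_zero P S (HG.withB M₀ β hβ) hSC (hlo β hβ) hcrit
      (fun a ha => (HG.withB M₀ β hβ).ann_zero hs ha)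
  · intro hind
    have hWB : ∀ (β : ℝ), 0 < β →
        (MomBdd P S μ φ β (Real.log (∫ x, Real.exp (β * x) ∂μ)) ↔ HG.WB μ C φ β) := fun β hβ =>
      hMB β hβ _
    have hcr := hcr hind
    refine ⟨{β | MomBdd P S μ φ β (Real.log (∫ x, Real.exp (β * x) ∂μ))}, fun β => Iff.rfl,
      ?_, ?_, ?_, ?_, ?_⟩
    · intro β hβB β' hβ' hle
      have hβ : 0 < β := hβ'.trans_le hle
      exact (hWB β' hβ').2 (HG.wb_down hexp C hind hβ'.le hle ((hWB β hβ).1 hβB))
    · intro β hβ hβB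
      have hw : HG.WB μ C φ β := (hWB β hβ).1 hβB
      have he : hc β = Real.log (∫ x, Real.exp (β * x) ∂μ) :=
        crit_unique (hF β hβ).2.2 (hcr β hβ hw)
      refine ⟨he, ?_⟩
      obtain ⟨r, K, hr, hK⟩ := hw
      refine hfin β hβ r K hr ?_
      rw [he]
      exact hK
    · intro β hβ hβB
      have hw : ¬ HG.WB μ C φ β := fun h => hβB ((hWB β hβ).2 h)
      obtain ⟨hF1, hc0, hcrit⟩ := hF β hβ
      exact hunb β hβ (HG.wb_unbd (HG.withB M₀ β hβ) hind hc0 hcrit hw)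
    · intro hsc
      obtain ⟨β₀, hβ₀, hsm⟩ := hsmall hsc
      refine ⟨β₀, hβ₀, fun β hβ hββ => (hWB β hβ).2 ?_⟩
      obtain ⟨r, K, hr, hm⟩ := hsm β hβ hββ
      exact HG.wb_of_bdd (HG.withB M₀ β hβ) hind (hF β hβ).2.1 (hF β hβ).2.2 hr hm
    · intro hat
      obtain ⟨β₁, h1⟩ := hlarge hat
      refine ⟨β₁, fun β hβ hβ1 hB => ?_⟩
      have hw : HG.WB μ C φ β := (hWB β hβ).1 hB
      have he : hc β = Real.log (∫ x, Real.exp (β * x) ∂μ) :=
        crit_unique (hF β hβ).2.2 (hcr β hβ hw)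
      obtain ⟨N, hN⟩ := h1 β hβ hβ1
      obtain ⟨r, K, hr, hK⟩ := hw
      have hK' : ∀ n : ℕ, mom (HG.withB M₀ β hβ).μ r (fun ω => (HG.withB M₀ β hβ).Z (hc β) (2 * n) ω)
          ≤ ENNReal.ofReal K := by
        rw [he]
        exact hK
      have := HG.bdd_sum hr hK' N
      linarith

/-- exponentially short excursions to the left, on the probability space -/
lemma neg_of_expLeft {Ω : Type u} [MeasurableSpace Ω] (P : Measure Ω) [IsProbabilityMeasure P]
    (S : ℕ → Ω → ℤ) (C : Chain) (hS : IsMarkovChain P C.p S) (h : HG.ExpLeft C) :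
    ∃ c M : ℝ, 0 < c ∧ ∀ n : ℕ, negReturn P S n ≤ M * Real.exp (-(c * n)) := by
  obtain ⟨c, B, hc, hB⟩ := h
  refine ⟨c, (|B| + 1) * Real.exp c, hc, fun n => ?_⟩
  have hB0 : 0 ≤ |B| := abs_nonneg B
  have hle1 : ∀ n, negReturn P S n ≤ 1 := fun n => by
    unfold negReturn
    exact ENNReal.toReal_le_of_le_ofReal zero_le_one (by
      rw [ENNReal.ofReal_one]; exact prob_le_one)
  rcases lt_or_ge n 2 with hn | hn
  · refine (hle1 n).trans ?_
    rw [mul_assoc, ← Real.exp_add]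
    have hn1 : (n : ℝ) ≤ 1 := by exact_mod_cast (by omega : n ≤ 1)
    have h1 : 1 ≤ Real.exp (c + -(c * n)) := Real.one_le_exp (by nlinarith)
    nlinarith
  · obtain ⟨m, rfl⟩ : ∃ m, n = m + 1 := ⟨n - 1, by omega⟩
    rw [negReturn_eq P C S hS (by omega)]
    have h1 : (|B| + 1) * Real.exp c * Real.exp (-(c * ((m + 1 : ℕ) : ℝ))) =
        (|B| + 1) * Real.exp (-(c * m)) := by
      rw [mul_assoc, ← Real.exp_add]
      congr 2
      push_cast
      ring
    rw [h1]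
    calc C.p 0 (-1) * K0 C m (-1) ≤ 1 * K0 C m (-1) :=
          mul_le_mul_of_nonneg_right (C.p_le_one 0 (-1)) (K0_nonneg _ _ _)
      _ ≤ B * Real.exp (-(c * m)) := by
          rw [one_mul]
          exact hB m
      _ ≤ _ := mul_le_mul_of_nonneg_right (by linarith [le_abs_self B]) (Real.exp_pos _).le

/-- a bounded moment of the pinned partition functions -/
lemma momBdd_of_wb {Ω : Type u} [MeasurableSpace Ω] (P : Measure Ω) [IsProbabilityMeasure P]
    (S : ℕ → Ω → ℤ) (M : Mod) (hS : IsMarkovChain P M.C.p S) (h : HG.WB M.μ M.C M.φ M.β) :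
    MomBdd P S M.μ M.φ M.β (Real.log (∫ x, Real.exp (M.β * x) ∂M.μ)) := by
  obtain ⟨r, K, hr, hK⟩ := h
  obtain ⟨K', _, hK'⟩ := HG.mom_all M (h := Real.log (∫ x, Real.exp (M.β * x) ∂M.μ))
    (by linarith : 0 < r) hK
  exact ⟨r, K', hr, fun n => (mom_pin P S M hS _ r n).le.trans (hK' n)⟩

lemma cop_eq : cop = HG.copP := rfl

/-- **(A)** Copolymers with a transition of order exactly `1 / α`, for every `0 < α ≤ 1/2`, also at every
inverse temperature: the conjecture of Q1 fails. **(B)** Small and large inverse temperatures, in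
general. -/
theorem key :
    -- (A) the copolymer: chains with loop exponent `α` and order exactly `1 / α`; at every inverse
    -- temperature if the charges have an atom of mass at least `q` at their essential supremum
    (∀ α q : ℝ, 0 < α → α ≤ 1 / 2 → 0 < q → ∃ p : ℤ → ℤ → ℝ, IsKernel p ∧ (∀ x, p x x = 0) ∧
      ∀ {Ω : Type u} [MeasurableSpace Ω] (P : Measure Ω) [IsProbabilityMeasure P]
        (S : ℕ → Ω → ℤ), IsMarkovChain P p S →
        (∀ᵐ w ∂P, ∃ n, 0 < n ∧ S n w = 0) ∧ LoopTail (retProb P S) α ∧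
        ∀ (μ : Measure ℝ) [IsProbabilityMeasure μ],
          (∀ t : ℝ, Integrable (fun x => Real.exp (t * x)) μ) → ∫ x, x ∂μ = 0 →
          ∫ x, x ^ 2 ∂μ = 1 → ∃ (F : ℝ → ℝ → ℝ) (hc : ℝ → ℝ) (B : Set ℝ),
            (∀ β : ℝ, 0 < β → IsFreeEnergy P S μ cop β (F β) (hc β)) ∧
            (∀ β : ℝ, β ∈ B ↔ MomBdd P S μ cop β (Real.log (∫ x, Real.exp (β * x) ∂μ))) ∧
            (∀ β ∈ B, ∀ β' : ℝ, 0 < β' → β' ≤ β → β' ∈ B) ∧
            (∃ β₀ : ℝ, 0 < β₀ ∧ ∀ β : ℝ, 0 < β → β ≤ β₀ → β ∈ B) ∧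
            (∀ β : ℝ, 0 < β → β ∈ B → hc β = Real.log (∫ x, Real.exp (β * x) ∂μ) ∧
              HasOrder (F β) (hc β) (1 / α)) ∧
            (∀ β : ℝ, 0 < β → β ∉ B → InfiniteOrder (F β) (hc β)) ∧
            (NoTopAtom μ → ∃ β₁ : ℝ, ∀ β : ℝ, 0 < β → β₁ ≤ β → β ∉ B) ∧
            ((∃ A : ℝ, μ (Ioi A) = 0 ∧ ENNReal.ofReal q ≤ μ {A}) →
              ∀ β : ℝ, 0 < β → β ∈ B)) ∧
    -- (B) general chains and potentials
    (∀ {Ω : Type u} [MeasurableSpace Ω] (P : Measure Ω) [IsProbabilityMeasure P]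
      (p : ℤ → ℤ → ℝ) (S : ℕ → Ω → ℤ) (μ : Measure ℝ) [IsProbabilityMeasure μ]
      (φ : ℤ → ℝ) (ℓ : ℝ), IsKernel p → IsMarkovChain P p S →
      (∀ᵐ w ∂P, ∃ n, 0 < n ∧ S n w = 0) →
      (∀ t : ℝ, Integrable (fun x => Real.exp (t * x)) μ) → ∫ x, x ∂μ = 0 → ∫ x, x ^ 2 ∂μ = 1 →
      (∀ x, 0 ≤ φ x) → (∃ x, φ x ≠ 0) → Tendsto φ atTop (𝓝 0) → Tendsto φ atBot (𝓝 ℓ) →
      PolyCase P S p φ → Conclusion P S p μ φ) := by
  refine ⟨?_, ?_⟩
  · intro α q h0 h1 hq
    obtain ⟨C, hnl, hsum, hexpL, hup, hlow, hwb⟩ := HG.q_chain (κ := 1 / q) h0 h1 (by positivity)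
    refine ⟨C.p, chain_kernel _, hnl, ?_⟩
    intro Ω _ P _ S hS
    have hrec : ∀ᵐ w ∂P, ∃ n, 0 < n ∧ S n w = 0 := HG.return_of_K0 P C S hS hsum
    have hneg := neg_of_expLeft P S C hS hexpL
    have hret : LoopTail (retProb P S) α := by
      refine loopTail_of_bounds (fun ε hε => ?_) (fun ε hε => ?_)
      · filter_upwards [hlow ε hε, eventually_ge_atTop 1] with n hn hn1
        rw [ret_eq P S C hS (2 * n) (by omega)]
        exact hn
      · filter_upwards [hup ε hε, eventually_ge_atTop 1] with n hn hn1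
        rw [ret_eq P S C hS (2 * n) (by omega)]
        exact hn
    refine ⟨hrec, hret, fun μ _ hexp hmean hvar => ?_⟩
    have hR : LightRight C.p cop := by
      refine Or.inl ⟨1, fun x hx => ?_⟩
      unfold cop
      rw [if_neg (by omega)]
    obtain ⟨F, hc, hF, hA⟩ := general P C.p (chain_kernel _) S hS hrec
      μ hexp hmean hvar cop HG.QFin.copP_nonneg ⟨0, by unfold cop; norm_num⟩
      HG.QFin.copP_top 1 HG.QFin.copP_bot (Or.inr (Or.inl ⟨hR, 1 + α + 1, by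
          filter_upwards [right_low hexpL hlow one_pos, eventually_ge_atTop 1] with n hn hn1
          obtain ⟨m, hm⟩ : ∃ m, 2 * n = m + 1 := ⟨2 * n - 1, by omega⟩
          rw [hm, posReturn_eq P C S hS (by omega), ← hm]
          have h2 : m = 2 * n - 1 := by omega
          rw [h2]
          exact hn⟩))
    have hmom : SomeMoment (retProb P S) := by
      refine ⟨α / 2, half_pos h0, ?_⟩
      have h3 := HG.k0_mom_of_up C hup (half_pos h0) (half_lt_self h0)
      refine h3.congr fun n => ?_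
      rcases Nat.eq_zero_or_pos n with hn | hn
      · subst hn
        rw [Nat.cast_zero, Real.zero_rpow (half_pos h0).ne', zero_mul, zero_mul]
      · rw [ret_eq P S C hS n hn]
    obtain ⟨_, _, hi⟩ := hA hmom
    obtain ⟨B, hB0, hB1, hB2, hB3, _, hB5⟩ := hi HG.QFin.copP_ind
    have hmem : ∀ β : ℝ, 0 < β →
        Real.exp (lmg μ (2 * β) - 2 * lmg μ β) ≤ 1 + 1 / q → β ∈ B := by
      intro β hβ hb
      rw [hB0]
      let M : Mod :=
        { C := C, μ := μ, prob := inferInstance, exp_mom := hexp, mean := hmean,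
          var := hvar, φ := HG.copP, Φ := 1, ℓ := 1, φ_nonneg := HG.QFin.copP_nonneg,
          φ_le := HG.QFin.copP_le, Φ_pos := one_pos,
          φ_ne := ⟨0, by unfold HG.copP; norm_num⟩,
          φ_top := HG.QFin.copP_top, φ_bot := HG.QFin.copP_bot, β := β, β_pos := hβ,
          hrec := hsum }
      exact momBdd_of_wb P S M hS (hwb M rfl rfl hb)
    refine ⟨F, hc, B, hF, hB0, hB1, ?_, fun β hβ hβB => ?_, hB3, hB5, ?_⟩
    · obtain ⟨β₀, hβ₀, h⟩ := HG.small_lmg (μ := μ) hexp hmean (show (0 : ℝ) < 1 / q by positivity)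
      exact ⟨β₀, hβ₀, fun β hβ hββ => hmem β hβ (h β hβ hββ)⟩
    · obtain ⟨he, h6⟩ := hB2 β hβ hβB
      exact ⟨he, h6.2 α h0 (Or.inr ⟨hret, Or.inr ⟨hR, Or.inr (Or.inr hneg)⟩⟩)⟩
    · rintro ⟨A, hA0, hA1⟩ β hβ
      exact hmem β hβ (HG.atom_lmg hexp hq hA0 hA1 hβ.le)
  · intro Ω _ P _ p S μ _ φ ℓ hp hS hrec hexp hmean hvar hφ0 hφne hφ1 hφ2 hcase
    exact general P p hp S hS hrec μ hexp hmean hvar φ hφ0 hφne hφ1 ℓ hφ2 hcase

end

end Pool.Agent.HGW
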