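import Pool.Agent.Lib.MP_daa227_pr_HG.QDef
import Pool.Agent.Lib.MP_daa227_pr_AS.Dec
import Pool.Agent.Lib.MP_daa227_pr_AS.ConvA

/-!
# MP_daa227_pr, project Q: squares of the return probabilities
-/

namespace Pool.Agent.HG

open MeasureTheory ProbabilityTheory Finset Filter Topology
open MP_daa227_pr (Chain Zk Zf Gk Gf KU K0 Ren shift seqLaw ExpMom DepOn Good GoodW mom)
open Pool.Agent.HZ (Mod Kv lmg)

noncomputable section

namespace QAnti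

theorem zd_le (C : Chain) (n : ℕ) (x y : ℤ) : HZ.Zd C (fun _ => 0) n x y ≤ 1 := by
  induction n generalizing x with
  | zero =>
    unfold HZ.Zd
    rw [Zk]
    split_ifs <;> norm_num
  | succ n ih =>
    have h : HZ.Zd C (fun _ => 0) (n + 1) x y = ∑ z ∈ Finset.Icc (x - 1) (x + 1),
      C.p x z * Real.exp ((fun _ : ℤ => (0 : ℝ)) z) * HZ.Zd C (fun _ => 0) n z y := rfl
    rw [h, ← C.sum_one x]
    refine Finset.sum_le_sum fun z _ => ?_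
    rw [Real.exp_zero, mul_one]
    exact mul_le_of_le_one_right (C.nonneg _ _) (ih z)

theorem vu0 : AS.vu 0 = fun _ => 0 := by
  funext z
  unfold AS.vu
  rw [zero_mul]

theorem an_eq (C : Chain) (m : ℕ) : AS.An C 0 m = HZ.Zd C (fun _ => 0) (2 * m) 0 0 := by
  unfold AS.An
  rw [vu0]
  rfl

theorem an_le (C : Chain) (m : ℕ) : AS.An C 0 m ≤ 1 := by
  rw [an_eq]
  exact zd_le C _ _ _

theorem an_anti (C : Chain) (hnl : ∀ x, C.p x x = 0) {m n : ℕ} (h : m ≤ n) :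
    AS.An C 0 n ≤ AS.An C 0 m := by
  have hR := AS.An_ren C hnl 0
  have h1 := OT.K1.anti (f := AS.An C 0) hR.pos hR.conv (an_le C)
  exact antitone_nat_of_succ_le h1 h

theorem g_eq (C : Chain) (hnl : ∀ x, C.p x x = 0) (j : ℕ) :
    AS.G (OT.Kp C) (OT.Km C) 0 (j + 1) = K0 C (2 * (j + 1)) 0 := by
  rw [← AS.Kv_half C hnl 0 (j + 1), vu0, AZ.Kv_K0]

theorem ren (C : Chain) (hnl : ∀ x, C.p x x = 0) (n : ℕ) :
    ∑ m ∈ range (n + 1), AS.An C 0 m * (1 - ∑ j ∈ range (n - m), K0 C (2 * (j + 1)) 0) = 1 := by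
  have h := AS.bn_id (F := 0) (AS.An_ren C hnl 0) n
  rw [← h]
  refine Finset.sum_congr rfl fun m _ => ?_
  have e1 : ∀ t : ℝ, Real.exp (-(2 * 0 * t)) = 1 := fun t => by simp
  rw [e1, mul_one]
  congr 2
  refine Finset.sum_congr rfl fun j _ => ?_
  rw [e1, mul_one, g_eq C hnl]

theorem k0_nonneg (C : Chain) (n : ℕ) (x : ℤ) : 0 ≤ K0 C n x := by
  rw [← AZ.Kv_K0]
  exact AZ.Kv_nonneg C _ n x

theorem bd (C : Chain) (hnl : ∀ x, C.p x x = 0) {e : ℝ} {n : ℕ} (hn : 1 ≤ n) (he : 0 ≤ e)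
    (h : 1 ≤ (1 + e) * (1 - ∑ j ∈ range n, K0 C (2 * (j + 1)) 0)) :
    AS.An C 0 n ≤ e / n := by
  obtain ⟨Q, hQ⟩ : ∃ Q, Q = 1 - ∑ j ∈ range n, K0 C (2 * (j + 1)) 0 := ⟨_, rfl⟩
  rw [← hQ] at h
  have hQ0 : 0 < Q := by
    by_contra hcon
    rw [not_lt] at hcon
    nlinarith
  have hR := AS.An_ren C hnl 0
  have h1 : (∑ m ∈ range (n + 1), AS.An C 0 m) * Q ≤ 1 := by
    rw [← ren C hnl n, Finset.sum_mul]
    refine Finset.sum_le_sum fun m _ => mul_le_mul_of_nonneg_left ?_ (hR.pos m).le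
    rw [hQ]
    refine sub_le_sub_left (Finset.sum_le_sum_of_subset_of_nonneg ?_ fun j _ _ =>
      k0_nonneg C _ _) 1
    exact Finset.range_mono (Nat.sub_le n m)
  have h2 : ∑ m ∈ range (n + 1), AS.An C 0 m ≤ 1 + e :=
    le_of_mul_le_mul_right (h1.trans h) hQ0
  rw [Finset.sum_range_succ', hR.zero] at h2
  have h3 : (n : ℝ) * AS.An C 0 n ≤ ∑ m ∈ range n, AS.An C 0 (m + 1) := by
    have h4 : ∑ _m ∈ range n, AS.An C 0 n ≤ ∑ m ∈ range n, AS.An C 0 (m + 1) :=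
      Finset.sum_le_sum fun m hm => an_anti C hnl (Nat.succ_le_of_lt (Finset.mem_range.1 hm))
    rwa [Finset.sum_const, Finset.card_range, nsmul_eq_mul] at h4
  have hn0 : (0 : ℝ) < n := by exact_mod_cast hn
  rw [le_div_iff₀ hn0]
  linarith

theorem sum_pairs (f : ℕ → ℝ) (K : ℕ) : ∑ n ∈ range (2 * K), f (n + 1) =
    ∑ k ∈ range K, (f (2 * k + 1) + f (2 * (k + 1))) := by
  induction K with
  | zero => simp
  | succ K ih =>
    have e : 2 * (K + 1) = 2 * K + 1 + 1 := by ring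
    rw [e, Finset.sum_range_succ, Finset.sum_range_succ, ih, Finset.sum_range_succ, add_assoc, e]

end QAnti

/-- Let `u n = HZ.Zd C 0 n 0 0 = P(S_n = 0)`, `A m = u (2m)` (`AS.An C 0 m`, where `vu 0 = 0`; `AZ.Zd` and
`HZ.Zd` have the same definition), `Q n = 1 - ∑_{j<n} K0 C (2(j+1)) 0 = P(τ > 2n)`.
`u n = 0` for odd `n` (parity, `hnl`). `A` is nonincreasing: `AS.An_conv` (log-convexity), `A ≤ 1`,
`OT.K1.anti`. Renewal identity `∑_{m≤n} A m Q (n-m) = 1` (`AS.bn_id` with `u = F = 0` and `AS.An_ren`;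
`G (Kp C) (Km C) 0 (j+1) = K0 C (2(j+1)) 0`), so `(1 + ∑_{1≤m≤n} A m) Q n ≤ 1`, hence with the
hypothesis `∑_{1≤m≤n} A m ≤ e n`, and by monotonicity `n A n ≤ e n` for `n ≥ 1`. Sum the squares. -/
theorem u_sq (C : Chain) (hnl : ∀ x, C.p x x = 0) {e : ℕ → ℝ}
    (he : ∀ n : ℕ, 1 ≤ n → 0 ≤ e n ∧
      1 ≤ (1 + e n) * (1 - ∑ j ∈ range n, K0 C (2 * (j + 1)) 0)) (N : ℕ) :
    ∑ n ∈ range N, HZ.Zd C (fun _ => 0) (n + 1) 0 0 ^ 2 ≤
      ∑ n ∈ range N, (e (n + 1) / ((n : ℝ) + 1)) ^ 2 := by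
  obtain ⟨f, hf⟩ : ∃ f : ℕ → ℝ, ∀ n, f n = HZ.Zd C (fun _ => 0) n 0 0 ^ 2 := ⟨_, fun _ => rfl⟩
  have h0 : ∀ n, 0 ≤ f n := fun n => by
    rw [hf]
    positivity
  have h1 : ∑ n ∈ range N, HZ.Zd C (fun _ => 0) (n + 1) 0 0 ^ 2 ≤
      ∑ n ∈ range (2 * N), f (n + 1) := by
    simp only [← hf]
    exact Finset.sum_le_sum_of_subset_of_nonneg (Finset.range_mono (by omega)) fun n _ _ => h0 _
  refine h1.trans ?_
  rw [QAnti.sum_pairs]
  refine Finset.sum_le_sum fun k _ => ?_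
  have hodd : f (2 * k + 1) = 0 := by
    rw [hf]
    have h2 : HZ.Zd C (fun _ => 0) (2 * k + 1) 0 0 = 0 := AS.Zd_odd C hnl (fun _ => 0) k
    rw [h2]
    norm_num
  rw [hodd, zero_add, hf, ← QAnti.an_eq]
  have h3 := he (k + 1) (by omega)
  have h4 := QAnti.bd C hnl (by omega) h3.1 h3.2
  push_cast at h4
  exact pow_le_pow_left₀ ((AS.An_ren C hnl 0).pos (k + 1)).le h4 2

end

end Pool.Agent.HG
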