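import Pool.Agent.Lib.MP_daa227_pr_HG.LTwo
import Pool.Agent.Lib.MP_daa227_pr_HG.LSid

/-!
# MP_daa227_pr, chains whose copolymer has order `1 / α` at every inverse temperature: definitions

Project Q. For every `0 < α ≤ 1/2` and every `κ` there is a chain with loop exponent `α` such that the
second moment of the pinned copolymer partition function is bounded at `h = log E[exp (β ω)]` as soon as
`exp (λ(2β) - 2 λ(β)) ≤ 1 + κ` (for all `β` if the charges have an atom of mass at least `1 / (1 + κ)`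
at their essential supremum; for small `β` always). The chain: on `x ≤ 0` a step up with probability
`1 - δ`; on `x ≥ 1` the scale function `s(x) = ∑_{y<x} ρ y`, `ρ 0 = 1`,
`ρ y = ε (y+1)^(2α-1) / (log (y+3))^2` for `y ≥ 1`.
-/

namespace Pool.Agent.HG

open MeasureTheory ProbabilityTheory Finset Filter Topology
open MP_daa227_pr (Chain Zk Zf Gk Gf KU K0 Ren shift seqLaw ExpMom DepOn Good GoodW mom)
open Pool.Agent.HZ (Mod Kv lmg)

noncomputable section

/-- the properties of the chain that are used -/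
structure QC (C : Chain) (ρ : ℕ → ℝ) (α ε δ : ℝ) : Prop where
  nl : ∀ x, C.p x x = 0
  left_up : ∀ x : ℤ, x ≤ 0 → C.p x (x + 1) = 1 - δ
  left_dn : ∀ x : ℤ, x ≤ 0 → C.p x (x - 1) = δ
  rho_zero : ρ 0 = 1
  rho_pos : ∀ n, 0 < ρ n
  rho_anti : ∀ n, ρ (n + 1) ≤ ρ n
  rho_le : ∀ n : ℕ, 1 ≤ n → ρ n ≤ ε / Real.log ((n : ℝ) + 3) ^ 2
  rho_div : Tendsto (fun N : ℕ => ∑ n ∈ range N, ρ n) atTop atTop
  rel : ∀ n : ℕ, C.p ((n : ℤ) + 1) ((n : ℤ) + 2) * ρ (n + 1) = C.p ((n : ℤ) + 1) n * ρ n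
  dr_le : ∀ n : ℕ, ((n : ℝ) + 1) * (C.p ((n : ℤ) + 1) ((n : ℤ) + 2) - C.p ((n : ℤ) + 1) n) ≤ 7
  dr : Tendsto (fun x : ℤ => (x : ℝ) * (C.p x (x + 1) - C.p x (x - 1))) atTop (𝓝 (1 / 2 - α))

/-- the potential of the copolymer -/
def copP (x : ℤ) : ℝ := if x ≤ 0 then 1 else 0

/-- the weight `A^|x|` -/
def wA (A : ℝ) (x : ℤ) : ℝ := A ^ x.natAbs

end

end Pool.Agent.HG
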