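import Pool.Agent.Lib.MP_daa227_pr_HG.QDef
import Pool.Agent.Lib.MP_daa227_pr_HG.TMain

/-!
# MP_daa227_pr, project Q: the second moment from a weighted Green function
-/

namespace Pool.Agent.HG

open MeasureTheory ProbabilityTheory Finset Filter Topology
open MP_daa227_pr (Chain Zk Zf Gk Gf KU K0 Ren shift seqLaw ExpMom DepOn Good GoodW mom)
open Pool.Agent.HZ (Mod Kv lmg)

noncomputable section

namespace QPair

theorem zd_le_one (C : Chain) {v : ℤ → ℝ} (hv : ∀ z, v z ≤ 0) (n : ℕ) (x y : ℤ) :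
    HZ.Zd C v n x y ≤ 1 := by
  induction n generalizing x with
  | zero =>
    unfold HZ.Zd
    rw [Zk]
    split_ifs <;> norm_num
  | succ n ih =>
    have h : HZ.Zd C v (n + 1) x y = ∑ z ∈ Finset.Icc (x - 1) (x + 1),
      C.p x z * Real.exp (v z) * HZ.Zd C v n z y := rfl
    rw [h, ← C.sum_one x]
    refine Finset.sum_le_sum fun z _ => ?_
    have h1 : Real.exp (v z) ≤ 1 := Real.exp_le_one_iff.2 (hv z)
    have h2 : Real.exp (v z) * HZ.Zd C v n z y ≤ 1 :=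
      mul_le_one₀ h1 (HZ.Zd_nonneg _ _ _ _ _) (ih z)
    rw [mul_assoc]
    exact mul_le_of_le_one_right (C.nonneg _ _) h2

theorem exp_lmg (M : Mod) (t : ℝ) : ∫ a, Real.exp (t * a) ∂M.μ = Real.exp (lmg M.μ t) := by
  unfold HZ.lmg
  rw [Real.exp_log]
  exact integral_exp_pos (M.exp_mom t)

end QPair

/-- As `two_bound` (file LTwo.lean), but only the starting points with `φ ≠ 0` are used and `κ γ
< 1`
suffices. Strong induction on `n`. `d2_le` (LTwo.lean):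
`D2 n x y ≤ Zd n x 0 * Zd n y 0 + ∑_{i<n} T2 (i+1) (κ φ φ' D2 (n-1-i)) x y`. First term at most `1`
(`v ≤ 0`, `p` is a transition kernel). With `A₀ = (1 - κ γ)⁻¹` the induction hypothesis gives
`κ φ z φ z' D2 (n-1-i) z z' ≤ κ A₀ (φ z w z) (φ z' w z')` for all `z z'` (trivial if `φ z = 0` or
`φ z' = 0`), so by `t2_mono`, `t2_smul`, `t2_mul` and Cauchy-Schwarz
`D2 n x y ≤ 1 + κ A₀ ∑_i f (i+1) x f (i+1) y ≤ 1 + κ A₀ γ w x w y ≤ (1 + κ A₀ γ) w x w y = A₀ w x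
w y`
(`w x, w y ≥ 1`), where `f n x = Fn n x`. -/
theorem pair_bound (M : Mod) {h κ γ : ℝ} (hκ : 0 ≤ κ) (hγ : 0 ≤ γ) (hκγ : κ * γ < 1)
    (hv : ∀ z, M.v h z ≤ 0)
    (hw2 : ∀ z z' : ℤ, ∫ a, M.W h a z * M.W h a z' ∂M.μ ≤
      Real.exp (M.v h z + M.v h z') * (1 + κ * (M.φ z * M.φ z'))) {w : ℤ → ℝ}
    (hw : ∀ z, M.φ z ≠ 0 → 1 ≤ w z)
    (hG : ∀ y, M.φ y ≠ 0 → ∀ N : ℕ,
      ∑ n ∈ range N, Fn M.C (M.v h) (fun z => M.φ z * w z) (n + 1) y ^ 2 ≤ γ * w y ^ 2)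
    (n : ℕ) {x y : ℤ} (hx : M.φ x ≠ 0) (hy : M.φ y ≠ 0) :
    D2 M h n x y ≤ (1 - κ * γ)⁻¹ * (w x * w y) := by
  set A₀ : ℝ := (1 - κ * γ)⁻¹ with hA₀
  have h0 : 0 < 1 - κ * γ := by linarith
  have hA : 0 < A₀ := inv_pos.2 h0
  have hA1 : A₀ * (1 - κ * γ) = 1 := inv_mul_cancel₀ h0.ne'
  induction n using Nat.strong_induction_on generalizing x y with
  | _ n ih =>
    refine (d2_le M hw2 n x y).trans ?_
    have h1 : HZ.Zd M.C (M.v h) n x 0 * HZ.Zd M.C (M.v h) n y 0 ≤ 1 :=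
      mul_le_one₀ (QPair.zd_le_one M.C hv n x 0) (HZ.Zd_nonneg _ _ _ _ _)
        (QPair.zd_le_one M.C hv n y 0)
    have h2 : ∀ i ∈ range n, T2 M.C (M.v h) (i + 1)
        (fun z z' => κ * (M.φ z * M.φ z') * D2 M h (n - 1 - i) z z') x y ≤
        κ * A₀ * (Fn M.C (M.v h) (fun z => M.φ z * w z) (i + 1) x *
          Fn M.C (M.v h) (fun z => M.φ z * w z) (i + 1) y) := by
      intro i hi
      have hi' := Finset.mem_range.mp hi
      rw [← t2_mul, ← t2_smul]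
      refine t2_mono M.C (M.v h) (fun z z' => ?_) _ x y
      by_cases hz : M.φ z = 0
      · rw [hz]
        simp
      by_cases hz' : M.φ z' = 0
      · rw [hz']
        simp
      have h3 := ih (n - 1 - i) (by omega) hz hz'
      have h4 : 0 ≤ κ * (M.φ z * M.φ z') :=
        mul_nonneg hκ (mul_nonneg (M.φ_nonneg z) (M.φ_nonneg z'))
      refine (mul_le_mul_of_nonneg_left h3 h4).trans (le_of_eq ?_)
      ring
    have h5 := Finset.sum_le_sum h2
    rw [← Finset.mul_sum] at h5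
    have hwx : 1 ≤ w x := hw x hx
    have hwy : 1 ≤ w y := hw y hy
    have hxy : 1 ≤ w x * w y := one_le_mul_of_one_le_of_one_le hwx hwy
    have h6 : ∑ i ∈ range n, Fn M.C (M.v h) (fun z => M.φ z * w z) (i + 1) x *
        Fn M.C (M.v h) (fun z => M.φ z * w z) (i + 1) y ≤ γ * (w x * w y) := by
      refine abs_le_of_sq_le_sq' ?_ (mul_nonneg hγ (by linarith)) |>.2
      refine (Finset.sum_mul_sq_le_sq_mul_sq _ _ _).trans ?_
      refine (mul_le_mul (hG x hx n) (hG y hy n) (Finset.sum_nonneg fun _ _ => sq_nonneg _)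
        (mul_nonneg hγ (sq_nonneg _))).trans (le_of_eq ?_)
      ring
    have h7 : 0 ≤ κ * A₀ := mul_nonneg hκ hA.le
    have h8 := mul_le_mul_of_nonneg_left h6 h7
    have h9 : A₀ * (w x * w y) = (w x * w y) + κ * A₀ * (γ * (w x * w y)) := by
      have h10 : A₀ = 1 + κ * A₀ * γ := by linarith
      calc A₀ * (w x * w y) = (1 + κ * A₀ * γ) * (w x * w y) := by rw [← h10]
        _ = _ := by ring
    rw [h9]
    linarith

/-- Indicator potentials with `φ 0 = 1`, at `h = lmg β`: `M.v h = 0` (`ind_v`, TMain.lean), the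
integral
`∫ W(a,z) W(a,z') dμ = exp (lmg (β (φ z + φ z')) - h (φ z + φ z'))` is `1` unless `φ z = φ z' =
1`, and
then it is `exp (lmg (2 β) - 2 lmg β) ≤ 1 + κ`. `pair_bound` at `x = y = 0` and `mom_two`
(LTwo.lean)
bound the second moments (`p = 2` in `WB`; the `Zk` of `WB` is `M.Z (lmg β)` by `rfl`, see
`wb_of_bdd`). -/
theorem wb_of_pair (M : Mod) (hφ : ∀ z, M.φ z = 0 ∨ M.φ z = 1) (hφ0 : M.φ 0 = 1) {κ γ : ℝ}
    (hκ : 0 ≤ κ) (hγ : 0 ≤ γ) (hκγ : κ * γ < 1)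
    (hb : Real.exp (lmg M.μ (2 * M.β) - 2 * lmg M.μ M.β) ≤ 1 + κ) {w : ℤ → ℝ}
    (hw : ∀ z, M.φ z ≠ 0 → 1 ≤ w z)
    (hG : ∀ y, M.φ y ≠ 0 → ∀ N : ℕ,
      ∑ n ∈ range N, Fn M.C (fun _ => 0) (fun z => M.φ z * w z) (n + 1) y ^ 2 ≤ γ * w y ^ 2) :
    WB M.μ M.C M.φ M.β := by
  set h : ℝ := lmg M.μ M.β with hh
  have hv0 : M.v h = fun _ => (0 : ℝ) := by
    funext z
    rw [ind_v M hφ, sub_self, zero_mul]
  have hone : ∫ a, Real.exp (M.β * a - h) ∂M.μ = 1 := by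
    have h1 : ∀ a : ℝ, Real.exp (M.β * a - h) = Real.exp (M.β * a) * Real.exp (-h) := fun a => by
      rw [← Real.exp_add, sub_eq_add_neg]
    simp_rw [h1]
    rw [integral_mul_const, QPair.exp_lmg, ← Real.exp_add, ← hh, add_neg_cancel, Real.exp_zero]
  have hw2 : ∀ z z' : ℤ, ∫ a, M.W h a z * M.W h a z' ∂M.μ ≤
      Real.exp (M.v h z + M.v h z') * (1 + κ * (M.φ z * M.φ z')) := by
    intro z z'
    have hv1 : ∀ z, M.v h z = 0 := fun z => congrFun hv0 z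
    rw [hv1, hv1, add_zero, Real.exp_zero, one_mul]
    unfold HZ.Mod.W
    rcases hφ z with h1 | h1 <;> rcases hφ z' with h2 | h2 <;> rw [h1, h2]
    · simp
    · simp only [mul_zero, mul_one, Real.exp_zero, one_mul, zero_mul, add_zero]
      exact hone.le
    · simp only [mul_zero, mul_one, Real.exp_zero, add_zero]
      exact hone.le
    · simp only [mul_one]
      have h3 : ∀ a : ℝ, Real.exp (M.β * a - h) * Real.exp (M.β * a - h) =
          Real.exp ((2 * M.β) * a) * Real.exp (-(2 * h)) := fun a => by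
        rw [← Real.exp_add, ← Real.exp_add]
        congr 1
        ring
      simp_rw [h3]
      rw [integral_mul_const, QPair.exp_lmg, ← Real.exp_add, ← sub_eq_add_neg]
      exact hb
  have hG' : ∀ y, M.φ y ≠ 0 → ∀ N : ℕ,
      ∑ n ∈ range N, Fn M.C (M.v h) (fun z => M.φ z * w z) (n + 1) y ^ 2 ≤ γ * w y ^ 2 := by
    rw [hv0]
    exact hG
  have hne : M.φ 0 ≠ 0 := by
    rw [hφ0]
    exact one_ne_zero
  refine ⟨2, (1 - κ * γ)⁻¹ * (w 0 * w 0), one_lt_two, fun n => ?_⟩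
  have h1 := mom_two M h (2 * n)
  have h2 := pair_bound M hκ hγ hκγ (fun z => (congrFun hv0 z).le) hw2 hw hG' (2 * n) hne hne
  calc mom M.μ 2 (fun ω =>
        Zk M.C (fun a z => Real.exp ((M.β * a - lmg M.μ M.β) * M.φ z)) (2 * n) ω 0 0) =
      mom M.μ 2 (fun ω => M.Z h (2 * n) ω) := rfl
    _ = ENNReal.ofReal (D2 M h (2 * n) 0 0) := h1
    _ ≤ _ := ENNReal.ofReal_le_ofReal h2

end

end Pool.Agent.HG
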