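import Mathlib

/-!
# MP_daa227_pr: potentials of order `x⁻²` on Bessel-like chains: the order varies with the critical
point: definitions
-/

universe u

open MeasureTheory ProbabilityTheory Set Filter
open scoped ENNReal Topology

namespace Pool.Agent.HGI

noncomputable section

/-- Transition probabilities of an irreducible nearest-neighbour chain on `ℤ` (holding allowed). -/
structure IsKernel (p : ℤ → ℤ → ℝ) : Prop where
  nonneg : ∀ x y, 0 ≤ p x y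
  nearest : ∀ x y, 1 < |y - x| → p x y = 0
  total : ∀ x, p x (x - 1) + p x x + p x (x + 1) = 1
  irreducible : ∀ x y, Relation.ReflTransGen (fun a b => 0 < p a b) x y

/-- `S` is the Markov chain with transition probabilities `p` started at `0`, on the probability
space `(Ω, P)`. -/
def IsMarkovChain {Ω : Type u} [MeasurableSpace Ω] (P : Measure Ω) (p : ℤ → ℤ → ℝ)
    (S : ℕ → Ω → ℤ) : Prop :=
  (∀ n, Measurable (S n)) ∧ ∀ (n : ℕ) (x : ℕ → ℤ), x 0 = 0 →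
    P {w | ∀ i ≤ n, S i w = x i} = ENNReal.ofReal (∏ i ∈ Finset.range n, p (x i) (x (i + 1)))

/-- `P(τ₁ = n, S_i < 0 for 0 < i < n)`. -/
def negReturn {Ω : Type u} [MeasurableSpace Ω] (P : Measure Ω) (S : ℕ → Ω → ℤ) (n : ℕ) : ℝ :=
  (P {w | S n w = 0 ∧ ∀ i, 0 < i → i < n → S i w < 0}).toReal

/-- `E[exp (-η ∑_{i=1}^n φ(S_i)); τ₁ = n]`. -/
def penReturn {Ω : Type u} [MeasurableSpace Ω] (P : Measure Ω) (S : ℕ → Ω → ℤ) (φ : ℤ → ℝ) (η : ℝ)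
    (n : ℕ) : ℝ :=
  ∫ w in {w | S n w = 0 ∧ ∀ i, 0 < i → i < n → S i w ≠ 0},
    Real.exp (-η * ∑ i ∈ Finset.range n, φ (S (i + 1) w)) ∂P

/-- `a(2n) = (2n)^(-(1+α)+o(1))`. -/
def LoopTail (a : ℕ → ℝ) (α : ℝ) : Prop :=
  Tendsto (fun n : ℕ => Real.log (a (2 * n)) / Real.log (2 * n)) atTop (𝓝 (-(1 + α)))

/-- Bessel-like behaviour to the right: the probability `p(x, x+1) + p(x, x-1)` of a move tends to
`m > 0` and the drift `p(x, x+1) - p(x, x-1)` is `(m (1/2 - α) + o(1)) / x` as `x → ∞`, `α ≥ 0`; and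
`φ(x) = (m c + o(1)) / x²`, `c ≥ 0`; `α` and `c` are not both zero. -/
structure BesselRight (p : ℤ → ℤ → ℝ) (φ : ℤ → ℝ) (m α c : ℝ) : Prop where
  pos : 0 < m
  alpha_nonneg : 0 ≤ α
  c_nonneg : 0 ≤ c
  not_both : α ≠ 0 ∨ c ≠ 0
  moves : Tendsto (fun x : ℤ => p x (x + 1) + p x (x - 1)) atTop (𝓝 m)
  drift : Tendsto (fun x : ℤ => (x : ℝ) * (p x (x + 1) - p x (x - 1))) atTop
    (𝓝 (m * (1 / 2 - α)))
  potential : Tendsto (fun x : ℤ => (x : ℝ) ^ 2 * φ x) atTop (𝓝 (m * c))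

/-- The chain is Bessel-like to the right; and either `ℓ > 0`, with `a h = √(α² + 2 h c)`, or the
mirrored chain is Bessel-like too, with `a h` the minimum of the two roots. -/
def Roots (p : ℤ → ℤ → ℝ) (φ : ℤ → ℝ) (ℓ : ℝ) (a : ℝ → ℝ) : Prop :=
  ∃ m α c : ℝ, BesselRight p φ m α c ∧
    ((0 < ℓ ∧ ∀ h, a h = Real.sqrt (α ^ 2 + 2 * h * c)) ∨
      ∃ m' α' c' : ℝ, BesselRight (fun x y => p (-x) (-y)) (fun x => φ (-x)) m' α' c' ∧
        ∀ h, a h = min (Real.sqrt (α ^ 2 + 2 * h * c)) (Real.sqrt (α' ^ 2 + 2 * h * c')))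

/-- The partition function `E[exp (∑_{n=1}^N (β ω_n - h) φ(S_n))]` (the charge `ω_n` of the text is
`ω (n - 1)` here). -/
def Zpin {Ω : Type u} [MeasurableSpace Ω] (P : Measure Ω) (S : ℕ → Ω → ℤ) (φ : ℤ → ℝ) (β h : ℝ)
    (N : ℕ) (ω : ℕ → ℝ) : ℝ :=
  ∫ w, Real.exp (∑ n ∈ Finset.range N, (β * ω n - h) * φ (S (n + 1) w)) ∂P

/-- The pinned partition function `E[exp (∑_{n=1}^N (β ω_n - h) φ(S_n)); S_N = 0]`. -/
def Zc {Ω : Type u} [MeasurableSpace Ω] (P : Measure Ω) (S : ℕ → Ω → ℤ) (φ : ℤ → ℝ) (β h : ℝ)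
    (N : ℕ) (ω : ℕ → ℝ) : ℝ :=
  ∫ w in {w | S N w = 0}, Real.exp (∑ n ∈ Finset.range N, (β * ω n - h) * φ (S (n + 1) w)) ∂P

/-- Some moment of order larger than one of the pinned partition functions is bounded. -/
def MomBdd {Ω : Type u} [MeasurableSpace Ω] (P : Measure Ω) (S : ℕ → Ω → ℤ) (μ : Measure ℝ)
    [IsProbabilityMeasure μ] (φ : ℤ → ℝ) (β h : ℝ) : Prop :=
  ∃ r K : ℝ, 1 < r ∧ ∀ n : ℕ, ∫⁻ ω, ENNReal.ofReal (Zc P S φ β h n ω) ^ r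
    ∂(Measure.infinitePi (fun _ : ℕ => μ)) ≤ ENNReal.ofReal K

/-- The annealed free energy vanishes at `h`. -/
def AnnealedZero {Ω : Type u} [MeasurableSpace Ω] (P : Measure Ω) (S : ℕ → Ω → ℤ) (μ : Measure ℝ)
    [IsProbabilityMeasure μ] (φ : ℤ → ℝ) (β h : ℝ) : Prop :=
  Tendsto (fun N : ℕ => Real.log (∫ ω, Zpin P S φ β h N ω
    ∂(Measure.infinitePi (fun _ : ℕ => μ))) / N) atTop (𝓝 0)

/-- The transition at `hc` is of infinite order. -/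
def InfiniteOrder (F : ℝ → ℝ) (hc : ℝ) : Prop :=
  ∀ q : ℝ, ∃ K : ℝ, ∀ δ : ℝ, 0 < δ → δ ≤ 1 → F (hc - δ) ≤ K * δ ^ q

/-- `F` is the quenched free energy at the inverse temperature `β` (almost sure and `L¹` limit), it is
nonnegative, and positive exactly below `hc > 0`. -/
def IsFreeEnergy {Ω : Type u} [MeasurableSpace Ω] (P : Measure Ω) (S : ℕ → Ω → ℤ) (μ : Measure ℝ)
    [IsProbabilityMeasure μ] (φ : ℤ → ℝ) (β : ℝ) (F : ℝ → ℝ) (hc : ℝ) : Prop :=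
  (∀ h, ∀ᵐ ω ∂(Measure.infinitePi (fun _ : ℕ => μ)),
    Tendsto (fun N : ℕ => Real.log (Zpin P S φ β h N ω) / N) atTop (𝓝 (F h))) ∧
  (∀ h, Tendsto (fun N : ℕ => ∫ ω, |Real.log (Zpin P S φ β h N ω) / N - F h|
    ∂(Measure.infinitePi (fun _ : ℕ => μ))) atTop (𝓝 0)) ∧
  (∀ h, 0 ≤ F h) ∧ 0 < hc ∧ ∀ h, 0 < F h ↔ h < hc

/-- `F(hc - δ) = δ^(κ + o(1))`. -/
def HasOrder (F : ℝ → ℝ) (hc κ : ℝ) : Prop :=
  Tendsto (fun δ : ℝ => Real.log (F (hc - δ)) / Real.log δ) (𝓝[>] 0) (𝓝 κ)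

end

end Pool.Agent.HGI
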