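import Mathlib

/-!
# MP_daa227_pr: the order of the quenched transition is `1 / α` or infinite: definitions
-/

open MeasureTheory ProbabilityTheory Set Filter
open scoped ENNReal Topology

namespace Pool.Agent.HGO

noncomputable section

/-- Transition probabilities of an irreducible nearest-neighbour chain on `ℤ` (holding allowed). -/
structure IsKernel (p : ℤ → ℤ → ℝ) : Prop where
  nonneg : ∀ x y, 0 ≤ p x y
  nearest : ∀ x y, 1 < |y - x| → p x y = 0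
  total : ∀ x, p x (x - 1) + p x x + p x (x + 1) = 1
  irreducible : ∀ x y, Relation.ReflTransGen (fun a b => 0 < p a b) x y

/-- `S` is the Markov chain with transition probabilities `p` started at `0`, on the probability
space `(Ω, P)`. -/
def IsMarkovChain {Ω : Type*} [MeasurableSpace Ω] (P : Measure Ω) (p : ℤ → ℤ → ℝ)
    (S : ℕ → Ω → ℤ) : Prop :=
  (∀ n, Measurable (S n)) ∧ ∀ (n : ℕ) (x : ℕ → ℤ), x 0 = 0 →
    P {w | ∀ i ≤ n, S i w = x i} = ENNReal.ofReal (∏ i ∈ Finset.range n, p (x i) (x (i + 1)))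

/-- `P(τ₁ = n)`, where `τ₁` is the first return time to `0`. -/
def retProb {Ω : Type*} [MeasurableSpace Ω] (P : Measure Ω) (S : ℕ → Ω → ℤ) (n : ℕ) : ℝ :=
  (P {w | S n w = 0 ∧ ∀ i, 0 < i → i < n → S i w ≠ 0}).toReal

/-- `P(τ₁ = n, S_i > 0 for 0 < i < n)`. -/
def posReturn {Ω : Type*} [MeasurableSpace Ω] (P : Measure Ω) (S : ℕ → Ω → ℤ) (n : ℕ) : ℝ :=
  (P {w | S n w = 0 ∧ ∀ i, 0 < i → i < n → 0 < S i w}).toReal

/-- `P(τ₁ = n, S_i < 0 for 0 < i < n)`. -/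
def negReturn {Ω : Type*} [MeasurableSpace Ω] (P : Measure Ω) (S : ℕ → Ω → ℤ) (n : ℕ) : ℝ :=
  (P {w | S n w = 0 ∧ ∀ i, 0 < i → i < n → S i w < 0}).toReal

/-- `E[exp (-η ∑_{i=1}^n φ(S_i)); τ₁ = n]`. -/
def penReturn {Ω : Type*} [MeasurableSpace Ω] (P : Measure Ω) (S : ℕ → Ω → ℤ) (φ : ℤ → ℝ) (η : ℝ)
    (n : ℕ) : ℝ :=
  ∫ w in {w | S n w = 0 ∧ ∀ i, 0 < i → i < n → S i w ≠ 0},
    Real.exp (-η * ∑ i ∈ Finset.range n, φ (S (i + 1) w)) ∂P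

/-- `a(2n) ≥ (2n)^(-A)` for some `A` and all large `n`. -/
def PolyBelow (a : ℕ → ℝ) : Prop :=
  ∃ A : ℝ, ∀ᶠ n : ℕ in atTop, ((2 * n : ℕ) : ℝ) ^ (-A) ≤ a (2 * n)

/-- `a(2n) = (2n)^(-(1+α)+o(1))`. -/
def LoopTail (a : ℕ → ℝ) (α : ℝ) : Prop :=
  Tendsto (fun n : ℕ => Real.log (a (2 * n)) / Real.log (2 * n)) atTop (𝓝 (-(1 + α)))

/-- `a(2n)` is at least of the order `n^(-3/2)`. -/
def AtLeast (a : ℕ → ℝ) : Prop :=
  ∃ c : ℝ, 0 < c ∧ ∀ᶠ n : ℕ in atTop, c * ((2 * n : ℕ) : ℝ) ^ (-(3 / 2) : ℝ) ≤ a (2 * n)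

/-- `a(2n)` is at most of the order `n^(-3/2)`. -/
def AtMost (a : ℕ → ℝ) : Prop :=
  ∃ C : ℝ, ∀ᶠ n : ℕ in atTop, a (2 * n) ≤ C * ((2 * n : ℕ) : ℝ) ^ (-(3 / 2) : ℝ)

/-- The potential is light to the right: it vanishes far away; or it is at most `c x^(-θ)`, `θ > 2`, and
the drift of the chain at `x` is at most `1 / (2 x)`, far away (both relative to the probability of a
move `p(x, x+1) + p(x, x-1)`, which is `1` if there is no holding); or there is a bounded `V ≥ 0` with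
`V x ≥ φ x + E_x V(S_1)` for `x ≥ 1` (the mean of the sum of the potential along an excursion to the
right is bounded). -/
def LightRight (p : ℤ → ℤ → ℝ) (φ : ℤ → ℝ) : Prop :=
  (∃ R : ℤ, ∀ x : ℤ, R ≤ x → φ x = 0) ∨
  (∃ (R : ℤ) (c θ : ℝ), 0 ≤ c ∧ 2 < θ ∧ ∀ x : ℤ, R ≤ x → 0 < x →
    φ x ≤ (p x (x + 1) + p x (x - 1)) * (c * (x : ℝ) ^ (-θ)) ∧
    p x (x + 1) - p x (x - 1) ≤ (p x (x + 1) + p x (x - 1)) / (2 * x)) ∨
  (∃ (V : ℤ → ℝ) (K : ℝ), (∀ x : ℤ, 0 ≤ x → 0 ≤ V x ∧ V x ≤ K) ∧ ∀ x : ℤ, 1 ≤ x →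
    φ x + (p x (x - 1) * V (x - 1) + p x x * V x + p x (x + 1) * V (x + 1)) ≤ V x)

/-- The same to the left. -/
def LightLeft (p : ℤ → ℤ → ℝ) (φ : ℤ → ℝ) : Prop :=
  LightRight (fun x y => p (-x) (-y)) (fun x => φ (-x))

/-- The partition function `E[exp (∑_{n=1}^N (β ω_n - h) φ(S_n))]` (the charge `ω_n` of the text is
`ω (n - 1)` here). -/
def Zpin {Ω : Type*} [MeasurableSpace Ω] (P : Measure Ω) (S : ℕ → Ω → ℤ) (φ : ℤ → ℝ) (β h : ℝ)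
    (N : ℕ) (ω : ℕ → ℝ) : ℝ :=
  ∫ w, Real.exp (∑ n ∈ Finset.range N, (β * ω n - h) * φ (S (n + 1) w)) ∂P

/-- The pinned partition function `E[exp (∑_{n=1}^N (β ω_n - h) φ(S_n)); S_N = 0]`. -/
def Zc {Ω : Type*} [MeasurableSpace Ω] (P : Measure Ω) (S : ℕ → Ω → ℤ) (φ : ℤ → ℝ) (β h : ℝ)
    (N : ℕ) (ω : ℕ → ℝ) : ℝ :=
  ∫ w in {w | S N w = 0}, Real.exp (∑ n ∈ Finset.range N, (β * ω n - h) * φ (S (n + 1) w)) ∂P

/-- Some moment of order larger than one of the pinned partition functions is bounded. -/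
def MomBdd {Ω : Type*} [MeasurableSpace Ω] (P : Measure Ω) (S : ℕ → Ω → ℤ) (μ : Measure ℝ)
    [IsProbabilityMeasure μ] (φ : ℤ → ℝ) (β h : ℝ) : Prop :=
  ∃ r K : ℝ, 1 < r ∧ ∀ n : ℕ, ∫⁻ ω, ENNReal.ofReal (Zc P S φ β h n ω) ^ r
    ∂(Measure.infinitePi (fun _ : ℕ => μ)) ≤ ENNReal.ofReal K

/-- The annealed free energy vanishes at `h`. -/
def AnnealedZero {Ω : Type*} [MeasurableSpace Ω] (P : Measure Ω) (S : ℕ → Ω → ℤ) (μ : Measure ℝ)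
    [IsProbabilityMeasure μ] (φ : ℤ → ℝ) (β h : ℝ) : Prop :=
  Tendsto (fun N : ℕ => Real.log (∫ ω, Zpin P S φ β h N ω
    ∂(Measure.infinitePi (fun _ : ℕ => μ))) / N) atTop (𝓝 0)

/-- The transition at `hc` is of infinite order. -/
def InfiniteOrder (F : ℝ → ℝ) (hc : ℝ) : Prop :=
  ∀ q : ℝ, ∃ K : ℝ, ∀ δ : ℝ, 0 < δ → δ ≤ 1 → F (hc - δ) ≤ K * δ ^ q

end

end Pool.Agent.HGO
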