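import Mathlib

/-!
# MP_daa227_pr: copolymers with a transition of order exactly `1 / α`; small and large inverse
temperatures in general: definitions
-/

universe u

open MeasureTheory ProbabilityTheory Set Filter
open scoped ENNReal Topology

namespace Pool.Agent.HGW

noncomputable section

/-- Transition probabilities of an irreducible nearest-neighbour chain on `ℤ` (holding allowed). -/
structure IsKernel (p : ℤ → ℤ → ℝ) : Prop where
  nonneg : ∀ x y, 0 ≤ p x y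
  nearest : ∀ x y, 1 < |y - x| → p x y = 0
  total : ∀ x, p x (x - 1) + p x x + p x (x + 1) = 1
  irreducible : ∀ x y, Relation.ReflTransGen (fun a b => 0 < p a b) x y

/-- `S` is the Markov chain with transition probabilities `p` started at `0`, on the probability
space `(Ω, P)`. -/
def IsMarkovChain {Ω : Type u} [MeasurableSpace Ω] (P : Measure Ω) (p : ℤ → ℤ → ℝ)
    (S : ℕ → Ω → ℤ) : Prop :=
  (∀ n, Measurable (S n)) ∧ ∀ (n : ℕ) (x : ℕ → ℤ), x 0 = 0 →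
    P {w | ∀ i ≤ n, S i w = x i} = ENNReal.ofReal (∏ i ∈ Finset.range n, p (x i) (x (i + 1)))

/-- `P(τ₁ = n)`, where `τ₁` is the first return time to `0`. -/
def retProb {Ω : Type u} [MeasurableSpace Ω] (P : Measure Ω) (S : ℕ → Ω → ℤ) (n : ℕ) : ℝ :=
  (P {w | S n w = 0 ∧ ∀ i, 0 < i → i < n → S i w ≠ 0}).toReal

/-- `P(τ₁ = n, S_i > 0 for 0 < i < n)`. -/
def posReturn {Ω : Type u} [MeasurableSpace Ω] (P : Measure Ω) (S : ℕ → Ω → ℤ) (n : ℕ) : ℝ :=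
  (P {w | S n w = 0 ∧ ∀ i, 0 < i → i < n → 0 < S i w}).toReal

/-- `P(τ₁ = n, S_i < 0 for 0 < i < n)`. -/
def negReturn {Ω : Type u} [MeasurableSpace Ω] (P : Measure Ω) (S : ℕ → Ω → ℤ) (n : ℕ) : ℝ :=
  (P {w | S n w = 0 ∧ ∀ i, 0 < i → i < n → S i w < 0}).toReal

/-- `E[exp (-η ∑_{i=1}^n φ(S_i)); τ₁ = n]`. -/
def penReturn {Ω : Type u} [MeasurableSpace Ω] (P : Measure Ω) (S : ℕ → Ω → ℤ) (φ : ℤ → ℝ) (η : ℝ)
    (n : ℕ) : ℝ :=
  ∫ w in {w | S n w = 0 ∧ ∀ i, 0 < i → i < n → S i w ≠ 0},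
    Real.exp (-η * ∑ i ∈ Finset.range n, φ (S (i + 1) w)) ∂P

/-- `a(2n) ≥ (2n)^(-A)` for some `A` and all large `n`. -/
def PolyBelow (a : ℕ → ℝ) : Prop :=
  ∃ A : ℝ, ∀ᶠ n : ℕ in atTop, ((2 * n : ℕ) : ℝ) ^ (-A) ≤ a (2 * n)

/-- `a(2n) = (2n)^(-(1+α)+o(1))`. -/
def LoopTail (a : ℕ → ℝ) (α : ℝ) : Prop :=
  Tendsto (fun n : ℕ => Real.log (a (2 * n)) / Real.log (2 * n)) atTop (𝓝 (-(1 + α)))

/-- The potential is light to the right: it vanishes far away; or it is at most `c x^(-θ)`, `θ > 2`, and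
the drift of the chain at `x` is at most `1 / (2 x)`, far away (both relative to the probability of a
move `p(x, x+1) + p(x, x-1)`, which is `1` if there is no holding); or there is a bounded `V ≥ 0` with
`V x ≥ φ x + E_x V(S_1)` for `x ≥ 1` (the mean of the sum of the potential along an excursion to the
right is bounded). -/
def LightRight (p : ℤ → ℤ → ℝ) (φ : ℤ → ℝ) : Prop :=
  (∃ R : ℤ, ∀ x : ℤ, R ≤ x → φ x = 0) ∨
  (∃ (R : ℤ) (c θ : ℝ), 0 ≤ c ∧ 2 < θ ∧ ∀ x : ℤ, R ≤ x → 0 < x →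
    φ x ≤ (p x (x + 1) + p x (x - 1)) * (c * (x : ℝ) ^ (-θ)) ∧
    p x (x + 1) - p x (x - 1) ≤ (p x (x + 1) + p x (x - 1)) / (2 * x)) ∨
  (∃ (V : ℤ → ℝ) (K : ℝ), (∀ x : ℤ, 0 ≤ x → 0 ≤ V x ∧ V x ≤ K) ∧ ∀ x : ℤ, 1 ≤ x →
    φ x + (p x (x - 1) * V (x - 1) + p x x * V x + p x (x + 1) * V (x + 1)) ≤ V x)

/-- The same to the left. -/
def LightLeft (p : ℤ → ℤ → ℝ) (φ : ℤ → ℝ) : Prop :=
  LightRight (fun x y => p (-x) (-y)) (fun x => φ (-x))

/-- The partition function `E[exp (∑_{n=1}^N (β ω_n - h) φ(S_n))]` (the charge `ω_n` of the text is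
`ω (n - 1)` here). -/
def Zpin {Ω : Type u} [MeasurableSpace Ω] (P : Measure Ω) (S : ℕ → Ω → ℤ) (φ : ℤ → ℝ) (β h : ℝ)
    (N : ℕ) (ω : ℕ → ℝ) : ℝ :=
  ∫ w, Real.exp (∑ n ∈ Finset.range N, (β * ω n - h) * φ (S (n + 1) w)) ∂P

/-- The pinned partition function `E[exp (∑_{n=1}^N (β ω_n - h) φ(S_n)); S_N = 0]`. -/
def Zc {Ω : Type u} [MeasurableSpace Ω] (P : Measure Ω) (S : ℕ → Ω → ℤ) (φ : ℤ → ℝ) (β h : ℝ)
    (N : ℕ) (ω : ℕ → ℝ) : ℝ :=
  ∫ w in {w | S N w = 0}, Real.exp (∑ n ∈ Finset.range N, (β * ω n - h) * φ (S (n + 1) w)) ∂P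

/-- Some moment of order larger than one of the pinned partition functions is bounded. -/
def MomBdd {Ω : Type u} [MeasurableSpace Ω] (P : Measure Ω) (S : ℕ → Ω → ℤ) (μ : Measure ℝ)
    [IsProbabilityMeasure μ] (φ : ℤ → ℝ) (β h : ℝ) : Prop :=
  ∃ r K : ℝ, 1 < r ∧ ∀ n : ℕ, ∫⁻ ω, ENNReal.ofReal (Zc P S φ β h n ω) ^ r
    ∂(Measure.infinitePi (fun _ : ℕ => μ)) ≤ ENNReal.ofReal K

/-- The annealed free energy vanishes at `h`. -/
def AnnealedZero {Ω : Type u} [MeasurableSpace Ω] (P : Measure Ω) (S : ℕ → Ω → ℤ) (μ : Measure ℝ)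
    [IsProbabilityMeasure μ] (φ : ℤ → ℝ) (β h : ℝ) : Prop :=
  Tendsto (fun N : ℕ => Real.log (∫ ω, Zpin P S φ β h N ω
    ∂(Measure.infinitePi (fun _ : ℕ => μ))) / N) atTop (𝓝 0)

/-- The transition at `hc` is of infinite order. -/
def InfiniteOrder (F : ℝ → ℝ) (hc : ℝ) : Prop :=
  ∀ q : ℝ, ∃ K : ℝ, ∀ δ : ℝ, 0 < δ → δ ≤ 1 → F (hc - δ) ≤ K * δ ^ q

/-- `F` is the quenched free energy at the inverse temperature `β` (almost sure and `L¹` limit), it is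
nonnegative, and positive exactly below `hc > 0`. -/
def IsFreeEnergy {Ω : Type u} [MeasurableSpace Ω] (P : Measure Ω) (S : ℕ → Ω → ℤ) (μ : Measure ℝ)
    [IsProbabilityMeasure μ] (φ : ℤ → ℝ) (β : ℝ) (F : ℝ → ℝ) (hc : ℝ) : Prop :=
  (∀ h, ∀ᵐ ω ∂(Measure.infinitePi (fun _ : ℕ => μ)),
    Tendsto (fun N : ℕ => Real.log (Zpin P S φ β h N ω) / N) atTop (𝓝 (F h))) ∧
  (∀ h, Tendsto (fun N : ℕ => ∫ ω, |Real.log (Zpin P S φ β h N ω) / N - F h|
    ∂(Measure.infinitePi (fun _ : ℕ => μ))) atTop (𝓝 0)) ∧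
  (∀ h, 0 ≤ F h) ∧ 0 < hc ∧ ∀ h, 0 < F h ↔ h < hc

/-- `F(hc - δ) = δ^(κ + o(1))`. -/
def HasOrder (F : ℝ → ℝ) (hc κ : ℝ) : Prop :=
  Tendsto (fun δ : ℝ => Real.log (F (hc - δ)) / Real.log δ) (𝓝[>] 0) (𝓝 κ)

/-- The charges have no atom at their essential supremum. -/
def NoTopAtom (μ : Measure ℝ) : Prop :=
  ∀ ε : ℝ, 0 < ε → ∃ A : ℝ, 0 < μ (Set.Ioi A) ∧ μ (Set.Ioi A) ≤ ENNReal.ofReal ε

/-- The potential is light to the left, or the excursions to the left are exponentially short. -/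
def LeftShort {Ω : Type u} [MeasurableSpace Ω] (P : Measure Ω) (S : ℕ → Ω → ℤ)
    (p : ℤ → ℤ → ℝ) (φ : ℤ → ℝ) : Prop :=
  LightLeft p φ ∨ ∃ c M : ℝ, 0 < c ∧ ∀ n : ℕ, negReturn P S n ≤ M * Real.exp (-(c * n))

/-- The annealed partition function grows exponentially at `h`: the annealed free energy is positive. -/
def AnnealedGrowth {Ω : Type u} [MeasurableSpace Ω] (P : Measure Ω) (S : ℕ → Ω → ℤ) (μ : Measure ℝ)
    [IsProbabilityMeasure μ] (φ : ℤ → ℝ) (β h : ℝ) : Prop :=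
  ∃ c : ℝ, 0 < c ∧ ∀ᶠ N : ℕ in atTop, Real.exp (c * N) ≤
    ∫ ω, Zpin P S φ β h N ω ∂(Measure.infinitePi (fun _ : ℕ => μ))

/-- `∑ n^s a(n) < ∞` for some `s > 0`. -/
def SomeMoment (a : ℕ → ℝ) : Prop :=
  ∃ s : ℝ, 0 < s ∧ Summable (fun n : ℕ => (n : ℝ) ^ s * a n)

/-- The order of the transition is finite; it is `1 / a` if the excursions penalised at `hc` have the
loop exponent `a`, in particular if the excursions have it and the potential is light. -/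
def FiniteOrder {Ω : Type u} [MeasurableSpace Ω] (P : Measure Ω) (S : ℕ → Ω → ℤ)
    (p : ℤ → ℤ → ℝ) (φ : ℤ → ℝ) (F : ℝ → ℝ) (hc : ℝ) : Prop :=
  (∃ c B : ℝ, 0 < c ∧ ∀ δ : ℝ, 0 < δ → δ ≤ 1 → c * δ ^ B ≤ F (hc - δ)) ∧
  ∀ a : ℝ, 0 < a → (LoopTail (penReturn P S φ hc) a ∨ (LoopTail (retProb P S) a ∧
      ((∃ η : ℝ, 0 < η ∧ LoopTail (penReturn P S φ η) a) ∨
        (LightRight p φ ∧ (LoopTail (posReturn P S) a ∨ LeftShort P S p φ))))) →
    HasOrder F hc (1 / a)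

/-- The excursions have a loop exponent smaller than `1/2`, or the potential is an indicator and the
return probabilities `P(S_n = 0)` are square summable; and the sum of the potential along an excursion
has an exponential moment (for instance: the potential is light to the right, and it is light to the
left or the excursions to the left are exponentially short). -/
def SmallCase {Ω : Type u} [MeasurableSpace Ω] (P : Measure Ω) (S : ℕ → Ω → ℤ)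
    (p : ℤ → ℤ → ℝ) (φ : ℤ → ℝ) : Prop :=
  ((∃ A : ℝ, A < 3 / 2 ∧ ∀ᶠ n : ℕ in atTop, ((2 * n : ℕ) : ℝ) ^ (-A) ≤ retProb P S (2 * n)) ∨
    ((∀ x, φ x = 0 ∨ φ x = 1) ∧ Summable (fun n : ℕ => (P {w | S n w = 0}).toReal ^ 2))) ∧
  ((∃ κ : ℝ, 0 < κ ∧ Summable (penReturn P S φ (-κ))) ∨
    (LightRight p φ ∧ LeftShort P S p φ))

/-- Polynomial lower bound: for penalised excursions; or the potential is light to the right, for the
excursions to the right; or the potential is light on both sides, for the excursions. -/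
def PolyCase {Ω : Type u} [MeasurableSpace Ω] (P : Measure Ω) (S : ℕ → Ω → ℤ)
    (p : ℤ → ℤ → ℝ) (φ : ℤ → ℝ) : Prop :=
  (∃ η : ℝ, 0 < η ∧ PolyBelow (penReturn P S φ η)) ∨
    (LightRight p φ ∧ PolyBelow (posReturn P S)) ∨
    (LightRight p φ ∧ LightLeft p φ ∧ PolyBelow (retProb P S))

/-- Small and large inverse temperatures, for one chain, one charge law and one potential. -/
def Conclusion {Ω : Type u} [MeasurableSpace Ω] (P : Measure Ω) (S : ℕ → Ω → ℤ)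
    (p : ℤ → ℤ → ℝ) (μ : Measure ℝ) [IsProbabilityMeasure μ] (φ : ℤ → ℝ) : Prop :=
  ∃ (F : ℝ → ℝ → ℝ) (hc : ℝ → ℝ),
    (∀ β : ℝ, 0 < β → IsFreeEnergy P S μ φ β (F β) (hc β)) ∧
    (SomeMoment (retProb P S) →
      -- (1) large inverse temperatures
      (NoTopAtom μ → ∃ β₁ : ℝ, ∀ β : ℝ, 0 < β → β₁ ≤ β →
        InfiniteOrder (F β) (hc β) ∧ AnnealedGrowth P S μ φ β (hc β)) ∧
      -- (2) small inverse temperatures
      (SmallCase P S p φ → ∃ β₀ : ℝ, 0 < β₀ ∧ ∀ β : ℝ, 0 < β → β ≤ β₀ →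
        MomBdd P S μ φ β (hc β) ∧ AnnealedZero P S μ φ β (hc β) ∧
        FiniteOrder P S p φ (F β) (hc β)) ∧
      -- (3) indicator potentials: with `B` = the set of the `β` for which some moment of order larger
      -- than one of the pinned partition functions is bounded at `h = log E[exp (β ω)]`
      ((∀ x, φ x = 0 ∨ φ x = 1) → ∃ B : Set ℝ,
        (∀ β : ℝ, β ∈ B ↔ MomBdd P S μ φ β (Real.log (∫ x, Real.exp (β * x) ∂μ))) ∧
        (∀ β ∈ B, ∀ β' : ℝ, 0 < β' → β' ≤ β → β' ∈ B) ∧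
        (∀ β : ℝ, 0 < β → β ∈ B → hc β = Real.log (∫ x, Real.exp (β * x) ∂μ) ∧
          FiniteOrder P S p φ (F β) (hc β)) ∧
        (∀ β : ℝ, 0 < β → β ∉ B → InfiniteOrder (F β) (hc β)) ∧
        (SmallCase P S p φ → ∃ β₀ : ℝ, 0 < β₀ ∧ ∀ β : ℝ, 0 < β → β ≤ β₀ → β ∈ B) ∧
        (NoTopAtom μ → ∃ β₁ : ℝ, ∀ β : ℝ, 0 < β → β₁ ≤ β → β ∉ B)))

/-- The potential of the copolymer. -/
def cop (x : ℤ) : ℝ := if x ≤ 0 then 1 else 0

end

end Pool.Agent.HGW
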