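import Pool.Agent.Lib.MP_daa227_pr_HG.Defs
import Pool.Agent.Lib.MP_daa227_pr_HZ.Lmg

/-!
# MP_daa227_pr, indicator potentials: convex order in the inverse temperature
-/

namespace Pool.Agent.HG

open MeasureTheory ProbabilityTheory Finset Filter Topology
open MP_daa227_pr (Chain Zk Zf Gk Gf KU K0 Ren shift seqLaw ExpMom DepOn Good GoodW mom)
open Pool.Agent.HZ (Mod Kv lmg)
open Pool.Agent.IOrd (Sys aS cv)

noncomputable section

namespace TCvx

/-- the tangent inequality for `t ↦ t ^ r` -/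
theorem tangent {s t r : ℝ} (hs : 0 < s) (ht : 0 ≤ t) (hr : 1 ≤ r) :
    s ^ r + r * s ^ (r - 1) * (t - s) ≤ t ^ r := by
  have h1 : -1 ≤ t / s - 1 := by
    have : 0 ≤ t / s := div_nonneg ht hs.le
    linarith
  have h2 := one_add_mul_self_le_rpow_one_add h1 hr
  have h3 : 1 + (t / s - 1) = t / s := by ring
  rw [h3, Real.div_rpow ht hs.le, le_div_iff₀ (Real.rpow_pos_of_pos hs r)] at h2
  refine le_trans (le_of_eq ?_) h2
  rw [Real.rpow_sub_one hs.ne']
  field_simp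

/-- the pointwise inequality -/
theorem point {b b' l l' A B r : ℝ} (hb : 0 ≤ b) (hbb : b < b') (hA : 0 ≤ A) (hB : 0 < B)
    (hr : 1 ≤ r) (a : ℝ) :
    (A + B * Real.exp (b * a - l)) ^ r +
        r * (A + B * Real.exp (b * ((l' - l) / (b' - b)) - l)) ^ (r - 1) * B *
          Real.exp (b' * a - l') ≤
      (A + B * Real.exp (b' * a - l')) ^ r +
        r * (A + B * Real.exp (b * ((l' - l) / (b' - b)) - l)) ^ (r - 1) * B *
          Real.exp (b * a - l) := by
  have hd : 0 < b' - b := by linarith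
  obtain ⟨e, he⟩ : ∃ e, e = (l' - l) / (b' - b) := ⟨_, rfl⟩
  rw [← he]
  have he' : e * (b' - b) = l' - l := by rw [he]; field_simp
  obtain ⟨x, hx⟩ : ∃ x, x = Real.exp (b * a - l) := ⟨_, rfl⟩
  obtain ⟨x', hx'⟩ : ∃ x, x = Real.exp (b' * a - l') := ⟨_, rfl⟩
  obtain ⟨w, hw⟩ : ∃ x, x = Real.exp (b * e - l) := ⟨_, rfl⟩
  rw [← hx, ← hx', ← hw]
  have hx0 : 0 < x := hx ▸ Real.exp_pos _
  have hx0' : 0 < x' := hx' ▸ Real.exp_pos _
  have hw0 : 0 < w := hw ▸ Real.exp_pos _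
  have h1 := tangent (s := A + B * x) (t := A + B * x') (r := r) (by positivity) (by positivity) hr
  have h2 : 0 ≤ (x' - x) * ((A + B * x) ^ (r - 1) - (A + B * w) ^ (r - 1)) := by
    rcases le_total e a with h | h
    · have h3 : x ≤ x' := by
        rw [hx, hx']
        apply Real.exp_le_exp.2
        nlinarith
      have h4 : w ≤ x := by
        rw [hx, hw]
        apply Real.exp_le_exp.2
        nlinarith
      refine mul_nonneg (by linarith) (sub_nonneg.2 ?_)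
      exact Real.rpow_le_rpow (by positivity) (by nlinarith) (by linarith)
    · have h3 : x' ≤ x := by
        rw [hx, hx']
        apply Real.exp_le_exp.2
        nlinarith
      have h4 : x ≤ w := by
        rw [hx, hw]
        apply Real.exp_le_exp.2
        nlinarith
      refine mul_nonneg_of_nonpos_of_nonpos (by linarith) (sub_nonpos.2 ?_)
      exact Real.rpow_le_rpow (by positivity) (by nlinarith) (by linarith)
  have h3 : 0 ≤ r * B * ((x' - x) * ((A + B * x) ^ (r - 1) - (A + B * w) ^ (r - 1))) :=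
    mul_nonneg (by positivity) h2
  nlinarith

theorem lint_exp {μ : Measure ℝ} [IsProbabilityMeasure μ] (hμ : ExpMom μ) (b : ℝ) :
    ∫⁻ a, ENNReal.ofReal (Real.exp (b * a - lmg μ b)) ∂μ = 1 := by
  have h1 : Integrable (fun a => Real.exp (b * a - lmg μ b)) μ := by
    have h2 := (hμ b).mul_const (Real.exp (- lmg μ b))
    refine h2.congr (ae_of_all _ fun a => ?_)
    show Real.exp (b * a) * Real.exp (- lmg μ b) = Real.exp (b * a - lmg μ b)
    rw [← Real.exp_add]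
    congr 1
  rw [← ofReal_integral_eq_lintegral_ofReal h1 (ae_of_all _ fun a => (Real.exp_pos _).le)]
  have h3 : ∫ a, Real.exp (b * a - lmg μ b) ∂μ = 1 := by
    have h4 : ∀ a, Real.exp (b * a - lmg μ b) = Real.exp (b * a) * (Real.exp (lmg μ b))⁻¹ := by
      intro a
      rw [← Real.exp_neg, ← Real.exp_add]
      congr 1
    simp_rw [h4]
    rw [integral_mul_const, ← Pool.Agent.HZ.exp_lmg hμ, mul_inv_cancel₀ (Real.exp_pos _).ne']
  rw [h3, ENNReal.ofReal_one]

end TCvx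

/-- Let `X_b a = exp (b a - lmg b)`, `F x = (A + B x)^r`. `F (X_b') - F (X_b) ≥
F' (X_b) (X_b' - X_b)` by convexity; if `b < b'`, `X_b' a ≥ X_b a` iff
`a ≥ a* = (lmg b' - lmg b) / (b' - b)`, and `a ↦ F' (X_b a)` is nondecreasing (`b ≥ 0`), so
`F' (X_b) (X_b' - X_b) ≥ F' (X_b a*) (X_b' - X_b)`, whose mean is `0`. Everything is integrable
(exponential moments). -/
theorem one_cvx {μ : Measure ℝ} [IsProbabilityMeasure μ] (hμ : ExpMom μ) {b b' : ℝ} (hb : 0 ≤ b)
    (hbb : b ≤ b') {A B r : ℝ} (hA : 0 ≤ A) (hB : 0 ≤ B) (hr : 1 ≤ r) :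
    ∫⁻ a, ENNReal.ofReal (A + B * Real.exp (b * a - lmg μ b)) ^ r ∂μ ≤
      ∫⁻ a, ENNReal.ofReal (A + B * Real.exp (b' * a - lmg μ b')) ^ r ∂μ := by
  rcases hbb.eq_or_lt with h | hlt
  · rw [h]
  rcases hB.eq_or_lt with h | hB0
  · rw [← h]
    simp
  obtain ⟨c, hc⟩ : ∃ c, c = r * (A + B * Real.exp (b * ((lmg μ b' - lmg μ b) / (b' - b)) -
    lmg μ b)) ^ (r - 1) * B := ⟨_, rfl⟩
  have hc0 : 0 ≤ c := by
    rw [hc]
    have : 0 ≤ r := by linarith
    positivity
  have hp := TCvx.point (l := lmg μ b) (l' := lmg μ b') hb hlt hA hB0 hr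
  rw [← hc] at hp
  have hm : ∀ t : ℝ, Measurable fun a : ℝ => ENNReal.ofReal (Real.exp (t * a - lmg μ t)) :=
    fun t => by fun_prop
  have key : ∫⁻ a, ENNReal.ofReal (A + B * Real.exp (b * a - lmg μ b)) ^ r ∂μ +
      ENNReal.ofReal c ≤
      ∫⁻ a, ENNReal.ofReal (A + B * Real.exp (b' * a - lmg μ b')) ^ r ∂μ + ENNReal.ofReal c := by
    have h1 : ∀ t : ℝ, ENNReal.ofReal c =
        ∫⁻ a, ENNReal.ofReal c * ENNReal.ofReal (Real.exp (t * a - lmg μ t)) ∂μ := by
      intro t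
      rw [lintegral_const_mul _ (hm t), TCvx.lint_exp hμ, mul_one]
    conv_lhs => rw [h1 b']
    conv_rhs => rw [h1 b]
    rw [← lintegral_add_right _ ((hm b').const_mul _), ← lintegral_add_right _
      ((hm b).const_mul _)]
    refine lintegral_mono fun a => ?_
    have h2 : ∀ t : ℝ, ENNReal.ofReal (A + B * Real.exp (t * a - lmg μ t)) ^ r =
        ENNReal.ofReal ((A + B * Real.exp (t * a - lmg μ t)) ^ r) := by
      intro t
      rw [ENNReal.ofReal_rpow_of_nonneg (by positivity) (by linarith)]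
    dsimp only
    rw [h2 b, h2 b', ← ENNReal.ofReal_mul hc0, ← ENNReal.ofReal_mul hc0,
      ← ENNReal.ofReal_add (by positivity) (by positivity),
      ← ENNReal.ofReal_add (by positivity) (by positivity)]
    exact ENNReal.ofReal_le_ofReal (hp a)
  exact (ENNReal.add_le_add_iff_right ENNReal.ofReal_ne_top).1 key

namespace TCvx

/-- the weights -/
def Wb (μ : Measure ℝ) (φ : ℤ → ℝ) (b : ℝ) : ℝ → ℤ → ℝ :=
  fun a z => Real.exp ((b * a - lmg μ b) * φ z)

theorem goodW (μ : Measure ℝ) {φ : ℤ → ℝ} (hφ : ∀ z, φ z = 0 ∨ φ z = 1) (b : ℝ) :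
    GoodW |b| (Wb μ φ b) where
  meas z := by
    unfold Wb
    fun_prop
  pos a z := Real.exp_pos _
  ratio a a' z := by
    unfold Wb
    rw [← Real.exp_add]
    apply Real.exp_le_exp.2
    have h1 : b * (a - a') ≤ |b| * |a - a'| := by
      rw [← abs_mul]
      exact le_abs_self _
    have h2 : 0 ≤ |b| * |a - a'| := by positivity
    rcases hφ z with h | h
    · rw [h]
      linarith
    · rw [h]
      linarith

theorem Zk_meas (μ : Measure ℝ) (C : Chain) {φ : ℤ → ℝ} (hφ : ∀ z, φ z = 0 ∨ φ z = 1) (b : ℝ)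
    (n : ℕ) (x y : ℤ) : Measurable fun ω => Zk C (Wb μ φ b) n ω x y :=
  (MP_daa227_pr.good_Zk C (abs_nonneg b) (goodW μ hφ b) n x y).meas

theorem Zk_nn (μ : Measure ℝ) (C : Chain) {φ : ℤ → ℝ} (hφ : ∀ z, φ z = 0 ∨ φ z = 1) (b : ℝ)
    (n : ℕ) (x y : ℤ) (ω : ℕ → ℝ) : 0 ≤ Zk C (Wb μ φ b) n ω x y :=
  (MP_daa227_pr.good_Zk C (abs_nonneg b) (goodW μ hφ b) n x y).nonneg ω

theorem step_eq (C : Chain) (W : ℝ → ℤ → ℝ) (n : ℕ) (y : ℤ) (s : Finset ℤ) (c : ℤ → ℝ)
    (ω : ℕ → ℝ) :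
    ∑ x ∈ s, c x * Zk C W (n + 1) ω x y =
      ∑ z ∈ s.biUnion (fun x => Icc (x - 1) (x + 1)),
        (∑ x ∈ s, c x * C.p x z) * W (ω 0) z * Zk C W n (shift 1 ω) z y := by
  have h1 : ∀ x ∈ s, c x * Zk C W (n + 1) ω x y =
      ∑ z ∈ s.biUnion (fun x => Icc (x - 1) (x + 1)),
        c x * C.p x z * W (ω 0) z * Zk C W n (shift 1 ω) z y := by
    intro x hx
    show c x * (∑ z ∈ Icc (x - 1) (x + 1), C.p x z * W (ω 0) z * Zk C W n (shift 1 ω) z y) = _
    rw [Finset.mul_sum]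
    rw [← Finset.sum_subset (s₁ := Icc (x - 1) (x + 1))
      (Finset.subset_biUnion_of_mem (fun x => Icc (x - 1) (x + 1)) hx)]
    · exact Finset.sum_congr rfl fun z _ => by ring
    · intro z _ hz
      rw [C.near x z hz]
      ring
  rw [Finset.sum_congr rfl h1, Finset.sum_comm]
  refine Finset.sum_congr rfl fun z _ => ?_
  rw [Finset.sum_mul, Finset.sum_mul]

end TCvx

/-- Induction on `n` for all finite families of nonnegative coefficients: with
`W_b a z = exp ((b a - lmg b) φ z)` (`1` if `φ z = 0`, `X_b a` if `φ z = 1`),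
`∑_{x ∈ s} c x Zk (n+1) ω x y = ∑_z (∑_{x ∈ s} c x p(x,z)) W_b (ω 0) z Zk n (shift 1 ω) z y` (`z`
in the neighbours of `s`). Given `ω 0` use the induction hypothesis for `shift 1 ω`; then, given
`shift 1 ω`, the sum is `A + B X_b (ω 0)` with `A, B ≥ 0`: `one_cvx`. (`seqLaw μ` is the law of
`cons a ω` with independent `a`, `ω`: see Lib/MP_daa227_pr/Seq.lean, Mom.lean.) -/
theorem mom_cvx {μ : Measure ℝ} [IsProbabilityMeasure μ] (hμ : ExpMom μ) (C : Chain) {φ : ℤ → ℝ}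
    (hφ : ∀ z, φ z = 0 ∨ φ z = 1) {b b' : ℝ} (hb : 0 ≤ b) (hbb : b ≤ b') {r : ℝ} (hr : 1 ≤ r)
    (n : ℕ) (y : ℤ) (s : Finset ℤ) (c : ℤ → ℝ) (hc : ∀ x, 0 ≤ c x) :
    mom μ r (fun ω => ∑ x ∈ s, c x *
      Zk C (fun a z => Real.exp ((b * a - lmg μ b) * φ z)) n ω x y) ≤
    mom μ r (fun ω => ∑ x ∈ s, c x *
      Zk C (fun a z => Real.exp ((b' * a - lmg μ b') * φ z)) n ω x y) := by
  have hr0 : 0 ≤ r := by linarith
  change mom μ r (fun ω => ∑ x ∈ s, c x * Zk C (TCvx.Wb μ φ b) n ω x y) ≤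
    mom μ r (fun ω => ∑ x ∈ s, c x * Zk C (TCvx.Wb μ φ b') n ω x y)
  induction n generalizing s c with
  | zero => exact le_rfl
  | succ n ih =>
    obtain ⟨S, hS⟩ : ∃ S, S = s.biUnion (fun x => Icc (x - 1) (x + 1)) := ⟨_, rfl⟩
    obtain ⟨d, hd⟩ : ∃ d : ℤ → ℝ, d = fun z => ∑ x ∈ s, c x * C.p x z := ⟨_, rfl⟩
    have hd0 : ∀ z, 0 ≤ d z := fun z => by
      rw [hd]
      exact Finset.sum_nonneg fun x _ => mul_nonneg (hc x) (C.nonneg x z)
    have hst : ∀ t : ℝ, (fun ω => ∑ x ∈ s, c x * Zk C (TCvx.Wb μ φ t) (n + 1) ω x y) =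
        fun ω => ∑ z ∈ S, d z * TCvx.Wb μ φ t (ω 0) z *
          Zk C (TCvx.Wb μ φ t) n (shift 1 ω) z y := by
      intro t
      funext ω
      rw [TCvx.step_eq, hS, hd]
    rw [hst, hst]
    have hmix : ∀ t t' : ℝ, Measurable fun ω : ℕ → ℝ =>
        ENNReal.ofReal (∑ z ∈ S, d z * TCvx.Wb μ φ t (ω 0) z *
          Zk C (TCvx.Wb μ φ t') n (shift 1 ω) z y) ^ r := by
      intro t t'
      refine (Measurable.ennreal_ofReal ?_).pow_const r
      refine Finset.measurable_sum _ fun z _ => ?_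
      refine Measurable.mul (Measurable.const_mul ?_ _) ?_
      · exact ((TCvx.goodW μ hφ t).meas z).comp (measurable_pi_apply 0)
      · exact (TCvx.Zk_meas μ C hφ t' n z y).comp (MP_daa227_pr.measurable_shift 1)
    -- first step: change the weights of the remaining path
    have h1 : mom μ r (fun ω => ∑ z ∈ S, d z * TCvx.Wb μ φ b (ω 0) z *
          Zk C (TCvx.Wb μ φ b) n (shift 1 ω) z y) ≤
        mom μ r (fun ω => ∑ z ∈ S, d z * TCvx.Wb μ φ b (ω 0) z *
          Zk C (TCvx.Wb μ φ b') n (shift 1 ω) z y) := by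
      unfold mom
      rw [MP_daa227_pr.lintegral_cons μ (hmix b b), MP_daa227_pr.lintegral_cons μ (hmix b b')]
      refine lintegral_mono fun a => ?_
      simp only [MP_daa227_pr.shift_one_cons, MP_daa227_pr.cons_zero]
      exact ih S (fun z => d z * TCvx.Wb μ φ b a z) fun z =>
        mul_nonneg (hd0 z) (Real.exp_pos _).le
    refine h1.trans ?_
    unfold mom
    rw [MP_daa227_pr.lintegral_cons_symm μ (hmix b b'),
      MP_daa227_pr.lintegral_cons_symm μ (hmix b' b')]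
    refine lintegral_mono fun ω => ?_
    simp only [MP_daa227_pr.shift_one_cons, MP_daa227_pr.cons_zero]
    obtain ⟨A, hA⟩ : ∃ A, A = ∑ z ∈ S with φ z = 0, d z * Zk C (TCvx.Wb μ φ b') n ω z y :=
      ⟨_, rfl⟩
    obtain ⟨B, hB⟩ : ∃ B, B = ∑ z ∈ S with ¬ φ z = 0, d z * Zk C (TCvx.Wb μ φ b') n ω z y :=
      ⟨_, rfl⟩
    have hA0 : 0 ≤ A := by
      rw [hA]
      exact Finset.sum_nonneg fun z _ => mul_nonneg (hd0 z) (TCvx.Zk_nn μ C hφ b' n z y ω)
    have hB0 : 0 ≤ B := by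
      rw [hB]
      exact Finset.sum_nonneg fun z _ => mul_nonneg (hd0 z) (TCvx.Zk_nn μ C hφ b' n z y ω)
    have hAB : ∀ t a : ℝ, ∑ z ∈ S, d z * TCvx.Wb μ φ t a z *
        Zk C (TCvx.Wb μ φ b') n ω z y = A + B * Real.exp (t * a - lmg μ t) := by
      intro t a
      rw [← Finset.sum_filter_add_sum_filter_not S (fun z => φ z = 0), hA, hB, Finset.sum_mul]
      congr 1
      · refine Finset.sum_congr rfl fun z hz => ?_
        have h2 : φ z = 0 := (Finset.mem_filter.1 hz).2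
        unfold TCvx.Wb
        rw [h2, mul_zero, Real.exp_zero, mul_one]
      · refine Finset.sum_congr rfl fun z hz => ?_
        have h2 : φ z = 1 := (hφ z).resolve_left (Finset.mem_filter.1 hz).2
        have h3 : TCvx.Wb μ φ t a z = Real.exp (t * a - lmg μ t) := by
          unfold TCvx.Wb
          rw [h2, mul_one]
        rw [h3]
        ring
    simp_rw [hAB]
    exact one_cvx hμ hb hbb hA0 hB0 hr

end

end Pool.Agent.HG
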