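import Pool.Agent.Lib.MP_daa227_pr_HG.SDef
import Pool.Agent.Lib.MP_daa227_pr_HZ.JenQ
import Pool.Agent.Lib.MP_daa227_pr_HZ.Strat

/-!
# MP_daa227_pr, exact order: Jensen's inequality for a weighted excursion law
-/

namespace Pool.Agent.HG

open MeasureTheory ProbabilityTheory Finset Filter Topology
open MP_daa227_pr (Chain Zk Zf Gk Gf KU K0 Ren shift seqLaw ExpMom DepOn Good GoodW mom ushift)
open Pool.Agent.HZ (Mod Kv lmg)
open Pool.Agent.IOrd (Sys aS cv)

noncomputable section

/-- `om C w ψ n i x = E_x[ψ(S_{i+1}) exp (∑_{j=1}^n w(S_j)); first visit to 0 at time n]` -/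
def om (C : Chain) (w ψ : ℤ → ℝ) : ℕ → ℕ → ℤ → ℝ
  | 0, _, _ => 0
  | n + 1, 0, x => (if n = 0 then C.p x 0 * Real.exp (w 0) * ψ 0 else 0) +
      ∑ z ∈ Finset.Icc (x - 1) (x + 1) \ {0}, C.p x z * Real.exp (w z) * (ψ z * Kv C w n z)
  | n + 1, i + 1, x => ∑ z ∈ Finset.Icc (x - 1) (x + 1) \ {0},
        C.p x z * Real.exp (w z) * om C w ψ n i z

theorem om_mono (C : Chain) (w : ℤ → ℝ) {ψ χ : ℤ → ℝ} (h : ∀ x, ψ x ≤ χ x) (n i : ℕ) (x : ℤ) :
    om C w ψ n i x ≤ om C w χ n i x := by
  induction n generalizing i x with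
  | zero => exact le_rfl
  | succ n ih =>
    cases i with
    | zero =>
      rw [om, om]
      apply add_le_add
      · split_ifs
        · exact mul_le_mul_of_nonneg_left (h 0) (mul_nonneg (C.nonneg _ _) (Real.exp_pos _).le)
        · exact le_rfl
      · exact Finset.sum_le_sum fun z _ => mul_le_mul_of_nonneg_left
          (mul_le_mul_of_nonneg_right (h z) (HZ.Kv_nonneg C _ n z))
          (mul_nonneg (C.nonneg _ _) (Real.exp_pos _).le)
    | succ i =>
      rw [om, om]
      exact Finset.sum_le_sum fun z _ => mul_le_mul_of_nonneg_left (ih i z)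
        (mul_nonneg (C.nonneg _ _) (Real.exp_pos _).le)

theorem om_lin (C : Chain) (w ψ χ : ℤ → ℝ) (a b : ℝ) (n i : ℕ) (x : ℤ) :
    om C w (fun z => a * ψ z + b * χ z) n i x = a * om C w ψ n i x + b * om C w χ n i x := by
  induction n generalizing i x with
  | zero =>
    simp only [om]
    ring
  | succ n ih =>
    cases i with
    | zero =>
      rw [om, om, om]
      have h1 : ∑ z ∈ Finset.Icc (x - 1) (x + 1) \ {0}, C.p x z * Real.exp (w z) *
          ((a * ψ z + b * χ z) * Kv C w n z) =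
          a * (∑ z ∈ Finset.Icc (x - 1) (x + 1) \ {0}, C.p x z * Real.exp (w z) *
            (ψ z * Kv C w n z)) + b * ∑ z ∈ Finset.Icc (x - 1) (x + 1) \ {0},
              C.p x z * Real.exp (w z) * (χ z * Kv C w n z) := by
        rw [Finset.mul_sum, Finset.mul_sum, ← Finset.sum_add_distrib]
        refine Finset.sum_congr rfl fun z _ => ?_
        ring
      rw [h1]
      split_ifs <;> ring
    | succ i =>
      rw [om, om, om, Finset.mul_sum, Finset.mul_sum, ← Finset.sum_add_distrib]
      refine Finset.sum_congr rfl fun z _ => ?_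
      rw [ih i z]
      ring

theorem om_zero (C : Chain) (w : ℤ → ℝ) (n i : ℕ) (x : ℤ) :
    om C w (fun _ => 0) n i x = 0 := by
  have h := om_lin C w (fun _ => 0) (fun _ => 0) 0 0 n i x
  simpa using h

theorem om_nonneg (C : Chain) (w : ℤ → ℝ) {ψ : ℤ → ℝ} (h : ∀ x, 0 ≤ ψ x) (n i : ℕ) (x : ℤ) :
    0 ≤ om C w ψ n i x := by
  have h1 := om_mono C w h n i x
  rwa [om_zero] at h1

theorem om_one (C : Chain) (w : ℤ → ℝ) (n i : ℕ) (x : ℤ) :
    om C w (fun _ => 1) n i x ≤ Kv C w n x := by
  induction n generalizing i x with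
  | zero =>
    rw [HZ.Kv_zero]
    exact le_rfl
  | succ n ih =>
    rw [HZ.Kv_succ]
    cases i with
    | zero =>
      rw [om]
      refine le_of_eq ?_
      congr 1
      · split_ifs
        · rw [mul_one]
        · rfl
      · refine Finset.sum_congr rfl fun z _ => ?_
        rw [one_mul]
    | succ i =>
      rw [om]
      refine le_add_of_nonneg_of_le ?_ (Finset.sum_le_sum fun z _ =>
        mul_le_mul_of_nonneg_left (ih i z) (mul_nonneg (C.nonneg _ _) (Real.exp_pos _).le))
      split_ifs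
      · exact mul_nonneg (C.nonneg _ _) (Real.exp_pos _).le
      · exact le_rfl

theorem om_le (C : Chain) (w : ℤ → ℝ) {ψ : ℤ → ℝ} {a : ℝ} (ha : 0 ≤ a) (h : ∀ x, ψ x ≤ a)
    (n i : ℕ) (x : ℤ) : om C w ψ n i x ≤ a * Kv C w n x := by
  have h1 := om_mono C w h n i x
  have h2 := om_lin C w (fun _ => 1) (fun _ => 0) a 0 n i x
  simp only [mul_one, mul_zero, add_zero, zero_mul] at h2
  rw [h2] at h1
  exact h1.trans (mul_le_mul_of_nonneg_left (om_one C w n i x) ha)

theorem jensenW_ge (C : Chain) (w ψ : ℤ → ℝ) (n : ℕ) (c : ℕ → ℝ) (x : ℤ) (m : ℝ) :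
    Real.exp m * ((1 - m) * Kv C w n x +
      ∑ i ∈ Finset.range n, c i * om C w ψ n i x) ≤ KU C n (fun i z => c i * ψ z + w z) x := by
  induction n generalizing c x m with
  | zero => simp [HZ.Kv_zero, KU]
  | succ n ih =>
    rw [HZ.Kv_succ, KU, Finset.sum_range_succ']
    have h1 : Real.exp m * ((1 - m) * (if n = 0 then C.p x 0 * Real.exp (w 0) else 0) +
        c 0 * (if n = 0 then C.p x 0 * Real.exp (w 0) * ψ 0 else 0)) ≤
        (if n = 0 then C.p x 0 * Real.exp (c 0 * ψ 0 + w 0) else 0) := by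
      split_ifs
      · have h2 := Real.add_one_le_exp (c 0 * ψ 0 - m)
        have h3 : Real.exp (c 0 * ψ 0 + w 0) =
            Real.exp m * Real.exp (w 0) * Real.exp (c 0 * ψ 0 - m) := by
          rw [← Real.exp_add, ← Real.exp_add]
          congr 1
          ring
        have h4 := C.nonneg x 0
        rw [h3]
        have h6 : Real.exp m * ((1 - m) * (C.p x 0 * Real.exp (w 0)) +
            c 0 * (C.p x 0 * Real.exp (w 0) * ψ 0)) =
            C.p x 0 * (Real.exp m * Real.exp (w 0) * (c 0 * ψ 0 - m + 1)) := by ring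
        rw [h6]
        gcongr
      · simp
    have h2 : ∀ z ∈ Finset.Icc (x - 1) (x + 1) \ {0}, C.p x z * Real.exp (w z) *
        (Real.exp m * ((1 - m) * Kv C w n z +
          (c 0 * (ψ z * Kv C w n z) +
          ∑ i ∈ Finset.range n, c (i + 1) * om C w ψ n i z))) ≤
        C.p x z * Real.exp (c 0 * ψ z + w z) *
          KU C n (ushift (fun i z => c i * ψ z + w z)) z := by
      intro z _
      rw [mul_assoc (C.p x z), mul_assoc (C.p x z)]
      apply mul_le_mul_of_nonneg_left _ (C.nonneg x z)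
      have h3 := ih (fun i => c (i + 1)) z (m - c 0 * ψ z)
      have h4 : Real.exp (c 0 * ψ z + w z) = Real.exp (w z) * Real.exp (c 0 * ψ z) := by
        rw [← Real.exp_add]
        congr 1
        ring
      have h5 : Real.exp m = Real.exp (c 0 * ψ z) * Real.exp (m - c 0 * ψ z) := by
        rw [← Real.exp_add]
        congr 1
        ring
      have h6 : ushift (fun i z => c i * ψ z + w z) =
          fun i z => (fun i => c (i + 1)) i * ψ z + w z := rfl
      rw [h4, h6, h5]
      calc _ = Real.exp (w z) * Real.exp (c 0 * ψ z) * (Real.exp (m - c 0 * ψ z) *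
            ((1 - (m - c 0 * ψ z)) * Kv C w n z +
              ∑ i ∈ Finset.range n, (fun i => c (i + 1)) i * om C w ψ n i z)) := by ring
        _ ≤ _ := mul_le_mul_of_nonneg_left h3 (by positivity)
    have h3 := Finset.sum_le_sum h2
    refine le_trans (le_of_eq ?_) (add_le_add h1 h3)
    simp only [om]
    have h4 : ∑ i ∈ Finset.range n, c (i + 1) * ∑ z ∈ Finset.Icc (x - 1) (x + 1) \ {0},
        C.p x z * Real.exp (w z) * om C w ψ n i z =
        ∑ z ∈ Finset.Icc (x - 1) (x + 1) \ {0}, C.p x z * Real.exp (w z) *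
          ∑ i ∈ Finset.range n, c (i + 1) * om C w ψ n i z := by
      simp_rw [Finset.mul_sum]
      rw [Finset.sum_comm]
      refine Finset.sum_congr rfl fun z _ => Finset.sum_congr rfl fun i _ => ?_
      ring
    have h5 : ∑ z ∈ Finset.Icc (x - 1) (x + 1) \ {0}, C.p x z * Real.exp (w z) *
        (Real.exp m * ((1 - m) * Kv C w n z +
          (c 0 * (ψ z * Kv C w n z) +
          ∑ i ∈ Finset.range n, c (i + 1) * om C w ψ n i z))) =
        Real.exp m * ((1 - m) * ∑ z ∈ Finset.Icc (x - 1) (x + 1) \ {0},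
            C.p x z * Real.exp (w z) * Kv C w n z +
          (c 0 * ∑ z ∈ Finset.Icc (x - 1) (x + 1) \ {0},
            C.p x z * Real.exp (w z) * (ψ z * Kv C w n z) +
          ∑ z ∈ Finset.Icc (x - 1) (x + 1) \ {0}, C.p x z * Real.exp (w z) *
            ∑ i ∈ Finset.range n, c (i + 1) * om C w ψ n i z)) := by
      rw [Finset.mul_sum _ _ (1 - m), Finset.mul_sum _ _ (c 0), ← Finset.sum_add_distrib,
        ← Finset.sum_add_distrib, Finset.mul_sum]
      refine Finset.sum_congr rfl fun z _ => ?_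
      ring
    rw [h4, h5]
    ring

theorem jensenW (C : Chain) (w ψ : ℤ → ℝ) (n : ℕ) (c : ℕ → ℝ) (x : ℤ) (h : 0 < Kv C w n x) :
    Kv C w n x * Real.exp (∑ i ∈ Finset.range n, c i * (om C w ψ n i x / Kv C w n x)) ≤
    KU C n (fun i z => c i * ψ z + w z) x := by
  have h0 : ∑ i ∈ Finset.range n, c i * (om C w ψ n i x / Kv C w n x) =
      (∑ i ∈ Finset.range n, c i * om C w ψ n i x) / Kv C w n x := by
    rw [Finset.sum_div]
    refine Finset.sum_congr rfl fun i _ => ?_
    rw [mul_div_assoc]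
  rw [h0]
  refine le_trans (le_of_eq ?_) (jensenW_ge C w ψ n c x
    ((∑ i ∈ Finset.range n, c i * om C w ψ n i x) / Kv C w n x))
  have h1 : (∑ i ∈ Finset.range n, c i * om C w ψ n i x) / Kv C w n x *
      Kv C w n x = ∑ i ∈ Finset.range n, c i * om C w ψ n i x :=
    div_mul_cancel₀ _ h.ne'
  rw [sub_mul, h1]
  ring

end

end Pool.Agent.HG
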