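import Pool.Agent.Lib.MP_daa227_pr_HG.LSid

/-!
# MP_daa227_pr, exponential moments of the potential along an excursion: definitions
-/

namespace Pool.Agent.HG

open MeasureTheory ProbabilityTheory Finset Filter Topology
open MP_daa227_pr (Chain Zk Zf Gk Gf KU K0 Ren shift seqLaw ExpMom DepOn Good GoodW mom)
open Pool.Agent.HZ (Mod Kv lmg)
open Pool.Agent.IOrd (Sys aS cv)

noncomputable section

/-- the sum of the potential along an excursion has an exponential moment -/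
def ExpPot (C : Chain) (φ : ℤ → ℝ) : Prop :=
  ∃ κ B : ℝ, 0 < κ ∧ ∀ N : ℕ, ∑ n ∈ range N, Kv C (fun z => κ * φ z) n 0 ≤ B

/-- the same for the excursions to the right -/
def ExpPotR (C : Chain) (φ : ℤ → ℝ) : Prop :=
  ∃ κ B : ℝ, 0 < κ ∧ ∀ N : ℕ, ∑ n ∈ range N, Kv C (fun z => κ * φ z) n 1 ≤ B

theorem ExpPot.right {C : Chain} {φ : ℤ → ℝ} (h : ExpPot C φ) : ExpPotR C φ := by
  obtain ⟨κ, B, hκ, hB⟩ := h
  have hp : 0 < C.p 0 1 := by
    have := C.up 0
    rwa [zero_add] at this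
  refine ⟨κ, (C.p 0 1 * Real.exp (κ * φ 1))⁻¹ * B, hκ, fun N => ?_⟩
  have h0 : 0 < C.p 0 1 * Real.exp (κ * φ 1) := mul_pos hp (Real.exp_pos _)
  rw [le_inv_mul_iff₀ h0]
  refine le_trans ?_ (hB (N + 1))
  rw [Finset.sum_range_succ', Finset.mul_sum]
  refine le_add_of_le_of_nonneg (Finset.sum_le_sum fun n _ => ?_) (HZ.Kv_nonneg C _ 0 0)
  rw [HZ.Kv_succ]
  have h2 := Finset.single_le_sum (f := fun z => C.p 0 z * Real.exp (κ * φ z) *
      Kv C (fun z => κ * φ z) n z) (s := Finset.Icc ((0 : ℤ) - 1) (0 + 1) \ {0}) (a := 1)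
      (fun z _ => mul_nonneg (mul_nonneg (C.nonneg _ _) (Real.exp_pos _).le)
        (HZ.Kv_nonneg C _ n z)) (by simp)
  refine h2.trans (le_add_of_nonneg_left ?_)
  split_ifs
  · exact mul_nonneg (C.nonneg _ _) (Real.exp_pos _).le
  · exact le_rfl

theorem ExpPot.cneg {C : Chain} {φ : ℤ → ℝ} (h : ExpPot C φ) :
    ExpPot (HZ.cneg C) (fun z => φ (-z)) := by
  obtain ⟨κ, B, hκ, hB⟩ := h
  refine ⟨κ, B, hκ, fun N => ?_⟩
  have h1 : ∀ n : ℕ, Kv (HZ.cneg C) (fun z => κ * φ (-z)) n 0 = Kv C (fun z => κ * φ z) n 0 := by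
    intro n
    have h2 := HZ.Kv_cneg C (fun z => κ * φ z) n 0
    rwa [neg_zero] at h2
  simp only [h1]
  exact hB N

end

end Pool.Agent.HG
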