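import Pool.Agent.Lib.MP_daa227_pr_HG.LMod
import Pool.Agent.Lib.MP_daa227_pr_HG.Crit
import Pool.Agent.Lib.MP_daa227_pr_HG.BesM
import Pool.Agent.Lib.MP_daa227_pr_HZ.MeanLim

/-!
# MP_daa227_pr: the critical point grows at least linearly with the inverse temperature
-/

namespace Pool.Agent.HG

open MeasureTheory ProbabilityTheory Finset Filter Topology
open MP_daa227_pr (Chain Zk Zf Gk Gf KU K0 Ren shift seqLaw ExpMom DepOn Good GoodW mom)
open Pool.Agent.HZ (Mod Kv lmg)
open Pool.Agent.IOrd (Sys aS cv)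

noncomputable section

namespace XScale

/-- Jensen's inequality for the mass function `p(x, ·)` -/
theorem jensen (C : Chain) (x : ℤ) {t : ℝ} (ht : 1 ≤ t) {a : ℤ → ℝ} (ha : ∀ z, 0 ≤ a z) :
    (∑ z ∈ Finset.Icc (x - 1) (x + 1), C.p x z * a z) ^ t ≤
      ∑ z ∈ Finset.Icc (x - 1) (x + 1), C.p x z * a z ^ t :=
  Real.rpow_arith_mean_le_arith_mean_rpow _ (fun z => C.p x z) a (fun z _ => C.nonneg x z)
    (C.sum_one x) (fun z _ => ha z) ht

/-- `Z^t ≤ Z(t ·)` -/
theorem zf_pow (C : Chain) {W W' : ℝ → ℤ → ℝ} (hW : ∀ a z, 0 < W a z) {t : ℝ} (ht : 1 ≤ t)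
    (hW' : ∀ a z, W a z ^ t ≤ W' a z) : ∀ (n : ℕ) (ω : ℕ → ℝ) (x : ℤ),
    Zf C W n ω x ^ t ≤ Zf C W' n ω x
  | 0, ω, x => by simp only [Zf, Real.one_rpow]; exact le_rfl
  | n + 1, ω, x => by
    have hW'0 : ∀ a z, 0 < W' a z := fun a z => (Real.rpow_pos_of_pos (hW a z) t).trans_le (hW' a z)
    simp only [Zf, mul_assoc]
    refine (jensen C x ht (fun z => mul_nonneg (hW _ _).le
      (MP_daa227_pr.Zf_pos C hW n _ z).le)).trans ?_
    refine Finset.sum_le_sum fun z _ => mul_le_mul_of_nonneg_left ?_ (C.nonneg x z)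
    rw [Real.mul_rpow (hW _ _).le (MP_daa227_pr.Zf_pos C hW n _ z).le]
    exact mul_le_mul (hW' _ _) (zf_pow C hW ht hW' n _ z)
      (Real.rpow_nonneg (MP_daa227_pr.Zf_pos C hW n _ z).le t) (hW'0 _ _).le

end XScale

/-- `t F(β, h) ≤ F(t β, t h)` for `t ≥ 1` -/
theorem fr_scale (M : Mod) {t : ℝ} (ht : 1 ≤ t) (hb : 0 < t * M.β) (h : ℝ) :
    t * M.Fr h ≤ (withB M (t * M.β) hb).Fr (t * h) := by
  set N := withB M (t * M.β) hb with hN
  have hpos : ∀ (M' : Mod) h n ω, 0 < M'.Zl h n ω := fun M' h n ω =>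
    MP_daa227_pr.Zf_pos M'.C (M'.W_pos h) n ω 0
  have hint : ∀ (M' : Mod) h n, Integrable (fun ω => Real.log (M'.Zl h n ω)) (seqLaw M'.μ) :=
    fun M' h n => ((M'.good_Zl h n).log_lip (hpos M' h n)).integrable
      ((M'.good_Zl h n).meas.log) M'.exp_mom
  have h1 : ∀ n : ℕ, t * M.ΨF h n ≤ N.ΨF (t * h) n := by
    intro n
    have h2 : ∀ ω, t * Real.log (M.Zl h n ω) ≤ Real.log (N.Zl (t * h) n ω) := by
      intro ω
      rw [← Real.log_rpow (hpos M h n ω)]
      refine Real.log_le_log (Real.rpow_pos_of_pos (hpos M h n ω) t) ?_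
      refine XScale.zf_pow M.C (M.W_pos h) ht (fun a z => le_of_eq ?_) n ω 0
      change Real.exp ((M.β * a - h) * M.φ z) ^ t = Real.exp ((t * M.β * a - t * h) * M.φ z)
      rw [← Real.exp_mul]
      congr 1
      ring
    unfold Mod.ΨF
    rw [← integral_const_mul]
    exact integral_mono ((hint M h n).const_mul t) (hint N (t * h) n) h2
  refine le_of_tendsto_of_tendsto' ((M.mean_limit h).const_mul t) (N.mean_limit (t * h))
    fun n => ?_
  rw [← mul_div_assoc]
  exact div_le_div_of_nonneg_right (h1 n) (Nat.cast_nonneg n)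

/-- the critical point grows at least linearly -/
theorem hc_scale (M : Mod) {b b' h h' : ℝ} (hb : 0 < b) (hb' : 0 < b') (hle : b ≤ b')
    (h0 : ∀ x, 0 < (withB M b hb).Fr x ↔ x < h) (h1 : ∀ x, 0 < (withB M b' hb').Fr x ↔ x < h') :
    b' / b * h ≤ h' := by
  have ht : 1 ≤ b' / b := by rwa [one_le_div hb]
  have ht0 : 0 < b' / b := by linarith
  have hbb : b' / b * b = b' := div_mul_cancel₀ b' hb.ne'
  have key : ∀ x, x < h → b' / b * x < h' := by
    intro x hx
    have h2 := fr_scale (withB M b hb) ht (by change 0 < b' / b * b; rw [hbb]; exact hb') x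
    have h3 : (withB (withB M b hb) (b' / b * (withB M b hb).β)
        (by change 0 < b' / b * b; rw [hbb]; exact hb')).Fr (b' / b * x) =
        (withB M b' hb').Fr (b' / b * x) := by
      have h4 : withB (withB M b hb) (b' / b * (withB M b hb).β)
          (by change 0 < b' / b * b; rw [hbb]; exact hb') = withB M b' hb' := by
        unfold withB
        simp only [hbb]
      rw [h4]
    rw [h3] at h2
    exact (h1 _).1 ((mul_pos ht0 ((h0 x).2 hx)).trans_le h2)
  refine le_of_forall_lt fun c hc => ?_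
  have h2 := key (c / (b' / b) + (h - c / (b' / b)) / 2) ?_
  · refine lt_trans ?_ h2
    have h3 : c / (b' / b) < h := by rwa [div_lt_iff₀' ht0]
    have h4 : c = b' / b * (c / (b' / b)) := by field_simp
    conv_lhs => rw [h4]
    exact mul_lt_mul_of_pos_left (by linarith) ht0
  · have h3 : c / (b' / b) < h := by rwa [div_lt_iff₀' ht0]
    linarith

end

end Pool.Agent.HG
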