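import Pool.Agent.Lib.MP_daa227_pr_HG.BDef

/-!
# MP_daa227_pr, large inverse temperature: annealed cycles
-/

namespace Pool.Agent.HG

open MeasureTheory ProbabilityTheory Finset Filter Topology
open MP_daa227_pr (Chain Zk Zf Gk Gf KU K0 Ren shift seqLaw ExpMom DepOn Good GoodW mom)
open Pool.Agent.HZ (Mod Kv lmg)
open Pool.Agent.IOrd (Sys aS cv)

noncomputable section

namespace YCyc

theorem exp_nonneg' (C : Chain) (v : ℤ → ℝ) (x z : ℤ) : 0 ≤ C.p x z * Real.exp (v z) :=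
  mul_nonneg (C.nonneg _ _) (Real.exp_pos _).le

/-- one step to a neighbour different from `0` -/
theorem step (C : Chain) (v : ℤ → ℝ) (n : ℕ) {x z : ℤ} (hz : z ∈ Finset.Icc (x - 1) (x + 1))
    (h0 : z ≠ 0) : C.p x z * Real.exp (v z) * Kv C v n z ≤ Kv C v (n + 1) x := by
  rw [HZ.Kv_succ]
  have h1 : z ∈ Finset.Icc (x - 1) (x + 1) \ {0} := by
    rw [Finset.mem_sdiff, Finset.mem_singleton]
    exact ⟨hz, h0⟩
  have h2 := Finset.single_le_sum (f := fun z => C.p x z * Real.exp (v z) * Kv C v n z)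
    (fun w _ => mul_nonneg (exp_nonneg' C v x w) (HZ.Kv_nonneg C v n w)) h1
  have h3 : 0 ≤ (if n = 0 then C.p x 0 * Real.exp (v 0) else 0) := by
    split_ifs
    · exact exp_nonneg' C v x 0
    · exact le_rfl
  linarith

/-- the step to `0` -/
theorem last (C : Chain) (v : ℤ → ℝ) (x : ℤ) :
    C.p x 0 * Real.exp (v 0) ≤ Kv C v 1 x := by
  have h1 := HZ.Kv_succ C v 0 x
  rw [zero_add, if_pos rfl] at h1
  rw [h1]
  exact le_add_of_nonneg_right (Finset.sum_nonneg fun w _ =>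
    mul_nonneg (exp_nonneg' C v x w) (HZ.Kv_nonneg C v 0 w))

theorem pos (C : Chain) (v : ℤ → ℝ) (m : ℕ) :
    (∃ k, 0 < Kv C v k ((m : ℤ) + 1)) ∧ ∃ k, 0 < Kv C v k (-((m : ℤ) + 1)) := by
  induction m with
  | zero =>
    constructor
    · refine ⟨1, lt_of_lt_of_le ?_ (last C v _)⟩
      have h := C.down (((0 : ℕ) : ℤ) + 1)
      simp only [Nat.cast_zero, zero_add, sub_self] at h ⊢
      exact mul_pos h (Real.exp_pos _)
    · refine ⟨1, lt_of_lt_of_le ?_ (last C v _)⟩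
      have h := C.up (-(((0 : ℕ) : ℤ) + 1))
      simp only [Nat.cast_zero, zero_add, neg_add_cancel] at h ⊢
      exact mul_pos h (Real.exp_pos _)
  | succ m ih =>
    obtain ⟨⟨k, hk⟩, k', hk'⟩ := ih
    constructor
    · refine ⟨k + 1, lt_of_lt_of_le ?_ (step C v k (x := ((m + 1 : ℕ) : ℤ) + 1)
        (z := (m : ℤ) + 1) ?_ (by omega))⟩
      · have h := C.down (((m + 1 : ℕ) : ℤ) + 1)
        have e : ((m + 1 : ℕ) : ℤ) + 1 - 1 = (m : ℤ) + 1 := by push_cast; ring
        rw [e] at h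
        exact mul_pos (mul_pos h (Real.exp_pos _)) hk
      · rw [Finset.mem_Icc]
        push_cast
        constructor <;> omega
    · refine ⟨k' + 1, lt_of_lt_of_le ?_ (step C v k' (x := -(((m + 1 : ℕ) : ℤ) + 1))
        (z := -((m : ℤ) + 1)) ?_ (by omega))⟩
      · have h := C.up (-(((m + 1 : ℕ) : ℤ) + 1))
        have e : -(((m + 1 : ℕ) : ℤ) + 1) + 1 = -((m : ℤ) + 1) := by push_cast; ring
        rw [e] at h
        exact mul_pos (mul_pos h (Real.exp_pos _)) hk'
      · rw [Finset.mem_Icc]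
        push_cast
        constructor <;> omega

theorem from0 (C : Chain) (v : ℤ → ℝ) (m : ℕ) :
    (∃ (d : ℝ) (r : ℕ), 0 < d ∧ ∀ n, d * Kv C v n ((m : ℤ) + 1) ≤ Kv C v (n + r) 0) ∧
      ∃ (d : ℝ) (r : ℕ), 0 < d ∧ ∀ n, d * Kv C v n (-((m : ℤ) + 1)) ≤ Kv C v (n + r) 0 := by
  induction m with
  | zero =>
    constructor
    · refine ⟨C.p 0 (((0 : ℕ) : ℤ) + 1) * Real.exp (v (((0 : ℕ) : ℤ) + 1)), 1, ?_,
        fun n => step C v n ?_ (by norm_num)⟩
      · have h := C.up 0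
        simp only [Nat.cast_zero, zero_add] at h ⊢
        exact mul_pos h (Real.exp_pos _)
      · rw [Finset.mem_Icc]
        constructor <;> simp
    · refine ⟨C.p 0 (-(((0 : ℕ) : ℤ) + 1)) * Real.exp (v (-(((0 : ℕ) : ℤ) + 1))), 1, ?_,
        fun n => step C v n ?_ (by norm_num)⟩
      · have h := C.down 0
        have e : (0 : ℤ) - 1 = -(((0 : ℕ) : ℤ) + 1) := by norm_num
        rw [e] at h
        exact mul_pos h (Real.exp_pos _)
      · rw [Finset.mem_Icc]
        constructor <;> simp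
  | succ m ih =>
    obtain ⟨⟨d, r, hd, h1⟩, d', r', hd', h1'⟩ := ih
    constructor
    · refine ⟨d * (C.p ((m : ℤ) + 1) (((m + 1 : ℕ) : ℤ) + 1) *
        Real.exp (v (((m + 1 : ℕ) : ℤ) + 1))), r + 1, ?_, fun n => ?_⟩
      · have h := C.up ((m : ℤ) + 1)
        have e : (m : ℤ) + 1 + 1 = ((m + 1 : ℕ) : ℤ) + 1 := by push_cast; ring
        rw [e] at h
        exact mul_pos hd (mul_pos h (Real.exp_pos _))
      · have h2 := step C v n (x := (m : ℤ) + 1) (z := ((m + 1 : ℕ) : ℤ) + 1) (by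
          rw [Finset.mem_Icc]; push_cast; constructor <;> omega) (by omega)
        have h3 := mul_le_mul_of_nonneg_left h2 hd.le
        have h4 := h1 (n + 1)
        have e : n + (r + 1) = n + 1 + r := by ring
        rw [e, mul_assoc]
        exact h3.trans h4
    · refine ⟨d' * (C.p (-((m : ℤ) + 1)) (-(((m + 1 : ℕ) : ℤ) + 1)) *
        Real.exp (v (-(((m + 1 : ℕ) : ℤ) + 1)))), r' + 1, ?_, fun n => ?_⟩
      · have h := C.down (-((m : ℤ) + 1))
        have e : -((m : ℤ) + 1) - 1 = -(((m + 1 : ℕ) : ℤ) + 1) := by push_cast; ring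
        rw [e] at h
        exact mul_pos hd' (mul_pos h (Real.exp_pos _))
      · have h2 := step C v n (x := -((m : ℤ) + 1)) (z := -(((m + 1 : ℕ) : ℤ) + 1)) (by
          rw [Finset.mem_Icc]; push_cast; constructor <;> omega) (by omega)
        have h3 := mul_le_mul_of_nonneg_left h2 hd'.le
        have h4 := h1' (n + 1)
        have e : n + (r' + 1) = n + 1 + r' := by ring
        rw [e, mul_assoc]
        exact h3.trans h4

theorem cases' {x : ℤ} (hx : x ≠ 0) : ∃ m : ℕ, x = (m : ℤ) + 1 ∨ x = -((m : ℤ) + 1) := by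
  rcases lt_or_gt_of_ne hx with h | h
  · refine ⟨(-x - 1).toNat, Or.inr ?_⟩
    rw [Int.toNat_of_nonneg (by omega)]
    ring
  · refine ⟨(x - 1).toNat, Or.inl ?_⟩
    rw [Int.toNat_of_nonneg (by omega)]
    ring

theorem le_one (C : Chain) {v : ℤ → ℝ} (hg : ∀ N : ℕ, ∑ n ∈ range N, Kv C v n 0 ≤ 1) (n : ℕ) :
    Kv C v n 0 ≤ 1 :=
  (Finset.single_le_sum (f := fun n => Kv C v n 0) (fun i _ => HZ.Kv_nonneg C v i 0)
    (Finset.mem_range.2 (Nat.lt_succ_self n))).trans (hg (n + 1))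

theorem main (C : Chain) {v : ℤ → ℝ} (hg : ∀ N : ℕ, ∑ n ∈ range N, Kv C v n 0 ≤ 1) {x : ℤ}
    (hx : x ≠ 0) {c : ℝ} (hc0 : 0 ≤ c) (r : ℕ)
    (h : ∀ n, c * Kv C v n x ≤ Kv C v (n + r) x) : c ≤ 1 := by
  obtain ⟨m, hm⟩ := cases' hx
  have hA : ∃ k, 0 < Kv C v k x := by
    rcases hm with rfl | rfl
    · exact (pos C v m).1
    · exact (pos C v m).2
  have hB : ∃ (d : ℝ) (r : ℕ), 0 < d ∧ ∀ n, d * Kv C v n x ≤ Kv C v (n + r) 0 := by
    rcases hm with rfl | rfl
    · exact (from0 C v m).1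
    · exact (from0 C v m).2
  obtain ⟨k, hk⟩ := hA
  obtain ⟨d, q, hd, hq⟩ := hB
  by_contra hc
  rw [not_le] at hc
  have hpow : ∀ j : ℕ, c ^ j * Kv C v k x ≤ Kv C v (k + j * r) x := by
    intro j
    induction j with
    | zero => simp
    | succ j ih =>
      have h1 := mul_le_mul_of_nonneg_left ih hc0
      have h2 := h (k + j * r)
      have e : k + (j + 1) * r = k + j * r + r := by ring
      rw [e]
      calc c ^ (j + 1) * Kv C v k x = c * (c ^ j * Kv C v k x) := by ring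
        _ ≤ c * Kv C v (k + j * r) x := h1
        _ ≤ _ := h2
  have hbd : ∀ j : ℕ, c ^ j * (d * Kv C v k x) ≤ 1 := by
    intro j
    calc c ^ j * (d * Kv C v k x) = d * (c ^ j * Kv C v k x) := by ring
      _ ≤ d * Kv C v (k + j * r) x := mul_le_mul_of_nonneg_left (hpow j) hd.le
      _ ≤ Kv C v (k + j * r + q) 0 := hq _
      _ ≤ 1 := le_one C hg _
  have hpos : 0 < d * Kv C v k x := mul_pos hd hk
  obtain ⟨j, hj⟩ := pow_unbounded_of_one_lt (1 / (d * Kv C v k x)) hc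
  rw [div_lt_iff₀ hpos] at hj
  exact absurd (hbd j) (not_le.2 hj)

end YCyc

/-- If the annealed excursions have mass at most one, no cycle of length one or two has a weight larger
than one. Let `c` be the weight of the cycle at `x` and suppose `c > 1`. Excursions from `0` that go
directly to `x`, run `j` times through the cycle and return directly have the weight `a c^j`, `a > 0`
independent of `j`, which is unbounded. Formally, for `x ≠ 0` (and `x + 1 ≠ 0` for cycles of length two)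
`HZ.Kv_succ` gives `Kv (n + 1) x ≥ p x z e^(v z) Kv n z` for `z ≠ 0` (all terms are nonnegative), so
`Kv (n + 2 j) x ≥ c^j Kv n x` (`Kv (n + j) x ≥ c^j Kv n x` for the holding cycle), `Kv |x| x > 0` (direct
path), and `Kv (n + |x|) 0 ≥ a' Kv n x`, `a' > 0` (direct path from `0` to `x`). Cycles through `0`:
`g 1 = p 0 0 e^(v 0) ≤ 1`; `x = 0` or `x = -1` (length two): `g 2 ≥ p 0 y e^(v y) p y 0 e^(v 0)`,
`y = ±1`. -/
theorem cyc_one (C : Chain) {v : ℤ → ℝ} (hg : ∀ N : ℕ, ∑ n ∈ range N, Kv C v n 0 ≤ 1) (x : ℤ) :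
    C.p x x * Real.exp (v x) ≤ 1 := by
  by_cases hx : x = 0
  · subst hx
    exact (YCyc.last C v 0).trans (YCyc.le_one C hg 1)
  · exact YCyc.main C hg hx (YCyc.exp_nonneg' C v x x) 1
      (fun n => YCyc.step C v n (by rw [Finset.mem_Icc]; constructor <;> omega) hx)

theorem cyc_two (C : Chain) {v : ℤ → ℝ} (hg : ∀ N : ℕ, ∑ n ∈ range N, Kv C v n 0 ≤ 1) (x : ℤ) :
    C.p x (x + 1) * Real.exp (v (x + 1)) * (C.p (x + 1) x * Real.exp (v x)) ≤ 1 := by
  have e0 := YCyc.exp_nonneg' C v x (x + 1)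
  have e1 := YCyc.exp_nonneg' C v (x + 1) x
  by_cases hx : x = 0
  · subst hx
    have h1 := YCyc.last C v (0 + 1)
    have h2 := YCyc.step C v 1 (x := 0) (z := 0 + 1)
      (by rw [Finset.mem_Icc]; constructor <;> omega) (by norm_num)
    exact ((mul_le_mul_of_nonneg_left h1 e0).trans h2).trans (YCyc.le_one C hg 2)
  · by_cases hx1 : x + 1 = 0
    · have hx2 : x = -1 := by omega
      subst hx2
      have h1 := YCyc.last C v (-1)
      have h2 := YCyc.step C v 1 (x := 0) (z := -1)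
        (by rw [Finset.mem_Icc]; constructor <;> omega) (by norm_num)
      have e2 := YCyc.exp_nonneg' C v 0 (-1)
      have h3 := ((mul_le_mul_of_nonneg_left h1 e2).trans h2).trans (YCyc.le_one C hg 2)
      rw [neg_add_cancel, mul_comm]
      exact h3
    · refine YCyc.main C hg hx (mul_nonneg e0 e1) 2 fun n => ?_
      have h1 := YCyc.step C v n (x := x + 1) (z := x)
        (by rw [Finset.mem_Icc]; constructor <;> omega) hx
      have h2 := YCyc.step C v (n + 1) (x := x) (z := x + 1)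
        (by rw [Finset.mem_Icc]; constructor <;> omega) hx1
      rw [mul_assoc]
      exact (mul_le_mul_of_nonneg_left h1 e0).trans h2

/-- Gauge function: `s x` is the weight of the direct path from `x` to `0`: `s 0 = 1`,
`s (x + 1) = P (x + 1) x * s x` for `x ≥ 0` and `s (x - 1) = P (x - 1) x * s x` for `x ≤ 0`, with
`P x z = p x z * exp (v z)`. Steps towards `0` give equality, steps away from `0` give the cycle of
length two, and `z = x` the cycle of length one. -/
theorem gauge (C : Chain) {v : ℤ → ℝ} (h1 : ∀ x, C.p x x * Real.exp (v x) ≤ 1)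
    (h2 : ∀ x, C.p x (x + 1) * Real.exp (v (x + 1)) * (C.p (x + 1) x * Real.exp (v x)) ≤ 1) :
    ∃ s : ℤ → ℝ, (∀ x, 0 < s x) ∧ s 0 = 1 ∧
      ∀ x : ℤ, ∀ z ∈ Finset.Icc (x - 1) (x + 1), C.p x z * Real.exp (v z) * s z ≤ s x := by
  obtain ⟨P, hP⟩ : ∃ P : ℤ → ℤ → ℝ, P = fun x z => C.p x z * Real.exp (v z) := ⟨_, rfl⟩
  have hPe : ∀ x z, C.p x z * Real.exp (v z) = P x z := fun x z => by rw [hP]
  have hPup : ∀ x, 0 < P x (x + 1) := fun x => by
    rw [hP]; exact mul_pos (C.up x) (Real.exp_pos _)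
  have hPdn : ∀ x, 0 < P x (x - 1) := fun x => by
    rw [hP]; exact mul_pos (C.down x) (Real.exp_pos _)
  simp only [hPe] at h1 h2 ⊢
  obtain ⟨a, ha⟩ : ∃ a : ℕ → ℝ, a = fun n => ∏ i ∈ range n, P ((i : ℤ) + 1) i := ⟨_, rfl⟩
  obtain ⟨b, hb⟩ : ∃ b : ℕ → ℝ, b = fun n => ∏ i ∈ range n, P (-((i : ℤ) + 1)) (-(i : ℤ)) :=
    ⟨_, rfl⟩
  have ha0 : a 0 = 1 := by rw [ha]; simp
  have hb0 : b 0 = 1 := by rw [hb]; simp
  have ha1 : ∀ n, a (n + 1) = P ((n : ℤ) + 1) n * a n := by
    intro n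
    rw [ha]
    simp only
    rw [Finset.prod_range_succ, mul_comm]
  have hb1 : ∀ n, b (n + 1) = P (-((n : ℤ) + 1)) (-(n : ℤ)) * b n := by
    intro n
    rw [hb]
    simp only
    rw [Finset.prod_range_succ, mul_comm]
  have hap : ∀ n, 0 < a n := by
    intro n
    rw [ha]
    refine Finset.prod_pos fun i _ => ?_
    have h := hPdn ((i : ℤ) + 1)
    rwa [add_sub_cancel_right] at h
  have hbp : ∀ n, 0 < b n := by
    intro n
    rw [hb]
    refine Finset.prod_pos fun i _ => ?_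
    have h := hPup (-((i : ℤ) + 1))
    have e : -((i : ℤ) + 1) + 1 = -(i : ℤ) := by ring
    rwa [e] at h
  obtain ⟨s, hs⟩ : ∃ s : ℤ → ℝ, s = fun x => a x.toNat * b (-x).toNat := ⟨_, rfl⟩
  have hs0 : s 0 = 1 := by rw [hs]; simp [ha0, hb0]
  have hsp : ∀ x, 0 < s x := fun x => by rw [hs]; exact mul_pos (hap _) (hbp _)
  have hsu : ∀ x : ℤ, 0 ≤ x → s (x + 1) = P (x + 1) x * s x := by
    intro x hx
    obtain ⟨n, rfl⟩ := Int.eq_ofNat_of_zero_le hx
    have e1 : ((n : ℤ) + 1).toNat = n + 1 := by omega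
    have e2 : (-((n : ℤ) + 1)).toNat = 0 := by omega
    have e3 : ((n : ℤ)).toNat = n := by omega
    have e4 : (-(n : ℤ)).toNat = 0 := by omega
    rw [hs]
    simp only [e1, e2, e3, e4, hb0, mul_one]
    exact ha1 n
  have hsd : ∀ x : ℤ, x ≤ 0 → s (x - 1) = P (x - 1) x * s x := by
    intro x hx
    obtain ⟨n, hn⟩ := Int.eq_ofNat_of_zero_le (show 0 ≤ -x by omega)
    have hx' : x = -(n : ℤ) := by omega
    subst hx'
    have e1 : (-(n : ℤ) - 1).toNat = 0 := by omega
    have e2 : (-(-(n : ℤ) - 1)).toNat = n + 1 := by omega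
    have e3 : (-(n : ℤ)).toNat = 0 := by omega
    have e4 : (-(-(n : ℤ))).toNat = n := by omega
    rw [hs]
    simp only [e1, e2, e3, e4, ha0, one_mul]
    have e5 : -(n : ℤ) - 1 = -((n : ℤ) + 1) := by ring
    rw [e5]
    exact hb1 n
  refine ⟨s, hsp, hs0, ?_⟩
  intro x z hz
  rw [Finset.mem_Icc] at hz
  have hcase : z = x ∨ z = x + 1 ∨ z = x - 1 := by omega
  rcases hcase with rfl | rfl | rfl
  · exact mul_le_of_le_one_left (hsp z).le (h1 z)
  · rcases le_or_gt 0 x with hx | hx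
    · rw [hsu x hx, ← mul_assoc]
      exact mul_le_of_le_one_left (hsp x).le (h2 x)
    · have h3 := hsd (x + 1) (by omega)
      rw [add_sub_cancel_right] at h3
      exact h3.ge
  · rcases le_or_gt x 0 with hx | hx
    · rw [hsd x hx, ← mul_assoc]
      have h3 := h2 (x - 1)
      rw [sub_add_cancel, mul_comm] at h3
      exact mul_le_of_le_one_left (hsp x).le h3
    · have h3 := hsu (x - 1) (by omega)
      rw [sub_add_cancel] at h3
      exact h3.ge

/-- `d` is the probability of the direct path from `z` to `y`; the sites strictly between `z` and `y`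
have `v = 0`. Induction on `|y - z|`. -/
theorem gauge_dir (C : Chain) {z y : ℤ} (hzy : z ≠ y) : ∃ d : ℝ, 0 < d ∧ ∀ v s : ℤ → ℝ,
    (∀ x : ℤ, ∀ z ∈ Finset.Icc (x - 1) (x + 1), C.p x z * Real.exp (v z) * s z ≤ s x) →
    (∀ w, (z < w ∧ w < y) ∨ (y < w ∧ w < z) → v w = 0) →
    Real.exp (v y) * s y * d ≤ s z := by
  have hup : ∀ m : ℕ, ∀ z : ℤ, ∃ d : ℝ, 0 < d ∧ ∀ v s : ℤ → ℝ,
      (∀ x : ℤ, ∀ z ∈ Finset.Icc (x - 1) (x + 1), C.p x z * Real.exp (v z) * s z ≤ s x) →
      (∀ w, z < w → w < z + (m + 1 : ℕ) → v w = 0) →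
      Real.exp (v (z + (m + 1 : ℕ))) * s (z + (m + 1 : ℕ)) * d ≤ s z := by
    intro m
    induction m with
    | zero =>
      intro z
      refine ⟨C.p z (z + 1), C.up z, fun v s hs _ => ?_⟩
      have h1 := hs z (z + 1) (by rw [Finset.mem_Icc]; constructor <;> omega)
      have e : z + ((0 + 1 : ℕ) : ℤ) = z + 1 := by norm_num
      rw [e]
      calc Real.exp (v (z + 1)) * s (z + 1) * C.p z (z + 1) =
            C.p z (z + 1) * Real.exp (v (z + 1)) * s (z + 1) := by ring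
        _ ≤ s z := h1
    | succ m ih =>
      intro z
      obtain ⟨d, hd, h⟩ := ih (z + 1)
      refine ⟨d * C.p z (z + 1), mul_pos hd (C.up z), fun v s hs h0 => ?_⟩
      have h1 := hs z (z + 1) (by rw [Finset.mem_Icc]; constructor <;> omega)
      have e : z + ((m + 1 + 1 : ℕ) : ℤ) = z + 1 + ((m + 1 : ℕ) : ℤ) := by push_cast; ring
      have h2 := h v s hs (fun w hw hw' => h0 w (by omega) (by omega))
      have h3 : v (z + 1) = 0 := h0 (z + 1) (by omega) (by push_cast; omega)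
      rw [h3, Real.exp_zero, mul_one] at h1
      rw [e]
      have h4 := mul_le_mul_of_nonneg_left h2 (C.up z).le
      calc _ = C.p z (z + 1) * (Real.exp (v (z + 1 + ((m + 1 : ℕ) : ℤ))) *
            s (z + 1 + ((m + 1 : ℕ) : ℤ)) * d) := by ring
        _ ≤ C.p z (z + 1) * s (z + 1) := h4
        _ ≤ s z := h1
  have hdn : ∀ m : ℕ, ∀ z : ℤ, ∃ d : ℝ, 0 < d ∧ ∀ v s : ℤ → ℝ,
      (∀ x : ℤ, ∀ z ∈ Finset.Icc (x - 1) (x + 1), C.p x z * Real.exp (v z) * s z ≤ s x) →
      (∀ w, w < z → z - (m + 1 : ℕ) < w → v w = 0) →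
      Real.exp (v (z - (m + 1 : ℕ))) * s (z - (m + 1 : ℕ)) * d ≤ s z := by
    intro m
    induction m with
    | zero =>
      intro z
      refine ⟨C.p z (z - 1), C.down z, fun v s hs _ => ?_⟩
      have h1 := hs z (z - 1) (by rw [Finset.mem_Icc]; constructor <;> omega)
      have e : z - ((0 + 1 : ℕ) : ℤ) = z - 1 := by norm_num
      rw [e]
      calc Real.exp (v (z - 1)) * s (z - 1) * C.p z (z - 1) =
            C.p z (z - 1) * Real.exp (v (z - 1)) * s (z - 1) := by ring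
        _ ≤ s z := h1
    | succ m ih =>
      intro z
      obtain ⟨d, hd, h⟩ := ih (z - 1)
      refine ⟨d * C.p z (z - 1), mul_pos hd (C.down z), fun v s hs h0 => ?_⟩
      have h1 := hs z (z - 1) (by rw [Finset.mem_Icc]; constructor <;> omega)
      have e : z - ((m + 1 + 1 : ℕ) : ℤ) = z - 1 - ((m + 1 : ℕ) : ℤ) := by push_cast; ring
      have h2 := h v s hs (fun w hw hw' => h0 w (by omega) (by omega))
      have h3 : v (z - 1) = 0 := h0 (z - 1) (by omega) (by push_cast; omega)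
      rw [h3, Real.exp_zero, mul_one] at h1
      rw [e]
      have h4 := mul_le_mul_of_nonneg_left h2 (C.down z).le
      calc _ = C.p z (z - 1) * (Real.exp (v (z - 1 - ((m + 1 : ℕ) : ℤ))) *
            s (z - 1 - ((m + 1 : ℕ) : ℤ)) * d) := by ring
        _ ≤ C.p z (z - 1) * s (z - 1) := h4
        _ ≤ s z := h1
  rcases lt_or_gt_of_ne hzy with hlt | hlt
  · obtain ⟨d, hd, h⟩ := hup (y - z - 1).toNat z
    have e : z + (((y - z - 1).toNat + 1 : ℕ) : ℤ) = y := by
      push_cast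
      rw [Int.toNat_of_nonneg (by omega)]
      ring
    refine ⟨d, hd, fun v s hs h0 => ?_⟩
    have h1 := h v s hs (fun w hw hw' => h0 w (Or.inl ⟨hw, by rwa [e] at hw'⟩))
    rwa [e] at h1
  · obtain ⟨d, hd, h⟩ := hdn (z - y - 1).toNat z
    have e : z - (((z - y - 1).toNat + 1 : ℕ) : ℤ) = y := by
      push_cast
      rw [Int.toNat_of_nonneg (by omega)]
      ring
    refine ⟨d, hd, fun v s hs h0 => ?_⟩
    have h1 := h v s hs (fun w hw hw' => h0 w (Or.inr ⟨by rwa [e] at hw', hw⟩))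
    rwa [e] at h1

end

end Pool.Agent.HG
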