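import Pool.Agent.Lib.MP_daa227_pr_HG.YKb

/-!
# MP_daa227_pr, large inverse temperature: the sites where the potential is small
-/

namespace Pool.Agent.HG

open MeasureTheory ProbabilityTheory Finset Filter Topology
open MP_daa227_pr (Chain Zk Zf Gk Gf KU K0 Ren shift seqLaw ExpMom DepOn Good GoodW mom)
open Pool.Agent.HZ (Mod Kv lmg)
open Pool.Agent.IOrd (Sys aS cv)

noncomputable section

/-- `U` contains only sites where the potential is zero or small, its complement only `0` and sites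
where the potential is not small; `B` separates them. -/
structure Geo (φ : ℤ → ℝ) (U : ℤ → Prop) (B : Finset ℤ) : Prop where
  u0 : ¬ U 0
  b0 : (0 : ℤ) ∈ B
  bu : ∀ y ∈ B, ¬ U y
  ub : ∀ z ∈ Finset.Icc (-1 : ℤ) 1, ¬ U z → z ∈ B
  nb : ∀ z, U z → ∀ w ∈ Finset.Icc (z - 1) (z + 1), w ∉ B → U w
  /-- finitely many sites of `U` have a neighbour outside of `U` -/
  fin : ∃ S : Finset ℤ, ∀ z, U z → ∀ x, ¬ U x → x ∈ Finset.Icc (z - 1) (z + 1) → z ∈ S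
  /-- a path from `x` through `z ∈ U` to `y ∈ B` returns to `x` or crosses a gap of zeros of `φ` -/
  gap : ∀ z, U z → ∀ x, ¬ U x → x ∈ Finset.Icc (z - 1) (z + 1) → ∀ y ∈ B,
    (∀ w, (z < w ∧ w < y) ∨ (y < w ∧ w < z) → w ∉ B) →
    y = x ∨ (φ z = 0 ∧ ∀ w, (z < w ∧ w < y) ∨ (y < w ∧ w < z) → φ w = 0)

/-- Let `ℓ ≥ 0` (limit of `φ ≥ 0`). Choose `R ≥ |x₀| + 1` with `φ x ≤ ε` for `x > R`, and for `x < -R`:
`φ x ≤ ε` if `ℓ = 0`, `φ x ≥ ℓ / 2` if `ℓ > 0`. Put `V z ↔ z = 0 ∨ (φ z ≠ 0 ∧ z ≤ R ∧ (-R ≤ z ∨ 0 < ℓ))`,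
`U z ↔ ¬ V z`, `B = {z ∈ Icc (-R-1) (R+1) | V z}`, `S = Icc (-R-1) (R+1)`, `c₁ =` the minimum of `φ` over
the `x ∈ Icc (-R) R` with `φ x ≠ 0` (finite, `x₀` is one of them), and of `ℓ / 2` if `ℓ > 0`.
`nb`: let `U z`, `|w - z| ≤ 1`, `w ∉ B`, and suppose `V w`. Then `w ∉ Icc (-R-1) (R+1)`, so `w < -R-1`
(as `V w` gives `w ≤ R`, or `w = 0 ∈ B`) and `0 < ℓ`; then `z ≤ w + 1 < -R`, `φ z ≥ ℓ/2 ≠ 0`, so `V z`,
contradiction. `fin`: `U z`, `V x`, `|x - z| ≤ 1`: `x ≤ R`, so `z ≤ R + 1`; if `z < -R - 1` then `ℓ = 0`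
(else `V z`), so `x ≥ -R`, `z ≥ -R-1`. `gap`: `V x`. If `z > R` then `x ≤ R`, so `x = R`, `z = R + 1`, `x ∈ B`;
`y ≤ R = x` (`y ∈ B`, `V y`), and `x` is strictly between `z` and `y` if `y < x`, so `y = x`. If
`z < -R`: then `ℓ = 0` (`U z`), so `x ≥ -R`, `x = -R`, `z = -R-1`, `x ∈ B`, and `y ≥ -R = x`, so `y = x`
again. If `|z| ≤ R`: `U z` gives `φ z = 0` (`z ≠ 0`), and a `w` strictly between `z` and `y` satisfies
`|w| ≤ R` (`y ≤ R`, and `y ≥ -R-1`), `w ∉ B`, so `U w` (as `w ∈ Icc (-R-1) (R+1)`), so `φ w = 0`. -/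
theorem geo_exists {φ : ℤ → ℝ} (hφ : ∀ x, 0 ≤ φ x) (htop : Tendsto φ atTop (𝓝 0)) {ℓ : ℝ}
    (hbot : Tendsto φ atBot (𝓝 ℓ)) {ε : ℝ} (hε : 0 < ε) {x₀ : ℤ} (hx₀ : φ x₀ ≠ 0) :
    ∃ (U : ℤ → Prop) (_ : DecidablePred U) (B : Finset ℤ) (c₁ : ℝ), Geo φ U B ∧ 0 < c₁ ∧
      (∀ x, ¬ U x → x ≠ 0 → c₁ ≤ φ x) ∧ (φ 0 ≠ 0 → c₁ ≤ φ 0) ∧ (∀ z, U z → φ z ≤ ε) ∧ x₀ ∈ B := by
  classical
  have hℓ : 0 ≤ ℓ := ge_of_tendsto' hbot hφ
  obtain ⟨R1, hR1⟩ := eventually_atTop.1 (htop.eventually (gt_mem_nhds hε))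
  obtain ⟨R2, hR2⟩ : ∃ R2 : ℤ, ∀ x ≤ R2, (¬ 0 < ℓ → φ x ≤ ε) ∧ (0 < ℓ → ℓ / 2 ≤ φ x) := by
    rcases hℓ.eq_or_lt with h0 | h0
    · have h1 : ℓ < ε := by
        rw [← h0]
        exact hε
      have h2 : ¬ 0 < ℓ := by
        rw [← h0]
        exact lt_irrefl 0
      obtain ⟨R2, hR2⟩ := eventually_atBot.1 (hbot.eventually (gt_mem_nhds h1))
      exact ⟨R2, fun x hx => ⟨fun _ => (hR2 x hx).le, fun h => absurd h h2⟩⟩
    · obtain ⟨R2, hR2⟩ := eventually_atBot.1 (hbot.eventually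
        (lt_mem_nhds (show ℓ / 2 < ℓ by linarith)))
      exact ⟨R2, fun x hx => ⟨fun h => absurd h0 h, fun _ => (hR2 x hx).le⟩⟩
  obtain ⟨R, hR⟩ : ∃ R : ℤ, R = max (|x₀| + 1) (max R1 (-R2)) := ⟨_, rfl⟩
  have hRx : |x₀| + 1 ≤ R := by rw [hR]; exact le_max_left _ _
  have hRr : R1 ≤ R := by rw [hR]; exact (le_max_left _ _).trans (le_max_right _ _)
  have hRl : -R2 ≤ R := by rw [hR]; exact (le_max_right _ _).trans (le_max_right _ _)
  have hx0 := abs_nonneg x₀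
  have hxl := neg_abs_le x₀
  have hxr := le_abs_self x₀
  have hR1' : 1 ≤ R := by omega
  have hup : ∀ x, R < x → φ x ≤ ε := fun x hx => (hR1 x (by omega)).le
  have hlo : ∀ x, x < -R → (¬ 0 < ℓ → φ x ≤ ε) ∧ (0 < ℓ → ℓ / 2 ≤ φ x) := fun x hx =>
    hR2 x (by omega)
  obtain ⟨V, hV⟩ : ∃ V : ℤ → Prop, ∀ z, V z ↔ z = 0 ∨ (φ z ≠ 0 ∧ z ≤ R ∧ (-R ≤ z ∨ 0 < ℓ)) :=
    ⟨_, fun z => Iff.rfl⟩
  have V0 : V 0 := (hV 0).2 (Or.inl rfl)
  have A1 : ∀ z, V z → z ≤ R := by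
    intro z hz
    rcases (hV z).1 hz with h | h
    · omega
    · exact h.2.1
  have A2 : ∀ z, V z → z < -R → 0 < ℓ := by
    intro z hz hzR
    rcases (hV z).1 hz with h | h
    · omega
    · rcases h.2.2 with h1 | h1
      · omega
      · exact h1
  have A3 : 0 < ℓ → ∀ z, z < -R → V z := by
    intro h z hz
    refine (hV z).2 (Or.inr ⟨?_, by omega, Or.inr h⟩)
    have h1 := (hlo z hz).2 h
    intro h2
    rw [h2] at h1
    linarith
  have A4 : ∀ z, -R ≤ z → z ≤ R → φ z ≠ 0 → V z := fun z h1 h2 h3 =>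
    (hV z).2 (Or.inr ⟨h3, h2, Or.inl h1⟩)
  obtain ⟨m, hm0, hm⟩ : ∃ m : ℝ, 0 < m ∧ ∀ x, -R ≤ x → x ≤ R → φ x ≠ 0 → m ≤ φ x := by
    have hne : ((Finset.Icc (-R) R).filter (fun x => φ x ≠ 0)).Nonempty :=
      ⟨x₀, Finset.mem_filter.2 ⟨Finset.mem_Icc.2 ⟨by omega, by omega⟩, hx₀⟩⟩
    obtain ⟨x1, hx1, hmin⟩ := Finset.exists_min_image _ φ hne
    refine ⟨φ x1, lt_of_le_of_ne (hφ x1) (Ne.symm (Finset.mem_filter.1 hx1).2),
      fun x h1 h2 h3 => hmin x (Finset.mem_filter.2 ⟨Finset.mem_Icc.2 ⟨h1, h2⟩, h3⟩)⟩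
  obtain ⟨c₁, hc0, hcm, hcl⟩ : ∃ c₁ : ℝ, 0 < c₁ ∧ c₁ ≤ m ∧ (0 < ℓ → c₁ ≤ ℓ / 2) := by
    by_cases h : 0 < ℓ
    · exact ⟨min m (ℓ / 2), lt_min hm0 (by linarith), min_le_left _ _, fun _ => min_le_right _ _⟩
    · exact ⟨m, hm0, le_rfl, fun h1 => absurd h1 h⟩
  have hB : ∀ z, z ∈ (Finset.Icc (-R - 1) (R + 1)).filter V ↔
      (-R - 1 ≤ z ∧ z ≤ R + 1) ∧ V z := fun z => by
    rw [Finset.mem_filter, Finset.mem_Icc]
  refine ⟨fun z => ¬ V z, fun _ => Classical.dec _, (Finset.Icc (-R - 1) (R + 1)).filter V, c₁,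
    ?_, hc0, ?_, ?_, ?_, ?_⟩
  · refine ⟨fun h => h V0, (hB 0).2 ⟨⟨by omega, by omega⟩, V0⟩,
      fun y hy h => h ((hB y).1 hy).2, ?_, ?_, ?_, ?_⟩
    · intro z hz h
      rw [Finset.mem_Icc] at hz
      exact (hB z).2 ⟨⟨by omega, by omega⟩, not_not.1 h⟩
    · intro z hz w hw hwB hVw
      rw [Finset.mem_Icc] at hw
      have h1 := A1 w hVw
      have h2 : w < -R - 1 := by
        by_contra h3
        exact hwB ((hB w).2 ⟨⟨by omega, by omega⟩, hVw⟩)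
      exact hz (A3 (A2 w hVw (by omega)) z (by omega))
    · refine ⟨Finset.Icc (-R - 1) (R + 1), fun z hz x hx hxz => ?_⟩
      rw [not_not] at hx
      rw [Finset.mem_Icc] at hxz ⊢
      have h1 := A1 x hx
      refine ⟨?_, by omega⟩
      by_contra h2
      exact hz (A3 (A2 x hx (by omega)) z (by omega))
    · intro z hz x hx hxz y hy hbt
      rw [not_not] at hx
      rw [Finset.mem_Icc] at hxz
      obtain ⟨⟨hy1, hy2⟩, hyV⟩ := (hB y).1 hy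
      have hyR := A1 y hyV
      have hxR := A1 x hx
      rcases lt_or_ge R z with hzR | hzR
      · left
        have hxe : x = R := by omega
        have hxB := (hB x).2 ⟨⟨by omega, by omega⟩, hx⟩
        by_contra hne
        exact hbt x (Or.inr ⟨by omega, by omega⟩) hxB
      · rcases lt_or_ge z (-R) with hzl | hzl
        · left
          have hl0 : ¬ 0 < ℓ := fun h => hz (A3 h z hzl)
          have hxl : -R ≤ x := by
            by_contra h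
            exact hl0 (A2 x hx (by omega))
          have hyl : -R ≤ y := by
            by_contra h
            exact hl0 (A2 y hyV (by omega))
          have hxB := (hB x).2 ⟨⟨by omega, by omega⟩, hx⟩
          by_contra hne
          exact hbt x (Or.inl ⟨by omega, by omega⟩) hxB
        · right
          refine ⟨?_, fun w hw => ?_⟩
          · by_contra h
            exact hz (A4 z hzl hzR h)
          · by_contra h
            have hwR : -R ≤ w ∧ w ≤ R := by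
              rcases hw with h1 | h1
              · omega
              · omega
            exact hbt w hw ((hB w).2 ⟨⟨by omega, by omega⟩, A4 w hwR.1 hwR.2 h⟩)
  · intro x hx hx0
    rw [not_not] at hx
    rcases (hV x).1 hx with h | h
    · exact absurd h hx0
    · rcases lt_or_ge x (-R) with h1 | h1
      · have h2 := A2 x hx h1
        exact (hcl h2).trans ((hlo x h1).2 h2)
      · exact hcm.trans (hm x h1 h.2.1 h.1)
  · intro h
    exact hcm.trans (hm 0 (by omega) (by omega) h)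
  · intro z hz
    by_cases h0 : φ z = 0
    · rw [h0]
      exact hε.le
    · rcases lt_or_ge R z with hzR | hzR
      · exact hup z hzR
      · rcases lt_or_ge z (-R) with hzl | hzl
        · exact (hlo z hzl).1 fun h => hz (A3 h z hzl)
        · exact absurd (A4 z hzl hzR h0) hz
  · exact (hB x₀).2 ⟨⟨by omega, by omega⟩, A4 x₀ (by omega) (by omega) hx₀⟩

end

end Pool.Agent.HG
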