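import Pool.Agent.Lib.MP_daa227_pr_HG.BDef
import Pool.Agent.Lib.MP_daa227_pr.ExcLem

/-!
# MP_daa227_pr, large inverse temperature: paths avoiding a finite set
-/

namespace Pool.Agent.HG

open MeasureTheory ProbabilityTheory Finset Filter Topology
open MP_daa227_pr (Chain Zk Zf Gk Gf KU K0 Ren shift seqLaw ExpMom DepOn Good GoodW mom)
open Pool.Agent.HZ (Mod Kv lmg)
open Pool.Agent.IOrd (Sys aS cv)

noncomputable section

/-- probability that the chain started at `z` is at `y` at time `k` and avoids `B` strictly in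
between -/
def Kb (C : Chain) (B : Finset ℤ) : ℕ → ℤ → ℤ → ℝ
  | 0, _, _ => 0
  | n + 1, z, y => (if n = 0 then C.p z y else 0) +
      ∑ w ∈ Finset.Icc (z - 1) (z + 1) \ B, C.p z w * Kb C B n w y

theorem kb_nonneg (C : Chain) (B : Finset ℤ) : ∀ (n : ℕ) (z y : ℤ), 0 ≤ Kb C B n z y
  | 0, _, _ => le_rfl
  | n + 1, z, y => by
    refine add_nonneg ?_ (Finset.sum_nonneg fun w _ => mul_nonneg (C.nonneg _ _)
      (kb_nonneg C B n w y))
    split_ifs
    · exact C.nonneg _ _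
    · exact le_rfl

/-- Paths are nearest-neighbour: if a path from `z` to `y` avoids `B`, the sites strictly between
`z` and `y` are not in `B`. Induction on `n`: the first step goes to `w' ∈ {z-1, z, z+1} \ B`, and
a site strictly between `z` and `y` is `w'` or strictly between `w'` and `y`; for `n = 0` there is no
such site (`C.near`). -/
theorem kb_between (C : Chain) (B : Finset ℤ) : ∀ (n : ℕ) (z y : ℤ), Kb C B n z y ≠ 0 →
    ∀ w, (z < w ∧ w < y) ∨ (y < w ∧ w < z) → w ∉ B := by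
  intro n
  induction n with
  | zero =>
    intro z y h
    exact absurd rfl h
  | succ n ih =>
    intro z y h w hw
    rw [Kb] at h
    by_cases h1 : (if n = 0 then C.p z y else 0) = 0
    · rw [h1, zero_add] at h
      obtain ⟨w', hw', h2⟩ := Finset.exists_ne_zero_of_sum_ne_zero h
      have h3 : Kb C B n w' y ≠ 0 := right_ne_zero_of_mul h2
      rw [Finset.mem_sdiff, Finset.mem_Icc] at hw'
      by_cases h4 : w = w'
      · rw [h4]
        exact hw'.2
      · apply ih w' y h3 w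
        rcases hw with ⟨ha, hb⟩ | ⟨ha, hb⟩
        · left
          constructor
          · omega
          · exact hb
        · right
          constructor
          · exact ha
          · omega
    · exfalso
      have h2 : n = 0 := by
        by_contra h3
        rw [if_neg h3] at h1
        exact h1 rfl
      rw [if_pos h2] at h1
      have h3 : y ∈ Finset.Icc (z - 1) (z + 1) := by
        by_contra h4
        exact h1 (C.near z y h4)
      rw [Finset.mem_Icc] at h3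
      rcases hw with ⟨ha, hb⟩ | ⟨ha, hb⟩ <;> omega

namespace YKb

theorem step_le (C : Chain) (n : ℕ) {x y : ℤ} (hy : y ∈ Finset.Icc (x - 1) (x + 1))
    (h0 : y ≠ 0) : C.p x y * K0 C n y ≤ K0 C (n + 1) x := by
  have h1 : K0 C (n + 1) x = (if n = 0 then C.p x 0 else 0) +
      ∑ z ∈ Finset.Icc (x - 1) (x + 1) \ {0}, C.p x z * K0 C n z := rfl
  rw [h1]
  have h2 : y ∈ Finset.Icc (x - 1) (x + 1) \ {0} := by
    rw [Finset.mem_sdiff, Finset.mem_singleton]
    exact ⟨hy, h0⟩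
  have h3 : C.p x y * K0 C n y ≤ ∑ z ∈ Finset.Icc (x - 1) (x + 1) \ {0}, C.p x z * K0 C n z :=
    Finset.single_le_sum (f := fun z => C.p x z * K0 C n z)
      (fun z _ => mul_nonneg (C.nonneg _ _) (MP_daa227_pr.K0_nonneg C n z)) h2
  have h4 : (0 : ℝ) ≤ (if n = 0 then C.p x 0 else 0) := by
    split_ifs
    · exact C.nonneg _ _
    · exact le_rfl
  linarith

/-- the sum over the neighbours outside of `B` is at most the sum over those different from `0` -/
theorem sum_sub (C : Chain) {B : Finset ℤ} (h0 : (0 : ℤ) ∈ B) (n : ℕ) (z : ℤ) :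
    ∑ w ∈ Finset.Icc (z - 1) (z + 1) \ B, C.p z w * K0 C n w ≤
      ∑ w ∈ Finset.Icc (z - 1) (z + 1) \ {0}, C.p z w * K0 C n w := by
  refine Finset.sum_le_sum_of_subset_of_nonneg ?_
    (fun w _ _ => mul_nonneg (C.nonneg _ _) (MP_daa227_pr.K0_nonneg C n w))
  intro w hw
  rw [Finset.mem_sdiff] at hw ⊢
  refine ⟨hw.1, ?_⟩
  rw [Finset.mem_singleton]
  rintro rfl
  exact hw.2 h0

theorem kb_zero (C : Chain) {B : Finset ℤ} (h0 : (0 : ℤ) ∈ B) :
    ∀ (k : ℕ) (z : ℤ), Kb C B k z 0 ≤ K0 C k z := by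
  intro k
  induction k with
  | zero =>
    intro z
    exact le_rfl
  | succ k ih =>
    intro z
    rw [Kb, K0]
    refine add_le_add le_rfl (le_trans ?_ (sum_sub C h0 k z))
    exact Finset.sum_le_sum (fun w _ => mul_le_mul_of_nonneg_left (ih w) (C.nonneg _ _))

theorem kb_mul (C : Chain) {B : Finset ℤ} (h0 : (0 : ℤ) ∈ B) {y : ℤ} (hy : y ≠ 0) (m : ℕ) :
    ∀ (k : ℕ) (z : ℤ), Kb C B k z y * K0 C m y ≤ K0 C (k + m) z := by
  intro k
  induction k with
  | zero =>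
    intro z
    have h1 : Kb C B 0 z y = 0 := rfl
    rw [h1, zero_mul]
    exact MP_daa227_pr.K0_nonneg C _ z
  | succ k ih =>
    intro z
    have h1 : Kb C B (k + 1) z y = (if k = 0 then C.p z y else 0) +
      ∑ w ∈ Finset.Icc (z - 1) (z + 1) \ B, C.p z w * Kb C B k w y := rfl
    have h3 : k + 1 + m = (k + m) + 1 := by ring
    rw [h3]
    by_cases hk : k = 0
    · subst hk
      have h4 : ∑ w ∈ Finset.Icc (z - 1) (z + 1) \ B, C.p z w * Kb C B 0 w y = 0 := by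
        refine Finset.sum_eq_zero (fun w _ => ?_)
        have h5 : Kb C B 0 w y = 0 := rfl
        rw [h5, mul_zero]
      rw [h1, h4, if_pos rfl, add_zero, zero_add]
      by_cases h6 : y ∈ Finset.Icc (z - 1) (z + 1)
      · exact step_le C m h6 hy
      · rw [C.near z y h6, zero_mul]
        exact MP_daa227_pr.K0_nonneg C _ z
    · rw [h1, if_neg hk, zero_add, Finset.sum_mul]
      have h4 : ∑ w ∈ Finset.Icc (z - 1) (z + 1) \ B, C.p z w * Kb C B k w y * K0 C m y ≤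
          ∑ w ∈ Finset.Icc (z - 1) (z + 1) \ B, C.p z w * K0 C (k + m) w := by
        refine Finset.sum_le_sum (fun w _ => ?_)
        rw [mul_assoc]
        exact mul_le_mul_of_nonneg_left (ih w) (C.nonneg _ _)
      refine le_trans h4 (le_trans (sum_sub C h0 (k + m) z) ?_)
      rw [K0]
      have h5 : (0 : ℝ) ≤ (if k + m = 0 then C.p z 0 else 0) := by
        split_ifs
        · exact C.nonneg _ _
        · exact le_rfl
      linarith

theorem pos_neg (C : Chain) (n : ℕ) : ∃ m, 0 < K0 C m (-((n : ℤ) + 1)) := by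
  induction n with
  | zero =>
    refine ⟨1, ?_⟩
    rw [K0, if_pos rfl]
    have h1 := C.up (-(((0 : ℕ) : ℤ) + 1))
    have h2 : (-(((0 : ℕ) : ℤ) + 1)) + 1 = 0 := by norm_num
    rw [h2] at h1
    have h3 : 0 ≤ ∑ z ∈ Finset.Icc (-(((0 : ℕ) : ℤ) + 1) - 1) (-(((0 : ℕ) : ℤ) + 1) + 1) \ {0},
        C.p (-(((0 : ℕ) : ℤ) + 1)) z * K0 C 0 z :=
      Finset.sum_nonneg (fun w _ => mul_nonneg (C.nonneg _ _) (MP_daa227_pr.K0_nonneg C 0 w))
    linarith
  | succ n ih =>
    obtain ⟨m, hm⟩ := ih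
    refine ⟨m + 1, ?_⟩
    refine MP_daa227_pr.K0_step C m _ (-((n : ℤ) + 1)) ?_ (by omega) hm
    right
    push_cast
    ring

theorem pos_ne (C : Chain) {y : ℤ} (hy : y ≠ 0) : ∃ m, 0 < K0 C m y := by
  rcases lt_or_gt_of_ne hy with h | h
  · obtain ⟨n, hn⟩ : ∃ n : ℕ, y = -((n : ℤ) + 1) := ⟨(-y - 1).toNat, by omega⟩
    rw [hn]
    exact pos_neg C n
  · obtain ⟨n, hn⟩ : ∃ n : ℕ, y = (n : ℤ) + 1 := ⟨(y - 1).toNat, by omega⟩
    rw [hn]
    exact ⟨n + 1, MP_daa227_pr.K0_down C n⟩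

theorem back_aux (C : Chain) {x y : ℤ} (hy : y = x - 1 ∨ y = x + 1) (h0 : y ≠ 0) {d : ℝ} {m : ℕ}
    (hd : 0 < d) (h : ∀ n, K0 C n x * d ≤ K0 C (n + m) 0) :
    ∃ (d' : ℝ) (m' : ℕ), 0 < d' ∧ ∀ n, K0 C n y * d' ≤ K0 C (n + m') 0 := by
  have hp : 0 < C.p x y := by
    rcases hy with rfl | rfl
    · exact C.down x
    · exact C.up x
  have hI : y ∈ Finset.Icc (x - 1) (x + 1) := by
    rw [Finset.mem_Icc]
    omega
  refine ⟨C.p x y * d, m + 1, mul_pos hp hd, fun n => ?_⟩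
  have h1 := mul_le_mul_of_nonneg_right (step_le C n hI h0) hd.le
  have h2 := h (n + 1)
  have h3 : n + (m + 1) = n + 1 + m := by ring
  rw [h3]
  calc K0 C n y * (C.p x y * d) = C.p x y * K0 C n y * d := by ring
    _ ≤ K0 C (n + 1) x * d := h1
    _ ≤ K0 C (n + 1 + m) 0 := h2

theorem base (C : Chain) {y : ℤ} (hy : y = -1 ∨ y = 1) :
    ∃ (d' : ℝ) (m' : ℕ), 0 < d' ∧ ∀ n, K0 C n y * d' ≤ K0 C (n + m') 0 := by
  refine back_aux C (x := 0) (d := 1) (m := 0) (by omega) (by omega) one_pos (fun n => ?_)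
  rw [mul_one, add_zero]

theorem back (C : Chain) {z : ℤ} (hz : z ≠ 0) :
    ∃ (d' : ℝ) (m' : ℕ), 0 < d' ∧ ∀ n, K0 C n z * d' ≤ K0 C (n + m') 0 := by
  have hpos : ∀ j : ℕ, ∃ (d' : ℝ) (m' : ℕ), 0 < d' ∧
      ∀ n, K0 C n ((j : ℤ) + 1) * d' ≤ K0 C (n + m') 0 := by
    intro j
    induction j with
    | zero => exact base C (by omega)
    | succ j ih =>
      obtain ⟨d, m, hd, h⟩ := ih
      exact back_aux C (x := (j : ℤ) + 1) (by push_cast; omega) (by omega) hd h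
  have hneg : ∀ j : ℕ, ∃ (d' : ℝ) (m' : ℕ), 0 < d' ∧
      ∀ n, K0 C n (-((j : ℤ) + 1)) * d' ≤ K0 C (n + m') 0 := by
    intro j
    induction j with
    | zero => exact base C (by omega)
    | succ j ih =>
      obtain ⟨d, m, hd, h⟩ := ih
      exact back_aux C (x := -((j : ℤ) + 1)) (by push_cast; omega) (by omega) hd h
  rcases lt_or_gt_of_ne hz with h | h
  · obtain ⟨n, hn⟩ : ∃ n : ℕ, z = -((n : ℤ) + 1) := ⟨(-z - 1).toNat, by omega⟩
    rw [hn]
    exact hneg n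
  · obtain ⟨n, hn⟩ : ∃ n : ℕ, z = (n : ℤ) + 1 := ⟨(z - 1).toNat, by omega⟩
    rw [hn]
    exact hpos n

end YKb

/-- Bound by the first passage to `0`. Let `0 ∈ B`, `y : ℤ`. With `d = ` the probability of the direct
path from `y` to `0` (length `m = |y|`; `d = 1`, `m = 0` for `y = 0`), `Kb k z y * d ≤ K0 (k + m) z` for all
`z`, `k`: induction on `k` (`K0` and `Kb` satisfy the same recursion, `B ∋ 0`, all terms are
nonnegative; `k = 1`: `K0 (1 + m) z ≥ p z y * K0 m y` for `y ≠ 0`, `K0 m y ≥ d` by induction along the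
direct path). Then for `z ≠ 0` with `d' = ` the probability of the direct path from `0` to `z`,
`K0 n z * d' ≤ K0 (n + |z|) 0` (the same). -/
theorem kb_le (C : Chain) {B : Finset ℤ} (h0 : (0 : ℤ) ∈ B) {z : ℤ} (hz : z ≠ 0) (y : ℤ) :
    ∃ (A : ℝ) (m : ℕ), 0 ≤ A ∧ ∀ k : ℕ, Kb C B k z y ≤ A * K0 C (k + m) 0 := by
  obtain ⟨d', m', hd', hback⟩ := YKb.back C hz
  obtain ⟨d, m, hd, hkb⟩ : ∃ (d : ℝ) (m : ℕ), 0 < d ∧
      ∀ k : ℕ, Kb C B k z y * d ≤ K0 C (k + m) z := by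
    by_cases hy : y = 0
    · subst hy
      refine ⟨1, 0, one_pos, fun k => ?_⟩
      rw [mul_one, add_zero]
      exact YKb.kb_zero C h0 k z
    · obtain ⟨m, hm⟩ := YKb.pos_ne C hy
      exact ⟨K0 C m y, m, hm, fun k => YKb.kb_mul C h0 hy m k z⟩
  refine ⟨(d * d')⁻¹, m + m', by positivity, fun k => ?_⟩
  have h1 := mul_le_mul_of_nonneg_right (hkb k) hd'.le
  have h2 := hback (k + m)
  have h3 : Kb C B k z y * (d * d') ≤ K0 C (k + (m + m')) 0 := by
    rw [← add_assoc k m m']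
    calc Kb C B k z y * (d * d') = Kb C B k z y * d * d' := by ring
      _ ≤ K0 C (k + m) z * d' := h1
      _ ≤ K0 C (k + m + m') 0 := h2
  have h4 : 0 < d * d' := mul_pos hd hd'
  rw [inv_mul_eq_div, le_div_iff₀ h4]
  exact h3

/-- `∑ K0(n)^γ ≤ (∑ n^a K0(n))^γ (∑ n^(-a γ/(1-γ)))^(1-γ)` (Hölder with the exponents `1/γ`,
`1/(1-γ)`), `a γ > 1 - γ`. Elementary variant: `x^γ y^(1-γ) ≤ x + y` for `x, y ≥ 0` (Young,
`Real.geom_mean_le_arith_mean2_weighted`) with `x = n^a K0(n)`, `y = n^(-a γ/(1-γ))`: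
`K0(n)^γ = (n^a K0 n)^γ (n^(-a γ/(1-γ)))^(1-γ) ≤ n^a K0 n + n^(-a γ/(1-γ))` for `n ≥ 1`; both are
summable. -/
theorem k0_rpow_sum (C : Chain) {a γ : ℝ} (ha : 0 < a) (hγ0 : 1 / (1 + a) < γ) (hγ1 : γ < 1)
    (hS : Summable (fun n : ℕ => (n : ℝ) ^ a * K0 C n 0)) :
    Summable (fun n : ℕ => K0 C n 0 ^ γ) := by
  have hγp : 0 < γ := lt_trans (by positivity) hγ0
  have h1g : 0 < 1 - γ := by linarith
  have hexp : -(a * γ / (1 - γ)) < -1 := by
    rw [neg_lt_neg_iff, lt_div_iff₀ h1g]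
    rw [div_lt_iff₀ (by linarith)] at hγ0
    linarith
  have hT : Summable (fun n : ℕ => (n : ℝ) ^ (-(a * γ / (1 - γ)))) :=
    Real.summable_nat_rpow.2 hexp
  refine Summable.of_nonneg_of_le (fun n => Real.rpow_nonneg (MP_daa227_pr.K0_nonneg C n 0) γ)
    (fun n => ?_) ((hS.mul_left γ).add (hT.mul_left (1 - γ)))
  rcases Nat.eq_zero_or_pos n with rfl | hn
  · have h1 : K0 C 0 0 = 0 := rfl
    rw [h1, Real.zero_rpow hγp.ne']
    have h2 : (0 : ℝ) ≤ ((0 : ℕ) : ℝ) ^ (-(a * γ / (1 - γ))) := Real.rpow_nonneg (by simp) _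
    have h3 := mul_nonneg h1g.le h2
    simp only [mul_zero, zero_add]
    exact h3
  · have hn' : (0 : ℝ) < (n : ℝ) := by exact_mod_cast hn
    have hK := MP_daa227_pr.K0_nonneg C n 0
    have h1 := Real.geom_mean_le_arith_mean2_weighted hγp.le h1g.le
      (mul_nonneg (Real.rpow_nonneg hn'.le a) hK)
      (Real.rpow_nonneg hn'.le (-(a * γ / (1 - γ)))) (by ring)
    refine le_trans (le_of_eq ?_) h1
    rw [Real.mul_rpow (Real.rpow_nonneg hn'.le a) hK, ← Real.rpow_mul hn'.le,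
      ← Real.rpow_mul hn'.le]
    have h2 : -(a * γ / (1 - γ)) * (1 - γ) = -(a * γ) := by
      field_simp
    rw [h2, Real.rpow_neg hn'.le]
    have h3 : 0 < (n : ℝ) ^ (a * γ) := Real.rpow_pos_of_pos hn' _
    field_simp

/-- from `kb_le` and a shifted summable sequence -/
theorem kb_rpow_sum (C : Chain) {B : Finset ℤ} (h0 : (0 : ℤ) ∈ B) {z : ℤ} (hz : z ≠ 0) (y : ℤ)
    {γ : ℝ} (hγ : 0 < γ) (hS : Summable (fun n : ℕ => K0 C n 0 ^ γ)) :
    Summable (fun k : ℕ => Kb C B k z y ^ γ) := by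
  obtain ⟨A, m, hA, hle⟩ := kb_le C h0 hz y
  have h1 : Summable (fun k : ℕ => A ^ γ * K0 C (k + m) 0 ^ γ) :=
    ((summable_nat_add_iff (f := fun n : ℕ => K0 C n 0 ^ γ) m).2 hS).mul_left _
  refine Summable.of_nonneg_of_le (fun k => Real.rpow_nonneg (kb_nonneg C B k z y) γ)
    (fun k => ?_) h1
  rw [← Real.mul_rpow hA (MP_daa227_pr.K0_nonneg C _ 0)]
  exact Real.rpow_le_rpow (kb_nonneg C B k z y) (hle k) hγ.le

end

end Pool.Agent.HG
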