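import Pool.Agent.Lib.MP_daa227_pr_HG.YKb

/-!
# MP_daa227_pr, large inverse temperature: excursions that do not reach the potential
-/

namespace Pool.Agent.HG

open MeasureTheory ProbabilityTheory Finset Filter Topology
open MP_daa227_pr (Chain Zk Zf Gk Gf KU K0 Ren shift seqLaw ExpMom DepOn Good GoodW mom)
open Pool.Agent.HZ (Mod Kv lmg)
open Pool.Agent.IOrd (Sys aS cv)

noncomputable section

namespace YRho

private theorem sum_succ (C : Chain) (B : Finset ℤ) (z : ℤ) (N : ℕ) :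
    ∑ k ∈ range (N + 1), Kb C B k z 0 = (if 0 < N then C.p z 0 else 0) +
      ∑ w ∈ Finset.Icc (z - 1) (z + 1) \ B, C.p z w * ∑ k ∈ range N, Kb C B k w 0 := by
  rw [Finset.sum_range_succ']
  have h0 : Kb C B 0 z 0 = 0 := rfl
  rw [h0, add_zero]
  have h1 : ∀ k, Kb C B (k + 1) z 0 = (if k = 0 then C.p z 0 else 0) +
      ∑ w ∈ Finset.Icc (z - 1) (z + 1) \ B, C.p z w * Kb C B k w 0 := fun k => rfl
  simp only [h1]
  rw [Finset.sum_add_distrib]
  congr 1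
  · rw [Finset.sum_ite_eq' (range N) 0 (fun _ => C.p z 0)]
    simp only [Finset.mem_range]
  · rw [Finset.sum_comm]
    refine Finset.sum_congr rfl fun w _ => ?_
    rw [Finset.mul_sum]

private theorem sum_nonneg' (C : Chain) (B : Finset ℤ) (z : ℤ) (N : ℕ) :
    0 ≤ ∑ k ∈ range N, Kb C B k z 0 :=
  Finset.sum_nonneg fun k _ => kb_nonneg C B k z 0

private theorem step_le (C : Chain) {B : Finset ℤ} (h0 : (0 : ℤ) ∈ B) (z : ℤ) (N : ℕ)
    (g : ℤ → ℝ) (hg : ∀ w, 0 ≤ g w) (hg0 : g 0 = 1)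
    (h : ∀ w, w ∉ B → ∑ k ∈ range N, Kb C B k w 0 ≤ g w) :
    ∑ k ∈ range (N + 1), Kb C B k z 0 ≤ ∑ w ∈ Finset.Icc (z - 1) (z + 1), C.p z w * g w := by
  rw [sum_succ]
  have h1 : ∑ w ∈ Finset.Icc (z - 1) (z + 1) \ B, C.p z w * ∑ k ∈ range N, Kb C B k w 0 ≤
      ∑ w ∈ Finset.Icc (z - 1) (z + 1) \ B, C.p z w * g w := by
    refine Finset.sum_le_sum fun w hw => ?_
    exact mul_le_mul_of_nonneg_left (h w (Finset.mem_sdiff.1 hw).2) (C.nonneg _ _)
  have h2 : (if 0 < N then C.p z 0 else 0) ≤ C.p z 0 := by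
    split_ifs
    · exact le_rfl
    · exact C.nonneg _ _
  have h3 : C.p z 0 ≤ ∑ w ∈ Finset.Icc (z - 1) (z + 1) ∩ B, C.p z w * g w := by
    by_cases hz : (0 : ℤ) ∈ Finset.Icc (z - 1) (z + 1)
    · have h4 : C.p z 0 * g 0 ≤ ∑ w ∈ Finset.Icc (z - 1) (z + 1) ∩ B, C.p z w * g w :=
        Finset.single_le_sum (f := fun w => C.p z w * g w)
          (fun w _ => mul_nonneg (C.nonneg _ _) (hg w)) (Finset.mem_inter.2 ⟨hz, h0⟩)
      rwa [hg0, mul_one] at h4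
    · rw [C.near z 0 hz]
      exact Finset.sum_nonneg fun w _ => mul_nonneg (C.nonneg _ _) (hg w)
  have h4 : ∑ w ∈ Finset.Icc (z - 1) (z + 1) ∩ B, C.p z w * g w +
      ∑ w ∈ Finset.Icc (z - 1) (z + 1) \ B, C.p z w * g w =
      ∑ w ∈ Finset.Icc (z - 1) (z + 1), C.p z w * g w :=
    Finset.sum_inter_add_sum_sdiff _ _ _
  linarith

private theorem mass_one (C : Chain) {B : Finset ℤ} (h0 : (0 : ℤ) ∈ B) (z : ℤ) (N : ℕ) :
    ∑ k ∈ range N, Kb C B k z 0 ≤ 1 := by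
  induction N generalizing z with
  | zero => simp
  | succ N ih =>
    have h1 := step_le C h0 z N (fun _ => 1) (fun _ => zero_le_one) rfl (fun w _ => ih w)
    simp only [mul_one] at h1
    rwa [C.sum_one] at h1

private theorem p_pos (C : Chain) (z : ℤ) {σ : ℤ} (hσ : σ = 1 ∨ σ = -1) : 0 < C.p z (z + σ) := by
  rcases hσ with h | h <;> subst h
  · exact C.up z
  · exact C.down z

private theorem step_lt (C : Chain) {B : Finset ℤ} (h0 : (0 : ℤ) ∈ B) {σ : ℤ}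
    (hσ : σ = 1 ∨ σ = -1) (z : ℤ) (hz : z + σ ≠ 0) (c : ℝ) (hc0 : 0 ≤ c) (hc : c < 1)
    (h : z + σ ∉ B → ∀ N : ℕ, ∑ k ∈ range N, Kb C B k (z + σ) 0 ≤ c) :
    ∃ c' : ℝ, 0 ≤ c' ∧ c' < 1 ∧ ∀ N : ℕ, ∑ k ∈ range N, Kb C B k z 0 ≤ c' := by
  have hp := p_pos C z hσ
  have hmem : z + σ ∈ Finset.Icc (z - 1) (z + 1) := by
    rw [Finset.mem_Icc]
    rcases hσ with h | h <;> subst h <;> omega
  have hp1 : C.p z (z + σ) ≤ 1 := by
    have h1 : C.p z (z + σ) ≤ ∑ w ∈ Finset.Icc (z - 1) (z + 1), C.p z w :=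
      Finset.single_le_sum (f := fun w => C.p z w) (fun w _ => C.nonneg _ _) hmem
    rwa [C.sum_one] at h1
  have hsum : ∑ w ∈ Finset.Icc (z - 1) (z + 1), C.p z w * (if w = z + σ then c else 1) =
      1 - C.p z (z + σ) * (1 - c) := by
    have h1 : ∀ w ∈ Finset.Icc (z - 1) (z + 1), C.p z w * (if w = z + σ then c else 1) =
        C.p z w - (if w = z + σ then C.p z w * (1 - c) else 0) := by
      intro w _
      split_ifs <;> ring
    rw [Finset.sum_congr rfl h1, Finset.sum_sub_distrib, C.sum_one, Finset.sum_ite_eq',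
      if_pos hmem]
  refine ⟨1 - C.p z (z + σ) * (1 - c), ?_, ?_, ?_⟩
  · nlinarith
  · have : 0 < C.p z (z + σ) * (1 - c) := mul_pos hp (by linarith)
    linarith
  · intro N
    rcases Nat.eq_zero_or_pos N with hN | hN
    · subst hN
      simp only [Finset.range_zero, Finset.sum_empty]
      nlinarith
    · obtain ⟨N', rfl⟩ := Nat.exists_eq_succ_of_ne_zero hN.ne'
      rw [← hsum]
      refine step_le C h0 z N' (fun w => if w = z + σ then c else 1) ?_ ?_ ?_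
      · intro w
        split_ifs
        · exact hc0
        · exact zero_le_one
      · rw [if_neg (fun h => hz h.symm)]
      · intro w hw
        split_ifs with h1
        · subst h1
          exact h hw N'
        · exact mass_one C h0 w N'

private theorem chain_lt (C : Chain) {B : Finset ℤ} (h0 : (0 : ℤ) ∈ B) {σ : ℤ}
    (hσ : σ = 1 ∨ σ = -1) {x : ℤ} (hx : x ∈ B) (n : ℕ) : ∀ z : ℤ, z + σ * (n + 1) = x →
    (∀ i : ℕ, z + σ * (i + 1) ≠ 0) →
    ∃ c : ℝ, 0 ≤ c ∧ c < 1 ∧ ∀ N : ℕ, ∑ k ∈ range N, Kb C B k z 0 ≤ c := by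
  induction n with
  | zero =>
    intro z hz hi
    have h1 : z + σ = x := by simpa using hz
    have h2 : z + σ ≠ 0 := by simpa using hi 0
    exact step_lt C h0 hσ z h2 0 le_rfl zero_lt_one (fun h => absurd (h1 ▸ hx) h)
  | succ n ih =>
    intro z hz hi
    have h1 : (z + σ) + σ * (n + 1) = x := by
      rw [← hz]
      push_cast
      ring
    have h2 : z + σ ≠ 0 := by simpa using hi 0
    obtain ⟨c, hc0, hc1, hc⟩ := ih (z + σ) h1 (by
      intro i hi'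
      apply hi (i + 1)
      rw [← hi']
      push_cast
      ring)
    exact step_lt C h0 hσ z h2 c hc0 hc1 (fun _ => hc)

end YRho

/-- Let `x ∈ B`, `x > 0`. Put `u z = 1 - d z` for `1 ≤ z < x`, `d z = ∏_{z ≤ j < x} p(j, j+1)`, and
`u z = 1` otherwise. Then `p z 0 + ∑_{w ∈ Icc (z-1) (z+1) \ B} p z w u w ≤ u z` for all `z` (mass `1` of the step): for
`1 ≤ z < x` the neighbour `z + 1` is not summed if it is in `B` (for instance if it is `x`), and
contributes `p (1 - d (z+1))` otherwise. So `∑_{k < N} Kb k z 0 ≤ u z` by induction on `N`, and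
`∑ Kb k 1 0 ≤ 1 - d 1 < 1` for `x > 1`. For `1 ∈ B` there is nothing to prove. For all `z`,
`∑_{k < N} Kb k z 0 ≤ 1` (`0 ∈ B`, same induction with `u = 1`). Mirror image (`HZ.cneg`, or repeat the
argument) for `x < 0`. -/
theorem kb_mass (C : Chain) {B : Finset ℤ} (h0 : (0 : ℤ) ∈ B) : (∀ (z : ℤ) (N : ℕ),
    ∑ k ∈ range N, Kb C B k z 0 ≤ 1) ∧
    (∀ x ∈ B, 1 < x → ∃ c : ℝ, c < 1 ∧ ∀ N : ℕ, ∑ k ∈ range N, Kb C B k 1 0 ≤ c) ∧
    ∀ x ∈ B, x < -1 → ∃ c : ℝ, c < 1 ∧ ∀ N : ℕ, ∑ k ∈ range N, Kb C B k (-1) 0 ≤ c := by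
  refine ⟨fun z N => YRho.mass_one C h0 z N, ?_, ?_⟩
  · intro x hx hx1
    obtain ⟨n, hn⟩ := Int.eq_ofNat_of_zero_le (show 0 ≤ x - 2 by omega)
    obtain ⟨c, _, hc1, hc⟩ := YRho.chain_lt C h0 (Or.inl rfl) hx n 1 (by omega)
      (fun i => by omega)
    exact ⟨c, hc1, hc⟩
  · intro x hx hx1
    obtain ⟨n, hn⟩ := Int.eq_ofNat_of_zero_le (show 0 ≤ -x - 2 by omega)
    obtain ⟨c, _, hc1, hc⟩ := YRho.chain_lt C h0 (Or.inr rfl) hx n (-1) (by omega)
      (fun i => by omega)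
    exact ⟨c, hc1, hc⟩

/-- As `γ → 1` the left side tends to `p 0 0 + ∑_{z = ±1, z ∉ B} p 0 z ∑_k Kb k z 0` (dominated
convergence: `Kb^γ ≤ Kb^γ₀` for `Kb ≤ 1`, `γ ≥ γ₀`; `tendsto_tsum_of_dominated_convergence`), and this is
less than one: `p 0 (-1) + p 0 0 + p 0 1 = 1`, `p 0 (±1) > 0`, `∑_k Kb k z 0 ≤ 1`, and for `x > 0` either
`1 ∈ B` (the term is missing) or `x > 1` and `kb_mass`; the same for `x < 0`. -/
theorem rho_lt (C : Chain) {B : Finset ℤ} (h0 : (0 : ℤ) ∈ B) {x : ℤ} (hx : x ∈ B) (hx0 : x ≠ 0)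
    {γ₀ : ℝ} (hγ0 : 0 < γ₀) (hγ1 : γ₀ < 1) (hS : Summable (fun n : ℕ => K0 C n 0 ^ γ₀)) :
    ∃ γ₁ : ℝ, γ₁ < 1 ∧ γ₀ ≤ γ₁ ∧ ∀ γ : ℝ, γ₁ ≤ γ → γ < 1 →
      C.p 0 0 ^ γ + ∑ z ∈ ({1, -1} : Finset ℤ) \ B, C.p 0 z ^ γ * ∑' k : ℕ, Kb C B k z 0 ^ γ < 1 := by
  obtain ⟨hm1, hm2, hm3⟩ := kb_mass C h0
  have hKle : ∀ k z, Kb C B k z 0 ≤ 1 := by
    intro k z
    refine le_trans ?_ (hm1 z (k + 1))
    exact Finset.single_le_sum (f := fun k => Kb C B k z 0) (fun k _ => kb_nonneg C B k z 0)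
      (Finset.mem_range.2 (Nat.lt_succ_self k))
  have hrp : ∀ a : ℝ, Tendsto (fun γ : ℝ => a ^ γ) (𝓝[<] 1) (𝓝 a) := by
    intro a
    have h1 : ContinuousAt (fun γ : ℝ => a ^ γ) 1 := Real.continuousAt_const_rpow' one_ne_zero
    have h2 := h1.tendsto
    rw [Real.rpow_one] at h2
    exact h2.mono_left nhdsWithin_le_nhds
  have hT : ∀ z : ℤ, z ≠ 0 → Tendsto (fun γ : ℝ => ∑' k : ℕ, Kb C B k z 0 ^ γ) (𝓝[<] 1)
      (𝓝 (∑' k : ℕ, Kb C B k z 0)) := by
    intro z hz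
    refine tendsto_tsum_of_dominated_convergence (bound := fun k => Kb C B k z 0 ^ γ₀)
      (kb_rpow_sum C h0 hz 0 hγ0 hS) (fun k => hrp _) ?_
    filter_upwards [Ioo_mem_nhdsLT hγ1] with γ hγ k
    rw [Real.norm_of_nonneg (Real.rpow_nonneg (kb_nonneg C B k z 0) _)]
    exact Real.rpow_le_rpow_of_exponent_ge' (kb_nonneg C B k z 0) (hKle k z) hγ0.le hγ.1.le
  have hlim : Tendsto (fun γ : ℝ => C.p 0 0 ^ γ + ∑ z ∈ ({1, -1} : Finset ℤ) \ B,
      C.p 0 z ^ γ * ∑' k : ℕ, Kb C B k z 0 ^ γ) (𝓝[<] 1)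
      (𝓝 (C.p 0 0 + ∑ z ∈ ({1, -1} : Finset ℤ) \ B, C.p 0 z * ∑' k : ℕ, Kb C B k z 0)) := by
    refine (hrp _).add (tendsto_finsetSum _ fun z hz => (hrp _).mul (hT z ?_))
    have h1 := (Finset.mem_sdiff.1 hz).2
    intro h2
    rw [h2] at h1
    exact h1 h0
  have hts : ∀ z c, (∀ N : ℕ, ∑ k ∈ range N, Kb C B k z 0 ≤ c) →
      ∑' k : ℕ, Kb C B k z 0 ≤ c := by
    intro z c h
    exact Real.tsum_le_of_sum_range_le (fun k => kb_nonneg C B k z 0) h
  have hts0 : ∀ z, 0 ≤ ∑' k : ℕ, Kb C B k z 0 := fun z => tsum_nonneg fun k =>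
    kb_nonneg C B k z 0
  set b : ℤ → ℝ := fun z => if z ∈ B then 0 else ∑' k : ℕ, Kb C B k z 0 with hb
  have hb1 : ∀ z, b z ≤ 1 := by
    intro z
    simp only [hb]
    split_ifs
    · exact zero_le_one
    · exact hts z 1 (hm1 z)
  have hsum : ∑ z ∈ ({1, -1} : Finset ℤ) \ B, C.p 0 z * ∑' k : ℕ, Kb C B k z 0 =
      C.p 0 1 * b 1 + C.p 0 (-1) * b (-1) := by
    have h1 : ∑ z ∈ ({1, -1} : Finset ℤ), C.p 0 z * b z =
        C.p 0 1 * b 1 + C.p 0 (-1) * b (-1) := Finset.sum_pair (by norm_num)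
    rw [← h1, Finset.sdiff_eq_filter, Finset.sum_filter]
    refine Finset.sum_congr rfl fun z _ => ?_
    simp only [hb]
    split_ifs <;> simp
  have hone : C.p 0 (-1) + C.p 0 0 + C.p 0 1 = 1 := by
    have h1 := C.sum_one 0
    have h2 : Finset.Icc ((0 : ℤ) - 1) (0 + 1) = {-1, 0, 1} := by decide
    rw [h2, Finset.sum_insert (by decide), Finset.sum_insert (by decide),
      Finset.sum_singleton] at h1
    linarith
  have hup : 0 < C.p 0 1 := C.up 0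
  have hdn : 0 < C.p 0 (-1) := C.down 0
  have hlt : C.p 0 0 + ∑ z ∈ ({1, -1} : Finset ℤ) \ B, C.p 0 z * ∑' k : ℕ, Kb C B k z 0 < 1 := by
    rw [hsum]
    rcases lt_or_gt_of_ne hx0 with hx1 | hx1
    · have h2 : b (-1) < 1 := by
        simp only [hb]
        split_ifs with h3
        · exact zero_lt_one
        · have h4 : x < -1 := by
            rcases lt_or_eq_of_le (show x ≤ -1 by omega) with h5 | h5
            · exact h5
            · exact absurd (h5 ▸ hx) h3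
          obtain ⟨c, hc, h6⟩ := hm3 x hx h4
          exact (hts _ c h6).trans_lt hc
      have h3 := mul_le_mul_of_nonneg_left (hb1 1) hup.le
      have h4 := mul_lt_mul_of_pos_left h2 hdn
      linarith
    · have h2 : b 1 < 1 := by
        simp only [hb]
        split_ifs with h3
        · exact zero_lt_one
        · have h4 : 1 < x := by
            rcases lt_or_eq_of_le (show 1 ≤ x by omega) with h5 | h5
            · exact h5
            · exact absurd (h5 ▸ hx) h3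
          obtain ⟨c, hc, h6⟩ := hm2 x hx h4
          exact (hts _ c h6).trans_lt hc
      have h3 := mul_le_mul_of_nonneg_left (hb1 (-1)) hdn.le
      have h4 := mul_lt_mul_of_pos_left h2 hup
      linarith
  have hev := hlim.eventually (gt_mem_nhds hlt)
  obtain ⟨l, hl, hsub⟩ := (mem_nhdsLT_iff_exists_Ioo_subset).1 hev
  refine ⟨max γ₀ ((l + 1) / 2), ?_, le_max_left _ _, ?_⟩
  · have : l < 1 := hl
    exact max_lt hγ1 (by linarith)
  · intro γ h1 h2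
    apply hsub
    have h3 : l < 1 := hl
    have h4 := (le_max_right γ₀ ((l + 1) / 2)).trans h1
    exact ⟨by linarith, h2⟩

end

end Pool.Agent.HG
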