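import Pool.Agent.Lib.MP_daa227_pr_HG.TLmg
import Pool.Agent.Lib.MP_daa227_pr_HZ.Lmg

/-!
# MP_daa227_pr, large inverse temperature: the logarithmic moment generating function
-/

namespace Pool.Agent.HG

open MeasureTheory ProbabilityTheory Finset Filter Topology
open MP_daa227_pr (Chain Zk Zf Gk Gf KU K0 Ren shift seqLaw ExpMom DepOn Good GoodW mom)
open Pool.Agent.HZ (Mod Kv lmg)
open Pool.Agent.IOrd (Sys aS cv)

noncomputable section

/-- convexity and `lmg 0 = 0` -/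
theorem dg_nonneg {μ : Measure ℝ} [IsProbabilityMeasure μ] (hμ : ExpMom μ) {γ : ℝ} (h0 : 0 ≤ γ)
    (h1 : γ ≤ 1) (t : ℝ) : lmg μ (γ * t) ≤ γ * lmg μ t := by
  have hc := (HZ.lmg_convex hμ).2
  have h2 := @hc 0 (Set.mem_univ _) t (Set.mem_univ _) (1 - γ) γ (by linarith) h0 (by ring)
  simp only [smul_eq_mul, mul_zero, zero_add] at h2
  rw [HZ.lmg_zero, mul_zero, zero_add] at h2
  exact h2

namespace YThr

theorem half_bd {μ : Measure ℝ} [IsProbabilityMeasure μ] (hμ : ExpMom μ) {γ : ℝ} (h0 : 0 < γ)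
    (h1 : γ < 1) (t : ℝ) (ht : 0 ≤ lmg μ t - 2 * lmg μ (t / 2)) :
    min γ (1 - γ) * (lmg μ t - 2 * lmg μ (t / 2)) ≤ γ * lmg μ t - lmg μ (γ * t) := by
  rcases le_or_gt γ (1 / 2) with hγ | hγ
  · have h2 := dg_nonneg hμ (γ := 2 * γ) (by linarith) (by linarith) (t / 2)
    have e : 2 * γ * (t / 2) = γ * t := by ring
    rw [e] at h2
    have h3 := mul_le_mul_of_nonneg_right (min_le_left γ (1 - γ)) ht
    linarith
  · have hc := (HZ.lmg_convex hμ).2
    have h2 := @hc (t / 2) (Set.mem_univ _) t (Set.mem_univ _) (2 - 2 * γ) (2 * γ - 1)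
      (by linarith) (by linarith) (by ring)
    have e : (2 - 2 * γ) • (t / 2) + (2 * γ - 1) • t = γ * t := by
      simp only [smul_eq_mul]
      ring
    rw [e] at h2
    simp only [smul_eq_mul] at h2
    have h3 := mul_le_mul_of_nonneg_right (min_le_right γ (1 - γ)) ht
    linarith

theorem sup_line {μ : Measure ℝ} [IsProbabilityMeasure μ] (hμ : ExpMom μ) {m s : ℝ}
    (hm : 0 < m) (hs : m ≤ s) (b : ℝ) : s * lmg μ (b * m) ≤ m * lmg μ (b * s) := by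
  have hs0 : 0 < s := hm.trans_le hs
  have h2 := dg_nonneg hμ (γ := m / s) (by positivity) (by rw [div_le_one hs0]; exact hs) (b * s)
  have e : m / s * (b * s) = b * m := by
    field_simp
  rw [e] at h2
  have h3 := mul_le_mul_of_nonneg_left h2 hs0.le
  have e2 : s * (m / s * lmg μ (b * s)) = m * lmg μ (b * s) := by
    field_simp
  rwa [e2] at h3

end YThr

/-- `D(t) = γ lmg t - lmg (γ t) ≥ min γ (1 - γ) * (lmg t - 2 lmg (t/2))`: for `γ ≤ 1/2`,
`γ t = 2 γ (t/2)`, so `lmg (γ t) ≤ 2 γ lmg (t/2)`; for `γ > 1/2`, `γ t = (2 - 2γ) (t/2) + (2γ - 1) t` and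
convexity. Then `lmg_big` (the bound holds for all `t` from some point on, `t = b s ≥ b c₁`). -/
theorem dg_big {μ : Measure ℝ} [IsProbabilityMeasure μ] (hμ : ExpMom μ)
    (hat : ∀ ε : ℝ, 0 < ε → ∃ A : ℝ, 0 < μ (Set.Ioi A) ∧ μ (Set.Ioi A) ≤ ENNReal.ofReal ε)
    {γ c₁ : ℝ} (h0 : 0 < γ) (h1 : γ < 1) (hc : 0 < c₁) (K : ℝ) :
    ∀ᶠ b : ℝ in atTop, ∀ s : ℝ, c₁ ≤ s → K ≤ γ * lmg μ (b * s) - lmg μ (γ * (b * s)) := by
  have hw : 0 < min γ (1 - γ) := lt_min h0 (by linarith)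
  obtain ⟨T, hT⟩ := eventually_atTop.1 (lmg_big hμ hat (|K| / min γ (1 - γ)))
  filter_upwards [eventually_ge_atTop (T / c₁), eventually_ge_atTop 0] with b hb1 hb0 s hs
  have hbs : T ≤ b * s := by
    rw [div_le_iff₀ hc] at hb1
    exact hb1.trans (mul_le_mul_of_nonneg_left hs hb0)
  have h2 := hT (b * s) hbs
  have h3 : 0 ≤ |K| / min γ (1 - γ) := div_nonneg (abs_nonneg _) hw.le
  have h4 := YThr.half_bd hμ h0 h1 (b * s) (h3.trans h2.le)
  have h5 := mul_le_mul_of_nonneg_left h2.le hw.le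
  rw [mul_div_cancel₀ _ hw.ne'] at h5
  exact (le_abs_self K).trans (h5.trans h4)

/-- Let `S = s₁ + s₂ ≥ m`. Convexity and `lmg 0 = 0`: `lmg (b s_i) ≥ (s_i / m) lmg (b m)` for
`s_i ≥ m` or `s_i = 0`. So `H S ≥ (S / m) lmg (b m) - E` and `H ≥ lmg (b m) / m - E / m` (`E ≥ 0`). For
`0 ≤ s ≤ m / 2`, `lmg (b s) ≤ (s / (m / 2)) lmg (b m / 2)`, so `lmg (b s) - (H - 1) s ≤
(s / m) (2 lmg (b m / 2) - lmg (b m) + E + m) ≤ 0` if `lmg (b m) - 2 lmg (b m / 2) ≥ E + m`, true for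
large `b` by `lmg_big` (composed with `b ↦ b m`). -/
theorem thr_big {μ : Measure ℝ} [IsProbabilityMeasure μ] (hμ : ExpMom μ)
    (hat : ∀ ε : ℝ, 0 < ε → ∃ A : ℝ, 0 < μ (Set.Ioi A) ∧ μ (Set.Ioi A) ≤ ENNReal.ofReal ε)
    {m E : ℝ} (hm : 0 < m) (hE : 0 ≤ E) :
    ∀ᶠ b : ℝ in atTop, ∀ s₁ s₂ H : ℝ, m ≤ s₁ → (s₂ = 0 ∨ m ≤ s₂) →
      lmg μ (b * s₁) + lmg μ (b * s₂) - H * (s₁ + s₂) ≤ E →
      ∀ s : ℝ, 0 ≤ s → s ≤ m / 2 → lmg μ (b * s) - (H - 1) * s ≤ 0 := by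
  have ht : Tendsto (fun b : ℝ => b * m) atTop atTop := tendsto_id.atTop_mul_const hm
  filter_upwards [ht.eventually (lmg_big hμ hat (E + m))] with b hb s₁ s₂ H hs1 hs2 hH s hs0 hsm
  have k1 := YThr.sup_line hμ hm hs1 b
  have k2 : s₂ * lmg μ (b * m) ≤ m * lmg μ (b * s₂) := by
    rcases hs2 with rfl | hs2
    · rw [zero_mul, mul_zero, HZ.lmg_zero, mul_zero]
    · exact YThr.sup_line hμ hm hs2 b
  have hs2' : 0 ≤ s₂ := by
    rcases hs2 with rfl | hs2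
    · exact le_rfl
    · exact hm.le.trans hs2
  have k3 : (s₁ + s₂) * (lmg μ (b * m) - m * H) ≤ m * E := by
    have k4 := mul_le_mul_of_nonneg_left hH hm.le
    nlinarith
  have k5 : lmg μ (b * m) - m * H ≤ E := by
    by_contra hcon
    push Not at hcon
    have k6 : m * E < m * (lmg μ (b * m) - m * H) := mul_lt_mul_of_pos_left hcon hm
    have k7 : m * (lmg μ (b * m) - m * H) ≤ (s₁ + s₂) * (lmg μ (b * m) - m * H) :=
      mul_le_mul_of_nonneg_right (by linarith) (hE.trans hcon.le)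
    linarith
  have k8 : m * lmg μ (b * s) ≤ 2 * s * lmg μ (b * m / 2) := by
    have h2 := dg_nonneg hμ (γ := 2 * s / m) (by positivity)
      (by rw [div_le_one hm]; linarith) (b * m / 2)
    have e : 2 * s / m * (b * m / 2) = b * s := by
      field_simp
    rw [e] at h2
    have h3 := mul_le_mul_of_nonneg_left h2 hm.le
    have e2 : m * (2 * s / m * lmg μ (b * m / 2)) = 2 * s * lmg μ (b * m / 2) := by
      field_simp
    rwa [e2] at h3
  have k9 : m * (lmg μ (b * s) - (H - 1) * s) ≤ 0 := by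
    have k10 := mul_le_mul_of_nonneg_left k5 hs0
    have k11 := mul_le_mul_of_nonneg_left hb.le hs0
    nlinarith
  by_contra hcon
  push Not at hcon
  have := mul_pos hm hcon
  linarith

end

end Pool.Agent.HG
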