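import Pool.Agent.Lib.MP_daa227_pr_HG.YGeo
import Pool.Agent.Lib.MP_daa227_pr_HG.YCyc

/-!
# MP_daa227_pr, large inverse temperature: the test function
-/

namespace Pool.Agent.HG

open MeasureTheory ProbabilityTheory Finset Filter Topology
open MP_daa227_pr (Chain Zk Zf Gk Gf KU K0 Ren shift seqLaw ExpMom DepOn Good GoodW mom)
open Pool.Agent.HZ (Mod Kv lmg)
open Pool.Agent.IOrd (Sys aS cv)

noncomputable section

/-- the weight of a site -/
def Te (γ : ℝ) (φ v D : ℤ → ℝ) (z : ℤ) : ℝ := Real.exp (γ * (v z + φ z) - D z)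

namespace YVer

theorem sg_nonneg (C : Chain) (B : Finset ℤ) (γ : ℝ) (z y : ℤ) :
    0 ≤ ∑' k : ℕ, Kb C B k z y ^ γ :=
  tsum_nonneg fun k => Real.rpow_nonneg (kb_nonneg C B k z y) γ

theorem sg_ne {C : Chain} {B : Finset ℤ} {γ : ℝ} (hγ : 0 < γ) {z y : ℤ}
    (h : ∑' k : ℕ, Kb C B k z y ^ γ ≠ 0) : ∃ k, Kb C B k z y ≠ 0 := by
  by_contra hc
  push Not at hc
  refine h ?_
  have h1 : ∀ k : ℕ, Kb C B k z y ^ γ = 0 := fun k => by rw [hc k, Real.zero_rpow hγ.ne']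
  rw [tsum_congr h1, tsum_zero]

theorem te_eq (γ : ℝ) (φ v D : ℤ → ℝ) (z : ℤ) :
    Te γ φ v D z = Real.exp (v z) ^ γ * Real.exp (γ * φ z - D z) := by
  rw [Te, ← Real.exp_mul, ← Real.exp_add]
  congr 1
  ring

theorem te_nonneg (γ : ℝ) (φ v D : ℤ → ℝ) (z : ℤ) : 0 ≤ Te γ φ v D z := (Real.exp_pos _).le

theorem te_one {γ : ℝ} {φ v D : ℤ → ℝ} {z : ℤ} (hγ : 0 ≤ γ) (h : v z + φ z ≤ 0)
    (hD : 0 ≤ D z) : Te γ φ v D z ≤ 1 := by
  rw [Te, Real.exp_le_one_iff]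
  have h1 := mul_nonpos_of_nonneg_of_nonpos hγ h
  linarith

theorem estA (C : Chain) {γ : ℝ} {φ v D s : ℤ → ℝ} {x z : ℤ} (hγ : 0 ≤ γ) (hs : 0 ≤ s z)
    (h : C.p x z * Real.exp (v z) * s z ≤ s x) :
    C.p x z ^ γ * Te γ φ v D z * s z ^ γ ≤ s x ^ γ * Real.exp (γ * φ z - D z) := by
  have h0 : 0 ≤ C.p x z * Real.exp (v z) := mul_nonneg (C.nonneg _ _) (Real.exp_pos _).le
  have h1 : C.p x z ^ γ * Te γ φ v D z * s z ^ γ =
      (C.p x z * Real.exp (v z) * s z) ^ γ * Real.exp (γ * φ z - D z) := by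
    rw [te_eq, Real.mul_rpow h0 hs, Real.mul_rpow (C.nonneg _ _) (Real.exp_pos _).le]
    ring
  rw [h1]
  exact mul_le_mul_of_nonneg_right (Real.rpow_le_rpow (mul_nonneg h0 hs) h hγ)
    (Real.exp_pos _).le

theorem estB {γ : ℝ} {φ v D s : ℤ → ℝ} {z y : ℤ} {σ d : ℝ} (hγ : 0 ≤ γ) (hσ : 0 ≤ σ)
    (hd : 0 < d) (hs : 0 ≤ s y) (h : σ ≠ 0 → Real.exp (v y) * s y * d ≤ s z) :
    σ * Te γ φ v D y * s y ^ γ ≤ σ * d ^ (-γ) * Real.exp (γ * φ y - D y) * s z ^ γ := by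
  by_cases h0 : σ = 0
  · rw [h0]
    simp
  · have h1 := h h0
    have h2 : 0 ≤ Real.exp (v y) * s y := mul_nonneg (Real.exp_pos _).le hs
    have h3 := Real.rpow_le_rpow (mul_nonneg h2 hd.le) h1 hγ
    rw [Real.mul_rpow h2 hd.le, Real.mul_rpow (Real.exp_pos _).le hs] at h3
    have h4 : d ^ γ * d ^ (-γ) = 1 := by
      rw [← Real.rpow_add hd, add_neg_cancel, Real.rpow_zero]
    have h5 : Real.exp (v y) ^ γ * s y ^ γ ≤ s z ^ γ * d ^ (-γ) := by
      calc Real.exp (v y) ^ γ * s y ^ γ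
          = Real.exp (v y) ^ γ * s y ^ γ * d ^ γ * d ^ (-γ) := by rw [mul_assoc _ _ (d ^ (-γ)), h4,
            mul_one]
        _ ≤ s z ^ γ * d ^ (-γ) := mul_le_mul_of_nonneg_right h3 (Real.rpow_nonneg hd.le _)
    rw [te_eq]
    have h6 : 0 ≤ σ * Real.exp (γ * φ y - D y) := mul_nonneg hσ (Real.exp_pos _).le
    have h7 := mul_le_mul_of_nonneg_left h5 h6
    calc σ * (Real.exp (v y) ^ γ * Real.exp (γ * φ y - D y)) * s y ^ γ
        = σ * Real.exp (γ * φ y - D y) * (Real.exp (v y) ^ γ * s y ^ γ) := by ring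
      _ ≤ σ * Real.exp (γ * φ y - D y) * (s z ^ γ * d ^ (-γ)) := h7
      _ = _ := by ring

theorem estC (C : Chain) {γ Φ : ℝ} {φ v D s : ℤ → ℝ} {x z y : ℤ} {σ d : ℝ} (hγ : 0 ≤ γ)
    (hσ : 0 ≤ σ) (hd : 0 < d) (hsy : 0 ≤ s y) (hsz : 0 ≤ s z) (hsx : 0 ≤ s x)
    (h : σ ≠ 0 → Real.exp (v y) * s y * d ≤ s z)
    (h' : C.p x z * Real.exp (v z) * s z ≤ s x) (hz : γ * φ z - D z ≤ Φ) :
    C.p x z ^ γ * Te γ φ v D z * (σ * Te γ φ v D y * s y ^ γ) ≤
      s x ^ γ * (σ * d ^ (-γ)) * (Real.exp Φ * Real.exp (γ * φ y - D y)) := by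
  have h1 := estB (φ := φ) (D := D) hγ hσ hd hsy h
  have h2 := estA (φ := φ) (D := D) C hγ hsz h'
  have h3 : 0 ≤ σ * d ^ (-γ) * Real.exp (γ * φ y - D y) :=
    mul_nonneg (mul_nonneg hσ (Real.rpow_nonneg hd.le _)) (Real.exp_pos _).le
  have h4 : 0 ≤ C.p x z ^ γ * Te γ φ v D z :=
    mul_nonneg (Real.rpow_nonneg (C.nonneg _ _) _) (te_nonneg _ _ _ _ _)
  calc C.p x z ^ γ * Te γ φ v D z * (σ * Te γ φ v D y * s y ^ γ)
      ≤ C.p x z ^ γ * Te γ φ v D z *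
          (σ * d ^ (-γ) * Real.exp (γ * φ y - D y) * s z ^ γ) := mul_le_mul_of_nonneg_left h1 h4
    _ = C.p x z ^ γ * Te γ φ v D z * s z ^ γ * (σ * d ^ (-γ) * Real.exp (γ * φ y - D y)) := by
        ring
    _ ≤ s x ^ γ * Real.exp (γ * φ z - D z) * (σ * d ^ (-γ) * Real.exp (γ * φ y - D y)) :=
        mul_le_mul_of_nonneg_right h2 h3
    _ ≤ s x ^ γ * Real.exp Φ * (σ * d ^ (-γ) * Real.exp (γ * φ y - D y)) :=
        mul_le_mul_of_nonneg_right (mul_le_mul_of_nonneg_left (Real.exp_le_exp.2 hz)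
          (Real.rpow_nonneg hsx _)) h3
    _ = _ := by ring

theorem sumG {x : ℤ} {a : ℤ → ℝ} {A c E1 E2 : ℝ}
    (hA : ∑ z ∈ Finset.Icc (x - 1) (x + 1), a z ≤ A) (hc : 0 ≤ c) (hE : 0 ≤ E2) :
    ∑ z ∈ Finset.Icc (x - 1) (x + 1), c * (E1 + a z * E2) ≤ c * (3 * E1 + A * E2) := by
  rw [← Finset.mul_sum, Finset.sum_add_distrib, Finset.sum_const, Int.card_Icc,
    ← Finset.sum_mul]
  have e : (x + 1 + 1 - (x - 1)).toNat = 3 := by omega
  rw [e]
  refine mul_le_mul_of_nonneg_left ?_ hc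
  rw [nsmul_eq_mul]
  have h := mul_le_mul_of_nonneg_right hA hE
  push_cast
  linarith

end YVer

/-- For the relevant `z ∈ U`, `y ∈ B` there is `d z y > 0` with `e^(v y) s y d ≤ s z`: if `y` is a
neighbour of `z` take `p z y` (gauge property), else `gauge_dir` with `geo.gap` (`v w = 0` where
`φ w = 0`); `d z y = 1` for all other pairs. `d` does not depend on `v`, `s`. -/
theorem rel_dir (C : Chain) {φ : ℤ → ℝ} {U : ℤ → Prop} {B : Finset ℤ} (hG : Geo φ U B) :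
    ∃ d : ℤ → ℤ → ℝ, (∀ z y, 0 < d z y) ∧ ∀ v s : ℤ → ℝ, (∀ z, φ z = 0 → v z = 0) →
      (∀ x : ℤ, ∀ z ∈ Finset.Icc (x - 1) (x + 1), C.p x z * Real.exp (v z) * s z ≤ s x) →
      ∀ z, U z → ∀ x, ¬ U x → x ∈ Finset.Icc (z - 1) (z + 1) → ∀ y ∈ B, ∀ k : ℕ,
        Kb C B k z y ≠ 0 → Real.exp (v y) * s y * d z y ≤ s z := by
  classical
  have hex : ∀ z y : ℤ, ∃ d : ℝ, 0 < d ∧ (z ≠ y → ∀ v s : ℤ → ℝ,
      (∀ x : ℤ, ∀ z ∈ Finset.Icc (x - 1) (x + 1), C.p x z * Real.exp (v z) * s z ≤ s x) →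
      (∀ w, (z < w ∧ w < y) ∨ (y < w ∧ w < z) → v w = 0) →
      Real.exp (v y) * s y * d ≤ s z) := by
    intro z y
    by_cases h : z = y
    · exact ⟨1, one_pos, fun h' => absurd h h'⟩
    · obtain ⟨d, hd, h1⟩ := gauge_dir C h
      exact ⟨d, hd, fun _ => h1⟩
  choose d hd0 hd using hex
  refine ⟨d, hd0, fun v s hv hs z hz x hx hxz y hy k hk => ?_⟩
  have hzy : z ≠ y := by
    rintro rfl
    exact hG.bu z hy hz
  refine hd z y hzy v s hs fun w hw => ?_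
  rcases hG.gap z hz x hx hxz y hy (kb_between C B k z y hk) with h | h
  · subst h
    rw [Finset.mem_Icc] at hxz
    omega
  · exact hv w (h.2 w hw)

/-- The test function. Let `s` be the gauge function (`gauge`), `σ z y = ∑' k, Kb k z y ^ γ`, `d` as in
`rel_dir`, `A = ∑_{z ∈ S} ∑_{y ∈ B} σ z y * (d z y)^(-γ)` (`S` from `geo.fin`; all terms `≥ 0`). For `¬ U x`,
`z ∈ Icc (x-1) (x+1)`, with `e = exp (γ φ) ≤ exp Φ`:
(a) `¬ U z`: `p x z^γ Te z (s z)^γ = (p x z e^(v z) s z)^γ e^(γ φ z - D z) ≤ (s x)^γ e^(Φ - D z)`.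
(b) `U z`, `y ∈ B`: `p x z^γ Te z σ z y Te y (s y)^γ ≤ (s x)^γ * σ z y (d z y)^(-γ) e^(2 Φ - D y)`, because
`p x z e^(v z) ≤ s x / s z`, `e^(v y) s y ≤ s z / d z y` (if `σ z y ≠ 0`, i.e. some `Kb k z y ≠ 0`: then
`rel_dir`; if `σ z y = 0` both sides vanish) and `D z ≥ 0`. Summed over such `z` and over `y ∈ B` with
`D y ≥ K`: at most `(s x)^γ A e^(2Φ - K)`.
Case `φ 0 ≠ 0`: `t x = (s x)^γ`; all `y, z` outside of `U` have `D ≥ K`; the sum is at most
`(s x)^γ (3 e^Φ + A e^(2Φ)) e^(-K) ≤ t x` for `e^K = 3 e^Φ + A e^(2Φ)`.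
Case `φ 0 = 0`: `θ = 1 / (2 (1 + A e^(2Φ)))` (at most `1`), `t x = (s x)^γ / θ` for `x ≠ 0` and `t 0 = 1`
(`s 0 = 1`). For `x ≠ 0`: the terms with `z = 0` in (a) (`v 0 = φ 0 = 0`, `D 0 ≥ 0`: `Te 0 ≤ 1`) or `y = 0`
in (b) give at most `(s x)^γ (1 + A e^(2Φ)) = t x / 2`, the others at most
`(s x)^γ θ⁻¹ (3 e^Φ + A e^(2Φ)) e^(-K) ≤ t x / 2` for large `K`. For `x = 0`: `z = 0` gives at most
`p 0 0^γ`, `z = ±1` with `U z` and `y = 0` at most `p 0 z^γ σ z 0` (`v z + φ z ≤ 0` for `U z`, `D ≥ 0`,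
so `Te z ≤ 1`; `Te 0 ≤ 1`), together less than `1` by `hρ` (`U z → z ∉ B`, `geo.bu`), the others at most
`θ⁻¹ (3 e^Φ + A e^(2Φ)) e^(-K)`, which is less than the rest for large `K`. -/
theorem ver (C : Chain) {φ : ℤ → ℝ} {Φ : ℝ} (hφ : ∀ x, 0 ≤ φ x) (hΦ : ∀ x, φ x ≤ Φ)
    {U : ℤ → Prop} [DecidablePred U] {B : Finset ℤ} (hG : Geo φ U B) {γ : ℝ} (hγ0 : 0 < γ)
    (hγ1 : γ < 1) (hσ : ∀ z, z ≠ 0 → ∀ y, Summable (fun k : ℕ => Kb C B k z y ^ γ))
    (hρ : φ 0 = 0 → C.p 0 0 ^ γ + ∑ z ∈ ({1, -1} : Finset ℤ) \ B,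
      C.p 0 z ^ γ * ∑' k : ℕ, Kb C B k z 0 ^ γ < 1) :
    ∃ K : ℝ, ∀ v D : ℤ → ℝ, (∀ x, C.p x x * Real.exp (v x) ≤ 1) →
      (∀ x, C.p x (x + 1) * Real.exp (v (x + 1)) * (C.p (x + 1) x * Real.exp (v x)) ≤ 1) →
      (∀ z, φ z = 0 → v z = 0) → (∀ z, 0 ≤ D z) → (∀ x, ¬ U x → (x = 0 → φ 0 ≠ 0) → K ≤ D x) →
      (∀ z, U z → v z + φ z ≤ 0) →
      ∃ t : ℤ → ℝ, (∀ x, 0 ≤ t x) ∧ 1 ≤ t 0 ∧ ∀ x, ¬ U x →
        ∑ z ∈ Finset.Icc (x - 1) (x + 1), C.p x z ^ γ * Te γ φ v D z *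
          (if U z then ∑ y ∈ B, (∑' k : ℕ, Kb C B k z y ^ γ) * Te γ φ v D y * t y else t z) ≤
        t x := by
  have hγ := hγ0.le
  have hΦ0 : 0 ≤ Φ := (hφ 0).trans (hΦ 0)
  obtain ⟨d, hd0, hd⟩ := rel_dir C hG
  obtain ⟨S, hS⟩ := hG.fin
  obtain ⟨σ, hσd⟩ : ∃ σ : ℤ → ℤ → ℝ, ∀ z y, σ z y = ∑' k : ℕ, Kb C B k z y ^ γ :=
    ⟨_, fun _ _ => rfl⟩
  have hσ0 : ∀ z y, 0 ≤ σ z y := fun z y => by rw [hσd]; exact YVer.sg_nonneg C B γ z y
  simp only [← hσd] at hρ ⊢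
  obtain ⟨a, ha⟩ : ∃ a : ℤ → ℝ, ∀ z, a z = ∑ y ∈ B, σ z y * d z y ^ (-γ) := ⟨_, fun _ => rfl⟩
  have haσ : ∀ z y, 0 ≤ σ z y * d z y ^ (-γ) := fun z y =>
    mul_nonneg (hσ0 z y) (Real.rpow_nonneg (hd0 z y).le _)
  have ha0 : ∀ z, 0 ≤ a z := fun z => by
    rw [ha]
    exact Finset.sum_nonneg fun y _ => haσ z y
  obtain ⟨A, hA⟩ : ∃ A : ℝ, A = ∑ z ∈ S, a z := ⟨_, rfl⟩
  have hA0 : 0 ≤ A := by rw [hA]; exact Finset.sum_nonneg fun z _ => ha0 z
  have hAx : ∀ x, ¬ U x → ∑ z ∈ Finset.Icc (x - 1) (x + 1), (if U z then a z else 0) ≤ A := by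
    intro x hx
    rw [← Finset.sum_filter, hA]
    refine Finset.sum_le_sum_of_subset_of_nonneg (fun z hz => ?_) (fun z _ _ => ha0 z)
    rw [Finset.mem_filter, Finset.mem_Icc] at hz
    exact hS z hz.2 x hx (Finset.mem_Icc.2 ⟨by omega, by omega⟩)
  have hM : 0 < 3 * Real.exp Φ + A * Real.exp (2 * Φ) :=
    add_pos_of_pos_of_nonneg (mul_pos (by norm_num) (Real.exp_pos _))
      (mul_nonneg hA0 (Real.exp_pos _).le)
  have hE2 : 0 ≤ Real.exp (2 * Φ) := (Real.exp_pos _).le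
  have hEE : Real.exp Φ * Real.exp Φ = Real.exp (2 * Φ) := by
    rw [← Real.exp_add]
    congr 1
    ring
  have hE1 : 1 ≤ Real.exp Φ := Real.one_le_exp hΦ0
  have hγφ : ∀ z, γ * φ z ≤ Φ := fun z =>
    (mul_le_of_le_one_left (hφ z) hγ1.le).trans (hΦ z)
  obtain ⟨θ, hθ⟩ : ∃ θ : ℝ, θ = 1 / (2 * (1 + A * Real.exp (2 * Φ))) := ⟨_, rfl⟩
  have hθp : 0 < 1 + A * Real.exp (2 * Φ) := by
    have := mul_nonneg hA0 hE2
    linarith
  have hθ0 : 0 < θ := by rw [hθ]; positivity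
  have hθi : θ⁻¹ = 2 * (1 + A * Real.exp (2 * Φ)) := by rw [hθ, one_div, inv_inv]
  have hθi0 : 0 ≤ θ⁻¹ := inv_nonneg.2 hθ0.le
  obtain ⟨ρ, hρd⟩ : ∃ ρ : ℝ, ρ = C.p 0 0 ^ γ + ∑ z ∈ ({1, -1} : Finset ℤ) \ B,
      C.p 0 z ^ γ * σ z 0 := ⟨_, rfl⟩
  rw [← hρd] at hρ
  obtain ⟨m, hm0, hmh, hmρ⟩ : ∃ m : ℝ, 0 < m ∧ m ≤ 1 / 2 ∧ (φ 0 = 0 → θ⁻¹ * m ≤ 1 - ρ) := by
    by_cases h : φ 0 = 0
    · have h1 := hρ h
      refine ⟨min (1 / 2) (θ * (1 - ρ)), lt_min (by norm_num) (mul_pos hθ0 (by linarith)),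
        min_le_left _ _, fun _ => ?_⟩
      calc θ⁻¹ * min (1 / 2) (θ * (1 - ρ)) ≤ θ⁻¹ * (θ * (1 - ρ)) :=
            mul_le_mul_of_nonneg_left (min_le_right _ _) hθi0
        _ = 1 - ρ := by rw [← mul_assoc, inv_mul_cancel₀ hθ0.ne', one_mul]
    · exact ⟨1 / 2, by norm_num, le_rfl, fun h' => absurd h' h⟩
  refine ⟨-Real.log (m / (3 * Real.exp Φ + A * Real.exp (2 * Φ))),
    fun v D hv1 hv2 hv0 hD0 hDK hvU => ?_⟩
  obtain ⟨κ, hκ⟩ : ∃ κ : ℝ, κ = m / (3 * Real.exp Φ + A * Real.exp (2 * Φ)) := ⟨_, rfl⟩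
  rw [← hκ] at hDK
  have hκ0 : 0 < κ := by rw [hκ]; exact div_pos hm0 hM
  have hκm : κ * (3 * Real.exp Φ + A * Real.exp (2 * Φ)) = m := by
    rw [hκ, div_mul_cancel₀ _ hM.ne']
  have hDe : ∀ x, ¬ U x → (x = 0 → φ 0 ≠ 0) → Real.exp (γ * φ x - D x) ≤ Real.exp Φ * κ := by
    intro x hx hx0
    have h1 := hDK x hx hx0
    rw [← Real.exp_log hκ0, ← Real.exp_add, Real.exp_le_exp]
    have h2 := hγφ x
    linarith
  have hzΦ : ∀ z, γ * φ z - D z ≤ Φ := fun z => by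
    have h1 := hD0 z
    have h2 := hγφ z
    linarith
  obtain ⟨s, hs0, hs1, hs⟩ := gauge C hv1 hv2
  have hdσ : ∀ x, ¬ U x → ∀ z ∈ Finset.Icc (x - 1) (x + 1), U z → ∀ y ∈ B, σ z y ≠ 0 →
      Real.exp (v y) * s y * d z y ≤ s z := by
    intro x hx z hz hUz y hy h
    rw [hσd] at h
    obtain ⟨k, hk⟩ := YVer.sg_ne hγ0 h
    rw [Finset.mem_Icc] at hz
    exact hd v s hv0 hs z hUz x hx (Finset.mem_Icc.2 ⟨by omega, by omega⟩) y hy k hk
  have hC : ∀ x, ¬ U x → ∀ z ∈ Finset.Icc (x - 1) (x + 1), U z → ∀ y ∈ B,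
      C.p x z ^ γ * Te γ φ v D z * (σ z y * Te γ φ v D y * s y ^ γ) ≤
        s x ^ γ * (σ z y * d z y ^ (-γ)) * (Real.exp Φ * Real.exp (γ * φ y - D y)) :=
    fun x hx z hz hUz y hy => YVer.estC C hγ (hσ0 z y) (hd0 z y) (hs0 y).le (hs0 z).le (hs0 x).le
      (hdσ x hx z hz hUz y hy) (hs x z hz) (hzΦ z)
  have hAe : ∀ x, ∀ z ∈ Finset.Icc (x - 1) (x + 1),
      C.p x z ^ γ * Te γ φ v D z * s z ^ γ ≤ s x ^ γ * Real.exp (γ * φ z - D z) :=
    fun x z hz => YVer.estA C hγ (hs0 z).le (hs x z hz)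
  have hsx : ∀ x, 0 ≤ s x ^ γ := fun x => Real.rpow_nonneg (hs0 x).le _
  have hpT : ∀ x z, 0 ≤ C.p x z ^ γ * Te γ φ v D z := fun x z =>
    mul_nonneg (Real.rpow_nonneg (C.nonneg _ _) _) (YVer.te_nonneg _ _ _ _ _)
  by_cases h0 : φ 0 = 0
  · -- the case `φ 0 = 0`
    have hv00 : v 0 = 0 := hv0 0 h0
    have hT0 : Te γ φ v D 0 ≤ 1 := YVer.te_one hγ (by rw [hv00, h0, add_zero]) (hD0 0)
    have hE0 : Real.exp (γ * φ 0 - D 0) ≤ 1 := by
      rw [Real.exp_le_one_iff, h0, mul_zero]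
      linarith [hD0 0]
    refine ⟨fun x => if x = 0 then 1 else θ⁻¹ * s x ^ γ, fun x => ?_, ?_, fun x hx => ?_⟩
    · simp only
      split_ifs
      · exact zero_le_one
      · exact mul_nonneg hθi0 (hsx x)
    · beta_reduce
      rw [if_pos rfl]
    beta_reduce
    -- the terms with `y ≠ 0`
    have hB1 : ∀ z ∈ Finset.Icc (x - 1) (x + 1), U z → ∀ y ∈ B, y ≠ 0 →
        C.p x z ^ γ * Te γ φ v D z * (σ z y * Te γ φ v D y *
          (if y = 0 then 1 else θ⁻¹ * s y ^ γ)) ≤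
        (θ⁻¹ * s x ^ γ * κ) * (σ z y * d z y ^ (-γ) * Real.exp (2 * Φ)) := by
      intro z hz hUz y hy hy0
      rw [if_neg hy0]
      have h1 := hC x hx z hz hUz y hy
      have h2 := hDe y (hG.bu y hy) (fun h => absurd h hy0)
      have h3 : s x ^ γ * (σ z y * d z y ^ (-γ)) * (Real.exp Φ * Real.exp (γ * φ y - D y)) ≤
          s x ^ γ * (σ z y * d z y ^ (-γ)) * (Real.exp Φ * (Real.exp Φ * κ)) :=
        mul_le_mul_of_nonneg_left (mul_le_mul_of_nonneg_left h2 (Real.exp_pos _).le)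
          (mul_nonneg (hsx x) (haσ z y))
      have h4 := mul_le_mul_of_nonneg_left (h1.trans h3) hθi0
      calc _ = θ⁻¹ * (C.p x z ^ γ * Te γ φ v D z * (σ z y * Te γ φ v D y * s y ^ γ)) := by ring
        _ ≤ _ := h4
        _ = θ⁻¹ * s x ^ γ * κ * (σ z y * d z y ^ (-γ) * (Real.exp Φ * Real.exp Φ)) := by ring
        _ = _ := by rw [hEE]
    have hN1 : ∀ z ∈ Finset.Icc (x - 1) (x + 1), ¬ U z → z ≠ 0 →
        C.p x z ^ γ * Te γ φ v D z * (θ⁻¹ * s z ^ γ) ≤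
          (θ⁻¹ * s x ^ γ * κ) * Real.exp Φ := by
      intro z hz hUz hz0
      have h1 := hAe x z hz
      have h2 := mul_le_mul_of_nonneg_left (hDe z hUz (fun h => absurd h hz0)) (hsx x)
      have h4 := mul_le_mul_of_nonneg_left (h1.trans h2) hθi0
      calc _ = θ⁻¹ * (C.p x z ^ γ * Te γ φ v D z * s z ^ γ) := by ring
        _ ≤ _ := h4
        _ = _ := by ring
    by_cases hx0 : x = 0
    · -- `x = 0`
      subst hx0
      rw [if_pos rfl]
      have hs00 : s 0 ^ γ = 1 := by rw [hs1, Real.one_rpow]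
      rw [hs00, mul_one] at hB1 hN1
      have hterm : ∀ z ∈ Finset.Icc ((0 : ℤ) - 1) (0 + 1),
          C.p 0 z ^ γ * Te γ φ v D z * (if U z then ∑ y ∈ B, σ z y * Te γ φ v D y *
            (if y = 0 then 1 else θ⁻¹ * s y ^ γ) else (if z = 0 then 1 else θ⁻¹ * s z ^ γ)) ≤
          ((if z = 0 then C.p 0 0 ^ γ else 0) + (if U z then C.p 0 z ^ γ * σ z 0 else 0)) +
            (θ⁻¹ * κ) * (Real.exp Φ + (if U z then a z else 0) * Real.exp (2 * Φ)) := by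
        intro z hz
        by_cases hUz : U z
        · rw [if_pos hUz, if_pos hUz, if_pos hUz]
          have hz0 : z ≠ 0 := by
            rintro rfl
            exact hG.u0 hUz
          rw [if_neg hz0, zero_add]
          have hTz : Te γ φ v D z ≤ 1 := YVer.te_one hγ (hvU z hUz) (hD0 z)
          rw [Finset.mul_sum, ha, Finset.sum_mul]
          have hy : ∀ y ∈ B, C.p 0 z ^ γ * Te γ φ v D z * (σ z y * Te γ φ v D y *
              (if y = 0 then 1 else θ⁻¹ * s y ^ γ)) ≤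
              (if y = 0 then C.p 0 z ^ γ * σ z 0 else 0) +
                (θ⁻¹ * κ) * (σ z y * d z y ^ (-γ) * Real.exp (2 * Φ)) := by
            intro y hyB
            have hnn : 0 ≤ (θ⁻¹ * κ) * (σ z y * d z y ^ (-γ) * Real.exp (2 * Φ)) :=
              mul_nonneg (mul_nonneg hθi0 hκ0.le) (mul_nonneg (haσ z y) hE2)
            by_cases hy0 : y = 0
            · subst hy0
              rw [if_pos rfl, if_pos rfl, mul_one]
              have h1 : σ z 0 * Te γ φ v D 0 ≤ σ z 0 := mul_le_of_le_one_right (hσ0 z 0) hT0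
              have h2 : C.p 0 z ^ γ * Te γ φ v D z ≤ C.p 0 z ^ γ :=
                mul_le_of_le_one_right (Real.rpow_nonneg (C.nonneg _ _) _) hTz
              have h3 := mul_le_mul h2 h1 (mul_nonneg (hσ0 z 0) (YVer.te_nonneg _ _ _ _ _))
                (Real.rpow_nonneg (C.nonneg _ _) _)
              linarith
            · have h1 := hB1 z hz hUz y hyB hy0
              rw [if_neg hy0] at h1 ⊢
              rw [if_neg hy0, zero_add]
              exact h1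
          refine (Finset.sum_le_sum hy).trans ?_
          rw [Finset.sum_add_distrib, ← Finset.mul_sum, Finset.sum_ite_eq' B 0, if_pos hG.b0]
          have h5 : 0 ≤ θ⁻¹ * κ * Real.exp Φ :=
            mul_nonneg (mul_nonneg hθi0 hκ0.le) (Real.exp_pos _).le
          rw [mul_add]
          linarith
        · rw [if_neg hUz, if_neg hUz, if_neg hUz, zero_mul, add_zero, add_zero]
          by_cases hz0 : z = 0
          · subst hz0
            rw [if_pos rfl, if_pos rfl, mul_one]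
            have h2 : C.p 0 0 ^ γ * Te γ φ v D 0 ≤ C.p 0 0 ^ γ :=
              mul_le_of_le_one_right (Real.rpow_nonneg (C.nonneg _ _) _) hT0
            have h5 : 0 ≤ θ⁻¹ * κ * Real.exp Φ :=
              mul_nonneg (mul_nonneg hθi0 hκ0.le) (Real.exp_pos _).le
            linarith
          · rw [if_neg hz0, if_neg hz0, zero_add]
            exact hN1 z hz hUz hz0
      refine (Finset.sum_le_sum hterm).trans ?_
      rw [Finset.sum_add_distrib, Finset.sum_add_distrib]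
      have h1 := YVer.sumG (E1 := Real.exp Φ) (hAx 0 hx) (mul_nonneg hθi0 hκ0.le) hE2
      have h2 : ∑ z ∈ Finset.Icc ((0 : ℤ) - 1) (0 + 1), (if z = 0 then C.p 0 0 ^ γ else 0) =
          C.p 0 0 ^ γ := by
        rw [Finset.sum_ite_eq' _ (0 : ℤ), if_pos (Finset.mem_Icc.2 ⟨by omega, by omega⟩)]
      have h3 : ∑ z ∈ Finset.Icc ((0 : ℤ) - 1) (0 + 1),
          (if U z then C.p 0 z ^ γ * σ z 0 else 0) ≤
          ∑ z ∈ ({1, -1} : Finset ℤ) \ B, C.p 0 z ^ γ * σ z 0 := by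
        rw [← Finset.sum_filter]
        refine Finset.sum_le_sum_of_subset_of_nonneg (fun z hz => ?_) (fun z _ _ =>
          mul_nonneg (Real.rpow_nonneg (C.nonneg _ _) _) (hσ0 z 0))
        rw [Finset.mem_filter, Finset.mem_Icc] at hz
        rw [Finset.mem_sdiff]
        refine ⟨?_, fun hzB => hG.bu z hzB hz.2⟩
        have hz0 : z ≠ 0 := by
          rintro rfl
          exact hG.u0 hz.2
        rw [Finset.mem_insert, Finset.mem_singleton]
        omega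
      have h4 := hmρ h0
      rw [mul_assoc, hκm] at h1
      rw [h2]
      refine (add_le_add (add_le_add le_rfl h3) h1).trans ?_
      rw [← hρd]
      linarith
    · -- `x ≠ 0`
      rw [if_neg hx0]
      have hterm : ∀ z ∈ Finset.Icc (x - 1) (x + 1),
          C.p x z ^ γ * Te γ φ v D z * (if U z then ∑ y ∈ B, σ z y * Te γ φ v D y *
            (if y = 0 then 1 else θ⁻¹ * s y ^ γ) else (if z = 0 then 1 else θ⁻¹ * s z ^ γ)) ≤
          (if z = 0 then s x ^ γ else 0) +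
            s x ^ γ * (0 + (if U z then a z else 0) * Real.exp (2 * Φ)) +
            (θ⁻¹ * s x ^ γ * κ) * (Real.exp Φ + (if U z then a z else 0) * Real.exp (2 * Φ)) := by
        intro z hz
        have h5 : 0 ≤ θ⁻¹ * s x ^ γ * κ * Real.exp Φ :=
          mul_nonneg (mul_nonneg (mul_nonneg hθi0 (hsx x)) hκ0.le) (Real.exp_pos _).le
        by_cases hUz : U z
        · rw [if_pos hUz, if_pos hUz]
          have hz0 : z ≠ 0 := by
            rintro rfl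
            exact hG.u0 hUz
          rw [if_neg hz0, zero_add, zero_add]
          rw [Finset.mul_sum, ha, Finset.sum_mul]
          have hy : ∀ y ∈ B, C.p x z ^ γ * Te γ φ v D z * (σ z y * Te γ φ v D y *
              (if y = 0 then 1 else θ⁻¹ * s y ^ γ)) ≤
              s x ^ γ * (σ z y * d z y ^ (-γ) * Real.exp (2 * Φ)) +
                (θ⁻¹ * s x ^ γ * κ) * (σ z y * d z y ^ (-γ) * Real.exp (2 * Φ)) := by
            intro y hyB
            have hnn : 0 ≤ (θ⁻¹ * s x ^ γ * κ) * (σ z y * d z y ^ (-γ) * Real.exp (2 * Φ)) :=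
              mul_nonneg (mul_nonneg (mul_nonneg hθi0 (hsx x)) hκ0.le)
                (mul_nonneg (haσ z y) hE2)
            have hnn' : 0 ≤ s x ^ γ * (σ z y * d z y ^ (-γ) * Real.exp (2 * Φ)) :=
              mul_nonneg (hsx x) (mul_nonneg (haσ z y) hE2)
            by_cases hy0 : y = 0
            · subst hy0
              have h1 := hC x hx z hz hUz 0 hyB
              rw [hs1, Real.one_rpow] at h1
              rw [if_pos rfl]
              have h2 : Real.exp Φ * Real.exp (γ * φ 0 - D 0) ≤ Real.exp (2 * Φ) := by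
                rw [← hEE]
                exact mul_le_mul_of_nonneg_left (hE0.trans hE1) (Real.exp_pos _).le
              have h3 := mul_le_mul_of_nonneg_left h2 (mul_nonneg (hsx x) (haσ z 0))
              have h4 : s x ^ γ * (σ z 0 * d z 0 ^ (-γ)) * Real.exp (2 * Φ) =
                s x ^ γ * (σ z 0 * d z 0 ^ (-γ) * Real.exp (2 * Φ)) := by ring
              linarith
            · have h1 := hB1 z hz hUz y hyB hy0
              linarith
          refine (Finset.sum_le_sum hy).trans ?_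
          rw [Finset.sum_add_distrib, ← Finset.mul_sum, ← Finset.mul_sum, mul_add
            (θ⁻¹ * s x ^ γ * κ)]
          linarith
        · rw [if_neg hUz, if_neg hUz, zero_mul, add_zero, add_zero, mul_zero, add_zero]
          by_cases hz0 : z = 0
          · subst hz0
            rw [if_pos rfl, if_pos rfl, mul_one]
            have h1 := hAe x 0 hz
            rw [hs1, Real.one_rpow, mul_one] at h1
            have h2 : s x ^ γ * Real.exp (γ * φ 0 - D 0) ≤ s x ^ γ :=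
              mul_le_of_le_one_right (hsx x) hE0
            linarith
          · rw [if_neg hz0, if_neg hz0, zero_add]
            exact hN1 z hz hUz hz0
      refine (Finset.sum_le_sum hterm).trans ?_
      rw [Finset.sum_add_distrib, Finset.sum_add_distrib]
      have h1 := YVer.sumG (E1 := Real.exp Φ) (hAx x hx)
        (mul_nonneg (mul_nonneg hθi0 (hsx x)) hκ0.le) hE2
      have h1' := YVer.sumG (E1 := 0) (hAx x hx) (hsx x) hE2
      have h2 : ∑ z ∈ Finset.Icc (x - 1) (x + 1), (if z = 0 then s x ^ γ else 0) ≤ s x ^ γ := by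
        rw [Finset.sum_ite_eq' _ (0 : ℤ)]
        split_ifs
        · exact le_rfl
        · exact hsx x
      have h3 : θ⁻¹ * s x ^ γ * κ * (3 * Real.exp Φ + A * Real.exp (2 * Φ)) =
          θ⁻¹ * s x ^ γ * m := by rw [mul_assoc, hκm]
      have h4 : θ⁻¹ * s x ^ γ * m ≤ θ⁻¹ * s x ^ γ * (1 / 2) :=
        mul_le_mul_of_nonneg_left hmh (mul_nonneg hθi0 (hsx x))
      have h5 : θ⁻¹ * s x ^ γ * (1 / 2) = s x ^ γ + s x ^ γ * (A * Real.exp (2 * Φ)) := by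
        rw [hθi]
        ring
      have h6 : s x ^ γ * (3 * 0 + A * Real.exp (2 * Φ)) = s x ^ γ * (A * Real.exp (2 * Φ)) := by
        ring
      linarith
  · -- the case `φ 0 ≠ 0`
    refine ⟨fun x => s x ^ γ, hsx, by beta_reduce; rw [hs1, Real.one_rpow], fun x hx => ?_⟩
    beta_reduce
    have hterm : ∀ z ∈ Finset.Icc (x - 1) (x + 1),
        C.p x z ^ γ * Te γ φ v D z * (if U z then ∑ y ∈ B, σ z y * Te γ φ v D y * s y ^ γ
          else s z ^ γ) ≤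
        (s x ^ γ * κ) * (Real.exp Φ + (if U z then a z else 0) * Real.exp (2 * Φ)) := by
      intro z hz
      by_cases hUz : U z
      · rw [if_pos hUz, if_pos hUz, Finset.mul_sum, ha, Finset.sum_mul]
        have hy : ∀ y ∈ B, C.p x z ^ γ * Te γ φ v D z * (σ z y * Te γ φ v D y * s y ^ γ) ≤
            (s x ^ γ * κ) * (σ z y * d z y ^ (-γ) * Real.exp (2 * Φ)) := by
          intro y hyB
          have h1 := hC x hx z hz hUz y hyB
          have h2 := hDe y (hG.bu y hyB) (fun _ => h0)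
          have h3 : s x ^ γ * (σ z y * d z y ^ (-γ)) * (Real.exp Φ * Real.exp (γ * φ y - D y)) ≤
              s x ^ γ * (σ z y * d z y ^ (-γ)) * (Real.exp Φ * (Real.exp Φ * κ)) :=
            mul_le_mul_of_nonneg_left (mul_le_mul_of_nonneg_left h2 (Real.exp_pos _).le)
              (mul_nonneg (hsx x) (haσ z y))
          calc _ ≤ _ := h1.trans h3
            _ = s x ^ γ * κ * (σ z y * d z y ^ (-γ) * (Real.exp Φ * Real.exp Φ)) := by ring
            _ = _ := by rw [hEE]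
        refine (Finset.sum_le_sum hy).trans ?_
        rw [← Finset.mul_sum, mul_add]
        have h5 : 0 ≤ s x ^ γ * κ * Real.exp Φ :=
          mul_nonneg (mul_nonneg (hsx x) hκ0.le) (Real.exp_pos _).le
        linarith
      · rw [if_neg hUz, if_neg hUz, zero_mul, add_zero]
        have h1 := hAe x z hz
        have h2 := mul_le_mul_of_nonneg_left (hDe z hUz (fun _ => h0)) (hsx x)
        calc _ ≤ _ := h1.trans h2
          _ = _ := by ring
    refine (Finset.sum_le_sum hterm).trans ?_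
    refine (YVer.sumG (hAx x hx) (mul_nonneg (hsx x) hκ0.le) hE2).trans ?_
    rw [mul_assoc, hκm]
    exact mul_le_of_le_one_right (hsx x) (by linarith)

end

end Pool.Agent.HG
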