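import Pool.Agent.Lib.MP_daa227_pr_HG.YRec
import Pool.Agent.Lib.MP_daa227_pr_HG.YVer
import Pool.Agent.Lib.MP_daa227_pr_HG.YThr
import Pool.Agent.Lib.MP_daa227_pr_HG.YRho
import Pool.Agent.Lib.MP_daa227_pr_HG.LMod
import Pool.Agent.Lib.MP_daa227_pr_HG.Exact

/-!
# MP_daa227_pr, large inverse temperature: the annealed and the quenched critical point differ
-/

namespace Pool.Agent.HG

open MeasureTheory ProbabilityTheory Finset Filter Topology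
open MP_daa227_pr (Chain Zk Zf Gk Gf KU K0 Ren shift seqLaw ExpMom DepOn Good GoodW mom)
open Pool.Agent.HZ (Mod Kv lmg)
open Pool.Agent.IOrd (Sys aS cv)

noncomputable section

/-- Large inverse temperature: if the annealed excursions at `H` have mass at most one, the quenched
free energy vanishes at `H - 1`. -/
theorem large_mass (M : Mod)
    (hat : ∀ ε : ℝ, 0 < ε → ∃ A : ℝ, 0 < M.μ (Set.Ioi A) ∧ M.μ (Set.Ioi A) ≤ ENNReal.ofReal ε)
    {a : ℝ} (ha : 0 < a) (hS : Summable (fun n : ℕ => (n : ℝ) ^ a * K0 M.C n 0)) :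
    ∃ β₁ : ℝ, ∀ (b : ℝ) (hb : 0 < b), β₁ ≤ b → ∀ H : ℝ,
      (∀ N : ℕ, ∑ n ∈ range N, (withB M b hb).g H n ≤ 1) → (withB M b hb).Fr (H - 1) ≤ 0 := by
  have := M.prob
  obtain ⟨x₀, hx₀⟩ := M.φ_ne
  set m : ℝ := if M.φ (x₀ + 1) = 0 then M.φ x₀ else min (M.φ x₀) (M.φ (x₀ + 1)) with hm
  have hm0 : 0 < m := by
    rw [hm]
    split_ifs with h
    · exact hx₀
    · exact lt_min hx₀ (lt_of_le_of_ne (M.φ_nonneg _) (Ne.symm h))
  have hm1 : m ≤ M.φ x₀ := by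
    rw [hm]
    split_ifs with h
    · exact le_rfl
    · exact min_le_left _ _
  have hm2 : M.φ (x₀ + 1) = 0 ∨ m ≤ M.φ (x₀ + 1) := by
    by_cases h : M.φ (x₀ + 1) = 0
    · exact Or.inl h
    · refine Or.inr ?_
      rw [hm, if_neg h]
      exact min_le_right _ _
  have hpp : 0 < M.C.p x₀ (x₀ + 1) * M.C.p (x₀ + 1) x₀ := by
    have h1 := M.C.down (x₀ + 1)
    rw [add_sub_cancel_right] at h1
    exact mul_pos (M.C.up x₀) h1
  set E : ℝ := max 0 (-Real.log (M.C.p x₀ (x₀ + 1) * M.C.p (x₀ + 1) x₀)) with hE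
  obtain ⟨U, dU, B, c₁, hG, hc₁, hcU, hc0, hεU, hx₀B⟩ := geo_exists M.φ_nonneg M.φ_top M.φ_bot
    (half_pos hm0) hx₀.ne'
  -- the exponent
  set γ₀ : ℝ := (1 / (1 + a) + 1) / 2 with hγ₀
  have hinv : 0 < 1 / (1 + a) ∧ 1 / (1 + a) < 1 := by
    refine ⟨by positivity, ?_⟩
    rw [div_lt_one (by linarith)]
    linarith
  have hγ₀1 : γ₀ < 1 := by rw [hγ₀]; linarith
  have hγ₀a : 1 / (1 + a) < γ₀ := by rw [hγ₀]; linarith
  have hγ₀0 : 0 < γ₀ := by linarith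
  obtain ⟨γ, hγ1, hγγ, hρ⟩ : ∃ γ : ℝ, γ < 1 ∧ γ₀ ≤ γ ∧ (M.φ 0 = 0 → M.C.p 0 0 ^ γ +
      ∑ z ∈ ({1, -1} : Finset ℤ) \ B, M.C.p 0 z ^ γ * ∑' k : ℕ, Kb M.C B k z 0 ^ γ < 1) := by
    by_cases h0 : M.φ 0 = 0
    · have hx0 : x₀ ≠ 0 := by
        rintro rfl
        exact hx₀.ne' h0
      obtain ⟨γ₁, h1, h2, h3⟩ := rho_lt M.C hG.b0 hx₀B hx0 hγ₀0 hγ₀1
        (k0_rpow_sum M.C ha hγ₀a hγ₀1 hS)
      exact ⟨γ₁, h1, h2, fun _ => h3 γ₁ le_rfl h1⟩
    · exact ⟨γ₀, hγ₀1, le_rfl, fun h => absurd h h0⟩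
  have hγ0 : 0 < γ := hγ₀0.trans_le hγγ
  have hK := k0_rpow_sum M.C ha (hγ₀a.trans_le hγγ) hγ1 hS
  obtain ⟨K, hver⟩ := ver M.C M.φ_nonneg M.φ_le hG hγ0 hγ1
    (fun z hz y => kb_rpow_sum M.C hG.b0 hz y hγ0 hK) hρ
  have h1 := dg_big M.exp_mom hat hγ0 hγ1 hc₁ K
  have h2 := thr_big M.exp_mom hat hm0 (le_max_left (0 : ℝ)
    (-Real.log (M.C.p x₀ (x₀ + 1) * M.C.p (x₀ + 1) x₀)))
  obtain ⟨β₁, hβ₁⟩ := eventually_atTop.1 (h1.and h2)
  refine ⟨β₁, fun b hb hbb H hg => ?_⟩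
  obtain ⟨hD, hT⟩ := hβ₁ b hbb
  have hg' : ∀ N : ℕ, ∑ n ∈ range N, Kv M.C ((withB M b hb).v H) n 0 ≤ 1 := hg
  have hv : ∀ z, (withB M b hb).v H z = lmg M.μ (b * M.φ z) - H * M.φ z := fun z => rfl
  have hc2 := cyc_two M.C hg' x₀
  have hthr := hT (M.φ x₀) (M.φ (x₀ + 1)) H hm1 hm2 (by
    have h3 : 0 < M.C.p x₀ (x₀ + 1) * M.C.p (x₀ + 1) x₀ := hpp
    have h4 : M.C.p x₀ (x₀ + 1) * M.C.p (x₀ + 1) x₀ *
        Real.exp ((withB M b hb).v H x₀ + (withB M b hb).v H (x₀ + 1)) ≤ 1 := by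
      rw [Real.exp_add]
      refine le_trans (le_of_eq ?_) hc2
      ring
    have h5 : (withB M b hb).v H x₀ + (withB M b hb).v H (x₀ + 1) ≤
        -Real.log (M.C.p x₀ (x₀ + 1) * M.C.p (x₀ + 1) x₀) := by
      have h6 := Real.log_le_log (mul_pos h3 (Real.exp_pos _)) h4
      rw [Real.log_mul h3.ne' (Real.exp_pos _).ne', Real.log_exp, Real.log_one] at h6
      linarith
    refine le_trans ?_ (le_max_right _ _)
    refine le_trans (le_of_eq ?_) h5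
    rw [hv, hv]
    ring)
  have hUv : ∀ z, U z → (withB M b hb).v H z + M.φ z ≤ 0 := by
    intro z hz
    have h3 := hthr (M.φ z) (M.φ_nonneg z) (hεU z hz)
    rw [hv]
    linarith
  obtain ⟨t, ht, ht0, hmain⟩ := hver ((withB M b hb).v H)
    (fun z => γ * lmg M.μ (b * M.φ z) - lmg M.μ (γ * (b * M.φ z)))
    (cyc_one M.C hg') (cyc_two M.C hg')
    (fun z hz => by rw [hv, hz, mul_zero, mul_zero, HZ.lmg_zero, sub_zero])
    (fun z => by
      have := dg_nonneg M.exp_mom hγ0.le hγ1.le (b * M.φ z)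
      linarith)
    (fun x hx hx0 => by
      refine hD (M.φ x) ?_
      by_cases h : x = 0
      · rw [h]
        exact hc0 (hx0 h)
      · exact hcU x hx h)
    hUv
  have hvg : ∀ z, Real.exp (vg (withB M b hb) γ (H - 1) z) =
      Te γ M.φ ((withB M b hb).v H)
        (fun z => γ * lmg M.μ (b * M.φ z) - lmg M.μ (γ * (b * M.φ z))) z := by
    intro z
    unfold Te vg
    congr 1
    rw [hv]
    change lmg M.μ (γ * (b * M.φ z)) - γ * ((H - 1) * M.φ z) = _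
    ring
  have hrec := frac_rec (withB M b hb) (h := H - 1) hγ0 hγ1.le hG.u0 hG.b0 hG.bu hG.nb
    (fun z hz => by
      have h3 := hUv z hz
      rw [hv] at h3
      change lmg M.μ (b * M.φ z) - (H - 1) * M.φ z ≤ 0
      linarith) ht ht0 (σ := fun z y => ∑' k : ℕ, Kb M.C B k z y ^ γ)
    (fun z hz y _ N => by
      have hz0 : z ≠ 0 := by
        rintro rfl
        exact hG.u0 hz
      exact (kb_rpow_sum M.C hG.b0 hz0 y hγ0 hK).sum_le_tsum _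
        (fun k _ => Real.rpow_nonneg (kb_nonneg _ _ _ _ _) _))
    (fun x hx => by
      refine le_trans (le_of_eq ?_) (hmain x hx)
      refine Finset.sum_congr rfl fun z _ => ?_
      unfold Tt
      simp only [hvg]
      rfl)
  exact fr_le_of_frac (withB M b hb) hγ0 (K := t 0) fun n => hrec (2 * n) 0 hG.u0

end

end Pool.Agent.HG
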