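import Pool.Agent.Lib.MP_daa227_pr_HG.YKb
import Pool.Agent.Lib.MP_daa227_pr_HZ.MomId

/-!
# MP_daa227_pr, large inverse temperature: fractional moment of one excursion
-/

namespace Pool.Agent.HG

open MeasureTheory ProbabilityTheory Finset Filter Topology
open MP_daa227_pr (Chain Zk Zf Gk Gf KU K0 Ren shift seqLaw ExpMom DepOn Good GoodW mom)
open Pool.Agent.HZ (Mod Kv lmg)
open Pool.Agent.IOrd (Sys aS cv)

noncomputable section

/-- the exponents of the moment of order `γ` of the site weights -/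
def vg (M : Mod) (γ h : ℝ) (z : ℤ) : ℝ := lmg M.μ (γ * (M.β * M.φ z)) - γ * (h * M.φ z)

/-- `E W(ω, z)^γ = exp (vg z)` (see `HZ.A3.mom_W` for `γ = 1`) -/
theorem mom_wg (M : Mod) {γ : ℝ} (h0 : 0 ≤ γ) (h : ℝ) (z : ℤ) :
    mom M.μ γ (fun ω => M.W h (ω 0) z) = ENNReal.ofReal (Real.exp (vg M γ h z)) := by
  have h1 := HZ.A3.mom_W (μ := M.μ) M.exp_mom (fun z => γ * (M.β * M.φ z))
    (fun z => γ * (h * M.φ z)) z
  change _ = ENNReal.ofReal (Real.exp (vg M γ h z)) at h1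
  rw [← h1]
  unfold mom
  refine lintegral_congr fun ω => ?_
  rw [ENNReal.rpow_one, ENNReal.ofReal_rpow_of_nonneg (M.W_pos h (ω 0) z).le h0]
  congr 1
  unfold HZ.Mod.W HZ.A3.Wg
  rw [← Real.exp_mul]
  congr 1
  ring

namespace YMom

/-- weight of the paths, the weight of the last site left out -/
def H (C : Chain) (W : ℝ → ℤ → ℝ) (B : Finset ℤ) : ℕ → (ℕ → ℝ) → ℤ → ℤ → ℝ
  | 0, _, _, _ => 0
  | n + 1, ω, z, y => (if n = 0 then C.p z y else 0) +
      ∑ w ∈ Finset.Icc (z - 1) (z + 1) \ B, C.p z w * W (ω 0) w * H C W B n (shift 1 ω) w y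

theorem gk_eq (C : Chain) (W : ℝ → ℤ → ℝ) (B : Finset ℤ) : ∀ (n : ℕ) (ω : ℕ → ℝ) (z y : ℤ),
    Gk C W B (n + 1) ω z y = H C W B (n + 1) ω z y * W (ω n) y
  | 0, ω, z, y => by
    simp only [Gk, H, mul_zero, Finset.sum_const_zero, add_zero, if_true]
  | n + 1, ω, z, y => by
    rw [Gk, H, if_neg (by omega), if_neg (by omega), zero_add, zero_add, Finset.sum_mul]
    refine Finset.sum_congr rfl fun w _ => ?_
    rw [gk_eq C W B n (shift 1 ω) w y]
    have h1 : shift 1 ω n = ω (n + 1) := rfl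
    rw [h1]
    ring

theorem good_H (C : Chain) {W : ℝ → ℤ → ℝ} {κ : ℝ} (hκ : 0 ≤ κ) (hW : GoodW κ W)
    (B : Finset ℤ) : ∀ (n : ℕ) (z y : ℤ), Good n κ (fun ω => H C W B (n + 1) ω z y)
  | 0, z, y => by
    refine Good.congr (F := fun _ => C.p z y) (Good.const hκ (C.nonneg z y)) fun ω => ?_
    simp only [H, mul_zero, Finset.sum_const_zero, add_zero, if_true]
  | n + 1, z, y => by
    refine Good.congr (F := fun ω => ∑ w ∈ Finset.Icc (z - 1) (z + 1) \ B,
      C.p z w * W (ω 0) w * H C W B (n + 1) (shift 1 ω) w y) ?_ fun ω => ?_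
    · refine Good.sum hκ _ fun w _ => ?_
      have h1 := ((hW.good w).const_mul (C.nonneg z w)).mul_shift (good_H C hκ hW B n w y)
      rwa [Nat.add_comm 1 n] at h1
    · rw [H, if_neg (by omega), zero_add]

theorem meas_H (C : Chain) {W : ℝ → ℤ → ℝ} {κ : ℝ} (hκ : 0 ≤ κ) (hW : GoodW κ W)
    (B : Finset ℤ) (n : ℕ) (z y : ℤ) : Measurable (fun ω => H C W B n ω z y) := by
  rcases n with _ | n
  · exact measurable_const
  · exact (good_H C hκ hW B n z y).meas

theorem H_nonneg (C : Chain) {W : ℝ → ℤ → ℝ} {κ : ℝ} (hκ : 0 ≤ κ) (hW : GoodW κ W)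
    (B : Finset ℤ) (n : ℕ) (ω : ℕ → ℝ) (z y : ℤ) : 0 ≤ H C W B n ω z y := by
  rcases n with _ | n
  · exact le_rfl
  · exact (good_H C hκ hW B n z y).nonneg ω

theorem mom_H (M : Mod) {h : ℝ} {U : ℤ → Prop} {B : Finset ℤ}
    (hU : ∀ z, U z → ∀ w ∈ Finset.Icc (z - 1) (z + 1), w ∉ B → U w)
    (hv : ∀ z, U z → M.v h z ≤ 0) (y : ℤ) : ∀ (n : ℕ) (z : ℤ), U z →
    mom M.μ 1 (fun ω => H M.C (M.W h) B n ω z y) ≤ ENNReal.ofReal (Kb M.C B n z y)
  | 0, z, _ => by
    have h1 : mom M.μ 1 (fun ω => H M.C (M.W h) B 0 ω z y) = 0 :=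
      MP_daa227_pr.mom_zero one_pos
    rw [h1]
    exact zero_le
  | n + 1, z, hz => by
    have hκ : 0 ≤ M.κ := M.κ_pos.le
    have hW := M.goodW h
    have hW0 : ∀ w, Measurable fun ω : ℕ → ℝ => M.W h (ω 0) w := fun w =>
      (hW.meas w).comp (measurable_pi_apply 0)
    have hHm := fun w => meas_H M.C hκ hW B n w y
    have hH0 := fun (ω : ℕ → ℝ) w => H_nonneg M.C hκ hW B n ω w y
    have htm : ∀ w, Measurable fun ω : ℕ → ℝ =>
        M.C.p z w * M.W h (ω 0) w * H M.C (M.W h) B n (shift 1 ω) w y := fun w =>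
      ((hW0 w).const_mul _).mul ((hHm w).comp (MP_daa227_pr.measurable_shift 1))
    have ht0 : ∀ w (ω : ℕ → ℝ),
        0 ≤ M.C.p z w * M.W h (ω 0) w * H M.C (M.W h) B n (shift 1 ω) w y := fun w ω =>
      mul_nonneg (mul_nonneg (M.C.nonneg _ _) (M.W_pos _ _ _).le) (hH0 _ w)
    have hterm : ∀ w ∈ Finset.Icc (z - 1) (z + 1) \ B,
        mom M.μ 1 (fun ω => M.C.p z w * M.W h (ω 0) w * H M.C (M.W h) B n (shift 1 ω) w y) ≤
          ENNReal.ofReal (M.C.p z w * Kb M.C B n w y) := by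
      intro w hw
      rw [Finset.mem_sdiff] at hw
      have hUw := hU z hz w hw.1 hw.2
      have e1 : mom M.μ 1 (fun ω =>
          M.C.p z w * M.W h (ω 0) w * H M.C (M.W h) B n (shift 1 ω) w y) =
          mom M.μ 1 (fun ω =>
            M.C.p z w * (M.W h (ω 0) w * H M.C (M.W h) B n (shift 1 ω) w y)) :=
        MP_daa227_pr.mom_congr fun ω => by ring
      have hm1 : Measurable fun ω : ℕ → ℝ =>
          M.W h (ω 0) w * H M.C (M.W h) B n (shift 1 ω) w y :=
        (hW0 w).mul ((hHm w).comp (MP_daa227_pr.measurable_shift 1))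
      have e2 : vg M 1 h w = M.v h w := by
        unfold vg HZ.Mod.v
        rw [one_mul, one_mul]
      rw [e1, MP_daa227_pr.mom_const_mul zero_le_one (M.C.nonneg z w) hm1,
        MP_daa227_pr.mom_mul_shift (k := 1) (F := fun ω => M.W h (ω 0) w)
          (G := fun ω => H M.C (M.W h) B n ω w y) zero_le_one
          (hW0 w) (hHm w) (fun ω ω' h => by simp only [h 0 one_pos]) (fun ω => (M.W_pos _ _ _).le),
        ENNReal.rpow_one, mom_wg M zero_le_one, e2, ENNReal.ofReal_mul (M.C.nonneg z w)]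
      refine mul_le_mul' le_rfl ?_
      have h3 : ENNReal.ofReal (Real.exp (M.v h w)) ≤ 1 := by
        rw [← ENNReal.ofReal_one]
        exact ENNReal.ofReal_le_ofReal (Real.exp_le_one_iff.2 (hv w hUw))
      calc _ ≤ 1 * ENNReal.ofReal (Kb M.C B n w y) :=
            mul_le_mul' h3 (mom_H M hU hv y n w hUw)
        _ = _ := one_mul _
    have hadd : mom M.μ 1 (fun ω => H M.C (M.W h) B (n + 1) ω z y) ≤
        mom M.μ 1 (fun _ => if n = 0 then M.C.p z y else 0) +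
        mom M.μ 1 (fun ω => ∑ w ∈ Finset.Icc (z - 1) (z + 1) \ B,
          M.C.p z w * M.W h (ω 0) w * H M.C (M.W h) B n (shift 1 ω) w y) := by
      refine MP_daa227_pr.mom_add_le zero_le_one le_rfl measurable_const (fun ω => ?_)
        (fun ω => Finset.sum_nonneg fun w _ => ht0 w ω)
      split_ifs
      · exact M.C.nonneg _ _
      · exact le_rfl
    have hi0 : 0 ≤ (if n = 0 then M.C.p z y else 0) := by
      split_ifs
      · exact M.C.nonneg _ _
      · exact le_rfl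
    refine hadd.trans ?_
    rw [Kb, ENNReal.ofReal_add hi0 (Finset.sum_nonneg fun w _ =>
      mul_nonneg (M.C.nonneg _ _) (kb_nonneg M.C B n w y)),
      ENNReal.ofReal_sum_of_nonneg (fun w _ =>
      mul_nonneg (M.C.nonneg _ _) (kb_nonneg M.C B n w y)), MP_daa227_pr.mom_const,
      ENNReal.rpow_one]
    refine add_le_add le_rfl ?_
    exact (MP_daa227_pr.mom_sum_le one_pos le_rfl _ (fun w _ => htm w)
      (fun w _ ω => ht0 w ω)).trans (Finset.sum_le_sum hterm)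

end YMom

/-- Let `U` be a set which can only be left through `B`, with nonpositive annealed exponents `v h` on
`U`, `z ∈ U`. Then `E (G n z y)^γ ≤ Kb(n, z, y)^γ E W(ω, y)^γ`, `G = Gk M.C (M.W h) B`.

Proof. The last step of the path is made at the time of the last charge: `G (n+1) ω z y = H (n+1) ω z *
W h (ω n) y`, where `H 0 = 0`, `H (n+1) ω z = (if n = 0 then p z y else 0) + ∑ w ∈ Icc (z-1) (z+1) \ B,
p z w * W h (ω 0) w * H n (shift 1 ω) w` (the weight of the last site is left out; induction on `n`, the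
shift moves `ω n`). `H (n+1)` depends on the first `n` charges, so `mom_mul_shift` (with `k = n`) gives
`mom γ (G (n+1)) = mom γ (H (n+1)) * mom γ (W (ω 0) y)`. By `mom_le_rpow`, `mom γ H ≤ (mom 1 H)^γ`, and
`mom 1 (H n z) ≤ ofReal (Kb n z y)` for `z ∈ U` by induction on `n` (`HZ.A3.mom_step`-like: the factor
`E W(ω 0, w) = exp (M.v h w) ≤ 1` for `w ∈ Icc (z-1) (z+1) \ B ⊂ U`, `mom_wg` with `γ = 1`:
`vg M 1 h = M.v h`). The case `n = 0` is trivial. -/
theorem mom_exc (M : Mod) {γ h : ℝ} (h0 : 0 < γ) (h1 : γ ≤ 1) {U : ℤ → Prop} {B : Finset ℤ}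
    (hU : ∀ z, U z → ∀ w ∈ Finset.Icc (z - 1) (z + 1), w ∉ B → U w)
    (hv : ∀ z, U z → M.v h z ≤ 0) (n : ℕ) {z : ℤ} (hz : U z) (y : ℤ) :
    mom M.μ γ (fun ω => Gk M.C (M.W h) B n ω z y) ≤
      ENNReal.ofReal (Kb M.C B n z y ^ γ * Real.exp (vg M γ h y)) := by
  have hκ : 0 ≤ M.κ := M.κ_pos.le
  have hW := M.goodW h
  rcases n with _ | n
  · have e1 : mom M.μ γ (fun ω => Gk M.C (M.W h) B 0 ω z y) = 0 :=
      MP_daa227_pr.mom_zero h0
    rw [e1]
    exact zero_le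
  · have hg := YMom.good_H M.C hκ hW B n z y
    have e1 : mom M.μ γ (fun ω => Gk M.C (M.W h) B (n + 1) ω z y) =
        mom M.μ γ (fun ω => YMom.H M.C (M.W h) B (n + 1) ω z y *
          (fun ω' : ℕ → ℝ => M.W h (ω' 0) y) (shift n ω)) :=
      MP_daa227_pr.mom_congr fun ω => by
        rw [YMom.gk_eq]
        simp only [MP_daa227_pr.shift_apply, zero_add]
    rw [e1, MP_daa227_pr.mom_mul_shift (k := n) (F := fun ω => YMom.H M.C (M.W h) B (n + 1) ω z y)
      (G := fun ω' : ℕ → ℝ => M.W h (ω' 0) y) h0.le hg.meas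
      ((hW.meas y).comp (measurable_pi_apply 0)) hg.depOn hg.nonneg, mom_wg M h0.le,
      ENNReal.ofReal_mul (Real.rpow_nonneg (kb_nonneg M.C B (n + 1) z y) γ)]
    refine mul_le_mul' ?_ le_rfl
    rw [← ENNReal.ofReal_rpow_of_nonneg (kb_nonneg M.C B (n + 1) z y) h0.le]
    exact (MP_daa227_pr.mom_le_rpow h0 h1 hg.meas hg.nonneg).trans
      (ENNReal.rpow_le_rpow (YMom.mom_H M hU hv y (n + 1) z hz) h0.le)

end

end Pool.Agent.HG
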