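import Pool.Agent.Lib.MP_daa227_pr_HG.YMom
import Pool.Agent.Lib.MP_daa227_pr.Free
import Pool.Agent.Lib.MP_daa227_pr_HZ.Free

/-!
# MP_daa227_pr, large inverse temperature: fractional moments of the partition functions
-/

namespace Pool.Agent.HG

open MeasureTheory ProbabilityTheory Finset Filter Topology
open MP_daa227_pr (Chain Zk Zf Gk Gf KU K0 Ren shift seqLaw ExpMom DepOn Good GoodW mom)
open Pool.Agent.HZ (Mod Kv lmg)
open Pool.Agent.IOrd (Sys aS cv)

noncomputable section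

/-- The weights in the recursion: outside of `U` the function `t`, in `U` the first visit to `B`. -/
def Tt (M : Mod) (γ h : ℝ) (U : ℤ → Prop) [DecidablePred U] (B : Finset ℤ) (σ : ℤ → ℤ → ℝ)
    (t : ℤ → ℝ) (z : ℤ) : ℝ :=
  if U z then ∑ y ∈ B, σ z y * Real.exp (vg M γ h y) * t y else t z

namespace YRec

private theorem tt_nonneg (M : Mod) {γ h : ℝ} {U : ℤ → Prop} [DecidablePred U] {B : Finset ℤ}
    {t : ℤ → ℝ} (ht : ∀ x, 0 ≤ t x) {σ : ℤ → ℤ → ℝ}
    (hσ : ∀ z, U z → ∀ y ∈ B, 0 ≤ σ z y) (z : ℤ) : 0 ≤ Tt M γ h U B σ t z := by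
  unfold Tt
  split_ifs with hz
  · exact Finset.sum_nonneg fun y hy => mul_nonneg (mul_nonneg (hσ z hz y hy)
      (Real.exp_pos _).le) (ht y)
  · exact ht z

end YRec

/-- Induction on `n` (strong): `mom γ (Zk n x 0) ≤ ofReal (Tt x)` for all `x : ℤ`.
For `n = 0`: `Zk 0 x 0 = 1` if `x = 0` (`¬ U 0`, `1 ≤ t 0`) and `0` else (`Tt ≥ 0`, as `σ ≥ 0`: `hσ`
with
`N = 0`). For `n + 1` and `¬ U x`: `Zk (n+1) ω x 0 = ∑_z p x z W(ω 0) z Zk n (shift 1 ω) z 0`, so
`mom_sum_le`, `mom_const_mul`, `mom_mul_shift`, `mom_wg` give `mom γ (Zk (n+1) x 0) ≤ ∑_z p(x,z)^γ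
exp (vg z) mom γ (Zk n z 0) ≤ ∑_z p(x,z)^γ exp (vg z) Tt z ≤ t x` (`hmain`). For `n ≥ 1` and `U x`:
`MP_daa227_pr.Zk_eq_Ren` (`0 ∈ B`) and `Ren_pos_eq`: `Zk n ω x 0 = ∑_{1 ≤ L ≤ n} ∑_{y ∈ B} Gk L ω x
y *
Zk (n-L) (shift L ω) y 0`, hence `mom γ (Zk n x 0) ≤ ∑_L ∑_y mom γ (Gk L x y) mom γ (Zk (n-L) y 0) ≤
∑_L ∑_y Kb(L, x, y)^γ exp (vg y) t y ≤ ∑_y σ x y exp (vg y) t y = Tt x` (`mom_exc`, the induction
hypothesis for `n - L < n` and `y ∈ B`, `¬ U y`, and `hσ`). Measurability: `MP_daa227_pr.good_Zk`,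
`good_Gk`; model: `mom_Ren_le` in Lib/MP_daa227_pr/Mom.lean. -/
theorem frac_rec (M : Mod) {γ h : ℝ} (h0 : 0 < γ) (h1 : γ ≤ 1) {U : ℤ → Prop} [DecidablePred U]
    {B : Finset ℤ} (hU0 : ¬ U 0) (hB0 : (0 : ℤ) ∈ B) (hBU : ∀ y ∈ B, ¬ U y)
    (hU : ∀ z, U z → ∀ w ∈ Finset.Icc (z - 1) (z + 1), w ∉ B → U w)
    (hv : ∀ z, U z → M.v h z ≤ 0) {t : ℤ → ℝ} (ht : ∀ x, 0 ≤ t x) (ht0 : 1 ≤ t 0)
    {σ : ℤ → ℤ → ℝ} (hσ : ∀ z, U z → ∀ y ∈ B, ∀ N : ℕ,
      ∑ k ∈ range N, Kb M.C B k z y ^ γ ≤ σ z y)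
    (hmain : ∀ x, ¬ U x → ∑ z ∈ Finset.Icc (x - 1) (x + 1),
      M.C.p x z ^ γ * Real.exp (vg M γ h z) * Tt M γ h U B σ t z ≤ t x) :
    ∀ (n : ℕ) (x : ℤ), ¬ U x →
      mom M.μ γ (fun ω => Zk M.C (M.W h) n ω x 0) ≤ ENNReal.ofReal (t x) := by
  have := M.prob
  have hσ0 : ∀ z, U z → ∀ y ∈ B, 0 ≤ σ z y := fun z hz y hy => by
    have h2 := hσ z hz y hy 0
    rwa [Finset.range_zero, Finset.sum_empty] at h2
  have hT0 := YRec.tt_nonneg M (γ := γ) (h := h) ht hσ0
  have key : ∀ (n : ℕ) (x : ℤ), mom M.μ γ (fun ω => Zk M.C (M.W h) n ω x 0) ≤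
      ENNReal.ofReal (Tt M γ h U B σ t x) := by
    intro n
    induction n using Nat.strong_induction_on with
    | _ n ih =>
      intro x
      rcases Nat.eq_zero_or_pos n with hn | hn
      · subst hn
        by_cases hx : x = 0
        · subst hx
          have h2 : mom M.μ γ (fun ω => Zk M.C (M.W h) 0 ω 0 0) = mom M.μ γ (fun _ => 1) :=
            MP_daa227_pr.mom_congr fun ω => by simp [Zk]
          rw [h2, MP_daa227_pr.mom_const, ENNReal.ofReal_one, ENNReal.one_rpow]
          unfold Tt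
          rw [if_neg hU0]
          exact ENNReal.one_le_ofReal.2 ht0
        · have h2 : mom M.μ γ (fun ω => Zk M.C (M.W h) 0 ω x 0) = mom M.μ γ (fun _ => 0) :=
            MP_daa227_pr.mom_congr fun ω => by simp [Zk, hx]
          rw [h2, MP_daa227_pr.mom_zero h0]
          exact zero_le
      · by_cases hx : U x
        · -- first visit to `B`
          have h2 : mom M.μ γ (fun ω => Zk M.C (M.W h) n ω x 0) =
              mom M.μ γ (fun ω => ∑ L ∈ Finset.Ioc 0 n, ∑ y ∈ B,
                Gk M.C (M.W h) B L ω x y * Zk M.C (M.W h) (n - L) (shift L ω) y 0) := by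
            refine MP_daa227_pr.mom_congr fun ω => ?_
            rw [MP_daa227_pr.Zk_eq_Ren M.C (M.W h) B hB0,
              MP_daa227_pr.Ren_pos_eq _ _ (Nat.pos_iff_ne_zero.1 hn)]
            refine Finset.sum_congr rfl fun L _ => Finset.sum_congr rfl fun y _ => ?_
            rw [MP_daa227_pr.Zk_eq_Ren M.C (M.W h) B hB0]
          have hgG : ∀ L y, Good L M.κ (fun ω => Gk M.C (M.W h) B L ω x y) := fun L y =>
            MP_daa227_pr.good_Gk M.C M.κ_pos.le (M.goodW h) B L x y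
          have hg : ∀ L y, Good (L + (n - L)) M.κ (fun ω =>
              Gk M.C (M.W h) B L ω x y * Zk M.C (M.W h) (n - L) (shift L ω) y 0) := fun L y =>
            (hgG L y).mul_shift (M.good_Zk h (n - L) y 0)
          rw [h2]
          refine (MP_daa227_pr.mom_sum_le h0 h1 _ (fun L _ => ?_) (fun L _ ω => ?_)).trans ?_
          · exact Finset.measurable_sum _ fun y _ => (hg L y).meas
          · exact Finset.sum_nonneg fun y _ => (hg L y).nonneg ω
          have h3 : ∀ L ∈ Finset.Ioc 0 n, mom M.μ γ (fun ω => ∑ y ∈ B,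
              Gk M.C (M.W h) B L ω x y * Zk M.C (M.W h) (n - L) (shift L ω) y 0) ≤
              ∑ y ∈ B, ENNReal.ofReal (Kb M.C B L x y ^ γ * Real.exp (vg M γ h y) * t y) := by
            intro L hL
            rw [Finset.mem_Ioc] at hL
            refine (MP_daa227_pr.mom_sum_le h0 h1 _ (fun y _ => (hg L y).meas)
              (fun y _ => (hg L y).nonneg)).trans ?_
            refine Finset.sum_le_sum fun y hy => ?_
            rw [MP_daa227_pr.mom_mul_shift (k := L) (F := fun ω => Gk M.C (M.W h) B L ω x y)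
              (G := fun ω => Zk M.C (M.W h) (n - L) ω y 0) h0.le (hgG L y).meas
              (M.good_Zk h (n - L) y 0).meas (hgG L y).depOn (hgG L y).nonneg]
            have h4 := mom_exc M h0 h1 hU hv L hx y
            have h5 := ih (n - L) (by omega) y
            have h6 : Tt M γ h U B σ t y = t y := by
              unfold Tt
              rw [if_neg (hBU y hy)]
            rw [h6] at h5
            refine (mul_le_mul' h4 h5).trans (le_of_eq ?_)
            rw [← ENNReal.ofReal_mul]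
            exact mul_nonneg (Real.rpow_nonneg (kb_nonneg _ _ _ _ _) _) (Real.exp_pos _).le
          refine (Finset.sum_le_sum h3).trans ?_
          have hnn : ∀ L y, 0 ≤ Kb M.C B L x y ^ γ * Real.exp (vg M γ h y) * t y := fun L y =>
            mul_nonneg (mul_nonneg (Real.rpow_nonneg (kb_nonneg _ _ _ _ _) _)
              (Real.exp_pos _).le) (ht y)
          have h7 : ∀ L ∈ Finset.Ioc 0 n,
              ∑ y ∈ B, ENNReal.ofReal (Kb M.C B L x y ^ γ * Real.exp (vg M γ h y) * t y) =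
              ENNReal.ofReal (∑ y ∈ B, Kb M.C B L x y ^ γ * Real.exp (vg M γ h y) * t y) :=
            fun L _ => (ENNReal.ofReal_sum_of_nonneg fun y _ => hnn L y).symm
          rw [Finset.sum_congr rfl h7, ← ENNReal.ofReal_sum_of_nonneg fun L _ =>
            Finset.sum_nonneg fun y _ => hnn L y]
          apply ENNReal.ofReal_le_ofReal
          unfold Tt
          rw [if_pos hx, Finset.sum_comm]
          refine Finset.sum_le_sum fun y hy => ?_
          have h8 : ∑ L ∈ Finset.Ioc 0 n, Kb M.C B L x y ^ γ * Real.exp (vg M γ h y) * t y =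
              (∑ L ∈ Finset.Ioc 0 n, Kb M.C B L x y ^ γ) * Real.exp (vg M γ h y) * t y := by
            rw [Finset.sum_mul, Finset.sum_mul]
          rw [h8]
          refine mul_le_mul_of_nonneg_right (mul_le_mul_of_nonneg_right ?_
            (Real.exp_pos _).le) (ht y)
          refine le_trans ?_ (hσ x hx y hy (n + 1))
          refine Finset.sum_le_sum_of_subset_of_nonneg (fun L hL => ?_) fun L _ _ =>
            Real.rpow_nonneg (kb_nonneg _ _ _ _ _) _
          rw [Finset.mem_Ioc] at hL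
          rw [Finset.mem_range]
          omega
        · -- one step
          obtain ⟨m, rfl⟩ : ∃ m, n = m + 1 := ⟨n - 1, by omega⟩
          have h2 : mom M.μ γ (fun ω => Zk M.C (M.W h) (m + 1) ω x 0) =
              mom M.μ γ (fun ω => ∑ z ∈ Finset.Icc (x - 1) (x + 1),
                M.C.p x z * M.W h (ω 0) z * (fun ω => Zk M.C (M.W h) m ω z 0) (shift 1 ω)) :=
            MP_daa227_pr.mom_congr fun ω => by simp only [Zk]
          rw [h2]
          refine (MP_daa227_pr.mom_step_le M.C M.κ_pos.le (M.goodW h) h0 h1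
            (Finset.Icc (x - 1) (x + 1)) x
            (fun z => ENNReal.ofReal (Real.exp (vg M γ h z)))
            (F := fun z ω => Zk M.C (M.W h) m ω z 0) (k := m)
            (fun z _ => M.good_Zk h m z 0)
            (fun z => ENNReal.ofReal (Tt M γ h U B σ t z))
            (fun z _ => (mom_wg M h0.le h z).le)
            (fun z _ => ih m (by omega) z)).trans ?_
          have h3 : ∀ z ∈ Finset.Icc (x - 1) (x + 1), ENNReal.ofReal (M.C.p x z) ^ γ *
              ENNReal.ofReal (Real.exp (vg M γ h z)) * ENNReal.ofReal (Tt M γ h U B σ t z) =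
              ENNReal.ofReal (M.C.p x z ^ γ * Real.exp (vg M γ h z) * Tt M γ h U B σ t z) := by
            intro z _
            rw [ENNReal.ofReal_rpow_of_nonneg (M.C.nonneg x z) h0.le,
              ← ENNReal.ofReal_mul (Real.rpow_nonneg (M.C.nonneg x z) _),
              ← ENNReal.ofReal_mul (mul_nonneg (Real.rpow_nonneg (M.C.nonneg x z) _)
                (Real.exp_pos _).le)]
          rw [Finset.sum_congr rfl h3, ← ENNReal.ofReal_sum_of_nonneg fun z _ =>
            mul_nonneg (mul_nonneg (Real.rpow_nonneg (M.C.nonneg x z) _)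
              (Real.exp_pos _).le) (hT0 z)]
          apply ENNReal.ofReal_le_ofReal
          have h4 : Tt M γ h U B σ t x = t x := by
            unfold Tt
            rw [if_neg hx]
          rw [h4]
          exact hmain x hx
  intro n x hx
  have h2 := key n x
  have h3 : Tt M γ h U B σ t x = t x := by
    unfold Tt
    rw [if_neg hx]
  rwa [h3] at h2

/-- `HZ.A2_Ψ_le_of_mom`: `γ Ψ(h, 2n) ≤ log K` for all `n` (`K` replaced by `max K 1`), and
`Ψ(h, 2n) / (2n) → Fr h` (`HZ.A2_le_lim`, `A2_Fr_eq`, or superadditivity of `Ψ`, see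
Lib/MP_daa227_pr_HZ/Free.lean; `HG.tendsto_Fr`). -/
theorem fr_le_of_frac (M : Mod) {γ h K : ℝ} (h0 : 0 < γ)
    (hb : ∀ n : ℕ, mom M.μ γ (fun ω => M.Z h (2 * n) ω) ≤ ENNReal.ofReal K) : M.Fr h ≤ 0 := by
  have hK : 0 < max K 1 := lt_of_lt_of_le one_pos (le_max_right _ _)
  have h2 : ∀ n : ℕ, γ * M.Ψ h (2 * n) ≤ Real.log (max K 1) := by
    intro n
    refine M.A2_Ψ_le_of_mom h0.le (even_two_mul n) ((hb n).trans (ENNReal.ofReal_le_ofReal ?_))
    rw [Real.exp_log hK]
    exact le_max_left _ _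
  have h3 : Tendsto (fun n : ℕ => Real.log (max K 1) / γ / ((2 * n : ℕ) : ℝ)) atTop (𝓝 0) := by
    have h4 : Tendsto (fun n : ℕ => ((2 * n : ℕ) : ℝ)) atTop atTop :=
      tendsto_natCast_atTop_atTop.comp (tendsto_id.const_mul_atTop' (by norm_num))
    exact h4.const_div_atTop _
  refine le_of_tendsto_of_tendsto (M.tendsto_Fr h) h3 ?_
  filter_upwards with n
  refine div_le_div_of_nonneg_right ?_ (Nat.cast_nonneg _)
  rw [le_div_iff₀ h0, mul_comm]
  exact h2 n

end

end Pool.Agent.HG
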